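import Mathlib
import Pool.Agent.Lib_helper71.EQ.Defs

/-! Project EQ (MP_ed6ab2_an): merged modules Lib_helper71.EQ.Flow, Lib_helper71.EQ.DefsD. -/

set_option autoImplicit false

/-! ## Lib_helper71.EQ.Flow -/

section

/-! Project EQ: the geodesic flow of a presentation, with the Jacobi solutions. -/

set_option autoImplicit false

namespace Pool.Agent.EQ

open MeasureTheory Filter Topology Set
open scoped ContDiff

noncomputable section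

/-- The complete geodesic flow on the phase space `Ω × ℝ`, `C¹` jointly, with its derivative in the
frame `X, H, V`: `A, A'` and `B, B'` are the Jacobi solutions of `y'' = kk y` along the orbit. -/
structure GFlow (P : Pres) where
  φ : ℝ → ℂ × ℝ → ℂ × ℝ
  A : ℝ → ℂ × ℝ → ℝ
  A' : ℝ → ℂ × ℝ → ℝ
  B : ℝ → ℂ × ℝ → ℝ
  B' : ℝ → ℂ × ℝ → ℝ
  /-- outside of `Ω × ℝ` nothing moves -/
  out : ∀ t v, v ∉ P.S → φ t v = v
  mem : ∀ t v, v ∈ P.S → φ t v ∈ P.S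
  zero : ∀ v, φ 0 v = v
  add : ∀ s t v, φ (s + t) v = φ s (φ t v)
  deriv_t : ∀ t v, v ∈ P.S → HasDerivAt (fun s => φ s v) (XX P.u (φ t v)) t
  uniq : ∀ c : ℝ → ℂ × ℝ, P.IsGeod c → ∀ s t, c (s + t) = φ s (c t)
  smooth : ContDiffOn ℝ 1 (fun p : ℝ × (ℂ × ℝ) => φ p.1 p.2) (univ ×ˢ P.S)
  /-- periodicity in `θ` -/
  per : ∀ t v, v ∈ P.S → φ t (v.1, v.2 + 2 * Real.pi) = ((φ t v).1, (φ t v).2 + 2 * Real.pi)
  /-- the flow commutes with `G` (the angle up to multiples of `2π`) -/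
  equiv : ∀ g t v, v ∈ P.S → ∃ n : ℤ, φ t (P.actS g v) =
    ((P.actS g (φ t v)).1, (P.actS g (φ t v)).2 + n * (2 * Real.pi))
  /-- time reversal -/
  flip : ∀ t v, v ∈ P.S → φ (-t) (v.1, v.2 + Real.pi) = ((φ t v).1, (φ t v).2 + Real.pi)
  dX : ∀ t v, v ∈ P.S → fderiv ℝ (φ t) v (XX P.u v) = XX P.u (φ t v)
  dH : ∀ t v, v ∈ P.S → fderiv ℝ (φ t) v (HH P.u v) = A t v • HH P.u (φ t v) + A' t v • VV
  dV : ∀ t v, v ∈ P.S → fderiv ℝ (φ t) v VV = B t v • HH P.u (φ t v) + B' t v • VV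
  A0 : ∀ v, A 0 v = 1
  A'0 : ∀ v, A' 0 v = 0
  B0 : ∀ v, B 0 v = 0
  B'0 : ∀ v, B' 0 v = 1
  hA : ∀ t v, v ∈ P.S → HasDerivAt (fun s => A s v) (A' t v) t
  hA' : ∀ t v, v ∈ P.S → HasDerivAt (fun s => A' s v) (kk P.u (φ t v).1 * A t v) t
  hB : ∀ t v, v ∈ P.S → HasDerivAt (fun s => B s v) (B' t v) t
  hB' : ∀ t v, v ∈ P.S → HasDerivAt (fun s => B' s v) (kk P.u (φ t v).1 * B t v) t

/-- Liouville measure on the (infinite) cover `Ω × ℝ` -/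
def Pres.m (P : Pres) : Measure (ℂ × ℝ) :=
  (volume.restrict P.S).withDensity (fun v => ENNReal.ofReal (Real.exp (2 * P.u v.1)))

/-- rotation by the angle `b` in the fibres -/
def rot (b : ℝ) (v : ℂ × ℝ) : ℂ × ℝ := (v.1, v.2 + b)

/-- `S_b = φ_{-T} R_b φ_T`: for fixed `T` a one-parameter group of measure preserving maps. -/
def GFlow.St {P : Pres} (Φ : GFlow P) (T b : ℝ) (v : ℂ × ℝ) : ℂ × ℝ :=
  Φ.φ (-T) (rot b (Φ.φ T v))

/-- the Jacobi solution along the orbit of `v` that vanishes at time `T` (with derivative `-1` at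
`T`), at time `0`; positive for `T > 0`. -/
def GFlow.J {P : Pres} (Φ : GFlow P) (T : ℝ) (v : ℂ × ℝ) : ℝ := -Φ.B (-T) (Φ.φ T v)

/-- `u_T(v) J_T(v)`: minus the derivative at time `0` of that solution. -/
def GFlow.J' {P : Pres} (Φ : GFlow P) (T : ℝ) (v : ℂ × ℝ) : ℝ := Φ.B' (-T) (Φ.φ T v)

end

end Pool.Agent.EQ

end

/-! ## Lib_helper71.EQ.DefsD -/

section

/-! Project EQ, package D (dynamics): definitions. -/

set_option autoImplicit false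

namespace Pool.Agent.EQ

open MeasureTheory Filter Topology Set
open scoped ContDiff ENNReal

noncomputable section

/-- a function on the unit tangent bundle of `Ω / G`, lifted to `Ω × ℝ` -/
structure Pres.IsInv (P : Pres) {α : Type*} (Q : ℂ × ℝ → α) : Prop where
  per : ∀ v ∈ P.S, Q (v.1, v.2 + 2 * Real.pi) = Q v
  inv : ∀ g, ∀ v ∈ P.S, Q (P.actS g v) = Q v

/-- the function `U` (a lower bound for the Riccati solution along all orbits `δ`-close to that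
of `v`) -/
def GFlow.U {P : Pres} (Φ : GFlow P) (κ ℓ : ℝ) (v : ℂ × ℝ) : ℝ :=
  Real.exp (-κ - 1) * ∫ s in (0 : ℝ)..1, max (kk P.u (Φ.φ s v).1 - ℓ) 0

/-- `S_a(v) = ∫_0^a U(φ_s v) ds` -/
def GFlow.Sa {P : Pres} (Φ : GFlow P) (κ ℓ : ℝ) (a : ℝ) (v : ℂ × ℝ) : ℝ :=
  ∫ s in (0 : ℝ)..a, Φ.U κ ℓ (Φ.φ s v)

/-- `g(v) = ∫_0^∞ exp(-S_a(v)/2) da` -/
def GFlow.gg {P : Pres} (Φ : GFlow P) (κ ℓ : ℝ) (v : ℂ × ℝ) : ℝ≥0∞ :=
  ∫⁻ a in Ioi (0 : ℝ), ENNReal.ofReal (Real.exp (-(Φ.Sa κ ℓ a v) / 2))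

/-- `H`-length of the curve `s ↦ S_s v`, `s` between `0` and `b` -/
def GFlow.len {P : Pres} (Φ : GFlow P) (T b : ℝ) (v : ℂ × ℝ) : ℝ :=
  |∫ s in (0 : ℝ)..b, Φ.J T (Φ.St T s v)|

/-- the map `Ξ(v,b₁,b₂,t) = (S_{b₁} v, S'_{b₂} φ_t v)` -/
def GFlow.Xi {P : Pres} (Φ : GFlow P) (T : ℝ) (p : (ℂ × ℝ) × ℝ × ℝ × ℝ) :
    (ℂ × ℝ) × (ℂ × ℝ) :=
  (Φ.St T p.2.1 p.1, Φ.St (-T) p.2.2.1 (Φ.φ p.2.2.2 p.1))

/-- the Jacobian of `Ξ` with respect to the Liouville measure -/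
def GFlow.Jac {P : Pres} (Φ : GFlow P) (T : ℝ) (p : (ℂ × ℝ) × ℝ × ℝ × ℝ) : ℝ :=
  |Φ.J T p.1 * Φ.J' (p.2.2.2 - T) p.1 - Φ.J' T p.1 * Φ.J (p.2.2.2 - T) p.1|

end

end Pool.Agent.EQ

end

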