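import Mathlib
import Pool.Agent.Lib_helper71.EQM.FlowDefs

/-! Project EQ (MP_ed6ab2_an): merged modules Lib_helper89.EQ.OD1, Lib_helper89.EQ.OD2, Lib_helper89.EQ.OD3, Lib_helper89.EQ.GF1, Lib_helper89.EQ.GF2, Lib_helper89.EQ.GF3, Lib_helper89.EQ.GF4, Lib_helper71.EQ.D.O. -/

set_option autoImplicit false

/-! ## Lib_helper89.EQ.OD1 -/

section

/-! # Ordinary differential equations: uniqueness, gluing, completeness -/

set_option autoImplicit false

namespace Pool.Agent.EQ.OD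

open Set Filter Topology Metric
open scoped NNReal ContDiff

variable {E : Type*} [NormedAddCommGroup E] [NormedSpace ℝ E]

/-- two-sided Gronwall inequality -/
theorem gron {f f' : ℝ → E} {δ K ε T : ℝ} (hf : ∀ t, |t| ≤ T → HasDerivAt f (f' t) t)
    (h0 : ‖f 0‖ ≤ δ) (hb : ∀ t, |t| ≤ T → ‖f' t‖ ≤ K * ‖f t‖ + ε) {t : ℝ} (ht : |t| ≤ T) :
    ‖f t‖ ≤ gronwallBound δ K ε |t| := by
  rcases le_total 0 t with h | h
  · rw [abs_of_nonneg h] at ht ⊢
    have key := norm_le_gronwallBound_of_norm_deriv_right_le (f := f) (f' := f') (δ := δ)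
      (K := K) (ε := ε) (a := 0) (b := t)
      (fun s hs => (hf s (by rw [abs_of_nonneg hs.1]; exact hs.2.trans ht)).continuousAt.continuousWithinAt)
      (fun s hs => (hf s (by rw [abs_of_nonneg hs.1]; exact hs.2.le.trans ht)).hasDerivWithinAt)
      h0 (fun s hs => hb s (by rw [abs_of_nonneg hs.1]; exact hs.2.le.trans ht)) t ⟨h, le_rfl⟩
    rwa [sub_zero] at key
  · rw [abs_of_nonpos h] at ht ⊢
    have hd : ∀ s, 0 ≤ s → s ≤ -t → HasDerivAt (fun s => f (-s)) (-f' (-s)) s := by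
      intro s hs hs'
      have h1 : HasDerivAt f (f' (-s)) (-s) := hf (-s) (by
        rw [abs_neg, abs_of_nonneg hs]; exact hs'.trans ht)
      have h2 := h1.scomp s (hasDerivAt_neg s)
      rw [neg_one_smul] at h2
      exact h2
    have key := norm_le_gronwallBound_of_norm_deriv_right_le (f := fun s => f (-s))
      (f' := fun s => -f' (-s)) (δ := δ)
      (K := K) (ε := ε) (a := 0) (b := -t)
      (fun s hs => (hd s hs.1 hs.2).continuousAt.continuousWithinAt)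
      (fun s hs => (hd s hs.1 hs.2.le).hasDerivWithinAt)
      (by simpa using h0) (fun s hs => by
        rw [norm_neg]
        exact hb (-s) (by rw [abs_neg, abs_of_nonneg hs.1]; exact hs.2.le.trans ht))
      (-t) ⟨by linarith, le_rfl⟩
    rw [sub_zero, neg_neg] at key
    exact key

/-- the Gronwall bound is linear in the error -/
theorem gron_lin (K ε x : ℝ) : gronwallBound 0 K ε x = ε * gronwallBound 0 K 1 x := by
  unfold gronwallBound
  split_ifs with h
  · ring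
  · ring

/-- the Gronwall bound `0, K, 1` is monotone -/
theorem gron_mono {K x y : ℝ} (hK : 0 ≤ K) (hxy : x ≤ y) :
    gronwallBound 0 K 1 x ≤ gronwallBound 0 K 1 y :=
  gronwallBound_mono le_rfl zero_le_one hK hxy

/-- `γ` is a solution of `γ' = F(γ)` in `U` at the times in `I`. -/
def Sol (F : E → E) (U : Set E) (γ : ℝ → E) (I : Set ℝ) : Prop :=
  ∀ t ∈ I, γ t ∈ U ∧ HasDerivAt γ (F (γ t)) t

theorem Sol.mono {F : E → E} {U : Set E} {γ : ℝ → E} {I J : Set ℝ} (h : Sol F U γ I)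
    (hJ : J ⊆ I) : Sol F U γ J := fun t ht => h t (hJ ht)

theorem Sol.shift {F : E → E} {U : Set E} {γ : ℝ → E} {a b : ℝ} (h : Sol F U γ (Ioo a b))
    (s : ℝ) : Sol F U (fun t => γ (t - s)) (Ioo (a + s) (b + s)) := by
  intro t ht
  have h1 := h (t - s) ⟨by linarith [ht.1], by linarith [ht.2]⟩
  exact ⟨h1.1, by simpa using h1.2.comp_sub_const t s⟩

theorem Sol.shift_univ {F : E → E} {U : Set E} {γ : ℝ → E} (h : Sol F U γ univ)
    (s : ℝ) : Sol F U (fun t => γ (t + s)) univ := by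
  intro t _
  have h1 := h (t + s) (mem_univ _)
  exact ⟨h1.1, by simpa using h1.2.comp_add_const t s⟩

/-- local uniqueness -/
theorem Sol.loc_unique {F : E → E} {U : Set E} (hU : IsOpen U) (hF : ContDiffOn ℝ 1 F U)
    {γ γ' : ℝ → E} {t₀ : ℝ} (h : ∀ᶠ t in 𝓝 t₀, γ t ∈ U ∧ HasDerivAt γ (F (γ t)) t)
    (h' : ∀ᶠ t in 𝓝 t₀, γ' t ∈ U ∧ HasDerivAt γ' (F (γ' t)) t) (heq : γ t₀ = γ' t₀) :
    γ =ᶠ[𝓝 t₀] γ' := by
  have h0 := h.self_of_nhds
  have h0' := h'.self_of_nhds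
  obtain ⟨K, s, hs, hL⟩ := (hF.contDiffAt (hU.mem_nhds h0.1)).exists_lipschitzOnWith
  refine ODE_solution_unique_of_eventually (v := fun _ => F) (s := fun _ => s) (K := K)
    (Eventually.of_forall fun _ => hL) ?_ ?_ heq
  · filter_upwards [h, h0.2.continuousAt.eventually_mem hs] with t h1 h2
    exact ⟨h1.2, h2⟩
  · rw [heq] at hs
    filter_upwards [h', h0'.2.continuousAt.eventually_mem hs] with t h1 h2
    exact ⟨h1.2, h2⟩

/-- uniqueness on open intervals -/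
theorem Sol.unique {F : E → E} {U : Set E} (hU : IsOpen U) (hF : ContDiffOn ℝ 1 F U)
    {γ γ' : ℝ → E} {I : Set ℝ} (hI : IsOpen I) (hc : IsPreconnected I) (h : Sol F U γ I)
    (h' : Sol F U γ' I) {t₀ : ℝ} (ht₀ : t₀ ∈ I) (heq : γ t₀ = γ' t₀) : EqOn γ γ' I := by
  have key : I ⊆ {t | γ t = γ' t} ∩ I := by
    apply hc.subset_of_closure_inter_subset (u := {t | γ t = γ' t} ∩ I)
    · rw [isOpen_iff_mem_nhds]
      rintro t ⟨ht, htI⟩
      have hev : γ =ᶠ[𝓝 t] γ' := by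
        apply Sol.loc_unique hU hF _ _ ht
        · filter_upwards [hI.mem_nhds htI] with s hs using h s hs
        · filter_upwards [hI.mem_nhds htI] with s hs using h' s hs
      filter_upwards [hev, hI.mem_nhds htI] with s h1 h2 using ⟨h1, h2⟩
    · exact ⟨t₀, ht₀, heq, ht₀⟩
    · rintro t ⟨htc, htI⟩
      refine ⟨?_, htI⟩
      by_contra hne
      have h1 : ∀ᶠ s in 𝓝 t, γ s ≠ γ' s :=
        (ContinuousAt.ne_iff_eventually_ne (h t htI).2.continuousAt (h' t htI).2.continuousAt).1 hne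
      obtain ⟨s, hs, hs2⟩ := mem_closure_iff_nhds.1 htc _ h1
      exact hs hs2.1
  exact fun t ht => (key ht).1

/-- patching two solutions -/
theorem Sol.union {F : E → E} {U : Set E} (hU : IsOpen U) (hF : ContDiffOn ℝ 1 F U)
    {γ γ' : ℝ → E} {a b a' b' t₀ : ℝ} (h : Sol F U γ (Ioo a b)) (h' : Sol F U γ' (Ioo a' b'))
    (ht₀ : t₀ ∈ Ioo a b ∩ Ioo a' b') (heq : γ t₀ = γ' t₀) :
    ∃ γ'' : ℝ → E, EqOn γ'' γ (Ioo a b) ∧ Sol F U γ'' (Ioo a b ∪ Ioo a' b') := by
  classical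
  have hov : EqOn γ γ' (Ioo a b ∩ Ioo a' b') := by
    apply Sol.unique hU hF (isOpen_Ioo.inter isOpen_Ioo)
      (by rw [Ioo_inter_Ioo]; exact isPreconnected_Ioo) (h.mono inter_subset_left)
      (h'.mono inter_subset_right) ht₀ heq
  have e1 : EqOn ((Ioo a b).piecewise γ γ') γ (Ioo a b) := piecewise_eqOn _ _ _
  have e2 : EqOn ((Ioo a b).piecewise γ γ') γ' (Ioo a' b') := by
    intro t ht
    by_cases hm : t ∈ Ioo a b
    · rw [piecewise_eq_of_mem _ _ _ hm]
      exact hov ⟨hm, ht⟩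
    · rw [piecewise_eq_of_notMem _ _ _ hm]
  refine ⟨(Ioo a b).piecewise γ γ', e1, ?_⟩
  rintro t (ht | ht)
  · have h1 := h t ht
    refine ⟨by rw [e1 ht]; exact h1.1, ?_⟩
    rw [e1 ht]
    exact h1.2.congr_of_eventuallyEq (e1.eventuallyEq_of_mem (isOpen_Ioo.mem_nhds ht))
  · have h1 := h' t ht
    refine ⟨by rw [e2 ht]; exact h1.1, ?_⟩
    rw [e2 ht]
    exact h1.2.congr_of_eventuallyEq (e2.eventuallyEq_of_mem (isOpen_Ioo.mem_nhds ht))

/-- global solutions from solutions on all intervals `(-n, n)` -/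
theorem Sol.glue {F : E → E} {U : Set E} (hU : IsOpen U) (hF : ContDiffOn ℝ 1 F U) {x : E}
    (h : ∀ n : ℕ, ∃ γ : ℝ → E, γ 0 = x ∧ Sol F U γ (Ioo (-((n : ℝ) + 1)) (n + 1))) :
    ∃ γ : ℝ → E, γ 0 = x ∧ Sol F U γ univ := by
  choose γ h0 hs using h
  have hag : ∀ m n : ℕ, m ≤ n → EqOn (γ m) (γ n) (Ioo (-((m : ℝ) + 1)) (m + 1)) := by
    intro m n hmn
    have hmn' : (m : ℝ) ≤ n := by exact_mod_cast hmn
    apply Sol.unique hU hF isOpen_Ioo isPreconnected_Ioo (hs m)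
      ((hs n).mono (Ioo_subset_Ioo (by linarith) (by linarith))) (t₀ := 0)
    · have : (0 : ℝ) ≤ m := by positivity
      exact ⟨by linarith, by linarith⟩
    · rw [h0, h0]
  refine ⟨fun t => γ ⌈|t|⌉₊ t, by simpa using h0 _, fun t _ => ?_⟩
  set N := ⌈|t|⌉₊ with hN
  have htN : |t| < N + 1 := by
    have := Nat.le_ceil |t|
    rw [← hN] at this
    linarith
  have hmem : t ∈ Ioo (-((N : ℝ) + 1)) (N + 1) := abs_lt.1 htN
  have heq : (fun s => γ ⌈|s|⌉₊ s) =ᶠ[𝓝 t] γ N := by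
    filter_upwards [isOpen_Ioo.mem_nhds hmem] with s hsm
    rcases le_total ⌈|s|⌉₊ N with hc | hc
    · apply hag _ _ hc
      have h1 : |s| < ⌈|s|⌉₊ + 1 := by
        have := Nat.le_ceil |s|
        linarith
      exact abs_lt.1 h1
    · exact (hag _ _ hc hsm).symm
  have h1 := hs N t hmem
  exact ⟨h1.1, h1.2.congr_of_eventuallyEq heq⟩

/-- completeness from a uniform existence time -/
theorem Sol.complete {F : E → E} {U : Set E} (hU : IsOpen U) (hF : ContDiffOn ℝ 1 F U) {ε : ℝ}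
    (hε : 0 < ε) (h : ∀ x ∈ U, ∃ γ : ℝ → E, γ 0 = x ∧ Sol F U γ (Ioo (-ε) ε)) :
    ∀ x ∈ U, ∃ γ : ℝ → E, γ 0 = x ∧ Sol F U γ univ := by
  have step : ∀ n : ℕ, ∀ x ∈ U, ∃ γ : ℝ → E, γ 0 = x ∧
      Sol F U γ (Ioo (-(ε + n * (ε / 2))) (ε + n * (ε / 2))) := by
    intro n
    induction n with
    | zero =>
      intro x hx
      obtain ⟨γ, h0, h1⟩ := h x hx
      refine ⟨γ, h0, ?_⟩
      simpa using h1
    | succ n ih =>
      intro x hx
      obtain ⟨γ, h0, h1⟩ := ih x hx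
      set r : ℝ := ε + n * (ε / 2) with hr
      have hnn : 0 ≤ (n : ℝ) * (ε / 2) := by positivity
      have hr0 : ε ≤ r := by linarith
      have hrs : ε + ((n + 1 : ℕ) : ℝ) * (ε / 2) = r + ε / 2 := by
        push_cast
        rw [hr]; ring
      rw [hrs]
      -- forward
      have m1 : r - ε / 2 ∈ Ioo (-r) r := ⟨by linarith, by linarith⟩
      obtain ⟨γ1, h10, h11⟩ := h _ (h1 _ m1).1
      have h12 := h11.shift (r - ε / 2)
      obtain ⟨γ2, e2, h2⟩ := Sol.union hU hF h1 h12 (t₀ := r - ε / 2)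
        ⟨m1, ⟨by linarith, by linarith⟩⟩ (by simp only [sub_self, h10])
      have h2' : Sol F U γ2 (Ioo (-r) (r + ε / 2)) := by
        apply h2.mono
        intro t ht
        by_cases hc : t < r
        · exact Or.inl ⟨ht.1, hc⟩
        · exact Or.inr ⟨by linarith [not_lt.1 hc], by linarith [ht.2]⟩
      -- backward
      have m2 : -(r - ε / 2) ∈ Ioo (-r) (r + ε / 2) := ⟨by linarith, by linarith⟩
      obtain ⟨γ3, h30, h31⟩ := h _ (h2' _ m2).1
      have h32 := h31.shift (-(r - ε / 2))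
      obtain ⟨γ4, e4, h4⟩ := Sol.union hU hF h2' h32 (t₀ := -(r - ε / 2))
        ⟨m2, ⟨by linarith, by linarith⟩⟩ (by simp only [sub_self, h30])
      refine ⟨γ4, ?_, ?_⟩
      · rw [e4 ⟨by linarith, by linarith⟩, e2 ⟨by linarith, by linarith⟩, h0]
      · apply h4.mono
        intro t ht
        by_cases hc : -r < t
        · exact Or.inl ⟨hc, ht.2⟩
        · exact Or.inr ⟨by linarith [ht.1], by linarith [not_lt.1 hc]⟩
  intro x hx
  apply Sol.glue hU hF
  intro n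
  obtain ⟨N, hN⟩ := exists_nat_gt (((n : ℝ) + 1) / (ε / 2))
  obtain ⟨γ, h0, h1⟩ := step N x hx
  refine ⟨γ, h0, h1.mono ?_⟩
  have hN' : (n : ℝ) + 1 < N * (ε / 2) := by
    rwa [div_lt_iff₀ (by positivity)] at hN
  exact Ioo_subset_Ioo (by linarith) (by linarith)

end Pool.Agent.EQ.OD

end

/-! ## Lib_helper89.EQ.OD2 -/

section

/-! # The `C¹` flow of a nice vector field -/

set_option autoImplicit false

namespace Pool.Agent.EQ.OD

open Set Filter Topology Metric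
open scoped NNReal ContDiff

variable {E : Type*} [NormedAddCommGroup E] [NormedSpace ℝ E]

/-- a bounded `C²` field with bounded Lipschitz derivative -/
structure Nice (G : E → E) (K : ℝ) : Prop where
  c2 : ContDiff ℝ 2 G
  bdd : ∀ x, ‖G x‖ ≤ K
  dbdd : ∀ x, ‖fderiv ℝ G x‖ ≤ K
  dlip : ∀ x y, ‖fderiv ℝ G x - fderiv ℝ G y‖ ≤ K * ‖x - y‖

theorem Nice.pos {G : E → E} {K : ℝ} (h : Nice G K) : 0 ≤ K := (norm_nonneg _).trans (h.bdd 0)

theorem Nice.of_compact [FiniteDimensional ℝ E] {G : E → E} (hG : ContDiff ℝ 2 G)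
    (hs : HasCompactSupport G) : ∃ K, Nice G K := by
  obtain ⟨M, hM⟩ := hG.continuous.bounded_above_of_compact_support hs
  have hd : ContDiff ℝ 1 (fderiv ℝ G) := hG.fderiv_right (by norm_num)
  obtain ⟨M', hM'⟩ := hd.continuous.bounded_above_of_compact_support (hs.fderiv ℝ)
  obtain ⟨L, hL⟩ := ContDiff.lipschitzWith_of_hasCompactSupport (hs.fderiv ℝ) hd one_ne_zero
  refine ⟨max M (max M' L), hG, fun x => (hM x).trans (le_max_left _ _),
    fun x => (hM' x).trans ((le_max_left _ _).trans (le_max_right _ _)), fun x y => ?_⟩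
  have h1 := hL.dist_le_mul x y
  rw [dist_eq_norm, dist_eq_norm] at h1
  exact h1.trans (mul_le_mul_of_nonneg_right ((le_max_right _ _).trans (le_max_right _ _))
    (norm_nonneg _))

theorem Nice.diff {G : E → E} {K : ℝ} (h : Nice G K) (x : E) : DifferentiableAt ℝ G x :=
  (h.c2.differentiable (by norm_num)) x

theorem Nice.lip {G : E → E} {K : ℝ} (h : Nice G K) (x y : E) : ‖G x - G y‖ ≤ K * ‖x - y‖ := by
  exact Convex.norm_image_sub_le_of_norm_fderiv_le (𝕜 := ℝ) (s := univ) (fun z _ => h.diff z)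
    (fun z _ => h.dbdd z) convex_univ (mem_univ y) (mem_univ x)

theorem Nice.taylor {G : E → E} {K : ℝ} (h : Nice G K) (x y : E) :
    ‖G y - G x - fderiv ℝ G x (y - x)‖ ≤ K * ‖y - x‖ ^ 2 := by
  have h1 := Convex.norm_image_sub_le_of_norm_hasFDerivWithin_le' (𝕜 := ℝ) (f := G)
    (f' := fderiv ℝ G) (s := segment ℝ x y) (φ := fderiv ℝ G x) (C := K * ‖y - x‖)
    (fun z _ => (h.diff z).hasFDerivAt.hasFDerivWithinAt) (fun z hz => ?_)
    (convex_segment x y) (left_mem_segment ℝ x y) (right_mem_segment ℝ x y)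
  · rw [sq, ← mul_assoc]
    exact h1
  · refine (h.dlip z x).trans (mul_le_mul_of_nonneg_left ?_ h.pos)
    obtain ⟨a, b, ha, hb, hab, rfl⟩ := hz
    have e : a • x + b • y - x = b • (y - x) := by
      rw [show a = 1 - b by linarith, sub_smul, one_smul, smul_sub]; abel
    rw [e, norm_smul, Real.norm_of_nonneg hb]
    exact mul_le_of_le_one_left (norm_nonneg _) (by linarith)

/-- the extended field -/
noncomputable def ext (G : E → E) (p : E × (E →L[ℝ] E)) : E × (E →L[ℝ] E) :=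
  (G p.1, (fderiv ℝ G p.1).comp p.2)

theorem ext_contDiff {G : E → E} (hG : ContDiff ℝ 2 G) : ContDiff ℝ 1 (ext G) := by
  have hd : ContDiff ℝ 1 (fderiv ℝ G) := hG.fderiv_right (by norm_num)
  exact ((hG.of_le (by norm_num)).comp contDiff_fst).prodMk
    ((hd.comp contDiff_fst).clm_comp contDiff_snd)

theorem Nice.exists_ext [FiniteDimensional ℝ E] {G : E → E} {K : ℝ} (h : Nice G K)
    (p : E × (E →L[ℝ] E)) :
    ∃ γ : ℝ → E × (E →L[ℝ] E), γ 0 = p ∧ Sol (ext G) univ γ univ := by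
  have hK := h.pos
  set ε : ℝ := 1 / (3 * K + 1) with hεd
  have hε : 0 < ε := by positivity
  refine Sol.complete isOpen_univ (ext_contDiff h.c2).contDiffOn hε (fun p _ => ?_) p (mem_univ p)
  set a : ℝ≥0 := ⟨‖p.2‖ + 1, by positivity⟩ with ha
  have hc1 : ContDiff ℝ 1 (ext G) := ext_contDiff h.c2
  obtain ⟨C, hC⟩ := (isCompact_closedBall p (a : ℝ)).exists_bound_of_continuousOn
    (hc1.continuous_fderiv (by norm_num)).continuousOn
  have hlip : LipschitzOnWith C.toNNReal (ext G) (closedBall p a) := by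
    apply Convex.lipschitzOnWith_of_nnnorm_fderiv_le (𝕜 := ℝ)
      (fun z _ => hc1.differentiable (by norm_num) z) _ (convex_closedBall _ _)
    intro z hz
    rw [← NNReal.coe_le_coe, coe_nnnorm]
    exact (hC z hz).trans (Real.le_coe_toNNReal C)
  set L : ℝ≥0 := ⟨3 * K * (‖p.2‖ + 1), by positivity⟩ with hL
  have hbd : ∀ z ∈ closedBall p a, ‖ext G z‖ ≤ L := by
    intro z hz
    rw [mem_closedBall, Prod.dist_eq, max_le_iff] at hz
    have hz2 : ‖z.2‖ ≤ 2 * ‖p.2‖ + 1 := by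
      have h1 := hz.2
      rw [dist_eq_norm] at h1
      have h2 : ‖z.2‖ ≤ ‖z.2 - p.2‖ + ‖p.2‖ := by
        simpa using norm_add_le (z.2 - p.2) p.2
      have h3 : ‖z.2 - p.2‖ ≤ ‖p.2‖ + 1 := h1
      linarith
    show ‖ext G z‖ ≤ 3 * K * (‖p.2‖ + 1)
    rw [Prod.norm_def, max_le_iff]
    constructor
    · refine (h.bdd _).trans ?_
      nlinarith [norm_nonneg p.2, mul_nonneg hK (norm_nonneg p.2)]
    · calc ‖(fderiv ℝ G z.1).comp z.2‖ ≤ ‖fderiv ℝ G z.1‖ * ‖z.2‖ :=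
            ContinuousLinearMap.opNorm_comp_le _ _
        _ ≤ K * (2 * ‖p.2‖ + 1) := by
            apply mul_le_mul (h.dbdd _) hz2 (norm_nonneg _) hK
        _ ≤ _ := by nlinarith [norm_nonneg p.2, mul_nonneg hK (norm_nonneg p.2)]
  have hmem : (0 : ℝ) ∈ Icc (-ε) ε := ⟨by linarith, by linarith⟩
  have hpl : IsPicardLindelof (fun _ => ext G) (tmin := -ε) (tmax := ε) ⟨0, hmem⟩ p a 0 L
      C.toNNReal := by
    refine IsPicardLindelof.of_time_independent hbd hlip ?_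
    simp only [sub_zero, zero_sub, neg_neg, max_self, NNReal.coe_zero]
    show 3 * K * (‖p.2‖ + 1) * ε ≤ ‖p.2‖ + 1
    have h1 : 3 * K * ε ≤ 1 := by
      rw [hεd, mul_one_div, div_le_one (by positivity)]
      linarith
    calc 3 * K * (‖p.2‖ + 1) * ε = (3 * K * ε) * (‖p.2‖ + 1) := by ring
      _ ≤ 1 * (‖p.2‖ + 1) := by gcongr
      _ = _ := one_mul _
  obtain ⟨γ, h0, h1⟩ := hpl.exists_eq_forall_mem_Icc_hasDerivWithinAt₀
  exact ⟨γ, h0, fun t ht => ⟨mem_univ _, (h1 t (Ioo_subset_Icc_self ht)).hasDerivAt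
    (Icc_mem_nhds ht.1 ht.2)⟩⟩

/-- a flow with its derivative -/
structure FlowData (G : E → E) where
  Ψ : ℝ → E → E
  D : ℝ → E → E →L[ℝ] E
  zero : ∀ x, Ψ 0 x = x
  D0 : ∀ x, D 0 x = ContinuousLinearMap.id ℝ E
  dt : ∀ t x, HasDerivAt (fun s => Ψ s x) (G (Ψ t x)) t
  dD : ∀ t x, HasDerivAt (fun s => D s x) ((fderiv ℝ G (Ψ t x)).comp (D t x)) t

theorem Nice.exists_flow [FiniteDimensional ℝ E] {G : E → E} {K : ℝ} (h : Nice G K) :
    Nonempty (FlowData G) := by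
  choose γ h0 h1 using fun x : E => h.exists_ext (x, ContinuousLinearMap.id ℝ E)
  refine ⟨⟨fun t x => (γ x t).1, fun t x => (γ x t).2, fun x => by rw [h0], fun x => by rw [h0],
    fun t x => ?_, fun t x => ?_⟩⟩
  · exact (h1 x t (mem_univ _)).2.fst
  · exact (h1 x t (mem_univ _)).2.snd

namespace FlowData

variable {G : E → E} {K : ℝ} (h : Nice G K) (Φ : FlowData G)

include h in
theorem lip (t : ℝ) (x y : E) : ‖Φ.Ψ t x - Φ.Ψ t y‖ ≤ ‖x - y‖ * Real.exp (K * |t|) := by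
  have h1 := gron (f := fun s => Φ.Ψ s x - Φ.Ψ s y) (f' := fun s => G (Φ.Ψ s x) - G (Φ.Ψ s y))
    (δ := ‖x - y‖) (K := K) (ε := 0) (T := |t|) (fun s _ => (Φ.dt s x).sub (Φ.dt s y))
    (by rw [Φ.zero, Φ.zero]) (fun s _ => by rw [add_zero]; exact h.lip _ _) (t := t) le_rfl
  rwa [gronwallBound_ε0] at h1

include h in
theorem Dbdd (t : ℝ) (x : E) : ‖Φ.D t x‖ ≤ Real.exp (K * |t|) := by
  have h1 := gron (f := fun s => Φ.D s x) (f' := fun s => (fderiv ℝ G (Φ.Ψ s x)).comp (Φ.D s x))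
    (δ := 1) (K := K) (ε := 0) (T := |t|) (fun s _ => Φ.dD s x)
    (by rw [Φ.D0]; exact ContinuousLinearMap.norm_id_le) (fun s _ => by
      rw [add_zero]
      exact (ContinuousLinearMap.opNorm_comp_le _ _).trans
        (mul_le_mul_of_nonneg_right (h.dbdd _) (norm_nonneg _))) (t := t) le_rfl
  rwa [gronwallBound_ε0, one_mul] at h1

include h in
theorem Dlip (t : ℝ) (x y : E) : ‖Φ.D t x - Φ.D t y‖ ≤
    K * Real.exp (K * |t|) ^ 2 * gronwallBound 0 K 1 |t| * ‖x - y‖ := by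
  have h1 := gron (f := fun s => Φ.D s x - Φ.D s y)
    (f' := fun s => (fderiv ℝ G (Φ.Ψ s x)).comp (Φ.D s x) -
      (fderiv ℝ G (Φ.Ψ s y)).comp (Φ.D s y))
    (δ := 0) (K := K) (ε := K * Real.exp (K * |t|) ^ 2 * ‖x - y‖) (T := |t|)
    (fun s _ => (Φ.dD s x).sub (Φ.dD s y))
    (by rw [Φ.D0, Φ.D0, sub_self, norm_zero]) (fun s hs => ?_) (t := t) le_rfl
  · rw [gron_lin] at h1
    refine h1.trans (le_of_eq (by ring))
  · have e : (fderiv ℝ G (Φ.Ψ s x)).comp (Φ.D s x) - (fderiv ℝ G (Φ.Ψ s y)).comp (Φ.D s y) =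
        (fderiv ℝ G (Φ.Ψ s x)).comp (Φ.D s x - Φ.D s y) +
          (fderiv ℝ G (Φ.Ψ s x) - fderiv ℝ G (Φ.Ψ s y)).comp (Φ.D s y) := by
      ext v
      simp
    rw [e]
    have hexp : Real.exp (K * |s|) ≤ Real.exp (K * |t|) := by
      apply Real.exp_le_exp.2
      exact mul_le_mul_of_nonneg_left hs h.pos
    refine (norm_add_le _ _).trans (add_le_add ?_ ?_)
    · exact (ContinuousLinearMap.opNorm_comp_le _ _).trans
        (mul_le_mul_of_nonneg_right (h.dbdd _) (norm_nonneg _))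
    · calc _ ≤ ‖fderiv ℝ G (Φ.Ψ s x) - fderiv ℝ G (Φ.Ψ s y)‖ * ‖Φ.D s y‖ :=
            ContinuousLinearMap.opNorm_comp_le _ _
        _ ≤ (K * (‖x - y‖ * Real.exp (K * |t|))) * Real.exp (K * |t|) := by
            apply mul_le_mul _ ((Φ.Dbdd h s y).trans hexp) (norm_nonneg _)
              (mul_nonneg h.pos (by positivity))
            refine (h.dlip _ _).trans (mul_le_mul_of_nonneg_left ?_ h.pos)
            exact (Φ.lip h s x y).trans (mul_le_mul_of_nonneg_left hexp (norm_nonneg _))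
        _ = _ := by ring

include h in
theorem diff_est (t : ℝ) (x y : E) : ‖Φ.Ψ t y - Φ.Ψ t x - Φ.D t x (y - x)‖ ≤
    K * Real.exp (K * |t|) ^ 2 * gronwallBound 0 K 1 |t| * ‖y - x‖ ^ 2 := by
  have h1 := gron (f := fun s => Φ.Ψ s y - Φ.Ψ s x - Φ.D s x (y - x))
    (f' := fun s => G (Φ.Ψ s y) - G (Φ.Ψ s x) - (fderiv ℝ G (Φ.Ψ s x)).comp (Φ.D s x) (y - x))
    (δ := 0) (K := K) (ε := K * Real.exp (K * |t|) ^ 2 * ‖y - x‖ ^ 2) (T := |t|)
    (fun s _ => ((Φ.dt s y).sub (Φ.dt s x)).sub ?_)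
    (by rw [Φ.D0, Φ.zero, Φ.zero]; simp) (fun s hs => ?_) (t := t) le_rfl
  · rw [gron_lin] at h1
    refine h1.trans (le_of_eq (by ring))
  · exact ((ContinuousLinearMap.apply ℝ E (y - x)).hasFDerivAt).comp_hasDerivAt s (Φ.dD s x)
  · have e : G (Φ.Ψ s y) - G (Φ.Ψ s x) - (fderiv ℝ G (Φ.Ψ s x)).comp (Φ.D s x) (y - x) =
        fderiv ℝ G (Φ.Ψ s x) (Φ.Ψ s y - Φ.Ψ s x - Φ.D s x (y - x)) +
        (G (Φ.Ψ s y) - G (Φ.Ψ s x) - fderiv ℝ G (Φ.Ψ s x) (Φ.Ψ s y - Φ.Ψ s x)) := by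
      simp only [map_sub, ContinuousLinearMap.comp_apply]
      abel
    rw [e]
    have hexp : Real.exp (K * |s|) ≤ Real.exp (K * |t|) := by
      apply Real.exp_le_exp.2
      exact mul_le_mul_of_nonneg_left hs h.pos
    refine (norm_add_le _ _).trans (add_le_add ?_ ?_)
    · exact (ContinuousLinearMap.le_opNorm _ _).trans
        (mul_le_mul_of_nonneg_right (h.dbdd _) (norm_nonneg _))
    · refine (h.taylor _ _).trans ?_
      calc K * ‖Φ.Ψ s y - Φ.Ψ s x‖ ^ 2 ≤ K * (‖y - x‖ * Real.exp (K * |t|)) ^ 2 := by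
            apply mul_le_mul_of_nonneg_left _ h.pos
            apply pow_le_pow_left₀ (norm_nonneg _)
            exact (Φ.lip h s y x).trans (mul_le_mul_of_nonneg_left hexp (norm_nonneg _))
        _ = _ := by ring

include h in
theorem hasFDerivAt_x (t : ℝ) (x : E) : HasFDerivAt (Φ.Ψ t) (Φ.D t x) x := by
  rw [hasFDerivAt_iff_isLittleO]
  have h1 : (fun y => Φ.Ψ t y - Φ.Ψ t x - Φ.D t x (y - x)) =O[𝓝 x] fun y => ‖y - x‖ ^ 2 := by
    apply Asymptotics.IsBigO.of_bound (K * Real.exp (K * |t|) ^ 2 * gronwallBound 0 K 1 |t|)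
    filter_upwards with y
    rw [Real.norm_of_nonneg (by positivity)]
    exact Φ.diff_est h t x y
  refine h1.trans_isLittleO ?_
  rw [Asymptotics.isLittleO_iff]
  intro c hc
  have h2 : ∀ᶠ y in 𝓝 x, ‖y - x‖ < c := by
    have : Tendsto (fun y => ‖y - x‖) (𝓝 x) (𝓝 ‖x - x‖) :=
      ((continuous_id.sub continuous_const).norm).tendsto x
    rw [sub_self, norm_zero] at this
    exact this.eventually (gt_mem_nhds hc)
  filter_upwards [h2] with y hy
  rw [Real.norm_of_nonneg (by positivity), sq]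
  exact mul_le_mul_of_nonneg_right hy.le (norm_nonneg _)

omit [NormedSpace ℝ E] in
/-- joint continuity from continuity in `t` and local Lipschitz bounds in `x` -/
theorem joint_cont {F : Type*} [NormedAddCommGroup F] {f : ℝ → E → F} {C : ℝ → ℝ}
    (hC : Continuous C) (h1 : ∀ x, Continuous fun t => f t x)
    (h2 : ∀ t x y, ‖f t x - f t y‖ ≤ C t * ‖x - y‖) :
    Continuous fun p : ℝ × E => f p.1 p.2 := by
  rw [continuous_iff_continuousAt]
  rintro ⟨t, x⟩
  rw [ContinuousAt, tendsto_iff_norm_sub_tendsto_zero]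
  have h3 : Tendsto (fun p : ℝ × E => C p.1 * ‖p.2 - x‖ + ‖f p.1 x - f t x‖) (𝓝 (t, x))
      (𝓝 (C t * ‖x - x‖ + ‖f t x - f t x‖)) := by
    apply Continuous.tendsto' (x := (t, x))
    · exact ((hC.comp continuous_fst).mul (continuous_snd.sub continuous_const).norm).add
        (((h1 x).comp continuous_fst).sub continuous_const).norm
    · rfl
  rw [sub_self, norm_zero, mul_zero, sub_self, norm_zero, add_zero] at h3
  apply squeeze_zero (fun _ => norm_nonneg _) _ h3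
  rintro ⟨s, y⟩
  calc ‖f s y - f t x‖ = ‖(f s y - f s x) + (f s x - f t x)‖ := by rw [sub_add_sub_cancel]
    _ ≤ ‖f s y - f s x‖ + ‖f s x - f t x‖ := norm_add_le _ _
    _ ≤ _ := add_le_add (h2 s y x) le_rfl

theorem gron_cont (K : ℝ) : Continuous fun t : ℝ => gronwallBound 0 K 1 |t| := by
  have h1 : Continuous (gronwallBound 0 K 1) :=
    continuous_iff_continuousAt.2 fun x => (hasDerivAt_gronwallBound 0 K 1 x).continuousAt
  exact h1.comp continuous_abs

include h in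
theorem cont : Continuous fun p : ℝ × E => Φ.Ψ p.1 p.2 := by
  apply joint_cont (C := fun t => Real.exp (K * |t|)) (by fun_prop)
    (fun x => continuous_iff_continuousAt.2 fun t => (Φ.dt t x).continuousAt)
  intro t x y
  rw [mul_comm]
  exact Φ.lip h t x y

include h in
theorem Dcont : Continuous fun p : ℝ × E => Φ.D p.1 p.2 := by
  apply joint_cont
    (C := fun t => K * Real.exp (K * |t|) ^ 2 * gronwallBound 0 K 1 |t|)
    (by have := gron_cont K; fun_prop)
    (fun x => continuous_iff_continuousAt.2 fun t => (Φ.dD t x).continuousAt)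
  intro t x y
  exact Φ.Dlip h t x y

include h in
theorem contDiff : ContDiff ℝ 1 fun p : ℝ × E => Φ.Ψ p.1 p.2 := by
  have hG : Continuous G := h.c2.continuous
  have c1 : Continuous fun p : ℝ × E =>
      (ContinuousLinearMap.toSpanSingleton ℝ (G (Φ.Ψ p.1 p.2)) : ℝ →L[ℝ] E) := by
    have h1 : Continuous fun v : E => (ContinuousLinearMap.toSpanSingleton ℝ v : ℝ →L[ℝ] E) :=
      (ContinuousLinearMap.toSpanSingletonCLE (𝕜 := ℝ) (E := E)).continuous
    exact h1.comp (hG.comp (Φ.cont h))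
  have key : ∀ p : ℝ × E, HasStrictFDerivAt (fun p : ℝ × E => Φ.Ψ p.1 p.2)
      ((ContinuousLinearMap.toSpanSingleton ℝ (G (Φ.Ψ p.1 p.2)) : ℝ →L[ℝ] E).coprod
        (Φ.D p.1 p.2)) p := by
    intro p
    exact hasStrictFDerivAt_uncurry_coprod (𝕜 := ℝ) (f := Φ.Ψ)
      (f₁ := fun t x => (ContinuousLinearMap.toSpanSingleton ℝ (G (Φ.Ψ t x)) : ℝ →L[ℝ] E))
      (f₂ := Φ.D) (Eventually.of_forall fun v => (Φ.dt v.1 v.2).hasFDerivAt)
      (Eventually.of_forall fun v => Φ.hasFDerivAt_x h v.1 v.2) c1.continuousAt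
      (Φ.Dcont h).continuousAt
  rw [contDiff_one_iff_hasFDerivAt]
  refine ⟨_, ?_, fun p => (key p).hasFDerivAt⟩
  have h2 := c1.prodMk (Φ.Dcont h)
  exact (ContinuousLinearMap.coprodEquivL ℝ : ((ℝ →L[ℝ] E) × (E →L[ℝ] E)) ≃L[ℝ]
    (ℝ × E →L[ℝ] E)).continuous.comp h2

end FlowData

end Pool.Agent.EQ.OD

end

/-! ## Lib_helper89.EQ.OD3 -/

section

/-! # The `C¹` flow of a complete `C²` field on an open set -/

set_option autoImplicit false

namespace Pool.Agent.EQ.OD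

open Set Filter Topology Metric
open scoped NNReal ContDiff Manifold

variable {E : Type*} [NormedAddCommGroup E] [NormedSpace ℝ E] [FiniteDimensional ℝ E]

/-- cutoff of the field near a compact set -/
theorem cutoff {F : E → E} {U : Set E} (hU : IsOpen U) (hF : ContDiffOn ℝ 2 F U) {K : Set E}
    (hK : IsCompact K) (hKU : K ⊆ U) :
    ∃ (G : E → E) (M : ℝ) (V : Set E), Nice G M ∧ IsOpen V ∧ K ⊆ V ∧ V ⊆ U ∧
      ∀ x ∈ V, G x = F x := by
  obtain ⟨K2, hK2, hKK2, hK2U⟩ := exists_compact_between hK hU hKU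
  obtain ⟨f, hf1, hf0, -⟩ := exists_contMDiffMap_one_nhds_of_subset_interior (n := (2 : ℕ∞))
    𝓘(ℝ, E) hK.isClosed hKK2
  have hfd : ContDiff ℝ 2 (f : E → ℝ) := f.contMDiff.contDiff
  have hG : ContDiff ℝ 2 (fun x => f x • F x) := by
    rw [contDiff_iff_contDiffAt]
    intro x
    by_cases hx : x ∈ U
    · exact hfd.contDiffAt.smul (hF.contDiffAt (hU.mem_nhds hx))
    · have hx2 : x ∈ K2ᶜ := fun h => hx (hK2U h)
      have hev : (fun x => f x • F x) =ᶠ[𝓝 x] fun _ => 0 := by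
        filter_upwards [hK2.isClosed.isOpen_compl.mem_nhds hx2] with y hy
        rw [hf0 y hy, zero_smul]
      exact contDiffAt_const.congr_of_eventuallyEq hev
  have hcs : HasCompactSupport (fun x => f x • F x) :=
    HasCompactSupport.intro hK2 (fun x hx => by rw [hf0 x hx, zero_smul])
  obtain ⟨M, hM⟩ := Nice.of_compact hG hcs
  rw [eventually_nhdsSet_iff_exists] at hf1
  obtain ⟨W, hW, hKW, hW1⟩ := hf1
  refine ⟨fun x => f x • F x, M, W ∩ U, hM, hW.inter hU, subset_inter hKW hKU,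
    inter_subset_right, ?_⟩
  intro x hx
  change f x • F x = F x
  rw [hW1 x hx.1, one_smul]

/-- comparison of the flow with the flow of a nice field -/
theorem compare {F : E → E} {U : Set E} (hU : IsOpen U) (hF : ContDiffOn ℝ 2 F U)
    {φ : ℝ → E → E} (h0 : ∀ x ∈ U, φ 0 x = x)
    (hs : ∀ x ∈ U, Sol F U (fun t => φ t x) univ) {x₀ : E} (hx₀ : x₀ ∈ U) {T : ℝ} (hT : 0 < T) :
    ∃ (G : E → E) (M : ℝ) (V : Set E) (Φ : FlowData G), Nice G M ∧ IsOpen V ∧ V ⊆ U ∧
      (∀ x ∈ V, G x = F x) ∧ ∃ W ∈ 𝓝 x₀, ∀ x ∈ W, ∀ t, |t| < T →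
        φ t x = Φ.Ψ t x ∧ Φ.Ψ t x ∈ V := by
  have hF1 : ContDiffOn ℝ 1 F U := hF.of_le (by norm_num)
  have hc : Continuous fun t => φ t x₀ :=
    continuous_iff_continuousAt.2 fun t => (hs x₀ hx₀ t (mem_univ _)).2.continuousAt
  obtain ⟨G, M, V, hG, hV, hKV, hVU, hGF⟩ := cutoff hU hF
    (isCompact_Icc.image hc : IsCompact ((fun t => φ t x₀) '' Icc (-(T + 1)) (T + 1)))
    (by rintro _ ⟨t, -, rfl⟩; exact (hs x₀ hx₀ t (mem_univ _)).1)
  obtain ⟨Φ⟩ := hG.exists_flow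
  refine ⟨G, M, V, Φ, hG, hV, hVU, hGF, ?_⟩
  have hG1 : ContDiffOn ℝ 1 G univ := (hG.c2.of_le (by norm_num)).contDiffOn
  have e1 : EqOn (fun t => Φ.Ψ t x₀) (fun t => φ t x₀) (Ioo (-(T + 1)) (T + 1)) := by
    apply Sol.unique isOpen_univ hG1 isOpen_Ioo isPreconnected_Ioo (t₀ := 0)
    · exact fun t _ => ⟨mem_univ _, Φ.dt t x₀⟩
    · intro t ht
      refine ⟨mem_univ _, ?_⟩
      have h1 := (hs x₀ hx₀ t (mem_univ _)).2
      have h2 : φ t x₀ ∈ V := hKV ⟨t, Ioo_subset_Icc_self ht, rfl⟩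
      simp only at h1 ⊢
      rw [hGF _ h2]
      exact h1
    · exact ⟨by linarith, by linarith⟩
    · rw [Φ.zero, h0 x₀ hx₀]
  have hopen : IsOpen {p : ℝ × E | Φ.Ψ p.1 p.2 ∈ V} := hV.preimage (Φ.cont hG)
  obtain ⟨u, v, hu, hv, hTu, hxv, huv⟩ := generalized_tube_lemma
    (isCompact_Icc : IsCompact (Icc (-T) T)) (isCompact_singleton (x := x₀)) hopen (by
      rintro ⟨t, x⟩ ⟨ht, hx⟩
      rw [mem_singleton_iff] at hx
      simp only at hx ht
      subst hx
      show Φ.Ψ t x ∈ V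
      have h1 : t ∈ Ioo (-(T + 1)) (T + 1) := ⟨by linarith [ht.1], by linarith [ht.2]⟩
      have h2 := e1 h1
      simp only at h2
      rw [h2]
      exact hKV ⟨t, Ioo_subset_Icc_self h1, rfl⟩)
  refine ⟨v, hv.mem_nhds (hxv (mem_singleton _)), fun x hx t ht => ?_⟩
  have hV1 : ∀ s ∈ Icc (-T) T, Φ.Ψ s x ∈ V := fun s hs => huv (mk_mem_prod (hTu hs) hx)
  have hxU : x ∈ U := by
    have := hV1 0 ⟨by linarith, by linarith⟩
    rw [Φ.zero] at this
    exact hVU this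
  have e2 : EqOn (fun t => φ t x) (fun t => Φ.Ψ t x) (Ioo (-T) T) := by
    apply Sol.unique hU hF1 isOpen_Ioo isPreconnected_Ioo (t₀ := 0)
    · exact (hs x hxU).mono (subset_univ _)
    · intro s hs
      have h2 := hV1 s (Ioo_subset_Icc_self hs)
      refine ⟨hVU h2, ?_⟩
      simp only
      rw [← hGF _ h2]
      exact Φ.dt s x
    · exact ⟨by linarith, by linarith⟩
    · rw [Φ.zero, h0 x hxU]
  have htI : t ∈ Ioo (-T) T := abs_lt.1 ht
  exact ⟨e2 htI, hV1 t (Ioo_subset_Icc_self htI)⟩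

/-- the global flow -/
structure GlobalFlow (F : E → E) (U : Set E) where
  φ : ℝ → E → E
  out : ∀ t x, x ∉ U → φ t x = x
  mem : ∀ t x, x ∈ U → φ t x ∈ U
  zero : ∀ x, φ 0 x = x
  add : ∀ s t x, φ (s + t) x = φ s (φ t x)
  dt : ∀ t x, x ∈ U → HasDerivAt (fun s => φ s x) (F (φ t x)) t
  uniq : ∀ c : ℝ → E, Sol F U c univ → ∀ s t, c (s + t) = φ s (c t)
  smooth : ContDiffOn ℝ 1 (fun p : ℝ × E => φ p.1 p.2) (univ ×ˢ U)
  var : ∀ x ∈ U, ∀ h : E, ∀ t, HasDerivAt (fun s => fderiv ℝ (φ s) x h)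
    (fderiv ℝ F (φ t x) (fderiv ℝ (φ t) x h)) t

theorem exists_globalFlow {F : E → E} {U : Set E} (hU : IsOpen U) (hF : ContDiffOn ℝ 2 F U)
    (hc : ∀ x ∈ U, ∃ γ : ℝ → E, γ 0 = x ∧ Sol F U γ univ) : Nonempty (GlobalFlow F U) := by
  classical
  have hF1 : ContDiffOn ℝ 1 F U := hF.of_le (by norm_num)
  choose! γ hγ0 hγ using hc
  set φ : ℝ → E → E := fun t x => if x ∈ U then γ x t else x with hφ
  have hφU : ∀ t, ∀ x ∈ U, φ t x = γ x t := fun t x hx => if_pos hx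
  have hφo : ∀ t, ∀ x, x ∉ U → φ t x = x := fun t x hx => if_neg hx
  have hs : ∀ x ∈ U, Sol F U (fun t => φ t x) univ := by
    intro x hx
    have : (fun t => φ t x) = γ x := funext fun t => hφU t x hx
    rw [this]
    exact hγ x hx
  have h0 : ∀ x ∈ U, φ 0 x = x := fun x hx => by rw [hφU 0 x hx, hγ0 x hx]
  have hmem : ∀ t x, x ∈ U → φ t x ∈ U := fun t x hx => (hs x hx t (mem_univ _)).1
  have huniq : ∀ c : ℝ → E, Sol F U c univ → ∀ s t, c (s + t) = φ s (c t) := by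
    intro c hc s t
    have hct := (hc t (mem_univ _)).1
    have := Sol.unique hU hF1 isOpen_univ isPreconnected_univ (hc.shift_univ t)
      (hs _ hct) (mem_univ 0) (by rw [zero_add, h0 _ hct]) (mem_univ s)
    exact this
  refine ⟨⟨φ, hφo, hmem, ?_, ?_, fun t x hx => (hs x hx t (mem_univ _)).2, huniq, ?_, ?_⟩⟩
  · intro x
    by_cases hx : x ∈ U
    · exact h0 x hx
    · exact hφo 0 x hx
  · intro s t x
    by_cases hx : x ∈ U
    · exact huniq _ (hs x hx) s t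
    · rw [hφo _ x hx, hφo t x hx, hφo s x hx]
  · rintro ⟨t, x⟩ ⟨-, hx⟩
    obtain ⟨G, M, V, Φ, hG, -, -, -, W, hW, hWe⟩ := compare hU hF h0 hs hx
      (show (0 : ℝ) < |t| + 1 by positivity)
    apply ContDiffAt.contDiffWithinAt
    refine (Φ.contDiff hG).contDiffAt.congr_of_eventuallyEq ?_
    have h1 : ∀ᶠ p : ℝ × E in 𝓝 (t, x), |p.1| < |t| + 1 := by
      have : Tendsto (fun p : ℝ × E => |p.1|) (𝓝 (t, x)) (𝓝 |t|) :=
        (continuous_abs.comp continuous_fst).tendsto (t, x)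
      exact this.eventually (gt_mem_nhds (by linarith))
    have h2 : ∀ᶠ p : ℝ × E in 𝓝 (t, x), p.2 ∈ W :=
      (continuous_snd.tendsto (t, x)).eventually hW
    filter_upwards [h1, h2] with p h3 h4
    exact (hWe p.2 h4 p.1 h3).1
  · intro x hx h t
    obtain ⟨G, M, V, Φ, hG, hV, -, hGF, W, hW, hWe⟩ := compare hU hF h0 hs hx
      (show (0 : ℝ) < |t| + 1 by positivity)
    have hxW : x ∈ W := mem_of_mem_nhds hW
    have h1 : ∀ s, |s| < |t| + 1 → fderiv ℝ (φ s) x = Φ.D s x := by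
      intro s hs'
      have h2 : φ s =ᶠ[𝓝 x] Φ.Ψ s := by
        filter_upwards [hW] with y hy
        exact (hWe y hy s hs').1
      rw [h2.fderiv_eq]
      exact (Φ.hasFDerivAt_x hG s x).fderiv
    have h3 : ∀ᶠ s in 𝓝 t, |s| < |t| + 1 :=
      (continuous_abs.tendsto t).eventually (gt_mem_nhds (by linarith))
    have h4 : fderiv ℝ F (φ t x) = fderiv ℝ G (Φ.Ψ t x) := by
      obtain ⟨h5, h6⟩ := hWe x hxW t (by linarith)
      rw [h5]
      apply Filter.EventuallyEq.fderiv_eq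
      filter_upwards [hV.mem_nhds h6] with y hy
      exact (hGF y hy).symm
    rw [h4, h1 t (by linarith)]
    have h7 : HasDerivAt (fun s => Φ.D s x h) ((fderiv ℝ G (Φ.Ψ t x)) (Φ.D t x h)) t :=
      ((ContinuousLinearMap.apply ℝ E h).hasFDerivAt).comp_hasDerivAt t (Φ.dD t x)
    refine h7.congr_of_eventuallyEq ?_
    filter_upwards [h3] with s hs'
    rw [h1 s hs']

/-- uniform local existence near a compact set -/
theorem exists_time {F : E → E} {U : Set E} (hU : IsOpen U) (hF : ContDiffOn ℝ 2 F U) {K : Set E}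
    (hK : IsCompact K) (hKU : K ⊆ U) :
    ∃ ε > 0, ∀ x ∈ K, ∃ γ : ℝ → E, γ 0 = x ∧ Sol F U γ (Ioo (-ε) ε) := by
  obtain ⟨G, M, V, hG, hV, hKV, hVU, hGF⟩ := cutoff hU hF hK hKU
  obtain ⟨Φ⟩ := hG.exists_flow
  obtain ⟨δ, hδ, hthick⟩ := hK.exists_thickening_subset_open hV hKV
  have hM := hG.pos
  refine ⟨δ / (M + 1), by positivity, fun x hx => ⟨fun t => Φ.Ψ t x, Φ.zero x, fun t ht => ?_⟩⟩
  have h1 : ‖Φ.Ψ t x - x‖ ≤ M * |t| := by
    have := Convex.norm_image_sub_le_of_norm_hasDerivWithin_le (f := fun t => Φ.Ψ t x)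
      (f' := fun t => G (Φ.Ψ t x)) (s := univ) (C := M) (x := 0) (y := t)
      (fun s _ => (Φ.dt s x).hasDerivWithinAt) (fun s _ => hG.bdd _) convex_univ (mem_univ _)
      (mem_univ _)
    simp only [Φ.zero, sub_zero, Real.norm_eq_abs] at this
    exact this
  have h2 : Φ.Ψ t x ∈ V := by
    apply hthick
    rw [mem_thickening_iff]
    refine ⟨x, hx, ?_⟩
    rw [dist_eq_norm]
    refine lt_of_le_of_lt h1 ?_
    have h3 : |t| < δ / (M + 1) := abs_lt.2 ht
    calc M * |t| ≤ M * (δ / (M + 1)) := mul_le_mul_of_nonneg_left h3.le hM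
      _ = δ * (M / (M + 1)) := by ring
      _ < δ * 1 := by
          apply mul_lt_mul_of_pos_left _ hδ
          rw [div_lt_one (by positivity)]
          linarith
      _ = δ := mul_one δ
  refine ⟨hVU h2, ?_⟩
  simp only
  rw [← hGF _ h2]
  exact Φ.dt t x

end Pool.Agent.EQ.OD

end

/-! ## Lib_helper89.EQ.GF1 -/

section

/-! # The frame `X, H, V` and the Jacobi equation -/

set_option autoImplicit false
set_option linter.unusedSectionVars false
set_option linter.unusedSimpArgs false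

namespace Pool.Agent.EQ.OD

open Set Filter Topology Metric
open scoped NNReal ContDiff

theorem fd_eq (f : ℂ → ℝ) (z a : ℂ) : fderiv ℝ f z a = a.re * dx f z + a.im * dy f z := by
  have h : a = a.re • (1 : ℂ) + a.im • Complex.I := by
    apply Complex.ext <;> simp
  conv_lhs => rw [h]
  rw [map_add, map_smul, map_smul]
  rfl

section
variable {u : ℂ → ℝ} {Ω : Set ℂ} (hO : IsOpen Ω) (hu : ContDiffOn ℝ ∞ u Ω)
include hO hu

theorem dx_smooth : ContDiffOn ℝ ∞ (dx u) Ω :=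
  (hu.fderiv_of_isOpen hO (m := ∞) (by simp)).clm_apply contDiffOn_const

theorem dy_smooth : ContDiffOn ℝ ∞ (dy u) Ω :=
  (hu.fderiv_of_isOpen hO (m := ∞) (by simp)).clm_apply contDiffOn_const

theorem u_diff {z : ℂ} (hz : z ∈ Ω) : DifferentiableAt ℝ u z :=
  (hu.contDiffAt (hO.mem_nhds hz)).differentiableAt (by simp)

theorem dx_diff {z : ℂ} (hz : z ∈ Ω) : DifferentiableAt ℝ (dx u) z :=
  ((dx_smooth hO hu).contDiffAt (hO.mem_nhds hz)).differentiableAt (by simp)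

theorem dy_diff {z : ℂ} (hz : z ∈ Ω) : DifferentiableAt ℝ (dy u) z :=
  ((dy_smooth hO hu).contDiffAt (hO.mem_nhds hz)).differentiableAt (by simp)

theorem XX_smooth : ContDiffOn ℝ ∞ (XX u) (Ω ×ˢ (univ : Set ℝ)) := by
  have h1 : ContDiffOn ℝ ∞ (fun v : ℂ × ℝ => u v.1) (Ω ×ˢ (univ : Set ℝ)) :=
    hu.comp contDiff_fst.contDiffOn (fun v hv => hv.1)
  have h2 : ContDiffOn ℝ ∞ (fun v : ℂ × ℝ => dx u v.1) (Ω ×ˢ (univ : Set ℝ)) :=
    (dx_smooth hO hu).comp contDiff_fst.contDiffOn (fun v hv => hv.1)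
  have h3 : ContDiffOn ℝ ∞ (fun v : ℂ × ℝ => dy u v.1) (Ω ×ˢ (univ : Set ℝ)) :=
    (dy_smooth hO hu).comp contDiff_fst.contDiffOn (fun v hv => hv.1)
  have h4 : ContDiffOn ℝ ∞ (fun v : ℂ × ℝ => Real.exp (-u v.1)) (Ω ×ˢ (univ : Set ℝ)) :=
    Real.contDiff_exp.comp_contDiffOn h1.neg
  have h5 : ContDiffOn ℝ ∞ (fun v : ℂ × ℝ => ((Real.exp (-u v.1) : ℝ) : ℂ))
      (Ω ×ˢ (univ : Set ℝ)) := Complex.ofRealCLM.contDiff.comp_contDiffOn h4
  have h6 : ContDiff ℝ ∞ (fun v : ℂ × ℝ => Complex.exp (v.2 * Complex.I)) :=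
    Complex.contDiff_exp.comp ((Complex.ofRealCLM.contDiff.comp contDiff_snd).mul contDiff_const)
  have h7 : ContDiff ℝ ∞ (fun v : ℂ × ℝ => Real.sin v.2) := Real.contDiff_sin.comp contDiff_snd
  have h8 : ContDiff ℝ ∞ (fun v : ℂ × ℝ => Real.cos v.2) := Real.contDiff_cos.comp contDiff_snd
  exact (h5.mul h6.contDiffOn).prodMk
    (h4.mul ((h2.neg.mul h7.contDiffOn).add (h3.mul h8.contDiffOn)))

theorem HH_smooth : ContDiffOn ℝ ∞ (HH u) (Ω ×ˢ (univ : Set ℝ)) := by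
  have h1 : ContDiffOn ℝ ∞ (fun v : ℂ × ℝ => u v.1) (Ω ×ˢ (univ : Set ℝ)) :=
    hu.comp contDiff_fst.contDiffOn (fun v hv => hv.1)
  have h2 : ContDiffOn ℝ ∞ (fun v : ℂ × ℝ => dx u v.1) (Ω ×ˢ (univ : Set ℝ)) :=
    (dx_smooth hO hu).comp contDiff_fst.contDiffOn (fun v hv => hv.1)
  have h3 : ContDiffOn ℝ ∞ (fun v : ℂ × ℝ => dy u v.1) (Ω ×ˢ (univ : Set ℝ)) :=
    (dy_smooth hO hu).comp contDiff_fst.contDiffOn (fun v hv => hv.1)
  have h4 : ContDiffOn ℝ ∞ (fun v : ℂ × ℝ => Real.exp (-u v.1)) (Ω ×ˢ (univ : Set ℝ)) :=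
    Real.contDiff_exp.comp_contDiffOn h1.neg
  have h5 : ContDiffOn ℝ ∞ (fun v : ℂ × ℝ => ((Real.exp (-u v.1) : ℝ) : ℂ))
      (Ω ×ˢ (univ : Set ℝ)) := Complex.ofRealCLM.contDiff.comp_contDiffOn h4
  have h6 : ContDiff ℝ ∞ (fun v : ℂ × ℝ => Complex.exp (v.2 * Complex.I)) :=
    Complex.contDiff_exp.comp ((Complex.ofRealCLM.contDiff.comp contDiff_snd).mul contDiff_const)
  have h7 : ContDiff ℝ ∞ (fun v : ℂ × ℝ => Real.sin v.2) := Real.contDiff_sin.comp contDiff_snd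
  have h8 : ContDiff ℝ ∞ (fun v : ℂ × ℝ => Real.cos v.2) := Real.contDiff_cos.comp contDiff_snd
  exact (h5.mul (contDiffOn_const.mul h6.contDiffOn)).prodMk
    (h4.mul ((h2.neg.mul h8.contDiffOn).sub (h3.mul h7.contDiffOn)))

theorem S_open : IsOpen (Ω ×ˢ (univ : Set ℝ)) := hO.prod isOpen_univ

theorem XX_diff {v : ℂ × ℝ} (hv : v ∈ Ω ×ˢ (univ : Set ℝ)) : DifferentiableAt ℝ (XX u) v :=
  ((XX_smooth hO hu).contDiffAt ((S_open hO hu).mem_nhds hv)).differentiableAt (by simp)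

theorem HH_diff {v : ℂ × ℝ} (hv : v ∈ Ω ×ˢ (univ : Set ℝ)) : DifferentiableAt ℝ (HH u) v :=
  ((HH_smooth hO hu).contDiffAt ((S_open hO hu).mem_nhds hv)).differentiableAt (by simp)

/-- derivative of a function on `Ω` along the line `v + s w` -/
theorem line_u {f : ℂ → ℝ} {v w : ℂ × ℝ} (hf : DifferentiableAt ℝ f v.1) :
    HasDerivAt (fun s : ℝ => f (v + s • w).1) (fderiv ℝ f v.1 w.1) 0 := by
  have h1 : HasDerivAt (fun s : ℝ => (v + s • w).1) w.1 0 := by
    have h2 : HasDerivAt (fun s : ℝ => v.1 + s • w.1) ((1 : ℝ) • w.1) 0 :=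
      ((hasDerivAt_id (0 : ℝ)).smul_const w.1).const_add v.1
    rw [one_smul] at h2
    exact h2
  have h3 : HasFDerivAt f (fderiv ℝ f v.1) (v + (0 : ℝ) • w).1 := by
    rw [zero_smul, add_zero]
    exact hf.hasFDerivAt
  exact h3.comp_hasDerivAt (0 : ℝ) h1

theorem line_th {v w : ℂ × ℝ} : HasDerivAt (fun s : ℝ => (v + s • w).2) w.2 0 := by
  have h2 : HasDerivAt (fun s : ℝ => v.2 + s • w.2) ((1 : ℝ) • w.2) 0 :=
    ((hasDerivAt_id (0 : ℝ)).smul_const w.2).const_add v.2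
  rw [one_smul] at h2
  exact h2

/-- the derivative of `X` -/
theorem XX_fderiv {v w : ℂ × ℝ} (hv : v ∈ Ω ×ˢ (univ : Set ℝ)) :
    fderiv ℝ (XX u) v w =
      ((-(fderiv ℝ u v.1 w.1) * Real.exp (-u v.1) : ℝ) * Complex.exp (v.2 * Complex.I) +
        (Real.exp (-u v.1) : ℂ) * (w.2 * Complex.I * Complex.exp (v.2 * Complex.I)),
      -(fderiv ℝ u v.1 w.1) * Real.exp (-u v.1) *
        (-(dx u v.1) * Real.sin v.2 + dy u v.1 * Real.cos v.2) +
      Real.exp (-u v.1) * (-(fderiv ℝ (dx u) v.1 w.1) * Real.sin v.2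
        - dx u v.1 * (Real.cos v.2 * w.2) + fderiv ℝ (dy u) v.1 w.1 * Real.cos v.2
        - dy u v.1 * (Real.sin v.2 * w.2))) := by
  have hz : v.1 ∈ Ω := hv.1
  have e0 : v + (0 : ℝ) • w = v := by rw [zero_smul, add_zero]
  have lu := line_u hO hu (w := w) (u_diff hO hu hz)
  have lx := line_u hO hu (w := w) (dx_diff hO hu hz)
  have ly := line_u hO hu (w := w) (dy_diff hO hu hz)
  have lt := line_th hO hu (v := v) (w := w)
  have le : HasDerivAt (fun s : ℝ => Real.exp (-u (v + s • w).1))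
      (-(fderiv ℝ u v.1 w.1) * Real.exp (-u v.1)) 0 := by
    have := lu.neg.exp
    simp only [e0, Pi.neg_apply] at this
    rw [mul_comm]
    exact this
  have lec : HasDerivAt (fun s : ℝ => ((Real.exp (-u (v + s • w).1) : ℝ) : ℂ))
      ((-(fderiv ℝ u v.1 w.1) * Real.exp (-u v.1) : ℝ) : ℂ) 0 := le.ofReal_comp
  have lc : HasDerivAt (fun s : ℝ => Complex.exp ((v + s • w).2 * Complex.I))
      (w.2 * Complex.I * Complex.exp (v.2 * Complex.I)) 0 := by
    have := (lt.ofReal_comp.mul_const Complex.I).cexp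
    simp only [e0] at this
    rw [mul_comm (Complex.exp _)] at this
    exact this
  have ls : HasDerivAt (fun s : ℝ => Real.sin (v + s • w).2) (Real.cos v.2 * w.2) 0 := by
    have := lt.sin
    simp only [e0] at this
    exact this
  have lco : HasDerivAt (fun s : ℝ => Real.cos (v + s • w).2) (-(Real.sin v.2 * w.2)) 0 := by
    have := lt.cos
    simp only [e0] at this
    rw [← neg_mul]
    exact this
  have h1 := (lec.mul lc).prodMk (le.mul ((lx.neg.mul ls).add (ly.mul lco)))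
  have h2 : HasDerivAt (fun s : ℝ => XX u (v + s • w)) (fderiv ℝ (XX u) v w) 0 := by
    have h3 : HasFDerivAt (XX u) (fderiv ℝ (XX u) v) (v + (0 : ℝ) • w) := by
      rw [e0]
      exact (XX_diff hO hu hv).hasFDerivAt
    have h4 : HasDerivAt (fun s : ℝ => v + s • w) w 0 := by
      have := ((hasDerivAt_id (0 : ℝ)).smul_const w).const_add v
      rw [one_smul] at this
      exact this
    exact h3.comp_hasDerivAt (0 : ℝ) h4
  have h5 := h2.unique h1
  rw [h5]
  simp only [e0, Pi.neg_apply, Pi.add_apply, Pi.mul_apply, Pi.sub_apply]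
  congr 1
  ring

/-- the derivative of `H` -/
theorem HH_fderiv {v w : ℂ × ℝ} (hv : v ∈ Ω ×ˢ (univ : Set ℝ)) :
    fderiv ℝ (HH u) v w =
      ((-(fderiv ℝ u v.1 w.1) * Real.exp (-u v.1) : ℝ) *
        (Complex.I * Complex.exp (v.2 * Complex.I)) +
        (Real.exp (-u v.1) : ℂ) * (Complex.I * (w.2 * Complex.I * Complex.exp (v.2 * Complex.I))),
      -(fderiv ℝ u v.1 w.1) * Real.exp (-u v.1) *
        (-(dx u v.1) * Real.cos v.2 - dy u v.1 * Real.sin v.2) +
      Real.exp (-u v.1) * (-(fderiv ℝ (dx u) v.1 w.1) * Real.cos v.2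
        + dx u v.1 * (Real.sin v.2 * w.2) - fderiv ℝ (dy u) v.1 w.1 * Real.sin v.2
        - dy u v.1 * (Real.cos v.2 * w.2))) := by
  have hz : v.1 ∈ Ω := hv.1
  have e0 : v + (0 : ℝ) • w = v := by rw [zero_smul, add_zero]
  have lu := line_u hO hu (w := w) (u_diff hO hu hz)
  have lx := line_u hO hu (w := w) (dx_diff hO hu hz)
  have ly := line_u hO hu (w := w) (dy_diff hO hu hz)
  have lt := line_th hO hu (v := v) (w := w)
  have le : HasDerivAt (fun s : ℝ => Real.exp (-u (v + s • w).1))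
      (-(fderiv ℝ u v.1 w.1) * Real.exp (-u v.1)) 0 := by
    have := lu.neg.exp
    simp only [e0, Pi.neg_apply] at this
    rw [mul_comm]
    exact this
  have lec : HasDerivAt (fun s : ℝ => ((Real.exp (-u (v + s • w).1) : ℝ) : ℂ))
      ((-(fderiv ℝ u v.1 w.1) * Real.exp (-u v.1) : ℝ) : ℂ) 0 := le.ofReal_comp
  have lc : HasDerivAt (fun s : ℝ => Complex.exp ((v + s • w).2 * Complex.I))
      (w.2 * Complex.I * Complex.exp (v.2 * Complex.I)) 0 := by
    have := (lt.ofReal_comp.mul_const Complex.I).cexp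
    simp only [e0] at this
    rw [mul_comm (Complex.exp _)] at this
    exact this
  have ls : HasDerivAt (fun s : ℝ => Real.sin (v + s • w).2) (Real.cos v.2 * w.2) 0 := by
    have := lt.sin
    simp only [e0] at this
    exact this
  have lco : HasDerivAt (fun s : ℝ => Real.cos (v + s • w).2) (-(Real.sin v.2 * w.2)) 0 := by
    have := lt.cos
    simp only [e0] at this
    rw [← neg_mul]
    exact this
  have h1 := (lec.mul (lc.const_mul Complex.I)).prodMk
    (le.mul ((lx.neg.mul lco).sub (ly.mul ls)))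
  have h2 : HasDerivAt (fun s : ℝ => HH u (v + s • w)) (fderiv ℝ (HH u) v w) 0 := by
    have h3 : HasFDerivAt (HH u) (fderiv ℝ (HH u) v) (v + (0 : ℝ) • w) := by
      rw [e0]
      exact (HH_diff hO hu hv).hasFDerivAt
    have h4 : HasDerivAt (fun s : ℝ => v + s • w) w 0 := by
      have := ((hasDerivAt_id (0 : ℝ)).smul_const w).const_add v
      rw [one_smul] at this
      exact this
    exact h3.comp_hasDerivAt (0 : ℝ) h4
  have h5 := h2.unique h1
  rw [h5]
  simp only [e0, Pi.neg_apply, Pi.add_apply, Pi.mul_apply, Pi.sub_apply]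
  congr 1
  ring

/-- `∂_θ X = H` -/
theorem XX_VV {v : ℂ × ℝ} (hv : v ∈ Ω ×ˢ (univ : Set ℝ)) : fderiv ℝ (XX u) v VV = HH u v := by
  rw [XX_fderiv hO hu hv]
  unfold VV HH
  simp only [map_zero]
  ext1
  · push_cast
    ring
  · simp only
    ring

theorem exp_mul_I (t : ℝ) : Complex.exp (t * Complex.I) = ⟨Real.cos t, Real.sin t⟩ :=
  Complex.ext (Complex.exp_ofReal_mul_I_re t) (Complex.exp_ofReal_mul_I_im t)

/-- `[X, H] = K V` -/
theorem bracket {v : ℂ × ℝ} (hv : v ∈ Ω ×ˢ (univ : Set ℝ)) :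
    fderiv ℝ (XX u) v (HH u v) - fderiv ℝ (HH u) v (XX u v) = kk u v.1 • VV := by
  rw [XX_fderiv hO hu hv, HH_fderiv hO hu hv]
  simp only [fd_eq]
  have e2 : Real.exp (-2 * u v.1) = Real.exp (-u v.1) * Real.exp (-u v.1) := by
    rw [← Real.exp_add]; congr 1; ring
  have sc := Real.sin_sq_add_cos_sq v.2
  unfold kk lap VV XX HH
  rw [e2, exp_mul_I hO hu]
  generalize Real.exp (-u v.1) = e
  generalize Real.sin v.2 = s at *
  generalize Real.cos v.2 = c at *
  generalize dx u v.1 = p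
  generalize dy u v.1 = q
  generalize dx (dx u) v.1 = pp
  generalize dx (dy u) v.1 = pq
  generalize dy (dx u) v.1 = qp
  generalize dy (dy u) v.1 = qq
  ext1
  · apply Complex.ext
    · simp
      ring
    · simp
      ring
  · simp
    linear_combination (e * e * (pp + qq)) * sc
end

end Pool.Agent.EQ.OD

end

/-! ## Lib_helper89.EQ.GF2 -/

section

/-! # Coordinates in the frame and the Jacobi equation -/

set_option autoImplicit false
set_option linter.unusedSectionVars false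

namespace Pool.Agent.EQ.OD

open Set Filter Topology Metric
open scoped NNReal ContDiff

noncomputable section

theorem XX1_ne (u : ℂ → ℝ) (v : ℂ × ℝ) : (XX u v).1 ≠ 0 := by
  unfold XX
  exact mul_ne_zero (Complex.ofReal_ne_zero.2 (Real.exp_ne_zero _)) (Complex.exp_ne_zero _)

theorem HH1 (u : ℂ → ℝ) (v : ℂ × ℝ) : (HH u v).1 = Complex.I * (XX u v).1 := by
  unfold XX HH
  simp only
  ring

/-- coordinates in the frame -/
def cX (u : ℂ → ℝ) (v W : ℂ × ℝ) : ℝ := (W.1 / (XX u v).1).re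
def cH (u : ℂ → ℝ) (v W : ℂ × ℝ) : ℝ := (W.1 / (XX u v).1).im
def cV (u : ℂ → ℝ) (v W : ℂ × ℝ) : ℝ :=
  W.2 - (W.1 / (XX u v).1).re * (XX u v).2 - (W.1 / (XX u v).1).im * (HH u v).2

theorem frame (u : ℂ → ℝ) (v W : ℂ × ℝ) :
    W = cX u v W • XX u v + cH u v W • HH u v + cV u v W • VV := by
  have h := XX1_ne u v
  ext1
  · simp only [Prod.fst_add, Prod.smul_fst, HH1, VV, smul_zero, add_zero]
    have h1 : W.1 = (W.1 / (XX u v).1) * (XX u v).1 := by field_simp
    conv_lhs => rw [h1]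
    conv_lhs => rw [← Complex.re_add_im (W.1 / (XX u v).1)]
    unfold cX cH
    simp only [Complex.real_smul]
    ring
  · simp only [Prod.snd_add, Prod.smul_snd, VV, smul_eq_mul]
    unfold cX cH cV
    ring

theorem frame_unique {u : ℂ → ℝ} {v : ℂ × ℝ} {a b c a' b' c' : ℝ}
    (h : a • XX u v + b • HH u v + c • VV = a' • XX u v + b' • HH u v + c' • VV) :
    a = a' ∧ b = b' ∧ c = c' := by
  have h1 := congrArg Prod.fst h
  have h2 := congrArg Prod.snd h
  simp only [Prod.fst_add, Prod.smul_fst, HH1, VV, smul_zero, add_zero, Complex.real_smul] at h1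
  simp only [Prod.snd_add, Prod.smul_snd, VV, smul_eq_mul, mul_one] at h2
  have h3 : ((a : ℂ) + b * Complex.I) * (XX u v).1 = ((a' : ℂ) + b' * Complex.I) * (XX u v).1 := by
    linear_combination h1
  have h4 := mul_right_cancel₀ (XX1_ne u v) h3
  have h5 : a = a' := by simpa using congrArg Complex.re h4
  have h6 : b = b' := by simpa using congrArg Complex.im h4
  subst h5 h6
  exact ⟨rfl, rfl, by linarith⟩

section
variable {u : ℂ → ℝ} {Ω : Set ℂ} (hO : IsOpen Ω) (hu : ContDiffOn ℝ ∞ u Ω)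
include hO hu

theorem jacobi {c W : ℝ → ℂ × ℝ}
    (hc : ∀ t, c t ∈ Ω ×ˢ (univ : Set ℝ) ∧ HasDerivAt c (XX u (c t)) t)
    (hW : ∀ t, HasDerivAt W (fderiv ℝ (XX u) (c t) (W t)) t) (t : ℝ) :
    HasDerivAt (fun s => cX u (c s) (W s)) 0 t ∧
    HasDerivAt (fun s => cH u (c s) (W s)) (cV u (c t) (W t)) t ∧
    HasDerivAt (fun s => cV u (c s) (W s)) (kk u (c t).1 * cH u (c t) (W t)) t := by
  obtain ⟨hct, hcd⟩ := hc t
  have hX : HasDerivAt (fun s => XX u (c s)) (fderiv ℝ (XX u) (c t) (XX u (c t))) t :=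
    (XX_diff hO hu hct).hasFDerivAt.comp_hasDerivAt t hcd
  have hH : HasDerivAt (fun s => HH u (c s)) (fderiv ℝ (HH u) (c t) (XX u (c t))) t :=
    (HH_diff hO hu hct).hasFDerivAt.comp_hasDerivAt t hcd
  have hW1 : HasDerivAt (fun s => (W s).1) (fderiv ℝ (XX u) (c t) (W t)).1 t := (hW t).fst
  have hW2 : HasDerivAt (fun s => (W s).2) (fderiv ℝ (XX u) (c t) (W t)).2 t := (hW t).snd
  have hX1 : HasDerivAt (fun s => (XX u (c s)).1) (fderiv ℝ (XX u) (c t) (XX u (c t))).1 t :=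
    hX.fst
  have hX2 : HasDerivAt (fun s => (XX u (c s)).2) (fderiv ℝ (XX u) (c t) (XX u (c t))).2 t :=
    hX.snd
  have hH2 : HasDerivAt (fun s => (HH u (c s)).2) (fderiv ℝ (HH u) (c t) (XX u (c t))).2 t :=
    hH.snd
  have hq : DifferentiableAt ℝ (fun s => (W s).1 / (XX u (c s)).1) t :=
    (hW1.div hX1 (XX1_ne u (c t))).differentiableAt
  have ha : DifferentiableAt ℝ (fun s => cX u (c s) (W s)) t :=
    (Complex.reCLM.differentiableAt).comp t hq
  have hb : DifferentiableAt ℝ (fun s => cH u (c s) (W s)) t :=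
    (Complex.imCLM.differentiableAt).comp t hq
  have hv : DifferentiableAt ℝ (fun s => cV u (c s) (W s)) t :=
    (hW2.differentiableAt.sub (ha.mul hX2.differentiableAt)).sub
      (hb.mul hH2.differentiableAt)
  have h1 := ((ha.hasDerivAt.smul hX).add (hb.hasDerivAt.smul hH)).add
    (hv.hasDerivAt.smul_const VV)
  have h2 : HasDerivAt W (fderiv ℝ (XX u) (c t) (W t)) t := hW t
  have h3 : W =ᶠ[𝓝 t] (fun s => cX u (c s) (W s) • XX u (c s) + cH u (c s) (W s) • HH u (c s) +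
      cV u (c s) (W s) • VV) := by
    filter_upwards with s
    exact frame u (c s) (W s)
  have h4 := h1.congr_of_eventuallyEq h3
  have h5 := h4.unique h2
  have h6 : fderiv ℝ (XX u) (c t) (W t) =
      cX u (c t) (W t) • fderiv ℝ (XX u) (c t) (XX u (c t)) +
      cH u (c t) (W t) • fderiv ℝ (XX u) (c t) (HH u (c t)) + cV u (c t) (W t) • HH u (c t) := by
    conv_lhs => rw [frame u (c t) (W t)]
    rw [map_add, map_add, map_smul, map_smul, map_smul, XX_VV hO hu hct]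
  have h7 : fderiv ℝ (XX u) (c t) (HH u (c t)) =
      fderiv ℝ (HH u) (c t) (XX u (c t)) + kk u (c t).1 • VV := by
    rw [← bracket hO hu hct]; abel
  rw [h6, h7] at h5
  set a := cX u (c t) (W t)
  set b := cH u (c t) (W t)
  set d := cV u (c t) (W t)
  set a' := deriv (fun s => cX u (c s) (W s)) t
  set b' := deriv (fun s => cH u (c s) (W s)) t
  set d' := deriv (fun s => cV u (c s) (W s)) t
  have h8 : a' • XX u (c t) + b' • HH u (c t) + d' • VV =
      (0 : ℝ) • XX u (c t) + d • HH u (c t) + (kk u (c t).1 * b) • VV := by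
    have h9 : a' • XX u (c t) + b' • HH u (c t) + d' • VV =
        (a • fderiv ℝ (XX u) (c t) (XX u (c t)) + a' • XX u (c t) +
          (b • fderiv ℝ (HH u) (c t) (XX u (c t)) + b' • HH u (c t)) + d' • VV) -
        (a • fderiv ℝ (XX u) (c t) (XX u (c t)) + b • fderiv ℝ (HH u) (c t) (XX u (c t))) := by
      abel
    rw [h9, h5, smul_add, mul_comm (kk u (c t).1) b, mul_smul, zero_smul, zero_add]
    abel
  obtain ⟨e1, e2, e3⟩ := frame_unique h8
  refine ⟨?_, ?_, ?_⟩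
  · rw [← e1]; exact ha.hasDerivAt
  · rw [← e2]; exact hb.hasDerivAt
  · rw [← e3]; exact hv.hasDerivAt

end

end

end Pool.Agent.EQ.OD

end

/-! ## Lib_helper89.EQ.GF3 -/

section

/-! # Transport of geodesics by `G` -/

set_option autoImplicit false
set_option linter.unusedSectionVars false

namespace Pool.Agent.EQ.OD

open Set Filter Topology Metric MeasureTheory
open scoped NNReal ContDiff

noncomputable section

/-- `2 ∂u` -/
def pu (u : ℂ → ℝ) (z : ℂ) : ℂ := dx u z - Complex.I * dy u z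

theorem fd_pu (u : ℂ → ℝ) (z h : ℂ) : fderiv ℝ u z h = (pu u z * h).re := by
  rw [fd_eq]
  unfold pu
  simp
  ring

theorem XX_fst (u : ℂ → ℝ) (v : ℂ × ℝ) :
    (XX u v).1 = (Real.exp (-u v.1) : ℂ) * Complex.exp (v.2 * Complex.I) := rfl

theorem XX_snd (u : ℂ → ℝ) (v : ℂ × ℝ) :
    (XX u v).2 = -(Real.exp (-u v.1) * (Complex.exp (v.2 * Complex.I) * pu u v.1).im) := by
  unfold XX pu
  rw [Complex.mul_im, Complex.exp_ofReal_mul_I_re, Complex.exp_ofReal_mul_I_im]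
  simp
  ring

/-- derivative of `log ‖w‖` -/
theorem log_norm_deriv {w : ℝ → ℂ} {w' : ℂ} {t : ℝ} (h : HasDerivAt w w' t) (h0 : w t ≠ 0) :
    HasDerivAt (fun s => Real.log ‖w s‖) (w' / w t).re t := by
  have h1 : HasDerivAt (fun s => ‖w s‖ ^ 2) (2 * inner ℝ (w t) w') t := h.norm_sq
  have h2 : ‖w t‖ ^ 2 ≠ 0 := by positivity
  have h3 := (h1.log h2).div_const 2
  have e1 : (fun s => Real.log (‖w s‖ ^ 2) / 2) = fun s => Real.log ‖w s‖ := by
    funext s
    rw [Real.log_pow]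
    push_cast
    ring
  rw [e1] at h3
  convert! h3 using 1
  rw [Complex.inner, Complex.div_re, ← Complex.normSq_eq_norm_sq]
  have h4 : Complex.normSq (w t) ≠ 0 := by rwa [Complex.normSq_eq_norm_sq]
  field_simp
  simp

section
variable (P : Pres)

theorem act_inv (g : P.G) {z : ℂ} (hz : z ∈ P.Ω) : P.act g⁻¹ (P.act g z) = z := by
  rw [← P.act_mul g⁻¹ g z hz, inv_mul_cancel, P.act_one z hz]

theorem act_diff (g : P.G) {z : ℂ} (hz : z ∈ P.Ω) : DifferentiableAt ℂ (P.act g) z :=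
  (P.holo g).differentiableAt (P.isOpen.mem_nhds hz)

theorem act_deriv_inv (g : P.G) {z : ℂ} (hz : z ∈ P.Ω) :
    deriv (P.act g⁻¹) (P.act g z) * deriv (P.act g) z = 1 := by
  have h1 : HasDerivAt (fun w => P.act g⁻¹ (P.act g w))
      (deriv (P.act g⁻¹) (P.act g z) * deriv (P.act g) z) z :=
    (act_diff P g⁻¹ (P.act_mem g z hz)).hasDerivAt.comp z (act_diff P g hz).hasDerivAt
  have h2 : (fun w => P.act g⁻¹ (P.act g w)) =ᶠ[𝓝 z] fun w => w := by
    filter_upwards [P.isOpen.mem_nhds hz] with w hw using act_inv P g hw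
  exact h1.unique ((hasDerivAt_id z).congr_of_eventuallyEq h2)

theorem act_deriv_ne (g : P.G) {z : ℂ} (hz : z ∈ P.Ω) : deriv (P.act g) z ≠ 0 := by
  have h := act_deriv_inv P g hz
  intro h0
  rw [h0, mul_zero] at h
  exact zero_ne_one h

theorem deriv_diff (g : P.G) {z : ℂ} (hz : z ∈ P.Ω) :
    DifferentiableAt ℂ (deriv (P.act g)) z :=
  ((P.holo g).deriv P.isOpen).differentiableAt (P.isOpen.mem_nhds hz)

theorem exp_u (g : P.G) {z : ℂ} (hz : z ∈ P.Ω) :
    Real.exp (-P.u (P.act g z)) = Real.exp (-P.u z) * ‖deriv (P.act g) z‖ := by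
  have h1 := P.isom g z hz
  have h2 : 0 < ‖deriv (P.act g) z‖ := norm_pos_iff.2 (act_deriv_ne P g hz)
  rw [show -P.u (P.act g z) = -P.u z + Real.log ‖deriv (P.act g) z‖ by linarith, Real.exp_add,
    Real.exp_log h2]

/-- the logarithmic derivative of `g'` -/
def qg (g : P.G) (z : ℂ) : ℂ := deriv (deriv (P.act g)) z / deriv (P.act g) z

theorem pu_act (g : P.G) {z : ℂ} (hz : z ∈ P.Ω) :
    pu P.u z = pu P.u (P.act g z) * deriv (P.act g) z + qg P g z := by
  have key : ∀ h : ℂ, (pu P.u z * h).re =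
      ((pu P.u (P.act g z) * deriv (P.act g) z + qg P g z) * h).re := by
    intro h
    have l1 : HasDerivAt (fun s : ℝ => z + s • h) h 0 := by
      have := ((hasDerivAt_id (0 : ℝ)).smul_const h).const_add z
      rw [one_smul] at this
      exact this
    have e0 : z + (0 : ℝ) • h = z := by rw [zero_smul, add_zero]
    have hgz := P.act_mem g z hz
    have l2 : HasDerivAt (fun s : ℝ => P.u (z + s • h)) (fderiv ℝ P.u z h) 0 := by
      have h3 : HasFDerivAt P.u (fderiv ℝ P.u z) (z + (0 : ℝ) • h) := by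
        rw [e0]
        exact (u_diff P.isOpen P.smooth hz).hasFDerivAt
      exact h3.comp_hasDerivAt (0 : ℝ) l1
    have l3 : HasDerivAt (fun s : ℝ => P.act g (z + s • h)) (deriv (P.act g) z * h) 0 := by
      have h3 : HasDerivAt (P.act g) (deriv (P.act g) z) (z + (0 : ℝ) • h) := by
        rw [e0]
        exact (act_diff P g hz).hasDerivAt
      exact h3.comp (0 : ℝ) l1
    have l4 : HasDerivAt (fun s : ℝ => P.u (P.act g (z + s • h)))
        (fderiv ℝ P.u (P.act g z) (deriv (P.act g) z * h)) 0 := by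
      have h3 : HasFDerivAt P.u (fderiv ℝ P.u (P.act g z)) (P.act g (z + (0 : ℝ) • h)) := by
        rw [e0]
        exact (u_diff P.isOpen P.smooth hgz).hasFDerivAt
      exact h3.comp_hasDerivAt (0 : ℝ) l3
    have l5 : HasDerivAt (fun s : ℝ => deriv (P.act g) (z + s • h))
        (deriv (deriv (P.act g)) z * h) 0 := by
      have h3 : HasDerivAt (deriv (P.act g)) (deriv (deriv (P.act g)) z) (z + (0 : ℝ) • h) := by
        rw [e0]
        exact (deriv_diff P g hz).hasDerivAt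
      exact h3.comp (0 : ℝ) l1
    have l6 := log_norm_deriv l5 (by rw [e0]; exact act_deriv_ne P g hz)
    have l7 := l4.add l6
    have ev : (fun s : ℝ => P.u (z + s • h)) =ᶠ[𝓝 0]
        ((fun s : ℝ => P.u (P.act g (z + s • h))) +
          fun s : ℝ => Real.log ‖deriv (P.act g) (z + s • h)‖) := by
      have h3 : ∀ᶠ s : ℝ in 𝓝 0, z + s • h ∈ P.Ω := by
        apply l1.continuousAt.eventually_mem
        rw [e0]
        exact P.isOpen.mem_nhds hz
      filter_upwards [h3] with s hs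
      exact (P.isom g _ hs).symm
    have l8 := (l7.congr_of_eventuallyEq ev).unique l2
    rw [fd_pu, fd_pu, e0] at l8
    rw [← l8]
    unfold qg
    rw [← Complex.add_re]
    congr 1
    ring
  have h1 := key 1
  have h2 := key (-Complex.I)
  apply Complex.ext
  · simpa using h1
  · rw [mul_neg, mul_neg, Complex.neg_re, Complex.neg_re, Complex.mul_I_re, Complex.mul_I_re,
      neg_neg, neg_neg] at h2
    exact h2

/-- transport of a geodesic -/
theorem transport (g : P.G) {γ : ℝ → ℂ × ℝ} {r : ℝ} (hr : 0 < r)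
    (hγ : Sol (XX P.u) P.S γ (Ioo (-r) r)) {β₀ : ℝ}
    (hβ : Complex.exp (β₀ * Complex.I) * ‖deriv (P.act g) (γ 0).1‖ = deriv (P.act g) (γ 0).1) :
    ∃ α : ℝ → ℝ, α 0 = β₀ ∧
      (∀ t ∈ Ioo (-r) r, Complex.exp (α t * Complex.I) * ‖deriv (P.act g) (γ t).1‖ =
        deriv (P.act g) (γ t).1) ∧
      Sol (XX P.u) P.S (fun t => (P.act g (γ t).1, (γ t).2 + α t)) (Ioo (-r) r) := by
  have hz : ∀ t ∈ Ioo (-r) r, (γ t).1 ∈ P.Ω := fun t ht => (hγ t ht).1.1
  have hg1 : ∀ t ∈ Ioo (-r) r, HasDerivAt (fun s => (γ s).1) (XX P.u (γ t)).1 t :=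
    fun t ht => (hγ t ht).2.fst
  have hg2 : ∀ t ∈ Ioo (-r) r, HasDerivAt (fun s => (γ s).2) (XX P.u (γ t)).2 t :=
    fun t ht => (hγ t ht).2.snd
  set f : ℝ → ℂ := fun s => qg P g (γ s).1 * (XX P.u (γ s)).1 with hf
  have hfc : ContinuousOn f (Ioo (-r) r) := by
    intro t ht
    apply ContinuousAt.continuousWithinAt
    have h0 : ContinuousAt (fun s => (γ s).1) t := (hg1 t ht).continuousAt
    have h1 : ContinuousAt (qg P g) (γ t).1 := by
      have h2 : ContinuousAt (deriv (deriv (P.act g))) (γ t).1 :=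
        ((((P.holo g).deriv P.isOpen).deriv P.isOpen).differentiableAt
          (P.isOpen.mem_nhds (hz t ht))).continuousAt
      exact h2.div (deriv_diff P g (hz t ht)).continuousAt (act_deriv_ne P g (hz t ht))
    have h3 : ContinuousAt (fun s => (XX P.u (γ s)).1) t := by
      have h4 : ContinuousAt (fun s => XX P.u (γ s)) t :=
        ContinuousAt.comp (f := γ) (g := XX P.u)
          (XX_diff P.isOpen P.smooth (hγ t ht).1).continuousAt (hγ t ht).2.continuousAt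
      exact h4.fst
    exact (ContinuousAt.comp (f := fun s => (γ s).1) (g := qg P g) h1 h0).mul h3
  set Q : ℝ → ℂ := fun t => ∫ s in (0 : ℝ)..t, f s with hQ
  have h0r : (0 : ℝ) ∈ Ioo (-r) r := ⟨by linarith, hr⟩
  have hQd : ∀ t ∈ Ioo (-r) r, HasDerivAt Q (f t) t := by
    intro t ht
    apply intervalIntegral.integral_hasDerivAt_right
    · apply ContinuousOn.intervalIntegrable
      apply hfc.mono
      exact ordConnected_Ioo.uIcc_subset h0r ht
    · exact hfc.stronglyMeasurableAtFilter isOpen_Ioo t ht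
    · exact hfc.continuousAt (isOpen_Ioo.mem_nhds ht)
  have hQ0 : Q 0 = 0 := intervalIntegral.integral_same
  -- `g'` along the curve
  have hGd : ∀ t ∈ Ioo (-r) r, HasDerivAt (fun s => deriv (P.act g) (γ s).1)
      (deriv (deriv (P.act g)) (γ t).1 * (XX P.u (γ t)).1) t := by
    intro t ht
    exact (deriv_diff P g (hz t ht)).hasDerivAt.comp t (hg1 t ht)
  have hN : ∀ t ∈ Ioo (-r) r, deriv (P.act g) (γ t).1 * Complex.exp (-Q t) =
      deriv (P.act g) (γ 0).1 := by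
    intro t ht
    have hd : ∀ t ∈ Ioo (-r) r, HasDerivAt (fun s => deriv (P.act g) (γ s).1 *
        Complex.exp (-Q s)) 0 t := by
      intro t ht
      have h1 := (hGd t ht).mul (hQd t ht).neg.cexp
      convert! h1 using 1
      simp only [hf, qg, Pi.neg_apply]
      have := act_deriv_ne P g (hz t ht)
      field_simp
      ring
    have h2 := isOpen_Ioo.is_const_of_deriv_eq_zero isPreconnected_Ioo
      (fun t ht => (hd t ht).differentiableAt.differentiableWithinAt)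
      (fun t ht => (hd t ht).deriv) ht h0r
    simp only [hQ0, neg_zero, Complex.exp_zero, mul_one] at h2
    exact h2
  have hN2 : ∀ t ∈ Ioo (-r) r, deriv (P.act g) (γ t).1 =
      deriv (P.act g) (γ 0).1 * Complex.exp (Q t) := by
    intro t ht
    rw [← hN t ht, mul_assoc, ← Complex.exp_add, neg_add_cancel, Complex.exp_zero, mul_one]
  set α : ℝ → ℝ := fun t => β₀ + (Q t).im with hα
  have hαe : ∀ t ∈ Ioo (-r) r, Complex.exp (α t * Complex.I) * ‖deriv (P.act g) (γ t).1‖ =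
        deriv (P.act g) (γ t).1 := by
    intro t ht
    rw [hN2 t ht, norm_mul, Complex.norm_exp]
    conv_rhs => rw [← hβ, ← Complex.re_add_im (Q t)]
    simp only [hα]
    push_cast
    rw [Complex.exp_add, add_mul, Complex.exp_add]
    ring
  refine ⟨α, by simp [hα, hQ0], hαe, fun t ht => ?_⟩
  have hzt := hz t ht
  have hgz := P.act_mem g _ hzt
  refine ⟨⟨hgz, mem_univ _⟩, ?_⟩
  have hαd : HasDerivAt α (f t).im t := by
    have h1 : HasDerivAt (fun s => (Q s).im) (f t).im t :=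
      Complex.imCLM.hasFDerivAt.comp_hasDerivAt t (hQd t ht)
    exact h1.const_add β₀
  have d1 : HasDerivAt (fun s => P.act g (γ s).1) (deriv (P.act g) (γ t).1 * (XX P.u (γ t)).1) t :=
    (act_diff P g hzt).hasDerivAt.comp t (hg1 t ht)
  have d2 := (hg2 t ht).add hαd
  have d3 := d1.prodMk d2
  have hexp := exp_u P g hzt
  have hXe : XX P.u (P.act g (γ t).1, (γ t).2 + α t) =
      (deriv (P.act g) (γ t).1 * (XX P.u (γ t)).1, (XX P.u (γ t)).2 + (f t).im) := by
    ext1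
    · rw [XX_fst, XX_fst]
      simp only
      rw [hexp]
      conv_rhs => rw [← hαe t ht]
      push_cast
      rw [add_mul, Complex.exp_add]
      ring
    · rw [XX_snd, XX_snd]
      simp only [hf]
      rw [pu_act P g hzt, XX_fst, hexp]
      have e1 : (Complex.exp ((((γ t).2 + α t : ℝ) : ℂ) * Complex.I) *
          pu P.u (P.act g (γ t).1)).im * ‖deriv (P.act g) (γ t).1‖ =
          (Complex.exp ((γ t).2 * Complex.I) * (pu P.u (P.act g (γ t).1) *
            deriv (P.act g) (γ t).1)).im := by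
        rw [← Complex.im_mul_ofReal]
        congr 1
        conv_rhs => rw [← hαe t ht]
        push_cast
        rw [add_mul, Complex.exp_add]
        ring
      have e2 : (qg P g (γ t).1 * ((Real.exp (-P.u (γ t).1) : ℂ) *
          Complex.exp ((γ t).2 * Complex.I))).im =
          Real.exp (-P.u (γ t).1) * (Complex.exp ((γ t).2 * Complex.I) * qg P g (γ t).1).im := by
        rw [← Complex.im_ofReal_mul]
        congr 1
        ring
      rw [mul_add, Complex.add_im, ← e1, e2]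
      ring
  rw [hXe]
  exact d3

end

end

end Pool.Agent.EQ.OD

end

/-! ## Lib_helper89.EQ.GF4 -/

section

/-! # Package O: the geodesic flow of a presentation exists -/

set_option autoImplicit false
set_option linter.unusedSectionVars false

namespace Pool.Agent.EQ.OD

open Set Filter Topology Metric MeasureTheory
open scoped NNReal ContDiff

noncomputable section

variable (P : Pres)

theorem S_isOpen : IsOpen P.S := P.isOpen.prod isOpen_univ

theorem XX_c2 : ContDiffOn ℝ 2 (XX P.u) P.S :=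
  (XX_smooth P.isOpen P.smooth).of_le (by
    have h : ((2 : ℕ∞) : WithTop ℕ∞) ≤ ((⊤ : ℕ∞) : WithTop ℕ∞) := WithTop.coe_le_coe.2 le_top
    exact h)

theorem XX_c1 : ContDiffOn ℝ 1 (XX P.u) P.S :=
  (XX_smooth P.isOpen P.smooth).of_le (by exact_mod_cast le_top)

theorem uniform_time : ∃ ε > 0, ∀ v ∈ P.S, ∃ γ : ℝ → ℂ × ℝ, γ 0 = v ∧
    Sol (XX P.u) P.S γ (Ioo (-ε) ε) := by
  obtain ⟨K, hKO, hK, hcov⟩ := P.cocompact
  obtain ⟨ε, hε, hex⟩ := exists_time (S_isOpen P) (XX_c2 P)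
    (hK.prod (isCompact_Icc : IsCompact (Icc (0 : ℝ) (2 * Real.pi))))
    (prod_mono hKO (subset_univ _))
  refine ⟨ε, hε, fun v hv => ?_⟩
  have hz : v.1 ∈ P.Ω := hv.1
  obtain ⟨g, hg⟩ := hcov v.1 hz
  set b : ℝ := v.2 + (deriv (P.act g) v.1).arg with hb
  set n : ℤ := ⌊b / (2 * Real.pi)⌋ with hn
  have hpi : 0 < 2 * Real.pi := Real.two_pi_pos
  have h1 : (n : ℝ) * (2 * Real.pi) ≤ b := by
    rw [← le_div_iff₀ hpi]
    exact Int.floor_le _
  have h2 : b < ((n : ℝ) + 1) * (2 * Real.pi) := by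
    rw [← div_lt_iff₀ hpi]
    exact Int.lt_floor_add_one _
  obtain ⟨γ, h0, hγ⟩ := hex (P.act g v.1, b - n * (2 * Real.pi))
    ⟨hg, ⟨by show 0 ≤ b - n * (2 * Real.pi); linarith,
      by show b - n * (2 * Real.pi) ≤ 2 * Real.pi; linarith⟩⟩
  have hinv := act_deriv_inv P g hz
  have hne := act_deriv_ne P g hz
  have hiv : deriv (P.act g⁻¹) (P.act g v.1) = (deriv (P.act g) v.1)⁻¹ :=
    eq_inv_of_mul_eq_one_left hinv
  obtain ⟨α, hα0, -, hs⟩ := transport P g⁻¹ hε hγ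
    (β₀ := -(deriv (P.act g) v.1).arg + n * (2 * Real.pi)) (by
      rw [h0]
      simp only
      rw [hiv]
      have e1 : (((-(deriv (P.act g) v.1).arg + n * (2 * Real.pi) : ℝ) : ℂ) * Complex.I) =
          -((deriv (P.act g) v.1).arg * Complex.I) + n * (2 * Real.pi * Complex.I) := by
        push_cast
        ring
      rw [e1, Complex.exp_add, Complex.exp_int_mul_two_pi_mul_I, mul_one, norm_inv,
        Complex.exp_neg, Complex.ofReal_inv, ← mul_inv, mul_comm,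
        Complex.norm_mul_exp_arg_mul_I])
  refine ⟨_, ?_, hs⟩
  rw [h0, hα0]
  ext1
  · exact act_inv P g hz
  · simp only [hb]
    ring

theorem complete_S : ∀ v ∈ P.S, ∃ γ : ℝ → ℂ × ℝ, γ 0 = v ∧ Sol (XX P.u) P.S γ univ := by
  obtain ⟨ε, hε, h⟩ := uniform_time P
  exact Sol.complete (S_isOpen P) (XX_c1 P) hε h

theorem XX_add_two_pi (u : ℂ → ℝ) (z : ℂ) (θ : ℝ) : XX u (z, θ + 2 * Real.pi) = XX u (z, θ) := by
  ext1
  · rw [XX_fst, XX_fst]
    simp only
    push_cast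
    rw [add_mul, Complex.exp_add, Complex.exp_two_pi_mul_I, mul_one]
  · rw [XX_snd, XX_snd]
    simp only
    push_cast
    rw [add_mul, Complex.exp_add, Complex.exp_two_pi_mul_I, mul_one]

theorem XX_add_pi (u : ℂ → ℝ) (z : ℂ) (θ : ℝ) : XX u (z, θ + Real.pi) = -XX u (z, θ) := by
  ext1
  · rw [Prod.fst_neg, XX_fst, XX_fst]
    simp only
    push_cast
    rw [add_mul, Complex.exp_add, Complex.exp_pi_mul_I]
    ring
  · rw [Prod.snd_neg, XX_snd, XX_snd]
    simp only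
    push_cast
    rw [add_mul, Complex.exp_add, Complex.exp_pi_mul_I, mul_neg_one, neg_mul, Complex.neg_im]
    ring

theorem add_int_two_pi (u : ℂ → ℝ) (z : ℂ) (θ : ℝ) (n : ℤ) :
    XX u (z, θ + n * (2 * Real.pi)) = XX u (z, θ) := by
  ext1
  · rw [XX_fst, XX_fst]
    simp only
    push_cast
    rw [add_mul, Complex.exp_add, mul_assoc (n : ℂ), Complex.exp_int_mul_two_pi_mul_I, mul_one]
  · rw [XX_snd, XX_snd]
    simp only
    push_cast
    rw [add_mul, Complex.exp_add, mul_assoc (n : ℂ), Complex.exp_int_mul_two_pi_mul_I, mul_one]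

section
variable {P} (Φ : GlobalFlow (XX P.u) P.S)

theorem sol (v : ℂ × ℝ) (hv : v ∈ P.S) : Sol (XX P.u) P.S (fun t => Φ.φ t v) univ :=
  fun t _ => ⟨Φ.mem t v hv, Φ.dt t v hv⟩

theorem gf_per (t : ℝ) (v : ℂ × ℝ) (hv : v ∈ P.S) :
    Φ.φ t (v.1, v.2 + 2 * Real.pi) = ((Φ.φ t v).1, (Φ.φ t v).2 + 2 * Real.pi) := by
  have h := Φ.uniq (fun t => ((Φ.φ t v).1, (Φ.φ t v).2 + 2 * Real.pi)) (fun s _ => ?_) t 0
  · simp only [add_zero, Φ.zero] at h
    exact h.symm
  · refine ⟨⟨(Φ.mem s v hv).1, mem_univ _⟩, ?_⟩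
    have h1 := Φ.dt s v hv
    have h2 : HasDerivAt (fun s => (Φ.φ s v).1) (XX P.u (Φ.φ s v)).1 s := h1.fst
    have h3 : HasDerivAt (fun s => (Φ.φ s v).2) (XX P.u (Φ.φ s v)).2 s := h1.snd
    have h4 := h2.prodMk (h3.add_const (2 * Real.pi))
    rw [XX_add_two_pi]
    exact h4

theorem gf_flip (t : ℝ) (v : ℂ × ℝ) (hv : v ∈ P.S) :
    Φ.φ (-t) (v.1, v.2 + Real.pi) = ((Φ.φ t v).1, (Φ.φ t v).2 + Real.pi) := by
  have h := Φ.uniq (fun t => ((Φ.φ (-t) v).1, (Φ.φ (-t) v).2 + Real.pi)) (fun s _ => ?_) (-t) 0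
  · simp only [add_zero, neg_neg, neg_zero, Φ.zero] at h
    exact h.symm
  · refine ⟨⟨(Φ.mem (-s) v hv).1, mem_univ _⟩, ?_⟩
    have h1 := (Φ.dt (-s) v hv).scomp s (hasDerivAt_neg s)
    rw [neg_one_smul] at h1
    have h2 : HasDerivAt (fun s => (Φ.φ (-s) v).1) (-XX P.u (Φ.φ (-s) v)).1 s := h1.fst
    have h3 : HasDerivAt (fun s => (Φ.φ (-s) v).2) (-XX P.u (Φ.φ (-s) v)).2 s := h1.snd
    have h4 := h2.prodMk (h3.add_const Real.pi)
    rw [XX_add_pi]
    exact h4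

theorem gf_equiv (g : P.G) (t : ℝ) (v : ℂ × ℝ) (hv : v ∈ P.S) : ∃ n : ℤ, Φ.φ t (P.actS g v) =
    ((P.actS g (Φ.φ t v)).1, (P.actS g (Φ.φ t v)).2 + n * (2 * Real.pi)) := by
  have hr : 0 < |t| + 1 := by positivity
  have h1 : Sol (XX P.u) P.S (fun s => Φ.φ s v) (Ioo (-(|t| + 1)) (|t| + 1)) :=
    (sol Φ v hv).mono (subset_univ _)
  obtain ⟨α, hα0, hαe, hs⟩ := transport P g hr h1
    (β₀ := (deriv (P.act g) v.1).arg) (by
      simp only [Φ.zero]
      rw [mul_comm, Complex.norm_mul_exp_arg_mul_I])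
  have htm : t ∈ Ioo (-(|t| + 1)) (|t| + 1) := abs_lt.1 (by linarith)
  have hgv : P.actS g v ∈ P.S := ⟨P.act_mem g v.1 hv.1, mem_univ _⟩
  have h2 := Sol.unique (S_isOpen P) (XX_c1 P) isOpen_Ioo isPreconnected_Ioo hs
    ((sol Φ _ hgv).mono (subset_univ _)) (t₀ := 0) ⟨by linarith, hr⟩ (by
      simp only [Φ.zero, hα0]
      rfl) htm
  have hne := act_deriv_ne P g (Φ.mem t v hv).1
  have h3 := hαe t htm
  have h4 : Complex.exp (α t * Complex.I) =
      Complex.exp ((deriv (P.act g) (Φ.φ t v).1).arg * Complex.I) := by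
    have h5 : (‖deriv (P.act g) (Φ.φ t v).1‖ : ℂ) ≠ 0 := by
      rw [Complex.ofReal_ne_zero]
      exact norm_ne_zero_iff.2 hne
    apply mul_right_cancel₀ h5
    rw [h3, mul_comm, Complex.norm_mul_exp_arg_mul_I]
  obtain ⟨n, hn⟩ := Complex.exp_eq_exp_iff_exists_int.1 h4
  have h6 : α t = (deriv (P.act g) (Φ.φ t v).1).arg + n * (2 * Real.pi) := by
    have h7 : ((α t : ℂ) - ((deriv (P.act g) (Φ.φ t v).1).arg + n * (2 * Real.pi))) *
        Complex.I = 0 := by
      linear_combination hn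
    rcases mul_eq_zero.1 h7 with h8 | h8
    · have h9 := sub_eq_zero.1 h8
      exact_mod_cast h9
    · exact absurd h8 Complex.I_ne_zero
  refine ⟨n, ?_⟩
  refine Eq.trans (Eq.symm h2) ?_
  simp only
  rw [h6]
  unfold Pres.actS
  simp only
  rw [← add_assoc]

/-- the flow at fixed time is differentiable -/
theorem gf_diff (t : ℝ) {v : ℂ × ℝ} (hv : v ∈ P.S) : DifferentiableAt ℝ (Φ.φ t) v := by
  have h1 : ContDiffAt ℝ 1 (fun p : ℝ × (ℂ × ℝ) => Φ.φ p.1 p.2) (t, v) :=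
    Φ.smooth.contDiffAt ((isOpen_univ.prod (S_isOpen P)).mem_nhds ⟨mem_univ _, hv⟩)
  have h2 : DifferentiableAt ℝ (fun p : ℝ × (ℂ × ℝ) => Φ.φ p.1 p.2) (t, v) :=
    h1.differentiableAt (by norm_num)
  exact h2.comp v (differentiableAt_const t |>.prodMk differentiableAt_id)

theorem gf_dX (t : ℝ) (v : ℂ × ℝ) (hv : v ∈ P.S) :
    fderiv ℝ (Φ.φ t) v (XX P.u v) = XX P.u (Φ.φ t v) := by
  have h0 : HasDerivAt (fun s => Φ.φ s v) (XX P.u v) 0 := by
    have := Φ.dt 0 v hv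
    rwa [Φ.zero] at this
  have h1 : HasDerivAt (fun s => Φ.φ t (Φ.φ s v)) (fderiv ℝ (Φ.φ t) v (XX P.u v)) 0 := by
    have h2 : HasFDerivAt (Φ.φ t) (fderiv ℝ (Φ.φ t) v) (Φ.φ 0 v) := by
      rw [Φ.zero]
      exact (gf_diff Φ t hv).hasFDerivAt
    exact h2.comp_hasDerivAt (0 : ℝ) h0
  have h2 : HasDerivAt (fun s => Φ.φ t (Φ.φ s v)) (XX P.u (Φ.φ t v)) 0 := by
    have h3 : (fun s => Φ.φ t (Φ.φ s v)) = fun s => Φ.φ (t + s) v := by
      funext s
      rw [Φ.add]
    rw [h3]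
    have h4 : HasDerivAt (fun s => Φ.φ s v) (XX P.u (Φ.φ t v)) (t + 0) := by
      rw [add_zero]
      exact Φ.dt t v hv
    exact h4.comp_const_add t 0
  exact h1.unique h2

theorem gf_id (v : ℂ × ℝ) (h : ℂ × ℝ) : fderiv ℝ (Φ.φ 0) v h = h := by
  have h1 : Φ.φ 0 = id := funext fun x => Φ.zero x
  rw [h1, fderiv_id]
  rfl

theorem cX_lin (u : ℂ → ℝ) (v : ℂ × ℝ) {a b c : ℝ} :
    cX u v (a • XX u v + b • HH u v + c • VV) = a ∧
    cH u v (a • XX u v + b • HH u v + c • VV) = b ∧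
    cV u v (a • XX u v + b • HH u v + c • VV) = c := by
  obtain ⟨h1, h2, h3⟩ := frame_unique (frame u v (a • XX u v + b • HH u v + c • VV))
  exact ⟨h1.symm, h2.symm, h3.symm⟩

/-- the coordinates of `D φ_t h` -/
theorem gf_frame (h : ℂ × ℝ) (v : ℂ × ℝ) (hv : v ∈ P.S) (h0 : cX P.u v h = 0) (t : ℝ) :
    fderiv ℝ (Φ.φ t) v h = cH P.u (Φ.φ t v) (fderiv ℝ (Φ.φ t) v h) • HH P.u (Φ.φ t v) +
      cV P.u (Φ.φ t v) (fderiv ℝ (Φ.φ t) v h) • VV := by
  have hj := jacobi P.isOpen P.smooth (c := fun t => Φ.φ t v)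
    (W := fun t => fderiv ℝ (Φ.φ t) v h) (fun t => ⟨Φ.mem t v hv, Φ.dt t v hv⟩)
    (fun t => Φ.var v hv h t)
  have h1 : cX P.u (Φ.φ t v) (fderiv ℝ (Φ.φ t) v h) = 0 := by
    have h2 := is_const_of_deriv_eq_zero (f := fun t => cX P.u (Φ.φ t v) (fderiv ℝ (Φ.φ t) v h))
      (fun t => (hj t).1.differentiableAt) (fun t => (hj t).1.deriv) t 0
    simp only [Φ.zero, gf_id] at h2
    rw [h2, h0]
  conv_lhs => rw [frame P.u (Φ.φ t v) (fderiv ℝ (Φ.φ t) v h)]
  rw [h1, zero_smul, zero_add]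

end

/-- **Package O.** -/
theorem exists_gflow (P : Pres) : Nonempty (GFlow P) := by
  classical
  obtain ⟨Φ⟩ := exists_globalFlow (S_isOpen P) (XX_c2 P) (complete_S P)
  have hj : ∀ h : ℂ × ℝ, ∀ v ∈ P.S, ∀ t,
    HasDerivAt (fun s => cH P.u (Φ.φ s v) (fderiv ℝ (Φ.φ s) v h))
      (cV P.u (Φ.φ t v) (fderiv ℝ (Φ.φ t) v h)) t ∧
    HasDerivAt (fun s => cV P.u (Φ.φ s v) (fderiv ℝ (Φ.φ s) v h))
      (kk P.u (Φ.φ t v).1 * cH P.u (Φ.φ t v) (fderiv ℝ (Φ.φ t) v h)) t := fun h v hv t =>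
    (jacobi P.isOpen P.smooth (c := fun t => Φ.φ t v)
      (W := fun t => fderiv ℝ (Φ.φ t) v h) (fun t => ⟨Φ.mem t v hv, Φ.dt t v hv⟩)
      (fun t => Φ.var v hv h t) t).2
  have cHH : ∀ v, cX P.u v (HH P.u v) = 0 ∧ cH P.u v (HH P.u v) = 1 ∧
      cV P.u v (HH P.u v) = 0 := by
    intro v
    have := cX_lin P.u v (a := 0) (b := 1) (c := 0)
    simpa using this
  have cVV : ∀ v, cX P.u v VV = 0 ∧ cH P.u v VV = 0 ∧ cV P.u v VV = 1 := by
    intro v
    have := cX_lin P.u v (a := 0) (b := 0) (c := 1)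
    simpa using this
  let A : ℝ → ℂ × ℝ → ℝ := fun t v =>
    if v ∈ P.S then cH P.u (Φ.φ t v) (fderiv ℝ (Φ.φ t) v (HH P.u v)) else 1
  let A' : ℝ → ℂ × ℝ → ℝ := fun t v =>
    if v ∈ P.S then cV P.u (Φ.φ t v) (fderiv ℝ (Φ.φ t) v (HH P.u v)) else 0
  let B : ℝ → ℂ × ℝ → ℝ := fun t v =>
    if v ∈ P.S then cH P.u (Φ.φ t v) (fderiv ℝ (Φ.φ t) v VV) else 0
  let B' : ℝ → ℂ × ℝ → ℝ := fun t v =>
    if v ∈ P.S then cV P.u (Φ.φ t v) (fderiv ℝ (Φ.φ t) v VV) else 1
  have eA : ∀ v ∈ P.S, ∀ t, A t v = cH P.u (Φ.φ t v) (fderiv ℝ (Φ.φ t) v (HH P.u v)) :=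
    fun v hv t => if_pos hv
  have eA' : ∀ v ∈ P.S, ∀ t, A' t v = cV P.u (Φ.φ t v) (fderiv ℝ (Φ.φ t) v (HH P.u v)) :=
    fun v hv t => if_pos hv
  have eB : ∀ v ∈ P.S, ∀ t, B t v = cH P.u (Φ.φ t v) (fderiv ℝ (Φ.φ t) v VV) :=
    fun v hv t => if_pos hv
  have eB' : ∀ v ∈ P.S, ∀ t, B' t v = cV P.u (Φ.φ t v) (fderiv ℝ (Φ.φ t) v VV) :=
    fun v hv t => if_pos hv
  refine ⟨{
    φ := Φ.φ
    A := A
    A' := A'
    B := B
    B' := B'
    out := Φ.out
    mem := Φ.mem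
    zero := Φ.zero
    add := Φ.add
    deriv_t := Φ.dt
    uniq := fun c hc => Φ.uniq c fun t _ => hc t
    smooth := Φ.smooth
    per := gf_per Φ
    equiv := gf_equiv Φ
    flip := gf_flip Φ
    dX := gf_dX Φ
    dH := ?_
    dV := ?_
    A0 := ?_
    A'0 := ?_
    B0 := ?_
    B'0 := ?_
    hA := ?_
    hA' := ?_
    hB := ?_
    hB' := ?_ }⟩
  · intro t v hv
    rw [eA v hv, eA' v hv]
    exact gf_frame Φ _ v hv (cHH v).1 t
  · intro t v hv
    rw [eB v hv, eB' v hv]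
    exact gf_frame Φ _ v hv (cVV v).1 t
  · intro v
    by_cases hv : v ∈ P.S
    · rw [eA v hv, gf_id, Φ.zero]
      exact (cHH v).2.1
    · exact if_neg hv
  · intro v
    by_cases hv : v ∈ P.S
    · rw [eA' v hv, gf_id, Φ.zero]
      exact (cHH v).2.2
    · exact if_neg hv
  · intro v
    by_cases hv : v ∈ P.S
    · rw [eB v hv, gf_id, Φ.zero]
      exact (cVV v).2.1
    · exact if_neg hv
  · intro v
    by_cases hv : v ∈ P.S
    · rw [eB' v hv, gf_id, Φ.zero]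
      exact (cVV v).2.2
    · exact if_neg hv
  · intro t v hv
    rw [eA' v hv, show (fun s => A s v) = _ from funext (eA v hv)]
    exact (hj _ v hv t).1
  · intro t v hv
    rw [eA v hv, show (fun s => A' s v) = _ from funext (eA' v hv)]
    exact (hj _ v hv t).2
  · intro t v hv
    rw [eB' v hv, show (fun s => B s v) = _ from funext (eB v hv)]
    exact (hj _ v hv t).1
  · intro t v hv
    rw [eB v hv, show (fun s => B' s v) = _ from funext (eB' v hv)]
    exact (hj _ v hv t).2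

end

end Pool.Agent.EQ.OD

/-- **Package O**: every presentation has a geodesic flow. -/
theorem Pool.Agent.EQ.exists_gflow_pr (P : Pool.Agent.EQ.Pres) : Nonempty (Pool.Agent.EQ.GFlow P) :=
  Pool.Agent.EQ.OD.exists_gflow P

end

/-! ## Lib_helper71.EQ.D.O -/

section

set_option autoImplicit false

namespace Pool.Agent.EQ

/-- O : existence of the geodesic flow -/
theorem exists_gflow (P : Pres) : Nonempty (GFlow P) := exists_gflow_pr P

end Pool.Agent.EQ

end

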