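import Mathlib
import Pool.Agent.Lib_helper71.EQM.FlowDefs

/-! Project EQ (MP_ed6ab2_an): merged modules Lib_helper71.EQ.D.LM, Lib_helper71.EQ.D.M0, Lib_helper71.EQ.D.ST, Lib_helper71.EQ.D.JP, Lib_helper71.EQ.D.JU, Lib_helper71.EQ.D.FL, Lib_helper71.EQ.D.LN, Lib_helper71.EQ.D.CR, Lib_helper71.EQ.D.JS. -/

set_option autoImplicit false

/-! ## Lib_helper71.EQ.D.LM -/

section

/-! Project EQ, block LM (helper29). -/

set_option autoImplicit false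

namespace Pool.Agent.EQ

open MeasureTheory Filter Topology Set
open scoped ContDiff ENNReal

noncomputable section

theorem LM_open (P : Pres) : IsOpen P.S := P.isOpen.prod isOpen_univ

theorem LM_open2 (P : Pres) : IsOpen ((univ : Set ℝ) ×ˢ P.S) := isOpen_univ.prod (LM_open P)

theorem LM_dx (P : Pres) : ContinuousOn (dx P.u) P.Ω :=
  (P.smooth.continuousOn_fderiv_of_isOpen P.isOpen (by norm_num)).clm_apply continuousOn_const

theorem LM_dy (P : Pres) : ContinuousOn (dy P.u) P.Ω :=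
  (P.smooth.continuousOn_fderiv_of_isOpen P.isOpen (by norm_num)).clm_apply continuousOn_const

theorem LM_fst (P : Pres) : MapsTo (Prod.fst : ℂ × ℝ → ℂ) P.S P.Ω := fun _ hv => hv.1

theorem LM_u (P : Pres) : ContinuousOn (fun v : ℂ × ℝ => P.u v.1) P.S :=
  P.smooth.continuousOn.comp continuousOn_fst (LM_fst P)

theorem LM_HH2 (P : Pres) : ContinuousOn (fun v : ℂ × ℝ => (HH P.u v).2) P.S := by
  have h1 : ContinuousOn (fun v : ℂ × ℝ => dx P.u v.1) P.S :=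
    (LM_dx P).comp continuousOn_fst (LM_fst P)
  have h2 : ContinuousOn (fun v : ℂ × ℝ => dy P.u v.1) P.S :=
    (LM_dy P).comp continuousOn_fst (LM_fst P)
  have h3 : ContinuousOn (fun v : ℂ × ℝ => v.2) P.S := continuousOn_snd
  have h4 := LM_u P
  exact (Real.continuous_exp.comp_continuousOn h4.neg).mul
    ((h1.neg.mul (Real.continuous_cos.comp_continuousOn h3)).sub
      (h2.mul (Real.continuous_sin.comp_continuousOn h3)))

theorem LM_phi (P : Pres) (Φ : GFlow P) :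
    ContinuousOn (fun p : ℝ × (ℂ × ℝ) => Φ.φ p.1 p.2) (univ ×ˢ P.S) := Φ.smooth.continuousOn

theorem LM_maps (P : Pres) (Φ : GFlow P) :
    MapsTo (fun p : ℝ × (ℂ × ℝ) => Φ.φ p.1 p.2) (univ ×ˢ P.S) P.S := fun _ hp => Φ.mem _ _ hp.2

theorem LM_Dv (P : Pres) (Φ : GFlow P) :
    ContinuousOn (fun p : ℝ × (ℂ × ℝ) => fderiv ℝ (Φ.φ p.1) p.2 VV) (univ ×ˢ P.S) := by
  have h1 : ContinuousOn (fun p : ℝ × (ℂ × ℝ) =>
      fderiv ℝ (fun p : ℝ × (ℂ × ℝ) => Φ.φ p.1 p.2) p (0, VV)) (univ ×ˢ P.S) :=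
    (Φ.smooth.continuousOn_fderiv_of_isOpen (LM_open2 P) (by norm_num)).clm_apply
      continuousOn_const
  refine h1.congr ?_
  rintro ⟨t, v⟩ hp
  have h2 : DifferentiableAt ℝ (fun p : ℝ × (ℂ × ℝ) => Φ.φ p.1 p.2) (t, v) :=
    (Φ.smooth.contDiffAt ((LM_open2 P).mem_nhds hp)).differentiableAt (by norm_num)
  have h3 : HasFDerivAt (fun w : ℂ × ℝ => (t, w))
      ((0 : ℂ × ℝ →L[ℝ] ℝ).prod (ContinuousLinearMap.id ℝ (ℂ × ℝ))) v :=
    (hasFDerivAt_const t v).prodMk (hasFDerivAt_id v)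
  have h4 := h2.hasFDerivAt.comp (f := fun w : ℂ × ℝ => (t, w)) v h3
  have h5 : fderiv ℝ (Φ.φ t) v = _ := h4.fderiv
  simp only
  rw [h5]
  rfl

theorem LM_B_eq (P : Pres) (Φ : GFlow P) (t : ℝ) (v : ℂ × ℝ) (hv : v ∈ P.S) :
    Φ.B t v = Real.exp (P.u (Φ.φ t v).1) *
      ((fderiv ℝ (Φ.φ t) v VV).1 * (-Complex.I * Complex.exp (-((Φ.φ t v).2 * Complex.I)))).re := by
  rw [Φ.dV t v hv]
  have h1 : (Φ.B t v • HH P.u (Φ.φ t v) + Φ.B' t v • VV).1 =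
      (Φ.B t v : ℂ) * ((Real.exp (-P.u (Φ.φ t v).1) : ℂ) *
        (Complex.I * Complex.exp ((Φ.φ t v).2 * Complex.I))) := by
    simp [HH, VV]
  rw [h1]
  have h2 : (Φ.B t v : ℂ) * ((Real.exp (-P.u (Φ.φ t v).1) : ℂ) *
        (Complex.I * Complex.exp ((Φ.φ t v).2 * Complex.I))) *
        (-Complex.I * Complex.exp (-((Φ.φ t v).2 * Complex.I))) =
      ((Φ.B t v * Real.exp (-P.u (Φ.φ t v).1) : ℝ) : ℂ) := by
    have h3 : Complex.exp ((Φ.φ t v).2 * Complex.I) *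
        Complex.exp (-((Φ.φ t v).2 * Complex.I)) = 1 := by
      rw [← Complex.exp_add, add_neg_cancel, Complex.exp_zero]
    push_cast
    linear_combination (-(Φ.B t v : ℂ) * Complex.exp (-(P.u (Φ.φ t v).1 : ℂ)) * Complex.I ^ 2) * h3
      - ((Φ.B t v : ℂ) * Complex.exp (-(P.u (Φ.φ t v).1 : ℂ))) * Complex.I_sq
  rw [h2, Complex.ofReal_re, mul_comm (Φ.B t v), ← mul_assoc, ← Real.exp_add, add_neg_cancel,
    Real.exp_zero, one_mul]

theorem LM_B (P : Pres) (Φ : GFlow P) :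
    ContinuousOn (fun p : ℝ × (ℂ × ℝ) => Φ.B p.1 p.2) (univ ×ˢ P.S) := by
  have h1 : ContinuousOn (fun p : ℝ × (ℂ × ℝ) => P.u (Φ.φ p.1 p.2).1) (univ ×ˢ P.S) :=
    (LM_u P).comp (LM_phi P Φ) (LM_maps P Φ)
  have h2 := (LM_Dv P Φ)
  have h3 : ContinuousOn (fun p : ℝ × (ℂ × ℝ) => ((Φ.φ p.1 p.2).2 : ℝ)) (univ ×ˢ P.S) :=
    continuous_snd.comp_continuousOn (LM_phi P Φ)
  have h4 : ContinuousOn (fun p : ℝ × (ℂ × ℝ) =>
      Complex.exp (-(((Φ.φ p.1 p.2).2 : ℂ) * Complex.I))) (univ ×ˢ P.S) :=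
    Complex.continuous_exp.comp_continuousOn
      (((Complex.continuous_ofReal.comp_continuousOn h3).mul continuousOn_const).neg)
  have h5 : ContinuousOn (fun p : ℝ × (ℂ × ℝ) => (fderiv ℝ (Φ.φ p.1) p.2 VV).1)
      (univ ×ˢ P.S) := continuous_fst.comp_continuousOn h2
  have h6 : ContinuousOn (fun p : ℝ × (ℂ × ℝ) => Real.exp (P.u (Φ.φ p.1 p.2).1) *
      ((fderiv ℝ (Φ.φ p.1) p.2 VV).1 *
        (-Complex.I * Complex.exp (-((Φ.φ p.1 p.2).2 * Complex.I)))).re) (univ ×ˢ P.S) :=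
    (Real.continuous_exp.comp_continuousOn h1).mul
      (Complex.continuous_re.comp_continuousOn
        (h5.mul ((continuousOn_const (c := -Complex.I)).mul h4)))
  exact h6.congr fun p hp => LM_B_eq P Φ p.1 p.2 hp.2

theorem LM_B' (P : Pres) (Φ : GFlow P) :
    ContinuousOn (fun p : ℝ × (ℂ × ℝ) => Φ.B' p.1 p.2) (univ ×ˢ P.S) := by
  have h1 : ContinuousOn (fun p : ℝ × (ℂ × ℝ) => (HH P.u (Φ.φ p.1 p.2)).2) (univ ×ˢ P.S) :=
    (LM_HH2 P).comp (LM_phi P Φ) (LM_maps P Φ)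
  have h2 : ContinuousOn (fun p : ℝ × (ℂ × ℝ) => (fderiv ℝ (Φ.φ p.1) p.2 VV).2)
      (univ ×ˢ P.S) := continuous_snd.comp_continuousOn (LM_Dv P Φ)
  have h3 : ContinuousOn (fun p : ℝ × (ℂ × ℝ) => (fderiv ℝ (Φ.φ p.1) p.2 VV).2 -
      Φ.B p.1 p.2 * (HH P.u (Φ.φ p.1 p.2)).2) (univ ×ˢ P.S) := h2.sub ((LM_B P Φ).mul h1)
  refine h3.congr ?_
  intro p hp
  simp only
  rw [Φ.dV p.1 p.2 hp.2]
  simp [VV]

/-- LM -/
theorem len_cont_pr (P : Pres) (Φ : GFlow P) (T : ℝ) :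
    ContinuousOn (fun p : ℝ × (ℂ × ℝ) => Φ.len T p.1 p.2) (univ ×ˢ P.S) ∧
    ContinuousOn (fun p : ℝ × (ℂ × ℝ) => Φ.J p.1 p.2) (univ ×ˢ P.S) ∧
    ContinuousOn (fun p : ℝ × (ℂ × ℝ) => Φ.J' p.1 p.2) (univ ×ˢ P.S) ∧
    ContinuousOn (fun p : ℝ × (ℂ × ℝ) => Φ.St T p.1 p.2) (univ ×ˢ P.S) := by
  have hmap : MapsTo (fun p : ℝ × (ℂ × ℝ) => ((-p.1 : ℝ), Φ.φ p.1 p.2)) (univ ×ˢ P.S)
      (univ ×ˢ P.S) := fun p hp => ⟨mem_univ _, Φ.mem _ _ hp.2⟩
  have hcm : ContinuousOn (fun p : ℝ × (ℂ × ℝ) => ((-p.1 : ℝ), Φ.φ p.1 p.2)) (univ ×ˢ P.S) :=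
    continuousOn_fst.neg.prodMk (LM_phi P Φ)
  have hJ : ContinuousOn (fun p : ℝ × (ℂ × ℝ) => Φ.J p.1 p.2) (univ ×ˢ P.S) :=
    ((LM_B P Φ).comp hcm hmap).neg
  have hJ' : ContinuousOn (fun p : ℝ × (ℂ × ℝ) => Φ.J' p.1 p.2) (univ ×ˢ P.S) :=
    (LM_B' P Φ).comp hcm hmap
  have hSt : ContinuousOn (fun p : ℝ × (ℂ × ℝ) => Φ.St T p.1 p.2) (univ ×ˢ P.S) := by
    have h1 : ContinuousOn (fun p : ℝ × (ℂ × ℝ) => Φ.φ T p.2) (univ ×ˢ P.S) :=
      (LM_phi P Φ).comp (f := fun p : ℝ × (ℂ × ℝ) => (T, p.2))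
        (continuousOn_const.prodMk continuousOn_snd) (fun p hp => ⟨mem_univ _, hp.2⟩)
    have h2 : ContinuousOn (fun p : ℝ × (ℂ × ℝ) => rot p.1 (Φ.φ T p.2)) (univ ×ˢ P.S) :=
      (continuous_fst.comp_continuousOn h1).prodMk
        ((continuous_snd.comp_continuousOn h1).add continuousOn_fst)
    exact (LM_phi P Φ).comp (f := fun p : ℝ × (ℂ × ℝ) => (-T, rot p.1 (Φ.φ T p.2)))
      (continuousOn_const.prodMk h2) (fun p hp => ⟨mem_univ _, (Φ.mem T _ hp.2).1, mem_univ _⟩)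
  refine ⟨?_, hJ, hJ', hSt⟩
  -- the length
  have hlc : LocallyCompactSpace P.S := (LM_open P).locallyCompactSpace
  have hmemSt : ∀ s v, v ∈ P.S → Φ.St T s v ∈ P.S := fun s v hv =>
    Φ.mem _ _ ⟨(Φ.mem T _ hv).1, mem_univ _⟩
  have hF : Continuous (fun q : (ℝ × P.S) × ℝ => Φ.J T (Φ.St T q.2 q.1.2)) := by
    have h1 : Continuous (fun q : (ℝ × P.S) × ℝ => Φ.St T q.2 q.1.2) := by
      have h2 := hSt.comp_continuous (f := fun q : (ℝ × P.S) × ℝ => (q.2, (q.1.2 : ℂ × ℝ)))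
        (by fun_prop) (fun q => ⟨mem_univ _, q.1.2.2⟩)
      exact h2
    exact hJ.comp_continuous (f := fun q : (ℝ × P.S) × ℝ => (T, Φ.St T q.2 q.1.2))
      (continuous_const.prodMk h1) (fun q => ⟨mem_univ _, hmemSt _ _ q.1.2.2⟩)
  have hint : Continuous (fun q : ℝ × P.S => |∫ s in (0 : ℝ)..q.1, Φ.J T (Φ.St T s q.2)|) := by
    have h3 := intervalIntegral.continuous_parametric_intervalIntegral_of_continuous
      (μ := volume) (a₀ := (0 : ℝ)) (f := fun (q : ℝ × P.S) (s : ℝ) => Φ.J T (Φ.St T s q.2))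
      hF (s := fun q => q.1) continuous_fst
    exact h3.abs
  intro p hp
  have h4 : ContinuousAt (fun q : ℝ × P.S => Φ.len T q.1 q.2) (p.1, ⟨p.2, hp.2⟩) :=
    hint.continuousAt
  have h5 : Topology.IsOpenEmbedding (fun q : ℝ × P.S => (q.1, (q.2 : ℂ × ℝ))) :=
    Topology.IsOpenEmbedding.id.prodMap (LM_open P).isOpenEmbedding_subtypeVal
  have h6 : ContinuousAt ((fun p : ℝ × (ℂ × ℝ) => Φ.len T p.1 p.2) ∘
      (fun q : ℝ × P.S => (q.1, (q.2 : ℂ × ℝ)))) (p.1, ⟨p.2, hp.2⟩) := h4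
  exact ((h5.continuousAt_iff).1 h6).continuousWithinAt

end

end Pool.Agent.EQ

namespace Pool.Agent.EQ

open MeasureTheory Filter Topology Set
open scoped ContDiff ENNReal

noncomputable section

theorem len_cont (P : Pres) (Φ : GFlow P) (T : ℝ) :
    ContinuousOn (fun p : ℝ × (ℂ × ℝ) => Φ.len T p.1 p.2) (univ ×ˢ P.S) ∧
    ContinuousOn (fun p : ℝ × (ℂ × ℝ) => Φ.J p.1 p.2) (univ ×ˢ P.S) ∧
    ContinuousOn (fun p : ℝ × (ℂ × ℝ) => Φ.J' p.1 p.2) (univ ×ˢ P.S) ∧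
    ContinuousOn (fun p : ℝ × (ℂ × ℝ) => Φ.St T p.1 p.2) (univ ×ˢ P.S) := by
  first
    | exact len_cont_pr ..
    | (apply len_cont_pr <;> assumption)

end

end Pool.Agent.EQ

end

/-! ## Lib_helper71.EQ.D.M0 -/

section

/-! block M0 of package D (project EQ): invariance of the Liouville measure. -/

set_option autoImplicit false

namespace Pool.Agent.EQ

open MeasureTheory Filter Topology Set
open scoped ContDiff ENNReal

noncomputable section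

theorem M0_isOpen_S (P : Pres) : IsOpen P.S := P.isOpen.prod isOpen_univ

theorem M0_wronski (P : Pres) (Φ : GFlow P) (v : ℂ × ℝ) (hv : v ∈ P.S) (t : ℝ) :
    Φ.A t v * Φ.B' t v - Φ.A' t v * Φ.B t v = 1 := by
  have hd : ∀ s : ℝ, HasDerivAt (fun s => Φ.A s v * Φ.B' s v - Φ.A' s v * Φ.B s v) 0 s := by
    intro s
    have h := ((Φ.hA s v hv).mul (Φ.hB' s v hv)).sub ((Φ.hA' s v hv).mul (Φ.hB s v hv))
    refine h.congr_deriv ?_
    ring
  have hc := is_const_of_deriv_eq_zero (f := fun s => Φ.A s v * Φ.B' s v - Φ.A' s v * Φ.B s v)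
    (fun s => (hd s).differentiableAt) (fun s => (hd s).deriv) t 0
  simpa [Φ.A0, Φ.A'0, Φ.B0, Φ.B'0] using hc

/-- coordinates on `ℂ × ℝ` -/
def M0_equiv : (ℂ × ℝ) ≃ₗ[ℝ] (Fin 3 → ℝ) where
  toFun v := ![v.1.re, v.1.im, v.2]
  invFun w := (⟨w 0, w 1⟩, w 2)
  map_add' v w := by
    ext i; fin_cases i <;> simp
  map_smul' c v := by
    ext i; fin_cases i <;> simp
  left_inv v := by
    ext <;> simp
  right_inv w := by
    ext i; fin_cases i <;> simp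

def M0_basis : Module.Basis (Fin 3) ℝ (ℂ × ℝ) := Module.Basis.ofEquivFun M0_equiv

theorem M0_det_eq (a b c : ℂ × ℝ) : M0_basis.det ![a, b, c] =
    a.1.re * b.1.im * c.2 - a.1.re * c.1.im * b.2 - b.1.re * a.1.im * c.2
      + b.1.re * c.1.im * a.2 + c.1.re * a.1.im * b.2 - c.1.re * b.1.im * a.2 := by
  have hrep : ∀ v : ℂ × ℝ, ∀ i, M0_basis.repr v i = ![v.1.re, v.1.im, v.2] i := by
    intro v i
    rfl
  rw [Module.Basis.det_apply, Matrix.det_fin_three]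
  simp only [Module.Basis.toMatrix_apply, hrep]
  simp

theorem M0_det_frame (u : ℂ → ℝ) (v : ℂ × ℝ) (a b a' b' : ℝ) :
    M0_basis.det ![XX u v, a • HH u v + a' • VV, b • HH u v + b' • VV]
      = (a * b' - a' * b) * Real.exp (-2 * u v.1) := by
  rw [M0_det_eq]
  have hE : Real.exp (-2 * u v.1) = Real.exp (-u v.1) * Real.exp (-u v.1) := by
    rw [← Real.exp_add]; ring_nf
  have h1 := Real.sin_sq_add_cos_sq v.2
  rw [hE]
  simp only [XX, HH, VV, Prod.fst_add, Prod.snd_add, Prod.smul_fst, Prod.smul_snd,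
    smul_zero, add_zero, smul_eq_mul, mul_one]
  simp only [Complex.exp_mul_I, Complex.mul_re, Complex.mul_im, Complex.ofReal_re,
    Complex.ofReal_im, Complex.add_re, Complex.add_im, Complex.I_re, Complex.I_im,
    Complex.smul_re, Complex.smul_im, ← Complex.ofReal_cos, ← Complex.ofReal_sin, smul_eq_mul]
  ring_nf
  have h2 : Real.cos v.2 ^ 2 = 1 - Real.sin v.2 ^ 2 := by linarith
  simp only [h2]
  ring

theorem M0_hasFDerivAt (P : Pres) (Φ : GFlow P) (t : ℝ) (v : ℂ × ℝ) (hv : v ∈ P.S) :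
    HasFDerivAt (Φ.φ t) (fderiv ℝ (Φ.φ t) v) v := by
  have hS : IsOpen ((univ : Set ℝ) ×ˢ P.S) := isOpen_univ.prod (M0_isOpen_S P)
  have h1 : ContDiffAt ℝ 1 (fun p : ℝ × (ℂ × ℝ) => Φ.φ p.1 p.2) (t, v) :=
    Φ.smooth.contDiffAt (hS.mem_nhds ⟨mem_univ _, hv⟩)
  have h2 : DifferentiableAt ℝ (fun p : ℝ × (ℂ × ℝ) => Φ.φ p.1 p.2) (t, v) :=
    h1.differentiableAt (by norm_num)
  have h3 : DifferentiableAt ℝ (fun w : ℂ × ℝ => (t, w)) v := by fun_prop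
  have h4 : DifferentiableAt ℝ (fun w : ℂ × ℝ => Φ.φ t w) v :=
    DifferentiableAt.comp (g := fun p : ℝ × (ℂ × ℝ) => Φ.φ p.1 p.2) v h2 h3
  exact h4.hasFDerivAt

theorem M0_det (P : Pres) (Φ : GFlow P) (t : ℝ) (v : ℂ × ℝ) (hv : v ∈ P.S) :
    (fderiv ℝ (Φ.φ t) v).det * Real.exp (-2 * P.u v.1)
      = Real.exp (-2 * P.u (Φ.φ t v).1) := by
  have h0 := M0_det_frame P.u v 1 0 0 1
  have h1 := M0_det_frame P.u (Φ.φ t v) (Φ.A t v) (Φ.B t v) (Φ.A' t v) (Φ.B' t v)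
  have hc := M0_basis.det_comp (fderiv ℝ (Φ.φ t) v : (ℂ × ℝ) →ₗ[ℝ] (ℂ × ℝ))
    ![XX P.u v, HH P.u v, VV]
  have he : (⇑(fderiv ℝ (Φ.φ t) v : (ℂ × ℝ) →ₗ[ℝ] (ℂ × ℝ)) ∘ ![XX P.u v, HH P.u v, VV])
      = ![XX P.u (Φ.φ t v), Φ.A t v • HH P.u (Φ.φ t v) + Φ.A' t v • VV,
        Φ.B t v • HH P.u (Φ.φ t v) + Φ.B' t v • VV] := by
    ext i : 1
    fin_cases i
    · simpa using Φ.dX t v hv
    · simpa using Φ.dH t v hv
    · simpa using Φ.dV t v hv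
  rw [he, h1, M0_wronski P Φ v hv t] at hc
  have h0' : M0_basis.det ![XX P.u v, HH P.u v, VV] = Real.exp (-2 * P.u v.1) := by
    simpa using h0
  rw [h0'] at hc
  rw [one_mul] at hc
  exact hc.symm

theorem M0_measurable (P : Pres) (Φ : GFlow P) (t : ℝ) : Measurable (Φ.φ t) := by
  classical
  have hc : ContinuousOn (Φ.φ t) P.S := fun v hv =>
    (M0_hasFDerivAt P Φ t v hv).continuousAt.continuousWithinAt
  have h := hc.measurable_piecewise (g := id) continuous_id.continuousOn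
    (M0_isOpen_S P).measurableSet
  have he : P.S.piecewise (Φ.φ t) id = Φ.φ t := by
    ext v : 1
    by_cases hv : v ∈ P.S
    · simp [hv]
    · simp [hv, Φ.out t v hv]
  rwa [he] at h

theorem M0_m_apply (P : Pres) (E : Set (ℂ × ℝ)) (hE : MeasurableSet E) :
    P.m E = ∫⁻ v in E ∩ P.S, ENNReal.ofReal (Real.exp (2 * P.u v.1)) := by
  rw [Pres.m, withDensity_apply _ hE, Measure.restrict_restrict hE]

theorem M0_haar : (volume : Measure (ℂ × ℝ)).IsAddHaarMeasure := by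
  rw [Measure.volume_eq_prod]
  infer_instance

theorem m_phi_pr (P : Pres) (Φ : GFlow P) (t : ℝ) : MeasurePreserving (Φ.φ t) P.m P.m := by
  refine ⟨M0_measurable P Φ t, ?_⟩
  ext E hE
  rw [Measure.map_apply (M0_measurable P Φ t) hE, M0_m_apply P E hE,
    M0_m_apply P _ (M0_measurable P Φ t hE)]
  set A : Set (ℂ × ℝ) := Φ.φ t ⁻¹' E ∩ P.S with hA
  have hAm : MeasurableSet A := (M0_measurable P Φ t hE).inter (M0_isOpen_S P).measurableSet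
  have himg : Φ.φ t '' A = E ∩ P.S := by
    ext w
    constructor
    · rintro ⟨v, ⟨hv1, hv2⟩, rfl⟩
      exact ⟨hv1, Φ.mem t v hv2⟩
    · rintro ⟨hw1, hw2⟩
      have h1 : Φ.φ t (Φ.φ (-t) w) = w := by
        rw [← Φ.add, add_neg_cancel, Φ.zero]
      refine ⟨Φ.φ (-t) w, ⟨?_, Φ.mem (-t) w hw2⟩, h1⟩
      rw [mem_preimage, h1]
      exact hw1
  have hinj : InjOn (Φ.φ t) A := by
    intro v _ w _ h
    have h1 : ∀ x, Φ.φ (-t) (Φ.φ t x) = x := by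
      intro x
      rw [← Φ.add, neg_add_cancel, Φ.zero]
    rw [← h1 v, ← h1 w, h]
  haveI := M0_haar
  have hcv := lintegral_image_eq_lintegral_abs_det_fderiv_mul (volume : Measure (ℂ × ℝ)) hAm
    (fun v hv => (M0_hasFDerivAt P Φ t v hv.2).hasFDerivWithinAt) hinj
    (fun v => ENNReal.ofReal (Real.exp (2 * P.u v.1)))
  rw [himg] at hcv
  rw [hcv]
  refine setLIntegral_congr_fun hAm ?_
  intro v hv
  have hd := M0_det P Φ t v hv.2
  have hd' : (fderiv ℝ (Φ.φ t) v).det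
      = Real.exp (-2 * P.u (Φ.φ t v).1) * Real.exp (2 * P.u v.1) := by
    have h2 : Real.exp (-2 * P.u v.1) * Real.exp (2 * P.u v.1) = 1 := by
      rw [← Real.exp_add]; simp
    calc (fderiv ℝ (Φ.φ t) v).det
        = (fderiv ℝ (Φ.φ t) v).det * (Real.exp (-2 * P.u v.1) * Real.exp (2 * P.u v.1)) := by
          rw [h2, mul_one]
      _ = ((fderiv ℝ (Φ.φ t) v).det * Real.exp (-2 * P.u v.1)) * Real.exp (2 * P.u v.1) := by ring
      _ = _ := by rw [hd]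
  simp only
  rw [hd', abs_of_pos (by positivity), ← ENNReal.ofReal_mul (by positivity)]
  congr 1
  have h3 : Real.exp (-2 * P.u (Φ.φ t v).1) * Real.exp (2 * P.u (Φ.φ t v).1) = 1 := by
    rw [← Real.exp_add]; simp
  calc Real.exp (2 * P.u v.1)
      = (Real.exp (-2 * P.u (Φ.φ t v).1) * Real.exp (2 * P.u (Φ.φ t v).1))
        * Real.exp (2 * P.u v.1) := by rw [h3, one_mul]
    _ = _ := by ring

theorem m_rot_pr (P : Pres) (b : ℝ) : MeasurePreserving (rot b) P.m P.m := by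
  have hr : rot b = fun v : ℂ × ℝ => v + (0, b) := by
    ext v <;> simp [rot]
  haveI := M0_haar
  have hmp : MeasurePreserving (rot b) (volume : Measure (ℂ × ℝ)) volume := by
    rw [hr]
    exact measurePreserving_add_right volume _
  have hemb : MeasurableEmbedding (rot b) := by
    rw [hr]
    exact measurableEmbedding_addRight _
  refine ⟨hmp.measurable, ?_⟩
  ext E hE
  rw [Measure.map_apply hmp.measurable hE, M0_m_apply P E hE,
    M0_m_apply P _ (hmp.measurable hE)]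
  have hset : rot b ⁻¹' E ∩ P.S = rot b ⁻¹' (E ∩ P.S) := by
    ext v
    simp [rot, Pres.S]
  rw [hset]
  exact hmp.setLIntegral_comp_preimage_emb hemb
    (fun v => ENNReal.ofReal (Real.exp (2 * P.u v.1))) (E ∩ P.S)

theorem m_St_pr (P : Pres) (Φ : GFlow P) (T b : ℝ) : MeasurePreserving (Φ.St T b) P.m P.m :=
  (m_phi_pr P Φ (-T)).comp ((m_rot_pr P b).comp (m_phi_pr P Φ T))

end

end Pool.Agent.EQ

namespace Pool.Agent.EQ

open MeasureTheory Filter Topology Set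
open scoped ContDiff ENNReal

noncomputable section

theorem m_phi (P : Pres) (Φ : GFlow P) (t : ℝ) : MeasurePreserving (Φ.φ t) P.m P.m := by
  first
    | exact m_phi_pr ..
    | (apply m_phi_pr <;> assumption)

theorem m_rot (P : Pres) (b : ℝ) : MeasurePreserving (rot b) P.m P.m := by
  first
    | exact m_rot_pr ..
    | (apply m_rot_pr <;> assumption)

theorem m_St (P : Pres) (Φ : GFlow P) (T b : ℝ) : MeasurePreserving (Φ.St T b) P.m P.m := by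
  first
    | exact m_St_pr ..
    | (apply m_St_pr <;> assumption)

end

end Pool.Agent.EQ

end

/-! ## Lib_helper71.EQ.D.ST -/

section

/-! Project EQ, block ST (helper29). -/

set_option autoImplicit false

namespace Pool.Agent.EQ

open MeasureTheory Filter Topology Set
open scoped ContDiff ENNReal

noncomputable section

theorem ST_open (P : Pres) : IsOpen P.S := P.isOpen.prod isOpen_univ

theorem ST_contDiffAt (P : Pres) (Φ : GFlow P) (t : ℝ) (v : ℂ × ℝ) (hv : v ∈ P.S) :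
    ContDiffAt ℝ 1 (Φ.φ t) v := by
  have h1 : ContDiffAt ℝ 1 (fun p : ℝ × (ℂ × ℝ) => Φ.φ p.1 p.2) (t, v) :=
    Φ.smooth.contDiffAt ((isOpen_univ.prod (ST_open P)).mem_nhds ⟨mem_univ _, hv⟩)
  have h2 : ContDiffAt ℝ 1 (fun w : ℂ × ℝ => (t, w)) v := by fun_prop
  exact h1.comp (f := fun w : ℂ × ℝ => (t, w)) v h2

theorem ST_rot_mem (P : Pres) (b : ℝ) (v : ℂ × ℝ) (hv : v ∈ P.S) : rot b v ∈ P.S :=
  ⟨hv.1, mem_univ _⟩

theorem ST_phi_cancel (P : Pres) (Φ : GFlow P) (T : ℝ) (v : ℂ × ℝ) :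
    Φ.φ T (Φ.φ (-T) v) = v ∧ Φ.φ (-T) (Φ.φ T v) = v := by
  constructor
  · rw [← Φ.add, add_neg_cancel, Φ.zero]
  · rw [← Φ.add, neg_add_cancel, Φ.zero]

/-- ST : `b ↦ S_b v` is a curve with velocity `-J H + J' V` (one-parameter group) -/
theorem St_deriv_pr (P : Pres) (Φ : GFlow P) (T b : ℝ) (v : ℂ × ℝ) (hv : v ∈ P.S) :
    HasDerivAt (fun s => Φ.St T s v)
      (-(Φ.J T (Φ.St T b v)) • HH P.u (Φ.St T b v) + Φ.J' T (Φ.St T b v) • VV) b := by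
  have hw : Φ.φ T v ∈ P.S := Φ.mem T v hv
  have hx : rot b (Φ.φ T v) ∈ P.S := ST_rot_mem P b _ hw
  have h1 : HasDerivAt (fun s : ℝ => rot s (Φ.φ T v)) VV b := by
    have h2 : HasDerivAt (fun s : ℝ => (Φ.φ T v).2 + s) 1 b := by
      simpa using (hasDerivAt_id b).const_add (Φ.φ T v).2
    exact (hasDerivAt_const b (Φ.φ T v).1).prodMk h2
  have h3 : HasFDerivAt (Φ.φ (-T)) (fderiv ℝ (Φ.φ (-T)) (rot b (Φ.φ T v))) (rot b (Φ.φ T v)) :=
    ((ST_contDiffAt P Φ (-T) _ hx).differentiableAt (by norm_num)).hasFDerivAt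
  have h4 := h3.comp_hasDerivAt b h1
  have h5 : Φ.φ T (Φ.St T b v) = rot b (Φ.φ T v) := (ST_phi_cancel P Φ T _).1
  rw [GFlow.J, GFlow.J', h5, neg_neg]
  rw [Φ.dV (-T) _ hx] at h4
  exact h4

/-- ST -/
theorem St_add_pr (P : Pres) (Φ : GFlow P) (T b b' : ℝ) (v : ℂ × ℝ) :
    Φ.St T b (Φ.St T b' v) = Φ.St T (b + b') v ∧ Φ.St T 0 v = v := by
  constructor
  · have h5 : Φ.φ T (Φ.St T b' v) = rot b' (Φ.φ T v) := (ST_phi_cancel P Φ T _).1
    rw [GFlow.St, h5, GFlow.St]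
    congr 1
    exact Prod.ext rfl (show (Φ.φ T v).2 + b' + b = (Φ.φ T v).2 + (b + b') by ring)
  · rw [GFlow.St]
    have h1 : rot 0 (Φ.φ T v) = Φ.φ T v := by simp [rot]
    rw [h1]
    exact (ST_phi_cancel P Φ T v).2

end

end Pool.Agent.EQ

namespace Pool.Agent.EQ

open MeasureTheory Filter Topology Set
open scoped ContDiff ENNReal

noncomputable section

theorem St_deriv (P : Pres) (Φ : GFlow P) (T b : ℝ) (v : ℂ × ℝ) (hv : v ∈ P.S) :
    HasDerivAt (fun s => Φ.St T s v)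
      (-(Φ.J T (Φ.St T b v)) • HH P.u (Φ.St T b v) + Φ.J' T (Φ.St T b v) • VV) b := by
  first
    | exact St_deriv_pr ..
    | (apply St_deriv_pr <;> assumption)

theorem St_add (P : Pres) (Φ : GFlow P) (T b b' : ℝ) (v : ℂ × ℝ) :
    Φ.St T b (Φ.St T b' v) = Φ.St T (b + b') v ∧ Φ.St T 0 v = v := by
  first
    | exact St_add_pr ..
    | (apply St_add_pr <;> assumption)

end

end Pool.Agent.EQ

end

/-! ## Lib_helper71.EQ.D.JP -/

section

/-! Project EQ, package D, block JP. -/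

set_option autoImplicit false

namespace Pool.Agent.EQ

open MeasureTheory Filter Topology Set
open scoped ContDiff ENNReal

noncomputable section

/-- the line ODE `y'' = k y`, `y(0) = 0`, `y'(0) = 1`, `k ≥ 0` -/
theorem jp_ode {y z k : ℝ → ℝ} (hy : ∀ t, HasDerivAt y (z t) t)
    (hz : ∀ t, HasDerivAt z (k t * y t) t) (hk : ∀ t, 0 ≤ k t) (y0 : y 0 = 0) (z0 : z 0 = 1) :
    ∀ t, 0 ≤ t → t ≤ y t ∧ 1 ≤ z t := by
  have hyc : Continuous y := continuous_iff_continuousAt.2 fun t => (hy t).continuousAt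
  have hzc : Continuous z := continuous_iff_continuousAt.2 fun t => (hz t).continuousAt
  -- `y z` is monotone
  have h1 : Monotone fun t => y t * z t := by
    refine monotone_of_deriv_nonneg (fun t => ((hy t).mul (hz t)).differentiableAt) fun t => ?_
    have h2 : HasDerivAt (fun t => y t * z t) (z t * z t + y t * (k t * y t)) t :=
      (hy t).mul (hz t)
    rw [h2.deriv]
    have := hk t
    nlinarith [mul_self_nonneg (z t), mul_nonneg this (mul_self_nonneg (y t))]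
  have h2 : ∀ t, 0 ≤ t → 0 ≤ y t * z t := fun t ht => by
    have := h1 ht
    simp only [y0, zero_mul] at this
    exact this
  -- `z^2` is monotone on `[0, ∞)`
  have h3 : MonotoneOn (fun t => z t * z t) (Ici 0) := by
    refine monotoneOn_of_deriv_nonneg (convex_Ici 0) (by fun_prop)
      (fun t _ => ((hz t).mul (hz t)).differentiableAt.differentiableWithinAt) fun t ht => ?_
    have h4 : HasDerivAt (fun t => z t * z t) (k t * y t * z t + z t * (k t * y t)) t :=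
      (hz t).mul (hz t)
    rw [h4.deriv]
    rw [interior_Ici] at ht
    have h5 := mul_nonneg (hk t) (h2 t (le_of_lt ht))
    nlinarith
  have h4 : ∀ t, 0 ≤ t → 1 ≤ z t * z t := fun t ht => by
    have := h3 (mem_Ici.2 le_rfl) (mem_Ici.2 ht) ht
    simp only [z0, mul_one] at this
    exact this
  have h5 : ∀ t, 0 ≤ t → 1 ≤ z t := by
    intro t ht
    have hpos : 0 < z t := by
      by_contra hcon
      push Not at hcon
      have h6 : (0 : ℝ) ∈ z '' Icc 0 t := by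
        have := intermediate_value_Icc' ht hzc.continuousOn
        exact this ⟨hcon, by rw [z0]; exact zero_le_one⟩
      obtain ⟨s, hs, hs0⟩ := h6
      have := h4 s hs.1
      rw [hs0] at this
      norm_num at this
    nlinarith [h4 t ht]
  intro t ht
  refine ⟨?_, h5 t ht⟩
  have h6 : MonotoneOn (fun t => y t - t) (Ici 0) := by
    refine monotoneOn_of_deriv_nonneg (convex_Ici 0) (by fun_prop)
      (fun t _ => ((hy t).sub (hasDerivAt_id t)).differentiableAt.differentiableWithinAt)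
      fun t ht => ?_
    have h7 : HasDerivAt (fun t => y t - t) (z t - 1) t := (hy t).sub (hasDerivAt_id t)
    rw [h7.deriv]
    rw [interior_Ici] at ht
    linarith [h5 t (le_of_lt ht)]
  have h7 := h6 (mem_Ici.2 le_rfl) (mem_Ici.2 ht) ht
  simp only [y0, sub_zero] at h7
  linarith

/-- forward and backward -/
theorem jp_B (P : Pres) (Φ : GFlow P) (hk : ∀ z ∈ P.Ω, 0 ≤ kk P.u z) (w : ℂ × ℝ) (hw : w ∈ P.S)
    (t : ℝ) (ht : 0 ≤ t) : t ≤ Φ.B t w ∧ 1 ≤ Φ.B' t w ∧ t ≤ -Φ.B (-t) w ∧ 1 ≤ Φ.B' (-t) w := by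
  have hk' : ∀ s, 0 ≤ kk P.u (Φ.φ s w).1 := fun s => hk _ (Φ.mem s w hw).1
  obtain ⟨a1, a2⟩ := jp_ode (fun s => Φ.hB s w hw) (fun s => Φ.hB' s w hw) hk' (Φ.B0 w) (Φ.B'0 w)
    t ht
  have hy : ∀ s, HasDerivAt (fun s => -Φ.B (-s) w) (Φ.B' (-s) w) s := by
    intro s
    have h1 : HasDerivAt (fun s => -Φ.B (-s) w) (-((-1 : ℝ) • Φ.B' (-s) w)) s :=
      ((Φ.hB (-s) w hw).scomp s (hasDerivAt_neg s)).neg
    exact h1.congr_deriv (by simp)
  have hz : ∀ s, HasDerivAt (fun s => Φ.B' (-s) w)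
      (kk P.u (Φ.φ (-s) w).1 * -Φ.B (-s) w) s := by
    intro s
    have h1 : HasDerivAt (fun s => Φ.B' (-s) w)
        ((-1 : ℝ) • (kk P.u (Φ.φ (-s) w).1 * Φ.B (-s) w)) s :=
      (Φ.hB' (-s) w hw).scomp s (hasDerivAt_neg s)
    exact h1.congr_deriv (by simp)
  obtain ⟨a3, a4⟩ := jp_ode hy hz (fun s => hk' (-s)) (by simp [Φ.B0 w]) (by simp [Φ.B'0 w]) t ht
  exact ⟨a1, a2, a3, a4⟩

/-- JP -/
theorem J_pos_pr (P : Pres) (Φ : GFlow P) (hk : ∀ z ∈ P.Ω, 0 ≤ kk P.u z) (T : ℝ) (hT : 0 < T)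
    (v : ℂ × ℝ) (hv : v ∈ P.S) :
    T ≤ Φ.J T v ∧ 1 ≤ Φ.J' T v ∧ T ≤ -Φ.J (-T) v ∧ 1 ≤ Φ.J' (-T) v := by
  obtain ⟨-, -, a3, a4⟩ := jp_B P Φ hk (Φ.φ T v) (Φ.mem T v hv) T hT.le
  obtain ⟨b1, b2, -, -⟩ := jp_B P Φ hk (Φ.φ (-T) v) (Φ.mem (-T) v hv) T hT.le
  unfold GFlow.J GFlow.J'
  rw [neg_neg, neg_neg]
  exact ⟨a3, a4, b1, b2⟩

end

end Pool.Agent.EQ

namespace Pool.Agent.EQ

open MeasureTheory Filter Topology Set
open scoped ContDiff ENNReal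

noncomputable section

theorem J_pos (P : Pres) (Φ : GFlow P) (hk : ∀ z ∈ P.Ω, 0 ≤ kk P.u z) (T : ℝ) (hT : 0 < T)
    (v : ℂ × ℝ) (hv : v ∈ P.S) : T ≤ Φ.J T v ∧ 1 ≤ Φ.J' T v ∧ T ≤ -Φ.J (-T) v ∧ 1 ≤ Φ.J' (-T) v := by
  first
    | exact J_pos_pr ..
    | (apply J_pos_pr <;> assumption)

end

end Pool.Agent.EQ

end

/-! ## Lib_helper71.EQ.D.JU -/

section

/-! Project EQ, package D, block JU. -/

set_option autoImplicit false

namespace Pool.Agent.EQ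

open MeasureTheory Filter Topology Set
open scoped ContDiff ENNReal

noncomputable section

theorem ju_coth {κ t : ℝ} (hκ : 1 ≤ κ) (ht : 1 ≤ t) :
    κ * Real.cosh (κ * t) ≤ (κ + 1) * Real.sinh (κ * t) := by
  set x : ℝ := κ * t with hx
  have hx0 : 0 ≤ x := by positivity
  have hxκ : κ ≤ x := by
    rw [hx]
    nlinarith
  have h1 : x ≤ Real.sinh x := Real.self_le_sinh_iff.2 hx0
  have h2 : Real.cosh x - Real.sinh x = Real.exp (-x) := Real.cosh_sub_sinh x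
  have h3 : Real.exp (-x) ≤ 1 := Real.exp_le_one_iff.2 (by linarith)
  have h4 := Real.exp_pos (-x)
  have h5 : κ * Real.exp (-x) ≤ Real.sinh x := by nlinarith
  nlinarith

/-- the line ODE `y'' = k y`, `y(0) = 0`, `y'(0) = 1`, `0 ≤ k ≤ κ²` -/
theorem ju_ode {y z k : ℝ → ℝ} (hy : ∀ t, HasDerivAt y (z t) t)
    (hz : ∀ t, HasDerivAt z (k t * y t) t) (hk : ∀ t, 0 ≤ k t) (y0 : y 0 = 0) (z0 : z 0 = 1)
    {κ : ℝ} (hκ : 1 ≤ κ) (hk2 : ∀ t, k t ≤ κ ^ 2) : ∀ t, 1 ≤ t → z t ≤ (κ + 1) * y t := by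
  have hyc : Continuous y := continuous_iff_continuousAt.2 fun t => (hy t).continuousAt
  have hzc : Continuous z := continuous_iff_continuousAt.2 fun t => (hz t).continuousAt
  set F : ℝ → ℝ := fun t => z t * Real.sinh (κ * t) - κ * Real.cosh (κ * t) * y t with hF
  have hFd : ∀ t, HasDerivAt F ((k t - κ ^ 2) * y t * Real.sinh (κ * t)) t := by
    intro t
    have e1 : HasDerivAt (fun t => κ * t) κ t := by
      simpa using (hasDerivAt_id t).const_mul κ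
    have e2 : HasDerivAt (fun t => Real.sinh (κ * t)) (Real.cosh (κ * t) * κ) t := e1.sinh
    have e3 : HasDerivAt (fun t => κ * Real.cosh (κ * t)) (κ * (Real.sinh (κ * t) * κ)) t :=
      e1.cosh.const_mul κ
    have e4 := ((hz t).mul e2).sub (e3.mul (hy t))
    refine e4.congr_deriv ?_
    ring
  have h1 : AntitoneOn F (Ici 0) := by
    refine antitoneOn_of_deriv_nonpos (convex_Ici 0)
      (continuous_iff_continuousAt.2 fun t => (hFd t).continuousAt).continuousOn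
      (fun t _ => (hFd t).differentiableAt.differentiableWithinAt) fun t ht => ?_
    rw [(hFd t).deriv]
    rw [interior_Ici] at ht
    have ht0 : 0 ≤ t := le_of_lt ht
    have h2 : 0 ≤ y t := ht0.trans (jp_ode hy hz hk y0 z0 t ht0).1
    have h3 : 0 ≤ Real.sinh (κ * t) := Real.sinh_nonneg_iff.2 (by positivity)
    have h4 := hk2 t
    have h5 : 0 ≤ (κ ^ 2 - k t) * (y t * Real.sinh (κ * t)) :=
      mul_nonneg (by linarith) (mul_nonneg h2 h3)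
    linarith
  intro t ht
  have h2 := h1 (mem_Ici.2 le_rfl) (mem_Ici.2 (by linarith)) (by linarith : (0 : ℝ) ≤ t)
  simp only [hF] at h2
  rw [y0, mul_zero, mul_zero, Real.sinh_zero, mul_zero, sub_zero] at h2
  have h3 : 0 < Real.sinh (κ * t) := Real.sinh_pos_iff.2 (by positivity)
  have h4 : t ≤ y t := (jp_ode hy hz hk y0 z0 t (by linarith)).1
  have h5 := ju_coth hκ ht
  have h6 : z t * Real.sinh (κ * t) ≤ ((κ + 1) * y t) * Real.sinh (κ * t) := by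
    calc z t * Real.sinh (κ * t) ≤ κ * Real.cosh (κ * t) * y t := by linarith
      _ ≤ ((κ + 1) * Real.sinh (κ * t)) * y t :=
          mul_le_mul_of_nonneg_right h5 (by linarith)
      _ = _ := by ring
  exact le_of_mul_le_mul_right h6 h3

/-- JU : Riccati bounds -/
theorem J_ric_pr (P : Pres) (Φ : GFlow P) (hk : ∀ z ∈ P.Ω, 0 ≤ kk P.u z) (κ : ℝ) (hκ : 1 ≤ κ)
    (hk2 : ∀ z ∈ P.Ω, kk P.u z ≤ κ ^ 2) (T : ℝ) (hT : 1 ≤ T) (v : ℂ × ℝ) (hv : v ∈ P.S) :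
    Φ.J' T v ≤ (κ + 1) * Φ.J T v ∧ Φ.J' (-T) v ≤ (κ + 1) * (-Φ.J (-T) v) := by
  constructor
  · have hw : Φ.φ T v ∈ P.S := Φ.mem T v hv
    set w : ℂ × ℝ := Φ.φ T v with hwdef
    have hy : ∀ s, HasDerivAt (fun s => -Φ.B (-s) w) (Φ.B' (-s) w) s := by
      intro s
      have h1 : HasDerivAt (fun s => -Φ.B (-s) w) (-((-1 : ℝ) • Φ.B' (-s) w)) s :=
        ((Φ.hB (-s) w hw).scomp s (hasDerivAt_neg s)).neg
      exact h1.congr_deriv (by simp)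
    have hz : ∀ s, HasDerivAt (fun s => Φ.B' (-s) w)
        (kk P.u (Φ.φ (-s) w).1 * -Φ.B (-s) w) s := by
      intro s
      have h1 : HasDerivAt (fun s => Φ.B' (-s) w)
          ((-1 : ℝ) • (kk P.u (Φ.φ (-s) w).1 * Φ.B (-s) w)) s :=
        (Φ.hB' (-s) w hw).scomp s (hasDerivAt_neg s)
      exact h1.congr_deriv (by simp)
    exact ju_ode hy hz (fun s => hk _ (Φ.mem (-s) w hw).1) (by simp [Φ.B0 w]) (by simp [Φ.B'0 w])
      hκ (fun s => hk2 _ (Φ.mem (-s) w hw).1) T hT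
  · have hw : Φ.φ (-T) v ∈ P.S := Φ.mem (-T) v hv
    unfold GFlow.J GFlow.J'
    rw [neg_neg, neg_neg]
    exact ju_ode (fun s => Φ.hB s _ hw) (fun s => Φ.hB' s _ hw) (fun s => hk _ (Φ.mem s _ hw).1)
      (Φ.B0 _) (Φ.B'0 _) hκ (fun s => hk2 _ (Φ.mem s _ hw).1) T hT

end

end Pool.Agent.EQ

namespace Pool.Agent.EQ

open MeasureTheory Filter Topology Set
open scoped ContDiff ENNReal

noncomputable section

theorem J_ric (P : Pres) (Φ : GFlow P) (hk : ∀ z ∈ P.Ω, 0 ≤ kk P.u z) (κ : ℝ) (hκ : 1 ≤ κ)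
    (hk2 : ∀ z ∈ P.Ω, kk P.u z ≤ κ ^ 2) (T : ℝ) (hT : 1 ≤ T) (v : ℂ × ℝ) (hv : v ∈ P.S) :
    Φ.J' T v ≤ (κ + 1) * Φ.J T v ∧ Φ.J' (-T) v ≤ (κ + 1) * (-Φ.J (-T) v) := by
  first
    | exact J_ric_pr ..
    | (apply J_ric_pr <;> assumption)

end

end Pool.Agent.EQ

end

/-! ## Lib_helper71.EQ.D.FL -/

section

set_option autoImplicit false

namespace Pool.Agent.EQ

open MeasureTheory Filter Topology Set
open scoped ContDiff ENNReal

noncomputable section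

lemma fl_HH (u : ℂ → ℝ) (x : ℂ × ℝ) : HH u (x.1, x.2 + Real.pi) = -HH u x := by
  unfold HH
  ext1
  · simp only [Prod.fst_neg]
    rw [Complex.ofReal_add, add_mul, Complex.exp_add, Complex.exp_pi_mul_I]
    ring
  · simp only [Prod.snd_neg]
    rw [Real.cos_add_pi, Real.sin_add_pi]
    ring

lemma fl_ne (u : ℂ → ℝ) (x : ℂ × ℝ) : (HH u x).1 ≠ 0 := by
  unfold HH
  simp only
  refine mul_ne_zero ?_ (mul_ne_zero Complex.I_ne_zero (Complex.exp_ne_zero _))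
  exact_mod_cast (Real.exp_pos _).ne'

lemma fl_shift (v : ℂ × ℝ) : (v.1, v.2 + Real.pi) = v + (0, Real.pi) := by
  ext1 <;> simp

lemma fl_fderiv (P : Pres) (Φ : GFlow P) (t : ℝ) (v : ℂ × ℝ) (hv : v ∈ P.S) :
    fderiv ℝ (Φ.φ (-t)) (v.1, v.2 + Real.pi) = fderiv ℝ (Φ.φ t) v := by
  have hS : IsOpen P.S := P.isOpen.prod isOpen_univ
  have h1 : (fun x => Φ.φ (-t) (x + (0, Real.pi))) =ᶠ[𝓝 v] (fun x => Φ.φ t x + (0, Real.pi)) := by
    filter_upwards [hS.mem_nhds hv] with x hx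
    have := Φ.flip t x hx
    rw [fl_shift, fl_shift] at this
    exact this
  rw [fl_shift, ← fderiv_comp_add_right, h1.fderiv_eq, fderiv_add_const]

lemma fl_mem (P : Pres) (v : ℂ × ℝ) (hv : v ∈ P.S) (s : ℝ) : (v.1, s) ∈ P.S :=
  ⟨hv.1, mem_univ _⟩

lemma fl_B (P : Pres) (Φ : GFlow P) (t : ℝ) (v : ℂ × ℝ) (hv : v ∈ P.S) :
    Φ.B (-t) (v.1, v.2 + Real.pi) = -Φ.B t v ∧ Φ.B' (-t) (v.1, v.2 + Real.pi) = Φ.B' t v := by
  have h1 := Φ.dV (-t) (v.1, v.2 + Real.pi) (fl_mem P v hv _)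
  have h2 := Φ.dV t v hv
  rw [fl_fderiv P Φ t v hv, h2, Φ.flip t v hv, fl_HH] at h1
  have h3 := congrArg Prod.fst h1
  have h4 := congrArg Prod.snd h1
  simp only [VV, Prod.fst_add, Prod.smul_fst, Prod.snd_add, Prod.smul_snd, smul_zero, add_zero,
    Prod.fst_neg, Prod.snd_neg, smul_eq_mul, mul_one] at h3 h4
  have h5 : ((Φ.B t v + Φ.B (-t) (v.1, v.2 + Real.pi) : ℝ) : ℂ) * (HH P.u (Φ.φ t v)).1 = 0 := by
    rw [Complex.real_smul, Complex.real_smul] at h3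
    push_cast
    rw [add_mul, h3]
    ring
  have h6 : Φ.B t v + Φ.B (-t) (v.1, v.2 + Real.pi) = 0 := by
    rcases mul_eq_zero.mp h5 with h | h
    · exact_mod_cast h
    · exact absurd h (fl_ne _ _)
  have h7 : Φ.B (-t) (v.1, v.2 + Real.pi) = -Φ.B t v := by linarith
  refine ⟨h7, ?_⟩
  rw [h7] at h4
  linarith

theorem flip_St_pr (P : Pres) (Φ : GFlow P) (T b : ℝ) (v : ℂ × ℝ) (hv : v ∈ P.S) :
    Φ.St (-T) b (v.1, v.2 + Real.pi) = ((Φ.St T b v).1, (Φ.St T b v).2 + Real.pi) ∧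
    Φ.J (-T) (v.1, v.2 + Real.pi) = -Φ.J T v ∧ Φ.J' (-T) (v.1, v.2 + Real.pi) = Φ.J' T v := by
  have hT := Φ.flip T v hv
  have hx := Φ.mem T v hv
  have hB := fl_B P Φ (-T) (Φ.φ T v) hx
  refine ⟨?_, ?_, ?_⟩
  · unfold GFlow.St
    rw [hT]
    have h1 := Φ.flip (-T) (rot b (Φ.φ T v)) (fl_mem P _ hx _)
    have h2 : rot b ((Φ.φ T v).1, (Φ.φ T v).2 + Real.pi)
        = ((rot b (Φ.φ T v)).1, (rot b (Φ.φ T v)).2 + Real.pi) := by
      unfold rot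
      ext1
      · rfl
      · simp only
        ring
    rw [h2, h1]
  · unfold GFlow.J
    rw [hT, hB.1]
  · unfold GFlow.J'
    rw [hT, hB.2]

end

end Pool.Agent.EQ

namespace Pool.Agent.EQ

open MeasureTheory Filter Topology Set
open scoped ContDiff ENNReal

noncomputable section

theorem flip_St (P : Pres) (Φ : GFlow P) (T b : ℝ) (v : ℂ × ℝ) (hv : v ∈ P.S) :
    Φ.St (-T) b (v.1, v.2 + Real.pi) = ((Φ.St T b v).1, (Φ.St T b v).2 + Real.pi) ∧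
    Φ.J (-T) (v.1, v.2 + Real.pi) = -Φ.J T v ∧ Φ.J' (-T) (v.1, v.2 + Real.pi) = Φ.J' T v := by
  first
    | exact flip_St_pr ..
    | (apply flip_St_pr <;> assumption)

end

end Pool.Agent.EQ

end

/-! ## Lib_helper71.EQ.D.LN -/

section

set_option autoImplicit false

namespace Pool.Agent.EQ

open MeasureTheory Filter Topology Set
open scoped ContDiff ENNReal

noncomputable section

theorem ln_St_mem (P : Pres) (Φ : GFlow P) (T b : ℝ) (v : ℂ × ℝ) (hv : v ∈ P.S) :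
    Φ.St T b v ∈ P.S := by
  apply Φ.mem
  have h := Φ.mem T v hv
  exact ⟨h.1, mem_univ _⟩

/-- the integrand is continuous -/
theorem ln_cont (P : Pres) (Φ : GFlow P) (T : ℝ) (v : ℂ × ℝ) (hv : v ∈ P.S) :
    Continuous fun s : ℝ => Φ.J T (Φ.St T s v) := by
  obtain ⟨-, hJ, -, hSt⟩ := len_cont P Φ T
  have h1 : Continuous fun s : ℝ => Φ.St T s v := by
    have h2 : Continuous fun s : ℝ => (s, v) := continuous_id.prodMk continuous_const
    exact continuousOn_univ.1 (hSt.comp h2.continuousOn fun s _ => ⟨mem_univ _, hv⟩)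
  have h3 : Continuous fun s : ℝ => (T, Φ.St T s v) := continuous_const.prodMk h1
  exact continuousOn_univ.1 (hJ.comp h3.continuousOn
    fun s _ => ⟨mem_univ _, ln_St_mem P Φ T s v hv⟩)

/-- comparison of absolute values of integrals of a function of constant sign -/
theorem ln_abs_mono {g : ℝ → ℝ} (hg : Continuous g) (hs : (∀ s, 0 ≤ g s) ∨ ∀ s, g s ≤ 0)
    {a b c d : ℝ} (h : uIoc a b ⊆ uIoc c d) : |∫ s in a..b, g s| ≤ |∫ s in c..d, g s| := by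
  rcases hs with hs | hs
  · exact intervalIntegral.abs_integral_mono_interval h
      (Eventually.of_forall fun s => hs s) (hg.intervalIntegrable _ _)
  · have h1 := intervalIntegral.abs_integral_mono_interval (f := fun s => -g s) (μ := volume) h
      (Eventually.of_forall fun s => by simpa using hs s) (hg.neg.intervalIntegrable _ _)
    simpa only [intervalIntegral.integral_neg, abs_neg] using h1

theorem ln_ge {g : ℝ → ℝ} (hg : Continuous g) (h : ∀ s, 1 ≤ g s) (b : ℝ) :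
    |b| ≤ |∫ s in (0 : ℝ)..b, g s| := by
  rcases le_total 0 b with hb | hb
  · have h1 : ∫ s in (0 : ℝ)..b, (1 : ℝ) ≤ ∫ s in (0 : ℝ)..b, g s :=
      intervalIntegral.integral_mono_on hb (by simp) (hg.intervalIntegrable _ _) fun s _ => h s
    rw [intervalIntegral.integral_const, smul_eq_mul, mul_one, sub_zero] at h1
    rw [abs_of_nonneg hb]
    exact h1.trans (le_abs_self _)
  · have h1 : ∫ s in b..(0 : ℝ), (1 : ℝ) ≤ ∫ s in b..(0 : ℝ), g s :=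
      intervalIntegral.integral_mono_on hb (by simp) (hg.intervalIntegrable _ _) fun s _ => h s
    rw [intervalIntegral.integral_const, smul_eq_mul, mul_one, zero_sub] at h1
    rw [abs_of_nonpos hb, intervalIntegral.integral_symm, abs_neg]
    exact h1.trans (le_abs_self _)

/-- LN : elementary properties of the length -/
theorem len_props_pr (P : Pres) (Φ : GFlow P) (hk : ∀ z ∈ P.Ω, 0 ≤ kk P.u z) (T : ℝ) (hT : 1 ≤ |T|)
    (v : ℂ × ℝ) (hv : v ∈ P.S) (b : ℝ) :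
    Φ.len T (-b) (Φ.St T b v) = Φ.len T b v ∧ (∀ s ∈ uIcc 0 b, Φ.len T s v ≤ Φ.len T b v) ∧
    (∀ s ∈ uIcc 0 b, Φ.len T (b - s) (Φ.St T s v) ≤ Φ.len T b v) ∧ |b| ≤ Φ.len T b v ∧
    Φ.len (-T) b (v.1, v.2 + Real.pi) = Φ.len T b v := by
  set g : ℝ → ℝ := fun s => Φ.J T (Φ.St T s v) with hg
  have hgc : Continuous g := ln_cont P Φ T v hv
  have hsign : (∀ s, 1 ≤ g s) ∨ ∀ s, g s ≤ -1 := by
    rcases le_abs.1 hT with h | h
    · left
      intro s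
      have := (J_pos P Φ hk T (by linarith) _ (ln_St_mem P Φ T s v hv)).1
      exact h.trans this
    · right
      intro s
      have := (J_pos P Φ hk (-T) (by linarith) _ (ln_St_mem P Φ T s v hv)).2.2.1
      rw [neg_neg] at this
      show Φ.J T (Φ.St T s v) ≤ -1
      linarith
  have hsign0 : (∀ s, 0 ≤ g s) ∨ ∀ s, g s ≤ 0 := by
    rcases hsign with h | h
    · exact Or.inl fun s => by linarith [h s]
    · exact Or.inr fun s => by linarith [h s]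
  -- translation
  have htr : ∀ s c : ℝ, Φ.len T c (Φ.St T s v) = |∫ x in s..(c + s), g x| := by
    intro s c
    unfold GFlow.len
    have h1 : (fun x => Φ.J T (Φ.St T x (Φ.St T s v))) = fun x => g (x + s) := by
      funext x
      rw [hg]
      simp only
      rw [(St_add P Φ T x s v).1]
    rw [h1, intervalIntegral.integral_comp_add_right (fun x => g x), zero_add]
  have hlen : ∀ c, Φ.len T c v = |∫ x in (0 : ℝ)..c, g x| := fun c => rfl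
  refine ⟨?_, ?_, ?_, ?_, ?_⟩
  · rw [htr, neg_add_cancel, hlen, intervalIntegral.integral_symm, abs_neg]
  · intro s hs
    rw [hlen, hlen]
    apply ln_abs_mono hgc hsign0
    apply uIoc_subset_uIoc_of_uIcc_subset_uIcc
    exact uIcc_subset_uIcc left_mem_uIcc hs
  · intro s hs
    rw [htr, hlen, sub_add_cancel]
    apply ln_abs_mono hgc hsign0
    apply uIoc_subset_uIoc_of_uIcc_subset_uIcc
    exact uIcc_subset_uIcc hs right_mem_uIcc
  · rw [hlen]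
    rcases hsign with h | h
    · exact ln_ge hgc h b
    · have h1 := ln_ge hgc.neg (fun s => by
        show 1 ≤ -g s
        linarith [h s]) b
      simpa only [Pi.neg_apply, intervalIntegral.integral_neg, abs_neg] using h1
  · unfold GFlow.len
    have h1 : ∀ s, Φ.J (-T) (Φ.St (-T) s (v.1, v.2 + Real.pi)) = -g s := by
      intro s
      rw [(flip_St P Φ T s v hv).1]
      exact (flip_St P Φ T s (Φ.St T s v) (ln_St_mem P Φ T s v hv)).2.1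
    simp only [h1]
    rw [intervalIntegral.integral_neg, abs_neg]

end

end Pool.Agent.EQ

namespace Pool.Agent.EQ

open MeasureTheory Filter Topology Set
open scoped ContDiff ENNReal

noncomputable section

theorem len_props (P : Pres) (Φ : GFlow P) (hk : ∀ z ∈ P.Ω, 0 ≤ kk P.u z) (T : ℝ) (hT : 1 ≤ |T|)
    (v : ℂ × ℝ) (hv : v ∈ P.S) (b : ℝ) :
    Φ.len T (-b) (Φ.St T b v) = Φ.len T b v ∧ (∀ s ∈ uIcc 0 b, Φ.len T s v ≤ Φ.len T b v) ∧
    (∀ s ∈ uIcc 0 b, Φ.len T (b - s) (Φ.St T s v) ≤ Φ.len T b v) ∧ |b| ≤ Φ.len T b v ∧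
    Φ.len (-T) b (v.1, v.2 + Real.pi) = Φ.len T b v := by
  first
    | exact len_props_pr ..
    | (apply len_props_pr <;> assumption)

end

end Pool.Agent.EQ

end

/-! ## Lib_helper71.EQ.D.CR -/

section

/-!
# Block CR (`cross`): the flow box by helper32, the rest by helper50
-/

set_option autoImplicit false

namespace Pool.Agent.EQ

open MeasureTheory Filter Topology Set
open scoped ContDiff ENNReal

noncomputable section


theorem cr_S_open (P : Pres) : IsOpen P.S := P.isOpen.prod isOpen_univ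

theorem cr_kk_cont (P : Pres) : ContinuousOn (kk P.u) P.Ω := by
  have h1 : ContDiffOn ℝ 2 (fderiv ℝ P.u) P.Ω :=
    P.smooth.fderiv_of_isOpen P.isOpen (by norm_cast)
  have hdir : ∀ e : ℂ, ContinuousOn (fun z => fderiv ℝ (fun w => fderiv ℝ P.u w e) z e) P.Ω := by
    intro e
    have h2 : ContDiffOn ℝ 2 (fun w => fderiv ℝ P.u w e) P.Ω := h1.clm_apply contDiffOn_const
    have h3 := h2.continuousOn_fderiv_of_isOpen P.isOpen (by norm_num)
    exact h3.clm_apply continuousOn_const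
  have h4 : ContinuousOn (lap P.u) P.Ω := (hdir 1).add (hdir Complex.I)
  exact (Real.continuous_exp.comp_continuousOn
    (continuousOn_const.mul P.smooth.continuousOn)).mul h4

theorem cr_kk_flow (P : Pres) (Φ : GFlow P) (v₀ : ℂ × ℝ) (hv₀ : v₀ ∈ P.S)
    (h0 : 0 < kk P.u v₀.1) : ∃ τ : ℝ, 0 < τ ∧ τ ≤ 1 ∧ ∃ k : ℝ, 0 < k ∧
      ∀ᶠ v in 𝓝 v₀, v ∈ P.S ∧ ∀ a : ℝ, |a| ≤ τ → k ≤ kk P.u (Φ.φ a v).1 := by
  have hc : ContinuousAt (fun p : ℝ × (ℂ × ℝ) => kk P.u (Φ.φ p.1 p.2).1) (0, v₀) := by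
    have h1 : ContinuousAt (fun p : ℝ × (ℂ × ℝ) => Φ.φ p.1 p.2) (0, v₀) :=
      Φ.smooth.continuousOn.continuousAt
        ((isOpen_univ.prod (cr_S_open P)).mem_nhds ⟨mem_univ _, hv₀⟩)
    have h2 : ContinuousAt (kk P.u) (Φ.φ 0 v₀).1 := by
      rw [Φ.zero]
      exact (cr_kk_cont P).continuousAt (P.isOpen.mem_nhds hv₀.1)
    exact ContinuousAt.comp (f := fun p : ℝ × (ℂ × ℝ) => (Φ.φ p.1 p.2).1) h2 h1.fst
  have hev : ∀ᶠ p in 𝓝 ((0 : ℝ), v₀), kk P.u v₀.1 / 2 < kk P.u (Φ.φ p.1 p.2).1 := by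
    apply hc.eventually
    apply lt_mem_nhds
    simp only [Φ.zero]
    linarith
  rw [nhds_prod_eq, eventually_prod_iff] at hev
  obtain ⟨pa, hpa, pb, hpb, hab⟩ := hev
  obtain ⟨ε, hε, hball⟩ := Metric.eventually_nhds_iff.1 hpa
  refine ⟨min (ε / 2) 1, lt_min (by linarith) one_pos, min_le_right _ _, kk P.u v₀.1 / 2,
    by linarith, ?_⟩
  filter_upwards [hpb, (cr_S_open P).mem_nhds hv₀] with v hv hvS
  refine ⟨hvS, fun a ha => (hab (hball ?_) hv).le⟩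
  rw [Real.dist_eq, sub_zero]
  have := min_le_left (ε / 2) 1
  linarith

theorem cr_low1 (P : Pres) (Φ : GFlow P) (hk : ∀ z ∈ P.Ω, 0 ≤ kk P.u z) (κ : ℝ) (hκ : 1 ≤ κ)
    (hk2 : ∀ z ∈ P.Ω, kk P.u z ≤ κ ^ 2) (v₀ : ℂ × ℝ) (hv₀ : v₀ ∈ P.S) (h0 : 0 < kk P.u v₀.1) :
    ∃ c : ℝ, 0 < c ∧ ∀ᶠ v in 𝓝 v₀, ∀ T : ℝ, 3 ≤ T → c * Φ.J T v ≤ Φ.J' T v := by
  obtain ⟨τ, hτ0, hτ1, k, hk0, hev⟩ := cr_kk_flow P Φ v₀ hv₀ h0
  refine ⟨k * τ * Real.exp (-(κ + 1)), by positivity, ?_⟩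
  filter_upwards [hev] with v hv T hT
  obtain ⟨hvS, hva⟩ := hv
  set w := Φ.φ T v with hw
  have hwS : w ∈ P.S := Φ.mem T v hvS
  have hJ : Φ.J T v = -Φ.B (-T) w := rfl
  have hJ' : Φ.J' T v = Φ.B' (-T) w := rfl
  -- facts on `B` at negative times
  have hB : ∀ s : ℝ, s < 0 → -s ≤ -Φ.B s w ∧ 1 ≤ Φ.B' s w := by
    intro s hs
    have h := J_pos P Φ hk (-s) (by linarith) (Φ.φ s w) (Φ.mem s w hwS)
    have e : Φ.φ (-s) (Φ.φ s w) = w := by rw [← Φ.add, neg_add_cancel, Φ.zero]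
    unfold GFlow.J GFlow.J' at h
    rw [e, neg_neg] at h
    exact ⟨h.1, h.2.1⟩
  have hR : ∀ s : ℝ, s ≤ -1 → Φ.B' s w ≤ (κ + 1) * -Φ.B s w := by
    intro s hs
    have h := (J_ric P Φ hk κ hκ hk2 (-s) (by linarith) (Φ.φ s w) (Φ.mem s w hwS)).1
    have e : Φ.φ (-s) (Φ.φ s w) = w := by rw [← Φ.add, neg_add_cancel, Φ.zero]
    unfold GFlow.J GFlow.J' at h
    rw [e, neg_neg] at h
    exact h
  have hJpos : 0 < Φ.J T v := by
    rw [hJ]
    have := (hB (-T) (by linarith)).1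
    linarith
  -- lower bound for `-B`
  have hlow : ∀ s ∈ Icc (-T) (-T + τ), Real.exp (-(κ + 1)) * Φ.J T v ≤ -Φ.B s w := by
    have hmono : MonotoneOn (fun s => -Φ.B s w * Real.exp ((κ + 1) * s)) (Icc (-T) (-T + τ)) := by
      have hd : ∀ s, HasDerivAt (fun s => -Φ.B s w * Real.exp ((κ + 1) * s))
          (-Φ.B' s w * Real.exp ((κ + 1) * s) +
            -Φ.B s w * (Real.exp ((κ + 1) * s) * ((κ + 1) * 1))) s := by
        intro s
        exact (Φ.hB s w hwS).neg.mul (((hasDerivAt_id s).const_mul (κ + 1)).exp)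
      apply monotoneOn_of_deriv_nonneg (convex_Icc _ _)
      · exact fun s _ => (hd s).continuousAt.continuousWithinAt
      · exact fun s _ => (hd s).differentiableAt.differentiableWithinAt
      · intro s hs
        rw [interior_Icc, mem_Ioo] at hs
        rw [(hd s).deriv]
        have h5 := hR s (by linarith)
        have h6 := Real.exp_pos ((κ + 1) * s)
        nlinarith
    intro s hs
    have h3 := hmono (left_mem_Icc.2 (by linarith)) hs hs.1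
    simp only at h3
    have h8 : 0 < Real.exp (-((κ + 1) * s)) := Real.exp_pos _
    have h9 := mul_le_mul_of_nonneg_right h3 h8.le
    rw [mul_assoc, mul_assoc, ← Real.exp_add, ← Real.exp_add, add_neg_cancel, Real.exp_zero,
      mul_one, ← hJ] at h9
    refine le_trans ?_ h9
    rw [mul_comm]
    apply mul_le_mul_of_nonneg_left _ hJpos.le
    apply Real.exp_le_exp.2
    have := hs.2
    nlinarith
  -- comparison for `B'`
  have hanti : AntitoneOn (fun s => Φ.B' s w + k * (Real.exp (-(κ + 1)) * Φ.J T v) * s)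
      (Icc (-T) (-T + τ)) := by
    have hd : ∀ s, HasDerivAt (fun s => Φ.B' s w + k * (Real.exp (-(κ + 1)) * Φ.J T v) * s)
        (kk P.u (Φ.φ s w).1 * Φ.B s w + k * (Real.exp (-(κ + 1)) * Φ.J T v) * 1) s := by
      intro s
      exact (Φ.hB' s w hwS).add ((hasDerivAt_id s).const_mul _)
    apply antitoneOn_of_deriv_nonpos (convex_Icc _ _)
    · exact fun s _ => (hd s).continuousAt.continuousWithinAt
    · exact fun s _ => (hd s).differentiableAt.differentiableWithinAt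
    · intro s hs
      rw [interior_Icc, mem_Ioo] at hs
      rw [(hd s).deriv]
      have h5 := hlow s ⟨hs.1.le, hs.2.le⟩
      have e : Φ.φ s w = Φ.φ (s + T) v := by rw [hw, ← Φ.add]
      have h6 : k ≤ kk P.u (Φ.φ s w).1 := by
        rw [e]
        apply hva
        rw [abs_of_nonneg (by linarith)]
        linarith
      have h7 : 0 ≤ Real.exp (-(κ + 1)) * Φ.J T v := by positivity
      have h8 := mul_le_mul h6 h5 h7 (by linarith)
      linarith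
  have h3 := hanti (left_mem_Icc.2 (by linarith)) (right_mem_Icc.2 (by linarith)) (by linarith)
  simp only at h3
  have h4 := (hB (-T + τ) (by linarith)).2
  rw [hJ']
  nlinarith

/-- lower Riccati bound near a vector in negative curvature -/
theorem cr_low (P : Pres) (Φ : GFlow P) (hk : ∀ z ∈ P.Ω, 0 ≤ kk P.u z) (κ : ℝ) (hκ : 1 ≤ κ)
    (hk2 : ∀ z ∈ P.Ω, kk P.u z ≤ κ ^ 2) (v₀ : ℂ × ℝ) (hv₀ : v₀ ∈ P.S) (h0 : 0 < kk P.u v₀.1) :
    ∃ c : ℝ, 0 < c ∧ ∀ᶠ v in 𝓝 v₀, ∀ T : ℝ, 3 ≤ T →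
      c * Φ.J T v ≤ Φ.J' T v ∧ c * -Φ.J (-T) v ≤ Φ.J' (-T) v := by
  obtain ⟨c₁, hc₁, h1⟩ := cr_low1 P Φ hk κ hκ hk2 v₀ hv₀ h0
  obtain ⟨c₂, hc₂, h2⟩ := cr_low1 P Φ hk κ hκ hk2 (v₀.1, v₀.2 - Real.pi) ⟨hv₀.1, mem_univ _⟩ h0
  have hcont : Tendsto (fun v : ℂ × ℝ => (v.1, v.2 - Real.pi)) (𝓝 v₀)
      (𝓝 (v₀.1, v₀.2 - Real.pi)) := by
    have : Continuous fun v : ℂ × ℝ => (v.1, v.2 - Real.pi) := by fun_prop
    exact this.tendsto v₀
  refine ⟨min c₁ c₂, lt_min hc₁ hc₂, ?_⟩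
  filter_upwards [h1, hcont.eventually h2, (cr_S_open P).mem_nhds hv₀] with v a1 a2 hvS T hT
  have hpos := J_pos P Φ hk T (by linarith) v hvS
  refine ⟨le_trans (mul_le_mul_of_nonneg_right (min_le_left _ _) (by linarith [hpos.1]))
    (a1 T hT), ?_⟩
  have h3 := a2 T hT
  have hvS' : ((v.1, v.2 - Real.pi) : ℂ × ℝ) ∈ P.S := ⟨hvS.1, mem_univ _⟩
  obtain ⟨-, e1, e2⟩ := flip_St P Φ T 0 (v.1, v.2 - Real.pi) hvS'
  simp only [sub_add_cancel] at e1 e2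
  have e3 : ((v.1, v.2) : ℂ × ℝ) = v := rfl
  rw [e3] at e1 e2
  rw [e1, e2, neg_neg]
  refine le_trans (mul_le_mul_of_nonneg_right (min_le_right _ _) ?_) h3
  have := (J_pos P Φ hk T (by linarith) _ hvS').1
  linarith


/-- `(τ, a, b) ↦ τ X + a H + b V` -/
def cr_box_L (X H V : ℂ × ℝ) : (ℝ × ℝ × ℝ) →L[ℝ] (ℂ × ℝ) :=
  (ContinuousLinearMap.fst ℝ ℝ (ℝ × ℝ)).smulRight X +
    ((ContinuousLinearMap.fst ℝ ℝ ℝ).comp (ContinuousLinearMap.snd ℝ ℝ (ℝ × ℝ))).smulRight H +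
    ((ContinuousLinearMap.snd ℝ ℝ ℝ).comp (ContinuousLinearMap.snd ℝ ℝ (ℝ × ℝ))).smulRight V

theorem cr_box_L_apply (X H V : ℂ × ℝ) (p : ℝ × ℝ × ℝ) :
    cr_box_L X H V p = p.1 • X + p.2.1 • H + p.2.2 • V := by
  simp [cr_box_L]

theorem cr_box_inj (u : ℂ → ℝ) (v : ℂ × ℝ) :
    Function.Injective (cr_box_L (XX u v) (HH u v) VV) := by
  rw [injective_iff_map_eq_zero]
  rintro ⟨τ, a, b⟩ h
  rw [cr_box_L_apply] at h
  have h1 := congrArg Prod.fst h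
  have h2 := congrArg Prod.snd h
  simp only [XX, HH, VV, Prod.fst_add, Prod.smul_fst, Prod.fst_zero, Complex.real_smul,
    mul_zero, add_zero] at h1
  have h3 : ((Real.exp (-u v.1) : ℂ) * Complex.exp (v.2 * Complex.I)) *
      ((τ : ℂ) + (a : ℂ) * Complex.I) = 0 := by
    linear_combination h1
  have h4 : ((Real.exp (-u v.1) : ℂ) * Complex.exp (v.2 * Complex.I)) ≠ 0 := by
    refine mul_ne_zero ?_ (Complex.exp_ne_zero _)
    exact_mod_cast (Real.exp_pos _).ne'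
  have h5 := (mul_eq_zero.1 h3).resolve_left h4
  have h6 := congrArg Complex.re h5
  have h7 := congrArg Complex.im h5
  simp at h6 h7
  subst h6
  subst h7
  simp only [VV, Prod.snd_add, Prod.smul_snd, zero_smul, smul_eq_mul, mul_one, zero_add,
    Prod.snd_zero] at h2
  simp [h2]

/-- the linear equivalence -/
def cr_box_E (u : ℂ → ℝ) (v : ℂ × ℝ) : (ℝ × ℝ × ℝ) ≃L[ℝ] (ℂ × ℝ) :=
  (LinearMap.linearEquivOfInjective (cr_box_L (XX u v) (HH u v) VV : (ℝ × ℝ × ℝ) →ₗ[ℝ] (ℂ × ℝ))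
    (cr_box_inj u v) (by simp)).toContinuousLinearEquiv

theorem cr_box_E_coe (u : ℂ → ℝ) (v : ℂ × ℝ) :
    (cr_box_E u v : (ℝ × ℝ × ℝ) →L[ℝ] (ℂ × ℝ)) = cr_box_L (XX u v) (HH u v) VV := by
  ext p <;> rfl

theorem cr_box_open (P : Pres) : IsOpen P.S := P.isOpen.prod isOpen_univ

theorem cr_box_cont (P : Pres) (v₀ : ℂ × ℝ) (hv₀ : v₀ ∈ P.S) : ContinuousAt (HH P.u) v₀ := by
  have hΩ : v₀.1 ∈ P.Ω := hv₀.1
  have hn : P.Ω ∈ 𝓝 v₀.1 := P.isOpen.mem_nhds hΩ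
  have hu : ContDiffAt ℝ ∞ P.u v₀.1 := P.smooth.contDiffAt hn
  have hu0 : ContinuousAt (fun v : ℂ × ℝ => P.u v.1) v₀ :=
    ContinuousAt.comp (f := fun v : ℂ × ℝ => v.1) hu.continuousAt continuousAt_fst
  have hd : ContinuousAt (fderiv ℝ P.u) v₀.1 :=
    (hu.fderiv_right (m := 0) (by simp)).continuousAt
  have hdx : ContinuousAt (fun v : ℂ × ℝ => dx P.u v.1) v₀ := by
    have h1 : ContinuousAt (fun z => fderiv ℝ P.u z 1) v₀.1 := hd.clm_apply continuousAt_const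
    exact ContinuousAt.comp (f := fun v : ℂ × ℝ => v.1) h1 continuousAt_fst
  have hdy : ContinuousAt (fun v : ℂ × ℝ => dy P.u v.1) v₀ := by
    have h1 : ContinuousAt (fun z => fderiv ℝ P.u z Complex.I) v₀.1 :=
      hd.clm_apply continuousAt_const
    exact ContinuousAt.comp (f := fun v : ℂ × ℝ => v.1) h1 continuousAt_fst
  have hs : ContinuousAt (fun v : ℂ × ℝ => v.2) v₀ := continuousAt_snd
  unfold HH
  refine ContinuousAt.prodMk ?_ ?_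
  · refine ContinuousAt.mul ?_ ?_
    · exact Complex.continuous_ofReal.continuousAt.comp
        (Real.continuous_exp.continuousAt.comp hu0.neg)
    · refine continuousAt_const.mul ?_
      exact Complex.continuous_exp.continuousAt.comp
        ((Complex.continuous_ofReal.continuousAt.comp hs).mul continuousAt_const)
  · refine ContinuousAt.mul ?_ ?_
    · exact Real.continuous_exp.continuousAt.comp hu0.neg
    · exact (hdx.neg.mul (Real.continuous_cos.continuousAt.comp hs)).sub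
        (hdy.mul (Real.continuous_sin.continuousAt.comp hs))

/-- the flow box map -/
def cr_box_P {P : Pres} (Φ : GFlow P) (v₀ : ℂ × ℝ) (p : ℝ × ℝ × ℝ) : ℂ × ℝ :=
  Φ.φ p.1 (v₀ + p.2.1 • HH P.u v₀ + p.2.2 • VV)

theorem cr_box_P_zero {P : Pres} (Φ : GFlow P) (v₀ : ℂ × ℝ) : cr_box_P Φ v₀ 0 = v₀ := by
  simp [cr_box_P, Φ.zero]

theorem cr_box_P_smooth {P : Pres} (Φ : GFlow P) (v₀ : ℂ × ℝ) (hv₀ : v₀ ∈ P.S) :
    ContDiffAt ℝ 1 (cr_box_P Φ v₀) 0 := by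
  have h1 : ContDiffAt ℝ 1 (fun p : ℝ × (ℂ × ℝ) => Φ.φ p.1 p.2) (0, v₀) :=
    Φ.smooth.contDiffAt ((isOpen_univ.prod (cr_box_open P)).mem_nhds ⟨mem_univ _, hv₀⟩)
  have h2 : ContDiffAt ℝ 1 (fun p : ℝ × ℝ × ℝ =>
      (p.1, v₀ + p.2.1 • HH P.u v₀ + p.2.2 • VV)) 0 := by
    refine ContDiff.contDiffAt ?_
    fun_prop
  have h3 : (fun p : ℝ × ℝ × ℝ => (p.1, v₀ + p.2.1 • HH P.u v₀ + p.2.2 • VV)) 0 = (0, v₀) := by
    simp
  rw [← h3] at h1
  exact ContDiffAt.comp (0 : ℝ × ℝ × ℝ) h1 h2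

theorem cr_box_P_deriv {P : Pres} (Φ : GFlow P) (v₀ : ℂ × ℝ) (hv₀ : v₀ ∈ P.S) :
    HasFDerivAt (cr_box_P Φ v₀) (cr_box_L (XX P.u v₀) (HH P.u v₀) VV) 0 := by
  have h1 : ContDiffAt ℝ 1 (fun p : ℝ × (ℂ × ℝ) => Φ.φ p.1 p.2) (0, v₀) :=
    Φ.smooth.contDiffAt ((isOpen_univ.prod (cr_box_open P)).mem_nhds ⟨mem_univ _, hv₀⟩)
  have h2 := (h1.differentiableAt (by simp)).hasFDerivAt
  set Df := fderiv ℝ (fun p : ℝ × (ℂ × ℝ) => Φ.φ p.1 p.2) (0, v₀) with hDf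
  have hX : Df (1, 0) = XX P.u v₀ := by
    have h3 : HasDerivAt (fun s : ℝ => ((s, v₀) : ℝ × (ℂ × ℝ))) (1, 0) 0 :=
      (hasDerivAt_id (0 : ℝ)).prodMk (hasDerivAt_const (0 : ℝ) v₀)
    have h4 := h2.comp_hasDerivAt (0 : ℝ) h3
    have h5 := Φ.deriv_t 0 v₀ hv₀
    rw [Φ.zero] at h5
    exact h4.unique h5
  have hI : ∀ w : ℂ × ℝ, Df (0, w) = w := by
    intro w
    have h3 : HasDerivAt (fun s : ℝ => (((0 : ℝ), v₀ + s • w) : ℝ × (ℂ × ℝ))) (0, w) 0 := by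
      refine (hasDerivAt_const (0 : ℝ) (0 : ℝ)).prodMk ?_
      have h4 := ((hasDerivAt_id (0 : ℝ)).smul_const w).const_add v₀
      simpa using h4
    have h2' : HasFDerivAt (fun p : ℝ × (ℂ × ℝ) => Φ.φ p.1 p.2) Df
        ((fun s : ℝ => (((0 : ℝ), v₀ + s • w) : ℝ × (ℂ × ℝ))) 0) := by
      simpa using h2
    have h4 := h2'.comp_hasDerivAt (0 : ℝ) h3
    have h5 : HasDerivAt (fun s : ℝ => v₀ + s • w) w 0 := by
      have h4 := ((hasDerivAt_id (0 : ℝ)).smul_const w).const_add v₀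
      simpa using h4
    refine h4.unique ?_
    refine h5.congr_of_eventuallyEq (Eventually.of_forall fun s => ?_)
    simp [Φ.zero]
  have h6 : HasFDerivAt (fun p : ℝ × ℝ × ℝ => (p.1, v₀ + p.2.1 • HH P.u v₀ + p.2.2 • VV))
      ((ContinuousLinearMap.fst ℝ ℝ (ℝ × ℝ)).prod (cr_box_L 0 (HH P.u v₀) VV)) 0 := by
    refine HasFDerivAt.prodMk hasFDerivAt_fst ?_
    have h7 : (fun p : ℝ × ℝ × ℝ => v₀ + p.2.1 • HH P.u v₀ + p.2.2 • VV) =
        fun p => v₀ + cr_box_L 0 (HH P.u v₀) VV p := by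
      funext p
      rw [cr_box_L_apply, smul_zero, zero_add, add_assoc]
    rw [h7]
    exact (ContinuousLinearMap.hasFDerivAt _).const_add v₀
  have h3 : (fun p : ℝ × ℝ × ℝ => (p.1, v₀ + p.2.1 • HH P.u v₀ + p.2.2 • VV)) 0 = (0, v₀) := by
    simp
  rw [← h3] at h2
  have h8 := h2.comp (0 : ℝ × ℝ × ℝ) h6
  have h9 : Df.comp ((ContinuousLinearMap.fst ℝ ℝ (ℝ × ℝ)).prod (cr_box_L 0 (HH P.u v₀) VV)) =
      cr_box_L (XX P.u v₀) (HH P.u v₀) VV := by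
    apply ContinuousLinearMap.ext
    intro p
    rw [ContinuousLinearMap.comp_apply, ContinuousLinearMap.prod_apply, cr_box_L_apply,
      cr_box_L_apply, smul_zero, zero_add]
    have e1 : ((ContinuousLinearMap.fst ℝ ℝ (ℝ × ℝ)) p, p.2.1 • HH P.u v₀ + p.2.2 • VV) =
        p.1 • ((1 : ℝ), (0 : ℂ × ℝ)) + ((0 : ℝ), p.2.1 • HH P.u v₀ + p.2.2 • VV) := by
      simp
    rw [e1, map_add, map_smul, hX, hI, add_assoc]
  rw [h9] at h8
  exact h8

/-- flow box near `v₀`: `q v = (τ, a, b)` where `v = φ_τ (v₀ + a H(v₀) + b V)` -/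
theorem cr_box (P : Pres) (Φ : GFlow P) (v₀ : ℂ × ℝ) (hv₀ : v₀ ∈ P.S) (U : Set (ℂ × ℝ))
    (hU : U ∈ 𝓝 v₀) (η : ℝ) (hη : 0 < η) :
    ∃ (q : ℂ × ℝ → ℝ × ℝ × ℝ) (W : Set (ℂ × ℝ)) (ρ : ℝ), 0 < ρ ∧ ρ ≤ η ∧ IsOpen W ∧ v₀ ∈ W ∧
      W ⊆ U ∧ q v₀ = 0 ∧ (∀ v ∈ W, ‖q v‖ < ρ) ∧ IsClosed {v | v ∈ W ∧ ‖q v‖ ≤ ρ / 2} ∧
      (∀ v ∈ W, DifferentiableAt ℝ q v ∧
        |(fderiv ℝ q v (HH P.u v)).1| ≤ η ∧ |(fderiv ℝ q v VV).1| ≤ η ∧
        |(fderiv ℝ q v (HH P.u v)).2.1 - 1| ≤ η ∧ |(fderiv ℝ q v VV).2.1| ≤ η ∧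
        |(fderiv ℝ q v (HH P.u v)).2.2| ≤ η ∧ |(fderiv ℝ q v VV).2.2 - 1| ≤ η) ∧
      ∀ v ∈ W, ∀ v' ∈ W, (q v).2 = (q v').2 → Φ.φ ((q v').1 - (q v).1) v = v' := by
  have hsm := cr_box_P_smooth Φ v₀ hv₀
  have hder : HasFDerivAt (cr_box_P Φ v₀)
      (cr_box_E P.u v₀ : (ℝ × ℝ × ℝ) →L[ℝ] (ℂ × ℝ)) 0 := by
    rw [cr_box_E_coe]
    exact cr_box_P_deriv Φ v₀ hv₀
  set e := hsm.toOpenPartialHomeomorph (cr_box_P Φ v₀) hder (by simp) with he
  have hecoe : (e : ℝ × ℝ × ℝ → ℂ × ℝ) = cr_box_P Φ v₀ := rfl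
  have h0s : (0 : ℝ × ℝ × ℝ) ∈ e.source := hsm.mem_toOpenPartialHomeomorph_source hder (by simp)
  have h0 : e 0 = v₀ := by rw [hecoe, cr_box_P_zero]
  have hvt : v₀ ∈ e.target := by
    rw [← h0]
    exact e.map_source h0s
  have hq0 : e.symm v₀ = 0 := by
    have := e.left_inv h0s
    rwa [h0] at this
  have hqs : ContDiffAt ℝ 1 e.symm v₀ := by
    refine e.contDiffAt_symm hvt (f₀' := cr_box_E P.u v₀) ?_ ?_
    · rw [hq0]
      exact hder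
    · rw [hq0]
      exact hsm
  have hqd : HasFDerivAt e.symm ((cr_box_E P.u v₀).symm : (ℂ × ℝ) →L[ℝ] (ℝ × ℝ × ℝ)) v₀ := by
    refine e.hasFDerivAt_symm hvt ?_
    rw [hq0]
    exact hder
  have hqf : fderiv ℝ e.symm v₀ = ((cr_box_E P.u v₀).symm : (ℂ × ℝ) →L[ℝ] (ℝ × ℝ × ℝ)) :=
    hqd.fderiv
  have hE : ∀ p : ℝ × ℝ × ℝ, (cr_box_E P.u v₀).symm (cr_box_L (XX P.u v₀) (HH P.u v₀) VV p) = p := by
    intro p
    rw [← cr_box_E_coe]
    exact (cr_box_E P.u v₀).symm_apply_apply p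
  have hEH : fderiv ℝ e.symm v₀ (HH P.u v₀) = (0, 1, 0) := by
    rw [hqf]
    have h1 := hE (0, 1, 0)
    rw [cr_box_L_apply] at h1
    simpa using h1
  have hEV : fderiv ℝ e.symm v₀ VV = (0, 0, 1) := by
    rw [hqf]
    have h1 := hE (0, 0, 1)
    rw [cr_box_L_apply] at h1
    simpa using h1
  have hfc : ContinuousAt (fderiv ℝ e.symm) v₀ :=
    (hqs.fderiv_right (m := 0) (by simp)).continuousAt
  have hcH : ContinuousAt (fun v => fderiv ℝ e.symm v (HH P.u v)) v₀ :=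
    hfc.clm_apply (cr_box_cont P v₀ hv₀)
  have hcV : ContinuousAt (fun v => fderiv ℝ e.symm v VV) v₀ := hfc.clm_apply continuousAt_const
  have hdiff : ∀ᶠ v in 𝓝 v₀, DifferentiableAt ℝ e.symm v := by
    have h1 := hqs.eventually (by simp)
    filter_upwards [h1] with v hv
    exact hv.differentiableAt (by simp)
  have hball : Metric.closedBall (0 : ℝ) η ∈ 𝓝 (0 : ℝ) := Metric.closedBall_mem_nhds _ hη
  have habs : ∀ (f : ℂ × ℝ → ℝ), ContinuousAt f v₀ → f v₀ = 0 → ∀ᶠ v in 𝓝 v₀, |f v| ≤ η := by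
    intro f hf hf0
    have h1 : Metric.closedBall (0 : ℝ) η ∈ 𝓝 (f v₀) := by rw [hf0]; exact hball
    filter_upwards [hf h1] with v hv
    simpa [Real.norm_eq_abs] using hv
  have e1 := habs (fun v => (fderiv ℝ e.symm v (HH P.u v)).1) hcH.fst (by simp [hEH])
  have e2 := habs (fun v => (fderiv ℝ e.symm v VV).1) hcV.fst (by simp [hEV])
  have e3 := habs (fun v => (fderiv ℝ e.symm v (HH P.u v)).2.1 - 1)
    (hcH.snd.fst.sub continuousAt_const) (by simp [hEH])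
  have e4 := habs (fun v => (fderiv ℝ e.symm v VV).2.1) hcV.snd.fst (by simp [hEV])
  have e5 := habs (fun v => (fderiv ℝ e.symm v (HH P.u v)).2.2) hcH.snd.snd (by simp [hEH])
  have e6 := habs (fun v => (fderiv ℝ e.symm v VV).2.2 - 1)
    (hcV.snd.snd.sub continuousAt_const) (by simp [hEV])
  have hall : ∀ᶠ v in 𝓝 v₀, v ∈ U ∧ DifferentiableAt ℝ e.symm v ∧
      |(fderiv ℝ e.symm v (HH P.u v)).1| ≤ η ∧ |(fderiv ℝ e.symm v VV).1| ≤ η ∧
      |(fderiv ℝ e.symm v (HH P.u v)).2.1 - 1| ≤ η ∧ |(fderiv ℝ e.symm v VV).2.1| ≤ η ∧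
      |(fderiv ℝ e.symm v (HH P.u v)).2.2| ≤ η ∧ |(fderiv ℝ e.symm v VV).2.2 - 1| ≤ η := by
    filter_upwards [hU, hdiff, e1, e2, e3, e4, e5, e6] with v a1 a2 a3 a4 a5 a6 a7 a8
    exact ⟨a1, a2, a3, a4, a5, a6, a7, a8⟩
  have hcont : ContinuousAt e 0 := e.continuousAt h0s
  have hpre : ∀ᶠ p in 𝓝 (0 : ℝ × ℝ × ℝ), p ∈ e.source ∧ (e p ∈ U ∧ DifferentiableAt ℝ e.symm (e p) ∧
      |(fderiv ℝ e.symm (e p) (HH P.u (e p))).1| ≤ η ∧ |(fderiv ℝ e.symm (e p) VV).1| ≤ η ∧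
      |(fderiv ℝ e.symm (e p) (HH P.u (e p))).2.1 - 1| ≤ η ∧
      |(fderiv ℝ e.symm (e p) VV).2.1| ≤ η ∧
      |(fderiv ℝ e.symm (e p) (HH P.u (e p))).2.2| ≤ η ∧
      |(fderiv ℝ e.symm (e p) VV).2.2 - 1| ≤ η) := by
    have h1 : ∀ᶠ p in 𝓝 (0 : ℝ × ℝ × ℝ), p ∈ e.source := e.open_source.mem_nhds h0s
    rw [← h0] at hall
    exact h1.and (hcont.eventually hall)
  obtain ⟨ρ₀, hρ₀, hb⟩ := Metric.eventually_nhds_iff_ball.1 hpre
  refine ⟨e.symm, e '' Metric.ball 0 (min ρ₀ η), min ρ₀ η, lt_min hρ₀ hη, min_le_right _ _,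
    ?_, ?_, ?_, hq0, ?_, ?_, ?_, ?_⟩
  · refine e.isOpen_image_of_subset_source Metric.isOpen_ball fun p hp => ?_
    exact (hb p (Metric.ball_subset_ball (min_le_left _ _) hp)).1
  · exact ⟨0, Metric.mem_ball_self (lt_min hρ₀ hη), h0⟩
  · rintro _ ⟨p, hp, rfl⟩
    exact (hb p (Metric.ball_subset_ball (min_le_left _ _) hp)).2.1
  · rintro _ ⟨p, hp, rfl⟩
    rw [e.left_inv (hb p (Metric.ball_subset_ball (min_le_left _ _) hp)).1]
    simpa using hp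
  · have hlt : min ρ₀ η / 2 < min ρ₀ η := half_lt_self (lt_min hρ₀ hη)
    have hset : {v | v ∈ e '' Metric.ball 0 (min ρ₀ η) ∧ ‖e.symm v‖ ≤ min ρ₀ η / 2} =
        e '' Metric.closedBall 0 (min ρ₀ η / 2) := by
      ext v
      constructor
      · rintro ⟨⟨p, hp, rfl⟩, h2⟩
        rw [e.left_inv (hb p (Metric.ball_subset_ball (min_le_left _ _) hp)).1] at h2
        exact ⟨p, by simpa using h2, rfl⟩
      · rintro ⟨p, hp, rfl⟩
        have hp' : p ∈ Metric.ball (0 : ℝ × ℝ × ℝ) (min ρ₀ η) :=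
          Metric.closedBall_subset_ball hlt hp
        refine ⟨⟨p, hp', rfl⟩, ?_⟩
        rw [e.left_inv (hb p (Metric.ball_subset_ball (min_le_left _ _) hp')).1]
        simpa using hp
    rw [hset]
    refine IsCompact.isClosed ((isCompact_closedBall _ _).image_of_continuousOn ?_)
    refine e.continuousOn.mono fun p hp => ?_
    exact (hb p (Metric.ball_subset_ball (min_le_left _ _)
      (Metric.closedBall_subset_ball hlt hp))).1
  · rintro _ ⟨p, hp, rfl⟩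
    exact (hb p (Metric.ball_subset_ball (min_le_left _ _) hp)).2.2
  · rintro _ ⟨p, hp, rfl⟩ _ ⟨p', hp', rfl⟩ h2
    rw [e.left_inv (hb p (Metric.ball_subset_ball (min_le_left _ _) hp)).1,
      e.left_inv (hb p' (Metric.ball_subset_ball (min_le_left _ _) hp')).1] at h2 ⊢
    rw [hecoe, cr_box_P, cr_box_P, ← Φ.add, sub_add_cancel, h2]


theorem cr_mono {g g' : ℝ → ℝ} {s t : ℝ} (hst : s ≤ t)
    (hg : ∀ x ∈ Icc s t, HasDerivAt g (g' x) x) (h0 : ∀ x ∈ Icc s t, 0 ≤ g' x) : g s ≤ g t := by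
  have hm : MonotoneOn g (Icc s t) := by
    apply monotoneOn_of_deriv_nonneg (convex_Icc _ _)
    · exact fun x hx => (hg x hx).continuousAt.continuousWithinAt
    · exact fun x hx => (hg x (interior_subset hx)).differentiableAt.differentiableWithinAt
    · intro x hx
      rw [(hg x (interior_subset hx)).deriv]
      exact h0 x (interior_subset hx)
  exact hm (left_mem_Icc.2 hst) (right_mem_Icc.2 hst) hst

theorem cr_cmp_le {g g' h h' : ℝ → ℝ} {K s t : ℝ} (hst : s ≤ t)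
    (hg : ∀ x ∈ Icc s t, HasDerivAt g (g' x) x) (hh : ∀ x ∈ Icc s t, HasDerivAt h (h' x) x)
    (hK : ∀ x ∈ Icc s t, |g' x| ≤ K * h' x) : |g t - g s| ≤ K * (h t - h s) := by
  rw [abs_le]
  constructor
  · have h1 := cr_mono (g := fun x => K * h x + g x) (g' := fun x => K * h' x + g' x) hst
      (fun x hx => ((hh x hx).const_mul K).add (hg x hx))
      (fun x hx => by have := (abs_le.1 (hK x hx)).1; linarith)
    linarith
  · have h1 := cr_mono (g := fun x => K * h x - g x) (g' := fun x => K * h' x - g' x) hst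
      (fun x hx => ((hh x hx).const_mul K).sub (hg x hx))
      (fun x hx => by have := (abs_le.1 (hK x hx)).2; linarith)
    linarith

theorem cr_cmp {g g' h h' : ℝ → ℝ} {K s t : ℝ} (hK0 : 0 ≤ K)
    (hg : ∀ x ∈ uIcc s t, HasDerivAt g (g' x) x) (hh : ∀ x ∈ uIcc s t, HasDerivAt h (h' x) x)
    (hK : ∀ x ∈ uIcc s t, |g' x| ≤ K * h' x) : |g t - g s| ≤ K * |h t - h s| := by
  rcases le_total s t with hst | hst
  · rw [uIcc_of_le hst] at hg hh hK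
    exact (cr_cmp_le hst hg hh hK).trans (mul_le_mul_of_nonneg_left (le_abs_self _) hK0)
  · rw [uIcc_of_ge hst] at hg hh hK
    rw [abs_sub_comm (g t), abs_sub_comm (h t)]
    exact (cr_cmp_le hst hg hh hK).trans (mul_le_mul_of_nonneg_left (le_abs_self _) hK0)

/-- data of a curve `c` with coordinates `τ, a, b` in the flow box -/
structure CrCurve {Y : Type*} [TopologicalSpace Y] (W F : Set Y) (K ρ : ℝ) (c : ℝ → Y)
    (τ a b τ' a' b' : ℝ → ℝ) : Prop where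
  cont : Continuous c
  d : ∀ s, c s ∈ W → HasDerivAt τ (τ' s) s ∧ HasDerivAt a (a' s) s ∧ HasDerivAt b (b' s) s ∧
    1 ≤ a' s ∧ |τ' s| ≤ K * a' s ∧ |b' s| ≤ K * a' s
  inF : ∀ s, c s ∈ W → |τ s| ≤ ρ → |a s| ≤ ρ → |b s| ≤ ρ → c s ∈ F
  mem : c 0 ∈ W

theorem cr_fwd {Y : Type*} [TopologicalSpace Y] {W F : Set Y} {K ρ : ℝ} {c : ℝ → Y}
    {τ a b τ' a' b' : ℝ → ℝ} (hC : CrCurve W F K ρ c τ a b τ' a' b') (hW : IsOpen W)
    (hF : IsClosed F) (hFW : F ⊆ W) (hK : 0 ≤ K) {δ₀ : ℝ} (hδ : (2 * K + 1) * δ₀ ≤ ρ)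
    (i1 : |τ 0| ≤ δ₀) (i2 : |a 0| ≤ δ₀) (i3 : |b 0| ≤ δ₀) {x : ℝ} (hx : a 0 ≤ x) (hx' : x ≤ δ₀) :
    ∃ s, 0 ≤ s ∧ (∀ s' ∈ Icc 0 s, c s' ∈ W) ∧ a s = x := by
  -- it is enough to reach `x`
  suffices h : ∃ s, 0 ≤ s ∧ (∀ s' ∈ Icc 0 s, c s' ∈ W) ∧ x ≤ a s by
    obtain ⟨s, hs, hsW, hxs⟩ := h
    have hcont : ContinuousOn a (Icc 0 s) :=
      fun s' hs' => (hC.d s' (hsW s' hs')).2.1.continuousAt.continuousWithinAt
    obtain ⟨s', hs', hxs'⟩ := intermediate_value_Icc hs hcont ⟨hx, hxs⟩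
    exact ⟨s', hs'.1, fun r hr => hsW r ⟨hr.1, hr.2.trans hs'.2⟩, hxs'⟩
  by_contra hcon
  push Not at hcon
  have hδ0 : 0 ≤ δ₀ := (abs_nonneg _).trans i1
  -- speed at least one
  have hspeed : ∀ s, 0 ≤ s → (∀ s' ∈ Icc 0 s, c s' ∈ W) → s ≤ a s - a 0 := by
    intro s hs hsW
    have h1 := cr_mono (g := fun r => a r - r) (g' := fun r => a' r - 1) hs
      (fun r hr => (hC.d r (hsW r hr)).2.1.sub (hasDerivAt_id r))
      (fun r hr => by have := (hC.d r (hsW r hr)).2.2.2.1; linarith)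
    linarith
  set Bad : Set ℝ := {s | 0 ≤ s ∧ c s ∉ W} with hBad
  have hBne : Bad.Nonempty := by
    by_contra hemp
    rw [not_nonempty_iff_eq_empty] at hemp
    have hall : ∀ s, 0 ≤ s → c s ∈ W := by
      intro s hs
      by_contra h
      have : s ∈ Bad := ⟨hs, h⟩
      rw [hemp] at this
      exact this
    have h0 : (0 : ℝ) ≤ 2 * δ₀ := by linarith
    have h1 := hspeed (2 * δ₀) h0 (fun s' hs' => hall s' hs'.1)
    have h2 := hcon (2 * δ₀) h0 (fun s' hs' => hall s' hs'.1)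
    have h3 := (abs_le.1 i2).1
    linarith
  have hBcl : IsClosed Bad := by
    have : Bad = Ici 0 ∩ c ⁻¹' Wᶜ := by
      ext s
      simp [hBad]
    rw [this]
    exact isClosed_Ici.inter (hW.isClosed_compl.preimage hC.cont)
  have hBbd : BddBelow Bad := ⟨0, fun s hs => hs.1⟩
  have hse := hBcl.csInf_mem hBne hBbd
  set se := sInf Bad with hsedef
  have hse0 : 0 < se := by
    rcases eq_or_lt_of_le hse.1 with h | h
    · exact absurd hC.mem (by rw [h]; exact hse.2)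
    · exact h
  have hin : ∀ s, 0 ≤ s → s < se → c s ∈ W := by
    intro s hs hlt
    by_contra h
    exact absurd (csInf_le hBbd (show s ∈ Bad from ⟨hs, h⟩)) (not_le.2 hlt)
  have hFs : ∀ s, 0 ≤ s → s < se → c s ∈ F := by
    intro s hs hlt
    have hsW : ∀ s' ∈ Icc 0 s, c s' ∈ W := fun s' hs' => hin s' hs'.1 (hs'.2.trans_lt hlt)
    have h1 := hcon s hs hsW
    have h2 := hspeed s hs hsW
    have h3 := abs_le.1 i2
    have h4 : a s - a 0 ≤ 2 * δ₀ := by linarith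
    have h5 := cr_cmp_le hs (fun r hr => (hC.d r (hsW r hr)).1)
      (fun r hr => (hC.d r (hsW r hr)).2.1) (fun r hr => (hC.d r (hsW r hr)).2.2.2.2.1)
    have h6 := cr_cmp_le hs (fun r hr => (hC.d r (hsW r hr)).2.2.1)
      (fun r hr => (hC.d r (hsW r hr)).2.1) (fun r hr => (hC.d r (hsW r hr)).2.2.2.2.2)
    have h7 : K * (a s - a 0) ≤ K * (2 * δ₀) := mul_le_mul_of_nonneg_left h4 hK
    have h8 : δ₀ ≤ ρ := by nlinarith
    apply hC.inF s (hsW s ⟨hs, le_rfl⟩)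
    · have := abs_le.1 h5
      have := abs_le.1 i1
      rw [abs_le]
      constructor <;> nlinarith
    · rw [abs_le]
      constructor <;> linarith
    · have := abs_le.1 h6
      have := abs_le.1 i3
      rw [abs_le]
      constructor <;> nlinarith
  -- the exit point is in `F`
  have hlim : c se ∈ F := by
    have h1 : Tendsto c (𝓝[<] se) (𝓝 (c se)) := hC.cont.continuousAt.continuousWithinAt
    apply hF.mem_of_tendsto h1
    filter_upwards [Ioo_mem_nhdsLT hse0] with s hs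
    exact hFs s hs.1.le hs.2
  exact hse.2 (hFW hlim)

theorem cr_rev {Y : Type*} [TopologicalSpace Y] {W F : Set Y} {K ρ : ℝ} {c : ℝ → Y}
    {τ a b τ' a' b' : ℝ → ℝ} (hC : CrCurve W F K ρ c τ a b τ' a' b') :
    CrCurve W F K ρ (fun s => c (-s)) (fun s => τ (-s)) (fun s => -a (-s)) (fun s => b (-s))
      (fun s => -τ' (-s)) (fun s => a' (-s)) (fun s => -b' (-s)) := by
  refine ⟨hC.cont.comp continuous_neg, ?_, ?_, ?_⟩
  · intro s hs
    obtain ⟨h1, h2, h3, h4, h5, h6⟩ := hC.d (-s) hs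
    have hn : HasDerivAt (fun s : ℝ => -s) (-1) s := hasDerivAt_neg s
    refine ⟨?_, ?_, ?_, h4, by rw [abs_neg]; exact h5, by rw [abs_neg]; exact h6⟩
    · have := h1.scomp s hn
      simpa [Function.comp_def] using this
    · have := (h2.scomp s hn).fun_neg
      simpa [Function.comp_def] using this
    · have := h3.scomp s hn
      simpa [Function.comp_def] using this
  · intro s hs h1 h2 h3
    exact hC.inF (-s) hs h1 (by simpa using h2) h3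
  · simpa using hC.mem

theorem cr_both {Y : Type*} [TopologicalSpace Y] {W F : Set Y} {K ρ : ℝ} {c : ℝ → Y}
    {τ a b τ' a' b' : ℝ → ℝ} (hC : CrCurve W F K ρ c τ a b τ' a' b') (hW : IsOpen W)
    (hF : IsClosed F) (hFW : F ⊆ W) (hK : 0 ≤ K) {δ₀ : ℝ} (hδ : (2 * K + 1) * δ₀ ≤ ρ)
    (i1 : |τ 0| ≤ δ₀) (i2 : |a 0| ≤ δ₀) (i3 : |b 0| ≤ δ₀) {x : ℝ} (hx : x ∈ Icc (-δ₀) δ₀) :
    ∃ s, (∀ s' ∈ uIcc 0 s, c s' ∈ W) ∧ a s = x := by
  rcases le_total (a 0) x with h | h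
  · obtain ⟨s, hs, h1, h2⟩ := cr_fwd hC hW hF hFW hK hδ i1 i2 i3 h hx.2
    exact ⟨s, by rw [uIcc_of_le hs]; exact h1, h2⟩
  · obtain ⟨s, hs, h1, h2⟩ := cr_fwd (cr_rev hC) hW hF hFW hK hδ (by simpa using i1)
      (by simpa using i2) (by simpa using i3) (x := -x) (by simpa using h) (by linarith [hx.1])
    refine ⟨-s, ?_, by linarith⟩
    intro r hr
    rw [uIcc_of_ge (by linarith)] at hr
    have := h1 (-r) ⟨by linarith [hr.2], by linarith [hr.1]⟩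
    simpa using this

/-- the curve as a graph over the coordinate `a` -/
theorem cr_graph {Y : Type*} [TopologicalSpace Y] {W F : Set Y} {K ρ : ℝ} {c : ℝ → Y}
    {τ a b τ' a' b' : ℝ → ℝ} (hC : CrCurve W F K ρ c τ a b τ' a' b') (hW : IsOpen W)
    (hF : IsClosed F) (hFW : F ⊆ W) (hK : 0 ≤ K) {δ₀ δ₁ σ c₀ : ℝ} (hδ : (2 * K + 1) * δ₀ ≤ ρ)
    (hδ₁ : δ₁ ≤ δ₀) (hc₀ : 0 < c₀) (hσ : |σ| = 1)
    (hslope : ∀ s, c s ∈ W → c₀ * a' s ≤ σ * b' s)
    (i1 : |τ 0| ≤ δ₁) (i2 : |a 0| ≤ δ₁) (i3 : |b 0| ≤ δ₁) :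
    ∃ sx : ℝ → ℝ, (∀ x ∈ Icc (-δ₀) δ₀, (∀ s' ∈ uIcc 0 (sx x), c s' ∈ W) ∧ a (sx x) = x) ∧
      ContinuousOn (fun x => b (sx x)) (Icc (-δ₀) δ₀) ∧
      c₀ * (δ₀ - δ₁) - δ₁ ≤ σ * b (sx δ₀) ∧ σ * b (sx (-δ₀)) ≤ δ₁ - c₀ * (δ₀ - δ₁) := by
  have hδ0 : 0 ≤ δ₀ := ((abs_nonneg _).trans i1).trans hδ₁
  have hex : ∀ x, ∃ s, x ∈ Icc (-δ₀) δ₀ → (∀ s' ∈ uIcc 0 s, c s' ∈ W) ∧ a s = x := by
    intro x
    by_cases hx : x ∈ Icc (-δ₀) δ₀
    · obtain ⟨s, h⟩ := cr_both hC hW hF hFW hK hδ (i1.trans hδ₁) (i2.trans hδ₁) (i3.trans hδ₁) hx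
      exact ⟨s, fun _ => h⟩
    · exact ⟨0, fun h => absurd h hx⟩
  choose sx hsx using hex
  -- segments between two parameters
  have hseg : ∀ {s t : ℝ}, (∀ s' ∈ uIcc 0 s, c s' ∈ W) → (∀ s' ∈ uIcc 0 t, c s' ∈ W) →
      ∀ r ∈ uIcc s t, c r ∈ W := by
    intro s t hs ht r hr
    rcases uIcc_subset_uIcc_union_uIcc (b := 0) hr with h | h
    · exact hs r (by rwa [uIcc_comm])
    · exact ht r h
  refine ⟨sx, fun x hx => hsx x hx, ?_, ?_, ?_⟩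
  · -- Lipschitz
    have hlip : ∀ x ∈ Icc (-δ₀) δ₀, ∀ y ∈ Icc (-δ₀) δ₀, |b (sx x) - b (sx y)| ≤ K * |x - y| := by
      intro x hx y hy
      obtain ⟨hx1, hx2⟩ := hsx x hx
      obtain ⟨hy1, hy2⟩ := hsx y hy
      have hW' := hseg hy1 hx1
      have h1 := cr_cmp hK (fun r hr => (hC.d r (hW' r hr)).2.2.1)
        (fun r hr => (hC.d r (hW' r hr)).2.1) (fun r hr => (hC.d r (hW' r hr)).2.2.2.2.2)
      rwa [hx2, hy2] at h1
    have hL : LipschitzOnWith (Real.toNNReal K) (fun x => b (sx x)) (Icc (-δ₀) δ₀) := by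
      apply LipschitzOnWith.of_dist_le_mul
      intro x hx y hy
      rw [Real.dist_eq, Real.dist_eq, Real.coe_toNNReal K hK]
      exact hlip x hx y hy
    exact hL.continuousOn
  · obtain ⟨h1, h2⟩ := hsx δ₀ ⟨by linarith, le_rfl⟩
    have hpos : 0 ≤ sx δ₀ := by
      by_contra hneg
      push Not at hneg
      rw [uIcc_of_ge hneg.le] at h1
      have h3 := cr_mono (g := fun r => a r - r) (g' := fun r => a' r - 1) hneg.le
        (fun r hr => (hC.d r (h1 r hr)).2.1.sub (hasDerivAt_id r))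
        (fun r hr => by have := (hC.d r (h1 r hr)).2.2.2.1; linarith)
      simp only [h2] at h3
      have := (abs_le.1 i2).2
      linarith
    rw [uIcc_of_le hpos] at h1
    have h3 := cr_mono (g := fun r => σ * b r - c₀ * a r) (g' := fun r => σ * b' r - c₀ * a' r) hpos
      (fun r hr => ((hC.d r (h1 r hr)).2.2.1.const_mul σ).sub
        ((hC.d r (h1 r hr)).2.1.const_mul c₀))
      (fun r hr => by have := hslope r (h1 r hr); linarith)
    simp only [h2] at h3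
    have h4 : |σ * b 0| ≤ δ₁ := by rw [abs_mul, hσ, one_mul]; exact i3
    have h5 := (abs_le.1 h4).1
    have h6 := (abs_le.1 i2).2
    nlinarith
  · obtain ⟨h1, h2⟩ := hsx (-δ₀) ⟨le_rfl, by linarith⟩
    have hneg : sx (-δ₀) ≤ 0 := by
      by_contra hpos
      push Not at hpos
      rw [uIcc_of_le hpos.le] at h1
      have h3 := cr_mono (g := fun r => a r - r) (g' := fun r => a' r - 1) hpos.le
        (fun r hr => (hC.d r (h1 r hr)).2.1.sub (hasDerivAt_id r))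
        (fun r hr => by have := (hC.d r (h1 r hr)).2.2.2.1; linarith)
      simp only [h2] at h3
      have := (abs_le.1 i2).1
      linarith
    rw [uIcc_of_ge hneg] at h1
    have h3 := cr_mono (g := fun r => σ * b r - c₀ * a r) (g' := fun r => σ * b' r - c₀ * a' r) hneg
      (fun r hr => ((hC.d r (h1 r hr)).2.2.1.const_mul σ).sub
        ((hC.d r (h1 r hr)).2.1.const_mul c₀))
      (fun r hr => by have := hslope r (h1 r hr); linarith)
    simp only [h2] at h3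
    have h4 : |σ * b 0| ≤ δ₁ := by rw [abs_mul, hσ, one_mul]; exact i3
    have h5 := (abs_le.1 h4).2
    have h6 := (abs_le.1 i2).1
    nlinarith


theorem cr_abs_mul {x y A B : ℝ} (hx : |x| ≤ A) (hy : |y| ≤ B) : |x * y| ≤ A * B := by
  rw [abs_mul]
  exact mul_le_mul hx hy (abs_nonneg _) ((abs_nonneg _).trans hx)

theorem cr_arith {κ c_ η j j' σ Ht Vt Ha Va Hb Vb : ℝ} (hκ : 1 ≤ κ) (hη0 : 0 < η)
    (hη1 : (κ + 2) * η ≤ 1 / 2) (hη2 : η ≤ c_ / 4) (hc_ : 0 < c_) (hσ : σ = 1 ∨ σ = -1)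
    (h1 : |Ht| ≤ η) (h2 : |Vt| ≤ η) (h3 : |Ha - 1| ≤ η) (h4 : |Va| ≤ η) (h5 : |Hb| ≤ η)
    (h6 : |Vb - 1| ≤ η) (hj : 3 ≤ j) (hj1 : c_ * j ≤ j') (hj2 : j' ≤ (κ + 1) * j) :
    1 ≤ j * Ha + σ * j' * Va ∧ |j * Ht + σ * j' * Vt| ≤ (2 * κ + 3) * (j * Ha + σ * j' * Va) ∧
      |j * Hb + σ * j' * Vb| ≤ (2 * κ + 3) * (j * Ha + σ * j' * Va) ∧
      c_ / 6 * (j * Ha + σ * j' * Va) ≤ σ * (j * Hb + σ * j' * Vb) ∧
      j ≤ 2 * (j * Ha + σ * j' * Va) := by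
  have hj0 : 0 < j := by linarith
  have hj'0 : 0 < j' := (mul_pos hc_ hj0).trans_le hj1
  have hσa : |σ| = 1 := by rcases hσ with rfl | rfl <;> simp
  have hσ2 : σ * σ = 1 := by rcases hσ with rfl | rfl <;> norm_num
  have aj : |j| ≤ j := (abs_of_pos hj0).le
  have aj' : |σ * j'| ≤ j' := by rw [abs_mul, hσa, one_mul, abs_of_pos hj'0]
  have hB : j * η + j' * η ≤ j / 2 := by
    have e1 : j' * η ≤ (κ + 1) * j * η := mul_le_mul_of_nonneg_right hj2 hη0.le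
    have e2 : (κ + 2) * η * j ≤ 1 / 2 * j := mul_le_mul_of_nonneg_right hη1 hj0.le
    nlinarith
  have ea : |j * Ha + σ * j' * Va - j| ≤ j / 2 := by
    have e : j * Ha + σ * j' * Va - j = j * (Ha - 1) + σ * j' * Va := by ring
    rw [e]
    exact (abs_add_le _ _).trans ((add_le_add (cr_abs_mul aj h3) (cr_abs_mul aj' h4)).trans hB)
  have et : |j * Ht + σ * j' * Vt| ≤ j / 2 :=
    (abs_add_le _ _).trans ((add_le_add (cr_abs_mul aj h1) (cr_abs_mul aj' h2)).trans hB)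
  have eb : |j * Hb + σ * j' * Vb - σ * j'| ≤ j / 2 := by
    have e : j * Hb + σ * j' * Vb - σ * j' = j * Hb + σ * j' * (Vb - 1) := by ring
    rw [e]
    exact (abs_add_le _ _).trans ((add_le_add (cr_abs_mul aj h5) (cr_abs_mul aj' h6)).trans hB)
  obtain ⟨ea1, ea2⟩ := abs_le.1 ea
  have ha : j ≤ 2 * (j * Ha + σ * j' * Va) := by linarith
  refine ⟨by linarith, et.trans ?_, ?_, ?_, ha⟩
  · nlinarith
  · have e1 : |j * Hb + σ * j' * Vb| ≤ j / 2 + j' := by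
      have := abs_add_le (j * Hb + σ * j' * Vb - σ * j') (σ * j')
      rw [sub_add_cancel] at this
      linarith
    nlinarith
  · have hη6 : η ≤ 1 / 6 := by nlinarith
    have e1 : σ * (j * Hb + σ * j' * Vb) = σ * j * Hb + j' * (Vb - 1) + j' := by
      have : σ * (j * Hb + σ * j' * Vb) = σ * j * Hb + (σ * σ) * j' * Vb := by ring
      rw [this, hσ2]
      ring
    have e2 : |σ * j * Hb| ≤ j * η := by
      apply cr_abs_mul _ h5
      rw [abs_mul, hσa, one_mul, abs_of_pos hj0]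
    have e3 : |j' * (Vb - 1)| ≤ j' * η := cr_abs_mul (abs_of_pos hj'0).le h6
    have e4 := (abs_le.1 e2).1
    have e5 := (abs_le.1 e3).1
    rw [e1]
    have e6 : c_ / 6 * (j * Ha + σ * j' * Va) ≤ c_ / 6 * (3 / 2 * j) := by
      apply mul_le_mul_of_nonneg_left _ (by linarith)
      linarith
    have e7 : j * η ≤ j * (c_ / 4) := mul_le_mul_of_nonneg_left hη2 hj0.le
    have e8 : j' * η ≤ j' * (1 / 6) := mul_le_mul_of_nonneg_left hη6 hj'0.le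
    nlinarith

theorem cr_curve (P : Pres) {κ c_ η : ℝ} (hκ : 1 ≤ κ) (hη0 : 0 < η)
    (hη1 : (κ + 2) * η ≤ 1 / 2) (hη2 : η ≤ c_ / 4) (hc_ : 0 < c_)
    {q : ℂ × ℝ → ℝ × ℝ × ℝ} {W : Set (ℂ × ℝ)} {ρ : ℝ}
    (hq : ∀ v ∈ W, DifferentiableAt ℝ q v ∧
        |(fderiv ℝ q v (HH P.u v)).1| ≤ η ∧ |(fderiv ℝ q v VV).1| ≤ η ∧
        |(fderiv ℝ q v (HH P.u v)).2.1 - 1| ≤ η ∧ |(fderiv ℝ q v VV).2.1| ≤ η ∧
        |(fderiv ℝ q v (HH P.u v)).2.2| ≤ η ∧ |(fderiv ℝ q v VV).2.2 - 1| ≤ η)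
    {c : ℝ → ℂ × ℝ} {j j' : ℝ → ℝ} {σ : ℝ} (hσ : σ = 1 ∨ σ = -1)
    (hc : ∀ s, HasDerivAt c (j s • HH P.u (c s) + (σ * j' s) • VV) s)
    (hj : ∀ s, c s ∈ W → 3 ≤ j s ∧ c_ * j s ≤ j' s ∧ j' s ≤ (κ + 1) * j s) (h0 : c 0 ∈ W) :
    ∃ τ' a' b' : ℝ → ℝ, CrCurve W {v | v ∈ W ∧ ‖q v‖ ≤ ρ / 2} (2 * κ + 3) (ρ / 2) c
      (fun s => (q (c s)).1) (fun s => (q (c s)).2.1) (fun s => (q (c s)).2.2) τ' a' b' ∧
      (∀ s, c s ∈ W → c_ / 6 * a' s ≤ σ * b' s) ∧ ∀ s, c s ∈ W → j s ≤ 2 * a' s := by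
  have key : ∀ s, c s ∈ W → HasDerivAt (fun s => q (c s))
      (j s • fderiv ℝ q (c s) (HH P.u (c s)) + (σ * j' s) • fderiv ℝ q (c s) VV) s := by
    intro s hs
    have h1 := (hq (c s) hs).1.hasFDerivAt.comp_hasDerivAt s (hc s)
    rw [map_add, map_smul, map_smul] at h1
    exact h1
  refine ⟨fun s => j s * (fderiv ℝ q (c s) (HH P.u (c s))).1
      + σ * j' s * (fderiv ℝ q (c s) VV).1,
    fun s => j s * (fderiv ℝ q (c s) (HH P.u (c s))).2.1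
      + σ * j' s * (fderiv ℝ q (c s) VV).2.1,
    fun s => j s * (fderiv ℝ q (c s) (HH P.u (c s))).2.2
      + σ * j' s * (fderiv ℝ q (c s) VV).2.2, ⟨?_, ?_, ?_, h0⟩, ?_, ?_⟩
  · exact continuous_iff_continuousAt.2 fun s => (hc s).continuousAt
  · intro s hs
    obtain ⟨-, b1, b2, b3, b4, b5, b6⟩ := hq (c s) hs
    obtain ⟨c1, c2, c3⟩ := hj s hs
    obtain ⟨d1, d2, d3, -, -⟩ := cr_arith hκ hη0 hη1 hη2 hc_ hσ b1 b2 b3 b4 b5 b6 c1 c2 c3
    have hk := key s hs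
    refine ⟨?_, ?_, ?_, d1, d2, d3⟩
    · exact hasFDerivAt_fst.comp_hasDerivAt s hk
    · exact hasFDerivAt_fst.comp_hasDerivAt s (hasFDerivAt_snd.comp_hasDerivAt s hk)
    · exact hasFDerivAt_snd.comp_hasDerivAt s (hasFDerivAt_snd.comp_hasDerivAt s hk)
  · intro s hs h1 h2 h3
    refine ⟨hs, ?_⟩
    rw [Prod.norm_def, Prod.norm_def]
    exact max_le h1 (max_le h2 h3)
  · intro s hs
    obtain ⟨-, b1, b2, b3, b4, b5, b6⟩ := hq (c s) hs
    obtain ⟨c1, c2, c3⟩ := hj s hs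
    exact (cr_arith hκ hη0 hη1 hη2 hc_ hσ b1 b2 b3 b4 b5 b6 c1 c2 c3).2.2.2.1
  · intro s hs
    obtain ⟨-, b1, b2, b3, b4, b5, b6⟩ := hq (c s) hs
    obtain ⟨c1, c2, c3⟩ := hj s hs
    exact (cr_arith hκ hη0 hη1 hη2 hc_ hσ b1 b2 b3 b4 b5 b6 c1 c2 c3).2.2.2.2

theorem cr_St_mem (P : Pres) (Φ : GFlow P) (T b : ℝ) (v : ℂ × ℝ) (hv : v ∈ P.S) :
    Φ.St T b v ∈ P.S := by
  apply Φ.mem
  have h := Φ.mem T v hv
  exact ⟨h.1, mem_univ _⟩

theorem cr_J_cont (P : Pres) (Φ : GFlow P) (T : ℝ) (v : ℂ × ℝ) (hv : v ∈ P.S) :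
    Continuous fun s : ℝ => Φ.J T (Φ.St T s v) := by
  obtain ⟨-, hJ, -, hSt⟩ := len_cont P Φ T
  have h1 : Continuous fun s : ℝ => Φ.St T s v := by
    have h2 : Continuous fun s : ℝ => (s, v) := continuous_id.prodMk continuous_const
    exact continuousOn_univ.1 (hSt.comp h2.continuousOn fun s _ => ⟨mem_univ _, hv⟩)
  have h3 : Continuous fun s : ℝ => (T, Φ.St T s v) := continuous_const.prodMk h1
  exact continuousOn_univ.1 (hJ.comp h3.continuousOn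
    fun s _ => ⟨mem_univ _, cr_St_mem P Φ T s v hv⟩)

/-- length estimate along a curve -/
theorem cr_int {Y : Type*} [TopologicalSpace Y] {W F : Set Y} {K ρ : ℝ} {c : ℝ → Y}
    {τ a b τ' a' b' : ℝ → ℝ} (hC : CrCurve W F K ρ c τ a b τ' a' b') {j : ℝ → ℝ}
    (hjc : Continuous j) (hj0 : ∀ s, c s ∈ W → 0 ≤ j s) (hj : ∀ s, c s ∈ W → j s ≤ 2 * a' s)
    {s : ℝ} (hs : ∀ s' ∈ uIcc 0 s, c s' ∈ W) :
    |∫ x in (0 : ℝ)..s, j x| ≤ 2 * |a s - a 0| := by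
  have h1 := cr_cmp (g := fun r => ∫ x in (0 : ℝ)..r, j x) (g' := j) (h := a) (h' := a') (K := 2)
    (s := 0) (t := s) (by norm_num)
    (fun r _ => intervalIntegral.integral_hasDerivAt_right (hjc.intervalIntegrable _ _)
      (hjc.stronglyMeasurableAtFilter _ _) hjc.continuousAt)
    (fun r hr => (hC.d r (hs r hr)).2.1)
    (fun r hr => by rw [abs_of_nonneg (hj0 r (hs r hr))]; exact hj r (hs r hr))
  simpa using h1

/-- CR : crossing of stable and unstable curves near a vector in negative curvature -/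
theorem cross_pr (P : Pres) (Φ : GFlow P) (hk : ∀ z ∈ P.Ω, 0 ≤ kk P.u z) (κ : ℝ)
    (hκ : 1 ≤ κ) (hk2 : ∀ z ∈ P.Ω, kk P.u z ≤ κ ^ 2) (v₀ : ℂ × ℝ) (hv₀ : v₀ ∈ P.S)
    (h0 : 0 < kk P.u v₀.1) (N : Set (ℂ × ℝ)) (hN : N ∈ 𝓝 v₀) (hNS : N ⊆ P.S) (δ : ℝ)
    (hδ : 0 < δ) : ∃ O : Set (ℂ × ℝ), IsOpen O ∧ v₀ ∈ O ∧ O ⊆ N ∧ ∃ T₀ : ℝ, 3 ≤ T₀ ∧
      ∀ T, T₀ ≤ T → ∀ v₁ ∈ O, ∀ v₂ ∈ O, ∃ (v : ℂ × ℝ) (b₁ b₂ t : ℝ), v ∈ N ∧ Φ.φ t v ∈ N ∧
        |t| ≤ δ ∧ Φ.Xi T (v, b₁, b₂, t) = (v₁, v₂) ∧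
        Φ.len T b₁ v ≤ δ ∧ Φ.len (-T) b₂ (Φ.φ t v) ≤ δ := by
  obtain ⟨c_, hc_, hlow⟩ := cr_low P Φ hk κ hκ hk2 v₀ hv₀ h0
  set η : ℝ := min (min (1 / (2 * (κ + 2))) (c_ / 4)) (δ / 2) with hη
  have hκ2 : 0 < κ + 2 := by linarith
  have hη0 : 0 < η := lt_min (lt_min (by positivity) (by positivity)) (by positivity)
  have hη1 : (κ + 2) * η ≤ 1 / 2 := by
    have h1 : η ≤ 1 / (2 * (κ + 2)) := (min_le_left _ _).trans (min_le_left _ _)
    calc (κ + 2) * η ≤ (κ + 2) * (1 / (2 * (κ + 2))) := mul_le_mul_of_nonneg_left h1 hκ2.le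
      _ = 1 / 2 := by field_simp
  have hη2 : η ≤ c_ / 4 := (min_le_left _ _).trans (min_le_right _ _)
  have hη3 : η ≤ δ / 2 := min_le_right _ _
  obtain ⟨q, W, ρ, hρ0, hρη, hWo, hv₀W, hWU, hq0, hqρ, hFcl, hqd, hqφ⟩ :=
    cr_box P Φ v₀ hv₀ _ (Filter.inter_mem hlow hN) η hη0
  have hWN : W ⊆ N := fun v hv => (hWU hv).2
  have hWlow : ∀ v ∈ W, ∀ T : ℝ, 3 ≤ T → c_ * Φ.J T v ≤ Φ.J' T v ∧
      c_ * -Φ.J (-T) v ≤ Φ.J' (-T) v := fun v hv => (hWU hv).1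
  have hWS : W ⊆ P.S := hWN.trans hNS
  set K : ℝ := 2 * κ + 3 with hKdef
  have hK0 : 0 ≤ K := by rw [hKdef]; linarith
  set δ₀ : ℝ := ρ / 2 / (2 * K + 1) with hδ₀
  have h2K : 0 < 2 * K + 1 := by linarith
  have hδ₀pos : 0 < δ₀ := by positivity
  have hδ₀ρ : (2 * K + 1) * δ₀ ≤ ρ / 2 := by
    rw [hδ₀, mul_div_cancel₀ _ h2K.ne']
  have hδ₀δ : 4 * δ₀ ≤ δ := by
    have h1 : δ₀ ≤ ρ / 2 := by nlinarith
    linarith
  set c₀ : ℝ := c_ / 6 with hc₀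
  have hc₀pos : 0 < c₀ := by positivity
  set δ₁ : ℝ := c₀ * δ₀ / (2 * (1 + c₀)) with hδ₁
  have hδ₁pos : 0 < δ₁ := by positivity
  have hδ₁e : 2 * (1 + c₀) * δ₁ = c₀ * δ₀ := by
    rw [hδ₁]; field_simp
  have hδ₁le : δ₁ ≤ δ₀ := by nlinarith
  have hgap : 0 < c₀ * (δ₀ - δ₁) - δ₁ := by nlinarith
  have hqc : ContinuousOn q W := fun v hv => (hqd v hv).1.continuousAt.continuousWithinAt
  refine ⟨W ∩ q ⁻¹' Metric.ball 0 δ₁, hqc.isOpen_inter_preimage hWo Metric.isOpen_ball,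
    ⟨hv₀W, by rw [mem_preimage, hq0]; exact Metric.mem_ball_self hδ₁pos⟩,
    fun v hv => hWN hv.1, 3, le_rfl, ?_⟩
  rintro T hT v₁ ⟨hv₁W, hv₁q⟩ v₂ ⟨hv₂W, hv₂q⟩
  rw [mem_preimage, mem_ball_zero_iff] at hv₁q hv₂q
  have hcoord : ∀ p : ℝ × ℝ × ℝ, |p.1| ≤ ‖p‖ ∧ |p.2.1| ≤ ‖p‖ ∧ |p.2.2| ≤ ‖p‖ := by
    intro p
    refine ⟨norm_fst_le p, (norm_fst_le p.2).trans (norm_snd_le p),
      (norm_snd_le p.2).trans (norm_snd_le p)⟩
  have hT1 : (1 : ℝ) ≤ T := by linarith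
  have hT0 : (0 : ℝ) < T := by linarith
  have hFW : {v | v ∈ W ∧ ‖q v‖ ≤ ρ / 2} ⊆ W := fun v hv => hv.1
  -- the stable curve of `v₁` with time reversed
  have hS1 : ∀ s, Φ.St T (-s) v₁ ∈ P.S := fun s => cr_St_mem P Φ T _ v₁ (hWS hv₁W)
  have hS2 : ∀ s, Φ.St (-T) s v₂ ∈ P.S := fun s => cr_St_mem P Φ (-T) _ v₂ (hWS hv₂W)
  obtain ⟨τ₁', a₁', b₁', hC1, hsl1, hj1⟩ := cr_curve P hκ hη0 hη1 hη2 hc_ (ρ := ρ) hqd
    (c := fun s => Φ.St T (-s) v₁) (j := fun s => Φ.J T (Φ.St T (-s) v₁))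
    (j' := fun s => Φ.J' T (Φ.St T (-s) v₁)) (σ := -1) (Or.inr rfl)
    (fun s => by
      have h1 := (St_deriv P Φ T (-s) v₁ (hWS hv₁W)).scomp s (hasDerivAt_neg s)
      have h2 : (-1 : ℝ) • (-(Φ.J T (Φ.St T (-s) v₁)) • HH P.u (Φ.St T (-s) v₁)
          + Φ.J' T (Φ.St T (-s) v₁) • VV) = Φ.J T (Φ.St T (-s) v₁) • HH P.u (Φ.St T (-s) v₁)
          + (-1 * Φ.J' T (Φ.St T (-s) v₁)) • VV := by module
      rw [h2] at h1
      exact h1)
    (fun s hs => ⟨by linarith [(J_pos P Φ hk T hT0 _ (hS1 s)).1],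
      (hWlow _ hs T hT).1, (J_ric P Φ hk κ hκ hk2 T hT1 _ (hS1 s)).1⟩)
    (by
      show Φ.St T (-0) v₁ ∈ W
      rw [neg_zero, (St_add P Φ T 0 0 v₁).2]
      exact hv₁W)
  obtain ⟨τ₂', a₂', b₂', hC2, hsl2, hj2⟩ := cr_curve P hκ hη0 hη1 hη2 hc_ (ρ := ρ) hqd
    (c := fun s => Φ.St (-T) s v₂) (j := fun s => -Φ.J (-T) (Φ.St (-T) s v₂))
    (j' := fun s => Φ.J' (-T) (Φ.St (-T) s v₂)) (σ := 1) (Or.inl rfl)
    (fun s => by
      have h1 := St_deriv P Φ (-T) s v₂ (hWS hv₂W)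
      rw [one_mul]
      exact h1)
    (fun s hs => ⟨by linarith [(J_pos P Φ hk T hT0 _ (hS2 s)).2.2.1],
      (hWlow _ hs T hT).2, (J_ric P Φ hk κ hκ hk2 T hT1 _ (hS2 s)).2⟩)
    (by
      show Φ.St (-T) 0 v₂ ∈ W
      rw [(St_add P Φ (-T) 0 0 v₂).2]
      exact hv₂W)
  have e10 : Φ.St T (-0) v₁ = v₁ := by rw [neg_zero, (St_add P Φ T 0 0 v₁).2]
  have e20 : Φ.St (-T) 0 v₂ = v₂ := (St_add P Φ (-T) 0 0 v₂).2
  have i1 := hcoord (q v₁)
  have i2 := hcoord (q v₂)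
  obtain ⟨s₁, hs₁, hf₁, hr₁, hl₁⟩ := cr_graph hC1 hWo hFcl hFW hK0 hδ₀ρ hδ₁le hc₀pos
    (by simp) hsl1 (by simp only [e10]; linarith [i1.1]) (by simp only [e10]; linarith [i1.2.1])
    (by simp only [e10]; linarith [i1.2.2])
  obtain ⟨s₂, hs₂, hf₂, hr₂, hl₂⟩ := cr_graph hC2 hWo hFcl hFW hK0 hδ₀ρ hδ₁le hc₀pos
    (by simp) hsl2 (by simp only [e20]; linarith [i2.1]) (by simp only [e20]; linarith [i2.2.1])
    (by simp only [e20]; linarith [i2.2.2])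
  -- intermediate value theorem
  obtain ⟨x, hx, hxe⟩ : ∃ x ∈ Icc (-δ₀) δ₀,
      (q (Φ.St T (-(s₁ x)) v₁)).2.2 = (q (Φ.St (-T) (s₂ x) v₂)).2.2 := by
    have hcont := hf₂.sub hf₁
    have h1 := intermediate_value_Icc (by linarith : -δ₀ ≤ δ₀) hcont
    have h2 : (0 : ℝ) ∈ Icc ((q (Φ.St (-T) (s₂ (-δ₀)) v₂)).2.2 - (q (Φ.St T (-(s₁ (-δ₀))) v₁)).2.2)
        ((q (Φ.St (-T) (s₂ δ₀) v₂)).2.2 - (q (Φ.St T (-(s₁ δ₀)) v₁)).2.2) := by
      constructor <;> linarith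
    obtain ⟨x, hx, hx0⟩ := h1 h2
    exact ⟨x, hx, by
      simp only [Pi.sub_apply] at hx0
      linarith⟩
  obtain ⟨hu₁, ha₁⟩ := hs₁ x hx
  obtain ⟨hu₂, ha₂⟩ := hs₂ x hx
  have hvW : Φ.St T (-(s₁ x)) v₁ ∈ W := hu₁ _ right_mem_uIcc
  have hvW' : Φ.St (-T) (s₂ x) v₂ ∈ W := hu₂ _ right_mem_uIcc
  have hφ := hqφ _ hvW _ hvW' (Prod.ext (ha₁.trans ha₂.symm) hxe)
  have habs : |x| ≤ δ₀ := abs_le.2 hx
  refine ⟨Φ.St T (-(s₁ x)) v₁, s₁ x, -(s₂ x), (q (Φ.St (-T) (s₂ x) v₂)).1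
    - (q (Φ.St T (-(s₁ x)) v₁)).1, hWN hvW, by rw [hφ]; exact hWN hvW', ?_, ?_, ?_, ?_⟩
  · have h1 := (hcoord (q (Φ.St (-T) (s₂ x) v₂))).1.trans (hqρ _ hvW').le
    have h2 := (hcoord (q (Φ.St T (-(s₁ x)) v₁))).1.trans (hqρ _ hvW).le
    have h3 := abs_sub (q (Φ.St (-T) (s₂ x) v₂)).1 (q (Φ.St T (-(s₁ x)) v₁)).1
    linarith
  · unfold GFlow.Xi
    simp only
    rw [hφ, (St_add P Φ T (s₁ x) (-(s₁ x)) v₁).1, (St_add P Φ (-T) (-(s₂ x)) (s₂ x) v₂).1,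
      add_neg_cancel, neg_add_cancel, (St_add P Φ T 0 0 v₁).2, (St_add P Φ (-T) 0 0 v₂).2]
  · have h1 := (len_props P Φ hk T (by rw [abs_of_pos hT0]; exact hT1) v₁ (hWS hv₁W)
      (-(s₁ x))).1
    rw [neg_neg] at h1
    rw [h1]
    unfold GFlow.len
    have h2 : ∫ s in (0 : ℝ)..(-(s₁ x)), Φ.J T (Φ.St T s v₁)
        = -∫ s in (0 : ℝ)..(s₁ x), Φ.J T (Φ.St T (-s) v₁) := by
      rw [intervalIntegral.integral_comp_neg (fun s => Φ.J T (Φ.St T s v₁)), neg_zero,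
        intervalIntegral.integral_symm]
    rw [h2, abs_neg]
    have h3 := cr_int hC1 (j := fun s => Φ.J T (Φ.St T (-s) v₁))
      ((cr_J_cont P Φ T v₁ (hWS hv₁W)).comp continuous_neg)
      (fun s _ => by linarith [(J_pos P Φ hk T hT0 _ (hS1 s)).1]) hj1 hu₁
    refine h3.trans ?_
    simp only [e10, ha₁]
    have h4 := abs_sub x (q v₁).2.1
    have h5 := i1.2.1
    linarith
  · rw [hφ]
    have hT' : (1 : ℝ) ≤ |-T| := by rw [abs_neg, abs_of_pos hT0]; exact hT1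
    have h1 := (len_props P Φ hk (-T) hT' v₂ (hWS hv₂W) (s₂ x)).1
    rw [h1]
    unfold GFlow.len
    have h2 : ∫ s in (0 : ℝ)..(s₂ x), Φ.J (-T) (Φ.St (-T) s v₂)
        = -∫ s in (0 : ℝ)..(s₂ x), -Φ.J (-T) (Φ.St (-T) s v₂) := by
      rw [intervalIntegral.integral_neg, neg_neg]
    rw [h2, abs_neg]
    have h3 := cr_int hC2 (j := fun s => -Φ.J (-T) (Φ.St (-T) s v₂))
      (cr_J_cont P Φ (-T) v₂ (hWS hv₂W)).neg
      (fun s _ => by linarith [(J_pos P Φ hk T hT0 _ (hS2 s)).2.2.1]) hj2 hu₂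
    refine h3.trans ?_
    simp only [e20, ha₂]
    have h4 := abs_sub x (q v₂).2.1
    have h5 := i2.2.1
    linarith

end

end Pool.Agent.EQ

namespace Pool.Agent.EQ

open MeasureTheory Filter Topology Set
open scoped ContDiff ENNReal

noncomputable section

theorem cross (P : Pres) (Φ : GFlow P) (hk : ∀ z ∈ P.Ω, 0 ≤ kk P.u z) (κ : ℝ)
    (hκ : 1 ≤ κ) (hk2 : ∀ z ∈ P.Ω, kk P.u z ≤ κ ^ 2) (v₀ : ℂ × ℝ) (hv₀ : v₀ ∈ P.S)
    (h0 : 0 < kk P.u v₀.1) (N : Set (ℂ × ℝ)) (hN : N ∈ 𝓝 v₀) (hNS : N ⊆ P.S) (δ : ℝ)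
    (hδ : 0 < δ) : ∃ O : Set (ℂ × ℝ), IsOpen O ∧ v₀ ∈ O ∧ O ⊆ N ∧ ∃ T₀ : ℝ, 3 ≤ T₀ ∧
      ∀ T, T₀ ≤ T → ∀ v₁ ∈ O, ∀ v₂ ∈ O, ∃ (v : ℂ × ℝ) (b₁ b₂ t : ℝ), v ∈ N ∧ Φ.φ t v ∈ N ∧
        |t| ≤ δ ∧ Φ.Xi T (v, b₁, b₂, t) = (v₁, v₂) ∧
        Φ.len T b₁ v ≤ δ ∧ Φ.len (-T) b₂ (Φ.φ t v) ≤ δ := by
  first
    | exact cross_pr ..
    | (apply cross_pr <;> assumption)

end

end Pool.Agent.EQ

end

/-! ## Lib_helper71.EQ.D.JS -/

section

set_option autoImplicit false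

namespace Pool.Agent.EQ

open MeasureTheory Filter Topology Set
open scoped ContDiff ENNReal

noncomputable section

theorem js_B_ge (P : Pres) (Φ : GFlow P) (hk : ∀ z ∈ P.Ω, 0 ≤ kk P.u z) (s : ℝ) (hs : 0 < s)
    (w : ℂ × ℝ) (hw : w ∈ P.S) : s ≤ Φ.B s w ∧ 1 ≤ Φ.B' s w := by
  have h := J_pos P Φ hk s hs (Φ.φ s w) (Φ.mem s w hw)
  have e : Φ.φ (-s) (Φ.φ s w) = w := by
    rw [← Φ.add, neg_add_cancel, Φ.zero]
  unfold GFlow.J GFlow.J' at h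
  rw [neg_neg, e, neg_neg] at h
  exact ⟨h.2.2.1, h.2.2.2⟩

theorem js_B_ric (P : Pres) (Φ : GFlow P) (hk : ∀ z ∈ P.Ω, 0 ≤ kk P.u z) (κ : ℝ) (hκ : 1 ≤ κ)
    (hk2 : ∀ z ∈ P.Ω, kk P.u z ≤ κ ^ 2) (s : ℝ) (hs : 1 ≤ s) (w : ℂ × ℝ) (hw : w ∈ P.S) :
    Φ.B' s w ≤ (κ + 1) * Φ.B s w := by
  have h := (J_ric P Φ hk κ hκ hk2 s hs (Φ.φ s w) (Φ.mem s w hw)).2
  have e : Φ.φ (-s) (Φ.φ s w) = w := by
    rw [← Φ.add, neg_add_cancel, Φ.zero]
  unfold GFlow.J GFlow.J' at h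
  rw [neg_neg, e, neg_neg] at h
  exact h

/-- JS : shift of the base time of the unstable Jacobi solution -/
theorem J_shift_pr (P : Pres) (Φ : GFlow P) (hk : ∀ z ∈ P.Ω, 0 ≤ kk P.u z) (κ : ℝ) (hκ : 1 ≤ κ)
    (hk2 : ∀ z ∈ P.Ω, kk P.u z ≤ κ ^ 2) (T t : ℝ) (hT : 2 ≤ T) (ht : |t| ≤ 1) (v : ℂ × ℝ)
    (hv : v ∈ P.S) :
    -Φ.J (t - T) v ≤ Real.exp (κ + 1) * -Φ.J (-T) (Φ.φ t v) ∧
      0 < -Φ.J (t - T) v ∧ Φ.J' (t - T) v ≤ (κ + 1) * -Φ.J (t - T) v := by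
  obtain ⟨ht1, ht2⟩ := abs_le.1 ht
  have hTt : 1 ≤ T - t := by linarith
  have e1 : t - T = -(T - t) := by ring
  have hpos := (J_pos P Φ hk (T - t) (by linarith) v hv).2.2.1
  have hric := (J_ric P Φ hk κ hκ hk2 (T - t) hTt v hv).2
  refine ⟨?_, by rw [e1]; linarith, by rw [e1]; exact hric⟩
  set w := Φ.φ (t - T) v with hw
  have hwS : w ∈ P.S := Φ.mem _ v hv
  have h1 : -Φ.J (t - T) v = Φ.B (T - t) w := by
    unfold GFlow.J
    rw [neg_neg, neg_sub]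
  have h2 : -Φ.J (-T) (Φ.φ t v) = Φ.B T w := by
    unfold GFlow.J
    rw [neg_neg, neg_neg, ← Φ.add, hw]
    congr 2
    ring
  rw [h1, h2]
  have hBT : 0 < Φ.B T w := by linarith [(js_B_ge P Φ hk T (by linarith) w hwS).1]
  rcases le_total 0 t with h0 | h0
  · -- `B` is nondecreasing
    have hmono : MonotoneOn (fun s => Φ.B s w) (Ici 1) := by
      apply monotoneOn_of_deriv_nonneg (convex_Ici 1)
      · exact fun s _ => (Φ.hB s w hwS).continuousAt.continuousWithinAt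
      · exact fun s _ => (Φ.hB s w hwS).differentiableAt.differentiableWithinAt
      · intro s hs
        rw [interior_Ici, mem_Ioi] at hs
        rw [(Φ.hB s w hwS).deriv]
        linarith [(js_B_ge P Φ hk s (by linarith) w hwS).2]
    have h3 : Φ.B (T - t) w ≤ Φ.B T w :=
      hmono (mem_Ici.2 hTt) (mem_Ici.2 (by linarith)) (by linarith)
    have h4 : 1 ≤ Real.exp (κ + 1) := Real.one_le_exp (by linarith)
    nlinarith
  · have hanti : AntitoneOn (fun s => Φ.B s w * Real.exp (-((κ + 1) * s))) (Ici 1) := by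
      have hd : ∀ s, HasDerivAt (fun s => Φ.B s w * Real.exp (-((κ + 1) * s)))
          (Φ.B' s w * Real.exp (-((κ + 1) * s)) +
            Φ.B s w * (Real.exp (-((κ + 1) * s)) * (-((κ + 1) * 1)))) s := by
        intro s
        exact (Φ.hB s w hwS).mul (((hasDerivAt_id s).const_mul (κ + 1)).neg.exp)
      apply antitoneOn_of_deriv_nonpos (convex_Ici 1)
      · exact fun s _ => (hd s).continuousAt.continuousWithinAt
      · exact fun s _ => (hd s).differentiableAt.differentiableWithinAt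
      · intro s hs
        rw [interior_Ici, mem_Ioi] at hs
        rw [(hd s).deriv]
        have h5 := js_B_ric P Φ hk κ hκ hk2 s hs.le w hwS
        have h6 := Real.exp_pos (-((κ + 1) * s))
        nlinarith
    have h3 := hanti (mem_Ici.2 (by linarith : (1 : ℝ) ≤ T)) (mem_Ici.2 hTt) (by linarith)
    simp only at h3
    have h7 : Φ.B (T - t) w ≤ Φ.B T w * (Real.exp (-((κ + 1) * T)) *
        Real.exp ((κ + 1) * (T - t))) := by
      have h8 : 0 < Real.exp ((κ + 1) * (T - t)) := Real.exp_pos _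
      have h9 := mul_le_mul_of_nonneg_right h3 h8.le
      have h10 : Φ.B (T - t) w * Real.exp (-((κ + 1) * (T - t))) * Real.exp ((κ + 1) * (T - t))
          = Φ.B (T - t) w := by
        rw [mul_assoc, ← Real.exp_add, neg_add_cancel, Real.exp_zero, mul_one]
      rw [h10] at h9
      linarith
    refine h7.trans ?_
    rw [← Real.exp_add, mul_comm]
    apply mul_le_mul_of_nonneg_right _ hBT.le
    apply Real.exp_le_exp.2
    nlinarith

end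

end Pool.Agent.EQ

namespace Pool.Agent.EQ

open MeasureTheory Filter Topology Set
open scoped ContDiff ENNReal

noncomputable section

theorem J_shift (P : Pres) (Φ : GFlow P) (hk : ∀ z ∈ P.Ω, 0 ≤ kk P.u z) (κ : ℝ) (hκ : 1 ≤ κ)
    (hk2 : ∀ z ∈ P.Ω, kk P.u z ≤ κ ^ 2) (T t : ℝ) (hT : 2 ≤ T) (ht : |t| ≤ 1) (v : ℂ × ℝ)
    (hv : v ∈ P.S) :
    -Φ.J (t - T) v ≤ Real.exp (κ + 1) * -Φ.J (-T) (Φ.φ t v) ∧
      0 < -Φ.J (t - T) v ∧ Φ.J' (t - T) v ≤ (κ + 1) * -Φ.J (t - T) v := by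
  first
    | exact J_shift_pr ..
    | (apply J_shift_pr <;> assumption)

end

end Pool.Agent.EQ

end

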