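import Mathlib

/-! Project EQ (MP_ed6ab2_an): merged modules Lib_helper67.EQ.Spec, Lib_helper67.EQ.Branch, Lib_helper67.EQ.Final. -/

set_option autoImplicit false

/-! ## Lib_helper67.EQ.Spec -/

section

/-! Spectral theorem for a pair of symmetric forms `E ≥ 0`, `b > 0` on a real vector space which is
complete for `E + b` and such that `b` is compact with respect to `E + b`. -/

open Filter Topology Set

namespace Pool.Agent.EQ.Abs

variable {V : Type*} [AddCommGroup V] [Module ℝ V]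

/-! ### symmetric nonnegative forms -/

theorem form_add (b : V →ₗ[ℝ] V →ₗ[ℝ] ℝ) (bs : ∀ u v, b u v = b v u) (u v : V) :
    b (u + v) (u + v) = b u u + 2 * b u v + b v v := by
  simp only [map_add, LinearMap.add_apply]
  rw [bs v u]
  ring

theorem form_sub (b : V →ₗ[ℝ] V →ₗ[ℝ] ℝ) (bs : ∀ u v, b u v = b v u) (u v : V) :
    b (u - v) (u - v) = b u u - 2 * b u v + b v v := by
  simp only [map_sub, LinearMap.sub_apply]
  rw [bs v u]
  ring

theorem form_smul (b : V →ₗ[ℝ] V →ₗ[ℝ] ℝ) (t : ℝ) (u : V) :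
    b (t • u) (t • u) = t ^ 2 * b u u := by
  simp only [map_smul, LinearMap.smul_apply, smul_eq_mul]
  ring

theorem form_add_smul (b : V →ₗ[ℝ] V →ₗ[ℝ] ℝ) (bs : ∀ u v, b u v = b v u) (t : ℝ) (u v : V) :
    b (u + t • v) (u + t • v) = b u u + 2 * t * b u v + t ^ 2 * b v v := by
  rw [form_add b bs, form_smul]
  simp only [map_smul, smul_eq_mul]
  ring

theorem form_cs (b : V →ₗ[ℝ] V →ₗ[ℝ] ℝ) (bs : ∀ u v, b u v = b v u) (bp : ∀ v, 0 ≤ b v v)
    (u v : V) : (b u v) ^ 2 ≤ b u u * b v v := by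
  have h : ∀ t : ℝ, 0 ≤ b u u + 2 * t * b u v + t ^ 2 * b v v := by
    intro t
    rw [← form_add_smul b bs]
    exact bp _
  rcases (bp v).eq_or_lt with h0 | h0
  · rw [← h0] at h ⊢
    have hz : b u v = 0 := by
      by_contra hne
      have := h (-(b u u + 1) / (2 * b u v))
      have e : 2 * (-(b u u + 1) / (2 * b u v)) * b u v = -(b u u + 1) := by
        field_simp
      rw [e] at this
      nlinarith
    rw [hz]; simp
  · have := h (-(b u v) / b v v)
    have e : b u u + 2 * (-(b u v) / b v v) * b u v + (-(b u v) / b v v) ^ 2 * b v v =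
        b u u - (b u v) ^ 2 / b v v := by
      field_simp
      ring
    rw [e, sub_nonneg, div_le_iff₀ h0] at this
    exact this

theorem form_abs_le (b : V →ₗ[ℝ] V →ₗ[ℝ] ℝ) (bs : ∀ u v, b u v = b v u) (bp : ∀ v, 0 ≤ b v v)
    (u v : V) : |b u v| ≤ √(b u u) * √(b v v) := by
  rw [← Real.sqrt_mul (bp u)]
  exact Real.abs_le_sqrt (form_cs b bs bp u v)

theorem form_tendsto (b : V →ₗ[ℝ] V →ₗ[ℝ] ℝ) (bs : ∀ u v, b u v = b v u) (bp : ∀ v, 0 ≤ b v v)
    (x : ℕ → V) (hx : Tendsto (fun n => b (x n) (x n)) atTop (𝓝 0)) (f : V) :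
    Tendsto (fun n => b (x n) f) atTop (𝓝 0) := by
  have h1 : Tendsto (fun n => √(b (x n) (x n)) * √(b f f)) atTop (𝓝 0) := by
    have := (Real.continuous_sqrt.tendsto 0).comp hx
    rw [Real.sqrt_zero] at this
    simpa using this.mul_const (√(b f f))
  rw [tendsto_zero_iff_abs_tendsto_zero]
  exact squeeze_zero (fun n => abs_nonneg _) (fun n => form_abs_le b bs bp _ _) h1

theorem form_tendsto_self (b : V →ₗ[ℝ] V →ₗ[ℝ] ℝ) (bs : ∀ u v, b u v = b v u)
    (bp : ∀ v, 0 ≤ b v v) (x : ℕ → V) (v : V)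
    (hx : Tendsto (fun n => b (x n - v) (x n - v)) atTop (𝓝 0)) :
    Tendsto (fun n => b (x n) (x n)) atTop (𝓝 (b v v)) := by
  have h1 := form_tendsto b bs bp (fun n => x n - v) hx v
  have h2 : Tendsto (fun n => b (x n - v) (x n - v) + 2 * b (x n - v) v + b v v) atTop
      (𝓝 (0 + 2 * 0 + b v v)) := (hx.add (h1.const_mul 2)).add_const _
  have h3 : (fun n => b (x n) (x n)) =
      fun n => b (x n - v) (x n - v) + 2 * b (x n - v) v + b v v := by
    funext n
    rw [← form_add b bs, sub_add_cancel]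
  rw [h3]
  simpa using h2

/-! ### the hypotheses -/

/-- `E ≥ 0`, `b > 0`, complete for `E + b`, `b` compact -/
structure Pair (E b : V →ₗ[ℝ] V →ₗ[ℝ] ℝ) : Prop where
  Es : ∀ u v, E u v = E v u
  bs : ∀ u v, b u v = b v u
  Ep : ∀ v, 0 ≤ E v v
  bp : ∀ v, v ≠ 0 → 0 < b v v
  comp : ∀ u : ℕ → V,
    (∀ ε > 0, ∃ N, ∀ m ≥ N, ∀ n ≥ N, E (u m - u n) (u m - u n) + b (u m - u n) (u m - u n) < ε) →
      ∃ v, Tendsto (fun n => E (u n - v) (u n - v) + b (u n - v) (u n - v)) atTop (𝓝 0)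
  cpt : ∀ u : ℕ → V, (∀ n, E (u n) (u n) + b (u n) (u n) ≤ 1) → ∃ φ : ℕ → ℕ, StrictMono φ ∧
    ∀ ε > 0, ∃ N, ∀ m ≥ N, ∀ n ≥ N, b (u (φ m) - u (φ n)) (u (φ m) - u (φ n)) < ε

/-- sequentially closed subspaces -/
def SC (E b : V →ₗ[ℝ] V →ₗ[ℝ] ℝ) (F : Submodule ℝ V) : Prop :=
  ∀ u : ℕ → V, (∀ n, u n ∈ F) → ∀ v,
    Tendsto (fun n => E (u n - v) (u n - v) + b (u n - v) (u n - v)) atTop (𝓝 0) → v ∈ F

/-- `ψ` minimises `E` on the unit sphere of `F` -/
def Mini (E b : V →ₗ[ℝ] V →ₗ[ℝ] ℝ) (F : Submodule ℝ V) (ψ : V) : Prop :=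
  ψ ∈ F ∧ b ψ ψ = 1 ∧ ∀ v ∈ F, E ψ ψ * b v v ≤ E v v

section

variable {E b : V →ₗ[ℝ] V →ₗ[ℝ] ℝ}

theorem Pair.bp0 (h : Pair E b) (v : V) : 0 ≤ b v v := by
  by_cases hv : v = 0
  · rw [hv]; simp
  · exact (h.bp v hv).le

theorem Pair.split (h : Pair E b) {x : ℕ → V} {v : V}
    (hx : Tendsto (fun n => E (x n - v) (x n - v) + b (x n - v) (x n - v)) atTop (𝓝 0)) :
    Tendsto (fun n => E (x n - v) (x n - v)) atTop (𝓝 0) ∧
      Tendsto (fun n => b (x n - v) (x n - v)) atTop (𝓝 0) :=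
  ⟨squeeze_zero (fun n => h.Ep _) (fun n => le_add_of_nonneg_right (h.bp0 _)) hx,
    squeeze_zero (fun n => h.bp0 _) (fun n => le_add_of_nonneg_left (h.Ep _)) hx⟩

theorem exists_mini (h : Pair E b) (F : Submodule ℝ V) (hF : SC E b F) (hne : F ≠ ⊥) :
    ∃ ψ, Mini E b F ψ := by
  -- the infimum
  let S : Set ℝ := {t | ∃ v ∈ F, b v v = 1 ∧ E v v = t}
  have hSne : S.Nonempty := by
    obtain ⟨v, hv, hv0⟩ := Submodule.exists_mem_ne_zero_of_ne_bot hne
    have hb := h.bp v hv0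
    refine ⟨_, (√(b v v))⁻¹ • v, F.smul_mem _ hv, ?_, rfl⟩
    rw [form_smul, inv_pow, Real.sq_sqrt hb.le, inv_mul_cancel₀ hb.ne']
  have hSb : BddBelow S := ⟨0, by rintro _ ⟨v, _, _, rfl⟩; exact h.Ep v⟩
  set m := sInf S with hm
  have hm0 : 0 ≤ m := le_csInf hSne (by rintro _ ⟨v, _, _, rfl⟩; exact h.Ep v)
  have hmin : ∀ v ∈ F, m * b v v ≤ E v v := by
    intro v hv
    by_cases hv0 : v = 0
    · rw [hv0]; simp
    · have hb := h.bp v hv0
      have h1 : m ≤ E ((√(b v v))⁻¹ • v) ((√(b v v))⁻¹ • v) := by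
        refine csInf_le hSb ⟨_, F.smul_mem _ hv, ?_, rfl⟩
        rw [form_smul, inv_pow, Real.sq_sqrt hb.le, inv_mul_cancel₀ hb.ne']
      rw [form_smul, inv_pow, Real.sq_sqrt hb.le, inv_mul_eq_div, le_div_iff₀ hb] at h1
      exact h1
  -- minimising sequence
  have hex : ∀ n : ℕ, ∃ v ∈ F, b v v = 1 ∧ E v v < m + 1 / ((n : ℝ) + 1) := by
    intro n
    obtain ⟨t, ⟨v, hv, hb, rfl⟩, ht⟩ := exists_lt_of_csInf_lt hSne
      (by rw [← hm]; exact lt_add_of_pos_right m (by positivity : (0:ℝ) < 1 / ((n : ℝ) + 1)))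
    exact ⟨v, hv, hb, ht⟩
  choose v hvF hvb hvE using hex
  have hm2 : 0 < m + 2 := by linarith
  obtain ⟨φ, hφ, hcau⟩ := h.cpt (fun n => (√(m + 2))⁻¹ • v n) (by
    intro n
    rw [form_smul, form_smul, inv_pow, Real.sq_sqrt hm2.le, hvb, ← mul_add, inv_mul_eq_div,
      div_le_one hm2]
    have h1 : 1 / ((n : ℝ) + 1) ≤ 1 := by
      rw [div_le_one (by positivity)]
      have : (0:ℝ) ≤ n := n.cast_nonneg
      linarith
    linarith [hvE n])
  have hcau' : ∀ ε > 0, ∃ N, ∀ k ≥ N, ∀ n ≥ N,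
      b (v (φ k) - v (φ n)) (v (φ k) - v (φ n)) < ε := by
    intro ε hε
    obtain ⟨N, hN⟩ := hcau (ε / (m + 2)) (div_pos hε hm2)
    refine ⟨N, fun k hk n hn => ?_⟩
    have h1 := hN k hk n hn
    rw [← smul_sub, form_smul, inv_pow, Real.sq_sqrt hm2.le, inv_mul_eq_div,
      div_lt_div_iff_of_pos_right hm2] at h1
    exact h1
  have hEcau : ∀ k n, E (v (φ k) - v (φ n)) (v (φ k) - v (φ n)) ≤
      2 / ((φ k : ℝ) + 1) + 2 / ((φ n : ℝ) + 1) +
        m * b (v (φ k) - v (φ n)) (v (φ k) - v (φ n)) := by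
    intro k n
    have h1 := hmin _ (F.add_mem (hvF (φ k)) (hvF (φ n)))
    rw [form_add b h.bs, form_add E h.Es, hvb, hvb] at h1
    rw [form_sub E h.Es, form_sub b h.bs, hvb, hvb]
    have h2 := hvE (φ k)
    have h3 := hvE (φ n)
    have e1 : 2 / ((φ k : ℝ) + 1) = 2 * (1 / ((φ k : ℝ) + 1)) := by ring
    have e2 : 2 / ((φ n : ℝ) + 1) = 2 * (1 / ((φ n : ℝ) + 1)) := by ring
    rw [e1, e2]
    nlinarith
  obtain ⟨ψ, hψ⟩ := h.comp (fun n => v (φ n)) (by
    intro ε hε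
    obtain ⟨N1, hN1⟩ := hcau' (ε / (2 * (m + 1))) (by positivity)
    obtain ⟨N2, hN2⟩ := exists_nat_gt (8 / ε)
    refine ⟨max N1 N2, fun k hk n hn => ?_⟩
    have hk1 := hN1 k ((le_max_left _ _).trans hk) n ((le_max_left _ _).trans hn)
    have hb : ∀ j, j ≥ max N1 N2 → 2 / ((φ j : ℝ) + 1) < ε / 4 := by
      intro j hj
      have h1 : (N2 : ℝ) ≤ φ j := by
        exact_mod_cast ((le_max_right _ _).trans hj).trans (hφ.id_le j)
      have h2 : 8 / ε < (φ j : ℝ) + 1 := by linarith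
      rw [div_lt_iff₀ hε] at h2
      rw [div_lt_iff₀ (by positivity)]
      nlinarith
    have h3 := hEcau k n
    have h4 := hb k hk
    have h5 := hb n hn
    have h6 : (m + 1) * b (v (φ k) - v (φ n)) (v (φ k) - v (φ n)) < ε / 2 := by
      have := mul_lt_mul_of_pos_left hk1 (by linarith : (0:ℝ) < m + 1)
      have e : (m + 1) * (ε / (2 * (m + 1))) = ε / 2 := by
        field_simp
      rwa [e] at this
    linarith)
  obtain ⟨hψE, hψb⟩ := h.split hψ
  have hb1 : b ψ ψ = 1 := by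
    have h1 := form_tendsto_self b h.bs h.bp0 _ ψ hψb
    refine tendsto_nhds_unique h1 ?_
    simp only [hvb]
    exact tendsto_const_nhds
  have hE1 : E ψ ψ ≤ m := by
    have h1 := form_tendsto_self E h.Es h.Ep _ ψ hψE
    refine le_of_tendsto_of_tendsto h1
      (?_ : Tendsto (fun n : ℕ => m + 1 / ((φ n : ℝ) + 1)) atTop (𝓝 m))
      (Eventually.of_forall fun n => (hvE (φ n)).le)
    have h2 : Tendsto (fun n : ℕ => 1 / ((φ n : ℝ) + 1)) atTop (𝓝 0) :=
      tendsto_one_div_add_atTop_nhds_zero_nat.comp hφ.tendsto_atTop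
    simpa using h2.const_add m
  refine ⟨ψ, hF _ (fun n => hvF (φ n)) ψ hψ, hb1, fun w hw => ?_⟩
  exact (mul_le_mul_of_nonneg_right hE1 (h.bp0 w)).trans (hmin w hw)

theorem Mini.el (h : Pair E b) {F : Submodule ℝ V} {ψ : V} (hψ : Mini E b F ψ) (f : V)
    (hf : f ∈ F) : E ψ f = E ψ ψ * b ψ f := by
  obtain ⟨h1, h2, h3⟩ := hψ
  have hq : ∀ t : ℝ, 0 ≤ 2 * t * (E ψ f - E ψ ψ * b ψ f) + t ^ 2 * (E f f - E ψ ψ * b f f) := by
    intro t
    have h4 := h3 _ (F.add_mem h1 (F.smul_mem t hf))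
    rw [form_add_smul b h.bs, form_add_smul E h.Es, h2] at h4
    nlinarith
  have hy : 0 ≤ E f f - E ψ ψ * b f f := sub_nonneg.2 (h3 f hf)
  set x := E ψ f - E ψ ψ * b ψ f with hx
  set y := E f f - E ψ ψ * b f f
  have h5 := hq (-x / (y + 1))
  have e : 2 * (-x / (y + 1)) * x + (-x / (y + 1)) ^ 2 * y = -(x ^ 2 * (y + 2)) / (y + 1) ^ 2 := by
    have : y + 1 ≠ 0 := by positivity
    field_simp
    ring
  rw [e, le_div_iff₀ (by positivity), zero_mul] at h5
  have h6 : x ^ 2 * (y + 2) = 0 := le_antisymm (by linarith) (by positivity)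
  have h7 : x = 0 := by
    rcases mul_eq_zero.1 h6 with h8 | h8
    · exact pow_eq_zero_iff (two_ne_zero) |>.1 h8
    · linarith
  linarith

theorem sc_inf (h : Pair E b) {F : Submodule ℝ V} (hF : SC E b F) (ψ : V) :
    SC E b (F ⊓ LinearMap.ker (b ψ)) := by
  intro u hu v hv
  refine ⟨hF u (fun n => (hu n).1) v hv, ?_⟩
  have h1 := form_tendsto b h.bs h.bp0 (fun n => u n - v) (h.split hv).2 ψ
  have h2 : (fun n => b (u n - v) ψ) = fun _ => -(b v ψ) := by
    funext n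
    have h3 : b ψ (u n) = 0 := (hu n).2
    rw [map_sub, LinearMap.sub_apply, h.bs (u n) ψ, h3, zero_sub]
  rw [h2] at h1
  have h4 := tendsto_nhds_unique tendsto_const_nhds h1
  show b ψ v = 0
  rw [h.bs]
  linarith

theorem inf_infinite {F : Submodule ℝ V} (hF : ¬ FiniteDimensional ℝ F) {ψ : V} (hψ : ψ ∈ F)
    (h1 : b ψ ψ = 1) : ¬ FiniteDimensional ℝ (F ⊓ LinearMap.ker (b ψ) : Submodule ℝ V) := by
  intro hfin
  apply hF
  have hle : F ≤ (F ⊓ LinearMap.ker (b ψ)) ⊔ Submodule.span ℝ {ψ} := by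
    intro f hf
    have e : f = (f - (b ψ f) • ψ) + (b ψ f) • ψ := by simp
    rw [e]
    refine Submodule.add_mem_sup ⟨F.sub_mem hf (F.smul_mem _ hψ), ?_⟩
      (Submodule.smul_mem _ _ (Submodule.mem_span_singleton_self ψ))
    show b ψ (f - (b ψ f) • ψ) = 0
    rw [map_sub, map_smul, h1, smul_eq_mul, mul_one, sub_self]
  have : FiniteDimensional ℝ (Submodule.span ℝ {ψ} : Submodule ℝ V) :=
    FiniteDimensional.span_singleton ℝ ψ
  have : FiniteDimensional ℝ ((F ⊓ LinearMap.ker (b ψ)) ⊔ Submodule.span ℝ {ψ} : Submodule ℝ V) :=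
    Submodule.finiteDimensional_sup _ _
  exact Submodule.finiteDimensional_of_le hle

open Classical in
/-- a minimiser -/
noncomputable def pick (E b : V →ₗ[ℝ] V →ₗ[ℝ] ℝ) (F : Submodule ℝ V) : V :=
  if h : ∃ ψ, Mini E b F ψ then h.choose else 0

/-- the decreasing sequence of subspaces -/
noncomputable def Fs (E b : V →ₗ[ℝ] V →ₗ[ℝ] ℝ) : ℕ → Submodule ℝ V
  | 0 => ⊤
  | n + 1 => Fs E b n ⊓ LinearMap.ker (b (pick E b (Fs E b n)))

theorem pick_mini (h : Pair E b) (F : Submodule ℝ V) (hF : SC E b F) (hne : F ≠ ⊥) :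
    Mini E b F (pick E b F) := by
  have h1 := exists_mini h F hF hne
  unfold pick
  rw [dif_pos h1]
  exact h1.choose_spec

theorem fs_spec (h : Pair E b) (hinf : ¬ FiniteDimensional ℝ V) (n : ℕ) :
    SC E b (Fs E b n) ∧ ¬ FiniteDimensional ℝ (Fs E b n) := by
  have hne : ∀ F : Submodule ℝ V, ¬ FiniteDimensional ℝ F → F ≠ ⊥ := by
    rintro F hF rfl
    exact hF (inferInstance : FiniteDimensional ℝ (⊥ : Submodule ℝ V))
  induction n with
  | zero =>
    refine ⟨fun u _ v _ => Submodule.mem_top, fun hfin => hinf ?_⟩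
    have hfin' : FiniteDimensional ℝ (⊤ : Submodule ℝ V) := hfin
    exact (Submodule.topEquiv (R := ℝ) (M := V)).finiteDimensional
  | succ n ih =>
    have hp := pick_mini h _ ih.1 (hne _ ih.2)
    exact ⟨sc_inf h ih.1 _, inf_infinite ih.2 hp.1 hp.2.1⟩

theorem fs_mini (h : Pair E b) (hinf : ¬ FiniteDimensional ℝ V) (n : ℕ) :
    Mini E b (Fs E b n) (pick E b (Fs E b n)) := by
  have h1 := fs_spec h hinf n
  refine pick_mini h _ h1.1 ?_
  intro he
  apply h1.2
  rw [he]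
  exact (inferInstance : FiniteDimensional ℝ (⊥ : Submodule ℝ V))

theorem mem_fs (k : ℕ) (v : V) :
    v ∈ Fs E b k ↔ ∀ j < k, b (pick E b (Fs E b j)) v = 0 := by
  induction k with
  | zero => simp [Fs]
  | succ k ih =>
    rw [Fs, Submodule.mem_inf, ih, LinearMap.mem_ker]
    constructor
    · rintro ⟨h1, h2⟩ j hj
      rcases Nat.lt_succ_iff_lt_or_eq.1 hj with h3 | h3
      · exact h1 j h3
      · rw [h3]; exact h2
    · intro h1
      exact ⟨fun j hj => h1 j (by omega), h1 k (by omega)⟩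

/-- the spectral theorem -/
theorem spec (h : Pair E b) (hinf : ¬ FiniteDimensional ℝ V) :
    ∃ (μ : ℕ → ℝ) (ψ : ℕ → V), Monotone μ ∧ Tendsto μ atTop atTop ∧
      (∀ k f, E (ψ k) f = μ k * b (ψ k) f) ∧ (∀ i j, b (ψ i) (ψ j) = if i = j then 1 else 0) ∧
      (∀ k v, (∀ j < k, b (ψ j) v = 0) → μ k * b v v ≤ E v v) := by
  set ψ : ℕ → V := fun k => pick E b (Fs E b k) with hψ
  set μ : ℕ → ℝ := fun k => E (ψ k) (ψ k) with hμ
  have hM : ∀ k, Mini E b (Fs E b k) (ψ k) := fs_mini h hinf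
  have hmem : ∀ k v, v ∈ Fs E b k ↔ ∀ j < k, b (ψ j) v = 0 := mem_fs
  have horth : ∀ j k, j < k → b (ψ j) (ψ k) = 0 := fun j k hjk =>
    (hmem k (ψ k)).1 (hM k).1 j hjk
  have hon : ∀ i j, b (ψ i) (ψ j) = if i = j then 1 else 0 := by
    intro i j
    split_ifs with hij
    · rw [hij]; exact (hM j).2.1
    · rcases lt_or_gt_of_ne hij with h1 | h1
      · exact horth i j h1
      · rw [h.bs]; exact horth j i h1
  have hvar : ∀ k v, (∀ j < k, b (ψ j) v = 0) → μ k * b v v ≤ E v v := fun k v hv =>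
    (hM k).2.2 v ((hmem k v).2 hv)
  have hel : ∀ k f, E (ψ k) f = μ k * b (ψ k) f := by
    intro k
    induction k using Nat.strong_induction_on with
    | _ k ih =>
      intro f
      have hf' : f - ∑ j ∈ Finset.range k, (b (ψ j) f) • ψ j ∈ Fs E b k := by
        rw [hmem]
        intro i hi
        rw [map_sub, map_sum]
        simp only [map_smul, hon, smul_eq_mul, mul_ite, mul_one, mul_zero]
        rw [Finset.sum_ite_eq (Finset.range k) i, if_pos (Finset.mem_range.2 hi), sub_self]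
      have h1 := (hM k).el h _ hf'
      have h2 : ∀ j ∈ Finset.range k, E (ψ k) ((b (ψ j) f) • ψ j) = 0 := by
        intro j hj
        have hjk := Finset.mem_range.1 hj
        rw [map_smul, h.Es, ih j hjk, horth j k hjk, mul_zero, smul_zero]
      have h3 : ∀ j ∈ Finset.range k, b (ψ k) ((b (ψ j) f) • ψ j) = 0 := by
        intro j hj
        have hjk := Finset.mem_range.1 hj
        rw [map_smul, h.bs (ψ k) (ψ j), horth j k hjk, smul_zero]
      rw [map_sub, map_sub, map_sum, map_sum, Finset.sum_eq_zero h2, Finset.sum_eq_zero h3,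
        sub_zero, sub_zero] at h1
      exact h1
  have hmono : Monotone μ := by
    refine monotone_nat_of_le_succ (fun k => ?_)
    have h1 := hvar k (ψ (k + 1)) (fun j hj => horth j (k + 1) (by omega))
    rw [hon, if_pos rfl, mul_one] at h1
    exact h1
  refine ⟨μ, ψ, hmono, ?_, hel, hon, hvar⟩
  rcases tendsto_atTop_of_monotone hmono with h1 | ⟨l, h1⟩
  · exact h1
  · exfalso
    have hle : ∀ k, μ k ≤ l := fun k => hmono.ge_of_tendsto h1 k
    have hl0 : 0 ≤ l := (h.Ep (ψ 0)).trans (hle 0)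
    have hl1 : 0 < l + 1 := by linarith
    obtain ⟨φ, hφ, hc⟩ := h.cpt (fun n => (√(l + 1))⁻¹ • ψ n) (by
      intro n
      rw [form_smul, form_smul, inv_pow, Real.sq_sqrt hl1.le, hon, if_pos rfl, ← mul_add,
        inv_mul_eq_div, div_le_one hl1]
      have := hle n
      exact add_le_add_left this 1)
    obtain ⟨N, hN⟩ := hc (1 / (l + 1)) (by positivity)
    have h2 := hN N le_rfl (N + 1) (by omega)
    have hne : φ N ≠ φ (N + 1) := (hφ (Nat.lt_succ_self N)).ne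
    rw [← smul_sub, form_smul, form_sub b h.bs, hon, hon, hon, if_pos rfl, if_pos rfl, if_neg hne,
      inv_pow, Real.sq_sqrt hl1.le, inv_mul_eq_div, div_lt_div_iff_of_pos_right hl1] at h2
    linarith

end

end Pool.Agent.EQ.Abs

end

/-! ## Lib_helper67.EQ.Branch -/

section

/-! Branches of eigenvalues of a monotone family of forms: min-max, quasimodes, one-sided
derivative bound. -/

open Filter Topology Set

namespace Pool.Agent.EQ.Abs

variable {V : Type*} [AddCommGroup V] [Module ℝ V]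

/-- spectral data of a pair of forms -/
structure SD (E b : V →ₗ[ℝ] V →ₗ[ℝ] ℝ) (μ : ℕ → ℝ) (ψ : ℕ → V) : Prop where
  mono : Monotone μ
  top : Tendsto μ atTop atTop
  eig : ∀ k f, E (ψ k) f = μ k * b (ψ k) f
  on : ∀ i j, b (ψ i) (ψ j) = if i = j then 1 else 0
  var : ∀ k v, (∀ j < k, b (ψ j) v = 0) → μ k * b v v ≤ E v v

section

variable {E b : V →ₗ[ℝ] V →ₗ[ℝ] ℝ} {μ : ℕ → ℝ} {ψ : ℕ → V}

theorem sum_left (b : V →ₗ[ℝ] V →ₗ[ℝ] ℝ) (s : Finset ℕ) (c : ℕ → ℝ) (ψ : ℕ → V) (v : V) :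
    b (∑ i ∈ s, c i • ψ i) v = ∑ i ∈ s, c i * b (ψ i) v := by
  rw [map_sum, LinearMap.sum_apply]
  refine Finset.sum_congr rfl fun i _ => ?_
  rw [map_smul, LinearMap.smul_apply, smul_eq_mul]

theorem sum_right (b : V →ₗ[ℝ] V →ₗ[ℝ] ℝ) (s : Finset ℕ) (c : ℕ → ℝ) (ψ : ℕ → V) (v : V) :
    b v (∑ i ∈ s, c i • ψ i) = ∑ i ∈ s, c i * b v (ψ i) := by
  rw [map_sum]
  refine Finset.sum_congr rfl fun i _ => ?_
  rw [map_smul, smul_eq_mul]

theorem SD.b_left (h : SD E b μ ψ) (s : Finset ℕ) (c : ℕ → ℝ) (j : ℕ) :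
    b (ψ j) (∑ i ∈ s, c i • ψ i) = if j ∈ s then c j else 0 := by
  rw [sum_right]
  simp only [h.on, mul_ite, mul_one, mul_zero]
  rw [Finset.sum_ite_eq s j]

theorem SD.b_sum (h : SD E b μ ψ) (s t : Finset ℕ) (c d : ℕ → ℝ) :
    b (∑ i ∈ s, c i • ψ i) (∑ i ∈ t, d i • ψ i) = ∑ i ∈ s ∩ t, c i * d i := by
  classical
  rw [sum_left]
  simp only [h.b_left, mul_ite, mul_zero]
  rw [← Finset.sum_filter]
  rw [Finset.filter_mem_eq_inter]

theorem SD.e_sum (h : SD E b μ ψ) (s t : Finset ℕ) (c d : ℕ → ℝ) :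
    E (∑ i ∈ s, c i • ψ i) (∑ i ∈ t, d i • ψ i) = ∑ i ∈ s ∩ t, μ i * (c i * d i) := by
  classical
  rw [sum_left]
  simp only [h.eig, h.b_left, mul_ite, mul_zero]
  rw [← Finset.sum_filter, Finset.filter_mem_eq_inter]
  refine Finset.sum_congr rfl fun i _ => ?_
  ring

theorem exists_orth (b : V →ₗ[ℝ] V →ₗ[ℝ] ℝ) (ψ : ℕ → V) (W : Submodule ℝ V)
    (hW : FiniteDimensional ℝ W) (k : ℕ) (hk : k < Module.finrank ℝ W) :
    ∃ w ∈ W, w ≠ 0 ∧ ∀ j < k, b (ψ j) w = 0 := by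
  let L : W →ₗ[ℝ] (Fin k → ℝ) := LinearMap.pi fun j => (b (ψ j)).comp W.subtype
  have h1 : LinearMap.ker L ≠ ⊥ := by
    apply LinearMap.ker_ne_bot_of_finrank_lt
    rw [Module.finrank_fin_fun]
    exact hk
  obtain ⟨w, hw, hw0⟩ := Submodule.exists_mem_ne_zero_of_ne_bot h1
  refine ⟨w, w.2, fun h => hw0 (Subtype.ext h), fun j hj => ?_⟩
  have h2 : L w = 0 := hw
  have h3 := congrFun h2 ⟨j, hj⟩
  exact h3

/-- min-max, lower half -/
theorem SD.minmax (h : SD E b μ ψ) (W : Submodule ℝ V) (hW : FiniteDimensional ℝ W) (k : ℕ)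
    (hk : k < Module.finrank ℝ W) : ∃ w ∈ W, w ≠ 0 ∧ μ k * b w w ≤ E w w := by
  obtain ⟨w, hw, hw0, hj⟩ := exists_orth b ψ W hW k hk
  exact ⟨w, hw, hw0, h.var k w hj⟩

/-- the span of the first `k + 1` eigenvectors -/
def sp (ψ : ℕ → V) (k : ℕ) : Submodule ℝ V :=
  Submodule.span ℝ (Set.range fun j : Fin (k + 1) => ψ j)

instance (ψ : ℕ → V) (k : ℕ) : FiniteDimensional ℝ (sp ψ k) :=
  FiniteDimensional.span_of_finite ℝ (Set.finite_range _)

theorem SD.finrank_sp (h : SD E b μ ψ) (k : ℕ) : Module.finrank ℝ (sp ψ k) = k + 1 := by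
  have hli : LinearIndependent ℝ (fun j : Fin (k + 1) => ψ j) := by
    rw [Fintype.linearIndependent_iff]
    intro g hg i
    have h1 : b (ψ i) (∑ j : Fin (k + 1), g j • ψ j) = g i := by
      rw [map_sum]
      simp only [map_smul, h.on, smul_eq_mul, mul_ite, mul_one, mul_zero, Fin.val_inj]
      rw [Finset.sum_ite_eq Finset.univ i, if_pos (Finset.mem_univ i)]
    rw [← h1, hg, map_zero]
  unfold sp
  rw [finrank_span_eq_card hli, Fintype.card_fin]

theorem mem_sp (ψ : ℕ → V) (k : ℕ) (w : V) (hw : w ∈ sp ψ k) :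
    ∃ c : ℕ → ℝ, w = ∑ j ∈ Finset.range (k + 1), c j • ψ j := by
  unfold sp at hw
  rw [Submodule.mem_span_range_iff_exists_fun] at hw
  obtain ⟨c, hc⟩ := hw
  refine ⟨fun j => if hj : j < k + 1 then c ⟨j, hj⟩ else 0, ?_⟩
  rw [← hc, Finset.sum_range]
  refine Finset.sum_congr rfl fun j _ => ?_
  show c j • ψ j = (if hj : (j : ℕ) < k + 1 then c ⟨j, hj⟩ else 0) • ψ j
  rw [dif_pos j.2]

/-- min-max, upper half -/
theorem SD.le_sp (h : SD E b μ ψ) (k : ℕ) (w : V) (hw : w ∈ sp ψ k) : E w w ≤ μ k * b w w := by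
  obtain ⟨c, rfl⟩ := mem_sp ψ k w hw
  rw [h.e_sum, h.b_sum, Finset.inter_self, Finset.mul_sum]
  refine Finset.sum_le_sum fun j hj => ?_
  refine mul_le_mul_of_nonneg_right (h.mono ?_) (mul_self_nonneg _)
  have := Finset.mem_range.1 hj
  omega

/-! ### quasimodes -/

theorem SD.bessel_E (h : SD E b μ ψ) (hp : Pair E b) (v : V) (N : ℕ) :
    μ N * (b v v - ∑ k ∈ Finset.range N, (b (ψ k) v) ^ 2) ≤ E v v := by
  set c : ℕ → ℝ := fun k => b (ψ k) v with hc
  set w := v - ∑ k ∈ Finset.range N, c k • ψ k with hw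
  have h1 : ∀ j < N, b (ψ j) w = 0 := by
    intro j hj
    rw [hw, map_sub, h.b_left, if_pos (Finset.mem_range.2 hj), sub_self]
  have h2 := h.var N w h1
  have h3 : b w w = b v v - ∑ k ∈ Finset.range N, (b (ψ k) v) ^ 2 := by
    rw [hw, form_sub b hp.bs, h.b_sum, Finset.inter_self, sum_right]
    have e1 : ∑ i ∈ Finset.range N, c i * b v (ψ i) = ∑ k ∈ Finset.range N, (b (ψ k) v) ^ 2 := by
      refine Finset.sum_congr rfl fun i _ => ?_
      rw [hp.bs v (ψ i)]
      ring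
    have e2 : ∑ i ∈ Finset.range N, c i * c i = ∑ k ∈ Finset.range N, (b (ψ k) v) ^ 2 := by
      refine Finset.sum_congr rfl fun i _ => ?_
      ring
    rw [e1, e2]
    ring
  have h4 : E w w ≤ E v v := by
    rw [hw, form_sub E hp.Es, h.e_sum, Finset.inter_self, sum_right]
    have e1 : ∑ i ∈ Finset.range N, c i * E v (ψ i) =
        ∑ i ∈ Finset.range N, μ i * (c i * c i) := by
      refine Finset.sum_congr rfl fun i _ => ?_
      rw [hp.Es v (ψ i), h.eig]
      ring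
    rw [e1]
    have e3 : 0 ≤ ∑ i ∈ Finset.range N, μ i * (c i * c i) := by
      refine Finset.sum_nonneg fun i _ => mul_nonneg ?_ (mul_self_nonneg _)
      have := hp.Ep (ψ i)
      rw [h.eig, h.on, if_pos rfl, mul_one] at this
      exact this
    linarith
  rw [← h3]
  exact h2.trans h4

/-- a quasimode with error `κ` forces an eigenvalue in the closed window -/
theorem SD.quasimode (h : SD E b μ ψ) (hp : Pair E b) (v : V) (hv : v ≠ 0) (L κ : ℝ)
    (hκ : 0 ≤ κ) (hq : ∀ f, |E v f - L * b v f| ≤ κ * (√(b v v) * √(b f f))) :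
    ∃ k, |μ k - L| ≤ κ := by
  by_contra hcon
  push Not at hcon
  have hbv := hp.bp v hv
  -- uniform gap
  obtain ⟨N0, hN0⟩ := (h.top.eventually_ge_atTop (L + κ + 1)).exists_forall_of_atTop
  obtain ⟨κ', hκ', hgap⟩ : ∃ κ' > κ, ∀ k, κ' ≤ |μ k - L| := by
    rcases Nat.eq_zero_or_pos N0 with h0 | h0
    · refine ⟨κ + 1, by linarith, fun k => ?_⟩
      have := hN0 k (by omega)
      rw [abs_of_nonneg (by linarith)]
      linarith
    · obtain ⟨j, hj, hjm⟩ := Finset.exists_min_image (Finset.range N0) (fun k => |μ k - L|)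
        ⟨0, Finset.mem_range.2 h0⟩
      refine ⟨min (|μ j - L|) (κ + 1), lt_min (hcon j) (by linarith), fun k => ?_⟩
      rcases lt_or_ge k N0 with hk | hk
      · exact (min_le_left _ _).trans (hjm k (Finset.mem_range.2 hk))
      · have := hN0 k hk
        refine (min_le_right _ _).trans ?_
        rw [abs_of_nonneg (by linarith)]
        linarith
  have hκ'0 : 0 < κ' := lt_of_le_of_lt hκ hκ'
  -- partial sums
  have hpart : ∀ N, κ' ^ 2 * ∑ k ∈ Finset.range N, (b (ψ k) v) ^ 2 ≤ κ ^ 2 * b v v := by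
    intro N
    set c : ℕ → ℝ := fun k => b (ψ k) v with hc
    set T := ∑ k ∈ Finset.range N, (μ k - L) ^ 2 * (c k) ^ 2 with hT
    have hT0 : 0 ≤ T := Finset.sum_nonneg fun k _ => by positivity
    have h1 := hq (∑ k ∈ Finset.range N, ((μ k - L) * c k) • ψ k)
    have e1 : E v (∑ k ∈ Finset.range N, ((μ k - L) * c k) • ψ k) -
        L * b v (∑ k ∈ Finset.range N, ((μ k - L) * c k) • ψ k) = T := by
      rw [sum_right E _ (fun k => (μ k - L) * c k), sum_right b _ (fun k => (μ k - L) * c k),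
        Finset.mul_sum, ← Finset.sum_sub_distrib]
      refine Finset.sum_congr rfl fun k _ => ?_
      rw [hp.Es v (ψ k), h.eig, hp.bs v (ψ k)]
      ring
    have e2 : b (∑ k ∈ Finset.range N, ((μ k - L) * c k) • ψ k)
        (∑ k ∈ Finset.range N, ((μ k - L) * c k) • ψ k) = T := by
      rw [h.b_sum _ _ (fun k => (μ k - L) * c k) (fun k => (μ k - L) * c k), Finset.inter_self]
      refine Finset.sum_congr rfl fun k _ => ?_
      ring
    rw [e1, e2, abs_of_nonneg hT0] at h1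
    have h2 : T ≤ κ ^ 2 * b v v := by
      rcases hT0.eq_or_lt with h0 | h0
      · rw [← h0]; positivity
      · have hs : 0 < √T := Real.sqrt_pos.2 h0
        have h3 : √T * √T ≤ (κ * √(b v v)) * √T := by
          rw [Real.mul_self_sqrt hT0]
          linarith
        have h4 : √T ≤ κ * √(b v v) := le_of_mul_le_mul_right h3 hs
        have h5 : T = (√T) ^ 2 := (Real.sq_sqrt hT0).symm
        rw [h5]
        have h6 : κ ^ 2 * b v v = (κ * √(b v v)) ^ 2 := by
          rw [mul_pow, Real.sq_sqrt hbv.le]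
        rw [h6]
        exact pow_le_pow_left₀ hs.le h4 2
    refine le_trans ?_ h2
    rw [Finset.mul_sum]
    refine Finset.sum_le_sum fun k _ => mul_le_mul_of_nonneg_right ?_ (sq_nonneg _)
    have h7 := hgap k
    calc κ' ^ 2 ≤ |μ k - L| ^ 2 := pow_le_pow_left₀ hκ'0.le h7 2
      _ = (μ k - L) ^ 2 := sq_abs _
  -- limit
  have hgt : 0 < b v v * (κ' ^ 2 - κ ^ 2) := by
    refine mul_pos hbv (sub_pos.2 ?_)
    exact pow_lt_pow_left₀ hκ' hκ two_ne_zero
  obtain ⟨N, hN⟩ := (h.top.eventually_gt_atTop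
    (max 0 (κ' ^ 2 * E v v / (b v v * (κ' ^ 2 - κ ^ 2))))).exists
  have hμ0 : 0 < μ N := (le_max_left _ _).trans_lt hN
  have hμ1 := (le_max_right _ _).trans_lt hN
  rw [div_lt_iff₀ hgt] at hμ1
  have h8 := h.bessel_E hp v N
  have h9 := hpart N
  have h10 : κ' ^ 2 * (μ N * (b v v - ∑ k ∈ Finset.range N, (b (ψ k) v) ^ 2)) ≤
      κ' ^ 2 * E v v := mul_le_mul_of_nonneg_left h8 (by positivity)
  have h11 := mul_le_mul_of_nonneg_left h9 hμ0.le
  nlinarith

end

/-! ### the family -/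

/-- the forms `b0 + a b1` -/
def Ba (b0 b1 : V →ₗ[ℝ] V →ₗ[ℝ] ℝ) (a : ℝ) : V →ₗ[ℝ] V →ₗ[ℝ] ℝ := b0 + a • b1

theorem ba_apply (b0 b1 : V →ₗ[ℝ] V →ₗ[ℝ] ℝ) (a : ℝ) (u v : V) :
    Ba b0 b1 a u v = b0 u v + a * b1 u v := rfl

/-- hypotheses on the family -/
structure Fam (E b0 b1 : V →ₗ[ℝ] V →ₗ[ℝ] ℝ) (C : ℝ) : Prop where
  pair : Pair E b0
  b1s : ∀ u v, b1 u v = b1 v u
  b1p : ∀ v, 0 ≤ b1 v v
  hC : ∀ v, b1 v v ≤ C * b0 v v
  C0 : 0 ≤ C

section

variable {E b0 b1 : V →ₗ[ℝ] V →ₗ[ℝ] ℝ} {C : ℝ}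

theorem Fam.le_ba (h : Fam E b0 b1 C) {a : ℝ} (ha : 0 ≤ a) (v : V) :
    b0 v v ≤ Ba b0 b1 a v v := by
  rw [ba_apply]
  have := mul_nonneg ha (h.b1p v)
  linarith

theorem Fam.ba_le (h : Fam E b0 b1 C) {a : ℝ} (ha : 0 ≤ a) (v : V) :
    Ba b0 b1 a v v ≤ (1 + a * C) * b0 v v := by
  rw [ba_apply]
  have := mul_le_mul_of_nonneg_left (h.hC v) ha
  linarith

theorem Fam.mono_ba (h : Fam E b0 b1 C) {a a' : ℝ} (ha : a ≤ a') (v : V) :
    Ba b0 b1 a v v ≤ Ba b0 b1 a' v v := by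
  rw [ba_apply, ba_apply]
  have := mul_le_mul_of_nonneg_right ha (h.b1p v)
  linarith

theorem Fam.toPair (h : Fam E b0 b1 C) {a : ℝ} (ha : 0 ≤ a) : Pair E (Ba b0 b1 a) where
  Es := h.pair.Es
  bs u v := by rw [ba_apply, ba_apply, h.pair.bs u v, h.b1s u v]
  Ep := h.pair.Ep
  bp v hv := (h.pair.bp v hv).trans_le (h.le_ba ha v)
  comp u hu := by
    obtain ⟨v, hv⟩ := h.pair.comp u (by
      intro ε hε
      obtain ⟨N, hN⟩ := hu ε hε
      refine ⟨N, fun m hm n hn => lt_of_le_of_lt ?_ (hN m hm n hn)⟩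
      have := h.le_ba ha (u m - u n)
      linarith)
    refine ⟨v, ?_⟩
    have h1 : 0 ≤ a * C := mul_nonneg ha h.C0
    refine squeeze_zero (fun n => ?_) (fun n => ?_)
      (by simpa using hv.const_mul (1 + a * C) :
        Tendsto (fun n => (1 + a * C) * (E (u n - v) (u n - v) + b0 (u n - v) (u n - v))) atTop
          (𝓝 0))
    · have h2 := h.pair.Ep (u n - v)
      have h3 := h.le_ba ha (u n - v)
      have h4 := h.pair.bp0 (u n - v)
      linarith
    · have h2 := h.pair.Ep (u n - v)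
      have h3 := h.ba_le ha (u n - v)
      nlinarith [mul_nonneg h1 h2]
  cpt u hu := by
    obtain ⟨φ, hφ, hc⟩ := h.pair.cpt u (fun n => by
      have h1 := hu n
      have h2 := h.le_ba ha (u n)
      linarith)
    refine ⟨φ, hφ, fun ε hε => ?_⟩
    have h1 : 0 < 1 + a * C := by
      have := mul_nonneg ha h.C0
      linarith
    obtain ⟨N, hN⟩ := hc (ε / (1 + a * C)) (div_pos hε h1)
    refine ⟨N, fun m hm n hn => ?_⟩
    have h2 := hN m hm n hn
    rw [lt_div_iff₀ h1] at h2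
    have h3 := h.ba_le ha (u (φ m) - u (φ n))
    linarith

/-- the branches are nonincreasing -/
theorem Fam.branch_anti (h : Fam E b0 b1 C) {a a' : ℝ} (ha : 0 ≤ a) (haa : a ≤ a') {μ μ' : ℕ → ℝ}
    {ψ ψ' : ℕ → V} (hs : SD E (Ba b0 b1 a) μ ψ) (hs' : SD E (Ba b0 b1 a') μ' ψ') (k : ℕ) :
    μ' k ≤ μ k := by
  obtain ⟨w, hw, hw0, h1⟩ := hs'.minmax (sp ψ k) inferInstance k (by rw [hs.finrank_sp]; omega)
  have h2 := hs.le_sp k w hw
  have hp := (h.toPair ha).bp w hw0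
  have h3 := h.mono_ba haa w
  have hμ : 0 ≤ μ k := by
    have := h.pair.Ep (ψ k)
    rw [hs.eig, hs.on, if_pos rfl, mul_one] at this
    exact this
  have hμ' : 0 ≤ μ' k := by
    have := h.pair.Ep (ψ' k)
    rw [hs'.eig, hs'.on, if_pos rfl, mul_one] at this
    exact this
  have h4 : μ' k * Ba b0 b1 a w w ≤ μ k * Ba b0 b1 a w w :=
    ((mul_le_mul_of_nonneg_left h3 hμ').trans h1).trans h2
  exact le_of_mul_le_mul_right h4 hp

/-- the one-sided derivative bound in integrated form -/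
theorem Fam.branch_step (h : Fam E b0 b1 C) {a t : ℝ} (ha : 0 ≤ a) (ht : 0 ≤ t) {μ μ' : ℕ → ℝ}
    {ψ ψ' : ℕ → V} (hs : SD E (Ba b0 b1 a) μ ψ) (hs' : SD E (Ba b0 b1 (a + t)) μ' ψ') (k : ℕ)
    (c : ℝ) (hc0 : 0 ≤ c)
    (hc : ∀ z, (∀ f, E z f = μ k * Ba b0 b1 a z f) → c * Ba b0 b1 a z z ≤ b1 z z)
    (g : ℝ) (hg : 0 < g) (hgap : ∀ j ≤ k, μ j < μ k → μ j ≤ μ k - g)
    (htg : μ k * t * c ≤ g / 2) :
    μ' k * (1 + t * c) ≤ μ k + (2 * (μ k) ^ 2 * C ^ 2 / g) * t ^ 2 := by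
  classical
  obtain ⟨w, hw, hw0, h1⟩ := hs'.minmax (sp ψ k) inferInstance k (by rw [hs.finrank_sp]; omega)
  have hμ : 0 ≤ μ k := by
    have := h.pair.Ep (ψ k)
    rw [hs.eig, hs.on, if_pos rfl, mul_one] at this
    exact this
  have hμ' : 0 ≤ μ' k := by
    have := h.pair.Ep (ψ' k)
    rw [hs'.eig, hs'.on, if_pos rfl, mul_one] at this
    exact this
  have hle := h.branch_anti ha (by linarith : a ≤ a + t) hs hs' k
  obtain ⟨x, hx⟩ := mem_sp ψ k w hw
  set s1 := (Finset.range (k + 1)).filter (fun j => μ j < μ k) with hs1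
  set s2 := (Finset.range (k + 1)).filter (fun j => ¬ μ j < μ k) with hs2
  set u := ∑ j ∈ s1, x j • ψ j with hu
  set z := ∑ j ∈ s2, x j • ψ j with hz
  have hwuz : w = u + z := by
    rw [hx, hu, hz, hs1, hs2, Finset.sum_filter_add_sum_filter_not]
  set U := ∑ j ∈ s1, x j * x j with hU
  set Z := ∑ j ∈ s2, x j * x j with hZ
  have hU0 : 0 ≤ U := Finset.sum_nonneg fun j _ => mul_self_nonneg _
  have hZ0 : 0 ≤ Z := Finset.sum_nonneg fun j _ => mul_self_nonneg _
  have hbu : Ba b0 b1 a u u = U := by rw [hu, hs.b_sum, Finset.inter_self]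
  have hbz : Ba b0 b1 a z z = Z := by rw [hz, hs.b_sum, Finset.inter_self]
  have hdisj : s1 ∩ s2 = ∅ := by
    rw [hs1, hs2]
    exact Finset.disjoint_iff_inter_eq_empty.1 (Finset.disjoint_filter_filter_not _ _ _)
  have hbuz : Ba b0 b1 a u z = 0 := by rw [hu, hz, hs.b_sum, hdisj, Finset.sum_empty]
  have hbw : Ba b0 b1 a w w = U + Z := by
    rw [hwuz, form_add _ (h.toPair ha).bs, hbu, hbz, hbuz]
    ring
  have hEw : E w w ≤ μ k * (U + Z) - g * U := by
    have e1 : E u z = 0 := by rw [hu, hz, hs.e_sum, hdisj, Finset.sum_empty]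
    have e2 : E u u ≤ (μ k - g) * U := by
      rw [hu, hs.e_sum, Finset.inter_self, hU, Finset.mul_sum]
      refine Finset.sum_le_sum fun j hj => ?_
      rw [hs1, Finset.mem_filter, Finset.mem_range] at hj
      exact mul_le_mul_of_nonneg_right (hgap j (by omega) hj.2) (mul_self_nonneg _)
    have e3 : E z z ≤ μ k * Z := by
      rw [hz, hs.e_sum, Finset.inter_self, hZ, Finset.mul_sum]
      refine Finset.sum_le_sum fun j hj => ?_
      rw [hs2, Finset.mem_filter, Finset.mem_range] at hj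
      exact mul_le_mul_of_nonneg_right (hs.mono (by omega)) (mul_self_nonneg _)
    rw [hwuz, form_add E h.pair.Es, e1]
    linarith
  -- z is an eigenvector
  have hzeig : ∀ f, E z f = μ k * Ba b0 b1 a z f := by
    intro f
    rw [hz, sum_left, sum_left, Finset.mul_sum]
    refine Finset.sum_congr rfl fun j hj => ?_
    rw [hs2, Finset.mem_filter, Finset.mem_range] at hj
    have e : μ j = μ k := le_antisymm (hs.mono (by omega)) (not_lt.1 hj.2)
    rw [hs.eig, e]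
    ring
  have hb1z := hc z hzeig
  rw [hbz] at hb1z
  -- lower bound for b1 w w
  have hcs : |b1 u z| ≤ C * (√U * √Z) := by
    have e1 := form_abs_le b1 h.b1s h.b1p u z
    have e2 : b1 u u ≤ C * U := by
      rw [← hbu]
      exact (h.hC u).trans (mul_le_mul_of_nonneg_left (h.le_ba ha u) h.C0)
    have e3 : b1 z z ≤ C * Z := by
      rw [← hbz]
      exact (h.hC z).trans (mul_le_mul_of_nonneg_left (h.le_ba ha z) h.C0)
    refine e1.trans ?_
    calc √(b1 u u) * √(b1 z z) ≤ √(C * U) * √(C * Z) :=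
          mul_le_mul (Real.sqrt_le_sqrt e2) (Real.sqrt_le_sqrt e3) (Real.sqrt_nonneg _)
            (Real.sqrt_nonneg _)
      _ = C * (√U * √Z) := by
          rw [Real.sqrt_mul h.C0, Real.sqrt_mul h.C0]
          have := Real.mul_self_sqrt h.C0
          calc √C * √U * (√C * √Z) = (√C * √C) * (√U * √Z) := by ring
            _ = _ := by rw [this]
  have hb1w : c * Z - 2 * (C * (√U * √Z)) ≤ b1 w w := by
    rw [hwuz, form_add b1 h.b1s]
    have e1 := h.b1p u
    have e2 := neg_abs_le (b1 u z)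
    linarith
  have hmain : μ' k * (U + Z + t * (c * Z - 2 * (C * (√U * √Z)))) ≤ μ k * (U + Z) - g * U := by
    have e1 : Ba b0 b1 (a + t) w w = Ba b0 b1 a w w + t * b1 w w := by
      rw [ba_apply, ba_apply]; ring
    rw [e1, hbw] at h1
    refine le_trans ?_ (h1.trans hEw)
    refine mul_le_mul_of_nonneg_left ?_ hμ'
    have := mul_le_mul_of_nonneg_left hb1w ht
    linarith
  -- algebra
  have hpos : 0 < U + Z := by rw [← hbw]; exact (h.toPair ha).bp w hw0
  have hsu : √U * √U = U := Real.mul_self_sqrt hU0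
  set p := √U with hp
  set r := √Z with hr
  have hp0 : 0 ≤ p := Real.sqrt_nonneg _
  have hr0 : 0 ≤ r := Real.sqrt_nonneg _
  have hrr : r * r = Z := Real.mul_self_sqrt hZ0
  -- μ' (1 + t c) N ≤ μ N - g U + μ' t c U + 2 μ' t C p r
  have k1 : μ' k * (1 + t * c) * (U + Z) ≤
      μ k * (U + Z) - g * U + μ' k * (t * c) * U + 2 * (μ' k * (t * C)) * (p * r) := by
    nlinarith
  have k2 : μ' k * (t * c) * U ≤ g / 2 * U := by
    refine mul_le_mul_of_nonneg_right ?_ hU0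
    calc μ' k * (t * c) ≤ μ k * (t * c) := mul_le_mul_of_nonneg_right hle (by positivity)
      _ = μ k * t * c := by ring
      _ ≤ _ := htg
  have k3 : 2 * (μ' k * (t * C)) * (p * r) ≤ 2 * (μ k * (t * C)) * (p * r) := by
    refine mul_le_mul_of_nonneg_right ?_ (mul_nonneg hp0 hr0)
    have := mul_le_mul_of_nonneg_right hle (mul_nonneg ht h.C0)
    linarith
  have k4 : 2 * (μ k * (t * C)) * (p * r) ≤ g / 2 * U + 2 * (μ k * (t * C)) ^ 2 / g * Z := by
    have e1 : 0 ≤ (g * p - 2 * (μ k * (t * C)) * r) ^ 2 := sq_nonneg _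
    have e2 : g / 2 * U + 2 * (μ k * (t * C)) ^ 2 / g * Z - 2 * (μ k * (t * C)) * (p * r) =
        (g * p - 2 * (μ k * (t * C)) * r) ^ 2 / (2 * g) := by
      rw [← hsu, ← hrr]
      field_simp
      ring
    have e3 : 0 ≤ (g * p - 2 * (μ k * (t * C)) * r) ^ 2 / (2 * g) := by positivity
    linarith
  have k5 : 2 * (μ k * (t * C)) ^ 2 / g * Z ≤ 2 * (μ k * (t * C)) ^ 2 / g * (U + Z) :=
    mul_le_mul_of_nonneg_left (by linarith) (by positivity)
  have k6 : μ' k * (1 + t * c) * (U + Z) ≤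
      (μ k + (2 * (μ k) ^ 2 * C ^ 2 / g) * t ^ 2) * (U + Z) := by
    have e : (μ k + (2 * (μ k) ^ 2 * C ^ 2 / g) * t ^ 2) * (U + Z) =
        μ k * (U + Z) + 2 * (μ k * (t * C)) ^ 2 / g * (U + Z) := by
      field_simp
    rw [e]
    linarith
  exact le_of_mul_le_mul_right k6 hpos

end

end Pool.Agent.EQ.Abs

end

/-! ## Lib_helper67.EQ.Final -/

section

/-! The abstract theorem ABS. -/

open Filter Topology Set MeasureTheory

namespace Pool.Agent.EQ.Abs

theorem deriv_le_of_step (f : ℝ → ℝ) (a c K t0 : ℝ) (hc : 0 ≤ c) (ht0 : 0 < t0)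
    (h : ∀ t, 0 < t → t < t0 → f (a + t) * (1 + t * c) ≤ f a + K * t ^ 2)
    (hd : DifferentiableAt ℝ f a) : deriv f a ≤ -(c * f a) := by
  have h1 := hd.hasDerivAt.tendsto_slope_zero_right
  have h2 : Tendsto (fun t : ℝ => (K * t - c * f a) / (1 + t * c)) (𝓝[>] 0)
      (𝓝 ((K * 0 - c * f a) / (1 + 0 * c))) := by
    have hcont : ContinuousAt (fun t : ℝ => (K * t - c * f a) / (1 + t * c)) 0 := by
      refine ContinuousAt.div ?_ ?_ (by simp)
      · fun_prop
      · fun_prop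
    exact hcont.tendsto.mono_left nhdsWithin_le_nhds
  have h3 : (K * 0 - c * f a) / (1 + 0 * c) = -(c * f a) := by simp
  rw [h3] at h2
  refine le_of_tendsto_of_tendsto h1 h2 ?_
  have h4 : ∀ᶠ t : ℝ in 𝓝[>] 0, t ∈ Ioo 0 t0 := Ioo_mem_nhdsGT ht0
  filter_upwards [h4] with t ht
  have h5 := h t ht.1 ht.2
  have h6 : 0 < 1 + t * c := by
    have := mul_nonneg ht.1.le hc
    linarith
  rw [smul_eq_mul, inv_mul_eq_div, div_le_div_iff₀ ht.1 h6]
  nlinarith

theorem window_time (f : ℝ → ℝ) (hf : Antitone f) (c p q : ℝ) (S : Set ℝ)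
    (hS : MeasurableSet S) (hd : ∀ a ∈ S, DifferentiableAt ℝ f a ∧ deriv f a ≤ -c)
    (hw : ∀ a ∈ S, p ≤ f a ∧ f a ≤ q) :
    volume S * ENNReal.ofReal c ≤ ENNReal.ofReal (q - p) := by
  have h1 := lintegral_deriv_eq_volume_image_of_antitoneOn (f' := deriv f) hS
    (fun a ha => (hd a ha).1.hasDerivAt.hasDerivWithinAt) (hf.antitoneOn S)
  have h2 : volume (f '' S) ≤ volume (Icc p q) := by
    apply measure_mono
    rintro _ ⟨a, ha, rfl⟩
    exact hw a ha
  rw [Real.volume_Icc] at h2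
  have h3 : ∫⁻ _ in S, ENNReal.ofReal c ≤ ∫⁻ x in S, ENNReal.ofReal (-deriv f x) := by
    refine setLIntegral_mono' hS (fun a ha => ENNReal.ofReal_le_ofReal ?_)
    have := (hd a ha).2
    linarith
  rw [setLIntegral_const, mul_comm] at h3
  exact (h3.trans h1.le).trans h2

end Pool.Agent.EQ.Abs

namespace Pool.Agent.EQ

open Abs

/-- ABS: if the forms `b_a = b0 + a b1`, `a ∈ [1,2]`, have Weyl asymptotics with linear area
`α + a β` and there are quasimodes with error `κ` for all `a`, then for some `a` some sequence of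
eigenvectors with eigenvalues tending to infinity has small `b1`. -/
theorem abs_main {V : Type*} [AddCommGroup V] [Module ℝ V]
    (E b0 b1 : V →ₗ[ℝ] V →ₗ[ℝ] ℝ)
    (Es : ∀ u v, E u v = E v u) (b0s : ∀ u v, b0 u v = b0 v u) (b1s : ∀ u v, b1 u v = b1 v u)
    (Ep : ∀ v, 0 ≤ E v v) (b0p : ∀ v, v ≠ 0 → 0 < b0 v v) (b1p : ∀ v, 0 ≤ b1 v v)
    (C : ℝ) (hC : ∀ v, b1 v v ≤ C * b0 v v)
    (hcomp : ∀ u : ℕ → V,
      (∀ ε > 0, ∃ N, ∀ m ≥ N, ∀ n ≥ N, E (u m - u n) (u m - u n) + b0 (u m - u n) (u m - u n) < ε) →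
      ∃ v, Tendsto (fun n => E (u n - v) (u n - v) + b0 (u n - v) (u n - v)) atTop (𝓝 0))
    (hcpt : ∀ u : ℕ → V, (∀ n, E (u n) (u n) + b0 (u n) (u n) ≤ 1) →
      ∃ φ : ℕ → ℕ, StrictMono φ ∧
        ∀ ε > 0, ∃ N, ∀ m ≥ N, ∀ n ≥ N, b0 (u (φ m) - u (φ n)) (u (φ m) - u (φ n)) < ε)
    (cW α β κ θ : ℝ) (hcW : 0 < cW) (hα : 0 ≤ α) (hβ : 0 < β) (hκ : 0 ≤ κ)
    (hθ : 2 * κ * cW * (α + 2 * β) < θ)
    (hlow : ∀ ε > 0, ∃ L0 : ℝ, ∀ L ≥ L0, ∃ W : Submodule ℝ V, FiniteDimensional ℝ W ∧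
      (cW * (α + β) - ε) * L ≤ Module.finrank ℝ W ∧
      ∀ w ∈ W, E w w ≤ L * (b0 w w + 1 * b1 w w))
    (hup : ∀ ε > 0, ∃ L0 : ℝ, ∀ L ≥ L0, ∀ W : Submodule ℝ V, FiniteDimensional ℝ W →
      (∀ w ∈ W, E w w ≤ L * (b0 w w + 2 * b1 w w)) →
      (Module.finrank ℝ W : ℝ) ≤ (cW * (α + 2 * β) + ε) * L)
    (En : ℕ → ℝ) (hEn : Tendsto En atTop atTop) (q : ℕ → V) (hq0 : ∀ n, q n ≠ 0)
    (hq : ∀ n, ∀ a ∈ Icc (1:ℝ) 2, ∀ f, |E (q n) f - En n * (b0 (q n) f + a * b1 (q n) f)| ≤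
      κ * (√(b0 (q n) (q n) + a * b1 (q n) (q n)) * √(b0 f f + a * b1 f f))) :
    ∃ a ∈ Icc (1:ℝ) 2, ∃ (ψ : ℕ → V) (lam : ℕ → ℝ), Tendsto lam atTop atTop ∧
      ∀ j, (∀ f, E (ψ j) f = lam j * (b0 (ψ j) f + a * b1 (ψ j) f)) ∧
        b0 (ψ j) (ψ j) + a * b1 (ψ j) (ψ j) = 1 ∧
        b1 (ψ j) (ψ j) ≤ θ * β / (α + a * β) := by
  classical
  by_contra hcon
  -- the family
  have hpair : Pair E b0 := ⟨Es, b0s, Ep, b0p, hcomp, hcpt⟩
  have hfam : Fam E b0 b1 (max C 0) := by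
    refine ⟨hpair, b1s, b1p, fun v => ?_, le_max_right _ _⟩
    exact (hC v).trans (mul_le_mul_of_nonneg_right (le_max_left _ _) (hpair.bp0 v))
  -- infinite dimension
  have hinf : ¬ FiniteDimensional ℝ V := by
    intro hfin
    obtain ⟨L0, hL0⟩ := hlow (cW * (α + β) / 2) (by positivity)
    set L := max L0 ((Module.finrank ℝ V + 1) / (cW * (α + β) / 2)) with hL
    obtain ⟨W, -, hW1, -⟩ := hL0 L (le_max_left _ _)
    have h1 : ((Module.finrank ℝ W : ℕ) : ℝ) ≤ Module.finrank ℝ V := by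
      exact_mod_cast Submodule.finrank_le W
    have h2 : (Module.finrank ℝ V + 1) / (cW * (α + β) / 2) ≤ L := le_max_right _ _
    rw [div_le_iff₀ (by positivity)] at h2
    nlinarith
  -- spectral data
  have hsd : ∀ a : ℝ, ∃ (μ : ℕ → ℝ) (ψ : ℕ → V), SD E (Ba b0 b1 (max a 0)) μ ψ := by
    intro a
    obtain ⟨μ, ψ, h1, h2, h3, h4, h5⟩ := spec (hfam.toPair (le_max_right a 0)) hinf
    exact ⟨μ, ψ, h1, h2, h3, h4, h5⟩
  choose μ ψ hS using hsd
  have hanti : ∀ k, Antitone (fun a => μ a k) := fun k a a' haa =>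
    hfam.branch_anti (le_max_right a 0) (max_le_max_right 0 haa) (hS a) (hS a') k
  -- constants
  have hθ0 : 0 < θ := lt_of_le_of_lt (by positivity) hθ
  have hA2 : 0 < α + 2 * β := by positivity
  set c := θ * β / (α + 2 * β) with hc
  have hc0 : 0 < c := by positivity
  have hcD : 2 * κ * cW * β < c := by
    rw [hc, lt_div_iff₀ hA2]
    nlinarith
  set D := c - 2 * κ * cW * β with hD
  have hD0 : 0 < D := sub_pos.2 hcD
  set ε := D / (12 * κ + 2) with hε
  have hε0 : 0 < ε := by positivity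
  have hεκ : 6 * κ * ε < D := by
    have e : ε * (12 * κ + 2) = D := div_mul_cancel₀ _ (by positivity)
    nlinarith [mul_nonneg hκ hε0.le]
  set ρ := (cW * β + 3 * ε) * (2 * κ) / c with hρ
  have hρ0 : 0 ≤ ρ := by positivity
  have hρ1 : ρ < 1 := by
    rw [hρ, div_lt_one hc0]
    nlinarith
  -- the sets G J
  let G : ℕ → Set ℝ := fun J => {a | a ∈ Icc (1:ℝ) 2 ∧ ∀ lam : ℝ, (J : ℝ) ≤ lam → ∀ z : V,
    (∀ f, E z f = lam * (b0 z f + a * b1 z f)) → c * (b0 z z + a * b1 z z) ≤ b1 z z}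
  have hGmono : Monotone G := by
    intro J J' hJ a ha
    refine ⟨ha.1, fun lam hlam z hz => ha.2 lam ?_ z hz⟩
    exact le_trans (by exact_mod_cast hJ) hlam
  have hGunion : (⋃ J, G J) = Icc (1:ℝ) 2 := by
    apply Subset.antisymm
    · exact iUnion_subset fun J a ha => ha.1
    · intro a ha
      by_contra hna
      rw [mem_iUnion, not_exists] at hna
      have h1 : ∀ J : ℕ, ∃ lam : ℝ, (J : ℝ) ≤ lam ∧ ∃ z : V,
          (∀ f, E z f = lam * (b0 z f + a * b1 z f)) ∧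
            b1 z z < c * (b0 z z + a * b1 z z) := by
        intro J
        by_contra hno
        push Not at hno
        exact hna J ⟨ha, fun lam hlam z hz => hno lam hlam z hz⟩
      choose lam hlam z hz hzb using h1
      apply hcon
      have ha0 : 0 ≤ a := by linarith [ha.1]
      have hz0 : ∀ J, 0 < b0 (z J) (z J) + a * b1 (z J) (z J) := by
        intro J
        have hne : z J ≠ 0 := by
          intro h0
          have := hzb J
          rw [h0] at this
          simp at this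
        exact (hfam.toPair ha0).bp (z J) hne
      refine ⟨a, ha, fun J => (√(b0 (z J) (z J) + a * b1 (z J) (z J)))⁻¹ • z J, lam,
        tendsto_atTop_mono hlam tendsto_natCast_atTop_atTop, fun J => ⟨fun f => ?_, ?_, ?_⟩⟩
      · simp only [map_smul, LinearMap.smul_apply, smul_eq_mul]
        rw [hz J f]
        ring
      · rw [form_smul, form_smul, inv_pow, Real.sq_sqrt (hz0 J).le]
        have := (hz0 J).ne'
        field_simp
      · rw [form_smul, inv_pow, Real.sq_sqrt (hz0 J).le, inv_mul_eq_div, div_le_iff₀ (hz0 J)]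
        refine (hzb J).le.trans (mul_le_mul_of_nonneg_right ?_ (hz0 J).le)
        rw [hc]
        refine div_le_div_of_nonneg_left (by positivity) ?_ ?_
        · have := mul_nonneg ha0 hβ.le
          nlinarith [ha.1]
        · nlinarith [ha.2]
  have hvol : (⨆ J, volume (G J)) = 1 := by
    rw [← hGmono.measure_iUnion, hGunion, Real.volume_Icc]
    norm_num
  obtain ⟨J, hJ⟩ : ∃ J, ENNReal.ofReal ρ < volume (G J) := by
    rw [← lt_iSup_iff, hvol]
    exact ENNReal.ofReal_lt_one.2 hρ1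
  -- choice of n
  obtain ⟨L1, hL1⟩ := hup ε hε0
  obtain ⟨L2, hL2⟩ := hlow ε hε0
  set K' := (cW * (α + 2 * β) + ε) * κ + (cW * (α + β) - ε) * (κ + 1) with hK'
  obtain ⟨n, hn⟩ := (hEn.eventually_ge_atTop (max (max (L1 + κ + 1) (L2 + κ + 1))
    (max (J + κ + 1) ((K' + (cW * β + 3 * ε) * κ) / ε)))).exists
  have hn1 : L1 + κ + 1 ≤ En n := (le_max_left _ _).trans ((le_max_left _ _).trans hn)
  have hn2 : L2 + κ + 1 ≤ En n := (le_max_right _ _).trans ((le_max_left _ _).trans hn)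
  have hn3 : J + κ + 1 ≤ En n := (le_max_left _ _).trans ((le_max_right _ _).trans hn)
  have hn4 : (K' + (cW * β + 3 * ε) * κ) / ε ≤ En n :=
    (le_max_right _ _).trans ((le_max_right _ _).trans hn)
  rw [div_le_iff₀ hε0] at hn4
  have hJ0 : (0:ℝ) ≤ J := J.cast_nonneg
  set p := En n - κ with hp
  set r := En n + κ with hr
  have hp0 : 0 < p := by linarith
  have hpJ : (J : ℝ) ≤ p := by linarith
  obtain ⟨W, hWf, hWm, hWE⟩ := hL2 (En n - κ - 1) (by linarith)
  set m := Module.finrank ℝ W with hm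
  set M := ⌊(cW * (α + 2 * β) + ε) * r⌋₊ with hM
  -- branches meeting the window
  have hmax2 : max (2:ℝ) 0 = 2 := max_eq_left (by norm_num)
  have hmax1 : max (1:ℝ) 0 = 1 := max_eq_left (by norm_num)
  have hmeet : ∀ k, ∀ a ∈ Icc (1:ℝ) 2, p ≤ μ a k → μ a k ≤ r → m ≤ k ∧ k < M := by
    intro k a ha hpa har
    constructor
    · by_contra hkm
      push Not at hkm
      obtain ⟨w, hw, hw0, h1⟩ := (hS 1).minmax W hWf k hkm
      have h2 := hWE w hw
      have h3 := (hfam.toPair (le_max_right (1:ℝ) 0)).bp w hw0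
      have h4 : b0 w w + 1 * b1 w w = Ba b0 b1 (max 1 0) w w := by rw [hmax1]; rfl
      rw [h4] at h2
      have h5 : μ 1 k ≤ En n - κ - 1 := le_of_mul_le_mul_right (h1.trans h2) h3
      have h6 : μ a k ≤ μ 1 k := hanti k ha.1
      linarith
    · have h1 : μ 2 k ≤ μ a k := hanti k ha.2
      have h2 : ∀ w ∈ sp (ψ 2) k, E w w ≤ r * (b0 w w + 2 * b1 w w) := by
        intro w hw
        have h3 := (hS 2).le_sp k w hw
        have h4 : b0 w w + 2 * b1 w w = Ba b0 b1 (max 2 0) w w := by rw [hmax2]; rfl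
        rw [h4]
        refine h3.trans (mul_le_mul_of_nonneg_right (h1.trans har) ?_)
        exact (hfam.toPair (le_max_right (2:ℝ) 0)).bp0 w
      have h5 := hL1 r (by linarith) (sp (ψ 2) k) inferInstance h2
      rw [(hS 2).finrank_sp k] at h5
      exact Nat.lt_of_succ_le (Nat.le_floor h5)
  -- the times in the window
  let Sk : ℕ → Set ℝ := fun k => {a | a ∈ Ioo (1:ℝ) 2 ∧
    DifferentiableAt ℝ (fun a => μ a k) a ∧ deriv (fun a => μ a k) a ≤ -(c * p) ∧
      p ≤ μ a k ∧ μ a k ≤ r}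
  have hSkm : ∀ k, MeasurableSet (Sk k) := by
    intro k
    have m1 : MeasurableSet (Ioo (1:ℝ) 2) := measurableSet_Ioo
    have m2 : MeasurableSet {a : ℝ | DifferentiableAt ℝ (fun a => μ a k) a} :=
      measurableSet_of_differentiableAt ℝ _
    have m3 : MeasurableSet {a : ℝ | deriv (fun a => μ a k) a ≤ -(c * p)} :=
      measurableSet_le (measurable_deriv _) measurable_const
    have m4 : MeasurableSet {a : ℝ | p ≤ μ a k} :=
      measurableSet_le measurable_const (hanti k).measurable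
    have m5 : MeasurableSet {a : ℝ | μ a k ≤ r} :=
      measurableSet_le (hanti k).measurable measurable_const
    exact m1.inter (m2.inter (m3.inter (m4.inter m5)))
  have hSkt : ∀ k, volume (Sk k) * ENNReal.ofReal (c * p) ≤ ENNReal.ofReal (2 * κ) := by
    intro k
    have h1 := window_time (fun a => μ a k) (hanti k) (c * p) p r (Sk k) (hSkm k)
      (fun a ha => ⟨ha.2.1, ha.2.2.1⟩) (fun a ha => ha.2.2.2)
    have e : r - p = 2 * κ := by rw [hr, hp]; ring
    rwa [e] at h1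
  -- a.e. differentiability
  have hdiff : ∀ k, ∀ᵐ a : ℝ, DifferentiableAt ℝ (fun a => μ a k) a := by
    intro k
    have h1 : Monotone (fun a => -(μ a k)) := fun a a' haa => neg_le_neg (hanti k haa)
    filter_upwards [h1.ae_differentiableAt] with a ha
    simpa using ha.neg
  have hnull : volume {a : ℝ | ¬ ∀ k, DifferentiableAt ℝ (fun a => μ a k) a} = 0 :=
    ae_iff.1 (ae_all_iff.2 hdiff)
  -- covering
  have hcover : G J ⊆ (⋃ k ∈ Finset.Ico m M, Sk k) ∪
      ({a : ℝ | ¬ ∀ k, DifferentiableAt ℝ (fun a => μ a k) a} ∪ {1, 2}) := by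
    intro a ha
    by_cases hdf : ∀ k, DifferentiableAt ℝ (fun a => μ a k) a
    swap
    · exact Or.inr (Or.inl hdf)
    by_cases ha1 : a = 1
    · exact Or.inr (Or.inr (Or.inl ha1))
    by_cases ha2 : a = 2
    · exact Or.inr (Or.inr (Or.inr ha2))
    left
    have haI := ha.1
    have haO : a ∈ Ioo (1:ℝ) 2 :=
      ⟨lt_of_le_of_ne haI.1 (Ne.symm ha1), lt_of_le_of_ne haI.2 ha2⟩
    have ha0 : 0 ≤ a := by linarith [haI.1]
    have hmaxa : max a 0 = a := max_eq_left ha0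
    have hSa : SD E (Ba b0 b1 a) (μ a) (ψ a) := by
      have := hS a
      rwa [hmaxa] at this
    obtain ⟨k, hk⟩ := hSa.quasimode (hfam.toPair ha0) (q n) (hq0 n) (En n) κ hκ (hq n a haI)
    obtain ⟨hk1, hk2⟩ := abs_le.1 hk
    have hkp : p ≤ μ a k := by linarith
    have hkr : μ a k ≤ r := by linarith
    have hmk := hmeet k a haI hkp hkr
    rw [mem_iUnion₂]
    refine ⟨k, Finset.mem_Ico.2 hmk, haO, hdf k, ?_, hkp, hkr⟩
    -- derivative
    obtain ⟨g, hg0, hgap⟩ : ∃ g > 0, ∀ j ≤ k, μ a j < μ a k → μ a j ≤ μ a k - g := by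
      rcases ((Finset.range (k + 1)).filter (fun j => μ a j < μ a k)).eq_empty_or_nonempty with h0 | h0
      · refine ⟨1, one_pos, fun j hj hlt => ?_⟩
        have : j ∈ (Finset.range (k + 1)).filter (fun j => μ a j < μ a k) :=
          Finset.mem_filter.2 ⟨Finset.mem_range.2 (by omega), hlt⟩
        rw [h0] at this
        simp at this
      · obtain ⟨j0, hj0, hmx⟩ := Finset.exists_max_image _ (fun j => μ a j) h0
        refine ⟨μ a k - μ a j0, sub_pos.2 (Finset.mem_filter.1 hj0).2, fun j hj hlt => ?_⟩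
        have := hmx j (Finset.mem_filter.2 ⟨Finset.mem_range.2 (by omega), hlt⟩)
        linarith
    have hμp : 0 < μ a k := lt_of_lt_of_le hp0 hkp
    have hstep : ∀ t, 0 < t → t < g / (2 * (μ a k * c)) →
        (fun a => μ a k) (a + t) * (1 + t * c) ≤ (fun a => μ a k) a +
          (2 * (μ a k) ^ 2 * (max C 0) ^ 2 / g) * t ^ 2 := by
      intro t ht htg
      have hS' : SD E (Ba b0 b1 (a + t)) (μ (a + t)) (ψ (a + t)) := by
        have := hS (a + t)
        rwa [max_eq_left (by linarith : 0 ≤ a + t)] at this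
      refine hfam.branch_step ha0 ht.le hSa hS' k c hc0.le (fun z hz => ?_) g hg0 hgap ?_
      · exact ha.2 (μ a k) (hpJ.trans hkp) z hz
      · rw [lt_div_iff₀ (by positivity)] at htg
        linarith
    have h1 := deriv_le_of_step (fun a => μ a k) a c _ (g / (2 * (μ a k * c))) hc0.le
      (by positivity) hstep (hdf k)
    refine h1.trans (neg_le_neg ?_)
    exact mul_le_mul_of_nonneg_left hkp hc0.le
  -- measure
  have hmeas : volume (G J) ≤ ∑ k ∈ Finset.Ico m M, volume (Sk k) := by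
    refine (measure_mono hcover).trans ((measure_union_le _ _).trans ?_)
    have h1 : volume ({a : ℝ | ¬ ∀ k, DifferentiableAt ℝ (fun a => μ a k) a} ∪ {1, 2}) = 0 := by
      rw [measure_union_null_iff]
      exact ⟨hnull, (Set.toFinite _).measure_zero _⟩
    rw [h1, add_zero]
    exact measure_biUnion_finset_le _ _
  have hcp : 0 < c * p := mul_pos hc0 hp0
  have h10 : volume (G J) * ENNReal.ofReal (c * p) ≤
      ((M - m : ℕ) : ENNReal) * ENNReal.ofReal (2 * κ) := by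
    refine (mul_le_mul_left hmeas _).trans ?_
    rw [Finset.sum_mul]
    refine (Finset.sum_le_sum fun k _ => hSkt k).trans ?_
    rw [Finset.sum_const, Nat.card_Ico, nsmul_eq_mul]
  have h11 : ((M - m : ℕ) : ℝ) ≤ (cW * β + 3 * ε) * p := by
    rcases le_total M m with h | h
    · rw [Nat.sub_eq_zero_of_le h, Nat.cast_zero]
      positivity
    · rw [Nat.cast_sub h]
      have hr0 : 0 < r := by linarith
      have h12 : (M : ℝ) ≤ (cW * (α + 2 * β) + ε) * r := Nat.floor_le (by positivity)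
      have h13 := hWm
      have e1 : (cW * (α + 2 * β) + ε) * r - (cW * (α + β) - ε) * (En n - κ - 1) =
          (cW * β + 2 * ε) * En n + K' := by
        rw [hr, hK']
        ring
      have e2 : (cW * β + 3 * ε) * p = (cW * β + 2 * ε) * En n + (En n * ε -
          (cW * β + 3 * ε) * κ) := by
        rw [hp]
        ring
      rw [e2]
      linarith
  have h14 : volume (G J) * ENNReal.ofReal (c * p) ≤ ENNReal.ofReal (ρ * (c * p)) := by
    refine h10.trans ?_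
    rw [← ENNReal.ofReal_natCast, ← ENNReal.ofReal_mul (Nat.cast_nonneg _)]
    refine ENNReal.ofReal_le_ofReal ?_
    have e3 : ρ * (c * p) = ((cW * β + 3 * ε) * p) * (2 * κ) := by
      rw [hρ]
      field_simp
    rw [e3]
    exact mul_le_mul_of_nonneg_right h11 (by positivity)
  rw [ENNReal.ofReal_mul hρ0] at h14
  have h15 : volume (G J) ≤ ENNReal.ofReal ρ := by
    have h16 : ENNReal.ofReal (c * p) ≠ 0 := by
      rw [Ne, ENNReal.ofReal_eq_zero, not_le]
      exact hcp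
    exact (ENNReal.mul_le_mul_iff_left h16 ENNReal.ofReal_ne_top).1 h14
  exact absurd hJ (not_lt.2 h15)

end Pool.Agent.EQ

end

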