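import Mathlib
import Pool.Agent.Lib_helper71.EQM.DynA
import Pool.Agent.Lib_helper71.EQM.FlowDefs

/-! Project EQ (MP_ed6ab2_an): merged modules Lib_helper71.EQ.D.AR, Lib_helper71.EQ.D.CL, Lib_helper71.EQ.D.DI. -/

set_option autoImplicit false

/-! ## Lib_helper71.EQ.D.AR -/

section

set_option autoImplicit false

namespace Pool.Agent.EQ

open MeasureTheory Filter Topology Set
open scoped ContDiff ENNReal

noncomputable section

/-! ### determinants on `ℂ × ℝ` -/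

/-- coordinates -/
def ARe : (ℂ × ℝ) ≃ₗ[ℝ] (Fin 3 → ℝ) where
  toFun v := ![v.1.re, v.1.im, v.2]
  invFun x := (⟨x 0, x 1⟩, x 2)
  map_add' v w := by
    ext i
    fin_cases i <;> simp
  map_smul' c v := by
    ext i
    fin_cases i <;> simp
  left_inv v := by simp
  right_inv x := by
    ext i
    fin_cases i <;> simp

def ARb : Module.Basis (Fin 3) ℝ (ℂ × ℝ) := Module.Basis.ofEquivFun ARe

theorem ARb_repr (v : ℂ × ℝ) : (ARb.repr v : Fin 3 → ℝ) = ![v.1.re, v.1.im, v.2] := by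
  have h := Module.Basis.ofEquivFun_repr_apply ARe v
  ext i
  exact h i

theorem ARb0 : ARb 0 = ((1 : ℂ), (0 : ℝ)) := by
  rw [ARb, Module.Basis.coe_ofEquivFun]
  ext <;> simp [ARe]
  rfl

theorem ARb1 : ARb 1 = (Complex.I, (0 : ℝ)) := by
  rw [ARb, Module.Basis.coe_ofEquivFun]
  ext <;> simp [ARe]
  rfl

theorem ARb2 : ARb 2 = ((0 : ℂ), (1 : ℝ)) := by
  rw [ARb, Module.Basis.coe_ofEquivFun]
  ext <;> simp [ARe]
  rfl

theorem ARdet (f : (ℂ × ℝ) →ₗ[ℝ] (ℂ × ℝ)) (a b c : ℂ × ℝ) (ha : f (1, 0) = a)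
    (hb : f (Complex.I, 0) = b) (hc : f (0, 1) = c) :
    LinearMap.det f = a.1.re * (b.1.im * c.2 - c.1.im * b.2) -
      b.1.re * (a.1.im * c.2 - c.1.im * a.2) + c.1.re * (a.1.im * b.2 - b.1.im * a.2) := by
  rw [← LinearMap.det_toMatrix ARb f, Matrix.det_fin_three]
  simp only [LinearMap.toMatrix_apply, ARb0, ARb1, ARb2, ha, hb, hc, ARb_repr]
  simp
  ring

/-- the frame `(X, H, V)` as a linear map -/
def ARfr (u : ℂ → ℝ) (v : ℂ × ℝ) : (ℂ × ℝ) →L[ℝ] (ℂ × ℝ) :=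
  LinearMap.toContinuousLinearMap
    { toFun := fun w => w.1.re • XX u v + w.1.im • HH u v + w.2 • VV
      map_add' := by
        intro w w'
        simp only [Prod.fst_add, Prod.snd_add, Complex.add_re, Complex.add_im, add_smul]
        abel
      map_smul' := by
        intro c w
        simp only [Prod.smul_fst, Prod.smul_snd, Complex.smul_re, Complex.smul_im, smul_eq_mul,
          mul_smul, smul_add, RingHom.id_apply] }

theorem ARfr_apply (u : ℂ → ℝ) (v w : ℂ × ℝ) :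
    ARfr u v w = w.1.re • XX u v + w.1.im • HH u v + w.2 • VV := rfl

theorem ARX_re (u : ℂ → ℝ) (v : ℂ × ℝ) : (XX u v).1.re = Real.exp (-u v.1) * Real.cos v.2 := by
  simp only [XX, Complex.re_ofReal_mul, Complex.exp_ofReal_mul_I_re]

theorem ARX_im (u : ℂ → ℝ) (v : ℂ × ℝ) : (XX u v).1.im = Real.exp (-u v.1) * Real.sin v.2 := by
  simp only [XX, Complex.im_ofReal_mul, Complex.exp_ofReal_mul_I_im]

theorem ARH_re (u : ℂ → ℝ) (v : ℂ × ℝ) :
    (HH u v).1.re = -(Real.exp (-u v.1) * Real.sin v.2) := by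
  simp only [HH]
  rw [Complex.re_ofReal_mul]
  simp only [Complex.mul_re, Complex.I_re, Complex.I_im, zero_mul, one_mul,
    Complex.exp_ofReal_mul_I_im]
  ring

theorem ARH_im (u : ℂ → ℝ) (v : ℂ × ℝ) :
    (HH u v).1.im = Real.exp (-u v.1) * Real.cos v.2 := by
  simp only [HH]
  rw [Complex.im_ofReal_mul]
  simp only [Complex.mul_im, Complex.I_re, Complex.I_im, zero_mul, one_mul,
    Complex.exp_ofReal_mul_I_re]
  ring

theorem ARfr_det (u : ℂ → ℝ) (v : ℂ × ℝ) : (ARfr u v).det = Real.exp (-2 * u v.1) := by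
  have h := ARdet (ARfr u v : (ℂ × ℝ) →ₗ[ℝ] (ℂ × ℝ)) (XX u v) (HH u v) VV
    (by simp [ARfr_apply]) (by simp [ARfr_apply]) (by simp [ARfr_apply])
  rw [ContinuousLinearMap.det, h]
  have e : Real.exp (-2 * u v.1) = Real.exp (-u v.1) * Real.exp (-u v.1) := by
    rw [← Real.exp_add]; ring_nf
  rw [e, ARX_re, ARX_im, ARH_re, ARH_im]
  simp only [VV, Complex.zero_re, Complex.zero_im, mul_one, zero_mul, sub_zero, add_zero]
  have h2 := Real.sin_sq_add_cos_sq v.2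
  have h3 : Real.exp (-u v.1) * Real.exp (-u v.1) =
      Real.exp (-u v.1) * Real.exp (-u v.1) * (Real.sin v.2 ^ 2 + Real.cos v.2 ^ 2) := by
    rw [h2, mul_one]
  rw [h3]
  ring

/-- combination matrix in the frame -/
def ARmat (a b c d e f g h i : ℝ) : (ℂ × ℝ) →L[ℝ] (ℂ × ℝ) :=
  LinearMap.toContinuousLinearMap
    { toFun := fun w => (⟨a * w.1.re + b * w.1.im + c * w.2, d * w.1.re + e * w.1.im + f * w.2⟩,
        g * w.1.re + h * w.1.im + i * w.2)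
      map_add' := by
        intro w w'
        refine Prod.ext (Complex.ext ?_ ?_) ?_ <;> simp <;> ring
      map_smul' := by
        intro r w
        refine Prod.ext (Complex.ext ?_ ?_) ?_ <;> simp <;> ring }

theorem ARmat_apply (a b c d e f g h i : ℝ) (w : ℂ × ℝ) : ARmat a b c d e f g h i w =
    (⟨a * w.1.re + b * w.1.im + c * w.2, d * w.1.re + e * w.1.im + f * w.2⟩,
        g * w.1.re + h * w.1.im + i * w.2) := rfl

theorem ARmat_det (a b c d e f g h i : ℝ) : (ARmat a b c d e f g h i).det =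
    a * (e * i - f * h) - b * (d * i - f * g) + c * (d * h - e * g) := by
  have h := ARdet (ARmat a b c d e f g h i : (ℂ × ℝ) →ₗ[ℝ] (ℂ × ℝ)) (⟨a, d⟩, g) (⟨b, e⟩, h)
    (⟨c, f⟩, i) (by simp [ARmat_apply]) (by simp [ARmat_apply]) (by simp [ARmat_apply])
  rw [ContinuousLinearMap.det, h]

/-- the Wronskian -/
theorem AR_wron (P : Pres) (Φ : GFlow P) (t : ℝ) (v : ℂ × ℝ) (hv : v ∈ P.S) :
    Φ.A t v * Φ.B' t v - Φ.A' t v * Φ.B t v = 1 := by
  have h : ∀ s, HasDerivAt (fun s => Φ.A s v * Φ.B' s v - Φ.A' s v * Φ.B s v) 0 s := by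
    intro s
    have h1 := ((Φ.hA s v hv).mul (Φ.hB' s v hv)).sub ((Φ.hA' s v hv).mul (Φ.hB s v hv))
    refine h1.congr_deriv ?_
    ring
  have h2 : Φ.A t v * Φ.B' t v - Φ.A' t v * Φ.B t v = Φ.A 0 v * Φ.B' 0 v - Φ.A' 0 v * Φ.B 0 v :=
    is_const_of_deriv_eq_zero (fun s => (h s).differentiableAt) (fun s => (h s).deriv) t 0
  rw [h2, Φ.A0, Φ.A'0, Φ.B0, Φ.B'0]
  ring

theorem AR_isOpenS (P : Pres) : IsOpen P.S := P.isOpen.prod isOpen_univ

theorem AR_diff (P : Pres) (Φ : GFlow P) (t : ℝ) (v : ℂ × ℝ) (hv : v ∈ P.S) :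
    HasFDerivAt (Φ.φ t) (fderiv ℝ (Φ.φ t) v) v := by
  have h1 : ContDiffAt ℝ 1 (fun p : ℝ × (ℂ × ℝ) => Φ.φ p.1 p.2) (t, v) :=
    Φ.smooth.contDiffAt ((isOpen_univ.prod (AR_isOpenS P)).mem_nhds ⟨mem_univ _, hv⟩)
  have h2 : ContDiffAt ℝ 1 (fun w : ℂ × ℝ => (t, w)) v := by fun_prop
  have h3 : ContDiffAt ℝ 1 (fun w : ℂ × ℝ => Φ.φ t w) v := h1.comp v h2
  exact (h3.differentiableAt (by norm_num)).hasFDerivAt

theorem AR_frame (P : Pres) (Φ : GFlow P) (t : ℝ) (v : ℂ × ℝ) (hv : v ∈ P.S) :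
    (fderiv ℝ (Φ.φ t) v).comp (ARfr P.u v) = (ARfr P.u (Φ.φ t v)).comp
      (ARmat 1 0 0 0 (Φ.A t v) (Φ.B t v) 0 (Φ.A' t v) (Φ.B' t v)) := by
  refine ContinuousLinearMap.ext fun w => ?_
  simp only [ContinuousLinearMap.comp_apply, ARfr_apply, ARmat_apply, map_add, map_smul,
    Φ.dX t v hv, Φ.dH t v hv, Φ.dV t v hv]
  module

theorem AR_det_phi (P : Pres) (Φ : GFlow P) (t : ℝ) (v : ℂ × ℝ) (hv : v ∈ P.S) :
    (fderiv ℝ (Φ.φ t) v).det = Real.exp (2 * P.u v.1 - 2 * P.u (Φ.φ t v).1) := by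
  have h1 := congrArg ContinuousLinearMap.det (AR_frame P Φ t v hv)
  have hc : ∀ f g : (ℂ × ℝ) →L[ℝ] (ℂ × ℝ), (f.comp g).det = f.det * g.det := fun f g =>
    LinearMap.det_comp (f : (ℂ × ℝ) →ₗ[ℝ] (ℂ × ℝ)) (g : (ℂ × ℝ) →ₗ[ℝ] (ℂ × ℝ))
  rw [hc, hc, ARfr_det, ARfr_det, ARmat_det] at h1
  have h2 := AR_wron P Φ t v hv
  have h3 : (fderiv ℝ (Φ.φ t) v).det * Real.exp (-2 * P.u v.1) =
      Real.exp (-2 * P.u (Φ.φ t v).1) := by
    rw [h1]
    linear_combination Real.exp (-2 * P.u (Φ.φ t v).1) * h2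
  have h4 : (fderiv ℝ (Φ.φ t) v).det =
      Real.exp (-2 * P.u (Φ.φ t v).1) / Real.exp (-2 * P.u v.1) := by
    rw [eq_div_iff (Real.exp_ne_zero _), h3]
  rw [h4, ← Real.exp_sub]
  congr 1
  ring

/-- the one-parameter map of the inner integral -/
def ARg {P : Pres} (Φ : GFlow P) (T : ℝ) (v₁ : ℂ × ℝ) (w : ℂ × ℝ) : ℂ × ℝ :=
  Φ.St (-T) w.1.im (Φ.φ w.2 (Φ.St T (-w.1.re) v₁))

theorem AR_contDiff_phi {P : Pres} (Φ : GFlow P) {E : Type*} [NormedAddCommGroup E]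
    [NormedSpace ℝ E] {a : E → ℝ} {b : E → ℂ × ℝ} (ha : ContDiff ℝ 1 a) (hb : ContDiff ℝ 1 b)
    (hS : ∀ x, b x ∈ P.S) : ContDiff ℝ 1 (fun x => Φ.φ (a x) (b x)) := by
  rw [contDiff_iff_contDiffAt]
  intro x
  have h1 : ContDiffAt ℝ 1 (fun p : ℝ × (ℂ × ℝ) => Φ.φ p.1 p.2) (a x, b x) :=
    Φ.smooth.contDiffAt ((isOpen_univ.prod (AR_isOpenS P)).mem_nhds ⟨mem_univ _, hS x⟩)
  exact h1.comp x (ha.contDiffAt.prodMk hb.contDiffAt)

theorem AR_rot_mem {P : Pres} {v : ℂ × ℝ} (hv : v ∈ P.S) (b : ℝ) : rot b v ∈ P.S :=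
  ⟨hv.1, mem_univ _⟩

theorem AR_St_mem {P : Pres} (Φ : GFlow P) (T b : ℝ) {v : ℂ × ℝ} (hv : v ∈ P.S) :
    Φ.St T b v ∈ P.S := Φ.mem _ _ (AR_rot_mem (Φ.mem _ _ hv) _)

theorem AR_contDiff_rot {E : Type*} [NormedAddCommGroup E]
    [NormedSpace ℝ E] {a : E → ℝ} {b : E → ℂ × ℝ} (ha : ContDiff ℝ 1 a) (hb : ContDiff ℝ 1 b) :
    ContDiff ℝ 1 (fun x => rot (a x) (b x)) := by
  unfold rot
  fun_prop

theorem AR_contDiff_St {P : Pres} (Φ : GFlow P) (T : ℝ) {E : Type*} [NormedAddCommGroup E]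
    [NormedSpace ℝ E] {a : E → ℝ} {b : E → ℂ × ℝ} (ha : ContDiff ℝ 1 a) (hb : ContDiff ℝ 1 b)
    (hS : ∀ x, b x ∈ P.S) : ContDiff ℝ 1 (fun x => Φ.St T (a x) (b x)) := by
  unfold GFlow.St
  refine AR_contDiff_phi Φ contDiff_const ?_ fun x => AR_rot_mem (Φ.mem _ _ (hS x)) _
  exact AR_contDiff_rot ha (AR_contDiff_phi Φ contDiff_const hb hS)

theorem ARg_contDiff {P : Pres} (Φ : GFlow P) (T : ℝ) {v₁ : ℂ × ℝ} (hv : v₁ ∈ P.S) :
    ContDiff ℝ 1 (ARg Φ T v₁) := by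
  have h1 : ContDiff ℝ 1 (fun w : ℂ × ℝ => w.1.im) := Complex.imCLM.contDiff.comp contDiff_fst
  have h2 : ContDiff ℝ 1 (fun w : ℂ × ℝ => -w.1.re) :=
    (Complex.reCLM.contDiff.comp contDiff_fst).neg
  have h3 : ContDiff ℝ 1 (fun w : ℂ × ℝ => Φ.St T (-w.1.re) v₁) :=
    AR_contDiff_St Φ T h2 contDiff_const fun _ => hv
  exact AR_contDiff_St Φ (-T) h1
    (AR_contDiff_phi Φ contDiff_snd h3 fun w => AR_St_mem Φ T _ hv)
    fun w => Φ.mem _ _ (AR_St_mem Φ T _ hv)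

/-- the map `h(x) = St (-T) b (φ_t x)` and its derivative -/
theorem AR_h_deriv {P : Pres} (Φ : GFlow P) (T b t : ℝ) {v : ℂ × ℝ} (hv : v ∈ P.S) :
    ∃ A : (ℂ × ℝ) →L[ℝ] (ℂ × ℝ), HasFDerivAt (fun x => Φ.St (-T) b (Φ.φ t x)) A v ∧
      A.det = Real.exp (2 * P.u v.1 - 2 * P.u (Φ.St (-T) b (Φ.φ t v)).1) := by
  have e : (fun x => Φ.St (-T) b (Φ.φ t x)) = fun x => Φ.φ T (rot b (Φ.φ (-T + t) x)) := by
    funext x
    rw [GFlow.St, neg_neg, Φ.add]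
  have hy : Φ.φ (-T + t) v ∈ P.S := Φ.mem _ _ hv
  have hy2 : rot b (Φ.φ (-T + t) v) ∈ P.S := AR_rot_mem hy b
  have h1 := AR_diff P Φ (-T + t) v hv
  have h2 : HasFDerivAt (rot b) (ContinuousLinearMap.id ℝ (ℂ × ℝ)) (Φ.φ (-T + t) v) := by
    have h3 : (rot b) = fun w : ℂ × ℝ => w + (0, b) := by
      funext w
      simp [rot, Prod.ext_iff]
    rw [h3]
    exact (hasFDerivAt_id _).add_const _
  have h4 := AR_diff P Φ T _ hy2
  have h5 := h4.comp v (h2.comp v h1)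
  refine ⟨_, by rw [e]; exact h5, ?_⟩
  have hc : ∀ f g : (ℂ × ℝ) →L[ℝ] (ℂ × ℝ), (f.comp g).det = f.det * g.det := fun f g =>
    LinearMap.det_comp (f : (ℂ × ℝ) →ₗ[ℝ] (ℂ × ℝ)) (g : (ℂ × ℝ) →ₗ[ℝ] (ℂ × ℝ))
  rw [ContinuousLinearMap.id_comp, hc, AR_det_phi P Φ _ _ hv, AR_det_phi P Φ _ _ hy2,
    ← Real.exp_add]
  have e2 : Φ.St (-T) b (Φ.φ t v) = Φ.φ T (rot b (Φ.φ (-T + t) v)) := congrFun e v
  rw [e2]
  congr 1
  have e3 : (rot b (Φ.φ (-T + t) v)).1 = (Φ.φ (-T + t) v).1 := rfl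
  rw [e3]
  ring

theorem AR_line {g : ℂ × ℝ → ℂ × ℝ} {F : (ℂ × ℝ) →L[ℝ] (ℂ × ℝ)} {w : ℂ × ℝ}
    (hF : HasFDerivAt g F w) (e : ℂ × ℝ) : HasDerivAt (fun s : ℝ => g (w + s • e)) (F e) 0 := by
  have h1 : HasDerivAt (fun s : ℝ => w + s • e) e 0 := by
    simpa using ((hasDerivAt_id (0 : ℝ)).smul_const e).const_add w
  have h2 : HasFDerivAt g F (w + (0 : ℝ) • e) := by simpa using hF
  exact h2.comp_hasDerivAt (0 : ℝ) h1

/-- velocity of the curve `St` -/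
def ARE {P : Pres} (Φ : GFlow P) (T : ℝ) (v : ℂ × ℝ) : ℂ × ℝ :=
  -(Φ.J T v) • HH P.u v + Φ.J' T v • VV

theorem ARg_fderiv {P : Pres} (Φ : GFlow P) (T : ℝ) {v₁ : ℂ × ℝ} (hv : v₁ ∈ P.S) (w : ℂ × ℝ) :
    |(fderiv ℝ (ARg Φ T v₁) w).det| = Real.exp (-2 * P.u (ARg Φ T v₁ w).1) *
      Φ.Jac T (Φ.St T (-w.1.re) v₁, w.1.re, w.1.im, w.2) := by
  set v := Φ.St T (-w.1.re) v₁ with hvdef
  have hvS : v ∈ P.S := AR_St_mem Φ T _ hv
  obtain ⟨A, hA, hAd⟩ := AR_h_deriv Φ T w.1.im w.2 hvS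
  have hF : HasFDerivAt (ARg Φ T v₁) (fderiv ℝ (ARg Φ T v₁) w) w :=
    ((ARg_contDiff Φ T hv).differentiable (by norm_num)).differentiableAt.hasFDerivAt
  have hτ : -T + w.2 = w.2 - T := by ring
  -- first direction
  have d1 : fderiv ℝ (ARg Φ T v₁) w (1, 0) = A (-ARE Φ T v) := by
    refine (AR_line hF (1, 0)).unique ?_
    have e : (fun s : ℝ => ARg Φ T v₁ (w + s • ((1 : ℂ), (0 : ℝ)))) =
        (fun x => Φ.St (-T) w.1.im (Φ.φ w.2 x)) ∘ (fun s : ℝ => Φ.St T (-(w.1.re + s)) v₁) := by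
      funext s
      simp [ARg]
    rw [e]
    have h1 : HasDerivAt (fun s : ℝ => Φ.St T (-(w.1.re + s)) v₁) (-ARE Φ T v) 0 := by
      have h2 := St_deriv P Φ T (-(w.1.re + 0)) v₁ hv
      have h3 : HasDerivAt (fun s : ℝ => -(w.1.re + s)) (-1) 0 :=
        ((hasDerivAt_id (0 : ℝ)).const_add w.1.re).neg
      have h4 := HasDerivAt.scomp (0 : ℝ) h2 h3
      rw [add_zero, neg_one_smul] at h4
      exact h4
    have h5 : HasFDerivAt (fun x => Φ.St (-T) w.1.im (Φ.φ w.2 x)) A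
        (Φ.St T (-(w.1.re + 0)) v₁) := by
      rw [add_zero]
      exact hA
    exact h5.comp_hasDerivAt (0 : ℝ) h1
  -- second direction
  have d2 : fderiv ℝ (ARg Φ T v₁) w (Complex.I, 0) = A (ARE Φ (w.2 - T) v) := by
    refine (AR_line hF (Complex.I, 0)).unique ?_
    have e : (fun s : ℝ => ARg Φ T v₁ (w + s • (Complex.I, (0 : ℝ)))) =
        (fun x => Φ.St (-T) w.1.im (Φ.φ w.2 x)) ∘ (fun s : ℝ => Φ.St (w.2 - T) s v) := by
      funext s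
      have h1 : w + s • (Complex.I, (0 : ℝ)) = (⟨w.1.re, w.1.im + s⟩, w.2) := by
        refine Prod.ext (Complex.ext ?_ ?_) ?_ <;> simp
      rw [h1]
      change Φ.St (-T) (w.1.im + s) (Φ.φ w.2 v) =
        Φ.St (-T) w.1.im (Φ.φ w.2 (Φ.St (w.2 - T) s v))
      rw [← (St_add P Φ (-T) w.1.im s (Φ.φ w.2 v)).1]
      congr 1
      rw [GFlow.St, GFlow.St, neg_neg, ← Φ.add, ← Φ.add]
      congr 2
      · ring
      · rw [hτ]
    rw [e]
    have h1 : HasDerivAt (fun s : ℝ => Φ.St (w.2 - T) s v) (ARE Φ (w.2 - T) v) 0 := by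
      have h2 := St_deriv P Φ (w.2 - T) 0 v hvS
      rw [(St_add P Φ (w.2 - T) 0 0 v).2] at h2
      exact h2
    have h5 : HasFDerivAt (fun x => Φ.St (-T) w.1.im (Φ.φ w.2 x)) A
        (Φ.St (w.2 - T) 0 v) := by
      rw [(St_add P Φ (w.2 - T) 0 0 v).2]
      exact hA
    exact h5.comp_hasDerivAt (0 : ℝ) h1
  -- third direction
  have d3 : fderiv ℝ (ARg Φ T v₁) w (0, 1) = A (XX P.u v) := by
    refine (AR_line hF (0, 1)).unique ?_
    have e : (fun s : ℝ => ARg Φ T v₁ (w + s • ((0 : ℂ), (1 : ℝ)))) =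
        (fun x => Φ.St (-T) w.1.im (Φ.φ w.2 x)) ∘ (fun s : ℝ => Φ.φ s v) := by
      funext s
      have h1 : w + s • ((0 : ℂ), (1 : ℝ)) = (⟨w.1.re, w.1.im⟩, w.2 + s) := by
        refine Prod.ext (Complex.ext ?_ ?_) ?_ <;> simp
      rw [h1]
      change Φ.St (-T) w.1.im (Φ.φ (w.2 + s) v) = Φ.St (-T) w.1.im (Φ.φ w.2 (Φ.φ s v))
      rw [Φ.add]
    rw [e]
    have h1 : HasDerivAt (fun s : ℝ => Φ.φ s v) (XX P.u v) 0 := by
      have h2 := Φ.deriv_t 0 v hvS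
      rw [Φ.zero] at h2
      exact h2
    have h5 : HasFDerivAt (fun x => Φ.St (-T) w.1.im (Φ.φ w.2 x)) A (Φ.φ 0 v) := by
      rw [Φ.zero]
      exact hA
    exact h5.comp_hasDerivAt (0 : ℝ) h1
  have hcomp : fderiv ℝ (ARg Φ T v₁) w = A.comp ((ARfr P.u v).comp
      (ARmat 0 0 1 (Φ.J T v) (-Φ.J (w.2 - T) v) 0 (-Φ.J' T v) (Φ.J' (w.2 - T) v) 0)) := by
    refine ContinuousLinearMap.ext fun x => ?_
    have hx : x = x.1.re • ((1 : ℂ), (0 : ℝ)) + x.1.im • (Complex.I, (0 : ℝ)) +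
        x.2 • ((0 : ℂ), (1 : ℝ)) := by
      refine Prod.ext (Complex.ext ?_ ?_) ?_ <;> simp
    conv_lhs => rw [hx]
    rw [map_add, map_add, map_smul, map_smul, map_smul, d1, d2, d3, ← map_smul, ← map_smul,
      ← map_smul, ← map_add, ← map_add]
    simp only [ContinuousLinearMap.comp_apply]
    congr 1
    rw [ARfr_apply, ARmat_apply]
    simp only [ARE]
    module
  have hc : ∀ f g : (ℂ × ℝ) →L[ℝ] (ℂ × ℝ), (f.comp g).det = f.det * g.det := fun f g =>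
    LinearMap.det_comp (f : (ℂ × ℝ) →ₗ[ℝ] (ℂ × ℝ)) (g : (ℂ × ℝ) →ₗ[ℝ] (ℂ × ℝ))
  rw [hcomp, hc, hc, hAd, ARfr_det, ARmat_det, abs_mul, abs_mul, Real.abs_exp, Real.abs_exp,
    ← mul_assoc, ← Real.exp_add]
  have e4 : Φ.St (-T) w.1.im (Φ.φ w.2 v) = ARg Φ T v₁ w := rfl
  rw [e4, GFlow.Jac]
  congr 1
  · congr 1
    ring
  · congr 1
    ring

/-! ### measure theory -/

theorem AR_haar : (volume : Measure (ℂ × ℝ)).IsAddHaarMeasure := by
  rw [Measure.volume_eq_prod]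
  infer_instance

theorem AR_area {f : ℂ × ℝ → ℂ × ℝ} (hf : ContDiff ℝ 1 f) {s B : Set (ℂ × ℝ)}
    (hs : MeasurableSet s) (hsub : B ⊆ f '' s) (g : ℂ × ℝ → ℝ≥0∞)
    (hg : Measurable g) :
    ∫⁻ y in B, g y ≤ ∫⁻ x in s, ENNReal.ofReal |(fderiv ℝ f x).det| * g (f x) := by
  have := AR_haar
  have hfm : Measurable f := hf.continuous.measurable
  have hd : ∀ t : Set (ℂ × ℝ), ∀ x ∈ t, HasFDerivWithinAt f (fderiv ℝ f x) t x := fun t x _ =>
    ((hf.differentiable (by norm_num)) x).hasFDerivAt.hasFDerivWithinAt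
  have hae : AEMeasurable (fun x => ENNReal.ofReal |(fderiv ℝ f x).det|)
      ((volume : Measure (ℂ × ℝ)).restrict s) :=
    aemeasurable_ofReal_abs_det_fderivWithin volume hs (hd s)
  set ν₂ : Measure (ℂ × ℝ) := Measure.map f (((volume : Measure (ℂ × ℝ)).restrict s).withDensity
    (fun x => ENNReal.ofReal |(fderiv ℝ f x).det|)) with hν
  have hle : (volume : Measure (ℂ × ℝ)).restrict B ≤ ν₂ := by
    rw [Measure.le_iff]
    intro W hW
    rw [Measure.restrict_apply hW, hν, Measure.map_apply hfm hW,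
      withDensity_apply _ (hfm hW), Measure.restrict_restrict (hfm hW)]
    have h1 : W ∩ B ⊆ f '' (f ⁻¹' W ∩ s) := by
      rintro y ⟨hyW, hyB⟩
      obtain ⟨x, hx, rfl⟩ := hsub hyB
      exact ⟨x, ⟨hyW, hx⟩, rfl⟩
    exact (measure_mono h1).trans
      (addHaar_image_le_lintegral_abs_det_fderiv volume ((hfm hW).inter hs) (hd _))
  calc ∫⁻ y in B, g y ≤ ∫⁻ y, g y ∂ν₂ := lintegral_mono' hle le_rfl
    _ = ∫⁻ x, g (f x) ∂(((volume : Measure (ℂ × ℝ)).restrict s).withDensity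
        (fun x => ENNReal.ofReal |(fderiv ℝ f x).det|)) := by
        rw [hν, lintegral_map hg hfm]
    _ = ∫⁻ x in s, ENNReal.ofReal |(fderiv ℝ f x).det| * g (f x) := by
        exact lintegral_withDensity_eq_lintegral_mul₀ hae (hg.comp hfm).aemeasurable

theorem AR_phi_meas {P : Pres} (Φ : GFlow P) :
    Measurable (fun p : ℝ × (ℂ × ℝ) => Φ.φ p.1 p.2) := by
  classical
  have hS : MeasurableSet ((univ : Set ℝ) ×ˢ P.S) :=
    (isOpen_univ.prod (AR_isOpenS P)).measurableSet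
  have h1 : ContinuousOn (fun p : ℝ × (ℂ × ℝ) => Φ.φ p.1 p.2) (univ ×ˢ P.S) :=
    Φ.smooth.continuousOn
  have h2 : ContinuousOn (fun p : ℝ × (ℂ × ℝ) => Φ.φ p.1 p.2) ((univ : Set ℝ) ×ˢ P.S)ᶜ := by
    refine continuousOn_snd.congr fun p hp => ?_
    refine Φ.out _ _ fun h => hp ⟨mem_univ _, h⟩
  have h3 := h1.measurable_piecewise h2 hS
  rwa [Set.piecewise_same] at h3

theorem AR_St_meas {P : Pres} (Φ : GFlow P) (T : ℝ) :
    Measurable (fun p : ℝ × (ℂ × ℝ) => Φ.St T p.1 p.2) := by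
  have h := AR_phi_meas Φ
  have h1 : Measurable (fun p : ℝ × (ℂ × ℝ) => Φ.φ T p.2) :=
    h.comp (measurable_const.prodMk measurable_snd)
  have h2 : Measurable (fun p : ℝ × (ℂ × ℝ) => rot p.1 (Φ.φ T p.2)) := by
    unfold rot
    exact (measurable_fst.comp h1).prodMk ((measurable_snd.comp h1).add measurable_fst)
  exact h.comp (measurable_const.prodMk h2)

theorem AR_Xi_meas {P : Pres} (Φ : GFlow P) (T : ℝ) : Measurable (Φ.Xi T) := by
  unfold GFlow.Xi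
  refine Measurable.prodMk ?_ ?_
  · exact (AR_St_meas Φ T).comp ((measurable_fst.comp measurable_snd).prodMk measurable_fst)
  · refine (AR_St_meas Φ (-T)).comp (Measurable.prodMk (by fun_prop) ?_)
    exact (AR_phi_meas Φ).comp (Measurable.prodMk (by fun_prop) measurable_fst)

theorem AR_Jac_cont {P : Pres} (Φ : GFlow P) (T : ℝ) :
    ContinuousOn (Φ.Jac T) {p : (ℂ × ℝ) × ℝ × ℝ × ℝ | p.1 ∈ P.S} := by
  obtain ⟨-, hJ, hJ', -⟩ := len_cont P Φ T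
  have c1 : ContinuousOn (fun p : (ℂ × ℝ) × ℝ × ℝ × ℝ => (T, p.1))
      {p : (ℂ × ℝ) × ℝ × ℝ × ℝ | p.1 ∈ P.S} := by fun_prop
  have c2 : ContinuousOn (fun p : (ℂ × ℝ) × ℝ × ℝ × ℝ => (p.2.2.2 - T, p.1))
      {p : (ℂ × ℝ) × ℝ × ℝ × ℝ | p.1 ∈ P.S} := by fun_prop
  have m1 : MapsTo (fun p : (ℂ × ℝ) × ℝ × ℝ × ℝ => (T, p.1))
      {p : (ℂ × ℝ) × ℝ × ℝ × ℝ | p.1 ∈ P.S} (univ ×ˢ P.S) := fun p hp => ⟨mem_univ _, hp⟩
  have m2 : MapsTo (fun p : (ℂ × ℝ) × ℝ × ℝ × ℝ => (p.2.2.2 - T, p.1))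
      {p : (ℂ × ℝ) × ℝ × ℝ × ℝ | p.1 ∈ P.S} (univ ×ˢ P.S) := fun p hp => ⟨mem_univ _, hp⟩
  exact (((hJ.comp c1 m1).mul (hJ'.comp c2 m2)).sub ((hJ'.comp c1 m1).mul (hJ.comp c2 m2))).abs

/-- the integrand -/
def ARK {P : Pres} (Φ : GFlow P) (T : ℝ) (D : Set ((ℂ × ℝ) × ℝ × ℝ × ℝ)) (A B : Set (ℂ × ℝ))
    (p : (ℂ × ℝ) × ℝ × ℝ × ℝ) : ℝ≥0∞ :=
  D.indicator (fun p => (A ×ˢ B).indicator 1 (Φ.Xi T p) * ENNReal.ofReal (Φ.Jac T p)) p

theorem ARK_meas {P : Pres} (Φ : GFlow P) (T : ℝ) (D : Set ((ℂ × ℝ) × ℝ × ℝ × ℝ))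
    (hD : MeasurableSet D) (hDS : ∀ p ∈ D, p.1 ∈ P.S) (A B : Set (ℂ × ℝ))
    (hA : MeasurableSet A) (hB : MeasurableSet B) : Measurable (ARK Φ T D A B) := by
  classical
  have hU : IsOpen {p : (ℂ × ℝ) × ℝ × ℝ × ℝ | p.1 ∈ P.S} :=
    (AR_isOpenS P).preimage continuous_fst
  have h1 : Measurable ({p : (ℂ × ℝ) × ℝ × ℝ × ℝ | p.1 ∈ P.S}.piecewise (Φ.Jac T) 0) :=
    (AR_Jac_cont Φ T).measurable_piecewise continuousOn_const hU.measurableSet
  have e : ARK Φ T D A B = D.indicator (fun p => (A ×ˢ B).indicator 1 (Φ.Xi T p) *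
      ENNReal.ofReal ({p : (ℂ × ℝ) × ℝ × ℝ × ℝ | p.1 ∈ P.S}.piecewise (Φ.Jac T) 0 p)) := by
    funext p
    unfold ARK
    by_cases hp : p ∈ D
    · have hp2 : p ∈ {p : (ℂ × ℝ) × ℝ × ℝ × ℝ | p.1 ∈ P.S} := hDS p hp
      rw [indicator_of_mem hp, indicator_of_mem hp, Set.piecewise_eq_of_mem _ _ _ hp2]
    · rw [indicator_of_notMem hp, indicator_of_notMem hp]
  rw [e]
  refine Measurable.indicator ?_ hD
  refine Measurable.mul ?_ h1.ennreal_ofReal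
  exact (measurable_one.indicator (hA.prod hB)).comp (AR_Xi_meas Φ T)

/-- coordinates of the three parameters -/
def ARi (w : ℂ × ℝ) : ℝ × ℝ × ℝ := (w.1.re, w.1.im, w.2)

theorem ARi_mp : MeasurePreserving ARi volume volume := by
  have h1 : MeasurePreserving (Prod.map Complex.measurableEquivRealProd (id : ℝ → ℝ))
      (volume : Measure (ℂ × ℝ)) (volume : Measure ((ℝ × ℝ) × ℝ)) :=
    Complex.volume_preserving_equiv_real_prod.prod (MeasurePreserving.id volume)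
  have h2 : MeasurePreserving (MeasurableEquiv.prodAssoc : (ℝ × ℝ) × ℝ ≃ᵐ ℝ × ℝ × ℝ)
      volume volume := volume_preserving_prodAssoc
  have h3 := h2.comp h1
  exact h3

theorem AR_inner {P : Pres} (Φ : GFlow P) (T : ℝ) (D : Set ((ℂ × ℝ) × ℝ × ℝ × ℝ))
    (hD : MeasurableSet D) (hDS : ∀ p ∈ D, p.1 ∈ P.S) (A B : Set (ℂ × ℝ))
    (hA : MeasurableSet A) (hB : MeasurableSet B)
    (hsurj : ∀ v₁ ∈ A, ∀ v₂ ∈ B, ∃ p ∈ D, Φ.Xi T p = (v₁, v₂)) (v₁ : ℂ × ℝ) (hv : v₁ ∈ A)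
    (hvS : v₁ ∈ P.S) :
    P.m B ≤ ∫⁻ q : ℝ × ℝ × ℝ, ARK Φ T D A B (Φ.St T (-q.1) v₁, q) := by
  classical
  have hSm : MeasurableSet P.S := (AR_isOpenS P).measurableSet
  -- the density
  have hu : ContinuousOn (fun w : ℂ × ℝ => ENNReal.ofReal (Real.exp (2 * P.u w.1))) P.S := by
    have h1 : ContinuousOn (fun w : ℂ × ℝ => P.u w.1) P.S :=
      P.smooth.continuousOn.comp continuousOn_fst fun w hw => hw.1
    exact ENNReal.continuous_ofReal.comp_continuousOn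
      (Real.continuous_exp.comp_continuousOn (continuousOn_const.mul h1))
  set g0 : ℂ × ℝ → ℝ≥0∞ := P.S.indicator
    (fun w : ℂ × ℝ => ENNReal.ofReal (Real.exp (2 * P.u w.1))) with hg0
  have hg0m : Measurable g0 := by
    have h1 : Measurable (P.S.piecewise
        (fun w : ℂ × ℝ => ENNReal.ofReal (Real.exp (2 * P.u w.1))) 0) :=
      hu.measurable_piecewise continuousOn_const hSm
    rwa [Set.piecewise_eq_indicator] at h1
  have hmB : P.m B = ∫⁻ y in B, g0 y := by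
    rw [Pres.m, withDensity_apply _ hB, Measure.restrict_restrict hB, hg0,
      lintegral_indicator hSm, Measure.restrict_restrict hSm, inter_comm]
  -- the set of parameters
  have hgc : ContDiff ℝ 1 (ARg Φ T v₁) := ARg_contDiff Φ T hvS
  have hθ : Continuous (fun w : ℂ × ℝ => (Φ.St T (-w.1.re) v₁, w.1.re, w.1.im, w.2)) := by
    have h1 : Continuous (fun w : ℂ × ℝ => Φ.St T (-w.1.re) v₁) := by
      have h2 : ContDiff ℝ 1 (fun w : ℂ × ℝ => -w.1.re) :=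
        (Complex.reCLM.contDiff.comp contDiff_fst).neg
      exact (AR_contDiff_St Φ T h2 contDiff_const fun _ => hvS).continuous
    fun_prop
  set s : Set (ℂ × ℝ) := {w | (Φ.St T (-w.1.re) v₁, w.1.re, w.1.im, w.2) ∈ D ∧
    ARg Φ T v₁ w ∈ B} with hs
  have hsm : MeasurableSet s :=
    (hθ.measurable hD).inter (hgc.continuous.measurable hB)
  have hsub : B ⊆ ARg Φ T v₁ '' s := by
    intro v₂ hv₂
    obtain ⟨⟨v, b₁, b₂, t⟩, hp, hXi⟩ := hsurj v₁ hv v₂ hv₂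
    have h1 : Φ.St T b₁ v = v₁ := congrArg Prod.fst hXi
    have h2 : Φ.St (-T) b₂ (Φ.φ t v) = v₂ := congrArg Prod.snd hXi
    have h3 : Φ.St T (-b₁) v₁ = v := by
      rw [← h1, (St_add P Φ T (-b₁) b₁ v).1, neg_add_cancel, (St_add P Φ T 0 0 v).2]
    refine ⟨(⟨b₁, b₂⟩, t), ⟨?_, ?_⟩, ?_⟩
    · simp only [h3]
      exact hp
    · simp only [ARg, h3, h2]
      exact hv₂
    · simp only [ARg, h3, h2]
  rw [hmB]
  refine (AR_area hgc hsm hsub g0 hg0m).trans ?_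
  have hK := ARK_meas Φ T D hD hDS A B hA hB
  have h4 : ∫⁻ q : ℝ × ℝ × ℝ, ARK Φ T D A B (Φ.St T (-q.1) v₁, q) =
      ∫⁻ w : ℂ × ℝ, ARK Φ T D A B (Φ.St T (-(ARi w).1) v₁, ARi w) := by
    refine (ARi_mp.lintegral_comp ?_).symm
    refine hK.comp (Measurable.prodMk ?_ measurable_id)
    exact (AR_St_meas Φ T).comp (Measurable.prodMk (by fun_prop) measurable_const)
  rw [h4, ← lintegral_indicator hsm]
  refine lintegral_mono fun w => ?_
  by_cases hw : w ∈ s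
  · rw [indicator_of_mem hw]
    have h5 : ARg Φ T v₁ w ∈ P.S := Φ.mem _ _ (AR_rot_mem (Φ.mem _ _
      (Φ.mem _ _ (AR_St_mem Φ T _ hvS))) _)
    have h9 : 0 ≤ Real.exp (-2 * P.u (ARg Φ T v₁ w).1) *
        Φ.Jac T (Φ.St T (-w.1.re) v₁, w.1.re, w.1.im, w.2) :=
      mul_nonneg (Real.exp_pos _).le (abs_nonneg _)
    rw [hg0, indicator_of_mem h5, ARg_fderiv Φ T hvS w, ← ENNReal.ofReal_mul h9]
    unfold ARK ARi
    rw [indicator_of_mem hw.1]
    have h6 : Φ.Xi T (Φ.St T (-w.1.re) v₁, w.1.re, w.1.im, w.2) = (v₁, ARg Φ T v₁ w) := by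
      refine Prod.ext ?_ rfl
      change Φ.St T w.1.re (Φ.St T (-w.1.re) v₁) = v₁
      rw [(St_add P Φ T w.1.re (-w.1.re) v₁).1, add_neg_cancel, (St_add P Φ T 0 0 v₁).2]
    have h7 : (v₁, ARg Φ T v₁ w) ∈ A ×ˢ B := ⟨hv, hw.2⟩
    rw [h6, indicator_of_mem h7, Pi.one_apply, one_mul]
    refine ENNReal.ofReal_le_ofReal (le_of_eq ?_)
    have h8 : Real.exp (-2 * P.u (ARg Φ T v₁ w).1) * Real.exp (2 * P.u (ARg Φ T v₁ w).1) = 1 := by
      rw [← Real.exp_add]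
      simp
    rw [mul_assoc, mul_comm (Φ.Jac _ _), ← mul_assoc, h8, one_mul]
  · rw [indicator_of_notMem hw]
    exact zero_le

theorem area_ineq_pr (P : Pres) (Φ : GFlow P) (T : ℝ) (D : Set ((ℂ × ℝ) × ℝ × ℝ × ℝ))
    (hD : MeasurableSet D) (hDS : ∀ p ∈ D, p.1 ∈ P.S) (A B : Set (ℂ × ℝ))
    (hA : MeasurableSet A) (hB : MeasurableSet B)
    (hsurj : ∀ v₁ ∈ A, ∀ v₂ ∈ B, ∃ p ∈ D, Φ.Xi T p = (v₁, v₂)) :
    P.m A * P.m B ≤ ∫⁻ p in D, (A ×ˢ B).indicator 1 (Φ.Xi T p) * ENNReal.ofReal (Φ.Jac T p)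
      ∂(P.m.prod (volume.prod (volume.prod volume))) := by
  rcases B.eq_empty_or_nonempty with hBe | ⟨v₂, hv₂⟩
  · rw [hBe, measure_empty, mul_zero]
    exact zero_le
  have hAS : ∀ v₁ ∈ A, v₁ ∈ P.S := by
    intro v₁ hv₁
    obtain ⟨p, hp, hXi⟩ := hsurj v₁ hv₁ v₂ hv₂
    have h1 : Φ.St T p.2.1 p.1 = v₁ := congrArg Prod.fst hXi
    rw [← h1]
    exact AR_St_mem Φ T _ (hDS p hp)
  have hK := ARK_meas Φ T D hD hDS A B hA hB
  have hsf : SFinite P.m := by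
    unfold Pres.m
    infer_instance
  have e1 : ∫⁻ p in D, (A ×ˢ B).indicator 1 (Φ.Xi T p) * ENNReal.ofReal (Φ.Jac T p)
      ∂(P.m.prod (volume.prod (volume.prod volume))) =
      ∫⁻ p, ARK Φ T D A B p ∂(P.m.prod (volume : Measure (ℝ × ℝ × ℝ))) := by
    rw [← lintegral_indicator hD]
    rfl
  have e2 : ∫⁻ p, ARK Φ T D A B p ∂(P.m.prod (volume : Measure (ℝ × ℝ × ℝ))) =
      ∫⁻ q : ℝ × ℝ × ℝ, ∫⁻ v, ARK Φ T D A B (v, q) ∂P.m :=
    lintegral_prod_symm _ hK.aemeasurable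
  have e3 : ∀ q : ℝ × ℝ × ℝ, ∫⁻ v, ARK Φ T D A B (v, q) ∂P.m =
      ∫⁻ v, ARK Φ T D A B (Φ.St T (-q.1) v, q) ∂P.m := by
    intro q
    exact ((m_St P Φ T (-q.1)).lintegral_comp
      (hK.comp (measurable_id.prodMk measurable_const))).symm
  have hK2 : Measurable (fun p : (ℝ × ℝ × ℝ) × (ℂ × ℝ) =>
      ARK Φ T D A B (Φ.St T (-p.1.1) p.2, p.1)) := by
    refine hK.comp (Measurable.prodMk ?_ measurable_fst)
    exact (AR_St_meas Φ T).comp (Measurable.prodMk (by fun_prop) measurable_snd)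
  have e4 : ∫⁻ q : ℝ × ℝ × ℝ, ∫⁻ v, ARK Φ T D A B (Φ.St T (-q.1) v, q) ∂P.m =
      ∫⁻ v, (∫⁻ q : ℝ × ℝ × ℝ, ARK Φ T D A B (Φ.St T (-q.1) v, q)) ∂P.m :=
    lintegral_lintegral_swap hK2.aemeasurable
  rw [e1, e2, lintegral_congr e3, e4]
  calc P.m A * P.m B = ∫⁻ _ in A, P.m B ∂P.m := by
        rw [setLIntegral_const, mul_comm]
    _ ≤ ∫⁻ v in A, (∫⁻ q : ℝ × ℝ × ℝ, ARK Φ T D A B (Φ.St T (-q.1) v, q)) ∂P.m := by
        refine setLIntegral_mono' hA fun v hv => ?_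
        exact AR_inner Φ T D hD hDS A B hA hB hsurj v hv (hAS v hv)
    _ ≤ ∫⁻ v, (∫⁻ q : ℝ × ℝ × ℝ, ARK Φ T D A B (Φ.St T (-q.1) v, q)) ∂P.m :=
        setLIntegral_le_lintegral _ _

end

end Pool.Agent.EQ

namespace Pool.Agent.EQ

open MeasureTheory Filter Topology Set
open scoped ContDiff ENNReal

noncomputable section

theorem area_ineq (P : Pres) (Φ : GFlow P) (T : ℝ) (D : Set ((ℂ × ℝ) × ℝ × ℝ × ℝ))
    (hD : MeasurableSet D) (hDS : ∀ p ∈ D, p.1 ∈ P.S) (A B : Set (ℂ × ℝ))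
    (hA : MeasurableSet A) (hB : MeasurableSet B)
    (hsurj : ∀ v₁ ∈ A, ∀ v₂ ∈ B, ∃ p ∈ D, Φ.Xi T p = (v₁, v₂)) :
    P.m A * P.m B ≤ ∫⁻ p in D, (A ×ˢ B).indicator 1 (Φ.Xi T p) * ENNReal.ofReal (Φ.Jac T p)
      ∂(P.m.prod (volume.prod (volume.prod volume))) := by
  first
    | exact area_ineq_pr ..
    | (apply area_ineq_pr <;> assumption)

end

end Pool.Agent.EQ

end

/-! ## Lib_helper71.EQ.D.CL -/

section

/-! Project EQ, block CL (helper29). -/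

set_option autoImplicit false

namespace Pool.Agent.EQ

open MeasureTheory Filter Topology Set
open scoped ContDiff ENNReal

noncomputable section

theorem CL_open (P : Pres) : IsOpen P.S := P.isOpen.prod isOpen_univ

theorem CL_open2 (P : Pres) : IsOpen ((univ : Set ℝ) ×ˢ P.S) := isOpen_univ.prod (CL_open P)

/-! ### smoothness of `kk` -/

theorem CL_dx {Ω : Set ℂ} (hΩ : IsOpen Ω) {f : ℂ → ℝ} (hf : ContDiffOn ℝ ∞ f Ω) :
    ContDiffOn ℝ ∞ (dx f) Ω :=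
  (hf.fderiv_of_isOpen hΩ (by norm_num)).clm_apply contDiffOn_const

theorem CL_dy {Ω : Set ℂ} (hΩ : IsOpen Ω) {f : ℂ → ℝ} (hf : ContDiffOn ℝ ∞ f Ω) :
    ContDiffOn ℝ ∞ (dy f) Ω :=
  (hf.fderiv_of_isOpen hΩ (by norm_num)).clm_apply contDiffOn_const

theorem CL_kk (P : Pres) : ContDiffOn ℝ ∞ (kk P.u) P.Ω := by
  have h1 : ContDiffOn ℝ ∞ (lap P.u) P.Ω :=
    (CL_dx P.isOpen (CL_dx P.isOpen P.smooth)).add (CL_dy P.isOpen (CL_dy P.isOpen P.smooth))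
  exact ((contDiffOn_const.mul P.smooth).exp).mul h1

theorem CL_kkS (P : Pres) : ContDiffOn ℝ 1 (fun v : ℂ × ℝ => kk P.u v.1) P.S :=
  ((CL_kk P).of_le (by norm_num)).comp contDiffOn_fst (fun _ hv => hv.1)

/-! ### the line -/

theorem CL_phi_cont (P : Pres) (Φ : GFlow P) (v : ℂ × ℝ) (hv : v ∈ P.S) :
    Continuous fun t => Φ.φ t v :=
  continuous_iff_continuousAt.2 fun t => (Φ.deriv_t t v hv).continuousAt

theorem CL_kk_cont (P : Pres) (Φ : GFlow P) (v : ℂ × ℝ) (hv : v ∈ P.S) :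
    Continuous fun t => kk P.u (Φ.φ t v).1 :=
  (CL_kkS P).continuousOn.comp_continuous (CL_phi_cont P Φ v hv) (fun t => Φ.mem t v hv)

theorem CL_Bpos (P : Pres) (Φ : GFlow P) (hk : ∀ z ∈ P.Ω, 0 ≤ kk P.u z) (x : ℂ × ℝ)
    (hx : x ∈ P.S) (τ : ℝ) (hτ : τ ≤ 0) : -τ ≤ -Φ.B τ x ∧ 1 ≤ Φ.B' τ x := by
  rcases eq_or_lt_of_le hτ with h0 | h0
  · rw [h0, Φ.B0, Φ.B'0]
    exact ⟨le_refl _, le_refl _⟩
  · have h1 := J_pos P Φ hk (-τ) (by linarith) (Φ.φ τ x) (Φ.mem _ _ hx)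
    have h2 : Φ.φ (-τ) (Φ.φ τ x) = x := by rw [← Φ.add, neg_add_cancel, Φ.zero]
    rw [GFlow.J, GFlow.J', h2, neg_neg] at h1
    exact ⟨h1.1, h1.2.1⟩

theorem CL_Bric (P : Pres) (Φ : GFlow P) (hk : ∀ z ∈ P.Ω, 0 ≤ kk P.u z) (κ : ℝ) (hκ : 1 ≤ κ)
    (hk2 : ∀ z ∈ P.Ω, kk P.u z ≤ κ ^ 2) (x : ℂ × ℝ) (hx : x ∈ P.S) (τ : ℝ) (hτ : τ ≤ -1) :
    Φ.B' τ x ≤ (κ + 1) * -Φ.B τ x := by
  have h1 := J_ric P Φ hk κ hκ hk2 (-τ) (by linarith) (Φ.φ τ x) (Φ.mem _ _ hx)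
  have h2 : Φ.φ (-τ) (Φ.φ τ x) = x := by rw [← Φ.add, neg_add_cancel, Φ.zero]
  rw [GFlow.J, GFlow.J', h2, neg_neg] at h1
  exact h1.1

theorem CL_Banti (P : Pres) (Φ : GFlow P) (hk : ∀ z ∈ P.Ω, 0 ≤ kk P.u z) (x : ℂ × ℝ)
    (hx : x ∈ P.S) : AntitoneOn (fun τ => -Φ.B τ x) (Iic 0) := by
  refine antitoneOn_of_hasDerivWithinAt_nonpos (convex_Iic 0) ?_ (f' := fun τ => -Φ.B' τ x) ?_ ?_
  · intro τ _
    exact (Φ.hB τ x hx).neg.continuousAt.continuousWithinAt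
  · intro τ _
    exact (Φ.hB τ x hx).neg.hasDerivWithinAt
  · intro τ hτ
    rw [interior_Iic] at hτ
    have := (CL_Bpos P Φ hk x hx τ (le_of_lt hτ)).2
    linarith

theorem CL_B'anti (P : Pres) (Φ : GFlow P) (hk : ∀ z ∈ P.Ω, 0 ≤ kk P.u z) (x : ℂ × ℝ)
    (hx : x ∈ P.S) : AntitoneOn (fun τ => Φ.B' τ x) (Iic 0) := by
  refine antitoneOn_of_hasDerivWithinAt_nonpos (convex_Iic 0) ?_
    (f' := fun τ => kk P.u (Φ.φ τ x).1 * Φ.B τ x) ?_ ?_
  · intro τ _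
    exact (Φ.hB' τ x hx).continuousAt.continuousWithinAt
  · intro τ _
    exact (Φ.hB' τ x hx).hasDerivWithinAt
  · intro τ hτ
    rw [interior_Iic] at hτ
    have hτ' : τ < 0 := hτ
    have h1 := (CL_Bpos P Φ hk x hx τ hτ'.le).1
    have h2 := hk _ (Φ.mem τ x hx).1
    exact mul_nonpos_of_nonneg_of_nonpos h2 (by linarith)

theorem CL_Bexp (P : Pres) (Φ : GFlow P) (hk : ∀ z ∈ P.Ω, 0 ≤ kk P.u z) (κ : ℝ) (hκ : 1 ≤ κ)
    (hk2 : ∀ z ∈ P.Ω, kk P.u z ≤ κ ^ 2) (x : ℂ × ℝ) (hx : x ∈ P.S) (τ : ℝ) (hτ : τ ≤ -2) :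
    Real.exp (-κ - 1) * -Φ.B τ x ≤ -Φ.B (τ + 1) x := by
  have hmono : MonotoneOn (fun τ => Real.exp ((κ + 1) * τ) * -Φ.B τ x) (Iic (-1)) := by
    have hder : ∀ τ, HasDerivAt (fun τ => Real.exp ((κ + 1) * τ) * -Φ.B τ x)
        (Real.exp ((κ + 1) * τ) * ((κ + 1) * -Φ.B τ x - Φ.B' τ x)) τ := by
      intro τ
      have h1 : HasDerivAt (fun τ : ℝ => Real.exp ((κ + 1) * τ))
          (Real.exp ((κ + 1) * τ) * ((κ + 1) * 1)) τ :=
        ((hasDerivAt_id τ).const_mul (κ + 1)).exp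
      have h2 := h1.mul (Φ.hB τ x hx).neg
      refine h2.congr_deriv ?_
      simp only [Pi.neg_apply]
      ring
    refine monotoneOn_of_hasDerivWithinAt_nonneg (convex_Iic (-1)) ?_
      (f' := fun τ => Real.exp ((κ + 1) * τ) * ((κ + 1) * -Φ.B τ x - Φ.B' τ x)) ?_ ?_
    · intro τ _
      exact (hder τ).continuousAt.continuousWithinAt
    · intro τ _
      exact (hder τ).hasDerivWithinAt
    · intro τ hτ
      rw [interior_Iic] at hτ
      have hτ' : τ < -1 := hτ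
      have := CL_Bric P Φ hk κ hκ hk2 x hx τ hτ'.le
      exact mul_nonneg (Real.exp_pos _).le (by linarith)
  have h1 := hmono (show τ ∈ Iic (-1 : ℝ) by simp only [mem_Iic]; linarith)
    (show τ + 1 ∈ Iic (-1 : ℝ) by simp only [mem_Iic]; linarith) (by linarith)
  simp only at h1
  have h2 : Real.exp ((κ + 1) * (τ + 1)) = Real.exp ((κ + 1) * τ) * Real.exp (κ + 1) := by
    rw [← Real.exp_add]
    congr 1
    ring
  rw [h2, mul_assoc] at h1
  have h3 : -Φ.B τ x ≤ Real.exp (κ + 1) * -Φ.B (τ + 1) x :=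
    le_of_mul_le_mul_left h1 (Real.exp_pos _)
  have h4 : Real.exp (-κ - 1) * Real.exp (κ + 1) = 1 := by
    rw [← Real.exp_add]
    simp
  calc Real.exp (-κ - 1) * -Φ.B τ x
      ≤ Real.exp (-κ - 1) * (Real.exp (κ + 1) * -Φ.B (τ + 1) x) :=
        mul_le_mul_of_nonneg_left h3 (Real.exp_pos _).le
    _ = -Φ.B (τ + 1) x := by rw [← mul_assoc, h4, one_mul]

theorem CL_B'lower (P : Pres) (Φ : GFlow P) (hk : ∀ z ∈ P.Ω, 0 ≤ kk P.u z) (x : ℂ × ℝ)
    (hx : x ∈ P.S) (τ : ℝ) (hτ : τ ≤ -1) (g : ℝ → ℝ) (hg : Continuous g) (hg0 : ∀ r, 0 ≤ g r)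
    (hgk : ∀ r ∈ Icc τ (τ + 1), g r ≤ kk P.u (Φ.φ r x).1) :
    -Φ.B (τ + 1) x * ∫ r in τ..(τ + 1), g r ≤ Φ.B' τ x := by
  set c : ℝ := -Φ.B (τ + 1) x with hc
  have hder : ∀ r, HasDerivAt (fun r => Φ.B' r x + c * ∫ s in τ..r, g s)
      (kk P.u (Φ.φ r x).1 * Φ.B r x + c * g r) r := by
    intro r
    have h1 : HasDerivAt (fun r => ∫ s in τ..r, g s) (g r) r :=
      intervalIntegral.integral_hasDerivAt_right (hg.intervalIntegrable _ _)
        (hg.stronglyMeasurableAtFilter _ _) hg.continuousAt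
    exact (Φ.hB' r x hx).add (h1.const_mul c)
  have hanti : AntitoneOn (fun r => Φ.B' r x + c * ∫ s in τ..r, g s) (Icc τ (τ + 1)) := by
    refine antitoneOn_of_hasDerivWithinAt_nonpos (convex_Icc _ _) ?_
      (f' := fun r => kk P.u (Φ.φ r x).1 * Φ.B r x + c * g r) ?_ ?_
    · intro r _
      exact (hder r).continuousAt.continuousWithinAt
    · intro r _
      exact (hder r).hasDerivWithinAt
    · intro r hr
      rw [interior_Icc] at hr
      have h1 : c ≤ -Φ.B r x :=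
        CL_Banti P Φ hk x hx (show r ∈ Iic (0 : ℝ) by simp only [mem_Iic]; linarith [hr.2])
          (show τ + 1 ∈ Iic (0 : ℝ) by simp only [mem_Iic]; linarith) hr.2.le
      have h2 := hgk r ⟨hr.1.le, hr.2.le⟩
      have h3 := hg0 r
      have h4 : 0 ≤ -Φ.B r x := by
        have := (CL_Bpos P Φ hk x hx r (by linarith [hr.2])).1
        linarith [hr.2]
      nlinarith [mul_le_mul_of_nonneg_right h1 h3, mul_le_mul_of_nonneg_left h2 h4]
  have h5 := hanti (left_mem_Icc.2 (by linarith)) (right_mem_Icc.2 (by linarith))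
    (show τ ≤ τ + 1 by linarith)
  simp only [intervalIntegral.integral_same, mul_zero, add_zero] at h5
  have h6 := (CL_Bpos P Φ hk x hx (τ + 1) (by linarith)).2
  linarith

/-! ### the curves -/

theorem CL_mem (P : Pres) (Φ : GFlow P) (T s : ℝ) (v : ℂ × ℝ) (hv : v ∈ P.S) :
    rot s (Φ.φ T v) ∈ P.S := ⟨(Φ.mem T v hv).1, mem_univ _⟩

theorem CL_p (P : Pres) (Φ : GFlow P) (T a s : ℝ) (v : ℂ × ℝ) :
    Φ.φ a (Φ.St T s v) = Φ.φ (a - T) (rot s (Φ.φ T v)) := by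
  rw [GFlow.St, ← Φ.add, sub_eq_add_neg]

theorem CL_contDiffAt (P : Pres) (Φ : GFlow P) (t : ℝ) (v : ℂ × ℝ) (hv : v ∈ P.S) :
    ContDiffAt ℝ 1 (Φ.φ t) v := by
  have h1 : ContDiffAt ℝ 1 (fun p : ℝ × (ℂ × ℝ) => Φ.φ p.1 p.2) (t, v) :=
    Φ.smooth.contDiffAt ((CL_open2 P).mem_nhds ⟨mem_univ _, hv⟩)
  have h2 : ContDiffAt ℝ 1 (fun w : ℂ × ℝ => (t, w)) v := by fun_prop
  exact h1.comp (f := fun w : ℂ × ℝ => (t, w)) v h2

theorem CL_rot_contDiff (w : ℂ × ℝ) : ContDiff ℝ 1 fun s : ℝ => rot s w := by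
  unfold rot
  fun_prop

theorem CL_curve (P : Pres) (Φ : GFlow P) (T a s : ℝ) (v : ℂ × ℝ) (hv : v ∈ P.S) :
    HasDerivAt (fun s => Φ.φ a (Φ.St T s v))
      (Φ.B (a - T) (rot s (Φ.φ T v)) • HH P.u (Φ.φ a (Φ.St T s v)) +
        Φ.B' (a - T) (rot s (Φ.φ T v)) • VV) s := by
  have hx : rot s (Φ.φ T v) ∈ P.S := CL_mem P Φ T s v hv
  have h1 : HasDerivAt (fun s : ℝ => rot s (Φ.φ T v)) VV s := by
    have h2 : HasDerivAt (fun s : ℝ => (Φ.φ T v).2 + s) 1 s := by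
      simpa using (hasDerivAt_id s).const_add (Φ.φ T v).2
    exact (hasDerivAt_const s (Φ.φ T v).1).prodMk h2
  have h3 : HasFDerivAt (Φ.φ (a - T)) (fderiv ℝ (Φ.φ (a - T)) (rot s (Φ.φ T v)))
      (rot s (Φ.φ T v)) :=
    ((CL_contDiffAt P Φ (a - T) _ hx).differentiableAt (by norm_num)).hasFDerivAt
  have h4 := h3.comp_hasDerivAt s h1
  rw [Φ.dV (a - T) _ hx, ← CL_p P Φ T a s v] at h4
  have h5 : (Φ.φ (a - T) ∘ fun s : ℝ => rot s (Φ.φ T v)) = fun s => Φ.φ a (Φ.St T s v) := by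
    funext r
    exact (CL_p P Φ T a r v).symm
  rw [h5] at h4
  exact h4

theorem CL_ftc (P : Pres) (Φ : GFlow P) (T a b : ℝ) (v : ℂ × ℝ) (hv : v ∈ P.S)
    (f : ℂ × ℝ → ℝ) (hf : ContDiffOn ℝ 1 f P.S) (F : ℝ → ℝ) (hF : Continuous F)
    (hb : ∀ s, |Φ.B (a - T) (rot s (Φ.φ T v)) *
        fderiv ℝ f (Φ.φ a (Φ.St T s v)) (HH P.u (Φ.φ a (Φ.St T s v))) +
      Φ.B' (a - T) (rot s (Φ.φ T v)) * fderiv ℝ f (Φ.φ a (Φ.St T s v)) VV| ≤ F s) :
    |f (Φ.φ a (Φ.St T b v)) - f (Φ.φ a v)| ≤ |∫ s in (0 : ℝ)..b, F s| := by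
  have hmem : ∀ s, Φ.φ a (Φ.St T s v) ∈ P.S := fun s => by
    rw [CL_p]
    exact Φ.mem _ _ (CL_mem P Φ T s v hv)
  have hcd : ContDiff ℝ 1 fun s => f (Φ.φ a (Φ.St T s v)) := by
    rw [contDiff_iff_contDiffAt]
    intro s
    have h1 : ContDiffAt ℝ 1 f (Φ.φ (a - T) (rot s (Φ.φ T v))) := by
      rw [← CL_p]
      exact hf.contDiffAt ((CL_open P).mem_nhds (hmem s))
    have h2 : ContDiffAt ℝ 1 (Φ.φ (a - T)) (rot s (Φ.φ T v)) :=
      CL_contDiffAt P Φ (a - T) _ (CL_mem P Φ T s v hv)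
    have h3 : ContDiffAt ℝ 1 (fun s : ℝ => rot s (Φ.φ T v)) s :=
      (CL_rot_contDiff _).contDiffAt
    have h4 : ContDiffAt ℝ 1 (fun s : ℝ => Φ.φ (a - T) (rot s (Φ.φ T v))) s :=
      h2.comp (f := fun s : ℝ => rot s (Φ.φ T v)) s h3
    have h5 : ContDiffAt ℝ 1 (fun s : ℝ => f (Φ.φ (a - T) (rot s (Φ.φ T v)))) s :=
      h1.comp (f := fun s : ℝ => Φ.φ (a - T) (rot s (Φ.φ T v))) s h4
    have h6 : (fun s => f (Φ.φ a (Φ.St T s v))) =
        fun s : ℝ => f (Φ.φ (a - T) (rot s (Φ.φ T v))) := by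
      funext r
      rw [CL_p]
    rw [h6]
    exact h5
  have hder : ∀ s, HasDerivAt (fun s => f (Φ.φ a (Φ.St T s v)))
      (Φ.B (a - T) (rot s (Φ.φ T v)) *
        fderiv ℝ f (Φ.φ a (Φ.St T s v)) (HH P.u (Φ.φ a (Φ.St T s v))) +
      Φ.B' (a - T) (rot s (Φ.φ T v)) * fderiv ℝ f (Φ.φ a (Φ.St T s v)) VV) s := by
    intro s
    have h1 : HasFDerivAt f (fderiv ℝ f (Φ.φ a (Φ.St T s v))) (Φ.φ a (Φ.St T s v)) :=
      ((hf.contDiffAt ((CL_open P).mem_nhds (hmem s))).differentiableAt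
        (by norm_num)).hasFDerivAt
    have h2 := h1.comp_hasDerivAt s (CL_curve P Φ T a s v hv)
    rw [map_add, map_smul, map_smul, smul_eq_mul, smul_eq_mul] at h2
    exact h2
  have hftc : ∫ s in (0 : ℝ)..b, deriv (fun s => f (Φ.φ a (Φ.St T s v))) s =
      f (Φ.φ a (Φ.St T b v)) - f (Φ.φ a (Φ.St T 0 v)) :=
    intervalIntegral.integral_deriv_eq_sub (fun s _ => (hder s).differentiableAt)
      ((hcd.continuous_deriv (le_refl _)).intervalIntegrable _ _)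
  have h0 : Φ.St T 0 v = v := by
    rw [GFlow.St]
    have h1 : rot 0 (Φ.φ T v) = Φ.φ T v := by simp [rot]
    rw [h1, ← Φ.add, neg_add_cancel, Φ.zero]
  rw [h0] at hftc
  rw [← hftc]
  have hFi : IntervalIntegrable F volume 0 b := hF.intervalIntegrable _ _
  rw [← Real.norm_eq_abs]
  refine intervalIntegral.norm_integral_le_abs_of_norm_le ?_ hFi
  refine Eventually.of_forall fun s => ?_
  rw [(hder s).deriv]
  exact hb s

theorem CL_int_mono {F G : ℝ → ℝ} (_hF : Continuous F) (hG : Continuous G)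
    (hF0 : ∀ r, 0 ≤ F r) (hFG : ∀ r, F r ≤ G r) {s b : ℝ} (hs : s ∈ uIcc 0 b) :
    |∫ r in (0 : ℝ)..s, F r| ≤ |∫ r in (0 : ℝ)..b, G r| := by
  have h1 : |∫ r in (0 : ℝ)..s, F r| ≤ |∫ r in (0 : ℝ)..s, G r| := by
    have hGi : IntervalIntegrable G volume 0 s := hG.intervalIntegrable _ _
    rw [← Real.norm_eq_abs]
    refine intervalIntegral.norm_integral_le_abs_of_norm_le ?_ hGi
    refine Eventually.of_forall fun r => ?_
    rw [Real.norm_eq_abs, abs_of_nonneg (hF0 r)]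
    exact hFG r
  refine h1.trans ?_
  have hGi : IntervalIntegrable G volume 0 b := hG.intervalIntegrable _ _
  refine intervalIntegral.abs_integral_mono_interval ?_ ?_ hGi
  · exact uIoc_subset_uIoc_of_uIcc_subset_uIcc (uIcc_subset_uIcc_left hs)
  · exact Eventually.of_forall fun r => (hF0 r).trans (hFG r)

/-! ### closeness of the curvatures -/

theorem CL_B_cont (P : Pres) (Φ : GFlow P) (T a : ℝ) (v : ℂ × ℝ) (hv : v ∈ P.S) :
    Continuous fun s => -Φ.B (a - T) (rot s (Φ.φ T v)) := by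
  have h1 := (len_cont P Φ T).2.1
  have hmem : ∀ s, Φ.φ (a - T) (rot s (Φ.φ T v)) ∈ P.S :=
    fun s => Φ.mem _ _ (CL_mem P Φ T s v hv)
  have h2 : Continuous fun s => Φ.φ (a - T) (rot s (Φ.φ T v)) := by
    rw [continuous_iff_continuousAt]
    intro s
    have h3 : ContinuousAt (Φ.φ (a - T)) (rot s (Φ.φ T v)) :=
      (CL_contDiffAt P Φ (a - T) _ (CL_mem P Φ T s v hv)).continuousAt
    exact h3.comp (f := fun s : ℝ => rot s (Φ.φ T v)) (CL_rot_contDiff _).continuous.continuousAt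
  have h4 : Continuous fun s => Φ.J (T - a) (Φ.φ (a - T) (rot s (Φ.φ T v))) :=
    h1.comp_continuous (f := fun s => (T - a, Φ.φ (a - T) (rot s (Φ.φ T v))))
      (continuous_const.prodMk h2) (fun s => ⟨mem_univ _, hmem s⟩)
  have h5 : (fun s => Φ.J (T - a) (Φ.φ (a - T) (rot s (Φ.φ T v)))) =
      fun s => -Φ.B (a - T) (rot s (Φ.φ T v)) := by
    funext s
    rw [GFlow.J, ← Φ.add, sub_add_sub_cancel, sub_self, Φ.zero, neg_sub]
  rw [h5] at h4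
  exact h4

theorem CL_B'_cont (P : Pres) (Φ : GFlow P) (T a : ℝ) (v : ℂ × ℝ) (hv : v ∈ P.S) :
    Continuous fun s => Φ.B' (a - T) (rot s (Φ.φ T v)) := by
  have h1 := (len_cont P Φ T).2.2.1
  have hmem : ∀ s, Φ.φ (a - T) (rot s (Φ.φ T v)) ∈ P.S :=
    fun s => Φ.mem _ _ (CL_mem P Φ T s v hv)
  have h2 : Continuous fun s => Φ.φ (a - T) (rot s (Φ.φ T v)) := by
    rw [continuous_iff_continuousAt]
    intro s
    have h3 : ContinuousAt (Φ.φ (a - T)) (rot s (Φ.φ T v)) :=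
      (CL_contDiffAt P Φ (a - T) _ (CL_mem P Φ T s v hv)).continuousAt
    exact h3.comp (f := fun s : ℝ => rot s (Φ.φ T v)) (CL_rot_contDiff _).continuous.continuousAt
  have h4 : Continuous fun s => Φ.J' (T - a) (Φ.φ (a - T) (rot s (Φ.φ T v))) :=
    h1.comp_continuous (f := fun s => (T - a, Φ.φ (a - T) (rot s (Φ.φ T v))))
      (continuous_const.prodMk h2) (fun s => ⟨mem_univ _, hmem s⟩)
  have h5 : (fun s => Φ.J' (T - a) (Φ.φ (a - T) (rot s (Φ.φ T v)))) =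
      fun s => Φ.B' (a - T) (rot s (Φ.φ T v)) := by
    funext s
    rw [GFlow.J', ← Φ.add, sub_add_sub_cancel, sub_self, Φ.zero, neg_sub]
  rw [h5] at h4
  exact h4

theorem CL_len (P : Pres) (Φ : GFlow P) (T b : ℝ) (v : ℂ × ℝ) :
    Φ.len T b v = |∫ s in (0 : ℝ)..b, -Φ.B (0 - T) (rot s (Φ.φ T v))| := by
  rw [GFlow.len]
  congr 2
  funext s
  rw [GFlow.J, GFlow.St, ← Φ.add, add_neg_cancel, Φ.zero, zero_sub]

/-- the curvatures at time `a` along the curves are close -/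
theorem CL_kclose (P : Pres) (Φ : GFlow P) (hk : ∀ z ∈ P.Ω, 0 ≤ kk P.u z) (L δ : ℝ)
    (hL : 1 ≤ L) (hLk : ∀ v ∈ P.S, |fderiv ℝ (kk P.u) v.1 (HH P.u v).1| ≤ L)
    (T b : ℝ) (v : ℂ × ℝ) (hv : v ∈ P.S) (hlen : Φ.len T b v ≤ δ) (s : ℝ) (hs : s ∈ uIcc 0 b)
    (a : ℝ) (ha0 : 0 ≤ a) (haT : a ≤ T) :
    kk P.u (Φ.φ a v).1 - L * δ ≤ kk P.u (Φ.φ a (Φ.St T s v)).1 := by
  have hmem : ∀ s, Φ.φ a (Φ.St T s v) ∈ P.S := fun s => by
    rw [CL_p]
    exact Φ.mem _ _ (CL_mem P Φ T s v hv)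
  have hB0 : ∀ r, 0 ≤ -Φ.B (a - T) (rot r (Φ.φ T v)) := fun r => by
    have := (CL_Bpos P Φ hk _ (CL_mem P Φ T r v hv) (a - T) (by linarith)).1
    linarith
  have h1 := CL_ftc P Φ T a s v hv (fun v => kk P.u v.1) (CL_kkS P)
    (fun r => L * -Φ.B (a - T) (rot r (Φ.φ T v)))
    (continuous_const.mul (CL_B_cont P Φ T a v hv)) (by
      intro r
      have hd : HasFDerivAt (fun v : ℂ × ℝ => kk P.u v.1)
          ((fderiv ℝ (kk P.u) (Φ.φ a (Φ.St T r v)).1).comp (ContinuousLinearMap.fst ℝ ℂ ℝ))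
          (Φ.φ a (Φ.St T r v)) := by
        have h2 : HasFDerivAt (kk P.u) (fderiv ℝ (kk P.u) (Φ.φ a (Φ.St T r v)).1)
            (Φ.φ a (Φ.St T r v)).1 :=
          (((CL_kk P).contDiffAt (P.isOpen.mem_nhds (hmem r).1)).differentiableAt
            (by norm_num)).hasFDerivAt
        exact h2.comp _ hasFDerivAt_fst
      rw [hd.fderiv]
      have h3 : ((fderiv ℝ (kk P.u) (Φ.φ a (Φ.St T r v)).1).comp
          (ContinuousLinearMap.fst ℝ ℂ ℝ)) VV = 0 := by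
        simp [VV]
      rw [h3, mul_zero, add_zero]
      have h4 := hLk _ (hmem r)
      rw [abs_mul]
      have h5 : |Φ.B (a - T) (rot r (Φ.φ T v))| = -Φ.B (a - T) (rot r (Φ.φ T v)) := by
        rw [abs_of_nonpos]
        linarith [hB0 r]
      rw [h5, mul_comm L]
      exact mul_le_mul_of_nonneg_left h4 (hB0 r))
  have h2 : |∫ r in (0 : ℝ)..s, L * -Φ.B (a - T) (rot r (Φ.φ T v))| ≤
      |∫ r in (0 : ℝ)..b, L * -Φ.B (0 - T) (rot r (Φ.φ T v))| := by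
    refine CL_int_mono (continuous_const.mul (CL_B_cont P Φ T a v hv))
      (continuous_const.mul (CL_B_cont P Φ T 0 v hv)) ?_ ?_ hs
    · intro r
      exact mul_nonneg (by linarith) (hB0 r)
    · intro r
      refine mul_le_mul_of_nonneg_left ?_ (by linarith)
      exact CL_Banti P Φ hk _ (CL_mem P Φ T r v hv)
        (show 0 - T ∈ Iic (0 : ℝ) by simp only [mem_Iic]; linarith)
        (show a - T ∈ Iic (0 : ℝ) by simp only [mem_Iic]; linarith) (by linarith)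
  have h3 : |∫ r in (0 : ℝ)..b, L * -Φ.B (0 - T) (rot r (Φ.φ T v))| = L * Φ.len T b v := by
    rw [intervalIntegral.integral_const_mul, abs_mul, abs_of_pos (by linarith : 0 < L), CL_len]
  rw [h3] at h2
  have h4 : L * Φ.len T b v ≤ L * δ := mul_le_mul_of_nonneg_left hlen (by linarith)
  have h5 := (abs_le.1 (h1.trans (h2.trans h4))).1
  linarith

/-! ### the decay -/

theorem CL_G_cont (P : Pres) (Φ : GFlow P) (ℓ : ℝ) (v : ℂ × ℝ) (hv : v ∈ P.S) :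
    Continuous fun r => max (kk P.u (Φ.φ r v).1 - ℓ) 0 :=
  ((CL_kk_cont P Φ v hv).sub continuous_const).max continuous_const

theorem CL_U_eq (P : Pres) (Φ : GFlow P) (κ ℓ a : ℝ) (v : ℂ × ℝ) :
    Φ.U κ ℓ (Φ.φ a v) =
      Real.exp (-κ - 1) * ∫ r in (0 : ℝ)..1, max (kk P.u (Φ.φ (r + a) v).1 - ℓ) 0 := by
  rw [GFlow.U]
  simp only [Φ.add]

theorem CL_U_cont (P : Pres) (Φ : GFlow P) (κ ℓ : ℝ) (v : ℂ × ℝ) (hv : v ∈ P.S) :
    Continuous fun a => Φ.U κ ℓ (Φ.φ a v) := by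
  have h1 : (fun a => Φ.U κ ℓ (Φ.φ a v)) = fun a =>
      Real.exp (-κ - 1) * ∫ r in (0 : ℝ)..1, max (kk P.u (Φ.φ (r + a) v).1 - ℓ) 0 := by
    funext a
    exact CL_U_eq P Φ κ ℓ a v
  rw [h1]
  refine continuous_const.mul ?_
  have h2 : Continuous (fun q : ℝ × ℝ => max (kk P.u (Φ.φ (q.2 + q.1) v).1 - ℓ) 0) :=
    (CL_G_cont P Φ ℓ v hv).comp (continuous_snd.add continuous_fst)
  exact intervalIntegral.continuous_parametric_intervalIntegral_of_continuous'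
    (f := fun (a r : ℝ) => max (kk P.u (Φ.φ (r + a) v).1 - ℓ) 0) h2 0 1

theorem CL_U_nonneg (P : Pres) (Φ : GFlow P) (κ ℓ : ℝ) (v : ℂ × ℝ) : 0 ≤ Φ.U κ ℓ v := by
  rw [GFlow.U]
  refine mul_nonneg (Real.exp_pos _).le ?_
  exact intervalIntegral.integral_nonneg (by norm_num) fun r _ => le_max_right _ _

theorem CL_Sa_deriv (P : Pres) (Φ : GFlow P) (κ ℓ : ℝ) (v : ℂ × ℝ) (hv : v ∈ P.S) (a : ℝ) :
    HasDerivAt (fun a => Φ.Sa κ ℓ a v) (Φ.U κ ℓ (Φ.φ a v)) a :=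
  intervalIntegral.integral_hasDerivAt_right ((CL_U_cont P Φ κ ℓ v hv).intervalIntegrable _ _)
    ((CL_U_cont P Φ κ ℓ v hv).stronglyMeasurableAtFilter _ _)
    (CL_U_cont P Φ κ ℓ v hv).continuousAt

theorem CL_Sa_mono (P : Pres) (Φ : GFlow P) (κ ℓ : ℝ) (v : ℂ × ℝ) (hv : v ∈ P.S) :
    Monotone fun a => Φ.Sa κ ℓ a v := by
  refine monotone_of_hasDerivAt_nonneg (f' := fun a => Φ.U κ ℓ (Φ.φ a v)) ?_ ?_
  · exact fun a => CL_Sa_deriv P Φ κ ℓ v hv a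
  · exact fun a => CL_U_nonneg P Φ κ ℓ _

theorem CL_Sa_zero (P : Pres) (Φ : GFlow P) (κ ℓ : ℝ) (v : ℂ × ℝ) : Φ.Sa κ ℓ 0 v = 0 := by
  rw [GFlow.Sa, intervalIntegral.integral_same]

/-- the Riccati lower bound along the curve -/
theorem CL_ric (P : Pres) (Φ : GFlow P) (hk : ∀ z ∈ P.Ω, 0 ≤ kk P.u z) (κ L δ : ℝ)
    (hκ : 1 ≤ κ) (hL : 1 ≤ L) (hk2 : ∀ z ∈ P.Ω, kk P.u z ≤ κ ^ 2)
    (hLk : ∀ v ∈ P.S, |fderiv ℝ (kk P.u) v.1 (HH P.u v).1| ≤ L)
    (T b : ℝ) (v : ℂ × ℝ) (hv : v ∈ P.S) (hlen : Φ.len T b v ≤ δ) (s : ℝ) (hs : s ∈ uIcc 0 b)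
    (a : ℝ) (ha0 : 0 ≤ a) (haT : a ≤ T - 2) :
    Φ.U κ (L * δ) (Φ.φ a v) * -Φ.B (a - T) (rot s (Φ.φ T v)) ≤
      Φ.B' (a - T) (rot s (Φ.φ T v)) := by
  have hx := CL_mem P Φ T s v hv
  have hg : Continuous fun r => max (kk P.u (Φ.φ (r + T) v).1 - L * δ) 0 :=
    (CL_G_cont P Φ (L * δ) v hv).comp (continuous_id.add continuous_const)
  have h1 := CL_B'lower P Φ hk _ hx (a - T) (by linarith) _ hg (fun r => le_max_right _ _) (by
    intro r hr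
    have h2 := CL_kclose P Φ hk L δ hL hLk T b v hv hlen s hs (r + T) (by linarith [hr.1])
      (by linarith [hr.2])
    rw [CL_p, add_sub_cancel_right] at h2
    exact max_le h2 (hk _ (Φ.mem _ _ hx).1))
  have h3 : ∫ r in (a - T)..(a - T + 1), max (kk P.u (Φ.φ (r + T) v).1 - L * δ) 0 =
      ∫ r in (0 : ℝ)..1, max (kk P.u (Φ.φ (r + a) v).1 - L * δ) 0 := by
    have h4 := intervalIntegral.integral_comp_add_right (a := (0 : ℝ)) (b := 1)
      (fun r => max (kk P.u (Φ.φ (r + T) v).1 - L * δ) 0) (a - T)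
    rw [zero_add, add_comm (1 : ℝ)] at h4
    rw [← h4]
    congr 1
    funext r
    rw [show r + (a - T) + T = r + a by ring]
  rw [h3] at h1
  have h5 := CL_Bexp P Φ hk κ hκ hk2 _ hx (a - T) (by linarith)
  have h6 : 0 ≤ ∫ r in (0 : ℝ)..1, max (kk P.u (Φ.φ (r + a) v).1 - L * δ) 0 :=
    intervalIntegral.integral_nonneg (by norm_num) fun r _ => le_max_right _ _
  rw [CL_U_eq]
  calc Real.exp (-κ - 1) * (∫ r in (0 : ℝ)..1, max (kk P.u (Φ.φ (r + a) v).1 - L * δ) 0) *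
        -Φ.B (a - T) (rot s (Φ.φ T v))
      = (Real.exp (-κ - 1) * -Φ.B (a - T) (rot s (Φ.φ T v))) *
          ∫ r in (0 : ℝ)..1, max (kk P.u (Φ.φ (r + a) v).1 - L * δ) 0 := by ring
    _ ≤ -Φ.B (a - T + 1) (rot s (Φ.φ T v)) *
          ∫ r in (0 : ℝ)..1, max (kk P.u (Φ.φ (r + a) v).1 - L * δ) 0 :=
        mul_le_mul_of_nonneg_right h5 h6
    _ ≤ _ := h1

/-- the decay of the Jacobi solutions -/
theorem CL_decay (P : Pres) (Φ : GFlow P) (hk : ∀ z ∈ P.Ω, 0 ≤ kk P.u z) (κ L δ : ℝ)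
    (hκ : 1 ≤ κ) (hL : 1 ≤ L) (hk2 : ∀ z ∈ P.Ω, kk P.u z ≤ κ ^ 2)
    (hLk : ∀ v ∈ P.S, |fderiv ℝ (kk P.u) v.1 (HH P.u v).1| ≤ L)
    (T b : ℝ) (v : ℂ × ℝ) (hv : v ∈ P.S) (hlen : Φ.len T b v ≤ δ) (s : ℝ) (hs : s ∈ uIcc 0 b)
    (a : ℝ) (ha0 : 0 ≤ a) (haT : a ≤ T - 2) :
    -Φ.B (a - T) (rot s (Φ.φ T v)) ≤
      Real.exp (-Φ.Sa κ (L * δ) a v) * -Φ.B (0 - T) (rot s (Φ.φ T v)) := by
  have hx := CL_mem P Φ T s v hv
  have hder : ∀ r, HasDerivAt (fun r => Real.exp (Φ.Sa κ (L * δ) r v) *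
      -Φ.B (r - T) (rot s (Φ.φ T v)))
      (Real.exp (Φ.Sa κ (L * δ) r v) * (Φ.U κ (L * δ) (Φ.φ r v) *
        -Φ.B (r - T) (rot s (Φ.φ T v)) - Φ.B' (r - T) (rot s (Φ.φ T v)))) r := by
    intro r
    have h1 := (CL_Sa_deriv P Φ κ (L * δ) v hv r).exp
    have h2 : HasDerivAt (fun r => Φ.B (r - T) (rot s (Φ.φ T v)))
        (Φ.B' (r - T) (rot s (Φ.φ T v))) r := by
      have h3 := (Φ.hB (r - T) _ hx).comp_sub_const r T
      exact h3
    have h4 := h1.mul h2.neg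
    refine h4.congr_deriv ?_
    simp only [Pi.neg_apply]
    ring
  have hanti : AntitoneOn (fun r => Real.exp (Φ.Sa κ (L * δ) r v) *
      -Φ.B (r - T) (rot s (Φ.φ T v))) (Icc 0 (T - 2)) := by
    refine antitoneOn_of_hasDerivWithinAt_nonpos (convex_Icc _ _) ?_
      (f' := fun r => Real.exp (Φ.Sa κ (L * δ) r v) * (Φ.U κ (L * δ) (Φ.φ r v) *
        -Φ.B (r - T) (rot s (Φ.φ T v)) - Φ.B' (r - T) (rot s (Φ.φ T v)))) ?_ ?_
    · intro r _
      exact (hder r).continuousAt.continuousWithinAt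
    · intro r _
      exact (hder r).hasDerivWithinAt
    · intro r hr
      rw [interior_Icc] at hr
      have := CL_ric P Φ hk κ L δ hκ hL hk2 hLk T b v hv hlen s hs r hr.1.le hr.2.le
      exact mul_nonpos_of_nonneg_of_nonpos (Real.exp_pos _).le (by linarith)
  have h1 := hanti (left_mem_Icc.2 (ha0.trans haT)) ⟨ha0, haT⟩ ha0
  simp only at h1
  rw [CL_Sa_zero, Real.exp_zero, one_mul] at h1
  have h2 : Real.exp (-Φ.Sa κ (L * δ) a v) * Real.exp (Φ.Sa κ (L * δ) a v) = 1 := by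
    rw [← Real.exp_add, neg_add_cancel, Real.exp_zero]
  calc -Φ.B (a - T) (rot s (Φ.φ T v))
      = Real.exp (-Φ.Sa κ (L * δ) a v) * (Real.exp (Φ.Sa κ (L * δ) a v) *
          -Φ.B (a - T) (rot s (Φ.φ T v))) := by rw [← mul_assoc, h2, one_mul]
    _ ≤ _ := mul_le_mul_of_nonneg_left h1 (Real.exp_pos _).le

theorem CL_int_le {F G : ℝ → ℝ} (hG : Continuous G) {b : ℝ}
    (hFG : ∀ r ∈ uIcc 0 b, |F r| ≤ G r) :
    |∫ r in (0 : ℝ)..b, F r| ≤ |∫ r in (0 : ℝ)..b, G r| := by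
  have hGi : IntervalIntegrable G volume 0 b := hG.intervalIntegrable _ _
  rw [← Real.norm_eq_abs]
  refine intervalIntegral.norm_integral_le_abs_of_norm_le ?_ hGi
  refine (ae_restrict_iff' measurableSet_uIoc).2 (Eventually.of_forall fun r hr => ?_)
  exact hFG r (uIoc_subset_uIcc hr)

theorem CL_Sa_nonneg (P : Pres) (Φ : GFlow P) (κ ℓ : ℝ) (v : ℂ × ℝ) (hv : v ∈ P.S) (a : ℝ)
    (ha : 0 ≤ a) : 0 ≤ Φ.Sa κ ℓ a v := by
  have h1 := CL_Sa_mono P Φ κ ℓ v hv ha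
  simp only at h1
  rwa [CL_Sa_zero] at h1

theorem CL_Sa_cont (P : Pres) (Φ : GFlow P) (κ ℓ : ℝ) (v : ℂ × ℝ) (hv : v ∈ P.S) :
    Continuous fun a => Φ.Sa κ ℓ a v :=
  continuous_iff_continuousAt.2 fun a => (CL_Sa_deriv P Φ κ ℓ v hv a).continuousAt

theorem CL_gg (P : Pres) (Φ : GFlow P) (κ ℓ C : ℝ) (hC : 0 < C) (v : ℂ × ℝ) (hv : v ∈ P.S)
    (hgg : Φ.gg κ ℓ v ≤ ENNReal.ofReal C) (x : ℝ) (hx : 0 ≤ x) :
    ∫ a in (0 : ℝ)..x, Real.exp (-Φ.Sa κ ℓ a v) ≤ C := by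
  have hc1 : Continuous fun a => Real.exp (-Φ.Sa κ ℓ a v) :=
    (CL_Sa_cont P Φ κ ℓ v hv).neg.rexp
  have hc2 : Continuous fun a => Real.exp (-(Φ.Sa κ ℓ a v) / 2) :=
    ((CL_Sa_cont P Φ κ ℓ v hv).neg.div_const 2).rexp
  have h1 : ∫ a in (0 : ℝ)..x, Real.exp (-Φ.Sa κ ℓ a v) ≤
      ∫ a in (0 : ℝ)..x, Real.exp (-(Φ.Sa κ ℓ a v) / 2) := by
    refine intervalIntegral.integral_mono_on hx (hc1.intervalIntegrable _ _)
      (hc2.intervalIntegrable _ _) fun a ha => ?_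
    have := CL_Sa_nonneg P Φ κ ℓ v hv a ha.1
    exact Real.exp_le_exp.2 (by linarith)
  refine h1.trans ?_
  rw [← ENNReal.ofReal_le_ofReal_iff hC.le, intervalIntegral.integral_of_le hx,
    ofReal_integral_eq_lintegral_ofReal]
  · refine le_trans ?_ hgg
    rw [GFlow.gg]
    exact lintegral_mono_set Ioc_subset_Ioi_self
  · exact (intervalIntegrable_iff_integrableOn_Ioc_of_le hx).1 (hc2.intervalIntegrable _ _)
  · exact Eventually.of_forall fun a => (Real.exp_pos _).le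

/-- the distance of the values of `f` along the two orbits at time `a` -/
theorem CL_point (P : Pres) (Φ : GFlow P) (hk : ∀ z ∈ P.Ω, 0 ≤ kk P.u z) (κ L δ M : ℝ)
    (hκ : 1 ≤ κ) (hL : 1 ≤ L) (hk2 : ∀ z ∈ P.Ω, kk P.u z ≤ κ ^ 2)
    (hLk : ∀ v ∈ P.S, |fderiv ℝ (kk P.u) v.1 (HH P.u v).1| ≤ L)
    (f : ℂ × ℝ → ℝ) (hf : ContDiffOn ℝ 1 f P.S)
    (hM : ∀ v ∈ P.S, |f v| ≤ M ∧ |fderiv ℝ f v (HH P.u v)| ≤ M ∧ |fderiv ℝ f v VV| ≤ M)
    (T b : ℝ) (hT : 3 ≤ T) (v : ℂ × ℝ) (hv : v ∈ P.S) (hlen : Φ.len T b v ≤ δ)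
    (a : ℝ) (ha0 : 0 ≤ a) (haT : a ≤ T) :
    |f (Φ.φ a (Φ.St T b v)) - f (Φ.φ a v)| ≤
      M * (κ + 2) * δ * Real.exp (-Φ.Sa κ (L * δ) (min a (T - 2)) v) := by
  have hM0 : 0 ≤ M := (abs_nonneg _).trans (hM v hv).1
  have hmem : ∀ s, Φ.φ a (Φ.St T s v) ∈ P.S := fun s => by
    rw [CL_p]
    exact Φ.mem _ _ (CL_mem P Φ T s v hv)
  have hpos := fun (r t : ℝ) (ht : t ≤ 0) => CL_Bpos P Φ hk _ (CL_mem P Φ T r v hv) t ht
  -- step 1: the fundamental theorem of calculus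
  have h1 := CL_ftc P Φ T a b v hv f hf
    (fun r => M * (-Φ.B (a - T) (rot r (Φ.φ T v)) + Φ.B' (a - T) (rot r (Φ.φ T v))))
    (continuous_const.mul ((CL_B_cont P Φ T a v hv).add (CL_B'_cont P Φ T a v hv))) (by
      intro r
      have h2 := (hM _ (hmem r)).2.1
      have h3 := (hM _ (hmem r)).2.2
      have h4 := hpos r (a - T) (by linarith)
      refine (abs_add_le _ _).trans ?_
      rw [abs_mul, abs_mul]
      have h5 : |Φ.B (a - T) (rot r (Φ.φ T v))| = -Φ.B (a - T) (rot r (Φ.φ T v)) := by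
        rw [abs_of_nonpos]
        linarith [h4.1]
      have h6 : |Φ.B' (a - T) (rot r (Φ.φ T v))| = Φ.B' (a - T) (rot r (Φ.φ T v)) := by
        rw [abs_of_nonneg]
        linarith [h4.2]
      rw [h5, h6]
      have h7 : 0 ≤ -Φ.B (a - T) (rot r (Φ.φ T v)) := by linarith [h4.1]
      have h8 : 0 ≤ Φ.B' (a - T) (rot r (Φ.φ T v)) := by linarith [h4.2]
      have h9 := mul_le_mul_of_nonneg_left h2 h7
      have h10 := mul_le_mul_of_nonneg_left h3 h8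
      linarith)
  -- step 2: comparison with time `min a (T - 1)`
  have h2 : ∀ r, M * (-Φ.B (a - T) (rot r (Φ.φ T v)) + Φ.B' (a - T) (rot r (Φ.φ T v))) ≤
      M * (κ + 2) * -Φ.B (min a (T - 1) - T) (rot r (Φ.φ T v)) := by
    intro r
    rw [mul_assoc]
    refine mul_le_mul_of_nonneg_left ?_ hM0
    rcases le_total a (T - 1) with h3 | h3
    · rw [min_eq_left h3]
      have := CL_Bric P Φ hk κ hκ hk2 _ (CL_mem P Φ T r v hv) (a - T) (by linarith)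
      linarith
    · rw [min_eq_right h3]
      have h4 := CL_Bric P Φ hk κ hκ hk2 _ (CL_mem P Φ T r v hv) (T - 1 - T) (by linarith)
      have h5 := CL_Banti P Φ hk _ (CL_mem P Φ T r v hv)
        (show T - 1 - T ∈ Iic (0 : ℝ) by simp only [mem_Iic]; linarith)
        (show a - T ∈ Iic (0 : ℝ) by simp only [mem_Iic]; linarith) (by linarith)
      have h6 := CL_B'anti P Φ hk _ (CL_mem P Φ T r v hv)
        (show T - 1 - T ∈ Iic (0 : ℝ) by simp only [mem_Iic]; linarith)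
        (show a - T ∈ Iic (0 : ℝ) by simp only [mem_Iic]; linarith) (by linarith)
      simp only at h5 h6
      linarith
  -- step 3: decay
  have hn0 : 0 ≤ min a (T - 2) := le_min ha0 (by linarith)
  have hnT : min a (T - 2) ≤ T - 2 := min_le_right _ _
  have hnm : min a (T - 2) ≤ min a (T - 1) := min_le_min_left _ (by linarith)
  have hmT : min a (T - 1) ≤ T - 1 := min_le_right _ _
  have h3 : ∀ r ∈ uIcc 0 b, M * (κ + 2) * -Φ.B (min a (T - 1) - T) (rot r (Φ.φ T v)) ≤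
      M * (κ + 2) * (Real.exp (-Φ.Sa κ (L * δ) (min a (T - 2)) v) *
        -Φ.B (0 - T) (rot r (Φ.φ T v))) := by
    intro r hr
    refine mul_le_mul_of_nonneg_left ?_ (mul_nonneg hM0 (by linarith))
    have h4 := CL_decay P Φ hk κ L δ hκ hL hk2 hLk T b v hv hlen r hr _ hn0 hnT
    have h5 := CL_Banti P Φ hk _ (CL_mem P Φ T r v hv)
      (show min a (T - 2) - T ∈ Iic (0 : ℝ) by simp only [mem_Iic]; linarith)
      (show min a (T - 1) - T ∈ Iic (0 : ℝ) by simp only [mem_Iic]; linarith) (by linarith)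
    exact h5.trans h4
  have h4 : |∫ r in (0 : ℝ)..b,
      M * (-Φ.B (a - T) (rot r (Φ.φ T v)) + Φ.B' (a - T) (rot r (Φ.φ T v)))| ≤
      |∫ r in (0 : ℝ)..b, M * (κ + 2) * (Real.exp (-Φ.Sa κ (L * δ) (min a (T - 2)) v) *
        -Φ.B (0 - T) (rot r (Φ.φ T v)))| := by
    refine CL_int_le (continuous_const.mul (continuous_const.mul (CL_B_cont P Φ T 0 v hv))) ?_
    intro r hr
    have h5 := hpos r (a - T) (by linarith)
    rw [abs_of_nonneg (mul_nonneg hM0 (by linarith [h5.1, h5.2]))]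
    exact (h2 r).trans (h3 r hr)
  have h5 : |∫ r in (0 : ℝ)..b, M * (κ + 2) * (Real.exp (-Φ.Sa κ (L * δ) (min a (T - 2)) v) *
        -Φ.B (0 - T) (rot r (Φ.φ T v)))| =
      M * (κ + 2) * (Real.exp (-Φ.Sa κ (L * δ) (min a (T - 2)) v) * Φ.len T b v) := by
    rw [intervalIntegral.integral_const_mul, intervalIntegral.integral_const_mul, abs_mul,
      abs_of_nonneg (mul_nonneg hM0 (by linarith : (0 : ℝ) ≤ κ + 2)), abs_mul,
      ← CL_len, abs_of_pos (Real.exp_pos _)]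
  rw [h5] at h4
  refine (h1.trans h4).trans ?_
  have h6 : Real.exp (-Φ.Sa κ (L * δ) (min a (T - 2)) v) * Φ.len T b v ≤
      Real.exp (-Φ.Sa κ (L * δ) (min a (T - 2)) v) * δ :=
    mul_le_mul_of_nonneg_left hlen (Real.exp_pos _).le
  calc M * (κ + 2) * (Real.exp (-Φ.Sa κ (L * δ) (min a (T - 2)) v) * Φ.len T b v)
      ≤ M * (κ + 2) * (Real.exp (-Φ.Sa κ (L * δ) (min a (T - 2)) v) * δ) :=
        mul_le_mul_of_nonneg_left h6 (mul_nonneg hM0 (by linarith))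
    _ = _ := by ring

/-- CL : the time averages along the two orbits are close -/
theorem close_avg_pr (P : Pres) (Φ : GFlow P) (hk : ∀ z ∈ P.Ω, 0 ≤ kk P.u z) (κ L δ C M : ℝ)
    (hκ : 1 ≤ κ) (hL : 1 ≤ L) (hδ : 0 < δ) (hC : 0 < C) (hk2 : ∀ z ∈ P.Ω, kk P.u z ≤ κ ^ 2)
    (hLk : ∀ v ∈ P.S, |fderiv ℝ (kk P.u) v.1 (HH P.u v).1| ≤ L)
    (f : ℂ × ℝ → ℝ) (hf : ContDiffOn ℝ 1 f P.S)
    (hM : ∀ v ∈ P.S, |f v| ≤ M ∧ |fderiv ℝ f v (HH P.u v)| ≤ M ∧ |fderiv ℝ f v VV| ≤ M) :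
    ∃ C₂ : ℝ, 0 ≤ C₂ ∧ ∀ T : ℝ, 3 ≤ T → ∀ v ∈ P.S, Φ.gg κ (L * δ) v ≤ ENNReal.ofReal C →
      ∀ b : ℝ, Φ.len T b v ≤ δ →
        |(∫ a in (0 : ℝ)..T, f (Φ.φ a (Φ.St T b v))) - ∫ a in (0 : ℝ)..T, f (Φ.φ a v)| ≤ C₂ := by
  refine ⟨|M| * (κ + 2) * δ * (C + 2), by positivity, ?_⟩
  intro T hT v hv hgg b hlen
  have hM0 : 0 ≤ M := (abs_nonneg _).trans (hM v hv).1
  rw [abs_of_nonneg hM0]
  set K : ℝ := M * (κ + 2) * δ with hK
  have hK0 : 0 ≤ K := mul_nonneg (mul_nonneg hM0 (by linarith)) hδ.le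
  have hStmem : Φ.St T b v ∈ P.S := Φ.mem _ _ (CL_mem P Φ T b v hv)
  have hc1 : Continuous fun a => f (Φ.φ a (Φ.St T b v)) :=
    hf.continuousOn.comp_continuous (CL_phi_cont P Φ _ hStmem) fun a => Φ.mem a _ hStmem
  have hc2 : Continuous fun a => f (Φ.φ a v) :=
    hf.continuousOn.comp_continuous (CL_phi_cont P Φ _ hv) fun a => Φ.mem a _ hv
  have hcE : Continuous fun a => Real.exp (-Φ.Sa κ (L * δ) a v) :=
    (CL_Sa_cont P Φ κ (L * δ) v hv).neg.rexp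
  have hcE2 : Continuous fun a => Real.exp (-Φ.Sa κ (L * δ) (min a (T - 2)) v) :=
    hcE.comp (continuous_id.min continuous_const)
  rw [← intervalIntegral.integral_sub (hc1.intervalIntegrable _ _) (hc2.intervalIntegrable _ _)]
  have h1 : |∫ a in (0 : ℝ)..T, (f (Φ.φ a (Φ.St T b v)) - f (Φ.φ a v))| ≤
      ∫ a in (0 : ℝ)..T, K * Real.exp (-Φ.Sa κ (L * δ) (min a (T - 2)) v) := by
    rw [← Real.norm_eq_abs]
    refine intervalIntegral.norm_integral_le_of_norm_le (by linarith) ?_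
      ((continuous_const.mul hcE2).intervalIntegrable _ _)
    refine Eventually.of_forall fun a ha => ?_
    exact CL_point P Φ hk κ L δ M hκ hL hk2 hLk f hf hM T b hT v hv hlen a ha.1.le ha.2
  refine h1.trans ?_
  rw [intervalIntegral.integral_const_mul]
  refine mul_le_mul_of_nonneg_left ?_ hK0
  rw [← intervalIntegral.integral_add_adjacent_intervals (b := T - 2)
    (hcE2.intervalIntegrable _ _) (hcE2.intervalIntegrable _ _)]
  have h2 : ∫ a in (0 : ℝ)..(T - 2), Real.exp (-Φ.Sa κ (L * δ) (min a (T - 2)) v) ≤ C := by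
    have h3 : ∫ a in (0 : ℝ)..(T - 2), Real.exp (-Φ.Sa κ (L * δ) (min a (T - 2)) v) =
        ∫ a in (0 : ℝ)..(T - 2), Real.exp (-Φ.Sa κ (L * δ) a v) := by
      refine intervalIntegral.integral_congr fun a ha => ?_
      rw [uIcc_of_le (by linarith)] at ha
      simp only [min_eq_left ha.2]
    rw [h3]
    exact CL_gg P Φ κ (L * δ) C hC v hv hgg (T - 2) (by linarith)
  have h4 : ∫ a in (T - 2)..T, Real.exp (-Φ.Sa κ (L * δ) (min a (T - 2)) v) ≤ 2 := by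
    have h5 : ∫ a in (T - 2)..T, Real.exp (-Φ.Sa κ (L * δ) (min a (T - 2)) v) ≤
        ∫ a in (T - 2)..T, (1 : ℝ) := by
      refine intervalIntegral.integral_mono_on (by linarith) (hcE2.intervalIntegrable _ _)
        (continuous_const.intervalIntegrable _ _) fun a ha => ?_
      rw [Real.exp_le_one_iff, neg_nonpos]
      exact CL_Sa_nonneg P Φ κ (L * δ) v hv _ (le_min (by linarith [ha.1]) (by linarith))
    refine h5.trans ?_
    rw [intervalIntegral.integral_const]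
    simp
  linarith

end

end Pool.Agent.EQ

namespace Pool.Agent.EQ

open MeasureTheory Filter Topology Set
open scoped ContDiff ENNReal

noncomputable section

theorem close_avg (P : Pres) (Φ : GFlow P) (hk : ∀ z ∈ P.Ω, 0 ≤ kk P.u z) (κ L δ C M : ℝ)
    (hκ : 1 ≤ κ) (hL : 1 ≤ L) (hδ : 0 < δ) (hC : 0 < C) (hk2 : ∀ z ∈ P.Ω, kk P.u z ≤ κ ^ 2)
    (hLk : ∀ v ∈ P.S, |fderiv ℝ (kk P.u) v.1 (HH P.u v).1| ≤ L)
    (f : ℂ × ℝ → ℝ) (hf : ContDiffOn ℝ 1 f P.S)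
    (hM : ∀ v ∈ P.S, |f v| ≤ M ∧ |fderiv ℝ f v (HH P.u v)| ≤ M ∧ |fderiv ℝ f v VV| ≤ M) :
    ∃ C₂ : ℝ, 0 ≤ C₂ ∧ ∀ T : ℝ, 3 ≤ T → ∀ v ∈ P.S, Φ.gg κ (L * δ) v ≤ ENNReal.ofReal C →
      ∀ b : ℝ, Φ.len T b v ≤ δ →
        |(∫ a in (0 : ℝ)..T, f (Φ.φ a (Φ.St T b v))) - ∫ a in (0 : ℝ)..T, f (Φ.φ a v)| ≤ C₂ := by
  first
    | exact close_avg_pr ..
    | (apply close_avg_pr <;> assumption)

end

end Pool.Agent.EQ

end

/-! ## Lib_helper71.EQ.D.DI -/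

section

/-! Project EQ, package D, block DI (helper28): bounded distortion. -/

set_option autoImplicit false

namespace Pool.Agent.EQ

open MeasureTheory Filter Topology Set
open scoped ContDiff ENNReal

noncomputable section

/-! ### lemmas on the line -/

theorem DI_mono {f f' : ℝ → ℝ} {a b : ℝ} (hf : ∀ x, HasDerivAt f (f' x) x)
    (h : ∀ x, a < x → x < b → 0 ≤ f' x) : MonotoneOn f (Icc a b) := by
  apply monotoneOn_of_hasDerivWithinAt_nonneg (convex_Icc a b)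
    (fun x _ => (hf x).continuousAt.continuousWithinAt)
    (f' := f') (fun x _ => (hf x).hasDerivWithinAt)
  intro x hx
  rw [interior_Icc] at hx
  exact h x hx.1 hx.2

theorem DI_anti {f f' : ℝ → ℝ} {a b : ℝ} (hf : ∀ x, HasDerivAt f (f' x) x)
    (h : ∀ x, a < x → x < b → f' x ≤ 0) : AntitoneOn f (Icc a b) := by
  apply antitoneOn_of_hasDerivWithinAt_nonpos (convex_Icc a b)
    (fun x _ => (hf x).continuousAt.continuousWithinAt)
    (f' := f') (fun x _ => (hf x).hasDerivWithinAt)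
  intro x hx
  rw [interior_Icc] at hx
  exact h x hx.1 hx.2

theorem DI_ftc {q : ℝ → ℝ} (hq : Continuous q) (a x : ℝ) :
    HasDerivAt (fun u => ∫ τ in a..u, q τ) (q x) x :=
  (hq.integral_hasStrictDerivAt a x).hasDerivAt

theorem DI_ftcl {q : ℝ → ℝ} (hq : Continuous q) (b x : ℝ) :
    HasDerivAt (fun u => ∫ τ in u..b, q τ) (-q x) x := by
  have h : (fun u => ∫ τ in u..b, q τ) = fun u => -∫ τ in b..u, q τ := by
    funext u; rw [intervalIntegral.integral_symm]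
  rw [h]
  exact (DI_ftc hq b x).neg

/-- exponential decay of one solution -/
theorem DI_decay (T κ : ℝ) (z z' K q S : ℝ → ℝ)
    (hz : ∀ a, HasDerivAt z (z' a) a) (hz' : ∀ a, HasDerivAt z' (K a * z a) a)
    (hpos : ∀ a < T, 0 < z a) (hneg : ∀ a < T, z' a ≤ 0)
    (hric : ∀ a ≤ T - 1, -(z' a) ≤ (κ + 1) * z a)
    (hq : Continuous q) (hq0 : ∀ a, 0 ≤ q a) (hqK : ∀ a, 0 ≤ a → a ≤ T → q a ≤ K a)
    (hS : ∀ a, HasDerivAt S (Real.exp (-κ - 1) * ∫ τ in a..(a + 1), q τ) a) (hS0 : S 0 = 0) :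
    ∀ a, 0 ≤ a → a ≤ T - 2 → z a ≤ Real.exp (-(S a)) * z 0 := by
  -- step 1
  have h1 : ∀ a, a ≤ T - 2 → Real.exp (-κ - 1) * z a ≤ z (a + 1) := by
    intro a ha
    have hd : ∀ x, HasDerivAt (fun x => Real.exp ((κ + 1) * x) * z x)
        (Real.exp ((κ + 1) * x) * (κ + 1) * z x + Real.exp ((κ + 1) * x) * z' x) x := by
      intro x
      have e1 : HasDerivAt (fun x => Real.exp ((κ + 1) * x)) (Real.exp ((κ + 1) * x) * (κ + 1)) x := by
        have := ((hasDerivAt_id x).const_mul (κ + 1)).exp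
        simpa using this
      exact e1.mul (hz x)
    have hm : MonotoneOn (fun x => Real.exp ((κ + 1) * x) * z x) (Icc a (a + 1)) := by
      apply DI_mono hd
      intro x hx1 hx2
      have := hric x (by linarith)
      have he := Real.exp_pos ((κ + 1) * x)
      nlinarith
    have h2 := hm (left_mem_Icc.mpr (by linarith)) (right_mem_Icc.mpr (by linarith)) (by linarith)
    simp only at h2
    have h3 : Real.exp ((κ + 1) * (a + 1)) = Real.exp ((κ + 1) * a) * Real.exp (κ + 1) := by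
      rw [← Real.exp_add]; congr 1; ring
    rw [h3, mul_assoc] at h2
    have h4 : z a ≤ Real.exp (κ + 1) * z (a + 1) := le_of_mul_le_mul_left h2 (Real.exp_pos _)
    have h5 : Real.exp (-κ - 1) * Real.exp (κ + 1) = 1 := by
      rw [← Real.exp_add]; simp
    calc Real.exp (-κ - 1) * z a ≤ Real.exp (-κ - 1) * (Real.exp (κ + 1) * z (a + 1)) :=
          mul_le_mul_of_nonneg_left h4 (Real.exp_pos _).le
      _ = z (a + 1) := by rw [← mul_assoc, h5, one_mul]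
  -- z is antitone
  have hanti : ∀ x y, x ≤ y → y < T → z y ≤ z x := by
    intro x y hxy hy
    have := DI_anti (a := x) (b := y) hz (fun w _ hw => hneg w (by linarith))
    exact this (left_mem_Icc.mpr hxy) (right_mem_Icc.mpr hxy) hxy
  -- step 2
  have h2 : ∀ a, 0 ≤ a → a ≤ T - 2 →
      (Real.exp (-κ - 1) * ∫ τ in a..(a + 1), q τ) * z a ≤ -(z' a) := by
    intro a ha0 ha
    set c := Real.exp (-κ - 1) * z a with hc
    have hd : ∀ x, HasDerivAt (fun x => z' x - c * ∫ τ in a..x, q τ) (K x * z x - c * q x) x := by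
      intro x
      exact (hz' x).sub ((DI_ftc hq a x).const_mul c)
    have hm : MonotoneOn (fun x => z' x - c * ∫ τ in a..x, q τ) (Icc a (a + 1)) := by
      apply DI_mono hd
      intro x hx1 hx2
      have e1 := h1 a ha
      have e2 := hanti x (a + 1) hx2.le (by linarith)
      have e3 := hq0 x
      have e4 := hqK x (by linarith) (by linarith)
      have e5 := hpos x (by linarith)
      have e6 : c * q x ≤ z x * q x := mul_le_mul_of_nonneg_right (e1.trans e2) e3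
      have e7 : q x * z x ≤ K x * z x := mul_le_mul_of_nonneg_right e4 e5.le
      linarith [mul_comm (z x) (q x)]
    have h3 := hm (left_mem_Icc.mpr (by linarith)) (right_mem_Icc.mpr (by linarith)) (by linarith)
    simp only [intervalIntegral.integral_same, mul_zero, sub_zero] at h3
    have h4 := hneg (a + 1) (by linarith)
    have h5 : (Real.exp (-κ - 1) * ∫ τ in a..(a + 1), q τ) * z a = c * ∫ τ in a..(a + 1), q τ := by
      rw [hc]; ring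
    rw [h5]
    linarith
  -- step 3
  intro a ha0 ha
  have hd : ∀ x, HasDerivAt (fun x => Real.exp (S x) * z x)
      (Real.exp (S x) * (Real.exp (-κ - 1) * ∫ τ in x..(x + 1), q τ) * z x
        + Real.exp (S x) * z' x) x := by
    intro x
    exact ((hS x).exp).mul (hz x)
  have hm : AntitoneOn (fun x => Real.exp (S x) * z x) (Icc 0 a) := by
    apply DI_anti hd
    intro x hx1 hx2
    have e1 := h2 x hx1.le (by linarith)
    have e2 := Real.exp_pos (S x)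
    nlinarith
  have h3 := hm (left_mem_Icc.mpr ha0) (right_mem_Icc.mpr ha0) ha0
  simp only [hS0, Real.exp_zero, one_mul] at h3
  have h4 : Real.exp (-(S a)) * Real.exp (S a) = 1 := by
    rw [← Real.exp_add]; simp
  calc z a = Real.exp (-(S a)) * (Real.exp (S a) * z a) := by rw [← mul_assoc, h4, one_mul]
    _ ≤ Real.exp (-(S a)) * z 0 := mul_le_mul_of_nonneg_left h3 (Real.exp_pos _).le

/-- the Wronskian estimate -/
theorem DI_wron (T : ℝ) (y y' k z z' K m : ℝ → ℝ)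
    (hy : ∀ a, HasDerivAt y (y' a) a) (hy' : ∀ a, HasDerivAt y' (k a * y a) a)
    (hz : ∀ a, HasDerivAt z (z' a) a) (hz' : ∀ a, HasDerivAt z' (K a * z a) a)
    (hypos : ∀ a < T, 0 < y a) (hyneg : ∀ a < T, y' a ≤ 0)
    (hzpos : ∀ a < T, 0 < z a) (hzneg : ∀ a < T, z' a ≤ 0)
    (hyT : y T = 0) (hzT : z T = 0)
    (hm : Continuous m) (hmK : ∀ a, 0 ≤ a → a ≤ T → |k a - K a| ≤ m a)
    (a : ℝ) (ha0 : 0 ≤ a) (haT : a < T) :
    |y' a / y a - z' a / z a| ≤ ∫ τ in a..T, m τ := by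
  have hya := hypos a haT
  have hza := hzpos a haT
  set c := y a * z a with hc
  have hcpos : 0 < c := mul_pos hya hza
  have hyanti : ∀ x, a ≤ x → x < T → y x ≤ y a := by
    intro x hx hxT
    have := DI_anti (a := a) (b := x) hy (fun w _ hw => hyneg w (by linarith))
    exact this (left_mem_Icc.mpr hx) (right_mem_Icc.mpr hx) hx
  have hzanti : ∀ x, a ≤ x → x < T → z x ≤ z a := by
    intro x hx hxT
    have := DI_anti (a := a) (b := x) hz (fun w _ hw => hzneg w (by linarith))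
    exact this (left_mem_Icc.mpr hx) (right_mem_Icc.mpr hx) hx
  have hW : ∀ x, HasDerivAt (fun x => y' x * z x - z' x * y x) ((k x - K x) * (y x * z x)) x := by
    intro x
    have := ((hy' x).mul (hz x)).sub ((hz' x).mul (hy x))
    refine this.congr_deriv ?_
    ring
  have hE : ∀ x, HasDerivAt (fun x => ∫ τ in x..T, m τ) (-m x) x := fun x => DI_ftcl hm T x
  have key : ∀ x, a < x → x < T → |(k x - K x) * (y x * z x)| ≤ c * m x := by
    intro x hx1 hx2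
    have e1 := hmK x (by linarith) hx2.le
    have e2 := hypos x hx2
    have e3 := hzpos x hx2
    have e4 : y x * z x ≤ c := mul_le_mul (hyanti x hx1.le hx2) (hzanti x hx1.le hx2) e3.le hya.le
    rw [abs_mul, abs_of_pos (mul_pos e2 e3), mul_comm c]
    exact mul_le_mul e1 e4 (mul_pos e2 e3).le ((abs_nonneg _).trans e1)
  have hR1 : MonotoneOn (fun x => (y' x * z x - z' x * y x) - c * ∫ τ in x..T, m τ) (Icc a T) := by
    apply DI_mono (f' := fun x => (k x - K x) * (y x * z x) - c * (-m x))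
      (fun x => (hW x).sub ((hE x).const_mul c))
    intro x hx1 hx2
    have := (abs_le.mp (key x hx1 hx2)).1
    show 0 ≤ (k x - K x) * (y x * z x) - c * (-m x)
    linarith
  have hR2 : AntitoneOn (fun x => (y' x * z x - z' x * y x) + c * ∫ τ in x..T, m τ) (Icc a T) := by
    apply DI_anti (f' := fun x => (k x - K x) * (y x * z x) + c * (-m x))
      (fun x => (hW x).add ((hE x).const_mul c))
    intro x hx1 hx2
    have := (abs_le.mp (key x hx1 hx2)).2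
    show (k x - K x) * (y x * z x) + c * (-m x) ≤ 0
    linarith
  have h1 := hR1 (left_mem_Icc.mpr haT.le) (right_mem_Icc.mpr haT.le) haT.le
  have h2 := hR2 (left_mem_Icc.mpr haT.le) (right_mem_Icc.mpr haT.le) haT.le
  simp only [intervalIntegral.integral_same, hyT, hzT, mul_zero, sub_zero, add_zero] at h1 h2
  have h3 : |y' a * z a - z' a * y a| ≤ c * ∫ τ in a..T, m τ := by
    rw [abs_le]; constructor <;> linarith
  have h4 : y' a / y a - z' a / z a = (y' a * z a - z' a * y a) / c := by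
    rw [hc, div_sub_div _ _ hya.ne' hza.ne']
    congr 1; ring
  rw [h4, abs_div, abs_of_pos hcpos, div_le_iff₀ hcpos]
  linarith

/-- the ratio of two solutions tends to one at the zero -/
theorem DI_lim (T : ℝ) (y z : ℝ → ℝ) (hy : HasDerivAt y (-1) T) (hz : HasDerivAt z (-1) T)
    (hyT : y T = 0) (hzT : z T = 0) (hypos : ∀ a < T, 0 < y a) (hzpos : ∀ a < T, 0 < z a) :
    Tendsto (fun a => Real.log (y a) - Real.log (z a)) (𝓝[<] T) (𝓝 0) := by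
  have h1 : Tendsto (slope y T) (𝓝[<] T) (𝓝 (-1)) :=
    (hasDerivAt_iff_tendsto_slope.mp hy).mono_left (nhdsWithin_mono T (fun x hx => ne_of_lt hx))
  have h2 : Tendsto (slope z T) (𝓝[<] T) (𝓝 (-1)) :=
    (hasDerivAt_iff_tendsto_slope.mp hz).mono_left (nhdsWithin_mono T (fun x hx => ne_of_lt hx))
  have h3 : Tendsto (fun a => Real.log (slope y T a / slope z T a)) (𝓝[<] T) (𝓝 0) := by
    have : Tendsto (fun a => slope y T a / slope z T a) (𝓝[<] T) (𝓝 ((-1) / (-1))) :=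
      h1.div h2 (by norm_num)
    have h4 := (Real.continuousAt_log (x := (-1 : ℝ) / (-1)) (by norm_num)).tendsto.comp this
    simpa [Function.comp_def] using h4
  refine h3.congr' ?_
  filter_upwards [self_mem_nhdsWithin] with a ha
  have ha' : a < T := ha
  have e1 := hypos a ha'
  have e2 := hzpos a ha'
  rw [slope_def_field, slope_def_field, hyT, hzT, sub_zero, sub_zero,
    div_div_div_cancel_right₀ (sub_ne_zero.mpr ha'.ne), Real.log_div e1.ne' e2.ne']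

/-- integration of the logarithmic derivative -/
theorem DI_log (T D C : ℝ) (hT : 2 < T) (y y' z z' S Q : ℝ → ℝ)
    (hy : ∀ a, HasDerivAt y (y' a) a) (hz : ∀ a, HasDerivAt z (z' a) a)
    (hypos : ∀ a < T, 0 < y a) (hzpos : ∀ a < T, 0 < z a)
    (hyT : y T = 0) (hzT : z T = 0) (hy1 : y' T = -1) (hz1 : z' T = -1)
    (hQ : ∀ a, HasDerivAt Q (Real.exp (-(S a) / 2)) a) (hQC : Q (T - 2) - Q 0 ≤ C)
    (hD : 0 ≤ D) (hC : 0 ≤ C)
    (h1 : ∀ a, 0 ≤ a → a ≤ T - 2 → |y' a / y a - z' a / z a| ≤ D * (C + 2) * Real.exp (-(S a) / 2))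
    (h2 : ∀ a, T - 2 ≤ a → a < T → |y' a / y a - z' a / z a| ≤ 2 * D) :
    |Real.log (y 0) - Real.log (z 0)| ≤ D * ((C + 2) * C + 4) := by
  have hf : ∀ a, a < T → HasDerivAt (fun a => Real.log (y a) - Real.log (z a))
      (y' a / y a - z' a / z a) a := fun a ha =>
    ((hy a).log (hypos a ha).ne').sub ((hz a).log (hzpos a ha).ne')
  have key : ∀ (G G' : ℝ → ℝ) (a b : ℝ), a ≤ b → b < T → (∀ x, HasDerivAt G (G' x) x) →
      (∀ x, a < x → x < b → |y' x / y x - z' x / z x| ≤ G' x) →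
      |(Real.log (y a) - Real.log (z a)) - (Real.log (y b) - Real.log (z b))| ≤ G b - G a := by
    intro G G' a b hab hbT hG hbd
    have hm1 : MonotoneOn (fun x => G x - (Real.log (y x) - Real.log (z x))) (Icc a b) := by
      apply monotoneOn_of_hasDerivWithinAt_nonneg (convex_Icc a b)
        (f' := fun x => G' x - (y' x / y x - z' x / z x))
      · intro x hx
        exact ((hG x).sub (hf x (lt_of_le_of_lt hx.2 hbT))).continuousAt.continuousWithinAt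
      · intro x hx
        rw [interior_Icc] at hx ⊢
        exact ((hG x).sub (hf x (lt_trans hx.2 hbT))).hasDerivWithinAt
      · intro x hx
        rw [interior_Icc] at hx
        have := (abs_le.mp (hbd x hx.1 hx.2)).2
        linarith
    have hm2 : MonotoneOn (fun x => G x + (Real.log (y x) - Real.log (z x))) (Icc a b) := by
      apply monotoneOn_of_hasDerivWithinAt_nonneg (convex_Icc a b)
        (f' := fun x => G' x + (y' x / y x - z' x / z x))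
      · intro x hx
        exact ((hG x).add (hf x (lt_of_le_of_lt hx.2 hbT))).continuousAt.continuousWithinAt
      · intro x hx
        rw [interior_Icc] at hx ⊢
        exact ((hG x).add (hf x (lt_trans hx.2 hbT))).hasDerivWithinAt
      · intro x hx
        rw [interior_Icc] at hx
        have := (abs_le.mp (hbd x hx.1 hx.2)).1
        linarith
    have e1 := hm1 (left_mem_Icc.mpr hab) (right_mem_Icc.mpr hab) hab
    have e2 := hm2 (left_mem_Icc.mpr hab) (right_mem_Icc.mpr hab) hab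
    simp only at e1 e2
    rw [abs_le]; constructor <;> linarith
  have hA : |(Real.log (y 0) - Real.log (z 0)) - (Real.log (y (T - 2)) - Real.log (z (T - 2)))|
      ≤ D * (C + 2) * C := by
    refine (key (fun x => D * (C + 2) * Q x) (fun x => D * (C + 2) * Real.exp (-(S x) / 2)) 0 (T - 2)
      (by linarith) (by linarith) (fun x => (hQ x).const_mul _) (fun x hx1 hx2 => h1 x hx1.le hx2.le)).trans ?_
    rw [← mul_sub]
    exact mul_le_mul_of_nonneg_left hQC (by positivity)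
  have hB : ∀ b, T - 2 ≤ b → b < T →
      |(Real.log (y (T - 2)) - Real.log (z (T - 2))) - (Real.log (y b) - Real.log (z b))| ≤ 4 * D := by
    intro b hb1 hb2
    refine (key (fun x => 2 * D * x) (fun _ => 2 * D) (T - 2) b hb1 hb2
      (fun x => by simpa using (hasDerivAt_id x).const_mul (2 * D))
      (fun x hx1 hx2 => h2 x hx1.le (by linarith))).trans ?_
    show 2 * D * b - 2 * D * (T - 2) ≤ 4 * D
    nlinarith
  have hlim := DI_lim T y z (hy1 ▸ hy T) (hz1 ▸ hz T) hyT hzT hypos hzpos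
  have hBl : |(Real.log (y (T - 2)) - Real.log (z (T - 2))) - 0| ≤ 4 * D := by
    have ht : Tendsto (fun b => |(Real.log (y (T - 2)) - Real.log (z (T - 2)))
        - (Real.log (y b) - Real.log (z b))|) (𝓝[<] T)
        (𝓝 |(Real.log (y (T - 2)) - Real.log (z (T - 2))) - 0|) :=
      (tendsto_const_nhds.sub hlim).abs
    apply le_of_tendsto ht
    have : Ioo (T - 2) T ∈ 𝓝[<] T := Ioo_mem_nhdsLT (by linarith)
    filter_upwards [this] with b hb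
    exact hB b hb.1.le hb.2
  rw [sub_zero] at hBl
  calc |Real.log (y 0) - Real.log (z 0)|
      = |((Real.log (y 0) - Real.log (z 0)) - (Real.log (y (T - 2)) - Real.log (z (T - 2))))
        + (Real.log (y (T - 2)) - Real.log (z (T - 2)))| := by congr 1; ring
    _ ≤ _ := (abs_add_le _ _).trans (add_le_add hA hBl)
    _ = D * ((C + 2) * C + 4) := by ring

/-! ### the orbits of the curve `s ↦ S_s v` -/

variable {P : Pres} (Φ : GFlow P)

/-- the solution `z_s(a) = J_{T-a}(φ_a S_s v)` -/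
def DI_z (T : ℝ) (v : ℂ × ℝ) (s a : ℝ) : ℝ := -(Φ.B (a - T) (rot s (Φ.φ T v)))

/-- its derivative -/
def DI_z' (T : ℝ) (v : ℂ × ℝ) (s a : ℝ) : ℝ := -(Φ.B' (a - T) (rot s (Φ.φ T v)))

/-- the potential -/
def DI_K (T : ℝ) (v : ℂ × ℝ) (s a : ℝ) : ℝ := kk P.u (Φ.φ (a - T) (rot s (Φ.φ T v))).1

theorem DI_rot_mem (s : ℝ) (v : ℂ × ℝ) (hv : v ∈ P.S) : rot s v ∈ P.S := by
  simp only [Pres.S, rot, mem_prod, mem_univ, and_true] at hv ⊢
  exact hv

theorem DI_w_mem (T s a : ℝ) (v : ℂ × ℝ) (hv : v ∈ P.S) :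
    Φ.φ (a - T) (rot s (Φ.φ T v)) ∈ P.S :=
  Φ.mem _ _ (DI_rot_mem s _ (Φ.mem T v hv))

theorem DI_phi_St (T s a : ℝ) (v : ℂ × ℝ) :
    Φ.φ a (Φ.St T s v) = Φ.φ (a - T) (rot s (Φ.φ T v)) := by
  rw [GFlow.St, ← Φ.add, sub_eq_add_neg]

theorem DI_St_eq (T s a : ℝ) (v : ℂ × ℝ) :
    Φ.St (T - a) s (Φ.φ a v) = Φ.φ (a - T) (rot s (Φ.φ T v)) := by
  rw [GFlow.St, ← Φ.add, neg_sub, sub_add_cancel]

theorem DI_phi_phi (T s a : ℝ) (v : ℂ × ℝ) :
    Φ.φ (T - a) (Φ.φ (a - T) (rot s (Φ.φ T v))) = rot s (Φ.φ T v) := by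
  rw [← Φ.add]
  have : T - a + (a - T) = 0 := by ring
  rw [this, Φ.zero]

theorem DI_J (T s a : ℝ) (v : ℂ × ℝ) :
    Φ.J (T - a) (Φ.φ (a - T) (rot s (Φ.φ T v))) = DI_z Φ T v s a := by
  rw [GFlow.J, DI_phi_phi, neg_sub, DI_z]

theorem DI_J' (T s a : ℝ) (v : ℂ × ℝ) :
    Φ.J' (T - a) (Φ.φ (a - T) (rot s (Φ.φ T v))) = -(DI_z' Φ T v s a) := by
  rw [GFlow.J', DI_phi_phi, neg_sub, DI_z', neg_neg]

theorem DI_J0 (T s : ℝ) (v : ℂ × ℝ) : Φ.J T (Φ.St T s v) = DI_z Φ T v s 0 := by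
  have h := DI_J Φ T s 0 v
  rw [sub_zero] at h
  rw [← h, GFlow.St, zero_sub]

theorem DI_rot0 (v : ℂ × ℝ) : rot 0 v = v := by
  simp [rot]

theorem DI_J00 (T : ℝ) (v : ℂ × ℝ) : Φ.J T v = DI_z Φ T v 0 0 := by
  rw [DI_z, DI_rot0, zero_sub, GFlow.J]

theorem DI_hz (T s : ℝ) (v : ℂ × ℝ) (hv : v ∈ P.S) (a : ℝ) :
    HasDerivAt (DI_z Φ T v s) (DI_z' Φ T v s a) a := by
  have h := (Φ.hB (a - T) (rot s (Φ.φ T v)) (DI_rot_mem s _ (Φ.mem T v hv)))
  exact (h.comp_sub_const a T).neg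

theorem DI_hz' (T s : ℝ) (v : ℂ × ℝ) (hv : v ∈ P.S) (a : ℝ) :
    HasDerivAt (DI_z' Φ T v s) (DI_K Φ T v s a * DI_z Φ T v s a) a := by
  have h := (Φ.hB' (a - T) (rot s (Φ.φ T v)) (DI_rot_mem s _ (Φ.mem T v hv)))
  have h2 := (h.comp_sub_const a T).neg
  refine h2.congr_deriv ?_
  rw [DI_K, DI_z]; ring

theorem DI_zT (T s : ℝ) (v : ℂ × ℝ) : DI_z Φ T v s T = 0 := by
  rw [DI_z, sub_self, Φ.B0, neg_zero]

theorem DI_z'T (T s : ℝ) (v : ℂ × ℝ) : DI_z' Φ T v s T = -1 := by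
  rw [DI_z', sub_self, Φ.B'0]

theorem DI_pos (hk : ∀ z ∈ P.Ω, 0 ≤ kk P.u z) (T s : ℝ) (v : ℂ × ℝ) (hv : v ∈ P.S) (a : ℝ)
    (ha : a < T) : T - a ≤ DI_z Φ T v s a ∧ DI_z' Φ T v s a ≤ -1 := by
  have h := J_pos P Φ hk (T - a) (by linarith) _ (DI_w_mem Φ T s a v hv)
  rw [DI_J, DI_J'] at h
  exact ⟨h.1, by linarith [h.2.1]⟩

theorem DI_ric (hk : ∀ z ∈ P.Ω, 0 ≤ kk P.u z) (κ : ℝ) (hκ : 1 ≤ κ)
    (hk2 : ∀ z ∈ P.Ω, kk P.u z ≤ κ ^ 2) (T s : ℝ) (v : ℂ × ℝ) (hv : v ∈ P.S) (a : ℝ)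
    (ha : a ≤ T - 1) : -(DI_z' Φ T v s a) ≤ (κ + 1) * DI_z Φ T v s a := by
  have h := J_ric P Φ hk κ hκ hk2 (T - a) (by linarith) _ (DI_w_mem Φ T s a v hv)
  rw [DI_J, DI_J'] at h
  exact h.1

/-- continuity in `s` -/
theorem DI_cont (T : ℝ) (v : ℂ × ℝ) (hv : v ∈ P.S) (a : ℝ) :
    Continuous (fun s => DI_z Φ T v s a) := by
  have h1 := (len_cont P Φ (T - a)).2.1
  have h2 : Continuous (fun s : ℝ => ((T - a : ℝ), Φ.St (T - a) s (Φ.φ a v))) := by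
    apply continuous_const.prodMk
    exact continuous_iff_continuousAt.mpr
      (fun s => (St_deriv P Φ (T - a) s _ (Φ.mem a v hv)).continuousAt)
  have h3 : ∀ s : ℝ, ((T - a : ℝ), Φ.St (T - a) s (Φ.φ a v)) ∈ (univ ×ˢ P.S : Set (ℝ × (ℂ × ℝ))) := by
    intro s
    rw [DI_St_eq]
    exact ⟨mem_univ _, DI_w_mem Φ T s a v hv⟩
  have h4 := h1.comp_continuous h2 h3
  refine h4.congr ?_
  intro s
  show Φ.J (T - a) (Φ.St (T - a) s (Φ.φ a v)) = DI_z Φ T v s a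
  rw [DI_St_eq, DI_J]

/-- smoothness of `kk` -/
theorem DI_kk_smooth : ContDiffOn ℝ ∞ (kk P.u) P.Ω := by
  have hu := P.smooth
  have hdx : ∀ f : ℂ → ℝ, ContDiffOn ℝ ∞ f P.Ω → ContDiffOn ℝ ∞ (dx f) P.Ω := by
    intro f hf
    have h := hf.fderiv_of_isOpen P.isOpen (m := ∞) (by simp)
    exact h.clm_apply contDiffOn_const
  have hdy : ∀ f : ℂ → ℝ, ContDiffOn ℝ ∞ f P.Ω → ContDiffOn ℝ ∞ (dy f) P.Ω := by
    intro f hf
    have h := hf.fderiv_of_isOpen P.isOpen (m := ∞) (by simp)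
    exact h.clm_apply contDiffOn_const
  unfold kk lap
  exact ((contDiffOn_const.mul hu).exp).mul ((hdx _ (hdx _ hu)).add (hdy _ (hdy _ hu)))

theorem DI_kk_fderiv (z : ℂ) (hz : z ∈ P.Ω) :
    HasFDerivAt (kk P.u) (fderiv ℝ (kk P.u) z) z :=
  ((DI_kk_smooth.differentiableOn (by simp)).differentiableAt (P.isOpen.mem_nhds hz)).hasFDerivAt

theorem DI_K_deriv (T : ℝ) (v : ℂ × ℝ) (hv : v ∈ P.S) (a s : ℝ) :
    HasDerivAt (fun s => DI_K Φ T v s a)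
      (-(DI_z Φ T v s a * fderiv ℝ (kk P.u) (Φ.φ (a - T) (rot s (Φ.φ T v))).1
        (HH P.u (Φ.φ (a - T) (rot s (Φ.φ T v)))).1)) s := by
  have h1 := St_deriv P Φ (T - a) s _ (Φ.mem a v hv)
  have h2 : HasDerivAt (fun s => (Φ.St (T - a) s (Φ.φ a v)).1)
      (-(Φ.J (T - a) (Φ.St (T - a) s (Φ.φ a v))) • HH P.u (Φ.St (T - a) s (Φ.φ a v)) +
        Φ.J' (T - a) (Φ.St (T - a) s (Φ.φ a v)) • VV).1 s := by
    have := (hasFDerivAt_fst (𝕜 := ℝ) (p := Φ.St (T - a) s (Φ.φ a v))).comp_hasDerivAt s h1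
    exact this
  have hmem : (Φ.St (T - a) s (Φ.φ a v)).1 ∈ P.Ω := by
    rw [DI_St_eq]
    exact (DI_w_mem Φ T s a v hv).1
  have h3 := (DI_kk_fderiv _ hmem).comp_hasDerivAt s h2
  have e : (fun s => DI_K Φ T v s a) = (kk P.u) ∘ (fun s => (Φ.St (T - a) s (Φ.φ a v)).1) := by
    funext s
    simp only [Function.comp, DI_K, DI_St_eq]
  rw [e]
  refine h3.congr_deriv ?_
  simp only [DI_St_eq, DI_J, VV, Prod.fst_add, Prod.smul_fst, smul_zero, add_zero, map_smul,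
    smul_eq_mul, neg_smul, map_neg, Prod.fst_neg]

/-- the length of the time-`a` image of the curve -/
def DI_Y (T : ℝ) (v : ℂ × ℝ) (a s : ℝ) : ℝ := ∫ σ in (0 : ℝ)..s, DI_z Φ T v σ a

theorem DI_Y_deriv (T : ℝ) (v : ℂ × ℝ) (hv : v ∈ P.S) (a s : ℝ) :
    HasDerivAt (DI_Y Φ T v a) (DI_z Φ T v s a) s :=
  DI_ftc (DI_cont Φ T v hv a) 0 s

theorem DI_nonneg (hk : ∀ z ∈ P.Ω, 0 ≤ kk P.u z) (T s : ℝ) (v : ℂ × ℝ) (hv : v ∈ P.S) (a : ℝ)
    (ha : a ≤ T) : 0 ≤ DI_z Φ T v s a := by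
  rcases ha.lt_or_eq with h | h
  · linarith [(DI_pos Φ hk T s v hv a h).1]
  · rw [h, DI_zT]

theorem DI_Y_mono (hk : ∀ z ∈ P.Ω, 0 ≤ kk P.u z) (T : ℝ) (v : ℂ × ℝ) (hv : v ∈ P.S) (a : ℝ)
    (ha : a ≤ T) : Monotone (DI_Y Φ T v a) :=
  monotone_of_hasDerivAt_nonneg (fun s => DI_Y_deriv Φ T v hv a s)
    (fun s => DI_nonneg Φ hk T s v hv a ha)

theorem DI_Y_zero (T : ℝ) (v : ℂ × ℝ) (a : ℝ) : DI_Y Φ T v a 0 = 0 := by
  simp [DI_Y]

theorem DI_Y_le (hk : ∀ z ∈ P.Ω, 0 ≤ kk P.u z) (T : ℝ) (v : ℂ × ℝ) (hv : v ∈ P.S) (a b s : ℝ)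
    (ha : a ≤ T) (hs : s ∈ uIcc 0 b) : |DI_Y Φ T v a s| ≤ |DI_Y Φ T v a b| := by
  have hm := DI_Y_mono Φ hk T v hv a ha
  have h0 := DI_Y_zero Φ T v a
  rcases le_total 0 b with hb | hb
  · rw [uIcc_of_le hb] at hs
    have h1 := hm hs.1
    have h2 := hm hs.2
    rw [h0] at h1
    rw [abs_of_nonneg h1, abs_of_nonneg (h1.trans h2)]
    exact h2
  · rw [uIcc_of_ge hb] at hs
    have h1 := hm hs.1
    have h2 := hm hs.2
    rw [h0] at h2
    rw [abs_of_nonpos h2, abs_of_nonpos (h1.trans h2)]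
    linarith

theorem DI_K_diff (hk : ∀ z ∈ P.Ω, 0 ≤ kk P.u z) (L : ℝ)
    (hLk : ∀ v ∈ P.S, |fderiv ℝ (kk P.u) v.1 (HH P.u v).1| ≤ L)
    (T : ℝ) (v : ℂ × ℝ) (hv : v ∈ P.S) (a s : ℝ) (ha : a ≤ T) :
    |DI_K Φ T v s a - DI_K Φ T v 0 a| ≤ L * |DI_Y Φ T v a s| := by
  have hb : ∀ s, |-(DI_z Φ T v s a * fderiv ℝ (kk P.u) (Φ.φ (a - T) (rot s (Φ.φ T v))).1
        (HH P.u (Φ.φ (a - T) (rot s (Φ.φ T v)))).1)| ≤ L * DI_z Φ T v s a := by
    intro s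
    have e1 := DI_nonneg Φ hk T s v hv a ha
    have e2 := hLk _ (DI_w_mem Φ T s a v hv)
    rw [abs_neg, abs_mul, abs_of_nonneg e1, mul_comm L]
    exact mul_le_mul_of_nonneg_left e2 e1
  have hm1 : Monotone (fun s => L * DI_Y Φ T v a s - DI_K Φ T v s a) := by
    apply monotone_of_hasDerivAt_nonneg
      (fun s => ((DI_Y_deriv Φ T v hv a s).const_mul L).sub (DI_K_deriv Φ T v hv a s))
    intro s
    have := (abs_le.mp (hb s)).2
    simp only [Pi.zero_apply]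
    linarith
  have hm2 : Monotone (fun s => L * DI_Y Φ T v a s + DI_K Φ T v s a) := by
    apply monotone_of_hasDerivAt_nonneg
      (fun s => ((DI_Y_deriv Φ T v hv a s).const_mul L).add (DI_K_deriv Φ T v hv a s))
    intro s
    have := (abs_le.mp (hb s)).1
    simp only [Pi.zero_apply]
    linarith
  have h0 := DI_Y_zero Φ T v a
  have hL : 0 ≤ L := (abs_nonneg _).trans (hLk v hv)
  have hY := DI_Y_mono Φ hk T v hv a ha
  rcases le_total 0 s with hs | hs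
  · have e1 := hm1 hs
    have e2 := hm2 hs
    have e3 := hY hs
    simp only [h0, mul_zero, zero_sub, zero_add] at e1 e2 e3
    rw [abs_of_nonneg e3, abs_le]
    constructor <;> linarith
  · have e1 := hm1 hs
    have e2 := hm2 hs
    have e3 := hY hs
    simp only [h0, mul_zero, zero_sub, zero_add] at e1 e2 e3
    rw [abs_of_nonpos e3, abs_le]
    constructor <;> linarith

/-- comparison of the lengths at two times -/
theorem DI_Y_comp (hk : ∀ z ∈ P.Ω, 0 ≤ kk P.u z) (T : ℝ) (v : ℂ × ℝ) (hv : v ∈ P.S)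
    (a a' c b : ℝ) (hc : 0 ≤ c) (ha : a ≤ T)
    (h : ∀ s ∈ uIcc 0 b, DI_z Φ T v s a ≤ c * DI_z Φ T v s a') :
    |DI_Y Φ T v a b| ≤ c * |DI_Y Φ T v a' b| := by
  have h1 : |DI_Y Φ T v a b| ≤ |∫ σ in (0 : ℝ)..b, c * DI_z Φ T v σ a'| := by
    unfold DI_Y
    rw [← Real.norm_eq_abs (∫ σ in (0 : ℝ)..b, DI_z Φ T v σ a)]
    apply intervalIntegral.norm_integral_le_abs_of_norm_le
    · refine (ae_restrict_iff' measurableSet_uIoc).mpr (Eventually.of_forall ?_)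
      intro s hs
      rw [Real.norm_eq_abs, abs_of_nonneg (DI_nonneg Φ hk T s v hv a ha)]
      exact h s (uIoc_subset_uIcc hs)
    · exact ((DI_cont Φ T v hv a').const_mul c |>.intervalIntegrable _ _)
  rw [intervalIntegral.integral_const_mul, abs_mul, abs_of_nonneg hc] at h1
  exact h1

theorem DI_anti_z (hk : ∀ z ∈ P.Ω, 0 ≤ kk P.u z) (T s : ℝ) (v : ℂ × ℝ) (hv : v ∈ P.S) (a a' : ℝ)
    (haa : a ≤ a') (ha : a' ≤ T) : DI_z Φ T v s a' ≤ DI_z Φ T v s a := by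
  have := DI_anti (a := a) (b := a') (DI_hz Φ T s v hv)
    (fun w _ hw => by linarith [(DI_pos Φ hk T s v hv w (by linarith)).2])
  exact this (left_mem_Icc.mpr haa) (right_mem_Icc.mpr haa) haa

theorem DI_len (T b : ℝ) (v : ℂ × ℝ) : Φ.len T b v = |DI_Y Φ T v 0 b| := by
  unfold GFlow.len DI_Y
  simp only [DI_J0]

/-! ### the functions `U`, `S`, `g` -/

/-- the truncated potential along the orbit -/
def DI_q (ℓ : ℝ) (v : ℂ × ℝ) (a : ℝ) : ℝ := max (kk P.u (Φ.φ a v).1 - ℓ) 0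

theorem DI_q_cont (ℓ : ℝ) (v : ℂ × ℝ) (hv : v ∈ P.S) : Continuous (DI_q Φ ℓ v) := by
  have h1 : Continuous (fun a => (Φ.φ a v).1) :=
    continuous_fst.comp (continuous_iff_continuousAt.mpr (fun a => (Φ.deriv_t a v hv).continuousAt))
  have h2 : Continuous (fun a => kk P.u (Φ.φ a v).1) :=
    (DI_kk_smooth.continuousOn).comp_continuous h1 (fun a => (Φ.mem a v hv).1)
  exact (h2.sub continuous_const).max continuous_const

theorem DI_q_nonneg (ℓ : ℝ) (v : ℂ × ℝ) (a : ℝ) : 0 ≤ DI_q Φ ℓ v a := le_max_right _ _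

theorem DI_U_eq (κ ℓ : ℝ) (v : ℂ × ℝ) (a : ℝ) :
    Φ.U κ ℓ (Φ.φ a v) = Real.exp (-κ - 1) * ∫ τ in a..(a + 1), DI_q Φ ℓ v τ := by
  unfold GFlow.U
  congr 1
  have : ∀ s : ℝ, max (kk P.u (Φ.φ s (Φ.φ a v)).1 - ℓ) 0 = DI_q Φ ℓ v (s + a) := by
    intro s; rw [DI_q, Φ.add]
  simp only [this]
  rw [intervalIntegral.integral_comp_add_right (fun x => DI_q Φ ℓ v x)]
  congr 1 <;> ring

theorem DI_U_cont (κ ℓ : ℝ) (v : ℂ × ℝ) (hv : v ∈ P.S) :
    Continuous (fun a => Φ.U κ ℓ (Φ.φ a v)) := by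
  have hq := DI_q_cont Φ ℓ v hv
  have h1 : Continuous (fun a : ℝ => ∫ τ in (0 : ℝ)..a, DI_q Φ ℓ v τ) :=
    continuous_iff_continuousAt.mpr (fun a => (DI_ftc hq 0 a).continuousAt)
  have h2 : (fun a => Φ.U κ ℓ (Φ.φ a v)) = fun a => Real.exp (-κ - 1) *
      ((∫ τ in (0 : ℝ)..(a + 1), DI_q Φ ℓ v τ) - ∫ τ in (0 : ℝ)..a, DI_q Φ ℓ v τ) := by
    funext a
    rw [DI_U_eq, intervalIntegral.integral_interval_sub_left]
    · exact hq.intervalIntegrable _ _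
    · exact hq.intervalIntegrable _ _
  rw [h2]
  exact continuous_const.mul ((h1.comp (continuous_id.add (continuous_const (y := (1 : ℝ))))).sub h1)

theorem DI_S_deriv (κ ℓ : ℝ) (v : ℂ × ℝ) (hv : v ∈ P.S) (a : ℝ) :
    HasDerivAt (fun a => Φ.Sa κ ℓ a v) (Real.exp (-κ - 1) * ∫ τ in a..(a + 1), DI_q Φ ℓ v τ) a := by
  rw [← DI_U_eq]
  exact DI_ftc (DI_U_cont Φ κ ℓ v hv) 0 a

theorem DI_S_zero (κ ℓ : ℝ) (v : ℂ × ℝ) : Φ.Sa κ ℓ 0 v = 0 := by
  simp [GFlow.Sa]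

theorem DI_S_cont (κ ℓ : ℝ) (v : ℂ × ℝ) (hv : v ∈ P.S) : Continuous (fun a => Φ.Sa κ ℓ a v) :=
  continuous_iff_continuousAt.mpr (fun a => (DI_S_deriv Φ κ ℓ v hv a).continuousAt)

theorem DI_S_mono (κ ℓ : ℝ) (v : ℂ × ℝ) (hv : v ∈ P.S) : Monotone (fun a => Φ.Sa κ ℓ a v) := by
  apply monotone_of_hasDerivAt_nonneg (fun a => DI_S_deriv Φ κ ℓ v hv a)
  intro a
  simp only [Pi.zero_apply]
  apply mul_nonneg (Real.exp_pos _).le
  exact intervalIntegral.integral_nonneg (by linarith) (fun τ _ => DI_q_nonneg Φ ℓ v τ)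

/-- `Q(x) = ∫_0^x exp(-S/2)` -/
def DI_Q (κ ℓ : ℝ) (v : ℂ × ℝ) (x : ℝ) : ℝ := ∫ a in (0 : ℝ)..x, Real.exp (-(Φ.Sa κ ℓ a v) / 2)

theorem DI_e_cont (κ ℓ : ℝ) (v : ℂ × ℝ) (hv : v ∈ P.S) :
    Continuous (fun a => Real.exp (-(Φ.Sa κ ℓ a v) / 2)) :=
  Real.continuous_exp.comp (((DI_S_cont Φ κ ℓ v hv).neg).div_const 2)

theorem DI_Q_deriv (κ ℓ : ℝ) (v : ℂ × ℝ) (hv : v ∈ P.S) (a : ℝ) :
    HasDerivAt (DI_Q Φ κ ℓ v) (Real.exp (-(Φ.Sa κ ℓ a v) / 2)) a :=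
  DI_ftc (DI_e_cont Φ κ ℓ v hv) 0 a

theorem DI_Q_le (κ ℓ C : ℝ) (hC : 0 ≤ C) (v : ℂ × ℝ) (hv : v ∈ P.S)
    (hg : Φ.gg κ ℓ v ≤ ENNReal.ofReal C) (x : ℝ) (hx : 0 ≤ x) : DI_Q Φ κ ℓ v x ≤ C := by
  have hc := DI_e_cont Φ κ ℓ v hv
  have h1 : ENNReal.ofReal (DI_Q Φ κ ℓ v x) ≤ Φ.gg κ ℓ v := by
    unfold DI_Q GFlow.gg
    rw [intervalIntegral.integral_of_le hx]
    rw [ofReal_integral_eq_lintegral_ofReal]
    · exact lintegral_mono_set (fun y hy => hy.1)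
    · exact (hc.integrableOn_Icc (a := 0) (b := x)).mono_set Ioc_subset_Icc_self
    · exact Eventually.of_forall (fun a => (Real.exp_pos _).le)
  exact (ENNReal.ofReal_le_ofReal_iff hC).mp (h1.trans hg)

/-! ### the decay of the length -/

/-- the length of the curve decays -/
theorem DI_length (hk : ∀ z ∈ P.Ω, 0 ≤ kk P.u z) (κ L δ : ℝ)
    (hκ : 1 ≤ κ) (hL : 1 ≤ L) (hk2 : ∀ z ∈ P.Ω, kk P.u z ≤ κ ^ 2)
    (hLk : ∀ v ∈ P.S, |fderiv ℝ (kk P.u) v.1 (HH P.u v).1| ≤ L) (T : ℝ) (hT : 3 ≤ T)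
    (v : ℂ × ℝ) (hv : v ∈ P.S) (b : ℝ) (hb : Φ.len T b v ≤ δ) :
    ∀ a, 0 ≤ a → a ≤ T →
      |DI_Y Φ T v a b| ≤ Real.exp (-(Φ.Sa κ (L * δ) (min a (T - 2)) v)) * δ := by
  have hδ : 0 ≤ δ := by
    refine le_trans ?_ hb
    rw [DI_len]; exact abs_nonneg _
  have hY0 : |DI_Y Φ T v 0 b| ≤ δ := by rw [← DI_len]; exact hb
  have hYa : ∀ a, 0 ≤ a → a ≤ T → |DI_Y Φ T v a b| ≤ δ := by
    intro a ha0 haT
    have := DI_Y_comp Φ hk T v hv a 0 1 b zero_le_one haT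
      (fun s _ => by rw [one_mul]; exact DI_anti_z Φ hk T s v hv 0 a ha0 haT)
    rw [one_mul] at this
    exact this.trans hY0
  have hK0 : ∀ a, DI_K Φ T v 0 a = kk P.u (Φ.φ a v).1 := by
    intro a
    rw [DI_K, DI_rot0, ← Φ.add, sub_add_cancel]
  have hqK : ∀ s ∈ uIcc 0 b, ∀ a, 0 ≤ a → a ≤ T → DI_q Φ (L * δ) v a ≤ DI_K Φ T v s a := by
    intro s hs a ha0 haT
    have h1 := DI_K_diff Φ hk L hLk T v hv a s haT
    have h2 := DI_Y_le Φ hk T v hv a b s haT hs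
    have h3 := hYa a ha0 haT
    have h4 : L * |DI_Y Φ T v a s| ≤ L * δ :=
      mul_le_mul_of_nonneg_left (h2.trans h3) (by linarith)
    have h5 := (abs_le.mp (h1.trans h4)).1
    rw [hK0] at h5
    rw [DI_q]
    apply max_le
    · linarith
    · exact hk _ (DI_w_mem Φ T s a v hv).1
  have hdec : ∀ s ∈ uIcc 0 b, ∀ a, 0 ≤ a → a ≤ T - 2 →
      DI_z Φ T v s a ≤ Real.exp (-(Φ.Sa κ (L * δ) a v)) * DI_z Φ T v s 0 := by
    intro s hs
    exact DI_decay T κ (DI_z Φ T v s) (DI_z' Φ T v s) (DI_K Φ T v s) (DI_q Φ (L * δ) v)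
      (fun a => Φ.Sa κ (L * δ) a v) (DI_hz Φ T s v hv) (DI_hz' Φ T s v hv)
      (fun a ha => by linarith [(DI_pos Φ hk T s v hv a ha).1])
      (fun a ha => by linarith [(DI_pos Φ hk T s v hv a ha).2])
      (fun a ha => DI_ric Φ hk κ hκ hk2 T s v hv a ha)
      (DI_q_cont Φ (L * δ) v hv) (DI_q_nonneg Φ (L * δ) v) (hqK s hs)
      (DI_S_deriv Φ κ (L * δ) v hv) (DI_S_zero Φ κ (L * δ) v)
  have hmain : ∀ a, 0 ≤ a → a ≤ T - 2 →
      |DI_Y Φ T v a b| ≤ Real.exp (-(Φ.Sa κ (L * δ) a v)) * δ := by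
    intro a ha0 haT
    have := DI_Y_comp Φ hk T v hv a 0 (Real.exp (-(Φ.Sa κ (L * δ) a v))) b (Real.exp_pos _).le
      (by linarith) (fun s hs => hdec s hs a ha0 haT)
    exact this.trans (mul_le_mul_of_nonneg_left hY0 (Real.exp_pos _).le)
  intro a ha0 haT
  rcases le_total a (T - 2) with h | h
  · rw [min_eq_left h]; exact hmain a ha0 h
  · rw [min_eq_right h]
    have h1 := DI_Y_comp Φ hk T v hv a (T - 2) 1 b zero_le_one haT
      (fun s _ => by rw [one_mul]; exact DI_anti_z Φ hk T s v hv (T - 2) a h haT)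
    rw [one_mul] at h1
    exact h1.trans (hmain (T - 2) (by linarith) le_rfl)

/-- DI : bounded distortion -/
theorem distort_pr (P : Pres) (Φ : GFlow P) (hk : ∀ z ∈ P.Ω, 0 ≤ kk P.u z) (κ L δ C : ℝ)
    (hκ : 1 ≤ κ) (hL : 1 ≤ L) (hδ : 0 < δ) (hC : 0 < C) (hk2 : ∀ z ∈ P.Ω, kk P.u z ≤ κ ^ 2)
    (hLk : ∀ v ∈ P.S, |fderiv ℝ (kk P.u) v.1 (HH P.u v).1| ≤ L) :
    ∃ C₁ : ℝ, 1 ≤ C₁ ∧ ∀ T : ℝ, 3 ≤ T → ∀ v ∈ P.S, Φ.gg κ (L * δ) v ≤ ENNReal.ofReal C →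
      ∀ b : ℝ, Φ.len T b v ≤ δ →
        Φ.J T v ≤ C₁ * Φ.J T (Φ.St T b v) ∧ Φ.J T (Φ.St T b v) ≤ C₁ * Φ.J T v := by
  refine ⟨Real.exp (L * δ * ((C + 2) * C + 4)), Real.one_le_exp (by positivity), ?_⟩
  intro T hT v hv hg b hb
  have hlen := DI_length Φ hk κ L δ hκ hL hk2 hLk T hT v hv b hb
  set S : ℝ → ℝ := fun a => Φ.Sa κ (L * δ) a v with hS
  have hSc : Continuous S := DI_S_cont Φ κ (L * δ) v hv
  have hSm : Monotone S := DI_S_mono Φ κ (L * δ) v hv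
  have hS0 : S 0 = 0 := DI_S_zero Φ κ (L * δ) v
  have hD : 0 ≤ L * δ := by positivity
  set m : ℝ → ℝ := fun a => L * δ * Real.exp (-(S (min a (T - 2)))) with hm
  have hmc : Continuous m := by
    apply continuous_const.mul
    apply Real.continuous_exp.comp
    exact (hSc.comp (continuous_id.min continuous_const)).neg
  have hKm : ∀ a, 0 ≤ a → a ≤ T → |DI_K Φ T v b a - DI_K Φ T v 0 a| ≤ m a := by
    intro a ha0 haT
    have h1 := DI_K_diff Φ hk L hLk T v hv a b haT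
    have h2 := mul_le_mul_of_nonneg_left (hlen a ha0 haT) (by linarith : 0 ≤ L)
    refine h1.trans (h2.trans (le_of_eq ?_))
    rw [hm]; ring
  have hw := DI_wron T (DI_z Φ T v b) (DI_z' Φ T v b) (DI_K Φ T v b) (DI_z Φ T v 0) (DI_z' Φ T v 0)
    (DI_K Φ T v 0) m (DI_hz Φ T b v hv) (DI_hz' Φ T b v hv) (DI_hz Φ T 0 v hv) (DI_hz' Φ T 0 v hv)
    (fun a ha => by linarith [(DI_pos Φ hk T b v hv a ha).1])
    (fun a ha => by linarith [(DI_pos Φ hk T b v hv a ha).2])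
    (fun a ha => by linarith [(DI_pos Φ hk T 0 v hv a ha).1])
    (fun a ha => by linarith [(DI_pos Φ hk T 0 v hv a ha).2])
    (DI_zT Φ T b v) (DI_zT Φ T 0 v) hmc hKm
  have hmi : ∀ x y, IntervalIntegrable m volume x y := fun x y => hmc.intervalIntegrable x y
  have hSn : ∀ a, 0 ≤ a → 0 ≤ S a := fun a ha => by rw [← hS0]; exact hSm ha
  -- bound near the end
  have hend : ∀ a, T - 2 ≤ a → a < T → (∫ τ in a..T, m τ) ≤ L * δ * Real.exp (-(S (T - 2))) * 2 := by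
    intro a ha haT
    have h1 : (∫ τ in a..T, m τ) ≤ ∫ τ in a..T, L * δ * Real.exp (-(S (T - 2))) := by
      apply intervalIntegral.integral_mono_on haT.le (hmi _ _) (continuous_const.intervalIntegrable _ _)
      intro x hx
      rw [hm]
      simp only
      rw [min_eq_right (ha.trans hx.1)]
    rw [intervalIntegral.integral_const, smul_eq_mul, mul_comm] at h1
    refine h1.trans ?_
    apply mul_le_mul_of_nonneg_left (by linarith)
    positivity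
  have hQd := DI_Q_deriv Φ κ (L * δ) v hv
  have hQC := DI_Q_le Φ κ (L * δ) C hC.le v hv hg (T - 2) (by linarith)
  have hQ0 : DI_Q Φ κ (L * δ) v 0 = 0 := by simp [DI_Q]
  have hbig : ∀ a, 0 ≤ a → a ≤ T - 2 →
      (∫ τ in a..T, m τ) ≤ L * δ * (C + 2) * Real.exp (-(S a) / 2) := by
    intro a ha0 haT
    have hsplit : (∫ τ in a..T, m τ) = (∫ τ in a..(T - 2), m τ) + ∫ τ in (T - 2)..T, m τ :=
      (intervalIntegral.integral_add_adjacent_intervals (hmi _ _) (hmi _ _)).symm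
    have h2 : (∫ τ in (T - 2)..T, m τ) ≤ L * δ * Real.exp (-(S a) / 2) * 2 := by
      refine (hend (T - 2) le_rfl (by linarith)).trans ?_
      have h3 : Real.exp (-(S (T - 2))) ≤ Real.exp (-(S a) / 2) := by
        apply Real.exp_le_exp.mpr
        have e1 := hSm haT
        have e2 := hSn a ha0
        linarith
      have h4 := mul_le_mul_of_nonneg_left h3 hD
      linarith
    have h5 : (∫ τ in a..(T - 2), m τ) ≤ L * δ * Real.exp (-(S a) / 2) * C := by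
      have h6 : (∫ τ in a..(T - 2), m τ) ≤
          ∫ τ in a..(T - 2), L * δ * Real.exp (-(S a) / 2) * Real.exp (-(S τ) / 2) := by
        apply intervalIntegral.integral_mono_on haT (hmi _ _)
        · exact (continuous_const.mul (DI_e_cont Φ κ (L * δ) v hv)).intervalIntegrable _ _
        · intro x hx
          rw [hm]
          simp only
          rw [min_eq_left hx.2, mul_assoc (L * δ), ← Real.exp_add]
          apply mul_le_mul_of_nonneg_left _ hD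
          apply Real.exp_le_exp.mpr
          have e1 := hSm hx.1
          linarith
      have h6' : (∫ τ in a..(T - 2), L * δ * Real.exp (-(S a) / 2) * Real.exp (-(S τ) / 2)) =
          L * δ * Real.exp (-(S a) / 2) * ∫ τ in a..(T - 2), Real.exp (-(S τ) / 2) :=
        intervalIntegral.integral_const_mul _ _
      rw [h6'] at h6
      have hnn : 0 ≤ L * δ * Real.exp (-(S a) / 2) := by positivity
      refine h6.trans (mul_le_mul_of_nonneg_left ?_ hnn)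
      have h7 : (∫ τ in a..(T - 2), Real.exp (-(S τ) / 2)) =
          DI_Q Φ κ (L * δ) v (T - 2) - DI_Q Φ κ (L * δ) v a := by
        unfold DI_Q
        rw [intervalIntegral.integral_interval_sub_left]
        · exact (DI_e_cont Φ κ (L * δ) v hv).intervalIntegrable _ _
        · exact (DI_e_cont Φ κ (L * δ) v hv).intervalIntegrable _ _
      rw [h7]
      have h8 : 0 ≤ DI_Q Φ κ (L * δ) v a :=
        intervalIntegral.integral_nonneg ha0 (fun τ _ => (Real.exp_pos _).le)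
      linarith
    rw [hsplit]
    calc (∫ τ in a..(T - 2), m τ) + ∫ τ in (T - 2)..T, m τ
        ≤ L * δ * Real.exp (-(S a) / 2) * C + L * δ * Real.exp (-(S a) / 2) * 2 := add_le_add h5 h2
      _ = L * δ * (C + 2) * Real.exp (-(S a) / 2) := by ring
  have hlog := DI_log T (L * δ) C (by linarith) (DI_z Φ T v b) (DI_z' Φ T v b) (DI_z Φ T v 0)
    (DI_z' Φ T v 0) S (DI_Q Φ κ (L * δ) v) (DI_hz Φ T b v hv) (DI_hz Φ T 0 v hv)
    (fun a ha => by linarith [(DI_pos Φ hk T b v hv a ha).1])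
    (fun a ha => by linarith [(DI_pos Φ hk T 0 v hv a ha).1])
    (DI_zT Φ T b v) (DI_zT Φ T 0 v) (DI_z'T Φ T b v) (DI_z'T Φ T 0 v) hQd (by rw [hQ0, sub_zero]; exact hQC)
    hD hC.le
    (fun a ha0 haT => (hw a ha0 (by linarith)).trans (hbig a ha0 haT))
    (fun a ha haT => (hw a (by linarith) haT).trans ((hend a ha haT).trans (by
      have h3 : Real.exp (-(S (T - 2))) ≤ 1 := by
        rw [← Real.exp_zero]
        apply Real.exp_le_exp.mpr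
        have := hSn (T - 2) (by linarith)
        linarith
      have h4 := mul_le_mul_of_nonneg_left h3 hD
      linarith)))
  have hp0 : 0 < DI_z Φ T v 0 0 := by linarith [(DI_pos Φ hk T 0 v hv 0 (by linarith)).1]
  have hpb : 0 < DI_z Φ T v b 0 := by linarith [(DI_pos Φ hk T b v hv 0 (by linarith)).1]
  rw [DI_J00, DI_J0]
  have hl := abs_le.mp hlog
  constructor
  · have : Real.log (DI_z Φ T v 0 0) ≤ L * δ * ((C + 2) * C + 4) + Real.log (DI_z Φ T v b 0) := by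
      linarith [hl.1]
    calc DI_z Φ T v 0 0 = Real.exp (Real.log (DI_z Φ T v 0 0)) := (Real.exp_log hp0).symm
      _ ≤ Real.exp (L * δ * ((C + 2) * C + 4) + Real.log (DI_z Φ T v b 0)) := Real.exp_le_exp.mpr this
      _ = _ := by rw [Real.exp_add, Real.exp_log hpb]
  · have : Real.log (DI_z Φ T v b 0) ≤ L * δ * ((C + 2) * C + 4) + Real.log (DI_z Φ T v 0 0) := by
      linarith [hl.2]
    calc DI_z Φ T v b 0 = Real.exp (Real.log (DI_z Φ T v b 0)) := (Real.exp_log hpb).symm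
      _ ≤ Real.exp (L * δ * ((C + 2) * C + 4) + Real.log (DI_z Φ T v 0 0)) := Real.exp_le_exp.mpr this
      _ = _ := by rw [Real.exp_add, Real.exp_log hp0]

end

end Pool.Agent.EQ

namespace Pool.Agent.EQ

open MeasureTheory Filter Topology Set
open scoped ContDiff ENNReal

noncomputable section

theorem distort (P : Pres) (Φ : GFlow P) (hk : ∀ z ∈ P.Ω, 0 ≤ kk P.u z) (κ L δ C : ℝ)
    (hκ : 1 ≤ κ) (hL : 1 ≤ L) (hδ : 0 < δ) (hC : 0 < C) (hk2 : ∀ z ∈ P.Ω, kk P.u z ≤ κ ^ 2)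
    (hLk : ∀ v ∈ P.S, |fderiv ℝ (kk P.u) v.1 (HH P.u v).1| ≤ L) :
    ∃ C₁ : ℝ, 1 ≤ C₁ ∧ ∀ T : ℝ, 3 ≤ T → ∀ v ∈ P.S, Φ.gg κ (L * δ) v ≤ ENNReal.ofReal C →
      ∀ b : ℝ, Φ.len T b v ≤ δ →
        Φ.J T v ≤ C₁ * Φ.J T (Φ.St T b v) ∧ Φ.J T (Φ.St T b v) ≤ C₁ * Φ.J T v := by
  first
    | exact distort_pr ..
    | (apply distort_pr <;> assumption)

end

end Pool.Agent.EQ

end

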