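import Mathlib
import Pool.Agent.Lib_helper71.EQM.DynA
import Pool.Agent.Lib_helper71.EQM.FlowDefs

/-! Project EQ (MP_ed6ab2_an): merged modules Lib_helper71.EQ.D.BD, Lib_helper71.EQ.D.APX, Lib_helper71.EQ.D.FUN, Lib_helper71.EQ.D.INT, Lib_helper71.EQ.D.INT2, Lib_helper71.EQ.D.GF, Lib_helper71.EQ.D.GM. -/

set_option autoImplicit false

/-! ## Lib_helper71.EQ.D.BD -/

section

set_option autoImplicit false

namespace Pool.Agent.EQ

open MeasureTheory Filter Topology Set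
open scoped ContDiff ENNReal

noncomputable section

theorem BD_hasDerivAt (P : Pres) (g : P.G) (z : ℂ) (hz : z ∈ P.Ω) :
    HasDerivAt (P.act g) (deriv (P.act g) z) z :=
  ((P.holo g).differentiableAt (P.isOpen.mem_nhds hz)).hasDerivAt

theorem BD_deriv_ne (P : Pres) (g : P.G) (z : ℂ) (hz : z ∈ P.Ω) : deriv (P.act g) z ≠ 0 := by
  have h1 := BD_hasDerivAt P g z hz
  have h2 := BD_hasDerivAt P g⁻¹ (P.act g z) (P.act_mem g z hz)
  have h3 := h2.comp z h1
  have h4 : (P.act g⁻¹ ∘ P.act g) =ᶠ[𝓝 z] id := by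
    filter_upwards [P.isOpen.mem_nhds hz] with w hw
    simp only [Function.comp, id]
    rw [← P.act_mul g⁻¹ g w hw, inv_mul_cancel, P.act_one w hw]
  have h5 := h3.congr_of_eventuallyEq h4.symm
  have h6 := h5.unique (hasDerivAt_id z)
  intro h0
  rw [h0, mul_zero] at h6
  exact zero_ne_one h6

theorem BD_norm (P : Pres) (g : P.G) (z : ℂ) (hz : z ∈ P.Ω) :
    Real.exp (-P.u z) * ‖deriv (P.act g) z‖ = Real.exp (-P.u (P.act g z)) := by
  have h0 : 0 < ‖deriv (P.act g) z‖ := norm_pos_iff.mpr (BD_deriv_ne P g z hz)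
  have h1 := P.isom g z hz
  nth_rewrite 1 [← Real.exp_log h0]
  rw [← Real.exp_add]
  congr 1; linarith

theorem BD_contDiffAt_u (P : Pres) (z : ℂ) (hz : z ∈ P.Ω) : ContDiffAt ℝ ∞ P.u z :=
  P.smooth.contDiffAt (P.isOpen.mem_nhds hz)

theorem BD_cd_fderiv (f : ℂ → ℝ) (z : ℂ) (c : ℂ) (hf : ContDiffAt ℝ ∞ f z) :
    ContDiffAt ℝ ∞ (fun w => fderiv ℝ f w c) z :=
  (hf.fderiv_right (m := ∞) (by norm_cast)).clm_apply contDiffAt_const

theorem BD_cd_lap (f : ℂ → ℝ) (z : ℂ) (hf : ContDiffAt ℝ ∞ f z) : ContDiffAt ℝ ∞ (lap f) z :=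
  (BD_cd_fderiv _ z 1 (BD_cd_fderiv f z 1 hf)).add
    (BD_cd_fderiv _ z Complex.I (BD_cd_fderiv f z Complex.I hf))

theorem BD_cd_kk (P : Pres) (z : ℂ) (hz : z ∈ P.Ω) : ContDiffAt ℝ ∞ (kk P.u) z :=
  ((contDiffAt_const.mul (BD_contDiffAt_u P z hz)).exp).mul (BD_cd_lap _ z (BD_contDiffAt_u P z hz))

theorem BD_lap_eq (f : ℂ → ℝ) (z : ℂ) (hf : ContDiffAt ℝ 2 f z) :
    lap f z = Laplacian.laplacian f z := by
  have hd : DifferentiableAt ℝ (fderiv ℝ f) z :=
    (hf.fderiv_right (m := 1) (by norm_num)).differentiableAt (by norm_num)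
  rw [InnerProductSpace.laplacian_eq_iteratedFDeriv_complexPlane]
  simp only [iteratedFDeriv_two_apply]
  unfold lap dx dy
  rw [fderiv_clm_apply hd (differentiableAt_const _), fderiv_clm_apply hd (differentiableAt_const _)]
  simp

theorem BD_alg (B : ℂ →L[ℝ] ℂ →L[ℝ] ℝ) (a : ℂ) :
    B a a + B (a * Complex.I) (a * Complex.I) = ‖a‖ ^ 2 * (B 1 1 + B Complex.I Complex.I) := by
  have ha : a = (a.re : ℝ) • (1 : ℂ) + (a.im : ℝ) • Complex.I := by
    apply Complex.ext <;> simp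
  have hb : a * Complex.I = (-a.im : ℝ) • (1 : ℂ) + (a.re : ℝ) • Complex.I := by
    apply Complex.ext <;> simp
  have hn : ‖a‖ ^ 2 = a.re * a.re + a.im * a.im := by
    rw [← Complex.normSq_eq_norm_sq, Complex.normSq_apply]
  rw [hb, hn]
  nth_rewrite 1 [ha]
  nth_rewrite 3 [ha]
  simp only [map_add, map_smul, ContinuousLinearMap.add_apply, ContinuousLinearMap.smul_apply,
    smul_eq_mul]
  ring

theorem BD_lap_comp (P : Pres) (g : P.G) (z : ℂ) (hz : z ∈ P.Ω) (f : ℂ → ℝ)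
    (hf : ContDiffOn ℝ ∞ f P.Ω) :
    lap (fun w => f (P.act g w)) z = ‖deriv (P.act g) z‖ ^ 2 * lap f (P.act g z) := by
  have hfd : ∀ w ∈ P.Ω, HasFDerivAt (P.act g) (deriv (P.act g) w • (1 : ℂ →L[ℝ] ℂ)) w := fun w hw =>
    (BD_hasDerivAt P g w hw).complexToReal_fderiv
  have hfw : ∀ w ∈ P.Ω, ContDiffAt ℝ ∞ f w := fun w hw => hf.contDiffAt (P.isOpen.mem_nhds hw)
  have hF : ∀ w ∈ P.Ω, ∀ c : ℂ, fderiv ℝ (fun w => f (P.act g w)) w c
      = fderiv ℝ f (P.act g w) (deriv (P.act g) w * c) := by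
    intro w hw c
    have h1 : HasFDerivAt f (fderiv ℝ f (P.act g w)) (P.act g w) :=
      ((hfw _ (P.act_mem g w hw)).differentiableAt (by norm_num)).hasFDerivAt
    have h2 := h1.comp w (hfd w hw)
    rw [HasFDerivAt.fderiv (f := fun w => f (P.act g w)) h2]
    simp
  have hg2 : HasFDerivAt (deriv (P.act g)) (deriv (deriv (P.act g)) z • (1 : ℂ →L[ℝ] ℂ)) z := by
    have h1 : AnalyticAt ℂ (P.act g) z := (P.holo g).analyticAt (P.isOpen.mem_nhds hz)
    exact (h1.deriv.differentiableAt.hasDerivAt).complexToReal_fderiv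
  have hD2 : HasFDerivAt (fderiv ℝ f) (fderiv ℝ (fderiv ℝ f) (P.act g z)) (P.act g z) := by
    have h1 := (hfw _ (P.act_mem g z hz)).fderiv_right (m := 1) (by norm_cast)
    exact (h1.differentiableAt (by norm_num)).hasFDerivAt
  have hc2 := hD2.comp z (hfd z hz)
  have hsec : ∀ c : ℂ, fderiv ℝ (fun w => fderiv ℝ (fun w => f (P.act g w)) w c) z c
      = fderiv ℝ f (P.act g z) (deriv (deriv (P.act g)) z * c * c)
        + fderiv ℝ (fderiv ℝ f) (P.act g z) (deriv (P.act g) z * c) (deriv (P.act g) z * c) := by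
    intro c
    have he : (fun w => fderiv ℝ (fun w => f (P.act g w)) w c)
        =ᶠ[𝓝 z] fun w => fderiv ℝ f (P.act g w) (deriv (P.act g) w * c) := by
      filter_upwards [P.isOpen.mem_nhds hz] with w hw
      exact hF w hw c
    rw [he.fderiv_eq]
    have hm : HasFDerivAt (fun w => deriv (P.act g) w * c)
        ((deriv (deriv (P.act g)) z * c) • (1 : ℂ →L[ℝ] ℂ)) z := by
      have h1 : AnalyticAt ℂ (P.act g) z := (P.holo g).analyticAt (P.isOpen.mem_nhds hz)
      exact (h1.deriv.differentiableAt.hasDerivAt.mul_const c).complexToReal_fderiv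
    have h3 := hc2.clm_apply hm
    have h4 : HasFDerivAt (fun w => fderiv ℝ f (P.act g w) (deriv (P.act g) w * c)) _ z := h3
    rw [h4.fderiv]
    simp
  unfold lap
  have e1 : dx (dx (fun w => f (P.act g w))) z = _ := hsec 1
  have e2 : dy (dy (fun w => f (P.act g w))) z = _ := hsec Complex.I
  rw [e1, e2]
  have hd : DifferentiableAt ℝ (fderiv ℝ f) (P.act g z) := hD2.differentiableAt
  have e3 : dx (dx f) (P.act g z) = fderiv ℝ (fderiv ℝ f) (P.act g z) 1 1 := by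
    unfold dx
    rw [fderiv_clm_apply hd (differentiableAt_const _)]; simp
  have e4 : dy (dy f) (P.act g z) = fderiv ℝ (fderiv ℝ f) (P.act g z) Complex.I Complex.I := by
    unfold dy
    rw [fderiv_clm_apply hd (differentiableAt_const _)]; simp
  rw [e3, e4, ← BD_alg]
  have e5 : deriv (deriv (P.act g)) z * Complex.I * Complex.I = -deriv (deriv (P.act g)) z := by
    rw [mul_assoc, Complex.I_mul_I]; ring
  rw [e5, map_neg]
  simp only [mul_one]
  ring

theorem BD_kk_inv (P : Pres) (g : P.G) (z : ℂ) (hz : z ∈ P.Ω) :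
    kk P.u (P.act g z) = kk P.u z := by
  have hcd : ∀ w ∈ P.Ω, ContDiffAt ℝ 2 P.u w := fun w hw => (BD_contDiffAt_u P w hw).of_le (by norm_cast)
  have han : AnalyticAt ℂ (P.act g) z := (P.holo g).analyticAt (P.isOpen.mem_nhds hz)
  have hcg : ContDiffAt ℝ ∞ (P.act g) z := han.restrictScalars.contDiffAt
  have hcF : ContDiffAt ℝ 2 (fun w => P.u (P.act g w)) z :=
    ContDiffAt.comp z (hcd _ (P.act_mem g z hz)) (hcg.of_le (by norm_cast))
  have hharm := AnalyticAt.harmonicAt_log_norm han.deriv (BD_deriv_ne P g z hz)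
  have h1 : ((fun w => P.u (P.act g w)) + (fun w => Real.log ‖deriv (P.act g) w‖)) =ᶠ[𝓝 z] P.u := by
    filter_upwards [P.isOpen.mem_nhds hz] with w hw
    exact P.isom g w hw
  have h2 : lap P.u z = lap (fun w => P.u (P.act g w)) z := by
    rw [BD_lap_eq _ z (hcd z hz), ← (InnerProductSpace.laplacian_congr_nhds h1).eq_of_nhds,
      hcF.laplacian_add hharm.1, hharm.2.eq_of_nhds, BD_lap_eq _ z hcF]
    simp
  rw [BD_lap_comp P g z hz P.u P.smooth] at h2
  unfold kk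
  rw [h2]
  have h3 := BD_norm P g z hz
  have h4 : Real.exp (-2 * P.u (P.act g z)) = Real.exp (-2 * P.u z) * ‖deriv (P.act g) z‖ ^ 2 := by
    have e1 : Real.exp (-2 * P.u (P.act g z)) = Real.exp (-P.u (P.act g z)) ^ 2 := by
      rw [← Real.exp_nat_mul]; congr 1; push_cast; ring
    have e2 : Real.exp (-2 * P.u z) = Real.exp (-P.u z) ^ 2 := by
      rw [← Real.exp_nat_mul]; congr 1; push_cast; ring
    rw [e1, e2, ← h3]; ring
  rw [h4]; ring

theorem BD_fderiv_kk (P : Pres) (g : P.G) (z : ℂ) (hz : z ∈ P.Ω) :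
    ‖fderiv ℝ (kk P.u) z‖ ≤ ‖fderiv ℝ (kk P.u) (P.act g z)‖ * ‖deriv (P.act g) z‖ := by
  have h1 : (fun w => kk P.u (P.act g w)) =ᶠ[𝓝 z] kk P.u := by
    filter_upwards [P.isOpen.mem_nhds hz] with w hw
    exact BD_kk_inv P g w hw
  rw [← h1.fderiv_eq]
  have h2 : HasFDerivAt (kk P.u) (fderiv ℝ (kk P.u) (P.act g z)) (P.act g z) :=
    ((BD_cd_kk P _ (P.act_mem g z hz)).differentiableAt (by norm_num)).hasFDerivAt
  have h3 := h2.comp z (BD_hasDerivAt P g z hz).complexToReal_fderiv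
  rw [HasFDerivAt.fderiv (f := fun w => kk P.u (P.act g w)) h3]
  refine (ContinuousLinearMap.opNorm_comp_le _ _).trans ?_
  refine mul_le_mul_of_nonneg_left ?_ (norm_nonneg _)
  refine (norm_smul_le _ _).trans ?_
  have : ‖(1 : ℂ →L[ℝ] ℂ)‖ ≤ 1 := ContinuousLinearMap.norm_id_le
  nlinarith [norm_nonneg (deriv (P.act g) z)]

theorem BD_norm_HH (u : ℂ → ℝ) (v : ℂ × ℝ) : ‖(HH u v).1‖ = Real.exp (-u v.1) := by
  unfold HH
  simp only [norm_mul, Complex.norm_I, one_mul, Complex.norm_exp_ofReal_mul_I, mul_one]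
  have : (Real.exp (-u v.1) : ℂ) = ((Real.exp (-u v.1) : ℝ) : ℂ) := by norm_cast
  rw [Complex.norm_real, Real.norm_eq_abs, abs_of_pos (Real.exp_pos _)]

theorem kk_bounds_pr (P : Pres) : ∃ κ L : ℝ, 1 ≤ κ ∧ 1 ≤ L ∧
    (∀ z ∈ P.Ω, |kk P.u z| ≤ κ ^ 2) ∧
    (∀ v ∈ P.S, |fderiv ℝ (kk P.u) v.1 (HH P.u v).1| ≤ L) := by
  obtain ⟨K, hKΩ, hK, hcov⟩ := P.cocompact
  have hc1 : ContinuousOn (kk P.u) K := fun z hz =>
    (BD_cd_kk P z (hKΩ hz)).continuousAt.continuousWithinAt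
  have hc2 : ContinuousOn (fun z => ‖fderiv ℝ (kk P.u) z‖ * Real.exp (-P.u z)) K := by
    intro z hz
    have h1 : ContinuousAt (fderiv ℝ (kk P.u)) z :=
      ((BD_cd_kk P z (hKΩ hz)).fderiv_right (m := 0) (by norm_cast)).continuousAt
    have h2 : ContinuousAt P.u z := (BD_contDiffAt_u P z (hKΩ hz)).continuousAt
    exact (h1.norm.mul (h2.neg.rexp)).continuousWithinAt
  obtain ⟨M1, hM1⟩ := hK.exists_bound_of_continuousOn hc1
  obtain ⟨M2, hM2⟩ := hK.exists_bound_of_continuousOn hc2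
  refine ⟨1 + |M1|, 1 + |M2|, by linarith [abs_nonneg M1], by linarith [abs_nonneg M2], ?_, ?_⟩
  · intro z hz
    obtain ⟨g, hg⟩ := hcov z hz
    rw [← BD_kk_inv P g z hz]
    have h1 := hM1 _ hg
    rw [Real.norm_eq_abs] at h1
    have h2 := le_abs_self M1
    nlinarith [abs_nonneg M1]
  · intro v hv
    have hz : v.1 ∈ P.Ω := hv.1
    obtain ⟨g, hg⟩ := hcov v.1 hz
    have h1 := hM2 _ hg
    rw [Real.norm_eq_abs] at h1
    have h2 := le_abs_self M2
    have h0 := ContinuousLinearMap.le_opNorm (fderiv ℝ (kk P.u) v.1) (HH P.u v).1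
    rw [Real.norm_eq_abs] at h0
    calc |fderiv ℝ (kk P.u) v.1 (HH P.u v).1| ≤ ‖fderiv ℝ (kk P.u) v.1‖ * ‖(HH P.u v).1‖ := h0
      _ = ‖fderiv ℝ (kk P.u) v.1‖ * Real.exp (-P.u v.1) := by rw [BD_norm_HH]
      _ ≤ (‖fderiv ℝ (kk P.u) (P.act g v.1)‖ * ‖deriv (P.act g) v.1‖) * Real.exp (-P.u v.1) :=
          mul_le_mul_of_nonneg_right (BD_fderiv_kk P g v.1 hz) (Real.exp_pos _).le
      _ = ‖fderiv ℝ (kk P.u) (P.act g v.1)‖ * Real.exp (-P.u (P.act g v.1)) := by
          rw [← BD_norm P g v.1 hz]; ring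
      _ ≤ 1 + |M2| := by
          have := le_abs_self (‖fderiv ℝ (kk P.u) (P.act g v.1)‖ * Real.exp (-P.u (P.act g v.1)))
          linarith

end

end Pool.Agent.EQ

namespace Pool.Agent.EQ

open MeasureTheory Filter Topology Set
open scoped ContDiff ENNReal

noncomputable section

theorem kk_bounds (P : Pres) : ∃ κ L : ℝ, 1 ≤ κ ∧ 1 ≤ L ∧
    (∀ z ∈ P.Ω, |kk P.u z| ≤ κ ^ 2) ∧
    (∀ v ∈ P.S, |fderiv ℝ (kk P.u) v.1 (HH P.u v).1| ≤ L) := by
  first
    | exact kk_bounds_pr ..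
    | (apply kk_bounds_pr <;> assumption)

end

end Pool.Agent.EQ

end

/-! ## Lib_helper71.EQ.D.APX -/

section

set_option autoImplicit false

namespace Pool.Agent.EQ

open MeasureTheory Filter Topology Set
open scoped ContDiff ENNReal Manifold

noncomputable section


theorem apx_mem_S (P : Pres) (v : ℂ × ℝ) : v ∈ P.S ↔ v.1 ∈ P.Ω := by
  simp [Pres.S]

theorem apx_open_S (P : Pres) : IsOpen P.S := P.isOpen.prod isOpen_univ

theorem apx_HH1 (u : ℂ → ℝ) (v : ℂ × ℝ) :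
    (HH u v).1 = Complex.I * (((Real.exp (-u v.1) : ℝ) : ℂ) * Complex.exp (v.2 * Complex.I)) := by
  unfold HH; simp only; ring

theorem apx_HH2 (u : ℂ → ℝ) (v : ℂ × ℝ) :
    (HH u v).2 = -(fderiv ℝ u v.1 (((Real.exp (-u v.1) : ℝ) : ℂ) * Complex.exp (v.2 * Complex.I))) := by
  set X : ℂ := ((Real.exp (-u v.1) : ℝ) : ℂ) * Complex.exp (v.2 * Complex.I) with hX
  have hre : X.re = Real.exp (-u v.1) * Real.cos v.2 := by
    rw [hX, Complex.re_ofReal_mul, Complex.exp_ofReal_mul_I_re]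
  have him : X.im = Real.exp (-u v.1) * Real.sin v.2 := by
    rw [hX, Complex.im_ofReal_mul, Complex.exp_ofReal_mul_I_im]
  have hdec : X = (X.re : ℝ) • (1 : ℂ) + (X.im : ℝ) • Complex.I := by
    apply Complex.ext <;> simp
  rw [hdec, map_add, map_smul, map_smul, hre, him]
  unfold HH dx dy
  simp only [smul_eq_mul]
  ring

/-- local branch of the logarithm of the derivative -/
theorem apx_log (P : Pres) (g : P.G) (z : ℂ) (hz : z ∈ P.Ω) :
    HasDerivAt (fun w => Complex.log (deriv (P.act g) w / deriv (P.act g) z))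
      (deriv (deriv (P.act g)) z / deriv (P.act g) z) z := by
  have h0 := BD_deriv_ne P g z hz
  have han : AnalyticAt ℂ (P.act g) z := (P.holo g).analyticAt (P.isOpen.mem_nhds hz)
  have h1 := (han.deriv.differentiableAt.hasDerivAt).div_const (deriv (P.act g) z)
  have h2 := h1.clog (by rw [div_self h0]; exact Complex.one_mem_slitPlane)
  rw [div_self h0, div_one] at h2
  exact h2

theorem apx_isom_deriv (P : Pres) (g : P.G) (z : ℂ) (hz : z ∈ P.Ω) (X : ℂ) :
    (deriv (deriv (P.act g)) z / deriv (P.act g) z * X).re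
      = fderiv ℝ P.u z X - fderiv ℝ P.u (P.act g z) (deriv (P.act g) z * X) := by
  have h0 := BD_deriv_ne P g z hz
  have hu : HasFDerivAt P.u (fderiv ℝ P.u (P.act g z)) (P.act g z) :=
    ((BD_contDiffAt_u P _ (P.act_mem g z hz)).differentiableAt (by norm_num)).hasFDerivAt
  have hu0 : HasFDerivAt P.u (fderiv ℝ P.u z) z :=
    ((BD_contDiffAt_u P _ hz).differentiableAt (by norm_num)).hasFDerivAt
  have h1 := hu.comp z (BD_hasDerivAt P g z hz).complexToReal_fderiv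
  have h2 := (Complex.reCLM.hasFDerivAt).comp z (apx_log P g z hz).complexToReal_fderiv
  have h3 := (h1.add h2).add_const (Real.log ‖deriv (P.act g) z‖)
  have h4 : (fun w => P.u w) =ᶠ[𝓝 z] fun w => (P.u ∘ P.act g) w
      + (Complex.reCLM ∘ (fun w => Complex.log (deriv (P.act g) w / deriv (P.act g) z))) w
      + Real.log ‖deriv (P.act g) z‖ := by
    filter_upwards [P.isOpen.mem_nhds hz] with w hw
    rw [← P.isom g w hw]
    simp only [Function.comp, Complex.reCLM_apply, Complex.log_re, norm_div]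
    rw [Real.log_div (norm_pos_iff.mpr (BD_deriv_ne P g w hw)).ne' (norm_pos_iff.mpr h0).ne']
    ring
  have h5 := h3.congr_of_eventuallyEq h4
  have h6 := hu0.unique h5
  have h7 := congrArg (fun (L : ℂ →L[ℝ] ℝ) => L X) h6
  simp at h7
  rw [h7]
  simp

/-- the local lift of the action to `Ω × ℝ` -/
def apx_Γ (P : Pres) (g : P.G) (z : ℂ) (s : ℝ) (w : ℂ × ℝ) : ℂ × ℝ :=
  (P.act g w.1, w.2 + (s + (Complex.log (deriv (P.act g) w.1 / deriv (P.act g) z)).im))

theorem apx_Γ_deriv (P : Pres) (g : P.G) (s : ℝ) (v : ℂ × ℝ) (hv : v.1 ∈ P.Ω) :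
    ∃ L : ℂ × ℝ →L[ℝ] ℂ × ℝ, HasFDerivAt (apx_Γ P g v.1 s) L v ∧
      ∀ x : ℂ × ℝ, L x = (deriv (P.act g) v.1 * x.1,
        x.2 + (deriv (deriv (P.act g)) v.1 / deriv (P.act g) v.1 * x.1).im) := by
  have h1 := (BD_hasDerivAt P g v.1 hv).complexToReal_fderiv.comp v (hasFDerivAt_fst (𝕜 := ℝ) (p := v))
  have h2 := (Complex.imCLM.hasFDerivAt).comp v ((apx_log P g v.1 hv).complexToReal_fderiv.comp v
    (hasFDerivAt_fst (𝕜 := ℝ) (p := v)))
  have h3 := h1.prodMk ((hasFDerivAt_snd (𝕜 := ℝ) (p := v)).add (h2.const_add s))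
  refine ⟨_, h3, fun x => ?_⟩
  simp

theorem apx_per_int (P : Pres) {α : Type*} (f : ℂ × ℝ → α)
    (hf : ∀ v ∈ P.S, f (v.1, v.2 + 2 * Real.pi) = f v) (n : ℤ) (z : ℂ) (hz : z ∈ P.Ω) (t : ℝ) :
    f (z, t + n * (2 * Real.pi)) = f (z, t) := by
  have hS : ∀ s : ℝ, ((z, s) : ℂ × ℝ) ∈ P.S := fun s => (apx_mem_S P _).mpr hz
  induction n using Int.induction_on with
  | zero => simp
  | succ n ih =>
    have h1 := hf (z, t + ((n : ℤ) : ℝ) * (2 * Real.pi)) (hS _)
    rw [ih] at h1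
    rw [← h1]
    congr 2
    push_cast; ring
  | pred n ih =>
    have h1 := hf (z, t + ((-(n : ℤ) - 1 : ℤ) : ℝ) * (2 * Real.pi)) (hS _)
    rw [← h1, ← ih]
    congr 2
    push_cast; ring

theorem apx_Γ_inv (P : Pres) (g : P.G) (v : ℂ × ℝ) (hv : v.1 ∈ P.Ω) (n : ℤ) (f : ℂ × ℝ → ℝ)
    (hf : P.IsInv f) :
    (fun w => f (apx_Γ P g v.1 ((deriv (P.act g) v.1).arg + n * (2 * Real.pi)) w)) =ᶠ[𝓝 v] f := by
  have h1 : ∀ᶠ w : ℂ × ℝ in 𝓝 v, w ∈ P.S := (apx_open_S P).mem_nhds ((apx_mem_S P v).mpr hv)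
  filter_upwards [h1] with w hw
  have hw1 : w.1 ∈ P.Ω := (apx_mem_S P w).mp hw
  have hz0 := BD_deriv_ne P g v.1 hv
  have hw0 := BD_deriv_ne P g w.1 hw1
  rw [← hf.inv g w hw]
  unfold apx_Γ Pres.actS
  rw [Complex.log_im]
  have h2 : (((deriv (P.act g) v.1).arg + (deriv (P.act g) w.1 / deriv (P.act g) v.1).arg : ℝ) : Real.Angle)
      = (((deriv (P.act g) w.1).arg : ℝ) : Real.Angle) := by
    rw [Real.Angle.coe_add, ← Complex.arg_mul_coe_angle hz0 (div_ne_zero hw0 hz0)]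
    congr 2
    field_simp
  rw [Real.Angle.angle_eq_iff_two_pi_dvd_sub] at h2
  obtain ⟨k, hk⟩ := h2
  have h3 : w.2 + ((deriv (P.act g) v.1).arg + n * (2 * Real.pi)
      + (deriv (P.act g) w.1 / deriv (P.act g) v.1).arg)
      = (w.2 + (deriv (P.act g) w.1).arg) + ((n + k : ℤ) : ℝ) * (2 * Real.pi) := by
    push_cast; linarith
  rw [h3]
  exact apx_per_int P f hf.per (n + k) _ (P.act_mem g w.1 hw1) _

theorem apx_exp_arg (P : Pres) (g : P.G) (z : ℂ) (hz : z ∈ P.Ω) :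
    ((Real.exp (-P.u (P.act g z)) : ℝ) : ℂ) * Complex.exp ((deriv (P.act g) z).arg * Complex.I)
      = ((Real.exp (-P.u z) : ℝ) : ℂ) * deriv (P.act g) z := by
  rw [← BD_norm P g z hz]
  push_cast
  rw [mul_assoc, Complex.norm_mul_exp_arg_mul_I]

theorem apx_frame (P : Pres) (g : P.G) (v : ℂ × ℝ) (hv : v.1 ∈ P.Ω) (n : ℤ) (f : ℂ × ℝ → ℝ)
    (hf : P.IsInv f) (hfd : ContDiffOn ℝ 1 f P.S) :
    let w : ℂ × ℝ := (P.act g v.1, v.2 + ((deriv (P.act g) v.1).arg + n * (2 * Real.pi)))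
    f v = f w ∧ fderiv ℝ f v (HH P.u v) = fderiv ℝ f w (HH P.u w) ∧
      fderiv ℝ f v VV = fderiv ℝ f w VV := by
  intro w
  obtain ⟨L, hL, hL2⟩ := apx_Γ_deriv P g ((deriv (P.act g) v.1).arg + n * (2 * Real.pi)) v hv
  have hw : apx_Γ P g v.1 ((deriv (P.act g) v.1).arg + n * (2 * Real.pi)) v = w := by
    unfold apx_Γ
    rw [div_self (BD_deriv_ne P g v.1 hv), Complex.log_one]
    simp [w]
  have hwS : w ∈ P.S := (apx_mem_S P _).mpr (P.act_mem g v.1 hv)
  have he := apx_Γ_inv P g v hv n f hf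
  have hfw : HasFDerivAt f (fderiv ℝ f w)
      (apx_Γ P g v.1 ((deriv (P.act g) v.1).arg + n * (2 * Real.pi)) v) := by
    rw [hw]
    exact ((hfd.contDiffAt ((apx_open_S P).mem_nhds hwS)).differentiableAt (by norm_num)).hasFDerivAt
  have hc := hfw.comp v hL
  have hd : fderiv ℝ f v = (fderiv ℝ f w).comp L := by
    rw [← he.fderiv_eq]
    exact HasFDerivAt.fderiv hc
  refine ⟨?_, ?_, ?_⟩
  · have := he.eq_of_nhds
    rw [hw] at this
    exact this.symm
  · rw [hd, ContinuousLinearMap.comp_apply, hL2]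
    congr 1
    have hexp : Complex.exp ((v.2 + ((deriv (P.act g) v.1).arg + n * (2 * Real.pi)) : ℝ) * Complex.I)
        = Complex.exp (v.2 * Complex.I) * Complex.exp ((deriv (P.act g) v.1).arg * Complex.I) := by
      rw [← Complex.exp_add]
      have : ((v.2 + ((deriv (P.act g) v.1).arg + n * (2 * Real.pi)) : ℝ) : ℂ) * Complex.I
          = ((v.2 : ℂ) * Complex.I + (deriv (P.act g) v.1).arg * Complex.I)
            + n * (2 * Real.pi * Complex.I) := by
        push_cast; ring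
      rw [this, Complex.exp_periodic.int_mul n]
    have hX : ((Real.exp (-P.u w.1) : ℝ) : ℂ) * Complex.exp (w.2 * Complex.I)
        = deriv (P.act g) v.1 * (((Real.exp (-P.u v.1) : ℝ) : ℂ) * Complex.exp (v.2 * Complex.I)) := by
      have h1 := apx_exp_arg P g v.1 hv
      change ((Real.exp (-P.u (P.act g v.1)) : ℝ) : ℂ)
        * Complex.exp ((v.2 + ((deriv (P.act g) v.1).arg + n * (2 * Real.pi)) : ℝ) * Complex.I) = _
      rw [hexp]
      calc _ = Complex.exp (v.2 * Complex.I) * (((Real.exp (-P.u (P.act g v.1)) : ℝ) : ℂ)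
              * Complex.exp ((deriv (P.act g) v.1).arg * Complex.I)) := by ring
        _ = _ := by rw [h1]; ring
    refine Prod.ext ?_ ?_
    · rw [apx_HH1, apx_HH1 P.u w, hX]; ring
    · rw [apx_HH2 P.u w, hX, apx_HH1, apx_HH2]
      have h1 := apx_isom_deriv P g v.1 hv
        (((Real.exp (-P.u v.1) : ℝ) : ℂ) * Complex.exp (v.2 * Complex.I))
      set X := ((Real.exp (-P.u v.1) : ℝ) : ℂ) * Complex.exp (v.2 * Complex.I)
      have h2 : (deriv (deriv (P.act g)) v.1 / deriv (P.act g) v.1 * (Complex.I * X)).im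
          = (deriv (deriv (P.act g)) v.1 / deriv (P.act g) v.1 * X).re := by
        rw [show deriv (deriv (P.act g)) v.1 / deriv (P.act g) v.1 * (Complex.I * X)
          = Complex.I * (deriv (deriv (P.act g)) v.1 / deriv (P.act g) v.1 * X) by ring]
        simp
      simp only
      rw [h2, h1]
      change _ = -(fderiv ℝ P.u (P.act g v.1)) (deriv (P.act g) v.1 * X)
      ring
  · rw [hd, ContinuousLinearMap.comp_apply, hL2]
    simp [VV]

theorem apx_bound (P : Pres) (f : ℂ × ℝ → ℝ) (hf : P.IsInv f) (hfd : ContDiffOn ℝ 1 f P.S) :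
    ∃ M : ℝ, ∀ v ∈ P.S, |f v| ≤ M ∧ |fderiv ℝ f v (HH P.u v)| ≤ M ∧ |fderiv ℝ f v VV| ≤ M := by
  obtain ⟨K, hKΩ, hK, hcov⟩ := P.cocompact
  set C : Set (ℂ × ℝ) := K ×ˢ Icc 0 (2 * Real.pi) with hCdef
  have hC : IsCompact C := hK.prod isCompact_Icc
  have hCS : ∀ v ∈ C, v ∈ P.S := fun v hv => (apx_mem_S P v).mpr (hKΩ hv.1)
  have hca : ∀ v ∈ P.S, ContDiffAt ℝ 1 f v := fun v hv => hfd.contDiffAt ((apx_open_S P).mem_nhds hv)
  have hcd : ∀ v ∈ P.S, ContinuousAt (fderiv ℝ f) v := fun v hv =>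
    ((hca v hv).fderiv_right (m := 0) (by norm_num)).continuousAt
  have hHH : ∀ v ∈ P.S, ContinuousAt (HH P.u) v := by
    intro v hv
    have hz : v.1 ∈ P.Ω := (apx_mem_S P v).mp hv
    have hu : ContinuousAt (fun w : ℂ × ℝ => P.u w.1) v :=
      ContinuousAt.comp (f := Prod.fst) (BD_contDiffAt_u P v.1 hz).continuousAt continuousAt_fst
    have hx : ContinuousAt (fun w : ℂ × ℝ => dx P.u w.1) v :=
      ContinuousAt.comp (f := Prod.fst)
        (BD_cd_fderiv P.u v.1 1 (BD_contDiffAt_u P v.1 hz)).continuousAt continuousAt_fst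
    have hy : ContinuousAt (fun w : ℂ × ℝ => dy P.u w.1) v :=
      ContinuousAt.comp (f := Prod.fst)
        (BD_cd_fderiv P.u v.1 Complex.I (BD_contDiffAt_u P v.1 hz)).continuousAt continuousAt_fst
    unfold HH
    fun_prop
  obtain ⟨M1, hM1⟩ := hC.exists_bound_of_continuousOn (f := f)
    (fun v hv => (hca v (hCS v hv)).continuousAt.continuousWithinAt)
  obtain ⟨M2, hM2⟩ := hC.exists_bound_of_continuousOn (f := fun v => fderiv ℝ f v (HH P.u v))
    (fun v hv => ((hcd v (hCS v hv)).clm_apply (hHH v (hCS v hv))).continuousWithinAt)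
  obtain ⟨M3, hM3⟩ := hC.exists_bound_of_continuousOn (f := fun v => fderiv ℝ f v VV)
    (fun v hv => ((hcd v (hCS v hv)).clm_apply continuousAt_const).continuousWithinAt)
  refine ⟨max M1 (max M2 M3), fun v hv => ?_⟩
  have hz : v.1 ∈ P.Ω := (apx_mem_S P v).mp hv
  obtain ⟨g, hg⟩ := hcov v.1 hz
  set s : ℝ := v.2 + (deriv (P.act g) v.1).arg with hs
  set n : ℤ := -(toIcoDiv Real.two_pi_pos 0 s) with hn
  have h1 := apx_frame P g v hz n f hf hfd
  simp only at h1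
  have hmem : ((P.act g v.1, v.2 + ((deriv (P.act g) v.1).arg + n * (2 * Real.pi))) : ℂ × ℝ) ∈ C := by
    refine ⟨hg, ?_⟩
    have h2 : v.2 + ((deriv (P.act g) v.1).arg + n * (2 * Real.pi)) = toIcoMod Real.two_pi_pos 0 s := by
      rw [toIcoMod, hn, hs]; push_cast; rw [zsmul_eq_mul]; ring
    simp only
    rw [h2]
    have h3 := toIcoMod_mem_Ico Real.two_pi_pos 0 s
    exact ⟨h3.1, by linarith [h3.2]⟩
  obtain ⟨e1, e2, e3⟩ := h1
  refine ⟨?_, ?_, ?_⟩
  · rw [e1]; exact (hM1 _ hmem).trans (le_max_left _ _)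
  · rw [e2]; exact (hM2 _ hmem).trans ((le_max_left _ _).trans (le_max_right _ _))
  · rw [e3]; exact (hM3 _ hmem).trans ((le_max_right _ _).trans (le_max_right _ _))


/-- the unit complex number of the image vector -/
def apx_zeta (P : Pres) (g : P.G) (v : ℂ × ℝ) : ℂ :=
  Complex.exp (v.2 * Complex.I) *
    (deriv (P.act g) v.1 * ((Real.exp (P.u (P.act g v.1) - P.u v.1) : ℝ) : ℂ))

/-- the point of `Ω × S¹` -/
def apx_pt (P : Pres) (g : P.G) (v : ℂ × ℝ) : ℂ × ℂ := (P.act g v.1, apx_zeta P g v)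

/-- periodization over `G` -/
def apx_sum (P : Pres) (H : ℂ × ℂ → ℝ) (v : ℂ × ℝ) : ℝ := ∑' g : P.G, H (apx_pt P g v)

theorem apx_fin (P : Pres) (C : Set ℂ) (hC : IsCompact C) (hCΩ : C ⊆ P.Ω) (z : ℂ) (hz : z ∈ P.Ω) :
    ∃ T : Finset P.G, ∀ᶠ w in 𝓝 z, w ∈ P.Ω ∧ ∀ g ∉ T, P.act g w ∉ C := by
  obtain ⟨C0, hC0, hzC0, hC0Ω⟩ := exists_compact_subset P.isOpen hz
  have hfin := P.proper (C0 ∪ C) (union_subset hC0Ω hCΩ) (hC0.union hC)
  refine ⟨hfin.toFinset, ?_⟩
  have h1 : interior C0 ∈ 𝓝 z := isOpen_interior.mem_nhds hzC0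
  filter_upwards [h1] with w hw
  have hw0 : w ∈ C0 := interior_subset hw
  refine ⟨hC0Ω hw0, fun g hg hgw => hg ?_⟩
  rw [Finite.mem_toFinset]
  exact ⟨P.act g w, ⟨w, Or.inl hw0, rfl⟩, Or.inr hgw⟩

theorem apx_sum_eq (P : Pres) (C : Set ℂ) (H : ℂ × ℂ → ℝ) (hH : ∀ p : ℂ × ℂ, p.1 ∉ C → H p = 0)
    (T : Finset P.G) (v : ℂ × ℝ) (hT : ∀ g ∉ T, P.act g v.1 ∉ C) :
    apx_sum P H v = ∑ g ∈ T, H (apx_pt P g v) :=
  tsum_eq_sum fun g hg => hH _ (hT g hg)

theorem apx_pt_smooth (P : Pres) (g : P.G) (v : ℂ × ℝ) (hv : v.1 ∈ P.Ω) :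
    ContDiffAt ℝ ∞ (apx_pt P g) v := by
  have han : AnalyticAt ℂ (P.act g) v.1 := (P.holo g).analyticAt (P.isOpen.mem_nhds hv)
  have h1 : ContDiffAt ℝ ∞ (fun w : ℂ × ℝ => P.act g w.1) v :=
    ContDiffAt.comp v han.restrictScalars.contDiffAt contDiffAt_fst
  have h2 : ContDiffAt ℝ ∞ (fun w : ℂ × ℝ => deriv (P.act g) w.1) v :=
    ContDiffAt.comp v (han.deriv.restrictScalars.contDiffAt) contDiffAt_fst
  have h3 : ContDiffAt ℝ ∞ (fun w : ℂ × ℝ => P.u (P.act g w.1)) v :=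
    ContDiffAt.comp v (BD_contDiffAt_u P _ (P.act_mem g v.1 hv)) h1
  have h4 : ContDiffAt ℝ ∞ (fun w : ℂ × ℝ => P.u w.1) v :=
    ContDiffAt.comp v (BD_contDiffAt_u P _ hv) contDiffAt_fst
  have h5 : ContDiffAt ℝ ∞ (fun w : ℂ × ℝ => ((w.2 : ℝ) : ℂ)) v :=
    Complex.ofRealCLM.contDiff.contDiffAt.comp v contDiffAt_snd
  have h6 : ContDiffAt ℝ ∞
      (fun w : ℂ × ℝ => ((Real.exp (P.u (P.act g w.1) - P.u w.1) : ℝ) : ℂ)) v :=
    Complex.ofRealCLM.contDiff.contDiffAt.comp v (h3.sub h4).exp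
  unfold apx_pt apx_zeta
  exact h1.prodMk (((h5.mul contDiffAt_const).cexp).mul (h2.mul h6))

theorem apx_smooth (P : Pres) (C : Set ℂ) (hC : IsCompact C) (hCΩ : C ⊆ P.Ω) (H : ℂ × ℂ → ℝ)
    (hH : ∀ p : ℂ × ℂ, p.1 ∉ C → H p = 0) (hs : ContDiff ℝ ∞ H) :
    ContDiffOn ℝ ∞ (apx_sum P H) P.S := by
  intro v hv
  have hz : v.1 ∈ P.Ω := (apx_mem_S P v).mp hv
  obtain ⟨T, hT⟩ := apx_fin P C hC hCΩ v.1 hz
  have h1 : ∀ᶠ w : ℂ × ℝ in 𝓝 v, w.1 ∈ P.Ω ∧ ∀ g ∉ T, P.act g w.1 ∉ C :=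
    continuousAt_fst.eventually hT
  have h2 : apx_sum P H =ᶠ[𝓝 v] fun w => ∑ g ∈ T, H (apx_pt P g w) := by
    filter_upwards [h1] with w hw
    exact apx_sum_eq P C H hH T w hw.2
  have h3 : ContDiffAt ℝ ∞ (fun w => ∑ g ∈ T, H (apx_pt P g w)) v := by
    refine ContDiffAt.sum fun g _ => ?_
    exact ContDiffAt.comp v hs.contDiffAt (apx_pt_smooth P g v hz)
  exact (h3.congr_of_eventuallyEq h2).contDiffWithinAt

theorem apx_unit (P : Pres) (g : P.G) (z : ℂ) (hz : z ∈ P.Ω) :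
    deriv (P.act g) z * ((Real.exp (P.u (P.act g z) - P.u z) : ℝ) : ℂ)
      = Complex.exp ((deriv (P.act g) z).arg * Complex.I) := by
  have h1 := apx_exp_arg P g z hz
  have h2 : ((Real.exp (P.u (P.act g z) - P.u z) : ℝ) : ℂ)
      = ((Real.exp (P.u (P.act g z)) : ℝ) : ℂ) * ((Real.exp (-P.u z) : ℝ) : ℂ) := by
    rw [← Complex.ofReal_mul, ← Real.exp_add]; congr 2
  have h3 : ((Real.exp (P.u (P.act g z)) : ℝ) : ℂ) * ((Real.exp (-P.u (P.act g z)) : ℝ) : ℂ) = 1 := by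
    rw [← Complex.ofReal_mul, ← Real.exp_add]; simp
  rw [h2]
  calc _ = ((Real.exp (P.u (P.act g z)) : ℝ) : ℂ) * (((Real.exp (-P.u z) : ℝ) : ℂ) * deriv (P.act g) z) := by
        ring
    _ = (((Real.exp (P.u (P.act g z)) : ℝ) : ℂ) * ((Real.exp (-P.u (P.act g z)) : ℝ) : ℂ))
          * Complex.exp ((deriv (P.act g) z).arg * Complex.I) := by rw [← h1]; ring
    _ = _ := by rw [h3, one_mul]

theorem apx_zeta_eq (P : Pres) (g : P.G) (v : ℂ × ℝ) (hv : v.1 ∈ P.Ω) :
    apx_zeta P g v = Complex.exp (((v.2 + (deriv (P.act g) v.1).arg : ℝ) : ℂ) * Complex.I) := by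
  unfold apx_zeta
  rw [apx_unit P g v.1 hv, ← Complex.exp_add]
  congr 1
  push_cast; ring

theorem apx_chain (P : Pres) (g k : P.G) (z : ℂ) (hz : z ∈ P.Ω) :
    deriv (P.act (g * k)) z = deriv (P.act g) (P.act k z) * deriv (P.act k) z := by
  have h1 := (BD_hasDerivAt P g (P.act k z) (P.act_mem k z hz)).comp z (BD_hasDerivAt P k z hz)
  have h2 : P.act (g * k) =ᶠ[𝓝 z] P.act g ∘ P.act k := by
    filter_upwards [P.isOpen.mem_nhds hz] with w hw
    exact P.act_mul g k w hw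
  exact (h1.congr_of_eventuallyEq h2).deriv

theorem apx_pt_act (P : Pres) (g k : P.G) (v : ℂ × ℝ) (hv : v.1 ∈ P.Ω) :
    apx_pt P g (P.actS k v) = apx_pt P (g * k) v := by
  have hkv : P.act k v.1 ∈ P.Ω := P.act_mem k v.1 hv
  unfold apx_pt
  refine Prod.ext (P.act_mul g k v.1 hv).symm ?_
  simp only
  unfold apx_zeta
  rw [apx_chain P g k v.1 hv, P.act_mul g k v.1 hv]
  unfold Pres.actS
  simp only
  have h1 := apx_unit P k v.1 hv
  have h2 : Complex.exp (((v.2 + (deriv (P.act k) v.1).arg : ℝ) : ℂ) * Complex.I)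
      = Complex.exp (v.2 * Complex.I) * Complex.exp ((deriv (P.act k) v.1).arg * Complex.I) := by
    rw [← Complex.exp_add]; congr 1; push_cast; ring
  have h3 : ((Real.exp (P.u (P.act g (P.act k v.1)) - P.u v.1) : ℝ) : ℂ)
      = ((Real.exp (P.u (P.act g (P.act k v.1)) - P.u (P.act k v.1)) : ℝ) : ℂ)
        * ((Real.exp (P.u (P.act k v.1) - P.u v.1) : ℝ) : ℂ) := by
    rw [← Complex.ofReal_mul, ← Real.exp_add]; congr 2; ring
  rw [h2, ← h1, h3]
  ring

theorem apx_sum_inv (P : Pres) (H : ℂ × ℂ → ℝ) (k : P.G) (v : ℂ × ℝ) (hv : v.1 ∈ P.Ω) :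
    apx_sum P H (P.actS k v) = apx_sum P H v := by
  unfold apx_sum
  rw [← (Equiv.mulRight k).tsum_eq (fun g => H (apx_pt P g v))]
  refine tsum_congr fun g => ?_
  rw [apx_pt_act P g k v hv]
  rfl

theorem apx_sum_per (P : Pres) (H : ℂ × ℂ → ℝ) (v : ℂ × ℝ) :
    apx_sum P H (v.1, v.2 + 2 * Real.pi) = apx_sum P H v := by
  unfold apx_sum apx_pt apx_zeta
  have h : Complex.exp (((v.2 + 2 * Real.pi : ℝ) : ℂ) * Complex.I) = Complex.exp (v.2 * Complex.I) := by
    have : ((v.2 + 2 * Real.pi : ℝ) : ℂ) * Complex.I = v.2 * Complex.I + 2 * Real.pi * Complex.I := by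
      push_cast; ring
    rw [this, Complex.exp_periodic]
  simp only [h]

/-- the set on `Ω × S¹` -/
def apx_tilde (A : Set (ℂ × ℝ)) : Set (ℂ × ℂ) := {p | (p.1, p.2.arg) ∈ A}

theorem apx_tilde_meas (A : Set (ℂ × ℝ)) (hA : MeasurableSet A) : MeasurableSet (apx_tilde A) := by
  have h : Measurable (fun p : ℂ × ℂ => (p.1, p.2.arg)) :=
    measurable_fst.prodMk (Complex.measurable_arg.comp measurable_snd)
  exact h hA

theorem apx_tilde_exp (P : Pres) (A : Set (ℂ × ℝ)) (hA : P.IsSetUM A) (z : ℂ) (hz : z ∈ P.Ω) (t : ℝ) :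
    (z, Complex.exp ((t : ℂ) * Complex.I)) ∈ apx_tilde A ↔ (z, t) ∈ A := by
  unfold apx_tilde
  simp only [mem_setOf_eq]
  rw [Complex.arg_exp_mul_I, toIocMod]
  have h1 := apx_per_int P (fun v => v ∈ A) (fun v hv => propext (hA.per v hv))
    (-(toIocDiv (mul_pos two_pos Real.pi_pos) (-Real.pi) t)) z hz t
  have h2 : t - (toIocDiv (mul_pos two_pos Real.pi_pos) (-Real.pi) t) • (2 * Real.pi)
      = t + ((-(toIocDiv (mul_pos two_pos Real.pi_pos) (-Real.pi) t) : ℤ) : ℝ) * (2 * Real.pi) := by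
    rw [zsmul_eq_mul]; push_cast; ring
  rw [h2]
  exact iff_of_eq h1

theorem apx_tilde_pt (P : Pres) (A : Set (ℂ × ℝ)) (hA : P.IsSetUM A) (g : P.G) (v : ℂ × ℝ)
    (hv : v.1 ∈ P.Ω) : apx_pt P g v ∈ apx_tilde A ↔ v ∈ A := by
  unfold apx_pt
  rw [apx_zeta_eq P g v hv, apx_tilde_exp P A hA _ (P.act_mem g v.1 hv)]
  exact hA.inv g v ((apx_mem_S P v).mpr hv)


/-- the density, set to zero outside of `Ω` -/
def apx_E (P : Pres) : ℂ → ℝ≥0∞ := P.Ω.indicator (fun z => ENNReal.ofReal (Real.exp (2 * P.u z)))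

theorem apx_E_meas (P : Pres) : Measurable (apx_E P) := by
  classical
  have h : ContinuousOn (fun z => ENNReal.ofReal (Real.exp (2 * P.u z))) P.Ω := by
    have hu : ContinuousOn P.u P.Ω := P.smooth.continuousOn
    exact ENNReal.continuous_ofReal.comp_continuousOn (continuousOn_const.mul hu).rexp
  have h2 := ContinuousOn.measurable_piecewise (g := fun _ : ℂ => (0 : ℝ≥0∞)) h continuousOn_const
    P.isOpen.measurableSet
  unfold apx_E
  rw [← piecewise_eq_indicator]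
  exact h2

theorem apx_m_eq (P : Pres) : P.m = (volume.restrict P.S).withDensity (fun v => apx_E P v.1) := by
  unfold Pres.m
  refine withDensity_congr_ae ?_
  refine (ae_restrict_mem (apx_open_S P).measurableSet).mono fun v hv => ?_
  simp only [apx_E]
  rw [indicator_of_mem ((apx_mem_S P v).mp hv)]

theorem apx_lint (P : Pres) (F : Set ℂ) (hF : MeasurableSet F) (hFΩ : F ⊆ P.Ω) (I : Set ℝ)
    (hI : MeasurableSet I) (Q : ℂ × ℝ → ℝ≥0∞) (hQ : Measurable Q) :
    ∫⁻ v in F ×ˢ I, Q v ∂P.m = ∫⁻ z in F, ∫⁻ t in I, apx_E P z * Q (z, t) := by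
  have hE : Measurable (fun v : ℂ × ℝ => apx_E P v.1) := (apx_E_meas P).comp measurable_fst
  rw [apx_m_eq, setLIntegral_withDensity_eq_setLIntegral_mul _ hE hQ
    (hF.prod hI), Measure.restrict_restrict (hF.prod hI)]
  have h1 : F ×ˢ I ∩ P.S = F ×ˢ I := by
    apply inter_eq_left.mpr
    intro v hv
    exact (apx_mem_S P v).mpr (hFΩ hv.1)
  rw [h1, Measure.volume_eq_prod, ← Measure.prod_restrict,
    lintegral_prod _ ((hE.mul hQ).aemeasurable)]
  rfl

theorem apx_rot (q : ℂ → ℝ≥0∞) (a : ℝ) :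
    ∫⁻ t in Ico 0 (2 * Real.pi), q (Complex.exp (((t + a : ℝ) : ℂ) * Complex.I))
      = ∫⁻ t in Ico 0 (2 * Real.pi), q (Complex.exp ((t : ℂ) * Complex.I)) := by
  have h1 : ∀ f : ℝ → ℝ≥0∞, ∫⁻ t in Ico 0 (2 * Real.pi), f t = ∫⁻ t in Ioc 0 (0 + 2 * Real.pi), f t := by
    intro f
    rw [zero_add]
    exact setLIntegral_congr Ico_ae_eq_Ioc
  rw [h1, h1]
  have h2 := (measurePreserving_add_right (volume : Measure ℝ) a).setLIntegral_comp_preimage_emb
    (MeasurableEquiv.addRight a).measurableEmbedding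
    (fun t : ℝ => q (Complex.exp ((t : ℂ) * Complex.I))) (Ioc a (a + 2 * Real.pi))
  have h3 : (fun x => x + a) ⁻¹' (Ioc a (a + 2 * Real.pi)) = Ioc 0 (0 + 2 * Real.pi) := by
    ext x; simp only [mem_preimage, mem_Ioc]; constructor <;> rintro ⟨h, h'⟩ <;> constructor <;> linarith
  rw [h3] at h2
  rw [h2]
  refine IsAddFundamentalDomain.setLIntegral_eq (isAddFundamentalDomain_Ioc Real.two_pi_pos a)
    (isAddFundamentalDomain_Ioc Real.two_pi_pos 0) _ ?_
  rintro ⟨g, n, rfl⟩ x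
  simp only
  congr 1
  have : (((⟨(fun m : ℤ => m • (2 * Real.pi)) n, ⟨n, rfl⟩⟩ : AddSubgroup.zmultiples (2 * Real.pi)) +ᵥ x : ℝ) : ℂ)
      * Complex.I = (x : ℂ) * Complex.I + n * (2 * Real.pi * Complex.I) := by
    change (((n • (2 * Real.pi) + x : ℝ)) : ℂ) * Complex.I = _
    rw [zsmul_eq_mul]
    push_cast; ring
  rw [this, Complex.exp_periodic.int_mul n]

theorem apx_det (c : ℂ) : (c • (1 : ℂ →L[ℝ] ℂ)).det = ‖c‖ ^ 2 := by
  have h1 : ((c • (1 : ℂ →L[ℝ] ℂ) : ℂ →L[ℝ] ℂ) : ℂ →ₗ[ℝ] ℂ) = LinearMap.mul ℝ ℂ c := by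
    ext <;> simp
  rw [ContinuousLinearMap.det, h1, ← Complex.normSq_eq_norm_sq, ← Algebra.norm_complex_apply]
  rfl

theorem apx_inj (P : Pres) (g : P.G) : InjOn (P.act g) P.Ω := by
  intro z hz w hw h
  have h1 := congrArg (P.act g⁻¹) h
  rw [← P.act_mul g⁻¹ g z hz, ← P.act_mul g⁻¹ g w hw, inv_mul_cancel, P.act_one z hz, P.act_one w hw] at h1
  exact h1

theorem apx_E_trans (P : Pres) (g : P.G) (z : ℂ) (hz : z ∈ P.Ω) :
    apx_E P z = ENNReal.ofReal |(deriv (P.act g) z • (1 : ℂ →L[ℝ] ℂ)).det| * apx_E P (P.act g z) := by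
  unfold apx_E
  rw [indicator_of_mem hz, indicator_of_mem (P.act_mem g z hz), apx_det,
    ← ENNReal.ofReal_mul (abs_nonneg _)]
  congr 1
  rw [abs_of_nonneg (by positivity)]
  have h3 := BD_norm P g z hz
  have h0 : Real.exp (P.u z) = ‖deriv (P.act g) z‖ * Real.exp (P.u (P.act g z)) := by
    rw [Real.exp_neg, Real.exp_neg] at h3
    have a1 := (Real.exp_pos (P.u z)).ne'
    have a2 := (Real.exp_pos (P.u (P.act g z))).ne'
    field_simp at h3
    linarith
  have e1 : ∀ x : ℝ, Real.exp (2 * x) = Real.exp x ^ 2 := by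
    intro x; rw [← Real.exp_nat_mul]; norm_num
  rw [e1, e1, h0]; ring

theorem apx_cov (P : Pres) (g : P.G) (F : Set ℂ) (hF : MeasurableSet F) (hFΩ : F ⊆ P.Ω)
    (Q : ℂ → ℝ≥0∞) :
    ∫⁻ z in F, apx_E P z * Q (P.act g z) = ∫⁻ w in P.act g '' F, apx_E P w * Q w := by
  rw [lintegral_image_eq_lintegral_abs_det_fderiv_mul volume hF
    (f' := fun z => deriv (P.act g) z • (1 : ℂ →L[ℝ] ℂ))
    (fun z hz => ((BD_hasDerivAt P g z (hFΩ hz)).complexToReal_fderiv).hasFDerivWithinAt)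
    ((apx_inj P g).mono hFΩ)]
  refine setLIntegral_congr_fun hF fun z hz => ?_
  change apx_E P z * Q (P.act g z) = ENNReal.ofReal |(deriv (P.act g) z • (1 : ℂ →L[ℝ] ℂ)).det|
    * (apx_E P (P.act g z) * Q (P.act g z))
  rw [← mul_assoc, ← apx_E_trans P g z (hFΩ hz)]

/-- measurable version of `apx_pt` -/
def apx_ph (P : Pres) (g : P.G) (v : ℂ × ℝ) : ℂ × ℂ := by
  classical exact P.S.piecewise (apx_pt P g) (fun _ => 0) v

theorem apx_ph_meas (P : Pres) (g : P.G) : Measurable (apx_ph P g) := by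
  classical
  refine ContinuousOn.measurable_piecewise (fun v hv => ?_) continuousOn_const
    (apx_open_S P).measurableSet
  exact (apx_pt_smooth P g v ((apx_mem_S P v).mp hv)).continuousAt.continuousWithinAt

theorem apx_ph_eq (P : Pres) (g : P.G) (v : ℂ × ℝ) (hv : v.1 ∈ P.Ω) : apx_ph P g v = apx_pt P g v := by
  classical
  unfold apx_ph
  exact piecewise_eq_of_mem _ _ _ ((apx_mem_S P v).mpr hv)

theorem apx_one_term (P : Pres) (g : P.G) (F : Set ℂ) (hF : MeasurableSet F) (hFΩ : F ⊆ P.Ω)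
    (q : ℂ × ℂ → ℝ≥0∞) (hq : Measurable q) :
    ∫⁻ v in F ×ˢ Ico 0 (2 * Real.pi), q (apx_ph P g v) ∂P.m
      = ∫⁻ w in P.act g '' F, apx_E P w *
          ∫⁻ t in Ico 0 (2 * Real.pi), q (w, Complex.exp ((t : ℂ) * Complex.I)) := by
  rw [apx_lint P F hF hFΩ _ measurableSet_Ico (fun v => q (apx_ph P g v)) (hq.comp (apx_ph_meas P g)),
    ← apx_cov P g F hF hFΩ
      (fun w => ∫⁻ t in Ico 0 (2 * Real.pi), q (w, Complex.exp ((t : ℂ) * Complex.I)))]
  refine setLIntegral_congr_fun hF fun z hz => ?_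
  have hm : Measurable (fun t : ℝ => q (apx_ph P g (z, t))) :=
    hq.comp ((apx_ph_meas P g).comp (measurable_const.prodMk measurable_id))
  rw [lintegral_const_mul _ hm]
  congr 1
  rw [← apx_rot (fun ζ => q (P.act g z, ζ)) (deriv (P.act g) z).arg]
  refine lintegral_congr fun t => ?_
  rw [apx_ph_eq P g (z, t) (hFΩ hz)]
  unfold apx_pt
  rw [apx_zeta_eq P g (z, t) (hFΩ hz)]

theorem apx_unfold (P : Pres) (F : Set ℂ) (hF : P.IsFund F) (q : ℂ × ℂ → ℝ≥0∞) (hq : Measurable q) :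
    ∑' g : P.G, ∫⁻ v in F ×ˢ Ico 0 (2 * Real.pi), q (apx_ph P g v) ∂P.m
      ≤ ∫⁻ w in P.Ω, apx_E P w *
          ∫⁻ t in Ico 0 (2 * Real.pi), q (w, Complex.exp ((t : ℂ) * Complex.I)) := by
  have h1 : ∀ g : P.G, _ = _ := fun g => apx_one_term P g F hF.meas hF.sub q hq
  rw [tsum_congr h1]
  have hmeas : ∀ g : P.G, MeasurableSet (P.act g '' F) := fun g =>
    hF.meas.image_of_continuousOn_injOn
      (((P.holo g).continuousOn).mono hF.sub) ((apx_inj P g).mono hF.sub)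
  have hdis : Pairwise (Function.onFun (AEDisjoint volume) fun g : P.G => P.act g '' F) := by
    intro g k hgk
    have hu := hF.uniq
    rw [ae_iff] at hu
    refine measure_mono_null ?_ hu
    rintro w ⟨⟨z, hz, rfl⟩, ⟨z', hz', hzz⟩⟩
    intro hcon
    have hzΩ := hF.sub hz
    have hz'Ω := hF.sub hz'
    obtain ⟨r, hr, hr2⟩ := hcon (P.act_mem g z hzΩ)
    have h2 : P.act g⁻¹ (P.act g z) ∈ F := by
      rw [← P.act_mul g⁻¹ g z hzΩ, inv_mul_cancel, P.act_one z hzΩ]; exact hz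
    have h3 : P.act k⁻¹ (P.act g z) ∈ F := by
      rw [← hzz, ← P.act_mul k⁻¹ k z' hz'Ω, inv_mul_cancel, P.act_one z' hz'Ω]; exact hz'
    have h4 := hr2 _ h2
    have h5 := hr2 _ h3
    exact hgk (inv_injective (h4.trans h5.symm))
  rw [← lintegral_iUnion₀ (fun g => (hmeas g).nullMeasurableSet) hdis]
  refine lintegral_mono_set ?_
  intro w hw
  rw [mem_iUnion] at hw
  obtain ⟨g, z, hz, rfl⟩ := hw
  exact P.act_mem g z (hF.sub hz)

theorem apx_fin_meas (P : Pres) (C : Set ℂ) (hC : IsCompact C) (hCΩ : C ⊆ P.Ω) :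
    P.m (C ×ˢ Ico 0 (2 * Real.pi)) < ⊤ := by
  have hu : ContinuousOn P.u C := P.smooth.continuousOn.mono hCΩ
  obtain ⟨M, hM⟩ := hC.exists_bound_of_continuousOn hu
  have h1 : P.m (C ×ˢ Ico 0 (2 * Real.pi)) = ∫⁻ v in C ×ˢ Ico 0 (2 * Real.pi), 1 ∂P.m := by simp
  rw [h1, apx_lint P C hC.measurableSet hCΩ _ measurableSet_Ico _ measurable_const]
  have h2 : ∫⁻ z in C, ∫⁻ _t in Ico 0 (2 * Real.pi), apx_E P z * 1
      ≤ ∫⁻ z in C, ENNReal.ofReal (Real.exp (2 * M)) * ENNReal.ofReal (2 * Real.pi) := by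
    refine setLIntegral_mono measurable_const fun z hz => ?_
    rw [setLIntegral_const, Real.volume_Ico, mul_one, sub_zero]
    refine mul_le_mul_left ?_ _
    unfold apx_E
    rw [indicator_of_mem (hCΩ hz)]
    refine ENNReal.ofReal_le_ofReal (Real.exp_le_exp.mpr ?_)
    have := hM z hz
    rw [Real.norm_eq_abs] at this
    linarith [le_abs_self (P.u z)]
  refine h2.trans_lt ?_
  rw [setLIntegral_const]
  exact ENNReal.mul_lt_top (ENNReal.mul_lt_top ENNReal.ofReal_lt_top ENNReal.ofReal_lt_top)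
    hC.measure_lt_top


theorem apx_dense (ν : Measure (ℂ × ℂ)) [IsFiniteMeasure ν] (At : Set (ℂ × ℂ)) (hAt : MeasurableSet At)
    (ε : ℝ) (hε : 0 < ε) : ∃ h : ℂ × ℂ → ℝ, ContDiff ℝ ∞ h ∧
      ∫⁻ p, ‖At.indicator (fun _ => (1 : ℝ)) p - h p‖ₑ ∂ν ≤ ENNReal.ofReal ε := by
  have h0 : Integrable (At.indicator (fun _ => (1 : ℝ))) ν := (integrable_const 1).indicator hAt
  obtain ⟨h1, -, hh1, hh1c, hh1i⟩ := h0.exists_hasCompactSupport_lintegral_sub_le
    (ε := ENNReal.ofReal (ε / 2)) (by simp [hε])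
  set N : ℝ := ν.real univ with hN
  have hN0 : 0 ≤ N := measureReal_nonneg
  set δ : ℝ := ε / 2 / (N + 1) with hδ
  have hδpos : 0 < δ := by positivity
  obtain ⟨h, hhs, hhd, -⟩ := hh1c.exists_contDiff_approx (n := ⊤) (ε := fun _ => δ)
    continuous_const (fun _ => hδpos)
  refine ⟨h, hhs, ?_⟩
  have hm : Measurable (fun p => ‖h1 p - h p‖ₑ) :=
    (hh1c.sub hhs.continuous).measurable.enorm
  calc ∫⁻ p, ‖At.indicator (fun _ => (1 : ℝ)) p - h p‖ₑ ∂ν
      ≤ ∫⁻ p, (‖At.indicator (fun _ => (1 : ℝ)) p - h1 p‖ₑ + ‖h1 p - h p‖ₑ) ∂ν := by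
        refine lintegral_mono fun p => ?_
        have : At.indicator (fun _ => (1 : ℝ)) p - h p
            = (At.indicator (fun _ => (1 : ℝ)) p - h1 p) + (h1 p - h p) := by ring
        rw [this]
        exact enorm_add_le _ _
    _ = ∫⁻ p, ‖At.indicator (fun _ => (1 : ℝ)) p - h1 p‖ₑ ∂ν + ∫⁻ p, ‖h1 p - h p‖ₑ ∂ν :=
        lintegral_add_right _ hm
    _ ≤ ENNReal.ofReal (ε / 2) + ∫⁻ _p, ENNReal.ofReal δ ∂ν := by
        refine add_le_add hh1 (lintegral_mono fun p => ?_)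
        rw [← ofReal_norm_eq_enorm]
        refine ENNReal.ofReal_le_ofReal ?_
        have := hhd p
        rw [dist_comm, dist_eq_norm] at this
        exact this.le
    _ ≤ ENNReal.ofReal (ε / 2) + ENNReal.ofReal (ε / 2) := by
        refine add_le_add le_rfl ?_
        rw [lintegral_const]
        have h2 : ν univ = ENNReal.ofReal N := by
          rw [hN, Measure.real, ENNReal.ofReal_toReal (measure_ne_top ν _)]
        rw [h2, ← ENNReal.ofReal_mul hδpos.le]
        refine ENNReal.ofReal_le_ofReal ?_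
        rw [hδ, div_mul_eq_mul_div, div_le_iff₀ (by positivity)]
        nlinarith
    _ = ENNReal.ofReal ε := by
        rw [← ENNReal.ofReal_add (by positivity) (by positivity)]; congr 1; ring

theorem approx_pr (P : Pres) (F : Set ℂ) (hF : P.IsFund F) (A : Set (ℂ × ℝ)) (hA : P.IsSetUM A)
    (ε : ℝ) (hε : 0 < ε) : ∃ (f : ℂ × ℝ → ℝ) (M : ℝ), ContDiffOn ℝ 1 f P.S ∧ P.IsInv f ∧
      Measurable f ∧
      (∀ v ∈ P.S, |f v| ≤ M ∧ |fderiv ℝ f v (HH P.u v)| ≤ M ∧ |fderiv ℝ f v VV| ≤ M) ∧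
      ∫⁻ v in F ×ˢ Ico 0 (2 * Real.pi), ENNReal.ofReal |A.indicator 1 v - f v| ∂P.m
        ≤ ENNReal.ofReal ε := by
  classical
  obtain ⟨K, hKΩ, hK, hcov⟩ := P.cocompact
  obtain ⟨C, hC, hKC, hCΩ⟩ := exists_compact_between hK P.isOpen hKΩ
  obtain ⟨ρ0, hρ1, hρ0, hρI⟩ := exists_contMDiffMap_one_nhds_of_subset_interior
    (I := 𝓘(ℝ, ℂ)) (n := (⊤ : ℕ∞)) hK.isClosed hKC
  set ρ : ℂ → ℝ := fun z => ρ0 z with hρ
  have hρs : ContDiff ℝ ∞ ρ := ρ0.contMDiff.contDiff
  have hρK : ∀ z ∈ K, ρ z = 1 := fun z hz => hρ1.self_of_nhdsSet z hz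
  have hρnn : ∀ z, 0 ≤ ρ z := fun z => (hρI z).1
  have hρle : ∀ z, ρ z ≤ 1 := fun z => (hρI z).2
  have hexpm : Measurable (fun v : ℂ × ℝ => (v.1, Complex.exp ((v.2 : ℂ) * Complex.I))) := by
    fun_prop
  have hfinm := apx_fin_meas P C hC hCΩ
  haveI hμ : IsFiniteMeasure (P.m.restrict (C ×ˢ Ico 0 (2 * Real.pi))) :=
    ⟨by rw [Measure.restrict_apply_univ]; exact hfinm⟩
  set ν : Measure (ℂ × ℂ) := (P.m.restrict (C ×ˢ Ico 0 (2 * Real.pi))).map
    (fun v : ℂ × ℝ => (v.1, Complex.exp ((v.2 : ℂ) * Complex.I))) with hν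
  have hAt := apx_tilde_meas A hA.meas
  set At := apx_tilde A with hAtd
  obtain ⟨h, hhs, hhν⟩ := apx_dense ν At hAt ε hε
  set H1 : ℂ × ℂ → ℝ := fun p => ρ p.1 * h p with hH1
  set H0 : ℂ × ℂ → ℝ := fun p => ρ p.1 with hH0
  have hH1C : ∀ p : ℂ × ℂ, p.1 ∉ C → H1 p = 0 := fun p hp => by
    simp only [hH1]; rw [show ρ p.1 = 0 from hρ0 _ hp, zero_mul]
  have hH0C : ∀ p : ℂ × ℂ, p.1 ∉ C → H0 p = 0 := fun p hp => hρ0 _ hp
  have hH1s : ContDiff ℝ ∞ H1 := (hρs.comp contDiff_fst).mul hhs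
  have hH0s : ContDiff ℝ ∞ H0 := hρs.comp contDiff_fst
  have hT0 : ∀ v ∈ P.S, 1 ≤ apx_sum P H0 v := by
    intro v hv
    have hz := (apx_mem_S P v).mp hv
    obtain ⟨T, hT⟩ := apx_fin P C hC hCΩ v.1 hz
    rw [apx_sum_eq P C H0 hH0C T v hT.self_of_nhds.2]
    obtain ⟨g, hg⟩ := hcov v.1 hz
    have hgT : g ∈ T := by
      by_contra hcon
      exact hT.self_of_nhds.2 g hcon (interior_subset (hKC hg))
    have h1 : H0 (apx_pt P g v) = 1 := hρK _ hg
    calc (1 : ℝ) = H0 (apx_pt P g v) := h1.symm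
      _ ≤ _ := Finset.single_le_sum (f := fun g => H0 (apx_pt P g v)) (fun k _ => hρnn _) hgT
  set f : ℂ × ℝ → ℝ := P.S.indicator (fun v => apx_sum P H1 v / apx_sum P H0 v) with hf
  have hfeq : ∀ v ∈ P.S, f v = apx_sum P H1 v / apx_sum P H0 v := fun v hv =>
    indicator_of_mem hv _
  have hsm : ContDiffOn ℝ ∞ (fun v => apx_sum P H1 v / apx_sum P H0 v) P.S :=
    (apx_smooth P C hC hCΩ H1 hH1C hH1s).div (apx_smooth P C hC hCΩ H0 hH0C hH0s)
      (fun v hv => by have := hT0 v hv; linarith)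
  have hfs : ContDiffOn ℝ 1 f P.S := (hsm.congr hfeq).of_le (by norm_cast)
  have hfinv : P.IsInv f := by
    constructor
    · intro v hv
      have hv' : ((v.1, v.2 + 2 * Real.pi) : ℂ × ℝ) ∈ P.S := (apx_mem_S P _).mpr ((apx_mem_S P v).mp hv)
      rw [hfeq v hv, hfeq _ hv', apx_sum_per, apx_sum_per]
    · intro g v hv
      have hz := (apx_mem_S P v).mp hv
      have hv' : P.actS g v ∈ P.S := (apx_mem_S P _).mpr (P.act_mem g v.1 hz)
      rw [hfeq v hv, hfeq _ hv', apx_sum_inv P H1 g v hz, apx_sum_inv P H0 g v hz]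
  have hfm : Measurable f := by
    have h2 := ContinuousOn.measurable_piecewise (g := fun _ : ℂ × ℝ => (0 : ℝ)) hsm.continuousOn
      continuousOn_const (apx_open_S P).measurableSet
    have h3 : f = P.S.piecewise (fun v => apx_sum P H1 v / apx_sum P H0 v) (fun _ => (0 : ℝ)) := by
      funext v
      by_cases hv : v ∈ P.S
      · rw [hfeq v hv, piecewise_eq_of_mem _ _ _ hv]
      · rw [hf, indicator_of_notMem hv, piecewise_eq_of_notMem _ _ _ hv]
    rw [h3]
    exact h2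
  obtain ⟨M, hM⟩ := apx_bound P f hfinv hfs
  refine ⟨f, M, hfs, hfinv, hfm, hM, ?_⟩
  -- the `L¹` estimate
  set q : ℂ × ℂ → ℝ≥0∞ := fun p =>
    ENNReal.ofReal (ρ p.1 * |At.indicator (fun _ => (1 : ℝ)) p - h p|) with hq
  have hind : Measurable (At.indicator (fun _ => (1 : ℝ))) := measurable_const.indicator hAt
  have hqm : Measurable q := by
    refine ENNReal.measurable_ofReal.comp (Measurable.mul ?_ ?_)
    · exact hρs.continuous.measurable.comp measurable_fst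
    · exact (continuous_abs.measurable).comp (hind.sub hhs.continuous.measurable)
  have hFm : MeasurableSet (F ×ˢ Ico 0 (2 * Real.pi)) := hF.meas.prod measurableSet_Ico
  have hpoint : ∀ v ∈ F ×ˢ Ico 0 (2 * Real.pi),
      ENNReal.ofReal |A.indicator 1 v - f v| ≤ ∑' g : P.G, q (apx_ph P g v) := by
    intro v hvF
    have hz : v.1 ∈ P.Ω := hF.sub hvF.1
    have hv : v ∈ P.S := (apx_mem_S P v).mpr hz
    obtain ⟨T, hT⟩ := apx_fin P C hC hCΩ v.1 hz
    have hT' := hT.self_of_nhds.2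
    have h1 := apx_sum_eq P C H1 hH1C T v hT'
    have h0 := apx_sum_eq P C H0 hH0C T v hT'
    have hpos := hT0 v hv
    have hi : ∀ g : P.G, At.indicator (fun _ => (1 : ℝ)) (apx_pt P g v) = A.indicator 1 v := by
      intro g
      by_cases hvA : v ∈ A
      · rw [indicator_of_mem hvA, indicator_of_mem ((apx_tilde_pt P A hA g v hz).mpr hvA)]; rfl
      · rw [indicator_of_notMem hvA,
          indicator_of_notMem (fun hc => hvA ((apx_tilde_pt P A hA g v hz).mp hc))]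
    have hmain : |A.indicator 1 v - f v|
        ≤ ∑ g ∈ T, ρ (apx_pt P g v).1 * |At.indicator (fun _ => (1 : ℝ)) (apx_pt P g v) - h (apx_pt P g v)| := by
      rw [hfeq v hv]
      have e1 : A.indicator 1 v - apx_sum P H1 v / apx_sum P H0 v
          = (∑ g ∈ T, ρ (apx_pt P g v).1 * (At.indicator (fun _ => (1 : ℝ)) (apx_pt P g v)
              - h (apx_pt P g v))) / apx_sum P H0 v := by
        rw [eq_div_iff (by linarith), sub_mul, div_mul_cancel₀ _ (by linarith), h1, h0, Finset.mul_sum,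
          ← Finset.sum_sub_distrib]
        refine Finset.sum_congr rfl fun g _ => ?_
        rw [hi g]
        simp only [hH1, hH0]
        ring
      rw [e1, abs_div, abs_of_pos (by linarith : 0 < apx_sum P H0 v), div_le_iff₀ (by linarith)]
      have e2 : |∑ g ∈ T, ρ (apx_pt P g v).1 * (At.indicator (fun _ => (1 : ℝ)) (apx_pt P g v)
              - h (apx_pt P g v))|
          ≤ ∑ g ∈ T, ρ (apx_pt P g v).1 * |At.indicator (fun _ => (1 : ℝ)) (apx_pt P g v) - h (apx_pt P g v)| := by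
        refine (Finset.abs_sum_le_sum_abs _ _).trans (Finset.sum_le_sum fun g _ => ?_)
        rw [abs_mul, abs_of_nonneg (hρnn _)]
      have e3 : 0 ≤ ∑ g ∈ T, ρ (apx_pt P g v).1
          * |At.indicator (fun _ => (1 : ℝ)) (apx_pt P g v) - h (apx_pt P g v)| :=
        Finset.sum_nonneg fun g _ => mul_nonneg (hρnn _) (abs_nonneg _)
      nlinarith
    refine (ENNReal.ofReal_le_ofReal hmain).trans ?_
    rw [ENNReal.ofReal_sum_of_nonneg fun g _ => mul_nonneg (hρnn _) (abs_nonneg _)]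
    have e4 : ∀ g ∈ T, ENNReal.ofReal (ρ (apx_pt P g v).1
        * |At.indicator (fun _ => (1 : ℝ)) (apx_pt P g v) - h (apx_pt P g v)|) = q (apx_ph P g v) := by
      intro g _
      rw [apx_ph_eq P g v hz]
    rw [Finset.sum_congr rfl e4]
    exact ENNReal.sum_le_tsum T
  calc ∫⁻ v in F ×ˢ Ico 0 (2 * Real.pi), ENNReal.ofReal |A.indicator 1 v - f v| ∂P.m
      ≤ ∫⁻ v in F ×ˢ Ico 0 (2 * Real.pi), ∑' g : P.G, q (apx_ph P g v) ∂P.m :=
        setLIntegral_mono' hFm hpoint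
    _ = ∑' g : P.G, ∫⁻ v in F ×ˢ Ico 0 (2 * Real.pi), q (apx_ph P g v) ∂P.m :=
        lintegral_tsum fun g => (hqm.comp (apx_ph_meas P g)).aemeasurable
    _ ≤ ∫⁻ w in P.Ω, apx_E P w *
          ∫⁻ t in Ico 0 (2 * Real.pi), q (w, Complex.exp ((t : ℂ) * Complex.I)) :=
        apx_unfold P F hF q hqm
    _ ≤ ∫⁻ w in P.Ω, C.indicator (fun w => ∫⁻ t in Ico 0 (2 * Real.pi), apx_E P w *
          ‖At.indicator (fun _ => (1 : ℝ)) (w, Complex.exp ((t : ℂ) * Complex.I))
            - h (w, Complex.exp ((t : ℂ) * Complex.I))‖ₑ) w := by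
        refine lintegral_mono fun w => ?_
        by_cases hw : w ∈ C
        · rw [indicator_of_mem hw]
          have hm2 : Measurable (fun t : ℝ =>
              ‖At.indicator (fun _ => (1 : ℝ)) (w, Complex.exp ((t : ℂ) * Complex.I))
                - h (w, Complex.exp ((t : ℂ) * Complex.I))‖ₑ) := by
            have hm3 : Measurable (fun t : ℝ => ((w, Complex.exp ((t : ℂ) * Complex.I)) : ℂ × ℂ)) := by
              fun_prop
            exact ((hind.comp hm3).sub (hhs.continuous.measurable.comp hm3)).enorm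
          rw [lintegral_const_mul _ hm2]
          gcongr with t
          rw [← ofReal_norm_eq_enorm, Real.norm_eq_abs]
          refine ENNReal.ofReal_le_ofReal ?_
          have := hρle w
          have := hρnn w
          have := abs_nonneg (At.indicator (fun _ => (1 : ℝ)) (w, Complex.exp ((t : ℂ) * Complex.I))
            - h (w, Complex.exp ((t : ℂ) * Complex.I)))
          simp only
          nlinarith
        · rw [indicator_of_notMem hw]
          have : ∀ t : ℝ, q (w, Complex.exp ((t : ℂ) * Complex.I)) = 0 := by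
            intro t
            simp only [hq]
            rw [show ρ w = 0 from hρ0 _ hw, zero_mul, ENNReal.ofReal_zero]
          simp [this]
    _ ≤ ∫⁻ w, C.indicator (fun w => ∫⁻ t in Ico 0 (2 * Real.pi), apx_E P w *
          ‖At.indicator (fun _ => (1 : ℝ)) (w, Complex.exp ((t : ℂ) * Complex.I))
            - h (w, Complex.exp ((t : ℂ) * Complex.I))‖ₑ) w := setLIntegral_le_lintegral _ _
    _ = ∫⁻ w in C, ∫⁻ t in Ico 0 (2 * Real.pi), apx_E P w *
          ‖At.indicator (fun _ => (1 : ℝ)) (w, Complex.exp ((t : ℂ) * Complex.I))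
            - h (w, Complex.exp ((t : ℂ) * Complex.I))‖ₑ := lintegral_indicator hC.measurableSet _
    _ = ∫⁻ v in C ×ˢ Ico 0 (2 * Real.pi),
          ‖At.indicator (fun _ => (1 : ℝ)) (v.1, Complex.exp ((v.2 : ℂ) * Complex.I))
            - h (v.1, Complex.exp ((v.2 : ℂ) * Complex.I))‖ₑ ∂P.m := by
        rw [apx_lint P C hC.measurableSet hCΩ _ measurableSet_Ico (fun v =>
          ‖At.indicator (fun _ => (1 : ℝ)) (v.1, Complex.exp ((v.2 : ℂ) * Complex.I))
            - h (v.1, Complex.exp ((v.2 : ℂ) * Complex.I))‖ₑ)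
          (((hind.comp hexpm).sub (hhs.continuous.measurable.comp hexpm)).enorm)]
    _ = ∫⁻ p, ‖At.indicator (fun _ => (1 : ℝ)) p - h p‖ₑ ∂ν := by
        have hm4 : Measurable (fun p : ℂ × ℂ => ‖At.indicator (fun _ => (1 : ℝ)) p - h p‖ₑ) :=
          (hind.sub hhs.continuous.measurable).enorm
        rw [hν, lintegral_map hm4 hexpm]
    _ ≤ ENNReal.ofReal ε := hhν

end

end Pool.Agent.EQ

namespace Pool.Agent.EQ

open MeasureTheory Filter Topology Set
open scoped ContDiff ENNReal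

noncomputable section

theorem approx (P : Pres) (F : Set ℂ) (hF : P.IsFund F) (A : Set (ℂ × ℝ)) (hA : P.IsSetUM A)
    (ε : ℝ) (hε : 0 < ε) : ∃ (f : ℂ × ℝ → ℝ) (M : ℝ), ContDiffOn ℝ 1 f P.S ∧ P.IsInv f ∧
      Measurable f ∧
      (∀ v ∈ P.S, |f v| ≤ M ∧ |fderiv ℝ f v (HH P.u v)| ≤ M ∧ |fderiv ℝ f v VV| ≤ M) ∧
      ∫⁻ v in F ×ˢ Ico 0 (2 * Real.pi), ENNReal.ofReal |A.indicator 1 v - f v| ∂P.m
        ≤ ENNReal.ofReal ε := by
  first
    | exact approx_pr ..
    | (apply approx_pr <;> assumption)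

end

end Pool.Agent.EQ

end

/-! ## Lib_helper71.EQ.D.FUN -/

section

/-! Project EQ, block FUN: a fundamental domain with compact closure. -/

set_option autoImplicit false

namespace Pool.Agent.EQ

open MeasureTheory Filter Topology Set
open scoped ContDiff ENNReal

noncomputable section

theorem fun_inv_act (P : Pres) (g : P.G) {z : ℂ} (hz : z ∈ P.Ω) :
    P.act g⁻¹ (P.act g z) = z := by
  rw [← P.act_mul g⁻¹ g z hz, inv_mul_cancel, P.act_one z hz]

theorem fun_act_inv (P : Pres) (g : P.G) {z : ℂ} (hz : z ∈ P.Ω) :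
    P.act g (P.act g⁻¹ z) = z := by
  rw [← P.act_mul g g⁻¹ z hz, mul_inv_cancel, P.act_one z hz]

/-- the saturation of a set -/
def fun_sat (P : Pres) (B : Set ℂ) : Set ℂ := {z | z ∈ P.Ω ∧ ∃ g, P.act g z ∈ B}

theorem fun_sat_open (P : Pres) {B : Set ℂ} (hB : IsOpen B) : IsOpen (fun_sat P B) := by
  have h : fun_sat P B = ⋃ g : P.G, P.Ω ∩ P.act g ⁻¹' B := by
    ext z
    simp only [fun_sat, mem_setOf_eq, mem_iUnion, mem_inter_iff, mem_preimage]
    constructor
    · rintro ⟨h1, g, h2⟩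
      exact ⟨g, h1, h2⟩
    · rintro ⟨g, h1, h2⟩
      exact ⟨h1, g, h2⟩
  rw [h]
  exact isOpen_iUnion fun g => (P.holo g).continuousOn.isOpen_inter_preimage P.isOpen hB

theorem fun_sat_act (P : Pres) (B : Set ℂ) (g : P.G) {z : ℂ} (hz : z ∈ P.Ω) :
    P.act g z ∈ fun_sat P B ↔ z ∈ fun_sat P B := by
  constructor
  · rintro ⟨-, h, hh⟩
    refine ⟨hz, h * g, ?_⟩
    rw [P.act_mul h g z hz]
    exact hh
  · rintro ⟨-, h, hh⟩
    refine ⟨P.act_mem g z hz, h * g⁻¹, ?_⟩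
    rw [P.act_mul h g⁻¹ _ (P.act_mem g z hz), fun_inv_act P g hz]
    exact hh

/-- small balls are disjoint from their translates -/
theorem fun_ball (P : Pres) {z : ℂ} (hz : z ∈ P.Ω) : ∃ r : ℝ, 0 < r ∧
    Metric.closedBall z r ⊆ P.Ω ∧
    ∀ g : P.G, ∀ w ∈ Metric.closedBall z r, P.act g w ∈ Metric.closedBall z r → g = 1 := by
  obtain ⟨R, hR, hRΩ⟩ := Metric.nhds_basis_closedBall.mem_iff.mp (P.isOpen.mem_nhds hz)
  have hfin := P.proper (Metric.closedBall z R) hRΩ (isCompact_closedBall z R)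
  set T : Set P.G := {g | (P.act g '' Metric.closedBall z R ∩ Metric.closedBall z R).Nonempty}
    with hT
  -- for each `g` a radius
  have hg : ∀ g : P.G, ∃ r : ℝ, 0 < r ∧ (g ≠ 1 → ∀ w ∈ Metric.closedBall z r,
      P.act g w ∉ Metric.closedBall z r) := by
    intro g
    by_cases h1 : g = 1
    · exact ⟨1, one_pos, fun h => absurd h1 h⟩
    · have hne : P.act g z ≠ z := fun h => h1 (P.free g z hz h)
      have hd : 0 < dist (P.act g z) z := dist_pos.mpr hne
      have hc : ContinuousAt (P.act g) z :=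
        (P.holo g).continuousOn.continuousAt (P.isOpen.mem_nhds hz)
      obtain ⟨s, hs, hs2⟩ := Metric.continuousAt_iff.mp hc (dist (P.act g z) z / 2)
        (by positivity)
      refine ⟨min (s / 2) (dist (P.act g z) z / 4), by positivity, fun _ w hw hw2 => ?_⟩
      rw [Metric.mem_closedBall] at hw hw2
      have h3 : dist w z < s := by
        have := hw.trans (min_le_left _ _)
        linarith
      have h4 := hs2 h3
      have h5 : dist (P.act g w) z ≤ dist (P.act g z) z / 4 := hw2.trans (min_le_right _ _)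
      have h6 := dist_triangle_left (P.act g z) z (P.act g w)
      linarith
  choose r hr0 hr using hg
  -- the minimum over the finite set
  obtain ⟨ρ, hρ0, hρ⟩ : ∃ ρ : ℝ, 0 < ρ ∧ ∀ g ∈ T, ρ ≤ r g := by
    classical
    have hne : (insert 1 hfin.toFinset : Finset P.G).Nonempty := Finset.insert_nonempty _ _
    refine ⟨(insert 1 hfin.toFinset : Finset P.G).inf' hne r, ?_, fun g hg => ?_⟩
    · rw [Finset.lt_inf'_iff]
      exact fun g _ => hr0 g
    · exact Finset.inf'_le _ (Finset.mem_insert_of_mem (hfin.mem_toFinset.mpr hg))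
  refine ⟨min R ρ, lt_min hR hρ0, ?_, fun g w hw hw2 => ?_⟩
  · exact (Metric.closedBall_subset_closedBall (min_le_left _ _)).trans hRΩ
  · by_contra hne
    have hgT : g ∈ T := ⟨P.act g w,
      ⟨w, Metric.closedBall_subset_closedBall (min_le_left _ _) hw, rfl⟩,
      Metric.closedBall_subset_closedBall (min_le_left _ _) hw2⟩
    have h3 : min R ρ ≤ r g := (min_le_right _ _).trans (hρ g hgT)
    exact hr g hne w (Metric.closedBall_subset_closedBall h3 hw)
      (Metric.closedBall_subset_closedBall h3 hw2)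

/-- the inductive construction -/
theorem fun_step (P : Pres) (r : ℂ → ℝ) (t : Finset ℂ)
    (ht : ∀ z ∈ t, Metric.closedBall z (r z) ⊆ P.Ω ∧
      ∀ g : P.G, ∀ w ∈ Metric.closedBall z (r z), P.act g w ∈ Metric.closedBall z (r z) → g = 1) :
    ∃ F : Set ℂ, MeasurableSet F ∧ F ⊆ ⋃ z ∈ t, Metric.ball z (r z) ∧
      ∀ w ∈ P.Ω, (∃ g : P.G, P.act g w ∈ ⋃ z ∈ t, Metric.ball z (r z)) →
        ∃! g : P.G, P.act g w ∈ F := by
  classical
  induction t using Finset.induction_on with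
  | empty =>
    refine ⟨∅, MeasurableSet.empty, empty_subset _, fun w _ h => ?_⟩
    obtain ⟨g, hg⟩ := h
    simp at hg
  | insert a t hat ih =>
    obtain ⟨F, hFm, hFs, hF⟩ := ih fun z hz => ht z (Finset.mem_insert_of_mem hz)
    obtain ⟨ha1, ha2⟩ := ht a (Finset.mem_insert_self a t)
    set U : Set ℂ := ⋃ z ∈ t, Metric.ball z (r z) with hU
    have hUo : IsOpen U := isOpen_biUnion fun z _ => Metric.isOpen_ball
    have hins : (⋃ z ∈ insert a t, Metric.ball z (r z)) = Metric.ball a (r a) ∪ U := by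
      rw [hU, Finset.set_biUnion_insert]
    rw [hins]
    refine ⟨F ∪ (Metric.ball a (r a) \ fun_sat P U),
      hFm.union (Metric.isOpen_ball.measurableSet.diff (fun_sat_open P hUo).measurableSet), ?_,
      fun w hw hex => ?_⟩
    · rintro w (hw | hw)
      · exact Or.inr (hFs hw)
      · exact Or.inl hw.1
    · by_cases hS : w ∈ fun_sat P U
      · obtain ⟨g, hg, hgu⟩ := hF w hw hS.2
        refine ⟨g, Or.inl hg, ?_⟩
        rintro g' (hg' | hg')
        · exact hgu g' hg'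
        · exact absurd ((fun_sat_act P U g' hw).mpr hS) hg'.2
      · obtain ⟨g, hg | hg⟩ := hex
        · refine ⟨g, Or.inr ⟨hg, fun h => hS ((fun_sat_act P U g hw).mp h)⟩, ?_⟩
          rintro g' (hg' | hg')
          · exact absurd ⟨hw, g', hFs hg'⟩ hS
          · have h1 : P.act (g' * g⁻¹) (P.act g w) = P.act g' w := by
              rw [P.act_mul g' g⁻¹ _ (P.act_mem g w hw), fun_inv_act P g hw]
            have h2 := ha2 (g' * g⁻¹) (P.act g w) (Metric.ball_subset_closedBall hg)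
              (by rw [h1]; exact Metric.ball_subset_closedBall hg'.1)
            exact mul_inv_eq_one.mp h2
        · exact absurd ⟨hw, g, hg⟩ hS

/-- FUN : a fundamental domain with compact closure in `Ω` -/
theorem exists_fund_pr (P : Pres) :
    ∃ F K : Set ℂ, P.IsFund F ∧ F ⊆ K ∧ IsCompact K ∧ K ⊆ P.Ω := by
  obtain ⟨K₀, hK₀Ω, hK₀c, hK₀⟩ := P.cocompact
  have h0 : ∀ z : ℂ, ∃ r : ℝ, 0 < r ∧ (z ∈ P.Ω → Metric.closedBall z r ⊆ P.Ω ∧
      ∀ g : P.G, ∀ w ∈ Metric.closedBall z r, P.act g w ∈ Metric.closedBall z r → g = 1) := by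
    intro z
    by_cases hz : z ∈ P.Ω
    · obtain ⟨r, h1, h2, h3⟩ := fun_ball P hz
      exact ⟨r, h1, fun _ => ⟨h2, h3⟩⟩
    · exact ⟨1, one_pos, fun h => absurd h hz⟩
  choose r hr0 hr using h0
  obtain ⟨t, htK, ht⟩ := hK₀c.elim_nhds_subcover (fun z => Metric.ball z (r z))
    (fun z _ => Metric.ball_mem_nhds z (hr0 z))
  obtain ⟨F, hFm, hFs, hF⟩ := fun_step P r t fun z hz => hr z (hK₀Ω (htK z hz))
  have hsub : (⋃ z ∈ t, Metric.ball z (r z)) ⊆ ⋃ z ∈ t, Metric.closedBall z (r z) :=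
    iUnion₂_mono fun z _ => Metric.ball_subset_closedBall
  have hKΩ : (⋃ z ∈ t, Metric.closedBall z (r z)) ⊆ P.Ω :=
    iUnion₂_subset fun z hz => (hr z (hK₀Ω (htK z hz))).1
  refine ⟨F, ⋃ z ∈ t, Metric.closedBall z (r z), ⟨hFm, (hFs.trans hsub).trans hKΩ, ?_⟩,
    hFs.trans hsub, t.isCompact_biUnion fun z _ => isCompact_closedBall z (r z), hKΩ⟩
  refine ae_of_all _ fun z hz => hF z hz ?_
  obtain ⟨g, hg⟩ := hK₀ z hz
  exact ⟨g, ht hg⟩

end

end Pool.Agent.EQ

namespace Pool.Agent.EQ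

open MeasureTheory Filter Topology Set
open scoped ContDiff ENNReal

noncomputable section

theorem exists_fund (P : Pres) : ∃ F K : Set ℂ, P.IsFund F ∧ F ⊆ K ∧ IsCompact K ∧ K ⊆ P.Ω := by
  first
    | exact exists_fund_pr ..
    | (apply exists_fund_pr <;> assumption)

end

end Pool.Agent.EQ

end

/-! ## Lib_helper71.EQ.D.INT -/

section

/-! Block INT : the integral over the unit tangent bundle is invariant under the flow. -/

set_option autoImplicit false

namespace Pool.Agent.EQ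

open MeasureTheory Filter Topology Set
open scoped ContDiff ENNReal

noncomputable section

/-! ### the derivative of the action -/

theorem INT_hasDeriv (P : Pres) (g : P.G) {z : ℂ} (hz : z ∈ P.Ω) :
    HasDerivAt (P.act g) (deriv (P.act g) z) z :=
  ((P.holo g).differentiableAt (P.isOpen.mem_nhds hz)).hasDerivAt

theorem INT_act_inv (P : Pres) (g : P.G) {z : ℂ} (hz : z ∈ P.Ω) :
    P.act g (P.act g⁻¹ z) = z := by
  rw [← P.act_mul _ _ z hz, mul_inv_cancel, P.act_one z hz]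

theorem INT_inv_act (P : Pres) (g : P.G) {z : ℂ} (hz : z ∈ P.Ω) :
    P.act g⁻¹ (P.act g z) = z := by
  rw [← P.act_mul _ _ z hz, inv_mul_cancel, P.act_one z hz]

theorem INT_deriv_mul (P : Pres) (g : P.G) {z : ℂ} (hz : z ∈ P.Ω) :
    deriv (P.act g) (P.act g⁻¹ z) * deriv (P.act g⁻¹) z = 1 := by
  have h1 := INT_hasDeriv P g⁻¹ hz
  have h2 := INT_hasDeriv P g (P.act_mem g⁻¹ z hz)
  have h3 : HasDerivAt (fun w => P.act g (P.act g⁻¹ w))
      (deriv (P.act g) (P.act g⁻¹ z) * deriv (P.act g⁻¹) z) z := h2.comp z h1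
  have h4 : (fun w => P.act g (P.act g⁻¹ w)) =ᶠ[𝓝 z] fun w => w := by
    filter_upwards [P.isOpen.mem_nhds hz] with w hw
    exact INT_act_inv P g hw
  exact (h3.congr_of_eventuallyEq h4.symm).unique (hasDerivAt_id z)

theorem INT_deriv_ne (P : Pres) (g : P.G) {z : ℂ} (hz : z ∈ P.Ω) : deriv (P.act g) z ≠ 0 := by
  have h := INT_deriv_mul P g (P.act_mem g z hz)
  rw [INT_inv_act P g hz] at h
  exact left_ne_zero_of_mul_eq_one h

theorem INT_arg (P : Pres) (g : P.G) {z : ℂ} (hz : z ∈ P.Ω) : ∃ k : ℤ,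
    -(deriv (P.act g) (P.act g⁻¹ z)).arg = (deriv (P.act g⁻¹) z).arg + k * (2 * Real.pi) := by
  have h1 := INT_deriv_mul P g hz
  have h2 := Complex.arg_mul_coe_angle (INT_deriv_ne P g (P.act_mem g⁻¹ z hz))
    (INT_deriv_ne P g⁻¹ hz)
  rw [h1, Complex.arg_one, ← Real.Angle.coe_add, Real.Angle.angle_eq_iff_two_pi_dvd_sub] at h2
  obtain ⟨k, hk⟩ := h2
  exact ⟨k, by linarith⟩

/-! ### the maps `T g n` -/

/-- the action of `(g, n)` -/
def INT_T (P : Pres) (i : P.G × ℤ) (v : ℂ × ℝ) : ℂ × ℝ :=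
  (P.act i.1 v.1, v.2 + (deriv (P.act i.1) v.1).arg + i.2 * (2 * Real.pi))

/-- its inverse -/
def INT_V (P : Pres) (i : P.G × ℤ) (v : ℂ × ℝ) : ℂ × ℝ :=
  (P.act i.1⁻¹ v.1, v.2 - (deriv (P.act i.1) (P.act i.1⁻¹ v.1)).arg - i.2 * (2 * Real.pi))

theorem INT_T_mem (P : Pres) (i : P.G × ℤ) {v : ℂ × ℝ} (hv : v ∈ P.S) : INT_T P i v ∈ P.S :=
  ⟨P.act_mem _ _ hv.1, mem_univ _⟩

theorem INT_V_mem (P : Pres) (i : P.G × ℤ) {v : ℂ × ℝ} (hv : v ∈ P.S) : INT_V P i v ∈ P.S :=
  ⟨P.act_mem _ _ hv.1, mem_univ _⟩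

theorem INT_VT (P : Pres) (i : P.G × ℤ) {v : ℂ × ℝ} (hv : v ∈ P.S) :
    INT_V P i (INT_T P i v) = v := by
  have h1 : P.act i.1⁻¹ (P.act i.1 v.1) = v.1 := INT_inv_act P i.1 hv.1
  refine Prod.ext h1 ?_
  simp only [INT_V, INT_T, h1]
  ring

/-- the inverse maps are the maps `T` in another order -/
theorem INT_V_eq (P : Pres) {v : ℂ × ℝ} (hv : v ∈ P.S) : ∃ k : P.G → ℤ, ∀ i : P.G × ℤ,
    INT_V P i v = INT_T P (i.1⁻¹, k i.1 - i.2) v := by
  choose k hk using fun g : P.G => INT_arg P g hv.1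
  refine ⟨k, fun i => Prod.ext rfl ?_⟩
  simp only [INT_V, INT_T]
  have := hk i.1
  push_cast
  linarith

theorem INT_Q (P : Pres) {α : Type*} {Q : ℂ × ℝ → α} (hi : P.IsInv Q) (i : P.G × ℤ) {v : ℂ × ℝ}
    (hv : v ∈ P.S) : Q (INT_T P i v) = Q v := by
  have hper : ∀ (n : ℤ) (w : ℂ × ℝ), w ∈ P.S → Q (w.1, w.2 + n * (2 * Real.pi)) = Q w := by
    intro n
    induction n using Int.induction_on with
    | zero => intro w _; simp
    | succ n ih =>
      intro w hw
      have h1 := hi.per (w.1, w.2 + ((n : ℤ) : ℝ) * (2 * Real.pi)) hw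
      simp only at h1
      rw [← ih w hw, ← h1]
      congr 2
      push_cast
      ring
    | pred n ih =>
      intro w hw
      have h1 := hi.per (w.1, w.2 + ((-n - 1 : ℤ) : ℝ) * (2 * Real.pi)) hw
      simp only at h1
      rw [← h1, ← ih w hw]
      congr 2
      push_cast
      ring
  have h1 := hper i.2 (P.actS i.1 v) ⟨P.act_mem _ _ hv.1, mem_univ _⟩
  rw [hi.inv i.1 v hv] at h1
  exact h1

/-! ### measures -/

theorem INT_measS (P : Pres) : MeasurableSet P.S :=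
  (P.isOpen.prod isOpen_univ).measurableSet

theorem INT_dens_ae (P : Pres) : AEMeasurable (fun z : ℂ => ENNReal.ofReal (Real.exp (2 * P.u z)))
    (volume.restrict P.Ω) := by
  have h1 : ContinuousOn (fun z : ℂ => ENNReal.ofReal (Real.exp (2 * P.u z))) P.Ω :=
    ENNReal.continuous_ofReal.comp_continuousOn
      (Real.continuous_exp.comp_continuousOn (continuousOn_const.mul P.smooth.continuousOn))
  exact h1.aemeasurable P.isOpen.measurableSet

/-- Fubini -/
theorem INT_lintegral (P : Pres) (H : ℂ × ℝ → ℝ≥0∞) (hH : Measurable H) :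
    ∫⁻ v, H v ∂P.m = ∫⁻ z in P.Ω, ENNReal.ofReal (Real.exp (2 * P.u z)) * ∫⁻ t, H (z, t) := by
  have hvol : (volume : Measure (ℂ × ℝ)).restrict P.S =
      ((volume : Measure ℂ).restrict P.Ω).prod (volume : Measure ℝ) := by
    rw [Pres.S, Measure.volume_eq_prod, ← Measure.prod_restrict, Measure.restrict_univ]
  have hae : AEMeasurable (fun v : ℂ × ℝ => ENNReal.ofReal (Real.exp (2 * P.u v.1)))
      (((volume : Measure ℂ).restrict P.Ω).prod (volume : Measure ℝ)) :=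
    (INT_dens_ae P).comp_fst
  rw [Pres.m, hvol, lintegral_withDensity_eq_lintegral_mul₀ hae hH.aemeasurable,
    lintegral_prod _ (hae.mul hH.aemeasurable)]
  refine lintegral_congr fun z => ?_
  simp only [Pi.mul_apply]
  exact lintegral_const_mul (ENNReal.ofReal (Real.exp (2 * P.u z)))
    (hH.comp (measurable_prodMk_left (x := z)))

/-- change of variables for the action -/
theorem INT_area (P : Pres) (g : P.G) (h : ℂ → ℝ≥0∞) :
    ∫⁻ z in P.Ω, ENNReal.ofReal (Real.exp (2 * P.u z)) * h (P.act g z) =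
      ∫⁻ z in P.Ω, ENNReal.ofReal (Real.exp (2 * P.u z)) * h z := by
  have himg : P.act g '' P.Ω = P.Ω := by
    apply Subset.antisymm
    · rintro _ ⟨z, hz, rfl⟩
      exact P.act_mem g z hz
    · intro z hz
      exact ⟨P.act g⁻¹ z, P.act_mem _ z hz, INT_act_inv P g hz⟩
  have hinj : InjOn (P.act g) P.Ω := by
    intro z hz w hw hzw
    rw [← INT_inv_act P g hz, hzw, INT_inv_act P g hw]
  have hd : ∀ z ∈ P.Ω, HasFDerivWithinAt (P.act g)
      ((ContinuousLinearMap.toSpanSingleton ℂ (deriv (P.act g) z)).restrictScalars ℝ) P.Ω z :=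
    fun z hz => ((INT_hasDeriv P g hz).hasFDerivAt.restrictScalars ℝ).hasFDerivWithinAt
  have hdet : ∀ z, |((ContinuousLinearMap.toSpanSingleton ℂ
      (deriv (P.act g) z)).restrictScalars ℝ).det| = ‖deriv (P.act g) z‖ ^ 2 := by
    intro z
    have h1 : ((ContinuousLinearMap.toSpanSingleton ℂ
      (deriv (P.act g) z)).restrictScalars ℝ).det = ‖deriv (P.act g) z‖ ^ 2 := by
      simp [ContinuousLinearMap.det, LinearMap.det_restrictScalars,
        Algebra.norm_complex_eq, Complex.normSq_eq_norm_sq]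
    rw [h1, abs_of_nonneg (by positivity)]
  have key := lintegral_image_eq_lintegral_abs_det_fderiv_mul (volume : Measure ℂ)
    P.isOpen.measurableSet hd hinj (fun z => ENNReal.ofReal (Real.exp (2 * P.u z)) * h z)
  rw [himg] at key
  rw [key]
  refine setLIntegral_congr_fun P.isOpen.measurableSet fun z hz => ?_
  rw [hdet, ← mul_assoc, ← ENNReal.ofReal_mul (by positivity)]
  congr 2
  have h1 := P.isom g z hz
  have h2 : 0 < ‖deriv (P.act g) z‖ := norm_pos_iff.2 (INT_deriv_ne P g hz)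
  have h3 : Real.exp (2 * Real.log ‖deriv (P.act g) z‖) = ‖deriv (P.act g) z‖ ^ 2 := by
    rw [two_mul, Real.exp_add, Real.exp_log h2, sq]
  rw [← h1, mul_add, Real.exp_add, h3, mul_comm]

/-- measurable versions of the maps, the identity outside `S` -/
def INT_T' (P : Pres) (i : P.G × ℤ) : ℂ × ℝ → ℂ × ℝ := open Classical in
  P.S.piecewise (INT_T P i) id

def INT_V' (P : Pres) (i : P.G × ℤ) : ℂ × ℝ → ℂ × ℝ := open Classical in
  P.S.piecewise (INT_V P i) id

theorem INT_T'_eq (P : Pres) (i : P.G × ℤ) {v : ℂ × ℝ} (hv : v ∈ P.S) :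
    INT_T' P i v = INT_T P i v := by
  classical
  exact Set.piecewise_eq_of_mem _ _ _ hv

theorem INT_V'_eq (P : Pres) (i : P.G × ℤ) {v : ℂ × ℝ} (hv : v ∈ P.S) :
    INT_V' P i v = INT_V P i v := by
  classical
  exact Set.piecewise_eq_of_mem _ _ _ hv

/-- restriction of measurability to a set -/
theorem INT_piecewise_meas (P : Pres) (f : ℂ × ℝ → ℂ × ℝ)
    (hf : Measurable (fun v : P.S => f v)) : Measurable (open Classical in P.S.piecewise f id) := by
  classical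
  apply measurable_of_restrict_of_restrict_compl (INT_measS P)
  · have h1 : P.S.domRestrict (P.S.piecewise f id) = fun v : P.S => f v := by
      ext1 v
      exact Set.piecewise_eq_of_mem _ _ _ v.2
    rw [h1]
    exact hf
  · have h1 : P.Sᶜ.domRestrict (P.S.piecewise f id) = fun v : (P.Sᶜ : Set (ℂ × ℝ)) => (v : ℂ × ℝ) := by
      ext1 v
      exact Set.piecewise_eq_of_notMem _ _ _ v.2
    rw [h1]
    exact measurable_subtype_coe

theorem INT_act_meas (P : Pres) (g : P.G) : Measurable (fun z : P.Ω => P.act g z) :=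
  (continuousOn_iff_continuous_domRestrict.1 (P.holo g).continuousOn).measurable

theorem INT_dact_meas (P : Pres) (g : P.G) :
    Measurable (fun z : P.Ω => (deriv (P.act g) z).arg) := by
  have h1 : ContinuousOn (deriv (P.act g)) P.Ω :=
    ((P.holo g).deriv P.isOpen).continuousOn
  exact Complex.measurable_arg.comp (continuousOn_iff_continuous_domRestrict.1 h1).measurable

theorem INT_T'_meas (P : Pres) (i : P.G × ℤ) : Measurable (INT_T' P i) := by
  apply INT_piecewise_meas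
  have h1 : Measurable (fun v : P.S => (⟨v.1.1, v.2.1⟩ : P.Ω)) :=
    (measurable_fst.comp measurable_subtype_coe).subtype_mk
  have h2 : Measurable (fun v : P.S => v.1.2) := measurable_snd.comp measurable_subtype_coe
  exact ((INT_act_meas P i.1).comp h1).prodMk
    ((h2.add ((INT_dact_meas P i.1).comp h1)).add_const _)

theorem INT_V'_meas (P : Pres) (i : P.G × ℤ) : Measurable (INT_V' P i) := by
  apply INT_piecewise_meas
  have h1 : Measurable (fun v : P.S => (⟨v.1.1, v.2.1⟩ : P.Ω)) :=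
    (measurable_fst.comp measurable_subtype_coe).subtype_mk
  have h2 : Measurable (fun v : P.S => v.1.2) := measurable_snd.comp measurable_subtype_coe
  have h3 : Measurable (fun z : P.Ω => (⟨P.act i.1⁻¹ z, P.act_mem _ _ z.2⟩ : P.Ω)) :=
    (INT_act_meas P i.1⁻¹).subtype_mk
  exact ((INT_act_meas P i.1⁻¹).comp h1).prodMk
    ((h2.sub ((INT_dact_meas P i.1).comp (h3.comp h1))).sub_const _)

theorem INT_mS (P : Pres) : ∀ᵐ v ∂P.m, v ∈ P.S := by
  have h1 : P.m ≪ volume.restrict P.S := withDensity_absolutelyContinuous _ _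
  exact h1.ae_le (ae_restrict_mem (INT_measS P))

theorem INT_preserve (P : Pres) (i : P.G × ℤ) (H : ℂ × ℝ → ℝ≥0∞) (hH : Measurable H) :
    ∫⁻ v, H (INT_T' P i v) ∂P.m = ∫⁻ v, H v ∂P.m := by
  rw [INT_lintegral P (fun v => H (INT_T' P i v)) (hH.comp (INT_T'_meas P i)),
    INT_lintegral P H hH,
    ← INT_area P i.1 (fun z => ∫⁻ t, H (z, t))]
  refine setLIntegral_congr_fun P.isOpen.measurableSet fun z hz => ?_
  congr 1
  have h1 : ∀ t : ℝ, H (INT_T' P i (z, t)) = (fun s => H (P.act i.1 z, s))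
      (t + ((deriv (P.act i.1) z).arg + i.2 * (2 * Real.pi))) := by
    intro t
    rw [INT_T'_eq P i (show (z, t) ∈ P.S from ⟨hz, mem_univ _⟩)]
    simp only [INT_T]
    rw [add_assoc]
  simp only [h1]
  exact lintegral_add_right_eq_self (μ := (volume : Measure ℝ)) (fun s => H (P.act i.1 z, s)) _

/-- two transversals of a countable family of maps -/
theorem INT_transv {X I : Type*} [MeasurableSpace X] [Countable I] (μ : Measure X)
    (T V : I → X → X) (hT : ∀ i, Measurable (T i)) (hV : ∀ i, Measurable (V i))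
    (hpres : ∀ i (H : X → ℝ≥0∞), Measurable H → ∫⁻ v, H (T i v) ∂μ = ∫⁻ v, H v ∂μ)
    (hVT : ∀ i, ∀ᵐ v ∂μ, V i (T i v) = v) (D D' : Set X) (hDm : MeasurableSet D)
    (hDm' : MeasurableSet D') (hD : ∀ᵐ w ∂μ, ∃! i, V i w ∈ D) (hD' : ∀ᵐ w ∂μ, ∃! i, T i w ∈ D')
    (Q : X → ℝ≥0∞) (hQ : Measurable Q) (hQT : ∀ i, ∀ᵐ v ∂μ, Q (T i v) = Q v) :
    ∫⁻ v in D, Q v ∂μ = ∫⁻ v in D', Q v ∂μ := by
  classical
  have hsum : ∀ (s : Set X) (f : I → X → X) (w : X), (∃! i, f i w ∈ s) →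
      ∑' i, s.indicator (1 : X → ℝ≥0∞) (f i w) = 1 := by
    intro s f w ⟨i, hi, hu⟩
    rw [tsum_eq_single i]
    · rw [Set.indicator_of_mem hi, Pi.one_apply]
    · intro j hj
      exact Set.indicator_of_notMem (fun h => hj (hu j h)) _
  have hind : ∀ (s : Set X), MeasurableSet s → Measurable (s.indicator (1 : X → ℝ≥0∞)) :=
    fun s hs => measurable_one.indicator hs
  have e1 : ∫⁻ v in D, Q v ∂μ = ∫⁻ v, ∑' i, D.indicator 1 v * Q v * D'.indicator 1 (T i v) ∂μ := by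
    rw [← lintegral_indicator hDm]
    refine lintegral_congr_ae ?_
    filter_upwards [hD'] with w hw
    rw [ENNReal.tsum_mul_left, hsum D' T w hw, mul_one]
    by_cases h : w ∈ D
    · rw [Set.indicator_of_mem h, Set.indicator_of_mem h, Pi.one_apply, one_mul]
    · rw [Set.indicator_of_notMem h, Set.indicator_of_notMem h, zero_mul]
  have e2 : ∫⁻ v in D', Q v ∂μ = ∫⁻ w, ∑' i, D'.indicator 1 w * Q w * D.indicator 1 (V i w) ∂μ := by
    rw [← lintegral_indicator hDm']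
    refine lintegral_congr_ae ?_
    filter_upwards [hD] with w hw
    rw [ENNReal.tsum_mul_left, hsum D V w hw, mul_one]
    by_cases h : w ∈ D'
    · rw [Set.indicator_of_mem h, Set.indicator_of_mem h, Pi.one_apply, one_mul]
    · rw [Set.indicator_of_notMem h, Set.indicator_of_notMem h, zero_mul]
  rw [e1, e2, lintegral_tsum, lintegral_tsum]
  · refine tsum_congr fun i => ?_
    have h1 := hpres i (fun w => D'.indicator 1 w * Q w * D.indicator 1 (V i w))
      (((hind D' hDm').mul hQ).mul ((hind D hDm).comp (hV i)))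
    rw [← h1]
    refine lintegral_congr_ae ?_
    filter_upwards [hVT i, hQT i] with v hv hq
    simp only [hv, hq]
    ring
  · intro i
    exact (((hind D' hDm').mul hQ).mul ((hind D hDm).comp (hV i))).aemeasurable
  · intro i
    exact (((hind D hDm).mul hQ).mul ((hind D' hDm').comp (hT i))).aemeasurable

/-- the fundamental domain of the unit tangent bundle is a transversal -/
theorem INT_good (P : Pres) (F : Set ℂ) (hF : P.IsFund F) :
    ∀ᵐ w ∂P.m, ∃! i : P.G × ℤ, INT_T P i w ∈ F ×ˢ Ico 0 (2 * Real.pi) := by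
  have h1 : ∀ᵐ w : ℂ × ℝ, (w.1 ∈ P.Ω → ∃! g : P.G, P.act g w.1 ∈ F) := by
    have h2 := hF.uniq
    rw [ae_iff] at h2 ⊢
    have h3 : {a : ℂ × ℝ | ¬(a.1 ∈ P.Ω → ∃! g : P.G, P.act g a.1 ∈ F)} =
        {a : ℂ | ¬(a ∈ P.Ω → ∃! g : P.G, P.act g a ∈ F)} ×ˢ (univ : Set ℝ) := by
      ext a
      simp
    rw [h3, Measure.volume_eq_prod, Measure.prod_prod, h2, zero_mul]
  have h4 : P.m ≪ volume := (withDensity_absolutelyContinuous _ _).trans
    Measure.restrict_le_self.absolutelyContinuous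
  filter_upwards [h4.ae_le h1, INT_mS P] with w hw hwS
  obtain ⟨g, hg, hu⟩ := hw hwS.1
  obtain ⟨n, hn, hnu⟩ := existsUnique_add_zsmul_mem_Ico Real.two_pi_pos
    (w.2 + (deriv (P.act g) w.1).arg) 0
  rw [zero_add] at hn
  simp only [zero_add, zsmul_eq_mul] at hn hnu
  refine ⟨(g, n), ⟨hg, hn⟩, ?_⟩
  rintro ⟨g', n'⟩ ⟨h5, h6⟩
  have h7 : g' = g := hu g' h5
  subst h7
  have h8 : n' = n := hnu n' h6
  rw [h8]

/-- INT : the integral over the unit tangent bundle of `Ω / G` is invariant under the flow -/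
theorem inv_int_pr (P : Pres) (Φ : GFlow P) (F : Set ℂ) (hF : P.IsFund F) (Q : ℂ × ℝ → ℝ≥0∞)
    (hQ : Measurable Q) (hi : P.IsInv Q) (t : ℝ) :
    ∫⁻ v in F ×ˢ Ico 0 (2 * Real.pi), Q (Φ.φ t v) ∂P.m =
      ∫⁻ v in F ×ˢ Ico 0 (2 * Real.pi), Q v ∂P.m := by
  classical
  set D : Set (ℂ × ℝ) := F ×ˢ Ico 0 (2 * Real.pi) with hD
  have hDm : MeasurableSet D := hF.meas.prod measurableSet_Ico
  have hφm : ∀ s, Measurable (Φ.φ s) := fun s => (m_phi P Φ s).measurable
  set D' : Set (ℂ × ℝ) := Φ.φ (-t) ⁻¹' D with hD'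
  have hDm' : MeasurableSet D' := hφm (-t) hDm
  -- step 1
  have hinv : ∀ v, Φ.φ (-t) (Φ.φ t v) = v := fun v => by
    rw [← Φ.add, neg_add_cancel, Φ.zero]
  have e1 : ∫⁻ v in D, Q (Φ.φ t v) ∂P.m = ∫⁻ v in D', Q v ∂P.m := by
    rw [← lintegral_indicator hDm, ← lintegral_indicator hDm',
      ← (m_phi P Φ t).lintegral_comp (hQ.indicator hDm')]
    refine lintegral_congr fun v => ?_
    by_cases h : v ∈ D
    · have h' : Φ.φ t v ∈ D' := by
        rw [hD', mem_preimage, hinv]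
        exact h
      rw [Set.indicator_of_mem h, Set.indicator_of_mem h']
    · have h' : Φ.φ t v ∉ D' := by
        rw [hD', mem_preimage, hinv]
        exact h
      rw [Set.indicator_of_notMem h, Set.indicator_of_notMem h']
  rw [e1]
  symm
  -- step 2
  have hgoodD := INT_good P F hF
  refine INT_transv P.m (INT_T' P) (INT_V' P) (INT_T'_meas P) (INT_V'_meas P)
    (fun i H hH => INT_preserve P i H hH) ?_ D D' hDm hDm' ?_ ?_ Q hQ ?_
  · intro i
    filter_upwards [INT_mS P] with v hv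
    rw [INT_T'_eq P i hv, INT_V'_eq P i (INT_T_mem P i hv), INT_VT P i hv]
  · filter_upwards [hgoodD, INT_mS P] with w hw hwS
    obtain ⟨k, hk⟩ := INT_V_eq P hwS
    obtain ⟨⟨g, n⟩, hg, hu⟩ := hw
    refine ⟨(g⁻¹, k g⁻¹ - n), ?_, ?_⟩
    · simp only
      rw [INT_V'_eq P _ hwS, hk]
      simp only [inv_inv]
      have : k g⁻¹ - (k g⁻¹ - n) = n := by ring
      rw [this]
      exact hg
    · rintro ⟨g', n'⟩ h1
      rw [INT_V'_eq P _ hwS, hk] at h1
      have h2 := hu _ h1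
      simp only [Prod.mk.injEq] at h2
      obtain ⟨h3, h4⟩ := h2
      have h5 : g' = g⁻¹ := by rw [← h3, inv_inv]
      subst h5
      rw [← h4]
      simp
  · have hgood2 : ∀ᵐ w ∂P.m, ∃! i : P.G × ℤ, INT_T P i (Φ.φ (-t) w) ∈ D :=
      (m_phi P Φ (-t)).quasiMeasurePreserving.ae hgoodD
    filter_upwards [hgood2, INT_mS P] with w hw hwS
    -- equivariance
    have hper : ∀ (n : ℤ) (v : ℂ × ℝ), v ∈ P.S → Φ.φ (-t) (v.1, v.2 + n * (2 * Real.pi)) =
        ((Φ.φ (-t) v).1, (Φ.φ (-t) v).2 + n * (2 * Real.pi)) := by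
      intro n
      induction n using Int.induction_on with
      | zero => intro v _; simp
      | succ n ih =>
        intro v hv
        have h1 := Φ.per (-t) (v.1, v.2 + ((n : ℤ) : ℝ) * (2 * Real.pi)) hv
        simp only at h1
        rw [ih v hv] at h1
        have h2 : v.2 + (((n : ℤ) + 1 : ℤ) : ℝ) * (2 * Real.pi) =
            v.2 + ((n : ℤ) : ℝ) * (2 * Real.pi) + 2 * Real.pi := by push_cast; ring
        rw [h2, h1]
        refine Prod.ext rfl ?_
        simp only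
        push_cast
        ring
      | pred n ih =>
        intro v hv
        have h1 := Φ.per (-t) (v.1, v.2 + ((-n - 1 : ℤ) : ℝ) * (2 * Real.pi)) hv
        simp only at h1
        have h2 : v.2 + ((-n - 1 : ℤ) : ℝ) * (2 * Real.pi) + 2 * Real.pi =
            v.2 + ((-n : ℤ) : ℝ) * (2 * Real.pi) := by push_cast; ring
        rw [h2, ih v hv] at h1
        have h3 := congrArg Prod.fst h1
        have h4 := congrArg Prod.snd h1
        simp only at h3 h4
        refine Prod.ext h3.symm ?_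
        simp only
        push_cast at h4 ⊢
        linarith
    choose c hc using fun g => Φ.equiv g (-t) w hwS
    have hequ : ∀ (g : P.G) (n : ℤ), Φ.φ (-t) (INT_T P (g, n) w) =
        INT_T P (g, n + c g) (Φ.φ (-t) w) := by
      intro g n
      have h1 := hper n (P.actS g w) ⟨P.act_mem _ _ hwS.1, mem_univ _⟩
      have h2 : INT_T P (g, n) w = ((P.actS g w).1, (P.actS g w).2 + n * (2 * Real.pi)) := rfl
      rw [h2, h1, hc g]
      refine Prod.ext rfl ?_
      simp only [INT_T, Pres.actS]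
      push_cast
      ring
    obtain ⟨⟨g, n⟩, hg, hu⟩ := hw
    refine ⟨(g, n - c g), ?_, ?_⟩
    · simp only
      rw [INT_T'_eq P _ hwS, hD', mem_preimage, hequ, sub_add_cancel]
      exact hg
    · rintro ⟨g', n'⟩ h1
      rw [INT_T'_eq P _ hwS, hD', mem_preimage, hequ] at h1
      have h2 := hu _ h1
      simp only [Prod.mk.injEq] at h2
      obtain ⟨h3, h4⟩ := h2
      subst h3
      rw [← h4, add_sub_cancel_right]
  · intro i
    filter_upwards [INT_mS P] with v hv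
    rw [INT_T'_eq P i hv, INT_Q P hi i hv]

end

end Pool.Agent.EQ

namespace Pool.Agent.EQ

open MeasureTheory Filter Topology Set
open scoped ContDiff ENNReal

noncomputable section

theorem inv_int (P : Pres) (Φ : GFlow P) (F : Set ℂ) (hF : P.IsFund F) (Q : ℂ × ℝ → ℝ≥0∞)
    (hQ : Measurable Q) (hi : P.IsInv Q) (t : ℝ) :
    ∫⁻ v in F ×ˢ Ico 0 (2 * Real.pi), Q (Φ.φ t v) ∂P.m =
      ∫⁻ v in F ×ˢ Ico 0 (2 * Real.pi), Q v ∂P.m := by
  first
    | exact inv_int_pr ..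
    | (apply inv_int_pr <;> assumption)

end

end Pool.Agent.EQ

end

/-! ## Lib_helper71.EQ.D.INT2 -/

section

/-! Project EQ, block INT2: a compact part of the cover sees finitely many copies of the
fundamental domain. -/

set_option autoImplicit false

namespace Pool.Agent.EQ

open MeasureTheory Filter Topology Set
open scoped ContDiff ENNReal

noncomputable section

theorem int2_inv_act (P : Pres) (g : P.G) {z : ℂ} (hz : z ∈ P.Ω) :
    P.act g⁻¹ (P.act g z) = z := by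
  rw [← P.act_mul g⁻¹ g z hz, inv_mul_cancel, P.act_one z hz]

theorem int2_act_inv (P : Pres) (g : P.G) {z : ℂ} (hz : z ∈ P.Ω) :
    P.act g (P.act g⁻¹ z) = z := by
  rw [← P.act_mul g g⁻¹ z hz, mul_inv_cancel, P.act_one z hz]

theorem int2_hasDeriv (P : Pres) (g : P.G) {z : ℂ} (hz : z ∈ P.Ω) :
    HasDerivAt (P.act g) (deriv (P.act g) z) z :=
  ((P.holo g).differentiableAt (P.isOpen.mem_nhds hz)).hasDerivAt

theorem int2_deriv_ne (P : Pres) (g : P.G) {z : ℂ} (hz : z ∈ P.Ω) : deriv (P.act g) z ≠ 0 := by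
  intro h0
  have h1 := int2_hasDeriv P g hz
  have h2 := int2_hasDeriv P g⁻¹ (P.act_mem g z hz)
  have h3 : HasDerivAt (fun w => P.act g⁻¹ (P.act g w))
      (deriv (P.act g⁻¹) (P.act g z) * deriv (P.act g) z) z := h2.comp z h1
  have h4 : (fun w => P.act g⁻¹ (P.act g w)) =ᶠ[𝓝 z] id := by
    filter_upwards [P.isOpen.mem_nhds hz] with w hw
    exact int2_inv_act P g hw
  have h5 : HasDerivAt (fun w : ℂ => w) (deriv (P.act g⁻¹) (P.act g z) * deriv (P.act g) z) z :=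
    h3.congr_of_eventuallyEq h4.symm
  have h6 := h5.unique (hasDerivAt_id' z)
  rw [h0, mul_zero] at h6
  exact zero_ne_one h6

open Classical in
/-- total version of the action -/
def int2_gm (P : Pres) (g : P.G) : ℂ → ℂ := P.Ω.piecewise (P.act g) id

theorem int2_gm_eq (P : Pres) (g : P.G) {z : ℂ} (hz : z ∈ P.Ω) :
    int2_gm P g z = P.act g z := by
  classical
  exact piecewise_eq_of_mem _ _ _ hz

theorem int2_gm_meas (P : Pres) (g : P.G) : Measurable (int2_gm P g) := by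
  classical
  exact ContinuousOn.measurable_piecewise (P.holo g).continuousOn continuousOn_id
    P.isOpen.measurableSet

theorem int2_det (a : ℂ) : (a • (1 : ℂ →L[ℝ] ℂ)).det = Complex.normSq a := by
  rw [← Algebra.norm_complex_apply, Algebra.norm_apply]
  show LinearMap.det _ = LinearMap.det _
  congr 1

/-- the density -/
def int2_e (P : Pres) (z : ℂ) : ℝ≥0∞ := ENNReal.ofReal (Real.exp (2 * P.u z))

theorem int2_e_ae (P : Pres) : AEMeasurable (int2_e P) (volume.restrict P.Ω) := by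
  have h1 : ContinuousOn P.u P.Ω := P.smooth.continuousOn
  have h2 : AEMeasurable P.u (volume.restrict P.Ω) :=
    h1.aemeasurable P.isOpen.measurableSet
  exact (Real.measurable_exp.comp_aemeasurable (h2.const_mul 2)).ennreal_ofReal

theorem int2_e_act (P : Pres) (g : P.G) {z : ℂ} (hz : z ∈ P.Ω) :
    ENNReal.ofReal |(deriv (P.act g) z • (1 : ℂ →L[ℝ] ℂ)).det| * int2_e P (P.act g z) =
      int2_e P z := by
  rw [int2_det, abs_of_nonneg (Complex.normSq_nonneg _)]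
  unfold int2_e
  rw [← ENNReal.ofReal_mul (Complex.normSq_nonneg _), ← P.isom g z hz]
  have h1 : 0 < ‖deriv (P.act g) z‖ := norm_pos_iff.mpr (int2_deriv_ne P g hz)
  congr 1
  rw [mul_add, Real.exp_add, mul_comm, Complex.normSq_eq_norm_sq]
  congr 1
  rw [show 2 * Real.log ‖deriv (P.act g) z‖ = Real.log (‖deriv (P.act g) z‖ ^ 2) by
    rw [Real.log_pow]; norm_num, Real.exp_log (by positivity)]

theorem int2_area_apply (P : Pres) {A : Set ℂ} (hA : MeasurableSet A) :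
    P.area A = ∫⁻ z in P.Ω ∩ A, int2_e P z := by
  unfold Pres.area
  rw [withDensity_apply _ hA, Measure.restrict_restrict hA, inter_comm]
  rfl

theorem int2_area_mp (P : Pres) (g : P.G) : MeasurePreserving (int2_gm P g) P.area P.area := by
  refine ⟨int2_gm_meas P g, ?_⟩
  ext A hA
  rw [Measure.map_apply (int2_gm_meas P g) hA, int2_area_apply P (int2_gm_meas P g hA),
    int2_area_apply P hA]
  set s : Set ℂ := P.Ω ∩ int2_gm P g ⁻¹' A with hs
  have hsm : MeasurableSet s := P.isOpen.measurableSet.inter (int2_gm_meas P g hA)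
  have him : P.act g '' s = P.Ω ∩ A := by
    ext w
    constructor
    · rintro ⟨z, ⟨hz1, hz2⟩, rfl⟩
      rw [mem_preimage, int2_gm_eq P g hz1] at hz2
      exact ⟨P.act_mem g z hz1, hz2⟩
    · rintro ⟨hw1, hw2⟩
      refine ⟨P.act g⁻¹ w, ⟨P.act_mem _ w hw1, ?_⟩, int2_act_inv P g hw1⟩
      rw [mem_preimage, int2_gm_eq P g (P.act_mem _ w hw1), int2_act_inv P g hw1]
      exact hw2
  rw [← him, lintegral_image_eq_lintegral_abs_det_fderiv_mul volume hsm
    (f' := fun z => deriv (P.act g) z • (1 : ℂ →L[ℝ] ℂ))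
    (fun z hz => (int2_hasDeriv P g hz.1).complexToReal_fderiv.hasFDerivWithinAt) ?_]
  · refine setLIntegral_congr_fun hsm fun z hz => ?_
    exact (int2_e_act P g hz.1).symm
  · intro z hz w hw h
    have h1 := congrArg (P.act g⁻¹) h
    rwa [int2_inv_act P g hz.1, int2_inv_act P g hw.1] at h1

theorem int2_m_prod (P : Pres) : P.m = P.area.prod volume := by
  have h1 := prod_withDensity_left₀ (ν := (volume : Measure ℝ)) (int2_e_ae P)
  have h2 : (volume.restrict P.Ω).prod (volume : Measure ℝ) = volume.restrict P.S := by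
    have h3 := Measure.prod_restrict (μ := (volume : Measure ℂ)) (ν := (volume : Measure ℝ))
      P.Ω univ
    rw [Measure.restrict_univ] at h3
    exact h3
  rw [h2] at h1
  exact h1.symm

/-- the transformation `(g, k)` of the unit tangent bundle -/
def int2_T (P : Pres) (g : P.G) (k : ℤ) (v : ℂ × ℝ) : ℂ × ℝ :=
  (int2_gm P g v.1, v.2 + ((deriv (P.act g) v.1).arg + k * (2 * Real.pi)))

/-- its inverse -/
def int2_T' (P : Pres) (g : P.G) (k : ℤ) (w : ℂ × ℝ) : ℂ × ℝ :=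
  (int2_gm P g⁻¹ w.1,
    w.2 - ((deriv (P.act g) (int2_gm P g⁻¹ w.1)).arg + k * (2 * Real.pi)))

instance int2_sfin (P : Pres) : SFinite P.area := by
  unfold Pres.area
  infer_instance

theorem int2_T_mp (P : Pres) (g : P.G) (k : ℤ) : MeasurePreserving (int2_T P g k) P.m P.m := by
  rw [int2_m_prod]
  have h1 : Measurable (Function.uncurry fun (z : ℂ) (θ : ℝ) =>
      θ + ((deriv (P.act g) z).arg + k * (2 * Real.pi))) := by
    have h2 : Measurable fun z : ℂ => (deriv (P.act g) z).arg :=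
      Complex.measurable_arg.comp (measurable_deriv _)
    exact measurable_snd.add ((h2.comp measurable_fst).add_const _)
  exact (int2_area_mp P g).skew_product h1 (ae_of_all _ fun z =>
    (measurePreserving_add_right volume _).map_eq)

theorem int2_T'_meas (P : Pres) (g : P.G) (k : ℤ) : Measurable (int2_T' P g k) := by
  have h1 : Measurable fun w : ℂ × ℝ => int2_gm P g⁻¹ w.1 :=
    (int2_gm_meas P g⁻¹).comp measurable_fst
  have h2 : Measurable fun z : ℂ => (deriv (P.act g) z).arg :=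
    Complex.measurable_arg.comp (measurable_deriv _)
  exact h1.prodMk (measurable_snd.sub ((h2.comp h1).add_const _))

theorem int2_T'_T (P : Pres) (g : P.G) (k : ℤ) {v : ℂ × ℝ} (hv : v ∈ P.S) :
    int2_T' P g k (int2_T P g k v) = v := by
  have hz : v.1 ∈ P.Ω := hv.1
  have h1 : int2_gm P g⁻¹ (int2_gm P g v.1) = v.1 := by
    rw [int2_gm_eq P g hz, int2_gm_eq P g⁻¹ (P.act_mem g _ hz), int2_inv_act P g hz]
  unfold int2_T' int2_T
  simp only [h1]
  ext
  · rfl
  · simp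

/-- periodicity with any integer -/
theorem int2_per {P : Pres} {α : Type*} {Q : ℂ × ℝ → α} (hi : P.IsInv Q) (k : ℤ) (z : ℂ)
    (hz : z ∈ P.Ω) (θ : ℝ) : Q (z, θ + k * (2 * Real.pi)) = Q (z, θ) := by
  have h1 : Function.Periodic (fun t : ℝ => Q (z, t)) (2 * Real.pi) := fun t =>
    hi.per (z, t) ⟨hz, mem_univ _⟩
  exact h1.int_mul k θ

theorem int2_Q {P : Pres} {α : Type*} {Q : ℂ × ℝ → α} (hi : P.IsInv Q) (g : P.G) (k : ℤ)
    {v : ℂ × ℝ} (hv : v ∈ P.S) : Q (int2_T P g k v) = Q v := by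
  have hz : v.1 ∈ P.Ω := hv.1
  unfold int2_T
  rw [int2_gm_eq P g hz, ← add_assoc, int2_per hi k _ (P.act_mem g _ hz)]
  exact hi.inv g v hv

theorem int2_ae_S (P : Pres) : ∀ᵐ v ∂P.m, v ∈ P.S := by
  have hS : MeasurableSet P.S := P.isOpen.measurableSet.prod MeasurableSet.univ
  exact (withDensity_absolutelyContinuous _ _).ae_le (ae_restrict_mem hS)

/-- almost every vector has a copy in the fundamental domain -/
theorem int2_exists (P : Pres) (F : Set ℂ) (hF : P.IsFund F) : ∀ᵐ v ∂P.m, ∃ (g : P.G) (k : ℤ),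
    int2_T P g k v ∈ F ×ˢ Ico 0 (2 * Real.pi) := by
  have h1 : ∀ᵐ v ∂(volume : Measure (ℂ × ℝ)), v.1 ∈ P.Ω → ∃! g : P.G, P.act g v.1 ∈ F := by
    rw [Measure.volume_eq_prod]
    exact Measure.quasiMeasurePreserving_fst.ae hF.uniq
  have h2 : ∀ᵐ v ∂P.m, v.1 ∈ P.Ω → ∃! g : P.G, P.act g v.1 ∈ F :=
    (withDensity_absolutelyContinuous _ _).ae_le (ae_restrict_of_ae h1)
  filter_upwards [h2, int2_ae_S P] with v hv hvS
  obtain ⟨g, hg, -⟩ := hv hvS.1
  have h3 := existsUnique_add_zsmul_mem_Ico Real.two_pi_pos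
    (v.2 + (deriv (P.act g) v.1).arg) 0
  obtain ⟨k, hk, -⟩ := h3
  refine ⟨g, k, ?_, ?_⟩
  · show int2_gm P g v.1 ∈ F
    rw [int2_gm_eq P g hvS.1]
    exact hg
  · show v.2 + ((deriv (P.act g) v.1).arg + k * (2 * Real.pi)) ∈ _
    rw [← add_assoc]
    simpa [zsmul_eq_mul] using hk

/-- the number of copies in a compact set -/
theorem int2_count (P : Pres) (C : Set (ℂ × ℝ)) (hC : IsCompact C) (hCS : C ⊆ P.S) :
    ∃ n : ℕ, ∀ w ∈ P.S, ∑' p : P.G × ℤ, C.indicator (1 : ℂ × ℝ → ℝ≥0∞) (int2_T' P p.1 p.2 w) ≤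
      n := by
  classical
  have hK : IsCompact (Prod.fst '' C) := hC.image continuous_fst
  have hKΩ : Prod.fst '' C ⊆ P.Ω := by
    rintro _ ⟨v, hv, rfl⟩
    exact (hCS hv).1
  have hfin := P.proper _ hKΩ hK
  set H : Finset P.G := hfin.toFinset with hH
  obtain ⟨M, hM⟩ : ∃ M : ℝ, ∀ v ∈ C, |v.2| ≤ M := by
    obtain ⟨M, hM⟩ := hC.exists_bound_of_continuousOn (f := fun v : ℂ × ℝ => v.2)
      continuous_snd.continuousOn
    exact ⟨M, fun v hv => by simpa using hM v hv⟩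
  set L : ℕ := ⌈(2 * M + 2 * Real.pi) / (2 * Real.pi)⌉₊ with hL
  refine ⟨H.card * (L + 1), fun w hw => ?_⟩
  by_cases hex : ∃ p : P.G × ℤ, int2_T' P p.1 p.2 w ∈ C
  · obtain ⟨⟨g₀, k₀⟩, h0⟩ := hex
    set a : ℤ := ⌈(w.2 - Real.pi - M) / (2 * Real.pi)⌉ with ha
    set N : Finset (P.G × ℤ) := (H.image fun h => g₀ * h⁻¹) ×ˢ Finset.Icc a (a + L) with hN
    have hmem : ∀ p : P.G × ℤ, p ∉ N →
        C.indicator (1 : ℂ × ℝ → ℝ≥0∞) (int2_T' P p.1 p.2 w) = 0 := by
      rintro ⟨g, k⟩ hp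
      rw [indicator_of_notMem]
      intro hgk
      apply hp
      rw [hN, Finset.mem_product]
      have e0 : (int2_T' P g₀ k₀ w).1 = P.act g₀⁻¹ w.1 := int2_gm_eq P g₀⁻¹ hw.1
      have e1 : (int2_T' P g k w).1 = P.act g⁻¹ w.1 := int2_gm_eq P g⁻¹ hw.1
      constructor
      · rw [Finset.mem_image]
        refine ⟨g⁻¹ * g₀, ?_, by group⟩
        rw [hH, Set.Finite.mem_toFinset]
        refine ⟨P.act g⁻¹ w.1, ⟨P.act g₀⁻¹ w.1, ⟨_, h0, e0⟩, ?_⟩, ⟨_, hgk, e1⟩⟩
        rw [P.act_mul g⁻¹ g₀ _ (P.act_mem _ _ hw.1), int2_act_inv P g₀ hw.1]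
      · have h2 := hM _ hgk
        have h3 : (int2_T' P g k w).2 =
          w.2 - ((deriv (P.act g) (int2_gm P g⁻¹ w.1)).arg + k * (2 * Real.pi)) := rfl
        rw [h3, abs_le] at h2
        have h4 := Complex.neg_pi_lt_arg (deriv (P.act g) (int2_gm P g⁻¹ w.1))
        have h5 := Complex.arg_le_pi (deriv (P.act g) (int2_gm P g⁻¹ w.1))
        have hpi := Real.two_pi_pos
        rw [Finset.mem_Icc]
        constructor
        · rw [ha, Int.ceil_le, div_le_iff₀ hpi]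
          linarith [h2.2]
        · have h6 : (w.2 - Real.pi - M) / (2 * Real.pi) ≤ a := Int.le_ceil _
          have h7 : (2 * M + 2 * Real.pi) / (2 * Real.pi) ≤ L := Nat.le_ceil _
          have h8 : (k : ℝ) ≤ (w.2 - Real.pi - M) / (2 * Real.pi) +
              (2 * M + 2 * Real.pi) / (2 * Real.pi) := by
            rw [← add_div, le_div_iff₀ hpi]
            linarith [h2.1]
          have h9 : (k : ℝ) ≤ ((a + L : ℤ) : ℝ) := by
            push_cast
            linarith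
          exact_mod_cast h9
    rw [tsum_eq_sum (s := N) fun p hp => hmem p hp]
    calc ∑ p ∈ N, C.indicator (1 : ℂ × ℝ → ℝ≥0∞) (int2_T' P p.1 p.2 w)
        ≤ ∑ _p ∈ N, (1 : ℝ≥0∞) :=
          Finset.sum_le_sum fun p _ => indicator_le_self' (fun _ _ => zero_le_one) _
      _ = (N.card : ℝ≥0∞) := by simp
      _ ≤ ((H.card * (L + 1) : ℕ) : ℝ≥0∞) := by
          rw [Nat.cast_le, hN, Finset.card_product, Int.card_Icc]
          refine Nat.mul_le_mul Finset.card_image_le ?_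
          omega
  · push Not at hex
    have h1 : ∀ p : P.G × ℤ,
        C.indicator (1 : ℂ × ℝ → ℝ≥0∞) (int2_T' P p.1 p.2 w) = 0 := fun p =>
      indicator_of_notMem (hex p) _
    simp [h1]

/-- INT2 : a compact part of the cover sees only finitely many copies of the fundamental domain -/
theorem int_compact_pr (P : Pres) (F : Set ℂ) (hF : P.IsFund F) (C : Set (ℂ × ℝ))
    (hC : IsCompact C)
    (hCS : C ⊆ P.S) : ∃ n : ℕ, ∀ Q : ℂ × ℝ → ℝ≥0∞, Measurable Q → P.IsInv Q →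
      ∫⁻ v in C, Q v ∂P.m ≤ n * ∫⁻ v in F ×ˢ Ico 0 (2 * Real.pi), Q v ∂P.m := by
  obtain ⟨n, hn⟩ := int2_count P C hC hCS
  refine ⟨n, fun Q hQ hi => ?_⟩
  set D : Set (ℂ × ℝ) := F ×ˢ Ico 0 (2 * Real.pi) with hD
  have hDm : MeasurableSet D := hF.meas.prod measurableSet_Ico
  have hCm : MeasurableSet C := hC.measurableSet
  -- the functions
  set ψ : P.G × ℤ → ℂ × ℝ → ℝ≥0∞ := fun p w =>
    C.indicator (1 : ℂ × ℝ → ℝ≥0∞) (int2_T' P p.1 p.2 w) * D.indicator Q w with hψ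
  have hψm : ∀ p, Measurable (ψ p) := fun p =>
    ((measurable_one.indicator hCm).comp (int2_T'_meas P p.1 p.2)).mul (hQ.indicator hDm)
  have h1 : ∀ᵐ v ∂P.m, C.indicator Q v ≤ ∑' p : P.G × ℤ, ψ p (int2_T P p.1 p.2 v) := by
    filter_upwards [int2_exists P F hF, int2_ae_S P] with v hv hvS
    obtain ⟨g, k, hgk⟩ := hv
    refine le_trans (le_of_eq ?_) (ENNReal.le_tsum (g, k))
    simp only [hψ]
    rw [int2_T'_T P g k hvS, indicator_of_mem hgk, int2_Q hi g k hvS]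
    by_cases hvC : v ∈ C
    · rw [indicator_of_mem hvC, indicator_of_mem hvC]
      simp
    · rw [indicator_of_notMem hvC, indicator_of_notMem hvC, zero_mul]
  have h2 : ∫⁻ v in C, Q v ∂P.m ≤ ∑' p : P.G × ℤ, ∫⁻ w, ψ p w ∂P.m := by
    calc ∫⁻ v in C, Q v ∂P.m = ∫⁻ v, C.indicator Q v ∂P.m := (lintegral_indicator hCm _).symm
      _ ≤ ∫⁻ v, ∑' p : P.G × ℤ, ψ p (int2_T P p.1 p.2 v) ∂P.m := lintegral_mono_ae h1
      _ = ∑' p : P.G × ℤ, ∫⁻ v, ψ p (int2_T P p.1 p.2 v) ∂P.m :=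
          lintegral_tsum fun p =>
            ((hψm p).comp (int2_T_mp P p.1 p.2).measurable).aemeasurable
      _ = ∑' p : P.G × ℤ, ∫⁻ w, ψ p w ∂P.m := by
          refine tsum_congr fun p => ?_
          exact (int2_T_mp P p.1 p.2).lintegral_comp (hψm p)
  refine h2.trans ?_
  rw [← lintegral_tsum fun p => (hψm p).aemeasurable, ← lintegral_indicator hDm,
    ← lintegral_const_mul _ (hQ.indicator hDm)]
  refine lintegral_mono_ae ?_
  filter_upwards [int2_ae_S P] with w hw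
  simp only [hψ]
  rw [ENNReal.tsum_mul_right]
  exact mul_le_mul' (hn w hw) le_rfl

end

end Pool.Agent.EQ

namespace Pool.Agent.EQ

open MeasureTheory Filter Topology Set
open scoped ContDiff ENNReal

noncomputable section

theorem int_compact (P : Pres) (F : Set ℂ) (hF : P.IsFund F) (C : Set (ℂ × ℝ)) (hC : IsCompact C)
    (hCS : C ⊆ P.S) : ∃ n : ℕ, ∀ Q : ℂ × ℝ → ℝ≥0∞, Measurable Q → P.IsInv Q →
      ∫⁻ v in C, Q v ∂P.m ≤ n * ∫⁻ v in F ×ˢ Ico 0 (2 * Real.pi), Q v ∂P.m := by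
  first
    | exact int_compact_pr ..
    | (apply int_compact_pr <;> assumption)

end

end Pool.Agent.EQ

end

/-! ## Lib_helper71.EQ.D.GF -/

section

set_option autoImplicit false

/-! Project EQ, package D, block GF. (The invariance of the curvature is taken from helper37's
block BD, the continuity lemmas from helper35's block GM.) -/

namespace Pool.Agent.EQ

open MeasureTheory Filter Topology Set
open scoped ContDiff ENNReal

noncomputable section

theorem GF_hasDerivAt (P : Pres) (g : P.G) (z : ℂ) (hz : z ∈ P.Ω) :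
    HasDerivAt (P.act g) (deriv (P.act g) z) z :=
  ((P.holo g).differentiableAt (P.isOpen.mem_nhds hz)).hasDerivAt

theorem GF_deriv_ne (P : Pres) (g : P.G) (z : ℂ) (hz : z ∈ P.Ω) : deriv (P.act g) z ≠ 0 := by
  have h1 := GF_hasDerivAt P g z hz
  have h2 := GF_hasDerivAt P g⁻¹ (P.act g z) (P.act_mem g z hz)
  have h3 := h2.comp z h1
  have h4 : (P.act g⁻¹ ∘ P.act g) =ᶠ[𝓝 z] id := by
    filter_upwards [P.isOpen.mem_nhds hz] with w hw
    simp only [Function.comp, id]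
    rw [← P.act_mul g⁻¹ g w hw, inv_mul_cancel, P.act_one w hw]
  have h5 := h3.congr_of_eventuallyEq h4.symm
  have h6 := h5.unique (hasDerivAt_id z)
  intro h0
  rw [h0, mul_zero] at h6
  exact zero_ne_one h6

theorem GF_norm (P : Pres) (g : P.G) (z : ℂ) (hz : z ∈ P.Ω) :
    Real.exp (-P.u z) * ‖deriv (P.act g) z‖ = Real.exp (-P.u (P.act g z)) := by
  have h0 : 0 < ‖deriv (P.act g) z‖ := norm_pos_iff.mpr (GF_deriv_ne P g z hz)
  have h1 := P.isom g z hz
  nth_rewrite 1 [← Real.exp_log h0]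
  rw [← Real.exp_add]
  congr 1; linarith

theorem GF_contDiffAt_u (P : Pres) (z : ℂ) (hz : z ∈ P.Ω) : ContDiffAt ℝ ∞ P.u z :=
  P.smooth.contDiffAt (P.isOpen.mem_nhds hz)

theorem GF_cd_fderiv (f : ℂ → ℝ) (z : ℂ) (c : ℂ) (hf : ContDiffAt ℝ ∞ f z) :
    ContDiffAt ℝ ∞ (fun w => fderiv ℝ f w c) z :=
  (hf.fderiv_right (m := ∞) (by norm_cast)).clm_apply contDiffAt_const

theorem GF_cd_lap (f : ℂ → ℝ) (z : ℂ) (hf : ContDiffAt ℝ ∞ f z) : ContDiffAt ℝ ∞ (lap f) z :=
  (GF_cd_fderiv _ z 1 (GF_cd_fderiv f z 1 hf)).add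
    (GF_cd_fderiv _ z Complex.I (GF_cd_fderiv f z Complex.I hf))

theorem GF_cd_kk (P : Pres) (z : ℂ) (hz : z ∈ P.Ω) : ContDiffAt ℝ ∞ (kk P.u) z :=
  ((contDiffAt_const.mul (GF_contDiffAt_u P z hz)).exp).mul (GF_cd_lap _ z (GF_contDiffAt_u P z hz))

theorem GF_lap_eq (f : ℂ → ℝ) (z : ℂ) (hf : ContDiffAt ℝ 2 f z) :
    lap f z = Laplacian.laplacian f z := by
  have hd : DifferentiableAt ℝ (fderiv ℝ f) z :=
    (hf.fderiv_right (m := 1) (by norm_num)).differentiableAt (by norm_num)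
  rw [InnerProductSpace.laplacian_eq_iteratedFDeriv_complexPlane]
  simp only [iteratedFDeriv_two_apply]
  unfold lap dx dy
  rw [fderiv_clm_apply hd (differentiableAt_const _), fderiv_clm_apply hd (differentiableAt_const _)]
  simp

theorem GF_alg (B : ℂ →L[ℝ] ℂ →L[ℝ] ℝ) (a : ℂ) :
    B a a + B (a * Complex.I) (a * Complex.I) = ‖a‖ ^ 2 * (B 1 1 + B Complex.I Complex.I) := by
  have ha : a = (a.re : ℝ) • (1 : ℂ) + (a.im : ℝ) • Complex.I := by
    apply Complex.ext <;> simp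
  have hb : a * Complex.I = (-a.im : ℝ) • (1 : ℂ) + (a.re : ℝ) • Complex.I := by
    apply Complex.ext <;> simp
  have hn : ‖a‖ ^ 2 = a.re * a.re + a.im * a.im := by
    rw [← Complex.normSq_eq_norm_sq, Complex.normSq_apply]
  rw [hb, hn]
  nth_rewrite 1 [ha]
  nth_rewrite 3 [ha]
  simp only [map_add, map_smul, ContinuousLinearMap.add_apply, ContinuousLinearMap.smul_apply,
    smul_eq_mul]
  ring

theorem GF_lap_comp (P : Pres) (g : P.G) (z : ℂ) (hz : z ∈ P.Ω) (f : ℂ → ℝ)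
    (hf : ContDiffOn ℝ ∞ f P.Ω) :
    lap (fun w => f (P.act g w)) z = ‖deriv (P.act g) z‖ ^ 2 * lap f (P.act g z) := by
  have hfd : ∀ w ∈ P.Ω, HasFDerivAt (P.act g) (deriv (P.act g) w • (1 : ℂ →L[ℝ] ℂ)) w := fun w hw =>
    (GF_hasDerivAt P g w hw).complexToReal_fderiv
  have hfw : ∀ w ∈ P.Ω, ContDiffAt ℝ ∞ f w := fun w hw => hf.contDiffAt (P.isOpen.mem_nhds hw)
  have hF : ∀ w ∈ P.Ω, ∀ c : ℂ, fderiv ℝ (fun w => f (P.act g w)) w c
      = fderiv ℝ f (P.act g w) (deriv (P.act g) w * c) := by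
    intro w hw c
    have h1 : HasFDerivAt f (fderiv ℝ f (P.act g w)) (P.act g w) :=
      ((hfw _ (P.act_mem g w hw)).differentiableAt (by norm_num)).hasFDerivAt
    have h2 := h1.comp w (hfd w hw)
    rw [HasFDerivAt.fderiv (f := fun w => f (P.act g w)) h2]
    simp
  have hg2 : HasFDerivAt (deriv (P.act g)) (deriv (deriv (P.act g)) z • (1 : ℂ →L[ℝ] ℂ)) z := by
    have h1 : AnalyticAt ℂ (P.act g) z := (P.holo g).analyticAt (P.isOpen.mem_nhds hz)
    exact (h1.deriv.differentiableAt.hasDerivAt).complexToReal_fderiv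
  have hD2 : HasFDerivAt (fderiv ℝ f) (fderiv ℝ (fderiv ℝ f) (P.act g z)) (P.act g z) := by
    have h1 := (hfw _ (P.act_mem g z hz)).fderiv_right (m := 1) (by norm_cast)
    exact (h1.differentiableAt (by norm_num)).hasFDerivAt
  have hc2 := hD2.comp z (hfd z hz)
  have hsec : ∀ c : ℂ, fderiv ℝ (fun w => fderiv ℝ (fun w => f (P.act g w)) w c) z c
      = fderiv ℝ f (P.act g z) (deriv (deriv (P.act g)) z * c * c)
        + fderiv ℝ (fderiv ℝ f) (P.act g z) (deriv (P.act g) z * c) (deriv (P.act g) z * c) := by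
    intro c
    have he : (fun w => fderiv ℝ (fun w => f (P.act g w)) w c)
        =ᶠ[𝓝 z] fun w => fderiv ℝ f (P.act g w) (deriv (P.act g) w * c) := by
      filter_upwards [P.isOpen.mem_nhds hz] with w hw
      exact hF w hw c
    rw [he.fderiv_eq]
    have hm : HasFDerivAt (fun w => deriv (P.act g) w * c)
        ((deriv (deriv (P.act g)) z * c) • (1 : ℂ →L[ℝ] ℂ)) z := by
      have h1 : AnalyticAt ℂ (P.act g) z := (P.holo g).analyticAt (P.isOpen.mem_nhds hz)
      exact (h1.deriv.differentiableAt.hasDerivAt.mul_const c).complexToReal_fderiv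
    have h3 := hc2.clm_apply hm
    have h4 : HasFDerivAt (fun w => fderiv ℝ f (P.act g w) (deriv (P.act g) w * c)) _ z := h3
    rw [h4.fderiv]
    simp
  unfold lap
  have e1 : dx (dx (fun w => f (P.act g w))) z = _ := hsec 1
  have e2 : dy (dy (fun w => f (P.act g w))) z = _ := hsec Complex.I
  rw [e1, e2]
  have hd : DifferentiableAt ℝ (fderiv ℝ f) (P.act g z) := hD2.differentiableAt
  have e3 : dx (dx f) (P.act g z) = fderiv ℝ (fderiv ℝ f) (P.act g z) 1 1 := by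
    unfold dx
    rw [fderiv_clm_apply hd (differentiableAt_const _)]; simp
  have e4 : dy (dy f) (P.act g z) = fderiv ℝ (fderiv ℝ f) (P.act g z) Complex.I Complex.I := by
    unfold dy
    rw [fderiv_clm_apply hd (differentiableAt_const _)]; simp
  rw [e3, e4, ← GF_alg]
  have e5 : deriv (deriv (P.act g)) z * Complex.I * Complex.I = -deriv (deriv (P.act g)) z := by
    rw [mul_assoc, Complex.I_mul_I]; ring
  rw [e5, map_neg]
  simp only [mul_one]
  ring

theorem GF_kk_inv (P : Pres) (g : P.G) (z : ℂ) (hz : z ∈ P.Ω) :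
    kk P.u (P.act g z) = kk P.u z := by
  have hcd : ∀ w ∈ P.Ω, ContDiffAt ℝ 2 P.u w := fun w hw => (GF_contDiffAt_u P w hw).of_le (by norm_cast)
  have han : AnalyticAt ℂ (P.act g) z := (P.holo g).analyticAt (P.isOpen.mem_nhds hz)
  have hcg : ContDiffAt ℝ ∞ (P.act g) z := han.restrictScalars.contDiffAt
  have hcF : ContDiffAt ℝ 2 (fun w => P.u (P.act g w)) z :=
    ContDiffAt.comp z (hcd _ (P.act_mem g z hz)) (hcg.of_le (by norm_cast))
  have hharm := AnalyticAt.harmonicAt_log_norm han.deriv (GF_deriv_ne P g z hz)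
  have h1 : ((fun w => P.u (P.act g w)) + (fun w => Real.log ‖deriv (P.act g) w‖)) =ᶠ[𝓝 z] P.u := by
    filter_upwards [P.isOpen.mem_nhds hz] with w hw
    exact P.isom g w hw
  have h2 : lap P.u z = lap (fun w => P.u (P.act g w)) z := by
    rw [GF_lap_eq _ z (hcd z hz), ← (InnerProductSpace.laplacian_congr_nhds h1).eq_of_nhds,
      hcF.laplacian_add hharm.1, hharm.2.eq_of_nhds, GF_lap_eq _ z hcF]
    simp
  rw [GF_lap_comp P g z hz P.u P.smooth] at h2
  unfold kk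
  rw [h2]
  have h3 := GF_norm P g z hz
  have h4 : Real.exp (-2 * P.u (P.act g z)) = Real.exp (-2 * P.u z) * ‖deriv (P.act g) z‖ ^ 2 := by
    have e1 : Real.exp (-2 * P.u (P.act g z)) = Real.exp (-P.u (P.act g z)) ^ 2 := by
      rw [← Real.exp_nat_mul]; congr 1; push_cast; ring
    have e2 : Real.exp (-2 * P.u z) = Real.exp (-P.u z) ^ 2 := by
      rw [← Real.exp_nat_mul]; congr 1; push_cast; ring
    rw [e1, e2, ← h3]; ring
  rw [h4]; ring

theorem GF_dx {f : ℂ → ℝ} {s : Set ℂ} (hs : IsOpen s) (hf : ContDiffOn ℝ ∞ f s) :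
    ContDiffOn ℝ ∞ (dx f) s ∧ ContDiffOn ℝ ∞ (dy f) s := by
  have h1 : ContDiffOn ℝ ∞ (fderiv ℝ f) s := hf.fderiv_of_isOpen hs (by simp)
  exact ⟨h1.clm_apply contDiffOn_const, h1.clm_apply contDiffOn_const⟩

theorem GF_kk (P : Pres) : ContinuousOn (kk P.u) P.Ω := by
  have h1 := GF_dx P.isOpen P.smooth
  have h2 := (GF_dx P.isOpen h1.1).1
  have h3 := (GF_dx P.isOpen h1.2).2
  unfold kk lap
  refine ContinuousOn.mul ?_ (h2.continuousOn.add h3.continuousOn)
  exact Real.continuous_exp.comp_continuousOn (continuousOn_const.mul P.smooth.continuousOn)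

theorem GF_S_open (P : Pres) : IsOpen P.S := P.isOpen.prod isOpen_univ

/-- the flow on the subtype -/
def GF_flow {P : Pres} (Φ : GFlow P) (p : ℝ × P.S) : P.S :=
  ⟨Φ.φ p.1 p.2.1, Φ.mem _ _ p.2.2⟩

theorem GF_flow_cont {P : Pres} (Φ : GFlow P) : Continuous (GF_flow Φ) := by
  refine Continuous.subtype_mk ?_ _
  exact Φ.smooth.continuousOn.comp_continuous
    (f := fun p : ℝ × P.S => (p.1, p.2.1)) (by fun_prop) (fun p => ⟨mem_univ _, p.2.2⟩)

theorem GF_K {P : Pres} : Continuous (fun w : P.S => kk P.u w.1.1) :=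
  (GF_kk P).comp_continuous (by fun_prop) (fun w => w.2.1)

theorem GF_U {P : Pres} (Φ : GFlow P) (κ ℓ : ℝ) : Continuous (fun w : P.S => Φ.U κ ℓ w.1) := by
  unfold GFlow.U
  refine continuous_const.mul ?_
  have hf : Continuous (Function.uncurry
      (fun (w : P.S) (s : ℝ) => max (kk P.u (Φ.φ s w.1).1 - ℓ) 0)) := by
    have h1 : Continuous (fun p : P.S × ℝ => kk P.u (GF_flow Φ (p.2, p.1)).1.1) :=
      GF_K.comp ((GF_flow_cont Φ).comp (continuous_snd.prodMk continuous_fst))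
    exact (h1.sub continuous_const).max continuous_const
  exact intervalIntegral.continuous_parametric_intervalIntegral_of_continuous' hf 0 1

theorem GF_Sa {P : Pres} (Φ : GFlow P) (κ ℓ : ℝ) :
    Continuous (fun p : P.S × ℝ => Φ.Sa κ ℓ p.2 p.1.1) := by
  have : LocallyCompactSpace P.S := (GF_S_open P).locallyCompactSpace
  unfold GFlow.Sa
  have hf : Continuous (Function.uncurry
      (fun (w : P.S) (s : ℝ) => Φ.U κ ℓ (Φ.φ s w.1))) :=
    (GF_U Φ κ ℓ).comp ((GF_flow_cont Φ).comp (continuous_snd.prodMk continuous_fst))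
  exact intervalIntegral.continuous_parametric_primitive_of_continuous hf

/-! ### the orbit integrals -/

theorem GF_U_cont {P : Pres} (Φ : GFlow P) (κ ℓ : ℝ) {v : ℂ × ℝ} (hv : v ∈ P.S) :
    Continuous (fun s => Φ.U κ ℓ (Φ.φ s v)) :=
  (GF_U Φ κ ℓ).comp ((GF_flow_cont Φ).comp (continuous_id.prodMk
    (continuous_const (y := (⟨v, hv⟩ : P.S)))))

theorem GF_U_nonneg {P : Pres} (Φ : GFlow P) (κ ℓ : ℝ) (v : ℂ × ℝ) : 0 ≤ Φ.U κ ℓ v := by
  unfold GFlow.U
  refine mul_nonneg (Real.exp_pos _).le ?_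
  exact intervalIntegral.integral_nonneg zero_le_one fun s _ => le_max_right _ _

theorem GF_Sa_nonneg {P : Pres} (Φ : GFlow P) (κ ℓ : ℝ) {a : ℝ} (ha : 0 ≤ a) (v : ℂ × ℝ) :
    0 ≤ Φ.Sa κ ℓ a v :=
  intervalIntegral.integral_nonneg ha fun s _ => GF_U_nonneg Φ κ ℓ _

theorem GF_Sa_add {P : Pres} (Φ : GFlow P) (κ ℓ a : ℝ) {v : ℂ × ℝ} (hv : v ∈ P.S) :
    Φ.Sa κ ℓ (a + 1) v = Φ.Sa κ ℓ 1 v + Φ.Sa κ ℓ a (Φ.φ 1 v) := by
  have hc := GF_U_cont Φ κ ℓ hv
  unfold GFlow.Sa
  rw [← intervalIntegral.integral_add_adjacent_intervals (hc.intervalIntegrable 0 1)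
    (hc.intervalIntegrable 1 (a + 1))]
  congr 1
  have h1 := intervalIntegral.integral_comp_add_right (a := 0) (b := a)
    (fun s => Φ.U κ ℓ (Φ.φ s v)) 1
  rw [zero_add] at h1
  rw [← h1]
  refine intervalIntegral.integral_congr fun s _ => ?_
  simp only [Φ.add]

/-! ### invariance -/

theorem GF_per {P : Pres} (Φ : GFlow P) (s : ℝ) (v : ℂ × ℝ) (hv : v ∈ P.S) :
    (Φ.φ s (v.1, v.2 + 2 * Real.pi)).1 = (Φ.φ s v).1 := by
  rw [Φ.per s v hv]

theorem GF_equiv {P : Pres} (Φ : GFlow P) (g : P.G) (s : ℝ) (v : ℂ × ℝ) (hv : v ∈ P.S) :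
    (Φ.φ s (P.actS g v)).1 = P.act g (Φ.φ s v).1 := by
  obtain ⟨n, hn⟩ := Φ.equiv g s v hv
  rw [hn]
  rfl

/-- the data which enter in `U`, `Sa` depend only on the curvature along the orbit -/
theorem GF_Sa_congr {P : Pres} (Φ : GFlow P) (κ ℓ a : ℝ) {v w : ℂ × ℝ}
    (h : ∀ s, kk P.u (Φ.φ s w).1 = kk P.u (Φ.φ s v).1) : Φ.Sa κ ℓ a w = Φ.Sa κ ℓ a v := by
  unfold GFlow.Sa GFlow.U
  refine intervalIntegral.integral_congr fun s _ => ?_
  refine congrArg (fun x => Real.exp (-κ - 1) * x) ?_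
  refine intervalIntegral.integral_congr fun t _ => ?_
  simp only [← Φ.add, h]

/-! ### the functions `G_l` -/

/-- `G_l(v) = int_0^infinity exp(-l a - S_a(v)/2) da` -/
def GFG {P : Pres} (Φ : GFlow P) (κ ℓ l : ℝ) (v : ℂ × ℝ) : ℝ≥0∞ :=
  ∫⁻ a in Ioi (0 : ℝ), ENNReal.ofReal (Real.exp (-(l * a) - Φ.Sa κ ℓ a v / 2))

theorem GFG_zero {P : Pres} (Φ : GFlow P) (κ ℓ : ℝ) (v : ℂ × ℝ) :
    GFG Φ κ ℓ 0 v = Φ.gg κ ℓ v := by
  unfold GFG GFlow.gg
  refine lintegral_congr fun a => ?_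
  congr 2
  ring

theorem GFG_meas {P : Pres} (Φ : GFlow P) (κ ℓ l : ℝ) :
    Measurable (P.S.indicator (GFG Φ κ ℓ l)) := by
  have hS : MeasurableSet P.S := (GF_S_open P).measurableSet
  refine measurable_of_restrict_of_restrict_compl hS ?_ ?_
  · have h0 : P.S.domRestrict (P.S.indicator (GFG Φ κ ℓ l)) = fun v : P.S => GFG Φ κ ℓ l v.1 := by
      funext v
      simp [Set.domRestrict]
    rw [h0]
    have h1 : Measurable (Function.uncurry (fun (v : P.S) (a : ℝ) =>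
        ENNReal.ofReal (Real.exp (-(l * a) - Φ.Sa κ ℓ a v.1 / 2)))) := by
      apply Continuous.measurable
      refine ENNReal.continuous_ofReal.comp (Real.continuous_exp.comp ?_)
      exact ((continuous_const.mul continuous_snd).neg).sub ((GF_Sa Φ κ ℓ).div_const 2)
    exact h1.lintegral_prod_right (ν := volume.restrict (Ioi (0 : ℝ)))
  · have h0 : P.Sᶜ.domRestrict (P.S.indicator (GFG Φ κ ℓ l)) = fun _ => 0 := by
      funext v
      have hv : v.1 ∉ P.S := v.2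
      simp [Set.domRestrict, Set.indicator_of_notMem hv]
    rw [h0]
    exact measurable_const

theorem GFG_congr {P : Pres} (Φ : GFlow P) (κ ℓ l : ℝ) {v w : ℂ × ℝ}
    (h : ∀ s, kk P.u (Φ.φ s w).1 = kk P.u (Φ.φ s v).1) : GFG Φ κ ℓ l w = GFG Φ κ ℓ l v := by
  unfold GFG
  refine lintegral_congr fun a => ?_
  rw [GF_Sa_congr Φ κ ℓ a h]

theorem GFG_lt_top {P : Pres} (Φ : GFlow P) (κ ℓ : ℝ) {l : ℝ} (hl : 0 < l) :
    ∃ c : ℝ≥0∞, c < ⊤ ∧ ∀ v, GFG Φ κ ℓ l v ≤ c := by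
  refine ⟨∫⁻ a in Ioi (0 : ℝ), ENNReal.ofReal (Real.exp (-l * a)),
    (exp_neg_integrableOn_Ioi 0 hl).lintegral_lt_top, fun v => ?_⟩
  refine setLIntegral_mono' measurableSet_Ioi fun a ha => ?_
  refine ENNReal.ofReal_le_ofReal (Real.exp_le_exp.2 ?_)
  have := GF_Sa_nonneg Φ κ ℓ (le_of_lt (mem_Ioi.1 ha)) v
  linarith

theorem GFG_step {P : Pres} (Φ : GFlow P) (κ ℓ : ℝ) {l : ℝ} (hl : 0 ≤ l) {v : ℂ × ℝ}
    (hv : v ∈ P.S) : GFG Φ κ ℓ l v ≤
      1 + ENNReal.ofReal (Real.exp (-l - Φ.Sa κ ℓ 1 v / 2)) * GFG Φ κ ℓ l (Φ.φ 1 v) := by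
  have hsplit : Ioi (0 : ℝ) = Ioc 0 1 ∪ Ioi 1 := (Ioc_union_Ioi_eq_Ioi zero_le_one).symm
  unfold GFG
  conv_lhs => rw [hsplit]
  refine (lintegral_union_le _ _ _).trans ?_
  refine add_le_add ?_ ?_
  · calc ∫⁻ a in Ioc (0 : ℝ) 1, ENNReal.ofReal (Real.exp (-(l * a) - Φ.Sa κ ℓ a v / 2))
        ≤ ∫⁻ _ in Ioc (0 : ℝ) 1, 1 := by
          refine setLIntegral_mono' measurableSet_Ioc fun a ha => ?_
          have h1 := GF_Sa_nonneg Φ κ ℓ ha.1.le v
          have h2 : 0 ≤ l * a := mul_nonneg hl ha.1.le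
          rw [← ENNReal.ofReal_one]
          refine ENNReal.ofReal_le_ofReal (Real.exp_le_one_iff.2 ?_)
          linarith
      _ = 1 := by simp
  · have e : ∫⁻ a in Ioi (1 : ℝ), ENNReal.ofReal (Real.exp (-(l * a) - Φ.Sa κ ℓ a v / 2)) =
        ∫⁻ a in Ioi (0 : ℝ), ENNReal.ofReal (Real.exp (-(l * (a + 1)) -
          Φ.Sa κ ℓ (a + 1) v / 2)) := by
      rw [← lintegral_indicator measurableSet_Ioi, ← lintegral_indicator measurableSet_Ioi,
        ← lintegral_add_right_eq_self _ (1 : ℝ)]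
      refine lintegral_congr fun a => ?_
      by_cases ha : 0 < a
      · rw [indicator_of_mem (by simpa using ha), indicator_of_mem (by simpa using ha)]
      · rw [indicator_of_notMem (by simpa using ha), indicator_of_notMem (by simpa using ha)]
    rw [e, ← lintegral_const_mul']
    · refine le_of_eq (lintegral_congr fun a => ?_)
      rw [← ENNReal.ofReal_mul (Real.exp_pos _).le, ← Real.exp_add, GF_Sa_add Φ κ ℓ a hv]
      congr 2
      ring
    · exact ENNReal.ofReal_ne_top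

theorem GF_kk_flow {P : Pres} (Φ : GFlow P) (g : P.G) {v : ℂ × ℝ} (hv : v ∈ P.S) (s : ℝ) :
    kk P.u (Φ.φ s (P.actS g v)).1 = kk P.u (Φ.φ s v).1 := by
  rw [GF_equiv Φ g s v hv]
  exact GF_kk_inv P g _ (Φ.mem s v hv).1

theorem GFG_inv {P : Pres} (Φ : GFlow P) (κ ℓ l : ℝ) :
    P.IsInv (P.S.indicator (GFG Φ κ ℓ l)) := by
  constructor
  · intro v hv
    have hv' : (v.1, v.2 + 2 * Real.pi) ∈ P.S := ⟨hv.1, mem_univ _⟩
    rw [indicator_of_mem hv', indicator_of_mem hv]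
    exact GFG_congr Φ κ ℓ l fun s => by rw [GF_per Φ s v hv]
  · intro g v hv
    have hv' : P.actS g v ∈ P.S := ⟨P.act_mem g _ hv.1, mem_univ _⟩
    rw [indicator_of_mem hv', indicator_of_mem hv]
    exact GFG_congr Φ κ ℓ l fun s => GF_kk_flow Φ g hv s

theorem GFG_anti {P : Pres} (Φ : GFlow P) (κ ℓ : ℝ) {l l' : ℝ} (h : l ≤ l') (v : ℂ × ℝ) :
    GFG Φ κ ℓ l' v ≤ GFG Φ κ ℓ l v := by
  refine setLIntegral_mono' measurableSet_Ioi fun a ha => ?_
  refine ENNReal.ofReal_le_ofReal (Real.exp_le_exp.2 ?_)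
  have := mul_le_mul_of_nonneg_right h (le_of_lt (mem_Ioi.1 ha))
  linarith

theorem GF_Sa_meas {P : Pres} (Φ : GFlow P) (κ ℓ : ℝ) :
    Measurable (P.S.indicator (Φ.Sa κ ℓ 1)) := by
  have hS : MeasurableSet P.S := (GF_S_open P).measurableSet
  refine measurable_of_restrict_of_restrict_compl hS ?_ ?_
  · have h0 : P.S.domRestrict (P.S.indicator (Φ.Sa κ ℓ 1)) = fun v : P.S => Φ.Sa κ ℓ 1 v.1 := by
      funext v
      simp [Set.domRestrict]
    rw [h0]
    exact ((GF_Sa Φ κ ℓ).comp (continuous_id.prodMk continuous_const)).measurable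
  · have h0 : P.Sᶜ.domRestrict (P.S.indicator (Φ.Sa κ ℓ 1)) = fun _ => 0 := by
      funext v
      have hv : v.1 ∉ P.S := v.2
      simp [Set.domRestrict, Set.indicator_of_notMem hv]
    rw [h0]
    exact measurable_const

theorem GFG_tendsto {P : Pres} (Φ : GFlow P) (κ ℓ : ℝ) {v : ℂ × ℝ} (hv : v ∈ P.S) :
    Tendsto (fun n : ℕ => GFG Φ κ ℓ (1 / ((n : ℝ) + 1)) v) atTop (𝓝 (GFG Φ κ ℓ 0 v)) := by
  have hSc : Continuous (fun a : ℝ => Φ.Sa κ ℓ a v) :=
    (GF_Sa Φ κ ℓ).comp ((continuous_const (y := (⟨v, hv⟩ : P.S))).prodMk continuous_id)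
  refine lintegral_tendsto_of_tendsto_of_monotone ?_ ?_ ?_
  · intro n
    refine Continuous.aemeasurable ?_
    exact ENNReal.continuous_ofReal.comp (Real.continuous_exp.comp
      (((continuous_const.mul continuous_id).neg).sub (hSc.div_const 2)))
  · filter_upwards [ae_restrict_mem measurableSet_Ioi] with a ha n m hnm
    refine ENNReal.ofReal_le_ofReal (Real.exp_le_exp.2 ?_)
    have h1 : 1 / ((m : ℝ) + 1) ≤ 1 / ((n : ℝ) + 1) := by
      refine one_div_le_one_div_of_le (by positivity) ?_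
      have : (n : ℝ) ≤ m := by exact_mod_cast hnm
      linarith
    have := mul_le_mul_of_nonneg_right h1 (le_of_lt (mem_Ioi.1 ha))
    linarith
  · refine Filter.Eventually.of_forall fun a => ?_
    refine (ENNReal.continuous_ofReal.tendsto _).comp ((Real.continuous_exp.tendsto _).comp ?_)
    refine Tendsto.sub ?_ tendsto_const_nhds
    refine Tendsto.neg ?_
    exact (tendsto_one_div_add_atTop_nhds_zero_nat (𝕜 := ℝ)).mul_const a

theorem GF_mass (P : Pres) {F K : Set ℂ} (hFK : F ⊆ K) (hK : IsCompact K) (hKΩ : K ⊆ P.Ω) :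
    P.m (F ×ˢ Ico 0 (2 * Real.pi)) < ⊤ := by
  have hKc : IsCompact (K ×ˢ Icc (0 : ℝ) (2 * Real.pi)) := hK.prod isCompact_Icc
  have hKm : MeasurableSet (K ×ˢ Icc (0 : ℝ) (2 * Real.pi)) := hKc.measurableSet
  obtain ⟨M, hM⟩ := hK.exists_bound_of_continuousOn
    (P.smooth.continuousOn.mono hKΩ)
  have h1 : P.m (F ×ˢ Ico 0 (2 * Real.pi)) ≤ P.m (K ×ˢ Icc (0 : ℝ) (2 * Real.pi)) :=
    measure_mono (prod_mono hFK Ico_subset_Icc_self)
  refine h1.trans_lt ?_
  rw [Pres.m, withDensity_apply _ hKm]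
  calc ∫⁻ v in K ×ˢ Icc (0 : ℝ) (2 * Real.pi), ENNReal.ofReal (Real.exp (2 * P.u v.1))
        ∂((volume : Measure (ℂ × ℝ)).restrict P.S)
      ≤ ∫⁻ _ in K ×ˢ Icc (0 : ℝ) (2 * Real.pi), ENNReal.ofReal (Real.exp (2 * M))
        ∂((volume : Measure (ℂ × ℝ)).restrict P.S) := by
        refine setLIntegral_mono' hKm fun v hv => ?_
        refine ENNReal.ofReal_le_ofReal (Real.exp_le_exp.2 ?_)
        have := (le_abs_self _).trans (hM v.1 hv.1)
        linarith
    _ = ENNReal.ofReal (Real.exp (2 * M)) *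
        ((volume : Measure (ℂ × ℝ)).restrict P.S) (K ×ˢ Icc (0 : ℝ) (2 * Real.pi)) := by
        rw [setLIntegral_const]
    _ ≤ ENNReal.ofReal (Real.exp (2 * M)) *
        (volume : Measure (ℂ × ℝ)) (K ×ˢ Icc (0 : ℝ) (2 * Real.pi)) := by
        gcongr
        exact Measure.restrict_le_self
    _ < ⊤ := ENNReal.mul_lt_top ENNReal.ofReal_lt_top hKc.measure_lt_top

/-- the key integral bound -/
theorem GF_key (P : Pres) (Φ : GFlow P) (κ ℓ : ℝ) {F : Set ℂ} (hF : P.IsFund F)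
    (hmass : P.m (F ×ˢ Ico 0 (2 * Real.pi)) < ⊤) :
    ∫⁻ v in F ×ˢ Ico 0 (2 * Real.pi),
      (1 - ENNReal.ofReal (Real.exp (-(P.S.indicator (Φ.Sa κ ℓ 1) v) / 2))) *
        P.S.indicator (GFG Φ κ ℓ 0) (Φ.φ 1 v) ∂P.m ≤ P.m (F ×ˢ Ico 0 (2 * Real.pi)) := by
  set Q0 : Set (ℂ × ℝ) := F ×ˢ Ico 0 (2 * Real.pi) with hQ0
  have hQ0m : MeasurableSet Q0 := hF.meas.prod measurableSet_Ico
  have hQ0S : ∀ v ∈ Q0, v ∈ P.S := fun v hv => ⟨hF.sub hv.1, mem_univ _⟩
  set e : ℂ × ℝ → ℝ≥0∞ :=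
    fun v => ENNReal.ofReal (Real.exp (-(P.S.indicator (Φ.Sa κ ℓ 1) v) / 2)) with he
  have hem : Measurable e := by
    refine Measurable.ennreal_ofReal (Real.measurable_exp.comp ?_)
    exact ((GF_Sa_meas Φ κ ℓ).neg).div_const 2
  have he1 : ∀ v, e v ≤ 1 := by
    intro v
    rw [he, ← ENNReal.ofReal_one]
    refine ENNReal.ofReal_le_ofReal (Real.exp_le_one_iff.2 ?_)
    have : 0 ≤ P.S.indicator (Φ.Sa κ ℓ 1) v :=
      indicator_nonneg (fun w _ => GF_Sa_nonneg Φ κ ℓ zero_le_one w) v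
    linarith
  have hφm : Measurable (Φ.φ 1) := by
    have h1 : ContinuousOn (Φ.φ 1) P.S := by
      have h2 := Φ.smooth.continuousOn.comp (s := P.S) (f := fun v : ℂ × ℝ => ((1 : ℝ), v))
        (by fun_prop) (fun v hv => ⟨mem_univ _, hv⟩)
      exact h2
    have h3 : ContinuousOn (Φ.φ 1) P.Sᶜ := continuousOn_id.congr fun v hv => Φ.out 1 v hv
    classical
    have h4 := h1.measurable_piecewise h3 (GF_S_open P).measurableSet
    rwa [Set.piecewise_same] at h4
  -- the bound for every positive l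
  have hstep : ∀ l : ℝ, 0 < l → ∫⁻ v in Q0, (1 - e v) * P.S.indicator (GFG Φ κ ℓ l) (Φ.φ 1 v) ∂P.m
      ≤ P.m Q0 := by
    intro l hl
    obtain ⟨c, hc, hGc⟩ := GFG_lt_top Φ κ ℓ hl
    have hGm : Measurable (fun v => P.S.indicator (GFG Φ κ ℓ l) (Φ.φ 1 v)) :=
      (GFG_meas Φ κ ℓ l).comp hφm
    have hGle : ∀ v, P.S.indicator (GFG Φ κ ℓ l) v ≤ c := by
      intro v
      by_cases hv : v ∈ P.S
      · rw [indicator_of_mem hv]
        exact hGc v
      · rw [indicator_of_notMem hv]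
        exact zero_le
    have hinv := inv_int P Φ F hF (P.S.indicator (GFG Φ κ ℓ l)) (GFG_meas Φ κ ℓ l)
      (GFG_inv Φ κ ℓ l) 1
    set I : ℝ≥0∞ := ∫⁻ v in Q0, e v * P.S.indicator (GFG Φ κ ℓ l) (Φ.φ 1 v) ∂P.m with hI
    have hIfin : I ≠ ⊤ := by
      refine ne_of_lt ?_
      calc I ≤ ∫⁻ _ in Q0, 1 * c ∂P.m := by
            refine lintegral_mono fun v => ?_
            exact mul_le_mul' (he1 v) (hGle _)
        _ = c * P.m Q0 := by rw [one_mul, setLIntegral_const]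
        _ < ⊤ := ENNReal.mul_lt_top hc hmass
    have h1 : ∫⁻ v in Q0, (1 - e v) * P.S.indicator (GFG Φ κ ℓ l) (Φ.φ 1 v) ∂P.m + I =
        ∫⁻ v in Q0, P.S.indicator (GFG Φ κ ℓ l) (Φ.φ 1 v) ∂P.m := by
      have hw : Measurable (fun v => (1 - e v) * P.S.indicator (GFG Φ κ ℓ l) (Φ.φ 1 v)) :=
        (measurable_const.sub hem).mul hGm
      rw [hI, ← lintegral_add_left hw]
      refine lintegral_congr fun v => ?_
      rw [← add_mul, tsub_add_cancel_of_le (he1 v), one_mul]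
    have h2 : ∫⁻ v in Q0, P.S.indicator (GFG Φ κ ℓ l) v ∂P.m ≤ P.m Q0 + I := by
      calc ∫⁻ v in Q0, P.S.indicator (GFG Φ κ ℓ l) v ∂P.m
          ≤ ∫⁻ v in Q0, (1 + e v * P.S.indicator (GFG Φ κ ℓ l) (Φ.φ 1 v)) ∂P.m := by
            refine setLIntegral_mono' hQ0m fun v hv => ?_
            have hvS := hQ0S v hv
            rw [indicator_of_mem hvS, indicator_of_mem (Φ.mem 1 v hvS)]
            refine (GFG_step Φ κ ℓ hl.le hvS).trans ?_
            refine add_le_add le_rfl (mul_le_mul' ?_ le_rfl)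
            simp only [he]
            rw [indicator_of_mem hvS]
            refine ENNReal.ofReal_le_ofReal (Real.exp_le_exp.2 ?_)
            linarith
        _ = P.m Q0 + I := by
            rw [lintegral_add_left measurable_const, setLIntegral_const, one_mul]
    rw [← hinv, ← h1] at h2
    exact (ENNReal.add_le_add_iff_right hIfin).1 h2
  -- monotone limit
  have hlim : Tendsto (fun n : ℕ => ∫⁻ v in Q0, (1 - e v) *
      P.S.indicator (GFG Φ κ ℓ (1 / ((n : ℝ) + 1))) (Φ.φ 1 v) ∂P.m) atTop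
      (𝓝 (∫⁻ v in Q0, (1 - e v) * P.S.indicator (GFG Φ κ ℓ 0) (Φ.φ 1 v) ∂P.m)) := by
    refine lintegral_tendsto_of_tendsto_of_monotone ?_ ?_ ?_
    · intro n
      exact ((measurable_const.sub hem).mul ((GFG_meas Φ κ ℓ _).comp hφm)).aemeasurable
    · refine Filter.Eventually.of_forall fun v n m hnm => ?_
      refine mul_le_mul' le_rfl ?_
      refine indicator_le_indicator (GFG_anti Φ κ ℓ ?_ _)
      refine one_div_le_one_div_of_le (by positivity) ?_
      have : (n : ℝ) ≤ m := by exact_mod_cast hnm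
      linarith
    · filter_upwards [ae_restrict_mem hQ0m] with v hv
      have hvS := Φ.mem 1 v (hQ0S v hv)
      simp only [indicator_of_mem hvS]
      refine ENNReal.Tendsto.const_mul (GFG_tendsto Φ κ ℓ hvS) (Or.inr ?_)
      exact ne_of_lt (lt_of_le_of_lt tsub_le_self ENNReal.one_lt_top)
  exact le_of_tendsto' hlim fun n => hstep _ (by positivity)

theorem gg_fin_pr (P : Pres) (Φ : GFlow P) (κ ℓ : ℝ) :
    ∀ᵐ v ∂P.m, 0 < Φ.Sa κ ℓ 1 v → Φ.gg κ ℓ v < ⊤ := by
  obtain ⟨F, K, hF, hFK, hK, hKΩ⟩ := exists_fund P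
  have hmass := GF_mass P hFK hK hKΩ
  have hkey := GF_key P Φ κ ℓ hF hmass
  have hSm : MeasurableSet P.S := (GF_S_open P).measurableSet
  set Q0 : Set (ℂ × ℝ) := F ×ˢ Ico 0 (2 * Real.pi) with hQ0
  have hQ0m : MeasurableSet Q0 := hF.meas.prod measurableSet_Ico
  have hQ0S : ∀ v ∈ Q0, v ∈ P.S := fun v hv => ⟨hF.sub hv.1, mem_univ _⟩
  -- the bad set
  set Bad : Set (ℂ × ℝ) := {v | 0 < P.S.indicator (Φ.Sa κ ℓ 1) v} ∩
    {v | P.S.indicator (GFG Φ κ ℓ 0) v = ⊤} with hBad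
  have hBm : MeasurableSet Bad :=
    (measurableSet_lt measurable_const (GF_Sa_meas Φ κ ℓ)).inter
      ((GFG_meas Φ κ ℓ 0) (measurableSet_singleton ⊤))
  have hBinv : ∀ v w : ℂ × ℝ, v ∈ P.S → w ∈ P.S →
      (∀ s, kk P.u (Φ.φ s w).1 = kk P.u (Φ.φ s v).1) → (w ∈ Bad ↔ v ∈ Bad) := by
    intro v w hv hw h
    simp only [hBad, mem_inter_iff, mem_setOf_eq, indicator_of_mem hv, indicator_of_mem hw,
      GFG_congr Φ κ ℓ 0 h, GF_Sa_congr Φ κ ℓ 1 h]
  have hQinv : P.IsInv (Bad.indicator (1 : ℂ × ℝ → ℝ≥0∞)) := by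
    constructor
    · intro v hv
      have hv' : (v.1, v.2 + 2 * Real.pi) ∈ P.S := ⟨hv.1, mem_univ _⟩
      have h1 := hBinv v _ hv hv' fun s => by rw [GF_per Φ s v hv]
      by_cases hb : v ∈ Bad
      · rw [indicator_of_mem hb, indicator_of_mem (h1.2 hb)]
        rfl
      · rw [indicator_of_notMem hb, indicator_of_notMem fun h => hb (h1.1 h)]
    · intro g v hv
      have hv' : P.actS g v ∈ P.S := ⟨P.act_mem g _ hv.1, mem_univ _⟩
      have h1 := hBinv v _ hv hv' fun s => GF_kk_flow Φ g hv s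
      by_cases hb : v ∈ Bad
      · rw [indicator_of_mem hb, indicator_of_mem (h1.2 hb)]
        rfl
      · rw [indicator_of_notMem hb, indicator_of_notMem fun h => hb (h1.1 h)]
  -- it is null in the fundamental domain
  have hφm : Measurable (Φ.φ 1) := by
    have h1 : ContinuousOn (Φ.φ 1) P.S := by
      have h2 := Φ.smooth.continuousOn.comp (s := P.S) (f := fun v : ℂ × ℝ => ((1 : ℝ), v))
        (by fun_prop) (fun v hv => ⟨mem_univ _, hv⟩)
      exact h2
    have h3 : ContinuousOn (Φ.φ 1) P.Sᶜ := continuousOn_id.congr fun v hv => Φ.out 1 v hv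
    classical
    have h4 := h1.measurable_piecewise h3 hSm
    rwa [Set.piecewise_same] at h4
  have hem : Measurable (fun v => ENNReal.ofReal
      (Real.exp (-(P.S.indicator (Φ.Sa κ ℓ 1) v) / 2))) := by
    refine Measurable.ennreal_ofReal (Real.measurable_exp.comp ?_)
    exact ((GF_Sa_meas Φ κ ℓ).neg).div_const 2
  have hae : ∀ᵐ v ∂(P.m.restrict Q0), v ∉ Bad := by
    have hfm : Measurable (fun v => (1 - ENNReal.ofReal
        (Real.exp (-(P.S.indicator (Φ.Sa κ ℓ 1) v) / 2))) *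
        P.S.indicator (GFG Φ κ ℓ 0) (Φ.φ 1 v)) :=
      (measurable_const.sub hem).mul ((GFG_meas Φ κ ℓ 0).comp hφm)
    have h1 := ae_lt_top hfm (ne_of_lt (hkey.trans_lt hmass))
    filter_upwards [h1, ae_restrict_mem hQ0m] with v hv hvQ hvB
    have hvS := hQ0S v hvQ
    have hφS := Φ.mem 1 v hvS
    obtain ⟨hpos, htop⟩ := hvB
    simp only [mem_setOf_eq, indicator_of_mem hvS] at hpos htop
    simp only [indicator_of_mem hvS, indicator_of_mem hφS] at hv
    have h2 : GFG Φ κ ℓ 0 (Φ.φ 1 v) = ⊤ := by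
      by_contra hne
      have h3 := GFG_step Φ κ ℓ le_rfl hvS
      rw [htop] at h3
      have h4 : (1 : ℝ≥0∞) + ENNReal.ofReal (Real.exp (-0 - Φ.Sa κ ℓ 1 v / 2)) *
          GFG Φ κ ℓ 0 (Φ.φ 1 v) < ⊤ :=
        ENNReal.add_lt_top.2 ⟨ENNReal.one_lt_top, ENNReal.mul_lt_top ENNReal.ofReal_lt_top
          (lt_top_iff_ne_top.2 hne)⟩
      exact absurd (lt_of_le_of_lt h3 h4) (lt_irrefl _)
    rw [h2, ENNReal.mul_top] at hv
    · exact lt_irrefl _ hv
    · rw [← ENNReal.ofReal_one, ← ENNReal.ofReal_sub _ (Real.exp_pos _).le]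
      have h5 : Real.exp (-(Φ.Sa κ ℓ 1 v) / 2) < 1 := by
        rw [Real.exp_lt_one_iff]
        linarith
      exact (ENNReal.ofReal_pos.2 (by linarith)).ne'
  have hnull : ∫⁻ v in Q0, Bad.indicator 1 v ∂P.m = 0 := by
    rw [lintegral_eq_zero_iff (measurable_one.indicator hBm)]
    filter_upwards [hae] with v hv
    rw [indicator_of_notMem hv]
    rfl
  -- it is null in every compact subset of `S`, hence null
  have hcomp : ∀ C : Set (ℂ × ℝ), IsCompact C → C ⊆ P.S → P.m (Bad ∩ C) = 0 := by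
    intro C hC hCS
    obtain ⟨n, hn⟩ := int_compact P F hF C hC hCS
    have h1 := hn (Bad.indicator 1) (measurable_one.indicator hBm) hQinv
    rw [← hQ0, hnull, mul_zero, lintegral_indicator hBm, Measure.restrict_restrict hBm] at h1
    simpa using h1
  have hBnull : P.m Bad = 0 := by
    obtain ⟨E, hE1, hE2, hE3, -⟩ := (GF_S_open P).exists_iUnion_isClosed
    have hsub : Bad ⊆ ⋃ n, ⋃ k : ℕ, Bad ∩ (E n ∩ Metric.closedBall 0 (k : ℝ)) := by
      intro v hv
      have hvS : v ∈ P.S := by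
        by_contra h
        have := hv.1
        simp only [mem_setOf_eq, indicator_of_notMem h] at this
        exact lt_irrefl _ this
      rw [← hE3] at hvS
      obtain ⟨n, hn⟩ := mem_iUnion.1 hvS
      obtain ⟨k, hk⟩ := exists_nat_ge (dist v 0)
      exact mem_iUnion.2 ⟨n, mem_iUnion.2 ⟨k, hv, hn, Metric.mem_closedBall.2 hk⟩⟩
    refine measure_mono_null hsub ?_
    refine measure_iUnion_null fun n => measure_iUnion_null fun k => ?_
    refine hcomp _ ?_ (inter_subset_left.trans (hE2 n))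
    exact (isCompact_closedBall _ _).inter_left (hE1 n)
  have hmS : P.m P.Sᶜ = 0 := by
    rw [Pres.m, withDensity_apply _ hSm.compl, Measure.restrict_restrict hSm.compl]
    simp
  have a1 : ∀ᵐ v ∂P.m, v ∉ Bad := measure_eq_zero_iff_ae_notMem.1 hBnull
  have a2 : ∀ᵐ v ∂P.m, v ∉ P.Sᶜ := measure_eq_zero_iff_ae_notMem.1 hmS
  filter_upwards [a1, a2] with v hv hvS hpos
  have hvS' : v ∈ P.S := by
    by_contra h
    exact hvS h
  rw [← GFG_zero, lt_top_iff_ne_top]
  intro htop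
  apply hv
  refine ⟨?_, ?_⟩
  · simp only [mem_setOf_eq, indicator_of_mem hvS']
    exact hpos
  · simp only [mem_setOf_eq, indicator_of_mem hvS']
    exact htop

end

end Pool.Agent.EQ

namespace Pool.Agent.EQ

open MeasureTheory Filter Topology Set
open scoped ContDiff ENNReal

noncomputable section

theorem gg_fin (P : Pres) (Φ : GFlow P) (κ ℓ : ℝ) :
    ∀ᵐ v ∂P.m, 0 < Φ.Sa κ ℓ 1 v → Φ.gg κ ℓ v < ⊤ := by
  first
    | exact gg_fin_pr ..
    | (apply gg_fin_pr <;> assumption)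

end

end Pool.Agent.EQ

end

/-! ## Lib_helper71.EQ.D.GM -/

section

/-! Project EQ, package D, block GM. -/

set_option autoImplicit false

namespace Pool.Agent.EQ

open MeasureTheory Filter Topology Set
open scoped ContDiff ENNReal

noncomputable section

lemma gm_dx {f : ℂ → ℝ} {s : Set ℂ} (hs : IsOpen s) (hf : ContDiffOn ℝ ∞ f s) :
    ContDiffOn ℝ ∞ (dx f) s ∧ ContDiffOn ℝ ∞ (dy f) s := by
  have h1 : ContDiffOn ℝ ∞ (fderiv ℝ f) s := hf.fderiv_of_isOpen hs (by simp)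
  exact ⟨h1.clm_apply contDiffOn_const, h1.clm_apply contDiffOn_const⟩

lemma gm_kk (P : Pres) : ContinuousOn (kk P.u) P.Ω := by
  have h1 := gm_dx P.isOpen P.smooth
  have h2 := (gm_dx P.isOpen h1.1).1
  have h3 := (gm_dx P.isOpen h1.2).2
  unfold kk lap
  refine ContinuousOn.mul ?_ (h2.continuousOn.add h3.continuousOn)
  exact Real.continuous_exp.comp_continuousOn (continuousOn_const.mul P.smooth.continuousOn)

lemma gm_S_open (P : Pres) : IsOpen P.S := P.isOpen.prod isOpen_univ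

/-- the flow on the subtype -/
def gm_flow {P : Pres} (Φ : GFlow P) (p : ℝ × P.S) : P.S :=
  ⟨Φ.φ p.1 p.2.1, Φ.mem _ _ p.2.2⟩

lemma gm_flow_cont {P : Pres} (Φ : GFlow P) : Continuous (gm_flow Φ) := by
  refine Continuous.subtype_mk ?_ _
  exact Φ.smooth.continuousOn.comp_continuous
    (f := fun p : ℝ × P.S => (p.1, p.2.1)) (by fun_prop) (fun p => ⟨mem_univ _, p.2.2⟩)

lemma gm_K {P : Pres} : Continuous (fun w : P.S => kk P.u w.1.1) :=
  (gm_kk P).comp_continuous (by fun_prop) (fun w => w.2.1)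

lemma gm_U {P : Pres} (Φ : GFlow P) (κ ℓ : ℝ) : Continuous (fun w : P.S => Φ.U κ ℓ w.1) := by
  unfold GFlow.U
  refine continuous_const.mul ?_
  have hf : Continuous (Function.uncurry
      (fun (w : P.S) (s : ℝ) => max (kk P.u (Φ.φ s w.1).1 - ℓ) 0)) := by
    have h1 : Continuous (fun p : P.S × ℝ => kk P.u (gm_flow Φ (p.2, p.1)).1.1) :=
      gm_K.comp ((gm_flow_cont Φ).comp (continuous_snd.prodMk continuous_fst))
    exact (h1.sub continuous_const).max continuous_const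
  exact intervalIntegral.continuous_parametric_intervalIntegral_of_continuous' hf 0 1

lemma gm_Sa {P : Pres} (Φ : GFlow P) (κ ℓ : ℝ) :
    Continuous (fun p : P.S × ℝ => Φ.Sa κ ℓ p.2 p.1.1) := by
  have : LocallyCompactSpace P.S := (gm_S_open P).locallyCompactSpace
  unfold GFlow.Sa
  have hf : Continuous (Function.uncurry
      (fun (w : P.S) (s : ℝ) => Φ.U κ ℓ (Φ.φ s w.1))) :=
    (gm_U Φ κ ℓ).comp ((gm_flow_cont Φ).comp (continuous_snd.prodMk continuous_fst))
  exact intervalIntegral.continuous_parametric_primitive_of_continuous hf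

/-- GM -/
theorem gg_meas_pr (P : Pres) (Φ : GFlow P) (κ ℓ : ℝ) : Measurable (P.S.indicator (Φ.gg κ ℓ)) := by
  have hS : MeasurableSet P.S := (gm_S_open P).measurableSet
  refine measurable_of_restrict_of_restrict_compl hS ?_ ?_
  · have h0 : P.S.domRestrict (P.S.indicator (Φ.gg κ ℓ)) = fun v : P.S => Φ.gg κ ℓ v.1 := by
      funext v
      simp [Set.domRestrict]
    rw [h0]
    have h1 : Measurable (Function.uncurry (fun (v : P.S) (a : ℝ) =>
        ENNReal.ofReal (Real.exp (-(Φ.Sa κ ℓ a v.1) / 2)))) := by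
      apply Continuous.measurable
      refine ENNReal.continuous_ofReal.comp (Real.continuous_exp.comp ?_)
      exact ((gm_Sa Φ κ ℓ).neg).div_const 2
    exact h1.lintegral_prod_right (ν := volume.restrict (Ioi (0 : ℝ)))
  · have h0 : P.Sᶜ.domRestrict (P.S.indicator (Φ.gg κ ℓ)) = fun _ => 0 := by
      funext v
      have hv : v.1 ∉ P.S := v.2
      simp [Set.domRestrict, Set.indicator_of_notMem hv]
    rw [h0]
    exact measurable_const

end

end Pool.Agent.EQ

namespace Pool.Agent.EQ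

open MeasureTheory Filter Topology Set
open scoped ContDiff ENNReal

noncomputable section

theorem gg_meas (P : Pres) (Φ : GFlow P) (κ ℓ : ℝ) : Measurable (P.S.indicator (Φ.gg κ ℓ)) := by
  first
    | exact gg_meas_pr ..
    | (apply gg_meas_pr <;> assumption)

end

end Pool.Agent.EQ

end

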