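import Mathlib
import Pool.Agent.Lib_helper71.EQM.DynA
import Pool.Agent.Lib_helper71.EQM.DynB
import Pool.Agent.Lib_helper71.EQM.DynC
import Pool.Agent.Lib_helper71.EQM.FlowDefs
import Pool.Agent.Lib_helper71.EQM.Odes

/-! Project EQ (MP_ed6ab2_an): merged modules Lib_helper71.EQ.D.LC. -/

set_option autoImplicit false

/-! ## Lib_helper71.EQ.D.LC -/

section

/-! Project EQ, block LC: the local theorem (loc_const_pr). -/

set_option autoImplicit false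

namespace Pool.Agent.EQ

open MeasureTheory Filter Topology Set
open scoped ContDiff ENNReal

noncomputable section

/-! ### part 0 -/

theorem lc_S_open (P : Pres) : IsOpen P.S := P.isOpen.prod isOpen_univ

theorem lc_S_meas (P : Pres) : MeasurableSet P.S := (lc_S_open P).measurableSet

theorem lc_mem_S (P : Pres) {v : ℂ × ℝ} (hv : v ∈ P.S) (θ : ℝ) : (v.1, θ) ∈ P.S :=
  ⟨hv.1, mem_univ _⟩

theorem lc_phi_meas (P : Pres) (Φ : GFlow P) :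
    Measurable (fun p : ℝ × (ℂ × ℝ) => Φ.φ p.1 p.2) := by
  classical
  have h1 : (fun p : ℝ × (ℂ × ℝ) => Φ.φ p.1 p.2) =
      (univ ×ˢ P.S : Set (ℝ × (ℂ × ℝ))).piecewise (fun p => Φ.φ p.1 p.2) (fun p => p.2) := by
    funext p
    by_cases hp : p.2 ∈ P.S
    · have hp' : p ∈ (univ ×ˢ P.S : Set (ℝ × (ℂ × ℝ))) := ⟨mem_univ _, hp⟩
      rw [Set.piecewise_eq_of_mem _ _ _ hp']
    · have hp' : p ∉ (univ ×ˢ P.S : Set (ℝ × (ℂ × ℝ))) := fun h => hp h.2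
      rw [Set.piecewise_eq_of_notMem _ _ _ hp']
      exact Φ.out _ _ hp
  rw [h1]
  exact ContinuousOn.measurable_piecewise Φ.smooth.continuousOn continuous_snd.continuousOn
    (MeasurableSet.univ.prod (lc_S_meas P))

theorem lc_phi_meas' (P : Pres) (Φ : GFlow P) (a : ℝ) : Measurable (Φ.φ a) :=
  (lc_phi_meas P Φ).comp (measurable_const.prodMk measurable_id)

theorem lc_rot_meas (b : ℝ) : Measurable (rot b) :=
  measurable_fst.prodMk (measurable_snd.add_const b)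

theorem lc_St_meas (P : Pres) (Φ : GFlow P) (T : ℝ) :
    Measurable (fun p : ℝ × (ℂ × ℝ) => Φ.St T p.1 p.2) := by
  have h1 : Measurable (fun p : ℝ × (ℂ × ℝ) => Φ.φ T p.2) :=
    (lc_phi_meas P Φ).comp (measurable_const.prodMk measurable_snd)
  exact (lc_phi_meas P Φ).comp (measurable_const.prodMk
    (h1.fst.prodMk (h1.snd.add measurable_fst)))

theorem lc_St_mem (P : Pres) (Φ : GFlow P) (T b : ℝ) {v : ℂ × ℝ} (hv : v ∈ P.S) :
    Φ.St T b v ∈ P.S :=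
  Φ.mem _ _ (lc_mem_S P (Φ.mem T v hv) _)

/-- the Jacobi solution cut off to the phase space -/
def lc_J (P : Pres) (Φ : GFlow P) (T : ℝ) (v : ℂ × ℝ) : ℝ := P.S.indicator (Φ.J T) v

theorem lc_J_of (P : Pres) (Φ : GFlow P) (T : ℝ) {v : ℂ × ℝ} (hv : v ∈ P.S) :
    lc_J P Φ T v = Φ.J T v := indicator_of_mem hv _

theorem lc_J_meas (P : Pres) (Φ : GFlow P) (T : ℝ) : Measurable (lc_J P Φ T) := by
  classical
  have h1 : ContinuousOn (Φ.J T) P.S :=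
    (len_cont P Φ T).2.1.comp (f := fun v : ℂ × ℝ => (T, v)) (by fun_prop)
      (fun v hv => ⟨mem_univ _, hv⟩)
  have h2 : lc_J P Φ T = P.S.piecewise (Φ.J T) (fun _ => 0) := by
    funext v
    by_cases hv : v ∈ P.S
    · rw [Set.piecewise_eq_of_mem _ _ _ hv, lc_J_of P Φ T hv]
    · rw [Set.piecewise_eq_of_notMem _ _ _ hv]
      exact indicator_of_notMem hv _
  rw [h2]
  exact ContinuousOn.measurable_piecewise h1 continuousOn_const (lc_S_meas P)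

/-- the length cut off to the phase space -/
def lc_len (P : Pres) (Φ : GFlow P) (T : ℝ) (p : ℝ × (ℂ × ℝ)) : ℝ :=
  (univ ×ˢ P.S : Set (ℝ × (ℂ × ℝ))).indicator (fun p => Φ.len T p.1 p.2) p

theorem lc_len_of (P : Pres) (Φ : GFlow P) (T b : ℝ) {v : ℂ × ℝ} (hv : v ∈ P.S) :
    lc_len P Φ T (b, v) = Φ.len T b v :=
  indicator_of_mem (show (b, v) ∈ (univ ×ˢ P.S : Set (ℝ × (ℂ × ℝ))) from ⟨mem_univ _, hv⟩) _

theorem lc_len_meas (P : Pres) (Φ : GFlow P) (T : ℝ) : Measurable (lc_len P Φ T) := by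
  classical
  have h2 : lc_len P Φ T = (univ ×ˢ P.S : Set (ℝ × (ℂ × ℝ))).piecewise
      (fun p => Φ.len T p.1 p.2) (fun _ => 0) := by
    funext p
    by_cases hv : p ∈ (univ ×ˢ P.S : Set (ℝ × (ℂ × ℝ)))
    · rw [Set.piecewise_eq_of_mem _ _ _ hv]
      exact indicator_of_mem hv _
    · rw [Set.piecewise_eq_of_notMem _ _ _ hv]
      exact indicator_of_notMem hv _
  rw [h2]
  exact ContinuousOn.measurable_piecewise (len_cont P Φ T).1 continuousOn_const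
    (MeasurableSet.univ.prod (lc_S_meas P))

instance lc_sfinite (P : Pres) : SFinite P.m := by
  unfold Pres.m
  infer_instance

/-! ### continuity of the curvature -/

theorem lc_fd_smooth {Ω : Set ℂ} (hΩ : IsOpen Ω) {f : ℂ → ℝ} (hf : ContDiffOn ℝ ∞ f Ω) (w : ℂ) :
    ContDiffOn ℝ ∞ (fun z => fderiv ℝ f z w) Ω := by
  have h1 : ContDiffOn ℝ ∞ (fderiv ℝ f) Ω := hf.fderiv_of_isOpen hΩ (by simp)
  exact h1.clm_apply contDiffOn_const

theorem lc_kk_cont (P : Pres) : ContinuousOn (kk P.u) P.Ω := by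
  have h1 : ContDiffOn ℝ ∞ (dx P.u) P.Ω := lc_fd_smooth P.isOpen P.smooth 1
  have h2 : ContDiffOn ℝ ∞ (dy P.u) P.Ω := lc_fd_smooth P.isOpen P.smooth Complex.I
  have h3 : ContDiffOn ℝ ∞ (dx (dx P.u)) P.Ω := lc_fd_smooth P.isOpen h1 1
  have h4 : ContDiffOn ℝ ∞ (dy (dy P.u)) P.Ω := lc_fd_smooth P.isOpen h2 Complex.I
  have h5 : ContinuousOn (lap P.u) P.Ω := h3.continuousOn.add h4.continuousOn
  have h6 : ContinuousOn P.u P.Ω := P.smooth.continuousOn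
  exact (Real.continuous_exp.comp_continuousOn (continuousOn_const.mul h6)).mul h5

theorem lc_phi_cont_t (P : Pres) (Φ : GFlow P) {v : ℂ × ℝ} (hv : v ∈ P.S) :
    Continuous (fun a => Φ.φ a v) :=
  continuous_iff_continuousAt.2 (fun a => (Φ.deriv_t a v hv).continuousAt)

/-- positivity of `S_1` at vectors based where `kk > ℓ` -/
theorem lc_Sa_pos (P : Pres) (Φ : GFlow P) (κ ℓ : ℝ) (v : ℂ × ℝ) (hv : v ∈ P.S)
    (h : ℓ < kk P.u v.1) : 0 < Φ.Sa κ ℓ 1 v := by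
  have hc : Continuous (fun r => max (kk P.u (Φ.φ r v).1 - ℓ) 0) := by
    have h1 : Continuous (fun r => kk P.u (Φ.φ r v).1) :=
      (lc_kk_cont P).comp_continuous (lc_phi_cont_t P Φ hv).fst (fun r => (Φ.mem r v hv).1)
    exact (h1.sub continuous_const).max continuous_const
  have hU : ∀ s, Φ.U κ ℓ (Φ.φ s v) =
      Real.exp (-κ - 1) * ∫ r in (0 : ℝ)..1, max (kk P.u (Φ.φ (r + s) v).1 - ℓ) 0 := by
    intro s
    unfold GFlow.U
    simp only [Φ.add]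
  have hUc : Continuous (fun s => Φ.U κ ℓ (Φ.φ s v)) := by
    simp only [hU]
    refine continuous_const.mul ?_
    refine intervalIntegral.continuous_parametric_intervalIntegral_of_continuous' ?_ 0 1
    exact hc.comp (continuous_snd.add continuous_fst)
  have hU0 : ∀ s, 0 ≤ Φ.U κ ℓ (Φ.φ s v) := by
    intro s
    rw [hU]
    refine mul_nonneg (Real.exp_nonneg _) ?_
    exact intervalIntegral.integral_nonneg zero_le_one (fun r _ => le_max_right _ _)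
  unfold GFlow.Sa
  refine intervalIntegral.integral_pos one_pos hUc.continuousOn (fun x _ => hU0 x)
    ⟨0, ⟨le_rfl, zero_le_one⟩, ?_⟩
  rw [hU]
  refine mul_pos (Real.exp_pos _) ?_
  refine intervalIntegral.integral_pos one_pos ?_ (fun x _ => le_max_right _ _)
    ⟨0, ⟨le_rfl, zero_le_one⟩, ?_⟩
  · exact (hc.comp (continuous_id.add continuous_const)).continuousOn
  · rw [add_zero, Φ.zero]
    exact lt_max_of_lt_left (by linarith)

/-! ### invariance -/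

theorem lc_inv_int {P : Pres} {α : Type*} {Q : ℂ × ℝ → α} (hQ : P.IsInv Q) {v : ℂ × ℝ}
    (hv : v ∈ P.S) (n : ℤ) : Q (v.1, v.2 + n * (2 * Real.pi)) = Q v := by
  induction n using Int.induction_on with
  | zero => simp
  | succ k ih =>
    have h1 := hQ.per (v.1, v.2 + (k : ℤ) * (2 * Real.pi)) (lc_mem_S P hv _)
    rw [← ih, ← h1]
    congr 2
    push_cast
    ring
  | pred k ih =>
    have h1 := hQ.per (v.1, v.2 + ((-(k : ℤ) - 1 : ℤ) : ℝ) * (2 * Real.pi)) (lc_mem_S P hv _)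
    rw [← ih, ← h1]
    congr 2
    push_cast
    ring

theorem lc_inv_phi {P : Pres} (Φ : GFlow P) {α : Type*} {Q : ℂ × ℝ → α} (hQ : P.IsInv Q)
    (a : ℝ) : P.IsInv (fun v => Q (Φ.φ a v)) where
  per := by
    intro v hv
    show Q (Φ.φ a (v.1, v.2 + 2 * Real.pi)) = Q (Φ.φ a v)
    rw [Φ.per a v hv, hQ.per _ (Φ.mem a v hv)]
  inv := by
    intro g v hv
    show Q (Φ.φ a (P.actS g v)) = Q (Φ.φ a v)
    obtain ⟨n, hn⟩ := Φ.equiv g a v hv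
    have h2 : P.actS g (Φ.φ a v) ∈ P.S := ⟨P.act_mem g _ (Φ.mem a v hv).1, mem_univ _⟩
    rw [hn, lc_inv_int hQ h2, hQ.inv g _ (Φ.mem a v hv)]

theorem lc_inv_Q {P : Pres} {E : Set (ℂ × ℝ)} (hE : P.IsSetUM E) {f : ℂ × ℝ → ℝ}
    (hf : P.IsInv f) : P.IsInv (fun v => ENNReal.ofReal |E.indicator 1 v - f v|) where
  per := by
    intro v hv
    have h1 : E.indicator (1 : ℂ × ℝ → ℝ) (v.1, v.2 + 2 * Real.pi) = E.indicator 1 v := by
      by_cases h : v ∈ E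
      · rw [indicator_of_mem h, indicator_of_mem ((hE.per v hv).2 h)]
        rfl
      · rw [indicator_of_notMem h, indicator_of_notMem (fun h' => h ((hE.per v hv).1 h'))]
    show ENNReal.ofReal |E.indicator 1 (v.1, v.2 + 2 * Real.pi) - f (v.1, v.2 + 2 * Real.pi)| = _
    rw [h1, hf.per v hv]
  inv := by
    intro g v hv
    have h1 : E.indicator (1 : ℂ × ℝ → ℝ) (P.actS g v) = E.indicator 1 v := by
      by_cases h : v ∈ E
      · rw [indicator_of_mem h, indicator_of_mem ((hE.inv g v hv).2 h)]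
        rfl
      · rw [indicator_of_notMem h, indicator_of_notMem (fun h' => h ((hE.inv g v hv).1 h'))]
    show ENNReal.ofReal |E.indicator 1 (P.actS g v) - f (P.actS g v)| = _
    rw [h1, hf.inv g v hv]

/-! ### null sets and compact sets -/

theorem lc_dens_cont (P : Pres) :
    ContinuousOn (fun v : ℂ × ℝ => Real.exp (2 * P.u v.1)) P.S := by
  have h1 : ContinuousOn (fun v : ℂ × ℝ => P.u v.1) P.S :=
    P.smooth.continuousOn.comp continuousOn_fst (fun v hv => hv.1)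
  exact Real.continuous_exp.comp_continuousOn (continuousOn_const.mul h1)

theorem lc_null (P : Pres) {X : Set (ℂ × ℝ)} (hX : X ⊆ P.S) (h : P.m X = 0) : volume X = 0 := by
  have hae : AEMeasurable (fun v : ℂ × ℝ => ENNReal.ofReal (Real.exp (2 * P.u v.1)))
      (volume.restrict P.S) :=
    ((lc_dens_cont P).aemeasurable (lc_S_meas P)).ennreal_ofReal
  have h1 := (withDensity_apply_eq_zero' (s := X) hae).1 h
  have h2 : {x : ℂ × ℝ | ENNReal.ofReal (Real.exp (2 * P.u x.1)) ≠ 0} ∩ X = X := by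
    refine inter_eq_right.2 (fun x _ => ?_)
    have := Real.exp_pos (2 * P.u x.1)
    simpa using this
  rw [h2, Measure.restrict_apply' (lc_S_meas P), inter_eq_left.2 hX] at h1
  exact h1

theorem lc_m_fin (P : Pres) {N : Set (ℂ × ℝ)} (hN : IsCompact N) (hNS : N ⊆ P.S) :
    P.m N ≠ ⊤ := by
  obtain ⟨K, hK⟩ := hN.exists_bound_of_continuousOn ((lc_dens_cont P).mono hNS)
  have h1 : P.m N ≤ ENNReal.ofReal K * volume N := by
    unfold Pres.m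
    rw [withDensity_apply _ hN.measurableSet]
    calc ∫⁻ v in N, ENNReal.ofReal (Real.exp (2 * P.u v.1)) ∂(volume.restrict P.S)
        ≤ ∫⁻ v in N, ENNReal.ofReal K ∂(volume.restrict P.S) := by
          refine setLIntegral_mono' hN.measurableSet (fun v hv => ?_)
          exact ENNReal.ofReal_le_ofReal ((le_abs_self _).trans (hK v hv))
      _ = ENNReal.ofReal K * (volume.restrict P.S) N := setLIntegral_const _ _
      _ ≤ _ := by
          gcongr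
          exact Measure.restrict_le_self
  exact (h1.trans_lt (ENNReal.mul_lt_top ENNReal.ofReal_lt_top hN.measure_lt_top)).ne

/-! ### part 1 -/

/-- the cut-off kernel -/
def lc_K (P : Pres) (Φ : GFlow P) (T D : ℝ) (v : ℂ × ℝ) (b : ℝ) : ℝ≥0∞ :=
  {p : (ℂ × ℝ) × ℝ | |p.2| * lc_J P Φ T p.1 ≤ D}.indicator
    (fun p => ENNReal.ofReal (lc_J P Φ T p.1)) (v, b)

theorem lc_K_meas (P : Pres) (Φ : GFlow P) (T D : ℝ) :
    Measurable (fun p : (ℂ × ℝ) × ℝ => lc_K P Φ T D p.1 p.2) := by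
  have h0 : Measurable (fun p : (ℂ × ℝ) × ℝ => lc_J P Φ T p.1) :=
    (lc_J_meas P Φ T).comp measurable_fst
  have h1 : MeasurableSet {p : (ℂ × ℝ) × ℝ | |p.2| * lc_J P Φ T p.1 ≤ D} :=
    measurableSet_le ((measurable_snd.norm).mul h0) measurable_const
  exact h0.ennreal_ofReal.indicator h1

theorem lc_K_of (P : Pres) (Φ : GFlow P) (T D : ℝ) {v : ℂ × ℝ} (hv : v ∈ P.S) {b : ℝ}
    (h : |b| * Φ.J T v ≤ D) : lc_K P Φ T D v b = ENNReal.ofReal (Φ.J T v) := by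
  have h1 : (v, b) ∈ {p : (ℂ × ℝ) × ℝ | |p.2| * lc_J P Φ T p.1 ≤ D} := by
    show |b| * lc_J P Φ T v ≤ D
    rw [lc_J_of P Φ T hv]
    exact h
  unfold lc_K
  rw [indicator_of_mem h1, lc_J_of P Φ T hv]

theorem lc_K_int (P : Pres) (Φ : GFlow P) (T D : ℝ) (v : ℂ × ℝ) :
    ∫⁻ b, lc_K P Φ T D v b ≤ ENNReal.ofReal (2 * D) := by
  rcases le_or_gt (lc_J P Φ T v) 0 with h | h
  · have h1 : ∀ b, lc_K P Φ T D v b ≤ 0 := by
      intro b
      unfold lc_K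
      refine (indicator_le_self _ _ _).trans ?_
      simp [ENNReal.ofReal_eq_zero.2 h]
    calc ∫⁻ b, lc_K P Φ T D v b ≤ ∫⁻ _b : ℝ, 0 := lintegral_mono h1
      _ = 0 := by simp
      _ ≤ _ := bot_le
  · set J := lc_J P Φ T v with hJ
    have h1 : ∀ b, lc_K P Φ T D v b ≤ (Icc (-(D / J)) (D / J)).indicator
        (fun _ => ENNReal.ofReal J) b := by
      intro b
      unfold lc_K
      by_cases hb : (v, b) ∈ {p : (ℂ × ℝ) × ℝ | |p.2| * lc_J P Φ T p.1 ≤ D}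
      · rw [indicator_of_mem hb]
        have hb' : |b| * J ≤ D := hb
        have h2 : |b| ≤ D / J := by rwa [le_div_iff₀ h]
        have h3 : b ∈ Icc (-(D / J)) (D / J) := abs_le.1 h2
        rw [indicator_of_mem h3]
      · rw [indicator_of_notMem hb]
        exact bot_le
    calc ∫⁻ b, lc_K P Φ T D v b
        ≤ ∫⁻ b, (Icc (-(D / J)) (D / J)).indicator (fun _ => ENNReal.ofReal J) b :=
          lintegral_mono h1
      _ = ENNReal.ofReal J * volume (Icc (-(D / J)) (D / J)) := by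
          rw [lintegral_indicator measurableSet_Icc, setLIntegral_const]
      _ = ENNReal.ofReal J * ENNReal.ofReal (D / J - -(D / J)) := by rw [Real.volume_Icc]
      _ = ENNReal.ofReal (2 * D) := by
          rw [← ENNReal.ofReal_mul h.le]
          congr 1
          field_simp
          ring
      _ ≤ _ := le_rfl

/-- the bad part of the stable segments -/
def lc_H (P : Pres) (Φ : GFlow P) (T δ : ℝ) (N Y E : Set (ℂ × ℝ)) (v : ℂ × ℝ) (b : ℝ) : ℝ≥0∞ :=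
  {p : (ℂ × ℝ) × ℝ | p.1 ∈ N ∧ Φ.St T p.2 p.1 ∈ Y ∧ lc_len P Φ T (p.2, p.1) ≤ δ ∧
    ((Φ.St T p.2 p.1 ∈ E ∧ p.1 ∉ E) ∨ (Φ.St T p.2 p.1 ∉ E ∧ p.1 ∈ E))}.indicator
    (fun p => ENNReal.ofReal (lc_J P Φ T p.1)) (v, b)

theorem lc_H_meas (P : Pres) (Φ : GFlow P) (T δ : ℝ) (N Y E : Set (ℂ × ℝ))
    (hN : MeasurableSet N) (hY : MeasurableSet Y) (hE : MeasurableSet E) :
    Measurable (fun p : (ℂ × ℝ) × ℝ => lc_H P Φ T δ N Y E p.1 p.2) := by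
  have h0 : Measurable (fun p : (ℂ × ℝ) × ℝ => lc_J P Φ T p.1) :=
    (lc_J_meas P Φ T).comp measurable_fst
  have hSt : Measurable (fun p : (ℂ × ℝ) × ℝ => Φ.St T p.2 p.1) :=
    (lc_St_meas P Φ T).comp (measurable_snd.prodMk measurable_fst)
  have hl : Measurable (fun p : (ℂ × ℝ) × ℝ => lc_len P Φ T (p.2, p.1)) :=
    (lc_len_meas P Φ T).comp (measurable_snd.prodMk measurable_fst)
  have h1 : MeasurableSet {p : (ℂ × ℝ) × ℝ | p.1 ∈ N} := measurable_fst hN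
  have h2 : MeasurableSet {p : (ℂ × ℝ) × ℝ | Φ.St T p.2 p.1 ∈ Y} := hSt hY
  have h3 : MeasurableSet {p : (ℂ × ℝ) × ℝ | lc_len P Φ T (p.2, p.1) ≤ δ} :=
    measurableSet_le hl measurable_const
  have h4 : MeasurableSet {p : (ℂ × ℝ) × ℝ | Φ.St T p.2 p.1 ∈ E} := hSt hE
  have h5 : MeasurableSet {p : (ℂ × ℝ) × ℝ | p.1 ∈ E} := measurable_fst hE
  exact h0.ennreal_ofReal.indicator
    (h1.inter (h2.inter (h3.inter ((h4.inter h5.compl).union (h4.compl.inter h5)))))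

theorem lc_H_of (P : Pres) (Φ : GFlow P) (T δ : ℝ) (N Y E : Set (ℂ × ℝ)) {v : ℂ × ℝ} {b : ℝ}
    (hv : v ∈ P.S) (h1 : v ∈ N) (h2 : Φ.St T b v ∈ Y) (h3 : Φ.len T b v ≤ δ)
    (h4 : (Φ.St T b v ∈ E ∧ v ∉ E) ∨ (Φ.St T b v ∉ E ∧ v ∈ E)) :
    lc_H P Φ T δ N Y E v b = ENNReal.ofReal (Φ.J T v) := by
  unfold lc_H
  have h5 : (v, b) ∈ {p : (ℂ × ℝ) × ℝ | p.1 ∈ N ∧ Φ.St T p.2 p.1 ∈ Y ∧
      lc_len P Φ T (p.2, p.1) ≤ δ ∧
      ((Φ.St T p.2 p.1 ∈ E ∧ p.1 ∉ E) ∨ (Φ.St T p.2 p.1 ∉ E ∧ p.1 ∈ E))} := by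
    refine ⟨h1, h2, ?_, h4⟩
    show lc_len P Φ T (b, v) ≤ δ
    rw [lc_len_of P Φ T b hv]
    exact h3
  rw [indicator_of_mem h5, lc_J_of P Φ T hv]

/-- integral of a function bounded below -/
theorem lc_int_low (j : ℝ → ℝ) (hj : Continuous j) (b c : ℝ)
    (h : ∀ s ∈ uIcc 0 b, c ≤ j s) : |b| * c ≤ |∫ s in (0 : ℝ)..b, j s| := by
  rcases le_total 0 b with hb | hb
  · have h1 : ∫ _s in (0 : ℝ)..b, c ≤ ∫ s in (0 : ℝ)..b, j s := by
      refine intervalIntegral.integral_mono_on hb (by simp) (hj.intervalIntegrable _ _) ?_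
      intro x hx
      exact h x (by rwa [uIcc_of_le hb])
    rw [intervalIntegral.integral_const, smul_eq_mul, sub_zero] at h1
    rw [abs_of_nonneg hb]
    exact h1.trans (le_abs_self _)
  · have h1 : ∫ _s in b..(0 : ℝ), c ≤ ∫ s in b..(0 : ℝ), j s := by
      refine intervalIntegral.integral_mono_on hb (by simp) (hj.intervalIntegrable _ _) ?_
      intro x hx
      exact h x (by rwa [uIcc_of_ge hb])
    rw [intervalIntegral.integral_const, smul_eq_mul, zero_sub] at h1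
    rw [abs_of_nonpos hb, intervalIntegral.integral_symm, abs_neg]
    exact h1.trans (le_abs_self _)

theorem lc_J_cont (P : Pres) (Φ : GFlow P) (T : ℝ) : ContinuousOn (Φ.J T) P.S :=
  (len_cont P Φ T).2.1.comp (f := fun v : ℂ × ℝ => (T, v)) (by fun_prop)
    (fun _ hv => ⟨mem_univ _, hv⟩)

theorem lc_St_back (P : Pres) (Φ : GFlow P) (T b : ℝ) (v : ℂ × ℝ) :
    Φ.St T (-b) (Φ.St T b v) = v := by
  rw [(St_add P Φ T (-b) b v).1, neg_add_cancel, (St_add P Φ T 0 0 v).2]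

/-- consequences of bounded distortion at the end point -/
theorem lc_dist (P : Pres) (Φ : GFlow P) (hk : ∀ z ∈ P.Ω, 0 ≤ kk P.u z) (δ C₁ : ℝ)
    (hC₁ : 1 ≤ C₁) (G : Set (ℂ × ℝ))
    (hD : ∀ T : ℝ, 3 ≤ T → ∀ v ∈ P.S, v ∈ G →
      ∀ b : ℝ, Φ.len T b v ≤ δ →
        Φ.J T v ≤ C₁ * Φ.J T (Φ.St T b v) ∧ Φ.J T (Φ.St T b v) ≤ C₁ * Φ.J T v)
    (T : ℝ) (hT : 3 ≤ T) (v : ℂ × ℝ) (hv : v ∈ P.S) (b : ℝ) (hl : Φ.len T b v ≤ δ)
    (hg : Φ.St T b v ∈ G) :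
    Φ.J T v ≤ C₁ * Φ.J T (Φ.St T b v) ∧ |b| * Φ.J T (Φ.St T b v) ≤ C₁ * δ ∧
      |b| * Φ.J T v ≤ C₁ ^ 2 * δ := by
  have hC0 : 0 < C₁ := by linarith
  have hT1 : 1 ≤ |T| := by rw [abs_of_nonneg (by linarith)]; linarith
  set w := Φ.St T b v with hw
  have hwS : w ∈ P.S := lc_St_mem P Φ T b hv
  have hback : Φ.St T (-b) w = v := lc_St_back P Φ T b v
  have hlen : Φ.len T (-b) w = Φ.len T b v := (len_props P Φ hk T hT1 v hv b).1
  have h1 := hD T hT w hwS hg (-b) (by rw [hlen]; exact hl)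
  rw [hback] at h1
  have h2 : |b| * (Φ.J T w / C₁) ≤ Φ.len T b v := by
    unfold GFlow.len
    refine lc_int_low _ ?_ b _ ?_
    · refine (lc_J_cont P Φ T).comp_continuous ?_ (fun s => lc_St_mem P Φ T s hv)
      exact continuous_iff_continuousAt.2 (fun s => (St_deriv P Φ T s v hv).continuousAt)
    · intro s hs
      have h3 : Φ.St T (s - b) w = Φ.St T s v := by
        rw [hw, (St_add P Φ T (s - b) b v).1, sub_add_cancel]
      have h4 : s - b ∈ uIcc 0 (-b) := by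
        rw [mem_uIcc] at hs ⊢
        rcases hs with hs | hs
        · right; constructor <;> linarith [hs.1, hs.2]
        · left; constructor <;> linarith [hs.1, hs.2]
      have h5 : Φ.len T (s - b) w ≤ δ :=
        ((len_props P Φ hk T hT1 w hwS (-b)).2.1 _ h4).trans (by rw [hlen]; exact hl)
      have h6 := (hD T hT w hwS hg (s - b) h5).1
      rw [h3] at h6
      rw [div_le_iff₀ hC0]
      linarith
  have h3 : |b| * Φ.J T w ≤ C₁ * δ := by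
    have h4 : |b| * (Φ.J T w / C₁) ≤ δ := h2.trans hl
    have h5 : |b| * Φ.J T w = C₁ * (|b| * (Φ.J T w / C₁)) := by
      field_simp
    rw [h5]
    exact mul_le_mul_of_nonneg_left h4 hC0.le
  refine ⟨h1.2, h3, ?_⟩
  calc |b| * Φ.J T v ≤ |b| * (C₁ * Φ.J T w) := mul_le_mul_of_nonneg_left h1.2 (abs_nonneg _)
    _ = C₁ * (|b| * Φ.J T w) := by ring
    _ ≤ C₁ * (C₁ * δ) := mul_le_mul_of_nonneg_left h3 hC0.le
    _ = C₁ ^ 2 * δ := by ring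

/-! ### the averages -/

/-- the pointwise error -/
def lc_Q (E : Set (ℂ × ℝ)) (f : ℂ × ℝ → ℝ) (v : ℂ × ℝ) : ℝ≥0∞ :=
  ENNReal.ofReal |E.indicator 1 v - f v|

theorem lc_Q_meas {E : Set (ℂ × ℝ)} (hE : MeasurableSet E) {f : ℂ × ℝ → ℝ} (hf : Measurable f) :
    Measurable (lc_Q E f) := by
  have h1 : Measurable (E.indicator (1 : ℂ × ℝ → ℝ)) := measurable_one.indicator hE
  exact ((h1.sub hf).norm).ennreal_ofReal

/-- the averaged error -/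
def lc_Qb (P : Pres) (Φ : GFlow P) (E : Set (ℂ × ℝ)) (f : ℂ × ℝ → ℝ) (T : ℝ) (v : ℂ × ℝ) :
    ℝ≥0∞ := ENNReal.ofReal (1 / T) * ∫⁻ a in Ioc 0 T, lc_Q E f (Φ.φ a v)

theorem lc_Qb_meas (P : Pres) (Φ : GFlow P) {E : Set (ℂ × ℝ)} (hE : MeasurableSet E)
    {f : ℂ × ℝ → ℝ} (hf : Measurable f) (T : ℝ) : Measurable (lc_Qb P Φ E f T) := by
  have h1 : Measurable (fun p : (ℂ × ℝ) × ℝ => lc_Q E f (Φ.φ p.2 p.1)) :=
    (lc_Q_meas hE hf).comp ((lc_phi_meas P Φ).comp (measurable_snd.prodMk measurable_fst))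
  exact (Measurable.lintegral_prod_right' (ν := volume.restrict (Ioc 0 T)) h1).const_mul _

theorem lc_avg (P : Pres) (Φ : GFlow P) (E : Set (ℂ × ℝ))
    (hinv : ∀ v ∈ P.S, ∀ a, Φ.φ a v ∈ E ↔ v ∈ E) (f : ℂ × ℝ → ℝ) (hf : ContinuousOn f P.S)
    (T : ℝ) (hT : 0 < T) (v : ℂ × ℝ) (hv : v ∈ P.S) :
    ENNReal.ofReal |E.indicator 1 v - 1 / T * ∫ a in (0 : ℝ)..T, f (Φ.φ a v)| ≤
      lc_Qb P Φ E f T v := by
  have hc : Continuous (fun a => f (Φ.φ a v)) :=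
    hf.comp_continuous (lc_phi_cont_t P Φ hv) (fun a => Φ.mem a v hv)
  set e : ℝ := E.indicator 1 v with he
  have h1 : e - 1 / T * ∫ a in (0 : ℝ)..T, f (Φ.φ a v) =
      1 / T * ∫ a in (0 : ℝ)..T, (e - f (Φ.φ a v)) := by
    rw [intervalIntegral.integral_sub (by simp) (hc.intervalIntegrable _ _),
      intervalIntegral.integral_const, smul_eq_mul, sub_zero, mul_sub]
    congr 1
    field_simp
  rw [h1, abs_mul, abs_of_pos (by positivity), ENNReal.ofReal_mul (by positivity)]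
  unfold lc_Qb
  gcongr
  rw [intervalIntegral.integral_of_le hT.le, ← Real.enorm_eq_ofReal_abs]
  refine (enorm_integral_le_lintegral_enorm _).trans ?_
  refine lintegral_mono (fun a => ?_)
  rw [Real.enorm_eq_ofReal_abs]
  unfold lc_Q
  have h2 : E.indicator (1 : ℂ × ℝ → ℝ) (Φ.φ a v) = e := by
    rw [he]
    by_cases h : v ∈ E
    · rw [indicator_of_mem h, indicator_of_mem ((hinv v hv a).2 h)]
      rfl
    · rw [indicator_of_notMem h, indicator_of_notMem (fun h' => h ((hinv v hv a).1 h'))]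
  rw [h2]

theorem lc_one_le (P : Pres) (Φ : GFlow P) (E : Set (ℂ × ℝ))
    (hinv : ∀ v ∈ P.S, ∀ a, Φ.φ a v ∈ E ↔ v ∈ E) (f : ℂ × ℝ → ℝ) (hf : ContinuousOn f P.S)
    (T : ℝ) (hT : 0 < T) (v w : ℂ × ℝ) (hv : v ∈ P.S) (hw : w ∈ P.S) (C₂ : ℝ) (hC₂ : 0 ≤ C₂)
    (hcl : |(∫ a in (0 : ℝ)..T, f (Φ.φ a v)) - ∫ a in (0 : ℝ)..T, f (Φ.φ a w)| ≤ C₂)
    (hvw : (w ∈ E ∧ v ∉ E) ∨ (w ∉ E ∧ v ∈ E)) :
    1 ≤ lc_Qb P Φ E f T w + (ENNReal.ofReal (C₂ / T) + lc_Qb P Φ E f T v) := by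
  set a := 1 / T * ∫ a in (0 : ℝ)..T, f (Φ.φ a v) with ha
  set c := 1 / T * ∫ a in (0 : ℝ)..T, f (Φ.φ a w) with hc
  have h1 : |a - c| ≤ C₂ / T := by
    rw [ha, hc, ← mul_sub, abs_mul, abs_of_pos (by positivity)]
    calc 1 / T * _ ≤ 1 / T * C₂ := mul_le_mul_of_nonneg_left hcl (by positivity)
      _ = C₂ / T := by ring
  have h2 : |E.indicator (1 : ℂ × ℝ → ℝ) w - E.indicator 1 v| = 1 := by
    rcases hvw with ⟨h, h'⟩ | ⟨h, h'⟩
    · rw [indicator_of_mem h, indicator_of_notMem h']; simp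
    · rw [indicator_of_notMem h, indicator_of_mem h']; simp
  have h3 : (1 : ℝ) ≤ |E.indicator (1 : ℂ × ℝ → ℝ) w - c| +
      (C₂ / T + |E.indicator (1 : ℂ × ℝ → ℝ) v - a|) := by
    have h4 := abs_add_le (E.indicator (1 : ℂ × ℝ → ℝ) w - c)
      ((c - a) + (a - E.indicator (1 : ℂ × ℝ → ℝ) v))
    have h5 := abs_add_le (c - a) (a - E.indicator (1 : ℂ × ℝ → ℝ) v)
    have h6 : E.indicator (1 : ℂ × ℝ → ℝ) w - c + ((c - a) + (a - E.indicator 1 v)) =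
        E.indicator (1 : ℂ × ℝ → ℝ) w - E.indicator 1 v := by ring
    rw [h6, h2] at h4
    rw [abs_sub_comm c a] at h5
    rw [abs_sub_comm a (E.indicator (1 : ℂ × ℝ → ℝ) v)] at h5
    linarith
  calc (1 : ℝ≥0∞) = ENNReal.ofReal 1 := by simp
    _ ≤ ENNReal.ofReal (|E.indicator (1 : ℂ × ℝ → ℝ) w - c| +
      (C₂ / T + |E.indicator (1 : ℂ × ℝ → ℝ) v - a|)) := ENNReal.ofReal_le_ofReal h3
    _ = ENNReal.ofReal |E.indicator (1 : ℂ × ℝ → ℝ) w - c| +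
      (ENNReal.ofReal (C₂ / T) + ENNReal.ofReal |E.indicator (1 : ℂ × ℝ → ℝ) v - a|) := by
        rw [ENNReal.ofReal_add (abs_nonneg _) (by positivity),
          ENNReal.ofReal_add (by positivity) (abs_nonneg _)]
    _ ≤ _ := by
        gcongr
        · exact lc_avg P Φ E hinv f hf T hT w hw
        · exact lc_avg P Φ E hinv f hf T hT v hv

/-- integral of the averaged error over a compact set -/
theorem lc_Qb_int (P : Pres) (Φ : GFlow P) (F : Set ℂ) (hF : P.IsFund F) (E : Set (ℂ × ℝ))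
    (hE : P.IsSetUM E) (f : ℂ × ℝ → ℝ) (hfi : P.IsInv f) (hfm : Measurable f)
    (N : Set (ℂ × ℝ)) (n : ℕ)
    (hn : ∀ Q : ℂ × ℝ → ℝ≥0∞, Measurable Q → P.IsInv Q →
      ∫⁻ v in N, Q v ∂P.m ≤ n * ∫⁻ v in F ×ˢ Ico 0 (2 * Real.pi), Q v ∂P.m)
    (ε : ℝ≥0∞) (hε : ∫⁻ v in F ×ˢ Ico 0 (2 * Real.pi), lc_Q E f v ∂P.m ≤ ε)
    (T : ℝ) (hT : 0 < T) : ∫⁻ v in N, lc_Qb P Φ E f T v ∂P.m ≤ n * ε := by
  have hQm : Measurable (lc_Q E f) := lc_Q_meas hE.meas hfm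
  have hQi : P.IsInv (lc_Q E f) := lc_inv_Q hE hfi
  have h1 : Measurable (fun p : (ℂ × ℝ) × ℝ => lc_Q E f (Φ.φ p.2 p.1)) :=
    hQm.comp ((lc_phi_meas P Φ).comp (measurable_snd.prodMk measurable_fst))
  unfold lc_Qb
  rw [lintegral_const_mul _
    (Measurable.lintegral_prod_right' (ν := volume.restrict (Ioc 0 T)) h1)]
  rw [lintegral_lintegral_swap (f := fun v a => lc_Q E f (Φ.φ a v)) h1.aemeasurable]
  have h2 : ∀ a, ∫⁻ v in N, lc_Q E f (Φ.φ a v) ∂P.m ≤ n * ε := by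
    intro a
    refine (hn (fun v => lc_Q E f (Φ.φ a v)) (hQm.comp (lc_phi_meas' P Φ a))
      (lc_inv_phi Φ hQi a)).trans ?_
    gcongr
    rw [inv_int P Φ F hF (lc_Q E f) hQm hQi a]
    exact hε
  calc ENNReal.ofReal (1 / T) * ∫⁻ a in Ioc 0 T, ∫⁻ v in N, lc_Q E f (Φ.φ a v) ∂P.m
      ≤ ENNReal.ofReal (1 / T) * ∫⁻ _a in Ioc 0 T, n * ε := by
        gcongr with a
        exact h2 a
    _ = ENNReal.ofReal (1 / T) * (n * ε * ENNReal.ofReal T) := by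
        rw [setLIntegral_const, Real.volume_Ioc, sub_zero]
    _ = ENNReal.ofReal (1 / T) * ENNReal.ofReal T * (n * ε) := by ring
    _ = n * ε := by
        rw [← ENNReal.ofReal_mul (by positivity)]
        have : 1 / T * T = 1 := by field_simp
        rw [this]
        simp
    _ ≤ _ := le_rfl

/-! ### part 2 -/

/-- the estimate for one `T` -/
theorem lc_small_T (P : Pres) (Φ : GFlow P) (hk : ∀ z ∈ P.Ω, 0 ≤ kk P.u z) (δ C₁ C₂ : ℝ)
    (hC₁ : 1 ≤ C₁) (hC₂ : 0 ≤ C₂) (G : Set (ℂ × ℝ))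
    (hD : ∀ T : ℝ, 3 ≤ T → ∀ v ∈ P.S, v ∈ G →
      ∀ b : ℝ, Φ.len T b v ≤ δ →
        Φ.J T v ≤ C₁ * Φ.J T (Φ.St T b v) ∧ Φ.J T (Φ.St T b v) ≤ C₁ * Φ.J T v)
    (f : ℂ × ℝ → ℝ) (hf : ContinuousOn f P.S) (hfm : Measurable f)
    (hcl : ∀ T : ℝ, 3 ≤ T → ∀ v ∈ P.S, v ∈ G → ∀ b : ℝ, Φ.len T b v ≤ δ →
        |(∫ a in (0 : ℝ)..T, f (Φ.φ a (Φ.St T b v))) - ∫ a in (0 : ℝ)..T, f (Φ.φ a v)| ≤ C₂)
    (E : Set (ℂ × ℝ)) (hE : MeasurableSet E)
    (hinv : ∀ v ∈ P.S, ∀ a, Φ.φ a v ∈ E ↔ v ∈ E)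
    (N : Set (ℂ × ℝ)) (hN : MeasurableSet N) (hNS : N ⊆ P.S)
    (Y : Set (ℂ × ℝ)) (hY : MeasurableSet Y) (hYN : Y ⊆ N) (hYG : Y ⊆ G)
    (T : ℝ) (hT : 3 ≤ T) :
    ∫⁻ v, (∫⁻ b, lc_H P Φ T δ N Y E v b) ∂P.m ≤
      ENNReal.ofReal (2 * (C₁ ^ 2 * δ)) * (∫⁻ v in N, lc_Qb P Φ E f T v ∂P.m) +
      ENNReal.ofReal (2 * (C₁ ^ 2 * δ)) * (ENNReal.ofReal (C₂ / T) * P.m N +
        ∫⁻ v in N, lc_Qb P Φ E f T v ∂P.m) := by
  have hC0 : 0 < C₁ := by linarith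
  have hT0 : 0 < T := by linarith
  have hT1 : 1 ≤ |T| := by rw [abs_of_nonneg hT0.le]; linarith
  have hQm : Measurable (lc_Qb P Φ E f T) := lc_Qb_meas P Φ hE hfm T
  have hKm : ∀ D, Measurable (fun p : (ℂ × ℝ) × ℝ => lc_K P Φ T D p.1 p.2) :=
    fun D => lc_K_meas P Φ T D
  have hKm1 : ∀ D v, Measurable (fun b => lc_K P Φ T D v b) :=
    fun D v => (hKm D).comp (measurable_const.prodMk measurable_id)
  -- the two majorants
  set h : (ℂ × ℝ) × ℝ → ℝ≥0∞ := fun p =>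
    {p : (ℂ × ℝ) × ℝ | p.1 ∈ Y}.indicator
      (fun p => ENNReal.ofReal C₁ * lc_K P Φ T (C₁ * δ) p.1 p.2 * lc_Qb P Φ E f T p.1) p with hh
  set k : (ℂ × ℝ) × ℝ → ℝ≥0∞ := fun p =>
    {p : (ℂ × ℝ) × ℝ | p.1 ∈ N}.indicator
      (fun p => lc_K P Φ T (C₁ ^ 2 * δ) p.1 p.2 *
        (ENNReal.ofReal (C₂ / T) + lc_Qb P Φ E f T p.1)) p with hkk
  have hhm : Measurable h := by
    have h1 : MeasurableSet {p : (ℂ × ℝ) × ℝ | p.1 ∈ Y} := measurable_fst hY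
    exact (((hKm _).const_mul _).mul (hQm.comp measurable_fst)).indicator h1
  have hkm : Measurable k := by
    have h1 : MeasurableSet {p : (ℂ × ℝ) × ℝ | p.1 ∈ N} := measurable_fst hN
    exact ((hKm _).mul (measurable_const.add (hQm.comp measurable_fst))).indicator h1
  have hpt : ∀ v b, lc_H P Φ T δ N Y E v b ≤ h (Φ.St T b v, b) + k (v, b) := by
    intro v b
    by_cases hp : (v, b) ∈ {p : (ℂ × ℝ) × ℝ | p.1 ∈ N ∧ Φ.St T p.2 p.1 ∈ Y ∧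
        lc_len P Φ T (p.2, p.1) ≤ δ ∧
        ((Φ.St T p.2 p.1 ∈ E ∧ p.1 ∉ E) ∨ (Φ.St T p.2 p.1 ∉ E ∧ p.1 ∈ E))}
    · have hp1 : v ∈ N := hp.1
      have hp2 : Φ.St T b v ∈ Y := hp.2.1
      have hvS : v ∈ P.S := hNS hp1
      have hp3 : Φ.len T b v ≤ δ := by
        have h3 : lc_len P Φ T (b, v) ≤ δ := hp.2.2.1
        rwa [lc_len_of P Φ T b hvS] at h3
      have hp4 : (Φ.St T b v ∈ E ∧ v ∉ E) ∨ (Φ.St T b v ∉ E ∧ v ∈ E) := hp.2.2.2
      have hwS : Φ.St T b v ∈ P.S := lc_St_mem P Φ T b hvS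
      rw [lc_H_of P Φ T δ N Y E hvS hp1 hp2 hp3 hp4]
      obtain ⟨d1, d2, d3⟩ := lc_dist P Φ hk δ C₁ hC₁ G hD T hT v hvS b hp3 (hYG hp2)
      have hlen : Φ.len T (-b) (Φ.St T b v) ≤ δ := by
        rw [(len_props P Φ hk T hT1 v hvS b).1]; exact hp3
      have hc := hcl T hT (Φ.St T b v) hwS (hYG hp2) (-b) hlen
      rw [lc_St_back] at hc
      have h1 := lc_one_le P Φ E hinv f hf T hT0 v (Φ.St T b v) hvS hwS C₂ hC₂ hc hp4
      have hh1 : h (Φ.St T b v, b) = ENNReal.ofReal C₁ * ENNReal.ofReal (Φ.J T (Φ.St T b v)) *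
          lc_Qb P Φ E f T (Φ.St T b v) := by
        have hm : (Φ.St T b v, b) ∈ {p : (ℂ × ℝ) × ℝ | p.1 ∈ Y} := hp2
        rw [hh]
        simp only
        rw [indicator_of_mem hm, lc_K_of P Φ T _ hwS d2]
      have hk1 : k (v, b) = ENNReal.ofReal (Φ.J T v) *
          (ENNReal.ofReal (C₂ / T) + lc_Qb P Φ E f T v) := by
        have hm : (v, b) ∈ {p : (ℂ × ℝ) × ℝ | p.1 ∈ N} := hp1
        rw [hkk]
        simp only
        rw [indicator_of_mem hm, lc_K_of P Φ T _ hvS d3]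
      rw [hh1, hk1]
      calc ENNReal.ofReal (Φ.J T v) = ENNReal.ofReal (Φ.J T v) * 1 := by rw [mul_one]
        _ ≤ ENNReal.ofReal (Φ.J T v) * (lc_Qb P Φ E f T (Φ.St T b v) +
            (ENNReal.ofReal (C₂ / T) + lc_Qb P Φ E f T v)) := by gcongr
        _ = ENNReal.ofReal (Φ.J T v) * lc_Qb P Φ E f T (Φ.St T b v) +
            ENNReal.ofReal (Φ.J T v) * (ENNReal.ofReal (C₂ / T) + lc_Qb P Φ E f T v) := by
            rw [mul_add]
        _ ≤ _ := by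
            gcongr
            rw [← ENNReal.ofReal_mul hC0.le]
            exact ENNReal.ofReal_le_ofReal d1
    · unfold lc_H
      rw [indicator_of_notMem hp]
      exact bot_le
  have hSt : Measurable (fun p : (ℂ × ℝ) × ℝ => Φ.St T p.2 p.1) :=
    (lc_St_meas P Φ T).comp (measurable_snd.prodMk measurable_fst)
  have hhs : Measurable (fun p : (ℂ × ℝ) × ℝ => h (Φ.St T p.2 p.1, p.2)) :=
    hhm.comp (hSt.prodMk measurable_snd)
  have e1 : ∫⁻ v, (∫⁻ b, lc_H P Φ T δ N Y E v b) ∂P.m ≤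
      ∫⁻ v, (∫⁻ b, h (Φ.St T b v, b)) ∂P.m + ∫⁻ v, (∫⁻ b, k (v, b)) ∂P.m := by
    calc ∫⁻ v, (∫⁻ b, lc_H P Φ T δ N Y E v b) ∂P.m
        ≤ ∫⁻ v, (∫⁻ b, (h (Φ.St T b v, b) + k (v, b))) ∂P.m :=
          lintegral_mono (fun v => lintegral_mono (fun b => hpt v b))
      _ = ∫⁻ v, ((∫⁻ b, h (Φ.St T b v, b)) + ∫⁻ b, k (v, b)) ∂P.m := by
          refine lintegral_congr (fun v => ?_)
          exact lintegral_add_left (hhs.comp (measurable_const.prodMk measurable_id)) _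
      _ = _ := by
          rw [lintegral_add_left (Measurable.lintegral_prod_right' (ν := volume) hhs)]
  have e2 : ∫⁻ v, (∫⁻ b, h (Φ.St T b v, b)) ∂P.m = ∫⁻ v, (∫⁻ b, h (v, b)) ∂P.m := by
    rw [lintegral_lintegral_swap (f := fun v b => h (Φ.St T b v, b)) hhs.aemeasurable,
      lintegral_lintegral_swap (f := fun v b => h (v, b)) hhm.aemeasurable]
    refine lintegral_congr (fun b => ?_)
    exact (m_St P Φ T b).lintegral_comp (f := fun v => h (v, b))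
      (hhm.comp (measurable_id.prodMk measurable_const))
  have e3 : ∫⁻ v, (∫⁻ b, h (v, b)) ∂P.m ≤
      ENNReal.ofReal (2 * (C₁ ^ 2 * δ)) * (∫⁻ v in N, lc_Qb P Φ E f T v ∂P.m) := by
    have h1 : ∀ v, ∫⁻ b, h (v, b) ≤ N.indicator
        (fun v => ENNReal.ofReal (2 * (C₁ ^ 2 * δ)) * lc_Qb P Φ E f T v) v := by
      intro v
      by_cases hv : v ∈ Y
      · rw [indicator_of_mem (hYN hv)]
        have h2 : ∀ b, h (v, b) = ENNReal.ofReal C₁ * lc_Qb P Φ E f T v *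
            lc_K P Φ T (C₁ * δ) v b := by
          intro b
          have hm : (v, b) ∈ {p : (ℂ × ℝ) × ℝ | p.1 ∈ Y} := hv
          rw [hh]
          simp only
          rw [indicator_of_mem hm]
          ring
        simp only [h2]
        rw [lintegral_const_mul _ (hKm1 _ v)]
        calc ENNReal.ofReal C₁ * lc_Qb P Φ E f T v * ∫⁻ b, lc_K P Φ T (C₁ * δ) v b
            ≤ ENNReal.ofReal C₁ * lc_Qb P Φ E f T v * ENNReal.ofReal (2 * (C₁ * δ)) := by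
              gcongr
              exact lc_K_int P Φ T _ v
          _ = (ENNReal.ofReal C₁ * ENNReal.ofReal (2 * (C₁ * δ))) * lc_Qb P Φ E f T v := by ring
          _ = _ := by
              rw [← ENNReal.ofReal_mul hC0.le]
              congr 2
              ring
      · have h2 : ∀ b, h (v, b) = 0 := by
          intro b
          have hm : (v, b) ∉ {p : (ℂ × ℝ) × ℝ | p.1 ∈ Y} := hv
          rw [hh]
          simp only
          rw [indicator_of_notMem hm]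
        simp only [h2]
        simp
    calc ∫⁻ v, (∫⁻ b, h (v, b)) ∂P.m
        ≤ ∫⁻ v, N.indicator
            (fun v => ENNReal.ofReal (2 * (C₁ ^ 2 * δ)) * lc_Qb P Φ E f T v) v ∂P.m :=
          lintegral_mono h1
      _ = _ := by rw [lintegral_indicator hN, lintegral_const_mul _ hQm]
  have e4 : ∫⁻ v, (∫⁻ b, k (v, b)) ∂P.m ≤
      ENNReal.ofReal (2 * (C₁ ^ 2 * δ)) * (ENNReal.ofReal (C₂ / T) * P.m N +
        ∫⁻ v in N, lc_Qb P Φ E f T v ∂P.m) := by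
    have h1 : ∀ v, ∫⁻ b, k (v, b) ≤ N.indicator
        (fun v => ENNReal.ofReal (2 * (C₁ ^ 2 * δ)) *
          (ENNReal.ofReal (C₂ / T) + lc_Qb P Φ E f T v)) v := by
      intro v
      by_cases hv : v ∈ N
      · rw [indicator_of_mem hv]
        have h2 : ∀ b, k (v, b) = (ENNReal.ofReal (C₂ / T) + lc_Qb P Φ E f T v) *
            lc_K P Φ T (C₁ ^ 2 * δ) v b := by
          intro b
          have hm : (v, b) ∈ {p : (ℂ × ℝ) × ℝ | p.1 ∈ N} := hv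
          rw [hkk]
          simp only
          rw [indicator_of_mem hm]
          ring
        simp only [h2]
        rw [lintegral_const_mul _ (hKm1 _ v), mul_comm]
        gcongr
        exact lc_K_int P Φ T _ v
      · have h2 : ∀ b, k (v, b) = 0 := by
          intro b
          have hm : (v, b) ∉ {p : (ℂ × ℝ) × ℝ | p.1 ∈ N} := hv
          rw [hkk]
          simp only
          rw [indicator_of_notMem hm]
        simp only [h2]
        simp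
    calc ∫⁻ v, (∫⁻ b, k (v, b)) ∂P.m
        ≤ ∫⁻ v, N.indicator (fun v => ENNReal.ofReal (2 * (C₁ ^ 2 * δ)) *
          (ENNReal.ofReal (C₂ / T) + lc_Qb P Φ E f T v)) v ∂P.m :=
          lintegral_mono h1
      _ = _ := by
          have hm2 : Measurable (fun v => ENNReal.ofReal (C₂ / T) + lc_Qb P Φ E f T v) :=
            measurable_const.add hQm
          rw [lintegral_indicator hN, lintegral_const_mul _ hm2,
            lintegral_add_left measurable_const, setLIntegral_const]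
  calc _ ≤ _ := e1
    _ ≤ _ := add_le_add (e2.le.trans e3) e4

theorem lc_small (P : Pres) (Φ : GFlow P) (hk : ∀ z ∈ P.Ω, 0 ≤ kk P.u z) (κ L δ C : ℝ)
    (hκ : 1 ≤ κ) (hL : 1 ≤ L) (hδ : 0 < δ) (hC : 0 < C) (hk2 : ∀ z ∈ P.Ω, kk P.u z ≤ κ ^ 2)
    (hLk : ∀ v ∈ P.S, |fderiv ℝ (kk P.u) v.1 (HH P.u v).1| ≤ L)
    (C₁ : ℝ) (hC₁ : 1 ≤ C₁)
    (hD : ∀ T : ℝ, 3 ≤ T → ∀ v ∈ P.S, v ∈ {v | Φ.gg κ (L * δ) v ≤ ENNReal.ofReal C} →
      ∀ b : ℝ, Φ.len T b v ≤ δ →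
        Φ.J T v ≤ C₁ * Φ.J T (Φ.St T b v) ∧ Φ.J T (Φ.St T b v) ≤ C₁ * Φ.J T v)
    (F : Set ℂ) (hF : P.IsFund F) (E : Set (ℂ × ℝ)) (hE : P.IsSetUM E)
    (hinv : ∀ v ∈ P.S, ∀ a, Φ.φ a v ∈ E ↔ v ∈ E)
    (N : Set (ℂ × ℝ)) (hN : IsCompact N) (hNS : N ⊆ P.S)
    (Y : Set (ℂ × ℝ)) (hY : MeasurableSet Y) (hYN : Y ⊆ N)
    (hYG : Y ⊆ {v | Φ.gg κ (L * δ) v ≤ ENNReal.ofReal C})
    (η : ℝ) (hη : 0 < η) : ∃ T₁ : ℝ, 3 ≤ T₁ ∧ ∀ T : ℝ, T₁ ≤ T →
      ∫⁻ v, (∫⁻ b, lc_H P Φ T δ N Y E v b) ∂P.m ≤ ENNReal.ofReal η := by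
  have hC0 : 0 < C₁ := by linarith
  obtain ⟨n, hn⟩ := int_compact P F hF N hN hNS
  set ε : ℝ := η / (8 * C₁ ^ 2 * δ * (n + 1)) with hε
  have hε0 : 0 < ε := by positivity
  obtain ⟨f, M, hf, hfi, hfm, hfM, hfa⟩ := approx P F hF E hE ε hε0
  obtain ⟨C₂, hC₂, hcl⟩ := close_avg P Φ hk κ L δ C M hκ hL hδ hC hk2 hLk f hf hfM
  set m : ℝ := (P.m N).toReal with hm
  have hm0 : 0 ≤ m := ENNReal.toReal_nonneg
  have hmN : P.m N = ENNReal.ofReal m := (ENNReal.ofReal_toReal (lc_m_fin P hN hNS)).symm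
  refine ⟨max 3 (4 * C₁ ^ 2 * δ * C₂ * m / η), le_max_left _ _, fun T hT => ?_⟩
  have hT3 : 3 ≤ T := (le_max_left _ _).trans hT
  have hT0 : 0 < T := by linarith
  have hT4 : 4 * C₁ ^ 2 * δ * C₂ * m / η ≤ T := (le_max_right _ _).trans hT
  have h1 := lc_small_T P Φ hk δ C₁ C₂ hC₁ hC₂
    {v | Φ.gg κ (L * δ) v ≤ ENNReal.ofReal C} hD f hf.continuousOn hfm
    (fun T hT v hv hvG b hb => hcl T hT v hv hvG b hb) E hE.meas hinv N hN.measurableSet hNS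
    Y hY hYN hYG T hT3
  have h2 : ∫⁻ v in N, lc_Qb P Φ E f T v ∂P.m ≤ n * ENNReal.ofReal ε :=
    lc_Qb_int P Φ F hF E hE f hfi hfm N n hn _ hfa T hT0
  refine h1.trans ?_
  calc _ ≤ ENNReal.ofReal (2 * (C₁ ^ 2 * δ)) * (n * ENNReal.ofReal ε) +
      ENNReal.ofReal (2 * (C₁ ^ 2 * δ)) * (ENNReal.ofReal (C₂ / T) * P.m N +
        n * ENNReal.ofReal ε) := by gcongr
    _ = ENNReal.ofReal (2 * (C₁ ^ 2 * δ) * (n * ε) +
        2 * (C₁ ^ 2 * δ) * (C₂ / T * m + n * ε)) := by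
        rw [hmN, ← ENNReal.ofReal_natCast n, ← ENNReal.ofReal_mul (by positivity),
          ← ENNReal.ofReal_mul (by positivity), ← ENNReal.ofReal_mul (by positivity),
          ← ENNReal.ofReal_add (by positivity) (by positivity),
          ← ENNReal.ofReal_mul (by positivity),
          ← ENNReal.ofReal_add (by positivity) (by positivity)]
    _ ≤ ENNReal.ofReal η := by
        refine ENNReal.ofReal_le_ofReal ?_
        have h3 : 4 * C₁ ^ 2 * δ * (n * ε) ≤ η / 2 := by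
          have h4 : 4 * C₁ ^ 2 * δ * (n * ε) = η / 2 * (n / (n + 1)) := by
            rw [hε]
            field_simp
            ring
          rw [h4]
          have h5 : (n : ℝ) / (n + 1) ≤ 1 := by
            rw [div_le_one (by positivity)]
            linarith
          nlinarith
        have h4 : 2 * C₁ ^ 2 * δ * (C₂ / T * m) ≤ η / 2 := by
          rw [div_le_iff₀ hη] at hT4
          have h5 : 2 * C₁ ^ 2 * δ * (C₂ / T * m) = (4 * C₁ ^ 2 * δ * C₂ * m) / (2 * T) := by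
            field_simp
            ring
          rw [h5, div_le_iff₀ (by positivity)]
          linarith
        nlinarith

/-! ### part 3 -/

/-- the opposite vector -/
def lc_flip (v : ℂ × ℝ) : ℂ × ℝ := (v.1, v.2 + Real.pi)

theorem lc_flip_rot (v : ℂ × ℝ) : lc_flip (rot (-Real.pi) v) = v := by
  simp [lc_flip, rot]

theorem lc_rot_flip (v : ℂ × ℝ) : rot (-Real.pi) (lc_flip v) = v := by
  simp [lc_flip, rot]

theorem lc_flip_cont : Continuous lc_flip := by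
  unfold lc_flip
  fun_prop

theorem lc_flip_mem (P : Pres) {v : ℂ × ℝ} (hv : v ∈ P.S) : lc_flip v ∈ P.S := lc_mem_S P hv _

theorem lc_rot_mem (P : Pres) (b : ℝ) {v : ℂ × ℝ} (hv : v ∈ P.S) : rot b v ∈ P.S :=
  lc_mem_S P hv _

theorem lc_flip_setUM {P : Pres} {A : Set (ℂ × ℝ)} (hA : P.IsSetUM A) :
    P.IsSetUM (lc_flip ⁻¹' A) where
  meas := lc_flip_cont.measurable hA.meas
  per := by
    intro v hv
    have h1 := hA.per (lc_flip v) (lc_flip_mem P hv)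
    have h2 : lc_flip (v.1, v.2 + 2 * Real.pi) = ((lc_flip v).1, (lc_flip v).2 + 2 * Real.pi) := by
      simp only [lc_flip]
      congr 1
      ring
    show lc_flip (v.1, v.2 + 2 * Real.pi) ∈ A ↔ lc_flip v ∈ A
    rw [h2]
    exact h1
  inv := by
    intro g v hv
    have h1 := hA.inv g (lc_flip v) (lc_flip_mem P hv)
    have h2 : lc_flip (P.actS g v) = P.actS g (lc_flip v) := by
      simp only [lc_flip, Pres.actS]
      congr 1
      ring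
    show lc_flip (P.actS g v) ∈ A ↔ lc_flip v ∈ A
    rw [h2]
    exact h1

theorem lc_flip_inv {P : Pres} (Φ : GFlow P) {A : Set (ℂ × ℝ)}
    (hinv : ∀ v ∈ P.S, ∀ a, Φ.φ a v ∈ A ↔ v ∈ A) :
    ∀ v ∈ P.S, ∀ a, Φ.φ a v ∈ lc_flip ⁻¹' A ↔ v ∈ lc_flip ⁻¹' A := by
  intro v hv a
  have h1 := Φ.flip a v hv
  show lc_flip (Φ.φ a v) ∈ A ↔ lc_flip v ∈ A
  have h2 : lc_flip (Φ.φ a v) = Φ.φ (-a) (lc_flip v) := h1.symm
  rw [h2]
  exact hinv _ (lc_flip_mem P hv) _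

theorem lc_geod (P : Pres) (Φ : GFlow P) {A : Set (ℂ × ℝ)} (hfl : P.FlowInv A) :
    ∀ v ∈ P.S, ∀ a, Φ.φ a v ∈ A ↔ v ∈ A := by
  intro v hv a
  have h1 : P.IsGeod (fun t => Φ.φ t v) := fun t => ⟨Φ.mem t v hv, Φ.deriv_t t v hv⟩
  have h2 := hfl _ h1 a 0
  simpa only [Φ.zero] using h2

/-- the Jacobian bound -/
theorem lc_jac (P : Pres) (Φ : GFlow P) (hk : ∀ z ∈ P.Ω, 0 ≤ kk P.u z) (κ : ℝ) (hκ : 1 ≤ κ)
    (hk2 : ∀ z ∈ P.Ω, kk P.u z ≤ κ ^ 2) (T t : ℝ) (hT : 3 ≤ T) (ht : |t| ≤ 1) (v : ℂ × ℝ)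
    (hv : v ∈ P.S) (b₁ b₂ : ℝ) :
    Φ.Jac T (v, b₁, b₂, t) ≤ 2 * (κ + 1) * Real.exp (κ + 1) *
      (Φ.J T v * Φ.J T (rot (-Real.pi) (Φ.φ t v))) := by
  have hvt : Φ.φ t v ∈ P.S := Φ.mem t v hv
  set w := rot (-Real.pi) (Φ.φ t v) with hw
  have hwS : w ∈ P.S := lc_rot_mem P _ hvt
  have hfw : (w.1, w.2 + Real.pi) = Φ.φ t v := lc_flip_rot _
  have hJ : Φ.J (-T) (Φ.φ t v) = -Φ.J T w := by
    rw [← hfw]
    exact (flip_St P Φ T 0 w hwS).2.1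
  obtain ⟨s1, s2, s3⟩ := J_shift P Φ hk κ hκ hk2 T t (by linarith) ht v hv
  obtain ⟨p1, p2, -, -⟩ := J_pos P Φ hk T (by linarith) v hv
  have r1 := (J_ric P Φ hk κ hκ hk2 T (by linarith) v hv).1
  have ht2 := abs_le.1 ht
  have q1 := (J_pos P Φ hk (T - t) (by linarith) v hv).2.2.2
  rw [neg_sub] at q1
  rw [hJ, neg_neg] at s1
  have hJac : Φ.Jac T (v, b₁, b₂, t) = |Φ.J T v * Φ.J' (t - T) v - Φ.J' T v * Φ.J (t - T) v| := rfl
  have hJ0 : 0 < Φ.J T v := by linarith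
  have hJw : 0 < Φ.J T w := by
    have h1 := (J_pos P Φ hk T (by linarith) w hwS).1
    linarith
  rw [hJac]
  have e1 : Φ.J T v * Φ.J' (t - T) v - Φ.J' T v * Φ.J (t - T) v =
      Φ.J T v * Φ.J' (t - T) v + Φ.J' T v * -Φ.J (t - T) v := by ring
  have e2 : 0 ≤ Φ.J T v * Φ.J' (t - T) v := by nlinarith
  have e3 : 0 ≤ Φ.J' T v * -Φ.J (t - T) v := mul_nonneg (by linarith) s2.le
  rw [e1, abs_of_nonneg (by linarith)]
  have e4 : Φ.J T v * Φ.J' (t - T) v ≤ Φ.J T v * ((κ + 1) * -Φ.J (t - T) v) :=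
    mul_le_mul_of_nonneg_left s3 hJ0.le
  have e5 : Φ.J' T v * -Φ.J (t - T) v ≤ (κ + 1) * Φ.J T v * -Φ.J (t - T) v :=
    mul_le_mul_of_nonneg_right r1 s2.le
  have e6 : 2 * (κ + 1) * Φ.J T v * -Φ.J (t - T) v ≤
      2 * (κ + 1) * Φ.J T v * (Real.exp (κ + 1) * Φ.J T w) :=
    mul_le_mul_of_nonneg_left s1 (by positivity)
  linarith

/-! ### the two integrals -/

theorem lc_int1 (P : Pres) (Φ : GFlow P) (T D : ℝ) (h : (ℂ × ℝ) × ℝ → ℝ≥0∞) (hh : Measurable h)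
    (χ : ℝ → ℝ≥0∞) (hχ : Measurable χ) :
    ∫⁻ p : (ℂ × ℝ) × ℝ × ℝ × ℝ, h (p.1, p.2.1) * (χ p.2.2.2 *
      lc_K P Φ T D (rot (-Real.pi) (Φ.φ p.2.2.2 p.1)) p.2.2.1)
      ∂(P.m.prod (volume.prod (volume.prod volume))) ≤
    (∫⁻ v, (∫⁻ b, h (v, b)) ∂P.m) * ((∫⁻ t, χ t) * ENNReal.ofReal (2 * D)) := by
  have hKm := lc_K_meas P Φ T D
  have hφ : ∀ v, Measurable (fun r : ℝ × ℝ => (rot (-Real.pi) (Φ.φ r.2 v), r.1)) := fun v =>
    ((lc_rot_meas _).comp ((lc_phi_meas P Φ).comp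
      (measurable_snd.prodMk measurable_const))).prodMk measurable_fst
  have h1 : ∀ v, Measurable (fun r : ℝ × ℝ => χ r.2 *
      lc_K P Φ T D (rot (-Real.pi) (Φ.φ r.2 v)) r.1) := fun v =>
    (hχ.comp measurable_snd).mul (hKm.comp (hφ v))
  have h2 : ∀ v, ∫⁻ r : ℝ × ℝ, χ r.2 * lc_K P Φ T D (rot (-Real.pi) (Φ.φ r.2 v)) r.1
      ∂(volume.prod volume) ≤ (∫⁻ t, χ t) * ENNReal.ofReal (2 * D) := by
    intro v
    rw [lintegral_prod_symm _ (h1 v).aemeasurable]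
    calc ∫⁻ t, ∫⁻ b, χ t * lc_K P Φ T D (rot (-Real.pi) (Φ.φ t v)) b
        ≤ ∫⁻ t, χ t * ENNReal.ofReal (2 * D) := by
          refine lintegral_mono (fun t => ?_)
          have h3 : Measurable (fun b => lc_K P Φ T D (rot (-Real.pi) (Φ.φ t v)) b) :=
            hKm.comp (measurable_const.prodMk measurable_id)
          show ∫⁻ b, χ t * lc_K P Φ T D (rot (-Real.pi) (Φ.φ t v)) b ≤ _
          rw [lintegral_const_mul _ h3]
          gcongr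
          exact lc_K_int P Φ T D _
      _ = _ := lintegral_mul_const _ hχ
  refine (lintegral_prod_le _).trans ?_
  have h4 : ∀ v, Measurable (fun b => h (v, b)) := fun v =>
    hh.comp (measurable_const.prodMk measurable_id)
  calc _ ≤ ∫⁻ v, (∫⁻ b, h (v, b)) * ((∫⁻ t, χ t) * ENNReal.ofReal (2 * D)) ∂P.m := by
        refine lintegral_mono (fun v => ?_)
        refine (lintegral_prod_le _).trans ?_
        calc _ ≤ ∫⁻ b, h (v, b) * ((∫⁻ t, χ t) * ENNReal.ofReal (2 * D)) := by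
              refine lintegral_mono (fun b => ?_)
              show ∫⁻ r : ℝ × ℝ, h (v, b) * (χ r.2 *
                lc_K P Φ T D (rot (-Real.pi) (Φ.φ r.2 v)) r.1) ∂(volume.prod volume) ≤ _
              rw [lintegral_const_mul _ (h1 v)]
              gcongr
              exact h2 v
          _ = _ := lintegral_mul_const _ (h4 v)
          _ ≤ _ := le_rfl
    _ = _ := lintegral_mul_const _ (Measurable.lintegral_prod_right' (ν := volume) hh)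

theorem lc_int2 (P : Pres) (Φ : GFlow P) (T D : ℝ) (h : (ℂ × ℝ) × ℝ → ℝ≥0∞) (hh : Measurable h)
    (χ : ℝ → ℝ≥0∞) (hχ : Measurable χ) :
    ∫⁻ p : (ℂ × ℝ) × ℝ × ℝ × ℝ, lc_K P Φ T D p.1 p.2.1 * (χ p.2.2.2 *
      h (rot (-Real.pi) (Φ.φ p.2.2.2 p.1), p.2.2.1))
      ∂(P.m.prod (volume.prod (volume.prod volume))) ≤
    (∫⁻ v, (∫⁻ b, h (v, b)) ∂P.m) * ((∫⁻ t, χ t) * ENNReal.ofReal (2 * D)) := by
  have hKm := lc_K_meas P Φ T D
  have hφ : ∀ v, Measurable (fun r : ℝ × ℝ => (rot (-Real.pi) (Φ.φ r.2 v), r.1)) := fun v =>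
    ((lc_rot_meas _).comp ((lc_phi_meas P Φ).comp
      (measurable_snd.prodMk measurable_const))).prodMk measurable_fst
  have h1 : ∀ v, Measurable (fun r : ℝ × ℝ => χ r.2 *
      h (rot (-Real.pi) (Φ.φ r.2 v), r.1)) := fun v =>
    (hχ.comp measurable_snd).mul (hh.comp (hφ v))
  set Z : ℂ × ℝ → ℝ≥0∞ := fun w => ∫⁻ b, h (w, b) with hZ
  have hZm : Measurable Z := Measurable.lintegral_prod_right' (ν := volume) hh
  have h2 : ∀ v, ∫⁻ r : ℝ × ℝ, χ r.2 * h (rot (-Real.pi) (Φ.φ r.2 v), r.1)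
      ∂(volume.prod volume) = ∫⁻ t, χ t * Z (rot (-Real.pi) (Φ.φ t v)) := by
    intro v
    rw [lintegral_prod_symm _ (h1 v).aemeasurable]
    refine lintegral_congr (fun t => ?_)
    show ∫⁻ b, χ t * h (rot (-Real.pi) (Φ.φ t v), b) = _
    have h3 : Measurable (fun b => h (rot (-Real.pi) (Φ.φ t v), b)) :=
      hh.comp (measurable_const.prodMk measurable_id)
    rw [lintegral_const_mul _ h3]
  refine (lintegral_prod_le _).trans ?_
  have hK1 : ∀ v, Measurable (fun b => lc_K P Φ T D v b) := fun v =>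
    hKm.comp (measurable_const.prodMk measurable_id)
  have hφ2 : Measurable (fun p : (ℂ × ℝ) × ℝ => rot (-Real.pi) (Φ.φ p.2 p.1)) :=
    (lc_rot_meas _).comp ((lc_phi_meas P Φ).comp (measurable_snd.prodMk measurable_fst))
  have h5 : Measurable (fun p : (ℂ × ℝ) × ℝ => χ p.2 * Z (rot (-Real.pi) (Φ.φ p.2 p.1))) :=
    (hχ.comp measurable_snd).mul (hZm.comp hφ2)
  calc _ ≤ ∫⁻ v, ENNReal.ofReal (2 * D) *
        (∫⁻ t, χ t * Z (rot (-Real.pi) (Φ.φ t v))) ∂P.m := by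
        refine lintegral_mono (fun v => ?_)
        refine (lintegral_prod_le _).trans ?_
        calc _ = ∫⁻ b, lc_K P Φ T D v b *
              (∫⁻ t, χ t * Z (rot (-Real.pi) (Φ.φ t v))) := by
              refine lintegral_congr (fun b => ?_)
              show ∫⁻ r : ℝ × ℝ, lc_K P Φ T D v b * (χ r.2 *
                h (rot (-Real.pi) (Φ.φ r.2 v), r.1)) ∂(volume.prod volume) = _
              rw [lintegral_const_mul _ (h1 v), h2 v]
          _ = (∫⁻ b, lc_K P Φ T D v b) *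
              (∫⁻ t, χ t * Z (rot (-Real.pi) (Φ.φ t v))) := lintegral_mul_const _ (hK1 v)
          _ ≤ _ := by
              gcongr
              exact lc_K_int P Φ T D v
    _ = ENNReal.ofReal (2 * D) * ∫⁻ v,
        (∫⁻ t, χ t * Z (rot (-Real.pi) (Φ.φ t v))) ∂P.m :=
        lintegral_const_mul' _ _ ENNReal.ofReal_ne_top
    _ = ENNReal.ofReal (2 * D) * ∫⁻ t, ∫⁻ v, χ t * Z (rot (-Real.pi) (Φ.φ t v)) ∂P.m := by
        rw [lintegral_lintegral_swap (f := fun v t => χ t * Z (rot (-Real.pi) (Φ.φ t v)))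
          h5.aemeasurable]
    _ = ENNReal.ofReal (2 * D) * ∫⁻ t, χ t * ∫⁻ v, Z v ∂P.m := by
        congr 1
        refine lintegral_congr (fun t => ?_)
        have h6 : Measurable (fun v => Z (rot (-Real.pi) (Φ.φ t v))) :=
          hZm.comp ((lc_rot_meas _).comp (lc_phi_meas' P Φ t))
        rw [lintegral_const_mul _ h6]
        congr 1
        exact ((m_rot P (-Real.pi)).comp (m_phi P Φ t)).lintegral_comp hZm
    _ = ENNReal.ofReal (2 * D) * ((∫⁻ t, χ t) * ∫⁻ v, Z v ∂P.m) := by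
        rw [lintegral_mul_const _ hχ]
    _ = _ := by
        rw [hZ]
        ring
    _ ≤ _ := le_rfl

/-! ### part 4 -/

/-- the estimate of `m(A₁) m(B₁)` for one `T` -/
theorem lc_prod_T (P : Pres) (Φ : GFlow P) (hk : ∀ z ∈ P.Ω, 0 ≤ kk P.u z) (κ δ C₁ : ℝ)
    (hκ : 1 ≤ κ) (hk2 : ∀ z ∈ P.Ω, kk P.u z ≤ κ ^ 2)
    (hδ1 : δ ≤ 1) (hC₁ : 1 ≤ C₁) (G : Set (ℂ × ℝ))
    (hD : ∀ T : ℝ, 3 ≤ T → ∀ v ∈ P.S, v ∈ G →
      ∀ b : ℝ, Φ.len T b v ≤ δ →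
        Φ.J T v ≤ C₁ * Φ.J T (Φ.St T b v) ∧ Φ.J T (Φ.St T b v) ≤ C₁ * Φ.J T v)
    (A : Set (ℂ × ℝ)) (hinv : ∀ v ∈ P.S, ∀ a, Φ.φ a v ∈ A ↔ v ∈ A)
    (N : Set (ℂ × ℝ)) (hN : MeasurableSet N) (hNS : N ⊆ P.S) (hA : MeasurableSet A)
    (A₁ B₁ : Set (ℂ × ℝ)) (hA₁ : MeasurableSet A₁) (hB₁ : MeasurableSet B₁)
    (hA₁A : A₁ ⊆ A) (hB₁A : ∀ v ∈ B₁, v ∉ A) (hA₁G : A₁ ⊆ G) (hB₁G : lc_flip ⁻¹' B₁ ⊆ G)
    (T : ℝ) (hT : 3 ≤ T)
    (hcr : ∀ v₁ ∈ A₁, ∀ v₂ ∈ B₁, ∃ (v : ℂ × ℝ) (b₁ b₂ t : ℝ), v ∈ N ∧ Φ.φ t v ∈ N ∧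
        |t| ≤ δ ∧ Φ.Xi T (v, b₁, b₂, t) = (v₁, v₂) ∧
        Φ.len T b₁ v ≤ δ ∧ Φ.len (-T) b₂ (Φ.φ t v) ≤ δ) :
    P.m A₁ * P.m B₁ ≤ ENNReal.ofReal (2 * (κ + 1) * Real.exp (κ + 1)) *
      ((∫⁻ v, (∫⁻ b, lc_H P Φ T δ N A₁ A v b) ∂P.m) *
        (ENNReal.ofReal (2 * δ) * ENNReal.ofReal (2 * (C₁ ^ 2 * δ))) +
      (∫⁻ v, (∫⁻ b, lc_H P Φ T δ (lc_flip ⁻¹' N) (lc_flip ⁻¹' B₁) (lc_flip ⁻¹' A) v b) ∂P.m) *
        (ENNReal.ofReal (2 * δ) * ENNReal.ofReal (2 * (C₁ ^ 2 * δ)))) := by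
  have hT0 : 0 < T := by linarith
  have hT1 : 1 ≤ |T| := by rw [abs_of_nonneg hT0.le]; linarith
  set K₀ : ℝ := 2 * (κ + 1) * Real.exp (κ + 1) with hK₀
  have hK₀0 : 0 ≤ K₀ := by positivity
  have hfm : Measurable lc_flip := lc_flip_cont.measurable
  -- the domain
  set D : Set ((ℂ × ℝ) × ℝ × ℝ × ℝ) := {p | p.1 ∈ N ∧ Φ.φ p.2.2.2 p.1 ∈ N ∧ |p.2.2.2| ≤ δ ∧
    lc_len P Φ T (p.2.1, p.1) ≤ δ ∧ lc_len P Φ (-T) (p.2.2.1, Φ.φ p.2.2.2 p.1) ≤ δ} with hDd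
  have hm1 : Measurable (fun p : (ℂ × ℝ) × ℝ × ℝ × ℝ => Φ.φ p.2.2.2 p.1) :=
    (lc_phi_meas P Φ).comp (measurable_snd.snd.snd.prodMk measurable_fst)
  have hDm : MeasurableSet D := by
    have h1 : MeasurableSet {p : (ℂ × ℝ) × ℝ × ℝ × ℝ | p.1 ∈ N} := measurable_fst hN
    have h2 : MeasurableSet {p : (ℂ × ℝ) × ℝ × ℝ × ℝ | Φ.φ p.2.2.2 p.1 ∈ N} := hm1 hN
    have h3 : MeasurableSet {p : (ℂ × ℝ) × ℝ × ℝ × ℝ | |p.2.2.2| ≤ δ} :=
      measurableSet_le measurable_snd.snd.snd.norm measurable_const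
    have h4 : MeasurableSet {p : (ℂ × ℝ) × ℝ × ℝ × ℝ | lc_len P Φ T (p.2.1, p.1) ≤ δ} :=
      measurableSet_le ((lc_len_meas P Φ T).comp (measurable_snd.fst.prodMk measurable_fst))
        measurable_const
    have h5 : MeasurableSet {p : (ℂ × ℝ) × ℝ × ℝ × ℝ |
        lc_len P Φ (-T) (p.2.2.1, Φ.φ p.2.2.2 p.1) ≤ δ} :=
      measurableSet_le ((lc_len_meas P Φ (-T)).comp (measurable_snd.snd.fst.prodMk hm1))
        measurable_const
    exact h1.inter (h2.inter (h3.inter (h4.inter h5)))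
  have hDS : ∀ p ∈ D, p.1 ∈ P.S := fun p hp => hNS hp.1
  have hsurj : ∀ v₁ ∈ A₁, ∀ v₂ ∈ B₁, ∃ p ∈ D, Φ.Xi T p = (v₁, v₂) := by
    intro v₁ h₁ v₂ h₂
    obtain ⟨v, b₁, b₂, t, hv, hvt, ht, hX, hl1, hl2⟩ := hcr v₁ h₁ v₂ h₂
    refine ⟨(v, b₁, b₂, t), ⟨hv, hvt, ht, ?_, ?_⟩, hX⟩
    · show lc_len P Φ T (b₁, v) ≤ δ
      rw [lc_len_of P Φ T b₁ (hNS hv)]
      exact hl1
    · show lc_len P Φ (-T) (b₂, Φ.φ t v) ≤ δ
      rw [lc_len_of P Φ (-T) b₂ (hNS hvt)]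
      exact hl2
  refine (area_ineq P Φ T D hDm hDS A₁ B₁ hA₁ hB₁ hsurj).trans ?_
  set χ : ℝ → ℝ≥0∞ := (Icc (-δ) δ).indicator (fun _ => 1) with hχ
  have hχm : Measurable χ := measurable_const.indicator measurableSet_Icc
  have hχi : ∫⁻ t, χ t ≤ ENNReal.ofReal (2 * δ) := by
    rw [hχ, lintegral_indicator measurableSet_Icc, setLIntegral_const, Real.volume_Icc, one_mul]
    refine ENNReal.ofReal_le_ofReal (le_of_eq ?_)
    ring
  set h₁ : (ℂ × ℝ) × ℝ → ℝ≥0∞ := fun p => lc_H P Φ T δ N A₁ A p.1 p.2 with hh₁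
  set h₂ : (ℂ × ℝ) × ℝ → ℝ≥0∞ := fun p =>
    lc_H P Φ T δ (lc_flip ⁻¹' N) (lc_flip ⁻¹' B₁) (lc_flip ⁻¹' A) p.1 p.2 with hh₂
  have hh₁m : Measurable h₁ := lc_H_meas P Φ T δ N A₁ A hN hA₁ hA
  have hh₂m : Measurable h₂ := lc_H_meas P Φ T δ _ _ _ (hfm hN) (hfm hB₁) (hfm hA)
  set G₁ : (ℂ × ℝ) × ℝ × ℝ × ℝ → ℝ≥0∞ := fun p => h₁ (p.1, p.2.1) * (χ p.2.2.2 *
      lc_K P Φ T (C₁ ^ 2 * δ) (rot (-Real.pi) (Φ.φ p.2.2.2 p.1)) p.2.2.1) with hG₁
  set G₂ : (ℂ × ℝ) × ℝ × ℝ × ℝ → ℝ≥0∞ := fun p => lc_K P Φ T (C₁ ^ 2 * δ) p.1 p.2.1 *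
      (χ p.2.2.2 * h₂ (rot (-Real.pi) (Φ.φ p.2.2.2 p.1), p.2.2.1)) with hG₂
  have hpt : ∀ p ∈ D, (A₁ ×ˢ B₁).indicator 1 (Φ.Xi T p) * ENNReal.ofReal (Φ.Jac T p) ≤
      ENNReal.ofReal K₀ * (G₁ p + G₂ p) := by
    rintro ⟨v, b₁, b₂, t⟩ ⟨hv, hvt, ht, hl1, hl2⟩
    have hv' : v ∈ N := hv
    have hvt' : Φ.φ t v ∈ N := hvt
    have hvS : v ∈ P.S := hNS hv'
    have hvtS : Φ.φ t v ∈ P.S := hNS hvt'
    have ht' : |t| ≤ δ := ht
    have hl1' : Φ.len T b₁ v ≤ δ := by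
      have h3 : lc_len P Φ T (b₁, v) ≤ δ := hl1
      rwa [lc_len_of P Φ T b₁ hvS] at h3
    have hl2' : Φ.len (-T) b₂ (Φ.φ t v) ≤ δ := by
      have h3 : lc_len P Φ (-T) (b₂, Φ.φ t v) ≤ δ := hl2
      rwa [lc_len_of P Φ (-T) b₂ hvtS] at h3
    by_cases hX : Φ.Xi T (v, b₁, b₂, t) ∈ A₁ ×ˢ B₁
    · have hX1 : Φ.St T b₁ v ∈ A₁ := hX.1
      have hX2 : Φ.St (-T) b₂ (Φ.φ t v) ∈ B₁ := hX.2
      rw [indicator_of_mem hX, Pi.one_apply, one_mul]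
      set w := rot (-Real.pi) (Φ.φ t v) with hw
      have hwS : w ∈ P.S := lc_rot_mem P _ hvtS
      have hfw : lc_flip w = Φ.φ t v := lc_flip_rot _
      have hfw' : (w.1, w.2 + Real.pi) = Φ.φ t v := hfw
      have hSt2 : Φ.St (-T) b₂ (Φ.φ t v) = lc_flip (Φ.St T b₂ w) := by
        rw [← hfw']
        exact (flip_St P Φ T b₂ w hwS).1
      have hlw : Φ.len T b₂ w ≤ δ := by
        have h3 := (len_props P Φ hk T hT1 w hwS b₂).2.2.2.2
        rw [hfw'] at h3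
        rw [← h3]
        exact hl2'
      have hy : Φ.St T b₂ w ∈ lc_flip ⁻¹' B₁ := by
        show lc_flip (Φ.St T b₂ w) ∈ B₁
        rw [← hSt2]
        exact hX2
      have hjac := lc_jac P Φ hk κ hκ hk2 T t hT (ht'.trans hδ1) v hvS b₁ b₂
      have hJv : 0 ≤ Φ.J T v := by
        have := (J_pos P Φ hk T hT0 v hvS).1
        linarith
      have hJw : 0 ≤ Φ.J T w := by
        have := (J_pos P Φ hk T hT0 w hwS).1
        linarith
      have hjac2 : ENNReal.ofReal (Φ.Jac T (v, b₁, b₂, t)) ≤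
          ENNReal.ofReal K₀ * (ENNReal.ofReal (Φ.J T v) * ENNReal.ofReal (Φ.J T w)) := by
        rw [← ENNReal.ofReal_mul hJv, ← ENNReal.ofReal_mul hK₀0]
        exact ENNReal.ofReal_le_ofReal hjac
      refine hjac2.trans ?_
      gcongr
      have hχ1 : χ t = 1 := by
        have h3 : t ∈ Icc (-δ) δ := abs_le.1 ht'
        rw [hχ, indicator_of_mem h3]
      by_cases hvA : v ∈ A
      · -- the second majorant
        refine le_trans ?_ le_add_self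
        show _ ≤ lc_K P Φ T (C₁ ^ 2 * δ) v b₁ * (χ t * h₂ (w, b₂))
        have d3 := (lc_dist P Φ hk δ C₁ hC₁ G hD T hT v hvS b₁ hl1' (hA₁G hX1)).2.2
        rw [lc_K_of P Φ T _ hvS d3, hχ1, one_mul]
        have h4 : h₂ (w, b₂) = ENNReal.ofReal (Φ.J T w) := by
          refine lc_H_of P Φ T δ _ _ _ hwS ?_ hy hlw (Or.inr ⟨?_, ?_⟩)
          · show lc_flip w ∈ N
            rw [hfw]
            exact hvt'
          · exact hB₁A _ hy
          · show lc_flip w ∈ A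
            rw [hfw]
            exact (hinv v hvS t).2 hvA
        rw [h4]
      · refine le_trans ?_ le_self_add
        show _ ≤ h₁ (v, b₁) * (χ t * lc_K P Φ T (C₁ ^ 2 * δ) w b₂)
        have d3 := (lc_dist P Φ hk δ C₁ hC₁ G hD T hT w hwS b₂ hlw (hB₁G hy)).2.2
        rw [lc_K_of P Φ T _ hwS d3, hχ1, one_mul]
        have h4 : h₁ (v, b₁) = ENNReal.ofReal (Φ.J T v) :=
          lc_H_of P Φ T δ _ _ _ hvS hv' hX1 hl1' (Or.inl ⟨hA₁A hX1, hvA⟩)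
        rw [h4]
    · rw [indicator_of_notMem hX, zero_mul]
      exact bot_le
  have hKm := lc_K_meas P Φ T (C₁ ^ 2 * δ)
  have hφ2 : Measurable (fun p : (ℂ × ℝ) × ℝ × ℝ × ℝ =>
      (rot (-Real.pi) (Φ.φ p.2.2.2 p.1), p.2.2.1)) :=
    ((lc_rot_meas _).comp hm1).prodMk measurable_snd.snd.fst
  have hG₁m : Measurable G₁ :=
    (hh₁m.comp (measurable_fst.prodMk measurable_snd.fst)).mul
      ((hχm.comp measurable_snd.snd.snd).mul (hKm.comp hφ2))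
  have i1 := lc_int1 P Φ T (C₁ ^ 2 * δ) h₁ hh₁m χ hχm
  have i2 := lc_int2 P Φ T (C₁ ^ 2 * δ) h₂ hh₂m χ hχm
  calc ∫⁻ p in D, (A₁ ×ˢ B₁).indicator 1 (Φ.Xi T p) * ENNReal.ofReal (Φ.Jac T p)
        ∂(P.m.prod (volume.prod (volume.prod volume)))
      ≤ ∫⁻ p in D, ENNReal.ofReal K₀ * (G₁ p + G₂ p)
        ∂(P.m.prod (volume.prod (volume.prod volume))) := setLIntegral_mono' hDm hpt
    _ ≤ ∫⁻ p, ENNReal.ofReal K₀ * (G₁ p + G₂ p)
        ∂(P.m.prod (volume.prod (volume.prod volume))) := setLIntegral_le_lintegral _ _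
    _ = ENNReal.ofReal K₀ * (∫⁻ p, G₁ p ∂(P.m.prod (volume.prod (volume.prod volume))) +
        ∫⁻ p, G₂ p ∂(P.m.prod (volume.prod (volume.prod volume)))) := by
        rw [lintegral_const_mul' _ _ ENNReal.ofReal_ne_top, lintegral_add_left hG₁m]
    _ ≤ ENNReal.ofReal K₀ * ((∫⁻ v, (∫⁻ b, h₁ (v, b)) ∂P.m) *
          ((∫⁻ t, χ t) * ENNReal.ofReal (2 * (C₁ ^ 2 * δ))) +
        (∫⁻ v, (∫⁻ b, h₂ (v, b)) ∂P.m) *
          ((∫⁻ t, χ t) * ENNReal.ofReal (2 * (C₁ ^ 2 * δ)))) := by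
        gcongr
    _ ≤ _ := by
        gcongr

/-- the product of the two measures vanishes -/
theorem lc_prod (P : Pres) (Φ : GFlow P) (hk : ∀ z ∈ P.Ω, 0 ≤ kk P.u z) (κ L δ C : ℝ)
    (hκ : 1 ≤ κ) (hL : 1 ≤ L) (hδ : 0 < δ) (hδ1 : δ ≤ 1) (hC : 0 < C)
    (hk2 : ∀ z ∈ P.Ω, kk P.u z ≤ κ ^ 2)
    (hLk : ∀ v ∈ P.S, |fderiv ℝ (kk P.u) v.1 (HH P.u v).1| ≤ L)
    (A : Set (ℂ × ℝ)) (hA : P.IsSetUM A) (hinv : ∀ v ∈ P.S, ∀ a, Φ.φ a v ∈ A ↔ v ∈ A)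
    (N : Set (ℂ × ℝ)) (hN : IsCompact N) (hNS : N ⊆ P.S)
    (A₁ B₁ : Set (ℂ × ℝ)) (hA₁ : MeasurableSet A₁) (hB₁ : MeasurableSet B₁)
    (hA₁N : A₁ ⊆ N) (hB₁N : B₁ ⊆ N)
    (hA₁A : A₁ ⊆ A) (hB₁A : ∀ v ∈ B₁, v ∉ A)
    (hA₁G : A₁ ⊆ {v | Φ.gg κ (L * δ) v ≤ ENNReal.ofReal C})
    (hB₁G : lc_flip ⁻¹' B₁ ⊆ {v | Φ.gg κ (L * δ) v ≤ ENNReal.ofReal C})
    (T₀ : ℝ)
    (hcr : ∀ T, T₀ ≤ T → ∀ v₁ ∈ A₁, ∀ v₂ ∈ B₁, ∃ (v : ℂ × ℝ) (b₁ b₂ t : ℝ), v ∈ N ∧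
        Φ.φ t v ∈ N ∧ |t| ≤ δ ∧ Φ.Xi T (v, b₁, b₂, t) = (v₁, v₂) ∧
        Φ.len T b₁ v ≤ δ ∧ Φ.len (-T) b₂ (Φ.φ t v) ≤ δ) :
    P.m A₁ * P.m B₁ = 0 := by
  obtain ⟨C₁, hC₁, hD⟩ := distort P Φ hk κ L δ C hκ hL hδ hC hk2 hLk
  obtain ⟨F, K, hF, -, -, -⟩ := exists_fund P
  have hC0 : 0 < C₁ := by linarith
  set G : Set (ℂ × ℝ) := {v | Φ.gg κ (L * δ) v ≤ ENNReal.ofReal C} with hG
  have hD' : ∀ T : ℝ, 3 ≤ T → ∀ v ∈ P.S, v ∈ G → ∀ b : ℝ, Φ.len T b v ≤ δ →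
      Φ.J T v ≤ C₁ * Φ.J T (Φ.St T b v) ∧ Φ.J T (Φ.St T b v) ≤ C₁ * Φ.J T v :=
    fun T hT v hv hvG b hb => hD T hT v hv hvG b hb
  have hN' : IsCompact (lc_flip ⁻¹' N) := by
    have h1 : lc_flip ⁻¹' N = rot (-Real.pi) '' N := by
      ext v
      constructor
      · intro h
        exact ⟨lc_flip v, h, lc_rot_flip v⟩
      · rintro ⟨w, hw, rfl⟩
        show lc_flip (rot (-Real.pi) w) ∈ N
        rw [lc_flip_rot]
        exact hw
    rw [h1]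
    refine hN.image ?_
    unfold rot
    fun_prop
  have hN'S : lc_flip ⁻¹' N ⊆ P.S := by
    intro v hv
    have h1 : lc_flip v ∈ P.S := hNS hv
    exact ⟨h1.1, mem_univ _⟩
  have hfm : Measurable lc_flip := lc_flip_cont.measurable
  set W : ℝ := 2 * (κ + 1) * Real.exp (κ + 1) * (2 * δ * (2 * (C₁ ^ 2 * δ))) with hW
  have hW0 : 0 < W := by positivity
  have hle : P.m A₁ * P.m B₁ ≤ 0 := by
    refine ENNReal.le_of_forall_pos_le_add (fun ε hε _ => ?_)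
    rw [zero_add]
    set η : ℝ := (ε : ℝ) / (2 * W) with hη
    have hε' : (0 : ℝ) < ε := hε
    have hη0 : 0 < η := by positivity
    obtain ⟨T₁, hT₁, h1⟩ := lc_small P Φ hk κ L δ C hκ hL hδ hC hk2 hLk C₁ hC₁ hD' F hF A hA hinv
      N hN hNS A₁ hA₁ hA₁N hA₁G η hη0
    obtain ⟨T₂, hT₂, h2⟩ := lc_small P Φ hk κ L δ C hκ hL hδ hC hk2 hLk C₁ hC₁ hD' F hF
      (lc_flip ⁻¹' A) (lc_flip_setUM hA) (lc_flip_inv Φ hinv) (lc_flip ⁻¹' N) hN' hN'S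
      (lc_flip ⁻¹' B₁) (hfm hB₁) (preimage_mono hB₁N) hB₁G η hη0
    set T := max T₀ (max T₁ T₂) with hT
    have e0 : T₀ ≤ T := le_max_left _ _
    have e1 : T₁ ≤ T := (le_max_left _ _).trans (le_max_right _ _)
    have e2 : T₂ ≤ T := (le_max_right _ _).trans (le_max_right _ _)
    refine (lc_prod_T P Φ hk κ δ C₁ hκ hk2 hδ1 hC₁ G hD' A hinv N hN.measurableSet hNS hA.meas
      A₁ B₁ hA₁ hB₁ hA₁A hB₁A hA₁G hB₁G T (hT₁.trans e1) (hcr T e0)).trans ?_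
    calc _ ≤ ENNReal.ofReal (2 * (κ + 1) * Real.exp (κ + 1)) *
          (ENNReal.ofReal η * (ENNReal.ofReal (2 * δ) * ENNReal.ofReal (2 * (C₁ ^ 2 * δ))) +
          ENNReal.ofReal η * (ENNReal.ofReal (2 * δ) * ENNReal.ofReal (2 * (C₁ ^ 2 * δ)))) := by
          gcongr
          · exact h1 T e1
          · exact h2 T e2
      _ = ENNReal.ofReal ε := by
          rw [← ENNReal.ofReal_mul (by positivity), ← ENNReal.ofReal_mul (by positivity),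
            ← ENNReal.ofReal_add (by positivity) (by positivity),
            ← ENNReal.ofReal_mul (by positivity)]
          congr 1
          rw [hη]
          have h3 : 2 * (κ + 1) * Real.exp (κ + 1) * ((ε : ℝ) / (2 * W) *
              (2 * δ * (2 * (C₁ ^ 2 * δ))) + (ε : ℝ) / (2 * W) * (2 * δ * (2 * (C₁ ^ 2 * δ)))) =
              (ε : ℝ) / (2 * W) * (2 * W) := by
            rw [hW]
            ring
          rw [h3]
          field_simp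
      _ = ε := ENNReal.ofReal_coe_nnreal
      _ ≤ _ := le_rfl
  exact le_antisymm hle bot_le

/-- if all truncations are null and almost every point is finite, the set is null -/
theorem lc_exhaust (P : Pres) (X : Set (ℂ × ℝ)) (g : ℂ × ℝ → ℝ≥0∞)
    (hfin : ∀ᵐ v ∂P.m, v ∈ X → g v < ⊤)
    (h : ∀ n : ℕ, P.m (X ∩ {v | g v ≤ ENNReal.ofReal (n + 1)}) = 0) : P.m X = 0 := by
  have h1 : X ⊆ (⋃ n : ℕ, X ∩ {v | g v ≤ ENNReal.ofReal (n + 1)}) ∪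
      {v | ¬(v ∈ X → g v < ⊤)} := by
    intro v hv
    by_cases hg : g v < ⊤
    · left
      obtain ⟨n, hn⟩ := ENNReal.exists_nat_gt hg.ne
      refine mem_iUnion.2 ⟨n, hv, ?_⟩
      show g v ≤ ENNReal.ofReal (n + 1)
      refine hn.le.trans ?_
      rw [← ENNReal.ofReal_natCast n]
      exact ENNReal.ofReal_le_ofReal (by linarith)
    · right
      exact fun h => hg (h hv)
  refine measure_mono_null h1 (measure_union_null (measure_iUnion_null h) ?_)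
  exact hfin

/-- LC : near a vector based in negative curvature an invariant set is null or conull -/
theorem loc_const_pr (P : Pres) (hk : ∀ z ∈ P.Ω, 0 ≤ kk P.u z) (A : Set (ℂ × ℝ))
    (hA : P.IsSetUM A) (hfl : P.FlowInv A) (v₀ : ℂ × ℝ) (hv₀ : v₀ ∈ P.S) (h0 : 0 < kk P.u v₀.1) :
    ∃ O : Set (ℂ × ℝ), IsOpen O ∧ v₀ ∈ O ∧ O ⊆ P.S ∧
      (volume (O ∩ A) = 0 ∨ volume (O \ A) = 0) := by
  obtain ⟨Φ⟩ := exists_gflow P
  obtain ⟨κ, L, hκ, hL, hk1, hLk⟩ := kk_bounds P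
  have hk2 : ∀ z ∈ P.Ω, kk P.u z ≤ κ ^ 2 := fun z hz => (le_abs_self _).trans (hk1 z hz)
  set δ : ℝ := min 1 (kk P.u v₀.1 / (4 * L)) with hδd
  have hδ : 0 < δ := lt_min one_pos (by positivity)
  have hδ1 : δ ≤ 1 := min_le_left _ _
  have hℓ : L * δ < kk P.u v₀.1 := by
    have h1 : L * δ ≤ L * (kk P.u v₀.1 / (4 * L)) :=
      mul_le_mul_of_nonneg_left (min_le_right _ _) (by linarith)
    have h2 : L * (kk P.u v₀.1 / (4 * L)) = kk P.u v₀.1 / 4 := by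
      field_simp
    linarith
  -- the neighbourhood
  set W : Set (ℂ × ℝ) := P.S ∩ (fun v : ℂ × ℝ => kk P.u v.1) ⁻¹' Ioi (L * δ) with hW
  have hWo : IsOpen W := by
    have h1 : ContinuousOn (fun v : ℂ × ℝ => kk P.u v.1) P.S :=
      (lc_kk_cont P).comp continuousOn_fst (fun v hv => hv.1)
    exact h1.isOpen_inter_preimage (lc_S_open P) isOpen_Ioi
  obtain ⟨N, hN, hvN, hNW⟩ := exists_compact_subset hWo (show v₀ ∈ W from ⟨hv₀, hℓ⟩)
  have hNS : N ⊆ P.S := fun v hv => (hNW hv).1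
  have hNk : ∀ v ∈ N, L * δ < kk P.u v.1 := fun v hv => (hNW hv).2
  have hNn : N ∈ 𝓝 v₀ := mem_interior_iff_mem_nhds.1 hvN
  obtain ⟨O, hOo, hvO, hON, T₀, -, hcr⟩ := cross P Φ hk κ hκ hk2 v₀ hv₀ h0 N hNn hNS δ hδ
  have hOS : O ⊆ P.S := hON.trans hNS
  refine ⟨O, hOo, hvO, hOS, ?_⟩
  have hinv := lc_geod P Φ hfl
  by_contra hcon
  rw [not_or] at hcon
  obtain ⟨hc1, hc2⟩ := hcon
  have hm1 : P.m (O ∩ A) ≠ 0 := fun h => hc1 (lc_null P (inter_subset_left.trans hOS) h)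
  have hm2 : P.m (O \ A) ≠ 0 := fun h => hc2 (lc_null P (fun v hv => hOS hv.1) h)
  set g : ℂ × ℝ → ℝ≥0∞ := P.S.indicator (Φ.gg κ (L * δ)) with hg
  have hgm : Measurable g := gg_meas P Φ κ (L * δ)
  have hgf := gg_fin P Φ κ (L * δ)
  have hgr : Measurable (fun v => g (rot (-Real.pi) v)) := hgm.comp (lc_rot_meas _)
  have hgS : ∀ v ∈ P.S, g v = Φ.gg κ (L * δ) v := fun v hv => indicator_of_mem hv _
  have ex1 : ∃ n : ℕ, P.m ((O ∩ A) ∩ {v | g v ≤ ENNReal.ofReal (n + 1)}) ≠ 0 := by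
    by_contra hno
    push Not at hno
    refine hm1 (lc_exhaust P _ g ?_ hno)
    filter_upwards [hgf] with v hv hvO'
    rw [hgS v (hOS hvO'.1)]
    exact hv (lc_Sa_pos P Φ κ _ v (hOS hvO'.1) (hNk v (hON hvO'.1)))
  have ex2 : ∃ n : ℕ, P.m ((O \ A) ∩ {v | g (rot (-Real.pi) v) ≤ ENNReal.ofReal (n + 1)}) ≠ 0 := by
    by_contra hno
    push Not at hno
    refine hm2 (lc_exhaust P _ (fun v => g (rot (-Real.pi) v)) ?_ hno)
    have h1 : ∀ᵐ v ∂P.m, 0 < Φ.Sa κ (L * δ) 1 (rot (-Real.pi) v) →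
        Φ.gg κ (L * δ) (rot (-Real.pi) v) < ⊤ :=
      (m_rot P (-Real.pi)).quasiMeasurePreserving.ae hgf
    filter_upwards [h1] with v hv hvO'
    have hrS : rot (-Real.pi) v ∈ P.S := lc_rot_mem P _ (hOS hvO'.1)
    rw [hgS _ hrS]
    exact hv (lc_Sa_pos P Φ κ _ _ hrS (hNk v (hON hvO'.1)))
  obtain ⟨n₁, hn₁⟩ := ex1
  obtain ⟨n₂, hn₂⟩ := ex2
  set C : ℝ := max (n₁ : ℝ) n₂ + 1 with hC
  have hC0 : 0 < C := by
    have : (0 : ℝ) ≤ max (n₁ : ℝ) n₂ := le_max_of_le_left (Nat.cast_nonneg _)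
    linarith
  set A₁ : Set (ℂ × ℝ) := (O ∩ A) ∩ {v | g v ≤ ENNReal.ofReal C} with hA₁
  set B₁ : Set (ℂ × ℝ) := (O \ A) ∩ {v | g (rot (-Real.pi) v) ≤ ENNReal.ofReal C} with hB₁
  have hA₁0 : P.m A₁ ≠ 0 := by
    intro h
    refine hn₁ (measure_mono_null ?_ h)
    refine inter_subset_inter_right _ (fun v hv => ?_)
    refine le_trans (show g v ≤ _ from hv) (ENNReal.ofReal_le_ofReal ?_)
    have := le_max_left (n₁ : ℝ) n₂
    linarith
  have hB₁0 : P.m B₁ ≠ 0 := by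
    intro h
    refine hn₂ (measure_mono_null ?_ h)
    refine inter_subset_inter_right _ (fun v hv => ?_)
    refine le_trans (show g (rot (-Real.pi) v) ≤ _ from hv) (ENNReal.ofReal_le_ofReal ?_)
    have := le_max_right (n₁ : ℝ) n₂
    linarith
  have hA₁m : MeasurableSet A₁ :=
    (hOo.measurableSet.inter hA.meas).inter (measurableSet_le hgm measurable_const)
  have hB₁m : MeasurableSet B₁ :=
    (hOo.measurableSet.diff hA.meas).inter (measurableSet_le hgr measurable_const)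
  have hz := lc_prod P Φ hk κ L δ C hκ hL hδ hδ1 hC0 hk2 hLk A hA hinv N hN hNS A₁ B₁ hA₁m hB₁m
    (fun v hv => hON hv.1.1) (fun v hv => hON hv.1.1) (fun v hv => hv.1.2)
    (fun v hv => hv.1.2) ?_ ?_ T₀ ?_
  · rcases mul_eq_zero.1 hz with h | h
    · exact hA₁0 h
    · exact hB₁0 h
  · intro v hv
    show Φ.gg κ (L * δ) v ≤ ENNReal.ofReal C
    rw [← hgS v (hOS hv.1.1)]
    exact hv.2
  · intro v hv
    have h1 : lc_flip v ∈ B₁ := hv
    have h2 : lc_flip v ∈ P.S := hOS h1.1.1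
    have h3 : v ∈ P.S := ⟨h2.1, mem_univ _⟩
    show Φ.gg κ (L * δ) v ≤ ENNReal.ofReal C
    rw [← hgS v h3]
    have h4 : g (rot (-Real.pi) (lc_flip v)) ≤ ENNReal.ofReal C := h1.2
    rwa [lc_rot_flip] at h4
  · intro T hT v₁ h₁ v₂ h₂
    exact hcr T hT v₁ h₁.1.1 v₂ h₂.1.1

end

end Pool.Agent.EQ

namespace Pool.Agent.EQ

open MeasureTheory Filter Topology Set
open scoped ContDiff ENNReal

noncomputable section

theorem loc_const (P : Pres) (hk : ∀ z ∈ P.Ω, 0 ≤ kk P.u z) (A : Set (ℂ × ℝ)) (hA : P.IsSetUM A)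
    (hfl : P.FlowInv A) (v₀ : ℂ × ℝ) (hv₀ : v₀ ∈ P.S) (h0 : 0 < kk P.u v₀.1) :
    ∃ O : Set (ℂ × ℝ), IsOpen O ∧ v₀ ∈ O ∧ O ⊆ P.S ∧
      (volume (O ∩ A) = 0 ∨ volume (O \ A) = 0) := by
  first
    | exact loc_const_pr ..
    | (apply loc_const_pr <;> assumption)

end

end Pool.Agent.EQ

end

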