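import Mathlib
import Pool.Agent.Lib_helper71.EQ.Defs

/-! Project EQ (MP_ed6ab2_an): merged modules Lib_helper98.EQS.Defs, Lib_helper98.EQS.HV, Lib_helper98.EQS.WDefs. -/

set_option autoImplicit false

/-! ## Lib_helper98.EQS.Defs -/

section

/-! MP_ed6ab2_an, project EQ, package S2 (spectral part): the fundamental region, the core
(even smooth functions on the torus with a round hole), the Hilbert space `HV` and the forms. -/

set_option autoImplicit false

namespace Pool.Agent.EQ.SP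

open MeasureTheory Filter Topology Set Pool.Agent.EQ
open scoped ContDiff

noncomputable section

/-- the lattice vector `8m + iWn` -/
def lat (W : ℕ) (p : ℤ × ℤ) : ℂ := ⟨8 * p.1, W * p.2⟩

/-- the plane without the closed discs of radius `r` around the lattice points -/
def UU (W : ℕ) (r : ℝ) : Set ℂ := {z | r < Metric.infDist z (range (lat W))}

/-- the closed box `[-4,4] × [-4,W-4]` -/
def box (W : ℕ) : Set ℂ := {z | -4 ≤ z.re ∧ z.re ≤ 4 ∧ -4 ≤ z.im ∧ z.im ≤ W - 4}

/-- the fundamental region: the box without the open unit disc -/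
def FF (W : ℕ) : Set ℂ := {z | z ∈ box W ∧ 1 ≤ ‖z‖}

/-- the inversion in the unit circle -/
def inv1 (z : ℂ) : ℂ := (starRingEnd ℂ z)⁻¹

/-- The core: `Λ`-periodic functions, smooth up to radius `r < 1` around the lattice points, and
symmetric under the inversion in the unit circle. -/
def IsCore (W : ℕ) (f : ℂ → ℝ) : Prop :=
  (∀ p z, f (z + lat W p) = f z) ∧
  ∃ r : ℝ, 0 < r ∧ r < 1 ∧ ContDiffOn ℝ ∞ f (UU W r) ∧
    ∀ z, r < ‖z‖ → ‖z‖ < r⁻¹ → f (inv1 z) = f z

abbrev E3 := EuclideanSpace ℝ (Fin 3)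

/-- Lebesgue measure on the fundamental region -/
def mu (W : ℕ) : Measure ℂ := volume.restrict (FF W)

/-- the value and the gradient of `f` -/
def emb (f : ℂ → ℝ) (z : ℂ) : E3 := !₂[f z, dx f z, dy f z]

/-! ### elementary facts -/

theorem isClosed_box (W : ℕ) : IsClosed (box W) := by
  have h1 : IsClosed {z : ℂ | -4 ≤ z.re} := isClosed_le continuous_const Complex.continuous_re
  have h2 : IsClosed {z : ℂ | z.re ≤ 4} := isClosed_le Complex.continuous_re continuous_const
  have h3 : IsClosed {z : ℂ | -4 ≤ z.im} := isClosed_le continuous_const Complex.continuous_im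
  have h4 : IsClosed {z : ℂ | z.im ≤ W - 4} :=
    isClosed_le Complex.continuous_im continuous_const
  exact h1.inter (h2.inter (h3.inter h4))

theorem isClosed_FF (W : ℕ) : IsClosed (FF W) :=
  (isClosed_box W).inter (isClosed_le continuous_const continuous_norm)

theorem measurableSet_FF (W : ℕ) : MeasurableSet (FF W) := (isClosed_FF W).measurableSet

theorem isCompact_box (W : ℕ) : IsCompact (box W) := by
  refine Metric.isCompact_of_isClosed_isBounded (isClosed_box W) ?_
  refine (Metric.isBounded_closedBall (x := (0:ℂ)) (r := 4 + (4 + W))).subset ?_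
  intro z hz
  obtain ⟨h1, h2, h3, h4⟩ := hz
  rw [mem_closedBall_zero_iff]
  refine (Complex.norm_le_abs_re_add_abs_im z).trans ?_
  have hW : (0:ℝ) ≤ W := Nat.cast_nonneg W
  have a1 : |z.re| ≤ 4 := abs_le.2 ⟨h1, h2⟩
  have a2 : |z.im| ≤ 4 + W := abs_le.2 ⟨by linarith, by linarith⟩
  linarith

theorem isCompact_FF (W : ℕ) : IsCompact (FF W) :=
  (isCompact_box W).of_isClosed_subset (isClosed_FF W) (fun _ h => h.1)

instance isFiniteMeasure_mu (W : ℕ) : IsFiniteMeasure (mu W) := by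
  refine ⟨?_⟩
  rw [mu, Measure.restrict_apply_univ]
  exact (isCompact_FF W).measure_lt_top

theorem isOpen_UU (W : ℕ) (r : ℝ) : IsOpen (UU W r) :=
  isOpen_lt continuous_const (Metric.continuous_infDist_pt _)

theorem lt_of_mem_UU {W : ℕ} {r : ℝ} {z : ℂ} (hz : z ∈ UU W r) (p : ℤ × ℤ) :
    r < ‖z - lat W p‖ := by
  have h : Metric.infDist z (range (lat W)) ≤ dist z (lat W p) :=
    Metric.infDist_le_dist_of_mem (mem_range_self p)
  rw [← dist_eq_norm]
  exact lt_of_lt_of_le hz h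

theorem mem_UU_of_le {W : ℕ} {r r' : ℝ} (hr : r < r') {z : ℂ}
    (h : ∀ p : ℤ × ℤ, r' ≤ ‖z - lat W p‖) : z ∈ UU W r := by
  have h2 : r' ≤ Metric.infDist z (range (lat W)) := by
    rw [Metric.le_infDist (range_nonempty _)]
    rintro _ ⟨p, rfl⟩
    rw [dist_eq_norm]; exact h p
  exact lt_of_lt_of_le hr h2

theorem UU_anti {W : ℕ} {r r' : ℝ} (h : r ≤ r') : UU W r' ⊆ UU W r :=
  fun _ hz => lt_of_le_of_lt h hz

theorem add_lat_mem_UU {W : ℕ} {r : ℝ} {z : ℂ} (hz : z ∈ UU W r) (p : ℤ × ℤ) :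
    z + lat W p ∈ UU W r := by
  have h2 : Metric.infDist z (range (lat W)) ≤
      Metric.infDist (z + lat W p) (range (lat W)) := by
    rw [Metric.le_infDist (range_nonempty _)]
    rintro _ ⟨q, rfl⟩
    have h : Metric.infDist z (range (lat W)) ≤ dist z (lat W (q - p)) :=
      Metric.infDist_le_dist_of_mem (mem_range_self _)
    refine h.trans (le_of_eq ?_)
    rw [dist_eq_norm, dist_eq_norm]
    congr 1
    apply Complex.ext <;> simp [lat] <;> ring
  exact lt_of_lt_of_le hz h2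

theorem one_le_of_mem_FF {W : ℕ} (hW : 8 ≤ W) {z : ℂ} (hz : z ∈ FF W) (p : ℤ × ℤ) :
    1 ≤ ‖z - lat W p‖ := by
  obtain ⟨⟨h1, h2, h3, h4⟩, h5⟩ := hz
  have hW' : (8:ℝ) ≤ W := by exact_mod_cast hW
  obtain ⟨m, n⟩ := p
  have hre := Complex.abs_re_le_norm (z - lat W (m, n))
  have him := Complex.abs_im_le_norm (z - lat W (m, n))
  have e1 : (z - lat W (m, n)).re = z.re - 8 * m := by simp [lat]
  have e2 : (z - lat W (m, n)).im = z.im - W * n := by simp [lat]
  rw [e1] at hre; rw [e2] at him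
  rcases lt_trichotomy m 0 with hm | hm | hm
  · have : (m:ℝ) ≤ -1 := by exact_mod_cast (by omega : m ≤ -1)
    have := le_abs_self (z.re - 8 * m)
    nlinarith
  · subst hm
    rcases lt_trichotomy n 0 with hn | hn | hn
    · have : (n:ℝ) ≤ -1 := by exact_mod_cast (by omega : n ≤ -1)
      have := le_abs_self (z.im - W * n)
      nlinarith
    · subst hn
      have : z - lat W (0, 0) = z := by apply Complex.ext <;> simp [lat]
      rw [this]; exact h5
    · have : (1:ℝ) ≤ n := by exact_mod_cast (by omega : 1 ≤ n)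
      have := neg_abs_le (z.im - W * n)
      nlinarith
  · have : (1:ℝ) ≤ m := by exact_mod_cast (by omega : 1 ≤ m)
    have := neg_abs_le (z.re - 8 * m)
    nlinarith

theorem FF_subset_UU {W : ℕ} (hW : 8 ≤ W) {r : ℝ} (hr : r < 1) : FF W ⊆ UU W r :=
  fun _ hz => mem_UU_of_le hr (fun p => one_le_of_mem_FF hW hz p)

/-! ### the core as a vector space -/

theorem IsCore.contDiffAt {W : ℕ} (hW : 8 ≤ W) {f : ℂ → ℝ} (hf : IsCore W f) {z : ℂ}
    (hz : z ∈ FF W) : ContDiffAt ℝ ∞ f z := by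
  obtain ⟨-, r, -, hr1, hs, -⟩ := hf
  exact hs.contDiffAt ((isOpen_UU W r).mem_nhds (FF_subset_UU hW hr1 hz))

/-- the core as a submodule of the functions -/
def coreSub (W : ℕ) : Submodule ℝ (ℂ → ℝ) where
  carrier := {f | IsCore W f}
  add_mem' := by
    rintro f g ⟨hf1, r, hr0, hr1, hf2, hf3⟩ ⟨hg1, s, hs0, hs1, hg2, hg3⟩
    refine ⟨fun p z => by simp [hf1 p z, hg1 p z], max r s, lt_max_of_lt_left hr0,
      max_lt hr1 hs1, (hf2.mono (UU_anti (le_max_left _ _))).add
        (hg2.mono (UU_anti (le_max_right _ _))), ?_⟩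
    intro z h1 h2
    have e1 : f (inv1 z) = f z := hf3 z (lt_of_le_of_lt (le_max_left _ _) h1)
      (lt_of_lt_of_le h2 (inv_anti₀ hr0 (le_max_left _ _)))
    have e2 : g (inv1 z) = g z := hg3 z (lt_of_le_of_lt (le_max_right _ _) h1)
      (lt_of_lt_of_le h2 (inv_anti₀ hs0 (le_max_right _ _)))
    simp [e1, e2]
  zero_mem' := ⟨fun _ _ => rfl, 1/2, by norm_num, by norm_num, contDiffOn_const,
    fun _ _ _ => rfl⟩
  smul_mem' := by
    rintro c f ⟨hf1, r, hr0, hr1, hf2, hf3⟩
    exact ⟨fun p z => by simp [hf1 p z], r, hr0, hr1, hf2.const_smul c,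
      fun z h1 h2 => by simp [hf3 z h1 h2]⟩

theorem mem_coreSub {W : ℕ} {f : ℂ → ℝ} : f ∈ coreSub W ↔ IsCore W f := Iff.rfl

end

end Pool.Agent.EQ.SP

end

/-! ## Lib_helper98.EQS.HV -/

section

/-! Project EQ, package S2: the Hilbert space `HV` and the forms. -/

set_option autoImplicit false

namespace Pool.Agent.EQ.SP

open MeasureTheory Filter Topology Set Pool.Agent.EQ
open scoped ContDiff

noncomputable section

variable {W : ℕ} [hW : Fact (8 ≤ W)]

theorem ContDiffAt.dx {f : ℂ → ℝ} {z : ℂ} (hf : ContDiffAt ℝ ∞ f z) :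
    ContDiffAt ℝ ∞ (dx f) z := by
  have h : ContDiffAt ℝ ∞ (fderiv ℝ f) z := hf.fderiv_right (m := ∞) (by simp)
  exact h.clm_apply contDiffAt_const

theorem ContDiffAt.dy {f : ℂ → ℝ} {z : ℂ} (hf : ContDiffAt ℝ ∞ f z) :
    ContDiffAt ℝ ∞ (dy f) z := by
  have h : ContDiffAt ℝ ∞ (fderiv ℝ f) z := hf.fderiv_right (m := ∞) (by simp)
  exact h.clm_apply contDiffAt_const

theorem continuousOn_emb {f : ℂ → ℝ} {s : Set ℂ} (hf : ∀ z ∈ s, ContDiffAt ℝ ∞ f z) :
    ContinuousOn (emb f) s := by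
  intro z hz
  have h0 := (hf z hz).continuousAt
  have h1 := (ContDiffAt.dx (hf z hz)).continuousAt
  have h2 := (ContDiffAt.dy (hf z hz)).continuousAt
  have h3 : ContinuousAt (fun z => ![f z, dx f z, dy f z]) z := by
    rw [continuousAt_pi]
    intro i
    fin_cases i
    · exact h0
    · exact h1
    · exact h2
  exact ((PiLp.continuous_toLp 2 _).continuousAt.comp h3).continuousWithinAt

omit hW in
theorem memLp_of_continuousOn {G : ℂ → E3} (h : ContinuousOn G (FF W)) :
    MemLp G 2 (mu W) := by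
  obtain ⟨C, hC⟩ := (isCompact_FF W).exists_bound_of_continuousOn h
  refine MemLp.of_bound (h.aestronglyMeasurable (measurableSet_FF W)) C ?_
  exact (ae_restrict_iff' (measurableSet_FF W)).2 (Eventually.of_forall hC)

theorem IsCore.memLp_emb {f : ℂ → ℝ} (hf : IsCore W f) : MemLp (emb f) 2 (mu W) :=
  memLp_of_continuousOn (continuousOn_emb (fun _ hz => hf.contDiffAt hW.out hz))

theorem emb_add {f g : ℂ → ℝ} {z : ℂ} (hf : DifferentiableAt ℝ f z)
    (hg : DifferentiableAt ℝ g z) : emb (f + g) z = emb f z + emb g z := by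
  have h : fderiv ℝ (f + g) z = fderiv ℝ f z + fderiv ℝ g z := fderiv_add hf hg
  ext i
  fin_cases i <;> simp [emb, EQ.dx, EQ.dy, h]

theorem emb_smul {f : ℂ → ℝ} {z : ℂ} (c : ℝ) (hf : DifferentiableAt ℝ f z) :
    emb (c • f) z = c • emb f z := by
  have h : fderiv ℝ (c • f) z = c • fderiv ℝ f z := fderiv_const_smul hf c
  ext i
  fin_cases i <;> simp [emb, EQ.dx, EQ.dy, h]

/-- the map `f ↦ (f, f_x, f_y)` of the core into `L²` -/
def J0 (W : ℕ) [hW : Fact (8 ≤ W)] : coreSub W →ₗ[ℝ] Lp E3 2 (mu W) where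
  toFun f := (IsCore.memLp_emb f.2).toLp (emb f.1)
  map_add' := by
    rintro ⟨f, hf⟩ ⟨g, hg⟩
    rw [← MemLp.toLp_add]
    apply MemLp.toLp_congr
    refine (ae_restrict_iff' (measurableSet_FF W)).2 (Eventually.of_forall fun z hz => ?_)
    exact emb_add ((IsCore.contDiffAt hW.out hf hz).differentiableAt (by simp))
      ((IsCore.contDiffAt hW.out hg hz).differentiableAt (by simp))
  map_smul' := by
    rintro c ⟨f, hf⟩
    rw [RingHom.id_apply, ← MemLp.toLp_const_smul]
    apply MemLp.toLp_congr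
    refine (ae_restrict_iff' (measurableSet_FF W)).2 (Eventually.of_forall fun z hz => ?_)
    exact emb_smul c ((IsCore.contDiffAt hW.out hf hz).differentiableAt (by simp))

/-- the Hilbert space: the closure of the core -/
def HV (W : ℕ) [hW : Fact (8 ≤ W)] : Submodule ℝ (Lp E3 2 (mu W)) :=
  (LinearMap.range (J0 W)).topologicalClosure

/-- core functions as elements of `HV` -/
def J (W : ℕ) [hW : Fact (8 ≤ W)] : coreSub W →ₗ[ℝ] HV W :=
  (J0 W).codRestrict (HV W) (fun f =>
    (LinearMap.range (J0 W)).le_topologicalClosure (LinearMap.mem_range_self _ f))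

instance completeSpace_HV : CompleteSpace (HV W) :=
  (Submodule.isClosed_topologicalClosure _).completeSpace_coe

theorem coe_J (f : coreSub W) : ((J W f : HV W) : Lp E3 2 (mu W)) =
    MemLp.toLp (emb f.1) (IsCore.memLp_emb f.2) := rfl

theorem J_ae (f : coreSub W) : (((J W f : HV W) : Lp E3 2 (mu W)) : ℂ → E3) =ᵐ[mu W] emb f.1 :=
  MemLp.coeFn_toLp (IsCore.memLp_emb f.2)

/-- density of the core -/
theorem dense_J : DenseRange (J W) := by
  intro u
  rw [Metric.mem_closure_iff]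
  intro ε hε
  have hu : (u : Lp E3 2 (mu W)) ∈ closure (LinearMap.range (J0 W) : Set (Lp E3 2 (mu W))) := u.2
  obtain ⟨v, ⟨f, rfl⟩, hv⟩ := Metric.mem_closure_iff.1 hu ε hε
  exact ⟨J W f, ⟨f, rfl⟩, hv⟩

/-- closure principle: a closed property that holds on the core holds on `HV` -/
theorem HV.closure_induction {P : HV W → Prop} (hP : IsClosed {u | P u})
    (h : ∀ f : coreSub W, P (J W f)) (u : HV W) : P u :=
  (dense_J (W := W)).induction_on u hP h

/-- closure principle for two variables -/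
theorem HV.closure_induction₂ {P : HV W → HV W → Prop}
    (hP : IsClosed {q : HV W × HV W | P q.1 q.2})
    (h : ∀ f g : coreSub W, P (J W f) (J W g)) (u v : HV W) : P u v :=
  DenseRange.induction_on₂ (dense_J (W := W)) hP h u v

/-! ### the forms -/

omit hW in
theorem integrable_mul (u v : Lp E3 2 (mu W)) (i j : Fin 3) :
    Integrable (fun z => u z i * v z j) (mu W) := by
  have h : ∀ (w : Lp E3 2 (mu W)) (i : Fin 3), MemLp (fun z => w z i) 2 (mu W) := by
    intro w i
    have hw := Lp.memLp w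
    exact hw.of_le ((EuclideanSpace.proj (𝕜 := ℝ) i).continuous.comp_aestronglyMeasurable hw.1)
      (Eventually.of_forall fun z => PiLp.norm_apply_le _ i)
  exact (h u i).integrable_mul (h v j)

omit hW in
theorem integrable_ee (u v : Lp E3 2 (mu W)) :
    Integrable (fun z => u z 1 * v z 1 + u z 2 * v z 2) (mu W) :=
  (integrable_mul u v 1 1).add (integrable_mul u v 2 2)

omit hW in
theorem integrable_wt_mul {ρ : ℂ → ℝ} (hρ : ContinuousOn ρ (FF W))
    (u v : Lp E3 2 (mu W)) (i j : Fin 3) :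
    Integrable (fun z => ρ z * (u z i * v z j)) (mu W) := by
  obtain ⟨C, hC⟩ := (isCompact_FF W).exists_bound_of_continuousOn hρ
  exact (integrable_mul u v i j).bdd_mul (c := C)
    (hρ.aestronglyMeasurable (measurableSet_FF W))
    ((ae_restrict_iff' (measurableSet_FF W)).2 (Eventually.of_forall hC))

/-- the Dirichlet form on `HV` -/
def eform (W : ℕ) [hW : Fact (8 ≤ W)] : HV W →ₗ[ℝ] HV W →ₗ[ℝ] ℝ :=
  LinearMap.mk₂ ℝ (fun u v => ∫ z, ((u : Lp E3 2 (mu W)) z 1 * (v : Lp E3 2 (mu W)) z 1 +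
      (u : Lp E3 2 (mu W)) z 2 * (v : Lp E3 2 (mu W)) z 2) ∂(mu W))
    (by
      intro u u' v
      rw [← integral_add (integrable_ee _ _) (integrable_ee _ _)]
      apply integral_congr_ae
      filter_upwards [Lp.coeFn_add (u : Lp E3 2 (mu W)) (u' : Lp E3 2 (mu W))] with z hz
      simp only [Submodule.coe_add, hz, Pi.add_apply, PiLp.add_apply]
      ring)
    (by
      intro c u v
      rw [smul_eq_mul, ← integral_const_mul]
      apply integral_congr_ae
      filter_upwards [Lp.coeFn_smul c (u : Lp E3 2 (mu W))] with z hz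
      simp only [Submodule.coe_smul, hz, Pi.smul_apply, PiLp.smul_apply, smul_eq_mul]
      ring)
    (by
      intro u v v'
      rw [← integral_add (integrable_ee _ _) (integrable_ee _ _)]
      apply integral_congr_ae
      filter_upwards [Lp.coeFn_add (v : Lp E3 2 (mu W)) (v' : Lp E3 2 (mu W))] with z hz
      simp only [Submodule.coe_add, hz, Pi.add_apply, PiLp.add_apply]
      ring)
    (by
      intro c u v
      rw [smul_eq_mul, ← integral_const_mul]
      apply integral_congr_ae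
      filter_upwards [Lp.coeFn_smul c (v : Lp E3 2 (mu W))] with z hz
      simp only [Submodule.coe_smul, hz, Pi.smul_apply, PiLp.smul_apply, smul_eq_mul]
      ring)

/-- the form `∫ ρ u v` on `HV` for a weight `ρ`, continuous on the region -/
def bform (W : ℕ) [hW : Fact (8 ≤ W)] (ρ : ℂ → ℝ) (hρ : ContinuousOn ρ (FF W)) :
    HV W →ₗ[ℝ] HV W →ₗ[ℝ] ℝ :=
  LinearMap.mk₂ ℝ (fun u v => ∫ z, ρ z * ((u : Lp E3 2 (mu W)) z 0 * (v : Lp E3 2 (mu W)) z 0)
      ∂(mu W))
    (by
      intro u u' v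
      rw [← integral_add (integrable_wt_mul hρ _ _ 0 0) (integrable_wt_mul hρ _ _ 0 0)]
      apply integral_congr_ae
      filter_upwards [Lp.coeFn_add (u : Lp E3 2 (mu W)) (u' : Lp E3 2 (mu W))] with z hz
      simp only [Submodule.coe_add, hz, Pi.add_apply, PiLp.add_apply]
      ring)
    (by
      intro c u v
      rw [smul_eq_mul, ← integral_const_mul]
      apply integral_congr_ae
      filter_upwards [Lp.coeFn_smul c (u : Lp E3 2 (mu W))] with z hz
      simp only [Submodule.coe_smul, hz, Pi.smul_apply, PiLp.smul_apply, smul_eq_mul]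
      ring)
    (by
      intro u v v'
      rw [← integral_add (integrable_wt_mul hρ _ _ 0 0) (integrable_wt_mul hρ _ _ 0 0)]
      apply integral_congr_ae
      filter_upwards [Lp.coeFn_add (v : Lp E3 2 (mu W)) (v' : Lp E3 2 (mu W))] with z hz
      simp only [Submodule.coe_add, hz, Pi.add_apply, PiLp.add_apply]
      ring)
    (by
      intro c u v
      rw [smul_eq_mul, ← integral_const_mul]
      apply integral_congr_ae
      filter_upwards [Lp.coeFn_smul c (v : Lp E3 2 (mu W))] with z hz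
      simp only [Submodule.coe_smul, hz, Pi.smul_apply, PiLp.smul_apply, smul_eq_mul]
      ring)

theorem eform_apply (u v : HV W) : eform W u v =
    ∫ z, ((u : Lp E3 2 (mu W)) z 1 * (v : Lp E3 2 (mu W)) z 1 +
      (u : Lp E3 2 (mu W)) z 2 * (v : Lp E3 2 (mu W)) z 2) ∂(mu W) := rfl

theorem bform_apply (ρ : ℂ → ℝ) (hρ : ContinuousOn ρ (FF W)) (u v : HV W) :
    bform W ρ hρ u v =
    ∫ z, ρ z * ((u : Lp E3 2 (mu W)) z 0 * (v : Lp E3 2 (mu W)) z 0) ∂(mu W) := rfl

theorem eform_comm (u v : HV W) : eform W u v = eform W v u := by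
  rw [eform_apply, eform_apply]
  congr 1
  ext z
  ring

theorem bform_comm (ρ : ℂ → ℝ) (hρ : ContinuousOn ρ (FF W)) (u v : HV W) :
    bform W ρ hρ u v = bform W ρ hρ v u := by
  rw [bform_apply, bform_apply]
  congr 1
  ext z
  ring

theorem eform_nonneg (u : HV W) : 0 ≤ eform W u u := by
  rw [eform_apply]
  exact integral_nonneg fun z => add_nonneg (mul_self_nonneg _) (mul_self_nonneg _)

theorem bform_nonneg {ρ : ℂ → ℝ} (hρ : ContinuousOn ρ (FF W)) (h0 : ∀ z ∈ FF W, 0 ≤ ρ z)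
    (u : HV W) : 0 ≤ bform W ρ hρ u u := by
  rw [bform_apply]
  refine integral_nonneg_of_ae ((ae_restrict_iff' (measurableSet_FF W)).2
    (Eventually.of_forall fun z hz => mul_nonneg (h0 z hz) (mul_self_nonneg _)))

theorem bform_mono {ρ σ : ℂ → ℝ} (hρ : ContinuousOn ρ (FF W)) (hσ : ContinuousOn σ (FF W))
    (h : ∀ z ∈ FF W, ρ z ≤ σ z) (u : HV W) : bform W ρ hρ u u ≤ bform W σ hσ u u := by
  rw [bform_apply, bform_apply]
  refine integral_mono_ae (integrable_wt_mul hρ _ _ 0 0) (integrable_wt_mul hσ _ _ 0 0)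
    ((ae_restrict_iff' (measurableSet_FF W)).2 (Eventually.of_forall fun z hz =>
      mul_le_mul_of_nonneg_right (h z hz) (mul_self_nonneg _)))

/-- linearity in the weight -/
theorem bform_add_wt {ρ σ τ : ℂ → ℝ} (hρ : ContinuousOn ρ (FF W)) (hσ : ContinuousOn σ (FF W))
    (hτ : ContinuousOn τ (FF W)) (a b : ℝ) (h : ∀ z ∈ FF W, τ z = a * ρ z + b * σ z)
    (u v : HV W) : bform W τ hτ u v = a * bform W ρ hρ u v + b * bform W σ hσ u v := by
  rw [bform_apply, bform_apply, bform_apply, ← integral_const_mul, ← integral_const_mul,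
    ← integral_add ((integrable_wt_mul hρ _ _ 0 0).const_mul _)
      ((integrable_wt_mul hσ _ _ 0 0).const_mul _)]
  apply integral_congr_ae
  refine (ae_restrict_iff' (measurableSet_FF W)).2 (Eventually.of_forall fun z hz => ?_)
  show τ z * _ = _
  rw [h z hz]
  ring

omit hW in
/-- the weight `1` -/
theorem continuousOn_one : ContinuousOn (fun _ : ℂ => (1:ℝ)) (FF W) := continuousOn_const

theorem norm_sq_HV (u : HV W) : ‖u‖ ^ 2 = eform W u u + bform W (fun _ => 1) continuousOn_one u u := by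
  have h1 : ‖u‖ ^ 2 = inner ℝ (u : Lp E3 2 (mu W)) (u : Lp E3 2 (mu W)) := by
    rw [real_inner_self_eq_norm_sq]; rfl
  rw [h1, L2.inner_def, eform_apply, bform_apply,
    ← integral_add (integrable_ee _ _) (integrable_wt_mul continuousOn_one _ _ 0 0)]
  congr 1
  ext z
  simp only [PiLp.inner_apply, Fin.sum_univ_three, RCLike.inner_apply, conj_trivial]
  ring

/-- the forms on core functions -/
theorem eform_J (f g : coreSub W) : eform W (J W f) (J W g) =
    ∫ z in FF W, (dx f.1 z * dx g.1 z + dy f.1 z * dy g.1 z) := by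
  rw [eform_apply]
  apply integral_congr_ae
  filter_upwards [J_ae f, J_ae g] with z h1 h2
  rw [h1, h2]
  simp [emb]

theorem bform_J (ρ : ℂ → ℝ) (hρ : ContinuousOn ρ (FF W)) (f g : coreSub W) :
    bform W ρ hρ (J W f) (J W g) = ∫ z in FF W, ρ z * (f.1 z * g.1 z) := by
  rw [bform_apply]
  apply integral_congr_ae
  filter_upwards [J_ae f, J_ae g] with z h1 h2
  rw [h1, h2]
  simp [emb]

omit hW in
theorem integral_norm_mul_norm_le (u v : Lp E3 2 (mu W)) :
    ∫ z, ‖u z‖ * ‖v z‖ ∂(mu W) ≤ ‖u‖ * ‖v‖ := by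
  have h2 : ENNReal.ofReal 2 = 2 := by norm_num
  have key := integral_mul_norm_le_Lp_mul_Lq (μ := mu W) (f := (u : ℂ → E3)) (g := (v : ℂ → E3))
    Real.HolderConjugate.two_two (by rw [h2]; exact Lp.memLp u) (by rw [h2]; exact Lp.memLp v)
  have hn : ∀ w : Lp E3 2 (mu W), (∫ z, ‖w z‖ ^ (2:ℝ) ∂(mu W)) ^ (1 / (2:ℝ)) = ‖w‖ := by
    intro w
    have h1 : ∫ z, ‖w z‖ ^ (2:ℝ) ∂(mu W) = ‖w‖ ^ 2 := by
      rw [← real_inner_self_eq_norm_sq w, L2.inner_def]
      congr 1
      ext z
      rw [real_inner_self_eq_norm_sq]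
      norm_cast
    rw [h1, ← Real.sqrt_eq_rpow, Real.sqrt_sq (norm_nonneg _)]
  rw [hn u, hn v] at key
  exact key

omit hW in
/-- Cauchy–Schwarz for the components -/
theorem abs_integral_mul_le (u v : Lp E3 2 (mu W)) (i j : Fin 3) {ρ : ℂ → ℝ} {C : ℝ}
    (hC0 : 0 ≤ C) (hC : ∀ z ∈ FF W, |ρ z| ≤ C) :
    |∫ z, ρ z * (u z i * v z j) ∂(mu W)| ≤ C * (‖u‖ * ‖v‖) := by
  rw [← Real.norm_eq_abs]
  refine (norm_integral_le_integral_norm _).trans ?_
  have hint : Integrable (fun z => C * (‖u z‖ * ‖v z‖)) (mu W) := by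
    have h1 := (Lp.memLp u).norm
    have h2 := (Lp.memLp v).norm
    exact (h1.integrable_mul h2).const_mul C
  have h1 : ∫ z, ‖ρ z * (u z i * v z j)‖ ∂(mu W) ≤ ∫ z, C * (‖u z‖ * ‖v z‖) ∂(mu W) := by
    refine integral_mono_of_nonneg (Eventually.of_forall fun z => norm_nonneg _) hint
      ((ae_restrict_iff' (measurableSet_FF W)).2 (Eventually.of_forall fun z hz => ?_))
    show ‖ρ z * (u z i * v z j)‖ ≤ C * (‖u z‖ * ‖v z‖)
    rw [norm_mul, norm_mul]
    exact mul_le_mul (hC z hz) (mul_le_mul (PiLp.norm_apply_le _ i) (PiLp.norm_apply_le _ j)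
      (norm_nonneg _) (norm_nonneg _)) (by positivity) hC0
  refine h1.trans ?_
  rw [integral_const_mul]
  exact mul_le_mul_of_nonneg_left (integral_norm_mul_norm_le u v) hC0

theorem abs_eform_le (u v : HV W) : |eform W u v| ≤ 2 * (‖u‖ * ‖v‖) := by
  have h1 := abs_integral_mul_le (u : Lp E3 2 (mu W)) (v : Lp E3 2 (mu W)) 1 1
    (ρ := fun _ => 1) (C := 1) zero_le_one (by simp)
  have h2 := abs_integral_mul_le (u : Lp E3 2 (mu W)) (v : Lp E3 2 (mu W)) 2 2
    (ρ := fun _ => 1) (C := 1) zero_le_one (by simp)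
  simp only [one_mul] at h1 h2
  rw [eform_apply, integral_add (integrable_mul _ _ 1 1) (integrable_mul _ _ 2 2)]
  refine (abs_add_le _ _).trans ?_
  have e1 : ‖(u : Lp E3 2 (mu W))‖ = ‖u‖ := rfl
  have e2 : ‖(v : Lp E3 2 (mu W))‖ = ‖v‖ := rfl
  rw [e1, e2] at h1 h2
  linarith

theorem abs_bform_le {ρ : ℂ → ℝ} (hρ : ContinuousOn ρ (FF W)) {C : ℝ}
    (hC0 : 0 ≤ C) (hC : ∀ z ∈ FF W, |ρ z| ≤ C) (u v : HV W) :
    |bform W ρ hρ u v| ≤ C * (‖u‖ * ‖v‖) :=
  abs_integral_mul_le (u : Lp E3 2 (mu W)) (v : Lp E3 2 (mu W)) 0 0 hC0 hC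

theorem continuous_of_bound {B : HV W →ₗ[ℝ] HV W →ₗ[ℝ] ℝ} {C : ℝ}
    (hB : ∀ u v, |B u v| ≤ C * (‖u‖ * ‖v‖)) : Continuous fun q : HV W × HV W => B q.1 q.2 := by
  have h := (LinearMap.mkContinuous₂ B C (fun u v => by
    rw [Real.norm_eq_abs, mul_assoc]; exact hB u v)).continuous₂
  exact h

theorem continuous_eform : Continuous fun q : HV W × HV W => eform W q.1 q.2 :=
  continuous_of_bound abs_eform_le

theorem continuous_bform (ρ : ℂ → ℝ) (hρ : ContinuousOn ρ (FF W)) :
    Continuous fun q : HV W × HV W => bform W ρ hρ q.1 q.2 := by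
  obtain ⟨C, hC⟩ := (isCompact_FF W).exists_bound_of_continuousOn hρ
  have hC0 : 0 ≤ C := by
    have h4 : (4:ℂ) ∈ FF W := by
      have hW' : (8:ℝ) ≤ W := by exact_mod_cast hW.out
      refine ⟨⟨by norm_num, by norm_num, by norm_num, ?_⟩, by norm_num⟩
      show (4:ℂ).im ≤ (W:ℝ) - 4
      have : (4:ℂ).im = 0 := by norm_num
      linarith
    exact (norm_nonneg _).trans (hC 4 h4)
  exact continuous_of_bound (abs_bform_le hρ hC0 hC)

/-! ### functionals `u ↦ ∫ g u₀` -/

omit hW in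
theorem memLp_vec {g : ℂ → ℝ} (hg : MemLp g 2 (mu W)) :
    MemLp (fun z => (EuclideanSpace.single 0 (g z) : E3)) 2 (mu W) := by
  refine hg.of_le ?_ (Eventually.of_forall fun z => by simp)
  have hc : Continuous fun t : ℝ => (EuclideanSpace.single (0 : Fin 3) t : E3) := by
    refine (PiLp.continuous_toLp 2 _).comp ?_
    exact continuous_pi fun i => by
      by_cases h : i = 0
      · subst h; simpa using continuous_id'
      · simpa [Pi.single_apply, h] using continuous_const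
  exact hc.comp_aestronglyMeasurable hg.1

/-- the continuous functional `u ↦ ∫ g u₀` -/
def lin (W : ℕ) [hW : Fact (8 ≤ W)] (g : ℂ → ℝ) (hg : MemLp g 2 (mu W)) : HV W →L[ℝ] ℝ :=
  (innerSL ℝ ((memLp_vec hg).toLp _)).comp (HV W).subtypeL

theorem lin_apply (g : ℂ → ℝ) (hg : MemLp g 2 (mu W)) (u : HV W) :
    lin W g hg u = ∫ z, g z * (u : Lp E3 2 (mu W)) z 0 ∂(mu W) := by
  show inner ℝ ((memLp_vec hg).toLp _) (u : Lp E3 2 (mu W)) = _
  rw [L2.inner_def]
  apply integral_congr_ae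
  filter_upwards [(memLp_vec hg).coeFn_toLp] with z hz
  rw [hz, EuclideanSpace.inner_single_left]
  simp

theorem lin_J (g : ℂ → ℝ) (hg : MemLp g 2 (mu W)) (f : coreSub W) :
    lin W g hg (J W f) = ∫ z in FF W, g z * f.1 z := by
  rw [lin_apply]
  apply integral_congr_ae
  filter_upwards [J_ae f] with z h1
  rw [h1]
  simp [emb]

omit hW in
/-- bounded measurable densities are admissible -/
theorem memLp_bdd {g : ℂ → ℝ} (hm : Measurable g) {C : ℝ} (hC : ∀ z ∈ FF W, |g z| ≤ C) :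
    MemLp g 2 (mu W) := by
  refine MemLp.of_bound hm.aestronglyMeasurable C ?_
  exact (ae_restrict_iff' (measurableSet_FF W)).2 (Eventually.of_forall hC)

end

end Pool.Agent.EQ.SP

end

/-! ## Lib_helper98.EQS.WDefs -/

section

/-! MP_ed6ab2_an, project EQ, package S2: the blocks of helper98.  Notation: `Λ = 8ℤ + iWℤ`,
`F = FF W` = box minus open unit disc. -/

set_option autoImplicit false

namespace Pool.Agent.EQ.SP

open MeasureTheory Filter Topology Set Pool.Agent.EQ
open scoped ContDiff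

noncomputable section

/-- an admissible conformal factor `ρ = e^{2u}`: periodic, smooth and positive up to radius `r < 1`
around the lattice points, and `ρ |dz|²` is invariant under the inversion in the unit circle -/
structure IsWt (W : ℕ) (ρ : ℂ → ℝ) : Prop where
  per : ∀ p z, ρ (z + lat W p) = ρ z
  ex : ∃ r : ℝ, 0 < r ∧ r < 1 ∧ ContDiffOn ℝ ∞ ρ (UU W r) ∧ (∀ z ∈ UU W r, 0 < ρ z) ∧
    ∀ z, r < ‖z‖ → ‖z‖ < r⁻¹ → ρ (inv1 z) = ‖z‖ ^ 4 * ρ z

/-- the annulus `r < |z| < 1/r` -/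
def AA (r : ℝ) : Set ℂ := {z | r < ‖z‖ ∧ ‖z‖ < r⁻¹}

/-- functions that vanish near the closed unit discs around the lattice points -/
def Van (W : ℕ) (h : ℂ → ℝ) : Prop :=
  ∃ δ > (0:ℝ), ∀ z, Metric.infDist z (range (lat W)) ≤ 1 + δ → h z = 0

/-- functions that vanish in the region outside a disc of radius `< 2` -/
def Near (W : ℕ) (h : ℂ → ℝ) : Prop :=
  ∃ R : ℝ, 1 < R ∧ R < 2 ∧ ∀ z ∈ FF W, R ≤ ‖z‖ → h z = 0

/-- reduction of `z` modulo `Λ` to `[-4,4) × [-4,W-4)` -/
def red (W : ℕ) [hW : Fact (8 ≤ W)] (z : ℂ) : ℂ :=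
  ⟨toIcoMod (by norm_num : (0:ℝ) < 8) (-4) z.re,
    toIcoMod (by have := hW.out; exact_mod_cast (by omega : 0 < W) : (0:ℝ) < W) (-4) z.im⟩

/-- folding of the plane onto the region `F` -/
def fold (W : ℕ) [hW : Fact (8 ≤ W)] (z : ℂ) : ℂ :=
  if 1 ≤ ‖red W z‖ then red W z else inv1 (red W z)

/-- the symmetric extension of a function near the unit circle -/
def sym (f : ℂ → ℝ) (z : ℂ) : ℝ := if 1 ≤ ‖z‖ then f z else f (inv1 z)

/-- test functions with support in `U` -/
def IsTest (U : Set ℂ) (η : ℂ → ℝ) : Prop :=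
  ContDiff ℝ ∞ η ∧ HasCompactSupport η ∧ tsupport η ⊆ U

variable {W : ℕ} [hW : Fact (8 ≤ W)]

theorem IsWt.continuousOn {ρ : ℂ → ℝ} (hρ : IsWt W ρ) : ContinuousOn ρ (FF W) := by
  obtain ⟨r, -, hr1, hs, -, -⟩ := hρ.ex
  exact hs.continuousOn.mono (FF_subset_UU hW.out hr1)

end

end Pool.Agent.EQ.SP

end

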