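import Mathlib
import Pool.Agent.Lib_helper71.EQ.Defs
import Pool.Agent.Lib_helper71.EQM.SpA

/-! Project EQ (MP_ed6ab2_an): merged modules Lib_helper83.EQ.Metric0, Lib_helper83.EQ.Profile, Lib_helper83.EQ.Metric1. -/

set_option autoImplicit false

/-! ## Lib_helper83.EQ.Metric0 -/

section

/-! MP_ed6ab2_an, project EQ, package G, metric half: general lemmas on the flat Laplacian,
conformal composition, radial functions, and the neck profile. -/

set_option autoImplicit false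

namespace Pool.Agent.EQ

open MeasureTheory Filter Topology Set
open scoped ContDiff

noncomputable section

lemma M0_fd2 {f : ℂ → ℝ} {z : ℂ} (hf : ContDiffAt ℝ 2 f z) (a b : ℂ) :
    fderiv ℝ (fun w => fderiv ℝ f w a) z b = fderiv ℝ (fderiv ℝ f) z b a := by
  have h1 : DifferentiableAt ℝ (fderiv ℝ f) z :=
    (hf.fderiv_right (m := 1) (by norm_num)).differentiableAt (by norm_num)
  have h2 := fderiv_clm_apply (𝕜 := ℝ) (c := fderiv ℝ f) (u := fun _ => a) h1
    (differentiableAt_const a)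
  rw [h2]
  simp

/-- `lap` through the second derivative -/
lemma M0_lap_fd2 {f : ℂ → ℝ} {z : ℂ} (hf : ContDiffAt ℝ 2 f z) :
    lap f z = fderiv ℝ (fderiv ℝ f) z 1 1 + fderiv ℝ (fderiv ℝ f) z Complex.I Complex.I := by
  unfold lap
  have e1 : dx (dx f) z = fderiv ℝ (fun w => fderiv ℝ f w 1) z 1 := rfl
  have e2 : dy (dy f) z = fderiv ℝ (fun w => fderiv ℝ f w Complex.I) z Complex.I := rfl
  rw [e1, e2, M0_fd2 hf, M0_fd2 hf]

open InnerProductSpace in
/-- `lap` is the Laplacian of Mathlib -/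
lemma M0_lap_eq {f : ℂ → ℝ} {z : ℂ} (hf : ContDiffAt ℝ 2 f z) :
    lap f z = Laplacian.laplacian f z := by
  rw [M0_lap_fd2 hf, laplacian_eq_iteratedFDeriv_complexPlane]
  simp [iteratedFDeriv_two_apply]

lemma M0_dx_congr {f g : ℂ → ℝ} {z : ℂ} (h : f =ᶠ[𝓝 z] g) : dx f =ᶠ[𝓝 z] dx g := by
  filter_upwards [h.eventuallyEq_nhds] with w hw
  simp only [dx]
  rw [hw.fderiv_eq]

lemma M0_dy_congr {f g : ℂ → ℝ} {z : ℂ} (h : f =ᶠ[𝓝 z] g) : dy f =ᶠ[𝓝 z] dy g := by
  filter_upwards [h.eventuallyEq_nhds] with w hw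
  simp only [dy]
  rw [hw.fderiv_eq]

lemma M0_lap_congr {f g : ℂ → ℝ} {z : ℂ} (h : f =ᶠ[𝓝 z] g) : lap f z = lap g z := by
  unfold lap
  rw [(M0_dx_congr (M0_dx_congr h)).eq_of_nhds, (M0_dy_congr (M0_dy_congr h)).eq_of_nhds]

/-- the second derivative of a composition of a real function with a map of the plane -/
lemma M0_fd2_comp {f : ℂ → ℝ} {g : ℂ → ℂ} {z : ℂ} (hf : ContDiffAt ℝ 2 f (g z))
    (hg : ContDiffAt ℝ 2 g z) (v : ℂ) :
    fderiv ℝ (fderiv ℝ (fun w => f (g w))) z v v =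
      fderiv ℝ (fderiv ℝ f) (g z) (fderiv ℝ g z v) (fderiv ℝ g z v)
        + fderiv ℝ f (g z) (fderiv ℝ (fderiv ℝ g) z v v) := by
  have hfe : ∀ᶠ w in 𝓝 z, ContDiffAt ℝ 2 f (g w) :=
    (hg.continuousAt.tendsto).eventually (hf.eventually (by simp))
  have hge : ∀ᶠ w in 𝓝 z, ContDiffAt ℝ 2 g w := hg.eventually (by simp)
  have hE : (fun w => fderiv ℝ (fun w => f (g w)) w) =ᶠ[𝓝 z]
      fun w => (fderiv ℝ f (g w)).comp (fderiv ℝ g w) := by
    filter_upwards [hfe, hge] with w h1 h2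
    exact fderiv_comp w (h1.differentiableAt (by norm_num)) (h2.differentiableAt (by norm_num))
  have h1 : DifferentiableAt ℝ (fderiv ℝ f) (g z) :=
    (hf.fderiv_right (m := 1) (by norm_num)).differentiableAt (by norm_num)
  have h2 : DifferentiableAt ℝ (fderiv ℝ g) z :=
    (hg.fderiv_right (m := 1) (by norm_num)).differentiableAt (by norm_num)
  have hg1 : DifferentiableAt ℝ g z := hg.differentiableAt (by norm_num)
  have h3 : HasFDerivAt (fun w => fderiv ℝ f (g w)) ((fderiv ℝ (fderiv ℝ f) (g z)).comp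
      (fderiv ℝ g z)) z := h1.hasFDerivAt.comp z hg1.hasFDerivAt
  have h4 := h3.clm_comp h2.hasFDerivAt
  rw [hE.fderiv_eq, h4.fderiv]
  simp [add_comm]

/-- conformal covariance of the Laplacian -/
lemma lap_comp_holo {f : ℂ → ℝ} {g : ℂ → ℂ} {z : ℂ} (hf : ContDiffAt ℝ 2 f (g z))
    (hg : AnalyticAt ℂ g z) :
    lap (fun w => f (g w)) z = ‖deriv g z‖ ^ 2 * lap f (g z) := by
  have hgc : ContDiffAt ℝ 2 g z := (hg.contDiffAt (n := 2)).restrict_scalars ℝ
  have hfg : ContDiffAt ℝ 2 (fun w => f (g w)) z := hf.comp z hgc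
  rw [M0_lap_fd2 hfg, M0_lap_fd2 hf, M0_fd2_comp hf hgc, M0_fd2_comp hf hgc]
  have hev : ∀ᶠ w in 𝓝 z, AnalyticAt ℂ g w := hg.eventually_analyticAt
  have hd : ∀ᶠ w in 𝓝 z, fderiv ℝ g w = (ContinuousLinearMap.toSpanSingleton ℂ
      (deriv g w)).restrictScalars ℝ := by
    filter_upwards [hev] with w hw
    have h1 : HasFDerivAt g (ContinuousLinearMap.toSpanSingleton ℂ (deriv g w)) w :=
      hw.differentiableAt.hasDerivAt.hasFDerivAt
    exact (h1.restrictScalars ℝ).fderiv
  have hd' : ∀ v, fderiv ℝ g z v = v * deriv g z := by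
    intro v
    rw [hd.self_of_nhds]
    simp
  have hdd : ∀ v, fderiv ℝ (fderiv ℝ g) z v v = v * v * deriv (deriv g) z := by
    intro v
    have hE : (fun w => fderiv ℝ g w v) =ᶠ[𝓝 z] fun w => v * deriv g w := by
      filter_upwards [hd] with w hw
      rw [hw]
      simp
    have h1 : DifferentiableAt ℝ (fderiv ℝ g) z :=
      (hgc.fderiv_right (m := 1) (by norm_num)).differentiableAt (by norm_num)
    have h2 := fderiv_clm_apply (𝕜 := ℝ) (c := fderiv ℝ g) (u := fun _ => v) h1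
      (differentiableAt_const v)
    have h3 : fderiv ℝ (fun w => fderiv ℝ g w v) z v = fderiv ℝ (fderiv ℝ g) z v v := by
      rw [h2]; simp
    rw [← h3, hE.fderiv_eq]
    have h4 : HasDerivAt (deriv g) (deriv (deriv g) z) z :=
      hg.deriv.differentiableAt.hasDerivAt
    have h5 : HasDerivAt (fun w => v * deriv g w) (v * deriv (deriv g) z) z := h4.const_mul v
    rw [(h5.hasFDerivAt.restrictScalars ℝ).fderiv]
    simp
    ring
  rw [hdd, hdd, hd', hd']
  set c := deriv g z with hc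
  set B := fderiv ℝ (fderiv ℝ f) (g z) with hB
  set L := fderiv ℝ f (g z) with hL
  have e0 : L (1 * 1 * deriv (deriv g) z) + L (Complex.I * Complex.I * deriv (deriv g) z) = 0 := by
    rw [← map_add]
    have : 1 * 1 * deriv (deriv g) z + Complex.I * Complex.I * deriv (deriv g) z = 0 := by
      rw [Complex.I_mul_I]; ring
    rw [this, map_zero]
  have ec : (1 : ℂ) * c = c.re • (1 : ℂ) + c.im • Complex.I := by
    apply Complex.ext <;> simp
  have eI : Complex.I * c = (-c.im) • (1 : ℂ) + c.re • Complex.I := by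
    apply Complex.ext <;> simp
  have e1 : B (1 * c) (1 * c) + B (Complex.I * c) (Complex.I * c) =
      ‖c‖ ^ 2 * (B 1 1 + B Complex.I Complex.I) := by
    rw [ec, eI, ← Complex.normSq_eq_norm_sq, Complex.normSq_apply]
    simp only [map_add, map_smul, add_apply, smul_apply, smul_eq_mul]
    ring
  linarith

/-- the Laplacian and the conjugation -/
lemma lap_comp_conj {f : ℂ → ℝ} {z : ℂ} (hf : ContDiffAt ℝ 2 f (starRingEnd ℂ z)) :
    lap (fun w => f (starRingEnd ℂ w)) z = lap f (starRingEnd ℂ z) := by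
  have hgc : ContDiffAt ℝ 2 (fun w : ℂ => starRingEnd ℂ w) z :=
    Complex.conjCLE.contDiff.contDiffAt
  have hfg : ContDiffAt ℝ 2 (fun w => f (starRingEnd ℂ w)) z := hf.comp z hgc
  rw [M0_lap_fd2 hfg, M0_lap_fd2 hf, M0_fd2_comp hf hgc, M0_fd2_comp hf hgc]
  have h1 : ∀ w, fderiv ℝ (fun w : ℂ => starRingEnd ℂ w) w = (Complex.conjCLE : ℂ →L[ℝ] ℂ) :=
    fun w => Complex.conjCLE.fderiv
  have h2 : fderiv ℝ (fderiv ℝ (fun w : ℂ => starRingEnd ℂ w)) z = 0 := by
    have : (fderiv ℝ (fun w : ℂ => starRingEnd ℂ w)) = fun _ => (Complex.conjCLE : ℂ →L[ℝ] ℂ) :=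
      funext h1
    rw [this]
    exact fderiv_const_apply _
  rw [h2, h1]
  simp

/-- `log ‖g‖` is harmonic -/
lemma lap_log_norm {g : ℂ → ℂ} {z : ℂ} (hg : AnalyticAt ℂ g z) (h0 : g z ≠ 0) :
    ContDiffAt ℝ 2 (fun w => Real.log ‖g w‖) z ∧ lap (fun w => Real.log ‖g w‖) z = 0 := by
  have h := hg.harmonicAt_log_norm h0
  refine ⟨h.1, ?_⟩
  rw [M0_lap_eq h.1]
  exact h.2.eq_of_nhds

lemma M0_smooth_log_norm {z l : ℂ} (h : z ≠ l) {n : WithTop ℕ∞} :
    ContDiffAt ℝ n (fun w : ℂ => Real.log ‖w - l‖) z := by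
  have h1 : z - l ≠ 0 := sub_ne_zero.2 h
  have h2 : ContDiffAt ℝ n (fun w : ℂ => ‖w - l‖) z :=
    (contDiffAt_id.sub contDiffAt_const).norm ℝ h1
  exact h2.log (norm_ne_zero_iff.2 h1)

lemma M0_fderiv_log_norm {z l : ℂ} (h : z ≠ l) (v : ℂ) :
    fderiv ℝ (fun w : ℂ => Real.log ‖w - l‖) z v = (v / (z - l)).re := by
  have h1 : z - l ≠ 0 := sub_ne_zero.2 h
  have h2 : HasFDerivAt (fun w : ℂ => w - l) (ContinuousLinearMap.id ℝ ℂ) z :=
    (hasFDerivAt_id z).sub_const l
  have h3 : HasFDerivAt (fun w : ℂ => ‖w - l‖ ^ 2)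
      (2 • (innerSL ℝ (z - l)).comp (ContinuousLinearMap.id ℝ ℂ)) z := h2.norm_sq
  have hp : (0 : ℝ) < ‖z - l‖ ^ 2 := by positivity
  have h4 : HasFDerivAt (fun w : ℂ => Real.log (‖w - l‖ ^ 2))
      ((‖z - l‖ ^ 2)⁻¹ • (2 • (innerSL ℝ (z - l)).comp (ContinuousLinearMap.id ℝ ℂ))) z :=
    h3.log hp.ne'
  have h5 : HasFDerivAt (fun w : ℂ => Real.log ‖w - l‖)
      ((1 / 2 : ℝ) • ((‖z - l‖ ^ 2)⁻¹ • (2 • (innerSL ℝ (z - l)).comp
        (ContinuousLinearMap.id ℝ ℂ)))) z := by
    have h6 := h4.const_smul (1 / 2 : ℝ)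
    refine h6.congr_of_eventuallyEq (Eventually.of_forall fun w => ?_)
    simp only [Real.log_pow, Pi.smul_apply, smul_eq_mul]
    push_cast
    ring
  rw [h5.fderiv]
  simp only [ContinuousLinearMap.comp_id, smul_apply, innerSL_apply_apply, smul_eq_mul,
    nsmul_eq_mul]
  rw [Complex.inner, Complex.div_re, ← Complex.normSq_eq_norm_sq]
  have hq : Complex.normSq (z - l) ≠ 0 := by rw [Complex.normSq_eq_norm_sq]; exact hp.ne'
  simp only [Complex.mul_re, Complex.conj_re, Complex.conj_im, Nat.cast_ofNat]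
  field_simp
  ring

lemma M0_grad_log_norm {z l : ℂ} (h : z ≠ l) :
    dx (fun w : ℂ => Real.log ‖w - l‖) z ^ 2 + dy (fun w : ℂ => Real.log ‖w - l‖) z ^ 2
      = (‖z - l‖ ^ 2)⁻¹ := by
  have h1 : z - l ≠ 0 := sub_ne_zero.2 h
  have hq : Complex.normSq (z - l) ≠ 0 := by simpa using h1
  unfold dx dy
  rw [M0_fderiv_log_norm h, M0_fderiv_log_norm h, ← Complex.normSq_eq_norm_sq]
  rw [Complex.div_re, Complex.div_re]
  simp only [Complex.one_re, Complex.one_im, Complex.I_re, Complex.I_im]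
  have e := Complex.normSq_apply (z - l)
  generalize Complex.normSq (z - l) = n at *
  generalize (z - l).re = a at *
  generalize (z - l).im = b at *
  have e1 : (1 * a / n + 0 * b / n) ^ 2 + (0 * a / n + 1 * b / n) ^ 2 = (a * a + b * b) / n ^ 2 := by
    ring
  rw [e1, ← e]
  field_simp

/-- the chain rule for the Laplacian of `F ∘ h` -/
lemma lap_comp_real {F : ℝ → ℝ} {h : ℂ → ℝ} {z : ℂ} (hF : ContDiffAt ℝ 2 F (h z))
    (hh : ContDiffAt ℝ 2 h z) :
    lap (fun w => F (h w)) z =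
      deriv (deriv F) (h z) * (dx h z ^ 2 + dy h z ^ 2) + deriv F (h z) * lap h z := by
  have hFe : ∀ᶠ w in 𝓝 z, ContDiffAt ℝ 2 F (h w) :=
    (hh.continuousAt.tendsto).eventually (hF.eventually (by simp))
  have hhe : ∀ᶠ w in 𝓝 z, ContDiffAt ℝ 2 h w := hh.eventually (by simp)
  have key : ∀ v : ℂ, (fun w => fderiv ℝ (fun w => F (h w)) w v) =ᶠ[𝓝 z]
      fun w => deriv F (h w) * fderiv ℝ h w v := by
    intro v
    filter_upwards [hFe, hhe] with w h1 h2
    have h3 : HasFDerivAt (fun w => F (h w)) (deriv F (h w) • fderiv ℝ h w) w :=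
      (h1.differentiableAt (by norm_num)).hasDerivAt.comp_hasFDerivAt w
        (h2.differentiableAt (by norm_num)).hasFDerivAt
    rw [h3.fderiv]
    simp
  have hdF : HasDerivAt (deriv F) (deriv (deriv F) (h z)) (h z) :=
    (((hF.fderiv_right (m := 1) (by norm_num)).differentiableAt (by norm_num)).clm_apply
      (differentiableAt_const (1 : ℝ))).hasDerivAt
  have hh1 : HasFDerivAt h (fderiv ℝ h z) z := (hh.differentiableAt (by norm_num)).hasFDerivAt
  have h1 : HasFDerivAt (fun w => deriv F (h w)) (deriv (deriv F) (h z) • fderiv ℝ h z) z :=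
    hdF.comp_hasFDerivAt z hh1
  have h2 : ∀ v : ℂ, DifferentiableAt ℝ (fun w => fderiv ℝ h w v) z := by
    intro v
    exact ((hh.fderiv_right (m := 1) (by norm_num)).differentiableAt (by norm_num)).clm_apply
      (differentiableAt_const v)
  have h3 : ∀ v : ℂ, fderiv ℝ (fun w => fderiv ℝ (fun w => F (h w)) w v) z v =
      deriv (deriv F) (h z) * (fderiv ℝ h z v) ^ 2
        + deriv F (h z) * fderiv ℝ (fun w => fderiv ℝ h w v) z v := by
    intro v
    rw [(key v).fderiv_eq]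
    have h4 := h1.mul (h2 v).hasFDerivAt
    have h5 : fderiv ℝ (fun w => deriv F (h w) * fderiv ℝ h w v) z = _ := h4.fderiv
    rw [h5]
    simp
    ring
  have e1 := h3 1
  have e2 := h3 Complex.I
  unfold lap
  have e3 : dx (dx fun w => F (h w)) z = fderiv ℝ (fun w => fderiv ℝ (fun w => F (h w)) w 1) z 1 :=
    rfl
  have e4 : dy (dy fun w => F (h w)) z =
    fderiv ℝ (fun w => fderiv ℝ (fun w => F (h w)) w Complex.I) z Complex.I := rfl
  have e5 : dx (dx h) z = fderiv ℝ (fun w => fderiv ℝ h w 1) z 1 := rfl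
  have e6 : dy (dy h) z = fderiv ℝ (fun w => fderiv ℝ h w Complex.I) z Complex.I := rfl
  rw [e3, e4, e5, e6, e1, e2]
  unfold dx dy
  ring

/-- the Laplacian of a radial function -/
lemma lap_radial {F : ℝ → ℝ} {z l : ℂ} (h : z ≠ l)
    (hF : ContDiffAt ℝ 2 F (Real.log ‖z - l‖)) :
    lap (fun w => F (Real.log ‖w - l‖)) z =
      deriv (deriv F) (Real.log ‖z - l‖) * (‖z - l‖ ^ 2)⁻¹ := by
  have h1 : ContDiffAt ℝ 2 (fun w : ℂ => Real.log ‖w - l‖) z :=
    M0_smooth_log_norm h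
  have h2 : lap (fun w : ℂ => Real.log ‖w - l‖) z = 0 :=
    (lap_log_norm (g := fun w => w - l) (by fun_prop) (sub_ne_zero.2 h)).2
  rw [lap_comp_real (h := fun w : ℂ => Real.log ‖w - l‖) hF h1, h2, M0_grad_log_norm h]
  ring

end

end Pool.Agent.EQ

end

/-! ## Lib_helper83.EQ.Profile -/

section

/-! MP_ed6ab2_an, project EQ, package G: the neck profiles. -/

set_option autoImplicit false

namespace Pool.Agent.EQ

open MeasureTheory Filter Topology Set
open scoped ContDiff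

noncomputable section

/-- A neck profile: the metric of the neck is `e^{2F(t)}(dt² + dθ²)`, `t = log|z-l|`. -/
structure Prof (F : ℝ → ℝ) : Prop where
  smooth : ContDiff ℝ ∞ F
  even : ∀ t, F (-t) = F t
  abs : ∀ t, 1 ≤ |t| → F t = |t|
  conv : ∀ t, |t| < 1 → 0 < deriv (deriv F) t

lemma Prof.eq_self {F : ℝ → ℝ} (P : Prof F) {t : ℝ} (h : 1 ≤ t) : F t = t := by
  rw [P.abs t (le_trans h (le_abs_self t)), abs_of_nonneg (by linarith)]

lemma Prof.eq_neg {F : ℝ → ℝ} (P : Prof F) {t : ℝ} (h : t ≤ -1) : F t = -t := by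
  rw [P.abs t (by rw [abs_of_nonpos (by linarith)]; linarith), abs_of_nonpos (by linarith)]

lemma M0_deriv_smooth {F : ℝ → ℝ} (h : ContDiff ℝ ∞ F) : ContDiff ℝ ∞ (deriv F) :=
  (contDiff_infty_iff_deriv.1 h).2

lemma Prof.cd2 {F : ℝ → ℝ} (P : Prof F) (t : ℝ) : ContDiffAt ℝ 2 F t :=
  (by exact_mod_cast contDiff_infty.1 P.smooth 2 : ContDiff ℝ 2 F).contDiffAt

/-- outside the neck the second derivative vanishes -/
lemma Prof.dd_zero {F : ℝ → ℝ} (P : Prof F) {t : ℝ} (h : 1 ≤ |t|) : deriv (deriv F) t = 0 := by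
  have hcont : Continuous (deriv (deriv F)) :=
    (M0_deriv_smooth (M0_deriv_smooth P.smooth)).continuous
  have h1 : ∀ s : ℝ, 1 < s → deriv (deriv F) s = 0 := by
    intro s hs
    have hE : F =ᶠ[𝓝 s] fun x => x := by
      filter_upwards [lt_mem_nhds hs] with x hx
      exact P.eq_self hx.le
    have hE1 : deriv F =ᶠ[𝓝 s] fun _ => 1 := by
      filter_upwards [hE.eventuallyEq_nhds] with x hx
      rw [hx.deriv_eq]
      simp
    rw [hE1.deriv_eq]
    simp
  have h2 : ∀ s : ℝ, s < -1 → deriv (deriv F) s = 0 := by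
    intro s hs
    have hE : F =ᶠ[𝓝 s] fun x => -x := by
      filter_upwards [gt_mem_nhds hs] with x hx
      exact P.eq_neg hx.le
    have hE1 : deriv F =ᶠ[𝓝 s] fun _ => -1 := by
      filter_upwards [hE.eventuallyEq_nhds] with x hx
      rw [hx.deriv_eq]
      simp
    rw [hE1.deriv_eq]
    simp
  rcases le_abs'.1 h with h3 | h3
  · have h4 : t ∈ closure (Iio (-1 : ℝ)) := by rw [closure_Iio]; exact h3
    have h5 : closure (Iio (-1 : ℝ)) ⊆ {s | deriv (deriv F) s = 0} :=
      closure_minimal (fun s hs => h2 s hs) (isClosed_eq hcont continuous_const)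
    exact h5 h4
  · have h4 : t ∈ closure (Ioi (1 : ℝ)) := by rw [closure_Ioi]; exact h3
    have h5 : closure (Ioi (1 : ℝ)) ⊆ {s | deriv (deriv F) s = 0} :=
      closure_minimal (fun s hs => h1 s hs) (isClosed_eq hcont continuous_const)
    exact h5 h4

lemma Prof.dd_nonneg {F : ℝ → ℝ} (P : Prof F) (t : ℝ) : 0 ≤ deriv (deriv F) t := by
  by_cases h : |t| < 1
  · exact (P.conv t h).le
  · rw [P.dd_zero (not_lt.1 h)]

lemma Prof.dd_pos_iff {F : ℝ → ℝ} (P : Prof F) (t : ℝ) : 0 < deriv (deriv F) t ↔ |t| < 1 := by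
  constructor
  · intro h
    by_contra h1
    rw [P.dd_zero (not_lt.1 h1)] at h
    exact lt_irrefl _ h
  · exact P.conv t

/-- the basic bump `χ` with `∫ χ = 1`, supported exactly on `(-1,1)` -/
def bumpA : ContDiffBump (0 : ℝ) := ⟨1 / 2, 1, by norm_num, by norm_num⟩

def psiA (t : ℝ) : ℝ := bumpA.normed volume t

lemma psiA_smooth : ContDiff ℝ ∞ psiA := bumpA.contDiff_normed

lemma psiA_nonneg (t : ℝ) : 0 ≤ psiA t := bumpA.nonneg_normed t

lemma psiA_even (t : ℝ) : psiA (-t) = psiA t := bumpA.normed_neg t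

lemma psiA_pos {t : ℝ} (h : |t| < 1) : 0 < psiA t := by
  have h1 : t ∈ Function.support psiA := by
    have : Function.support psiA = Metric.ball (0 : ℝ) 1 := bumpA.support_normed_eq
    rw [this]
    simpa using h
  exact lt_of_le_of_ne (psiA_nonneg t) (Ne.symm h1)

lemma psiA_zero {t : ℝ} (h : 1 ≤ |t|) : psiA t = 0 := by
  by_contra h1
  have h2 : t ∈ Function.support psiA := h1
  have : Function.support psiA = Metric.ball (0 : ℝ) 1 := bumpA.support_normed_eq
  rw [this] at h2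
  have h3 : |t| < 1 := by simpa using h2
  linarith

lemma psiA_integral : ∫ t, psiA t = 1 := bumpA.integral_normed

lemma psiA_interval : ∫ t in (-1 : ℝ)..1, psiA t = 1 := by
  rw [intervalIntegral.integral_of_le (by norm_num)]
  refine Eq.trans ?_ psiA_integral
  apply setIntegral_eq_integral_of_forall_compl_eq_zero
  intro x hx
  apply psiA_zero
  by_contra h
  push Not at h
  rw [abs_lt] at h
  exact hx ⟨h.1, h.2.le⟩

lemma psiA_half : ∫ t in (0 : ℝ)..1, psiA t = 1 / 2 := by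
  have hc : Continuous psiA := psiA_smooth.continuous
  have h1 := intervalIntegral.integral_add_adjacent_intervals (a := (-1 : ℝ)) (b := 0) (c := 1)
    (hc.intervalIntegrable (μ := volume) _ _) (hc.intervalIntegrable _ _)
  have h2 : ∫ t in (-1 : ℝ)..0, psiA t = ∫ t in (0 : ℝ)..1, psiA t := by
    have h3 := intervalIntegral.integral_comp_neg (a := (0 : ℝ)) (b := 1) psiA
    rw [neg_zero] at h3
    rw [← h3]
    apply intervalIntegral.integral_congr
    intro x _
    exact psiA_even x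
  rw [h2, psiA_interval] at h1
  linarith

/-- the first derivative of the profile -/
def profD (t : ℝ) : ℝ := ∫ s in (0 : ℝ)..t, 2 * psiA s

lemma profD_hasDeriv (t : ℝ) : HasDerivAt profD (2 * psiA t) t := by
  have hc : Continuous (fun s => 2 * psiA s) := continuous_const.mul psiA_smooth.continuous
  exact intervalIntegral.integral_hasDerivAt_right (hc.intervalIntegrable _ _)
    (hc.stronglyMeasurableAtFilter _ _) hc.continuousAt

lemma profD_deriv : deriv profD = fun t => 2 * psiA t := funext fun t => (profD_hasDeriv t).deriv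

lemma profD_smooth : ContDiff ℝ ∞ profD := by
  rw [contDiff_infty_iff_deriv]
  refine ⟨fun t => (profD_hasDeriv t).differentiableAt, ?_⟩
  rw [profD_deriv]
  exact contDiff_const.mul psiA_smooth

lemma profD_odd (t : ℝ) : profD (-t) = -profD t := by
  unfold profD
  have h3 := intervalIntegral.integral_comp_neg (a := (0 : ℝ)) (b := t) (fun s => 2 * psiA s)
  rw [neg_zero] at h3
  rw [intervalIntegral.integral_symm, ← h3]
  congr 1
  apply intervalIntegral.integral_congr
  intro x _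
  simp only [psiA_even]

lemma profD_one {t : ℝ} (h : 1 ≤ t) : profD t = 1 := by
  have hc : Continuous (fun s => 2 * psiA s) := continuous_const.mul psiA_smooth.continuous
  unfold profD
  have h1 := intervalIntegral.integral_add_adjacent_intervals (a := (0 : ℝ)) (b := 1) (c := t)
    (hc.intervalIntegrable (μ := volume) _ _) (hc.intervalIntegrable _ _)
  have h2 : ∫ s in (1 : ℝ)..t, 2 * psiA s = 0 := by
    have h4 : ∫ s in (1 : ℝ)..t, 2 * psiA s = ∫ s in (1 : ℝ)..t, (0 : ℝ) := by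
      apply intervalIntegral.integral_congr
      intro x hx
      rw [uIcc_of_le h] at hx
      have : psiA x = 0 := psiA_zero (le_trans hx.1 (le_abs_self x))
      simp [this]
    rw [h4]
    simp
  rw [← h1, h2, intervalIntegral.integral_const_mul, psiA_half]
  norm_num

/-- the profile -/
def profF (t : ℝ) : ℝ := 1 + ∫ s in (1 : ℝ)..t, profD s

lemma profF_hasDeriv (t : ℝ) : HasDerivAt profF (profD t) t := by
  have hc : Continuous profD := profD_smooth.continuous
  exact (intervalIntegral.integral_hasDerivAt_right (hc.intervalIntegrable _ _)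
    (hc.stronglyMeasurableAtFilter _ _) hc.continuousAt).const_add 1

lemma profF_deriv : deriv profF = profD := funext fun t => (profF_hasDeriv t).deriv

lemma profF_smooth : ContDiff ℝ ∞ profF := by
  rw [contDiff_infty_iff_deriv]
  refine ⟨fun t => (profF_hasDeriv t).differentiableAt, ?_⟩
  rw [profF_deriv]
  exact profD_smooth

lemma profF_even (t : ℝ) : profF (-t) = profF t := by
  have h1 : ∀ x, HasDerivAt (fun t => profF (-t) - profF t) 0 x := by
    intro x
    have h2 : HasDerivAt (fun t => profF (-t)) (profD (-x) * (-1)) x :=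
      (profF_hasDeriv (-x)).comp x (hasDerivAt_neg x)
    have h3 := h2.sub (profF_hasDeriv x)
    have h4 : profD (-x) * (-1) - profD x = 0 := by rw [profD_odd]; ring
    rw [h4] at h3
    exact h3
  have h2 := is_const_of_deriv_eq_zero (fun x => (h1 x).differentiableAt)
    (fun x => (h1 x).deriv) t 0
  simp only [neg_zero, sub_self] at h2
  linarith

lemma profF_one {t : ℝ} (h : 1 ≤ t) : profF t = t := by
  unfold profF
  have h4 : ∫ s in (1 : ℝ)..t, profD s = ∫ s in (1 : ℝ)..t, (1 : ℝ) := by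
    apply intervalIntegral.integral_congr
    intro x hx
    rw [uIcc_of_le h] at hx
    exact profD_one hx.1
  rw [h4]
  simp

lemma profF_abs (t : ℝ) (h : 1 ≤ |t|) : profF t = |t| := by
  rcases le_abs'.1 h with h3 | h3
  · rw [← profF_even, profF_one (by linarith), abs_of_nonpos (by linarith)]
  · rw [profF_one h3, abs_of_nonneg (by linarith)]

lemma profF_dd : deriv (deriv profF) = fun t => 2 * psiA t := by
  rw [profF_deriv, profD_deriv]

/-- the bump of the conformal family: constant on `|t| ≤ 1/4`, supported in `|t| ≤ 1/2` -/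
def bumpB : ContDiffBump (0 : ℝ) := ⟨1 / 4, 1 / 2, by norm_num, by norm_num⟩

lemma bumpB_even (t : ℝ) : bumpB (-t) = bumpB t := bumpB.neg t

lemma bumpB_zero {t : ℝ} (h : 1 / 2 ≤ |t|) : bumpB t = 0 :=
  bumpB.zero_of_le_dist (by simpa [Real.dist_eq, bumpB] using h)

lemma bumpB_one {t : ℝ} (h : |t| ≤ 1 / 4) : bumpB t = 1 :=
  bumpB.one_of_mem_closedBall (by simpa [Real.dist_eq, bumpB] using h)

lemma bumpB_smooth : ContDiff ℝ ∞ (bumpB : ℝ → ℝ) := bumpB.contDiff

/-- the second derivative of `(1/2) log (1 + c χ)` -/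
lemma M0_dd_log {χ : ℝ → ℝ} (h : ContDiff ℝ ∞ χ) (h0 : ∀ t, 0 ≤ χ t) {c : ℝ} (hc : 0 ≤ c)
    (t : ℝ) :
    deriv (deriv (fun t => (1 / 2) * Real.log (1 + c * χ t))) t =
      (1 / 2) * ((c * deriv (deriv χ) t * (1 + c * χ t) - (c * deriv χ t) ^ 2)
        / (1 + c * χ t) ^ 2) := by
  have hp : ∀ t, 0 < 1 + c * χ t := fun t => by
    have := mul_nonneg hc (h0 t); linarith
  have hd : ∀ t, HasDerivAt χ (deriv χ t) t := fun t =>
    ((h.differentiable (by norm_num)) t).hasDerivAt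
  have hd2 : ∀ t, HasDerivAt (deriv χ) (deriv (deriv χ) t) t := fun t =>
    (((M0_deriv_smooth h).differentiable (by norm_num)) t).hasDerivAt
  have h1 : ∀ t, HasDerivAt (fun t => (1 / 2) * Real.log (1 + c * χ t))
      ((1 / 2) * (c * deriv χ t / (1 + c * χ t))) t := by
    intro t
    have h2 : HasDerivAt (fun t => 1 + c * χ t) (c * deriv χ t) t :=
      ((hd t).const_mul c).const_add 1
    exact (h2.log (hp t).ne').const_mul _
  have h3 : deriv (fun t => (1 / 2) * Real.log (1 + c * χ t)) =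
      fun t => (1 / 2) * (c * deriv χ t / (1 + c * χ t)) := funext fun t => (h1 t).deriv
  rw [h3]
  have h2 : HasDerivAt (fun t => 1 + c * χ t) (c * deriv χ t) t :=
    ((hd t).const_mul c).const_add 1
  have h4 := ((((hd2 t).const_mul c).div h2 (hp t).ne')).const_mul (1 / 2 : ℝ)
  have h5 : deriv (fun t => (1 / 2) * (c * deriv χ t / (1 + c * χ t))) t = _ := h4.deriv
  rw [h5]
  ring

/-- THE PROFILE FAMILY. -/
theorem exists_prof : ∃ (F φ : ℝ → ℝ) (η : ℝ), 0 < η ∧ Prof F ∧ ContDiff ℝ ∞ φ ∧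
    (∀ t, φ (-t) = φ t) ∧ (∀ t, 0 ≤ φ t) ∧ (∀ t, φ t ≤ η) ∧ (∀ t, |t| ≤ 1 / 4 → φ t = η) ∧
    (∀ t, 1 / 2 ≤ |t| → φ t = 0) ∧ (∀ a ∈ Icc (0 : ℝ) 2,
      Prof (fun t => F t + (1 / 2) * Real.log (1 + a * φ t))) := by
  obtain ⟨C1, hC1⟩ : ∃ C, ∀ t ∈ Icc (-(1 / 2) : ℝ) (1 / 2), |deriv (bumpB : ℝ → ℝ) t| ≤ C := by
    obtain ⟨C, hC⟩ := isCompact_Icc.exists_bound_of_continuousOn
      (f := deriv (bumpB : ℝ → ℝ)) (s := Icc (-(1 / 2) : ℝ) (1 / 2))
      (M0_deriv_smooth bumpB_smooth).continuous.continuousOn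
    exact ⟨C, fun t ht => by simpa using hC t ht⟩
  obtain ⟨C2, hC2⟩ : ∃ C, ∀ t ∈ Icc (-(1 / 2) : ℝ) (1 / 2),
      |deriv (deriv (bumpB : ℝ → ℝ)) t| ≤ C := by
    obtain ⟨C, hC⟩ := isCompact_Icc.exists_bound_of_continuousOn
      (f := deriv (deriv (bumpB : ℝ → ℝ))) (s := Icc (-(1 / 2) : ℝ) (1 / 2))
      (M0_deriv_smooth (M0_deriv_smooth bumpB_smooth)).continuous.continuousOn
    exact ⟨C, fun t ht => by simpa using hC t ht⟩
  obtain ⟨m, hm, hm'⟩ : ∃ m > 0, ∀ t ∈ Icc (-(1 / 2) : ℝ) (1 / 2), m ≤ psiA t := by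
    obtain ⟨t0, ht0, hmin⟩ := isCompact_Icc.exists_isMinOn (s := Icc (-(1 / 2) : ℝ) (1 / 2))
      ⟨0, by norm_num, by norm_num⟩ psiA_smooth.continuous.continuousOn
    refine ⟨psiA t0, psiA_pos ?_, fun t ht => hmin ht⟩
    rw [abs_lt]
    constructor <;> linarith [ht0.1, ht0.2]
  have hC1' : 0 ≤ C1 := le_trans (abs_nonneg _) (hC1 0 ⟨by norm_num, by norm_num⟩)
  have hC2' : 0 ≤ C2 := le_trans (abs_nonneg _) (hC2 0 ⟨by norm_num, by norm_num⟩)
  obtain ⟨ε, hε, hε1, hε2⟩ : ∃ ε : ℝ, 0 < ε ∧ ε ≤ 1 ∧ ε * (C2 + 2 * C1 ^ 2) < 2 * m := by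
    have hK : 0 ≤ C2 + 2 * C1 ^ 2 := by positivity
    refine ⟨min 1 (m / (C2 + 2 * C1 ^ 2 + 1)), lt_min one_pos (by positivity), min_le_left _ _, ?_⟩
    have h1 : min 1 (m / (C2 + 2 * C1 ^ 2 + 1)) * (C2 + 2 * C1 ^ 2) ≤
        (m / (C2 + 2 * C1 ^ 2 + 1)) * (C2 + 2 * C1 ^ 2 + 1) := by
      apply mul_le_mul (min_le_right _ _) (by linarith) hK (by positivity)
    rw [div_mul_cancel₀ _ (by positivity)] at h1
    linarith
  have hb0 : ∀ t, 0 ≤ bumpB t := fun t => bumpB.nonneg
  have hsm : ∀ a : ℝ, 0 ≤ a → ContDiff ℝ ∞ (fun t => (1 / 2) * Real.log (1 + a * (ε * bumpB t))) := by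
    intro a ha
    refine contDiff_const.mul (ContDiff.log ?_ ?_)
    · exact contDiff_const.add (contDiff_const.mul (contDiff_const.mul bumpB_smooth))
    · intro t
      have := mul_nonneg ha (mul_nonneg hε.le (hb0 t))
      linarith
  have hconv : ∀ a : ℝ, a ∈ Icc (0 : ℝ) 2 → ∀ t, |t| < 1 → 0 < deriv (deriv
      (fun t => profF t + (1 / 2) * Real.log (1 + a * (ε * bumpB t)))) t := by
    intro a ha t ht
    have e0 : deriv (fun t => profF t + (1 / 2) * Real.log (1 + a * (ε * bumpB t))) =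
        fun t => deriv profF t + deriv (fun t => (1 / 2) * Real.log (1 + a * (ε * bumpB t))) t := by
      funext s
      exact deriv_fun_add ((profF_smooth.differentiable (by norm_num)) s)
        (((hsm a ha.1).differentiable (by norm_num)) s)
    have e1 : deriv (deriv (fun t => profF t + (1 / 2) * Real.log (1 + a * (ε * bumpB t)))) t =
        deriv (deriv profF) t
          + deriv (deriv (fun t => (1 / 2) * Real.log (1 + a * (ε * bumpB t)))) t := by
      rw [e0]
      exact deriv_fun_add (((M0_deriv_smooth profF_smooth).differentiable (by norm_num)) t)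
        (((M0_deriv_smooth (hsm a ha.1)).differentiable (by norm_num)) t)
    rw [e1, profF_dd]
    by_cases h12 : |t| ≤ 1 / 2
    · have ht' : t ∈ Icc (-(1 / 2) : ℝ) (1 / 2) := abs_le.1 h12
      have e2 : (fun t => (1 / 2) * Real.log (1 + a * (ε * bumpB t))) =
          fun t => (1 / 2) * Real.log (1 + (a * ε) * bumpB t) := by
        funext s; rw [mul_assoc]
      have hc : 0 ≤ a * ε := mul_nonneg ha.1 hε.le
      rw [e2, M0_dd_log bumpB_smooth hb0 hc]
      set c := a * ε with hcdef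
      set x := bumpB t with hx
      set x1 := deriv (bumpB : ℝ → ℝ) t with hx1
      set x2 := deriv (deriv (bumpB : ℝ → ℝ)) t with hx2
      have hx0 : 0 ≤ x := hb0 t
      have hD : 1 ≤ 1 + c * x := by have := mul_nonneg hc hx0; linarith
      have hx1' : |x1| ≤ C1 := hC1 t ht'
      have hx2' : |x2| ≤ C2 := hC2 t ht'
      have hc2 : c ≤ 2 * ε := by
        rw [hcdef]; exact mul_le_mul_of_nonneg_right ha.2 hε.le
      have key : -(2 * ε * (C2 + 2 * C1 ^ 2)) ≤
          (c * x2 * (1 + c * x) - (c * x1) ^ 2) / (1 + c * x) ^ 2 := by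
        have e3 : (c * x2 * (1 + c * x) - (c * x1) ^ 2) / (1 + c * x) ^ 2 =
            c * x2 / (1 + c * x) - (c * x1) ^ 2 / (1 + c * x) ^ 2 := by
          field_simp
        rw [e3]
        have h5 : |c * x2 / (1 + c * x)| ≤ 2 * ε * C2 := by
          rw [abs_div, abs_mul, abs_of_nonneg hc, abs_of_pos (by linarith : 0 < 1 + c * x)]
          rw [div_le_iff₀ (by linarith)]
          have h6 : c * |x2| ≤ 2 * ε * C2 := mul_le_mul hc2 hx2' (abs_nonneg _) (by positivity)
          have h7 : 2 * ε * C2 ≤ 2 * ε * C2 * (1 + c * x) := le_mul_of_one_le_right (by positivity) hD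
          linarith
        have h6 : (c * x1) ^ 2 / (1 + c * x) ^ 2 ≤ 2 * ε * (2 * C1 ^ 2) := by
          rw [div_le_iff₀ (by positivity)]
          have h7 : (c * x1) ^ 2 ≤ (2 * ε) ^ 2 * C1 ^ 2 := by
            rw [mul_pow]
            apply mul_le_mul _ _ (by positivity) (by positivity)
            · exact pow_le_pow_left₀ hc hc2 2
            · rw [← sq_abs x1]; exact pow_le_pow_left₀ (abs_nonneg _) hx1' 2
          have h8 : (2 * ε) ^ 2 * C1 ^ 2 ≤ 2 * ε * (2 * C1 ^ 2) := by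
            have : 0 ≤ 4 * ε * C1 ^ 2 * (1 - ε) := by
              have : 0 ≤ 1 - ε := by linarith
              positivity
            nlinarith
          have h9 : 2 * ε * (2 * C1 ^ 2) ≤ 2 * ε * (2 * C1 ^ 2) * (1 + c * x) ^ 2 :=
            le_mul_of_one_le_right (by positivity) (one_le_pow₀ hD)
          linarith
        have h7 := (abs_le.1 h5).1
        linarith
      have h8 : m ≤ psiA t := hm' t ht'
      nlinarith
    · push Not at h12
      have hE : (fun t => (1 / 2) * Real.log (1 + a * (ε * bumpB t))) =ᶠ[𝓝 t] fun _ => 0 := by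
        have hop : IsOpen {s : ℝ | 1 / 2 < |s|} := isOpen_lt continuous_const continuous_abs
        filter_upwards [hop.mem_nhds h12] with s hs
        rw [bumpB_zero (le_of_lt hs)]
        simp
      have hE1 : deriv (fun t => (1 / 2) * Real.log (1 + a * (ε * bumpB t))) =ᶠ[𝓝 t]
          fun _ => 0 := by
        filter_upwards [hE.eventuallyEq_nhds] with s hs
        rw [hs.deriv_eq]
        simp
      rw [hE1.deriv_eq]
      simp only [deriv_const', add_zero]
      exact mul_pos two_pos (psiA_pos ht)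
  have hprof : ∀ a ∈ Icc (0 : ℝ) 2,
      Prof (fun t => profF t + (1 / 2) * Real.log (1 + a * (ε * bumpB t))) := by
    intro a ha
    refine ⟨profF_smooth.add (hsm a ha.1), ?_, ?_, hconv a ha⟩
    · intro t
      simp only [profF_even, bumpB_even]
    · intro t ht
      simp only [bumpB_zero (by linarith : 1 / 2 ≤ |t|), profF_abs t ht]
      simp
  refine ⟨profF, fun t => ε * bumpB t, ε, hε, ?_, ?_, ?_, ?_, ?_, ?_, ?_, hprof⟩
  · have h0 := hprof 0 ⟨le_rfl, by norm_num⟩
    simpa using h0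
  · exact contDiff_const.mul bumpB_smooth
  · intro t
    simp only [bumpB_even]
  · intro t
    exact mul_nonneg hε.le (hb0 t)
  · intro t
    have := bumpB.le_one (x := t)
    nlinarith
  · intro t ht
    simp only [bumpB_one ht, mul_one]
  · intro t ht
    simp only [bumpB_zero ht, mul_zero]

end

end Pool.Agent.EQ

end

/-! ## Lib_helper83.EQ.Metric1 -/

section

/-! MP_ed6ab2_an, project EQ, package G: the metric near the closed fundamental domain, written
through the distance `dl` to the lattice. -/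

set_option autoImplicit false

namespace Pool.Agent.EQ

open MeasureTheory Filter Topology Set SP
open scoped ContDiff

noncomputable section

/-- distance to the lattice -/
def dl (W : ℕ) (z : ℂ) : ℝ := Metric.infDist z (range (lat W))

/-- `u` near the closed fundamental domain (valid on the whole plane off the lattice) -/
def uE (F : ℝ → ℝ) (W : ℕ) (z : ℂ) : ℝ := F (Real.log (dl W z)) - Real.log (dl W z)

lemma dl_le (W : ℕ) (z : ℂ) (p : ℤ × ℤ) : dl W z ≤ ‖z - lat W p‖ := by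
  rw [← dist_eq_norm]
  exact Metric.infDist_le_dist_of_mem (mem_range_self p)

lemma dl_nonneg (W : ℕ) (z : ℂ) : 0 ≤ dl W z := Metric.infDist_nonneg

lemma dl_cont (W : ℕ) : Continuous (dl W) := Metric.continuous_infDist_pt _

/-- two lattice points are at distance at least `8` -/
lemma lat_sep {W : ℕ} (hW : 8 ≤ W) {p q : ℤ × ℤ} (h : p ≠ q) : 8 ≤ ‖lat W p - lat W q‖ := by
  have hW' : (8 : ℝ) ≤ W := by exact_mod_cast hW
  obtain ⟨a, b⟩ := p
  obtain ⟨c, d⟩ := q
  by_cases h1 : a = c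
  · have h2 : b ≠ d := fun h2 => h (by rw [h1, h2])
    have h3 : (1 : ℤ) ≤ |b - d| := Int.one_le_abs (sub_ne_zero.2 h2)
    have h3' : (1 : ℝ) ≤ |(b : ℝ) - d| := by exact_mod_cast h3
    refine le_trans ?_ (Complex.abs_im_le_norm _)
    have e : (lat W (a, b) - lat W (c, d)).im = W * ((b : ℝ) - d) := by
      simp [lat]; ring
    rw [e, abs_mul, abs_of_nonneg (by linarith)]
    nlinarith
  · have h3 : (1 : ℤ) ≤ |a - c| := Int.one_le_abs (sub_ne_zero.2 h1)
    have h3' : (1 : ℝ) ≤ |(a : ℝ) - c| := by exact_mod_cast h3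
    refine le_trans ?_ (Complex.abs_re_le_norm _)
    have e : (lat W (a, b) - lat W (c, d)).re = 8 * ((a : ℝ) - c) := by
      simp [lat]; ring
    rw [e, abs_mul, abs_of_nonneg (by norm_num)]
    nlinarith

lemma dl_eq {W : ℕ} (hW : 8 ≤ W) {z : ℂ} {p : ℤ × ℤ} (h : ‖z - lat W p‖ ≤ 4) :
    dl W z = ‖z - lat W p‖ := by
  apply le_antisymm (dl_le W z p)
  unfold dl
  rw [Metric.le_infDist (range_nonempty _)]
  rintro _ ⟨q, rfl⟩
  rw [dist_eq_norm]
  by_cases hpq : p = q
  · rw [hpq]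
  · have h1 := lat_sep hW hpq
    have h2 : ‖lat W p - lat W q‖ ≤ ‖z - lat W p‖ + ‖z - lat W q‖ := by
      have e : lat W p - lat W q = (z - lat W q) - (z - lat W p) := by ring
      rw [e]
      refine (norm_sub_le _ _).trans ?_
      linarith
    linarith

lemma dl_eventually {W : ℕ} (hW : 8 ≤ W) {z : ℂ} {p : ℤ × ℤ} (h : ‖z - lat W p‖ < 4) :
    dl W =ᶠ[𝓝 z] fun w => ‖w - lat W p‖ := by
  have hop : IsOpen {w : ℂ | ‖w - lat W p‖ < 4} :=
    isOpen_lt (continuous_id.sub continuous_const).norm continuous_const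
  filter_upwards [hop.mem_nhds h] with w hw
  exact dl_eq hW (le_of_lt hw)

lemma dl_cases {W : ℕ} (z : ℂ) : (∃ p, ‖z - lat W p‖ < 4) ∨ 4 ≤ dl W z := by
  by_cases h : 4 ≤ dl W z
  · exact Or.inr h
  · left
    push Not at h
    obtain ⟨_, ⟨p, rfl⟩, hp⟩ := (Metric.infDist_lt_iff (range_nonempty _)).1 h
    exact ⟨p, by rwa [← dist_eq_norm]⟩

lemma dl_add (W : ℕ) (z : ℂ) (p : ℤ × ℤ) : dl W (z + lat W p) = dl W z := by
  have key : ∀ (w : ℂ) (p : ℤ × ℤ), dl W w ≤ dl W (w + lat W p) := by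
    intro w p
    unfold dl
    rw [Metric.le_infDist (range_nonempty _)]
    rintro _ ⟨q, rfl⟩
    have h : Metric.infDist w (range (lat W)) ≤ dist w (lat W (q - p)) :=
      Metric.infDist_le_dist_of_mem (mem_range_self _)
    refine h.trans (le_of_eq ?_)
    rw [dist_eq_norm, dist_eq_norm]
    congr 1
    apply Complex.ext <;> simp [lat] <;> ring
  apply le_antisymm _ (key z p)
  have h := key (z + lat W p) (-p)
  have e : z + lat W p + lat W (-p) = z := by
    apply Complex.ext <;> simp [lat]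
  rwa [e] at h

lemma lat_ne_of_dl {W : ℕ} {z : ℂ} (h : 0 < dl W z) (p : ℤ × ℤ) : z ≠ lat W p := by
  rintro rfl
  have := dl_le W (lat W p) p
  rw [sub_self, norm_zero] at this
  linarith

lemma uE_add (F : ℝ → ℝ) (W : ℕ) (z : ℂ) (p : ℤ × ℤ) : uE F W (z + lat W p) = uE F W z := by
  unfold uE
  rw [dl_add]

lemma exp_one_lt_four : Real.exp 1 < 4 := by
  have := Real.exp_one_lt_d9
  linarith

lemma uE_flat {F : ℝ → ℝ} (hF : Prof F) {W : ℕ} {z : ℂ} (h : Real.exp 1 ≤ dl W z) :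
    uE F W z = 0 := by
  have h1 : 1 ≤ Real.log (dl W z) := by
    rw [Real.le_log_iff_exp_le (lt_of_lt_of_le (Real.exp_pos 1) h)]
    exact h
  unfold uE
  rw [hF.eq_self h1]
  ring

lemma uE_eventually_zero {F : ℝ → ℝ} (hF : Prof F) {W : ℕ} {z : ℂ} (h : Real.exp 1 < dl W z) :
    uE F W =ᶠ[𝓝 z] fun _ => 0 := by
  have hop : IsOpen {w : ℂ | Real.exp 1 < dl W w} := isOpen_lt continuous_const (dl_cont W)
  filter_upwards [hop.mem_nhds h] with w hw
  exact uE_flat hF (le_of_lt hw)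

lemma uE_eventually {F : ℝ → ℝ} {W : ℕ} (hW : 8 ≤ W) {z : ℂ} {p : ℤ × ℤ}
    (h : ‖z - lat W p‖ < 4) :
    uE F W =ᶠ[𝓝 z] fun w => F (Real.log ‖w - lat W p‖) - Real.log ‖w - lat W p‖ := by
  filter_upwards [dl_eventually hW h] with w hw
  simp only [uE, hw]

lemma uE_smooth {F : ℝ → ℝ} (hF : Prof F) {W : ℕ} (hW : 8 ≤ W) {z : ℂ} (hz : 0 < dl W z) :
    ContDiffAt ℝ ∞ (uE F W) z := by
  rcases dl_cases (W := W) z with ⟨p, hp⟩ | h4
  · have h1 : ContDiffAt ℝ ∞ (fun w : ℂ => Real.log ‖w - lat W p‖) z :=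
      M0_smooth_log_norm (lat_ne_of_dl hz p)
    have h2 : ContDiffAt ℝ ∞ (fun w : ℂ => F (Real.log ‖w - lat W p‖)) z :=
      hF.smooth.contDiffAt.comp z h1
    exact (h2.sub h1).congr_of_eventuallyEq (uE_eventually hW hp)
  · exact contDiffAt_const.congr_of_eventuallyEq
      (uE_eventually_zero hF (lt_of_lt_of_le exp_one_lt_four h4))

/-- the Laplacian of `u` -/
lemma uE_lap {F : ℝ → ℝ} (hF : Prof F) {W : ℕ} (hW : 8 ≤ W) {z : ℂ} (hz : 0 < dl W z) :
    lap (uE F W) z = deriv (deriv F) (Real.log (dl W z)) * (dl W z ^ 2)⁻¹ := by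
  rcases dl_cases (W := W) z with ⟨p, hp⟩ | h4
  · have hne := lat_ne_of_dl hz p
    rw [M0_lap_congr (uE_eventually hW hp), dl_eq hW hp.le]
    have h2 : ContDiff ℝ ∞ (fun t => F t - t) := hF.smooth.sub contDiff_id
    have h2' : ContDiff ℝ 2 (fun t => F t - t) := by exact_mod_cast contDiff_infty.1 h2 2
    have h1 := lap_radial (F := fun t => F t - t) hne h2'.contDiffAt
    rw [h1]
    congr 1
    have e1 : deriv (fun t => F t - t) = fun t => deriv F t - 1 := by
      funext t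
      have := ((hF.smooth.differentiable (by norm_num)) t).hasDerivAt.sub (hasDerivAt_id t)
      exact this.deriv
    rw [e1]
    exact deriv_sub_const _
  · rw [M0_lap_congr (uE_eventually_zero hF (lt_of_lt_of_le exp_one_lt_four h4))]
    have h5 : 1 ≤ |Real.log (dl W z)| := by
      refine le_trans ?_ (le_abs_self _)
      rw [Real.le_log_iff_exp_le hz]
      linarith [exp_one_lt_four]
    rw [hF.dd_zero h5]
    have e1 : dx (fun _ => (0 : ℝ)) = fun _ => 0 := by funext w; simp [dx]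
    have e2 : dy (fun _ => (0 : ℝ)) = fun _ => 0 := by funext w; simp [dy]
    unfold lap
    rw [e1, e2, e1, e2]
    simp

/-- minus the curvature -/
lemma uE_kk {F : ℝ → ℝ} (hF : Prof F) {W : ℕ} (hW : 8 ≤ W) {z : ℂ} (hz : 0 < dl W z) :
    kk (uE F W) z =
      Real.exp (-2 * F (Real.log (dl W z))) * deriv (deriv F) (Real.log (dl W z)) := by
  unfold kk
  rw [uE_lap hF hW hz]
  have e : Real.exp (-2 * uE F W z) =
      Real.exp (-2 * F (Real.log (dl W z))) * dl W z ^ 2 := by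
    unfold uE
    have : -2 * (F (Real.log (dl W z)) - Real.log (dl W z)) =
      -2 * F (Real.log (dl W z)) + (Real.log (dl W z) + Real.log (dl W z)) := by ring
    rw [this, Real.exp_add, Real.exp_add, Real.exp_log hz]
    ring
  rw [e]
  have : dl W z ≠ 0 := hz.ne'
  field_simp

lemma uE_kk_nonneg {F : ℝ → ℝ} (hF : Prof F) {W : ℕ} (hW : 8 ≤ W) {z : ℂ} (hz : 0 < dl W z) :
    0 ≤ kk (uE F W) z := by
  rw [uE_kk hF hW hz]
  exact mul_nonneg (Real.exp_pos _).le (hF.dd_nonneg _)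

lemma uE_kk_pos_iff {F : ℝ → ℝ} (hF : Prof F) {W : ℕ} (hW : 8 ≤ W) {z : ℂ} (hz : 0 < dl W z) :
    0 < kk (uE F W) z ↔ |Real.log (dl W z)| < 1 := by
  rw [uE_kk hF hW hz, ← hF.dd_pos_iff]
  constructor
  · intro h
    exact (pos_iff_pos_of_mul_pos h).1 (Real.exp_pos _)
  · intro h
    exact mul_pos (Real.exp_pos _) h

/-- the inversion in the unit circle around `l` -/
def invl (l z : ℂ) : ℂ := l + (starRingEnd ℂ (z - l))⁻¹

lemma invl_sub (l z : ℂ) : ‖invl l z - l‖ = ‖z - l‖⁻¹ := by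
  unfold invl
  rw [add_sub_cancel_left, norm_inv, RCLike.norm_conj]

lemma invl_invl (l z : ℂ) : invl l (invl l z) = z := by
  unfold invl
  rw [add_sub_cancel_left, map_inv₀, Complex.conj_conj, inv_inv]
  ring

/-- the law of `u` under the inversions -/
lemma uE_inv {F : ℝ → ℝ} (hF : Prof F) {W : ℕ} (hW : 8 ≤ W) {z : ℂ} {p : ℤ × ℤ}
    (h1 : 1 / 4 ≤ ‖z - lat W p‖) (h2 : ‖z - lat W p‖ ≤ 4) :
    uE F W (invl (lat W p) z) = uE F W z + 2 * Real.log ‖z - lat W p‖ := by
  have h3 : ‖invl (lat W p) z - lat W p‖ ≤ 4 := by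
    rw [invl_sub]
    rw [inv_le_comm₀ (by linarith) (by norm_num)]
    linarith
  unfold uE
  rw [dl_eq hW h3, dl_eq hW h2, invl_sub, Real.log_inv, hF.even]
  ring

end

end Pool.Agent.EQ

end

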