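import Mathlib
import Pool.Agent.Lib_helper71.EQM.FlowDefs
import Pool.Agent.Lib_helper71.EQM.Met

/-! Project EQ (MP_ed6ab2_an): merged modules Lib_helper83.EQ.Slope, Lib_helper83.EQ.GeoLine, Lib_helper36.EQG.Defs, Lib_helper83.GW.G01A, Lib_helper83.GW.G01B, Lib_helper83.GW.G01C, Lib_helper83.GW.G02A, Lib_helper83.GW.G02B, Lib_helper83.GW.G02C, Lib_helper83.GW.G03A, Lib_helper83.GW.G03B, Lib_helper83.GW.G04, Lib_helper83.GW.G05, Lib_helper83.GW.G06A, Lib_helper83.GW.G06B, Lib_helper83.GW.G07, Lib_helper83.GW.G08A, Lib_helper83.GW.G08B. -/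

set_option autoImplicit false

/-! ## Lib_helper83.EQ.Slope -/

section

/-! MP_ed6ab2_an, project EQ, package G: a straight line staying away from the lattice has a
lattice direction, and these directions are countable. -/

set_option autoImplicit false

namespace Pool.Agent.EQ

open MeasureTheory Filter Topology Set SP
open scoped ContDiff

noncomputable section

/-- SLOPE -/
theorem slope_line {W : ℕ} (hW : 8 ≤ W) {r : ℝ} (hr : 0 < r) (z v : ℂ)
    (h : ∀ t : ℝ, r ≤ dl W (z + t * v)) :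
    ∃ p : ℤ × ℤ, p ≠ 0 ∧ ∃ s : ℝ, v = s * lat W p := by
  have hW0 : (W : ℝ) ≠ 0 := by
    have : (8 : ℝ) ≤ W := by exact_mod_cast hW
    linarith
  by_cases hre : v.re = 0
  · refine ⟨(0, 1), by simp, v.im / W, ?_⟩
    apply Complex.ext
    · simp [lat, hre]
    · simp [lat]
      field_simp
  · set β : ℝ := v.im / v.re with hβ
    by_cases hirr : Irrational (8 * β / W)
    · exfalso
      have hd := dense_addSubgroupClosure_pair_iff.2 hirr
      have hy := hd.exists_dist_lt (-(z.im - β * z.re)) hr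
      obtain ⟨y, hy1, hy2⟩ := hy
      have hy1' : y ∈ AddSubgroup.closure {8 * β, (W : ℝ)} := hy1
      rw [AddSubgroup.mem_closure_pair] at hy1'
      obtain ⟨m, n, hmn⟩ := hy1'
      have ht := h ((8 * m - z.re) / v.re)
      have h2 := dl_le W (z + (((8 * m - z.re) / v.re : ℝ) : ℂ) * v) (m, -n)
      have e : z + (((8 * m - z.re) / v.re : ℝ) : ℂ) * v - lat W (m, -n) =
          ⟨0, (z.im - β * z.re) + y⟩ := by
        apply Complex.ext
        · simp only [lat, Complex.sub_re, Complex.add_re, Complex.re_ofReal_mul]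
          field_simp
          ring
        · simp only [lat, Complex.sub_im, Complex.add_im, Complex.im_ofReal_mul]
          rw [← hmn, hβ]
          simp only [zsmul_eq_mul]
          push_cast
          field_simp
          ring
      rw [e] at h2
      have e2 : ‖(⟨0, (z.im - β * z.re) + y⟩ : ℂ)‖ = |(z.im - β * z.re) + y| := by
        have : (⟨0, (z.im - β * z.re) + y⟩ : ℂ) = (((z.im - β * z.re) + y : ℝ) : ℂ) * Complex.I := by
          apply Complex.ext <;> simp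
        rw [this, norm_mul, Complex.norm_I, mul_one, Complex.norm_real, Real.norm_eq_abs]
      rw [e2] at h2
      rw [Real.dist_eq] at hy2
      have e3 : |-(z.im - β * z.re) - y| = |(z.im - β * z.re) + y| := by
        rw [← abs_neg]
        congr 1
        ring
      rw [e3] at hy2
      linarith
    · unfold Irrational at hirr
      push Not at hirr
      obtain ⟨q, hq⟩ := hirr
      have hq' : (q : ℝ) = 8 * β / W := hq
      have hqd : (q.den : ℝ) ≠ 0 := by exact_mod_cast q.den_ne_zero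
      have hqe : (q : ℝ) = q.num / q.den := by exact_mod_cast (Rat.num_div_den q).symm
      refine ⟨((q.den : ℤ), q.num), ?_, v.re / (8 * q.den), ?_⟩
      · intro h0
        have := congrArg Prod.fst h0
        simp at this
      · have hv : v.im = β * v.re := by rw [hβ]; field_simp
        have hb : β = q.num / q.den * W / 8 := by
          rw [← hqe, hq']; field_simp
        apply Complex.ext
        · simp only [lat, Complex.re_ofReal_mul, Int.cast_natCast]
          field_simp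
        · simp only [lat, Complex.im_ofReal_mul]
          rw [hv, hb]
          field_simp

/-- the angles of a lattice direction are countable -/
theorem slope_countable (W : ℕ) (c : ℂ) (hc : c ≠ 0) :
    {θ : ℝ | ∃ p : ℤ × ℤ, ∃ s : ℝ, c * Complex.exp (θ * Complex.I) = s * lat W p}.Countable := by
  have h1 : ∀ ζ : ℂ, {θ : ℝ | Complex.exp (θ * Complex.I) = ζ}.Countable := by
    intro ζ
    by_cases hne : {θ : ℝ | Complex.exp (θ * Complex.I) = ζ}.Nonempty
    · obtain ⟨θ₀, hθ₀⟩ := hne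
      have : {θ : ℝ | Complex.exp (θ * Complex.I) = ζ} ⊆
          range (fun n : ℤ => θ₀ + n * (2 * Real.pi)) := by
        intro θ hθ
        have h2 : Complex.exp (θ * Complex.I) = Complex.exp (θ₀ * Complex.I) := by
          rw [hθ, hθ₀]
        rw [Complex.exp_eq_exp_iff_exists_int] at h2
        obtain ⟨n, hn⟩ := h2
        refine ⟨n, ?_⟩
        have h3 := congrArg Complex.im hn
        simp at h3
        simp [h3]
      exact (countable_range _).mono this
    · rw [not_nonempty_iff_eq_empty.1 hne]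
      exact countable_empty
  have h2 : {θ : ℝ | ∃ p : ℤ × ℤ, ∃ s : ℝ, c * Complex.exp (θ * Complex.I) = s * lat W p} ⊆
      ⋃ p : ℤ × ℤ, ({θ : ℝ | Complex.exp (θ * Complex.I) = (‖c‖ / ‖lat W p‖ : ℝ) * lat W p / c} ∪
        {θ : ℝ | Complex.exp (θ * Complex.I) = -(‖c‖ / ‖lat W p‖ : ℝ) * lat W p / c}) := by
    rintro θ ⟨p, s, hs⟩
    rw [mem_iUnion]
    refine ⟨p, ?_⟩
    have hn : ‖c‖ = |s| * ‖lat W p‖ := by
      have h3 := congrArg norm hs
      rw [norm_mul, norm_mul, Complex.norm_exp_ofReal_mul_I, mul_one, Complex.norm_real,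
        Real.norm_eq_abs] at h3
      exact h3
    have hl : ‖lat W p‖ ≠ 0 := by
      intro h0
      rw [h0, mul_zero] at hn
      exact hc (norm_eq_zero.1 hn)
    have hs' : |s| = ‖c‖ / ‖lat W p‖ := by rw [hn]; field_simp
    have he : Complex.exp (θ * Complex.I) = s * lat W p / c := by
      rw [← hs]; field_simp
    rcases abs_choice s with h4 | h4
    · left
      show Complex.exp (θ * Complex.I) = _
      rw [he, ← hs', h4]
    · right
      show Complex.exp (θ * Complex.I) = _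
      rw [he, ← hs', h4]
      push_cast
      ring
  exact (countable_iUnion fun p => (h1 _).union (h1 _)).mono h2

end

end Pool.Agent.EQ

end

/-! ## Lib_helper83.EQ.GeoLine -/

section

/-! MP_ed6ab2_an, project EQ, package G: a geodesic that stays in flat pieces is a straight line in
the conformal chart. -/

set_option autoImplicit false

namespace Pool.Agent.EQ

open MeasureTheory Filter Topology Set SP
open scoped ContDiff

noncomputable section

lemma M0_cd_log_norm_holo {J : ℂ → ℂ} {z : ℂ} (hJ : AnalyticAt ℂ J z) (h0 : J z ≠ 0) :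
    ContDiffAt ℝ ∞ (fun w => Real.log ‖J w‖) z := by
  have h1 : ContDiffAt ℝ ∞ J z := (hJ.contDiffAt (n := ∞)).restrict_scalars ℝ
  exact (h1.norm ℝ h0).log (norm_ne_zero_iff.2 h0)

lemma M0_fderiv_log_norm_holo {J : ℂ → ℂ} {z : ℂ} (hJ : AnalyticAt ℂ J z) (h0 : J z ≠ 0) (v : ℂ) :
    fderiv ℝ (fun w => Real.log ‖J w‖) z v = (deriv J z / J z * v).re := by
  have h1 : HasFDerivAt J ((ContinuousLinearMap.toSpanSingleton ℂ (deriv J z)).restrictScalars ℝ)
      z := hJ.differentiableAt.hasDerivAt.hasFDerivAt.restrictScalars ℝ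
  have h2 : DifferentiableAt ℝ (fun w : ℂ => Real.log ‖w - 0‖) (J z) :=
    (M0_smooth_log_norm (n := 1) h0).differentiableAt (by norm_num)
  have h3 : HasFDerivAt (fun w => Real.log ‖J w - 0‖) _ z := h2.hasFDerivAt.comp z h1
  have h4 : (fun w => Real.log ‖J w‖) = fun w => Real.log ‖J w - 0‖ := by
    funext w; rw [sub_zero]
  rw [h4, h3.fderiv]
  simp only [ContinuousLinearMap.comp_apply]
  rw [M0_fderiv_log_norm h0, sub_zero]
  simp only [ContinuousLinearMap.coe_restrictScalars', ContinuousLinearMap.toSpanSingleton_apply,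
    smul_eq_mul]
  congr 1
  ring

lemma Prof.d_one {F : ℝ → ℝ} (P : Prof F) {t : ℝ} (h : 1 ≤ t) : deriv F t = 1 := by
  have hcont : Continuous (deriv F) := (M0_deriv_smooth P.smooth).continuous
  have h1 : ∀ s : ℝ, 1 < s → deriv F s = 1 := by
    intro s hs
    have hE : F =ᶠ[𝓝 s] fun x => x := by
      filter_upwards [lt_mem_nhds hs] with x hx
      exact P.eq_self hx.le
    rw [hE.deriv_eq]
    simp
  have h4 : t ∈ closure (Ioi (1 : ℝ)) := by rw [closure_Ioi]; exact h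
  have h5 : closure (Ioi (1 : ℝ)) ⊆ {s | deriv F s = 1} :=
    closure_minimal (fun s hs => h1 s hs) (isClosed_eq hcont continuous_const)
  exact h5 h4

/-- in the closed flat part the differential of `u` vanishes -/
lemma uE_fderiv_zero {F : ℝ → ℝ} (hF : Prof F) {W : ℕ} (hW : 8 ≤ W) {z : ℂ}
    (h : Real.exp 1 ≤ dl W z) : fderiv ℝ (uE F W) z = 0 := by
  rcases dl_cases (W := W) z with ⟨p, hp⟩ | h4
  · have hz : 0 < dl W z := lt_of_lt_of_le (Real.exp_pos 1) h
    have hne := lat_ne_of_dl hz p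
    rw [(uE_eventually hW hp).fderiv_eq]
    rw [dl_eq hW hp.le] at h
    have h1 : DifferentiableAt ℝ (fun w : ℂ => Real.log ‖w - lat W p‖) z :=
      (M0_smooth_log_norm (n := 1) hne).differentiableAt (by norm_num)
    have h2 : HasDerivAt (fun t => F t - t) (deriv F (Real.log ‖z - lat W p‖) - 1)
        (Real.log ‖z - lat W p‖) :=
      ((hF.smooth.differentiable (by norm_num)) _).hasDerivAt.sub (hasDerivAt_id _)
    have h3 : 1 ≤ Real.log ‖z - lat W p‖ := by
      rw [Real.le_log_iff_exp_le (lt_of_lt_of_le (Real.exp_pos 1) h)]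
      exact h
    rw [hF.d_one h3, sub_self] at h2
    have h4 : HasFDerivAt (fun w : ℂ => F (Real.log ‖w - lat W p‖) - Real.log ‖w - lat W p‖)
        ((0 : ℝ) • fderiv ℝ (fun w : ℂ => Real.log ‖w - lat W p‖) z) z :=
      HasDerivAt.comp_hasFDerivAt (h₂ := fun t => F t - t) z h2 h1.hasFDerivAt
    rw [h4.fderiv, zero_smul]
  · rw [(uE_eventually_zero hF (lt_of_lt_of_le exp_one_lt_four h4)).fderiv_eq]
    simp


/-- A geodesic which stays in the flat part of the chart `J` is a straight line in that chart. -/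
theorem geo_flat {u : ℂ → ℝ} {F : ℝ → ℝ} (hF : Prof F) {W : ℕ} (hW : 8 ≤ W) (c : ℝ → ℂ × ℝ)
    (hc : ∀ t, HasDerivAt c (XX u (c t)) t) (J : ℂ → ℂ) (hJ : ∀ t, AnalyticAt ℂ J (c t).1)
    (hJ0 : ∀ t, deriv J (c t).1 ≠ 0)
    (hu : ∀ t, u =ᶠ[𝓝 (c t).1] fun w => uE F W (J w) + Real.log ‖deriv J w‖)
    (hflat : ∀ t, Real.exp 1 ≤ dl W (J (c t).1)) (t : ℝ) :
    J (c t).1 = J (c 0).1 + t * (deriv J (c 0).1 * Real.exp (-u (c 0).1) *
      Complex.exp ((c 0).2 * Complex.I)) := by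
  -- the differential of `u` along the orbit
  have hdu : ∀ t, HasFDerivAt u (fderiv ℝ u (c t).1) (c t).1 ∧
      ∀ v, fderiv ℝ u (c t).1 v = (deriv (deriv J) (c t).1 / deriv J (c t).1 * v).re := by
    intro t
    have h1 : HasFDerivAt J ((ContinuousLinearMap.toSpanSingleton ℂ
        (deriv J (c t).1)).restrictScalars ℝ) (c t).1 :=
      (hJ t).differentiableAt.hasDerivAt.hasFDerivAt.restrictScalars ℝ
    have hz : 0 < dl W (J (c t).1) := lt_of_lt_of_le (Real.exp_pos 1) (hflat t)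
    have h2 : HasFDerivAt (uE F W) (0 : ℂ →L[ℝ] ℝ) (J (c t).1) := by
      rw [← uE_fderiv_zero hF hW (hflat t)]
      exact ((uE_smooth hF hW hz).differentiableAt (by norm_num)).hasFDerivAt
    have h3 : HasFDerivAt (fun w => uE F W (J w)) (0 : ℂ →L[ℝ] ℝ) (c t).1 := by
      have := h2.comp (c t).1 h1
      rwa [ContinuousLinearMap.zero_comp] at this
    have h4 : DifferentiableAt ℝ (fun w => Real.log ‖deriv J w‖) (c t).1 :=
      (M0_cd_log_norm_holo (hJ t).deriv (hJ0 t)).differentiableAt (by norm_num)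
    have h5 : HasFDerivAt (fun w => uE F W (J w) + Real.log ‖deriv J w‖)
        (0 + fderiv ℝ (fun w => Real.log ‖deriv J w‖) (c t).1) (c t).1 :=
      h3.add h4.hasFDerivAt
    have h6 : HasFDerivAt u (0 + fderiv ℝ (fun w => Real.log ‖deriv J w‖) (c t).1) (c t).1 :=
      h5.congr_of_eventuallyEq (hu t)
    refine ⟨h6.differentiableAt.hasFDerivAt, fun v => ?_⟩
    rw [h6.fderiv, zero_add, M0_fderiv_log_norm_holo (hJ t).deriv (hJ0 t)]
  have hz1 : ∀ t, HasDerivAt (fun s => (c s).1) (XX u (c t)).1 t := fun t => by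
    have h := (hasFDerivAt_fst (𝕜 := ℝ) (p := c t)).comp_hasDerivAt t (hc t)
    exact h
  have hz2 : ∀ t, HasDerivAt (fun s => (c s).2) (XX u (c t)).2 t := fun t => by
    have h := (hasFDerivAt_snd (𝕜 := ℝ) (p := c t)).comp_hasDerivAt t (hc t)
    exact h
  set om : ℝ → ℂ := fun t => deriv J (c t).1 * Real.exp (-u (c t).1) *
    Complex.exp ((c t).2 * Complex.I) with hom
  have hom' : ∀ t, HasDerivAt om 0 t := by
    intro t
    have e1 : HasDerivAt (fun s => deriv J (c s).1) (deriv (deriv J) (c t).1 * (XX u (c t)).1) t :=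
      HasDerivAt.comp (h₂ := deriv J) (h := fun s => (c s).1) t
        (hJ t).deriv.differentiableAt.hasDerivAt (hz1 t)
    have e2 : HasDerivAt (fun s => u (c s).1) (fderiv ℝ u (c t).1 (XX u (c t)).1) t :=
      (hdu t).1.comp_hasDerivAt t (hz1 t)
    have e3 : HasDerivAt (fun s => ((Real.exp (-u (c s).1) : ℝ) : ℂ))
        ((Real.exp (-u (c t).1) * -(fderiv ℝ u (c t).1 (XX u (c t)).1) : ℝ) : ℂ) t :=
      (e2.neg.exp).ofReal_comp
    have e4 : HasDerivAt (fun s => Complex.exp ((c s).2 * Complex.I))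
        (Complex.exp ((c t).2 * Complex.I) * (((XX u (c t)).2 : ℝ) * Complex.I)) t :=
      ((hz2 t).ofReal_comp.mul_const Complex.I).cexp
    have e5 := (e1.mul e3).mul e4
    have e6 : deriv (deriv J) (c t).1 * (XX u (c t)).1 * ((Real.exp (-u (c t).1) : ℝ) : ℂ) +
        deriv J (c t).1 * ((Real.exp (-u (c t).1) * -(fderiv ℝ u (c t).1 (XX u (c t)).1) : ℝ) : ℂ)
        = deriv J (c t).1 * ((Real.exp (-u (c t).1) : ℝ) : ℂ) *
          (deriv (deriv J) (c t).1 / deriv J (c t).1 * (XX u (c t)).1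
            - ((fderiv ℝ u (c t).1 (XX u (c t)).1 : ℝ) : ℂ)) := by
      have := hJ0 t
      push_cast
      field_simp
      ring
    have e7 : (XX u (c t)).2 = fderiv ℝ u (c t).1 (Complex.I * (XX u (c t)).1) := by
      have e8 : Complex.I * (XX u (c t)).1 =
          (-(Real.exp (-u (c t).1) * Real.sin (c t).2)) • (1 : ℂ) +
            (Real.exp (-u (c t).1) * Real.cos (c t).2) • Complex.I := by
        simp only [XX]
        rw [Complex.exp_mul_I, ← Complex.ofReal_cos, ← Complex.ofReal_sin]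
        generalize Real.exp (-u (c t).1) = x
        apply Complex.ext <;> simp
      rw [e8, map_add, map_smul, map_smul]
      simp only [XX, dx, dy, smul_eq_mul]
      ring
    rw [e6] at e5
    have e9 : deriv J (c t).1 * ((Real.exp (-u (c t).1) : ℝ) : ℂ) *
          (deriv (deriv J) (c t).1 / deriv J (c t).1 * (XX u (c t)).1
            - ((fderiv ℝ u (c t).1 (XX u (c t)).1 : ℝ) : ℂ)) * Complex.exp ((c t).2 * Complex.I)
        + deriv J (c t).1 * ((Real.exp (-u (c t).1) : ℝ) : ℂ) *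
          (Complex.exp ((c t).2 * Complex.I) * (((XX u (c t)).2 : ℝ) * Complex.I)) = 0 := by
      rw [e7, (hdu t).2, (hdu t).2]
      set q : ℂ := deriv (deriv J) (c t).1 / deriv J (c t).1 with hq
      set ζ : ℂ := (XX u (c t)).1 with hζ
      have e10 : q * ζ - (((q * ζ).re : ℝ) : ℂ) + (((q * (Complex.I * ζ)).re : ℝ) : ℂ) * Complex.I
          = 0 := by
        apply Complex.ext
        · simp
        · simp
      linear_combination (deriv J (c t).1 * ((Real.exp (-u (c t).1) : ℝ) : ℂ) *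
        Complex.exp ((c t).2 * Complex.I)) * e10
    have e11 : HasDerivAt om _ t := e5
    have e12 := e11
    simp only [Pi.mul_apply] at e12
    rw [e9] at e12
    exact e12
  have hconst : ∀ t, om t = om 0 := fun t =>
    is_const_of_deriv_eq_zero (fun x => (hom' x).differentiableAt) (fun x => (hom' x).deriv) t 0
  have hJc : ∀ t, HasDerivAt (fun s => J (c s).1 - s * om 0) 0 t := by
    intro t
    have e1 : HasDerivAt (fun s => J (c s).1) (deriv J (c t).1 * (XX u (c t)).1) t :=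
      HasDerivAt.comp (h₂ := J) (h := fun s => (c s).1) t
        (hJ t).differentiableAt.hasDerivAt (hz1 t)
    have e2 : HasDerivAt (fun s : ℝ => (s : ℂ) * om 0) (1 * om 0) t :=
      ((hasDerivAt_id t).ofReal_comp).mul_const (om 0)
    have e3 := e1.sub e2
    have e4 : deriv J (c t).1 * (XX u (c t)).1 - 1 * om 0 = 0 := by
      rw [← hconst t, hom]
      simp only [XX]
      push_cast
      ring
    rw [e4] at e3
    exact e3
  have hfin := is_const_of_deriv_eq_zero (fun x => (hJc x).differentiableAt)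
    (fun x => (hJc x).deriv) t 0
  simp only [Complex.ofReal_zero, zero_mul, sub_zero] at hfin
  have : J (c t).1 = J (c 0).1 + t * om 0 := by linear_combination hfin
  rw [this, hom]

end

end Pool.Agent.EQ

end

/-! ## Lib_helper36.EQG.Defs -/

section

/-! Project EQ, package G: the concrete surface (definitions). -/

set_option autoImplicit false

namespace Pool.Agent.EQ

open MeasureTheory Filter Topology Set SP
open scoped ContDiff ComplexConjugate

noncomputable section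

/-- the inversion in the unit circle with centre `l` (it fixes `l`), as a permutation of `ℂ` -/
def ivE (l : ℂ) : Equiv.Perm ℂ where
  toFun z := l + (conj (z - l))⁻¹
  invFun z := l + (conj (z - l))⁻¹
  left_inv z := by simp
  right_inv z := by simp

/-- the translation by `l` -/
def trE (l : ℂ) : Equiv.Perm ℂ where
  toFun z := z + l
  invFun z := z - l
  left_inv z := by simp
  right_inv z := by simp

/-- the full group: generated by the lattice and the inversion in the unit circle -/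
def Gf (W : ℕ) : Subgroup (Equiv.Perm ℂ) :=
  Subgroup.closure (insert (ivE 0) (range fun p => trE (lat W p)))

/-- the group of the surface: its holomorphic elements (even number of inversions) -/
def Gg (W : ℕ) : Subgroup (Equiv.Perm ℂ) :=
  Subgroup.closure ((range fun p => trE (lat W p)) ∪
    range fun p => ivE 0 * trE (lat W p) * ivE 0)

/-- the closed tile: the plane minus the open unit discs around the lattice points -/
def EE (W : ℕ) : Set ℂ := {z | 1 ≤ dl W z}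

/-- the covering surface -/
def Om (W : ℕ) : Set ℂ := {z | ∃ γ ∈ Gf W, γ z ∈ EE W}

/-- the half-open period rectangle -/
def Rh (W : ℕ) : Set ℂ := {z | -4 ≤ z.re ∧ z.re < 4 ∧ -4 ≤ z.im ∧ z.im < (W : ℝ) - 4}

/-- the words in the inversions -/
def wd (W : ℕ) (L : List (ℤ × ℤ)) : Equiv.Perm ℂ := (L.map fun p => ivE (lat W p)).prod

/-- the projection to the fundamental domain `EE ∩ Rh` of `Gf` -/
def pr (W : ℕ) (z : ℂ) : ℂ :=
  open Classical in
  if h : ∃ w ∈ EE W ∩ Rh W, ∃ γ ∈ Gf W, γ z = w then h.choose else z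

/-- the conformal factor of a map -/
def cfac (γ : ℂ → ℂ) (z : ℂ) : ℝ := ‖fderiv ℝ γ z 1‖

/-- the logarithm of the conformal factor of the metric on `Om` -/
def uu (F : ℝ → ℝ) (W : ℕ) (z : ℂ) : ℝ :=
  open Classical in
  if h : ∃ γ ∈ Gf W, γ z ∈ EE W then uE F W (h.choose z) + Real.log (cfac h.choose z) else 0

/-- the annulus `e^{-δ} < |z| < e^δ` -/
def Ann (δ : ℝ) : Set ℂ := {z | Real.exp (-δ) < ‖z‖ ∧ ‖z‖ < Real.exp δ}

/-- the union of the images of the annulus: the necks for `δ = 1` -/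
def Neck (W : ℕ) (δ : ℝ) : Set ℂ := {z | ∃ γ ∈ Gf W, γ z ∈ Ann δ}

/-- the fundamental domain of `Gg`: two copies of `EE ∩ Rh` -/
def Fd (W : ℕ) : Set ℂ := (EE W ∩ Rh W ∩ {z | 1 < ‖z‖}) ∪ ivE 0 '' (EE W ∩ Rh W ∩ {z | 1 < ‖z‖})

/-- `f` is invariant under the full group -/
def GfInv (W : ℕ) (f : ℂ → ℝ) : Prop := ∀ γ ∈ Gf W, ∀ z ∈ Om W, f (γ z) = f z

end

end Pool.Agent.EQ

end

/-! ## Lib_helper83.GW.G01A -/

section

set_option autoImplicit false
set_option linter.unusedVariables false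

namespace Pool.Agent.Lib_helper93.EQG.G01A

open MeasureTheory Filter Topology Set
open Pool.Agent.EQ.SP
open scoped ContDiff ComplexConjugate
open Pool.Agent.EQ

noncomputable section

variable {W : ℕ}

theorem ivE_mul_self (l : ℂ) : ivE l * ivE l = 1 := by
  ext z
  show ivE l (ivE l z) = z
  simp [ivE]

theorem ivE_ivE (l z : ℂ) : ivE l (ivE l z) = z := by
  simp [ivE]

theorem norm_ivE_sub (l z : ℂ) : ‖ivE l z - l‖ = ‖z - l‖⁻¹ := by
  show ‖l + (conj (z - l))⁻¹ - l‖ = ‖z - l‖⁻¹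
  rw [add_sub_cancel_left, norm_inv, RCLike.norm_conj]

/-- the inversion fixes its circle -/
theorem ivE_circle {l z : ℂ} (h : ‖z - l‖ = 1) : ivE l z = z := by
  show l + (conj (z - l))⁻¹ = z
  have h1 : (conj (z - l))⁻¹ = z - l := by
    apply inv_eq_of_mul_eq_one_right
    rw [Complex.conj_mul', h]
    simp
  rw [h1]
  ring

theorem trE_mul_trE (a b : ℂ) : trE a * trE b = trE (a + b) := by
  ext z
  show (z + b) + a = z + (a + b)
  ring

theorem trE_zero : trE 0 = 1 := by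
  ext z
  show z + 0 = z
  ring

theorem trE_inv (a : ℂ) : (trE a)⁻¹ = trE (-a) := by
  ext z
  show z - a = z + -a
  ring

theorem trE_mul_ivE (l q : ℂ) : trE q * ivE l = ivE (l + q) * trE q := by
  ext z
  show l + (conj (z - l))⁻¹ + q = l + q + (conj (z + q - (l + q)))⁻¹
  have : z + q - (l + q) = z - l := by ring
  rw [this]
  ring

theorem lat_add (p q : ℤ × ℤ) : lat W (p + q) = lat W p + lat W q := by
  apply Complex.ext
  · show 8 * ((p.1 + q.1 : ℤ) : ℝ) = 8 * (p.1 : ℝ) + 8 * (q.1 : ℝ)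
    push_cast
    ring
  · show (W : ℝ) * ((p.2 + q.2 : ℤ) : ℝ) = (W : ℝ) * (p.2 : ℝ) + (W : ℝ) * (q.2 : ℝ)
    push_cast
    ring

theorem lat_zero : lat W 0 = 0 := by
  apply Complex.ext
  · show 8 * ((0 : ℤ) : ℝ) = 0
    simp
  · show (W : ℝ) * ((0 : ℤ) : ℝ) = 0
    simp

theorem lat_neg (p : ℤ × ℤ) : lat W (-p) = -lat W p := by
  apply Complex.ext
  · show 8 * ((-p.1 : ℤ) : ℝ) = -(8 * (p.1 : ℝ))
    push_cast
    ring
  · show (W : ℝ) * ((-p.2 : ℤ) : ℝ) = -((W : ℝ) * (p.2 : ℝ))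
    push_cast
    ring

theorem lat_inj (hW : 8 ≤ W) {p q : ℤ × ℤ} (h : lat W p = lat W q) : p = q := by
  by_contra hpq
  have h1 := lat_sep hW hpq
  rw [h, sub_self, norm_zero] at h1
  norm_num at h1

theorem isClosed_range_mul (c : ℝ) : IsClosed (range fun n : ℤ => c * (n : ℝ)) := by
  by_cases hc : c = 0
  · subst hc
    have : (range fun n : ℤ => (0:ℝ) * (n : ℝ)) = {0} := by
      ext x
      simp
    rw [this]
    exact isClosed_singleton
  · exact ((Homeomorph.mulLeft₀ c hc).isClosedEmbedding.comp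
      Int.isClosedEmbedding_coe_real).isClosed_range

theorem isClosed_range_lat : IsClosed (range (lat W)) := by
  have h : range (lat W) = Complex.re ⁻¹' (range fun n : ℤ => 8 * (n : ℝ)) ∩
      Complex.im ⁻¹' (range fun n : ℤ => (W : ℝ) * (n : ℝ)) := by
    ext z
    constructor
    · rintro ⟨p, rfl⟩
      exact ⟨⟨p.1, rfl⟩, ⟨p.2, rfl⟩⟩
    · rintro ⟨⟨m, hm⟩, ⟨n, hn⟩⟩
      exact ⟨(m, n), Complex.ext hm hn⟩
  rw [h]
  exact ((isClosed_range_mul 8).preimage Complex.continuous_re).inter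
    ((isClosed_range_mul W).preimage Complex.continuous_im)

theorem le_dl_iff {r : ℝ} {z : ℂ} : r ≤ dl W z ↔ ∀ p, r ≤ ‖z - lat W p‖ := by
  constructor
  · intro h p
    exact h.trans (dl_le W z p)
  · intro h
    show r ≤ Metric.infDist z (range (lat W))
    rw [Metric.le_infDist (range_nonempty _)]
    rintro _ ⟨p, rfl⟩
    rw [dist_eq_norm]
    exact h p

theorem exists_of_dl_lt {r : ℝ} {z : ℂ} (h : dl W z < r) : ∃ p, ‖z - lat W p‖ < r := by
  by_contra hcon
  push Not at hcon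
  exact absurd (le_dl_iff.2 hcon) (not_le.2 h)

theorem exists_dl_eq (hW : 8 ≤ W) (z : ℂ) : ∃ p, dl W z = ‖z - lat W p‖ := by
  obtain ⟨y, ⟨p, rfl⟩, hy⟩ :=
    isClosed_range_lat.exists_infDist_eq_dist (range_nonempty (lat W)) z
  exact ⟨p, by rw [← dist_eq_norm]; exact hy⟩

theorem lt_dl_iff (hW : 8 ≤ W) {r : ℝ} {z : ℂ} : r < dl W z ↔ ∀ p, r < ‖z - lat W p‖ := by
  constructor
  · intro h p
    exact h.trans_le (dl_le W z p)
  · intro h
    obtain ⟨p, hp⟩ := exists_dl_eq hW z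
    rw [hp]
    exact h p

theorem mem_EE_iff {z : ℂ} : z ∈ EE W ↔ ∀ p, 1 ≤ ‖z - lat W p‖ := le_dl_iff

end

end Pool.Agent.Lib_helper93.EQG.G01A

namespace Pool.Agent.EQ

open MeasureTheory Filter Topology Set SP
open scoped ContDiff ComplexConjugate

noncomputable section

variable {W : ℕ}

theorem ivE_apply (l z : ℂ) : ivE l z = l + (conj (z - l))⁻¹ := rfl

theorem trE_apply (l z : ℂ) : trE l z = z + l := rfl

theorem ivE_mul_self (l : ℂ) : ivE l * ivE l = 1 :=
  Pool.Agent.Lib_helper93.EQG.G01A.ivE_mul_self l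

theorem ivE_ivE (l z : ℂ) : ivE l (ivE l z) = z :=
  Pool.Agent.Lib_helper93.EQG.G01A.ivE_ivE l z

theorem norm_ivE_sub (l z : ℂ) : ‖ivE l z - l‖ = ‖z - l‖⁻¹ :=
  Pool.Agent.Lib_helper93.EQG.G01A.norm_ivE_sub l z

theorem ivE_circle {l z : ℂ} (h : ‖z - l‖ = 1) : ivE l z = z :=
  Pool.Agent.Lib_helper93.EQG.G01A.ivE_circle h

theorem trE_mul_trE (a b : ℂ) : trE a * trE b = trE (a + b) :=
  Pool.Agent.Lib_helper93.EQG.G01A.trE_mul_trE a b

theorem trE_zero : trE 0 = 1 :=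
  Pool.Agent.Lib_helper93.EQG.G01A.trE_zero

theorem trE_inv (a : ℂ) : (trE a)⁻¹ = trE (-a) :=
  Pool.Agent.Lib_helper93.EQG.G01A.trE_inv a

theorem trE_mul_ivE (l q : ℂ) : trE q * ivE l = ivE (l + q) * trE q :=
  Pool.Agent.Lib_helper93.EQG.G01A.trE_mul_ivE l q

theorem lat_add (p q : ℤ × ℤ) : lat W (p + q) = lat W p + lat W q :=
  Pool.Agent.Lib_helper93.EQG.G01A.lat_add p q

theorem lat_zero : lat W 0 = 0 :=
  Pool.Agent.Lib_helper93.EQG.G01A.lat_zero

theorem lat_neg (p : ℤ × ℤ) : lat W (-p) = -lat W p :=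
  Pool.Agent.Lib_helper93.EQG.G01A.lat_neg p

theorem lat_inj (hW : 8 ≤ W) {p q : ℤ × ℤ} (h : lat W p = lat W q) : p = q :=
  Pool.Agent.Lib_helper93.EQG.G01A.lat_inj hW h

theorem le_dl_iff {r : ℝ} {z : ℂ} : r ≤ dl W z ↔ ∀ p, r ≤ ‖z - lat W p‖ :=
  Pool.Agent.Lib_helper93.EQG.G01A.le_dl_iff

theorem exists_of_dl_lt {r : ℝ} {z : ℂ} (h : dl W z < r) : ∃ p, ‖z - lat W p‖ < r :=
  Pool.Agent.Lib_helper93.EQG.G01A.exists_of_dl_lt h

theorem exists_dl_eq (hW : 8 ≤ W) (z : ℂ) : ∃ p, dl W z = ‖z - lat W p‖ :=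
  Pool.Agent.Lib_helper93.EQG.G01A.exists_dl_eq hW z

theorem lt_dl_iff (hW : 8 ≤ W) {r : ℝ} {z : ℂ} : r < dl W z ↔ ∀ p, r < ‖z - lat W p‖ :=
  Pool.Agent.Lib_helper93.EQG.G01A.lt_dl_iff hW

theorem mem_EE_iff {z : ℂ} : z ∈ EE W ↔ ∀ p, 1 ≤ ‖z - lat W p‖ :=
  Pool.Agent.Lib_helper93.EQG.G01A.mem_EE_iff

end

end Pool.Agent.EQ

end

/-! ## Lib_helper83.GW.G01B -/

section

set_option autoImplicit false
set_option linter.unusedVariables false

namespace Pool.Agent.Lib_helper93.EQG.G01B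

open MeasureTheory Filter Topology Set
open Pool.Agent.EQ.SP
open scoped ContDiff ComplexConjugate
open Pool.Agent.EQ

noncomputable section

variable {W : ℕ}

/-- every point has a translate in the period rectangle -/
theorem exists_Rh (hW : 8 ≤ W) (z : ℂ) : ∃ q, z + lat W q ∈ Rh W := by
  have hW' : (8:ℝ) ≤ W := by exact_mod_cast hW
  have hW0 : (0:ℝ) < W := by linarith
  refine ⟨(-⌊(z.re + 4) / 8⌋, -⌊(z.im + 4) / W⌋), ?_⟩
  have e1 : (z + lat W (-⌊(z.re + 4) / 8⌋, -⌊(z.im + 4) / W⌋)).re =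
      z.re - 8 * (⌊(z.re + 4) / 8⌋ : ℝ) := by
    show z.re + 8 * ((-⌊(z.re + 4) / 8⌋ : ℤ) : ℝ) = _
    push_cast
    ring
  have e2 : (z + lat W (-⌊(z.re + 4) / 8⌋, -⌊(z.im + 4) / W⌋)).im =
      z.im - W * (⌊(z.im + 4) / W⌋ : ℝ) := by
    show z.im + W * ((-⌊(z.im + 4) / W⌋ : ℤ) : ℝ) = _
    push_cast
    ring
  have a1 := Int.floor_le ((z.re + 4) / 8)
  have a2 := Int.lt_floor_add_one ((z.re + 4) / 8)
  have b1 := Int.floor_le ((z.im + 4) / W)
  have b2 := Int.lt_floor_add_one ((z.im + 4) / W)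
  rw [le_div_iff₀ (by norm_num)] at a1
  rw [div_lt_iff₀ (by norm_num)] at a2
  rw [le_div_iff₀ hW0] at b1
  rw [div_lt_iff₀ hW0] at b2
  refine ⟨?_, ?_, ?_, ?_⟩
  · rw [e1]; linarith
  · rw [e1]; linarith
  · rw [e2]; nlinarith
  · rw [e2]; nlinarith

theorem Rh_unique (hW : 8 ≤ W) {z : ℂ} {q : ℤ × ℤ} (h : z ∈ Rh W) (h' : z + lat W q ∈ Rh W) :
    q = 0 := by
  have hW' : (8:ℝ) ≤ W := by exact_mod_cast hW
  have hW0 : (0:ℝ) < W := by linarith
  obtain ⟨a1, a2, a3, a4⟩ := h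
  obtain ⟨b1, b2, b3, b4⟩ := h'
  have e1 : (z + lat W q).re = z.re + 8 * (q.1 : ℝ) := rfl
  have e2 : (z + lat W q).im = z.im + W * (q.2 : ℝ) := rfl
  rw [e1] at b1 b2
  rw [e2] at b3 b4
  have c1 : (q.1 : ℝ) < 1 := by linarith
  have c2 : (-1 : ℝ) < q.1 := by linarith
  have c3 : (q.2 : ℝ) < 1 := by
    by_contra hc
    push Not at hc
    nlinarith
  have c4 : (-1 : ℝ) < q.2 := by
    by_contra hc
    push Not at hc
    nlinarith
  have d1 : q.1 < 1 := by exact_mod_cast c1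
  have d2 : -1 < q.1 := by exact_mod_cast c2
  have d3 : q.2 < 1 := by exact_mod_cast c3
  have d4 : -1 < q.2 := by exact_mod_cast c4
  exact Prod.ext (by show q.1 = 0; omega) (by show q.2 = 0; omega)

theorem EE_tr {z : ℂ} (hz : z ∈ EE W) (q : ℤ × ℤ) : z + lat W q ∈ EE W := by
  show 1 ≤ dl W (z + lat W q)
  rw [dl_add]
  exact hz

theorem trE_mem (q : ℤ × ℤ) : trE (lat W q) ∈ Gf W :=
  Subgroup.subset_closure (mem_insert_of_mem _ ⟨q, rfl⟩)

theorem trE_mem' (q : ℤ × ℤ) : trE (lat W q) ∈ Gg W :=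
  Subgroup.subset_closure (Or.inl ⟨q, rfl⟩)

theorem ivE_zero_mem : ivE 0 ∈ Gf W := Subgroup.subset_closure (mem_insert _ _)

theorem ivE_mem (q : ℤ × ℤ) : ivE (lat W q) ∈ Gf W := by
  have h : ivE (lat W q) = trE (lat W q) * ivE 0 * (trE (lat W q))⁻¹ := by
    rw [eq_mul_inv_iff_mul_eq, trE_mul_ivE, zero_add]
  rw [h]
  exact (Gf W).mul_mem ((Gf W).mul_mem (trE_mem q) ivE_zero_mem) ((Gf W).inv_mem (trE_mem q))

theorem wd_mem (L : List (ℤ × ℤ)) : wd W L ∈ Gf W := by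
  refine Subgroup.list_prod_mem _ ?_
  intro x hx
  rw [List.mem_map] at hx
  obtain ⟨p, -, rfl⟩ := hx
  exact ivE_mem p

theorem Gg_le : Gg W ≤ Gf W := by
  rw [Gg, Subgroup.closure_le]
  rintro _ (⟨p, rfl⟩ | ⟨p, rfl⟩)
  · exact trE_mem p
  · exact (Gf W).mul_mem ((Gf W).mul_mem ivE_zero_mem (trE_mem p)) ivE_zero_mem

theorem Om_inv {γ : Equiv.Perm ℂ} (hγ : γ ∈ Gf W) {z : ℂ} : γ z ∈ Om W ↔ z ∈ Om W := by
  constructor
  · rintro ⟨δ, hδ, h⟩
    exact ⟨δ * γ, (Gf W).mul_mem hδ hγ, h⟩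
  · rintro ⟨δ, hδ, h⟩
    refine ⟨δ * γ⁻¹, (Gf W).mul_mem hδ ((Gf W).inv_mem hγ), ?_⟩
    show δ (γ.symm (γ z)) ∈ EE W
    rw [Equiv.symm_apply_apply]
    exact h

theorem EE_sub_Om : EE W ⊆ Om W := fun z hz => ⟨1, (Gf W).one_mem, hz⟩

end

end Pool.Agent.Lib_helper93.EQG.G01B

namespace Pool.Agent.EQ

open MeasureTheory Filter Topology Set SP
open scoped ContDiff ComplexConjugate

noncomputable section

variable {W : ℕ}

theorem exists_Rh (hW : 8 ≤ W) (z : ℂ) : ∃ q, z + lat W q ∈ Rh W :=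
  Pool.Agent.Lib_helper93.EQG.G01B.exists_Rh hW z

theorem Rh_unique (hW : 8 ≤ W) {z : ℂ} {q : ℤ × ℤ} (h : z ∈ Rh W) (h' : z + lat W q ∈ Rh W) :
    q = 0 :=
  Pool.Agent.Lib_helper93.EQG.G01B.Rh_unique hW h h'

theorem EE_tr {z : ℂ} (hz : z ∈ EE W) (q : ℤ × ℤ) : z + lat W q ∈ EE W :=
  Pool.Agent.Lib_helper93.EQG.G01B.EE_tr hz q

theorem trE_mem (q : ℤ × ℤ) : trE (lat W q) ∈ Gf W :=
  Pool.Agent.Lib_helper93.EQG.G01B.trE_mem q

theorem trE_mem' (q : ℤ × ℤ) : trE (lat W q) ∈ Gg W :=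
  Pool.Agent.Lib_helper93.EQG.G01B.trE_mem' q

theorem ivE_mem (q : ℤ × ℤ) : ivE (lat W q) ∈ Gf W :=
  Pool.Agent.Lib_helper93.EQG.G01B.ivE_mem q

theorem ivE_zero_mem : ivE 0 ∈ Gf W :=
  Pool.Agent.Lib_helper93.EQG.G01B.ivE_zero_mem

theorem wd_mem (L : List (ℤ × ℤ)) : wd W L ∈ Gf W :=
  Pool.Agent.Lib_helper93.EQG.G01B.wd_mem L

theorem Gg_le : Gg W ≤ Gf W :=
  Pool.Agent.Lib_helper93.EQG.G01B.Gg_le

theorem Om_inv {γ : Equiv.Perm ℂ} (hγ : γ ∈ Gf W) {z : ℂ} : γ z ∈ Om W ↔ z ∈ Om W :=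
  Pool.Agent.Lib_helper93.EQG.G01B.Om_inv hγ

theorem EE_sub_Om : EE W ⊆ Om W :=
  Pool.Agent.Lib_helper93.EQG.G01B.EE_sub_Om

end

end Pool.Agent.EQ

end

/-! ## Lib_helper83.GW.G01C -/

section

set_option autoImplicit false
set_option linter.unusedVariables false

namespace Pool.Agent.Lib_helper93.EQG.G01C

open MeasureTheory Filter Topology Set
open Pool.Agent.EQ.SP
open scoped ContDiff ComplexConjugate
open Pool.Agent.EQ

noncomputable section

variable {W : ℕ}

theorem isClosed_EE : IsClosed (EE W) := isClosed_le continuous_const (dl_cont W)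

theorem EE_sub_UU {r : ℝ} (hr : r < 1) : EE W ⊆ UU W r := fun _ hz => lt_of_lt_of_le hr hz

/-- a point near the tile is in the tile or its image under an inversion is -/
theorem UU_cases (hW : 8 ≤ W) {z : ℂ} (hz : z ∈ UU W (1 / 6)) :
    z ∈ EE W ∨ ∃ p, 1 / 6 < ‖z - lat W p‖ ∧ ‖z - lat W p‖ < 1 ∧ ivE (lat W p) z ∈ EE W := by
  rcases le_or_gt 1 (dl W z) with h | h
  · exact Or.inl h
  · right
    obtain ⟨p, hp⟩ := exists_of_dl_lt h
    have hz' : 1 / 6 < ‖z - lat W p‖ := lt_of_lt_of_le hz (dl_le W z p)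
    refine ⟨p, hz', hp, mem_EE_iff.2 fun q => ?_⟩
    have hpos : 0 < ‖z - lat W p‖ := lt_trans (by norm_num) hz'
    by_cases hq : p = q
    · subst hq
      rw [norm_ivE_sub]
      exact (one_le_inv₀ hpos).2 hp.le
    · have h1 := lat_sep hW hq
      have h2 : ‖ivE (lat W p) z - lat W p‖ < 6 := by
        rw [norm_ivE_sub, inv_lt_comm₀ hpos (by norm_num)]
        norm_num at hz' ⊢
        exact hz'
      have h3 : ‖lat W p - lat W q‖ ≤ ‖ivE (lat W p) z - lat W q‖ + ‖ivE (lat W p) z - lat W p‖ := by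
        have := norm_sub_le (ivE (lat W p) z - lat W q) (ivE (lat W p) z - lat W p)
        rwa [sub_sub_sub_cancel_left] at this
      linarith

theorem UU_sub_Om (hW : 8 ≤ W) {r : ℝ} (hr : 1 / 6 ≤ r) : UU W r ⊆ Om W := by
  intro z hz
  rcases UU_cases hW (UU_anti hr hz) with h | ⟨p, -, -, h⟩
  · exact EE_sub_Om h
  · exact ⟨ivE (lat W p), ivE_mem p, h⟩

end

end Pool.Agent.Lib_helper93.EQG.G01C

namespace Pool.Agent.EQ

open MeasureTheory Filter Topology Set SP
open scoped ContDiff ComplexConjugate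

noncomputable section

variable {W : ℕ}

theorem isClosed_EE : IsClosed (EE W) :=
  Pool.Agent.Lib_helper93.EQG.G01C.isClosed_EE

theorem EE_sub_UU {r : ℝ} (hr : r < 1) : EE W ⊆ UU W r :=
  Pool.Agent.Lib_helper93.EQG.G01C.EE_sub_UU hr

theorem UU_cases (hW : 8 ≤ W) {z : ℂ} (hz : z ∈ UU W (1 / 6)) :
    z ∈ EE W ∨ ∃ p, 1 / 6 < ‖z - lat W p‖ ∧ ‖z - lat W p‖ < 1 ∧ ivE (lat W p) z ∈ EE W :=
  Pool.Agent.Lib_helper93.EQG.G01C.UU_cases hW hz

theorem UU_sub_Om (hW : 8 ≤ W) {r : ℝ} (hr : 1 / 6 ≤ r) : UU W r ⊆ Om W :=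
  Pool.Agent.Lib_helper93.EQG.G01C.UU_sub_Om hW hr

end

end Pool.Agent.EQ

end

/-! ## Lib_helper83.GW.G02A -/

section

/-! Block G02A of project EQ (package G): reduced words. -/

set_option autoImplicit false
set_option linter.unusedVariables false

namespace Pool.Agent.Lib_helper33.EQG.G02A

open Pool.Agent.EQ
open MeasureTheory Filter Topology Set SP
open scoped ContDiff ComplexConjugate

noncomputable section

variable {W : ℕ}

theorem G02A_wd_cons (p : ℤ × ℤ) (L : List (ℤ × ℤ)) : wd W (p :: L) = ivE (lat W p) * wd W L := by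
  simp [wd]

/-- translations move to the right -/
theorem G02A_tr_wd (s : ℤ × ℤ) (L : List (ℤ × ℤ)) :
    trE (lat W s) * wd W L = wd W (L.map (· + s)) * trE (lat W s) := by
  induction L with
  | nil => simp [wd]
  | cons p L ih =>
    rw [List.map_cons, G02A_wd_cons, G02A_wd_cons, ← mul_assoc, trE_mul_ivE, mul_assoc, ih,
      lat_add, mul_assoc]

theorem G02A_chain_map (s : ℤ × ℤ) {L : List (ℤ × ℤ)} (h : L.IsChain (· ≠ ·)) :
    (L.map (· + s)).IsChain (· ≠ ·) := by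
  rw [List.isChain_map]
  refine h.imp ?_
  intro a b hab h'
  exact hab (add_right_cancel h')

theorem G02A_inv_ivE (l : ℂ) : (ivE l)⁻¹ = ivE l :=
  inv_eq_of_mul_eq_one_left (ivE_mul_self l)

/-- `nf` without the hypothesis on `W` -/
theorem G02A_nf {γ : Equiv.Perm ℂ} (h : γ ∈ Gf W) :
    ∃ (L : List (ℤ × ℤ)) (q : ℤ × ℤ), L.IsChain (· ≠ ·) ∧ γ = wd W L * trE (lat W q) := by
  -- left multiplication by an inversion
  have hiv : ∀ (p : ℤ × ℤ) (y : Equiv.Perm ℂ),
      (∃ (L : List (ℤ × ℤ)) (q : ℤ × ℤ), L.IsChain (· ≠ ·) ∧ y = wd W L * trE (lat W q)) →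
      ∃ (L : List (ℤ × ℤ)) (q : ℤ × ℤ), L.IsChain (· ≠ ·) ∧
        ivE (lat W p) * y = wd W L * trE (lat W q) := by
    rintro p y ⟨L, q, hL, rfl⟩
    cases L with
    | nil => exact ⟨[p], q, List.isChain_singleton _, by simp [wd]⟩
    | cons a L =>
      by_cases hpa : p = a
      · subst hpa
        refine ⟨L, q, hL.tail, ?_⟩
        rw [G02A_wd_cons, ← mul_assoc, ← mul_assoc, ivE_mul_self, one_mul]
      · refine ⟨p :: a :: L, q, List.isChain_cons_cons.2 ⟨hpa, hL⟩, ?_⟩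
        rw [G02A_wd_cons p, mul_assoc]
  -- left multiplication by a translation
  have htr : ∀ (s : ℤ × ℤ) (y : Equiv.Perm ℂ),
      (∃ (L : List (ℤ × ℤ)) (q : ℤ × ℤ), L.IsChain (· ≠ ·) ∧ y = wd W L * trE (lat W q)) →
      ∃ (L : List (ℤ × ℤ)) (q : ℤ × ℤ), L.IsChain (· ≠ ·) ∧
        trE (lat W s) * y = wd W L * trE (lat W q) := by
    rintro s y ⟨L, q, hL, rfl⟩
    refine ⟨L.map (· + s), s + q, G02A_chain_map s hL, ?_⟩
    rw [← mul_assoc, G02A_tr_wd, mul_assoc, trE_mul_trE, lat_add]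
  unfold Gf at h
  induction h using Subgroup.closure_induction_left with
  | one =>
    refine ⟨[], 0, List.isChain_nil, ?_⟩
    rw [lat_zero, trE_zero]
    simp [wd]
  | mul_left x hx y hy ih =>
    rcases hx with rfl | ⟨s, rfl⟩
    · have := hiv 0 y ih
      rwa [lat_zero] at this
    · exact htr s y ih
  | inv_mul_cancel x hx y hy ih =>
    rcases hx with rfl | ⟨s, rfl⟩
    · have := hiv 0 y ih
      rw [lat_zero] at this
      rwa [G02A_inv_ivE]
    · have := htr (-s) y ih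
      rw [lat_neg, ← trE_inv] at this
      exact this

theorem nf (hW : 8 ≤ W) {γ : Equiv.Perm ℂ} (h : γ ∈ Gf W) :
    ∃ (L : List (ℤ × ℤ)) (q : ℤ × ℤ), L.IsChain (· ≠ ·) ∧ γ = wd W L * trE (lat W q) :=
  G02A_nf h

end

end Pool.Agent.Lib_helper33.EQG.G02A

namespace Pool.Agent.EQ

open MeasureTheory Filter Topology Set SP
open scoped ContDiff ComplexConjugate

noncomputable section

variable {W : ℕ}

theorem nf (hW : 8 ≤ W) {γ : Equiv.Perm ℂ} (h : γ ∈ Gf W) :
    ∃ (L : List (ℤ × ℤ)) (q : ℤ × ℤ), L.IsChain (· ≠ ·) ∧ γ = wd W L * trE (lat W q) :=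
  Pool.Agent.Lib_helper33.EQG.G02A.nf hW h

end

end Pool.Agent.EQ

end

/-! ## Lib_helper83.GW.G02B -/

section

/-! Project EQ, package G, block G02B. -/

set_option autoImplicit false
set_option linter.unusedVariables false

namespace Pool.Agent.Lib_helper37.EQG.G02B

open Pool.Agent.EQ
open MeasureTheory Filter Topology Set Pool.Agent.EQ.SP
open scoped ContDiff ComplexConjugate

noncomputable section

variable {W : ℕ}

theorem G02B_nil : wd W [] = 1 := by simp [wd]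

theorem G02B_cons (p : ℤ × ℤ) (L : List (ℤ × ℤ)) :
    wd W (p :: L) = ivE (lat W p) * wd W L := by simp [wd]

theorem G02B_append (L M : List (ℤ × ℤ)) : wd W (L ++ M) = wd W L * wd W M := by
  simp [wd]

theorem G02B_tr (q : ℤ × ℤ) (L : List (ℤ × ℤ)) :
    trE (lat W q) * wd W L
      = wd W (L.map (· + q)) * trE (lat W q) := by
  induction L with
  | nil => simp [G02B_nil]
  | cons p L ih =>
    rw [List.map_cons, G02B_cons, G02B_cons, ← mul_assoc, trE_mul_ivE, mul_assoc, ih, ← mul_assoc,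
      lat_add]

theorem G02B_reverse (L : List (ℤ × ℤ)) : (wd W L)⁻¹ = wd W L.reverse := by
  induction L with
  | nil => simp [G02B_nil]
  | cons p L ih =>
    have h : (ivE (lat W p))⁻¹ = ivE (lat W p) :=
      inv_eq_of_mul_eq_one_left (ivE_mul_self _)
    rw [List.reverse_cons, G02B_append, G02B_cons, G02B_cons, G02B_nil, mul_inv_rev, ih, h, mul_one]

theorem G02B_conj (q : ℤ × ℤ) :
    ivE (lat W q)
      = trE (lat W q) * ivE 0 * trE (lat W (-q)) := by
  have h := trE_mul_ivE 0 (lat W q)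
  rw [zero_add] at h
  rw [h, mul_assoc, trE_mul_trE, lat_neg, add_neg_cancel, trE_zero, mul_one]

theorem G02B_pair (p q : ℤ × ℤ) :
    ivE (lat W p) * ivE (lat W q) ∈ Gg W := by
  have h : ivE (lat W p) * ivE (lat W q)
      = trE (lat W p) * (ivE 0 * trE (lat W (-p + q)) * ivE 0)
        * trE (lat W (-q)) := by
    rw [G02B_conj p, G02B_conj q, lat_add, ← trE_mul_trE]
    simp only [mul_assoc]
  rw [h]
  refine mul_mem (mul_mem (trE_mem' p) ?_) (trE_mem' (-q))
  exact Subgroup.subset_closure (Or.inr ⟨_, rfl⟩)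

theorem G02B_even : ∀ (n : ℕ) (L : List (ℤ × ℤ)), L.length = 2 * n → wd W L ∈ Gg W := by
  intro n
  induction n with
  | zero =>
    intro L hL
    have : L = [] := List.length_eq_zero_iff.mp (by omega)
    rw [this, G02B_nil]
    exact one_mem _
  | succ n ih =>
    intro L hL
    match L, hL with
    | [], hL => simp at hL
    | [a], hL => simp at hL; omega
    | a :: b :: M, hL =>
      have hM : M.length = 2 * n := by
        simp only [List.length_cons] at hL; omega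
      rw [G02B_cons, G02B_cons, ← mul_assoc]
      exact mul_mem (G02B_pair a b) (ih M hM)

/-- the elements of `Gg` are those with an even number of inversions -/
theorem mem_Gg {γ : Equiv.Perm ℂ} :
    γ ∈ Gg W ↔ ∃ (L : List (ℤ × ℤ)) (q : ℤ × ℤ), Even L.length ∧
      γ = wd W L * trE (lat W q) := by
  constructor
  · intro h
    unfold Gg at h
    induction h using Subgroup.closure_induction with
    | mem x hx =>
      rcases hx with ⟨p, rfl⟩ | ⟨p, rfl⟩
      · exact ⟨[], p, by simp, by rw [G02B_nil, one_mul]⟩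
      · refine ⟨[0, p], p, by simp, ?_⟩
        have h := trE_mul_ivE 0 (lat W p)
        rw [zero_add] at h
        simp only
        rw [mul_assoc, h, G02B_cons, G02B_cons, G02B_nil, lat_zero, mul_one, mul_assoc]
    | one => exact ⟨[], 0, by simp, by rw [G02B_nil, lat_zero, trE_zero, one_mul]⟩
    | mul x y _ _ hx hy =>
      obtain ⟨L, q, hL, rfl⟩ := hx
      obtain ⟨M, r, hM, rfl⟩ := hy
      refine ⟨L ++ M.map (· + q), q + r, ?_, ?_⟩
      · rw [List.length_append, List.length_map]; exact hL.add hM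
      · rw [G02B_append, lat_add, ← trE_mul_trE]
        calc wd W L * trE (lat W q) * (wd W M * trE (lat W r))
            = wd W L * (trE (lat W q) * wd W M) * trE (lat W r) := by
              simp only [mul_assoc]
          _ = _ := by rw [G02B_tr]; simp only [mul_assoc]
    | inv x _ hx =>
      obtain ⟨L, q, hL, rfl⟩ := hx
      refine ⟨L.reverse.map (· + -q), -q, ?_, ?_⟩
      · rw [List.length_map, List.length_reverse]; exact hL
      · rw [mul_inv_rev, G02B_reverse, trE_inv, ← lat_neg, G02B_tr]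
  · rintro ⟨L, q, hL, rfl⟩
    obtain ⟨n, hn⟩ := hL
    exact mul_mem (G02B_even n L (by omega)) (trE_mem' q)

theorem G02B_reduce (L : List (ℤ × ℤ)) : ∃ L' : List (ℤ × ℤ), L'.IsChain (· ≠ ·) ∧
    wd W L' = wd W L ∧ L'.length % 2 = L.length % 2 := by
  induction L with
  | nil => exact ⟨[], List.IsChain.nil, rfl, rfl⟩
  | cons p L ih =>
    obtain ⟨L', h1, h2, h3⟩ := ih
    match L', h1, h2, h3 with
    | [], h1, h2, h3 =>
      refine ⟨[p], List.IsChain.singleton p, ?_, ?_⟩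
      · rw [G02B_cons, G02B_cons, h2]
      · simp only [List.length_cons, List.length_nil] at h3 ⊢; omega
    | a :: M, h1, h2, h3 =>
      by_cases hpa : p = a
      · subst hpa
        refine ⟨M, h1.tail, ?_, ?_⟩
        · rw [G02B_cons, ← h2, G02B_cons, ← mul_assoc, ivE_mul_self, one_mul]
        · simp only [List.length_cons] at h3 ⊢; omega
      · refine ⟨p :: a :: M, List.isChain_cons_cons.mpr ⟨hpa, h1⟩, ?_, ?_⟩
        · rw [G02B_cons, h2, ← G02B_cons]
        · simp only [List.length_cons] at h3 ⊢; omega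

theorem nf_even (hW : 8 ≤ W) {γ : Equiv.Perm ℂ} (h : γ ∈ Gg W) :
    ∃ (L : List (ℤ × ℤ)) (q : ℤ × ℤ), L.IsChain (· ≠ ·) ∧ Even L.length ∧
      γ = wd W L * trE (lat W q) := by
  obtain ⟨L, q, hL, rfl⟩ := mem_Gg.mp h
  obtain ⟨L', h1, h2, h3⟩ := G02B_reduce (W := W) L
  refine ⟨L', q, h1, ?_, by rw [h2]⟩
  rw [Nat.even_iff] at hL ⊢
  omega

end

end Pool.Agent.Lib_helper37.EQG.G02B

namespace Pool.Agent.EQ

open MeasureTheory Filter Topology Set SP
open scoped ContDiff ComplexConjugate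

noncomputable section

variable {W : ℕ}

theorem mem_Gg {γ : Equiv.Perm ℂ} :
    γ ∈ Gg W ↔ ∃ (L : List (ℤ × ℤ)) (q : ℤ × ℤ), Even L.length ∧ γ = wd W L * trE (lat W q) :=
  Pool.Agent.Lib_helper37.EQG.G02B.mem_Gg

theorem nf_even (hW : 8 ≤ W) {γ : Equiv.Perm ℂ} (h : γ ∈ Gg W) :
    ∃ (L : List (ℤ × ℤ)) (q : ℤ × ℤ), L.IsChain (· ≠ ·) ∧ Even L.length ∧
      γ = wd W L * trE (lat W q) :=
  Pool.Agent.Lib_helper37.EQG.G02B.nf_even hW h

end

end Pool.Agent.EQ

end

/-! ## Lib_helper83.GW.G02C -/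

section

/-! Block G02C of project EQ (package G): parity of the number of inversions, countability. -/

set_option autoImplicit false
set_option linter.unusedVariables false

namespace Pool.Agent.Lib_helper33.EQG.G02C

open Pool.Agent.EQ
open MeasureTheory Filter Topology Set SP
open scoped ContDiff ComplexConjugate

noncomputable section

variable {W : ℕ}

theorem G02C_wd_cons (p : ℤ × ℤ) (L : List (ℤ × ℤ)) : wd W (p :: L) = ivE (lat W p) * wd W L := by
  simp [wd]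

theorem G02C_wd_append (L M : List (ℤ × ℤ)) : wd W (L ++ M) = wd W L * wd W M := by
  simp [wd]

/-- translations move to the right -/
theorem G02C_tr_wd (s : ℤ × ℤ) (L : List (ℤ × ℤ)) :
    trE (lat W s) * wd W L = wd W (L.map (· + s)) * trE (lat W s) := by
  induction L with
  | nil => simp [wd]
  | cons p L ih =>
    rw [List.map_cons, G02C_wd_cons, G02C_wd_cons, ← mul_assoc, trE_mul_ivE, mul_assoc, ih,
      lat_add, mul_assoc]

theorem G02C_inv_ivE (l : ℂ) : (ivE l)⁻¹ = ivE l :=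
  inv_eq_of_mul_eq_one_left (ivE_mul_self l)

theorem G02C_wd_inv (L : List (ℤ × ℤ)) : (wd W L)⁻¹ = wd W L.reverse := by
  induction L with
  | nil => simp [wd]
  | cons p L ih =>
    rw [G02C_wd_cons, mul_inv_rev, ih, List.reverse_cons, G02C_wd_append, G02C_inv_ivE]
    simp [wd]

/-- every element is a word times a translation (no hypothesis on `W`) -/
theorem G02C_nf {γ : Equiv.Perm ℂ} (h : γ ∈ Gf W) :
    ∃ (L : List (ℤ × ℤ)) (q : ℤ × ℤ), γ = wd W L * trE (lat W q) := by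
  have hiv : ∀ (p : ℤ × ℤ) (y : Equiv.Perm ℂ),
      (∃ (L : List (ℤ × ℤ)) (q : ℤ × ℤ), y = wd W L * trE (lat W q)) →
      ∃ (L : List (ℤ × ℤ)) (q : ℤ × ℤ), ivE (lat W p) * y = wd W L * trE (lat W q) := by
    rintro p y ⟨L, q, rfl⟩
    exact ⟨p :: L, q, by rw [G02C_wd_cons p, mul_assoc]⟩
  have htr : ∀ (s : ℤ × ℤ) (y : Equiv.Perm ℂ),
      (∃ (L : List (ℤ × ℤ)) (q : ℤ × ℤ), y = wd W L * trE (lat W q)) →
      ∃ (L : List (ℤ × ℤ)) (q : ℤ × ℤ), trE (lat W s) * y = wd W L * trE (lat W q) := by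
    rintro s y ⟨L, q, rfl⟩
    refine ⟨L.map (· + s), s + q, ?_⟩
    rw [← mul_assoc, G02C_tr_wd, mul_assoc, trE_mul_trE, lat_add]
  unfold Gf at h
  induction h using Subgroup.closure_induction_left with
  | one =>
    refine ⟨[], 0, ?_⟩
    rw [lat_zero, trE_zero]
    simp [wd]
  | mul_left x hx y hy ih =>
    rcases hx with rfl | ⟨s, rfl⟩
    · have := hiv 0 y ih
      rwa [lat_zero] at this
    · exact htr s y ih
  | inv_mul_cancel x hx y hy ih =>
    rcases hx with rfl | ⟨s, rfl⟩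
    · have := hiv 0 y ih
      rw [lat_zero] at this
      rwa [G02C_inv_ivE]
    · have := htr (-s) y ih
      rw [lat_neg, ← trE_inv] at this
      exact this

theorem Gf_cases {γ : Equiv.Perm ℂ} (h : γ ∈ Gf W) : γ ∈ Gg W ∨ γ * ivE 0 ∈ Gg W := by
  obtain ⟨L, q, rfl⟩ := G02C_nf h
  rcases Nat.even_or_odd L.length with he | ho
  · exact Or.inl (mem_Gg.2 ⟨L, q, he, rfl⟩)
  · refine Or.inr (mem_Gg.2 ⟨L ++ [q], q, ?_, ?_⟩)
    · rw [List.length_append, List.length_singleton]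
      exact ho.add_one
    · rw [mul_assoc, trE_mul_ivE, zero_add, G02C_wd_append, mul_assoc]
      simp [wd]

theorem Gf_cases' {γ : Equiv.Perm ℂ} (h : γ ∈ Gf W) : γ ∈ Gg W ∨ ivE 0 * γ ∈ Gg W := by
  obtain ⟨L, q, rfl⟩ := G02C_nf h
  rcases Nat.even_or_odd L.length with he | ho
  · exact Or.inl (mem_Gg.2 ⟨L, q, he, rfl⟩)
  · refine Or.inr (mem_Gg.2 ⟨0 :: L, q, ?_, ?_⟩)
    · rw [List.length_cons]
      exact ho.add_one
    · rw [G02C_wd_cons, lat_zero, mul_assoc]

theorem Gg_conj {γ δ : Equiv.Perm ℂ} (h : γ ∈ Gf W) (hδ : δ ∈ Gg W) : γ * δ * γ⁻¹ ∈ Gg W := by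
  obtain ⟨L, q, rfl⟩ := G02C_nf h
  obtain ⟨M, s, hM, rfl⟩ := mem_Gg.1 hδ
  refine mem_Gg.2 ⟨L ++ M.map (· + q) ++ L.reverse.map (· + s), s, ?_, ?_⟩
  · rw [List.length_append, List.length_append, List.length_map, List.length_map,
      List.length_reverse]
    obtain ⟨k, hk⟩ := hM
    exact ⟨L.length + k, by omega⟩
  · have e1 : trE (lat W q) * wd W M = wd W (M.map (· + q)) * trE (lat W q) := G02C_tr_wd q M
    have e2 : trE (lat W s) * wd W L.reverse = wd W (L.reverse.map (· + s)) * trE (lat W s) :=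
      G02C_tr_wd s L.reverse
    have e3 : trE (lat W q) * trE (lat W s) * (trE (lat W q))⁻¹ = trE (lat W s) := by
      rw [trE_inv, trE_mul_trE, trE_mul_trE]
      congr 1
      ring
    calc wd W L * trE (lat W q) * (wd W M * trE (lat W s)) * (wd W L * trE (lat W q))⁻¹
        = wd W L * (trE (lat W q) * wd W M) * trE (lat W s) * ((trE (lat W q))⁻¹ *
            wd W L.reverse) := by
          rw [mul_inv_rev, G02C_wd_inv]
          simp only [mul_assoc]
      _ = wd W L * wd W (M.map (· + q)) * (trE (lat W q) * trE (lat W s) * (trE (lat W q))⁻¹) *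
            wd W L.reverse := by
          rw [e1]
          simp only [mul_assoc]
      _ = wd W L * wd W (M.map (· + q)) * (trE (lat W s) * wd W L.reverse) := by
          rw [e3]
          simp only [mul_assoc]
      _ = wd W (L ++ M.map (· + q) ++ L.reverse.map (· + s)) * trE (lat W s) := by
          rw [e2, G02C_wd_append, G02C_wd_append]
          simp only [mul_assoc]

theorem countable_Gf : Countable (Gf W) := by
  have hsurj : Function.Surjective (fun x : List (ℤ × ℤ) × (ℤ × ℤ) =>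
      (⟨wd W x.1 * trE (lat W x.2), mul_mem (wd_mem x.1) (trE_mem x.2)⟩ : Gf W)) := by
    rintro ⟨γ, hγ⟩
    obtain ⟨L, q, rfl⟩ := G02C_nf hγ
    exact ⟨(L, q), rfl⟩
  exact hsurj.countable

theorem countable_Gg : Countable (Gg W) := by
  have := countable_Gf (W := W)
  exact (Subgroup.inclusion_injective (Gg_le (W := W))).countable

end

end Pool.Agent.Lib_helper33.EQG.G02C

namespace Pool.Agent.EQ

open MeasureTheory Filter Topology Set SP
open scoped ContDiff ComplexConjugate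

noncomputable section

variable {W : ℕ}

theorem Gf_cases {γ : Equiv.Perm ℂ} (h : γ ∈ Gf W) : γ ∈ Gg W ∨ γ * ivE 0 ∈ Gg W :=
  Pool.Agent.Lib_helper33.EQG.G02C.Gf_cases h

theorem Gf_cases' {γ : Equiv.Perm ℂ} (h : γ ∈ Gf W) : γ ∈ Gg W ∨ ivE 0 * γ ∈ Gg W :=
  Pool.Agent.Lib_helper33.EQG.G02C.Gf_cases' h

theorem Gg_conj {γ δ : Equiv.Perm ℂ} (h : γ ∈ Gf W) (hδ : δ ∈ Gg W) : γ * δ * γ⁻¹ ∈ Gg W :=
  Pool.Agent.Lib_helper33.EQG.G02C.Gg_conj h hδ

theorem countable_Gf : Countable (Gf W) :=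
  Pool.Agent.Lib_helper33.EQG.G02C.countable_Gf

theorem countable_Gg : Countable (Gg W) :=
  Pool.Agent.Lib_helper33.EQG.G02C.countable_Gg

end

end Pool.Agent.EQ

end

/-! ## Lib_helper83.GW.G03A -/

section

/-! Project EQ, package G, block G03A: wd_ping, stab_EE. Cites norm_ivE_sub, lat_sep, EE_tr, nf. -/

set_option autoImplicit false

namespace Pool.Agent.Lib_helper26.EQG.G03A

open Pool.Agent.EQ
open MeasureTheory Filter Topology Set Pool.Agent.EQ.SP
open scoped ContDiff ComplexConjugate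

noncomputable section

variable {W : ℕ}

theorem wd_nil : wd W [] = 1 := rfl

theorem wd_cons (p : ℤ × ℤ) (L : List (ℤ × ℤ)) : wd W (p :: L) = ivE (lat W p) * wd W L := by
  simp [wd]

theorem wd_ping (hW : 8 ≤ W) (p : ℤ × ℤ) (L : List (ℤ × ℤ)) (hL : (p :: L).IsChain (· ≠ ·))
    {z : ℂ} (hz : z ∈ EE W) :
    0 < ‖wd W (p :: L) z - lat W p‖ ∧ ‖wd W (p :: L) z - lat W p‖ ≤ 1 ∧
      (L ≠ [] → ‖wd W (p :: L) z - lat W p‖ ≤ 1 / 7) := by
  induction L generalizing p with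
  | nil =>
    have h1 : 1 ≤ ‖z - lat W p‖ := mem_EE_iff.1 hz p
    have h2 : wd W [p] z = ivE (lat W p) z := by
      rw [wd_cons, wd_nil, mul_one]
    rw [h2, norm_ivE_sub]
    exact ⟨inv_pos.2 (by linarith), inv_le_one_of_one_le₀ h1, fun h => absurd rfl h⟩
  | cons q L ih =>
    rw [List.isChain_cons_cons] at hL
    obtain ⟨h1, h2, -⟩ := ih q hL.2
    set w := wd W (q :: L) z with hw
    have h3 : wd W (p :: q :: L) z = ivE (lat W p) w := by
      rw [wd_cons p, Equiv.Perm.mul_apply]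
    rw [h3, norm_ivE_sub]
    have h4 := lat_sep hW hL.1
    have h5 : ‖lat W p - lat W q‖ ≤ ‖w - lat W p‖ + ‖w - lat W q‖ := by
      have : lat W p - lat W q = (w - lat W q) - (w - lat W p) := by ring
      rw [this]
      exact (norm_sub_le _ _).trans (by linarith)
    have h6 : 7 ≤ ‖w - lat W p‖ := by linarith
    refine ⟨inv_pos.2 (by linarith), inv_le_one_of_one_le₀ (by linarith), fun _ => ?_⟩
    rw [one_div]
    exact inv_anti₀ (by norm_num) h6

theorem stab_EE (hW : 8 ≤ W) {γ : Equiv.Perm ℂ} (hγ : γ ∈ Gf W) {z : ℂ} (hz : z ∈ EE W)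
    (h : γ z ∈ EE W) : (∃ q, γ = trE (lat W q)) ∨
      ∃ p q, γ = ivE (lat W p) * trE (lat W q) ∧ ‖z + lat W q - lat W p‖ = 1 := by
  obtain ⟨L, q, hL, rfl⟩ := nf hW hγ
  have hz' : z + lat W q ∈ EE W := EE_tr hz q
  have e1 : (wd W L * trE (lat W q)) z = wd W L (z + lat W q) := rfl
  rw [e1] at h
  match L, hL, h with
  | [], _, _ =>
    left
    exact ⟨q, by rw [wd_nil, one_mul]⟩
  | [p], _, h =>
    right
    have h2 : wd W [p] = ivE (lat W p) := by
      rw [wd_cons, wd_nil, mul_one]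
    refine ⟨p, q, by rw [h2], ?_⟩
    rw [h2] at h
    have h3 : 1 ≤ ‖ivE (lat W p) (z + lat W q) - lat W p‖ := mem_EE_iff.1 h p
    have h4 : 1 ≤ ‖z + lat W q - lat W p‖ := mem_EE_iff.1 hz' p
    rw [norm_ivE_sub] at h3
    refine le_antisymm ?_ h4
    have h5 : 0 < ‖z + lat W q - lat W p‖ := by linarith
    rw [← one_div, le_div_iff₀ h5, one_mul] at h3
    exact h3
  | p :: p' :: L', hL, h =>
    exfalso
    have h3 := (wd_ping hW p (p' :: L') hL hz').2.2 (List.cons_ne_nil _ _)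
    have h4 := mem_EE_iff.1 h p
    linarith

end

end Pool.Agent.Lib_helper26.EQG.G03A

namespace Pool.Agent.EQ

open MeasureTheory Filter Topology Set SP
open scoped ContDiff ComplexConjugate

noncomputable section

variable {W : ℕ}

theorem wd_ping (hW : 8 ≤ W) (p : ℤ × ℤ) (L : List (ℤ × ℤ)) (hL : (p :: L).IsChain (· ≠ ·))
    {z : ℂ} (hz : z ∈ EE W) :
    0 < ‖wd W (p :: L) z - lat W p‖ ∧ ‖wd W (p :: L) z - lat W p‖ ≤ 1 ∧
      (L ≠ [] → ‖wd W (p :: L) z - lat W p‖ ≤ 1 / 7) :=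
  Pool.Agent.Lib_helper26.EQG.G03A.wd_ping hW p L hL hz

theorem stab_EE (hW : 8 ≤ W) {γ : Equiv.Perm ℂ} (hγ : γ ∈ Gf W) {z : ℂ} (hz : z ∈ EE W)
    (h : γ z ∈ EE W) : (∃ q, γ = trE (lat W q)) ∨
      ∃ p q, γ = ivE (lat W p) * trE (lat W q) ∧ ‖z + lat W q - lat W p‖ = 1 :=
  Pool.Agent.Lib_helper26.EQG.G03A.stab_EE hW hγ hz h

end

end Pool.Agent.EQ

end

/-! ## Lib_helper83.GW.G03B -/

section

/-! Project EQ, package G, block G03B: not_mem_Gg, free_Gg, lp_not_mem.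
Cites norm_ivE_sub, lat_sep, lat_add, lat_zero, lat_neg, EE_tr, trE_zero, nf, nf_even, Gg_conj, Gg_le,
wd_ping, stab_EE. -/

set_option autoImplicit false

namespace Pool.Agent.Lib_helper26.EQG.G03B

open Pool.Agent.EQ
open MeasureTheory Filter Topology Set Pool.Agent.EQ.SP
open scoped ContDiff ComplexConjugate

noncomputable section

variable {W : ℕ}

theorem wd_nil : wd W [] = 1 := rfl

theorem wd_cons (p : ℤ × ℤ) (L : List (ℤ × ℤ)) : wd W (p :: L) = ivE (lat W p) * wd W L := by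
  simp [wd]

/-- a point well inside the tile -/
theorem base (hW : 8 ≤ W) (p : ℤ × ℤ) : 1 < ‖(2 : ℂ) - lat W p‖ := by
  by_cases hp : p = 0
  · subst hp
    rw [lat_zero, sub_zero]
    norm_num
  · have h1 := lat_sep hW hp
    rw [lat_zero, sub_zero] at h1
    have h2 : ‖lat W p‖ ≤ ‖(2 : ℂ) - lat W p‖ + ‖(2 : ℂ)‖ := by
      have : lat W p = 2 - (2 - lat W p) := by ring
      calc ‖lat W p‖ = ‖2 - (2 - lat W p)‖ := by rw [← this]
        _ ≤ _ := (norm_sub_le _ _).trans (by linarith)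
    have h3 : ‖(2 : ℂ)‖ = 2 := by norm_num
    linarith

theorem base' (hW : 8 ≤ W) (p q : ℤ × ℤ) : 1 < ‖(2 : ℂ) + lat W q - lat W p‖ := by
  have h := base hW (p - q)
  have e : lat W (p - q) = lat W p - lat W q := by
    rw [sub_eq_add_neg, lat_add, lat_neg, sub_eq_add_neg]
  rw [e] at h
  have e2 : (2 : ℂ) + lat W q - lat W p = 2 - (lat W p - lat W q) := by ring
  rwa [e2]

/-- a reduced word of odd length is not in `Gg` -/
theorem not_mem_Gg (hW : 8 ≤ W) (p q : ℤ × ℤ) : ivE (lat W p) * trE (lat W q) ∉ Gg W := by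
  intro hmem
  obtain ⟨L, q', hL, hev, he⟩ := nf_even hW hmem
  have hz : (2 : ℂ) ∈ EE W := mem_EE_iff.2 fun p => (base hW p).le
  have hz' : (2 : ℂ) + lat W q' ∈ EE W := EE_tr hz q'
  have h1 : ‖ivE (lat W p) (2 + lat W q) - lat W p‖ < 1 := by
    rw [norm_ivE_sub]
    exact inv_lt_one_of_one_lt₀ (base' hW p q)
  have h2 : ivE (lat W p) (2 + lat W q) = wd W L (2 + lat W q') := by
    have := congrArg (fun g : Equiv.Perm ℂ => g 2) he
    exact this
  match L, hL, hev, he, h2 with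
  | [], _, _, _, h2 =>
    rw [h2, wd_nil, Equiv.Perm.one_apply] at h1
    exact absurd (mem_EE_iff.1 hz' p) (not_le.2 h1)
  | [a], _, hev, _, _ =>
    simp at hev
  | a :: b :: L', hL, _, he, h2 =>
    have h3 := (wd_ping hW a (b :: L') hL hz').2.2 (List.cons_ne_nil _ _)
    rw [← h2] at h3
    have hap : a = p := by
      by_contra hne
      have h4 := lat_sep hW hne
      have h5 : ‖lat W a - lat W p‖ ≤ ‖ivE (lat W p) (2 + lat W q) - lat W p‖ +
          ‖ivE (lat W p) (2 + lat W q) - lat W a‖ := by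
        have : lat W a - lat W p = (ivE (lat W p) (2 + lat W q) - lat W p) -
          (ivE (lat W p) (2 + lat W q) - lat W a) := by ring
        rw [this]
        exact norm_sub_le _ _
      linarith
    subst hap
    rw [wd_cons, mul_assoc, mul_right_inj] at he
    have h6 : (2 : ℂ) + lat W q = wd W (b :: L') (2 + lat W q') := by
      have := congrArg (fun g : Equiv.Perm ℂ => g 2) he
      exact this
    have h7 := (wd_ping hW b L' (List.isChain_cons_cons.1 hL).2 hz').2.1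
    rw [← h6] at h7
    exact absurd h7 (not_le.2 (base' hW b q))

theorem free_Gg (hW : 8 ≤ W) {γ : Equiv.Perm ℂ} (hγ : γ ∈ Gg W) {z : ℂ} (hz : z ∈ Om W)
    (h : γ z = z) : γ = 1 := by
  obtain ⟨δ, hδ, hδz⟩ := hz
  have h1 : δ * γ * δ⁻¹ ∈ Gg W := Gg_conj hδ hγ
  have h2 : (δ * γ * δ⁻¹) (δ z) = δ z := by
    simp [Equiv.Perm.mul_apply, h]
  have h3 : (δ * γ * δ⁻¹) (δ z) ∈ EE W := by rw [h2]; exact hδz
  rcases stab_EE hW (Gg_le h1) hδz h3 with ⟨q, hq⟩ | ⟨p, q, hpq, -⟩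
  · rw [hq] at h2
    have h4 : δ z + lat W q = δ z := h2
    have h5 : lat W q = 0 := by simpa using h4
    rw [h5, trE_zero] at hq
    have h6 : γ = δ⁻¹ * (δ * γ * δ⁻¹) * δ := by group
    rw [h6, hq]
    group
  · rw [hpq] at h1
    exact absurd h1 (Pool.Agent.Lib_helper26.EQG.G03B.not_mem_Gg hW p q)

theorem lp_not_mem (hW : 8 ≤ W) (q : ℤ × ℤ) : lat W q ∉ Om W := by
  rintro ⟨γ, hγ, hz⟩
  obtain ⟨L, q', hL, he⟩ := nf hW ((Gf W).inv_mem hγ)
  set z := γ (lat W q) with hzdef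
  have hz' : z + lat W q' ∈ EE W := EE_tr hz q'
  have h1 : lat W q = wd W L (z + lat W q') := by
    have h2 : γ⁻¹ z = lat W q := by simp [hzdef]
    rw [← h2, he]
    rfl
  match L, hL, h1 with
  | [], _, h1 =>
    rw [wd_nil, Equiv.Perm.one_apply] at h1
    have h2 := mem_EE_iff.1 hz' q
    rw [← h1, sub_self, norm_zero] at h2
    linarith
  | p :: L', hL, h1 =>
    obtain ⟨h2, h3, -⟩ := wd_ping hW p L' hL hz'
    rw [← h1] at h2 h3
    by_cases hpq : q = p
    · subst hpq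
      rw [sub_self, norm_zero] at h2
      exact lt_irrefl _ h2
    · have h4 := lat_sep hW hpq
      linarith

end

end Pool.Agent.Lib_helper26.EQG.G03B

namespace Pool.Agent.EQ

open MeasureTheory Filter Topology Set SP
open scoped ContDiff ComplexConjugate

noncomputable section

variable {W : ℕ}

theorem not_mem_Gg (hW : 8 ≤ W) (p q : ℤ × ℤ) : ivE (lat W p) * trE (lat W q) ∉ Gg W :=
  Pool.Agent.Lib_helper26.EQG.G03B.not_mem_Gg hW p q

theorem free_Gg (hW : 8 ≤ W) {γ : Equiv.Perm ℂ} (hγ : γ ∈ Gg W) {z : ℂ} (hz : z ∈ Om W)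
    (h : γ z = z) : γ = 1 :=
  Pool.Agent.Lib_helper26.EQG.G03B.free_Gg hW hγ hz h

theorem lp_not_mem (hW : 8 ≤ W) (q : ℤ × ℤ) : lat W q ∉ Om W :=
  Pool.Agent.Lib_helper26.EQG.G03B.lp_not_mem hW q

end

end Pool.Agent.EQ

end

/-! ## Lib_helper83.GW.G04 -/

section

set_option autoImplicit false
set_option linter.unusedVariables false

namespace Pool.Agent.Lib_helper89.EQG.G04

open Pool.Agent.EQ
open MeasureTheory Filter Topology Set Pool.Agent.EQ.SP
open scoped ContDiff ComplexConjugate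

noncomputable section

variable {W : ℕ}

theorem g04_iv {l z : ℂ} (h : z ≠ l) : ContDiffAt ℝ ∞ (ivE l) z := by
  have h1 : ContDiffAt ℝ ∞ (fun z : ℂ => conj (z - l)) z :=
    (Complex.conjCLE.contDiff.contDiffAt).comp z (contDiffAt_id.sub contDiffAt_const)
  have h2 : conj (z - l) ≠ 0 := by
    rw [Ne, map_eq_zero]
    exact sub_ne_zero.2 h
  exact contDiffAt_const.add (h1.inv h2)

theorem g04_wd (hW : 8 ≤ W) (L : List (ℤ × ℤ)) : ∀ z ∈ Om W, ContDiffAt ℝ ∞ (wd W L) z := by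
  induction L with
  | nil =>
    intro z hz
    exact contDiffAt_id
  | cons p L ih =>
    intro z hz
    have h1 : wd W L z ∈ Om W := (Om_inv (wd_mem L)).2 hz
    have h2 : wd W L z ≠ lat W p := by
      intro h
      rw [h] at h1
      exact lp_not_mem hW p h1
    have h3 : (wd W (p :: L) : ℂ → ℂ) = fun z => ivE (lat W p) (wd W L z) := by
      funext z
      simp only [wd, List.map_cons, List.prod_cons]
      rfl
    rw [h3]
    exact (g04_iv h2).comp z (ih z hz)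

theorem Gf_smooth (hW : 8 ≤ W) {γ : Equiv.Perm ℂ} (hγ : γ ∈ Gf W) {z : ℂ} (hz : z ∈ Om W) :
    ContDiffAt ℝ ∞ γ z := by
  obtain ⟨L, q, -, rfl⟩ := nf hW hγ
  have h1 : trE (lat W q) z ∈ Om W := (Om_inv (trE_mem q)).2 hz
  have h2 : ContDiffAt ℝ ∞ (trE (lat W q)) z := contDiffAt_id.add contDiffAt_const
  exact (g04_wd hW L _ h1).comp z h2

theorem isOpen_Om (hW : 8 ≤ W) : IsOpen (Om W) := by
  rw [isOpen_iff_mem_nhds]
  intro z hz
  obtain ⟨γ, hγ, h⟩ := id hz
  have h1 : γ z ∈ UU W (1 / 6) := EE_sub_UU (by norm_num) h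
  have hop : IsOpen (UU W (1 / 6)) := isOpen_lt continuous_const (dl_cont W)
  have h2 : ∀ᶠ w in 𝓝 z, γ w ∈ UU W (1 / 6) :=
    (Gf_smooth hW hγ hz).continuousAt.eventually_mem (hop.mem_nhds h1)
  filter_upwards [h2] with w hw
  exact (Om_inv hγ).1 (UU_sub_Om hW le_rfl hw)

theorem g04_pair {a b z : ℂ} (h1 : z ≠ b) (h2 : ivE b z ≠ a) :
    DifferentiableAt ℂ (fun z => ivE a (ivE b z)) z := by
  have e : (fun z => ivE a (ivE b z)) = fun z => a + (conj (b - a) + (z - b)⁻¹)⁻¹ := by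
    funext z
    rw [ivE_apply, ivE_apply, add_sub_right_comm, map_add, map_inv₀, Complex.conj_conj]
  have h3 : conj (b - a) + (z - b)⁻¹ ≠ 0 := by
    have e2 : conj (b - a) + (z - b)⁻¹ = conj (ivE b z - a) := by
      rw [ivE_apply, add_sub_right_comm, map_add, map_inv₀, Complex.conj_conj]
    rw [e2, Ne, map_eq_zero]
    exact sub_ne_zero.2 h2
  rw [e]
  have h4 : DifferentiableAt ℂ (fun z : ℂ => z - b) z :=
    differentiableAt_id.sub (differentiableAt_const b)
  have h5 : DifferentiableAt ℂ (fun z : ℂ => (z - b)⁻¹) z := h4.inv (sub_ne_zero.2 h1)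
  have h6 : DifferentiableAt ℂ (fun z : ℂ => conj (b - a) + (z - b)⁻¹) z :=
    (differentiableAt_const _).add h5
  have h7 : DifferentiableAt ℂ (fun z : ℂ => (conj (b - a) + (z - b)⁻¹)⁻¹) z := h6.inv h3
  exact (differentiableAt_const a).add h7

theorem g04_even (hW : 8 ≤ W) : ∀ (L : List (ℤ × ℤ)), Even L.length → ∀ z ∈ Om W,
    DifferentiableAt ℂ (wd W L) z
  | [], _, z, hz => differentiableAt_id
  | [p], h, z, hz => by simp at h
  | p :: q :: L, h, z, hz => by
    have hL : Even L.length := by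
      simp only [List.length_cons] at h
      rw [add_assoc, Nat.even_add] at h
      simpa using h
    have ih := g04_even hW L hL z hz
    have h1 : wd W L z ∈ Om W := (Om_inv (wd_mem L)).2 hz
    have h1' : ivE (lat W q) (wd W L z) ∈ Om W := (Om_inv (ivE_mem q)).2 h1
    have h2 : wd W L z ≠ lat W q := by
      intro h
      rw [h] at h1
      exact lp_not_mem hW q h1
    have h2' : ivE (lat W q) (wd W L z) ≠ lat W p := by
      intro h
      rw [h] at h1'
      exact lp_not_mem hW p h1'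
    have h3 : (wd W (p :: q :: L) : ℂ → ℂ) =
        fun z => ivE (lat W p) (ivE (lat W q) (wd W L z)) := by
      funext z
      simp only [wd, List.map_cons, List.prod_cons]
      rfl
    rw [h3]
    exact DifferentiableAt.comp (g := fun z => ivE (lat W p)
      (ivE (lat W q) z)) z (g04_pair h2 h2') ih

theorem Gg_holo (hW : 8 ≤ W) {γ : Equiv.Perm ℂ} (hγ : γ ∈ Gg W) {z : ℂ} (hz : z ∈ Om W) :
    DifferentiableAt ℂ γ z ∧ ‖deriv γ z‖ = cfac γ z := by
  have h : DifferentiableAt ℂ γ z := by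
    obtain ⟨L, q, hL, rfl⟩ := mem_Gg.1 hγ
    have h1 : trE (lat W q) z ∈ Om W := (Om_inv (trE_mem q)).2 hz
    have h2 : DifferentiableAt ℂ (trE (lat W q)) z :=
      differentiableAt_id.add (differentiableAt_const _)
    exact (g04_even hW L hL _ h1).comp z h2
  refine ⟨h, ?_⟩
  unfold cfac
  rw [h.fderiv_restrictScalars ℝ]
  rfl

end

end Pool.Agent.Lib_helper89.EQG.G04

namespace Pool.Agent.EQ

open MeasureTheory Filter Topology Set SP
open scoped ContDiff ComplexConjugate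

noncomputable section

variable {W : ℕ}

theorem Gf_smooth (hW : 8 ≤ W) {γ : Equiv.Perm ℂ} (hγ : γ ∈ Gf W) {z : ℂ} (hz : z ∈ Om W) :
    ContDiffAt ℝ ∞ γ z :=
  Pool.Agent.Lib_helper89.EQG.G04.Gf_smooth hW hγ hz

theorem isOpen_Om (hW : 8 ≤ W) : IsOpen (Om W) :=
  Pool.Agent.Lib_helper89.EQG.G04.isOpen_Om hW

theorem Gg_holo (hW : 8 ≤ W) {γ : Equiv.Perm ℂ} (hγ : γ ∈ Gg W) {z : ℂ} (hz : z ∈ Om W) :
    DifferentiableAt ℂ γ z ∧ ‖deriv γ z‖ = cfac γ z :=
  Pool.Agent.Lib_helper89.EQG.G04.Gg_holo hW hγ hz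

end

end Pool.Agent.EQ

end

/-! ## Lib_helper83.GW.G05 -/

section

/-! Project EQ, package G, block G05: connectedness of the tile and of the covering surface. -/

set_option autoImplicit false
set_option linter.unusedVariables false

namespace Pool.Agent.Lib_helper94.EQG.G05

open Pool.Agent.EQ
open MeasureTheory Filter Topology Set SP
open scoped ContDiff ComplexConjugate

noncomputable section

variable {W : ℕ}

theorem norm_ge_re (z : ℂ) {a : ℝ} (h : a ≤ |z.re|) : a ≤ ‖z‖ := h.trans (Complex.abs_re_le_norm z)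

theorem norm_ge_im (z : ℂ) {a : ℝ} (h : a ≤ |z.im|) : a ≤ ‖z‖ := h.trans (Complex.abs_im_le_norm z)

/-- a real number at the half between two multiples of `8` is at distance at least `4` from them -/
theorem four_le_abs_sub (k p : ℤ) : (4 : ℝ) ≤ |(8 * (k : ℝ) + 4) - 8 * (p : ℝ)| := by
  rcases le_or_gt p k with h | h
  · have h1 : (p : ℝ) ≤ k := by exact_mod_cast h
    rw [abs_of_nonneg (by linarith)]
    linarith
  · have h1 : (k : ℝ) + 1 ≤ p := by exact_mod_cast h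
    rw [abs_of_nonpos (by linarith)]
    linarith

theorem vert_EE (k : ℤ) (s : ℝ) : (⟨8 * (k : ℝ) + 4, s⟩ : ℂ) ∈ EE W := by
  rw [mem_EE_iff]
  intro p
  refine norm_ge_re _ ?_
  have h := four_le_abs_sub k p.1
  have e : ((⟨8 * (k : ℝ) + 4, s⟩ : ℂ) - lat W p).re = (8 * (k : ℝ) + 4) - 8 * (p.1 : ℝ) := by
    simp [lat]
  rw [e]
  linarith

theorem hor_EE (hW : 8 ≤ W) (t : ℝ) : (⟨t, (W : ℝ) / 2⟩ : ℂ) ∈ EE W := by
  rw [mem_EE_iff]
  intro p
  refine norm_ge_im _ ?_
  have hW' : (8 : ℝ) ≤ W := by exact_mod_cast hW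
  have e : ((⟨t, (W : ℝ) / 2⟩ : ℂ) - lat W p).im = (W : ℝ) / 2 - (W : ℝ) * (p.2 : ℝ) := by
    simp [lat]
  rw [e]
  rcases le_or_gt p.2 0 with h | h
  · have h1 : (p.2 : ℝ) ≤ 0 := by exact_mod_cast h
    have h2 : (W : ℝ) * (p.2 : ℝ) ≤ 0 := mul_nonpos_of_nonneg_of_nonpos (by linarith) h1
    rw [abs_of_nonneg (by linarith)]
    linarith
  · have h1 : (1 : ℝ) ≤ p.2 := by exact_mod_cast h
    have h2 : (W : ℝ) * 1 ≤ (W : ℝ) * (p.2 : ℝ) := mul_le_mul_of_nonneg_left h1 (by linarith)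
    rw [abs_of_nonpos (by linarith)]
    linarith

/-- moving horizontally away from the nearest column of lattice points -/
theorem away_EE {z : ℂ} (hz : z ∈ EE W) {k : ℤ} {t : ℝ} (h1 : |z.re - 8 * (k : ℝ)| ≤ |t - 8 * (k : ℝ)|)
    (h2 : |t - 8 * (k : ℝ)| ≤ 4) : (⟨t, z.im⟩ : ℂ) ∈ EE W := by
  rw [mem_EE_iff]
  intro p
  by_cases hp : p.1 = k
  · refine (mem_EE_iff.1 hz p).trans ?_
    rw [← Real.sqrt_sq (norm_nonneg (z - lat W p)),
      ← Real.sqrt_sq (norm_nonneg ((⟨t, z.im⟩ : ℂ) - lat W p))]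
    apply Real.sqrt_le_sqrt
    rw [← Complex.normSq_eq_norm_sq, ← Complex.normSq_eq_norm_sq, Complex.normSq_apply,
      Complex.normSq_apply]
    have h3 : (z.re - 8 * (k : ℝ)) ^ 2 ≤ (t - 8 * (k : ℝ)) ^ 2 := sq_le_sq.mpr h1
    have e1 : (z - lat W p).re = z.re - 8 * (k : ℝ) := by simp [lat, hp]
    have e2 : ((⟨t, z.im⟩ : ℂ) - lat W p).re = t - 8 * (k : ℝ) := by simp [lat, hp]
    have e3 : ((⟨t, z.im⟩ : ℂ) - lat W p).im = (z - lat W p).im := by simp
    rw [e1, e2, e3]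
    nlinarith
  · refine norm_ge_re _ ?_
    have e : ((⟨t, z.im⟩ : ℂ) - lat W p).re = t - 8 * (p.1 : ℝ) := by simp [lat]
    rw [e]
    rw [abs_le] at h2
    rcases lt_or_gt_of_ne hp with h | h
    · have h3 : (p.1 : ℝ) + 1 ≤ k := by exact_mod_cast h
      rw [abs_of_nonneg (by linarith)]
      linarith
    · have h3 : (k : ℝ) + 1 ≤ p.1 := by exact_mod_cast h
      rw [abs_of_nonpos (by linarith)]
      linarith

theorem cont_hor (y : ℝ) : Continuous fun t : ℝ => (⟨t, y⟩ : ℂ) := by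
  have : (fun t : ℝ => (⟨t, y⟩ : ℂ)) = fun t : ℝ => (t : ℂ) + (y : ℂ) * Complex.I := by
    funext t
    apply Complex.ext <;> simp
  rw [this]
  fun_prop

theorem cont_ver (x : ℝ) : Continuous fun s : ℝ => (⟨x, s⟩ : ℂ) := by
  have : (fun s : ℝ => (⟨x, s⟩ : ℂ)) = fun s : ℝ => (x : ℂ) + (s : ℂ) * Complex.I := by
    funext t
    apply Complex.ext <;> simp
  rw [this]
  fun_prop

/-- the point of `EE` to which everything is joined -/
def x0 (W : ℕ) : ℂ := ⟨4, (W : ℝ) / 2⟩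

theorem x0_mem (hW : 8 ≤ W) : x0 W ∈ EE W := hor_EE hW 4

theorem isPreconnected_EE (hW : 8 ≤ W) : IsPreconnected (EE W) := by
  refine isPreconnected_of_forall (x0 W) fun z hz => ?_
  set k : ℤ := round (z.re / 8) with hk
  have hk1 : |z.re - 8 * (k : ℝ)| ≤ 4 := by
    have h := abs_sub_round (z.re / 8)
    have e : z.re - 8 * (k : ℝ) = 8 * (z.re / 8 - (round (z.re / 8) : ℤ)) := by
      rw [hk]; ring
    rw [e, abs_mul, abs_of_pos (by norm_num : (0 : ℝ) < 8)]
    linarith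
  -- the end of the horizontal segment
  obtain ⟨k', hk', hseg⟩ : ∃ k' : ℤ, ∃ S : Set ℝ, IsPreconnected S ∧ z.re ∈ S ∧
      (8 * (k' : ℝ) + 4) ∈ S ∧ ∀ t ∈ S, |z.re - 8 * (k : ℝ)| ≤ |t - 8 * (k : ℝ)| ∧
        |t - 8 * (k : ℝ)| ≤ 4 := by
    rw [abs_le] at hk1
    rcases le_or_gt (8 * (k : ℝ)) z.re with h | h
    · refine ⟨k, Icc z.re (8 * (k : ℝ) + 4), isPreconnected_Icc, ⟨le_refl _, by linarith⟩,
        ⟨by linarith, le_refl _⟩, fun t ht => ?_⟩
      have h1 := ht.1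
      have h2 := ht.2
      rw [abs_of_nonneg (by linarith), abs_of_nonneg (by linarith)]
      constructor <;> linarith
    · refine ⟨k - 1, Icc (8 * (k : ℝ) - 4) z.re, isPreconnected_Icc, ⟨by linarith, le_refl _⟩,
        ⟨by push_cast; linarith, by push_cast; linarith⟩, fun t ht => ?_⟩
      have h1 := ht.1
      have h2 := ht.2
      rw [abs_of_nonpos (by linarith), abs_of_nonpos (by linarith)]
      constructor <;> linarith
  obtain ⟨hS, hS1, hS2, hS3⟩ := hseg
  set A : Set ℂ := (fun t : ℝ => (⟨t, z.im⟩ : ℂ)) '' hk' with hA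
  set B : Set ℂ := (fun s : ℝ => (⟨8 * (k' : ℝ) + 4, s⟩ : ℂ)) '' univ with hB
  set C : Set ℂ := (fun t : ℝ => (⟨t, (W : ℝ) / 2⟩ : ℂ)) '' univ with hC
  have hAp : IsPreconnected A := hS.image _ (cont_hor _).continuousOn
  have hBp : IsPreconnected B := isPreconnected_univ.image _ (cont_ver _).continuousOn
  have hCp : IsPreconnected C := isPreconnected_univ.image _ (cont_hor _).continuousOn
  refine ⟨A ∪ (B ∪ C), ?_, ?_, ?_, ?_⟩
  · rintro w (⟨t, ht, rfl⟩ | ⟨s, -, rfl⟩ | ⟨t, -, rfl⟩)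
    · exact away_EE hz (hS3 t ht).1 (hS3 t ht).2
    · exact vert_EE k' s
    · exact hor_EE hW t
  · exact Or.inr (Or.inr ⟨4, mem_univ _, rfl⟩)
  · exact Or.inl ⟨z.re, hS1, rfl⟩
  · refine hAp.union (⟨8 * (k' : ℝ) + 4, z.im⟩ : ℂ) ⟨_, hS2, rfl⟩ (Or.inl ⟨z.im, mem_univ _, rfl⟩)
      (hBp.union (⟨8 * (k' : ℝ) + 4, (W : ℝ) / 2⟩ : ℂ) ⟨_, mem_univ _, rfl⟩ ⟨_, mem_univ _, rfl⟩ hCp)

/-- a point of the tile on the unit circle around `lat W p` -/
theorem circ_EE (hW : 8 ≤ W) (p : ℤ × ℤ) : lat W p + 1 ∈ EE W := by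
  rw [mem_EE_iff]
  intro q
  by_cases h : q = p
  · subst h
    simp
  · have h1 := lat_sep hW (Ne.symm h)
    have e : lat W p - lat W q = (lat W p + 1 - lat W q) - 1 := by ring
    have h2 : ‖lat W p - lat W q‖ ≤ ‖lat W p + 1 - lat W q‖ + ‖(1 : ℂ)‖ := by
      rw [e]; exact norm_sub_le _ _
    rw [norm_one] at h2
    linarith

theorem wd_append (L : List (ℤ × ℤ)) (p : ℤ × ℤ) : wd W (L ++ [p]) = wd W L * ivE (lat W p) := by
  simp [wd]

theorem wd_join (hW : 8 ≤ W) (L : List (ℤ × ℤ)) :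
    ∃ t : Set ℂ, IsPreconnected t ∧ EE W ⊆ t ∧ t ⊆ Om W ∧ wd W L '' EE W ⊆ t := by
  induction L using List.reverseRecOn with
  | nil =>
    refine ⟨EE W, isPreconnected_EE hW, Subset.rfl, EE_sub_Om, ?_⟩
    simp [wd]
  | append_singleton L p ih =>
    obtain ⟨t, ht, h1, h2, h3⟩ := ih
    have hcont : ContinuousOn (wd W (L ++ [p])) (EE W) := fun z hz =>
      (Gf_smooth hW (wd_mem _) (EE_sub_Om hz)).continuousAt.continuousWithinAt
    have hpre : IsPreconnected (wd W (L ++ [p]) '' EE W) := (isPreconnected_EE hW).image _ hcont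
    have hc : lat W p + 1 ∈ EE W := circ_EE hW p
    have hfix : wd W (L ++ [p]) (lat W p + 1) = wd W L (lat W p + 1) := by
      rw [wd_append, Equiv.Perm.mul_apply, ivE_circle (by simp)]
    refine ⟨t ∪ wd W (L ++ [p]) '' EE W, ?_, h1.trans subset_union_left, ?_, subset_union_right⟩
    · exact ht.union (wd W L (lat W p + 1)) (h3 ⟨_, hc, rfl⟩) ⟨_, hc, hfix⟩ hpre
    · refine union_subset h2 ?_
      rintro w ⟨z, hz, rfl⟩
      exact (Om_inv (wd_mem _)).2 (EE_sub_Om hz)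

theorem isConnected_Om (hW : 8 ≤ W) : IsConnected (Om W) := by
  refine ⟨⟨x0 W, EE_sub_Om (x0_mem hW)⟩, isPreconnected_of_forall (x0 W) fun z hz => ?_⟩
  obtain ⟨γ, hγ, hz'⟩ := hz
  obtain ⟨L, q, -, hL⟩ := nf hW ((Gf W).inv_mem hγ)
  obtain ⟨t, ht, h1, h2, h3⟩ := wd_join hW L
  refine ⟨t, h2, h1 (x0_mem hW), h3 ⟨γ z + lat W q, EE_tr hz' q, ?_⟩, ht⟩
  have e : γ⁻¹ (γ z) = z := by simp
  have e2 : (wd W L * trE (lat W q)) (γ z) = z := by rw [← hL]; exact e
  rw [Equiv.Perm.mul_apply, trE_apply] at e2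
  exact e2

end

end Pool.Agent.Lib_helper94.EQG.G05

namespace Pool.Agent.EQ

open MeasureTheory Filter Topology Set SP
open scoped ContDiff ComplexConjugate

noncomputable section

variable {W : ℕ}

theorem isPreconnected_EE (hW : 8 ≤ W) : IsPreconnected (EE W) :=
  Pool.Agent.Lib_helper94.EQG.G05.isPreconnected_EE hW

theorem isConnected_Om (hW : 8 ≤ W) : IsConnected (Om W) :=
  Pool.Agent.Lib_helper94.EQG.G05.isConnected_Om hW

end

end Pool.Agent.EQ

end

/-! ## Lib_helper83.GW.G06A -/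

section

/-! Project EQ, package G, block G06A: the group of the surface acts properly. -/

set_option autoImplicit false
set_option linter.unusedVariables false

namespace Pool.Agent.Lib_helper94.EQG.G06A

open Pool.Agent.EQ
open MeasureTheory Filter Topology Set SP
open scoped ContDiff ComplexConjugate Pointwise

noncomputable section

variable {W : ℕ}

theorem finite_lp (hW : 8 ≤ W) (R : ℝ) : {p | ‖lat W p‖ ≤ R}.Finite := by
  have hW' : (8 : ℝ) ≤ W := by exact_mod_cast hW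
  refine ((Set.finite_Icc (-⌈|R|⌉) ⌈|R|⌉).prod (Set.finite_Icc (-⌈|R|⌉) ⌈|R|⌉)).subset ?_
  rintro ⟨a, b⟩ h
  have hR : ‖lat W (a, b)‖ ≤ |R| := le_trans h (le_abs_self R)
  have h1 : |8 * (a : ℝ)| ≤ |R| := by
    have := (Complex.abs_re_le_norm (lat W (a, b))).trans hR
    simpa [lat] using this
  have h2 : |(W : ℝ) * (b : ℝ)| ≤ |R| := by
    have := (Complex.abs_im_le_norm (lat W (a, b))).trans hR
    simpa [lat] using this
  rw [abs_mul, abs_of_pos (by norm_num : (0 : ℝ) < 8)] at h1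
  rw [abs_mul, abs_of_pos (by linarith : (0 : ℝ) < W)] at h2
  have ha0 := abs_nonneg (a : ℝ)
  have hb0 := abs_nonneg (b : ℝ)
  have h1' : |(a : ℝ)| ≤ ⌈|R|⌉ := by
    have := Int.le_ceil |R|
    linarith
  have h2' : |(b : ℝ)| ≤ ⌈|R|⌉ := by
    have := Int.le_ceil |R|
    nlinarith
  have h1'' : |a| ≤ ⌈|R|⌉ := by exact_mod_cast h1'
  have h2'' : |b| ≤ ⌈|R|⌉ := by exact_mod_cast h2'
  rw [abs_le] at h1'' h2''
  exact ⟨⟨h1''.1, h1''.2⟩, ⟨h2''.1, h2''.2⟩⟩

/-- the period rectangle is bounded -/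
theorem Rh_norm {z : ℂ} (hz : z ∈ Rh W) : ‖z‖ ≤ (W : ℝ) + 8 := by
  obtain ⟨h1, h2, h3, h4⟩ := hz
  have hW0 : (0 : ℝ) ≤ W := Nat.cast_nonneg W
  have h := Complex.norm_le_abs_re_add_abs_im z
  have ha : |z.re| ≤ 4 := abs_le.2 ⟨h1, h2.le⟩
  have hb : |z.im| ≤ (W : ℝ) + 4 := abs_le.2 ⟨by linarith, by linarith⟩
  linarith

/-- the finite sets of group elements with bounded data -/
def FA (W : ℕ) (R : ℝ) : Set (Equiv.Perm ℂ) :=
  (fun q => trE (lat W q)) '' {q | ‖lat W q‖ ≤ R} ∪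
    (fun x : (ℤ × ℤ) × (ℤ × ℤ) => ivE (lat W x.1) * trE (lat W x.2)) ''
      ({p | ‖lat W p‖ ≤ R} ×ˢ {q | ‖lat W q‖ ≤ R})

def FB (W : ℕ) (R : ℝ) : Set (Equiv.Perm ℂ) :=
  FA W R ∪ (fun x : Equiv.Perm ℂ × (ℤ × ℤ) => x.1 * ivE (lat W x.2)) ''
    (FA W R ×ˢ {p | ‖lat W p‖ ≤ R})

theorem finite_FA (hW : 8 ≤ W) (R : ℝ) : (FA W R).Finite :=
  ((finite_lp hW R).image _).union (((finite_lp hW R).prod (finite_lp hW R)).image _)

theorem finite_FB (hW : 8 ≤ W) (R : ℝ) : (FB W R).Finite :=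
  (finite_FA hW R).union (((finite_FA hW R).prod (finite_lp hW R)).image _)

theorem mem_FA (hW : 8 ≤ W) {g : Equiv.Perm ℂ} (hg : g ∈ Gf W) {x : ℂ} {R : ℝ} (hx : x ∈ EE W)
    (hR : ‖x‖ + (W + 9) ≤ R) (h : g x ∈ EE W ∩ Rh W) : g ∈ FA W R := by
  rcases stab_EE hW hg hx h.1 with ⟨q, rfl⟩ | ⟨p, q, rfl, hc⟩
  · refine Or.inl ⟨q, ?_, rfl⟩
    have h2 : x + lat W q ∈ Rh W := h.2
    have h3 := Rh_norm h2
    have e : lat W q = (x + lat W q) - x := by ring
    show ‖lat W q‖ ≤ R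
    rw [e]
    have h4 := norm_sub_le (x + lat W q) x
    linarith
  · have e1 : (ivE (lat W p) * trE (lat W q)) x = x + lat W q := by
      rw [Equiv.Perm.mul_apply, trE_apply, ivE_circle hc]
    have h2 : x + lat W q ∈ Rh W := by
      rw [← e1]
      exact h.2
    have h3 := Rh_norm h2
    refine Or.inr ⟨(p, q), ⟨?_, ?_⟩, rfl⟩
    · show ‖lat W p‖ ≤ R
      have e : lat W p = (x + lat W q) - (x + lat W q - lat W p) := by ring
      rw [e]
      have h4 := norm_sub_le (x + lat W q) (x + lat W q - lat W p)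
      rw [hc] at h4
      have := norm_nonneg x
      linarith
    · show ‖lat W q‖ ≤ R
      have e : lat W q = (x + lat W q) - x := by ring
      rw [e]
      have h4 := norm_sub_le (x + lat W q) x
      linarith

/-- local finiteness at a point of the tile -/
theorem mem_FB (hW : 8 ≤ W) {z : ℂ} (hz : z ∈ EE W) {x : ℂ} (hx : x ∈ Metric.ball z (1 / 2))
    {g : Equiv.Perm ℂ} (hg : g ∈ Gf W) (h : g x ∈ EE W ∩ Rh W) : g ∈ FB W (‖z‖ + W + 14) := by
  rw [Metric.mem_ball, dist_eq_norm] at hx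
  have hxz : ‖x‖ ≤ ‖z‖ + 1 / 2 := by
    have e : x = z + (x - z) := by ring
    rw [e]
    exact (norm_add_le _ _).trans (by linarith)
  have hdist : ∀ p, 1 / 2 < ‖x - lat W p‖ := fun p => by
    have h1 := mem_EE_iff.1 hz p
    have e : z - lat W p = (x - lat W p) - (x - z) := by ring
    rw [e] at h1
    have h2 := norm_sub_le (x - lat W p) (x - z)
    linarith
  have hxE : x ∈ UU W (1 / 6) := (lt_dl_iff hW).2 fun p => lt_trans (by norm_num) (hdist p)
  rcases UU_cases hW hxE with hE | ⟨p, -, hp, hE⟩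
  · exact Or.inl (mem_FA hW hg hE (by linarith) h)
  · have hlp : ‖lat W p‖ ≤ ‖z‖ + 3 / 2 := by
      have e : lat W p = x - (x - lat W p) := by ring
      rw [e]
      have := norm_sub_le x (x - lat W p)
      linarith
    have hy : ‖ivE (lat W p) x‖ ≤ ‖z‖ + 4 := by
      have e : ivE (lat W p) x = (ivE (lat W p) x - lat W p) + lat W p := by ring
      rw [e]
      have h1 := norm_add_le (ivE (lat W p) x - lat W p) (lat W p)
      rw [norm_ivE_sub] at h1
      have h2 : ‖x - lat W p‖⁻¹ ≤ 2 := by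
        have := inv_anti₀ (by norm_num : (0 : ℝ) < 1 / 2) (hdist p).le
        linarith
      linarith
    have hg' : g * ivE (lat W p) ∈ Gf W := (Gf W).mul_mem hg (ivE_mem p)
    have h' : (g * ivE (lat W p)) (ivE (lat W p) x) ∈ EE W ∩ Rh W := by
      rw [Equiv.Perm.mul_apply, ivE_ivE]
      exact h
    refine Or.inr ⟨(g * ivE (lat W p), p), ⟨mem_FA hW hg' hE (by linarith) h', ?_⟩, ?_⟩
    · show ‖lat W p‖ ≤ _
      have := Nat.cast_nonneg (α := ℝ) W
      linarith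
    · show g * ivE (lat W p) * ivE (lat W p) = g
      rw [mul_assoc, ivE_mul_self, mul_one]

/-- the elements of the full group moving a point of `S` to the fundamental domain -/
def Fin0 (W : ℕ) (S : Set ℂ) : Set (Equiv.Perm ℂ) :=
  {g | g ∈ Gf W ∧ ∃ x ∈ S, g x ∈ EE W ∩ Rh W}

theorem loc_fin (hW : 8 ≤ W) {z : ℂ} (hz : z ∈ Om W) : ∃ U ∈ 𝓝 z, (Fin0 W U).Finite := by
  have hz0 := hz
  obtain ⟨g₀, hg₀, hz'⟩ := hz
  have hc : ContinuousAt g₀ z := (Gf_smooth hW hg₀ hz0).continuousAt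
  refine ⟨g₀ ⁻¹' Metric.ball (g₀ z) (1 / 2), hc (Metric.ball_mem_nhds _ (by norm_num)), ?_⟩
  refine ((finite_FB hW (‖g₀ z‖ + W + 14)).image fun g => g * g₀).subset ?_
  rintro g ⟨hg, x, hx, h⟩
  refine ⟨g * g₀⁻¹, ?_, by simp⟩
  refine mem_FB hW hz' hx ((Gf W).mul_mem hg ((Gf W).inv_mem hg₀)) ?_
  have : (g * g₀⁻¹) (g₀ x) = g x := by simp [Equiv.Perm.mul_apply]
  rw [this]
  exact h

theorem comp_fin (hW : 8 ≤ W) {K : Set ℂ} (hK : K ⊆ Om W) (hc : IsCompact K) :
    (Fin0 W K).Finite := by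
  refine hc.induction_on (p := fun S => (Fin0 W S).Finite) ?_ ?_ ?_ ?_
  · have : Fin0 W ∅ = ∅ := by
      ext g; simp [Fin0]
    rw [this]
    exact Set.finite_empty
  · intro s t hst ht
    refine ht.subset ?_
    rintro g ⟨hg, x, hx, h⟩
    exact ⟨hg, x, hst hx, h⟩
  · intro s t hs ht
    refine (hs.union ht).subset ?_
    rintro g ⟨hg, x, hx | hx, h⟩
    · exact Or.inl ⟨hg, x, hx, h⟩
    · exact Or.inr ⟨hg, x, hx, h⟩
  · intro z hz
    obtain ⟨U, hU, hfin⟩ := loc_fin hW (hK hz)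
    exact ⟨U, mem_nhdsWithin_of_mem_nhds hU, hfin⟩

theorem exists_move (hW : 8 ≤ W) {z : ℂ} (hz : z ∈ Om W) :
    ∃ d ∈ Gf W, d z ∈ EE W ∩ Rh W := by
  obtain ⟨g, hg, h⟩ := hz
  obtain ⟨q, hq⟩ := exists_Rh hW (g z)
  exact ⟨trE (lat W q) * g, (Gf W).mul_mem (trE_mem q) hg, EE_tr h q, hq⟩

theorem proper_Gg (hW : 8 ≤ W) (K : Set ℂ) (hK : K ⊆ Om W) (hc : IsCompact K) :
    {γ : Gg W | ((γ : Equiv.Perm ℂ) '' K ∩ K).Nonempty}.Finite := by
  have hfin := comp_fin hW hK hc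
  have hfin2 : ((fun x : Equiv.Perm ℂ × Equiv.Perm ℂ => x.1⁻¹ * x.2) ''
      (Fin0 W K ×ˢ Fin0 W K)).Finite := (hfin.prod hfin).image _
  refine (hfin2.preimage (f := fun γ : Gg W => (γ : Equiv.Perm ℂ))
    (Subtype.val_injective.injOn)).subset ?_
  rintro γ ⟨y, ⟨x, hx, hxy⟩, hy⟩
  obtain ⟨d, hd, hdx⟩ := exists_move hW (hK hx)
  refine ⟨(d * (γ : Equiv.Perm ℂ)⁻¹, d), ⟨⟨(Gf W).mul_mem hd ((Gf W).inv_mem (Gg_le γ.2)), y, hy, ?_⟩,
    ⟨hd, x, hx, hdx⟩⟩, ?_⟩
  · have : (d * (γ : Equiv.Perm ℂ)⁻¹) y = d x := by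
      rw [Equiv.Perm.mul_apply, ← hxy]
      simp
    rw [this]
    exact hdx
  · show (d * (γ : Equiv.Perm ℂ)⁻¹)⁻¹ * d = γ
    group

end

end Pool.Agent.Lib_helper94.EQG.G06A

namespace Pool.Agent.EQ

open MeasureTheory Filter Topology Set SP
open scoped ContDiff ComplexConjugate

noncomputable section

variable {W : ℕ}

theorem finite_lp (hW : 8 ≤ W) (R : ℝ) : {p | ‖lat W p‖ ≤ R}.Finite :=
  Pool.Agent.Lib_helper94.EQG.G06A.finite_lp hW R

theorem proper_Gg (hW : 8 ≤ W) (K : Set ℂ) (hK : K ⊆ Om W) (hc : IsCompact K) :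
    {γ : Gg W | ((γ : Equiv.Perm ℂ) '' K ∩ K).Nonempty}.Finite :=
  Pool.Agent.Lib_helper94.EQG.G06A.proper_Gg hW K hK hc

end

end Pool.Agent.EQ

end

/-! ## Lib_helper83.GW.G06B -/

section

/-! Project EQ, package G, block G06B: cocompact_Gg.
Cites isClosed_EE, EE_sub_Om, Om_inv, ivE_zero_mem, EE_tr, exists_Rh, trE_mem, Gf_cases', lat_zero. -/

set_option autoImplicit false

namespace Pool.Agent.Lib_helper26.EQG.G06B

open Pool.Agent.EQ
open MeasureTheory Filter Topology Set Pool.Agent.EQ.SP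
open scoped ContDiff ComplexConjugate

noncomputable section

variable {W : ℕ}

theorem cocompact_Gg (hW : 8 ≤ W) :
    ∃ K ⊆ Om W, IsCompact K ∧ ∀ z ∈ Om W, ∃ γ ∈ Gg W, γ z ∈ K := by
  set C0 : Set ℂ := EE W ∩ (Icc (-4 : ℝ) 4 ×ℂ Icc (-4 : ℝ) ((W : ℝ) - 4)) with hC0
  have hc : IsCompact C0 := by
    refine IsCompact.inter_left ?_ isClosed_EE
    exact isCompact_Icc.reProdIm isCompact_Icc
  have hne : ∀ z ∈ C0, z ≠ 0 := by
    rintro z ⟨hz, -⟩ rfl
    have := mem_EE_iff.1 hz 0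
    rw [lat_zero, sub_zero, norm_zero] at this
    linarith
  have hcont : ContinuousOn (ivE 0) C0 := by
    intro z hz
    have h0 := hne z hz
    refine ContinuousAt.continuousWithinAt ?_
    have h1 : (ivE 0 : ℂ → ℂ) = fun z => 0 + (conj (z - 0))⁻¹ := rfl
    rw [h1]
    refine continuousAt_const.add (ContinuousAt.inv₀ ?_ ?_)
    · exact (Complex.continuous_conj.comp (continuous_id.sub continuous_const)).continuousAt
    · simpa using h0
  refine ⟨C0 ∪ ivE 0 '' C0, ?_, hc.union (hc.image_of_continuousOn hcont), ?_⟩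
  · rintro z (hz | ⟨w, hw, rfl⟩)
    · exact EE_sub_Om hz.1
    · exact (Om_inv ivE_zero_mem).2 (EE_sub_Om hw.1)
  · rintro z ⟨γ, hγ, hz⟩
    obtain ⟨q, hq⟩ := exists_Rh hW (γ z)
    have h1 : (trE (lat W q) * γ) z ∈ C0 :=
      ⟨EE_tr hz q, ⟨hq.1, hq.2.1.le⟩, hq.2.2.1, hq.2.2.2.le⟩
    rcases Gf_cases' ((Gf W).mul_mem (trE_mem q) hγ) with h | h
    · exact ⟨_, h, Or.inl h1⟩
    · exact ⟨_, h, Or.inr ⟨_, h1, rfl⟩⟩

end

end Pool.Agent.Lib_helper26.EQG.G06B

namespace Pool.Agent.EQ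

open MeasureTheory Filter Topology Set SP
open scoped ContDiff ComplexConjugate

noncomputable section

variable {W : ℕ}

theorem cocompact_Gg (hW : 8 ≤ W) :
    ∃ K ⊆ Om W, IsCompact K ∧ ∀ z ∈ Om W, ∃ γ ∈ Gg W, γ z ∈ K :=
  Pool.Agent.Lib_helper26.EQG.G06B.cocompact_Gg hW

end

end Pool.Agent.EQ

end

/-! ## Lib_helper83.GW.G07 -/

section

/-! Block G07 of project EQ (package G): the projection to the fundamental domain. -/

set_option autoImplicit false
set_option linter.unusedVariables false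

namespace Pool.Agent.Lib_helper33.EQG.G07

open Pool.Agent.EQ
open MeasureTheory Filter Topology Set SP
open scoped ContDiff ComplexConjugate

noncomputable section

variable {W : ℕ}

theorem G07_inv_apply (γ : Equiv.Perm ℂ) (z : ℂ) : γ⁻¹ (γ z) = z := γ.symm_apply_apply z

theorem pr_spec (hW : 8 ≤ W) {z : ℂ} (hz : z ∈ Om W) :
    pr W z ∈ EE W ∩ Rh W ∧ ∃ γ ∈ Gf W, γ z = pr W z := by
  obtain ⟨γ, hγ, hE⟩ := hz
  obtain ⟨q, hq⟩ := exists_Rh hW (γ z)
  have h : ∃ w ∈ EE W ∩ Rh W, ∃ γ ∈ Gf W, γ z = w := by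
    refine ⟨γ z + lat W q, ⟨EE_tr hE q, hq⟩, trE (lat W q) * γ, mul_mem (trE_mem q) hγ, ?_⟩
    rw [Equiv.Perm.mul_apply, trE_apply]
  have h1 := h.choose_spec
  have h2 : pr W z = h.choose := by
    unfold pr
    rw [dif_pos h]
  rw [h2]
  exact h1

theorem pr_eq (hW : 8 ≤ W) {z w : ℂ} (hw : w ∈ EE W ∩ Rh W) {γ : Equiv.Perm ℂ} (hγ : γ ∈ Gf W)
    (h : γ z = w) : pr W z = w := by
  have hz : z ∈ Om W := ⟨γ, hγ, h ▸ hw.1⟩
  obtain ⟨hpr, δ, hδ, hδz⟩ := pr_spec hW hz
  have hmem : δ * γ⁻¹ ∈ Gf W := mul_mem hδ (inv_mem hγ)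
  have hval : (δ * γ⁻¹) w = pr W z := by
    rw [Equiv.Perm.mul_apply, ← h, G07_inv_apply, hδz]
  have hfin : ∀ q, pr W z = w + lat W q → pr W z = w := by
    intro q hq
    have h0 := Rh_unique hW hw.2 (q := q) (hq ▸ hpr.2)
    rw [hq, h0, lat_zero, add_zero]
  rcases stab_EE hW hmem hw.1 (by rw [hval]; exact hpr.1) with ⟨q, hq⟩ | ⟨p, q, hq, hc⟩
  · rw [hq, trE_apply] at hval
    exact hfin q hval.symm
  · rw [hq, Equiv.Perm.mul_apply, trE_apply, ivE_circle hc] at hval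
    exact hfin q hval.symm

theorem pr_inv (hW : 8 ≤ W) {z : ℂ} (hz : z ∈ Om W) {γ : Equiv.Perm ℂ} (hγ : γ ∈ Gf W) :
    pr W (γ z) = pr W z := by
  obtain ⟨hpr, δ, hδ, hδz⟩ := pr_spec hW hz
  refine pr_eq hW hpr (γ := δ * γ⁻¹) (mul_mem hδ (inv_mem hγ)) ?_
  rw [Equiv.Perm.mul_apply, G07_inv_apply, hδz]

theorem pr_EE (hW : 8 ≤ W) {z : ℂ} (hz : z ∈ EE W) : ∃ q, pr W z = z + lat W q := by
  obtain ⟨q, hq⟩ := exists_Rh hW z
  exact ⟨q, pr_eq hW ⟨EE_tr hz q, hq⟩ (trE_mem q) (trE_apply _ _)⟩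

end

end Pool.Agent.Lib_helper33.EQG.G07

namespace Pool.Agent.EQ

open MeasureTheory Filter Topology Set SP
open scoped ContDiff ComplexConjugate

noncomputable section

variable {W : ℕ}

theorem pr_spec (hW : 8 ≤ W) {z : ℂ} (hz : z ∈ Om W) :
    pr W z ∈ EE W ∩ Rh W ∧ ∃ γ ∈ Gf W, γ z = pr W z :=
  Pool.Agent.Lib_helper33.EQG.G07.pr_spec hW hz

theorem pr_eq (hW : 8 ≤ W) {z w : ℂ} (hw : w ∈ EE W ∩ Rh W) {γ : Equiv.Perm ℂ} (hγ : γ ∈ Gf W)
    (h : γ z = w) : pr W z = w :=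
  Pool.Agent.Lib_helper33.EQG.G07.pr_eq hW hw hγ h

theorem pr_inv (hW : 8 ≤ W) {z : ℂ} (hz : z ∈ Om W) {γ : Equiv.Perm ℂ} (hγ : γ ∈ Gf W) :
    pr W (γ z) = pr W z :=
  Pool.Agent.Lib_helper33.EQG.G07.pr_inv hW hz hγ

theorem pr_EE (hW : 8 ≤ W) {z : ℂ} (hz : z ∈ EE W) : ∃ q, pr W z = z + lat W q :=
  Pool.Agent.Lib_helper33.EQG.G07.pr_EE hW hz

end

end Pool.Agent.EQ

end

/-! ## Lib_helper83.GW.G08A -/

section

/-! Project EQ, package G, block G08A: measurability, the circles are null. -/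

set_option autoImplicit false
set_option linter.unusedVariables false

namespace Pool.Agent.Lib_helper21.EQG.G08A

open Pool.Agent.EQ
open MeasureTheory Filter Topology Set SP
open scoped ContDiff ComplexConjugate

noncomputable section

variable {W : ℕ}

theorem measurableSet_EE : MeasurableSet (EE W) := isClosed_EE.measurableSet

theorem measurableSet_Rh : MeasurableSet (Rh W) := by
  have m1 : MeasurableSet {z : ℂ | -4 ≤ z.re} :=
    (isClosed_le continuous_const Complex.continuous_re).measurableSet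
  have m2 : MeasurableSet {z : ℂ | z.re < 4} :=
    (isOpen_lt Complex.continuous_re continuous_const).measurableSet
  have m3 : MeasurableSet {z : ℂ | -4 ≤ z.im} :=
    (isClosed_le continuous_const Complex.continuous_im).measurableSet
  have m4 : MeasurableSet {z : ℂ | z.im < (W : ℝ) - 4} :=
    (isOpen_lt Complex.continuous_im continuous_const).measurableSet
  exact m1.inter (m2.inter (m3.inter m4))

theorem measurable_ivE : Measurable (ivE 0) := by
  have : (fun z : ℂ => ivE 0 z) = fun z => 0 + (conj (z - 0))⁻¹ := by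
    ext z; exact ivE_apply 0 z
  show Measurable (fun z : ℂ => ivE 0 z)
  rw [this]
  have h : Measurable fun z : ℂ => conj (z - 0) :=
    (Complex.continuous_conj.comp (continuous_id.sub continuous_const)).measurable
  exact measurable_const.add h.inv

theorem measurableSet_A : MeasurableSet (EE W ∩ Rh W ∩ {z | 1 < ‖z‖}) :=
  (measurableSet_EE.inter measurableSet_Rh).inter
    (isOpen_lt continuous_const continuous_norm).measurableSet

theorem ivE_image (A : Set ℂ) : ivE 0 '' A = ivE 0 ⁻¹' A := by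
  ext z
  constructor
  · rintro ⟨w, hw, rfl⟩
    show ivE 0 (ivE 0 w) ∈ A
    rwa [ivE_ivE]
  · intro hz
    exact ⟨ivE 0 z, hz, ivE_ivE 0 z⟩

theorem measurableSet_Fd : MeasurableSet (Fd W) := by
  refine measurableSet_A.union ?_
  rw [ivE_image]
  exact measurable_ivE measurableSet_A

theorem Fd_sub (hW : 8 ≤ W) : Fd W ⊆ Om W := by
  rintro z (hz | ⟨w, hw, rfl⟩)
  · exact EE_sub_Om hz.1.1
  · exact (Om_inv ivE_zero_mem).2 (EE_sub_Om hw.1.1)

theorem Fd_disj : Disjoint (EE W ∩ Rh W ∩ {z | 1 < ‖z‖})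
    (ivE 0 '' (EE W ∩ Rh W ∩ {z | 1 < ‖z‖})) := by
  rw [Set.disjoint_left]
  rintro z ⟨-, hz⟩ ⟨w, ⟨-, hw⟩, rfl⟩
  have h := norm_ivE_sub 0 w
  rw [sub_zero, sub_zero] at h
  have hz' : 1 < ‖ivE 0 w‖ := hz
  have hw' : 1 < ‖w‖ := hw
  rw [h] at hz'
  exact absurd hz' (not_lt.2 (inv_le_one_of_one_le₀ hw'.le))

/-- the union of the images of the circles is a null set -/
theorem circles_null (hW : 8 ≤ W) : volume {z | z ∈ Om W ∧ ∃ γ ∈ Gf W, ‖γ z‖ = 1} = 0 := by
  have hc : Countable (Gf W) := countable_Gf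
  have hsub : {z | z ∈ Om W ∧ ∃ γ ∈ Gf W, ‖γ z‖ = 1} ⊆
      ⋃ γ : Gf W, ((γ⁻¹ : Gf W) : Equiv.Perm ℂ) '' (Om W ∩ Metric.sphere 0 1) := by
    rintro z ⟨hz, γ, hγ, h⟩
    rw [mem_iUnion]
    refine ⟨⟨γ, hγ⟩, γ z, ⟨(Om_inv hγ).2 hz, ?_⟩, ?_⟩
    · rw [mem_sphere_zero_iff_norm]; exact h
    · show (γ⁻¹ : Equiv.Perm ℂ) (γ z) = z
      simp
  refine measure_mono_null hsub ?_
  rw [measure_iUnion_null_iff]
  intro γ
  apply addHaar_image_eq_zero_of_differentiableOn_of_addHaar_eq_zero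
  · intro z hz
    exact ((Gf_smooth hW (γ⁻¹ : Gf W).2 hz.1).differentiableAt (by simp)).differentiableWithinAt
  · refine measure_mono_null inter_subset_right ?_
    exact Measure.addHaar_sphere _ _ _

end

end Pool.Agent.Lib_helper21.EQG.G08A

namespace Pool.Agent.EQ

open MeasureTheory Filter Topology Set SP
open scoped ContDiff ComplexConjugate

noncomputable section

variable {W : ℕ}

theorem measurableSet_EE : MeasurableSet (EE W) :=
  Pool.Agent.Lib_helper21.EQG.G08A.measurableSet_EE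

theorem measurableSet_Rh : MeasurableSet (Rh W) :=
  Pool.Agent.Lib_helper21.EQG.G08A.measurableSet_Rh

theorem measurableSet_Fd : MeasurableSet (Fd W) :=
  Pool.Agent.Lib_helper21.EQG.G08A.measurableSet_Fd

theorem Fd_sub (hW : 8 ≤ W) : Fd W ⊆ Om W :=
  Pool.Agent.Lib_helper21.EQG.G08A.Fd_sub hW

theorem Fd_disj : Disjoint (EE W ∩ Rh W ∩ {z | 1 < ‖z‖})
    (ivE 0 '' (EE W ∩ Rh W ∩ {z | 1 < ‖z‖})) :=
  Pool.Agent.Lib_helper21.EQG.G08A.Fd_disj

theorem circles_null (hW : 8 ≤ W) : volume {z | z ∈ Om W ∧ ∃ γ ∈ Gf W, ‖γ z‖ = 1} = 0 :=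
  Pool.Agent.Lib_helper21.EQG.G08A.circles_null hW

end

end Pool.Agent.EQ

end

/-! ## Lib_helper83.GW.G08B -/

section

/-! Project EQ, package G, block G08B: the fundamental domain of the holomorphic group. -/

set_option autoImplicit false
set_option linter.unusedVariables false

namespace Pool.Agent.Lib_helper21.EQG.G08B

open Pool.Agent.EQ
open MeasureTheory Filter Topology Set SP
open scoped ContDiff ComplexConjugate

noncomputable section

variable {W : ℕ}

/-- points of the period rectangle are far from the other lattice points -/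
theorem far (hW : 8 ≤ W) {a : ℂ} (ha : a ∈ Rh W) {p : ℤ × ℤ} (hp : p ≠ 0) :
    4 ≤ ‖a - lat W p‖ := by
  have hW' : (8 : ℝ) ≤ W := by exact_mod_cast hW
  obtain ⟨h1, h2, h3, h4⟩ := ha
  have e1 : (a - lat W p).re = a.re - 8 * p.1 := by simp [lat]
  have e2 : (a - lat W p).im = a.im - W * p.2 := by simp [lat]
  have b1 := Complex.abs_re_le_norm (a - lat W p)
  have b2 := Complex.abs_im_le_norm (a - lat W p)
  rw [e1] at b1
  rw [e2] at b2
  obtain ⟨m, n⟩ := p
  simp only at b1 b2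
  rcases lt_trichotomy m 0 with hm | hm | hm
  · have : (m : ℝ) ≤ -1 := by exact_mod_cast (by omega : m ≤ -1)
    have := le_abs_self (a.re - 8 * m)
    linarith
  · rcases lt_trichotomy n 0 with hn | hn | hn
    · have : (n : ℝ) ≤ -1 := by exact_mod_cast (by omega : n ≤ -1)
      have := le_abs_self (a.im - W * n)
      nlinarith
    · exact absurd (Prod.ext hm hn) hp
    · have : (1 : ℝ) ≤ n := by exact_mod_cast (by omega : 1 ≤ n)
      have := neg_abs_le (a.im - W * n)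
      nlinarith
  · have : (1 : ℝ) ≤ m := by exact_mod_cast (by omega : 1 ≤ m)
    have := neg_abs_le (a.re - 8 * m)
    linarith

/-- an element of the full group that fixes a point of the open fundamental domain is trivial -/
theorem fix_one (hW : 8 ≤ W) {g : Equiv.Perm ℂ} (hg : g ∈ Gf W) {a : ℂ}
    (ha : a ∈ EE W ∩ Rh W ∩ {z | 1 < ‖z‖}) (h : g a = a) : g = 1 := by
  obtain ⟨⟨haE, haR⟩, hn⟩ := ha
  have hz : ∀ q : ℤ × ℤ, a + lat W q = a → trE (lat W q) = 1 := by
    intro q hq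
    have h0 : lat W q = 0 := by simpa using hq
    rw [h0, trE_zero]
  rcases stab_EE hW hg haE (by rw [h]; exact haE) with ⟨q, rfl⟩ | ⟨p, q, rfl, hc⟩
  · rw [trE_apply] at h
    exact hz q h
  · exfalso
    have e : (ivE (lat W p) * trE (lat W q)) a = a + lat W q := by
      rw [Equiv.Perm.mul_apply, trE_apply]
      exact ivE_circle hc
    rw [e] at h
    rw [h] at hc
    by_cases hp : p = 0
    · subst hp
      rw [lat_zero, sub_zero] at hc
      have hn' : 1 < ‖a‖ := hn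
      linarith
    · have := far hW haR hp
      linarith

theorem key (hW : 8 ≤ W) {z : ℂ} (hz : z ∈ Om W) (hz2 : ¬ ∃ γ ∈ Gf W, ‖γ z‖ = 1) :
    ∃! γ : Gg W, (γ : Equiv.Perm ℂ) z ∈ Fd W := by
  set A : Set ℂ := EE W ∩ Rh W ∩ {z | 1 < ‖z‖} with hA
  obtain ⟨hw, d, hd, hdz⟩ := pr_spec hW hz
  have hwA : pr W z ∈ A := by
    refine ⟨hw, ?_⟩
    have h1 : 1 ≤ ‖pr W z‖ := by
      have := mem_EE_iff.1 hw.1 0
      rwa [lat_zero, sub_zero] at this
    have h2 : ‖pr W z‖ ≠ 1 := by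
      intro h
      exact hz2 ⟨d, hd, by rw [hdz]; exact h⟩
    exact lt_of_le_of_ne h1 (Ne.symm h2)
  -- existence
  obtain ⟨γ, hγ, hγz⟩ : ∃ γ ∈ Gg W, γ z ∈ Fd W := by
    rcases Gf_cases' hd with h | h
    · exact ⟨d, h, Or.inl (by rw [hdz]; exact hwA)⟩
    · refine ⟨ivE 0 * d, h, Or.inr ⟨pr W z, hwA, ?_⟩⟩
      rw [Equiv.Perm.mul_apply, hdz]
  -- every element with `γ z ∈ Fd` is a representative up to `ivE 0`
  have hrep : ∀ γ : Equiv.Perm ℂ, γ ∈ Gg W → γ z ∈ Fd W →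
      (γ z ∈ A) ∨ ((ivE 0 * γ) z ∈ A) := by
    intro γ _ h
    rcases h with h | ⟨w, hw, h⟩
    · exact Or.inl h
    · right
      rw [Equiv.Perm.mul_apply, ← h, ivE_ivE]
      exact hw
  have huni : ∀ a b : Equiv.Perm ℂ, a ∈ Gf W → b ∈ Gf W → a z ∈ A → b z ∈ A → a = b := by
    intro a b ha hb haz hbz
    have e1 := pr_eq hW haz.1 ha rfl
    have e2 := pr_eq hW hbz.1 hb rfl
    have e3 : a z = b z := by rw [← e1, ← e2]
    have e4 : (a * b⁻¹) (b z) = b z := by
      rw [Equiv.Perm.mul_apply]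
      have e5 : (b⁻¹ : Equiv.Perm ℂ) (b z) = z := by simp
      rw [e5, e3]
    have := fix_one hW (mul_mem ha (inv_mem hb)) hbz e4
    exact mul_inv_eq_one.1 this
  have hiv : ivE 0 ∉ Gg W := by
    have := not_mem_Gg hW 0 0
    rwa [lat_zero, trE_zero, mul_one] at this
  refine ⟨⟨γ, hγ⟩, hγz, ?_⟩
  rintro ⟨γ', hγ'⟩ h'
  apply Subtype.ext
  show γ' = γ
  have h'' : γ' z ∈ Fd W := h'
  have hG : ∀ {g : Equiv.Perm ℂ}, g ∈ Gg W → ivE 0 * g ∈ Gf W := fun hg =>
    mul_mem ivE_zero_mem (Gg_le hg)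
  rcases hrep γ hγ hγz with h1 | h1 <;> rcases hrep γ' hγ' h'' with h2 | h2
  · exact huni _ _ (Gg_le hγ') (Gg_le hγ) h2 h1
  · exfalso
    have := huni _ _ (hG hγ') (Gg_le hγ) h2 h1
    apply hiv
    have e : ivE 0 = γ * γ'⁻¹ := by rw [← this, mul_inv_cancel_right]
    rw [e]
    exact mul_mem hγ (inv_mem hγ')
  · exfalso
    have := huni _ _ (Gg_le hγ') (hG hγ) h2 h1
    apply hiv
    have e : ivE 0 = γ' * γ⁻¹ := by rw [this, mul_inv_cancel_right]
    rw [e]
    exact mul_mem hγ' (inv_mem hγ)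
  · exact mul_left_cancel (huni _ _ (hG hγ') (hG hγ) h2 h1)

theorem Fd_uniq (hW : 8 ≤ W) : ∀ᵐ z, z ∈ Om W → ∃! γ : Gg W, (γ : Equiv.Perm ℂ) z ∈ Fd W := by
  have h : ∀ᵐ z, z ∉ {z | z ∈ Om W ∧ ∃ γ ∈ Gf W, ‖γ z‖ = 1} :=
    measure_eq_zero_iff_ae_notMem.1 (circles_null hW)
  filter_upwards [h] with z hz hzO
  exact key hW hzO (fun hc => hz ⟨hzO, hc⟩)

end

end Pool.Agent.Lib_helper21.EQG.G08B

namespace Pool.Agent.EQ

open MeasureTheory Filter Topology Set SP
open scoped ContDiff ComplexConjugate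

noncomputable section

variable {W : ℕ}

theorem Fd_uniq (hW : 8 ≤ W) : ∀ᵐ z, z ∈ Om W → ∃! γ : Gg W, (γ : Equiv.Perm ℂ) z ∈ Fd W :=
  Pool.Agent.Lib_helper21.EQG.G08B.Fd_uniq hW

end

end Pool.Agent.EQ

end

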