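import Mathlib
import Pool.Agent.Lib_helper71.EQM.GrA
import Pool.Agent.Lib_helper71.EQM.Met

/-! Project EQ (MP_ed6ab2_an): merged modules Lib_helper83.GW.M01, Lib_helper83.GW.M02B, Lib_helper83.GW.M03, Lib_helper83.GW.M04, Lib_helper83.GW.M05, Lib_helper83.GW.M06, Lib_helper83.GW.PG. -/

set_option autoImplicit false

/-! ## Lib_helper83.GW.M01 -/

section

/-! Project EQ, package G, block M01: conformal factors. -/

set_option autoImplicit false
set_option linter.unusedVariables false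

namespace Pool.Agent.Lib_helper83.EQG.M01

open MeasureTheory Filter Topology Set Pool.Agent.EQ
open scoped ContDiff ComplexConjugate

noncomputable section

variable {W : ℕ}

theorem cfac_tr (q z : ℂ) : cfac (trE q) z = 1 := by
  unfold cfac
  have h : (fun w : ℂ => w + q) = (trE q : ℂ → ℂ) := rfl
  rw [← h, fderiv_add_const]
  simp

/-- multiplication by a complex number as a real linear map -/
theorem fderiv_holo {J : ℂ → ℂ} {z : ℂ} (h : DifferentiableAt ℂ J z) (v : ℂ) :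
    fderiv ℝ J z v = deriv J z * v := by
  have h1 : HasFDerivAt J ((ContinuousLinearMap.toSpanSingleton ℂ (deriv J z)).restrictScalars ℝ)
      z := h.hasDerivAt.hasFDerivAt.restrictScalars ℝ
  rw [h1.fderiv]
  simp [mul_comm]

theorem fderiv_conj_holo {J : ℂ → ℂ} {z : ℂ} (h : DifferentiableAt ℂ J z) (v : ℂ) :
    fderiv ℝ (fun w => conj (J w)) z v = conj (deriv J z * v) := by
  have h1 : DifferentiableAt ℝ J z := h.restrictScalars ℝ
  have h2 : HasFDerivAt (fun w => conj (J w))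
      ((Complex.conjCLE : ℂ →L[ℝ] ℂ).comp (fderiv ℝ J z)) z :=
    (Complex.conjCLE : ℂ →L[ℝ] ℂ).hasFDerivAt.comp z h1.hasFDerivAt
  rw [h2.fderiv]
  simp [fderiv_holo h]

theorem cfac_iv {l z : ℂ} (h : z ≠ l) : cfac (ivE l) z = ‖z - l‖⁻¹ ^ 2 := by
  unfold cfac
  have h0 : z - l ≠ 0 := sub_ne_zero.2 h
  have e : (ivE l : ℂ → ℂ) = fun w => conj (conj l + (w - l)⁻¹) := by
    funext w
    rw [ivE_apply]
    simp
  have h1 : HasDerivAt (fun w : ℂ => conj l + (w - l)⁻¹) (-1 / (z - l) ^ 2) z := by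
    have h2 : HasDerivAt (fun w : ℂ => w - l) 1 z := (hasDerivAt_id z).sub_const l
    exact (h2.inv h0).const_add _
  rw [e, fderiv_conj_holo h1.differentiableAt, h1.deriv, mul_one, RCLike.norm_conj, norm_div,
    norm_neg, norm_one, norm_pow, one_div, inv_pow]

/-- every element of `Gf` is holomorphic or antiholomorphic on `Om`, with derivative `≠ 0` -/
theorem chart (hW : 8 ≤ W) {γ : Equiv.Perm ℂ} (hγ : γ ∈ Gf W) :
    ∃ J : ℂ → ℂ, (∀ z ∈ Om W, AnalyticAt ℂ J z ∧ deriv J z ≠ 0) ∧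
      ((∀ z, γ z = J z) ∨ (∀ z, γ z = conj (J z))) := by
  have han : ∀ δ : Equiv.Perm ℂ, δ ∈ Gg W → ∀ z ∈ Om W, AnalyticAt ℂ δ z := by
    intro δ hδ z hz
    have h1 : DifferentiableOn ℂ δ (Om W) := fun w hw =>
      (Gg_holo hW hδ hw).1.differentiableWithinAt
    exact h1.analyticAt ((isOpen_Om hW).mem_nhds hz)
  -- the derivative of an element of `Gf` is injective
  have hinj : ∀ z ∈ Om W, fderiv ℝ γ z 1 ≠ 0 := by
    intro z hz h0
    have hz' : γ z ∈ Om W := (Om_inv hγ).2 hz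
    have h1 : DifferentiableAt ℝ γ z := (Gf_smooth hW hγ hz).differentiableAt (by simp)
    have h2 : DifferentiableAt ℝ (γ⁻¹ : Equiv.Perm ℂ) (γ z) :=
      (Gf_smooth hW (inv_mem hγ) hz').differentiableAt (by simp)
    have h3 : HasFDerivAt (fun w => (γ⁻¹ : Equiv.Perm ℂ) (γ w))
        ((fderiv ℝ (γ⁻¹ : Equiv.Perm ℂ) (γ z)).comp (fderiv ℝ γ z)) z :=
      h2.hasFDerivAt.comp z h1.hasFDerivAt
    have h4 : (fun w => (γ⁻¹ : Equiv.Perm ℂ) (γ w)) = fun w => w := by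
      funext w; simp
    rw [h4] at h3
    have h5 := h3.unique (hasFDerivAt_id z)
    have h6 := congrArg (fun L : ℂ →L[ℝ] ℂ => L 1) h5
    simp only [ContinuousLinearMap.comp_apply, h0, map_zero, ContinuousLinearMap.id_apply] at h6
    exact zero_ne_one h6
  rcases Gf_cases' hγ with h | h
  · refine ⟨γ, fun z hz => ⟨han γ h z hz, ?_⟩, Or.inl fun z => rfl⟩
    intro h0
    apply hinj z hz
    rw [fderiv_holo (han γ h z hz).differentiableAt, h0, zero_mul]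
  · set δ := ivE 0 * γ with hδ
    have hγδ : γ = ivE 0 * δ := by
      rw [hδ, ← mul_assoc, ivE_mul_self, one_mul]
    have hne : ∀ z ∈ Om W, δ z ≠ 0 := by
      intro z hz h0
      have h1 : δ z ∈ Om W := (Om_inv (Gg_le h)).2 hz
      rw [h0] at h1
      have := lp_not_mem hW (0 : ℤ × ℤ)
      rw [lat_zero] at this
      exact this h1
    have hJ : ∀ z, γ z = conj ((δ z)⁻¹) := by
      intro z
      rw [hγδ]
      show ivE 0 (δ z) = _
      rw [ivE_apply]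
      simp
    refine ⟨fun z => (δ z)⁻¹, fun z hz => ?_, Or.inr hJ⟩
    have ha : AnalyticAt ℂ (fun z => (δ z)⁻¹) z := (han δ h z hz).inv (hne z hz)
    refine ⟨ha, ?_⟩
    intro h0
    apply hinj z hz
    have : (γ : ℂ → ℂ) = fun w => conj ((δ w)⁻¹) := funext hJ
    rw [this, fderiv_conj_holo ha.differentiableAt, h0]
    simp

/-- `chart` with the conformal factor -/
theorem chart_fd {γ : Equiv.Perm ℂ} {J : ℂ → ℂ}
    (hJ : (∀ z, γ z = J z) ∨ (∀ z, γ z = conj (J z))) {z : ℂ} (h : DifferentiableAt ℂ J z) (v : ℂ) :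
    ‖fderiv ℝ γ z v‖ = ‖deriv J z‖ * ‖v‖ := by
  rcases hJ with h1 | h1
  · have : (γ : ℂ → ℂ) = J := funext h1
    rw [this, fderiv_holo h, norm_mul]
  · have : (γ : ℂ → ℂ) = fun w => conj (J w) := funext h1
    rw [this, fderiv_conj_holo h, RCLike.norm_conj, norm_mul]

theorem chart_cfac {γ : Equiv.Perm ℂ} {J : ℂ → ℂ}
    (hJ : (∀ z, γ z = J z) ∨ (∀ z, γ z = conj (J z))) {z : ℂ} (h : DifferentiableAt ℂ J z) :
    cfac γ z = ‖deriv J z‖ := by
  unfold cfac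
  rw [chart_fd hJ h]
  simp

theorem conf (hW : 8 ≤ W) {γ : Equiv.Perm ℂ} (hγ : γ ∈ Gf W) {z : ℂ} (hz : z ∈ Om W) (v : ℂ) :
    ‖fderiv ℝ γ z v‖ = cfac γ z * ‖v‖ := by
  obtain ⟨J, hJ1, hJ2⟩ := chart hW hγ
  rw [chart_fd hJ2 (hJ1 z hz).1.differentiableAt, chart_cfac hJ2 (hJ1 z hz).1.differentiableAt]

theorem cfac_mul (hW : 8 ≤ W) {γ δ : Equiv.Perm ℂ} (hγ : γ ∈ Gf W) (hδ : δ ∈ Gf W) {z : ℂ}
    (hz : z ∈ Om W) : cfac (γ * δ : Equiv.Perm ℂ) z = cfac γ (δ z) * cfac δ z := by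
  have hz' : δ z ∈ Om W := (Om_inv hδ).2 hz
  have h1 : DifferentiableAt ℝ δ z := (Gf_smooth hW hδ hz).differentiableAt (by simp)
  have h2 : DifferentiableAt ℝ γ (δ z) := (Gf_smooth hW hγ hz').differentiableAt (by simp)
  have h3 : HasFDerivAt ((γ * δ : Equiv.Perm ℂ) : ℂ → ℂ)
      ((fderiv ℝ γ (δ z)).comp (fderiv ℝ δ z)) z := h2.hasFDerivAt.comp z h1.hasFDerivAt
  have e : cfac (γ * δ : Equiv.Perm ℂ) z = ‖fderiv ℝ γ (δ z) (fderiv ℝ δ z 1)‖ := by
    unfold cfac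
    rw [h3.fderiv]
    rfl
  rw [e, conf hW hγ hz']
  rfl

theorem cfac_pos (hW : 8 ≤ W) {γ : Equiv.Perm ℂ} (hγ : γ ∈ Gf W) {z : ℂ} (hz : z ∈ Om W) :
    0 < cfac γ z := by
  obtain ⟨J, hJ1, hJ2⟩ := chart hW hγ
  rw [chart_cfac hJ2 (hJ1 z hz).1.differentiableAt]
  exact norm_pos_iff.2 (hJ1 z hz).2

/-- the logarithm of the conformal factor is smooth and harmonic -/
theorem log_cfac (hW : 8 ≤ W) {γ : Equiv.Perm ℂ} (hγ : γ ∈ Gf W) {z : ℂ} (hz : z ∈ Om W) :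
    ContDiffAt ℝ ∞ (fun w => Real.log (cfac γ w)) z ∧
      lap (fun w => Real.log (cfac γ w)) z = 0 := by
  obtain ⟨J, hJ1, hJ2⟩ := chart hW hγ
  have hE : (fun w => Real.log (cfac γ w)) =ᶠ[𝓝 z] fun w => Real.log ‖deriv J w‖ := by
    filter_upwards [(isOpen_Om hW).mem_nhds hz] with w hw
    rw [chart_cfac hJ2 (hJ1 w hw).1.differentiableAt]
  have ha : AnalyticAt ℂ (deriv J) z := (hJ1 z hz).1.deriv
  have h0 : deriv J z ≠ 0 := (hJ1 z hz).2
  constructor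
  · have h1 : ContDiffAt ℝ ∞ (deriv J) z := (ha.contDiffAt (n := ∞)).restrict_scalars ℝ
    exact ((h1.norm ℝ h0).log (norm_ne_zero_iff.2 h0)).congr_of_eventuallyEq hE
  · rw [M0_lap_congr hE]
    exact (lap_log_norm ha h0).2

/-- the Laplacian of a composition -/
theorem lap_comp (hW : 8 ≤ W) {γ : Equiv.Perm ℂ} (hγ : γ ∈ Gf W) {z : ℂ} (hz : z ∈ Om W)
    {f : ℂ → ℝ} (hf : ContDiffAt ℝ 2 f (γ z)) :
    lap (fun w => f (γ w)) z = cfac γ z ^ 2 * lap f (γ z) := by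
  obtain ⟨J, hJ1, hJ2⟩ := chart hW hγ
  rw [chart_cfac hJ2 (hJ1 z hz).1.differentiableAt]
  rcases hJ2 with h1 | h1
  · have e : (γ : ℂ → ℂ) = J := funext h1
    rw [e] at hf ⊢
    exact lap_comp_holo hf (hJ1 z hz).1
  · have e : (γ : ℂ → ℂ) = fun w => conj (J w) := funext h1
    rw [e] at hf ⊢
    have hf' : ContDiffAt ℝ 2 (fun w => f (conj w)) (J z) :=
      ContDiffAt.comp (g := f) (J z) hf Complex.conjCLE.contDiff.contDiffAt
    have h2 := lap_comp_holo (f := fun w => f (conj w)) hf' (hJ1 z hz).1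
    rw [h2, lap_comp_conj hf]

end

end Pool.Agent.Lib_helper83.EQG.M01

namespace Pool.Agent.EQ

open MeasureTheory Filter Topology Set SP
open scoped ContDiff ComplexConjugate

noncomputable section

variable {W : ℕ}

theorem cfac_tr (q z : ℂ) : cfac (trE q) z = 1 :=
  Pool.Agent.Lib_helper83.EQG.M01.cfac_tr q z

theorem cfac_iv {l z : ℂ} (h : z ≠ l) : cfac (ivE l) z = ‖z - l‖⁻¹ ^ 2 :=
  Pool.Agent.Lib_helper83.EQG.M01.cfac_iv h

theorem conf (hW : 8 ≤ W) {γ : Equiv.Perm ℂ} (hγ : γ ∈ Gf W) {z : ℂ} (hz : z ∈ Om W) (v : ℂ) :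
    ‖fderiv ℝ γ z v‖ = cfac γ z * ‖v‖ :=
  Pool.Agent.Lib_helper83.EQG.M01.conf hW hγ hz v

theorem cfac_mul (hW : 8 ≤ W) {γ δ : Equiv.Perm ℂ} (hγ : γ ∈ Gf W) (hδ : δ ∈ Gf W) {z : ℂ}
    (hz : z ∈ Om W) : cfac (γ * δ : Equiv.Perm ℂ) z = cfac γ (δ z) * cfac δ z :=
  Pool.Agent.Lib_helper83.EQG.M01.cfac_mul hW hγ hδ hz

theorem cfac_pos (hW : 8 ≤ W) {γ : Equiv.Perm ℂ} (hγ : γ ∈ Gf W) {z : ℂ} (hz : z ∈ Om W) :
    0 < cfac γ z :=
  Pool.Agent.Lib_helper83.EQG.M01.cfac_pos hW hγ hz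

theorem log_cfac (hW : 8 ≤ W) {γ : Equiv.Perm ℂ} (hγ : γ ∈ Gf W) {z : ℂ} (hz : z ∈ Om W) :
    ContDiffAt ℝ ∞ (fun w => Real.log (cfac γ w)) z ∧
      lap (fun w => Real.log (cfac γ w)) z = 0 :=
  Pool.Agent.Lib_helper83.EQG.M01.log_cfac hW hγ hz

theorem lap_comp (hW : 8 ≤ W) {γ : Equiv.Perm ℂ} (hγ : γ ∈ Gf W) {z : ℂ} (hz : z ∈ Om W)
    {f : ℂ → ℝ} (hf : ContDiffAt ℝ 2 f (γ z)) :
    lap (fun w => f (γ w)) z = cfac γ z ^ 2 * lap f (γ z) :=
  Pool.Agent.Lib_helper83.EQG.M01.lap_comp hW hγ hz hf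

end

end Pool.Agent.EQ

end

/-! ## Lib_helper83.GW.M02B -/

section

set_option autoImplicit false
set_option linter.unusedVariables false

namespace Pool.Agent.Lib_helper89.EQG.M02B

open Pool.Agent.EQ
open MeasureTheory Filter Topology Set Pool.Agent.EQ.SP
open scoped ContDiff ComplexConjugate

noncomputable section

variable {W : ℕ} {F : ℝ → ℝ}

theorem m02b_key (hW : 8 ≤ W) {γ δ : Equiv.Perm ℂ} (hγ : γ ∈ Gf W) (hδ : δ ∈ Gf W) {z : ℂ}
    (hz : z ∈ Om W) (h1 : γ z ∈ EE W) (h2 : δ z ∈ EE W) :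
    uE F W (γ z) + Real.log (cfac γ z) = uE F W (δ z) + Real.log (cfac δ z) := by
  have hε : δ * γ⁻¹ ∈ Gf W := (Gf W).mul_mem hδ ((Gf W).inv_mem hγ)
  have e1 : (δ * γ⁻¹) (γ z) = δ z := by
    simp [Equiv.Perm.mul_apply]
  have e2 : δ * γ⁻¹ * γ = δ := by group
  have hγz : γ z ∈ Om W := (Om_inv hγ).2 hz
  have e3 : cfac δ z = cfac (δ * γ⁻¹ : Equiv.Perm ℂ) (γ z) * cfac γ z := by
    conv_lhs => rw [← e2]
    exact cfac_mul hW hε hγ hz
  rcases stab_EE hW hε h1 (by rw [e1]; exact h2) with ⟨q, hq⟩ | ⟨p, q, hq, hn⟩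
  · have e4 : cfac (δ * γ⁻¹ : Equiv.Perm ℂ) (γ z) = 1 := by rw [hq]; exact cfac_tr _ _
    have e5 : δ z = γ z + lat W q := by
      rw [← e1, hq]
      rfl
    rw [e3, e4, one_mul, e5, uE_add]
  · have e5 : δ z = γ z + lat W q := by
      rw [← e1, hq, Equiv.Perm.mul_apply, trE_apply]
      exact ivE_circle hn
    have hne : γ z + lat W q ≠ lat W p := by
      intro h
      rw [h, sub_self, norm_zero] at hn
      exact zero_ne_one hn
    have e4 : cfac (δ * γ⁻¹ : Equiv.Perm ℂ) (γ z) = 1 := by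
      rw [hq, cfac_mul hW (ivE_mem p) (trE_mem q) hγz, cfac_tr, mul_one, trE_apply,
        cfac_iv hne, hn]
      norm_num
    rw [e3, e4, one_mul, e5, uE_add]

theorem m02b_eq (hW : 8 ≤ W) {δ : Equiv.Perm ℂ} (hδ : δ ∈ Gf W) {z : ℂ}
    (hz : z ∈ Om W) (h2 : δ z ∈ EE W) :
    uu F W z = uE F W (δ z) + Real.log (cfac δ z) := by
  have h : ∃ γ ∈ Gf W, γ z ∈ EE W := ⟨δ, hδ, h2⟩
  have e : uu F W z = uE F W (h.choose z) + Real.log (cfac h.choose z) := by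
    unfold uu
    rw [dif_pos h]
  rw [e]
  exact m02b_key hW h.choose_spec.1 hδ hz h.choose_spec.2 h2

/-- the law of the metric: the elements of `Gf` are isometries -/
theorem uu_law (hW : 8 ≤ W) {γ : Equiv.Perm ℂ} (hγ : γ ∈ Gf W) {z : ℂ} (hz : z ∈ Om W) :
    uu F W (γ z) + Real.log (cfac γ z) = uu F W z := by
  have hγz : γ z ∈ Om W := (Om_inv hγ).2 hz
  obtain ⟨δ, hδ, h⟩ := id hγz
  rw [m02b_eq hW hδ hγz h, m02b_eq hW ((Gf W).mul_mem hδ hγ) hz (by exact h),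
    cfac_mul hW hδ hγ hz, Real.log_mul (cfac_pos hW hδ hγz).ne' (cfac_pos hW hγ hz).ne', add_assoc]
  rfl

theorem uu_eq (hF : Prof F) (hW : 8 ≤ W) {z : ℂ} (hz : z ∈ UU W (Real.exp (-1))) : uu F W z = uE F W z := by
  have h6 : (1 : ℝ) / 6 ≤ Real.exp (-1) := by
    rw [Real.exp_neg, one_div]
    apply inv_anti₀ (Real.exp_pos 1)
    have := Real.exp_one_lt_d9
    linarith
  have hz6 : z ∈ UU W (1 / 6) := lt_of_le_of_lt h6 hz
  have hzO : z ∈ Om W := UU_sub_Om hW le_rfl hz6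
  rcases UU_cases hW hz6 with h | ⟨p, hp1, hp2, hp3⟩
  · rw [m02b_eq hW (Gf W).one_mem hzO h]
    have e1 : cfac (1 : Equiv.Perm ℂ) z = 1 := by
      rw [← trE_zero]
      exact cfac_tr 0 z
    rw [e1, Real.log_one, add_zero]
    rfl
  · rw [m02b_eq hW (ivE_mem p) hzO hp3]
    have hr : 0 < ‖z - lat W p‖ := by linarith
    have hne : z ≠ lat W p := by
      intro h
      rw [h, sub_self, norm_zero] at hr
      exact lt_irrefl _ hr
    have h4 : ‖ivE (lat W p) z - lat W p‖ < 4 := by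
      rw [norm_ivE_sub]
      have h5 := (lt_dl_iff hW).1 hz p
      have h7 : ‖z - lat W p‖⁻¹ < (Real.exp (-1))⁻¹ :=
        inv_strictAnti₀ (Real.exp_pos _) h5
      rw [← Real.exp_neg, neg_neg] at h7
      have := Real.exp_one_lt_d9
      linarith
    have h8 : ‖z - lat W p‖ ≤ 4 := by linarith
    unfold uE
    rw [dl_eq hW h4.le, dl_eq hW h8, norm_ivE_sub, cfac_iv hne,
      Real.log_pow, Real.log_inv, hF.even]
    push_cast
    ring

theorem uu_smooth (hF : Prof F) (hW : 8 ≤ W) : ContDiffOn ℝ ∞ (uu F W) (Om W) := by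
  intro z hz
  apply ContDiffAt.contDiffWithinAt
  obtain ⟨γ, hγ, h⟩ := id hz
  have hsm := Gf_smooth hW hγ hz
  have h1 : γ z ∈ UU W (Real.exp (-1)) := EE_sub_UU (by
    rw [Real.exp_lt_one_iff]
    norm_num) h
  have hop : IsOpen (UU W (Real.exp (-1))) := isOpen_lt continuous_const (dl_cont W)
  have h2 : ∀ᶠ w in 𝓝 z, γ w ∈ UU W (Real.exp (-1)) :=
    hsm.continuousAt.eventually_mem (hop.mem_nhds h1)
  have h3 : ∀ᶠ w in 𝓝 z, w ∈ Om W := (isOpen_Om hW).mem_nhds hz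
  have h4 : uu F W =ᶠ[𝓝 z] fun w => uE F W (γ w) + Real.log (cfac γ w) := by
    filter_upwards [h2, h3] with w h5 h6
    rw [← Pool.Agent.Lib_helper89.EQG.M02B.uu_law hW hγ h6, Pool.Agent.Lib_helper89.EQG.M02B.uu_eq hF hW h5]
  refine ContDiffAt.congr_of_eventuallyEq ?_ h4
  have hne : 0 < dl W (γ z) := lt_of_lt_of_le one_pos h
  exact ((uE_smooth hF hW hne).comp z hsm).add (log_cfac hW hγ hz).1

end

end Pool.Agent.Lib_helper89.EQG.M02B

namespace Pool.Agent.EQ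

open MeasureTheory Filter Topology Set SP
open scoped ContDiff ComplexConjugate

noncomputable section

variable {W : ℕ} {F : ℝ → ℝ}

theorem uu_law (hW : 8 ≤ W) {γ : Equiv.Perm ℂ} (hγ : γ ∈ Gf W) {z : ℂ} (hz : z ∈ Om W) :
    uu F W (γ z) + Real.log (cfac γ z) = uu F W z :=
  Pool.Agent.Lib_helper89.EQG.M02B.uu_law hW hγ hz

theorem uu_eq (hF : Prof F) (hW : 8 ≤ W) {z : ℂ} (hz : z ∈ UU W (Real.exp (-1))) : uu F W z = uE F W z :=
  Pool.Agent.Lib_helper89.EQG.M02B.uu_eq hF hW hz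

theorem uu_smooth (hF : Prof F) (hW : 8 ≤ W) : ContDiffOn ℝ ∞ (uu F W) (Om W) :=
  Pool.Agent.Lib_helper89.EQG.M02B.uu_smooth hF hW

end

end Pool.Agent.EQ

end

/-! ## Lib_helper83.GW.M03 -/

section

/-! Project EQ, package G, block M03: curvature. -/

set_option autoImplicit false
set_option linter.unusedVariables false

namespace Pool.Agent.Lib_helper83.EQG.M03

open MeasureTheory Filter Topology Set Pool.Agent.EQ Pool.Agent.EQ.SP
open scoped ContDiff ComplexConjugate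

noncomputable section

variable {W : ℕ} {F : ℝ → ℝ}

theorem kk_law (hF : Prof F) (hW : 8 ≤ W) {γ : Equiv.Perm ℂ} (hγ : γ ∈ Gf W) {z : ℂ}
    (hz : z ∈ Om W) : kk (uu F W) (γ z) = kk (uu F W) z := by
  have hz' : γ z ∈ Om W := (Om_inv hγ).2 hz
  have hE : uu F W =ᶠ[𝓝 z] fun w => uu F W (γ w) + Real.log (cfac γ w) := by
    filter_upwards [(isOpen_Om hW).mem_nhds hz] with w hw
    exact (uu_law hW hγ hw).symm
  have h1 : ContDiffAt ℝ ∞ (uu F W) (γ z) :=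
    (uu_smooth hF hW).contDiffAt ((isOpen_Om hW).mem_nhds hz')
  have h1' : ContDiffAt ℝ 2 (uu F W) (γ z) := by exact_mod_cast contDiffAt_infty.1 h1 2
  have h2 : ContDiffAt ℝ ∞ (fun w => uu F W (γ w)) z := h1.comp z (Gf_smooth hW hγ hz)
  have h2' : ContDiffAt ℝ 2 (fun w => uu F W (γ w)) z := by
    exact_mod_cast contDiffAt_infty.1 h2 2
  have h3 := log_cfac hW hγ hz
  have h3' : ContDiffAt ℝ 2 (fun w => Real.log (cfac γ w)) z := by
    exact_mod_cast contDiffAt_infty.1 h3.1 2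
  have h4 : lap (uu F W) z = cfac γ z ^ 2 * lap (uu F W) (γ z) := by
    rw [M0_lap_congr hE, M0_lap_eq (h2'.add h3')]
    have h5 : Laplacian.laplacian ((fun w => uu F W (γ w)) + fun w => Real.log (cfac γ w)) z = _ :=
      h2'.laplacian_add h3'
    rw [← M0_lap_eq h2', ← M0_lap_eq h3', h3.2, add_zero, lap_comp hW hγ hz h1'] at h5
    exact h5
  have hc : 0 < cfac γ z := cfac_pos hW hγ hz
  unfold kk
  rw [h4, ← uu_law hW hγ hz]
  have h6 : Real.exp (-2 * (uu F W (γ z) + Real.log (cfac γ z))) =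
      Real.exp (-2 * uu F W (γ z)) * (cfac γ z ^ 2)⁻¹ := by
    have : -2 * (uu F W (γ z) + Real.log (cfac γ z)) =
        -2 * uu F W (γ z) - (Real.log (cfac γ z) + Real.log (cfac γ z)) := by ring
    rw [this, Real.exp_sub, Real.exp_add, Real.exp_log hc, div_eq_mul_inv, sq]
  rw [h6]
  field_simp

theorem uu_nhds (hF : Prof F) (hW : 8 ≤ W) {z : ℂ} (hz : z ∈ UU W (Real.exp (-1))) :
    uu F W =ᶠ[𝓝 z] uE F W := by
  filter_upwards [(isOpen_UU W (Real.exp (-1))).mem_nhds hz] with w hw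
  exact uu_eq hF hW hw

theorem kk_eq (hF : Prof F) (hW : 8 ≤ W) {z : ℂ} (hz : z ∈ UU W (Real.exp (-1))) :
    kk (uu F W) z =
      Real.exp (-2 * F (Real.log (dl W z))) * deriv (deriv F) (Real.log (dl W z)) := by
  have h0 : 0 < dl W z := lt_trans (Real.exp_pos _) hz
  have h1 := uu_nhds hF hW hz
  rw [← uE_kk hF hW h0]
  unfold kk
  rw [M0_lap_congr h1, h1.eq_of_nhds]

theorem exp_neg_one_lt_one : Real.exp (-1) < 1 := by
  rw [Real.exp_lt_one_iff]
  norm_num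

theorem uu_flat (hF : Prof F) (hW : 8 ≤ W) {z : ℂ} (h : Real.exp 1 ≤ dl W z) :
    uu F W z = 0 ∧ fderiv ℝ (uu F W) z = 0 := by
  have h2 : (1 : ℝ) < Real.exp 1 := Real.one_lt_exp_iff.2 one_pos
  have hz : z ∈ UU W (Real.exp (-1)) :=
    lt_of_lt_of_le (lt_trans exp_neg_one_lt_one h2) h
  have h1 := uu_nhds hF hW hz
  exact ⟨by rw [h1.eq_of_nhds, uE_flat hF h], by rw [h1.fderiv_eq, uE_fderiv_zero hF hW h]⟩

theorem kk_nonneg (hF : Prof F) (hW : 8 ≤ W) {z : ℂ} (hz : z ∈ Om W) : 0 ≤ kk (uu F W) z := by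
  obtain ⟨γ, hγ, hE⟩ := hz
  have hz' : z ∈ Om W := ⟨γ, hγ, hE⟩
  rw [← kk_law hF hW hγ hz', kk_eq hF hW (EE_sub_UU exp_neg_one_lt_one hE)]
  exact mul_nonneg (Real.exp_pos _).le (hF.dd_nonneg _)

theorem kk_pos (hF : Prof F) (hW : 8 ≤ W) {z : ℂ} (hz : z ∈ Neck W 1) : 0 < kk (uu F W) z := by
  obtain ⟨γ, hγ, h1, h2⟩ := hz
  have h4 : ‖γ z - lat W 0‖ ≤ 4 := by
    rw [lat_zero, sub_zero]
    linarith [exp_one_lt_four]
  have h5 : dl W (γ z) = ‖γ z‖ := by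
    rw [dl_eq hW h4, lat_zero, sub_zero]
  have h6 : γ z ∈ UU W (Real.exp (-1)) := by
    show Real.exp (-1) < dl W (γ z)
    rw [h5]
    exact h1
  have h7 : (1 : ℝ) / 6 ≤ Real.exp (-1) := by
    rw [Real.exp_neg, one_div]
    apply inv_anti₀ (Real.exp_pos _)
    linarith [exp_one_lt_four]
  have hz' : z ∈ Om W := (Om_inv hγ).1 (UU_sub_Om hW h7 h6)
  have h8 : 0 < ‖γ z‖ := lt_trans (Real.exp_pos _) h1
  rw [← kk_law hF hW hγ hz', kk_eq hF hW h6, h5]
  refine mul_pos (Real.exp_pos _) (hF.conv _ ?_)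
  rw [abs_lt]
  constructor
  · rw [Real.lt_log_iff_exp_lt h8]
    exact h1
  · rw [Real.log_lt_iff_lt_exp h8]
    exact h2

end

end Pool.Agent.Lib_helper83.EQG.M03

namespace Pool.Agent.EQ

open MeasureTheory Filter Topology Set SP
open scoped ContDiff ComplexConjugate

noncomputable section

variable {W : ℕ} {F : ℝ → ℝ}

theorem kk_law (hF : Prof F) (hW : 8 ≤ W) {γ : Equiv.Perm ℂ} (hγ : γ ∈ Gf W) {z : ℂ} (hz : z ∈ Om W) :
    kk (uu F W) (γ z) = kk (uu F W) z :=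
  Pool.Agent.Lib_helper83.EQG.M03.kk_law hF hW hγ hz

theorem kk_eq (hF : Prof F) (hW : 8 ≤ W) {z : ℂ} (hz : z ∈ UU W (Real.exp (-1))) :
    kk (uu F W) z = Real.exp (-2 * F (Real.log (dl W z))) * deriv (deriv F) (Real.log (dl W z)) :=
  Pool.Agent.Lib_helper83.EQG.M03.kk_eq hF hW hz

theorem uu_flat (hF : Prof F) (hW : 8 ≤ W) {z : ℂ} (h : Real.exp 1 ≤ dl W z) :
    uu F W z = 0 ∧ fderiv ℝ (uu F W) z = 0 :=
  Pool.Agent.Lib_helper83.EQG.M03.uu_flat hF hW h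

theorem kk_nonneg (hF : Prof F) (hW : 8 ≤ W) {z : ℂ} (hz : z ∈ Om W) : 0 ≤ kk (uu F W) z :=
  Pool.Agent.Lib_helper83.EQG.M03.kk_nonneg hF hW hz

theorem kk_pos (hF : Prof F) (hW : 8 ≤ W) {z : ℂ} (hz : z ∈ Neck W 1) : 0 < kk (uu F W) z :=
  Pool.Agent.Lib_helper83.EQG.M03.kk_pos hF hW hz

end

end Pool.Agent.EQ

end

/-! ## Lib_helper83.GW.M04 -/

section

/-! Project EQ, package G, block M04 (helper28): necks. -/

set_option autoImplicit false
set_option linter.unusedVariables false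

namespace Pool.Agent.Lib_helper28.EQG.M04

open Pool.Agent.EQ
open MeasureTheory Filter Topology Set SP
open scoped ContDiff ComplexConjugate

noncomputable section

variable {W : ℕ}

theorem M04_norm_iv (z : ℂ) : ‖ivE 0 z‖ = ‖z‖⁻¹ := by
  have := norm_ivE_sub 0 z
  simpa using this

theorem M04_sep (hW : 8 ≤ W) {p : ℤ × ℤ} (hp : p ≠ 0) : 8 ≤ ‖lat W p‖ := by
  have hW' : (8:ℝ) ≤ W := by exact_mod_cast hW
  obtain ⟨m, n⟩ := p
  by_cases hm : m = 0
  · have hn : n ≠ 0 := by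
      rintro rfl; apply hp; rw [hm]; rfl
    refine le_trans ?_ (Complex.abs_im_le_norm _)
    have e : (lat W (m, n)).im = W * n := rfl
    rw [e, abs_mul, abs_of_nonneg (by linarith : (0:ℝ) ≤ W)]
    have h1 : (1 : ℝ) ≤ |(n : ℝ)| := by exact_mod_cast Int.one_le_abs hn
    nlinarith
  · refine le_trans ?_ (Complex.abs_re_le_norm _)
    have e : (lat W (m, n)).re = 8 * m := rfl
    rw [e, abs_mul, abs_of_nonneg (by norm_num : (0:ℝ) ≤ 8)]
    have h1 : (1 : ℝ) ≤ |(m : ℝ)| := by exact_mod_cast Int.one_le_abs hm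
    nlinarith

theorem M04_far (hW : 8 ≤ W) {δ : ℝ} (h1 : δ ≤ 1) {z : ℂ} (hz : ‖z‖ < Real.exp δ) {p : ℤ × ℤ}
    (hp : p ≠ 0) : 5 ≤ ‖z - lat W p‖ := by
  have e1 := M04_sep hW hp
  have e2 : Real.exp δ ≤ Real.exp 1 := Real.exp_le_exp.mpr h1
  have e3 := Real.exp_one_lt_d9
  have e4 : ‖lat W p‖ ≤ ‖z - lat W p‖ + ‖z‖ := by
    have := norm_sub_norm_le (lat W p) z
    rw [norm_sub_rev] at this
    linarith
  linarith

theorem M04_Ann_Er (hW : 8 ≤ W) {δ : ℝ} (h1 : δ ≤ 1) : Ann δ ⊆ UU W (1 / 6) := by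
  intro z hz
  apply (lt_dl_iff hW).mpr
  intro p
  by_cases hp : p = 0
  · rw [hp, lat_zero, sub_zero]
    have e1 : Real.exp (-1) ≤ Real.exp (-δ) := Real.exp_le_exp.mpr (by linarith)
    have e3 := Real.exp_one_lt_d9
    have e4 : (1 : ℝ) / 6 < Real.exp (-1) := by
      rw [Real.exp_neg, lt_inv_comm₀ (by norm_num) (Real.exp_pos 1)]
      norm_num
      linarith
    linarith [hz.1]
  · linarith [M04_far hW h1 hz.2 hp]

theorem M04_isOpen_Ann (δ : ℝ) : IsOpen (Ann δ) :=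
  (isOpen_lt continuous_const continuous_norm).inter (isOpen_lt continuous_norm continuous_const)

theorem M04_iv_Ann {δ : ℝ} {z : ℂ} (hz : z ∈ Ann δ) : ivE 0 z ∈ Ann δ := by
  have h0 : 0 < ‖z‖ := lt_trans (Real.exp_pos _) hz.1
  constructor
  · show Real.exp (-δ) < ‖ivE 0 z‖
    rw [M04_norm_iv, Real.exp_neg]
    exact inv_strictAnti₀ h0 hz.2
  · show ‖ivE 0 z‖ < Real.exp δ
    rw [M04_norm_iv, inv_lt_comm₀ h0 (Real.exp_pos _), ← Real.exp_neg]
    exact hz.1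

theorem Neck_sub (hW : 8 ≤ W) {δ : ℝ} (h1 : δ ≤ 1) : Neck W δ ⊆ Om W := by
  rintro z ⟨γ, hγ, h⟩
  exact (Om_inv hγ).mp (UU_sub_Om hW le_rfl (M04_Ann_Er hW h1 h))

theorem isOpen_Neck (hW : 8 ≤ W) {δ : ℝ} (h1 : δ ≤ 1) : IsOpen (Neck W δ) := by
  rw [isOpen_iff_mem_nhds]
  rintro z ⟨γ, hγ, h⟩
  have hz : z ∈ Om W := Neck_sub hW h1 ⟨γ, hγ, h⟩
  have hc : ContinuousAt γ z := (Gf_smooth hW hγ hz).continuousAt
  filter_upwards [hc.preimage_mem_nhds ((M04_isOpen_Ann δ).mem_nhds h)] with w hw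
  exact ⟨γ, hγ, hw⟩

theorem Neck_inv {δ : ℝ} {γ : Equiv.Perm ℂ} (hγ : γ ∈ Gf W) {z : ℂ} :
    γ z ∈ Neck W δ ↔ z ∈ Neck W δ := by
  constructor
  · rintro ⟨γ', hγ', h⟩
    exact ⟨γ' * γ, mul_mem hγ' hγ, h⟩
  · rintro ⟨γ', hγ', h⟩
    refine ⟨γ' * γ⁻¹, mul_mem hγ' (inv_mem hγ), ?_⟩
    have : (γ' * γ⁻¹) (γ z) = γ' z := by simp
    rw [this]
    exact h

/-- every neck is an image of the first one under `Gg` -/
theorem Neck_Gg {δ : ℝ} {z : ℂ} (hz : z ∈ Neck W δ) : ∃ γ ∈ Gg W, γ z ∈ Ann δ := by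
  obtain ⟨γ, hγ, h⟩ := hz
  rcases Gf_cases' hγ with h' | h'
  · exact ⟨γ, h', h⟩
  · exact ⟨ivE 0 * γ, h', M04_iv_Ann h⟩

theorem M04_aux (hW : 8 ≤ W) {δ : ℝ} (h1 : δ ≤ 1) {z : ℂ} (hz : z ∈ EE W) {γ : Equiv.Perm ℂ}
    (hγ : γ ∈ Gf W) (h : ‖γ z‖ < Real.exp δ) (h' : 1 ≤ ‖γ z‖) : ∃ p, ‖z - lat W p‖ < Real.exp δ := by
  have hw : γ z ∈ EE W := by
    rw [mem_EE_iff]
    intro p
    by_cases hp : p = 0
    · rw [hp, lat_zero, sub_zero]; exact h'
    · linarith [M04_far hW h1 h hp]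
  have key : ∀ q : ℤ × ℤ, γ z = z + lat W q → ∃ p, ‖z - lat W p‖ < Real.exp δ := by
    intro q hq
    refine ⟨-q, ?_⟩
    rw [lat_neg, sub_neg_eq_add, ← hq]
    exact h
  rcases stab_EE hW hγ hz hw with ⟨q, rfl⟩ | ⟨p, q, rfl, hc⟩
  · exact key q (trE_apply _ _)
  · apply key q
    show ivE (lat W p) (z + lat W q) = z + lat W q
    exact ivE_circle hc

/-- the members of the tile outside of the necks -/
theorem EE_Neck (hW : 8 ≤ W) {δ : ℝ} (h0 : 0 < δ) (h1 : δ ≤ 1) {z : ℂ} (hz : z ∈ EE W) :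
    z ∈ Neck W δ ↔ dl W z < Real.exp δ := by
  have hdl : dl W z < Real.exp δ ↔ ∃ p, ‖z - lat W p‖ < Real.exp δ := by
    constructor
    · exact exists_of_dl_lt
    · rintro ⟨p, hp⟩
      exact lt_of_le_of_lt (le_dl_iff.mp le_rfl p) hp
  rw [hdl]
  constructor
  · rintro ⟨γ, hγ, h⟩
    by_cases hc : 1 ≤ ‖γ z‖
    · exact M04_aux hW h1 hz hγ h.2 hc
    · have hp : 0 < ‖γ z‖ := lt_trans (Real.exp_pos _) h.1
      have h3 : 1 ≤ ‖(ivE 0 * γ) z‖ := by
        show 1 ≤ ‖ivE 0 (γ z)‖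
        rw [M04_norm_iv]
        exact (one_le_inv₀ hp).mpr (not_le.mp hc).le
      exact M04_aux hW h1 hz (mul_mem ivE_zero_mem hγ) (M04_iv_Ann h).2 h3
  · rintro ⟨p, hp⟩
    refine ⟨trE (lat W (-p)), trE_mem _, ?_⟩
    rw [trE_apply, lat_neg, ← sub_eq_add_neg]
    refine ⟨?_, hp⟩
    have e1 := mem_EE_iff.mp hz p
    have e2 : Real.exp (-δ) < 1 := by
      rw [← Real.exp_zero]
      exact Real.exp_lt_exp.mpr (by linarith)
    linarith

/-- the frontier of the necks is a null set in `Om` -/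
theorem Neck_frontier (hW : 8 ≤ W) {δ : ℝ} (h0 : 0 < δ) (h1 : δ ≤ 1) :
    volume (frontier (Neck W δ) ∩ Om W) = 0 := by
  have hsub : frontier (Neck W δ) ∩ Om W ⊆
      ⋃ γ : Gf W, (((γ : Equiv.Perm ℂ)⁻¹ : Equiv.Perm ℂ) : ℂ → ℂ) ''
        (Metric.sphere (0 : ℂ) (Real.exp δ) ∩ Om W) := by
    rintro z ⟨hzf, hzO⟩
    obtain ⟨γ, hγ, hy⟩ := hzO
    have hopen := isOpen_Neck hW h1
    have hnot : ∀ p, Real.exp δ ≤ ‖γ z - lat W p‖ := by
      by_contra hcon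
      push Not at hcon
      obtain ⟨p, hp⟩ := hcon
      have hN : γ z ∈ Neck W δ := (EE_Neck hW h0 h1 hy).mpr
        (lt_of_le_of_lt (le_dl_iff.mp le_rfl p) hp)
      have hzN : z ∈ Neck W δ := (Neck_inv hγ).mp hN
      have : z ∈ interior (Neck W δ) := by rwa [hopen.interior_eq]
      exact hzf.2 this
    have hex : ∃ p, ‖γ z - lat W p‖ ≤ Real.exp δ := by
      by_contra hcon
      push Not at hcon
      have hc : ContinuousAt γ z := (Gf_smooth hW hγ ⟨γ, hγ, hy⟩).continuousAt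
      have hmem : γ z ∈ UU W (Real.exp δ) := (lt_dl_iff hW).mpr hcon
      have hnb := hc.preimage_mem_nhds ((isOpen_UU W (Real.exp δ)).mem_nhds hmem)
      have hcl := hzf.1
      rw [mem_closure_iff_nhds] at hcl
      obtain ⟨w, hw1, hw2⟩ := hcl _ hnb
      have hw1' : ∀ p, Real.exp δ < ‖γ w - lat W p‖ := (lt_dl_iff hW).mp hw1
      have hwE : γ w ∈ EE W := by
        rw [mem_EE_iff]
        intro p
        have := hw1' p
        have e2 : 1 ≤ Real.exp δ := by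
          rw [← Real.exp_zero]
          exact Real.exp_le_exp.mpr h0.le
        linarith
      have hlt := (EE_Neck hW h0 h1 hwE).mp ((Neck_inv hγ).mpr hw2)
      have hgt : Real.exp δ < dl W (γ w) := hw1
      linarith
    obtain ⟨p, hp⟩ := hex
    have heq : ‖γ z - lat W p‖ = Real.exp δ := le_antisymm hp (hnot p)
    set γ' : Equiv.Perm ℂ := trE (lat W (-p)) * γ with hγ'
    have hγ'm : γ' ∈ Gf W := mul_mem (trE_mem _) hγ
    have hγ'z : γ' z = γ z - lat W p := by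
      rw [hγ']
      show trE (lat W (-p)) (γ z) = _
      rw [trE_apply, lat_neg, ← sub_eq_add_neg]
    rw [mem_iUnion]
    refine ⟨⟨γ', hγ'm⟩, γ' z, ⟨?_, ?_⟩, ?_⟩
    · rw [mem_sphere_zero_iff_norm, hγ'z]; exact heq
    · exact (Om_inv hγ'm).mpr ⟨γ, hγ, hy⟩
    · simp
  refine measure_mono_null hsub ?_
  have : Countable (Gf W) := countable_Gf
  rw [measure_iUnion_null_iff]
  rintro ⟨γ, hγ⟩
  apply addHaar_image_eq_zero_of_differentiableOn_of_addHaar_eq_zero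
  · intro w hw
    exact ((Gf_smooth hW (inv_mem hγ) hw.2).differentiableAt (by simp)).differentiableWithinAt
  · exact measure_mono_null inter_subset_left (Measure.addHaar_sphere volume 0 _)

end

end Pool.Agent.Lib_helper28.EQG.M04

namespace Pool.Agent.EQ

open MeasureTheory Filter Topology Set SP
open scoped ContDiff ComplexConjugate

noncomputable section

variable {W : ℕ} {F : ℝ → ℝ}

theorem Neck_sub (hW : 8 ≤ W) {δ : ℝ} (h1 : δ ≤ 1) : Neck W δ ⊆ Om W :=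
  Pool.Agent.Lib_helper28.EQG.M04.Neck_sub hW h1

theorem isOpen_Neck (hW : 8 ≤ W) {δ : ℝ} (h1 : δ ≤ 1) : IsOpen (Neck W δ) :=
  Pool.Agent.Lib_helper28.EQG.M04.isOpen_Neck hW h1

theorem Neck_inv {δ : ℝ} {γ : Equiv.Perm ℂ} (hγ : γ ∈ Gf W) {z : ℂ} :
    γ z ∈ Neck W δ ↔ z ∈ Neck W δ :=
  Pool.Agent.Lib_helper28.EQG.M04.Neck_inv hγ

theorem Neck_Gg {δ : ℝ} {z : ℂ} (hz : z ∈ Neck W δ) : ∃ γ ∈ Gg W, γ z ∈ Ann δ :=
  Pool.Agent.Lib_helper28.EQG.M04.Neck_Gg hz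

theorem EE_Neck (hW : 8 ≤ W) {δ : ℝ} (h0 : 0 < δ) (h1 : δ ≤ 1) {z : ℂ} (hz : z ∈ EE W) :
    z ∈ Neck W δ ↔ dl W z < Real.exp δ :=
  Pool.Agent.Lib_helper28.EQG.M04.EE_Neck hW h0 h1 hz

theorem Neck_frontier (hW : 8 ≤ W) {δ : ℝ} (h0 : 0 < δ) (h1 : δ ≤ 1) :
    volume (frontier (Neck W δ) ∩ Om W) = 0 :=
  Pool.Agent.Lib_helper28.EQG.M04.Neck_frontier hW h0 h1

end

end Pool.Agent.EQ

end

/-! ## Lib_helper83.GW.M05 -/

section

/-! EQG block M05 (helper16). -/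

set_option autoImplicit false
set_option linter.unusedVariables false

namespace Pool.Agent.Lib_helper16.EQG.M05

open Pool.Agent.EQ
open MeasureTheory Filter Topology Set SP
open scoped ContDiff ComplexConjugate

noncomputable section

variable {W : ℕ}
variable {F : ℝ → ℝ}

theorem m05_iv (l z : ℂ) : ivE l z = ivE 0 (z - l) + l := by
  rw [ivE_apply, ivE_apply]
  simp only [zero_add, sub_zero]
  ring

theorem m05_val (hW : 8 ≤ W) (f : ℂ → ℝ) (r : ℝ) (hr : r < 1)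
    (hper : ∀ z ∈ UU W r, ∀ q, f (z + lat W q) = f z)
    (hev : ∀ z : ℂ, r < ‖z‖ → ‖z‖ < 1 → f (ivE 0 z) = f z)
    (z : ℂ) (hz : z ∈ UU W (max r (1 / 6))) : f (pr W z) = f z := by
  have hz1 : z ∈ UU W (1 / 6) := UU_anti (le_max_right _ _) hz
  have hz2 : z ∈ UU W r := UU_anti (le_max_left _ _) hz
  rcases UU_cases hW hz1 with h | ⟨p, hp1, hp2, hp3⟩
  · obtain ⟨q, hq⟩ := pr_EE hW h
    rw [hq, hper z hz2 q]
  · have hOm : z ∈ Om W := UU_sub_Om hW le_rfl hz1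
    obtain ⟨q, hq⟩ := pr_EE hW hp3
    have h1 : pr W z = ivE (lat W p) z + lat W q := by
      rw [← pr_inv hW hOm (ivE_mem p), hq]
    have hwr : ivE (lat W p) z ∈ UU W r := EE_sub_UU hr hp3
    rw [h1, hper _ hwr q, m05_iv]
    have h3 : ivE 0 (z - lat W p) ∈ EE W := by
      have h4 := EE_tr hp3 (-p)
      rw [m05_iv, lat_neg] at h4
      have : ivE 0 (z - lat W p) + lat W p + -lat W p = ivE 0 (z - lat W p) := by ring
      rwa [this] at h4
    rw [hper _ (EE_sub_UU hr h3) p]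
    rw [hev (z - lat W p) (lt_of_mem_UU hz2 p) hp2]
    have h5 := hper z hz2 (-p)
    rw [lat_neg, ← sub_eq_add_neg] at h5
    exact h5

/-- an even periodic smooth function near the tile extends to an invariant smooth function -/
theorem lift_smooth (hW : 8 ≤ W) (f : ℂ → ℝ) (r : ℝ) (hr : r < 1)
    (hf : ContDiffOn ℝ ∞ f (UU W r)) (hper : ∀ z ∈ UU W r, ∀ q, f (z + lat W q) = f z)
    (hev : ∀ z : ℂ, r < ‖z‖ → ‖z‖ < 1 → f (ivE 0 z) = f z) :
    ContDiffOn ℝ ∞ (fun z => f (pr W z)) (Om W) ∧ GfInv W (fun z => f (pr W z)) ∧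
      ∀ z ∈ UU W (max r (1 / 6)), f (pr W z) = f z := by
  have hval := m05_val hW f r hr hper hev
  have hinv : GfInv W (fun z => f (pr W z)) := by
    intro γ hγ z hz
    simp only
    rw [pr_inv hW hz hγ]
  refine ⟨?_, hinv, hval⟩
  intro z hz
  obtain ⟨γ, hγ, hγz⟩ := hz
  have hz' : z ∈ Om W := ⟨γ, hγ, hγz⟩
  have hR : max r (1 / 6) < 1 := max_lt hr (by norm_num)
  have hsm := Gf_smooth hW hγ hz'
  have hfγ : ContDiffAt ℝ ∞ f (γ z) :=
    hf.contDiffAt ((isOpen_UU W r).mem_nhds (EE_sub_UU hr hγz))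
  have hcomp : ContDiffAt ℝ ∞ (fun w => f (γ w)) z := hfγ.comp z hsm
  have hev1 : ∀ᶠ w in 𝓝 z, γ w ∈ UU W (max r (1 / 6)) :=
    hsm.continuousAt.eventually_mem ((isOpen_UU W _).mem_nhds (EE_sub_UU hR hγz))
  have hev2 : ∀ᶠ w in 𝓝 z, w ∈ Om W := (isOpen_Om hW).mem_nhds hz'
  refine (hcomp.congr_of_eventuallyEq ?_).contDiffWithinAt
  filter_upwards [hev1, hev2] with w h1 h2
  have h3 := hinv γ hγ w h2
  simp only at h3
  rw [← h3, hval _ h1]

theorem m05_dx {f g : ℂ → ℝ} {z : ℂ} (h : f =ᶠ[𝓝 z] g) : dx f =ᶠ[𝓝 z] dx g := by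
  filter_upwards [h.fderiv (𝕜 := ℝ)] with w hw
  unfold dx
  rw [hw]

theorem m05_dy {f g : ℂ → ℝ} {z : ℂ} (h : f =ᶠ[𝓝 z] g) : dy f =ᶠ[𝓝 z] dy g := by
  filter_upwards [h.fderiv (𝕜 := ℝ)] with w hw
  unfold dy
  rw [hw]

theorem m05_lap {f g : ℂ → ℝ} {z : ℂ} (h : f =ᶠ[𝓝 z] g) : lap f z = lap g z := by
  unfold lap
  rw [(m05_dx (m05_dx h)).eq_of_nhds, (m05_dy (m05_dy h)).eq_of_nhds]

/-- the eigenvalue equation on the tile implies the equation everywhere -/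
theorem eigen_lift (hW : 8 ≤ W) (g : ℂ → ℝ) (hg : ContDiffOn ℝ ∞ g (Om W)) (hi : GfInv W g)
    (lam : ℝ) (h : ∀ z ∈ EE W, -lap g z = lam * Real.exp (2 * uu F W z) * g z) :
    ∀ z ∈ Om W, -lap g z = lam * Real.exp (2 * uu F W z) * g z := by
  intro z hz
  obtain ⟨γ, hγ, hγz⟩ := hz
  have hz' : z ∈ Om W := ⟨γ, hγ, hγz⟩
  have hγO : γ z ∈ Om W := (Om_inv hγ).mpr hz'
  have hgγ : ContDiffAt ℝ 2 g (γ z) :=
    (hg.contDiffAt ((isOpen_Om hW).mem_nhds hγO)).of_le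
      (show ((2 : ℕ∞) : WithTop ℕ∞) ≤ ((⊤ : ℕ∞) : WithTop ℕ∞) from WithTop.coe_le_coe.mpr le_top)
  have h1 : (fun w => g (γ w)) =ᶠ[𝓝 z] g := by
    filter_upwards [(isOpen_Om hW).mem_nhds hz'] with w hw
    exact hi γ hγ w hw
  have h2 := m05_lap h1
  have h3 := lap_comp hW hγ hz' hgγ
  have h4 := h (γ z) hγz
  have h5 := uu_law (F := F) hW hγ hz'
  have h6 := cfac_pos hW hγ hz'
  have h7 : Real.exp (2 * uu F W z) = cfac γ z ^ 2 * Real.exp (2 * uu F W (γ z)) := by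
    rw [← h5, mul_add, Real.exp_add, mul_comm]
    congr 1
    rw [two_mul, Real.exp_add, Real.exp_log h6, sq]
  rw [← h2, h3, h7, ← hi γ hγ z hz']
  linear_combination cfac γ z ^ 2 * h4

end

end Pool.Agent.Lib_helper16.EQG.M05

namespace Pool.Agent.EQ

open MeasureTheory Filter Topology Set SP
open scoped ContDiff ComplexConjugate

noncomputable section

variable {W : ℕ} {F : ℝ → ℝ}

theorem lift_smooth (hW : 8 ≤ W) (f : ℂ → ℝ) (r : ℝ) (hr : r < 1)
    (hf : ContDiffOn ℝ ∞ f (UU W r)) (hper : ∀ z ∈ UU W r, ∀ q, f (z + lat W q) = f z)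
    (hev : ∀ z : ℂ, r < ‖z‖ → ‖z‖ < 1 → f (ivE 0 z) = f z) :
    ContDiffOn ℝ ∞ (fun z => f (pr W z)) (Om W) ∧ GfInv W (fun z => f (pr W z)) ∧
      ∀ z ∈ UU W (max r (1 / 6)), f (pr W z) = f z :=
  Pool.Agent.Lib_helper16.EQG.M05.lift_smooth hW f r hr hf hper hev

theorem eigen_lift (hW : 8 ≤ W) (g : ℂ → ℝ) (hg : ContDiffOn ℝ ∞ g (Om W)) (hi : GfInv W g)
    (lam : ℝ) (h : ∀ z ∈ EE W, -lap g z = lam * Real.exp (2 * uu F W z) * g z) :
    ∀ z ∈ Om W, -lap g z = lam * Real.exp (2 * uu F W z) * g z :=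
  Pool.Agent.Lib_helper16.EQG.M05.eigen_lift hW g hg hi lam h

end

end Pool.Agent.EQ

end

/-! ## Lib_helper83.GW.M06 -/

section

/-! EQG block M06 (helper16). -/

set_option autoImplicit false
set_option linter.unusedVariables false

namespace Pool.Agent.Lib_helper16.EQG.M06

open Pool.Agent.EQ
open MeasureTheory Filter Topology Set SP
open scoped ContDiff ComplexConjugate

noncomputable section

variable {W : ℕ}
variable {F : ℝ → ℝ}

/-- the determinant of a conformal linear map -/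
theorem m06_det (L : ℂ →L[ℝ] ℂ) (c : ℝ) (hc : 0 ≤ c) (h : ∀ v, ‖L v‖ = c * ‖v‖) :
    |L.det| = c ^ 2 := by
  have hdet : L.det = (L 1).re * (L Complex.I).im - (L Complex.I).re * (L 1).im := by
    rw [ContinuousLinearMap.det, ← LinearMap.det_toMatrix Complex.basisOneI, Matrix.det_fin_two]
    simp [LinearMap.toMatrix_apply]
  have e1 : (L 1).re ^ 2 + (L 1).im ^ 2 = c ^ 2 := by
    have h1 := h 1
    have h2 : ‖L 1‖ ^ 2 = c ^ 2 := by rw [h1]; simp
    rw [← h2, Complex.sq_norm, Complex.normSq_apply]; ring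
  have e2 : (L Complex.I).re ^ 2 + (L Complex.I).im ^ 2 = c ^ 2 := by
    have h1 := h Complex.I
    have h2 : ‖L Complex.I‖ ^ 2 = c ^ 2 := by rw [h1]; simp
    rw [← h2, Complex.sq_norm, Complex.normSq_apply]; ring
  have e3 : ((L 1).re + (L Complex.I).re) ^ 2 + ((L 1).im + (L Complex.I).im) ^ 2 = 2 * c ^ 2 := by
    have h1 := h (1 + Complex.I)
    have h2 : ‖L (1 + Complex.I)‖ ^ 2 = 2 * c ^ 2 := by
      rw [h1, mul_pow, Complex.sq_norm, Complex.normSq_apply]; simp; ring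
    rw [← h2, Complex.sq_norm, Complex.normSq_apply, map_add]
    simp only [Complex.add_re, Complex.add_im]
    ring
  have e4 : (L 1).re * (L Complex.I).re + (L 1).im * (L Complex.I).im = 0 := by linarith
  have e5 : L.det ^ 2 = (c ^ 2) ^ 2 := by
    rw [hdet]
    have : ((L 1).re * (L Complex.I).im - (L Complex.I).re * (L 1).im) ^ 2
        = ((L 1).re ^ 2 + (L 1).im ^ 2) * ((L Complex.I).re ^ 2 + (L Complex.I).im ^ 2)
          - ((L 1).re * (L Complex.I).re + (L 1).im * (L Complex.I).im) ^ 2 := by ring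
    rw [this, e1, e2, e4]
    ring
  rw [← sq_abs] at e5
  exact (sq_eq_sq₀ (abs_nonneg _) (by positivity)).mp e5

/-- the half `A` of the fundamental domain -/
def m06A (W : ℕ) : Set ℂ := EE W ∩ Rh W ∩ {z | 1 < ‖z‖}

theorem m06_Fd : Fd W = m06A W ∪ ivE 0 '' m06A W := rfl

theorem m06_measA : MeasurableSet (m06A W) :=
  (measurableSet_EE.inter measurableSet_Rh).inter (measurableSet_lt measurable_const measurable_norm)

theorem m06_measB : MeasurableSet (ivE 0 '' m06A W) := by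
  have h1 : ivE 0 '' m06A W = Fd W \ m06A W := by
    rw [m06_Fd, union_sdiff_left]
    exact (Fd_disj (W := W)).sdiff_eq_right.symm
  rw [h1]
  exact measurableSet_Fd.diff m06_measA

theorem m06_disj : Disjoint (m06A W) (ivE 0 '' m06A W) := Fd_disj (W := W)

theorem m06_subOm : m06A W ⊆ Om W := fun _ hz => EE_sub_Om hz.1.1

theorem m06_deriv (hW : 8 ≤ W) : ∀ z ∈ m06A W,
    HasFDerivWithinAt (ivE 0) (fderiv ℝ (ivE 0) z) (m06A W) z := by
  intro z hz
  have h1 := Gf_smooth hW ivE_zero_mem (m06_subOm hz)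
  exact (h1.differentiableAt (by simp)).hasFDerivAt.hasFDerivWithinAt

theorem m06_absdet (hW : 8 ≤ W) {z : ℂ} (hz : z ∈ m06A W) :
    |(fderiv ℝ (ivE 0) z).det| = cfac (ivE 0) z ^ 2 :=
  m06_det _ _ (norm_nonneg _) (fun v => conf hW ivE_zero_mem (m06_subOm hz) v)

theorem m06_exp (hW : 8 ≤ W) {z : ℂ} (hz : z ∈ m06A W) :
    cfac (ivE 0) z ^ 2 * Real.exp (2 * uu F W (ivE 0 z)) = Real.exp (2 * uu F W z) := by
  have h5 := uu_law (F := F) hW ivE_zero_mem (m06_subOm hz)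
  have h6 := cfac_pos hW ivE_zero_mem (m06_subOm hz)
  rw [← h5, mul_add, Real.exp_add, mul_comm]
  congr 1
  rw [two_mul, Real.exp_add, Real.exp_log h6, sq]

/-- `EE ∩ Rh` and `A` differ by a null set -/
theorem m06_ae : (EE W ∩ Rh W : Set ℂ) =ᵐ[volume] m06A W := by
  have h1 : (EE W ∩ Rh W) \ m06A W ⊆ Metric.sphere (0 : ℂ) 1 := by
    rintro z ⟨⟨hz1, hz2⟩, hz3⟩
    have h2 : 1 ≤ ‖z‖ := by
      have := mem_EE_iff.mp hz1 0
      rwa [lat_zero, sub_zero] at this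
    have h3 : ¬ 1 < ‖z‖ := fun h => hz3 ⟨⟨hz1, hz2⟩, h⟩
    rw [mem_sphere_zero_iff_norm]
    linarith
  have h2 : volume ((EE W ∩ Rh W) \ m06A W) = 0 :=
    measure_mono_null h1 (Measure.addHaar_sphere _ _ _)
  have h3 : m06A W \ (EE W ∩ Rh W) = ∅ := sdiff_eq_empty.mpr inter_subset_left
  rw [ae_eq_set]
  exact ⟨h2, by rw [h3]; simp⟩

/-- Integrals of invariant functions over the fundamental domain of `Gg` are twice the integrals
over the fundamental domain of `Gf`. -/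
theorem lintegral_Fd (hW : 8 ≤ W) (f : ℂ → ENNReal)
    (hi : ∀ z ∈ Om W, f (ivE 0 z) = f z) :
    ∫⁻ z in Fd W, f z * ENNReal.ofReal (Real.exp (2 * uu F W z)) =
      2 * ∫⁻ z in EE W ∩ Rh W, f z * ENNReal.ofReal (Real.exp (2 * uu F W z)) := by
  rw [setLIntegral_congr m06_ae, m06_Fd, lintegral_union m06_measB m06_disj]
  have h1 := lintegral_image_eq_lintegral_abs_det_fderiv_mul (μ := volume) m06_measA (m06_deriv hW)
    ((ivE 0).injective.injOn) (fun z => f z * ENNReal.ofReal (Real.exp (2 * uu F W z)))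
  rw [h1, two_mul]
  congr 1
  refine setLIntegral_congr_fun m06_measA fun z hz => ?_
  rw [m06_absdet hW hz, hi z (m06_subOm hz), mul_left_comm, ← ENNReal.ofReal_mul (by positivity),
    m06_exp hW hz]

theorem integral_Fd (hW : 8 ≤ W) (f : ℂ → ℝ)
    (hi : ∀ z ∈ Om W, f (ivE 0 z) = f z) :
    ∫ z in Fd W, f z * Real.exp (2 * uu F W z) =
      2 * ∫ z in EE W ∩ Rh W, f z * Real.exp (2 * uu F W z) := by
  rw [setIntegral_congr_set m06_ae]
  have hcong : ∀ z ∈ m06A W, |(fderiv ℝ (ivE 0) z).det| •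
      (f (ivE 0 z) * Real.exp (2 * uu F W (ivE 0 z))) = f z * Real.exp (2 * uu F W z) := by
    intro z hz
    rw [m06_absdet hW hz, hi z (m06_subOm hz), smul_eq_mul, mul_left_comm, m06_exp hW hz]
  by_cases hint : IntegrableOn (fun z => f z * Real.exp (2 * uu F W z)) (m06A W)
  · have hint2 : IntegrableOn (fun z => f z * Real.exp (2 * uu F W z)) (ivE 0 '' m06A W) := by
      rw [integrableOn_image_iff_integrableOn_abs_det_fderiv_smul volume m06_measA (m06_deriv hW)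
        ((ivE 0).injective.injOn)]
      exact hint.congr_fun (fun z hz => (hcong z hz).symm) m06_measA
    rw [m06_Fd, setIntegral_union m06_disj m06_measB hint hint2]
    have h1 := integral_image_eq_integral_abs_det_fderiv_smul volume m06_measA (m06_deriv hW)
      ((ivE 0).injective.injOn) (fun z => f z * Real.exp (2 * uu F W z))
    rw [h1, two_mul]
    congr 1
    exact setIntegral_congr_fun m06_measA hcong
  · have hint3 : ¬ IntegrableOn (fun z => f z * Real.exp (2 * uu F W z)) (Fd W) := by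
      intro h
      exact hint (h.mono_set (by rw [m06_Fd]; exact subset_union_left))
    rw [integral_undef hint, integral_undef hint3, mul_zero]

end

end Pool.Agent.Lib_helper16.EQG.M06

namespace Pool.Agent.EQ

open MeasureTheory Filter Topology Set SP
open scoped ContDiff ComplexConjugate

noncomputable section

variable {W : ℕ} {F : ℝ → ℝ}

theorem lintegral_Fd (hW : 8 ≤ W) (f : ℂ → ENNReal)
    (hi : ∀ z ∈ Om W, f (ivE 0 z) = f z) :
    ∫⁻ z in Fd W, f z * ENNReal.ofReal (Real.exp (2 * uu F W z)) =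
      2 * ∫⁻ z in EE W ∩ Rh W, f z * ENNReal.ofReal (Real.exp (2 * uu F W z)) :=
  Pool.Agent.Lib_helper16.EQG.M06.lintegral_Fd hW f hi

theorem integral_Fd (hW : 8 ≤ W) (f : ℂ → ℝ)
    (hi : ∀ z ∈ Om W, f (ivE 0 z) = f z) :
    ∫ z in Fd W, f z * Real.exp (2 * uu F W z) =
      2 * ∫ z in EE W ∩ Rh W, f z * Real.exp (2 * uu F W z) :=
  Pool.Agent.Lib_helper16.EQG.M06.integral_Fd hW f hi

end

end Pool.Agent.EQ

end

/-! ## Lib_helper83.GW.PG -/

section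

/-! Project EQ, package G: the surface. -/

set_option autoImplicit false
set_option linter.unusedVariables false

namespace Pool.Agent.EQ

open MeasureTheory Filter Topology Set SP
open scoped ContDiff ComplexConjugate

noncomputable section

variable {W : ℕ} {F : ℝ → ℝ}

/-- the surface -/
def PG (hF : Prof F) (hW : 8 ≤ W) : Pres where
  Ω := Om W
  isOpen := isOpen_Om hW
  conn := isConnected_Om hW
  u := uu F W
  smooth := uu_smooth hF hW
  G := Gg W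
  cnt := countable_Gg
  act := fun g z => (g : Equiv.Perm ℂ) z
  act_mem := fun g _ hz => (Om_inv (Gg_le g.2)).2 hz
  act_one := fun _ _ => rfl
  act_mul := fun _ _ _ _ => rfl
  holo := fun g _ hz => (Gg_holo hW g.2 hz).1.differentiableWithinAt
  isom := fun g z hz => by
    show uu F W ((g : Equiv.Perm ℂ) z) + Real.log ‖deriv (g : Equiv.Perm ℂ) z‖ = uu F W z
    rw [(Gg_holo hW g.2 hz).2]; exact uu_law hW (Gg_le g.2) hz
  free := fun g _ hz h => Subtype.ext (free_Gg hW g.2 hz h)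
  proper := fun K hK hc => proper_Gg hW K hK hc
  cocompact := by
    obtain ⟨K, h1, h2, h3⟩ := cocompact_Gg hW
    refine ⟨K, h1, h2, fun z hz => ?_⟩
    obtain ⟨γ, hγ, h⟩ := h3 z hz
    exact ⟨⟨γ, hγ⟩, h⟩

end

end Pool.Agent.EQ

end

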