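import Mathlib
import Pool.Agent.Lib_helper71.EQM.FlowDefs
import Pool.Agent.Lib_helper71.EQM.GrA
import Pool.Agent.Lib_helper71.EQM.GrB

/-! Project EQ (MP_ed6ab2_an): merged modules Lib_helper83.EQ.Erg, Lib_helper83.GW.ERG2, Lib_helper83.GW.C07, Lib_helper83.GW.C08, Lib_helper83.GW.C09, Lib_helper83.GW.C10. -/

set_option autoImplicit false

/-! ## Lib_helper83.EQ.Erg -/

section

/-! MP_ed6ab2_an, project EQ, package G: global ergodicity from the local theorem (G2). -/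

set_option autoImplicit false

namespace Pool.Agent.EQ

open MeasureTheory Filter Topology Set SP
open scoped ContDiff

noncomputable section

lemma ERG_open_S (P : Pres) : IsOpen P.S := P.isOpen.prod isOpen_univ

lemma ERG_dx_smooth {U : Set ℂ} (hU : IsOpen U) {f : ℂ → ℝ} (hf : ContDiffOn ℝ ∞ f U) :
    ContDiffOn ℝ ∞ (dx f) U :=
  (hf.fderiv_of_isOpen hU (by simp)).clm_apply contDiffOn_const

lemma ERG_dy_smooth {U : Set ℂ} (hU : IsOpen U) {f : ℂ → ℝ} (hf : ContDiffOn ℝ ∞ f U) :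
    ContDiffOn ℝ ∞ (dy f) U :=
  (hf.fderiv_of_isOpen hU (by simp)).clm_apply contDiffOn_const

lemma ERG_lap_smooth {U : Set ℂ} (hU : IsOpen U) {f : ℂ → ℝ} (hf : ContDiffOn ℝ ∞ f U) :
    ContDiffOn ℝ ∞ (lap f) U :=
  (ERG_dx_smooth hU (ERG_dx_smooth hU hf)).add (ERG_dy_smooth hU (ERG_dy_smooth hU hf))

lemma ERG_kk_cont (P : Pres) : ContinuousOn (kk P.u) P.Ω := by
  have h1 := (ERG_lap_smooth P.isOpen P.smooth).continuousOn
  have h2 : ContinuousOn (fun z => Real.exp (-2 * P.u z)) P.Ω :=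
    Real.continuous_exp.comp_continuousOn (continuousOn_const.mul P.smooth.continuousOn)
  exact h2.mul h1

lemma ERG_phi_diff {P : Pres} (Φ : GFlow P) (t : ℝ) : DifferentiableOn ℝ (Φ.φ t) P.S := by
  have h1 : ContDiffOn ℝ 1 (fun v : ℂ × ℝ => Φ.φ t v) P.S :=
    Φ.smooth.comp (g := fun p : ℝ × (ℂ × ℝ) => Φ.φ p.1 p.2) (f := fun v : ℂ × ℝ => (t, v))
      (contDiffOn_const.prodMk contDiffOn_id) (fun v hv => ⟨mem_univ _, hv⟩)
  exact h1.differentiableOn (by norm_num)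

lemma ERG_null_phi {P : Pres} (Φ : GFlow P) (t : ℝ) {Z : Set (ℂ × ℝ)} (hZ : volume Z = 0) :
    volume {v ∈ P.S | Φ.φ t v ∈ Z} = 0 := by
  have h1 : {v ∈ P.S | Φ.φ t v ∈ Z} ⊆ Φ.φ (-t) '' (Z ∩ P.S) := by
    rintro v ⟨hv, hvZ⟩
    refine ⟨Φ.φ t v, ⟨hvZ, Φ.mem t v hv⟩, ?_⟩
    rw [← Φ.add, neg_add_cancel, Φ.zero]
  refine measure_mono_null h1 ?_
  have hH : (volume : Measure (ℂ × ℝ)).IsAddHaarMeasure := by
    rw [Measure.volume_eq_prod]
    infer_instance
  exact MeasureTheory.addHaar_image_eq_zero_of_differentiableOn_of_addHaar_eq_zero volume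
    ((ERG_phi_diff Φ (-t)).mono inter_subset_right) (measure_mono_null inter_subset_left hZ)

lemma ERG_act_inv (P : Pres) (g : P.G) {z : ℂ} (hz : z ∈ P.Ω) : P.act g⁻¹ (P.act g z) = z := by
  rw [← P.act_mul _ _ z hz, inv_mul_cancel, P.act_one z hz]

lemma ERG_null_act (P : Pres) (g : P.G) {Z : Set (ℂ × ℝ)} (hZ : volume Z = 0) :
    volume {v ∈ P.S | P.actS g v ∈ Z} = 0 := by
  set Z' := toMeasurable volume Z with hZ'
  have hm : MeasurableSet Z' := measurableSet_toMeasurable _ _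
  have h0 : volume Z' = 0 := by rw [hZ', measure_toMeasurable, hZ]
  have hsub : {v ∈ P.S | P.actS g v ∈ Z} ⊆ {v ∈ P.S | P.actS g v ∈ Z'} :=
    fun v hv => ⟨hv.1, subset_toMeasurable _ _ hv.2⟩
  refine measure_mono_null hsub ?_
  have hSm : MeasurableSet P.S := (ERG_open_S P).measurableSet
  have hc1 : ContinuousOn (P.act g) P.Ω := (P.holo g).continuousOn
  have hc2 : ContinuousOn (deriv (P.act g)) P.Ω :=
    ((P.holo g).deriv P.isOpen).continuousOn
  have hmeas : MeasurableSet {v ∈ P.S | P.actS g v ∈ Z'} := by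
    have e1 : Measurable (fun x : P.S => P.act g x.1.1) := by
      apply Continuous.measurable
      have : ContinuousOn (fun v : ℂ × ℝ => P.act g v.1) P.S :=
        hc1.comp continuous_fst.continuousOn (fun v hv => hv.1)
      exact continuousOn_iff_continuous_domRestrict.1 this
    have e2 : Measurable (fun x : P.S => deriv (P.act g) x.1.1) := by
      apply Continuous.measurable
      have : ContinuousOn (fun v : ℂ × ℝ => deriv (P.act g) v.1) P.S :=
        hc2.comp continuous_fst.continuousOn (fun v hv => hv.1)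
      exact continuousOn_iff_continuous_domRestrict.1 this
    have e3 : Measurable (fun x : P.S => P.actS g x.1) := by
      unfold Pres.actS
      exact e1.prodMk ((measurable_snd.comp measurable_subtype_coe).add
        (Complex.measurable_arg.comp e2))
    have e4 : MeasurableSet {x : P.S | P.actS g x.1 ∈ Z'} := e3 hm
    have e5 := hSm.subtype_image e4
    have e6 : (Subtype.val '' {x : P.S | P.actS g x.1 ∈ Z'}) = {v ∈ P.S | P.actS g v ∈ Z'} := by
      ext v
      constructor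
      · rintro ⟨x, hx, rfl⟩
        exact ⟨x.2, hx⟩
      · rintro ⟨hv, hvZ⟩
        exact ⟨⟨v, hv⟩, hvZ, rfl⟩
    rwa [e6] at e5
  rw [Measure.volume_eq_prod, Measure.measure_prod_null hmeas]
  rw [Measure.volume_eq_prod, Measure.measure_prod_null hm] at h0
  set Y : Set ℂ := {w | volume (Prod.mk w ⁻¹' Z') ≠ 0} with hY
  have hY0 : volume Y = 0 := by
    have := ae_iff.1 h0
    simpa [hY] using this
  have hY1 : volume {z | z ∈ P.Ω ∧ P.act g z ∈ Y} = 0 := by
    have h1 : {z | z ∈ P.Ω ∧ P.act g z ∈ Y} ⊆ P.act g⁻¹ '' (Y ∩ P.Ω) := by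
      rintro z ⟨hz, hzY⟩
      exact ⟨P.act g z, ⟨hzY, P.act_mem g z hz⟩, ERG_act_inv P g hz⟩
    refine measure_mono_null h1 ?_
    refine MeasureTheory.addHaar_image_eq_zero_of_differentiableOn_of_addHaar_eq_zero volume
      (DifferentiableOn.mono ?_ inter_subset_right) (measure_mono_null inter_subset_left hY0)
    exact (P.holo g⁻¹).restrictScalars ℝ
  have hae : ∀ᵐ z : ℂ, ¬ (z ∈ P.Ω ∧ P.act g z ∈ Y) := by
    rw [ae_iff]
    simpa using hY1
  filter_upwards [hae] with z hz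
  by_cases hzO : z ∈ P.Ω
  · have hzY : P.act g z ∉ Y := fun h => hz ⟨hzO, h⟩
    have h2 : volume (Prod.mk (P.act g z) ⁻¹' Z') = 0 := by
      by_contra h3
      exact hzY h3
    have h3 : Prod.mk z ⁻¹' {v ∈ P.S | P.actS g v ∈ Z'} =
        (fun θ => θ + (deriv (P.act g) z).arg) ⁻¹' (Prod.mk (P.act g z) ⁻¹' Z') := by
      ext θ
      constructor
      · rintro ⟨_, h⟩
        exact h
      · intro h
        exact ⟨⟨hzO, mem_univ _⟩, h⟩
    rw [h3, measure_preimage_add_right, h2]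
    rfl
  · have h3 : Prod.mk z ⁻¹' {v ∈ P.S | P.actS g v ∈ Z'} = ∅ := by
      ext θ
      constructor
      · rintro ⟨h, _⟩
        exact (hzO h.1).elim
      · intro h
        exact h.elim
    rw [h3]
    simp

/-- an orbit that never meets the necks has a lattice direction -/
lemma ERG_fibre (P : Pres) (Φ : GFlow P) {F : ℝ → ℝ} (hF : Prof F) {W : ℕ} (hW : 8 ≤ W)
    (hJ : ∀ z ∈ P.Ω, ∃ J : ℂ → ℂ, 1 ≤ dl W (J z) ∧
      (∀ w ∈ P.Ω, AnalyticAt ℂ J w ∧ deriv J w ≠ 0) ∧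
      ∀ w ∈ P.Ω, 1 ≤ dl W (J w) →
        P.u =ᶠ[𝓝 w] fun w' => uE F W (J w') + Real.log ‖deriv J w'‖)
    (z : ℂ) (hz : z ∈ P.Ω) :
    {θ : ℝ | ∀ t : ℝ, ¬ 0 < kk P.u (Φ.φ t (z, θ)).1}.Countable := by
  obtain ⟨J, hJz, hJa, hJu⟩ := hJ z hz
  have hJ' : deriv J z ≠ 0 := (hJa z hz).2
  have hc0 : deriv J z * Real.exp (-P.u z) ≠ 0 :=
    mul_ne_zero hJ' (by exact_mod_cast (Real.exp_pos _).ne')
  refine (slope_countable W _ hc0).mono ?_
  intro θ hθ
  have hv : (z, θ) ∈ P.S := ⟨hz, mem_univ _⟩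
  set c : ℝ → ℂ × ℝ := fun t => Φ.φ t (z, θ) with hc
  have hcS : ∀ t, c t ∈ P.S := fun t => Φ.mem t _ hv
  have hcO : ∀ t, (c t).1 ∈ P.Ω := fun t => (hcS t).1
  have hcd : ∀ t, HasDerivAt c (XX P.u (c t)) t := fun t => Φ.deriv_t t _ hv
  have hcc : Continuous c := continuous_iff_continuousAt.2 fun t => (hcd t).continuousAt
  have hJc : Continuous fun t => dl W (J (c t).1) := by
    refine (dl_cont W).comp ?_
    refine continuous_iff_continuousAt.2 fun t => ?_
    exact ContinuousAt.comp (g := J) (f := fun t => (c t).1) (hJa _ (hcO t)).1.continuousAt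
      (continuous_fst.comp hcc).continuousAt
  -- near a point with `1 ≤ dl` the curvature is known
  have hkk : ∀ t, 1 ≤ dl W (J (c t).1) → Real.exp 1 ≤ dl W (J (c t).1) := by
    intro t ht
    have hpos : 0 < dl W (J (c t).1) := by linarith
    by_contra hlt
    push Not at hlt
    have h1 := hJu _ (hcO t) ht
    apply hθ t
    have e1 : kk P.u (c t).1 = Real.exp (-2 * P.u (c t).1) *
        (‖deriv J (c t).1‖ ^ 2 * lap (uE F W) (J (c t).1)) := by
      unfold kk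
      congr 1
      rw [M0_lap_congr h1]
      have hJat := (hJa _ (hcO t)).1
      have h2 : ContDiffAt ℝ 2 (uE F W) (J (c t).1) := by
        exact_mod_cast contDiffAt_infty.1 (uE_smooth hF hW hpos) 2
      have hJ2 : ContDiffAt ℝ 2 J (c t).1 := (hJat.contDiffAt (n := 2)).restrict_scalars ℝ
      have h3 : ContDiffAt ℝ 2 (fun w => uE F W (J w)) (c t).1 := h2.comp _ hJ2
      have h4 := lap_log_norm hJat.deriv (hJa _ (hcO t)).2
      rw [M0_lap_eq (h3.add h4.1)]
      have h5 := h3.laplacian_add h4.1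
      have h6 : Laplacian.laplacian ((fun w => uE F W (J w)) + fun w => Real.log ‖deriv J w‖)
          (c t).1 = _ := h5
      have h7 : (fun w' => uE F W (J w') + Real.log ‖deriv J w'‖) =
        ((fun w => uE F W (J w)) + fun w => Real.log ‖deriv J w‖) := rfl
      rw [← M0_lap_eq h3, ← M0_lap_eq h4.1, h4.2, add_zero, lap_comp_holo h2 hJat] at h6
      exact h6
    show 0 < kk P.u (c t).1
    rw [e1]
    have h8 : |Real.log (dl W (J (c t).1))| < 1 := by
      rw [abs_lt]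
      have h9 : 0 ≤ Real.log (dl W (J (c t).1)) := Real.log_nonneg ht
      refine ⟨by linarith, ?_⟩
      rw [Real.log_lt_iff_lt_exp hpos]
      exact hlt
    have h10 : 0 < lap (uE F W) (J (c t).1) := by
      rw [uE_lap hF hW hpos]
      exact mul_pos (hF.conv _ h8) (by positivity)
    have h11 : 0 < ‖deriv J (c t).1‖ := norm_pos_iff.2 (hJa _ (hcO t)).2
    positivity
  have hall : {t : ℝ | Real.exp 1 ≤ dl W (J (c t).1)} = univ := by
    apply IsClopen.eq_univ
    · constructor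
      · exact isClosed_le continuous_const hJc
      · have : {t : ℝ | Real.exp 1 ≤ dl W (J (c t).1)} = {t : ℝ | 1 < dl W (J (c t).1)} := by
          ext t
          constructor
          · intro h
            have : (1 : ℝ) < Real.exp 1 := Real.one_lt_exp_iff.2 one_pos
            exact lt_of_lt_of_le this h
          · intro h
            exact hkk t (le_of_lt h)
        rw [this]
        exact isOpen_lt continuous_const hJc
    · refine ⟨0, hkk 0 ?_⟩
      have : c 0 = (z, θ) := Φ.zero _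
      rw [this]
      exact hJz
  have hflat : ∀ t, Real.exp 1 ≤ dl W (J (c t).1) := fun t => by
    have : t ∈ {t : ℝ | Real.exp 1 ≤ dl W (J (c t).1)} := by rw [hall]; exact mem_univ _
    exact this
  have hone : (1 : ℝ) ≤ Real.exp 1 := Real.one_le_exp (by norm_num)
  have hline := geo_flat hF hW c hcd J (fun t => (hJa _ (hcO t)).1) (fun t => (hJa _ (hcO t)).2)
    (fun t => hJu _ (hcO t) (le_trans hone (hflat t))) hflat
  have hc00 : c 0 = (z, θ) := Φ.zero _
  rw [hc00] at hline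
  obtain ⟨p, _, s, hs⟩ := slope_line hW one_pos (J z)
    (deriv J z * Real.exp (-P.u z) * Complex.exp (θ * Complex.I)) (fun t => by
      rw [← hline t]
      exact le_trans hone (hflat t))
  exact ⟨p, s, hs⟩

/-- the orbits that never meet the necks form a null set -/
lemma ERG_never (P : Pres) (Φ : GFlow P) {F : ℝ → ℝ} (hF : Prof F) {W : ℕ} (hW : 8 ≤ W)
    (hJ : ∀ z ∈ P.Ω, ∃ J : ℂ → ℂ, 1 ≤ dl W (J z) ∧
      (∀ w ∈ P.Ω, AnalyticAt ℂ J w ∧ deriv J w ≠ 0) ∧
      ∀ w ∈ P.Ω, 1 ≤ dl W (J w) →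
        P.u =ᶠ[𝓝 w] fun w' => uE F W (J w') + Real.log ‖deriv J w'‖) :
    volume {v ∈ P.S | ∀ q : ℚ, ¬ 0 < kk P.u (Φ.φ q v).1} = 0 := by
  have hcont : ∀ q : ℝ, ContinuousOn (fun v => kk P.u (Φ.φ q v).1) P.S := by
    intro q
    refine (ERG_kk_cont P).comp (continuous_fst.comp_continuousOn (ERG_phi_diff Φ q).continuousOn)
      (fun v hv => (Φ.mem q v hv).1)
  have hmeas : MeasurableSet {v ∈ P.S | ∀ q : ℚ, ¬ 0 < kk P.u (Φ.φ q v).1} := by
    have h1 : {v ∈ P.S | ∀ q : ℚ, ¬ 0 < kk P.u (Φ.φ q v).1} =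
        P.S \ ⋃ q : ℚ, (P.S ∩ (fun v => kk P.u (Φ.φ q v).1) ⁻¹' Ioi 0) := by
      ext v
      simp only [mem_ofPred_eq, Set.mem_sdiff, mem_iUnion, mem_inter_iff, mem_preimage, mem_Ioi,
        not_exists, not_and]
      constructor
      · rintro ⟨h1, h2⟩
        exact ⟨h1, fun q _ => h2 q⟩
      · rintro ⟨h1, h2⟩
        exact ⟨h1, fun q => h2 q h1⟩
    rw [h1]
    refine (ERG_open_S P).measurableSet.diff (MeasurableSet.iUnion fun q => ?_)
    exact ((hcont q).isOpen_inter_preimage (ERG_open_S P) isOpen_Ioi).measurableSet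
  rw [Measure.volume_eq_prod, Measure.measure_prod_null hmeas]
  refine Eventually.of_forall fun z => ?_
  show volume (Prod.mk z ⁻¹' {v ∈ P.S | ∀ q : ℚ, ¬ 0 < kk P.u (Φ.φ q v).1}) = 0
  by_cases hz : z ∈ P.Ω
  · apply Countable.measure_zero
    refine (ERG_fibre P Φ hF hW hJ z hz).mono ?_
    rintro θ ⟨hv, hq⟩ t ht
    -- by continuity in time there is a rational time
    have hcd : ∀ t, HasDerivAt (fun s => Φ.φ s (z, θ)) (XX P.u (Φ.φ t (z, θ))) t :=
      fun t => Φ.deriv_t t _ hv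
    have hcc : Continuous fun s => Φ.φ s (z, θ) :=
      continuous_iff_continuousAt.2 fun t => (hcd t).continuousAt
    have hkc : Continuous fun s => kk P.u (Φ.φ s (z, θ)).1 := by
      refine continuous_iff_continuousAt.2 fun s => ?_
      exact ContinuousAt.comp (g := kk P.u) (f := fun s => (Φ.φ s (z, θ)).1)
        ((ERG_kk_cont P).continuousAt (P.isOpen.mem_nhds (Φ.mem s _ hv).1))
        (continuous_fst.comp hcc).continuousAt
    have hop : IsOpen {s : ℝ | 0 < kk P.u (Φ.φ s (z, θ)).1} := isOpen_lt continuous_const hkc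
    obtain ⟨q, hq'⟩ := Rat.denseRange_cast.exists_mem_open hop ⟨t, ht⟩
    exact hq q hq'
  · have : Prod.mk z ⁻¹' {v ∈ P.S | ∀ q : ℚ, ¬ 0 < kk P.u (Φ.φ q v).1} = ∅ := by
      ext θ
      constructor
      · rintro ⟨h, _⟩
        exact (hz h.1).elim
      · intro h
        exact h.elim
    rw [this]
    simp

/-- (G2): global ergodicity from the local theorem -/
theorem ergodic_of_charts (P : Pres) (Φ : GFlow P) {F : ℝ → ℝ} (hF : Prof F) {W : ℕ} (hW : 8 ≤ W)
    (hJ : ∀ z ∈ P.Ω, ∃ J : ℂ → ℂ, 1 ≤ dl W (J z) ∧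
      (∀ w ∈ P.Ω, AnalyticAt ℂ J w ∧ deriv J w ≠ 0) ∧
      ∀ w ∈ P.Ω, 1 ≤ dl W (J w) →
        P.u =ᶠ[𝓝 w] fun w' => uE F W (J w') + Real.log ‖deriv J w'‖)
    (N0 : Set ℂ) (hN0 : IsPreconnected N0) (hN1 : ∀ z ∈ N0, z ∈ P.Ω ∧ 0 < kk P.u z)
    (hN2 : ∀ z ∈ P.Ω, 0 < kk P.u z → ∃ g : P.G, P.act g z ∈ N0)
    (hloc : ∀ A : Set (ℂ × ℝ), P.IsSetUM A → P.FlowInv A → ∀ v₀ ∈ P.S, 0 < kk P.u v₀.1 →
      ∃ O : Set (ℂ × ℝ), IsOpen O ∧ v₀ ∈ O ∧ O ⊆ P.S ∧
        (volume (O ∩ A) = 0 ∨ volume (O \ A) = 0)) :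
    P.Ergodic := by
  intro A hA hfl
  set S0 : Set (ℂ × ℝ) := N0 ×ˢ univ with hS0
  have hS0S : S0 ⊆ P.S := fun v hv => ⟨(hN1 v.1 hv.1).1, mem_univ _⟩
  -- step 1
  have step1 : volume (S0 ∩ A) = 0 ∨ volume (S0 \ A) = 0 := by
    set U1 : Set (ℂ × ℝ) := {v | ∃ O : Set (ℂ × ℝ), IsOpen O ∧ v ∈ O ∧ volume (O ∩ A) = 0} with hU1
    set U2 : Set (ℂ × ℝ) := {v | ∃ O : Set (ℂ × ℝ), IsOpen O ∧ v ∈ O ∧ volume (O \ A) = 0} with hU2
    have o1 : IsOpen U1 := by
      rw [isOpen_iff_mem_nhds]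
      rintro v ⟨O, hO, hv, hn⟩
      exact Filter.mem_of_superset (hO.mem_nhds hv) fun w hw => ⟨O, hO, hw, hn⟩
    have o2 : IsOpen U2 := by
      rw [isOpen_iff_mem_nhds]
      rintro v ⟨O, hO, hv, hn⟩
      exact Filter.mem_of_superset (hO.mem_nhds hv) fun w hw => ⟨O, hO, hw, hn⟩
    have hcov : S0 ⊆ U1 ∪ U2 := by
      intro v hv
      obtain ⟨O, hO, hvO, _, h⟩ := hloc A hA hfl v (hS0S hv) (hN1 v.1 hv.1).2
      rcases h with h | h
      · exact Or.inl ⟨O, hO, hvO, h⟩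
      · exact Or.inr ⟨O, hO, hvO, h⟩
    have hpre : IsPreconnected S0 := hN0.prod isPreconnected_univ
    have hn1 : S0 ⊆ U1 → volume (S0 ∩ A) = 0 := by
      intro h
      apply measure_null_of_locally_null
      rintro v ⟨hv, hvA⟩
      obtain ⟨O, hO, hvO, hn⟩ := h hv
      refine ⟨(S0 ∩ A) ∩ O, inter_mem_nhdsWithin _ (hO.mem_nhds hvO), ?_⟩
      exact measure_mono_null (t := O ∩ A) (fun w hw => ⟨hw.2, hw.1.2⟩) hn
    have hn2 : S0 ⊆ U2 → volume (S0 \ A) = 0 := by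
      intro h
      apply measure_null_of_locally_null
      rintro v ⟨hv, hvA⟩
      obtain ⟨O, hO, hvO, hn⟩ := h hv
      refine ⟨(S0 \ A) ∩ O, inter_mem_nhdsWithin _ (hO.mem_nhds hvO), ?_⟩
      exact measure_mono_null (t := O \ A) (fun w hw => ⟨hw.2, hw.1.2⟩) hn
    by_cases h1 : (S0 ∩ U1).Nonempty
    · by_cases h2 : (S0 ∩ U2).Nonempty
      · exfalso
        obtain ⟨v, _, ⟨O1, hO1, hv1, hn1'⟩, O2, hO2, hv2, hn2'⟩ := hpre U1 U2 o1 o2 hcov h1 h2
        have h3 : volume (O1 ∩ O2) = 0 := by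
          refine measure_mono_null (t := (O1 ∩ A) ∪ (O2 \ A)) ?_ (measure_union_null hn1' hn2')
          rintro w ⟨hw1, hw2⟩
          by_cases hwA : w ∈ A
          · exact Or.inl ⟨hw1, hwA⟩
          · exact Or.inr ⟨hw2, hwA⟩
        have h4 : 0 < volume (O1 ∩ O2) := (hO1.inter hO2).measure_pos volume ⟨v, hv1, hv2⟩
        exact h4.ne' h3
      · left
        apply hn1
        intro v hv
        rcases hcov hv with h | h
        · exact h
        · exact (h2 ⟨v, hv, h⟩).elim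
    · right
      apply hn2
      intro v hv
      rcases hcov hv with h | h
      · exact (h1 ⟨v, hv, h⟩).elim
      · exact h
  -- step 2 and 3
  have key : ∀ B : Set (ℂ × ℝ), P.IsSetUM B → P.FlowInv B → volume (S0 ∩ B) = 0 →
      volume (P.S ∩ B) = 0 := by
    intro B hB hBf hB0
    have h2 : volume {v ∈ P.S | 0 < kk P.u v.1 ∧ v ∈ B} = 0 := by
      have hsub : {v ∈ P.S | 0 < kk P.u v.1 ∧ v ∈ B} ⊆
          ⋃ g : P.G, {v ∈ P.S | P.actS g v ∈ S0 ∩ B} := by
        rintro v ⟨hv, hk, hvB⟩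
        obtain ⟨g, hg⟩ := hN2 v.1 hv.1 hk
        rw [mem_iUnion]
        exact ⟨g, hv, ⟨hg, mem_univ _⟩, (hB.inv g v hv).2 hvB⟩
      refine measure_mono_null hsub ?_
      exact measure_iUnion_null fun g => ERG_null_act P g hB0
    have hsub : P.S ∩ B ⊆ {v ∈ P.S | ∀ q : ℚ, ¬ 0 < kk P.u (Φ.φ q v).1} ∪
        ⋃ q : ℚ, {v ∈ P.S | Φ.φ q v ∈ {v ∈ P.S | 0 < kk P.u v.1 ∧ v ∈ B}} := by
      rintro v ⟨hv, hvB⟩
      by_cases hq : ∀ q : ℚ, ¬ 0 < kk P.u (Φ.φ q v).1
      · exact Or.inl ⟨hv, hq⟩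
      · push Not at hq
        obtain ⟨q, hq⟩ := hq
        right
        rw [mem_iUnion]
        refine ⟨q, hv, Φ.mem q v hv, hq, ?_⟩
        have hgeo : P.IsGeod (fun t => Φ.φ t v) := fun t => ⟨Φ.mem t v hv, Φ.deriv_t t v hv⟩
        have := hBf _ hgeo 0 q
        simp only [Φ.zero] at this
        exact this.1 hvB
    refine measure_mono_null hsub (measure_union_null (ERG_never P Φ hF hW hJ) ?_)
    exact measure_iUnion_null fun q => ERG_null_phi Φ q h2
  rcases step1 with h | h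
  · left
    exact key A hA hfl h
  · right
    have hAc : P.IsSetUM Aᶜ := by
      refine ⟨hA.meas.compl, ?_, ?_⟩
      · intro v hv
        exact not_congr (hA.per v hv)
      · intro g v hv
        exact not_congr (hA.inv g v hv)
    have hflc : P.FlowInv Aᶜ := fun c hc s t => not_congr (hfl c hc s t)
    have := key Aᶜ hAc hflc (by rwa [← sdiff_eq])
    rwa [← sdiff_eq] at this

end

end Pool.Agent.EQ

end

/-! ## Lib_helper83.GW.ERG2 -/

section

/-! Project EQ, package G: ergodicity of the concrete surface from the local theorem. -/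

set_option autoImplicit false
set_option linter.unusedVariables false

namespace Pool.Agent.Lib_helper83.EQG.ERG2

open MeasureTheory Filter Topology Set Pool.Agent.EQ Pool.Agent.EQ.SP
open scoped ContDiff ComplexConjugate

noncomputable section

variable {W : ℕ} {F : ℝ → ℝ}

theorem dl_conj (z : ℂ) : dl W (conj z) = dl W z := by
  have key : ∀ w : ℂ, dl W w ≤ dl W (conj w) := by
    intro w
    unfold dl
    rw [Metric.le_infDist (range_nonempty _)]
    rintro _ ⟨q, rfl⟩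
    have h : Metric.infDist w (range (lat W)) ≤ dist w (lat W (q.1, -q.2)) :=
      Metric.infDist_le_dist_of_mem (mem_range_self _)
    refine h.trans (le_of_eq ?_)
    rw [dist_eq_norm, dist_eq_norm, ← RCLike.norm_conj (w - lat W (q.1, -q.2)), map_sub]
    congr 2
    apply Complex.ext <;> simp [lat]
  apply le_antisymm _ (key z)
  have := key (conj z)
  rwa [Complex.conj_conj] at this

theorem uE_conj (z : ℂ) : uE F W (conj z) = uE F W z := by
  unfold uE
  rw [dl_conj]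

theorem isPreconnected_Ann' (δ : ℝ) : IsPreconnected (Ann δ) := by
  have h1 : Ann δ = Complex.exp '' {w : ℂ | -δ < w.re ∧ w.re < δ} := by
    ext z
    constructor
    · rintro ⟨h1, h2⟩
      have h3 : 0 < ‖z‖ := lt_trans (Real.exp_pos _) h1
      have h4 : z ≠ 0 := norm_pos_iff.1 h3
      refine ⟨Complex.log z, ⟨?_, ?_⟩, Complex.exp_log h4⟩
      · rw [Complex.log_re, Real.lt_log_iff_exp_lt h3]
        exact h1
      · rw [Complex.log_re, Real.log_lt_iff_lt_exp h3]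
        exact h2
    · rintro ⟨w, ⟨h1, h2⟩, rfl⟩
      constructor
      · rw [Complex.norm_exp]
        exact Real.exp_lt_exp.2 h1
      · rw [Complex.norm_exp]
        exact Real.exp_lt_exp.2 h2
  rw [h1]
  refine IsPreconnected.image ?_ _ Complex.continuous_exp.continuousOn
  apply Convex.isPreconnected
  exact (convex_halfSpace_re_gt (-δ)).inter (convex_halfSpace_re_lt δ)

theorem isPreconnected_Ann (δ : ℝ) :
    IsPreconnected ((Ann δ) ×ˢ (univ : Set ℝ)) :=
  (isPreconnected_Ann' δ).prod isPreconnected_univ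

theorem exp_neg_one_lt_one : Real.exp (-1) < 1 := by
  rw [Real.exp_lt_one_iff]
  norm_num

/-- the charts -/
theorem charts (hF : Prof F) (hW : 8 ≤ W) (z : ℂ) (hz : z ∈ Om W) :
    ∃ J : ℂ → ℂ, 1 ≤ dl W (J z) ∧
      (∀ w ∈ Om W, AnalyticAt ℂ J w ∧ deriv J w ≠ 0) ∧
      ∀ w ∈ Om W, 1 ≤ dl W (J w) →
        uu F W =ᶠ[𝓝 w] fun w' => uE F W (J w') + Real.log ‖deriv J w'‖ := by
  obtain ⟨γ, hγ, hγz⟩ := hz
  obtain ⟨J, hJ1, hJ2⟩ := M01.chart hW hγ
  have hd : ∀ w, dl W (J w) = dl W (γ w) := by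
    intro w
    rcases hJ2 with h | h
    · rw [h]
    · rw [h, dl_conj]
  have hu : ∀ w, uE F W (J w) = uE F W (γ w) := by
    intro w
    rcases hJ2 with h | h
    · rw [h]
    · rw [h, uE_conj]
  refine ⟨J, ?_, hJ1, ?_⟩
  · rw [hd]
    exact hγz
  · intro w hw h1
    rw [hd] at h1
    have hc : ContinuousAt γ w := (Gf_smooth hW hγ hw).continuousAt
    have h2 : γ w ∈ UU W (Real.exp (-1)) := lt_of_lt_of_le exp_neg_one_lt_one h1
    have h3 : ∀ᶠ w' in 𝓝 w, γ w' ∈ UU W (Real.exp (-1)) :=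
      hc.eventually ((isOpen_UU W (Real.exp (-1))).mem_nhds h2)
    filter_upwards [h3, (isOpen_Om hW).mem_nhds hw] with w' h4 h5
    rw [hu, ← uu_eq hF hW h4, ← M01.chart_cfac hJ2 (hJ1 w' h5).1.differentiableAt,
      uu_law hW hγ h5]

theorem ergodic_gen (hF : Prof F) (hW : 8 ≤ W) (P : Pres) (hΩ : P.Ω = Om W) (hu : P.u = uu F W)
    (hG : ∀ z ∈ Om W, ∀ γ ∈ Gg W, ∃ g : P.G, P.act g z = γ z) (Φ : GFlow P)
    (hloc : ∀ A, P.IsSetUM A → P.FlowInv A → ∀ v₀ ∈ P.S,
      0 < kk P.u v₀.1 → ∃ O : Set (ℂ × ℝ), IsOpen O ∧ v₀ ∈ O ∧ O ⊆ P.S ∧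
        (volume (O ∩ A) = 0 ∨ volume (O \ A) = 0)) :
    P.Ergodic := by
  refine ergodic_of_charts P Φ hF hW ?_ (Ann 1) (isPreconnected_Ann' 1) ?_ ?_ hloc
  · rw [hΩ, hu]
    exact charts hF hW
  · intro z hz
    have h1 : z ∈ Neck W 1 := ⟨1, one_mem _, hz⟩
    rw [hΩ, hu]
    exact ⟨Neck_sub hW le_rfl h1, kk_pos hF hW h1⟩
  · rw [hΩ, hu]
    intro z hz hk
    have hz' := hz
    obtain ⟨γ, hγ, hE⟩ := hz
    rw [← kk_law hF hW hγ hz', kk_eq hF hW (EE_sub_UU exp_neg_one_lt_one hE)] at hk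
    have h0 : 0 < dl W (γ z) := lt_of_lt_of_le one_pos hE
    have h1 : 0 < deriv (deriv F) (Real.log (dl W (γ z))) :=
      (pos_iff_pos_of_mul_pos hk).1 (Real.exp_pos _)
    rw [hF.dd_pos_iff, abs_lt, Real.log_lt_iff_lt_exp h0] at h1
    have h2 : γ z ∈ Neck W 1 := (EE_Neck hW one_pos le_rfl hE).2 h1.2
    obtain ⟨δ, hδ, h3⟩ := Neck_Gg ((Neck_inv hγ).1 h2)
    obtain ⟨g, hg⟩ := hG z hz' δ hδ
    exact ⟨g, by rw [hg]; exact h3⟩

end

end Pool.Agent.Lib_helper83.EQG.ERG2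

end

/-! ## Lib_helper83.GW.C07 -/

section

/-! Project EQ, package G: blocks C05 (annulus) and C07. -/

set_option autoImplicit false
set_option linter.unusedVariables false

namespace Pool.Agent.Lib_helper83.EQG.C07

open MeasureTheory Filter Topology Set Pool.Agent.EQ Pool.Agent.EQ.SP
open scoped ContDiff ComplexConjugate

noncomputable section

variable {W : ℕ} {F : ℝ → ℝ}

theorem isPreconnected_Ann (δ : ℝ) :
    IsPreconnected ((Ann δ) ×ˢ (univ : Set ℝ)) := ERG2.isPreconnected_Ann δ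

theorem ergodic_PG (hF : Prof F) (hW : 8 ≤ W) (Φ : GFlow (PG hF hW))
    (hm : ∀ t, MeasurePreserving (Φ.φ t) (PG hF hW).m (PG hF hW).m)
    (hloc : ∀ A, (PG hF hW).IsSetUM A → (PG hF hW).FlowInv A → ∀ v₀ ∈ (PG hF hW).S,
      0 < kk (PG hF hW).u v₀.1 → ∃ O : Set (ℂ × ℝ), IsOpen O ∧ v₀ ∈ O ∧ O ⊆ (PG hF hW).S ∧
        (volume (O ∩ A) = 0 ∨ volume (O \ A) = 0)) :
    (PG hF hW).Ergodic :=
  ERG2.ergodic_gen hF hW (PG hF hW) rfl rfl (fun z _ γ hγ => ⟨⟨γ, hγ⟩, rfl⟩) Φ hloc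

end

end Pool.Agent.Lib_helper83.EQG.C07

namespace Pool.Agent.EQ

open MeasureTheory Filter Topology Set SP
open scoped ContDiff ComplexConjugate

noncomputable section

variable {W : ℕ} {F : ℝ → ℝ}

theorem isPreconnected_Ann (δ : ℝ) :
    IsPreconnected ((Ann δ) ×ˢ (univ : Set ℝ)) :=
  Pool.Agent.Lib_helper83.EQG.C07.isPreconnected_Ann δ

theorem ergodic_PG (hF : Prof F) (hW : 8 ≤ W) (Φ : GFlow (PG hF hW))
    (hm : ∀ t, MeasurePreserving (Φ.φ t) (PG hF hW).m (PG hF hW).m)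
    (hloc : ∀ A, (PG hF hW).IsSetUM A → (PG hF hW).FlowInv A → ∀ v₀ ∈ (PG hF hW).S,
      0 < kk (PG hF hW).u v₀.1 → ∃ O : Set (ℂ × ℝ), IsOpen O ∧ v₀ ∈ O ∧ O ⊆ (PG hF hW).S ∧
        (volume (O ∩ A) = 0 ∨ volume (O \ A) = 0)) :
    (PG hF hW).Ergodic :=
  Pool.Agent.Lib_helper83.EQG.C07.ergodic_PG hF hW Φ hm hloc

end

end Pool.Agent.EQ

end

/-! ## Lib_helper83.GW.C08 -/

section

/-! Project EQ, package G, block C08: fundamental domain and neck domain. -/

set_option autoImplicit false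
set_option linter.unusedVariables false

namespace Pool.Agent.Lib_helper21.EQG.C08

open Pool.Agent.EQ
open MeasureTheory Filter Topology Set SP
open scoped ContDiff ComplexConjugate

noncomputable section

variable {W : ℕ} {F : ℝ → ℝ}

theorem isFund_Fd (hF : Prof F) (hW : 8 ≤ W) : (PG hF hW).IsFund (Fd W) :=
  ⟨measurableSet_Fd, Fd_sub hW, Fd_uniq hW⟩

theorem isJordan_Neck (hF : Prof F) (hW : 8 ≤ W) {δ : ℝ} (h0 : 0 < δ) (h1 : δ ≤ 1) :
    (PG hF hW).IsJordan (Neck W δ) :=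
  ⟨isOpen_Neck hW h1, Neck_sub hW h1, fun g z _ => Neck_inv (Gg_le g.2), Neck_frontier hW h0 h1⟩

theorem measOm (hW : 8 ≤ W) : MeasurableSet (Om W) := (isOpen_Om hW).measurableSet

/-- the closed box -/
def Bx (W : ℕ) : Set ℂ := {z | -4 ≤ z.re ∧ z.re ≤ 4 ∧ -4 ≤ z.im ∧ z.im ≤ (W : ℝ) - 4} ∩ EE W

theorem isCompact_Bx (W : ℕ) : IsCompact (Bx W) := by
  have hb : {z : ℂ | -4 ≤ z.re ∧ z.re ≤ 4 ∧ -4 ≤ z.im ∧ z.im ≤ (W : ℝ) - 4} = SP.box W := rfl
  have h := SP.isCompact_box W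
  rw [← hb] at h
  exact h.inter_right isClosed_EE

theorem uE_bound (hF : Prof F) (hW : 8 ≤ W) : ∃ C : ℝ, ∀ z ∈ Bx W,
    Real.exp (2 * uE F W z) ≤ C := by
  have hc : ContinuousOn (fun z => Real.exp (2 * uE F W z)) (Bx W) := by
    intro z hz
    have h1 : 0 < dl W z := lt_of_lt_of_le one_pos hz.2
    have h2 := (uE_smooth hF hW h1).continuousAt
    exact (Real.continuous_exp.continuousAt.comp (h2.const_mul 2)).continuousWithinAt
  obtain ⟨C, hC⟩ := (isCompact_Bx W).exists_bound_of_continuousOn hc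
  exact ⟨C, fun z hz => (le_abs_self _).trans (hC z hz)⟩

theorem area_eq (hF : Prof F) (hW : 8 ≤ W) {s : Set ℂ} (hs : MeasurableSet s) (hsub : s ⊆ Om W) :
    (PG hF hW).area s = ∫⁻ z in s, ENNReal.ofReal (Real.exp (2 * uu F W z)) := by
  show ((volume.restrict (Om W)).withDensity
    (fun z => ENNReal.ofReal (Real.exp (2 * uu F W z)))) s = _
  rw [withDensity_apply _ hs, Measure.restrict_restrict hs, inter_eq_left.2 hsub]

theorem area_Fd (hF : Prof F) (hW : 8 ≤ W) : (PG hF hW).area (Fd W) < ⊤ := by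
  rw [area_eq hF hW measurableSet_Fd (Fd_sub hW)]
  have h := lintegral_Fd (F := F) hW (fun _ => 1) (fun _ _ => rfl)
  simp only [one_mul] at h
  rw [h]
  obtain ⟨C, hC⟩ := uE_bound hF hW
  have hsub : EE W ∩ Rh W ⊆ Bx W := fun z hz =>
    ⟨⟨hz.2.1, hz.2.2.1.le, hz.2.2.2.1, hz.2.2.2.2.le⟩, hz.1⟩
  have h2 : ∫⁻ z in EE W ∩ Rh W, ENNReal.ofReal (Real.exp (2 * uu F W z)) ≤
      ∫⁻ z in EE W ∩ Rh W, ENNReal.ofReal C := by
    refine setLIntegral_mono measurable_const (fun z hz => ?_)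
    refine ENNReal.ofReal_le_ofReal ?_
    have hr : Real.exp (-1) < 1 := by
      rw [Real.exp_lt_one_iff]; norm_num
    rw [uu_eq hF hW (EE_sub_UU hr hz.1)]
    exact hC z (hsub hz)
  have h3 : ∫⁻ z in EE W ∩ Rh W, ENNReal.ofReal C < ⊤ := by
    rw [setLIntegral_const]
    refine ENNReal.mul_lt_top ENNReal.ofReal_lt_top ?_
    exact lt_of_le_of_lt (measure_mono hsub) (isCompact_Bx W).measure_lt_top
  exact ENNReal.mul_lt_top (by simp) (lt_of_le_of_lt h2 h3)

/-- the outer half of the first neck -/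
theorem ring_sub (hW : 8 ≤ W) {δ : ℝ} (h1 : δ ≤ 1) :
    {z : ℂ | 1 < ‖z‖ ∧ ‖z‖ < Real.exp δ} ⊆ Fd W ∩ Neck W δ := by
  rintro z ⟨hz1, hz2⟩
  have hW' : (8 : ℝ) ≤ W := by exact_mod_cast hW
  have h4 : ‖z‖ < 4 :=
    (hz2.trans_le (Real.exp_le_exp.2 h1)).trans exp_one_lt_four
  have a := abs_lt.1 (lt_of_le_of_lt (Complex.abs_re_le_norm z) h4)
  have b := abs_lt.1 (lt_of_le_of_lt (Complex.abs_im_le_norm z) h4)
  have hE : z ∈ EE W := by
    show 1 ≤ dl W z
    have e : dl W z = ‖z - lat W 0‖ := dl_eq hW (by rw [lat_zero, sub_zero]; exact h4.le)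
    rw [e, lat_zero, sub_zero]
    exact hz1.le
  refine ⟨Or.inl ⟨⟨hE, ⟨a.1.le, a.2, b.1.le, by linarith [b.2]⟩⟩, hz1⟩, 1, one_mem _, ?_⟩
  refine ⟨?_, hz2⟩
  show Real.exp (-δ) < ‖z‖
  rcases lt_or_ge 0 δ with h | h
  · have : Real.exp (-δ) < 1 := by
      rw [Real.exp_lt_one_iff]; linarith
    linarith
  · exfalso
    have : Real.exp δ ≤ 1 := Real.exp_le_one_iff.2 h
    linarith

theorem area_Neck (hF : Prof F) (hW : 8 ≤ W) {δ : ℝ} (h0 : 0 < δ) (h1 : δ ≤ 1) :
    0 < (PG hF hW).area (Fd W ∩ Neck W δ) := by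
  refine lt_of_lt_of_le ?_ (measure_mono (ring_sub hW h1))
  set O : Set ℂ := {z : ℂ | 1 < ‖z‖ ∧ ‖z‖ < Real.exp δ} with hO
  have hOo : IsOpen O := (isOpen_lt continuous_const continuous_norm).inter
    (isOpen_lt continuous_norm continuous_const)
  have hOm : O ⊆ Om W := fun z hz => Fd_sub hW (ring_sub hW h1 hz).1
  rw [pos_iff_ne_zero]
  intro hzero
  have hzero' : ((volume.restrict (Om W)).withDensity
    (fun z => ENNReal.ofReal (Real.exp (2 * uu F W z)))) O = 0 := hzero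
  have hmeas : AEMeasurable (fun z => ENNReal.ofReal (Real.exp (2 * uu F W z)))
      (volume.restrict (Om W)) := by
    have h2 : AEMeasurable (uu F W) (volume.restrict (Om W)) :=
      (uu_smooth hF hW).continuousOn.aemeasurable (measOm hW)
    exact (Real.measurable_exp.comp_aemeasurable (h2.const_mul 2)).ennreal_ofReal
  rw [withDensity_apply_eq_zero' hmeas] at hzero'
  have h3 : {x : ℂ | ENNReal.ofReal (Real.exp (2 * uu F W x)) ≠ 0} ∩ O = O := by
    ext x
    simp [Real.exp_pos]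
  rw [h3, Measure.restrict_apply hOo.measurableSet, inter_eq_left.2 hOm] at hzero'
  have hne : O.Nonempty := by
    refine ⟨((Real.exp (δ / 2) : ℝ) : ℂ), ?_, ?_⟩
    · rw [Complex.norm_real, Real.norm_eq_abs, abs_of_pos (Real.exp_pos _)]
      exact Real.one_lt_exp_iff.2 (by linarith)
    · rw [Complex.norm_real, Real.norm_eq_abs, abs_of_pos (Real.exp_pos _)]
      exact Real.exp_lt_exp.2 (by linarith)
  exact (hOo.measure_pos volume hne).ne' hzero'

end

end Pool.Agent.Lib_helper21.EQG.C08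

namespace Pool.Agent.EQ

open MeasureTheory Filter Topology Set SP
open scoped ContDiff ComplexConjugate

noncomputable section

variable {W : ℕ} {F : ℝ → ℝ}

theorem isFund_Fd (hF : Prof F) (hW : 8 ≤ W) : (PG hF hW).IsFund (Fd W) :=
  Pool.Agent.Lib_helper21.EQG.C08.isFund_Fd hF hW

theorem isJordan_Neck (hF : Prof F) (hW : 8 ≤ W) {δ : ℝ} (h0 : 0 < δ) (h1 : δ ≤ 1) :
    (PG hF hW).IsJordan (Neck W δ) :=
  Pool.Agent.Lib_helper21.EQG.C08.isJordan_Neck hF hW h0 h1

theorem area_Fd (hF : Prof F) (hW : 8 ≤ W) : (PG hF hW).area (Fd W) < ⊤ :=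
  Pool.Agent.Lib_helper21.EQG.C08.area_Fd hF hW

theorem area_Neck (hF : Prof F) (hW : 8 ≤ W) {δ : ℝ} (h0 : 0 < δ) (h1 : δ ≤ 1) :
    0 < (PG hF hW).area (Fd W ∩ Neck W δ) :=
  Pool.Agent.Lib_helper21.EQG.C08.area_Neck hF hW h0 h1

end

end Pool.Agent.EQ

end

/-! ## Lib_helper83.GW.C09 -/

section

/-! Project EQ, package G, block C09 (helper37, ported to version 2): bridge to the region of
package S2. -/

set_option autoImplicit false
set_option linter.unusedVariables false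

namespace Pool.Agent.Lib_helper37.EQG.C09

open Pool.Agent.EQ
open MeasureTheory Filter Topology Set Pool.Agent.EQ.SP
open scoped ContDiff ComplexConjugate

noncomputable section

variable {W : ℕ} {F : ℝ → ℝ}

theorem C09_line_re (c : ℝ) : volume {z : ℂ | z.re = c} = 0 := by
  have h := Complex.volume_preserving_equiv_real_prod
  have h2 : {z : ℂ | z.re = c} = Complex.measurableEquivRealProd ⁻¹' ({c} ×ˢ univ) := by
    ext z; simp [Complex.measurableEquivRealProd_apply]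
  rw [h2, h.measure_preimage_equiv, Measure.volume_eq_prod, Measure.prod_prod]
  simp

theorem C09_line_im (c : ℝ) : volume {z : ℂ | z.im = c} = 0 := by
  have h := Complex.volume_preserving_equiv_real_prod
  have h2 : {z : ℂ | z.im = c} = Complex.measurableEquivRealProd ⁻¹' (univ ×ˢ {c}) := by
    ext z; simp [Complex.measurableEquivRealProd_apply]
  rw [h2, h.measure_preimage_equiv, Measure.volume_eq_prod, Measure.prod_prod]
  simp

theorem C09_sets (hW : 8 ≤ W) : (EE W ∩ Rh W : Set ℂ) =ᵐ[volume] FF W := by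
  have h1 : ∀ᵐ z : ℂ, z.re ≠ 4 := by
    rw [ae_iff]; simpa using C09_line_re 4
  have h2 : ∀ᵐ z : ℂ, z.im ≠ (W : ℝ) - 4 := by
    rw [ae_iff]; simpa using C09_line_im ((W : ℝ) - 4)
  filter_upwards [h1, h2] with z hz1 hz2
  apply propext
  constructor
  · rintro ⟨hE, ha, hb, hc, hd⟩
    refine ⟨⟨ha, hb.le, hc, hd.le⟩, ?_⟩
    have h0 := mem_EE_iff.1 hE 0
    rw [lat_zero, sub_zero] at h0
    exact h0
  · intro hz
    have hE : z ∈ EE W := mem_EE_iff.2 (one_le_of_mem_FF hW hz)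
    obtain ⟨⟨ha, hb, hc, hd⟩, he⟩ := hz
    exact ⟨hE, ha, lt_of_le_of_ne hb hz1, hc, lt_of_le_of_ne hd hz2⟩

theorem C09_aem (hF : Prof F) (hW : 8 ≤ W) :
    AEMeasurable (fun z => ENNReal.ofReal (Real.exp (2 * uu F W z)))
      ((volume.restrict (Om W)).restrict (Fd W)) := by
  have h1 : ContinuousOn (fun z => ENNReal.ofReal (Real.exp (2 * uu F W z))) (Om W) := by
    have hu : ContinuousOn (uu F W) (Om W) := (uu_smooth hF hW).continuousOn
    exact ENNReal.continuous_ofReal.comp_continuousOn (continuousOn_const.mul hu).rexp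
  exact (h1.aemeasurable (isOpen_Om hW).measurableSet).mono_measure Measure.restrict_le_self

theorem C09_restrict (hW : 8 ≤ W) :
    (volume.restrict (Om W)).restrict (Fd W) = volume.restrict (Fd W) := by
  rw [Measure.restrict_restrict measurableSet_Fd, inter_eq_left.mpr (Fd_sub hW)]

theorem uu_eq_FF (hF : Prof F) (hW : 8 ≤ W) {z : ℂ} (hz : z ∈ FF W) : uu F W z = uE F W z :=
  uu_eq hF hW (FF_subset_UU hW (by rw [Real.exp_lt_one_iff]; norm_num) hz)

theorem lintegral_area (hF : Prof F) (hW : 8 ≤ W) (q : ℂ → ENNReal)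
    (hq : ∀ z ∈ Om W, q (ivE 0 z) = q z) :
    ∫⁻ z in Fd W, q z ∂(PG hF hW).area =
      2 * ∫⁻ z in FF W, q z * ENNReal.ofReal (Real.exp (2 * uE F W z)) := by
  have h0 : (PG hF hW).area = (volume.restrict (Om W)).withDensity
      (fun z => ENNReal.ofReal (Real.exp (2 * uu F W z))) := rfl
  have h1 : ∫⁻ z in FF W, q z * ENNReal.ofReal (Real.exp (2 * uE F W z)) =
      ∫⁻ z in FF W, q z * ENNReal.ofReal (Real.exp (2 * uu F W z)) :=
    setLIntegral_congr_fun (measurableSet_FF W) fun z hz => by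
      show _ * ENNReal.ofReal (Real.exp (2 * uE F W z)) = _
      rw [uu_eq_FF hF hW hz]
  rw [h1, h0, setLIntegral_withDensity_eq_setLIntegral_mul_non_measurable₀ _ (C09_aem hF hW) q
    measurableSet_Fd (Eventually.of_forall fun z => ENNReal.ofReal_lt_top), C09_restrict hW,
    ← setLIntegral_congr (C09_sets hW), ← lintegral_Fd hW q hq]
  refine lintegral_congr fun z => ?_
  rw [Pi.mul_apply, mul_comm]

theorem integral_area (hF : Prof F) (hW : 8 ≤ W) (q : ℂ → ℝ)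
    (hq : ∀ z ∈ Om W, q (ivE 0 z) = q z) :
    ∫ z in Fd W, q z ∂(PG hF hW).area =
      2 * ∫ z in FF W, q z * Real.exp (2 * uE F W z) := by
  have h0 : (PG hF hW).area = (volume.restrict (Om W)).withDensity
      (fun z => ENNReal.ofReal (Real.exp (2 * uu F W z))) := rfl
  have h1 : ∫ z in FF W, q z * Real.exp (2 * uE F W z) =
      ∫ z in FF W, q z * Real.exp (2 * uu F W z) :=
    setIntegral_congr_fun (measurableSet_FF W) fun z hz => by
      show _ * Real.exp (2 * uE F W z) = _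
      rw [uu_eq_FF hF hW hz]
  rw [h1, h0, setIntegral_withDensity_eq_setIntegral_toReal_smul₀ (C09_aem hF hW)
    (Eventually.of_forall fun z => ENNReal.ofReal_lt_top) q measurableSet_Fd, C09_restrict hW,
    ← setIntegral_congr_set (C09_sets hW), ← integral_Fd hW q hq]
  refine integral_congr_ae (Eventually.of_forall fun z => ?_)
  simp only [smul_eq_mul]
  rw [ENNReal.toReal_ofReal (Real.exp_pos _).le, mul_comm]

end

end Pool.Agent.Lib_helper37.EQG.C09

namespace Pool.Agent.EQ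

open MeasureTheory Filter Topology Set SP
open scoped ContDiff ComplexConjugate

noncomputable section

variable {W : ℕ} {F : ℝ → ℝ}

theorem uu_eq_FF (hF : Prof F) (hW : 8 ≤ W) {z : ℂ} (hz : z ∈ FF W) : uu F W z = uE F W z :=
  Pool.Agent.Lib_helper37.EQG.C09.uu_eq_FF hF hW hz

theorem lintegral_area (hF : Prof F) (hW : 8 ≤ W) (q : ℂ → ENNReal)
    (hq : ∀ z ∈ Om W, q (ivE 0 z) = q z) :
    ∫⁻ z in Fd W, q z ∂(PG hF hW).area =
      2 * ∫⁻ z in FF W, q z * ENNReal.ofReal (Real.exp (2 * uE F W z)) :=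
  Pool.Agent.Lib_helper37.EQG.C09.lintegral_area hF hW q hq

theorem integral_area (hF : Prof F) (hW : 8 ≤ W) (q : ℂ → ℝ)
    (hq : ∀ z ∈ Om W, q (ivE 0 z) = q z) :
    ∫ z in Fd W, q z ∂(PG hF hW).area =
      2 * ∫ z in FF W, q z * Real.exp (2 * uE F W z) :=
  Pool.Agent.Lib_helper37.EQG.C09.integral_area hF hW q hq

end

end Pool.Agent.EQ

end

/-! ## Lib_helper83.GW.C10 -/

section

/-! Project EQ, package G, block C10. -/

set_option autoImplicit false
set_option linter.unusedVariables false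

namespace Pool.Agent.Lib_helper18.EQG.C10

open Pool.Agent.EQ
open MeasureTheory Filter Topology Set SP
open scoped ContDiff ComplexConjugate

noncomputable section

variable {W : ℕ} {F : ℝ → ℝ}

theorem core_lift (hF : Prof F) (hW : 8 ≤ W) (g : ℂ → ℝ) (hg : IsCore W g) (lam r : ℝ)
    (hr : r < 1) (h : ∀ z ∈ UU W r, -lap g z = lam * Real.exp (2 * uE F W z) * g z) :
    ∃ g' : ℂ → ℝ, (PG hF hW).IsEigen g' lam ∧ GfInv W g' ∧ ∀ z ∈ EE W, g' z = g z := by
  obtain ⟨hper, s, hs0, hs1, hsm, hinv⟩ := hg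
  have hl := lift_smooth hW g s hs1 hsm (fun z _ q => hper q z) (fun z h1 h2 => by
    have h3 : ivE 0 z = inv1 z := by
      rw [ivE_apply, zero_add, sub_zero]
      rfl
    rw [h3]
    refine hinv z h1 (h2.trans ?_)
    exact (one_lt_inv₀ hs0).2 hs1)
  obtain ⟨hl1, hl2, hl3⟩ := hl
  have hm1 : max s (1 / 6) < 1 := max_lt hs1 (by norm_num)
  have hE : ∀ z ∈ EE W, g (pr W z) = g z := fun z hz => hl3 z (EE_sub_UU hm1 hz)
  have heq : ∀ z ∈ EE W, -lap (fun z => g (pr W z)) z =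
      lam * Real.exp (2 * uu F W z) * g (pr W z) := by
    intro z hz
    have e1 : (fun w => g (pr W w)) =ᶠ[𝓝 z] g := by
      filter_upwards [(isOpen_UU W (max s (1 / 6))).mem_nhds (EE_sub_UU hm1 hz)] with w hw
      exact hl3 w hw
    have e2 : Real.exp (-1) < 1 := by
      have := Real.exp_lt_exp.2 (show (-1 : ℝ) < 0 by norm_num)
      rwa [Real.exp_zero] at this
    rw [M0_lap_congr e1, hE z hz, uu_eq hF hW (EE_sub_UU e2 hz)]
    exact h z (EE_sub_UU hr hz)
  refine ⟨fun z => g (pr W z), ⟨⟨hl1, ?_⟩, ?_⟩, hl2, hE⟩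
  · intro γ z hz
    exact hl2 (Subtype.val γ : Equiv.Perm ℂ) (Gg_le (Subtype.prop γ)) z hz
  · intro z hz
    exact eigen_lift hW (fun z => g (pr W z)) hl1 hl2 lam heq z hz

/-- the weight is admissible for package S2 -/
theorem wt_uE (hF : Prof F) (hW : 8 ≤ W) :
    (∀ p z, Real.exp (2 * uE F W (z + lat W p)) = Real.exp (2 * uE F W z)) ∧
    ContDiffOn ℝ ∞ (fun z => Real.exp (2 * uE F W z)) (UU W (Real.exp (-1))) ∧
    ∀ z, Real.exp (-1) < ‖z‖ → ‖z‖ < (Real.exp (-1))⁻¹ →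
      Real.exp (2 * uE F W (inv1 z)) = ‖z‖ ^ 4 * Real.exp (2 * uE F W z) := by
  refine ⟨fun p z => by rw [uE_add], ?_, ?_⟩
  · intro z hz
    have h0 : 0 < dl W z := (Real.exp_pos _).trans hz
    exact ((contDiffAt_const.mul (uE_smooth hF hW h0)).exp).contDiffWithinAt
  · intro z h1 h2
    have hz : lat W 0 = 0 := lat_zero
    have e1 : (1 / 4 : ℝ) < Real.exp (-1) := by
      rw [Real.exp_neg, one_div]
      exact inv_strictAnti₀ (Real.exp_pos 1) exp_one_lt_four
    have e2 : (Real.exp (-1))⁻¹ < 4 := by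
      rw [Real.exp_neg, inv_inv]
      exact exp_one_lt_four
    have h3 := uE_inv hF hW (z := z) (p := 0) (by rw [hz, sub_zero]; linarith)
      (by rw [hz, sub_zero]; linarith)
    have h4 : invl (lat W 0) z = inv1 z := by
      rw [hz]
      unfold invl inv1
      rw [zero_add, sub_zero]
    rw [h4, hz, sub_zero] at h3
    have hz0 : 0 < ‖z‖ := (Real.exp_pos _).trans h1
    rw [h3, mul_add, Real.exp_add, mul_comm (‖z‖ ^ 4)]
    congr 1
    rw [show 2 * (2 * Real.log ‖z‖) = (4 : ℕ) * Real.log ‖z‖ by push_cast; ring,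
      Real.exp_nat_mul, Real.exp_log hz0]

end

end Pool.Agent.Lib_helper18.EQG.C10

namespace Pool.Agent.EQ

open MeasureTheory Filter Topology Set SP
open scoped ContDiff ComplexConjugate

noncomputable section

variable {W : ℕ} {F : ℝ → ℝ}

theorem core_lift (hF : Prof F) (hW : 8 ≤ W) (g : ℂ → ℝ) (hg : IsCore W g) (lam r : ℝ)
    (hr : r < 1) (h : ∀ z ∈ UU W r, -lap g z = lam * Real.exp (2 * uE F W z) * g z) :
    ∃ g' : ℂ → ℝ, (PG hF hW).IsEigen g' lam ∧ GfInv W g' ∧ ∀ z ∈ EE W, g' z = g z :=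
  Pool.Agent.Lib_helper18.EQG.C10.core_lift hF hW g hg lam r hr h

theorem wt_uE (hF : Prof F) (hW : 8 ≤ W) :
    (∀ p z, Real.exp (2 * uE F W (z + lat W p)) = Real.exp (2 * uE F W z)) ∧
    ContDiffOn ℝ ∞ (fun z => Real.exp (2 * uE F W z)) (UU W (Real.exp (-1))) ∧
    ∀ z, Real.exp (-1) < ‖z‖ → ‖z‖ < (Real.exp (-1))⁻¹ →
      Real.exp (2 * uE F W (inv1 z)) = ‖z‖ ^ 4 * Real.exp (2 * uE F W z) :=
  Pool.Agent.Lib_helper18.EQG.C10.wt_uE hF hW

end

end Pool.Agent.EQ

end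

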