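import Mathlib
import Pool.Agent.Lib_helper71.EQM.SpA

/-! Project EQ (MP_ed6ab2_an): merged modules Lib_helper98.EQSF.COMP, Lib_helper98.EQSF.CPTDIV, Lib_helper98.EQSF.FRN, Lib_helper98.EQSF.DEF, Lib_helper98.EQSF.POS, Lib_helper98.EQSF.LMUL, Lib_helper98.EQSF.TORDIV, Lib_helper98.EQSF.IBP1, Lib_helper98.EQSF.QM, Lib_helper98.EQSF.LAPI, Lib_helper98.EQSF.SYM, Lib_helper98.EQSF.FOLDS, Lib_helper98.EQSF.INVCV. -/

set_option autoImplicit false

/-! ## Lib_helper98.EQSF.COMP -/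

section

set_option autoImplicit false

namespace Pool.Agent.EQ.SP

open MeasureTheory Filter Topology Set Pool.Agent.EQ
open scoped ContDiff

noncomputable section

variable {W : ℕ} [hW : Fact (8 ≤ W)]

theorem COMP_nonempty : (FF W).Nonempty := by
  have hW' : (8:ℝ) ≤ W := by exact_mod_cast hW.out
  refine ⟨4, ⟨by norm_num, by norm_num, by norm_num, ?_⟩, by norm_num⟩
  show (4:ℂ).im ≤ (W:ℝ) - 4
  have : (4:ℂ).im = 0 := by norm_num
  linarith

theorem COMP_lower {ρ : ℂ → ℝ} (hρ : ContinuousOn ρ (FF W)) (hpos : ∀ z ∈ FF W, 0 < ρ z) :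
    ∃ c : ℝ, 0 < c ∧ ∀ u : HV W, c * ‖u‖ ^ 2 ≤ eform W u u + bform W ρ hρ u u := by
  obtain ⟨z0, hz0, hmin⟩ := (isCompact_FF W).exists_isMinOn COMP_nonempty hρ
  have hc0 : 0 < ρ z0 := hpos z0 hz0
  refine ⟨min 1 (ρ z0), lt_min one_pos hc0, fun u => ?_⟩
  have h1 : bform W (fun _ => ρ z0) continuousOn_const u u ≤ bform W ρ hρ u u :=
    bform_mono _ _ (fun z hz => hmin hz) u
  have h2 : bform W (fun _ => ρ z0) continuousOn_const u u =
      ρ z0 * bform W (fun _ => 1) continuousOn_one u u +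
        0 * bform W (fun _ => 1) continuousOn_one u u :=
    bform_add_wt continuousOn_one continuousOn_one continuousOn_const (ρ z0) 0
      (fun z _ => by ring) u u
  have h3 : 0 ≤ eform W u u := eform_nonneg u
  have h4 : 0 ≤ bform W (fun _ => 1) continuousOn_one u u :=
    bform_nonneg _ (fun _ _ => zero_le_one) u
  rw [norm_sq_HV]
  have h5 : min 1 (ρ z0) * eform W u u ≤ 1 * eform W u u :=
    mul_le_mul_of_nonneg_right (min_le_left _ _) h3
  have h6 : min 1 (ρ z0) * bform W (fun _ => 1) continuousOn_one u u ≤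
      ρ z0 * bform W (fun _ => 1) continuousOn_one u u :=
    mul_le_mul_of_nonneg_right (min_le_right _ _) h4
  rw [mul_add]
  linarith

theorem form_complete {ρ : ℂ → ℝ} (hρ : ContinuousOn ρ (FF W)) (hpos : ∀ z ∈ FF W, 0 < ρ z)
    (u : ℕ → HV W)
    (hu : ∀ ε > 0, ∃ N, ∀ m ≥ N, ∀ n ≥ N,
      eform W (u m - u n) (u m - u n) + bform W ρ hρ (u m - u n) (u m - u n) < ε) :
    ∃ v, Tendsto (fun n => eform W (u n - v) (u n - v) + bform W ρ hρ (u n - v) (u n - v))
      atTop (𝓝 0) := by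
  obtain ⟨c, hc, hlow⟩ := COMP_lower hρ hpos
  have hcau : CauchySeq u := by
    rw [Metric.cauchySeq_iff]
    intro ε hε
    obtain ⟨N, hN⟩ := hu (c * ε ^ 2) (by positivity)
    refine ⟨N, fun m hm n hn => ?_⟩
    have h1 := hN m hm n hn
    have h2 := hlow (u m - u n)
    have h3 : ‖u m - u n‖ ^ 2 < ε ^ 2 := lt_of_mul_lt_mul_left (h2.trans_lt h1) hc.le
    rw [dist_eq_norm]
    exact lt_of_pow_lt_pow_left₀ 2 hε.le h3
  obtain ⟨v, hv⟩ := cauchySeq_tendsto_of_complete hcau
  refine ⟨v, ?_⟩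
  have hcont : Continuous fun w : HV W => eform W w w + bform W ρ hρ w w := by
    have h1 : Continuous fun w : HV W => eform W w w :=
      continuous_eform.comp (continuous_id.prodMk continuous_id)
    have h2 : Continuous fun w : HV W => bform W ρ hρ w w :=
      (continuous_bform ρ hρ).comp (continuous_id.prodMk continuous_id)
    exact h1.add h2
  have h0 : Tendsto (fun n => u n - v) atTop (𝓝 0) := by
    have := hv.sub_const v
    rwa [sub_self] at this
  have h1 := (hcont.tendsto 0).comp h0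
  have h2 : eform W (0 : HV W) 0 + bform W ρ hρ (0 : HV W) 0 = 0 := by simp
  rw [h2] at h1
  exact h1

end

end Pool.Agent.EQ.SP

end

/-! ## Lib_helper98.EQSF.CPTDIV -/

section

set_option autoImplicit false

namespace Pool.Agent.EQ.SP

open MeasureTheory Filter Topology Set Pool.Agent.EQ
open scoped ContDiff

noncomputable section

theorem CPTDIV_aux {G : ℂ → ℝ} (hG : ContDiff ℝ 1 G) (hc : HasCompactSupport G) (v : ℂ) :
    ∫ z, fderiv ℝ G z v = 0 := by
  have hcont : Continuous (fun z => fderiv ℝ G z v) :=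
    (hG.continuous_fderiv (by norm_num)).clm_apply continuous_const
  have hc2 : HasCompactSupport (fun z => fderiv ℝ G z v) := hc.fderiv_apply ℝ v
  have hi : Integrable (fun z => fderiv ℝ G z v) := hcont.integrable_of_hasCompactSupport hc2
  have hiG : Integrable G := hG.continuous.integrable_of_hasCompactSupport hc
  have h := integral_mul_fderiv_eq_neg_fderiv_mul_of_integrable (μ := (volume : Measure ℂ))
    (f := fun _ : ℂ => (1:ℝ)) (g := G) (v := v) (by simp) (by simpa using hi)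
    (by simpa using hiG) (fun x _ => differentiableAt_const _)
    (fun x _ => (hG.differentiable (by norm_num)) x)
  simpa using h

/-- B2 CPTDIV: divergence theorem for compactly supported functions. -/
theorem cptdiv {G : ℂ → ℝ} (hG : ContDiff ℝ 1 G) (hc : HasCompactSupport G) :
    ∫ z, dx G z = 0 ∧ ∫ z, dy G z = 0 :=
  ⟨CPTDIV_aux hG hc 1, CPTDIV_aux hG hc Complex.I⟩

end

end Pool.Agent.EQ.SP

end

/-! ## Lib_helper98.EQSF.FRN -/

section

set_option autoImplicit false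

namespace Pool.Agent.EQ.SP

open MeasureTheory Filter Topology Set Pool.Agent.EQ
open scoped ContDiff

noncomputable section

theorem FRN_re (c : ℝ) : volume {z : ℂ | z.re = c} = 0 := by
  have h : {z : ℂ | z.re = c} = Complex.measurableEquivRealProd ⁻¹' ({c} ×ˢ univ) := by
    ext z
    simp [Complex.measurableEquivRealProd_apply]
  rw [h, Complex.volume_preserving_equiv_real_prod.measure_preimage
    ((measurableSet_singleton c).prod MeasurableSet.univ).nullMeasurableSet,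
    Measure.volume_eq_prod, Measure.prod_prod, Real.volume_singleton, zero_mul]

theorem FRN_im (c : ℝ) : volume {z : ℂ | z.im = c} = 0 := by
  have h : {z : ℂ | z.im = c} = Complex.measurableEquivRealProd ⁻¹' (univ ×ˢ {c}) := by
    ext z
    simp [Complex.measurableEquivRealProd_apply]
  rw [h, Complex.volume_preserving_equiv_real_prod.measure_preimage
    (MeasurableSet.univ.prod (measurableSet_singleton c)).nullMeasurableSet,
    Measure.volume_eq_prod, Measure.prod_prod, Real.volume_singleton, mul_zero]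

theorem volume_FF_boundary (W : ℕ) :
    volume (FF W \ {z : ℂ | (-4 < z.re ∧ z.re < 4) ∧ (-4 < z.im ∧ z.im < W - 4) ∧ 1 < ‖z‖}) = 0 := by
  have hsub : (FF W \ {z : ℂ | (-4 < z.re ∧ z.re < 4) ∧ (-4 < z.im ∧ z.im < W - 4) ∧ 1 < ‖z‖}) ⊆
      ((({z : ℂ | z.re = -4} ∪ {z : ℂ | z.re = 4}) ∪
        ({z : ℂ | z.im = -4} ∪ {z : ℂ | z.im = (W:ℝ) - 4})) ∪ Metric.sphere (0:ℂ) 1) := by
    rintro z ⟨⟨⟨h1, h2, h3, h4⟩, h5⟩, hn⟩
    by_contra hcon
    simp only [mem_union, mem_ofPred_eq, Metric.mem_sphere, dist_zero_right, not_or] at hcon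
    obtain ⟨⟨⟨c1, c2⟩, c3, c4⟩, c5⟩ := hcon
    exact hn ⟨⟨lt_of_le_of_ne h1 (Ne.symm c1), lt_of_le_of_ne h2 c2⟩,
      ⟨lt_of_le_of_ne h3 (Ne.symm c3), lt_of_le_of_ne h4 c4⟩, lt_of_le_of_ne h5 (Ne.symm c5)⟩
  refine measure_mono_null hsub ?_
  rw [measure_union_null_iff, measure_union_null_iff, measure_union_null_iff,
    measure_union_null_iff]
  exact ⟨⟨⟨FRN_re _, FRN_re _⟩, FRN_im _, FRN_im _⟩, Measure.addHaar_sphere _ _ _⟩

end

end Pool.Agent.EQ.SP

end

/-! ## Lib_helper98.EQSF.DEF -/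

section

/-! Project EQ, package S2, block DEF: the value determines the gradient. -/

set_option autoImplicit false

namespace Pool.Agent.EQ.SP

open MeasureTheory Filter Topology Set Pool.Agent.EQ
open scoped ContDiff

noncomputable section

variable {W : ℕ} [hW : Fact (8 ≤ W)]

/-- the interior of the region -/
def DEF_I (W : ℕ) : Set ℂ :=
  {z : ℂ | (-4 < z.re ∧ z.re < 4) ∧ (-4 < z.im ∧ z.im < W - 4) ∧ 1 < ‖z‖}

theorem DEF_isOpen (W : ℕ) : IsOpen (DEF_I W) := by
  have h1 : IsOpen {z : ℂ | -4 < z.re} := isOpen_lt continuous_const Complex.continuous_re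
  have h2 : IsOpen {z : ℂ | z.re < 4} := isOpen_lt Complex.continuous_re continuous_const
  have h3 : IsOpen {z : ℂ | -4 < z.im} := isOpen_lt continuous_const Complex.continuous_im
  have h4 : IsOpen {z : ℂ | z.im < W - 4} := isOpen_lt Complex.continuous_im continuous_const
  have h5 : IsOpen {z : ℂ | 1 < ‖z‖} := isOpen_lt continuous_const continuous_norm
  exact (h1.inter h2).inter ((h3.inter h4).inter h5)

theorem DEF_subset (W : ℕ) : DEF_I W ⊆ FF W := by
  rintro z ⟨⟨h1, h2⟩, ⟨h3, h4⟩, h5⟩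
  exact ⟨⟨h1.le, h2.le, h3.le, h4.le⟩, h5.le⟩

theorem DEF_ae (W : ℕ) : ∀ᵐ z ∂(mu W), z ∈ DEF_I W := by
  rw [mu, ae_restrict_iff' (measurableSet_FF W)]
  have h := volume_FF_boundary W
  rw [ae_iff]
  refine measure_mono_null ?_ h
  intro z hz
  simp only [mem_ofPred_eq, Classical.not_imp] at hz
  exact ⟨hz.1, hz.2⟩

omit hW in
theorem DEF_memLp_vec (i : Fin 3) {g : ℂ → ℝ} (hg : MemLp g 2 (mu W)) :
    MemLp (fun z => (EuclideanSpace.single i (g z) : E3)) 2 (mu W) := by
  refine hg.of_le ?_ (Eventually.of_forall fun z => by simp)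
  have hc : Continuous fun t : ℝ => (EuclideanSpace.single i t : E3) := by
    refine (PiLp.continuous_toLp 2 _).comp ?_
    exact continuous_pi fun j => by
      by_cases h : j = i
      · subst h; simpa using continuous_id'
      · simpa [Pi.single_apply, h] using continuous_const
  exact hc.comp_aestronglyMeasurable hg.1

/-- the continuous functional `u ↦ ∫ g uᵢ` -/
def DEF_lin (i : Fin 3) (g : ℂ → ℝ) (hg : MemLp g 2 (mu W)) : HV W →L[ℝ] ℝ :=
  (innerSL ℝ ((DEF_memLp_vec i hg).toLp _)).comp (HV W).subtypeL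

theorem DEF_lin_apply (i : Fin 3) (g : ℂ → ℝ) (hg : MemLp g 2 (mu W)) (u : HV W) :
    DEF_lin i g hg u = ∫ z, g z * (u : Lp E3 2 (mu W)) z i ∂(mu W) := by
  show inner ℝ ((DEF_memLp_vec i hg).toLp _) (u : Lp E3 2 (mu W)) = _
  rw [L2.inner_def]
  apply integral_congr_ae
  filter_upwards [(DEF_memLp_vec i hg).coeFn_toLp] with z hz
  rw [hz, EuclideanSpace.inner_single_left]
  simp

theorem DEF_dir {e : ℂ} (he : e = 1 ∨ e = Complex.I) {G : ℂ → ℝ} (hG : ContDiff ℝ 1 G)
    (hc : HasCompactSupport G) : ∫ z, fderiv ℝ G z e = 0 := by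
  rcases he with rfl | rfl
  · exact (cptdiv hG hc).1
  · exact (cptdiv hG hc).2

theorem DEF_core {e : ℂ} (he : e = 1 ∨ e = Complex.I) (f : coreSub W) {η : ℂ → ℝ}
    (h1 : ContDiff ℝ ∞ η) (h2 : HasCompactSupport η) (h3 : tsupport η ⊆ DEF_I W) :
    ∫ z in FF W, η z * fderiv ℝ f.1 z e = -∫ z in FF W, fderiv ℝ η z e * f.1 z := by
  have hat : ∀ z ∈ FF W, ContDiffAt ℝ ∞ f.1 z := fun z hz => IsCore.contDiffAt hW.out f.2 hz
  have hoff : ∀ z, z ∉ tsupport η → η =ᶠ[𝓝 z] 0 := fun z hz =>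
    notMem_tsupport_iff_eventuallyEq.1 hz
  have hin : ∀ z ∈ tsupport η, z ∈ FF W := fun z hz => DEF_subset W (h3 hz)
  set G : ℂ → ℝ := fun z => η z * f.1 z with hG
  have hoffG : ∀ z, z ∉ tsupport η → G =ᶠ[𝓝 z] fun _ => (0:ℝ) := by
    intro z hz
    filter_upwards [hoff z hz] with w hw
    simp [hG, hw]
  have hGs : ContDiff ℝ 1 G := by
    rw [contDiff_iff_contDiffAt]
    intro z
    by_cases hz : z ∈ tsupport η
    · exact ((h1.contDiffAt).mul (hat z (hin z hz))).of_le (by simp)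
    · exact (contDiffAt_const (c := (0:ℝ))).congr_of_eventuallyEq (hoffG z hz)
  have hGc : HasCompactSupport G := h2.mul_right
  have hd : ∀ z, fderiv ℝ G z e = η z * fderiv ℝ f.1 z e + fderiv ℝ η z e * f.1 z := by
    intro z
    by_cases hz : z ∈ tsupport η
    · have a := (h1.differentiable (by simp)).differentiableAt (x := z)
      have b := (hat z (hin z hz)).differentiableAt (by simp)
      rw [hG, fderiv_fun_mul a b]
      simp
      ring
    · have e1 : fderiv ℝ G z = 0 := by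
        rw [(hoffG z hz).fderiv_eq]; simp
      have e2 : fderiv ℝ η z = 0 := by
        rw [(hoff z hz).fderiv_eq]
        have : (0 : ℂ → ℝ) = fun _ => (0:ℝ) := rfl
        rw [this]; simp
      have e3 : η z = 0 := image_eq_zero_of_notMem_tsupport hz
      rw [e1, e2, e3]; simp
  have h0 := DEF_dir he hGs hGc
  have h4 : ∫ z in FF W, (η z * fderiv ℝ f.1 z e + fderiv ℝ η z e * f.1 z) = 0 := by
    rw [setIntegral_eq_integral_of_forall_compl_eq_zero]
    · rw [← h0]
      exact integral_congr_ae (Eventually.of_forall fun z => (hd z).symm)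
    · intro z hz
      have hz' : z ∉ tsupport η := fun h => hz (hin z h)
      rw [← hd z, (hoffG z hz').fderiv_eq]; simp
  have i1 : IntegrableOn (fun z => η z * fderiv ℝ f.1 z e) (FF W) := by
    refine ContinuousOn.integrableOn_compact (isCompact_FF W) ?_
    intro z hz
    have c1 : ContinuousAt (fun z => fderiv ℝ f.1 z e) z := by
      have h : ContDiffAt ℝ ∞ (fderiv ℝ f.1) z := (hat z hz).fderiv_right (m := ∞) (by simp)
      exact (h.clm_apply contDiffAt_const).continuousAt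
    exact (h1.continuous.continuousAt.mul c1).continuousWithinAt
  have i2 : IntegrableOn (fun z => fderiv ℝ η z e * f.1 z) (FF W) := by
    refine ContinuousOn.integrableOn_compact (isCompact_FF W) ?_
    intro z hz
    have c1 : ContinuousAt (fun z => fderiv ℝ η z e) z := by
      have h : ContDiffAt ℝ ∞ (fderiv ℝ η) z := h1.contDiffAt.fderiv_right (m := ∞) (by simp)
      exact (h.clm_apply contDiffAt_const).continuousAt
    exact (c1.mul (hat z hz).continuousAt).continuousWithinAt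
  rw [integral_add i1 i2] at h4
  linarith

omit hW in
theorem DEF_cont_memLp {g : ℂ → ℝ} (hg : Continuous g) : MemLp g 2 (mu W) := by
  obtain ⟨C, hC⟩ := (isCompact_FF W).exists_bound_of_continuousOn hg.continuousOn
  refine MemLp.of_bound hg.aestronglyMeasurable C ?_
  exact (ae_restrict_iff' (measurableSet_FF W)).2 (Eventually.of_forall hC)

/-- the weak derivative relation on the whole space -/
theorem DEF_weak {e : ℂ} (he : e = 1 ∨ e = Complex.I) {i : Fin 3}
    (hi : ∀ (f : ℂ → ℝ) (z : ℂ), emb f z i = fderiv ℝ f z e) {η : ℂ → ℝ}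
    (h1 : ContDiff ℝ ∞ η) (h2 : HasCompactSupport η) (h3 : tsupport η ⊆ DEF_I W) (u : HV W) :
    ∫ z, η z * (u : Lp E3 2 (mu W)) z i ∂(mu W) =
      -∫ z, fderiv ℝ η z e * (u : Lp E3 2 (mu W)) z 0 ∂(mu W) := by
  have hc : Continuous fun z => fderiv ℝ η z e := by
    have h := h1.continuous_fderiv (by simp)
    exact h.clm_apply continuous_const
  rw [← DEF_lin_apply i η (DEF_cont_memLp h1.continuous) u,
    ← DEF_lin_apply 0 _ (DEF_cont_memLp hc) u]
  refine HV.closure_induction (P := fun u => DEF_lin i η (DEF_cont_memLp h1.continuous) u =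
    -DEF_lin 0 _ (DEF_cont_memLp hc) u) ?_ ?_ u
  · exact isClosed_eq (ContinuousLinearMap.continuous _) (ContinuousLinearMap.continuous _).neg
  · intro f
    rw [DEF_lin_apply, DEF_lin_apply]
    have e1 : ∫ z, η z * ((J W f : HV W) : Lp E3 2 (mu W)) z i ∂(mu W) =
        ∫ z in FF W, η z * fderiv ℝ f.1 z e := by
      apply integral_congr_ae
      filter_upwards [J_ae f] with z hz
      rw [hz, hi]
    have e2 : ∫ z, fderiv ℝ η z e * ((J W f : HV W) : Lp E3 2 (mu W)) z 0 ∂(mu W) =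
        ∫ z in FF W, fderiv ℝ η z e * f.1 z := by
      apply integral_congr_ae
      filter_upwards [J_ae f] with z hz
      rw [hz]
      simp [emb]
    rw [e1, e2]
    exact DEF_core he f h1 h2 h3

theorem DEF_comp {e : ℂ} (he : e = 1 ∨ e = Complex.I) {i : Fin 3}
    (hi : ∀ (f : ℂ → ℝ) (z : ℂ), emb f z i = fderiv ℝ f z e)
    (u : HV W) (h : ∀ᵐ z ∂(mu W), (u : Lp E3 2 (mu W)) z 0 = 0) :
    ∀ᵐ z ∂(mu W), (u : Lp E3 2 (mu W)) z i = 0 := by
  have hL : Integrable (fun z => (u : Lp E3 2 (mu W)) z i) (mu W) := by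
    have hw := Lp.memLp (u : Lp E3 2 (mu W))
    have hm : MemLp (fun z => (u : Lp E3 2 (mu W)) z i) 2 (mu W) :=
      hw.of_le ((EuclideanSpace.proj (𝕜 := ℝ) i).continuous.comp_aestronglyMeasurable hw.1)
        (Eventually.of_forall fun z => PiLp.norm_apply_le _ i)
    exact hm.integrable (by norm_num)
  have key := (DEF_isOpen W).ae_eq_zero_of_integral_contDiff_smul_eq_zero
    (μ := mu W) (f := fun z => (u : Lp E3 2 (mu W)) z i)
    (hL.locallyIntegrable.locallyIntegrableOn _) (by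
      intro η h1 h2 h3
      simp only [smul_eq_mul]
      rw [DEF_weak he hi h1 h2 h3 u, neg_eq_zero]
      refine integral_eq_zero_of_ae ?_
      filter_upwards [h] with z hz
      rw [hz]; simp)
  filter_upwards [key, DEF_ae W] with z a b using a b

/-- B18 DEF: the value determines the gradient. -/
theorem definite (u : HV W) (h : ∀ᵐ z ∂(mu W), (u : Lp E3 2 (mu W)) z 0 = 0) : u = 0 := by
  have h1 := DEF_comp (i := 1) (Or.inl rfl) (fun f z => by simp [emb, EQ.dx]) u h
  have h2 := DEF_comp (i := 2) (Or.inr rfl) (fun f z => by simp [emb, EQ.dy]) u h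
  apply Subtype.ext
  show (u : Lp E3 2 (mu W)) = 0
  rw [Lp.eq_zero_iff_ae_eq_zero]
  filter_upwards [h, h1, h2] with z a b c
  ext i
  fin_cases i
  · exact a
  · exact b
  · exact c

end

end Pool.Agent.EQ.SP

end

/-! ## Lib_helper98.EQSF.POS -/

section

/-! MP_ed6ab2_an, project EQ, package S2, block POS. -/

set_option autoImplicit false

namespace Pool.Agent.EQ.SP

open MeasureTheory Filter Topology Set Pool.Agent.EQ
open scoped ContDiff

noncomputable section

variable {W : ℕ} [hW : Fact (8 ≤ W)]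

/-- positivity of the weighted form -/
theorem bform_pos {ρ : ℂ → ℝ} (hρ : ContinuousOn ρ (FF W)) (hpos : ∀ z ∈ FF W, 0 < ρ z)
    (u : HV W) (hu : u ≠ 0) : 0 < bform W ρ hρ u u := by
  rcases (bform_nonneg hρ (fun z hz => (hpos z hz).le) u).lt_or_eq with h | h
  · exact h
  exfalso
  apply hu
  apply definite
  have hnn : 0 ≤ᵐ[mu W] fun z => ρ z * ((u : Lp E3 2 (mu W)) z 0 * (u : Lp E3 2 (mu W)) z 0) :=
    (ae_restrict_iff' (measurableSet_FF W)).2
      (Eventually.of_forall fun z hz => mul_nonneg (hpos z hz).le (mul_self_nonneg _))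
  have h0 := (integral_eq_zero_iff_of_nonneg_ae hnn (integrable_wt_mul hρ _ _ 0 0)).1
    (by rw [← bform_apply]; exact h.symm)
  have hF : ∀ᵐ z ∂(mu W), z ∈ FF W := ae_restrict_mem (measurableSet_FF W)
  filter_upwards [h0, hF] with z hz hzF
  have h1 := hpos z hzF
  rcases mul_eq_zero.1 hz with h | h
  · exact absurd h h1.ne'
  · exact mul_self_eq_zero.1 h

end

end Pool.Agent.EQ.SP

end

/-! ## Lib_helper98.EQSF.LMUL -/

section

set_option autoImplicit false

namespace Pool.Agent.EQ.SP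

open MeasureTheory Filter Topology Set Pool.Agent.EQ
open scoped ContDiff

noncomputable section

theorem LMUL_dx_mul {f g : ℂ → ℝ} {z : ℂ} (hf : DifferentiableAt ℝ f z)
    (hg : DifferentiableAt ℝ g z) :
    dx (fun w => f w * g w) z = dx f z * g z + f z * dx g z := by
  unfold dx
  rw [fderiv_fun_mul hf hg]
  simp only [add_apply, smul_apply, smul_eq_mul]
  ring

theorem LMUL_dy_mul {f g : ℂ → ℝ} {z : ℂ} (hf : DifferentiableAt ℝ f z)
    (hg : DifferentiableAt ℝ g z) :
    dy (fun w => f w * g w) z = dy f z * g z + f z * dy g z := by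
  unfold dy
  rw [fderiv_fun_mul hf hg]
  simp only [add_apply, smul_apply, smul_eq_mul]
  ring

theorem LMUL_diff_dx {f : ℂ → ℝ} {z : ℂ} (hf : ContDiffAt ℝ 2 f z) :
    DifferentiableAt ℝ (dx f) z := by
  have h : ContDiffAt ℝ 1 (fderiv ℝ f) z := hf.fderiv_right (by norm_num)
  have h2 : DifferentiableAt ℝ (fderiv ℝ f) z := h.differentiableAt (by norm_num)
  exact h2.clm_apply (differentiableAt_const _)

theorem LMUL_diff_dy {f : ℂ → ℝ} {z : ℂ} (hf : ContDiffAt ℝ 2 f z) :
    DifferentiableAt ℝ (dy f) z := by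
  have h : ContDiffAt ℝ 1 (fderiv ℝ f) z := hf.fderiv_right (by norm_num)
  have h2 : DifferentiableAt ℝ (fderiv ℝ f) z := h.differentiableAt (by norm_num)
  exact h2.clm_apply (differentiableAt_const _)

theorem LMUL_ev {f : ℂ → ℝ} {z : ℂ} (hf : ContDiffAt ℝ 2 f z) :
    ∀ᶠ w in 𝓝 z, DifferentiableAt ℝ f w := by
  have h : ∀ᶠ w in 𝓝 z, ContDiffAt ℝ 2 f w := hf.eventually (by norm_num)
  exact h.mono (fun w hw => hw.differentiableAt (by norm_num))

theorem LMUL_dx_congr {f g : ℂ → ℝ} {z : ℂ} (h : f =ᶠ[𝓝 z] g) : dx f z = dx g z := by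
  unfold dx
  rw [h.fderiv_eq]

theorem LMUL_dy_congr {f g : ℂ → ℝ} {z : ℂ} (h : f =ᶠ[𝓝 z] g) : dy f z = dy g z := by
  unfold dy
  rw [h.fderiv_eq]

theorem LMUL_dx_add {f g : ℂ → ℝ} {z : ℂ} (hf : DifferentiableAt ℝ f z)
    (hg : DifferentiableAt ℝ g z) : dx (fun w => f w + g w) z = dx f z + dx g z := by
  unfold dx
  rw [fderiv_fun_add hf hg]
  simp

theorem LMUL_dy_add {f g : ℂ → ℝ} {z : ℂ} (hf : DifferentiableAt ℝ f z)
    (hg : DifferentiableAt ℝ g z) : dy (fun w => f w + g w) z = dy f z + dy g z := by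
  unfold dy
  rw [fderiv_fun_add hf hg]
  simp

/-- B5 LMUL: product rules. -/
theorem lap_mul {f g : ℂ → ℝ} {z : ℂ} (hf : ContDiffAt ℝ 2 f z) (hg : ContDiffAt ℝ 2 g z) :
    lap (fun w => f w * g w) z =
      f z * lap g z + g z * lap f z + 2 * (dx f z * dx g z + dy f z * dy g z) := by
  have hf1 : DifferentiableAt ℝ f z := hf.differentiableAt (by norm_num)
  have hg1 : DifferentiableAt ℝ g z := hg.differentiableAt (by norm_num)
  have e1 : dx (fun w => f w * g w) =ᶠ[𝓝 z] fun w => dx f w * g w + f w * dx g w := by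
    filter_upwards [LMUL_ev hf, LMUL_ev hg] with w h1 h2
    exact LMUL_dx_mul h1 h2
  have e2 : dy (fun w => f w * g w) =ᶠ[𝓝 z] fun w => dy f w * g w + f w * dy g w := by
    filter_upwards [LMUL_ev hf, LMUL_ev hg] with w h1 h2
    exact LMUL_dy_mul h1 h2
  have a1 := LMUL_diff_dx hf
  have a2 := LMUL_diff_dx hg
  have a3 := LMUL_diff_dy hf
  have a4 := LMUL_diff_dy hg
  unfold lap
  have b1 := LMUL_dx_add (f := fun w => dx f w * g w) (g := fun w => f w * dx g w)
    (a1.mul hg1) (hf1.mul a2)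
  have b2 := LMUL_dy_add (f := fun w => dy f w * g w) (g := fun w => f w * dy g w)
    (a3.mul hg1) (hf1.mul a4)
  rw [LMUL_dx_congr e1, LMUL_dy_congr e2, b1, b2, LMUL_dx_mul a1 hg1, LMUL_dx_mul hf1 a2,
    LMUL_dy_mul a3 hg1, LMUL_dy_mul hf1 a4]
  ring

/-- B5 also. -/
theorem div_mul {f g : ℂ → ℝ} {z : ℂ} (hf : ContDiffAt ℝ 2 f z) (hg : ContDiffAt ℝ 2 g z) :
    dx (fun w => f w * dx g w) z + dy (fun w => f w * dy g w) z =
      (dx f z * dx g z + dy f z * dy g z) + f z * lap g z := by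
  have hf1 : DifferentiableAt ℝ f z := hf.differentiableAt (by norm_num)
  have a2 := LMUL_diff_dx hg
  have a4 := LMUL_diff_dy hg
  rw [LMUL_dx_mul hf1 a2, LMUL_dy_mul hf1 a4]
  unfold lap
  ring

end

end Pool.Agent.EQ.SP

end

/-! ## Lib_helper98.EQSF.TORDIV -/

section

set_option autoImplicit false

namespace Pool.Agent.EQ.SP

open MeasureTheory Filter Topology Set Pool.Agent.EQ
open scoped ContDiff

noncomputable section

theorem TORDIV_int {f : ℂ → ℝ} (hf : Continuous f) (a b c d : ℝ) :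
    ∫ z in {z : ℂ | a ≤ z.re ∧ z.re ≤ b ∧ c ≤ z.im ∧ z.im ≤ d}, f z =
      ∫ x in Icc a b, ∫ y in Icc c d, f ⟨x, y⟩ := by
  have e : {z : ℂ | a ≤ z.re ∧ z.re ≤ b ∧ c ≤ z.im ∧ z.im ≤ d} =
      Complex.measurableEquivRealProd ⁻¹' (Icc a b ×ˢ Icc c d) := by
    ext z
    simp [Complex.measurableEquivRealProd_apply]
    tauto
  have e2 : ∀ z : ℂ, f z = (fun p : ℝ × ℝ => f ⟨p.1, p.2⟩) (Complex.measurableEquivRealProd z) := by
    intro z
    simp [Complex.measurableEquivRealProd_apply]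
  rw [e]
  rw [show (∫ z in Complex.measurableEquivRealProd ⁻¹' (Icc a b ×ˢ Icc c d), f z) =
      ∫ z in Complex.measurableEquivRealProd ⁻¹' (Icc a b ×ˢ Icc c d),
        (fun p : ℝ × ℝ => f ⟨p.1, p.2⟩) (Complex.measurableEquivRealProd z) from by
    apply setIntegral_congr_fun
    · exact Complex.measurableEquivRealProd.measurable (measurableSet_Icc.prod measurableSet_Icc)
    · intro z _
      exact e2 z]
  rw [Complex.volume_preserving_equiv_real_prod.setIntegral_preimage_emb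
    Complex.measurableEquivRealProd.measurableEmbedding (fun p : ℝ × ℝ => f ⟨p.1, p.2⟩)]
  rw [Measure.volume_eq_prod, setIntegral_prod]
  have hcont : Continuous (fun p : ℝ × ℝ => f ⟨p.1, p.2⟩) := by
    apply hf.comp
    exact Complex.equivRealProdCLM.symm.continuous
  exact hcont.continuousOn.integrableOn_compact (isCompact_Icc.prod isCompact_Icc)

theorem TORDIV_swap {f : ℂ → ℝ} (hf : Continuous f) (a b c d : ℝ) :
    ∫ x in Icc a b, ∫ y in Icc c d, f ⟨x, y⟩ = ∫ y in Icc c d, ∫ x in Icc a b, f ⟨x, y⟩ := by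
  apply integral_integral_swap
  have hcont : Continuous (fun p : ℝ × ℝ => f ⟨p.1, p.2⟩) := by
    apply hf.comp
    exact Complex.equivRealProdCLM.symm.continuous
  have : IntegrableOn (fun p : ℝ × ℝ => f ⟨p.1, p.2⟩) (Icc a b ×ˢ Icc c d)
      (volume.prod volume) := by
    rw [← Measure.volume_eq_prod]
    exact hcont.continuousOn.integrableOn_compact (isCompact_Icc.prod isCompact_Icc)
  rw [IntegrableOn, ← Measure.prod_restrict] at this
  exact this

/-- B1 TORDIV: divergence theorem on the torus. -/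
theorem tordiv {W : ℕ} [hW : Fact (8 ≤ W)] {G : ℂ → ℝ} (hG : ContDiff ℝ 1 G)
    (hper : ∀ p z, G (z + lat W p) = G z) :
    ∫ z in box W, dx G z = 0 ∧ ∫ z in box W, dy G z = 0 := by
  have hd : Differentiable ℝ G := hG.differentiable (by norm_num)
  have hcx : Continuous (dx G) := (hG.continuous_fderiv (by norm_num)).clm_apply continuous_const
  have hcy : Continuous (dy G) := (hG.continuous_fderiv (by norm_num)).clm_apply continuous_const
  have hW0 : (8:ℝ) ≤ W := by exact_mod_cast hW.out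
  constructor
  · unfold box
    rw [TORDIV_int hcx, TORDIV_swap hcx]
    apply integral_eq_zero_of_ae
    filter_upwards with y
    have h1 : ∫ x in Icc (-4:ℝ) 4, dx G ⟨x, y⟩ = G ⟨4, y⟩ - G ⟨-4, y⟩ := by
      rw [integral_Icc_eq_integral_Ioc, ← intervalIntegral.integral_of_le (by norm_num)]
      have hder : ∀ x : ℝ, HasDerivAt (fun x : ℝ => G ⟨x, y⟩) (dx G ⟨x, y⟩) x := by
        intro x
        have hp : HasDerivAt (fun x : ℝ => (⟨x, y⟩ : ℂ)) 1 x := by
          have : (fun x : ℝ => (⟨x, y⟩ : ℂ)) = fun x : ℝ => (x:ℂ) + y * Complex.I := by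
            funext x
            apply Complex.ext <;> simp
          rw [this]
          exact (Complex.ofRealCLM.hasDerivAt (x := x)).add_const _
        exact (hd ⟨x, y⟩).hasFDerivAt.comp_hasDerivAt x hp
      exact intervalIntegral.integral_eq_sub_of_hasDerivAt (fun x _ => hder x)
        ((hcx.comp (by
          have : (fun x : ℝ => (⟨x, y⟩ : ℂ)) = fun x : ℝ => (x:ℂ) + y * Complex.I := by
            funext x
            apply Complex.ext <;> simp
          rw [this]
          fun_prop : Continuous (fun x : ℝ => (⟨x, y⟩ : ℂ)))).intervalIntegrable _ _)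
    have h2 : G ⟨4, y⟩ = G ⟨-4, y⟩ := by
      rw [← hper (1, 0) ⟨-4, y⟩]
      congr 1
      apply Complex.ext
      · simp [lat]; norm_num
      · simp [lat]
    simp only [Pi.zero_apply]
    rw [h1, h2, sub_self]
  · unfold box
    rw [TORDIV_int hcy]
    apply integral_eq_zero_of_ae
    filter_upwards with x
    have h1 : ∫ y in Icc (-4:ℝ) (W - 4), dy G ⟨x, y⟩ = G ⟨x, W - 4⟩ - G ⟨x, -4⟩ := by
      rw [integral_Icc_eq_integral_Ioc, ← intervalIntegral.integral_of_le (by linarith)]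
      have hder : ∀ y : ℝ, HasDerivAt (fun y : ℝ => G ⟨x, y⟩) (dy G ⟨x, y⟩) y := by
        intro y
        have hp : HasDerivAt (fun y : ℝ => (⟨x, y⟩ : ℂ)) Complex.I y := by
          have : (fun y : ℝ => (⟨x, y⟩ : ℂ)) = fun y : ℝ => (x:ℂ) + (y:ℂ) * Complex.I := by
            funext x
            apply Complex.ext <;> simp
          rw [this]
          have := ((Complex.ofRealCLM.hasDerivAt (x := y)).mul_const Complex.I).const_add (x:ℂ)
          simpa using this
        exact (hd ⟨x, y⟩).hasFDerivAt.comp_hasDerivAt y hp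
      exact intervalIntegral.integral_eq_sub_of_hasDerivAt (fun x _ => hder x)
        ((hcy.comp (by
          have : (fun y : ℝ => (⟨x, y⟩ : ℂ)) = fun y : ℝ => (x:ℂ) + y * Complex.I := by
            funext x
            apply Complex.ext <;> simp
          rw [this]
          fun_prop : Continuous (fun y : ℝ => (⟨x, y⟩ : ℂ)))).intervalIntegrable _ _)
    have h2 : G ⟨x, W - 4⟩ = G ⟨x, -4⟩ := by
      rw [← hper (0, 1) ⟨x, -4⟩]
      congr 1
      apply Complex.ext
      · simp [lat]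
      · simp [lat]; ring
    simp only [Pi.zero_apply]
    rw [h1, h2, sub_self]

end

end Pool.Agent.EQ.SP

end

/-! ## Lib_helper98.EQSF.IBP1 -/

section

/-! Block IBP1 of project EQ (MP_ed6ab2_an): integration by parts against a core function that
vanishes near the holes. -/

set_option autoImplicit false

namespace Pool.Agent.EQ.SP

open MeasureTheory Filter Topology Set Pool.Agent.EQ
open scoped ContDiff

noncomputable section

variable {W : ℕ} [hW : Fact (8 ≤ W)]

omit hW in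
theorem IBP1_memLp {G : ℂ → ℝ} (h : ContinuousOn G (FF W)) : MemLp G 2 (mu W) := by
  obtain ⟨C, hC⟩ := (isCompact_FF W).exists_bound_of_continuousOn h
  refine MemLp.of_bound (h.aestronglyMeasurable (measurableSet_FF W)) C ?_
  exact (ae_restrict_iff' (measurableSet_FF W)).2 (Eventually.of_forall hC)

theorem IBP1_contDiffAt_lap {f : ℂ → ℝ} {z : ℂ} (hf : ContDiffAt ℝ ∞ f z) :
    ContDiffAt ℝ ∞ (lap f) z :=
  (ContDiffAt.dx (ContDiffAt.dx hf)).add (ContDiffAt.dy (ContDiffAt.dy hf))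

theorem IBP1_dx_congr {f g : ℂ → ℝ} {z : ℂ} (h : f =ᶠ[𝓝 z] g) : dx f =ᶠ[𝓝 z] dx g := by
  filter_upwards [h.fderiv (𝕜 := ℝ)] with w hw
  simp only [EQ.dx, hw]

theorem IBP1_dy_congr {f g : ℂ → ℝ} {z : ℂ} (h : f =ᶠ[𝓝 z] g) : dy f =ᶠ[𝓝 z] dy g := by
  filter_upwards [h.fderiv (𝕜 := ℝ)] with w hw
  simp only [EQ.dy, hw]

theorem IBP1_two_le : (2 : WithTop ℕ∞) ≤ ∞ := by
  have h : ((2 : ℕ∞) : WithTop ℕ∞) ≤ ((⊤ : ℕ∞) : WithTop ℕ∞) := WithTop.coe_le_coe.2 le_top
  exact h

theorem IBP1_dx_zero : dx (fun _ : ℂ => (0:ℝ)) = fun _ => 0 := by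
  ext z; simp [EQ.dx]

theorem IBP1_dy_zero : dy (fun _ : ℂ => (0:ℝ)) = fun _ => 0 := by
  ext z; simp [EQ.dy]

theorem IBP1_dx_per {f : ℂ → ℝ} {a : ℂ} (h : ∀ z, f (z + a) = f z) (z : ℂ) :
    dx f (z + a) = dx f z := by
  have h1 : (fun z => f (z + a)) = f := funext h
  have h2 := fderiv_comp_add_right (𝕜 := ℝ) (f := f) (x := z) a
  rw [h1] at h2
  simp only [EQ.dx, h2]

theorem IBP1_dy_per {f : ℂ → ℝ} {a : ℂ} (h : ∀ z, f (z + a) = f z) (z : ℂ) :
    dy f (z + a) = dy f z := by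
  have h1 : (fun z => f (z + a)) = f := funext h
  have h2 := fderiv_comp_add_right (𝕜 := ℝ) (f := f) (x := z) a
  rw [h1] at h2
  simp only [EQ.dy, h2]

omit hW in
/-- near a point close to the holes everything is zero -/
theorem IBP1_near_zero {f : ℂ → ℝ} {δ : ℝ} (hz : ∀ z, Metric.infDist z (range (lat W)) ≤ 1 + δ →
    f z = 0) {z : ℂ} (h : Metric.infDist z (range (lat W)) < 1 + δ) :
    f =ᶠ[𝓝 z] fun _ => 0 := by
  have ho : IsOpen {w : ℂ | Metric.infDist w (range (lat W)) < 1 + δ} :=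
    isOpen_lt (Metric.continuous_infDist_pt _) continuous_const
  filter_upwards [ho.mem_nhds h] with w hw
  exact hz w hw.le

/-- the product of a core function with a derivative of a vanishing core function is smooth -/
theorem IBP1_core (v h : coreSub W) (hz : Van W h.1) :
    ∫ z in FF W, (dx v.1 z * dx h.1 z + dy v.1 z * dy h.1 z) =
      -∫ z in FF W, lap h.1 z * v.1 z := by
  obtain ⟨δ, hδ, hvan⟩ := hz
  obtain ⟨hvp, rv, hrv0, hrv1, hvs, -⟩ := v.2
  obtain ⟨hhp, rh, hrh0, hrh1, hhs, -⟩ := h.2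
  have hfar : ∀ z : ℂ, ¬ Metric.infDist z (range (lat W)) < 1 + δ →
      ContDiffAt ℝ ∞ v.1 z ∧ ContDiffAt ℝ ∞ h.1 z := by
    intro z hz
    have h1 : 1 + δ ≤ Metric.infDist z (range (lat W)) := not_lt.1 hz
    exact ⟨hvs.contDiffAt ((isOpen_UU W rv).mem_nhds (show rv < _ by linarith)),
      hhs.contDiffAt ((isOpen_UU W rh).mem_nhds (show rh < _ by linarith))⟩
  have hG1 : ContDiff ℝ ∞ (fun w => v.1 w * dx h.1 w) := by
    rw [contDiff_iff_contDiffAt]
    intro z
    by_cases hz : Metric.infDist z (range (lat W)) < 1 + δ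
    · have h1 := IBP1_dx_congr (IBP1_near_zero hvan hz)
      rw [IBP1_dx_zero] at h1
      have h2 : (fun w => v.1 w * dx h.1 w) =ᶠ[𝓝 z] fun _ => 0 := by
        filter_upwards [h1] with w hw
        rw [hw, mul_zero]
      exact contDiffAt_const.congr_of_eventuallyEq h2
    · exact (hfar z hz).1.mul (ContDiffAt.dx (hfar z hz).2)
  have hG2 : ContDiff ℝ ∞ (fun w => v.1 w * dy h.1 w) := by
    rw [contDiff_iff_contDiffAt]
    intro z
    by_cases hz : Metric.infDist z (range (lat W)) < 1 + δ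
    · have h1 := IBP1_dy_congr (IBP1_near_zero hvan hz)
      rw [IBP1_dy_zero] at h1
      have h2 : (fun w => v.1 w * dy h.1 w) =ᶠ[𝓝 z] fun _ => 0 := by
        filter_upwards [h1] with w hw
        rw [hw, mul_zero]
      exact contDiffAt_const.congr_of_eventuallyEq h2
    · exact (hfar z hz).1.mul (ContDiffAt.dy (hfar z hz).2)
  have hT1 := (tordiv (W := W) (hG1.of_le (by simp))
    (fun p z => by rw [hvp p z, IBP1_dx_per (hhp p) z])).1
  have hT2 := (tordiv (W := W) (hG2.of_le (by simp))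
    (fun p z => by rw [hvp p z, IBP1_dy_per (hhp p) z])).2
  have hc1 : Continuous (dx (fun w => v.1 w * dx h.1 w)) :=
    (hG1.continuous_fderiv (by simp)).clm_apply continuous_const
  have hc2 : Continuous (dy (fun w => v.1 w * dy h.1 w)) :=
    (hG2.continuous_fderiv (by simp)).clm_apply continuous_const
  have hbox : ∫ z in box W, (dx (fun w => v.1 w * dx h.1 w) z +
      dy (fun w => v.1 w * dy h.1 w) z) = 0 := by
    rw [integral_add (hc1.continuousOn.integrableOn_compact (isCompact_box W))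
      (hc2.continuousOn.integrableOn_compact (isCompact_box W)), hT1, hT2, add_zero]
  have hsub : ∫ z in box W, (dx (fun w => v.1 w * dx h.1 w) z +
      dy (fun w => v.1 w * dy h.1 w) z) = ∫ z in FF W, (dx (fun w => v.1 w * dx h.1 w) z +
      dy (fun w => v.1 w * dy h.1 w) z) := by
    refine setIntegral_eq_of_subset_of_forall_sdiff_eq_zero (isClosed_box W).measurableSet
      (fun z hz => hz.1) ?_
    rintro z ⟨hz1, hz2⟩
    have hz3 : ‖z‖ < 1 := by
      by_contra hcon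
      exact hz2 ⟨hz1, not_lt.1 hcon⟩
    have hz4 : Metric.infDist z (range (lat W)) < 1 + δ := by
      have h1 : Metric.infDist z (range (lat W)) ≤ dist z (lat W (0, 0)) :=
        Metric.infDist_le_dist_of_mem (mem_range_self _)
      have h2 : lat W (0, 0) = 0 := by apply Complex.ext <;> simp [lat]
      rw [h2, dist_zero_right] at h1
      linarith
    have h0 := IBP1_near_zero hvan hz4
    have h1 := IBP1_dx_congr h0
    have h2 := IBP1_dy_congr h0
    rw [IBP1_dx_zero] at h1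
    rw [IBP1_dy_zero] at h2
    have e1 : (fun w => v.1 w * dx h.1 w) =ᶠ[𝓝 z] fun _ => 0 := by
      filter_upwards [h1] with w hw
      rw [hw, mul_zero]
    have e2 : (fun w => v.1 w * dy h.1 w) =ᶠ[𝓝 z] fun _ => 0 := by
      filter_upwards [h2] with w hw
      rw [hw, mul_zero]
    have e3 := (IBP1_dx_congr e1).self_of_nhds
    have e4 := (IBP1_dy_congr e2).self_of_nhds
    rw [IBP1_dx_zero] at e3
    rw [IBP1_dy_zero] at e4
    rw [e3, e4, add_zero]
  have hcv : ∀ z ∈ FF W, ContDiffAt ℝ ∞ v.1 z := fun z hz => IsCore.contDiffAt hW.out v.2 hz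
  have hch : ∀ z ∈ FF W, ContDiffAt ℝ ∞ h.1 z := fun z hz => IsCore.contDiffAt hW.out h.2 hz
  have hF : ∫ z in FF W, ((dx v.1 z * dx h.1 z + dy v.1 z * dy h.1 z) + lap h.1 z * v.1 z) = 0 := by
    rw [← hbox, hsub]
    refine setIntegral_congr_fun (measurableSet_FF W) fun z hz => ?_
    show _ = dx (fun w => v.1 w * dx h.1 w) z + dy (fun w => v.1 w * dy h.1 w) z
    rw [div_mul ((hcv z hz).of_le IBP1_two_le) ((hch z hz).of_le IBP1_two_le)]
    ring
  have hi1 : IntegrableOn (fun z => dx v.1 z * dx h.1 z + dy v.1 z * dy h.1 z) (FF W) := by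
    refine ContinuousOn.integrableOn_compact (isCompact_FF W) fun z hz => ?_
    exact (((ContDiffAt.dx (hcv z hz)).continuousAt.mul (ContDiffAt.dx (hch z hz)).continuousAt).add
      ((ContDiffAt.dy (hcv z hz)).continuousAt.mul
        (ContDiffAt.dy (hch z hz)).continuousAt)).continuousWithinAt
  have hi2 : IntegrableOn (fun z => lap h.1 z * v.1 z) (FF W) := by
    refine ContinuousOn.integrableOn_compact (isCompact_FF W) fun z hz => ?_
    exact ((IBP1_contDiffAt_lap (hch z hz)).continuousAt.mul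
      (hcv z hz).continuousAt).continuousWithinAt
  rw [integral_add hi1 hi2] at hF
  linarith

/-- B7 IBP1. -/
theorem ibp_van (h : coreSub W) (hz : Van W h.1) (u : HV W) :
    eform W u (J W h) = -∫ z in FF W, (u : Lp E3 2 (mu W)) z 0 * lap h.1 z := by
  have hlap : ContinuousOn (lap h.1) (FF W) := fun z hz =>
    (IBP1_contDiffAt_lap (IsCore.contDiffAt hW.out h.2 hz)).continuousAt.continuousWithinAt
  have hL := IBP1_memLp hlap
  have key : eform W u (J W h) = -lin W (lap h.1) hL u := by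
    refine HV.closure_induction (P := fun u => eform W u (J W h) = -lin W (lap h.1) hL u)
      ?_ ?_ u
    · exact isClosed_eq (continuous_eform.comp (continuous_id.prodMk continuous_const))
        (lin W (lap h.1) hL).continuous.neg
    · intro v
      rw [eform_J, lin_J]
      exact IBP1_core v h hz
  rw [key, lin_apply]
  congr 1
  refine integral_congr_ae (Eventually.of_forall fun z => ?_)
  exact mul_comm _ _

end

end Pool.Agent.EQ.SP

end

/-! ## Lib_helper98.EQSF.QM -/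

section

/-! Project EQ, package S2, block QM (helper28): quasimodes. -/

set_option autoImplicit false

namespace Pool.Agent.EQ.SP

open MeasureTheory Filter Topology Set Pool.Agent.EQ
open scoped ContDiff

noncomputable section

/-! ### the cut-off on the line -/

/-- a smooth `1`-periodic function, zero for `|s| ≤ 1/4` -/
def QM_C (s : ℝ) : ℝ := expNegInvGlue (-Real.cos (2 * Real.pi * s) - 1 / 2)

theorem QM_C_smooth : ContDiff ℝ ∞ QM_C := by
  unfold QM_C
  have h : ContDiff ℝ ∞ (fun s : ℝ => -Real.cos (2 * Real.pi * s) - 1 / 2) := by fun_prop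
  exact (expNegInvGlue.contDiff (n := ⊤)).comp h

theorem QM_C_per : Function.Periodic QM_C 1 := by
  intro s
  unfold QM_C
  have : 2 * Real.pi * (s + 1) = 2 * Real.pi * s + 2 * Real.pi := by ring
  rw [this, Real.cos_add_two_pi]

/-- first derivative -/
def QM_C1 : ℝ → ℝ := deriv QM_C

/-- second derivative -/
def QM_C2 : ℝ → ℝ := deriv QM_C1

theorem QM_C1_smooth : ContDiff ℝ ∞ QM_C1 := by
  have h : ContDiff ℝ (∞ + 1) QM_C := QM_C_smooth
  exact (contDiff_succ_iff_deriv.mp h).2.2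

theorem QM_C2_smooth : ContDiff ℝ ∞ QM_C2 := by
  have h : ContDiff ℝ (∞ + 1) QM_C1 := QM_C1_smooth
  exact (contDiff_succ_iff_deriv.mp h).2.2

theorem QM_hC (s : ℝ) : HasDerivAt QM_C (QM_C1 s) s :=
  ((QM_C_smooth.differentiable (by simp)) s).hasDerivAt

theorem QM_hC1 (s : ℝ) : HasDerivAt QM_C1 (QM_C2 s) s :=
  ((QM_C1_smooth.differentiable (by simp)) s).hasDerivAt

theorem QM_per_deriv {f f' : ℝ → ℝ} (hf : Function.Periodic f 1) (h : ∀ s, HasDerivAt f (f' s) s) :
    Function.Periodic f' 1 := by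
  intro s
  have h1 : HasDerivAt (fun x => f (x + 1)) (f' (s + 1)) s := (h (s + 1)).comp_add_const s 1
  have h2 : (fun x => f (x + 1)) = f := funext hf
  rw [h2] at h1
  exact h1.unique (h s)

theorem QM_C1_per : Function.Periodic QM_C1 1 := QM_per_deriv QM_C_per QM_hC

theorem QM_C2_per : Function.Periodic QM_C2 1 := QM_per_deriv QM_C1_per QM_hC1

/-- vanishing near `0` -/
theorem QM_zero0 (s : ℝ) (hs : |s| ≤ 1 / 4) : QM_C s = 0 ∧ QM_C2 s = 0 := by
  have hpi := Real.pi_pos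
  have h0 : ∀ t : ℝ, -(1 / 2) < Real.cos (2 * Real.pi * t) → QM_C t = 0 := by
    intro t ht
    exact expNegInvGlue.zero_of_nonpos (by linarith)
  have h1 : -(1 / 2) < Real.cos (2 * Real.pi * s) := by
    have := Real.cos_nonneg_of_mem_Icc (x := 2 * Real.pi * s)
      ⟨by have := (abs_le.mp hs).1; nlinarith, by have := (abs_le.mp hs).2; nlinarith⟩
    linarith
  have h2 : ∀ᶠ t in 𝓝 s, QM_C t = 0 := by
    have hc : ContinuousAt (fun t : ℝ => Real.cos (2 * Real.pi * t)) s := by fun_prop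
    filter_upwards [hc.eventually (lt_mem_nhds h1)] with t ht
    exact h0 t ht
  refine ⟨h0 s h1, ?_⟩
  have h3 : QM_C =ᶠ[𝓝 s] fun _ => 0 := h2
  have h4 : QM_C1 =ᶠ[𝓝 s] fun _ => 0 := by
    have := h3.deriv
    simpa [QM_C1] using this
  have h5 : QM_C2 s = deriv (fun _ => (0 : ℝ)) s := h4.deriv_eq
  rw [h5]; simp

theorem QM_zero (s : ℝ) (n : ℤ) (hs : |s - n| ≤ 1 / 4) : QM_C s = 0 ∧ QM_C2 s = 0 := by
  have h := QM_zero0 (s - n) hs
  have e1 : QM_C (s - n) = QM_C s := by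
    have := QM_C_per.sub_int_mul_eq (x := s) n
    simpa using this
  have e2 : QM_C2 (s - n) = QM_C2 s := by
    have := QM_C2_per.sub_int_mul_eq (x := s) n
    simpa using this
  rw [e1, e2] at h
  exact h

theorem QM_C_half : 0 < QM_C (1 / 2) := by
  unfold QM_C
  apply expNegInvGlue.pos_of_pos
  have : 2 * Real.pi * (1 / 2) = Real.pi := by ring
  rw [this, Real.cos_pi]; norm_num

theorem QM_pos : 0 < ∫ s in (0 : ℝ)..1, QM_C s ^ 2 := by
  apply intervalIntegral.integral_pos zero_lt_one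
  · exact (QM_C_smooth.continuous.pow 2).continuousOn
  · intro x _; positivity
  · exact ⟨1 / 2, ⟨by norm_num, by norm_num⟩, by have := QM_C_half; positivity⟩

theorem QM_scale {g : ℝ → ℝ} (hg : Function.Periodic g 1) (W : ℝ) (hW : 0 < W) :
    ∫ y in (-4 : ℝ)..(W - 4), g (y / W) = W * ∫ s in (0 : ℝ)..1, g s := by
  rw [intervalIntegral.integral_comp_div (fun x => g x) hW.ne', smul_eq_mul]
  have e : (W - 4) / W = -4 / W + 1 := by field_simp; ring
  rw [e, hg.intervalIntegral_add_eq (-4 / W) 0, zero_add]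

/-! ### product functions in the plane -/

theorem QM_fderiv {a a' b b' : ℝ → ℝ} (ha : ∀ t, HasDerivAt a (a' t) t)
    (hb : ∀ t, HasDerivAt b (b' t) t) (z : ℂ) :
    HasFDerivAt (fun z : ℂ => a z.im * b z.re)
      (a z.im • (b' z.re • Complex.reCLM) + b z.re • (a' z.im • Complex.imCLM)) z := by
  have h1 : HasFDerivAt (fun z : ℂ => a z.im) (a' z.im • Complex.imCLM) z :=
    (ha z.im).comp_hasFDerivAt z Complex.imCLM.hasFDerivAt
  have h2 : HasFDerivAt (fun z : ℂ => b z.re) (b' z.re • Complex.reCLM) z :=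
    (hb z.re).comp_hasFDerivAt z Complex.reCLM.hasFDerivAt
  exact h1.mul h2

theorem QM_dx {a a' b b' : ℝ → ℝ} (ha : ∀ t, HasDerivAt a (a' t) t)
    (hb : ∀ t, HasDerivAt b (b' t) t) :
    dx (fun z : ℂ => a z.im * b z.re) = fun z : ℂ => a z.im * b' z.re := by
  funext z
  rw [dx, (QM_fderiv ha hb z).fderiv]
  simp

theorem QM_dy {a a' b b' : ℝ → ℝ} (ha : ∀ t, HasDerivAt a (a' t) t)
    (hb : ∀ t, HasDerivAt b (b' t) t) :
    dy (fun z : ℂ => a z.im * b z.re) = fun z : ℂ => a' z.im * b z.re := by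
  funext z
  rw [dy, (QM_fderiv ha hb z).fderiv]
  simp [mul_comm]

theorem QM_lap {a a' a'' b b' b'' : ℝ → ℝ} (ha : ∀ t, HasDerivAt a (a' t) t)
    (ha' : ∀ t, HasDerivAt a' (a'' t) t)
    (hb : ∀ t, HasDerivAt b (b' t) t) (hb' : ∀ t, HasDerivAt b' (b'' t) t) (z : ℂ) :
    lap (fun z : ℂ => a z.im * b z.re) z = a z.im * b'' z.re + a'' z.im * b z.re := by
  rw [lap, QM_dx ha hb, QM_dy ha hb, QM_dx ha hb', QM_dy ha' hb]

theorem QM_box (W : ℕ) (g h : ℝ → ℝ) :
    ∫ z in box W, g z.re * h z.im =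
      (∫ x in Icc (-4 : ℝ) 4, g x) * ∫ y in Icc (-4 : ℝ) (W - 4), h y := by
  have e1 : box W = Complex.measurableEquivRealProd ⁻¹' (Icc (-4 : ℝ) 4 ×ˢ Icc (-4 : ℝ) (W - 4)) := by
    ext z
    simp only [box, mem_ofPred_eq, mem_preimage, Complex.measurableEquivRealProd_apply, mem_prod, mem_Icc]
    tauto
  rw [← setIntegral_prod_mul g h, e1]
  have h2 := Complex.volume_preserving_equiv_real_prod.setIntegral_preimage_emb
    Complex.measurableEquivRealProd.measurableEmbedding (fun p : ℝ × ℝ => g p.1 * h p.2)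
    (Icc (-4 : ℝ) 4 ×ˢ Icc (-4 : ℝ) (W - 4))
  exact h2

/-- Cauchy-Schwarz -/
theorem QM_cs {μ : Measure ℂ} {f g : ℂ → ℝ} (hf : MemLp f 2 μ) (hg : MemLp g 2 μ) :
    |∫ z, f z * g z ∂μ| ≤ √(∫ z, f z ^ 2 ∂μ) * √(∫ z, g z ^ 2 ∂μ) := by
  have h2 : ENNReal.ofReal 2 = 2 := by norm_num
  have key := integral_mul_norm_le_Lp_mul_Lq (μ := μ) (f := f) (g := g)
    Real.HolderConjugate.two_two (by rw [h2]; exact hf) (by rw [h2]; exact hg)
  have hn : ∀ w : ℂ → ℝ, (∫ z, ‖w z‖ ^ (2:ℝ) ∂μ) ^ (1 / (2:ℝ)) = √(∫ z, w z ^ 2 ∂μ) := by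
    intro w
    rw [← Real.sqrt_eq_rpow]
    congr 2
    ext z
    rw [Real.norm_eq_abs, Real.rpow_two, sq_abs]
  rw [hn f, hn g] at key
  refine le_trans ?_ key
  rw [← Real.norm_eq_abs]
  refine (norm_integral_le_integral_norm _).trans (le_of_eq ?_)
  congr 1
  ext z
  rw [norm_mul]

/-! ### the quasimodes -/

/-- the frequency -/
def QM_k (n : ℕ) : ℝ := Real.pi * (n + 1) / 4

/-- the quasimode -/
def QM_q (W : ℕ) (n : ℕ) (z : ℂ) : ℝ := QM_C (z.im / W) * Real.cos (QM_k n * z.re)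

/-- the error term -/
def QM_D (W : ℕ) (n : ℕ) (z : ℂ) : ℝ := QM_C2 (z.im / W) / W / W * Real.cos (QM_k n * z.re)

theorem QM_lap_q (W : ℕ) (n : ℕ) (z : ℂ) :
    lap (QM_q W n) z = -(QM_k n) ^ 2 * QM_q W n z + QM_D W n z := by
  have ha : ∀ t : ℝ, HasDerivAt (fun y : ℝ => QM_C (y / W)) (QM_C1 (t / W) / W) t := by
    intro t
    have := (QM_hC (t / W)).comp t ((hasDerivAt_id t).div_const (W : ℝ))
    refine this.congr_deriv ?_
    ring
  have ha' : ∀ t : ℝ, HasDerivAt (fun y : ℝ => QM_C1 (y / W) / W) (QM_C2 (t / W) / W / W) t := by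
    intro t
    have := ((QM_hC1 (t / W)).comp t ((hasDerivAt_id t).div_const (W : ℝ))).div_const (W : ℝ)
    refine this.congr_deriv ?_
    ring
  have hb : ∀ t : ℝ, HasDerivAt (fun x : ℝ => Real.cos (QM_k n * x))
      (-(QM_k n) * Real.sin (QM_k n * t)) t := by
    intro t
    have := (Real.hasDerivAt_cos (QM_k n * t)).comp t ((hasDerivAt_id t).const_mul (QM_k n))
    refine this.congr_deriv ?_
    simp; ring
  have hb' : ∀ t : ℝ, HasDerivAt (fun x : ℝ => -(QM_k n) * Real.sin (QM_k n * x))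
      (-(QM_k n) ^ 2 * Real.cos (QM_k n * t)) t := by
    intro t
    have := ((Real.hasDerivAt_sin (QM_k n * t)).comp t
      ((hasDerivAt_id t).const_mul (QM_k n))).const_mul (-(QM_k n))
    refine this.congr_deriv ?_
    simp; ring
  have h := QM_lap ha ha' hb hb' z
  unfold QM_q
  rw [h, QM_D]
  ring

theorem QM_q_smooth (W : ℕ) (n : ℕ) : ContDiff ℝ ∞ (QM_q W n) := by
  unfold QM_q
  have h1 : ContDiff ℝ ∞ (fun z : ℂ => z.im / (W : ℝ)) := (Complex.imCLM.contDiff).div_const _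
  have h2 : ContDiff ℝ ∞ (fun z : ℂ => QM_k n * z.re) := contDiff_const.mul Complex.reCLM.contDiff
  exact (QM_C_smooth.comp h1).mul (Real.contDiff_cos.comp h2)

theorem QM_D_cont (W : ℕ) (n : ℕ) : Continuous (QM_D W n) := by
  unfold QM_D
  have h1 : Continuous (fun z : ℂ => z.im / (W : ℝ)) := Complex.continuous_im.div_const _
  have h2 : Continuous (fun z : ℂ => QM_k n * z.re) := continuous_const.mul Complex.continuous_re
  exact (((QM_C2_smooth.continuous.comp h1).div_const _).div_const _).mul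
    (Real.continuous_cos.comp h2)

theorem QM_near (W : ℕ) (hW : 16 ≤ W) (n : ℕ) (z : ℂ) (m : ℤ) (h : |z.im - W * m| ≤ 4) :
    QM_q W n z = 0 ∧ QM_D W n z = 0 := by
  have hW' : (16 : ℝ) ≤ W := by exact_mod_cast hW
  have hWp : (0 : ℝ) < W := by linarith
  have h1 : |z.im / W - m| ≤ 1 / 4 := by
    have e : z.im / W - m = (z.im - W * m) / W := by field_simp
    rw [e, abs_div, abs_of_pos hWp, div_le_iff₀ hWp]
    linarith
  obtain ⟨e1, e2⟩ := QM_zero _ m h1
  constructor
  · rw [QM_q, e1, zero_mul]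
  · rw [QM_D, e2]; simp

theorem QM_core (W : ℕ) (hW : 16 ≤ W) (n : ℕ) : IsCore W (QM_q W n) := by
  have hW' : (16 : ℝ) ≤ W := by exact_mod_cast hW
  have hWp : (0 : ℝ) < W := by linarith
  refine ⟨?_, 1 / 2, by norm_num, by norm_num, (QM_q_smooth W n).contDiffOn, ?_⟩
  · intro p z
    have e1 : (z + lat W p).im / W = z.im / W + (p.2 : ℤ) * 1 := by
      simp only [lat, Complex.add_im]; field_simp
    have e2 : QM_k n * (z + lat W p).re = QM_k n * z.re + ((n + 1 : ℤ) * p.1 : ℤ) * (2 * Real.pi) := by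
      simp only [lat, Complex.add_re, QM_k]; push_cast; ring
    rw [QM_q, QM_q, e1, e2, Real.cos_add_int_mul_two_pi]
    congr 1
    exact (QM_C_per.int_mul p.2) (z.im / W)
  · intro z h1 h2
    have hz : 0 < ‖z‖ := by linarith
    have hn : ‖inv1 z‖ = ‖z‖⁻¹ := by rw [inv1, norm_inv, RCLike.norm_conj]
    have e1 : QM_q W n z = 0 := by
      refine (QM_near W hW n z 0 ?_).1
      have := Complex.abs_im_le_norm z
      norm_num at h2 ⊢
      linarith
    have e2 : QM_q W n (inv1 z) = 0 := by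
      refine (QM_near W hW n (inv1 z) 0 ?_).1
      have := Complex.abs_im_le_norm (inv1 z)
      have h3 : ‖z‖⁻¹ < 2 := by
        rw [inv_lt_comm₀ hz (by norm_num)]; linarith
      rw [hn] at this
      norm_num
      linarith
    rw [e1, e2]

theorem QM_van (W : ℕ) (hW : 16 ≤ W) (n : ℕ) : Van W (QM_q W n) := by
  refine ⟨1 / 2, by norm_num, ?_⟩
  intro z hz
  have h1 : Metric.infDist z (range (lat W)) < 2 := by linarith
  rw [Metric.infDist_lt_iff (range_nonempty _)] at h1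
  obtain ⟨_, ⟨p, rfl⟩, hp⟩ := h1
  refine (QM_near W hW n z p.2 ?_).1
  rw [dist_eq_norm] at hp
  have := Complex.abs_im_le_norm (z - lat W p)
  have e : (z - lat W p).im = z.im - W * p.2 := by simp [lat]
  rw [e] at this
  linarith

/-- on the region the quasimode lives in `im ≥ 4` -/
theorem QM_region (W : ℕ) (hW : 16 ≤ W) (n : ℕ) (z : ℂ) (hz : z ∈ FF W) (h : z.im < 4) :
    QM_q W n z = 0 ∧ QM_D W n z = 0 := by
  apply QM_near W hW n z 0
  have := hz.1.2.2.1
  rw [abs_le]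
  constructor <;> push_cast <;> linarith

theorem QM_disc (W : ℕ) (hW : 16 ≤ W) (n : ℕ) (z : ℂ) (h : ‖z‖ < 1) :
    QM_q W n z = 0 ∧ QM_D W n z = 0 := by
  apply QM_near W hW n z 0
  have := Complex.abs_im_le_norm z
  push_cast
  rw [mul_zero, sub_zero]
  linarith

theorem QM_FF_box (W : ℕ) (f : ℂ → ℝ) (hf : ∀ z, ‖z‖ < 1 → f z = 0) :
    ∫ z in FF W, f z = ∫ z in box W, f z := by
  symm
  apply setIntegral_eq_of_subset_of_ae_sdiff_eq_zero
  · exact (isClosed_box W).measurableSet.nullMeasurableSet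
  · exact fun z hz => hz.1
  · refine Eventually.of_forall ?_
    intro z hz
    apply hf
    by_contra h
    exact hz.2 ⟨hz.1, not_lt.mp h⟩

/-- the two integrals -/
theorem QM_int (W : ℕ) (hW : 16 ≤ W) (n : ℕ) (g : ℝ → ℝ) (hg : Function.Periodic g 1)
    (hz : ∀ z : ℂ, ‖z‖ < 1 → (g (z.im / W) * Real.cos (QM_k n * z.re)) ^ 2 = 0) :
    ∫ z in FF W, (g (z.im / W) * Real.cos (QM_k n * z.re)) ^ 2 =
      (∫ x in Icc (-4 : ℝ) 4, Real.cos (QM_k n * x) ^ 2) * (W * ∫ s in (0 : ℝ)..1, g s ^ 2) := by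
  have hW' : (16 : ℝ) ≤ W := by exact_mod_cast hW
  rw [QM_FF_box W _ hz]
  have e1 : ∀ z : ℂ, (g (z.im / W) * Real.cos (QM_k n * z.re)) ^ 2 =
      (fun x : ℝ => Real.cos (QM_k n * x) ^ 2) z.re * (fun y : ℝ => g (y / W) ^ 2) z.im := by
    intro z; simp only; ring
  simp_rw [e1]
  rw [QM_box W (fun x : ℝ => Real.cos (QM_k n * x) ^ 2) (fun y : ℝ => g (y / W) ^ 2)]
  congr 1
  rw [integral_Icc_eq_integral_Ioc, ← intervalIntegral.integral_of_le (by linarith)]
  have hg2 : Function.Periodic (fun s => g s ^ 2) 1 := by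
    intro s; simp only; rw [hg s]
  exact QM_scale hg2 W (by linarith)

theorem QM_cos (n : ℕ) : ∫ x in Icc (-4 : ℝ) 4, Real.cos (QM_k n * x) ^ 2 = 4 := by
  have hk : 0 < QM_k n := by unfold QM_k; positivity
  rw [integral_Icc_eq_integral_Ioc, ← intervalIntegral.integral_of_le (by norm_num)]
  rw [intervalIntegral.integral_comp_mul_left (fun x => Real.cos x ^ 2) hk.ne', smul_eq_mul,
    integral_cos_sq]
  have e : QM_k n * 4 = (n + 1 : ℕ) * Real.pi := by unfold QM_k; push_cast; ring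
  have e2 : QM_k n * -4 = -((n + 1 : ℕ) * Real.pi) := by unfold QM_k; push_cast; ring
  have e3 : Real.sin (QM_k n * 4) = 0 := by rw [e]; exact Real.sin_nat_mul_pi _
  have e4 : Real.sin (QM_k n * -4) = 0 := by rw [e2, Real.sin_neg, Real.sin_nat_mul_pi, neg_zero]
  rw [e3, e4]
  field_simp
  ring

/-- B20 QM. -/
theorem quasimodes : ∃ K0 : ℝ, 0 < K0 ∧ ∀ (W : ℕ) [hW : Fact (8 ≤ W)], 16 ≤ W →
    ∃ q : ℕ → coreSub W, (∀ n, q n ≠ 0) ∧ (∀ n, J W (q n) ≠ 0) ∧
      ∀ (ρ : ℂ → ℝ) (hρ : ContinuousOn ρ (FF W)), (∀ z ∈ FF W, 0 < ρ z) →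
        (∀ z ∈ FF W, 4 ≤ z.im → ρ z = 1) → ∀ n : ℕ, ∀ u : HV W,
        |eform W (J W (q n)) u - (Real.pi * (n + 1) / 4) ^ 2 * bform W ρ hρ (J W (q n)) u| ≤
          K0 / W ^ 2 * (√(bform W ρ hρ (J W (q n)) (J W (q n))) * √(bform W ρ hρ u u)) := by
  set I0 : ℝ := ∫ s in (0 : ℝ)..1, QM_C s ^ 2 with hI0
  set I2 : ℝ := ∫ s in (0 : ℝ)..1, QM_C2 s ^ 2 with hI2
  have hI0p : 0 < I0 := QM_pos
  have hI2p : 0 ≤ I2 := intervalIntegral.integral_nonneg zero_le_one (fun s _ => sq_nonneg _)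
  refine ⟨√(I2 / I0) + 1, by positivity, ?_⟩
  intro W _ hW
  have hW' : (16 : ℝ) ≤ W := by exact_mod_cast hW
  have hWp : (0 : ℝ) < W := by linarith
  have hq2 : ∀ n, ∫ z in FF W, QM_q W n z ^ 2 = 4 * (W * I0) := by
    intro n
    have := QM_int W hW n QM_C QM_C_per (fun z hz => by
      have := (QM_disc W hW n z hz).1
      rw [QM_q] at this
      rw [this]; ring)
    rw [QM_cos] at this
    exact this
  have hD2 : ∀ n, ∫ z in FF W, QM_D W n z ^ 2 = (4 * (W * I2)) / W ^ 4 := by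
    intro n
    have := QM_int W hW n QM_C2 QM_C2_per (fun z hz => by
      have h1 := (QM_disc W hW n z hz).2
      rw [QM_D] at h1
      have h2 : QM_C2 (z.im / W) * Real.cos (QM_k n * z.re) = 0 := by
        rcases mul_eq_zero.mp h1 with h | h
        · rw [div_div, div_eq_zero_iff] at h
          rcases h with h | h
          · rw [h, zero_mul]
          · exact absurd h (by positivity)
        · rw [h, mul_zero]
      rw [h2]; ring)
    rw [QM_cos] at this
    rw [← this, ← integral_div]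
    congr 1
    ext z
    rw [QM_D]
    field_simp
  set q : ℕ → coreSub W := fun n => ⟨QM_q W n, QM_core W hW n⟩ with hq
  have hJ : ∀ n, J W (q n) ≠ 0 := by
    intro n h0
    have h1 := bform_J (W := W) (fun _ => 1) continuousOn_one (q n) (q n)
    rw [h0] at h1
    simp only [map_zero, one_mul] at h1
    have h2 : ∫ z in FF W, (q n).1 z * (q n).1 z = 4 * (W * I0) := by
      rw [← hq2 n]
      congr 1
      ext z
      rw [sq]
    rw [h2] at h1
    have : 0 < 4 * (W * I0) := by positivity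
    linarith
  refine ⟨q, ?_, hJ, ?_⟩
  · intro n h0
    apply hJ n
    rw [h0, map_zero]
  intro ρ hρ hpos hone n u
  have hfin : ∀ f : ℂ → ℝ, Continuous f → MemLp f 2 (mu W) := by
    intro f hf
    obtain ⟨C, hC⟩ := (isCompact_FF W).exists_bound_of_continuousOn hf.continuousOn
    refine MemLp.of_bound hf.aestronglyMeasurable C ?_
    exact (ae_restrict_iff' (measurableSet_FF W)).2 (Eventually.of_forall hC)
  have hqL := hfin _ (QM_q_smooth W n).continuous
  have hDL := hfin _ (QM_D_cont W n)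
  have hu0 : MemLp (fun z => (u : Lp E3 2 (mu W)) z 0) 2 (mu W) := by
    have hw := Lp.memLp (u : Lp E3 2 (mu W))
    exact hw.of_le ((EuclideanSpace.proj (𝕜 := ℝ) 0).continuous.comp_aestronglyMeasurable hw.1)
      (Eventually.of_forall fun z => PiLp.norm_apply_le _ 0)
  -- the difference
  have hE : eform W (J W (q n)) u = (QM_k n) ^ 2 * (∫ z in FF W, QM_q W n z * (u : Lp E3 2 (mu W)) z 0)
      - ∫ z in FF W, QM_D W n z * (u : Lp E3 2 (mu W)) z 0 := by
    rw [eform_comm, ibp_van (q n) (QM_van W hW n) u]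
    rw [← integral_const_mul, ← integral_sub, ← integral_neg]
    · congr 1
      ext z
      show -((u : Lp E3 2 (mu W)) z 0 * lap (QM_q W n) z) = _
      rw [QM_lap_q]
      ring
    · exact (hqL.integrable_mul hu0).const_mul _
    · exact hDL.integrable_mul hu0
  have hB : bform W ρ hρ (J W (q n)) u = ∫ z in FF W, QM_q W n z * (u : Lp E3 2 (mu W)) z 0 := by
    rw [bform_apply]
    apply integral_congr_ae
    filter_upwards [J_ae (q n), ae_restrict_mem (measurableSet_FF W)] with z h1 hz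
    rw [h1]
    have e : emb (q n).1 z 0 = QM_q W n z := by simp [emb, hq]
    rw [e]
    rcases lt_or_ge z.im 4 with h | h
    · rw [(QM_region W hW n z hz h).1]; ring
    · rw [hone z hz h]; ring
  have hdiff : eform W (J W (q n)) u - (Real.pi * (n + 1) / 4) ^ 2 * bform W ρ hρ (J W (q n)) u
      = -∫ z in FF W, QM_D W n z * (u : Lp E3 2 (mu W)) z 0 := by
    rw [hE, hB]
    show (QM_k n) ^ 2 * _ - _ - (QM_k n) ^ 2 * _ = _
    ring
  have hQQ : bform W ρ hρ (J W (q n)) (J W (q n)) = 4 * (W * I0) := by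
    rw [bform_J, ← hq2 n]
    apply setIntegral_congr_fun (measurableSet_FF W)
    intro z hz
    show ρ z * (QM_q W n z * QM_q W n z) = QM_q W n z ^ 2
    rcases lt_or_ge z.im 4 with h | h
    · rw [(QM_region W hW n z hz h).1]; ring
    · rw [hone z hz h]; ring
  -- the truncated function
  set w : ℂ → ℝ := {z : ℂ | 4 ≤ z.im}.indicator (fun z => (u : Lp E3 2 (mu W)) z 0) with hw
  have hms : MeasurableSet {z : ℂ | 4 ≤ z.im} := measurableSet_le measurable_const Complex.measurable_im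
  have hwL : MemLp w 2 (mu W) := hu0.indicator hms
  have hDw : ∫ z in FF W, QM_D W n z * (u : Lp E3 2 (mu W)) z 0 = ∫ z in FF W, QM_D W n z * w z := by
    apply setIntegral_congr_fun (measurableSet_FF W)
    intro z hz
    show QM_D W n z * (u : Lp E3 2 (mu W)) z 0 = QM_D W n z * w z
    rcases lt_or_ge z.im 4 with h | h
    · rw [(QM_region W hW n z hz h).2]; ring
    · rw [hw, indicator_of_mem (show z ∈ {z : ℂ | 4 ≤ z.im} from h)]
  have hw2 : ∫ z in FF W, w z ^ 2 ≤ bform W ρ hρ u u := by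
    rw [bform_apply]
    apply integral_mono_ae hwL.integrable_sq (integrable_wt_mul hρ _ _ 0 0)
    filter_upwards [ae_restrict_mem (measurableSet_FF W)] with z hz
    rcases lt_or_ge z.im 4 with h | h
    · rw [hw, indicator_of_notMem (show z ∉ {z : ℂ | 4 ≤ z.im} from not_le.mpr h)]
      have := mul_nonneg (hpos z hz).le (mul_self_nonneg ((u : Lp E3 2 (mu W)) z 0))
      simpa using this
    · rw [hw, indicator_of_mem (show z ∈ {z : ℂ | 4 ≤ z.im} from h), hone z hz h]
      exact le_of_eq (by ring)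
  have hcs := QM_cs (μ := mu W) hDL hwL
  rw [hdiff, abs_neg, hDw]
  refine hcs.trans ?_
  have h3 : √(∫ z in FF W, QM_D W n z ^ 2) ≤ (√(I2 / I0) + 1) / W ^ 2 * √(4 * (W * I0)) := by
    rw [hD2, Real.sqrt_div (by positivity)]
    have e1 : √((W : ℝ) ^ 4) = W ^ 2 := by
      rw [show (W : ℝ) ^ 4 = (W ^ 2) ^ 2 by ring]; exact Real.sqrt_sq (by positivity)
    have e2 : 4 * (W * I2) = (I2 / I0) * (4 * (W * I0)) := by field_simp
    rw [e1, e2, Real.sqrt_mul (by positivity), div_mul_eq_mul_div]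
    apply div_le_div_of_nonneg_right _ (by positivity)
    apply mul_le_mul_of_nonneg_right _ (Real.sqrt_nonneg _)
    linarith
  rw [hQQ, ← mul_assoc]
  exact mul_le_mul h3 (Real.sqrt_le_sqrt hw2) (Real.sqrt_nonneg _) (by positivity)

end

end Pool.Agent.EQ.SP

end

/-! ## Lib_helper98.EQSF.LAPI -/

section

/-! Project EQ, package S2: block LAPI (helper67). -/

set_option autoImplicit false

namespace Pool.Agent.EQ.SP

open MeasureTheory Filter Topology Set Pool.Agent.EQ
open scoped ContDiff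

noncomputable section

theorem contDiffAt_inv1 {w : ℂ} (hw : w ≠ 0) : ContDiffAt ℝ ∞ inv1 w := by
  have h1 : ContDiffAt ℝ ∞ (fun z : ℂ => starRingEnd ℂ z) w :=
    Complex.conjCLE.contDiff.contDiffAt
  exact h1.inv (by simpa using hw)

/-- the derivative of the inversion -/
def LAPI_L (z : ℂ) : ℂ →L[ℝ] ℂ :=
  ((ContinuousLinearMap.toSpanSingleton ℂ (-((starRingEnd ℂ z) ^ 2)⁻¹)).restrictScalars ℝ).comp
    (Complex.conjCLE : ℂ →L[ℝ] ℂ)

theorem LAPI_L_apply (z v : ℂ) :
    LAPI_L z v = (starRingEnd ℂ v) * (-((starRingEnd ℂ z) ^ 2)⁻¹) := by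
  simp [LAPI_L]

theorem LAPI_hasFDerivAt {z : ℂ} (hz : z ≠ 0) : HasFDerivAt inv1 (LAPI_L z) z := by
  have hz' : starRingEnd ℂ z ≠ 0 := by simpa using hz
  have h1 : HasFDerivAt (fun y : ℂ => y⁻¹)
      ((ContinuousLinearMap.toSpanSingleton ℂ (-((starRingEnd ℂ z) ^ 2)⁻¹)).restrictScalars ℝ)
      (starRingEnd ℂ z) := (hasDerivAt_inv hz').hasFDerivAt.restrictScalars ℝ
  have h2 : HasFDerivAt (fun y : ℂ => starRingEnd ℂ y) (Complex.conjCLE : ℂ →L[ℝ] ℂ) z :=
    Complex.conjCLE.hasFDerivAt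
  exact h1.comp z h2

/-- the derivative of `z ↦ LAPI_L z v` -/
def LAPI_M (z v : ℂ) : ℂ →L[ℝ] ℂ :=
  ((ContinuousLinearMap.toSpanSingleton ℂ
    (starRingEnd ℂ v * (2 * ((starRingEnd ℂ z) ^ 3)⁻¹))).restrictScalars ℝ).comp
    (Complex.conjCLE : ℂ →L[ℝ] ℂ)

theorem LAPI_M_apply (z v u : ℂ) :
    LAPI_M z v u = (starRingEnd ℂ u) * (starRingEnd ℂ v * (2 * ((starRingEnd ℂ z) ^ 3)⁻¹)) := by
  simp [LAPI_M]

theorem LAPI_hasFDerivAt2 {z : ℂ} (hz : z ≠ 0) (v : ℂ) :
    HasFDerivAt (fun z => LAPI_L z v) (LAPI_M z v) z := by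
  have hz' : starRingEnd ℂ z ≠ 0 := by simpa using hz
  have h0 : HasDerivAt (fun y : ℂ => starRingEnd ℂ v * (-(y ^ 2)⁻¹))
      (starRingEnd ℂ v * (2 * ((starRingEnd ℂ z) ^ 3)⁻¹)) (starRingEnd ℂ z) := by
    have h := ((((hasDerivAt_id (starRingEnd ℂ z)).pow 2).inv (pow_ne_zero 2 hz')).neg).const_mul
      (starRingEnd ℂ v)
    refine h.congr_deriv ?_
    simp only [Pi.pow_apply, id_eq]
    field_simp
    norm_num
    ring
  have h1 := h0.hasFDerivAt.restrictScalars ℝ
  have h2 : HasFDerivAt (fun y : ℂ => starRingEnd ℂ y) (Complex.conjCLE : ℂ →L[ℝ] ℂ) z :=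
    Complex.conjCLE.hasFDerivAt
  have h3 := h1.comp z h2
  have h4 : (fun z => LAPI_L z v) =
      (fun y : ℂ => starRingEnd ℂ v * (-(y ^ 2)⁻¹)) ∘ (fun y : ℂ => starRingEnd ℂ y) := by
    ext z
    rw [LAPI_L_apply]
    rfl
  rw [h4]
  exact h3

theorem LAPI_snd {η : ℂ → ℝ} {w : ℂ} (hw : w ≠ 0) (hη : ContDiffAt ℝ 2 η (inv1 w)) (v : ℂ) :
    fderiv ℝ (fun z => fderiv ℝ (fun y => η (inv1 y)) z v) w v =
      fderiv ℝ η (inv1 w) (LAPI_M w v v) +
        fderiv ℝ (fderiv ℝ η) (inv1 w) (LAPI_L w v) (LAPI_L w v) := by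
  have hA := LAPI_hasFDerivAt hw
  have hne : ∀ᶠ z in 𝓝 w, z ≠ 0 := isOpen_ne.mem_nhds hw
  have hd : ∀ᶠ y in 𝓝 (inv1 w), DifferentiableAt ℝ η y := by
    have := hη.eventually (by simp)
    filter_upwards [this] with y hy using hy.differentiableAt (by simp)
  have hd' : ∀ᶠ z in 𝓝 w, DifferentiableAt ℝ η (inv1 z) := hA.continuousAt.eventually hd
  have he : (fun z => fderiv ℝ (fun y => η (inv1 y)) z v) =ᶠ[𝓝 w]
      fun z => fderiv ℝ η (inv1 z) (LAPI_L z v) := by
    filter_upwards [hne, hd'] with z h1 h2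
    have := (h2.hasFDerivAt.comp z (LAPI_hasFDerivAt h1)).fderiv
    change fderiv ℝ (η ∘ inv1) z v = _
    rw [this]
    rfl
  rw [he.fderiv_eq]
  have hD : HasFDerivAt (fderiv ℝ η) (fderiv ℝ (fderiv ℝ η) (inv1 w)) (inv1 w) := by
    have h : ContDiffAt ℝ 1 (fderiv ℝ η) (inv1 w) := hη.fderiv_right (m := 1) (by norm_num)
    exact (h.differentiableAt (by simp)).hasFDerivAt
  have hc : HasFDerivAt (fun z => fderiv ℝ η (inv1 z))
      ((fderiv ℝ (fderiv ℝ η) (inv1 w)).comp (LAPI_L w)) w := hD.comp w hA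
  have h5 := (hc.clm_apply (LAPI_hasFDerivAt2 hw v)).fderiv
  rw [h5]
  simp

theorem lap_inv1 {η : ℂ → ℝ} {w : ℂ} (hw : w ≠ 0) (hη : ContDiffAt ℝ 2 η (inv1 w)) :
    lap (fun z => η (inv1 z)) w = (‖w‖ ^ 4)⁻¹ * lap η (inv1 w) := by
  have h1 := LAPI_snd hw hη 1
  have h2 := LAPI_snd hw hη Complex.I
  have hl : lap (fun z => η (inv1 z)) w =
      fderiv ℝ (fun z => fderiv ℝ (fun y => η (inv1 y)) z 1) w 1 +
      fderiv ℝ (fun z => fderiv ℝ (fun y => η (inv1 y)) z Complex.I) w Complex.I := rfl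
  have hD : HasFDerivAt (fderiv ℝ η) (fderiv ℝ (fderiv ℝ η) (inv1 w)) (inv1 w) := by
    have h : ContDiffAt ℝ 1 (fderiv ℝ η) (inv1 w) := hη.fderiv_right (m := 1) (by norm_num)
    exact (h.differentiableAt (by simp)).hasFDerivAt
  set D2 := fderiv ℝ (fderiv ℝ η) (inv1 w) with hD2
  have hr : ∀ v : ℂ, fderiv ℝ (fun z => fderiv ℝ η z v) (inv1 w) v = D2 v v := by
    intro v
    have := (hD.clm_apply (hasFDerivAt_const v (inv1 w))).fderiv
    rw [this]
    simp
  have hlr : lap η (inv1 w) = D2 1 1 + D2 Complex.I Complex.I := by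
    rw [← hr 1, ← hr Complex.I]
    rfl
  rw [hl, h1, h2, hlr]
  set a : ℂ := -((starRingEnd ℂ w) ^ 2)⁻¹ with ha
  have e1 : LAPI_L w 1 = a.re • (1 : ℂ) + a.im • Complex.I := by
    rw [LAPI_L_apply, ← ha]
    apply Complex.ext <;> simp
  have e2 : LAPI_L w Complex.I = a.im • (1 : ℂ) + (-a.re) • Complex.I := by
    rw [LAPI_L_apply, ← ha]
    apply Complex.ext <;> simp
  have e3 : LAPI_M w Complex.I Complex.I = -LAPI_M w 1 1 := by
    rw [LAPI_M_apply, LAPI_M_apply]
    simp only [Complex.conj_I, map_one]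
    have := Complex.I_mul_I
    linear_combination (2 * ((starRingEnd ℂ w) ^ 3)⁻¹) * this
  have e4 : a.re ^ 2 + a.im ^ 2 = (‖w‖ ^ 4)⁻¹ := by
    have : ‖a‖ ^ 2 = a.re ^ 2 + a.im ^ 2 := by
      rw [Complex.sq_norm, Complex.normSq_apply]
      ring
    rw [← this, ha, norm_neg, norm_inv, norm_pow, Complex.norm_conj, inv_pow, ← pow_mul]
  rw [e1, e2, e3, ← e4]
  simp only [map_add, map_smul, map_neg, _root_.add_apply, _root_.smul_apply, smul_eq_mul]
  ring

end

end Pool.Agent.EQ.SP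

end

/-! ## Lib_helper98.EQSF.SYM -/

section

set_option autoImplicit false

namespace Pool.Agent.EQ.SP

open MeasureTheory Filter Topology Set Pool.Agent.EQ
open scoped ContDiff

noncomputable section

variable {W : ℕ} [hW : Fact (8 ≤ W)]

theorem SYM_norm_inv1 (z : ℂ) : ‖inv1 z‖ = ‖z‖⁻¹ := by
  rw [inv1, norm_inv, RCLike.norm_conj]

/-- points with `r < |z| < 2` lie in `UU W r` if `r < 1` -/
theorem SYM_mem_UU {r : ℝ} (hr1 : r < 1) {z : ℂ} (h1 : r < ‖z‖) (h2 : ‖z‖ < 2) :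
    z ∈ UU W r := by
  have hW' : (8:ℝ) ≤ W := by exact_mod_cast hW.out
  obtain ⟨r', hr', hr'2⟩ := exists_between (lt_min h1 hr1)
  have hr'z : r' < ‖z‖ := hr'2.trans_le (min_le_left _ _)
  have hr'1 : r' < 1 := hr'2.trans_le (min_le_right _ _)
  refine mem_UU_of_le hr' (fun p => ?_)
  by_cases hp : lat W p = 0
  · rw [hp, sub_zero]; exact hr'z.le
  · have hn : 8 ≤ ‖lat W p‖ := by
      obtain ⟨m, n⟩ := p
      by_cases hm : m = 0
      · subst hm
        have hn0 : n ≠ 0 := by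
          rintro rfl
          exact hp (by apply Complex.ext <;> simp [lat])
        have h3 : (1:ℝ) ≤ |(n:ℝ)| := by
          exact_mod_cast Int.one_le_abs hn0
        have h4 := Complex.abs_im_le_norm (lat W (0, n))
        have h5 : (lat W (0, n)).im = W * n := by simp [lat]
        rw [h5, abs_mul, abs_of_nonneg (by linarith : (0:ℝ) ≤ W)] at h4
        nlinarith
      · have h3 : (1:ℝ) ≤ |(m:ℝ)| := by
          exact_mod_cast Int.one_le_abs hm
        have h4 := Complex.abs_re_le_norm (lat W (m, n))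
        have h5 : (lat W (m, n)).re = 8 * m := by simp [lat]
        rw [h5, abs_mul, abs_of_nonneg (by norm_num : (0:ℝ) ≤ 8)] at h4
        nlinarith
    have h6 : ‖lat W p‖ ≤ ‖z - lat W p‖ + ‖z‖ := by
      have := norm_sub_le z (z - lat W p)
      rw [sub_sub_cancel] at this
      linarith
    linarith

/-- B8 SYM: the symmetric extension of a core function is smooth near the unit circle. -/
theorem contDiffOn_sym (f : coreSub W) :
    ContDiffOn ℝ ∞ (sym f.1) {z : ℂ | 1/2 < ‖z‖ ∧ ‖z‖ < 2} := by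
  obtain ⟨f, hper, r, hr0, hr1, hs, hsym⟩ := f
  intro z hz
  obtain ⟨hz1, hz2⟩ := hz
  refine ContDiffAt.contDiffWithinAt ?_
  have hz0 : z ≠ 0 := by
    rintro rfl
    rw [norm_zero] at hz1
    norm_num at hz1
  have hUf : ∀ w : ℂ, r < ‖w‖ → ‖w‖ < 2 → ContDiffAt ℝ ∞ f w := fun w h1 h2 =>
    hs.contDiffAt ((isOpen_UU W r).mem_nhds (SYM_mem_UU hr1 h1 h2))
  rcases lt_trichotomy ‖z‖ 1 with h | h | h
  · -- inside
    have hn : ‖inv1 z‖ = ‖z‖⁻¹ := SYM_norm_inv1 z
    have hpos : 0 < ‖z‖ := norm_pos_iff.2 hz0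
    have h1 : r < ‖inv1 z‖ := by
      rw [hn]
      exact hr1.trans ((one_lt_inv₀ hpos).2 h)
    have h2 : ‖inv1 z‖ < 2 := by
      rw [hn, inv_lt_comm₀ hpos (by norm_num)]
      linarith
    have h3 : ContDiffAt ℝ ∞ (fun w => f (inv1 w)) z :=
      (hUf _ h1 h2).comp z (contDiffAt_inv1 hz0)
    refine h3.congr_of_eventuallyEq ?_
    have h4 : ∀ᶠ w in 𝓝 z, ‖w‖ < 1 := continuous_norm.continuousAt.eventually_lt_const h
    filter_upwards [h4] with w hw
    show (if 1 ≤ ‖w‖ then f w else f (inv1 w)) = _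
    rw [if_neg (not_le.2 hw)]
  · -- on the circle
    have h3 : ContDiffAt ℝ ∞ f z := hUf z (by rw [h]; exact hr1) (by rw [h]; norm_num)
    refine h3.congr_of_eventuallyEq ?_
    have hh1 : r < ‖z‖ := by rw [h]; exact hr1
    have hh2 : ‖z‖ < r⁻¹ := by rw [h]; exact (one_lt_inv₀ hr0).2 hr1
    have h4 : ∀ᶠ w in 𝓝 z, r < ‖w‖ := continuous_norm.continuousAt.eventually_const_lt hh1
    have h5 : ∀ᶠ w in 𝓝 z, ‖w‖ < r⁻¹ := continuous_norm.continuousAt.eventually_lt_const hh2
    filter_upwards [h4, h5] with w hw1 hw2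
    show (if 1 ≤ ‖w‖ then f w else f (inv1 w)) = _
    split_ifs with hc
    · rfl
    · exact hsym w hw1 hw2
  · -- outside
    have h3 : ContDiffAt ℝ ∞ f z := hUf z (hr1.trans h) hz2
    refine h3.congr_of_eventuallyEq ?_
    have h4 : ∀ᶠ w in 𝓝 z, 1 < ‖w‖ := continuous_norm.continuousAt.eventually_const_lt h
    filter_upwards [h4] with w hw
    show (if 1 ≤ ‖w‖ then f w else f (inv1 w)) = _
    rw [if_pos hw.le]

end

end Pool.Agent.EQ.SP

end

/-! ## Lib_helper98.EQSF.FOLDS -/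

section

set_option autoImplicit false

namespace Pool.Agent.EQ.SP

open MeasureTheory Filter Topology Set Pool.Agent.EQ
open scoped ContDiff

noncomputable section

variable {W : ℕ} [hW : Fact (8 ≤ W)]

omit hW in
theorem FOLDS_norm (z : ℂ) : ‖inv1 z‖ = ‖z‖⁻¹ := by
  unfold inv1
  rw [norm_inv, RCLike.norm_conj]

omit hW in
theorem FOLDS_inv (z : ℂ) : inv1 (inv1 z) = z := by
  unfold inv1
  rw [map_inv₀, inv_inv, Complex.conj_conj]

theorem FOLDS_red_eq {z : ℂ} (h1 : -4 ≤ z.re) (h2 : z.re < 4) (h3 : -4 ≤ z.im)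
    (h4 : z.im < W - 4) : red W z = z := by
  apply Complex.ext
  · simp only [red]
    rw [toIcoMod_eq_self]
    constructor <;> [exact h1; linarith]
  · simp only [red]
    rw [toIcoMod_eq_self]
    constructor <;> [exact h3; linarith]

theorem FOLDS_red_small {z : ℂ} (h : ‖z‖ < 2) : red W z = z := by
  have hW' : (8:ℝ) ≤ W := by exact_mod_cast hW.out
  have a1 := abs_le.1 (Complex.abs_re_le_norm z)
  have a2 := abs_le.1 (Complex.abs_im_le_norm z)
  exact FOLDS_red_eq (by linarith [a1.1]) (by linarith [a1.2]) (by linarith [a2.1])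
    (by linarith [a2.2])

theorem fold_symm :
    Measurable (fold W) ∧ (∀ p z, fold W (z + lat W p) = fold W z) ∧
      (∀ z, 1/2 < ‖z‖ → ‖z‖ < 2 → fold W (inv1 z) = fold W z) ∧
      (∀ z, 1/2 < ‖z‖ → ‖z‖ < 1 → fold W z = inv1 z) ∧
      (∀ z ∈ FF W, z.re < 4 → z.im < W - 4 → fold W z = z) := by
  have hW0 : (0:ℝ) < W := by exact_mod_cast (by have := hW.out; omega : 0 < W)
  have hred : Measurable (red W) := by
    have hI : ∀ (p : ℝ) (hp : 0 < p), Measurable (toIcoMod hp (-4)) := by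
      intro p hp
      have : toIcoMod hp (-4) = fun b => -4 + Int.fract ((b - (-4)) / p) * p := by
        ext b; rw [toIcoMod_eq_add_fract_mul]
      rw [this]
      exact measurable_const.add ((measurable_fract.comp
        ((measurable_id.sub measurable_const).div_const p)).mul_const p)
    have h1 : Measurable fun z : ℂ => toIcoMod (by norm_num : (0:ℝ) < 8) (-4) z.re :=
      (hI 8 (by norm_num)).comp Complex.measurable_re
    have h2 : Measurable fun z : ℂ => toIcoMod hW0 (-4) z.im :=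
      (hI W hW0).comp Complex.measurable_im
    have h3 : red W = fun z => ((toIcoMod (by norm_num : (0:ℝ) < 8) (-4) z.re : ℝ) : ℂ) +
        ((toIcoMod hW0 (-4) z.im : ℝ) : ℂ) * Complex.I := by
      ext z
      apply Complex.ext <;> simp [red]
    rw [h3]
    exact (Complex.measurable_ofReal.comp h1).add
      ((Complex.measurable_ofReal.comp h2).mul_const _)
  have hinv : Measurable inv1 := by
    unfold inv1
    exact (Complex.continuous_conj.measurable).inv
  refine ⟨?_, ?_, ?_, ?_, ?_⟩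
  · unfold fold
    exact Measurable.ite (measurableSet_le measurable_const hred.norm) hred (hinv.comp hred)
  · intro p z
    have : red W (z + lat W p) = red W z := by
      apply Complex.ext
      · simp only [red, lat, Complex.add_re]
        have := toIcoMod_add_zsmul (by norm_num : (0:ℝ) < 8) (-4) z.re p.1
        rw [zsmul_eq_mul, mul_comm] at this
        exact this
      · simp only [red, lat, Complex.add_im]
        have := toIcoMod_add_zsmul hW0 (-4) z.im p.2
        rw [zsmul_eq_mul, mul_comm] at this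
        exact this
    unfold fold
    rw [this]
  · intro z h1 h2
    have hz0 : 0 < ‖z‖ := by linarith
    have h3 : ‖inv1 z‖ < 2 := by
      rw [FOLDS_norm, inv_lt_comm₀ hz0 (by norm_num)]
      linarith
    unfold fold
    rw [FOLDS_red_small h3, FOLDS_red_small h2, FOLDS_norm, FOLDS_inv]
    by_cases h : ‖z‖ = 1
    · have hzz : inv1 z = z := by
        unfold inv1
        rw [Complex.inv_def, Complex.normSq_conj, Complex.normSq_eq_norm_sq, h,
          Complex.conj_conj]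
        simp
      rw [h]; simp [hzz]
    · rcases lt_or_gt_of_ne h with h4 | h4
      · rw [if_pos (one_le_inv₀ hz0 |>.2 h4.le), if_neg (not_le.2 h4)]
      · rw [if_neg (not_le.2 (inv_lt_one_of_one_lt₀ h4)), if_pos h4.le]
  · intro z h1 h2
    unfold fold
    rw [FOLDS_red_small (by linarith), if_neg (not_le.2 h2)]
  · rintro z ⟨⟨h1, h2, h3, h4⟩, h5⟩ h6 h7
    unfold fold
    rw [FOLDS_red_eq h1 h6 h3 h7, if_pos h5]

end

end Pool.Agent.EQ.SP

end

/-! ## Lib_helper98.EQSF.INVCV -/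

section

/-! Block INVCV of project EQ (MP_ed6ab2_an): change of variables under the inversion in the unit
circle. -/

set_option autoImplicit false

namespace Pool.Agent.EQ.SP

open MeasureTheory Filter Topology Set Pool.Agent.EQ
open scoped ContDiff

noncomputable section

theorem INVCV_inv1_eq (z : ℂ) : inv1 z = (starRingEnd ℂ) (z⁻¹) := by
  rw [inv1, map_inv₀]

theorem INVCV_norm (z : ℂ) : ‖inv1 z‖ = ‖z‖⁻¹ := by
  rw [inv1, norm_inv, RCLike.norm_conj]

theorem INVCV_invol (z : ℂ) : inv1 (inv1 z) = z := by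
  rw [INVCV_inv1_eq (inv1 z), inv1, inv_inv, Complex.conj_conj]

/-- the derivative of the inversion -/
def INVCV_der (w : ℂ) : ℂ →L[ℝ] ℂ :=
  (Complex.conjLIE.toContinuousLinearEquiv : ℂ →L[ℝ] ℂ).comp ((-(w ^ 2)⁻¹) • (1 : ℂ →L[ℝ] ℂ))

theorem INVCV_hasFDerivAt {w : ℂ} (hw : w ≠ 0) : HasFDerivAt inv1 (INVCV_der w) w := by
  have h1 : HasFDerivAt (fun z : ℂ => z⁻¹) ((-(w ^ 2)⁻¹) • (1 : ℂ →L[ℝ] ℂ)) w :=
    (hasDerivAt_inv hw).complexToReal_fderiv
  have h2 := (Complex.conjLIE.toContinuousLinearEquiv : ℂ →L[ℝ] ℂ).hasFDerivAt.comp w h1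
  refine h2.congr_of_eventuallyEq (Eventually.of_forall fun z => ?_)
  rw [INVCV_inv1_eq]
  rfl

theorem INVCV_det (w : ℂ) : |(INVCV_der w).det| = (‖w‖ ^ 4)⁻¹ := by
  have h0 : ((INVCV_der w : ℂ →L[ℝ] ℂ) : ℂ →ₗ[ℝ] ℂ) =
      (Complex.conjLIE.toLinearEquiv : ℂ →ₗ[ℝ] ℂ) ∘ₗ (LinearMap.mul ℝ ℂ (-(w ^ 2)⁻¹)) := by
    ext z <;> simp [INVCV_der]
  rw [ContinuousLinearMap.det, h0, LinearMap.det_comp, Complex.det_conjLIE, abs_mul, abs_neg,
    abs_one, one_mul]
  have h1 : LinearMap.det (LinearMap.mul ℝ ℂ (-(w ^ 2)⁻¹)) = Complex.normSq (-(w ^ 2)⁻¹) := by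
    rw [← Algebra.norm_complex_apply, Algebra.norm_apply]
    rfl
  rw [h1, Complex.normSq_eq_norm_sq, abs_of_nonneg (by positivity), norm_neg, norm_inv, norm_pow,
    inv_pow, ← pow_mul]

theorem INVCV_image {r : ℝ} (hr : 0 < r) :
    inv1 '' {w : ℂ | 1 < ‖w‖ ∧ ‖w‖ < r⁻¹} = {z : ℂ | r < ‖z‖ ∧ ‖z‖ < 1} := by
  ext z
  constructor
  · rintro ⟨w, ⟨h1, h2⟩, rfl⟩
    show r < ‖inv1 w‖ ∧ ‖inv1 w‖ < 1
    rw [INVCV_norm]
    have hw : 0 < ‖w‖ := one_pos.trans h1
    exact ⟨(lt_inv_comm₀ hw hr).1 h2, inv_lt_one_of_one_lt₀ h1⟩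
  · rintro ⟨h1, h2⟩
    have hz : 0 < ‖z‖ := hr.trans h1
    refine ⟨inv1 z, ⟨?_, ?_⟩, INVCV_invol z⟩
    · rw [INVCV_norm]; exact (one_lt_inv₀ hz).2 h2
    · rw [INVCV_norm]; exact inv_strictAnti₀ hr h1

theorem INVCV_meas (r : ℝ) : MeasurableSet {w : ℂ | 1 < ‖w‖ ∧ ‖w‖ < r⁻¹} :=
  ((isOpen_lt continuous_const continuous_norm).inter
    (isOpen_lt continuous_norm continuous_const)).measurableSet

theorem INVCV_hf {r : ℝ} : ∀ w ∈ {w : ℂ | 1 < ‖w‖ ∧ ‖w‖ < r⁻¹},
    HasFDerivWithinAt inv1 (INVCV_der w) {w : ℂ | 1 < ‖w‖ ∧ ‖w‖ < r⁻¹} w := by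
  rintro w ⟨h1, -⟩
  have hw : w ≠ 0 := by
    rintro rfl
    rw [norm_zero] at h1
    linarith
  exact (INVCV_hasFDerivAt hw).hasFDerivWithinAt

theorem INVCV_inj {s : Set ℂ} : InjOn inv1 s := by
  intro a _ b _ hab
  rw [← INVCV_invol a, hab, INVCV_invol]

/-- B4 INVCV: change of variables under the inversion. -/
theorem integral_inv1 (Φ : ℂ → ℝ) {r : ℝ} (hr : 0 < r) (hr1 : r < 1) :
    ∫ z in {z : ℂ | r < ‖z‖ ∧ ‖z‖ < 1}, Φ z =
      ∫ w in {w : ℂ | 1 < ‖w‖ ∧ ‖w‖ < r⁻¹}, (‖w‖ ^ 4)⁻¹ * Φ (inv1 w) := by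
  rw [← INVCV_image hr, integral_image_eq_integral_abs_det_fderiv_smul volume (INVCV_meas r)
    INVCV_hf INVCV_inj]
  refine setIntegral_congr_fun (INVCV_meas r) fun w _ => ?_
  show |(INVCV_der w).det| • Φ (inv1 w) = _
  rw [INVCV_det, smul_eq_mul]

/-- B4 also: integrability under the inversion. -/
theorem integrableOn_inv1 (Φ : ℂ → ℝ) {r : ℝ} (hr : 0 < r) (hr1 : r < 1) :
    IntegrableOn Φ {z : ℂ | r < ‖z‖ ∧ ‖z‖ < 1} ↔
      IntegrableOn (fun w => (‖w‖ ^ 4)⁻¹ * Φ (inv1 w)) {w : ℂ | 1 < ‖w‖ ∧ ‖w‖ < r⁻¹} := by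
  rw [← INVCV_image hr, integrableOn_image_iff_integrableOn_abs_det_fderiv_smul volume
    (INVCV_meas r) INVCV_hf INVCV_inj]
  refine integrableOn_congr_fun (fun w _ => ?_) (INVCV_meas r)
  show |(INVCV_der w).det| • Φ (inv1 w) = _
  rw [INVCV_det, smul_eq_mul]

end

end Pool.Agent.EQ.SP

end

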