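import Mathlib
import Pool.Agent.Lib_helper71.EQ.Defs
import Pool.Agent.Lib_helper71.EQM.SpA

/-! Project EQ (MP_ed6ab2_an): merged modules Lib_helper38.EQ.RegA, Lib_helper38.EQ.RegB, Lib_helper38.EQ.RegC, Lib_helper38.EQ.RegD, Lib_helper38.EQ.RegE, Lib_helper98.EQSF.R1. -/

set_option autoImplicit false

/-! ## Lib_helper38.EQ.RegA -/

section

/-! MP_ed6ab2_an, project EQ, package R (interior elliptic regularity): the regularised
logarithmic kernel. -/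

set_option autoImplicit false

namespace Pool.Agent.EQ.Reg

open MeasureTheory Filter Topology Set Metric
open scoped ContDiff Convolution

noncomputable section

/-- the regularised logarithmic kernel -/
def Nn (ε : ℝ) (z : ℂ) : ℝ := Real.log (‖z‖ ^ 2 + ε ^ 2)

theorem hasFDerivAt_Nn (ε : ℝ) (z : ℂ) (h : ‖z‖ ^ 2 + ε ^ 2 ≠ 0) :
    HasFDerivAt (Nn ε) ((‖z‖ ^ 2 + ε ^ 2)⁻¹ • (2 • innerSL ℝ z)) z := by
  have h1 : HasFDerivAt (fun z : ℂ => ‖z‖ ^ 2 + ε ^ 2) (2 • innerSL ℝ z) z :=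
    (hasStrictFDerivAt_norm_sq z).hasFDerivAt.add_const _
  exact h1.log h

theorem contDiffAt_Nn (ε : ℝ) (z : ℂ) (h : ‖z‖ ^ 2 + ε ^ 2 ≠ 0) : ContDiffAt ℝ ∞ (Nn ε) z := by
  unfold Nn
  exact ((contDiff_norm_sq ℝ).contDiffAt.add contDiffAt_const).log h

theorem contDiff_Nn {ε : ℝ} (h : 0 < ε) : ContDiff ℝ ∞ (Nn ε) :=
  contDiff_iff_contDiffAt.2 fun z => contDiffAt_Nn ε z (by positivity)

theorem dx_Nn (ε : ℝ) (z : ℂ) (h : ‖z‖ ^ 2 + ε ^ 2 ≠ 0) :
    dx (Nn ε) z = 2 * z.re / (‖z‖ ^ 2 + ε ^ 2) := by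
  rw [dx, (hasFDerivAt_Nn ε z h).fderiv]
  simp [Complex.inner]
  ring

theorem dy_Nn (ε : ℝ) (z : ℂ) (h : ‖z‖ ^ 2 + ε ^ 2 ≠ 0) :
    dy (Nn ε) z = 2 * z.im / (‖z‖ ^ 2 + ε ^ 2) := by
  rw [dy, (hasFDerivAt_Nn ε z h).fderiv]
  simp [Complex.inner]
  ring

theorem lap_Nn {ε : ℝ} (h : 0 < ε) (z : ℂ) :
    lap (Nn ε) z = 4 * ε ^ 2 / (‖z‖ ^ 2 + ε ^ 2) ^ 2 := by
  have hpos : ∀ z : ℂ, ‖z‖ ^ 2 + ε ^ 2 ≠ 0 := fun z => by positivity
  have e1 : dx (Nn ε) = fun z => 2 * z.re / (‖z‖ ^ 2 + ε ^ 2) := funext fun z => dx_Nn ε z (hpos z)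
  have e2 : dy (Nn ε) = fun z => 2 * z.im / (‖z‖ ^ 2 + ε ^ 2) := funext fun z => dy_Nn ε z (hpos z)
  have hS : HasFDerivAt (fun z : ℂ => ‖z‖ ^ 2 + ε ^ 2) (2 • innerSL ℝ z) z :=
    (hasStrictFDerivAt_norm_sq z).hasFDerivAt.add_const _
  have hre : HasFDerivAt (fun z : ℂ => 2 * z.re) ((2:ℝ) • Complex.reCLM) z :=
    (Complex.reCLM.hasFDerivAt (x := z)).const_mul 2
  have him : HasFDerivAt (fun z : ℂ => 2 * z.im) ((2:ℝ) • Complex.imCLM) z :=
    (Complex.imCLM.hasFDerivAt (x := z)).const_mul 2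
  have hi : HasFDerivAt (fun z : ℂ => (‖z‖ ^ 2 + ε ^ 2)⁻¹)
      (-((‖z‖ ^ 2 + ε ^ 2) ^ 2)⁻¹ • (2 • innerSL ℝ z)) z :=
    (hasDerivAt_inv (hpos z)).comp_hasFDerivAt z hS
  have d1 := (hre.mul hi).fderiv
  have d2 := (him.mul hi).fderiv
  have hn : ‖z‖ ^ 2 = z.re ^ 2 + z.im ^ 2 := by
    rw [Complex.sq_norm, Complex.normSq_apply]; ring
  have hp := hpos z
  rw [lap, e1, e2, dx, dy]
  rw [show (fun z : ℂ => 2 * z.re / (‖z‖ ^ 2 + ε ^ 2)) = (fun z : ℂ => 2 * z.re) * (fun z : ℂ => (‖z‖ ^ 2 + ε ^ 2)⁻¹) from by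
      funext z; simp [div_eq_mul_inv],
    show (fun z : ℂ => 2 * z.im / (‖z‖ ^ 2 + ε ^ 2)) = (fun z : ℂ => 2 * z.im) * (fun z : ℂ => (‖z‖ ^ 2 + ε ^ 2)⁻¹) from by
      funext z; simp [div_eq_mul_inv]]
  rw [d1, d2]
  simp [Complex.inner]
  rw [hn] at hp ⊢
  field_simp
  ring

theorem log_one_add_sq_le {x : ℝ} (hx : 0 ≤ x) : Real.log (1 + x ^ 2) ≤ 4 * √x := by
  have h1 : 1 + x ^ 2 ≤ (1 + √x) ^ 4 := by
    have hs : √x ^ 2 = x := Real.sq_sqrt hx
    have h0 := Real.sqrt_nonneg x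
    nlinarith [mul_nonneg h0 hx, pow_nonneg h0 2, pow_nonneg h0 3, pow_nonneg h0 4]
  calc Real.log (1 + x ^ 2) ≤ Real.log ((1 + √x) ^ 4) := Real.log_le_log (by positivity) h1
    _ = 4 * Real.log (1 + √x) := by rw [Real.log_pow]; norm_num
    _ ≤ 4 * √x := by
      have := Real.log_le_sub_one_of_pos (show (0:ℝ) < 1 + √x by positivity)
      linarith

theorem abs_Nn_sub_le {ε : ℝ} (hε : 0 < ε) {z : ℂ} (hz : z ≠ 0) :
    |Nn ε z - Nn 0 z| ≤ 4 * √ε * ‖z‖ ^ (-(1/2) : ℝ) := by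
  have hp : 0 < ‖z‖ := norm_pos_iff.2 hz
  have e1 : Nn ε z - Nn 0 z = Real.log (1 + (ε / ‖z‖) ^ 2) := by
    rw [Nn, Nn, ← Real.log_div (by positivity) (by positivity)]
    congr 1
    field_simp
    ring
  rw [e1, abs_of_nonneg (Real.log_nonneg (by nlinarith [sq_nonneg (ε / ‖z‖)]))]
  refine (log_one_add_sq_le (by positivity)).trans (le_of_eq ?_)
  rw [Real.sqrt_div hε.le, Real.rpow_neg hp.le, ← Real.sqrt_eq_rpow, div_eq_mul_inv]
  ring

theorem frac_le {ε a : ℝ} (hε : 0 < ε) (ha : 0 < a) : ε ^ 2 / (a ^ 2 + ε ^ 2) ≤ √(ε / a) := by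
  have hs0 := Real.sqrt_nonneg (ε / a)
  have hs : √(ε / a) ^ 2 = ε / a := Real.sq_sqrt (by positivity)
  by_cases h : ε ≤ a
  · have h1 : ε / a ≤ 1 := (div_le_one ha).2 h
    calc ε ^ 2 / (a ^ 2 + ε ^ 2) ≤ ε ^ 2 / a ^ 2 := by
          apply div_le_div_of_nonneg_left (by positivity) (by positivity)
          nlinarith [sq_nonneg ε]
      _ = (ε / a) ^ 2 := by rw [div_pow]
      _ ≤ ε / a := by nlinarith [show 0 ≤ ε / a by positivity]
      _ ≤ √(ε / a) := by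
        have : √(ε / a) ≤ 1 := by
          rw [show (1:ℝ) = √1 by simp]; exact Real.sqrt_le_sqrt h1
        nlinarith
  · have h1 : 1 ≤ ε / a := (one_le_div ha).2 (le_of_not_ge h)
    calc ε ^ 2 / (a ^ 2 + ε ^ 2) ≤ 1 := by
          rw [div_le_one (by positivity)]; nlinarith [sq_nonneg a]
      _ ≤ √(ε / a) := Real.one_le_sqrt.2 h1

theorem abs_inv_sub_le {ε : ℝ} (hε : 0 < ε) {z : ℂ} (hz : z ≠ 0) (t : ℝ) (ht : |t| ≤ ‖z‖) :
    |2 * t / (‖z‖ ^ 2 + ε ^ 2) - 2 * t / (‖z‖ ^ 2 + 0 ^ 2)| ≤ 2 * √ε * ‖z‖ ^ (-(3/2) : ℝ) := by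
  have hp : 0 < ‖z‖ := norm_pos_iff.2 hz
  have e1 : 2 * t / (‖z‖ ^ 2 + ε ^ 2) - 2 * t / (‖z‖ ^ 2 + 0 ^ 2)
      = -(2 * (t / ‖z‖ ^ 2) * (ε ^ 2 / (‖z‖ ^ 2 + ε ^ 2))) := by
    field_simp
    ring
  have h2 := frac_le hε hp
  have h3 : |t / ‖z‖ ^ 2| ≤ ‖z‖⁻¹ := by
    rw [abs_div, abs_of_pos (show 0 < ‖z‖ ^ 2 by positivity)]
    calc |t| / ‖z‖ ^ 2 ≤ ‖z‖ / ‖z‖ ^ 2 := by gcongr
      _ = ‖z‖⁻¹ := by field_simp
  rw [e1, abs_neg, abs_mul, abs_mul, abs_two, abs_of_nonneg (show 0 ≤ ε ^ 2 / (‖z‖ ^ 2 + ε ^ 2) by positivity)]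
  calc 2 * |t / ‖z‖ ^ 2| * (ε ^ 2 / (‖z‖ ^ 2 + ε ^ 2)) ≤ 2 * ‖z‖⁻¹ * √(ε / ‖z‖) := by gcongr
    _ = 2 * √ε * ‖z‖ ^ (-(3/2) : ℝ) := by
      rw [Real.sqrt_div hε.le, show (-(3/2) : ℝ) = -1 + -(1/2) by norm_num, Real.rpow_add hp,
        Real.rpow_neg_one, Real.rpow_neg hp.le, ← Real.sqrt_eq_rpow]
      ring

theorem norm_fderiv_Nn_sub_le {ε : ℝ} (hε : 0 < ε) {z : ℂ} (hz : z ≠ 0) :
    ‖fderiv ℝ (Nn ε) z - fderiv ℝ (Nn 0) z‖ ≤ 2 * √ε * ‖z‖ ^ (-(3/2) : ℝ) := by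
  have hp : 0 < ‖z‖ := norm_pos_iff.2 hz
  rw [(hasFDerivAt_Nn ε z (by positivity)).fderiv, (hasFDerivAt_Nn 0 z (by positivity)).fderiv,
    ← sub_smul, norm_smul]
  have h1 : ‖(2 • innerSL ℝ z : ℂ →L[ℝ] ℝ)‖ = 2 * ‖z‖ := by
    rw [show (2 • innerSL ℝ z : ℂ →L[ℝ] ℝ) = (2:ℝ) • innerSL ℝ z by
      rw [two_smul, ← two_smul ℝ], norm_smul, innerSL_apply_norm]
    norm_num
  have h2 := abs_inv_sub_le hε hz ‖z‖ (by rw [abs_norm])
  rw [h1]
  calc _ = |2 * ‖z‖ / (‖z‖ ^ 2 + ε ^ 2) - 2 * ‖z‖ / (‖z‖ ^ 2 + 0 ^ 2)| := by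
        rw [Real.norm_eq_abs, div_eq_mul_inv, div_eq_mul_inv, ← mul_sub, abs_mul,
          abs_of_pos (show 0 < 2 * ‖z‖ by positivity)]
        ring
    _ ≤ _ := h2

/-! ### the cut-off kernel -/

theorem lap_mul {f g : ℂ → ℝ} (hf : ContDiff ℝ ∞ f) {z : ℂ} (hg : ContDiffAt ℝ ∞ g z) :
    lap (fun w => f w * g w) z = f z * lap g z
      + (2 * (dx f z * dx g z + dy f z * dy g z) + lap f z * g z) := by
  have hfd : ∀ w, DifferentiableAt ℝ f w := fun w => (hf.differentiable (by simp)) w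
  have hgd : ∀ᶠ w in 𝓝 z, DifferentiableAt ℝ g w :=
    (hg.of_le (show (1 : WithTop ℕ∞) ≤ ∞ by exact mod_cast le_top)).eventually (by simp) |>.mono
      fun w hw => hw.differentiableAt (by simp)
  have e1 : dx (fun w => f w * g w) =ᶠ[𝓝 z] fun w => f w * dx g w + g w * dx f w := by
    filter_upwards [hgd] with w hw
    have h : HasFDerivAt (fun w => f w * g w) (f w • fderiv ℝ g w + g w • fderiv ℝ f w) w :=
      (hfd w).hasFDerivAt.mul hw.hasFDerivAt
    rw [dx, h.fderiv]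
    simp [dx]
  have e2 : dy (fun w => f w * g w) =ᶠ[𝓝 z] fun w => f w * dy g w + g w * dy f w := by
    filter_upwards [hgd] with w hw
    have h : HasFDerivAt (fun w => f w * g w) (f w • fderiv ℝ g w + g w • fderiv ℝ f w) w :=
      (hfd w).hasFDerivAt.mul hw.hasFDerivAt
    rw [dy, h.fderiv]
    simp [dy]
  have hdf : ContDiff ℝ ∞ (fderiv ℝ f) := hf.fderiv_right (by simp)
  have hdg : ContDiffAt ℝ ∞ (fderiv ℝ g) z := hg.fderiv_right (by simp)
  have a1 : DifferentiableAt ℝ (dx f) z :=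
    ((hdf.clm_apply contDiff_const).differentiable (by simp)) z
  have a2 : DifferentiableAt ℝ (dy f) z :=
    ((hdf.clm_apply contDiff_const).differentiable (by simp)) z
  have a3 : DifferentiableAt ℝ (dx g) z :=
    (hdg.clm_apply contDiffAt_const).differentiableAt (by simp)
  have a4 : DifferentiableAt ℝ (dy g) z :=
    (hdg.clm_apply contDiffAt_const).differentiableAt (by simp)
  have hgz : DifferentiableAt ℝ g z := hgd.self_of_nhds
  have h1 : HasFDerivAt (fun w => f w * dx g w + g w * dx f w)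
      ((f z • fderiv ℝ (dx g) z + dx g z • fderiv ℝ f z)
        + (g z • fderiv ℝ (dx f) z + dx f z • fderiv ℝ g z)) z :=
    ((hfd z).hasFDerivAt.mul a3.hasFDerivAt).add (hgz.hasFDerivAt.mul a1.hasFDerivAt)
  have h2 : HasFDerivAt (fun w => f w * dy g w + g w * dy f w)
      ((f z • fderiv ℝ (dy g) z + dy g z • fderiv ℝ f z)
        + (g z • fderiv ℝ (dy f) z + dy f z • fderiv ℝ g z)) z :=
    ((hfd z).hasFDerivAt.mul a4.hasFDerivAt).add (hgz.hasFDerivAt.mul a2.hasFDerivAt)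
  rw [lap, dx, e1.fderiv_eq, dy, e2.fderiv_eq, h1.fderiv, h2.fderiv]
  simp [lap]
  have r1 : ∀ F : ℂ → ℝ, dx F z = fderiv ℝ F z 1 := fun _ => rfl
  have r2 : ∀ F : ℂ → ℝ, dy F z = fderiv ℝ F z Complex.I := fun _ => rfl
  simp only [← r1, ← r2]
  ring

/-- the cut-off kernel -/
def Ek (χ : ContDiffBump (0:ℂ)) (ε : ℝ) (z : ℂ) : ℝ := χ z * Nn ε z

/-- the error of the parametrix -/
def Om (χ : ContDiffBump (0:ℂ)) (ε : ℝ) (z : ℂ) : ℝ :=
  2 * (dx χ z * dx (Nn ε) z + dy χ z * dy (Nn ε) z) + lap χ z * Nn ε z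

theorem contDiff_bump (χ : ContDiffBump (0:ℂ)) : ContDiff ℝ ∞ (χ : ℂ → ℝ) := χ.contDiff

theorem lap_Ek (χ : ContDiffBump (0:ℂ)) {ε : ℝ} (hε : 0 < ε) (z : ℂ) :
    lap (Ek χ ε) z = χ z * (4 * ε ^ 2 / (‖z‖ ^ 2 + ε ^ 2) ^ 2) + Om χ ε z := by
  have := lap_mul (contDiff_bump χ) (z := z) (contDiff_Nn hε).contDiffAt
  unfold Ek Om
  rw [this, lap_Nn hε]

theorem contDiff_Ek (χ : ContDiffBump (0:ℂ)) {ε : ℝ} (hε : 0 < ε) : ContDiff ℝ ∞ (Ek χ ε) :=
  (contDiff_bump χ).mul (contDiff_Nn hε)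

theorem tsupport_Ek (χ : ContDiffBump (0:ℂ)) (ε : ℝ) : tsupport (Ek χ ε) ⊆ closedBall 0 χ.rOut := by
  refine (tsupport_mul_subset_left (f := (χ : ℂ → ℝ))).trans ?_
  rw [χ.tsupport_eq]

theorem hasCompactSupport_Ek (χ : ContDiffBump (0:ℂ)) (ε : ℝ) : HasCompactSupport (Ek χ ε) :=
  χ.hasCompactSupport.mul_right

theorem Ek_even (χ : ContDiffBump (0:ℂ)) (ε : ℝ) (z : ℂ) : Ek χ ε (-z) = Ek χ ε z := by
  unfold Ek Nn
  rw [χ.neg, norm_neg]

end

end Pool.Agent.EQ.Reg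

end

/-! ## Lib_helper38.EQ.RegB -/

section

/-! MP_ed6ab2_an, project EQ, package R: convergence of the regularised kernels and regularity of
the convolution with the logarithmic kernel. -/

set_option autoImplicit false

namespace Pool.Agent.EQ.Reg

open MeasureTheory Filter Topology Set Metric
open scoped ContDiff Convolution

noncomputable section

/-- the comparison kernels -/
def pk (a R : ℝ) : ℂ → ℝ := indicator (closedBall 0 R) (fun z => ‖z‖ ^ (-a))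

theorem pk_nonneg (a R : ℝ) (z : ℂ) : 0 ≤ pk a R z :=
  indicator_nonneg (fun z _ => Real.rpow_nonneg (norm_nonneg z) _) z

theorem integrable_pk {a : ℝ} (ha : a < 2) (R : ℝ) : Integrable (pk a R) := by
  have h1 : LocallyIntegrable (fun z : ℂ => ‖z‖ ^ (-a)) volume := by
    refine locallyIntegrable_of_norm_le_rpow (C := 1) (α := a) (by simp) (by simpa using ha) ?_ ?_
    · filter_upwards with z
      rw [Real.norm_eq_abs, abs_of_nonneg (Real.rpow_nonneg (norm_nonneg z) _), one_mul]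
    · exact (measurable_norm.pow_const _).aestronglyMeasurable
  rw [pk, integrable_indicator_iff isClosed_closedBall.measurableSet]
  exact h1.integrableOn_isCompact (isCompact_closedBall 0 R)

theorem ae_ne_zero : ∀ᵐ z : ℂ, z ≠ 0 := by
  have : ({0}ᶜ : Set ℂ) ∈ ae (volume : Measure ℂ) := compl_mem_ae_iff.2 (measure_singleton 0)
  filter_upwards [this] with z hz using hz

theorem measurable_Nn (ε : ℝ) : Measurable (Nn ε) := by
  unfold Nn
  exact Real.measurable_log.comp ((measurable_norm.pow_const 2).add_const _)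

theorem bump_zero_of (χ : ContDiffBump (0:ℂ)) {z : ℂ} (hz : z ∉ closedBall (0:ℂ) χ.rOut) :
    χ z = 0 := χ.zero_of_le_dist (by rw [mem_closedBall, not_le] at hz; exact hz.le)

theorem Ek_sub_le (χ : ContDiffBump (0:ℂ)) {ε : ℝ} (hε : 0 < ε) {z : ℂ} (hz : z ≠ 0) :
    ‖Ek χ ε z - Ek χ 0 z‖ ≤ √ε * (4 * pk (1/2) χ.rOut z) := by
  have h0 : Ek χ ε z - Ek χ 0 z = χ z * (Nn ε z - Nn 0 z) := by unfold Ek; ring
  rw [h0, Real.norm_eq_abs, abs_mul, abs_of_nonneg χ.nonneg]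
  by_cases hb : z ∈ closedBall (0:ℂ) χ.rOut
  · rw [pk, indicator_of_mem hb]
    calc χ z * |Nn ε z - Nn 0 z| ≤ 1 * (4 * √ε * ‖z‖ ^ (-(1/2) : ℝ)) := by
          gcongr
          · exact χ.le_one
          · exact abs_Nn_sub_le hε hz
      _ = _ := by ring
  · rw [bump_zero_of χ hb, zero_mul]
    have := pk_nonneg (1/2) χ.rOut z
    positivity

theorem measurable_Ek (χ : ContDiffBump (0:ℂ)) (ε : ℝ) : Measurable (Ek χ ε) :=
  χ.contDiff (n := 0) |>.continuous.measurable.mul (measurable_Nn ε)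

theorem integrable_Ek (χ : ContDiffBump (0:ℂ)) {ε : ℝ} (hε : 0 ≤ ε) : Integrable (Ek χ ε) := by
  rcases hε.eq_or_lt with h | h
  · subst h
    have h1 : Integrable (Ek χ 1) :=
      (contDiff_Ek χ one_pos).continuous.integrable_of_hasCompactSupport (hasCompactSupport_Ek χ 1)
    have h2 : Integrable (fun z => Ek χ 1 z - Ek χ 0 z) := by
      refine Integrable.mono' (((integrable_pk (a := 1/2) (by norm_num) χ.rOut).const_mul 4).const_mul (√1)) ?_ ?_
      · exact ((measurable_Ek χ 1).sub (measurable_Ek χ 0)).aestronglyMeasurable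
      · filter_upwards [ae_ne_zero] with z hz using Ek_sub_le χ one_pos hz
    have := h1.sub h2
    refine this.congr (Eventually.of_forall fun z => ?_)
    simp
  · exact (contDiff_Ek χ h).continuous.integrable_of_hasCompactSupport (hasCompactSupport_Ek χ ε)

/-- kernels close in `L¹` have uniformly close convolutions with bounded functions -/
theorem tendstoUniformly_conv {F F' : Type*} [NormedAddCommGroup F] [NormedSpace ℝ F]
    [NormedAddCommGroup F'] [NormedSpace ℝ F'] (L : F →L[ℝ] ℝ →L[ℝ] F')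
    (K : ℝ → ℂ → F) (B : ℂ → ℝ) (hB : Integrable B)
    (hK : ∀ ε, 0 < ε → ∀ᵐ z, ‖K ε z - K 0 z‖ ≤ √ε * B z)
    (hint : ∀ ε, 0 ≤ ε → Integrable (K ε)) (h : ℂ → ℝ) (hc : Continuous h) (M : ℝ)
    (hM : ∀ z, |h z| ≤ M) :
    TendstoUniformly (fun ε x => (K ε ⋆[L, volume] h) x) (K 0 ⋆[L, volume] h) (𝓝[>] 0) := by
  have hI : ∀ ε, 0 ≤ ε → ∀ x, Integrable (fun t => L (K ε t) (h (x - t))) := by
    intro ε hε x
    refine Integrable.mono' (((hint ε hε).norm.const_mul ‖L‖).mul_const M) ?_ ?_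
    · exact (L.aestronglyMeasurable_comp₂ (hint ε hε).aestronglyMeasurable
        (hc.comp (continuous_const.sub continuous_id)).aestronglyMeasurable)
    · filter_upwards with t
      refine (L.le_opNorm₂ _ _).trans ?_
      have : ‖h (x - t)‖ ≤ M := hM _
      gcongr
  have hM0 : 0 ≤ M := (abs_nonneg _).trans (hM 0)
  have key : ∀ ε, 0 < ε → ∀ x, dist ((K 0 ⋆[L, volume] h) x) ((K ε ⋆[L, volume] h) x)
      ≤ √ε * (‖L‖ * M * ∫ z, B z) := by
    intro ε hε x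
    rw [dist_comm, dist_eq_norm, convolution, convolution, ← integral_sub (hI ε hε.le x) (hI 0 le_rfl x)]
    have e1 : √ε * (‖L‖ * M * ∫ z, B z) = ∫ z, √ε * (‖L‖ * M * B z) := by
      rw [integral_const_mul, integral_const_mul]
    rw [e1]
    refine norm_integral_le_of_norm_le ((hB.const_mul _).const_mul _) ?_
    filter_upwards [hK ε hε] with z hz
    rw [← sub_apply, ← map_sub]
    refine (L.le_opNorm₂ _ _).trans ?_
    have h1 : ‖h (x - z)‖ ≤ M := hM _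
    have h2 : 0 ≤ √ε * B z := (norm_nonneg _).trans hz
    calc ‖L‖ * ‖K ε z - K 0 z‖ * ‖h (x - z)‖ ≤ ‖L‖ * (√ε * B z) * M := by gcongr
      _ = _ := by ring
  rw [Metric.tendstoUniformly_iff]
  intro δ hδ
  have hlim : Tendsto (fun ε : ℝ => √ε * (‖L‖ * M * ∫ z, B z)) (𝓝[>] 0) (𝓝 0) := by
    have : Tendsto (fun ε : ℝ => √ε * (‖L‖ * M * ∫ z, B z)) (𝓝 0) (𝓝 (√0 * (‖L‖ * M * ∫ z, B z))) :=
      (Real.continuous_sqrt.tendsto 0).mul_const _
    simpa using this.mono_left nhdsWithin_le_nhds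
  filter_upwards [hlim.eventually (gt_mem_nhds hδ), self_mem_nhdsWithin] with ε h1 h2 x
  exact (key ε h2 x).trans_lt h1

/-! ### the gradient kernel -/

theorem exists_bound_fderiv (χ : ContDiffBump (0:ℂ)) : ∃ M, 0 ≤ M ∧ ∀ z, ‖fderiv ℝ χ z‖ ≤ M := by
  obtain ⟨M, hM⟩ := ((χ.contDiff (n := 1)).continuous_fderiv (by simp)).bounded_above_of_compact_support
    (χ.hasCompactSupport.fderiv (𝕜 := ℝ))
  exact ⟨M, (norm_nonneg _).trans (hM 0), hM⟩

theorem fderiv_bump_zero_of (χ : ContDiffBump (0:ℂ)) {z : ℂ} (hz : z ∉ closedBall (0:ℂ) χ.rOut) :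
    fderiv ℝ χ z = 0 := by
  refine image_eq_zero_of_notMem_tsupport (fun h => hz ?_)
  have := tsupport_fderiv_subset ℝ (f := (χ : ℂ → ℝ)) h
  rwa [χ.tsupport_eq] at this

/-- the gradient kernel -/
def Gk (χ : ContDiffBump (0:ℂ)) (ε : ℝ) (z : ℂ) : ℂ →L[ℝ] ℝ := fderiv ℝ (Ek χ ε) z

theorem Gk_eq (χ : ContDiffBump (0:ℂ)) (ε : ℝ) {z : ℂ} (hz : z ≠ 0) :
    Gk χ ε z = χ z • fderiv ℝ (Nn ε) z + Nn ε z • fderiv ℝ χ z := by
  have hp : 0 < ‖z‖ := norm_pos_iff.2 hz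
  have h1 : HasFDerivAt (Ek χ ε) (χ z • fderiv ℝ (Nn ε) z + Nn ε z • fderiv ℝ χ z) z :=
    (((χ.contDiff (n := 1)).differentiable (by simp)) z).hasFDerivAt.mul
      (hasFDerivAt_Nn ε z (by positivity)).differentiableAt.hasFDerivAt
  exact h1.fderiv

theorem exists_Gk_sub_le (χ : ContDiffBump (0:ℂ)) : ∃ M, 0 ≤ M ∧ ∀ ε, 0 < ε → ∀ z : ℂ, z ≠ 0 →
    ‖Gk χ ε z - Gk χ 0 z‖ ≤ √ε * (2 * pk (3/2) χ.rOut z + M * (4 * pk (1/2) χ.rOut z)) := by
  obtain ⟨M, hM0, hM⟩ := exists_bound_fderiv χ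
  refine ⟨M, hM0, fun ε hε z hz => ?_⟩
  have e1 : Gk χ ε z - Gk χ 0 z = χ z • (fderiv ℝ (Nn ε) z - fderiv ℝ (Nn 0) z)
      + (Nn ε z - Nn 0 z) • fderiv ℝ χ z := by
    rw [Gk_eq χ ε hz, Gk_eq χ 0 hz, smul_sub, sub_smul]; abel
  rw [e1]
  by_cases hb : z ∈ closedBall (0:ℂ) χ.rOut
  · rw [pk, pk, indicator_of_mem hb, indicator_of_mem hb]
    refine (norm_add_le _ _).trans ?_
    rw [norm_smul, norm_smul, Real.norm_eq_abs, Real.norm_eq_abs, abs_of_nonneg χ.nonneg]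
    calc χ z * ‖fderiv ℝ (Nn ε) z - fderiv ℝ (Nn 0) z‖ + |Nn ε z - Nn 0 z| * ‖fderiv ℝ χ z‖
        ≤ 1 * (2 * √ε * ‖z‖ ^ (-(3/2) : ℝ)) + (4 * √ε * ‖z‖ ^ (-(1/2) : ℝ)) * M := by
          gcongr
          · exact χ.le_one
          · exact norm_fderiv_Nn_sub_le hε hz
          · exact abs_Nn_sub_le hε hz
          · exact hM z
      _ = _ := by ring
  · rw [bump_zero_of χ hb, fderiv_bump_zero_of χ hb]
    have h1 := pk_nonneg (1/2) χ.rOut z
    have h2 := pk_nonneg (3/2) χ.rOut z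
    simp only [zero_smul, smul_zero, add_zero, norm_zero]
    positivity

theorem contDiff_Gk (χ : ContDiffBump (0:ℂ)) {ε : ℝ} (hε : 0 < ε) : ContDiff ℝ ∞ (Gk χ ε) :=
  (contDiff_Ek χ hε).fderiv_right (by simp)

theorem hasCompactSupport_Gk (χ : ContDiffBump (0:ℂ)) (ε : ℝ) : HasCompactSupport (Gk χ ε) :=
  (hasCompactSupport_Ek χ ε).fderiv (𝕜 := ℝ)

theorem measurable_Gk (χ : ContDiffBump (0:ℂ)) (ε : ℝ) : Measurable (Gk χ ε) :=
  measurable_fderiv ℝ _

theorem integrable_Gk (χ : ContDiffBump (0:ℂ)) {ε : ℝ} (hε : 0 ≤ ε) : Integrable (Gk χ ε) := by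
  rcases hε.eq_or_lt with h | h
  · subst h
    obtain ⟨M, hM0, hM⟩ := exists_Gk_sub_le χ
    have h1 : Integrable (Gk χ 1) :=
      (contDiff_Gk χ one_pos).continuous.integrable_of_hasCompactSupport (hasCompactSupport_Gk χ 1)
    have h2 : Integrable (fun z => Gk χ 1 z - Gk χ 0 z) := by
      refine Integrable.mono' ((((integrable_pk (a := 3/2) (by norm_num) χ.rOut).const_mul 2).add
        (((integrable_pk (a := 1/2) (by norm_num) χ.rOut).const_mul 4).const_mul M)).const_mul (√1)) ?_ ?_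
      · exact ((measurable_Gk χ 1).sub (measurable_Gk χ 0)).aestronglyMeasurable
      · filter_upwards [ae_ne_zero] with z hz using hM 1 one_pos z hz
    have := h1.sub h2
    refine this.congr (Eventually.of_forall fun z => ?_)
    simp
  · exact (contDiff_Gk χ h).continuous.integrable_of_hasCompactSupport (hasCompactSupport_Gk χ ε)

/-! ### gain of one derivative -/

/-- scalar convolution -/

theorem hasFDerivAt_conv_Ek (χ : ContDiffBump (0:ℂ)) {h : ℂ → ℝ} (hc : Continuous h)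
    (hs : HasCompactSupport h) (x : ℂ) :
    HasFDerivAt (Ek χ 0 ⋆[(ContinuousLinearMap.lsmul ℝ ℝ : ℝ →L[ℝ] ℝ →L[ℝ] ℝ), volume] h)
      ((Gk χ 0 ⋆[(ContinuousLinearMap.lsmul ℝ ℝ : ℝ →L[ℝ] ℝ →L[ℝ] ℝ).precompL ℂ, volume] h) x) x := by
  obtain ⟨M, hM⟩ := hc.bounded_above_of_compact_support hs
  obtain ⟨N, hN0, hN⟩ := exists_Gk_sub_le χ
  refine hasFDerivAt_of_tendstoUniformlyOnFilter (𝕜 := ℝ) (l := 𝓝[>] (0:ℝ))
    (f := fun ε x => (Ek χ ε ⋆[(ContinuousLinearMap.lsmul ℝ ℝ : ℝ →L[ℝ] ℝ →L[ℝ] ℝ), volume] h) x)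
    (f' := fun ε x => (Gk χ ε ⋆[(ContinuousLinearMap.lsmul ℝ ℝ : ℝ →L[ℝ] ℝ →L[ℝ] ℝ).precompL ℂ, volume] h) x) ?_ ?_ ?_
  · refine TendstoUniformlyOnFilter.mono_right ?_ (le_top (a := 𝓝 x))
    rw [← tendstoUniformly_iff_tendstoUniformlyOnFilter]
    exact tendstoUniformly_conv _ (Gk χ) _
      (((integrable_pk (a := 3/2) (by norm_num) χ.rOut).const_mul 2).add
        (((integrable_pk (a := 1/2) (by norm_num) χ.rOut).const_mul 4).const_mul N))
      (fun ε hε => by filter_upwards [ae_ne_zero] with z hz using hN ε hε z hz)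
      (fun ε hε => integrable_Gk χ hε) h hc M (fun z => hM z)
  · have h0 : ∀ᶠ ε : ℝ in 𝓝[>] 0, 0 < ε := self_mem_nhdsWithin
    filter_upwards [h0.prod_inl (𝓝 x)] with p hp
    exact HasCompactSupport.hasFDerivAt_convolution_left _ (hasCompactSupport_Ek χ p.1)
      ((contDiff_Ek χ hp).of_le (by simp)) hc.locallyIntegrable p.2
  · refine Eventually.of_forall fun y => ?_
    exact (tendstoUniformly_conv (ContinuousLinearMap.lsmul ℝ ℝ : ℝ →L[ℝ] ℝ →L[ℝ] ℝ) (Ek χ) _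
      ((integrable_pk (a := 1/2) (by norm_num) χ.rOut).const_mul 4)
      (fun ε hε => by filter_upwards [ae_ne_zero] with z hz using Ek_sub_le χ hε hz)
      (fun ε hε => integrable_Ek χ hε) h hc M (fun z => hM z)).tendsto_at y

theorem contDiff_one_conv_Ek (χ : ContDiffBump (0:ℂ)) {h : ℂ → ℝ} (hc : Continuous h)
    (hs : HasCompactSupport h) :
    ContDiff ℝ 1 (Ek χ 0 ⋆[(ContinuousLinearMap.lsmul ℝ ℝ : ℝ →L[ℝ] ℝ →L[ℝ] ℝ), volume] h) := by
  rw [contDiff_one_iff_fderiv]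
  refine ⟨fun x => (hasFDerivAt_conv_Ek χ hc hs x).differentiableAt, ?_⟩
  have e1 : fderiv ℝ (Ek χ 0 ⋆[(ContinuousLinearMap.lsmul ℝ ℝ : ℝ →L[ℝ] ℝ →L[ℝ] ℝ), volume] h)
      = (Gk χ 0 ⋆[(ContinuousLinearMap.lsmul ℝ ℝ : ℝ →L[ℝ] ℝ →L[ℝ] ℝ).precompL ℂ, volume] h) :=
    funext fun x => (hasFDerivAt_conv_Ek χ hc hs x).fderiv
  rw [e1]
  exact hs.continuous_convolution_right _ (integrable_Gk χ le_rfl).locallyIntegrable hc

theorem contDiff_conv_Ek (χ : ContDiffBump (0:ℂ)) (k : ℕ) : ∀ {h : ℂ → ℝ}, ContDiff ℝ k h →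
    HasCompactSupport h →
    ContDiff ℝ (k + 1 : ℕ) (Ek χ 0 ⋆[(ContinuousLinearMap.lsmul ℝ ℝ : ℝ →L[ℝ] ℝ →L[ℝ] ℝ), volume] h) := by
  induction k with
  | zero =>
    intro h hc hs
    simpa using contDiff_one_conv_Ek χ hc.continuous hs
  | succ k ih =>
    intro h hc hs
    have hc1 : ContDiff ℝ 1 h := hc.of_le (by simp)
    have hd : ∀ x, HasFDerivAt (Ek χ 0 ⋆[(ContinuousLinearMap.lsmul ℝ ℝ : ℝ →L[ℝ] ℝ →L[ℝ] ℝ), volume] h)
        ((Ek χ 0 ⋆[(ContinuousLinearMap.lsmul ℝ ℝ : ℝ →L[ℝ] ℝ →L[ℝ] ℝ).precompR ℂ, volume] fderiv ℝ h) x) x := fun x =>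
      hs.hasFDerivAt_convolution_right _ (integrable_Ek χ le_rfl).locallyIntegrable hc1 x
    have hfd : ContDiff ℝ k (fderiv ℝ h) := hc.fderiv_right (by simp)
    rw [show ((k + 1 + 1 : ℕ) : WithTop ℕ∞) = ((k + 1 : ℕ) : WithTop ℕ∞) + 1 by push_cast; rfl,
      contDiff_succ_iff_fderiv]
    refine ⟨fun x => (hd x).differentiableAt, by simp, ?_⟩
    rw [contDiff_clm_apply_iff]
    intro v
    have e1 : (fun x => fderiv ℝ (Ek χ 0 ⋆[(ContinuousLinearMap.lsmul ℝ ℝ : ℝ →L[ℝ] ℝ →L[ℝ] ℝ), volume] h) x v)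
        = (Ek χ 0 ⋆[(ContinuousLinearMap.lsmul ℝ ℝ : ℝ →L[ℝ] ℝ →L[ℝ] ℝ), volume] fun a => fderiv ℝ h a v) := by
      funext x
      rw [(hd x).fderiv]
      exact convolution_precompR_apply _ (integrable_Ek χ le_rfl).locallyIntegrable
        (hs.fderiv (𝕜 := ℝ)) hfd.continuous x v
    rw [e1]
    exact ih (hfd.clm_apply contDiff_const) ((hs.fderiv (𝕜 := ℝ)).comp_left (g := fun L : ℂ →L[ℝ] ℝ => L v) (by simp))

end

end Pool.Agent.EQ.Reg

end

/-! ## Lib_helper38.EQ.RegC -/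

section

/-! MP_ed6ab2_an, project EQ, package R: `L²` data, the error kernel and the approximate identity. -/

set_option autoImplicit false

namespace Pool.Agent.EQ.Reg

open MeasureTheory Filter Topology Set Metric
open scoped ContDiff Convolution

noncomputable section


theorem pk_half_sq (R : ℝ) (z : ℂ) : pk (1/2) R z ^ 2 = pk 1 R z := by
  unfold pk
  by_cases h : z ∈ closedBall (0:ℂ) R
  · rw [indicator_of_mem h, indicator_of_mem h, ← Real.rpow_natCast, ← Real.rpow_mul (norm_nonneg z)]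
    norm_num
  · rw [indicator_of_notMem h, indicator_of_notMem h]; simp

theorem l2_bound {d h : ℂ → ℝ} (hd : AEStronglyMeasurable d) {s R : ℝ} (hs : 0 ≤ s)
    (hdb : ∀ᵐ t, ‖d t‖ ≤ s * (4 * pk (1/2) R t)) (hm : AEStronglyMeasurable h)
    (h2 : Integrable (fun z => h z ^ 2)) (x : ℂ) :
    Integrable (fun t => d t * h (x - t)) ∧
      |∫ t, d t * h (x - t)| ≤ s * (8 * (∫ t, pk 1 R t) + (1/2) * ∫ t, h t ^ 2) := by
  have hmx : AEStronglyMeasurable (fun t => h (x - t)) :=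
    hm.comp_quasiMeasurePreserving (quasiMeasurePreserving_sub_left volume x)
  have h2x : Integrable (fun t => h (x - t) ^ 2) := h2.comp_sub_left x
  have hB : Integrable (fun t => s * (8 * pk 1 R t + (1/2) * h (x - t) ^ 2)) :=
    (((integrable_pk (a := 1) (by norm_num) R).const_mul 8).add (h2x.const_mul _)).const_mul s
  have hle : ∀ᵐ t, ‖d t * h (x - t)‖ ≤ s * (8 * pk 1 R t + (1/2) * h (x - t) ^ 2) := by
    filter_upwards [hdb] with t ht
    rw [norm_mul, ← pk_half_sq R t]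
    have h1 : 4 * pk (1/2) R t * ‖h (x - t)‖ ≤ 8 * pk (1/2) R t ^ 2 + (1/2) * h (x - t) ^ 2 := by
      have h3 : ‖h (x - t)‖ ^ 2 = h (x - t) ^ 2 := by rw [Real.norm_eq_abs, sq_abs]
      rw [← h3]
      nlinarith [sq_nonneg (4 * pk (1/2) R t - ‖h (x - t)‖)]
    calc ‖d t‖ * ‖h (x - t)‖ ≤ s * (4 * pk (1/2) R t) * ‖h (x - t)‖ := by gcongr
      _ = s * (4 * pk (1/2) R t * ‖h (x - t)‖) := by ring
      _ ≤ _ := by gcongr
  refine ⟨hB.mono' (hd.mul hmx) hle, ?_⟩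
  have h4 := norm_integral_le_of_norm_le hB hle
  rw [Real.norm_eq_abs] at h4
  refine h4.trans (le_of_eq ?_)
  rw [integral_const_mul, integral_add ((integrable_pk (a := 1) (by norm_num) R).const_mul 8) (h2x.const_mul _),
    integral_const_mul, integral_const_mul, integral_sub_left_eq_self (fun t => h t ^ 2) volume x]

theorem integrable_Ek_mul (χ : ContDiffBump (0:ℂ)) {h : ℂ → ℝ} (hm : AEStronglyMeasurable h)
    (h2 : Integrable (fun z => h z ^ 2)) (hl : LocallyIntegrable h) {ε : ℝ} (hε : 0 ≤ ε) (x : ℂ) :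
    Integrable (fun t => Ek χ ε t * h (x - t)) := by
  have pos : ∀ ε, 0 < ε → Integrable (fun t => Ek χ ε t * h (x - t)) := by
    intro ε hε
    exact ((hasCompactSupport_Ek χ ε).convolutionExists_left (ContinuousLinearMap.lsmul ℝ ℝ : ℝ →L[ℝ] ℝ →L[ℝ] ℝ) (contDiff_Ek χ hε).continuous hl) x
  rcases hε.eq_or_lt with h' | h'
  · subst h'
    have h1 := pos 1 one_pos
    have h3 := (l2_bound (d := fun t => Ek χ 1 t - Ek χ 0 t) (s := √1) (R := χ.rOut)
      ((measurable_Ek χ 1).sub (measurable_Ek χ 0)).aestronglyMeasurable (by positivity)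
      (by filter_upwards [ae_ne_zero] with z hz using Ek_sub_le χ one_pos hz) hm h2 x).1
    refine (h1.sub h3).congr (Eventually.of_forall fun t => ?_)
    simp only [Pi.sub_apply]
    ring
  · exact pos ε h'

theorem continuous_conv_Ek_L2 (χ : ContDiffBump (0:ℂ)) {h : ℂ → ℝ} (hm : AEStronglyMeasurable h)
    (h2 : Integrable (fun z => h z ^ 2)) (hl : LocallyIntegrable h) :
    Continuous (Ek χ 0 ⋆[(ContinuousLinearMap.lsmul ℝ ℝ : ℝ →L[ℝ] ℝ →L[ℝ] ℝ), volume] h) := by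
  have key : TendstoUniformly (fun ε x => (Ek χ ε ⋆[(ContinuousLinearMap.lsmul ℝ ℝ : ℝ →L[ℝ] ℝ →L[ℝ] ℝ), volume] h) x) (Ek χ 0 ⋆[(ContinuousLinearMap.lsmul ℝ ℝ : ℝ →L[ℝ] ℝ →L[ℝ] ℝ), volume] h) (𝓝[>] 0) := by
    rw [Metric.tendstoUniformly_iff]
    intro δ hδ
    set C := 8 * (∫ t, pk 1 χ.rOut t) + (1/2) * ∫ t, h t ^ 2
    have hlim : Tendsto (fun ε : ℝ => √ε * C) (𝓝[>] 0) (𝓝 0) := by
      have : Tendsto (fun ε : ℝ => √ε * C) (𝓝 0) (𝓝 (√0 * C)) :=
        (Real.continuous_sqrt.tendsto 0).mul_const _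
      simpa using this.mono_left nhdsWithin_le_nhds
    filter_upwards [hlim.eventually (gt_mem_nhds hδ), self_mem_nhdsWithin] with ε h1 hε x
    refine lt_of_le_of_lt ?_ h1
    rw [dist_comm, dist_eq_norm, convolution, convolution]
    simp only [ContinuousLinearMap.lsmul_apply, smul_eq_mul]
    rw [← integral_sub (integrable_Ek_mul χ hm h2 hl (le_of_lt hε) x) (integrable_Ek_mul χ hm h2 hl le_rfl x)]
    have h3 := (l2_bound (d := fun t => Ek χ ε t - Ek χ 0 t) (s := √ε) (R := χ.rOut)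
      ((measurable_Ek χ ε).sub (measurable_Ek χ 0)).aestronglyMeasurable (by positivity)
      (by filter_upwards [ae_ne_zero] with z hz using Ek_sub_le χ hε hz) hm h2 x).2
    rw [Real.norm_eq_abs]
    refine le_trans (le_of_eq ?_) h3
    congr 1
    refine integral_congr_ae (Eventually.of_forall fun t => ?_)
    simp only
    ring
  refine key.continuous (Eventually.frequently ?_)
  filter_upwards [self_mem_nhdsWithin] with ε hε
  exact (hasCompactSupport_Ek χ ε).continuous_convolution_left (ContinuousLinearMap.lsmul ℝ ℝ : ℝ →L[ℝ] ℝ →L[ℝ] ℝ) (contDiff_Ek χ hε).continuous hl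

/-! ### the error kernel -/

theorem contDiff_dx {f : ℂ → ℝ} (hf : ContDiff ℝ ∞ f) : ContDiff ℝ ∞ (dx f) :=
  (hf.fderiv_right (m := ∞) (by simp)).clm_apply contDiff_const

theorem contDiff_dy {f : ℂ → ℝ} (hf : ContDiff ℝ ∞ f) : ContDiff ℝ ∞ (dy f) :=
  (hf.fderiv_right (m := ∞) (by simp)).clm_apply contDiff_const

theorem contDiff_lap {f : ℂ → ℝ} (hf : ContDiff ℝ ∞ f) : ContDiff ℝ ∞ (lap f) :=
  (contDiff_dx (contDiff_dx hf)).add (contDiff_dy (contDiff_dy hf))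

theorem contDiffAt_dx {f : ℂ → ℝ} {z : ℂ} (hf : ContDiffAt ℝ ∞ f z) : ContDiffAt ℝ ∞ (dx f) z :=
  (hf.fderiv_right (m := ∞) (by simp)).clm_apply contDiffAt_const

theorem contDiffAt_dy {f : ℂ → ℝ} {z : ℂ} (hf : ContDiffAt ℝ ∞ f z) : ContDiffAt ℝ ∞ (dy f) z :=
  (hf.fderiv_right (m := ∞) (by simp)).clm_apply contDiffAt_const

theorem dx_congr {f g : ℂ → ℝ} {z : ℂ} (h : f =ᶠ[𝓝 z] g) : dx f =ᶠ[𝓝 z] dx g := by
  filter_upwards [h.eventuallyEq_nhds] with w hw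
  rw [dx, dx, hw.fderiv_eq]

theorem dy_congr {f g : ℂ → ℝ} {z : ℂ} (h : f =ᶠ[𝓝 z] g) : dy f =ᶠ[𝓝 z] dy g := by
  filter_upwards [h.eventuallyEq_nhds] with w hw
  rw [dy, dy, hw.fderiv_eq]

theorem lap_congr {f g : ℂ → ℝ} {z : ℂ} (h : f =ᶠ[𝓝 z] g) : lap f =ᶠ[𝓝 z] lap g :=
  (dx_congr (dx_congr h)).add (dy_congr (dy_congr h))

theorem dx_const (c : ℝ) : dx (fun _ => c) = fun _ => 0 := by
  funext z; simp [dx]

theorem dy_const (c : ℝ) : dy (fun _ => c) = fun _ => 0 := by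
  funext z; simp [dy]

theorem lap_const (c : ℝ) : lap (fun _ => c) = fun _ => 0 := by
  funext z; simp [lap, dx_const, dy_const]

/-- the derivatives of a function vanish outside its support -/
theorem dx_zero_of {f : ℂ → ℝ} {z : ℂ} (h : z ∉ tsupport f) : dx f z = 0 := by
  have := (dx_congr (notMem_tsupport_iff_eventuallyEq.1 h)).self_of_nhds
  rw [this]; exact congrFun (dx_const 0) z

theorem dy_zero_of {f : ℂ → ℝ} {z : ℂ} (h : z ∉ tsupport f) : dy f z = 0 := by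
  have := (dy_congr (notMem_tsupport_iff_eventuallyEq.1 h)).self_of_nhds
  rw [this]; exact congrFun (dy_const 0) z

theorem lap_zero_of {f : ℂ → ℝ} {z : ℂ} (h : z ∉ tsupport f) : lap f z = 0 := by
  have := (lap_congr (notMem_tsupport_iff_eventuallyEq.1 h)).self_of_nhds
  rw [this]; exact congrFun (lap_const 0) z

theorem tsupport_dx {f : ℂ → ℝ} : tsupport (dx f) ⊆ tsupport f :=
  closure_minimal (fun z hz => by by_contra h; exact hz (dx_zero_of h)) (isClosed_tsupport f)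

theorem tsupport_dy {f : ℂ → ℝ} : tsupport (dy f) ⊆ tsupport f :=
  closure_minimal (fun z hz => by by_contra h; exact hz (dy_zero_of h)) (isClosed_tsupport f)

theorem tsupport_lap {f : ℂ → ℝ} : tsupport (lap f) ⊆ tsupport f :=
  closure_minimal (fun z hz => by by_contra h; exact hz (lap_zero_of h)) (isClosed_tsupport f)

theorem hasCompactSupport_dx {f : ℂ → ℝ} (h : HasCompactSupport f) : HasCompactSupport (dx f) :=
  HasCompactSupport.of_support_subset_isCompact h ((subset_tsupport _).trans tsupport_dx)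

theorem hasCompactSupport_dy {f : ℂ → ℝ} (h : HasCompactSupport f) : HasCompactSupport (dy f) :=
  HasCompactSupport.of_support_subset_isCompact h ((subset_tsupport _).trans tsupport_dy)

theorem hasCompactSupport_lap {f : ℂ → ℝ} (h : HasCompactSupport f) : HasCompactSupport (lap f) :=
  HasCompactSupport.of_support_subset_isCompact h ((subset_tsupport _).trans tsupport_lap)

theorem Om_zero_of (χ : ContDiffBump (0:ℂ)) (ε : ℝ) {z : ℂ} (hz : z ∉ closedBall (0:ℂ) χ.rOut) :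
    Om χ ε z = 0 := by
  have h : z ∉ tsupport (χ : ℂ → ℝ) := by rwa [χ.tsupport_eq]
  rw [Om, dx_zero_of h, dy_zero_of h, lap_zero_of h]; ring

theorem Om_near_zero (χ : ContDiffBump (0:ℂ)) (ε : ℝ) : Om χ ε =ᶠ[𝓝 0] fun _ => 0 := by
  have h1 : (χ : ℂ → ℝ) =ᶠ[𝓝 0] fun _ => 1 := χ.eventuallyEq_one
  filter_upwards [dx_congr h1, dy_congr h1, lap_congr h1] with z a b c
  rw [Om, a, b, c, congrFun (dx_const 1) z, congrFun (dy_const 1) z, congrFun (lap_const 1) z]; ring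

theorem contDiff_Om (χ : ContDiffBump (0:ℂ)) (ε : ℝ) : ContDiff ℝ ∞ (Om χ ε) := by
  rw [contDiff_iff_contDiffAt]
  intro z
  by_cases hz : z = 0
  · subst hz
    exact contDiffAt_const.congr_of_eventuallyEq (Om_near_zero χ ε)
  · have hp : 0 < ‖z‖ := norm_pos_iff.2 hz
    have h1 : ContDiffAt ℝ ∞ (Nn ε) z := contDiffAt_Nn ε z (by positivity)
    have hχ := contDiff_bump χ
    exact ((contDiffAt_const (c := (2:ℝ))).mul (((contDiff_dx hχ).contDiffAt.mul (contDiffAt_dx h1)).add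
      ((contDiff_dy hχ).contDiffAt.mul (contDiffAt_dy h1)))).add ((contDiff_lap hχ).contDiffAt.mul h1)

theorem hasCompactSupport_Om (χ : ContDiffBump (0:ℂ)) (ε : ℝ) : HasCompactSupport (Om χ ε) :=
  HasCompactSupport.intro (isCompact_closedBall (0:ℂ) χ.rOut) fun _ hz => Om_zero_of χ ε hz

theorem exists_Om_sub_le (χ : ContDiffBump (0:ℂ)) : ∃ M, 0 ≤ M ∧ ∀ ε, 0 < ε → ∀ z : ℂ, z ≠ 0 →
    ‖Om χ ε z - Om χ 0 z‖ ≤ √ε * (M * pk (3/2) χ.rOut z + M * pk (1/2) χ.rOut z) := by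
  have hχ := contDiff_bump χ
  obtain ⟨A, hA⟩ := (contDiff_dx hχ).continuous.bounded_above_of_compact_support
    (hasCompactSupport_dx χ.hasCompactSupport)
  obtain ⟨B, hB⟩ := (contDiff_dy hχ).continuous.bounded_above_of_compact_support
    (hasCompactSupport_dy χ.hasCompactSupport)
  obtain ⟨C, hC⟩ := (contDiff_lap hχ).continuous.bounded_above_of_compact_support
    (hasCompactSupport_lap χ.hasCompactSupport)
  have hA0 : 0 ≤ A := (norm_nonneg _).trans (hA 0)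
  have hB0 : 0 ≤ B := (norm_nonneg _).trans (hB 0)
  have hC0 : 0 ≤ C := (norm_nonneg _).trans (hC 0)
  refine ⟨4 * A + 4 * B + 4 * C, by positivity, fun ε hε z hz => ?_⟩
  have hp : 0 < ‖z‖ := norm_pos_iff.2 hz
  by_cases hb : z ∈ closedBall (0:ℂ) χ.rOut
  · rw [pk, pk, indicator_of_mem hb, indicator_of_mem hb]
    have e1 : Om χ ε z - Om χ 0 z = 2 * (dx χ z * (dx (Nn ε) z - dx (Nn 0) z))
        + 2 * (dy χ z * (dy (Nn ε) z - dy (Nn 0) z)) + lap χ z * (Nn ε z - Nn 0 z) := by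
      unfold Om; ring
    have b1 : |dx (Nn ε) z - dx (Nn 0) z| ≤ 2 * √ε * ‖z‖ ^ (-(3/2) : ℝ) := by
      rw [dx_Nn ε z (by positivity), dx_Nn 0 z (by positivity)]
      exact abs_inv_sub_le hε hz z.re (Complex.abs_re_le_norm z)
    have b2 : |dy (Nn ε) z - dy (Nn 0) z| ≤ 2 * √ε * ‖z‖ ^ (-(3/2) : ℝ) := by
      rw [dy_Nn ε z (by positivity), dy_Nn 0 z (by positivity)]
      exact abs_inv_sub_le hε hz z.im (Complex.abs_im_le_norm z)
    have b3 := abs_Nn_sub_le hε hz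
    rw [e1, Real.norm_eq_abs]
    have p1 : 0 ≤ √ε * ‖z‖ ^ (-(3/2) : ℝ) := by positivity
    have p2 : 0 ≤ √ε * ‖z‖ ^ (-(1/2) : ℝ) := by positivity
    calc _ ≤ |2 * (dx χ z * (dx (Nn ε) z - dx (Nn 0) z))|
          + |2 * (dy χ z * (dy (Nn ε) z - dy (Nn 0) z))| + |lap χ z * (Nn ε z - Nn 0 z)| :=
          (abs_add_le _ _).trans (by gcongr; exact abs_add_le _ _)
      _ = 2 * (|dx χ z| * |dx (Nn ε) z - dx (Nn 0) z|)
          + 2 * (|dy χ z| * |dy (Nn ε) z - dy (Nn 0) z|) + |lap χ z| * |Nn ε z - Nn 0 z| := by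
          rw [abs_mul, abs_mul, abs_mul, abs_mul, abs_mul, abs_two]
      _ ≤ 2 * (A * (2 * √ε * ‖z‖ ^ (-(3/2) : ℝ))) + 2 * (B * (2 * √ε * ‖z‖ ^ (-(3/2) : ℝ)))
          + C * (4 * √ε * ‖z‖ ^ (-(1/2) : ℝ)) := by
          have h1 : |dx χ z| ≤ A := hA z
          have h2 : |dy χ z| ≤ B := hB z
          have h3 : |lap χ z| ≤ C := hC z
          gcongr
      _ ≤ _ := by
          have q1 := mul_nonneg hC0 p1
          have q2 := mul_nonneg hA0 p2
          have q3 := mul_nonneg hB0 p2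
          nlinarith
  · rw [Om_zero_of χ ε hb, Om_zero_of χ 0 hb, sub_zero, norm_zero]
    have h1 := pk_nonneg (1/2) χ.rOut z
    have h2 := pk_nonneg (3/2) χ.rOut z
    positivity

/-! ### the approximate identity -/

/-- the profile of the approximate identity -/
def rh (u : ℂ) : ℝ := 4 / (‖u‖ ^ 2 + 1) ^ 2

theorem rh_nonneg (u : ℂ) : 0 ≤ rh u := by unfold rh; positivity

theorem continuous_rh : Continuous rh := by
  unfold rh
  exact continuous_const.div (by fun_prop) (fun u => by positivity)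

theorem integrable_rh : Integrable rh := by
  have h := integrable_rpow_neg_one_add_norm_sq (E := ℂ) (μ := (volume : Measure ℂ)) (r := 4)
    (by rw [Complex.finrank_real_complex]; norm_num)
  refine (h.const_mul 4).congr (Eventually.of_forall fun u => ?_)
  simp only [rh]
  rw [show (-4 / 2 : ℝ) = -((2:ℕ):ℝ) by norm_num, Real.rpow_neg (by positivity), Real.rpow_natCast,
    add_comm, div_eq_mul_inv]

/-- the mass of the profile -/
def cR : ℝ := ∫ u, rh u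

theorem cR_pos : 0 < cR := by
  unfold cR
  rw [integral_pos_iff_support_of_nonneg rh_nonneg integrable_rh]
  have : Function.support rh = univ := by
    ext u; simp only [Function.mem_support, mem_univ, iff_true]
    unfold rh; positivity
  rw [this]
  simp

/-- the approximate identity -/
def Rk (χ : ContDiffBump (0:ℂ)) (ε : ℝ) (z : ℂ) : ℝ := χ z * (4 * ε ^ 2 / (‖z‖ ^ 2 + ε ^ 2) ^ 2)

theorem lap_Ek' (χ : ContDiffBump (0:ℂ)) {ε : ℝ} (hε : 0 < ε) (z : ℂ) :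
    lap (Ek χ ε) z = Rk χ ε z + Om χ ε z := lap_Ek χ hε z

theorem continuous_Rk (χ : ContDiffBump (0:ℂ)) {ε : ℝ} (hε : 0 < ε) : Continuous (Rk χ ε) := by
  unfold Rk
  refine (χ.contDiff (n := 0)).continuous.mul (continuous_const.div (by fun_prop) (fun u => by positivity))

theorem hasCompactSupport_Rk (χ : ContDiffBump (0:ℂ)) (ε : ℝ) : HasCompactSupport (Rk χ ε) :=
  χ.hasCompactSupport.mul_right

theorem integral_Rk_mul (χ : ContDiffBump (0:ℂ)) {ε : ℝ} (hε : 0 < ε) (φ : ℂ → ℝ) (x : ℂ) :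
    ∫ t, Rk χ ε t * φ (x - t) = ∫ u, (χ (ε • u) * rh u) * φ (x - ε • u) := by
  have h := Measure.integral_comp_smul (volume : Measure ℂ) (fun t => Rk χ ε t * φ (x - t)) ε
  rw [Complex.finrank_real_complex] at h
  have h2 : ∫ t, Rk χ ε t * φ (x - t) = ε ^ 2 * ∫ u, Rk χ ε (ε • u) * φ (x - ε • u) := by
    rw [h, abs_of_pos (by positivity), smul_eq_mul]
    field_simp
  rw [h2, ← integral_const_mul]
  refine integral_congr_ae (Eventually.of_forall fun u => ?_)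
  simp only [Rk, rh, norm_smul, Real.norm_eq_abs, abs_of_pos hε]
  field_simp
  try ring

theorem abs_integral_Rk_mul_le (χ : ContDiffBump (0:ℂ)) {ε : ℝ} (hε : 0 < ε) {φ : ℂ → ℝ} {M : ℝ}
    (hM : ∀ z, |φ z| ≤ M) (x : ℂ) : |∫ t, Rk χ ε t * φ (x - t)| ≤ cR * M := by
  rw [integral_Rk_mul χ hε, cR, ← integral_mul_const]
  have := norm_integral_le_of_norm_le (f := fun u => (χ (ε • u) * rh u) * φ (x - ε • u))
    (integrable_rh.mul_const M) (Eventually.of_forall fun u => ?_)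
  · simpa using this
  · rw [Real.norm_eq_abs, abs_mul, abs_mul, abs_of_nonneg χ.nonneg, abs_of_nonneg (rh_nonneg u)]
    have h1 := χ.le_one (x := ε • u)
    have h2 := rh_nonneg u
    have h3 := hM (x - ε • u)
    calc χ (ε • u) * rh u * |φ (x - ε • u)| ≤ 1 * rh u * M := by gcongr
      _ = _ := by ring

theorem tendsto_integral_Rk_mul (χ : ContDiffBump (0:ℂ)) {φ : ℂ → ℝ} (hφ : Continuous φ) {M : ℝ}
    (hM : ∀ z, |φ z| ≤ M) (x : ℂ) :
    Tendsto (fun ε => ∫ t, Rk χ ε t * φ (x - t)) (𝓝[>] 0) (𝓝 (cR * φ x)) := by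
  have h1 : Tendsto (fun ε : ℝ => ∫ u, (χ (ε • u) * rh u) * φ (x - ε • u)) (𝓝[>] 0) (𝓝 (∫ u, rh u * φ x)) := by
    refine tendsto_integral_filter_of_dominated_convergence (fun u => rh u * M) ?_ ?_
      (integrable_rh.mul_const M) ?_
    · filter_upwards with ε
      refine Continuous.aestronglyMeasurable ?_
      exact (((χ.contDiff (n := 0)).continuous.comp (continuous_const_smul ε)).mul continuous_rh).mul
        (hφ.comp (by fun_prop))
    · filter_upwards with ε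
      filter_upwards with u
      rw [Real.norm_eq_abs, abs_mul, abs_mul, abs_of_nonneg χ.nonneg, abs_of_nonneg (rh_nonneg u)]
      have h1 := χ.le_one (x := ε • u)
      have h2 := rh_nonneg u
      have h3 := hM (x - ε • u)
      calc χ (ε • u) * rh u * |φ (x - ε • u)| ≤ 1 * rh u * M := by gcongr
        _ = _ := by ring
    · filter_upwards with u
      have c1 : Continuous fun ε : ℝ => (χ (ε • u) * rh u) * φ (x - ε • u) := by
        refine (((χ.contDiff (n := 0)).continuous.comp (by fun_prop)).mul continuous_const).mul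
          (hφ.comp (by fun_prop))
      have := (c1.tendsto 0).mono_left (nhdsWithin_le_nhds (s := Ioi (0:ℝ)))
      have h0 : χ (0:ℂ) = 1 := χ.one_of_mem_closedBall (mem_closedBall_self χ.rIn_pos.le)
      simpa [h0] using this
  rw [integral_mul_const] at h1
  refine h1.congr' ?_
  filter_upwards [self_mem_nhdsWithin] with ε hε
  exact (integral_Rk_mul χ hε φ x).symm

end

end Pool.Agent.EQ.Reg

end

/-! ## Lib_helper38.EQ.RegD -/

section

/-! MP_ed6ab2_an, project EQ, package R: the local representation formula of a weak solution. -/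

set_option autoImplicit false

namespace Pool.Agent.EQ.Reg

open MeasureTheory Filter Topology Set Metric
open scoped ContDiff Convolution Pointwise

noncomputable section


theorem conv_comm (f g : ℂ → ℝ) : (f ⋆[(ContinuousLinearMap.lsmul ℝ ℝ : ℝ →L[ℝ] ℝ →L[ℝ] ℝ), volume] g) = (g ⋆[(ContinuousLinearMap.lsmul ℝ ℝ : ℝ →L[ℝ] ℝ →L[ℝ] ℝ), volume] f) := by
  rw [← convolution_flip (L := (ContinuousLinearMap.lsmul ℝ ℝ : ℝ →L[ℝ] ℝ →L[ℝ] ℝ))]
  congr 1
  ext
  simp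

theorem conv_apply (f g : ℂ → ℝ) (x : ℂ) : (f ⋆[(ContinuousLinearMap.lsmul ℝ ℝ : ℝ →L[ℝ] ℝ →L[ℝ] ℝ), volume] g) x = ∫ t, f t * g (x - t) := rfl

theorem fderiv_conv_apply {f g : ℂ → ℝ} (hf : LocallyIntegrable f) (hg : ContDiff ℝ 1 g)
    (hs : HasCompactSupport g) (x v : ℂ) :
    fderiv ℝ (f ⋆[(ContinuousLinearMap.lsmul ℝ ℝ : ℝ →L[ℝ] ℝ →L[ℝ] ℝ), volume] g) x v = (f ⋆[(ContinuousLinearMap.lsmul ℝ ℝ : ℝ →L[ℝ] ℝ →L[ℝ] ℝ), volume] fun a => fderiv ℝ g a v) x := by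
  rw [(hs.hasFDerivAt_convolution_right (ContinuousLinearMap.lsmul ℝ ℝ : ℝ →L[ℝ] ℝ →L[ℝ] ℝ) hf hg x).fderiv]
  exact convolution_precompR_apply (ContinuousLinearMap.lsmul ℝ ℝ : ℝ →L[ℝ] ℝ →L[ℝ] ℝ) hf (hs.fderiv (𝕜 := ℝ)) (hg.continuous_fderiv (by simp)) x v

theorem lap_conv {f g : ℂ → ℝ} (hf : LocallyIntegrable f) (hg : ContDiff ℝ ∞ g)
    (hs : HasCompactSupport g) (x : ℂ) :
    lap (f ⋆[(ContinuousLinearMap.lsmul ℝ ℝ : ℝ →L[ℝ] ℝ →L[ℝ] ℝ), volume] g) x = (f ⋆[(ContinuousLinearMap.lsmul ℝ ℝ : ℝ →L[ℝ] ℝ →L[ℝ] ℝ), volume] lap g) x := by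
  have e1 : dx (f ⋆[(ContinuousLinearMap.lsmul ℝ ℝ : ℝ →L[ℝ] ℝ →L[ℝ] ℝ), volume] g) = f ⋆[(ContinuousLinearMap.lsmul ℝ ℝ : ℝ →L[ℝ] ℝ →L[ℝ] ℝ), volume] dx g :=
    funext fun y => fderiv_conv_apply hf (hg.of_le (by simp)) hs y 1
  have e2 : dy (f ⋆[(ContinuousLinearMap.lsmul ℝ ℝ : ℝ →L[ℝ] ℝ →L[ℝ] ℝ), volume] g) = f ⋆[(ContinuousLinearMap.lsmul ℝ ℝ : ℝ →L[ℝ] ℝ →L[ℝ] ℝ), volume] dy g :=
    funext fun y => fderiv_conv_apply hf (hg.of_le (by simp)) hs y Complex.I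
  have e3 : dx (f ⋆[(ContinuousLinearMap.lsmul ℝ ℝ : ℝ →L[ℝ] ℝ →L[ℝ] ℝ), volume] dx g) x = (f ⋆[(ContinuousLinearMap.lsmul ℝ ℝ : ℝ →L[ℝ] ℝ →L[ℝ] ℝ), volume] dx (dx g)) x :=
    fderiv_conv_apply hf ((contDiff_dx hg).of_le (by simp)) (hasCompactSupport_dx hs) x 1
  have e4 : dy (f ⋆[(ContinuousLinearMap.lsmul ℝ ℝ : ℝ →L[ℝ] ℝ →L[ℝ] ℝ), volume] dy g) x = (f ⋆[(ContinuousLinearMap.lsmul ℝ ℝ : ℝ →L[ℝ] ℝ →L[ℝ] ℝ), volume] dy (dy g)) x :=
    fderiv_conv_apply hf ((contDiff_dy hg).of_le (by simp)) (hasCompactSupport_dy hs) x Complex.I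
  rw [lap, e1, e2, e3, e4, conv_apply, conv_apply, conv_apply]
  have i1 : Integrable (fun t => f t * dx (dx g) (x - t)) :=
    ((hasCompactSupport_dx (hasCompactSupport_dx hs)).convolutionExists_right (ContinuousLinearMap.lsmul ℝ ℝ : ℝ →L[ℝ] ℝ →L[ℝ] ℝ) hf
      (contDiff_dx (contDiff_dx hg)).continuous) x
  have i2 : Integrable (fun t => f t * dy (dy g) (x - t)) :=
    ((hasCompactSupport_dy (hasCompactSupport_dy hs)).convolutionExists_right (ContinuousLinearMap.lsmul ℝ ℝ : ℝ →L[ℝ] ℝ →L[ℝ] ℝ) hf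
      (contDiff_dy (contDiff_dy hg)).continuous) x
  rw [← integral_add i1 i2]
  refine integral_congr_ae (Eventually.of_forall fun t => ?_)
  simp only [lap]
  ring

/-- Fubini for an even kernel -/
theorem integral_mul_conv {F K φ : ℂ → ℝ} (hF : Integrable F) (hK : Integrable K)
    (hev : ∀ z, K (-z) = K z) (hφ : Continuous φ) {M : ℝ} (hM : ∀ z, |φ z| ≤ M) :
    ∫ z, F z * (K ⋆[(ContinuousLinearMap.lsmul ℝ ℝ : ℝ →L[ℝ] ℝ →L[ℝ] ℝ), volume] φ) z = ∫ t, φ t * (F ⋆[(ContinuousLinearMap.lsmul ℝ ℝ : ℝ →L[ℝ] ℝ →L[ℝ] ℝ), volume] K) t := by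
  have h1 : Integrable (fun p : ℂ × ℂ => F p.2 * K (p.1 - p.2)) (volume.prod volume) :=
    hF.convolution_integrand (ContinuousLinearMap.lsmul ℝ ℝ : ℝ →L[ℝ] ℝ →L[ℝ] ℝ) hK
  have h2 : Integrable (fun p : ℂ × ℂ => φ p.1 * (F p.2 * K (p.1 - p.2))) (volume.prod volume) := by
    refine h1.bdd_mul (c := M) (hφ.comp continuous_fst).aestronglyMeasurable ?_
    exact Eventually.of_forall fun p => hM p.1
  calc ∫ z, F z * (K ⋆[(ContinuousLinearMap.lsmul ℝ ℝ : ℝ →L[ℝ] ℝ →L[ℝ] ℝ), volume] φ) z = ∫ z, ∫ t, φ t * (F z * K (t - z)) := by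
        refine integral_congr_ae (Eventually.of_forall fun z => ?_)
        simp only
        rw [conv_comm, conv_apply, ← integral_const_mul]
        refine integral_congr_ae (Eventually.of_forall fun t => ?_)
        simp only
        rw [← hev (z - t), neg_sub]
        ring
    _ = ∫ t, ∫ z, φ t * (F z * K (t - z)) := by
        rw [integral_integral_swap]
        exact h2.swap
    _ = ∫ t, φ t * (F ⋆[(ContinuousLinearMap.lsmul ℝ ℝ : ℝ →L[ℝ] ℝ →L[ℝ] ℝ), volume] K) t := by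
        refine integral_congr_ae (Eventually.of_forall fun t => ?_)
        simp only
        rw [conv_apply, integral_const_mul]

theorem fderiv_comp_neg' (f : ℂ → ℝ) (w : ℂ) : fderiv ℝ (fun w => f (-w)) w = -fderiv ℝ f (-w) := by
  have h := (ContinuousLinearEquiv.neg ℝ (M := ℂ)).comp_right_fderiv (f := f) (x := w)
  have e1 : (f ∘ (ContinuousLinearEquiv.neg ℝ (M := ℂ))) = fun w => f (-w) := by
    funext w; simp
  rw [e1] at h
  rw [h]
  ext v
  simp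

theorem Om_even (χ : ContDiffBump (0:ℂ)) (ε : ℝ) (z : ℂ) : Om χ ε (-z) = Om χ ε z := by
  have gen : ∀ f : ℂ → ℝ, (∀ w, f (-w) = f w) → ∀ w v, fderiv ℝ f (-w) v = -fderiv ℝ f w v := by
    intro f hf w v
    have h1 : f = fun w => f (-w) := (funext hf).symm
    have h2 : fderiv ℝ (fun w => f (-w)) w = -fderiv ℝ f (-w) := fderiv_comp_neg' f w
    rw [← h1] at h2
    rw [h2]; simp
  have gen' : ∀ f : ℂ → ℝ, (∀ w, f (-w) = -f w) → ∀ w v, fderiv ℝ f (-w) v = fderiv ℝ f w v := by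
    intro f hf w v
    have h1 : f = fun w => -f (-w) := funext fun w => by rw [hf]; ring
    have h2 : fderiv ℝ (fun w => -f (-w)) w = fderiv ℝ f (-w) := by
      rw [fderiv_fun_neg, fderiv_comp_neg' f w, neg_neg]
    rw [← h1] at h2
    rw [h2]
  have hχ : ∀ w, χ (-w) = χ w := χ.neg
  have hN : ∀ w, Nn ε (-w) = Nn ε w := fun w => by rw [Nn, Nn, norm_neg]
  have a1 : ∀ w, dx χ (-w) = -dx χ w := fun w => gen _ hχ w 1
  have a2 : ∀ w, dy χ (-w) = -dy χ w := fun w => gen _ hχ w Complex.I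
  have a3 : ∀ w, dx (Nn ε) (-w) = -dx (Nn ε) w := fun w => gen _ hN w 1
  have a4 : ∀ w, dy (Nn ε) (-w) = -dy (Nn ε) w := fun w => gen _ hN w Complex.I
  have a5 : ∀ w, dx (dx χ) (-w) = dx (dx χ) w := fun w => gen' _ a1 w 1
  have a6 : ∀ w, dy (dy χ) (-w) = dy (dy χ) w := fun w => gen' _ a2 w Complex.I
  unfold Om lap
  rw [a1, a2, a3, a4, a5, a6, hN]
  ring

theorem abs_conv_le {K φ : ℂ → ℝ} (hK : Integrable K) {M : ℝ} (hM : ∀ z, |φ z| ≤ M) (x : ℂ) :
    |(K ⋆[(ContinuousLinearMap.lsmul ℝ ℝ : ℝ →L[ℝ] ℝ →L[ℝ] ℝ), volume] φ) x| ≤ (∫ t, ‖K t‖) * M := by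
  rw [conv_apply, ← integral_mul_const]
  have := norm_integral_le_of_norm_le (f := fun t => K t * φ (x - t)) (hK.norm.mul_const M)
    (Eventually.of_forall fun t => ?_)
  · simpa using this
  · rw [norm_mul]
    have h3 : ‖φ (x - t)‖ ≤ M := hM (x - t)
    gcongr

theorem conv_zero_of (χ : ContDiffBump (0:ℂ)) (ε : ℝ) {φ : ℂ → ℝ} {z₀ : ℂ}
    (hφ : tsupport φ ⊆ ball z₀ χ.rOut) {z : ℂ} (hz : z ∉ closedBall z₀ (2 * χ.rOut)) :
    (Ek χ ε ⋆[(ContinuousLinearMap.lsmul ℝ ℝ : ℝ →L[ℝ] ℝ →L[ℝ] ℝ), volume] φ) z = 0 := by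
  rw [conv_apply]
  have : (fun t => Ek χ ε t * φ (z - t)) = fun _ => 0 := by
    funext t
    by_contra hne
    have h1 : Ek χ ε t ≠ 0 := left_ne_zero_of_mul hne
    have h2 : φ (z - t) ≠ 0 := right_ne_zero_of_mul hne
    have h3 : t ∈ closedBall (0:ℂ) χ.rOut := by
      by_contra h
      exact h1 (by rw [Ek, bump_zero_of χ h, zero_mul])
    have h4 : z - t ∈ ball z₀ χ.rOut := hφ (subset_tsupport φ h2)
    apply hz
    rw [mem_closedBall_zero_iff] at h3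
    rw [mem_ball, dist_eq_norm] at h4
    rw [mem_closedBall, dist_eq_norm]
    calc ‖z - z₀‖ = ‖(z - t - z₀) + t‖ := by congr 1; ring
      _ ≤ ‖z - t - z₀‖ + ‖t‖ := norm_add_le _ _
      _ ≤ 2 * χ.rOut := by linarith
  rw [this]; simp

theorem rep_test {U : Set ℂ} {q f : ℂ → ℝ}
    (hw : ∀ η : ℂ → ℝ, ContDiff ℝ ∞ η → HasCompactSupport η → tsupport η ⊆ U →
      ∫ z, f z * (lap η z + q z * η z) = 0)
    (χ : ContDiffBump (0:ℂ)) {z₀ : ℂ} (hU : closedBall z₀ (2 * χ.rOut) ⊆ U)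
    (ζ : ContDiffBump z₀) (hζ : ζ.rIn = 2 * χ.rOut)
    (hF : Integrable fun z => ζ z * f z) (hH : Integrable fun z => ζ z * (q z * f z))
    {φ : ℂ → ℝ} (hφ : ContDiff ℝ ∞ φ) (hφc : HasCompactSupport φ)
    (hφs : tsupport φ ⊆ ball z₀ χ.rOut) :
    ∫ z, ((ζ z * f z) * (cR * φ z + (Om χ 0 ⋆[(ContinuousLinearMap.lsmul ℝ ℝ : ℝ →L[ℝ] ℝ →L[ℝ] ℝ), volume] φ) z)
      + (ζ z * (q z * f z)) * (Ek χ 0 ⋆[(ContinuousLinearMap.lsmul ℝ ℝ : ℝ →L[ℝ] ℝ →L[ℝ] ℝ), volume] φ) z) = 0 := by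
  obtain ⟨M, hM⟩ := hφ.continuous.bounded_above_of_compact_support hφc
  have hM0 : 0 ≤ M := (norm_nonneg _).trans (hM 0)
  have hl : LocallyIntegrable φ := hφ.continuous.locallyIntegrable
  -- facts for `ε > 0`
  have hsm : ∀ ε, 0 < ε → ContDiff ℝ ∞ (Ek χ ε ⋆[(ContinuousLinearMap.lsmul ℝ ℝ : ℝ →L[ℝ] ℝ →L[ℝ] ℝ), volume] φ) := fun ε hε =>
    (hasCompactSupport_Ek χ ε).contDiff_convolution_left (ContinuousLinearMap.lsmul ℝ ℝ : ℝ →L[ℝ] ℝ →L[ℝ] ℝ) (contDiff_Ek χ hε) hl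
  have hts : ∀ ε, tsupport (Ek χ ε ⋆[(ContinuousLinearMap.lsmul ℝ ℝ : ℝ →L[ℝ] ℝ →L[ℝ] ℝ), volume] φ) ⊆ closedBall z₀ (2 * χ.rOut) := fun ε =>
    closure_minimal (fun z hz => by
      by_contra h
      exact hz (conv_zero_of χ ε hφs h)) isClosed_closedBall
  have hcs : ∀ ε, HasCompactSupport (Ek χ ε ⋆[(ContinuousLinearMap.lsmul ℝ ℝ : ℝ →L[ℝ] ℝ →L[ℝ] ℝ), volume] φ) := fun ε =>
    (isCompact_closedBall z₀ (2 * χ.rOut)).of_isClosed_subset (isClosed_tsupport _) (hts ε)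
  have hlap : ∀ ε, 0 < ε → ∀ z, lap (Ek χ ε ⋆[(ContinuousLinearMap.lsmul ℝ ℝ : ℝ →L[ℝ] ℝ →L[ℝ] ℝ), volume] φ) z
      = (∫ t, Rk χ ε t * φ (z - t)) + (Om χ ε ⋆[(ContinuousLinearMap.lsmul ℝ ℝ : ℝ →L[ℝ] ℝ →L[ℝ] ℝ), volume] φ) z := by
    intro ε hε z
    rw [conv_comm, lap_conv hl (contDiff_Ek χ hε) (hasCompactSupport_Ek χ ε), conv_comm,
      conv_apply, conv_apply]
    have i1 : Integrable (fun t => Rk χ ε t * φ (z - t)) :=
      ((hasCompactSupport_Rk χ ε).convolutionExists_left (ContinuousLinearMap.lsmul ℝ ℝ : ℝ →L[ℝ] ℝ →L[ℝ] ℝ) (continuous_Rk χ hε) hl) z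
    have i2 : Integrable (fun t => Om χ ε t * φ (z - t)) :=
      ((hasCompactSupport_Om χ ε).convolutionExists_left (ContinuousLinearMap.lsmul ℝ ℝ : ℝ →L[ℝ] ℝ →L[ℝ] ℝ) (contDiff_Om χ ε).continuous hl) z
    rw [← integral_add i1 i2]
    refine integral_congr_ae (Eventually.of_forall fun t => ?_)
    simp only
    rw [lap_Ek' χ hε]; ring
  have hzero : ∀ ε, 0 < ε → ∫ z, ((ζ z * f z) * lap (Ek χ ε ⋆[(ContinuousLinearMap.lsmul ℝ ℝ : ℝ →L[ℝ] ℝ →L[ℝ] ℝ), volume] φ) z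
      + (ζ z * (q z * f z)) * (Ek χ ε ⋆[(ContinuousLinearMap.lsmul ℝ ℝ : ℝ →L[ℝ] ℝ →L[ℝ] ℝ), volume] φ) z) = 0 := by
    intro ε hε
    rw [← hw _ (hsm ε hε) (hcs ε) ((hts ε).trans hU)]
    refine integral_congr_ae (Eventually.of_forall fun z => ?_)
    simp only
    by_cases hz : z ∈ closedBall z₀ (2 * χ.rOut)
    · rw [ζ.one_of_mem_closedBall (by rwa [hζ])]; ring
    · rw [conv_zero_of χ ε hφs hz, lap_zero_of (fun h => hz (hts ε h))]; ring
  -- the uniform limits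
  obtain ⟨N, hN0, hN⟩ := exists_Om_sub_le χ
  have iOm : ∀ ε, 0 ≤ ε → Integrable (Om χ ε) := fun ε _ =>
    (contDiff_Om χ ε).continuous.integrable_of_hasCompactSupport (hasCompactSupport_Om χ ε)
  have uO := tendstoUniformly_conv (ContinuousLinearMap.lsmul ℝ ℝ : ℝ →L[ℝ] ℝ →L[ℝ] ℝ) (Om χ) _
    (((integrable_pk (a := 3/2) (by norm_num) χ.rOut).const_mul N).add
      ((integrable_pk (a := 1/2) (by norm_num) χ.rOut).const_mul N))
    (fun ε hε => by filter_upwards [ae_ne_zero] with z hz using hN ε hε z hz)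
    iOm φ hφ.continuous M hM
  have uE := tendstoUniformly_conv (ContinuousLinearMap.lsmul ℝ ℝ : ℝ →L[ℝ] ℝ →L[ℝ] ℝ) (Ek χ) _
    ((integrable_pk (a := 1/2) (by norm_num) χ.rOut).const_mul 4)
    (fun ε hε => by filter_upwards [ae_ne_zero] with z hz using Ek_sub_le χ hε hz)
    (fun ε hε => integrable_Ek χ hε) φ hφ.continuous M hM
  set CO := (∫ t, ‖Om χ 0 t‖) * M
  set CE := (∫ t, ‖Ek χ 0 t‖) * M
  have key : Tendsto (fun ε => ∫ z, ((ζ z * f z) * lap (Ek χ ε ⋆[(ContinuousLinearMap.lsmul ℝ ℝ : ℝ →L[ℝ] ℝ →L[ℝ] ℝ), volume] φ) z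
      + (ζ z * (q z * f z)) * (Ek χ ε ⋆[(ContinuousLinearMap.lsmul ℝ ℝ : ℝ →L[ℝ] ℝ →L[ℝ] ℝ), volume] φ) z)) (𝓝[>] 0)
      (𝓝 (∫ z, ((ζ z * f z) * (cR * φ z + (Om χ 0 ⋆[(ContinuousLinearMap.lsmul ℝ ℝ : ℝ →L[ℝ] ℝ →L[ℝ] ℝ), volume] φ) z)
      + (ζ z * (q z * f z)) * (Ek χ 0 ⋆[(ContinuousLinearMap.lsmul ℝ ℝ : ℝ →L[ℝ] ℝ →L[ℝ] ℝ), volume] φ) z))) := by
    refine tendsto_integral_filter_of_dominated_convergence
      (fun z => ‖ζ z * f z‖ * (cR * M + (CO + 1)) + ‖ζ z * (q z * f z)‖ * (CE + 1)) ?_ ?_ ?_ ?_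
    · filter_upwards [self_mem_nhdsWithin] with ε hε
      exact (hF.aestronglyMeasurable.mul (contDiff_lap (hsm ε hε)).continuous.aestronglyMeasurable).add
        (hH.aestronglyMeasurable.mul (hsm ε hε).continuous.aestronglyMeasurable)
    · filter_upwards [self_mem_nhdsWithin, Metric.tendstoUniformly_iff.1 uO 1 one_pos,
        Metric.tendstoUniformly_iff.1 uE 1 one_pos] with ε hε h1 h2
      filter_upwards with z
      have b1 := abs_integral_Rk_mul_le χ hε hM z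
      have b2 : |(Om χ ε ⋆[(ContinuousLinearMap.lsmul ℝ ℝ : ℝ →L[ℝ] ℝ →L[ℝ] ℝ), volume] φ) z| ≤ CO + 1 := by
        have a1 := h1 z
        have a2 := abs_conv_le (iOm 0 le_rfl) hM z
        rw [dist_comm, Real.dist_eq] at a1
        have a3 := abs_sub_abs_le_abs_sub ((Om χ ε ⋆[(ContinuousLinearMap.lsmul ℝ ℝ : ℝ →L[ℝ] ℝ →L[ℝ] ℝ), volume] φ) z) ((Om χ 0 ⋆[(ContinuousLinearMap.lsmul ℝ ℝ : ℝ →L[ℝ] ℝ →L[ℝ] ℝ), volume] φ) z)
        linarith
      have b3 : |(Ek χ ε ⋆[(ContinuousLinearMap.lsmul ℝ ℝ : ℝ →L[ℝ] ℝ →L[ℝ] ℝ), volume] φ) z| ≤ CE + 1 := by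
        have a1 := h2 z
        have a2 := abs_conv_le (integrable_Ek χ le_rfl) hM z
        rw [dist_comm, Real.dist_eq] at a1
        have a3 := abs_sub_abs_le_abs_sub ((Ek χ ε ⋆[(ContinuousLinearMap.lsmul ℝ ℝ : ℝ →L[ℝ] ℝ →L[ℝ] ℝ), volume] φ) z) ((Ek χ 0 ⋆[(ContinuousLinearMap.lsmul ℝ ℝ : ℝ →L[ℝ] ℝ →L[ℝ] ℝ), volume] φ) z)
        linarith
      have b4 : |lap (Ek χ ε ⋆[(ContinuousLinearMap.lsmul ℝ ℝ : ℝ →L[ℝ] ℝ →L[ℝ] ℝ), volume] φ) z| ≤ cR * M + (CO + 1) := by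
        rw [hlap ε hε]
        exact (abs_add_le _ _).trans (add_le_add b1 b2)
      refine (norm_add_le _ _).trans ?_
      rw [norm_mul (ζ z * f z), norm_mul (ζ z * (q z * f z))]
      have b4' : ‖lap (Ek χ ε ⋆[(ContinuousLinearMap.lsmul ℝ ℝ : ℝ →L[ℝ] ℝ →L[ℝ] ℝ), volume] φ) z‖ ≤ cR * M + (CO + 1) := b4
      have b3' : ‖(Ek χ ε ⋆[(ContinuousLinearMap.lsmul ℝ ℝ : ℝ →L[ℝ] ℝ →L[ℝ] ℝ), volume] φ) z‖ ≤ CE + 1 := b3
      gcongr
    · exact (hF.norm.mul_const _).add (hH.norm.mul_const _)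
    · filter_upwards with z
      refine Tendsto.add (Tendsto.const_mul _ ?_) (Tendsto.const_mul _ (uE.tendsto_at z))
      have h3 := (tendsto_integral_Rk_mul χ hφ.continuous hM z).add (uO.tendsto_at z)
      refine h3.congr' ?_
      filter_upwards [self_mem_nhdsWithin] with ε hε
      exact (hlap ε hε z).symm
  refine tendsto_nhds_unique key ?_
  refine tendsto_const_nhds.congr' ?_
  filter_upwards [self_mem_nhdsWithin] with ε hε
  exact (hzero ε hε).symm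

theorem rep_formula {U : Set ℂ} {q f : ℂ → ℝ}
    (hw : ∀ η : ℂ → ℝ, ContDiff ℝ ∞ η → HasCompactSupport η → tsupport η ⊆ U →
      ∫ z, f z * (lap η z + q z * η z) = 0)
    (χ : ContDiffBump (0:ℂ)) {z₀ : ℂ} (hU : closedBall z₀ (2 * χ.rOut) ⊆ U)
    (ζ : ContDiffBump z₀) (hζ : ζ.rIn = 2 * χ.rOut)
    (hF : Integrable fun z => ζ z * f z) (hH : Integrable fun z => ζ z * (q z * f z)) :
    ∀ᵐ t, t ∈ ball z₀ χ.rOut → f t = -(cR⁻¹ * (((fun z => ζ z * f z) ⋆[(ContinuousLinearMap.lsmul ℝ ℝ : ℝ →L[ℝ] ℝ →L[ℝ] ℝ), volume] Om χ 0) t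
      + ((fun z => ζ z * (q z * f z)) ⋆[(ContinuousLinearMap.lsmul ℝ ℝ : ℝ →L[ℝ] ℝ →L[ℝ] ℝ), volume] Ek χ 0) t)) := by
  have iOm : Integrable (Om χ 0) :=
    (contDiff_Om χ 0).continuous.integrable_of_hasCompactSupport (hasCompactSupport_Om χ 0)
  have iE : Integrable (Ek χ 0) := integrable_Ek χ le_rfl
  have iFO : Integrable ((fun z => ζ z * f z) ⋆[(ContinuousLinearMap.lsmul ℝ ℝ : ℝ →L[ℝ] ℝ →L[ℝ] ℝ), volume] Om χ 0) :=
    (hF.integrable_convolution (ContinuousLinearMap.lsmul ℝ ℝ : ℝ →L[ℝ] ℝ →L[ℝ] ℝ) iOm)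
  have iHE : Integrable ((fun z => ζ z * (q z * f z)) ⋆[(ContinuousLinearMap.lsmul ℝ ℝ : ℝ →L[ℝ] ℝ →L[ℝ] ℝ), volume] Ek χ 0) :=
    (hH.integrable_convolution (ContinuousLinearMap.lsmul ℝ ℝ : ℝ →L[ℝ] ℝ →L[ℝ] ℝ) iE)
  have hae := isOpen_ball.ae_eq_zero_of_integral_contDiff_smul_eq_zero (U := ball z₀ χ.rOut)
    (μ := (volume : Measure ℂ))
    (f := fun t => cR * (ζ t * f t) + (((fun z => ζ z * f z) ⋆[(ContinuousLinearMap.lsmul ℝ ℝ : ℝ →L[ℝ] ℝ →L[ℝ] ℝ), volume] Om χ 0) t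
      + ((fun z => ζ z * (q z * f z)) ⋆[(ContinuousLinearMap.lsmul ℝ ℝ : ℝ →L[ℝ] ℝ →L[ℝ] ℝ), volume] Ek χ 0) t))
    ((((hF.const_mul cR).add (iFO.add iHE)).locallyIntegrable).locallyIntegrableOn _) ?_
  · filter_upwards [hae] with t ht htb
    have h1 := ht htb
    have h2 : ζ t = 1 := ζ.one_of_mem_closedBall (by
      rw [hζ]
      have := χ.rOut_pos
      exact ball_subset_closedBall.trans (closedBall_subset_closedBall (by linarith)) htb)
    rw [h2, one_mul] at h1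
    have hc := cR_pos
    have h3 : ((fun z => ζ z * f z) ⋆[(ContinuousLinearMap.lsmul ℝ ℝ : ℝ →L[ℝ] ℝ →L[ℝ] ℝ), volume] Om χ 0) t
      + ((fun z => ζ z * (q z * f z)) ⋆[(ContinuousLinearMap.lsmul ℝ ℝ : ℝ →L[ℝ] ℝ →L[ℝ] ℝ), volume] Ek χ 0) t = -(cR * f t) := by linarith
    rw [h3]
    field_simp
  · intro φ hφ hφc hφs
    have h := rep_test hw χ hU ζ hζ hF hH hφ hφc hφs
    obtain ⟨M, hM⟩ := hφ.continuous.bounded_above_of_compact_support hφc
    have hM' : ∀ z, |φ z| ≤ M := hM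
    have j1 : Integrable (fun z => (ζ z * f z) * (Om χ 0 ⋆[(ContinuousLinearMap.lsmul ℝ ℝ : ℝ →L[ℝ] ℝ →L[ℝ] ℝ), volume] φ) z) := by
      refine hF.mul_bdd (c := (∫ t, ‖Om χ 0 t‖) * M)
        ((hasCompactSupport_Om χ 0).contDiff_convolution_left (ContinuousLinearMap.lsmul ℝ ℝ : ℝ →L[ℝ] ℝ →L[ℝ] ℝ) (contDiff_Om χ 0)
          hφ.continuous.locallyIntegrable).continuous.aestronglyMeasurable
        (Eventually.of_forall fun z => abs_conv_le iOm hM' z)
    have j2 : Integrable (fun z => (ζ z * (q z * f z)) * (Ek χ 0 ⋆[(ContinuousLinearMap.lsmul ℝ ℝ : ℝ →L[ℝ] ℝ →L[ℝ] ℝ), volume] φ) z) := by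
      refine hH.mul_bdd (c := (∫ t, ‖Ek χ 0 t‖) * M)
        (hφc.contDiff_convolution_right (ContinuousLinearMap.lsmul ℝ ℝ : ℝ →L[ℝ] ℝ →L[ℝ] ℝ) iE.locallyIntegrable hφ).continuous.aestronglyMeasurable
        (Eventually.of_forall fun z => abs_conv_le iE hM' z)
    have j3 : Integrable (fun z => (ζ z * f z) * φ z) :=
      hF.mul_bdd (c := M) hφ.continuous.aestronglyMeasurable (Eventually.of_forall hM)
    have e1 := integral_mul_conv hF iOm (Om_even χ 0) hφ.continuous hM'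
    have e2 := integral_mul_conv hH iE (Ek_even χ 0) hφ.continuous hM'
    have k1 : Integrable (fun t => φ t * ((fun z => ζ z * f z) ⋆[(ContinuousLinearMap.lsmul ℝ ℝ : ℝ →L[ℝ] ℝ →L[ℝ] ℝ), volume] Om χ 0) t) :=
      iFO.bdd_mul (c := M) hφ.continuous.aestronglyMeasurable (Eventually.of_forall hM)
    have k2 : Integrable (fun t => φ t * ((fun z => ζ z * (q z * f z)) ⋆[(ContinuousLinearMap.lsmul ℝ ℝ : ℝ →L[ℝ] ℝ →L[ℝ] ℝ), volume] Ek χ 0) t) :=
      iHE.bdd_mul (c := M) hφ.continuous.aestronglyMeasurable (Eventually.of_forall hM)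
    have j12 : Integrable (fun z => (ζ z * f z) * (Om χ 0 ⋆[(ContinuousLinearMap.lsmul ℝ ℝ : ℝ →L[ℝ] ℝ →L[ℝ] ℝ), volume] φ) z
      + (ζ z * (q z * f z)) * (Ek χ 0 ⋆[(ContinuousLinearMap.lsmul ℝ ℝ : ℝ →L[ℝ] ℝ →L[ℝ] ℝ), volume] φ) z) := j1.add j2
    have k12 : Integrable (fun t => φ t * ((fun z => ζ z * f z) ⋆[(ContinuousLinearMap.lsmul ℝ ℝ : ℝ →L[ℝ] ℝ →L[ℝ] ℝ), volume] Om χ 0) t
      + φ t * ((fun z => ζ z * (q z * f z)) ⋆[(ContinuousLinearMap.lsmul ℝ ℝ : ℝ →L[ℝ] ℝ →L[ℝ] ℝ), volume] Ek χ 0) t) := k1.add k2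
    have s1 : ∫ z, ((ζ z * f z) * (cR * φ z + (Om χ 0 ⋆[(ContinuousLinearMap.lsmul ℝ ℝ : ℝ →L[ℝ] ℝ →L[ℝ] ℝ), volume] φ) z)
      + (ζ z * (q z * f z)) * (Ek χ 0 ⋆[(ContinuousLinearMap.lsmul ℝ ℝ : ℝ →L[ℝ] ℝ →L[ℝ] ℝ), volume] φ) z)
        = cR * (∫ z, (ζ z * f z) * φ z) + ((∫ z, (ζ z * f z) * (Om χ 0 ⋆[(ContinuousLinearMap.lsmul ℝ ℝ : ℝ →L[ℝ] ℝ →L[ℝ] ℝ), volume] φ) z)
          + ∫ z, (ζ z * (q z * f z)) * (Ek χ 0 ⋆[(ContinuousLinearMap.lsmul ℝ ℝ : ℝ →L[ℝ] ℝ →L[ℝ] ℝ), volume] φ) z) := by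
      rw [← integral_const_mul, ← integral_add j1 j2, ← integral_add (j3.const_mul cR) j12]
      refine integral_congr_ae (Eventually.of_forall fun z => ?_)
      ring
    have s2 : ∫ t, φ t • (cR * (ζ t * f t) + (((fun z => ζ z * f z) ⋆[(ContinuousLinearMap.lsmul ℝ ℝ : ℝ →L[ℝ] ℝ →L[ℝ] ℝ), volume] Om χ 0) t
      + ((fun z => ζ z * (q z * f z)) ⋆[(ContinuousLinearMap.lsmul ℝ ℝ : ℝ →L[ℝ] ℝ →L[ℝ] ℝ), volume] Ek χ 0) t))
        = cR * (∫ z, (ζ z * f z) * φ z) + ((∫ t, φ t * ((fun z => ζ z * f z) ⋆[(ContinuousLinearMap.lsmul ℝ ℝ : ℝ →L[ℝ] ℝ →L[ℝ] ℝ), volume] Om χ 0) t)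
          + ∫ t, φ t * ((fun z => ζ z * (q z * f z)) ⋆[(ContinuousLinearMap.lsmul ℝ ℝ : ℝ →L[ℝ] ℝ →L[ℝ] ℝ), volume] Ek χ 0) t) := by
      rw [← integral_const_mul, ← integral_add k1 k2, ← integral_add (j3.const_mul cR) k12]
      refine integral_congr_ae (Eventually.of_forall fun z => ?_)
      simp only [smul_eq_mul]
      ring
    rw [s2, ← e1, ← e2, ← s1]
    exact h

end

end Pool.Agent.EQ.Reg

end

/-! ## Lib_helper38.EQ.RegE -/

section

/-! MP_ed6ab2_an, project EQ, package R: interior elliptic regularity for `-Δ f = q f` on plane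
domains. -/

set_option autoImplicit false

namespace Pool.Agent.EQ.Reg

open MeasureTheory Filter Topology Set Metric
open scoped ContDiff Convolution Pointwise

noncomputable section


/-- weak solutions of `-Δ f = q f` on `U` -/
def Weak (U : Set ℂ) (q f : ℂ → ℝ) : Prop :=
  ∀ η : ℂ → ℝ, ContDiff ℝ ∞ η → HasCompactSupport η → tsupport η ⊆ U →
    ∫ z, f z * (lap η z + q z * η z) = 0

theorem Weak.congr {U : Set ℂ} {q f g : ℂ → ℝ} (h : Weak U q f)
    (hfg : ∀ᵐ z, z ∈ U → f z = g z) : Weak U q g := by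
  intro η h1 h2 h3
  rw [← h η h1 h2 h3]
  refine integral_congr_ae ?_
  filter_upwards [hfg] with z hz
  by_cases hzU : z ∈ tsupport η
  · rw [hz (h3 hzU)]
  · rw [lap_zero_of hzU, image_eq_zero_of_notMem_tsupport hzU]; ring

theorem contDiff_mul_of_tsupport {U : Set ℂ} (hU : IsOpen U) {n : WithTop ℕ∞} {F η : ℂ → ℝ}
    (hF : ContDiffOn ℝ n F U) (hη : ContDiff ℝ n η) (hs : tsupport η ⊆ U) :
    ContDiff ℝ n (fun z => η z * F z) := by
  rw [contDiff_iff_contDiffAt]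
  intro z
  by_cases hz : z ∈ U
  · exact hη.contDiffAt.mul ((hF z hz).contDiffAt (hU.mem_nhds hz))
  · have h1 : (fun z => η z * F z) =ᶠ[𝓝 z] fun _ => 0 := by
      filter_upwards [notMem_tsupport_iff_eventuallyEq.1 (fun h => hz (hs h))] with w hw
      rw [hw]; simp
    exact contDiffAt_const.congr_of_eventuallyEq h1

/-- the cut-off functions used at a point of `U` -/
theorem exists_cut {U : Set ℂ} (hU : IsOpen U) {z₀ : ℂ} (hz : z₀ ∈ U) :
    ∃ (χ : ContDiffBump (0:ℂ)) (ζ : ContDiffBump z₀), ζ.rIn = 2 * χ.rOut ∧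
      closedBall z₀ (2 * χ.rOut) ⊆ U ∧ tsupport ζ ⊆ U := by
  obtain ⟨R, hR, hRU⟩ := Metric.nhds_basis_closedBall.mem_iff.1 (hU.mem_nhds hz)
  refine ⟨⟨R / 6, R / 3, by positivity, by linarith⟩, ⟨2 * (R / 3), R, by positivity, by linarith⟩,
    rfl, ?_, ?_⟩
  · exact (closedBall_subset_closedBall (by simp only; linarith)).trans hRU
  · rw [ContDiffBump.tsupport_eq]
    exact hRU

/-- the local representative -/
def locRep (χ : ContDiffBump (0:ℂ)) {z₀ : ℂ} (ζ : ContDiffBump z₀) (q f : ℂ → ℝ) (t : ℂ) : ℝ :=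
  -(cR⁻¹ * (((fun z => ζ z * f z) ⋆[(ContinuousLinearMap.lsmul ℝ ℝ : ℝ →L[ℝ] ℝ →L[ℝ] ℝ), volume] Om χ 0) t
      + ((fun z => ζ z * (q z * f z)) ⋆[(ContinuousLinearMap.lsmul ℝ ℝ : ℝ →L[ℝ] ℝ →L[ℝ] ℝ), volume] Ek χ 0) t))

theorem contDiff_locRep_Om (χ : ContDiffBump (0:ℂ)) {F : ℂ → ℝ} (hF : LocallyIntegrable F) :
    ContDiff ℝ ∞ (F ⋆[(ContinuousLinearMap.lsmul ℝ ℝ : ℝ →L[ℝ] ℝ →L[ℝ] ℝ), volume] Om χ 0) :=
  (hasCompactSupport_Om χ 0).contDiff_convolution_right (ContinuousLinearMap.lsmul ℝ ℝ : ℝ →L[ℝ] ℝ →L[ℝ] ℝ) hF (contDiff_Om χ 0)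

/-- one step of the bootstrap -/
theorem bootstrap {U : Set ℂ} (hU : IsOpen U) {q g : ℂ → ℝ} (hq : ContDiffOn ℝ ∞ q U)
    (hw : Weak U q g) (k : ℕ) (hg : ContDiffOn ℝ k g U) : ContDiffOn ℝ (k + 1 : ℕ) g U := by
  intro z₀ hz₀
  obtain ⟨χ, ζ, h1, h2, h3⟩ := exists_cut hU hz₀
  have cF : ContDiff ℝ k (fun z => ζ z * g z) := contDiff_mul_of_tsupport hU hg ζ.contDiff h3
  have cH : ContDiff ℝ k (fun z => ζ z * (q z * g z)) :=
    contDiff_mul_of_tsupport hU ((hq.of_le (by exact_mod_cast le_top)).mul hg) ζ.contDiff h3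
  have sF : HasCompactSupport (fun z => ζ z * g z) := ζ.hasCompactSupport.mul_right
  have sH : HasCompactSupport (fun z => ζ z * (q z * g z)) := ζ.hasCompactSupport.mul_right
  have iF := cF.continuous.integrable_of_hasCompactSupport sF (μ := (volume : Measure ℂ))
  have iH := cH.continuous.integrable_of_hasCompactSupport sH (μ := (volume : Measure ℂ))
  have hrep := rep_formula hw χ h2 ζ h1 iF iH
  have cG : ContDiff ℝ (k + 1 : ℕ) (locRep χ ζ q g) := by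
    unfold locRep
    refine (contDiff_const.mul (((contDiff_locRep_Om χ iF.locallyIntegrable).of_le
      (by exact_mod_cast le_top)).add ?_)).neg
    rw [conv_comm]
    exact contDiff_conv_Ek χ k cH sH
  have hsub : ball z₀ χ.rOut ⊆ U := (ball_subset_closedBall.trans
    (closedBall_subset_closedBall (by have := χ.rOut_pos; linarith))).trans h2
  have heq : EqOn g (locRep χ ζ q g) (ball z₀ χ.rOut) := by
    refine Measure.eqOn_open_of_ae_eq (μ := (volume : Measure ℂ)) ?_ isOpen_ball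
      (hg.continuousOn.mono hsub) cG.continuous.continuousOn
    rw [EventuallyEq, ae_restrict_iff' measurableSet_ball]
    exact hrep
  have hball : ball z₀ χ.rOut ∈ 𝓝 z₀ := ball_mem_nhds _ χ.rOut_pos
  exact (cG.contDiffAt.congr_of_eventuallyEq (heq.eventuallyEq_of_mem hball)).contDiffWithinAt

theorem smooth_of_continuous {U : Set ℂ} (hU : IsOpen U) {q g : ℂ → ℝ} (hq : ContDiffOn ℝ ∞ q U)
    (hw : Weak U q g) (hg : ContinuousOn g U) : ContDiffOn ℝ ∞ g U := by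
  rw [contDiffOn_infty]
  intro n
  induction n with
  | zero => simpa using hg
  | succ n ih => exact bootstrap hU hq hw n ih

/-- the first step: a continuous local representative -/
theorem first_step {U : Set ℂ} (hU : IsOpen U) {q f : ℂ → ℝ} (hq : ContDiffOn ℝ ∞ q U)
    (hfm : AEStronglyMeasurable f (volume.restrict U))
    (hf2 : ∀ K ⊆ U, IsCompact K → IntegrableOn (fun z => f z ^ 2) K)
    (hw : Weak U q f) {z₀ : ℂ} (hz₀ : z₀ ∈ U) :
    ∃ r, 0 < r ∧ ball z₀ r ⊆ U ∧ ∃ g : ℂ → ℝ, Continuous g ∧ ∀ᵐ t, t ∈ ball z₀ r → f t = g t := by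
  obtain ⟨χ, ζ, h1, h2, h3⟩ := exists_cut hU hz₀
  have hK : IsCompact (tsupport ζ) := ζ.hasCompactSupport
  have hKm : MeasurableSet (tsupport ζ) := (isClosed_tsupport _).measurableSet
  obtain ⟨C, hC⟩ := hK.exists_bound_of_continuousOn ((hq.continuousOn).mono h3)
  have fm : AEStronglyMeasurable f (volume.restrict (tsupport ζ)) := hfm.mono_measure (Measure.restrict_mono h3 le_rfl)
  have f2 := hf2 _ h3 hK
  have qm : AEStronglyMeasurable q (volume.restrict (tsupport ζ)) :=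
    (hq.continuousOn.mono h3).aestronglyMeasurable hKm
  have gen : ∀ F : ℂ → ℝ, AEStronglyMeasurable F (volume.restrict (tsupport ζ)) →
      IntegrableOn (fun z => F z ^ 2) (tsupport ζ) →
      AEStronglyMeasurable (fun z => ζ z * F z) ∧ Integrable (fun z => (ζ z * F z) ^ 2) ∧
        Integrable (fun z => ζ z * F z) := by
    intro F Fm F2
    have hsub : ∀ z, z ∉ tsupport ζ → ζ z * F z = 0 := fun z hz => by
      rw [image_eq_zero_of_notMem_tsupport hz, zero_mul]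
    have m1 : AEStronglyMeasurable (fun z => ζ z * F z) := by
      have : (fun z => ζ z * F z) = (tsupport ζ).indicator (fun z => ζ z * F z) := by
        funext z
        by_cases hz : z ∈ tsupport ζ
        · rw [indicator_of_mem hz]
        · rw [indicator_of_notMem hz, hsub z hz]
      rw [this, aestronglyMeasurable_indicator_iff hKm]
      exact (ζ.contDiff (n := 0)).continuous.aestronglyMeasurable.mul Fm
    have i2 : Integrable (fun z => (ζ z * F z) ^ 2) := by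
      refine Integrable.mono' ((integrable_indicator_iff hKm).2 F2) (m1.pow 2)
        (Eventually.of_forall fun z => ?_)
      by_cases hz : z ∈ tsupport ζ
      · rw [indicator_of_mem hz, Real.norm_eq_abs, abs_of_nonneg (sq_nonneg _), mul_pow]
        have a1 := ζ.nonneg (x := z)
        have a2 := ζ.le_one (x := z)
        have a3 : ζ z ^ 2 ≤ 1 := pow_le_one₀ a1 a2
        nlinarith [sq_nonneg (F z)]
      · rw [indicator_of_notMem hz, hsub z hz]; simp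
    refine ⟨m1, i2, ?_⟩
    have i3 : Integrable ((tsupport ζ).indicator (fun _ : ℂ => (1:ℝ))) :=
      (integrable_indicator_iff hKm).2 (integrableOn_const hK.measure_lt_top.ne)
    refine Integrable.mono' (i2.add i3) m1 (Eventually.of_forall fun z => ?_)
    by_cases hz : z ∈ tsupport ζ
    · simp only [Pi.add_apply, indicator_of_mem hz, Real.norm_eq_abs]
      nlinarith [sq_nonneg (|ζ z * F z| - 1), sq_abs (ζ z * F z), sq_nonneg (ζ z * F z)]
    · simp only [Pi.add_apply, indicator_of_notMem hz, hsub z hz]; simp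
  obtain ⟨mF, -, iF⟩ := gen f fm f2
  obtain ⟨mH, i2H, iH⟩ := gen (fun z => q z * f z) (qm.mul fm) (by
    refine Integrable.mono' (f2.const_mul (C ^ 2)) ((qm.mul fm).pow 2) ?_
    rw [ae_restrict_iff' hKm]
    refine Eventually.of_forall fun z hz => ?_
    rw [Real.norm_eq_abs, abs_of_nonneg (sq_nonneg _), mul_pow]
    have a1 : |q z| ≤ C := hC z hz
    have a2 : q z ^ 2 ≤ C ^ 2 := sq_le_sq' (by linarith [neg_abs_le (q z)]) ((le_abs_self _).trans a1)
    gcongr)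
  have hrep := rep_formula hw χ h2 ζ h1 iF iH
  have hsub : ball z₀ χ.rOut ⊆ U := (ball_subset_closedBall.trans
    (closedBall_subset_closedBall (by have := χ.rOut_pos; linarith))).trans h2
  refine ⟨χ.rOut, χ.rOut_pos, hsub, locRep χ ζ q f, ?_, hrep⟩
  unfold locRep
  refine (continuous_const.mul ((contDiff_locRep_Om χ iF.locallyIntegrable).continuous.add ?_)).neg
  rw [conv_comm]
  exact continuous_conv_Ek_L2 χ mH i2H iH.locallyIntegrable

/-- gluing the local representatives -/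
theorem glue {U : Set ℂ} {f : ℂ → ℝ}
    (h : ∀ z₀ ∈ U, ∃ r, 0 < r ∧ ball z₀ r ⊆ U ∧ ∃ g : ℂ → ℝ, Continuous g ∧
      ∀ᵐ t, t ∈ ball z₀ r → f t = g t) :
    ∃ g : ℂ → ℝ, ContinuousOn g U ∧ ∀ᵐ z, z ∈ U → f z = g z := by
  classical
  choose! r hr hrU G hG hae using h
  have key : ∀ z₀ ∈ U, ∀ z ∈ ball z₀ (r z₀), G z z = G z₀ z := by
    intro z₀ hz₀ z hz
    have hzU : z ∈ U := hrU z₀ hz₀ hz
    have hopen : IsOpen (ball z₀ (r z₀) ∩ ball z (r z)) := isOpen_ball.inter isOpen_ball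
    have : EqOn (G z) (G z₀) (ball z₀ (r z₀) ∩ ball z (r z)) := by
      refine Measure.eqOn_open_of_ae_eq (μ := (volume : Measure ℂ)) ?_ hopen
        (hG z hzU).continuousOn (hG z₀ hz₀).continuousOn
      rw [EventuallyEq, ae_restrict_iff' hopen.measurableSet]
      filter_upwards [hae z hzU, hae z₀ hz₀] with t h1 h2 h3
      rw [← h1 h3.2, ← h2 h3.1]
    exact this ⟨hz, mem_ball_self (hr z hzU)⟩
  refine ⟨fun z => G z z, ?_, ?_⟩
  · intro z₀ hz₀
    have h1 : (fun z => G z z) =ᶠ[𝓝 z₀] G z₀ := by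
      filter_upwards [ball_mem_nhds z₀ (hr z₀ hz₀)] with z hz using key z₀ hz₀ z hz
    exact ((hG z₀ hz₀).continuousAt.congr h1.symm).continuousWithinAt
  · rw [ae_iff]
    refine measure_null_of_locally_null _ fun z₀ hz => ?_
    have hz₀ : z₀ ∈ U := by
      simp only [Set.mem_ofPred_eq, Classical.not_imp] at hz
      exact hz.1
    refine ⟨_ ∩ ball z₀ (r z₀), inter_mem_nhdsWithin _ (ball_mem_nhds z₀ (hr z₀ hz₀)), ?_⟩
    refine measure_mono_null ?_ (ae_iff.1 (hae z₀ hz₀))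
    rintro z ⟨h1, h2⟩
    simp only [Set.mem_ofPred_eq, Classical.not_imp] at h1 ⊢
    refine ⟨h2, ?_⟩
    rw [← key z₀ hz₀ z h2]
    exact h1.2

theorem integrable_mul_of_tsupport {U : Set ℂ} (hU : IsOpen U) {F η : ℂ → ℝ}
    (hF : ContinuousOn F U) (hη : Continuous η) (hc : HasCompactSupport η) (hs : tsupport η ⊆ U) :
    Integrable (fun z => η z * F z) := by
  have h := (contDiff_mul_of_tsupport hU (n := 0) (contDiffOn_zero.2 hF) (contDiff_zero.2 hη) hs).continuous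
  exact h.integrable_of_hasCompactSupport hc.mul_right

theorem contDiffOn_dx {U : Set ℂ} (hU : IsOpen U) {g : ℂ → ℝ} (hg : ContDiffOn ℝ ∞ g U) :
    ContDiffOn ℝ ∞ (dx g) U := fun z hz =>
  (contDiffAt_dx ((hg z hz).contDiffAt (hU.mem_nhds hz))).contDiffWithinAt

theorem contDiffOn_dy {U : Set ℂ} (hU : IsOpen U) {g : ℂ → ℝ} (hg : ContDiffOn ℝ ∞ g U) :
    ContDiffOn ℝ ∞ (dy g) U := fun z hz =>
  (contDiffAt_dy ((hg z hz).contDiffAt (hU.mem_nhds hz))).contDiffWithinAt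

theorem contDiffOn_lap {U : Set ℂ} (hU : IsOpen U) {g : ℂ → ℝ} (hg : ContDiffOn ℝ ∞ g U) :
    ContDiffOn ℝ ∞ (lap g) U :=
  (contDiffOn_dx hU (contDiffOn_dx hU hg)).add (contDiffOn_dy hU (contDiffOn_dy hU hg))

theorem parts_one {U : Set ℂ} (hU : IsOpen U) {g η : ℂ → ℝ} (hg : ContDiffOn ℝ ∞ g U)
    (hη : ContDiff ℝ ∞ η) (hc : HasCompactSupport η) (hs : tsupport η ⊆ U) (v : ℂ) :
    ∫ z, g z * fderiv ℝ η z v = -∫ z, fderiv ℝ g z v * η z := by
  have hgd : ∀ z ∈ U, DifferentiableAt ℝ g z := fun z hz =>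
    ((hg z hz).contDiffAt (hU.mem_nhds hz)).differentiableAt (by simp)
  have hg' : ContinuousOn (fun z => fderiv ℝ g z v) U := fun z hz =>
    ((((hg z hz).contDiffAt (hU.mem_nhds hz)).fderiv_right (m := 0) (by simp)).clm_apply
      contDiffAt_const).continuousAt.continuousWithinAt
  have hη' : Continuous (fun z => fderiv ℝ η z v) :=
    ((hη.fderiv_right (m := 0) (by simp)).clm_apply contDiff_const).continuous
  have hc' : HasCompactSupport (fun z => fderiv ℝ η z v) :=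
    (hc.fderiv (𝕜 := ℝ)).comp_left (g := fun L : ℂ →L[ℝ] ℝ => L v) (by simp)
  have hs' : tsupport (fun z => fderiv ℝ η z v) ⊆ U := by
    refine subset_trans ?_ ((tsupport_fderiv_subset ℝ (f := η)).trans hs)
    exact closure_mono fun z hz h0 => hz (by simp [h0])
  refine integral_mul_fderiv_eq_neg_fderiv_mul_of_integrable ?_ ?_ ?_ (fun x hx => hgd x (hs hx))
    (fun x _ => (hη.differentiable (by simp)) x)
  · simpa [mul_comm] using integrable_mul_of_tsupport hU hg' hη.continuous hc hs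
  · simpa [mul_comm] using integrable_mul_of_tsupport hU hg.continuousOn hη' hc' hs'
  · simpa [mul_comm] using integrable_mul_of_tsupport hU hg.continuousOn hη.continuous hc hs

theorem parts_lap {U : Set ℂ} (hU : IsOpen U) {g η : ℂ → ℝ} (hg : ContDiffOn ℝ ∞ g U)
    (hη : ContDiff ℝ ∞ η) (hc : HasCompactSupport η) (hs : tsupport η ⊆ U) :
    ∫ z, g z * lap η z = ∫ z, lap g z * η z := by
  have a1 := parts_one hU hg (contDiff_dx hη) (hasCompactSupport_dx hc) (tsupport_dx.trans hs) 1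
  have a2 := parts_one hU (contDiffOn_dx hU hg) hη hc hs 1
  have a3 := parts_one hU hg (contDiff_dy hη) (hasCompactSupport_dy hc) (tsupport_dy.trans hs) Complex.I
  have a4 := parts_one hU (contDiffOn_dy hU hg) hη hc hs Complex.I
  have i1 : Integrable (fun z => g z * dx (dx η) z) := by
    simpa [mul_comm] using integrable_mul_of_tsupport hU hg.continuousOn
      (contDiff_dx (contDiff_dx hη)).continuous (hasCompactSupport_dx (hasCompactSupport_dx hc))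
      (tsupport_dx.trans (tsupport_dx.trans hs))
  have i2 : Integrable (fun z => g z * dy (dy η) z) := by
    simpa [mul_comm] using integrable_mul_of_tsupport hU hg.continuousOn
      (contDiff_dy (contDiff_dy hη)).continuous (hasCompactSupport_dy (hasCompactSupport_dy hc))
      (tsupport_dy.trans (tsupport_dy.trans hs))
  have i3 : Integrable (fun z => dx (dx g) z * η z) := by
    simpa [mul_comm] using integrable_mul_of_tsupport hU
      (contDiffOn_dx hU (contDiffOn_dx hU hg)).continuousOn hη.continuous hc hs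
  have i4 : Integrable (fun z => dy (dy g) z * η z) := by
    simpa [mul_comm] using integrable_mul_of_tsupport hU
      (contDiffOn_dy hU (contDiffOn_dy hU hg)).continuousOn hη.continuous hc hs
  have e1 : ∫ z, g z * lap η z = (∫ z, g z * dx (dx η) z) + ∫ z, g z * dy (dy η) z := by
    rw [← integral_add i1 i2]
    refine integral_congr_ae (Eventually.of_forall fun z => ?_)
    simp only [lap]; ring
  have e2 : ∫ z, lap g z * η z = (∫ z, dx (dx g) z * η z) + ∫ z, dy (dy g) z * η z := by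
    rw [← integral_add i3 i4]
    refine integral_congr_ae (Eventually.of_forall fun z => ?_)
    simp only [lap]; ring
  have b1 : ∫ z, g z * dx (dx η) z = ∫ z, dx (dx g) z * η z := by
    have c1 : ∫ z, g z * dx (dx η) z = -∫ z, dx g z * dx η z := a1
    have c2 : ∫ z, dx g z * dx η z = -∫ z, dx (dx g) z * η z := a2
    rw [c1, c2, neg_neg]
  have b2 : ∫ z, g z * dy (dy η) z = ∫ z, dy (dy g) z * η z := by
    have c1 : ∫ z, g z * dy (dy η) z = -∫ z, dy g z * dy η z := a3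
    have c2 : ∫ z, dy g z * dy η z = -∫ z, dy (dy g) z * η z := a4
    rw [c1, c2, neg_neg]
  rw [e1, e2, b1, b2]

theorem strong_of_weak {U : Set ℂ} (hU : IsOpen U) {q g : ℂ → ℝ} (hq : ContDiffOn ℝ ∞ q U)
    (hw : Weak U q g) (hg : ContDiffOn ℝ ∞ g U) : ∀ z ∈ U, -lap g z = q z * g z := by
  have hc : ContinuousOn (fun z => lap g z + q z * g z) U :=
    (contDiffOn_lap hU hg).continuousOn.add (hq.continuousOn.mul hg.continuousOn)
  have hae := hU.ae_eq_zero_of_integral_contDiff_smul_eq_zero (μ := (volume : Measure ℂ))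
    (f := fun z => lap g z + q z * g z) (hc.locallyIntegrableOn hU.measurableSet) (by
      intro η h1 h2 h3
      have hq' : ContinuousOn (fun z => q z * g z) U := hq.continuousOn.mul hg.continuousOn
      have i1 : Integrable (fun z => lap g z * η z) := by
        simpa [mul_comm] using integrable_mul_of_tsupport hU (contDiffOn_lap hU hg).continuousOn
          h1.continuous h2 h3
      have i2 : Integrable (fun z => (q z * g z) * η z) := by
        simpa [mul_comm] using integrable_mul_of_tsupport hU hq' h1.continuous h2 h3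
      have i3 : Integrable (fun z => g z * lap η z) := by
        simpa [mul_comm] using integrable_mul_of_tsupport hU hg.continuousOn
          (contDiff_lap h1).continuous (hasCompactSupport_lap h2) (tsupport_lap.trans h3)
      have e1 : ∫ z, η z • (lap g z + q z * g z) = (∫ z, lap g z * η z) + ∫ z, (q z * g z) * η z := by
        rw [← integral_add i1 i2]
        refine integral_congr_ae (Eventually.of_forall fun z => ?_)
        simp only [smul_eq_mul]; ring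
      have e2 : ∫ z, g z * (lap η z + q z * η z) = (∫ z, g z * lap η z) + ∫ z, (q z * g z) * η z := by
        rw [← integral_add i3 i2]
        refine integral_congr_ae (Eventually.of_forall fun z => ?_)
        simp only; ring
      rw [e1, ← parts_lap hU hg h1 h2 h3, ← e2]
      exact hw η h1 h2 h3)
  have heq : EqOn (fun z => lap g z + q z * g z) (fun _ => 0) U := by
    refine Measure.eqOn_open_of_ae_eq (μ := (volume : Measure ℂ)) ?_ hU hc continuousOn_const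
    rw [EventuallyEq, ae_restrict_iff' hU.measurableSet]
    exact hae
  intro z hz
  have := heq hz
  simp only at this
  linarith

/-- **Package R** (interior elliptic regularity): a weak solution `f ∈ L²_loc(U)` of `-Δ f = q f`
with `q` smooth agrees almost everywhere with a smooth (classical) solution. -/
theorem regularity {U : Set ℂ} (hU : IsOpen U) {q f : ℂ → ℝ} (hq : ContDiffOn ℝ ∞ q U)
    (hfm : AEStronglyMeasurable f (volume.restrict U))
    (hf2 : ∀ K ⊆ U, IsCompact K → IntegrableOn (fun z => f z ^ 2) K)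
    (hw : ∀ η : ℂ → ℝ, ContDiff ℝ ∞ η → HasCompactSupport η → tsupport η ⊆ U →
      ∫ z, f z * (lap η z + q z * η z) = 0) :
    ∃ g : ℂ → ℝ, ContDiffOn ℝ ∞ g U ∧ (∀ᵐ z, z ∈ U → f z = g z) ∧
      ∀ z ∈ U, -lap g z = q z * g z := by
  obtain ⟨g, hgc, hfg⟩ := glue fun z₀ hz₀ => first_step hU hq hfm hf2 hw hz₀
  have hw' : Weak U q g := Weak.congr hw hfg
  have hsm := smooth_of_continuous hU hq hw' hgc
  exact ⟨g, hsm, hfg, strong_of_weak hU hq hw' hsm⟩

theorem integrable_mul_of_integrableOn {U : Set ℂ} {F η : ℂ → ℝ}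
    (hF : ∀ K ⊆ U, IsCompact K → IntegrableOn F K) (hη : Continuous η)
    (hc : HasCompactSupport η) (hs : tsupport η ⊆ U) : Integrable (fun z => F z * η z) := by
  have hKm : MeasurableSet (tsupport η) := (isClosed_tsupport _).measurableSet
  obtain ⟨M, hM⟩ := hη.bounded_above_of_compact_support hc
  have h1 : IntegrableOn (fun z => F z * η z) (tsupport η) :=
    (hF _ hs hc).mul_bdd (c := M) hη.aestronglyMeasurable (Eventually.of_forall hM)
  have h2 : (tsupport η).indicator (fun z => F z * η z) = fun z => F z * η z := by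
    funext z
    by_cases hz : z ∈ tsupport η
    · rw [indicator_of_mem hz]
    · rw [indicator_of_notMem hz, image_eq_zero_of_notMem_tsupport hz, mul_zero]
  rw [← h2]
  exact (integrable_indicator_iff hKm).2 h1

theorem integrableOn_of_sq {F : ℂ → ℝ} {K : Set ℂ} (hK : IsCompact K)
    (hm : AEStronglyMeasurable F (volume.restrict K)) (h2 : IntegrableOn (fun z => F z ^ 2) K) :
    IntegrableOn F K := by
  refine Integrable.mono' (h2.add (integrableOn_const (C := (1:ℝ)) hK.measure_lt_top.ne)) hm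
    (Eventually.of_forall fun z => ?_)
  simp only [Pi.add_apply, Real.norm_eq_abs]
  nlinarith [sq_nonneg (|F z| - 1), sq_abs (F z), sq_nonneg (F z)]

/-- variant with a first-order weak form: `∫ (f_x η_x + f_y η_y) = ∫ q f η` for a pair `(fx, fy)` of
weak derivatives -/
theorem regularity_weak_grad {U : Set ℂ} (hU : IsOpen U) {q f fx fy : ℂ → ℝ} (hq : ContDiffOn ℝ ∞ q U)
    (hfm : AEStronglyMeasurable f (volume.restrict U))
    (hf2 : ∀ K ⊆ U, IsCompact K → IntegrableOn (fun z => f z ^ 2) K)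
    (hx2 : ∀ K ⊆ U, IsCompact K → IntegrableOn fx K)
    (hy2 : ∀ K ⊆ U, IsCompact K → IntegrableOn fy K)
    (hfx : ∀ η : ℂ → ℝ, ContDiff ℝ ∞ η → HasCompactSupport η → tsupport η ⊆ U →
      ∫ z, f z * dx η z = -∫ z, fx z * η z)
    (hfy : ∀ η : ℂ → ℝ, ContDiff ℝ ∞ η → HasCompactSupport η → tsupport η ⊆ U →
      ∫ z, f z * dy η z = -∫ z, fy z * η z)
    (hw : ∀ η : ℂ → ℝ, ContDiff ℝ ∞ η → HasCompactSupport η → tsupport η ⊆ U →
      ∫ z, (fx z * dx η z + fy z * dy η z) = ∫ z, q z * f z * η z) :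
    ∃ g : ℂ → ℝ, ContDiffOn ℝ ∞ g U ∧ (∀ᵐ z, z ∈ U → f z = g z) ∧
      ∀ z ∈ U, -lap g z = q z * g z := by
  have hf1 : ∀ K ⊆ U, IsCompact K → IntegrableOn f K := fun K hK hKc =>
    integrableOn_of_sq hKc (hfm.mono_measure (Measure.restrict_mono hK le_rfl)) (hf2 K hK hKc)
  have hqf : ∀ K ⊆ U, IsCompact K → IntegrableOn (fun z => q z * f z) K := fun K hK hKc => by
    obtain ⟨C, hC⟩ := hKc.exists_bound_of_continuousOn (hq.continuousOn.mono hK)
    refine (hf1 K hK hKc).bdd_mul (c := C)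
      ((hq.continuousOn.mono hK).aestronglyMeasurable hKc.measurableSet) ?_
    rw [ae_restrict_iff' hKc.measurableSet]
    exact Eventually.of_forall hC
  refine regularity hU hq hfm hf2 fun η h1 h2 h3 => ?_
  have i1 := integrable_mul_of_integrableOn hf1 (contDiff_dx (contDiff_dx h1)).continuous
    (hasCompactSupport_dx (hasCompactSupport_dx h2)) (tsupport_dx.trans (tsupport_dx.trans h3))
  have i2 := integrable_mul_of_integrableOn hf1 (contDiff_dy (contDiff_dy h1)).continuous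
    (hasCompactSupport_dy (hasCompactSupport_dy h2)) (tsupport_dy.trans (tsupport_dy.trans h3))
  have i3 := integrable_mul_of_integrableOn hqf h1.continuous h2 h3
  have i4 := integrable_mul_of_integrableOn hx2 (contDiff_dx h1).continuous
    (hasCompactSupport_dx h2) (tsupport_dx.trans h3)
  have i5 := integrable_mul_of_integrableOn hy2 (contDiff_dy h1).continuous
    (hasCompactSupport_dy h2) (tsupport_dy.trans h3)
  have e1 : ∫ z, f z * (lap η z + q z * η z)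
      = ((∫ z, f z * dx (dx η) z) + ∫ z, f z * dy (dy η) z) + ∫ z, q z * f z * η z := by
    have i12 : Integrable (fun z => f z * dx (dx η) z + f z * dy (dy η) z) := i1.add i2
    rw [← integral_add i1 i2, ← integral_add i12 i3]
    refine integral_congr_ae (Eventually.of_forall fun z => ?_)
    simp only [lap]; ring
  have a1 := hfx _ (contDiff_dx h1) (hasCompactSupport_dx h2) (tsupport_dx.trans h3)
  have a2 := hfy _ (contDiff_dy h1) (hasCompactSupport_dy h2) (tsupport_dy.trans h3)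
  have a3 := hw η h1 h2 h3
  rw [integral_add i4 i5] at a3
  rw [e1, a1, a2, ← a3]
  ring

end

end Pool.Agent.EQ.Reg

end

/-! ## Lib_helper98.EQSF.R1 -/

section

set_option autoImplicit false

namespace Pool.Agent.EQ.SP

open MeasureTheory Filter Topology Set Pool.Agent.EQ
open scoped ContDiff

noncomputable section

theorem weak_regularity {U : Set ℂ} (hU : IsOpen U) {q f : ℂ → ℝ}
    (hq : ContDiffOn ℝ ∞ q U) (hfm : Measurable f)
    (hf : ∀ K ⊆ U, IsCompact K → IntegrableOn (fun z => f z ^ 2) K)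
    (hw : ∀ η, IsTest U η → ∫ z, f z * (lap η z + q z * η z) = 0) :
    ∃ g : ℂ → ℝ, ContDiffOn ℝ ∞ g U ∧ (∀ᵐ z, z ∈ U → f z = g z) ∧
      ∀ z ∈ U, lap g z + q z * g z = 0 := by
  obtain ⟨g, h1, h2, h3⟩ := Reg.regularity hU hq hfm.aestronglyMeasurable hf
    (fun η a b c => hw η ⟨a, b, c⟩)
  exact ⟨g, h1, h2, fun z hz => by have := h3 z hz; linarith⟩

end

end Pool.Agent.EQ.SP

end

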