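import Mathlib
import Pool.Agent.Lib_helper71.EQM.Reg
import Pool.Agent.Lib_helper71.EQM.SpA
import Pool.Agent.Lib_helper71.EQM.SpB

/-! Project EQ (MP_ed6ab2_an): merged modules Lib_helper98.EQSF.PERG, Lib_helper98.EQSF.NEAR, Lib_helper98.EQSF.T2, Lib_helper98.EQSF.IBP2, Lib_helper98.EQSF.PART, Lib_helper98.EQSF.LOC, Lib_helper98.EQSF.PER, Lib_helper98.EQSF.UNF, Lib_helper98.EQSF.T1, Lib_helper98.EQSF.REG. -/

set_option autoImplicit false

/-! ## Lib_helper98.EQSF.PERG -/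

section

/-! Project EQ, package S2: block PERG (helper67). -/

set_option autoImplicit false

namespace Pool.Agent.EQ.SP

open MeasureTheory Filter Topology Set Pool.Agent.EQ
open scoped ContDiff

noncomputable section

variable {W : ℕ} [hW : Fact (8 ≤ W)]

theorem PERG_fin {η : ℂ → ℝ} (hc : HasCompactSupport η) (z0 : ℂ) :
    ∃ T : Finset (ℤ × ℤ), ∀ z ∈ Metric.ball z0 1, ∀ p, p ∉ T → z + lat W p ∉ tsupport η := by
  obtain ⟨R, hR⟩ := hc.isBounded.subset_closedBall (0 : ℂ)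
  set B : ℝ := R + (‖z0‖ + 1) with hB
  set N : ℤ := ⌈B⌉ with hN
  refine ⟨Finset.Icc (-N) N ×ˢ Finset.Icc (-N) N, fun z hz p hp hmem => hp ?_⟩
  have h1 := hR hmem
  rw [mem_closedBall_zero_iff] at h1
  have h2 : ‖z‖ ≤ ‖z0‖ + 1 := by
    have := norm_le_insert' z z0
    rw [Metric.mem_ball, dist_eq_norm] at hz
    linarith
  have h3 : ‖lat W p‖ ≤ B := by
    have : lat W p = (z + lat W p) - z := by ring
    rw [this]
    refine (norm_sub_le _ _).trans ?_
    linarith
  have hre := (Complex.abs_re_le_norm (lat W p)).trans h3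
  have him := (Complex.abs_im_le_norm (lat W p)).trans h3
  have e1 : (lat W p).re = 8 * p.1 := rfl
  have e2 : (lat W p).im = W * p.2 := rfl
  have hWr : (8 : ℝ) ≤ W := by exact_mod_cast hW.out
  rw [e1, abs_mul] at hre
  rw [e2, abs_mul] at him
  have hNB : B ≤ N := Int.le_ceil B
  have a1 : |(p.1 : ℝ)| ≤ N := by
    have : |(8 : ℝ)| = 8 := abs_of_pos (by norm_num)
    rw [this] at hre
    have := abs_nonneg (p.1 : ℝ)
    linarith
  have a2 : |(p.2 : ℝ)| ≤ N := by
    have h8 : |(W : ℝ)| = W := abs_of_nonneg (Nat.cast_nonneg W)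
    rw [h8] at him
    have := abs_nonneg (p.2 : ℝ)
    nlinarith
  rw [abs_le] at a1 a2
  rw [Finset.mem_product, Finset.mem_Icc, Finset.mem_Icc]
  exact ⟨⟨by exact_mod_cast a1.1, by exact_mod_cast a1.2⟩,
    ⟨by exact_mod_cast a2.1, by exact_mod_cast a2.2⟩⟩

omit hW in
theorem PERG_dx_sum {T : Finset (ℤ × ℤ)} {f : ℤ × ℤ → ℂ → ℝ} (hf : ∀ p, Differentiable ℝ (f p)) :
    dx (fun z => ∑ p ∈ T, f p z) = fun z => ∑ p ∈ T, dx (f p) z := by
  ext z
  have h : fderiv ℝ (fun z => ∑ p ∈ T, f p z) z = ∑ p ∈ T, fderiv ℝ (f p) z :=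
    fderiv_fun_sum fun p _ => hf p z
  simp [EQ.dx, h]

omit hW in
theorem PERG_dy_sum {T : Finset (ℤ × ℤ)} {f : ℤ × ℤ → ℂ → ℝ} (hf : ∀ p, Differentiable ℝ (f p)) :
    dy (fun z => ∑ p ∈ T, f p z) = fun z => ∑ p ∈ T, dy (f p) z := by
  ext z
  have h : fderiv ℝ (fun z => ∑ p ∈ T, f p z) z = ∑ p ∈ T, fderiv ℝ (f p) z :=
    fderiv_fun_sum fun p _ => hf p z
  simp [EQ.dy, h]

omit hW in
theorem PERG_dx_tr (f : ℂ → ℝ) (c : ℂ) : dx (fun z => f (z + c)) = fun z => dx f (z + c) := by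
  ext z
  simp [EQ.dx, fderiv_comp_add_right]

omit hW in
theorem PERG_dy_tr (f : ℂ → ℝ) (c : ℂ) : dy (fun z => f (z + c)) = fun z => dy f (z + c) := by
  ext z
  simp [EQ.dy, fderiv_comp_add_right]

omit hW in
theorem PERG_diff {f : ℂ → ℝ} (hf : ContDiff ℝ ∞ f) : ContDiff ℝ ∞ (dx f) ∧ ContDiff ℝ ∞ (dy f) := by
  constructor
  · rw [contDiff_iff_contDiffAt]
    intro z
    exact ContDiffAt.dx hf.contDiffAt
  · rw [contDiff_iff_contDiffAt]
    intro z
    exact ContDiffAt.dy hf.contDiffAt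

omit hW in
theorem PERG_lap_sum {T : Finset (ℤ × ℤ)} {η : ℂ → ℝ} (hη : ContDiff ℝ ∞ η) (W : ℕ) :
    lap (fun z => ∑ p ∈ T, η (z + lat W p)) = fun z => ∑ p ∈ T, lap η (z + lat W p) := by
  have hd : ∀ {f : ℂ → ℝ} (c : ℂ), ContDiff ℝ ∞ f → Differentiable ℝ (fun z => f (z + c)) := by
    intro f c hf
    exact (hf.comp (contDiff_id.add contDiff_const)).differentiable (by simp)
  have hdx : dx (fun z => ∑ p ∈ T, η (z + lat W p)) = fun z => ∑ p ∈ T, dx η (z + lat W p) := by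
    rw [PERG_dx_sum (f := fun p z => η (z + lat W p)) fun p => hd _ hη]
    ext z
    exact Finset.sum_congr rfl fun p _ => congrFun (PERG_dx_tr η (lat W p)) z
  have hdy : dy (fun z => ∑ p ∈ T, η (z + lat W p)) = fun z => ∑ p ∈ T, dy η (z + lat W p) := by
    rw [PERG_dy_sum (f := fun p z => η (z + lat W p)) fun p => hd _ hη]
    ext z
    exact Finset.sum_congr rfl fun p _ => congrFun (PERG_dy_tr η (lat W p)) z
  ext z
  have h1 : lap (fun z => ∑ p ∈ T, η (z + lat W p)) z =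
      dx (dx (fun z => ∑ p ∈ T, η (z + lat W p))) z +
      dy (dy (fun z => ∑ p ∈ T, η (z + lat W p))) z := rfl
  rw [h1, hdx, hdy, PERG_dx_sum (f := fun p z => dx η (z + lat W p)) fun p => hd _ (PERG_diff hη).1,
    PERG_dy_sum (f := fun p z => dy η (z + lat W p)) fun p => hd _ (PERG_diff hη).2,
    ← Finset.sum_add_distrib]
  refine Finset.sum_congr rfl fun p _ => ?_
  rw [congrFun (PERG_dx_tr (dx η) (lat W p)) z, congrFun (PERG_dy_tr (dy η) (lat W p)) z]
  rfl

omit hW in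
theorem PERG_lap_zero {η : ℂ → ℝ} {z : ℂ} (hz : z ∉ tsupport η) : lap η z = 0 := by
  have h0 : η =ᶠ[𝓝 z] fun _ => 0 := notMem_tsupport_iff_eventuallyEq.1 hz
  have h1 : dx η =ᶠ[𝓝 z] fun _ => 0 := by
    filter_upwards [h0.eventuallyEq_nhds] with y hy
    simp [EQ.dx, hy.fderiv_eq]
  have h2 : dy η =ᶠ[𝓝 z] fun _ => 0 := by
    filter_upwards [h0.eventuallyEq_nhds] with y hy
    simp [EQ.dy, hy.fderiv_eq]
  have h3 : fderiv ℝ (dx η) z = 0 := by
    rw [h1.fderiv_eq]
    simp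
  have h4 : fderiv ℝ (dy η) z = 0 := by
    rw [h2.fderiv_eq]
    simp
  show fderiv ℝ (dx η) z 1 + fderiv ℝ (dy η) z Complex.I = 0
  rw [h3, h4]
  simp

/-- B10a PERG: periodisation of a smooth function with compact support. -/
theorem periodise_smooth {η : ℂ → ℝ} (hη : ContDiff ℝ ∞ η) (hc : HasCompactSupport η) :
    ContDiff ℝ ∞ (fun z => ∑' p : ℤ × ℤ, η (z + lat W p)) ∧
      (∀ p z, ∑' q : ℤ × ℤ, η (z + lat W p + lat W q) = ∑' q : ℤ × ℤ, η (z + lat W q)) ∧
      (∀ z, lap (fun z => ∑' p : ℤ × ℤ, η (z + lat W p)) z =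
        ∑' p : ℤ × ℤ, lap η (z + lat W p)) ∧
      (∀ z, {p : ℤ × ℤ | η (z + lat W p) ≠ 0}.Finite) ∧
      (∀ z, {p : ℤ × ℤ | lap η (z + lat W p) ≠ 0}.Finite) := by
  have hloc : ∀ z0 : ℂ, ∃ T : Finset (ℤ × ℤ),
      (fun z => ∑' p : ℤ × ℤ, η (z + lat W p)) =ᶠ[𝓝 z0] (fun z => ∑ p ∈ T, η (z + lat W p)) ∧
      (∑' p : ℤ × ℤ, lap η (z0 + lat W p) = ∑ p ∈ T, lap η (z0 + lat W p)) ∧
      (∀ p, p ∉ T → η (z0 + lat W p) = 0 ∧ lap η (z0 + lat W p) = 0) := by
    intro z0
    obtain ⟨T, hT⟩ := PERG_fin (W := W) hc z0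
    have h0 : z0 ∈ Metric.ball z0 1 := Metric.mem_ball_self one_pos
    refine ⟨T, ?_, ?_, ?_⟩
    · filter_upwards [Metric.ball_mem_nhds z0 one_pos] with z hz
      exact tsum_eq_sum fun p hp => image_eq_zero_of_notMem_tsupport (hT z hz p hp)
    · exact tsum_eq_sum fun p hp => PERG_lap_zero (hT z0 h0 p hp)
    · intro p hp
      exact ⟨image_eq_zero_of_notMem_tsupport (hT z0 h0 p hp), PERG_lap_zero (hT z0 h0 p hp)⟩
  refine ⟨?_, ?_, ?_, ?_, ?_⟩
  · rw [contDiff_iff_contDiffAt]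
    intro z0
    obtain ⟨T, hT, -, -⟩ := hloc z0
    refine ContDiffAt.congr_of_eventuallyEq ?_ hT
    exact ContDiffAt.sum fun p _ => (hη.comp (contDiff_id.add contDiff_const)).contDiffAt
  · intro p z
    rw [← (Equiv.addLeft p).tsum_eq fun q => η (z + lat W q)]
    refine tsum_congr fun q => ?_
    congr 1
    rw [add_assoc]
    congr 1
    apply Complex.ext <;> simp [lat] <;> ring
  · intro z0
    obtain ⟨T, hT, h1, -⟩ := hloc z0
    rw [h1]
    have h2 : lap (fun z => ∑' p : ℤ × ℤ, η (z + lat W p)) z0 =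
        lap (fun z => ∑ p ∈ T, η (z + lat W p)) z0 := by
      have e1 : dx (fun z => ∑' p : ℤ × ℤ, η (z + lat W p)) =ᶠ[𝓝 z0]
          dx (fun z => ∑ p ∈ T, η (z + lat W p)) := by
        filter_upwards [hT.eventuallyEq_nhds] with y hy
        simp only [EQ.dx, hy.fderiv_eq]
      have e2 : dy (fun z => ∑' p : ℤ × ℤ, η (z + lat W p)) =ᶠ[𝓝 z0]
          dy (fun z => ∑ p ∈ T, η (z + lat W p)) := by
        filter_upwards [hT.eventuallyEq_nhds] with y hy
        simp only [EQ.dy, hy.fderiv_eq]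
      unfold lap
      congr 1
      · show fderiv ℝ (dx fun z => ∑' p : ℤ × ℤ, η (z + lat W p)) z0 1 = fderiv ℝ _ z0 1
        rw [e1.fderiv_eq]
      · show fderiv ℝ (dy fun z => ∑' p : ℤ × ℤ, η (z + lat W p)) z0 Complex.I =
          fderiv ℝ _ z0 Complex.I
        rw [e2.fderiv_eq]
    rw [h2]
    exact congrFun (PERG_lap_sum hη W) z0
  · intro z0
    obtain ⟨T, -, -, h1⟩ := hloc z0
    refine T.finite_toSet.subset fun p hp => ?_
    by_contra hcon
    exact hp (h1 p hcon).1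
  · intro z0
    obtain ⟨T, -, -, h1⟩ := hloc z0
    refine T.finite_toSet.subset fun p hp => ?_
    by_contra hcon
    exact hp (h1 p hcon).2

end

end Pool.Agent.EQ.SP

end

/-! ## Lib_helper98.EQSF.NEAR -/

section

/-! Block NEAR. -/

set_option autoImplicit false

namespace Pool.Agent.EQ.SP

open MeasureTheory Filter Topology Set Pool.Agent.EQ
open scoped ContDiff

noncomputable section

variable {W : ℕ} [hW : Fact (8 ≤ W)]

theorem NEAR_norm (z : ℂ) : ‖inv1 z‖ = ‖z‖⁻¹ := by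
  rw [inv1, norm_inv, Complex.norm_conj]

theorem NEAR_inv (z : ℂ) : inv1 (inv1 z) = z := by
  rw [inv1, inv1, map_inv₀, Complex.conj_conj, inv_inv]

theorem NEAR_lap_zero {f : ℂ → ℝ} {z : ℂ} (h : f =ᶠ[𝓝 z] fun _ => (0:ℝ)) : lap f z = 0 := by
  have h1 : fderiv ℝ f =ᶠ[𝓝 z] fderiv ℝ (fun _ => (0:ℝ)) := h.fderiv
  have h2 : dx f =ᶠ[𝓝 z] fun _ => (0:ℝ) := by
    filter_upwards [h1] with w hw
    simp [dx, hw]
  have h3 : dy f =ᶠ[𝓝 z] fun _ => (0:ℝ) := by
    filter_upwards [h1] with w hw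
    simp [dy, hw]
  have h4 : dx (dx f) z = 0 := by
    show fderiv ℝ (dx f) z 1 = 0
    rw [h2.fderiv_eq]
    simp
  have h5 : dy (dy f) z = 0 := by
    show fderiv ℝ (dy f) z Complex.I = 0
    rw [h3.fderiv_eq]
    simp
  rw [lap, h4, h5, add_zero]

theorem NEAR_dx_smooth {f : ℂ → ℝ} (hf : ContDiff ℝ ∞ f) :
    ContDiff ℝ ∞ (dx f) ∧ ContDiff ℝ ∞ (dy f) := by
  have h : ContDiff ℝ ∞ (fderiv ℝ f) := hf.fderiv_right (m := ∞) (by simp)
  exact ⟨h.clm_apply contDiff_const, h.clm_apply contDiff_const⟩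

theorem NEAR_dx_add {f g : ℂ → ℝ} (hf : ContDiff ℝ ∞ f) (hg : ContDiff ℝ ∞ g) :
    (dx (fun z => f z + g z) = fun z => dx f z + dx g z) ∧
      (dy (fun z => f z + g z) = fun z => dy f z + dy g z) := by
  have h : ∀ z, fderiv ℝ (fun z => f z + g z) z = fderiv ℝ f z + fderiv ℝ g z := fun z =>
    fderiv_add (hf.differentiable (by simp)).differentiableAt
      (hg.differentiable (by simp)).differentiableAt
  constructor
  · funext z
    show fderiv ℝ (fun z => f z + g z) z 1 = _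
    rw [h z]
    rfl
  · funext z
    show fderiv ℝ (fun z => f z + g z) z Complex.I = _
    rw [h z]
    rfl

theorem NEAR_lap_add {f g : ℂ → ℝ} (hf : ContDiff ℝ ∞ f) (hg : ContDiff ℝ ∞ g) (z : ℂ) :
    lap (fun z => f z + g z) z = lap f z + lap g z := by
  rw [lap, (NEAR_dx_add hf hg).1, (NEAR_dx_add hf hg).2,
    (NEAR_dx_add (NEAR_dx_smooth hf).1 (NEAR_dx_smooth hg).1).1,
    (NEAR_dx_add (NEAR_dx_smooth hf).2 (NEAR_dx_smooth hg).2).2, lap, lap]
  ring

omit hW in
theorem NEAR_lat_zero : lat W 0 = 0 := by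
  apply Complex.ext <;> simp [lat]

theorem NEAR_far {z : ℂ} (hz : z ∈ box W) {p : ℤ × ℤ} (hp : p ≠ 0) : 4 ≤ ‖z + lat W p‖ := by
  have hW' : (8:ℝ) ≤ W := by exact_mod_cast hW.out
  obtain ⟨h1, h2, h3, h4⟩ := hz
  have hre := Complex.abs_re_le_norm (z + lat W p)
  have him := Complex.abs_im_le_norm (z + lat W p)
  have e1 : (z + lat W p).re = z.re + 8 * p.1 := rfl
  have e2 : (z + lat W p).im = z.im + W * p.2 := rfl
  rw [e1] at hre
  rw [e2] at him
  by_cases hp1 : p.1 = 0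
  · have hp2 : p.2 ≠ 0 := fun h => hp (Prod.ext hp1 h)
    rcases lt_or_gt_of_ne hp2 with h | h
    · have h5 : (p.2 : ℝ) ≤ -1 := by exact_mod_cast (by omega : p.2 ≤ -1)
      have := neg_abs_le (z.im + W * p.2)
      nlinarith
    · have h5 : (1:ℝ) ≤ p.2 := by exact_mod_cast (by omega : 1 ≤ p.2)
      have := le_abs_self (z.im + W * p.2)
      nlinarith
  · rcases lt_or_gt_of_ne hp1 with h | h
    · have h5 : (p.1 : ℝ) ≤ -1 := by exact_mod_cast (by omega : p.1 ≤ -1)
      have := neg_abs_le (z.re + 8 * p.1)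
      nlinarith
    · have h5 : (1:ℝ) ≤ p.1 := by exact_mod_cast (by omega : 1 ≤ p.1)
      have := le_abs_self (z.re + 8 * p.1)
      nlinarith

/-- B13 NEAR: a test function near the unit circle gives a core function. -/
theorem symmetrise {η : ℂ → ℝ} {r : ℝ} (hr : 1/2 ≤ r) (hr1 : r < 1) (hη : IsTest (AA r) η) :
    ∃ h : coreSub W, Near W h.1 ∧ ∀ z ∈ FF W, h.1 z = η z + η (inv1 z) ∧
      lap h.1 z = lap η z + (‖z‖ ^ 4)⁻¹ * lap η (inv1 z) := by
  obtain ⟨hs, hc, ht⟩ := hη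
  have hr0 : 0 < r := by linarith
  have hinv : 1 < r⁻¹ := (one_lt_inv₀ hr0).2 hr1
  have hinv2 : r⁻¹ ≤ 2 := by
    rw [inv_le_comm₀ hr0 (by norm_num)]
    linarith
  -- bounds for the support
  obtain ⟨M, m, hM, hm, hm0, hb⟩ : ∃ M m : ℝ, M < r⁻¹ ∧ r < m ∧ 0 < m ∧
      ∀ z ∈ tsupport η, m ≤ ‖z‖ ∧ ‖z‖ ≤ M := by
    rcases (tsupport η).eq_empty_or_nonempty with he | hne
    · refine ⟨1, 1, hinv, hr1, one_pos, fun z hz => ?_⟩
      rw [he] at hz
      exact absurd hz (notMem_empty z)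
    · obtain ⟨z1, hz1, h1⟩ := hc.isCompact.exists_isMaxOn hne continuous_norm.continuousOn
      obtain ⟨z2, hz2, h2⟩ := hc.isCompact.exists_isMinOn hne continuous_norm.continuousOn
      exact ⟨‖z1‖, ‖z2‖, (ht hz1).2, (ht hz2).1, hr0.trans (ht hz2).1,
        fun z hz => ⟨h2 hz, h1 hz⟩⟩
  have hsupp : ∀ z, η z ≠ 0 → m ≤ ‖z‖ ∧ ‖z‖ ≤ M := fun z hz => hb z (subset_tsupport _ hz)
  have hsuppi : ∀ z, η (inv1 z) ≠ 0 → ‖z‖ ≤ m⁻¹ := by
    intro z hz
    have h1 := (hsupp _ hz).1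
    rw [NEAR_norm] at h1
    have h2 : 0 < ‖z‖⁻¹ := lt_of_lt_of_le hm0 h1
    have h3 := inv_anti₀ hm0 h1
    rwa [inv_inv] at h3
  have hmi : m⁻¹ < r⁻¹ := inv_strictAnti₀ hr0 hm
  -- the reflected function
  have hgs : ContDiff ℝ ∞ (fun z => η (inv1 z)) := by
    rw [contDiff_iff_contDiffAt]
    intro z
    by_cases hz : z = 0
    · subst hz
      have h0 : (fun z => η (inv1 z)) =ᶠ[𝓝 (0:ℂ)] fun _ => (0:ℝ) := by
        filter_upwards [Metric.ball_mem_nhds (0:ℂ) hr0] with w hw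
        rw [mem_ball_zero_iff] at hw
        by_contra hcon
        obtain ⟨h1, h2⟩ := hsupp _ hcon
        rw [NEAR_norm] at h1 h2
        have h3 : 0 < ‖w‖⁻¹ := lt_of_lt_of_le hm0 h1
        have h4 : 0 < ‖w‖ := inv_pos.1 h3
        have h5 : r⁻¹ < ‖w‖⁻¹ := inv_strictAnti₀ h4 hw
        linarith
      exact contDiffAt_const.congr_of_eventuallyEq h0
    · exact hs.contDiffAt.comp z (contDiffAt_inv1 hz)
  have hgc : HasCompactSupport (fun z => η (inv1 z)) := by
    refine HasCompactSupport.of_support_subset_isCompact (isCompact_closedBall (0:ℂ) m⁻¹) ?_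
    intro z hz
    rw [mem_closedBall_zero_iff]
    exact hsuppi z hz
  set E : ℂ → ℝ := fun z => η z + η (inv1 z) with hE
  have hEs : ContDiff ℝ ∞ E := hs.add hgs
  have hEc : HasCompactSupport E := hc.add hgc
  have hE0 : ∀ z : ℂ, max M m⁻¹ < ‖z‖ → E z = 0 := by
    intro z hz
    have h1 : η z = 0 := by
      by_contra hcon
      exact absurd (hsupp z hcon).2 (not_le.2 (lt_of_le_of_lt (le_max_left _ _) hz))
    have h2 : η (inv1 z) = 0 := by
      by_contra hcon
      exact absurd (hsuppi z hcon) (not_le.2 (lt_of_le_of_lt (le_max_right _ _) hz))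
    simp only [hE, h1, h2, add_zero]
  have hmax : max M m⁻¹ < r⁻¹ := max_lt hM hmi
  have hlap0 : ∀ z : ℂ, max M m⁻¹ < ‖z‖ → lap E z = 0 := by
    intro z hz
    refine NEAR_lap_zero ?_
    filter_upwards [(isOpen_lt continuous_const continuous_norm).mem_nhds hz] with w hw
    exact hE0 w hw
  obtain ⟨p1, p2, p3, p4, p5⟩ := periodise_smooth (W := W) hEs hEc
  have hfar : ∀ z : ℂ, (z ∈ box W ∨ ‖z‖ < r⁻¹) → ∀ p : ℤ × ℤ, p ≠ 0 →
      max M m⁻¹ < ‖z + lat W p‖ := by
    intro z hz p hp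
    rcases hz with hz | hz
    · have := NEAR_far hz hp
      linarith
    · -- the lattice vector is long
      have h0 : (0:ℂ) ∈ box W := by
        have hW' : (8:ℝ) ≤ W := by exact_mod_cast hW.out
        refine ⟨by norm_num, by norm_num, by norm_num, ?_⟩
        show (0:ℝ) ≤ W - 4
        linarith
      have h1 : 8 ≤ ‖lat W p‖ := by
        have hW' : (8:ℝ) ≤ W := by exact_mod_cast hW.out
        have hre := Complex.abs_re_le_norm (lat W p)
        have him := Complex.abs_im_le_norm (lat W p)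
        have e1 : (lat W p).re = 8 * p.1 := rfl
        have e2 : (lat W p).im = W * p.2 := rfl
        rw [e1, abs_mul] at hre
        rw [e2, abs_mul] at him
        by_cases hp1 : p.1 = 0
        · have hp2 : p.2 ≠ 0 := fun h => hp (Prod.ext hp1 h)
          have h3 : (1:ℤ) ≤ |p.2| := Int.one_le_abs hp2
          have h4 : (1:ℝ) ≤ |(p.2 : ℝ)| := by exact_mod_cast h3
          have h5 : (8:ℝ) ≤ |(W:ℝ)| := hW'.trans (le_abs_self _)
          have h6 : (8:ℝ) * 1 ≤ |(W:ℝ)| * |(p.2 : ℝ)| :=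
            mul_le_mul h5 h4 (by norm_num) (abs_nonneg _)
          linarith
        · have h3 : (1:ℤ) ≤ |p.1| := Int.one_le_abs hp1
          have h4 : (1:ℝ) ≤ |(p.1 : ℝ)| := by exact_mod_cast h3
          have h5 : |(8:ℝ)| = 8 := by norm_num
          rw [h5] at hre
          linarith
      have h2 : ‖lat W p‖ ≤ ‖z + lat W p‖ + ‖z‖ := by
        have e : lat W p = (z + lat W p) - z := by ring
        conv_lhs => rw [e]
        exact norm_sub_le _ _
      linarith
  have hval : ∀ z : ℂ, (z ∈ box W ∨ ‖z‖ < r⁻¹) → ∑' p : ℤ × ℤ, E (z + lat W p) = E z := by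
    intro z hz
    rw [tsum_eq_single 0 (fun p hp => hE0 _ (hfar z hz p hp)), NEAR_lat_zero, add_zero]
  have hlapv : ∀ z : ℂ, z ∈ box W →
      lap (fun z => ∑' p : ℤ × ℤ, E (z + lat W p)) z = lap E z := by
    intro z hz
    rw [p3, tsum_eq_single 0 (fun p hp => hlap0 _ (hfar z (Or.inl hz) p hp)), NEAR_lat_zero,
      add_zero]
  have hcore : IsCore W (fun z => ∑' p : ℤ × ℤ, E (z + lat W p)) := by
    refine ⟨fun p z => p2 p z, r, hr0, hr1, p1.contDiffOn, fun z hz1 hz2 => ?_⟩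
    have hz0 : 0 < ‖z‖ := hr0.trans hz1
    have h1 : ‖inv1 z‖ < r⁻¹ := by
      rw [NEAR_norm]
      exact inv_strictAnti₀ hr0 hz1
    show ∑' p : ℤ × ℤ, E (inv1 z + lat W p) = ∑' p : ℤ × ℤ, E (z + lat W p)
    rw [hval _ (Or.inr h1), hval _ (Or.inr hz2)]
    simp only [hE, NEAR_inv]
    ring
  refine ⟨⟨fun z => ∑' p : ℤ × ℤ, E (z + lat W p), mem_coreSub.2 hcore⟩, ⟨max (max M m⁻¹) (3/2) + (2 - max (max M m⁻¹) (3/2)) / 2, ?_, ?_, ?_⟩,
    fun z hz => ⟨?_, ?_⟩⟩
  · have h1 : max (max M m⁻¹) (3/2) < 2 := max_lt (by linarith) (by norm_num)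
    have h2 : (3/2 : ℝ) ≤ max (max M m⁻¹) (3/2) := le_max_right _ _
    linarith
  · have h1 : max (max M m⁻¹) (3/2) < 2 := max_lt (by linarith) (by norm_num)
    linarith
  · intro z hz hzR
    have h1 : max (max M m⁻¹) (3/2) < 2 := max_lt (by linarith) (by norm_num)
    have h2 : max M m⁻¹ ≤ max (max M m⁻¹) (3/2) := le_max_left _ _
    show ∑' p : ℤ × ℤ, E (z + lat W p) = 0
    rw [hval z (Or.inl hz.1)]
    exact hE0 z (by linarith)
  · show ∑' p : ℤ × ℤ, E (z + lat W p) = _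
    rw [hval z (Or.inl hz.1)]
  · show lap (fun z => ∑' p : ℤ × ℤ, E (z + lat W p)) z = _
    have hz0 : z ≠ 0 := by
      rintro rfl
      have := hz.2
      rw [norm_zero] at this
      linarith
    rw [hlapv z hz.1, hE, NEAR_lap_add hs hgs]
    congr 1
    exact lap_inv1 hz0 ((hs.of_le (by norm_cast)).contDiffAt)

end

end Pool.Agent.EQ.SP

end

/-! ## Lib_helper98.EQSF.T2 -/

section

/-! Project EQ, package S2, block T2 (helper28): weak equation near the unit circles. -/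

set_option autoImplicit false

namespace Pool.Agent.EQ.SP

open MeasureTheory Filter Topology Set Pool.Agent.EQ
open scoped ContDiff

noncomputable section

variable {W : ℕ} [hW : Fact (8 ≤ W)]

/-! ### calculus -/

theorem T2_dx_congr {f g : ℂ → ℝ} {z : ℂ} (h : f =ᶠ[𝓝 z] g) : dx f =ᶠ[𝓝 z] dx g := by
  have := h.fderiv (𝕜 := ℝ)
  filter_upwards [this] with w hw
  rw [dx, dx, hw]

theorem T2_dy_congr {f g : ℂ → ℝ} {z : ℂ} (h : f =ᶠ[𝓝 z] g) : dy f =ᶠ[𝓝 z] dy g := by
  have := h.fderiv (𝕜 := ℝ)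
  filter_upwards [this] with w hw
  rw [dy, dy, hw]

theorem T2_lap_congr {f g : ℂ → ℝ} {z : ℂ} (h : f =ᶠ[𝓝 z] g) : lap f z = lap g z := by
  rw [lap, lap, (T2_dx_congr (T2_dx_congr h)).self_of_nhds, (T2_dy_congr (T2_dy_congr h)).self_of_nhds]

theorem T2_lap_zero (z : ℂ) : lap (fun _ => (0 : ℝ)) z = 0 := by
  have h1 : dx (fun _ : ℂ => (0 : ℝ)) = fun _ => 0 := by funext w; simp [dx]
  have h2 : dy (fun _ : ℂ => (0 : ℝ)) = fun _ => 0 := by funext w; simp [dy]
  rw [lap, h1, h2, h1, h2, add_zero]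

theorem T2_lap_off {η : ℂ → ℝ} {z : ℂ} (hz : z ∉ tsupport η) : lap η z = 0 := by
  have h : η =ᶠ[𝓝 z] fun _ => 0 := notMem_tsupport_iff_eventuallyEq.mp hz
  rw [T2_lap_congr h, T2_lap_zero]

theorem T2_lap_cont {η : ℂ → ℝ} (hη : ContDiff ℝ ∞ η) : Continuous (lap η) := by
  have hx : ∀ f : ℂ → ℝ, ContDiff ℝ ∞ f → ContDiff ℝ ∞ (dx f) := by
    intro f hf
    rw [contDiff_iff_contDiffAt]
    exact fun z => ContDiffAt.dx (contDiff_iff_contDiffAt.mp hf z)
  have hy : ∀ f : ℂ → ℝ, ContDiff ℝ ∞ f → ContDiff ℝ ∞ (dy f) := by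
    intro f hf
    rw [contDiff_iff_contDiffAt]
    exact fun z => ContDiffAt.dy (contDiff_iff_contDiffAt.mp hf z)
  exact (hx _ (hx _ hη)).continuous.add (hy _ (hy _ hη)).continuous

theorem T2_fderiv_add (f : ℂ → ℝ) (c z : ℂ) :
    fderiv ℝ (fun w => f (w + c)) z = fderiv ℝ f (z + c) := fderiv_comp_add_right c

theorem T2_lap_add (f : ℂ → ℝ) (c z : ℂ) : lap (fun w => f (w + c)) z = lap f (z + c) := by
  have h1 : ∀ f : ℂ → ℝ, dx (fun w => f (w + c)) = fun w => dx f (w + c) := by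
    intro f; funext w; rw [dx, dx, T2_fderiv_add]
  have h2 : ∀ f : ℂ → ℝ, dy (fun w => f (w + c)) = fun w => dy f (w + c) := by
    intro f; funext w; rw [dy, dy, T2_fderiv_add]
  rw [lap, lap, h1, h1, h2, h2]

/-! ### geometry -/

theorem T2_inv_norm (z : ℂ) : ‖inv1 z‖ = ‖z‖⁻¹ := by
  rw [inv1, norm_inv, RCLike.norm_conj]

theorem T2_inv_inv (z : ℂ) : inv1 (inv1 z) = z := by
  rw [inv1, inv1, map_inv₀, inv_inv, Complex.conj_conj]

omit hW in
theorem T2_lat_zero : lat W 0 = 0 := by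
  apply Complex.ext <;> simp [lat]

theorem T2_far {z : ℂ} (hz : ‖z‖ < 2) (p : ℤ × ℤ) (hp : p ≠ 0) : 1 ≤ ‖z - lat W p‖ := by
  have hW' : (8:ℝ) ≤ W := by exact_mod_cast hW.out
  obtain ⟨m, n⟩ := p
  have hre := Complex.abs_re_le_norm (z - lat W (m, n))
  have him := Complex.abs_im_le_norm (z - lat W (m, n))
  have e1 : (z - lat W (m, n)).re = z.re - 8 * m := by simp [lat]
  have e2 : (z - lat W (m, n)).im = z.im - W * n := by simp [lat]
  have a1 := (abs_le.mp ((Complex.abs_re_le_norm z).trans hz.le))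
  have a2 := (abs_le.mp ((Complex.abs_im_le_norm z).trans hz.le))
  rw [e1] at hre; rw [e2] at him
  by_cases hm : m = 0
  · have hn : n ≠ 0 := by
      rintro rfl; apply hp; rw [hm]; rfl
    rcases lt_or_gt_of_ne hn with h | h
    · have : (n:ℝ) ≤ -1 := by exact_mod_cast (by omega : n ≤ -1)
      have := le_abs_self (z.im - W * n)
      nlinarith
    · have : (1:ℝ) ≤ n := by exact_mod_cast (by omega : 1 ≤ n)
      have := neg_abs_le (z.im - W * n)
      nlinarith
  · rcases lt_or_gt_of_ne hm with h | h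
    · have : (m:ℝ) ≤ -1 := by exact_mod_cast (by omega : m ≤ -1)
      have := le_abs_self (z.re - 8 * m)
      nlinarith
    · have : (1:ℝ) ≤ m := by exact_mod_cast (by omega : 1 ≤ m)
      have := neg_abs_le (z.re - 8 * m)
      nlinarith

theorem T2_AA_UU {r : ℝ} (hr : 1/2 ≤ r) (hr1 : r < 1) : AA r ⊆ UU W r := by
  intro z hz
  have hz2 : ‖z‖ < 2 := by
    refine lt_of_lt_of_le hz.2 ?_
    rw [inv_le_comm₀ (by linarith) (by norm_num)]
    linarith
  apply mem_UU_of_le (r' := min ‖z‖ 1) (lt_min hz.1 hr1)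
  intro p
  by_cases hp : p = 0
  · rw [hp, T2_lat_zero, sub_zero]; exact min_le_left _ _
  · exact (min_le_right _ _).trans (T2_far hz2 p hp)

/-- the outer annulus -/
def T2_A (r : ℝ) : Set ℂ := {w : ℂ | 1 < ‖w‖ ∧ ‖w‖ < r⁻¹}

/-- the inner annulus -/
def T2_B (r : ℝ) : Set ℂ := {z : ℂ | r < ‖z‖ ∧ ‖z‖ < 1}

theorem T2_A_meas (r : ℝ) : MeasurableSet (T2_A r) :=
  (measurableSet_lt measurable_const measurable_norm).inter
    (measurableSet_lt measurable_norm measurable_const)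

theorem T2_B_meas (r : ℝ) : MeasurableSet (T2_B r) :=
  (measurableSet_lt measurable_const measurable_norm).inter
    (measurableSet_lt measurable_norm measurable_const)

theorem T2_A_FF {r : ℝ} (hr : 1/2 ≤ r) : T2_A r ⊆ FF W := by
  intro z hz
  have hW' : (8:ℝ) ≤ W := by exact_mod_cast hW.out
  have hz2 : ‖z‖ < 2 := by
    refine lt_of_lt_of_le hz.2 ?_
    rw [inv_le_comm₀ (by linarith) (by norm_num)]
    linarith
  have a1 := (abs_le.mp ((Complex.abs_re_le_norm z).trans hz2.le))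
  have a2 := (abs_le.mp ((Complex.abs_im_le_norm z).trans hz2.le))
  refine ⟨⟨by linarith, by linarith, by linarith, by linarith⟩, hz.1.le⟩

theorem T2_A_fold {r : ℝ} (hr : 1/2 ≤ r) (z : ℂ) (hz : z ∈ T2_A r) : fold W z = z := by
  have hW' : (8:ℝ) ≤ W := by exact_mod_cast hW.out
  have hz2 : ‖z‖ < 2 := by
    refine lt_of_lt_of_le hz.2 ?_
    rw [inv_le_comm₀ (by linarith) (by norm_num)]
    linarith
  have a1 := (abs_le.mp ((Complex.abs_re_le_norm z).trans hz2.le))
  have a2 := (abs_le.mp ((Complex.abs_im_le_norm z).trans hz2.le))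
  exact fold_symm.2.2.2.2 z (T2_A_FF hr hz) (by linarith) (by linarith)

theorem T2_AA_ae (r : ℝ) (hr : 1/2 ≤ r) (hr1 : r < 1) : (AA r : Set ℂ) =ᵐ[volume] (T2_B r ∪ T2_A r : Set ℂ) := by
  have h0 : volume (Metric.sphere (0 : ℂ) 1) = 0 := Measure.addHaar_sphere volume 0 1
  have h1 : ∀ᵐ z : ℂ, z ∉ Metric.sphere (0 : ℂ) 1 := by
    exact measure_eq_zero_iff_ae_notMem.mp h0
  have hri : 1 < r⁻¹ := (one_lt_inv₀ (by linarith)).mpr hr1
  filter_upwards [h1] with z hz
  apply propext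
  have hz1 : ‖z‖ ≠ 1 := by simpa using hz
  show (z ∈ AA r) ↔ z ∈ (T2_B r ∪ T2_A r)
  simp only [AA, T2_A, T2_B, mem_union, mem_ofPred_eq]
  constructor
  · rintro ⟨a, b⟩
    rcases lt_or_gt_of_ne hz1 with h | h
    · exact Or.inl ⟨a, h⟩
    · exact Or.inr ⟨h, b⟩
  · rintro (⟨a, b⟩ | ⟨a, b⟩)
    · exact ⟨a, by linarith⟩
    · exact ⟨by linarith, b⟩

/-- the case `p = 0` -/
theorem T2_main {g q : ℂ → ℝ} (hgm : Measurable g) (hg : MemLp g 2 (mu W))
    {r : ℝ} (hr : 1/2 ≤ r) (hr1 : r < 1) (hqs : ContDiffOn ℝ ∞ q (UU W r))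
    (hqi : ∀ z, r < ‖z‖ → ‖z‖ < r⁻¹ → q (inv1 z) = ‖z‖ ^ 4 * q z)
    (hweak : ∀ h : coreSub W, Near W h.1 →
      ∫ z in FF W, g z * (lap h.1 z + q z * h.1 z) = 0)
    {η : ℂ → ℝ} (hη : IsTest (AA r) η) :
    ∫ z, g (fold W z) * (lap η z + q z * η z) = 0 := by
  obtain ⟨hηs, hηc, hηt⟩ := hη
  set T : ℂ → ℝ := fun z => lap η z + q z * η z with hT
  have hT0 : ∀ z, z ∉ tsupport η → T z = 0 := by
    intro z hz
    rw [hT]
    simp only
    rw [T2_lap_off hz, image_eq_zero_of_notMem_tsupport hz, mul_zero, add_zero]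
  have hTA : ∀ z, z ∉ AA r → T z = 0 := fun z hz => hT0 z (fun h => hz (hηt h))
  -- boundedness of `T`
  have hTb : ∃ B : ℝ, 0 ≤ B ∧ ∀ z, |T z| ≤ B := by
    have hc : ContinuousOn T (tsupport η) := by
      apply (T2_lap_cont hηs).continuousOn.add
      exact (hqs.continuousOn.mono (hηt.trans (T2_AA_UU hr hr1))).mul hηs.continuous.continuousOn
    obtain ⟨B, hB⟩ := hηc.isCompact.exists_bound_of_continuousOn hc
    refine ⟨max B 0, le_max_right _ _, ?_⟩
    intro z
    by_cases hz : z ∈ tsupport η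
    · exact (hB z hz).trans (le_max_left _ _)
    · rw [hT0 z hz, abs_zero]; exact le_max_right _ _
  obtain ⟨B, hB0, hB⟩ := hTb
  -- measurability of `T`
  have hTm : AEStronglyMeasurable T volume := by
    have h1 : T = (AA r).indicator T := by
      funext z
      by_cases hz : z ∈ AA r
      · rw [indicator_of_mem hz]
      · rw [indicator_of_notMem hz, hTA z hz]
    have hAo : IsOpen (AA r : Set ℂ) :=
      (isOpen_lt continuous_const continuous_norm).inter (isOpen_lt continuous_norm continuous_const)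
    have hc : ContinuousOn T (AA r) := by
      apply (T2_lap_cont hηs).continuousOn.add
      exact (hqs.continuousOn.mono (T2_AA_UU hr hr1)).mul hηs.continuous.continuousOn
    rw [h1, aestronglyMeasurable_indicator_iff hAo.measurableSet]
    exact hc.aestronglyMeasurable hAo.measurableSet
  have hgA : MemLp g 2 (volume.restrict (T2_A r)) :=
    hg.mono_measure (Measure.restrict_mono (T2_A_FF hr) le_rfl)
  have hAfin : volume (T2_A r) < ⊤ :=
    lt_of_le_of_lt (measure_mono (T2_A_FF (W := W) hr)) (isCompact_FF W).measure_lt_top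
  have : IsFiniteMeasure (volume.restrict (T2_A r)) := ⟨by rwa [Measure.restrict_apply_univ]⟩
  have hg1 : IntegrableOn g (T2_A r) := hgA.integrable (by norm_num)
  -- the two parts
  have hf1 : IntegrableOn (fun z => g z * T z) (T2_A r) := by
    refine Integrable.mul_bdd (c := B) hg1 hTm.restrict (Eventually.of_forall fun z => ?_)
    exact hB z
  have hTim : AEStronglyMeasurable (fun w => (‖w‖ ^ 4)⁻¹ * T (inv1 w)) (volume.restrict (T2_A r)) := by
    have hAo : IsOpen (T2_A r : Set ℂ) :=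
      (isOpen_lt continuous_const continuous_norm).inter (isOpen_lt continuous_norm continuous_const)
    have hc : ContinuousOn (fun w => (‖w‖ ^ 4)⁻¹ * T (inv1 w)) (T2_A r) := by
      have hne : ∀ w ∈ T2_A r, w ≠ 0 := by
        intro w hw h0
        have := hw.1
        rw [h0, norm_zero] at this
        linarith
      apply ContinuousOn.mul
      · apply ContinuousOn.inv₀ (continuous_norm.pow 4).continuousOn
        intro w hw
        exact pow_ne_zero _ (norm_ne_zero_iff.mpr (hne w hw))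
      · have h2 : ContinuousOn (inv1 : ℂ → ℂ) (T2_A r) := fun w hw =>
          (contDiffAt_inv1 (hne w hw)).continuousAt.continuousWithinAt
        have h3 : ContinuousOn T (AA r) := by
          apply (T2_lap_cont hηs).continuousOn.add
          exact (hqs.continuousOn.mono (T2_AA_UU hr hr1)).mul hηs.continuous.continuousOn
        apply h3.comp h2
        intro w hw
        have hw0 : 0 < ‖w‖ := by linarith [hw.1]
        refine ⟨?_, ?_⟩
        · rw [T2_inv_norm, lt_inv_comm₀ (by linarith) hw0]; exact hw.2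
        · rw [T2_inv_norm]
          have h4 : ‖w‖⁻¹ < 1 := inv_lt_one_of_one_lt₀ hw.1
          have h5 : 1 < r⁻¹ := (one_lt_inv₀ (by linarith)).mpr hr1
          linarith
    exact hc.aestronglyMeasurable hAo.measurableSet
  have hf2 : IntegrableOn (fun w => g w * ((‖w‖ ^ 4)⁻¹ * T (inv1 w))) (T2_A r) := by
    refine Integrable.mul_bdd (c := B) hg1 hTim ?_
    refine (ae_restrict_iff' (T2_A_meas r)).mpr (Eventually.of_forall fun w hw => ?_)
    have h4 : (‖w‖ ^ 4)⁻¹ ≤ 1 := inv_le_one_of_one_le₀ (one_le_pow₀ hw.1.le)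
    rw [norm_mul, norm_inv, norm_pow, norm_norm]
    have h5 : ‖T (inv1 w)‖ ≤ B := hB _
    calc (‖w‖ ^ 4)⁻¹ * ‖T (inv1 w)‖ ≤ 1 * B :=
          mul_le_mul h4 h5 (norm_nonneg _) zero_le_one
      _ = B := one_mul B
  -- inner part
  have hr0 : 0 < r := by linarith
  have hfb : ∀ z ∈ T2_B r, g (fold W z) * T z = g (inv1 z) * T z := by
    intro z hz
    rw [fold_symm.2.2.2.1 z (by linarith [hz.1]) hz.2]
  have hB1 : IntegrableOn (fun z => g (inv1 z) * T z) (T2_B r) := by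
    have := (integrableOn_inv1 (fun z => g (inv1 z) * T z) hr0 hr1).mpr
    apply this
    refine hf2.congr_fun ?_ (T2_A_meas r)
    intro w _
    simp only [T2_inv_inv]
    ring
  have hB2 : ∫ z in T2_B r, g (inv1 z) * T z = ∫ w in T2_A r, g w * ((‖w‖ ^ 4)⁻¹ * T (inv1 w)) := by
    have := integral_inv1 (fun z => g (inv1 z) * T z) hr0 hr1
    refine this.trans ?_
    apply setIntegral_congr_fun (T2_A_meas r)
    intro w _
    simp only [T2_inv_inv]
    ring
  have hfa : ∀ z ∈ T2_A r, g (fold W z) * T z = g z * T z := by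
    intro z hz
    rw [T2_A_fold hr z hz]
  -- total
  have hdisj : Disjoint (T2_B r) (T2_A r) := by
    rw [Set.disjoint_left]
    intro z h1 h2
    linarith [h1.2, h2.1]
  have htot : ∫ z, g (fold W z) * T z =
      (∫ w in T2_A r, g w * ((‖w‖ ^ 4)⁻¹ * T (inv1 w))) + ∫ z in T2_A r, g z * T z := by
    have e1 : ∫ z, g (fold W z) * T z = ∫ z in AA r, g (fold W z) * T z := by
      symm
      apply setIntegral_eq_integral_of_forall_compl_eq_zero
      intro z hz
      rw [hTA z hz, mul_zero]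
    rw [e1, setIntegral_congr_set (T2_AA_ae r hr hr1), setIntegral_union hdisj (T2_A_meas r)
      (hB1.congr_fun (fun z hz => (hfb z hz).symm) (T2_B_meas r))
      (hf1.congr_fun (fun z hz => (hfa z hz).symm) (T2_A_meas r)),
      setIntegral_congr_fun (T2_B_meas r) hfb, hB2, setIntegral_congr_fun (T2_A_meas r) hfa]
  rw [htot, ← integral_add hf2 hf1]
  obtain ⟨h, hN, hh⟩ := symmetrise (W := W) hr hr1 ⟨hηs, hηc, hηt⟩
  rw [← hweak h hN]
  -- compare with the region
  have hFA : ∫ z in FF W, g z * (lap h.1 z + q z * h.1 z) =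
      ∫ z in T2_A r, g z * (lap h.1 z + q z * h.1 z) := by
    apply setIntegral_eq_of_subset_of_ae_sdiff_eq_zero (measurableSet_FF W).nullMeasurableSet
      (T2_A_FF hr)
    have h0 : volume (Metric.sphere (0 : ℂ) 1) = 0 := Measure.addHaar_sphere volume 0 1
    have h1 : ∀ᵐ z : ℂ, z ∉ Metric.sphere (0 : ℂ) 1 := by
      exact measure_eq_zero_iff_ae_notMem.mp h0
    filter_upwards [h1] with z hz1 hz
    have hzn : ‖z‖ ≠ 1 := by simpa using hz1
    have hz2 : r⁻¹ ≤ ‖z‖ := by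
      by_contra hlt
      exact hz.2 ⟨lt_of_le_of_ne hz.1.2 (Ne.symm hzn), not_le.mp hlt⟩
    have hzA : z ∉ AA r := fun hA => absurd hA.2 (not_lt.mpr hz2)
    have hziA : inv1 z ∉ AA r := by
      intro hA
      have := hA.1
      rw [T2_inv_norm] at this
      have hz0 : 0 < ‖z‖ := lt_of_lt_of_le (inv_pos.mpr hr0) hz2
      rw [lt_inv_comm₀ hr0 hz0] at this
      linarith
    have t1 : z ∉ tsupport η := fun h => hzA (hηt h)
    have t2 : inv1 z ∉ tsupport η := fun h => hziA (hηt h)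
    obtain ⟨e1, e2⟩ := hh z hz.1
    rw [e1, e2, T2_lap_off t1, T2_lap_off t2, image_eq_zero_of_notMem_tsupport t1,
      image_eq_zero_of_notMem_tsupport t2]
    ring
  rw [hFA]
  apply setIntegral_congr_fun (T2_A_meas r)
  intro w hw
  obtain ⟨e1, e2⟩ := hh w (T2_A_FF hr hw)
  have hw0 : 0 < ‖w‖ := by linarith [hw.1]
  have e3 := hqi w (by linarith [hw.1]) hw.2
  show g w * ((‖w‖ ^ 4)⁻¹ * T (inv1 w)) + g w * T w = g w * (lap h.1 w + q w * h.1 w)
  rw [e1, e2, hT]
  simp only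
  rw [e3]
  have hne : ‖w‖ ^ 4 ≠ 0 := by positivity
  field_simp
  ring

/-- B14 T2: the weak equation for test functions near one of the unit circles. -/
theorem weak_two {g q : ℂ → ℝ} (hgm : Measurable g) (hg : MemLp g 2 (mu W))
    {r : ℝ} (hr : 1/2 ≤ r) (hr1 : r < 1) (hqs : ContDiffOn ℝ ∞ q (UU W r))
    (hq : ∀ p z, q (z + lat W p) = q z)
    (hqi : ∀ z, r < ‖z‖ → ‖z‖ < r⁻¹ → q (inv1 z) = ‖z‖ ^ 4 * q z)
    (hweak : ∀ h : coreSub W, Near W h.1 →
      ∫ z in FF W, g z * (lap h.1 z + q z * h.1 z) = 0)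
    {η : ℂ → ℝ} (p : ℤ × ℤ) (hη : IsTest {z | z - lat W p ∈ AA r} η) :
    ∫ z, g (fold W z) * (lap η z + q z * η z) = 0 := by
  obtain ⟨h1, h2, h3⟩ := hη
  set ζ : ℂ → ℝ := fun z => η (z + lat W p) with hζ
  have hts : tsupport ζ = (fun z => z + lat W p) ⁻¹' tsupport η := by
    have := tsupport_comp_eq_preimage η (Homeomorph.addRight (lat W p))
    exact this
  have hζt : IsTest (AA r) ζ := by
    refine ⟨h1.comp (contDiff_id.add contDiff_const), ?_, ?_⟩
    · exact h2.comp_homeomorph (Homeomorph.addRight (lat W p))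
    · intro z hz
      rw [hts] at hz
      have := h3 hz
      simpa using this
  have hm := T2_main hgm hg hr hr1 hqs hqi hweak hζt
  rw [← hm, ← integral_add_right_eq_self _ (lat W p)]
  congr 1
  ext z
  rw [fold_symm.2.1 p z, hq p z, hζ, T2_lap_add]

end

end Pool.Agent.EQ.SP

end

/-! ## Lib_helper98.EQSF.IBP2 -/

section

/-! Project EQ, package S2, block IBP2 (helper28): integration by parts near the unit circle. -/

set_option autoImplicit false

namespace Pool.Agent.EQ.SP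

open MeasureTheory Filter Topology Set Pool.Agent.EQ
open scoped ContDiff

noncomputable section

variable {W : ℕ} [hW : Fact (8 ≤ W)]

/-- the open annulus -/
def IBP2_S : Set ℂ := {z : ℂ | 1/2 < ‖z‖ ∧ ‖z‖ < 2}

theorem IBP2_S_open : IsOpen IBP2_S :=
  (isOpen_lt continuous_const continuous_norm).inter (isOpen_lt continuous_norm continuous_const)

theorem IBP2_S_inv {z : ℂ} (hz : z ∈ IBP2_S) : inv1 z ∈ IBP2_S := by
  have h0 : 0 < ‖z‖ := by linarith [hz.1]
  refine ⟨?_, ?_⟩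
  · rw [T2_inv_norm, lt_inv_comm₀ (by norm_num) h0]
    have := hz.2
    norm_num
    linarith
  · rw [T2_inv_norm, inv_lt_comm₀ h0 (by norm_num)]
    have := hz.1
    linarith

theorem IBP2_inv_one {z : ℂ} (hz : ‖z‖ = 1) : inv1 z = z := by
  rw [inv1, Complex.inv_def, Complex.conj_conj, Complex.normSq_conj, Complex.normSq_eq_norm_sq, hz]
  simp

theorem IBP2_sym_inv (f : ℂ → ℝ) {z : ℂ} (hz : z ∈ IBP2_S) : sym f (inv1 z) = sym f z := by
  have h0 : 0 < ‖z‖ := by linarith [hz.1]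
  rcases lt_trichotomy ‖z‖ 1 with h | h | h
  · have h1 : 1 ≤ ‖inv1 z‖ := by
      rw [T2_inv_norm]; exact (one_le_inv₀ h0).mpr h.le
    rw [sym, sym, if_pos h1, if_neg (not_le.mpr h)]
  · rw [IBP2_inv_one h]
  · have h1 : ¬ 1 ≤ ‖inv1 z‖ := by
      rw [T2_inv_norm, not_le]; exact inv_lt_one_of_one_lt₀ h
    rw [sym, sym, if_neg h1, if_pos h.le, T2_inv_inv]

theorem IBP2_sym_smooth (f : coreSub W) {z : ℂ} (hz : z ∈ IBP2_S) : ContDiffAt ℝ ∞ (sym f.1) z :=
  (contDiffOn_sym f).contDiffAt (IBP2_S_open.mem_nhds hz)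

theorem IBP2_two : (2 : WithTop ℕ∞) ≤ ∞ := by
  have h : ((2 : ℕ∞) : WithTop ℕ∞) ≤ ((⊤ : ℕ∞) : WithTop ℕ∞) := WithTop.coe_le_coe.mpr le_top
  exact h

/-- the Laplacian of an inversion invariant function -/
theorem IBP2_lap_inv {F : ℂ → ℝ} (hF : ∀ z ∈ IBP2_S, F (inv1 z) = F z)
    (hs : ∀ z ∈ IBP2_S, ContDiffAt ℝ ∞ F z) {w : ℂ} (hw : w ∈ IBP2_S) :
    lap F (inv1 w) = ‖w‖ ^ 4 * lap F w := by
  have h0 : 0 < ‖w‖ := by linarith [hw.1]
  have hw0 : w ≠ 0 := norm_pos_iff.mp h0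
  have h1 := lap_inv1 (η := F) hw0 ((hs _ (IBP2_S_inv hw)).of_le IBP2_two)
  have h2 : lap (fun z => F (inv1 z)) w = lap F w := by
    apply T2_lap_congr
    filter_upwards [IBP2_S_open.mem_nhds hw] with z hz
    exact hF z hz
  rw [h2] at h1
  rw [h1]
  field_simp

/-- the integrand on the annulus -/
def IBP2_P (V H : ℂ → ℝ) (z : ℂ) : ℝ := (dx V z * dx H z + dy V z * dy H z) + V z * lap H z

theorem IBP2_P_inv {V H : ℂ → ℝ} (hV : ∀ z ∈ IBP2_S, V (inv1 z) = V z)
    (hVs : ∀ z ∈ IBP2_S, ContDiffAt ℝ ∞ V z) (hH : ∀ z ∈ IBP2_S, H (inv1 z) = H z)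
    (hHs : ∀ z ∈ IBP2_S, ContDiffAt ℝ ∞ H z) {w : ℂ} (hw : w ∈ IBP2_S) :
    IBP2_P V H (inv1 w) = ‖w‖ ^ 4 * IBP2_P V H w := by
  have hP : ∀ z ∈ IBP2_S, IBP2_P V H z =
      (lap (fun w => V w * H w) z + V z * lap H z - H z * lap V z) / 2 := by
    intro z hz
    have := lap_mul ((hVs z hz).of_le IBP2_two) ((hHs z hz).of_le IBP2_two)
    rw [this, IBP2_P]; ring
  have h1 := IBP2_lap_inv hV hVs hw
  have h2 := IBP2_lap_inv hH hHs hw
  have h3 : lap (fun w => V w * H w) (inv1 w) = ‖w‖ ^ 4 * lap (fun w => V w * H w) w := by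
    apply IBP2_lap_inv _ _ hw
    · intro z hz
      rw [hV z hz, hH z hz]
    · intro z hz
      exact (hVs z hz).mul (hHs z hz)
  rw [hP _ (IBP2_S_inv hw), hP _ hw, h1, h2, h3, hV w hw, hH w hw]
  ring

/-- the product, extended by zero -/
theorem IBP2_ext {V D : ℂ → ℝ} (hVs : ∀ z ∈ IBP2_S, ContDiffAt ℝ ∞ V z)
    (hDs : ∀ z ∈ IBP2_S, ContDiffAt ℝ ∞ D z) {R : ℝ} (hR1 : 1 < R) (hR2 : R < 2)
    (hD0 : ∀ z ∈ IBP2_S, (R < ‖z‖ ∨ ‖z‖ < R⁻¹) → D z = 0) :
    ContDiff ℝ ∞ (IBP2_S.indicator (fun z => V z * D z)) ∧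
      HasCompactSupport (IBP2_S.indicator (fun z => V z * D z)) ∧
      (∀ z ∈ IBP2_S, IBP2_S.indicator (fun z => V z * D z) =ᶠ[𝓝 z] fun z => V z * D z) ∧
      (∀ z, z ∉ IBP2_S → IBP2_S.indicator (fun z => V z * D z) =ᶠ[𝓝 z] fun _ => 0) := by
  have hin : ∀ z ∈ IBP2_S, IBP2_S.indicator (fun z => V z * D z) =ᶠ[𝓝 z] fun z => V z * D z := by
    intro z hz
    filter_upwards [IBP2_S_open.mem_nhds hz] with w hw
    rw [indicator_of_mem hw]
  have hout : ∀ z, z ∉ IBP2_S → IBP2_S.indicator (fun z => V z * D z) =ᶠ[𝓝 z] fun _ => 0 := by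
    intro z hz
    have hz' : ‖z‖ < R⁻¹ ∨ R < ‖z‖ := by
      by_contra hcon
      push Not at hcon
      apply hz
      refine ⟨?_, by linarith [hcon.2]⟩
      have : (1:ℝ)/2 < R⁻¹ := by
        rw [lt_inv_comm₀ (by norm_num) (by linarith)]
        norm_num
        linarith
      linarith [hcon.1]
    have hev : ∀ᶠ w in 𝓝 z, ‖w‖ < R⁻¹ ∨ R < ‖w‖ := by
      rcases hz' with h | h
      · filter_upwards [(isOpen_lt continuous_norm continuous_const).mem_nhds h] with w hw
        exact Or.inl hw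
      · filter_upwards [(isOpen_lt continuous_const continuous_norm).mem_nhds h] with w hw
        exact Or.inr hw
    filter_upwards [hev] with w hw
    by_cases hS : w ∈ IBP2_S
    · rw [indicator_of_mem hS, hD0 w hS (Or.symm hw), mul_zero]
    · rw [indicator_of_notMem hS]
  refine ⟨?_, ?_, hin, hout⟩
  · rw [contDiff_iff_contDiffAt]
    intro z
    by_cases hz : z ∈ IBP2_S
    · exact ((hVs z hz).mul (hDs z hz)).congr_of_eventuallyEq (hin z hz)
    · exact contDiffAt_const.congr_of_eventuallyEq (hout z hz)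
  · apply HasCompactSupport.intro (isCompact_closedBall (0 : ℂ) 2)
    intro z hz
    apply indicator_of_notMem
    intro hS
    apply hz
    rw [mem_closedBall_zero_iff]
    exact hS.2.le

/-- the integral over the outer annulus vanishes -/
theorem IBP2_key {V H : ℂ → ℝ} (hV : ∀ z ∈ IBP2_S, V (inv1 z) = V z)
    (hVs : ∀ z ∈ IBP2_S, ContDiffAt ℝ ∞ V z) (hH : ∀ z ∈ IBP2_S, H (inv1 z) = H z)
    (hHs : ∀ z ∈ IBP2_S, ContDiffAt ℝ ∞ H z) {R : ℝ} (hR1 : 1 < R) (hR2 : R < 2)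
    (hH0 : ∀ z ∈ IBP2_S, (R < ‖z‖ ∨ ‖z‖ < R⁻¹) → H z = 0) :
    ∫ z in T2_A (1/2), IBP2_P V H z = 0 := by
  have hH00 : ∀ z ∈ IBP2_S, (R < ‖z‖ ∨ ‖z‖ < R⁻¹) → H =ᶠ[𝓝 z] fun _ => 0 := by
    intro z hz h
    have hev : ∀ᶠ w in 𝓝 z, R < ‖w‖ ∨ ‖w‖ < R⁻¹ := by
      rcases h with h | h
      · filter_upwards [(isOpen_lt continuous_const continuous_norm).mem_nhds h] with w hw
        exact Or.inl hw
      · filter_upwards [(isOpen_lt continuous_norm continuous_const).mem_nhds h] with w hw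
        exact Or.inr hw
    filter_upwards [hev, IBP2_S_open.mem_nhds hz] with w hw hS
    exact hH0 w hS hw
  have hzx : dx (fun _ : ℂ => (0 : ℝ)) = fun _ => 0 := by funext w; simp [dx]
  have hzy : dy (fun _ : ℂ => (0 : ℝ)) = fun _ => 0 := by funext w; simp [dy]
  obtain ⟨x1, x2, x3, x4⟩ := IBP2_ext hVs (D := dx H) (fun z hz => ContDiffAt.dx (hHs z hz)) hR1 hR2
    (fun z hz h => by
      have := (T2_dx_congr (hH00 z hz h)).self_of_nhds
      rw [this, hzx])
  obtain ⟨y1, y2, y3, y4⟩ := IBP2_ext hVs (D := dy H) (fun z hz => ContDiffAt.dy (hHs z hz)) hR1 hR2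
    (fun z hz h => by
      have := (T2_dy_congr (hH00 z hz h)).self_of_nhds
      rw [this, hzy])
  set GX := IBP2_S.indicator (fun z => V z * dx H z) with hGX
  set GY := IBP2_S.indicator (fun z => V z * dy H z) with hGY
  have hone : (1 : WithTop ℕ∞) ≤ ∞ := by
    have h : ((1 : ℕ∞) : WithTop ℕ∞) ≤ ((⊤ : ℕ∞) : WithTop ℕ∞) := WithTop.coe_le_coe.mpr le_top
    exact h
  have iX := (cptdiv (x1.of_le hone) x2).1
  have iY := (cptdiv (y1.of_le hone) y2).2
  have cX : Continuous (dx GX) := by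
    have : ContDiff ℝ ∞ (dx GX) := contDiff_iff_contDiffAt.mpr
      (fun z => ContDiffAt.dx (contDiff_iff_contDiffAt.mp x1 z))
    exact this.continuous
  have cY : Continuous (dy GY) := by
    have : ContDiff ℝ ∞ (dy GY) := contDiff_iff_contDiffAt.mpr
      (fun z => ContDiffAt.dy (contDiff_iff_contDiffAt.mp y1 z))
    exact this.continuous
  have sX : HasCompactSupport (dx GX) := by
    have := x2.fderiv (𝕜 := ℝ)
    exact this.comp_left (g := fun L : ℂ →L[ℝ] ℝ => L 1) (by simp)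
  have sY : HasCompactSupport (dy GY) := by
    have := y2.fderiv (𝕜 := ℝ)
    exact this.comp_left (g := fun L : ℂ →L[ℝ] ℝ => L Complex.I) (by simp)
  have nX := cX.integrable_of_hasCompactSupport (μ := volume) sX
  have nY := cY.integrable_of_hasCompactSupport (μ := volume) sY
  set Ψ : ℂ → ℝ := fun z => dx GX z + dy GY z with hΨ
  have nΨ : Integrable Ψ := nX.add nY
  have iΨ : ∫ z, Ψ z = 0 := by
    rw [hΨ, integral_add nX nY, iX, iY, add_zero]
  have hin : ∀ z ∈ IBP2_S, Ψ z = IBP2_P V H z := by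
    intro z hz
    have e1 : dx GX z = dx (fun w => V w * dx H w) z := (T2_dx_congr (x3 z hz)).self_of_nhds
    have e2 : dy GY z = dy (fun w => V w * dy H w) z := (T2_dy_congr (y3 z hz)).self_of_nhds
    rw [hΨ]
    simp only
    rw [e1, e2, div_mul ((hVs z hz).of_le IBP2_two) ((hHs z hz).of_le IBP2_two), IBP2_P]
  have hout : ∀ z, z ∉ IBP2_S → Ψ z = 0 := by
    intro z hz
    have e1 := (T2_dx_congr (x4 z hz)).self_of_nhds
    have e2 := (T2_dy_congr (y4 z hz)).self_of_nhds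
    rw [hΨ]
    simp only
    rw [e1, e2, hzx, hzy, add_zero]
  have hAS : T2_A (1/2) ⊆ IBP2_S := by
    intro z hz
    have h1 := hz.1
    have h2 := hz.2
    refine ⟨by linarith, ?_⟩
    norm_num at h2
    exact h2
  have hSA : (AA (1/2) : Set ℂ) = IBP2_S := by
    ext z
    simp only [AA, IBP2_S, mem_ofPred_eq]
    norm_num
  have hdisj : Disjoint (T2_B (1/2)) (T2_A (1/2)) := by
    rw [Set.disjoint_left]
    intro z h1 h2
    linarith [h1.2, h2.1]
  have htot : ∫ z, Ψ z = (∫ z in T2_B (1/2), Ψ z) + ∫ z in T2_A (1/2), Ψ z := by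
    have e1 : ∫ z, Ψ z = ∫ z in AA (1/2), Ψ z := by
      symm
      apply setIntegral_eq_integral_of_forall_compl_eq_zero
      intro z hz
      rw [hSA] at hz
      exact hout z hz
    rw [e1, setIntegral_congr_set (T2_AA_ae (1/2) le_rfl (by norm_num)),
      setIntegral_union hdisj (T2_A_meas _) nΨ.integrableOn nΨ.integrableOn]
  have hB : ∫ z in T2_B (1/2), Ψ z = ∫ z in T2_A (1/2), Ψ z := by
    have := integral_inv1 Ψ (r := 1/2) (by norm_num) (by norm_num)
    refine this.trans ?_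
    apply setIntegral_congr_fun (T2_A_meas _)
    intro w hw
    have hwS := hAS hw
    have hw0 : 0 < ‖w‖ := by linarith [hw.1]
    simp only
    rw [hin _ (IBP2_S_inv hwS), hin _ hwS, IBP2_P_inv hV hVs hH hHs hwS]
    field_simp
  rw [iΨ, hB] at htot
  have h0 : ∫ z in T2_A (1/2), Ψ z = 0 := by linarith
  rw [← h0]
  apply setIntegral_congr_fun (T2_A_meas _)
  intro w hw
  exact (hin w (hAS hw)).symm

/-- the identity for core functions -/
theorem IBP2_core (h v : coreSub W) (hz : Near W h.1) :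
    ∫ z in FF W, ((dx v.1 z * dx h.1 z + dy v.1 z * dy h.1 z) + v.1 z * lap h.1 z) = 0 := by
  obtain ⟨R, hR1, hR2, hR⟩ := hz
  have hW' : (8:ℝ) ≤ W := by exact_mod_cast hW.out
  have hS_FF : ∀ z : ℂ, 1 ≤ ‖z‖ → ‖z‖ < 2 → z ∈ FF W := by
    intro z h1 h2
    have a1 := (abs_le.mp ((Complex.abs_re_le_norm z).trans h2.le))
    have a2 := (abs_le.mp ((Complex.abs_im_le_norm z).trans h2.le))
    exact ⟨⟨by linarith, by linarith, by linarith, by linarith⟩, h1⟩
  have hk := IBP2_key (V := sym v.1) (H := sym h.1) (fun z hz => IBP2_sym_inv v.1 hz)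
    (fun z hz => IBP2_sym_smooth v hz) (fun z hz => IBP2_sym_inv h.1 hz)
    (fun z hz => IBP2_sym_smooth h hz) hR1 hR2 (by
      intro z hz h'
      have hz0 : 0 < ‖z‖ := by linarith [hz.1]
      rcases h' with h' | h'
      · rw [sym, if_pos (by linarith)]
        exact hR z (hS_FF z (by linarith) hz.2) h'.le
      · have h1 : ‖z‖ < 1 := lt_trans h' (inv_lt_one_of_one_lt₀ hR1)
        rw [sym, if_neg (not_le.mpr h1)]
        have h2 := IBP2_S_inv hz
        have h3 : R < ‖inv1 z‖ := by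
          rw [T2_inv_norm, lt_inv_comm₀ (by linarith) hz0]; exact h'
        exact hR _ (hS_FF _ (by linarith) h2.2) h3.le)
  have hA : ∫ z in T2_A (1/2), ((dx v.1 z * dx h.1 z + dy v.1 z * dy h.1 z) + v.1 z * lap h.1 z) = 0 := by
    rw [← hk]
    apply setIntegral_congr_fun (T2_A_meas _)
    intro w hw
    have hev : ∀ f : ℂ → ℝ, f =ᶠ[𝓝 w] sym f := by
      intro f
      filter_upwards [(isOpen_lt continuous_const continuous_norm).mem_nhds hw.1] with z hz
      rw [sym, if_pos (le_of_lt hz)]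
    have e1 := (T2_dx_congr (hev v.1)).self_of_nhds
    have e2 := (T2_dy_congr (hev v.1)).self_of_nhds
    have e3 := (T2_dx_congr (hev h.1)).self_of_nhds
    have e4 := (T2_dy_congr (hev h.1)).self_of_nhds
    have e5 := T2_lap_congr (hev h.1)
    have e6 := (hev v.1).self_of_nhds
    simp only [IBP2_P]
    rw [e1, e2, e3, e4, e5, ← e6]
  rw [← hA]
  apply setIntegral_eq_of_subset_of_ae_sdiff_eq_zero (measurableSet_FF W).nullMeasurableSet
    (T2_A_FF le_rfl)
  have h0 := measure_eq_zero_iff_ae_notMem.mp (volume_FF_boundary W)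
  filter_upwards [h0] with z hz1 hz
  have hI : (-4 < z.re ∧ z.re < 4) ∧ (-4 < z.im ∧ z.im < W - 4) ∧ 1 < ‖z‖ := by
    by_contra hcon
    exact hz1 ⟨hz.1, hcon⟩
  have hz2 : 2 ≤ ‖z‖ := by
    by_contra hlt
    apply hz.2
    refine ⟨hI.2.2, ?_⟩
    norm_num
    exact not_le.mp hlt
  have hev : h.1 =ᶠ[𝓝 z] fun _ => 0 := by
    have o1 : IsOpen {z : ℂ | (-4 < z.re ∧ z.re < 4) ∧ (-4 < z.im ∧ z.im < W - 4) ∧ 1 < ‖z‖} := by
      apply IsOpen.inter
      · exact (isOpen_lt continuous_const Complex.continuous_re).inter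
          (isOpen_lt Complex.continuous_re continuous_const)
      · exact ((isOpen_lt continuous_const Complex.continuous_im).inter
          (isOpen_lt Complex.continuous_im continuous_const)).inter
          (isOpen_lt continuous_const continuous_norm)
    have o2 : IsOpen {z : ℂ | R < ‖z‖} := isOpen_lt continuous_const continuous_norm
    filter_upwards [o1.mem_nhds hI, o2.mem_nhds (show R < ‖z‖ by linarith)] with w hw1 hw2
    exact hR w ⟨⟨hw1.1.1.le, hw1.1.2.le, hw1.2.1.1.le, hw1.2.1.2.le⟩, hw1.2.2.le⟩ (le_of_lt hw2)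
  have hzx : dx (fun _ : ℂ => (0 : ℝ)) = fun _ => 0 := by funext w; simp [dx]
  have hzy : dy (fun _ : ℂ => (0 : ℝ)) = fun _ => 0 := by funext w; simp [dy]
  rw [(T2_dx_congr hev).self_of_nhds, (T2_dy_congr hev).self_of_nhds, T2_lap_congr hev, hzx, hzy,
    T2_lap_zero]
  ring

/-- B9 IBP2. -/
theorem ibp_near (h : coreSub W) (hz : Near W h.1) (u : HV W) :
    eform W u (J W h) = -∫ z in FF W, (u : Lp E3 2 (mu W)) z 0 * lap h.1 z := by
  have hlc : ContinuousOn (lap h.1) (FF W) := by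
    intro z hz
    have hs := h.2.contDiffAt hW.out hz
    have h1 := (ContDiffAt.dx (ContDiffAt.dx hs)).continuousAt
    have h2 := (ContDiffAt.dy (ContDiffAt.dy hs)).continuousAt
    exact (h1.add h2).continuousWithinAt
  have hL : MemLp (lap h.1) 2 (mu W) := by
    obtain ⟨C, hC⟩ := (isCompact_FF W).exists_bound_of_continuousOn hlc
    refine MemLp.of_bound (hlc.aestronglyMeasurable (measurableSet_FF W)) C ?_
    exact (ae_restrict_iff' (measurableSet_FF W)).2 (Eventually.of_forall hC)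
  have hlin : ∀ u : HV W, ∫ z in FF W, (u : Lp E3 2 (mu W)) z 0 * lap h.1 z = lin W (lap h.1) hL u := by
    intro u
    rw [lin_apply]
    apply integral_congr_ae
    exact Eventually.of_forall fun z => mul_comm _ _
  rw [hlin]
  have hcl : IsClosed {u : HV W | eform W u (J W h) = -lin W (lap h.1) hL u} := by
    apply isClosed_eq
    · exact continuous_eform.comp (continuous_id.prodMk continuous_const)
    · exact (lin W (lap h.1) hL).continuous.neg
  refine HV.closure_induction (P := fun u => eform W u (J W h) = -lin W (lap h.1) hL u) hcl ?_ u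
  intro v
  rw [eform_J, lin_J]
  have hcore := IBP2_core h v hz
  have hcv : ∀ z ∈ FF W, ContDiffAt ℝ ∞ v.1 z := fun z hz => v.2.contDiffAt hW.out hz
  have hch : ∀ z ∈ FF W, ContDiffAt ℝ ∞ h.1 z := fun z hz => h.2.contDiffAt hW.out hz
  have i1 : IntegrableOn (fun z => dx v.1 z * dx h.1 z + dy v.1 z * dy h.1 z) (FF W) := by
    apply ContinuousOn.integrableOn_compact (isCompact_FF W)
    intro z hz
    exact (((ContDiffAt.dx (hcv z hz)).continuousAt.mul (ContDiffAt.dx (hch z hz)).continuousAt).add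
      ((ContDiffAt.dy (hcv z hz)).continuousAt.mul
        (ContDiffAt.dy (hch z hz)).continuousAt)).continuousWithinAt
  have i2 : IntegrableOn (fun z => v.1 z * lap h.1 z) (FF W) := by
    apply ContinuousOn.integrableOn_compact (isCompact_FF W)
    exact ContinuousOn.mul (fun z hz => (hcv z hz).continuousAt.continuousWithinAt) hlc
  rw [integral_add i1 i2] at hcore
  have e : ∫ z in FF W, lap h.1 z * v.1 z = ∫ z in FF W, v.1 z * lap h.1 z := by
    apply integral_congr_ae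
    exact Eventually.of_forall fun z => mul_comm _ _
  rw [e]
  linarith

end

end Pool.Agent.EQ.SP

end

/-! ## Lib_helper98.EQSF.PART -/

section

/-! Block PART. -/

set_option autoImplicit false

namespace Pool.Agent.EQ.SP

open MeasureTheory Filter Topology Set Pool.Agent.EQ
open scoped ContDiff

noncomputable section

variable {W : ℕ} [hW : Fact (8 ≤ W)]

theorem PART_sep {p q : ℤ × ℤ} (h : p ≠ q) : 8 ≤ ‖lat W p - lat W q‖ := by
  have hW' : (8:ℝ) ≤ W := by exact_mod_cast hW.out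
  have hre := Complex.abs_re_le_norm (lat W p - lat W q)
  have him := Complex.abs_im_le_norm (lat W p - lat W q)
  have e1 : (lat W p - lat W q).re = 8 * ((p.1 - q.1 : ℤ) : ℝ) := by simp [lat]; ring
  have e2 : (lat W p - lat W q).im = W * ((p.2 - q.2 : ℤ) : ℝ) := by simp [lat]; ring
  rw [e1, abs_mul] at hre
  rw [e2, abs_mul] at him
  by_cases h1 : p.1 = q.1
  · have h2 : p.2 ≠ q.2 := fun h2 => h (Prod.ext h1 h2)
    have h3 : (1:ℤ) ≤ |p.2 - q.2| := Int.one_le_abs (sub_ne_zero.2 h2)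
    have h4 : (1:ℝ) ≤ |((p.2 - q.2 : ℤ) : ℝ)| := by exact_mod_cast h3
    have h5 : (8:ℝ) ≤ |(W:ℝ)| := hW'.trans (le_abs_self _)
    have h6 : (8:ℝ) * 1 ≤ |(W:ℝ)| * |((p.2 - q.2 : ℤ) : ℝ)| :=
      mul_le_mul h5 h4 (by norm_num) (abs_nonneg _)
    linarith
  · have h3 : (1:ℤ) ≤ |p.1 - q.1| := Int.one_le_abs (sub_ne_zero.2 h1)
    have h4 : (1:ℝ) ≤ |((p.1 - q.1 : ℤ) : ℝ)| := by exact_mod_cast h3
    have h5 : |(8:ℝ)| = 8 := by norm_num
    rw [h5] at hre
    linarith

theorem PART_bd {p : ℤ × ℤ} {M : ℝ} (h : ‖lat W p‖ ≤ M) :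
    |(p.1 : ℝ)| ≤ M ∧ |(p.2 : ℝ)| ≤ M := by
  have hW' : (8:ℝ) ≤ W := by exact_mod_cast hW.out
  have hre := (Complex.abs_re_le_norm (lat W p)).trans h
  have him := (Complex.abs_im_le_norm (lat W p)).trans h
  have e1 : (lat W p).re = 8 * (p.1 : ℝ) := rfl
  have e2 : (lat W p).im = W * (p.2 : ℝ) := rfl
  rw [e1, abs_mul] at hre
  rw [e2, abs_mul] at him
  have a1 := abs_nonneg (p.1 : ℝ)
  have a2 := abs_nonneg (p.2 : ℝ)
  have h5 : |(8:ℝ)| = 8 := by norm_num
  have h6 : (8:ℝ) ≤ |(W:ℝ)| := hW'.trans (le_abs_self _)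
  rw [h5] at hre
  constructor
  · linarith
  · nlinarith

/-- B15 PART: decomposition of a test function. -/
theorem partition {η : ℂ → ℝ} {r : ℝ} (hr : 1/2 ≤ r) (hr1 : r < 1) (hη : IsTest (UU W r) η) :
    ∃ (S : Finset (ℤ × ℤ)) (η0 : ℂ → ℝ) (η1 : ℤ × ℤ → ℂ → ℝ),
      IsTest (UU W 1) η0 ∧ (∀ p, IsTest {z | z - lat W p ∈ AA r} (η1 p)) ∧
      ∀ z, η z = η0 z + ∑ p ∈ S, η1 p z := by
  obtain ⟨hs, hc, ht⟩ := hη
  have hr0 : 0 < r := by linarith
  have hinv : 1 < r⁻¹ := (one_lt_inv₀ hr0).2 hr1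
  have hinv2 : r⁻¹ ≤ 2 := by
    rw [inv_le_comm₀ hr0 (by norm_num)]
    linarith
  obtain ⟨R1, hR1, hR1'⟩ := exists_between hinv
  obtain ⟨R2, hR2, hR2'⟩ := exists_between hR1'
  have hR10 : 0 < R1 := by linarith
  let b : ContDiffBump (0:ℂ) := ⟨R1, R2, hR10, hR2⟩
  have hb1 : ∀ z : ℂ, ‖z‖ ≤ R1 → b z = 1 := fun z hz =>
    b.one_of_mem_closedBall (by rw [mem_closedBall_zero_iff]; exact hz)
  have hb0 : ∀ z : ℂ, R2 ≤ ‖z‖ → b z = 0 := fun z hz =>
    b.zero_of_le_dist (by rw [dist_zero_right]; exact hz)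
  have hbs : ∀ p : ℤ × ℤ, ContDiff ℝ ∞ (fun z : ℂ => b (z - lat W p)) := fun p =>
    b.contDiff.comp (contDiff_id.sub contDiff_const)
  -- the finite set of lattice points
  obtain ⟨M, hM⟩ := hc.isCompact.isBounded.exists_norm_le
  set S : Finset (ℤ × ℤ) := Finset.Icc (-(⌈M + 2⌉)) ⌈M + 2⌉ ×ˢ Finset.Icc (-(⌈M + 2⌉)) ⌈M + 2⌉
    with hS
  have hmem : ∀ (z : ℂ) (p : ℤ × ℤ), η z ≠ 0 → ‖z - lat W p‖ < R2 → p ∈ S := by
    intro z p hz hp
    have h1 : ‖z‖ ≤ M := hM z (subset_tsupport _ hz)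
    have h2 : ‖lat W p‖ ≤ M + 2 := by
      have e : lat W p = z - (z - lat W p) := by ring
      rw [e]
      refine (norm_sub_le _ _).trans ?_
      linarith
    obtain ⟨h3, h4⟩ := PART_bd h2
    have h5 : M + 2 ≤ (⌈M + 2⌉ : ℝ) := Int.le_ceil _
    rw [abs_le] at h3 h4
    rw [hS, Finset.mem_product, Finset.mem_Icc, Finset.mem_Icc]
    refine ⟨⟨?_, ?_⟩, ?_, ?_⟩
    · have : (-(⌈M + 2⌉ : ℝ)) ≤ p.1 := by linarith
      exact_mod_cast this
    · have : (p.1 : ℝ) ≤ (⌈M + 2⌉ : ℝ) := by linarith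
      exact_mod_cast this
    · have : (-(⌈M + 2⌉ : ℝ)) ≤ p.2 := by linarith
      exact_mod_cast this
    · have : (p.2 : ℝ) ≤ (⌈M + 2⌉ : ℝ) := by linarith
      exact_mod_cast this
  refine ⟨S, fun z => η z * (1 - ∑ p ∈ S, b (z - lat W p)), fun p z => η z * b (z - lat W p),
    ⟨?_, ?_, ?_⟩, fun p => ⟨hs.mul (hbs p), ?_, ?_⟩, fun z => ?_⟩
  · exact hs.mul (contDiff_const.sub (ContDiff.sum fun p _ => hbs p))
  · exact hc.mul_right
  · -- support of the first part
    have hz0 : ∀ z : ℂ, Metric.infDist z (range (lat W)) < R1 →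
        η z * (1 - ∑ p ∈ S, b (z - lat W p)) = 0 := by
      intro z hz
      obtain ⟨_, ⟨p0, rfl⟩, hp0⟩ := (Metric.infDist_lt_iff (range_nonempty _)).1 hz
      rw [dist_eq_norm] at hp0
      by_cases hηz : η z = 0
      · rw [hηz, zero_mul]
      · have hp0S : p0 ∈ S := hmem z p0 hηz (by linarith)
        have hsum : ∑ p ∈ S, b (z - lat W p) = 1 := by
          rw [Finset.sum_eq_single_of_mem p0 hp0S, hb1 _ hp0.le]
          intro p _ hp
          apply hb0
          have h1 := PART_sep (W := W) hp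
          have h2 : ‖lat W p - lat W p0‖ ≤ ‖z - lat W p0‖ + ‖z - lat W p‖ := by
            have e : lat W p - lat W p0 = (z - lat W p0) - (z - lat W p) := by ring
            rw [e]
            exact norm_sub_le _ _
          linarith
        rw [hsum]
        ring
    have hcl : IsClosed {z : ℂ | R1 ≤ Metric.infDist z (range (lat W))} :=
      isClosed_le continuous_const (Metric.continuous_infDist_pt _)
    have hsub : Function.support (fun z => η z * (1 - ∑ p ∈ S, b (z - lat W p))) ⊆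
        {z : ℂ | R1 ≤ Metric.infDist z (range (lat W))} := by
      intro z hz
      by_contra hcon
      exact hz (hz0 z (not_le.1 hcon))
    intro z hz
    have h1 : R1 ≤ Metric.infDist z (range (lat W)) := closure_minimal hsub hcl hz
    show 1 < Metric.infDist z (range (lat W))
    linarith
  · exact hc.mul_right
  · intro z hz
    have h1 : z ∈ tsupport η := tsupport_mul_subset_left hz
    have h2 := lt_of_mem_UU (ht h1) p
    have hcl : IsClosed {z : ℂ | ‖z - lat W p‖ ≤ R2} :=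
      isClosed_le (by fun_prop) continuous_const
    have hsub : Function.support (fun z => η z * b (z - lat W p)) ⊆
        {z : ℂ | ‖z - lat W p‖ ≤ R2} := by
      intro w hw
      by_contra hcon
      apply hw
      show η w * b (w - lat W p) = 0
      rw [hb0 _ (not_le.1 hcon).le, mul_zero]
    have h3 : ‖z - lat W p‖ ≤ R2 := closure_minimal hsub hcl hz
    exact ⟨h2, lt_of_le_of_lt h3 hR2'⟩
  · show η z = η z * (1 - ∑ p ∈ S, b (z - lat W p)) + ∑ p ∈ S, η z * b (z - lat W p)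
    rw [← Finset.mul_sum]
    ring

end

end Pool.Agent.EQ.SP

end

/-! ## Lib_helper98.EQSF.LOC -/

section

/-! Project EQ, package S2, block LOC: the folded function is locally square integrable. -/

set_option autoImplicit false

namespace Pool.Agent.EQ.SP

open MeasureTheory Filter Topology Set Pool.Agent.EQ
open scoped ContDiff

noncomputable section

variable {W : ℕ} [hW : Fact (8 ≤ W)]

theorem LOC_lat_neg (W : ℕ) (p : ℤ × ℤ) : lat W (-p) = -lat W p := by
  apply Complex.ext <;> simp [lat]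

omit hW in
theorem LOC_sq {g : ℂ → ℝ} (hg : MemLp g 2 (mu W)) :
    IntegrableOn (fun z => g z ^ 2) (FF W) := hg.integrable_sq

theorem LOC_ring {g : ℂ → ℝ} (hgm : Measurable g) (hg : MemLp g 2 (mu W))
    {r : ℝ} (hr : 1/2 ≤ r) (hr1 : r < 1) :
    IntegrableOn (fun z => g (fold W z) ^ 2) {z : ℂ | r < ‖z‖ ∧ ‖z‖ < 1} := by
  have hr0 : 0 < r := by linarith
  obtain ⟨-, -, h3, -, h5⟩ := fold_symm (W := W)
  have hW8 : (8:ℝ) ≤ W := by exact_mod_cast hW.out
  have hri : r⁻¹ ≤ 2 := by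
    rw [inv_le_comm₀ hr0 (by norm_num)]; linarith
  rw [integrableOn_inv1 _ hr0 hr1]
  have hms : MeasurableSet {w : ℂ | 1 < ‖w‖ ∧ ‖w‖ < r⁻¹} :=
    ((isOpen_lt continuous_const continuous_norm).inter
      (isOpen_lt continuous_norm continuous_const)).measurableSet
  have hbox : ∀ w : ℂ, ‖w‖ < 2 → 1 ≤ ‖w‖ → w ∈ FF W ∧ w.re < 4 ∧ w.im < W - 4 := by
    intro w hw hw1
    have a := abs_lt.1 (lt_of_le_of_lt (Complex.abs_re_le_norm w) hw)
    have b := abs_lt.1 (lt_of_le_of_lt (Complex.abs_im_le_norm w) hw)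
    exact ⟨⟨⟨by linarith [a.1], by linarith [a.2], by linarith [b.1], by linarith [b.2]⟩, hw1⟩,
      by linarith [a.2], by linarith [b.2]⟩
  have hsub : {w : ℂ | 1 < ‖w‖ ∧ ‖w‖ < r⁻¹} ⊆ FF W := fun w hw =>
    (hbox w (lt_of_lt_of_le hw.2 hri) hw.1.le).1
  have hI : IntegrableOn (fun w => (‖w‖ ^ 4)⁻¹ * g w ^ 2) {w : ℂ | 1 < ‖w‖ ∧ ‖w‖ < r⁻¹} := by
    refine Integrable.mono' ((LOC_sq hg).mono_set hsub) ?_ ?_
    · exact ((((measurable_norm.pow_const 4)).inv).mul (hgm.pow_const 2)).aestronglyMeasurable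
    · rw [ae_restrict_iff' hms]
      refine Eventually.of_forall fun w hw => ?_
      have h1 : (‖w‖ ^ 4)⁻¹ ≤ 1 := inv_le_one_of_one_le₀ (one_le_pow₀ hw.1.le)
      rw [Real.norm_eq_abs, abs_of_nonneg (by positivity)]
      exact mul_le_of_le_one_left (sq_nonneg _) h1
  refine hI.congr_fun (fun w hw => ?_) hms
  have hw2 : ‖w‖ < 2 := lt_of_lt_of_le hw.2 hri
  obtain ⟨a, b, c⟩ := hbox w hw2 hw.1.le
  show _ = (‖w‖ ^ 4)⁻¹ * g (fold W (inv1 w)) ^ 2
  rw [h3 w (by linarith [hw.1]) hw2, h5 w a b c]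

/-- the half open box without the disc of radius `r` -/
def LOC_A (W : ℕ) (r : ℝ) : Set ℂ :=
  {z | -4 ≤ z.re ∧ z.re < 4 ∧ -4 ≤ z.im ∧ z.im < W - 4 ∧ r < ‖z‖}

theorem LOC_base {g : ℂ → ℝ} (hgm : Measurable g) (hg : MemLp g 2 (mu W))
    {r : ℝ} (hr : 1/2 ≤ r) (hr1 : r < 1) :
    IntegrableOn (fun z => g (fold W z) ^ 2) (LOC_A W r) := by
  obtain ⟨-, -, -, -, h5⟩ := fold_symm (W := W)
  have h1 := LOC_ring hgm hg hr hr1
  have hm2 : MeasurableSet {z : ℂ | -4 ≤ z.re ∧ z.re < 4 ∧ -4 ≤ z.im ∧ z.im < W - 4 ∧ 1 ≤ ‖z‖} := by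
    have m1 : MeasurableSet {z : ℂ | -4 ≤ z.re} :=
      (isClosed_le continuous_const Complex.continuous_re).measurableSet
    have m2 : MeasurableSet {z : ℂ | z.re < 4} :=
      (isOpen_lt Complex.continuous_re continuous_const).measurableSet
    have m3 : MeasurableSet {z : ℂ | -4 ≤ z.im} :=
      (isClosed_le continuous_const Complex.continuous_im).measurableSet
    have m4 : MeasurableSet {z : ℂ | z.im < W - 4} :=
      (isOpen_lt Complex.continuous_im continuous_const).measurableSet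
    have m5 : MeasurableSet {z : ℂ | 1 ≤ ‖z‖} :=
      (isClosed_le continuous_const continuous_norm).measurableSet
    exact m1.inter (m2.inter (m3.inter (m4.inter m5)))
  have h2 : IntegrableOn (fun z => g (fold W z) ^ 2)
      {z : ℂ | -4 ≤ z.re ∧ z.re < 4 ∧ -4 ≤ z.im ∧ z.im < W - 4 ∧ 1 ≤ ‖z‖} := by
    have hs : {z : ℂ | -4 ≤ z.re ∧ z.re < 4 ∧ -4 ≤ z.im ∧ z.im < W - 4 ∧ 1 ≤ ‖z‖} ⊆ FF W :=
      fun z hz => ⟨⟨hz.1, hz.2.1.le, hz.2.2.1, hz.2.2.2.1.le⟩, hz.2.2.2.2⟩
    refine ((LOC_sq hg).mono_set hs).congr_fun (fun z hz => ?_) hm2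
    show g z ^ 2 = g (fold W z) ^ 2
    rw [h5 z (hs hz) hz.2.1 hz.2.2.2.1]
  refine (h1.union h2).mono_set ?_
  rintro z ⟨a, b, c, d, e⟩
  rcases lt_or_ge ‖z‖ 1 with h | h
  · exact Or.inl ⟨e, h⟩
  · exact Or.inr ⟨a, b, c, d, h⟩

/-- B16 LOC: the folded function is locally square integrable on `UU W r`. -/
theorem fold_locL2 {g : ℂ → ℝ} (hgm : Measurable g) (hg : MemLp g 2 (mu W))
    {r : ℝ} (hr : 1/2 ≤ r) (hr1 : r < 1) {K : Set ℂ} (hK : IsCompact K) (hKU : K ⊆ UU W r) :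
    IntegrableOn (fun z => g (fold W z) ^ 2) K := by
  obtain ⟨-, hper, -, -, -⟩ := fold_symm (W := W)
  have hW8 : (8:ℝ) ≤ W := by exact_mod_cast hW.out
  obtain ⟨R, hR⟩ := hK.isBounded.exists_norm_le
  set M : ℤ := ⌈|R|⌉ + 5 with hM
  have hMR : |R| + 5 ≤ (M : ℝ) := by
    rw [hM]; push_cast
    linarith [Int.le_ceil |R|]
  have htr : ∀ p : ℤ × ℤ, IntegrableOn (fun z => g (fold W z) ^ 2)
      ((fun z => z + lat W (-p)) ⁻¹' (LOC_A W r)) := by
    intro p
    have h := (measurePreserving_add_right (volume : Measure ℂ) (lat W (-p)))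
    have h2 := (h.integrableOn_comp_preimage
      (MeasurableEquiv.addRight (lat W (-p))).measurableEmbedding
      (f := fun z => g (fold W z) ^ 2) (s := LOC_A W r)).2 (LOC_base hgm hg hr hr1)
    refine h2.congr (Eventually.of_forall fun z => ?_)
    show g (fold W (z + lat W (-p))) ^ 2 = g (fold W z) ^ 2
    rw [hper]
  have hfin : IntegrableOn (fun z => g (fold W z) ^ 2)
      (⋃ p ∈ Finset.Icc (-M) M ×ˢ Finset.Icc (-M) M,
        ((fun z => z + lat W (-p)) ⁻¹' (LOC_A W r))) := by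
    rw [integrableOn_finset_iUnion]
    exact fun p _ => htr p
  refine hfin.mono_set ?_
  intro z hz
  have hzn := hR z hz
  have hRz : ‖z‖ ≤ |R| := hzn.trans (le_abs_self R)
  have hre := abs_le.1 ((Complex.abs_re_le_norm z).trans hRz)
  have him := abs_le.1 ((Complex.abs_im_le_norm z).trans hRz)
  have hWp : (0:ℝ) < W := by linarith
  have hR0 : 0 ≤ |R| := abs_nonneg R
  set m : ℤ := ⌊(z.re + 4) / 8⌋ with hm
  set n : ℤ := ⌊(z.im + 4) / W⌋ with hn
  have m1 : (m:ℝ) ≤ (z.re + 4) / 8 := Int.floor_le _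
  have m2 : (z.re + 4) / 8 < m + 1 := Int.lt_floor_add_one _
  have n1 : (n:ℝ) ≤ (z.im + 4) / W := Int.floor_le _
  have n2 : (z.im + 4) / W < n + 1 := Int.lt_floor_add_one _
  rw [le_div_iff₀ (by norm_num)] at m1
  rw [div_lt_iff₀ (by norm_num)] at m2
  rw [le_div_iff₀ hWp] at n1
  rw [div_lt_iff₀ hWp] at n2
  have key : ∀ k : ℤ, (k:ℝ) * 8 ≤ |R| + 4 → -(|R|) + 4 < (k + 1) * 8 → -M ≤ k ∧ k ≤ M := by
    intro k h1 h2
    constructor
    · have : (-(M:ℝ)) ≤ k := by nlinarith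
      exact_mod_cast this
    · have : (k:ℝ) ≤ M := by nlinarith
      exact_mod_cast this
  have km : -M ≤ m ∧ m ≤ M := key m (by linarith [hre.2]) (by linarith [hre.1])
  have kn : -M ≤ n ∧ n ≤ M := by
    constructor
    · have : (-(M:ℝ)) ≤ n := by
        by_contra hcon
        push Not at hcon
        have h3 : (n:ℝ) + 1 < 0 := by linarith
        have h4 : ((n:ℝ) + 1) * W ≤ (n + 1) * 8 := by nlinarith
        linarith [him.1]
      exact_mod_cast this
    · have : (n:ℝ) ≤ M := by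
        by_contra hcon
        push Not at hcon
        have h3 : (0:ℝ) < n := by linarith
        have h4 : (n:ℝ) * 8 ≤ n * W := by nlinarith
        linarith [him.2]
      exact_mod_cast this
  simp only [mem_iUnion]
  refine ⟨(m, n), ?_, ?_⟩
  · rw [Finset.mem_product, Finset.mem_Icc, Finset.mem_Icc]
    exact ⟨km, kn⟩
  · have hU := lt_of_mem_UU (hKU hz) (m, n)
    have e : z + lat W (-(m, n)) = z - lat W (m, n) := by rw [LOC_lat_neg, sub_eq_add_neg]
    have e1 : (z - lat W (m, n)).re = z.re - 8 * m := by simp [lat]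
    have e2 : (z - lat W (m, n)).im = z.im - W * n := by simp [lat]
    show z + lat W (-(m, n)) ∈ LOC_A W r
    rw [e]
    refine ⟨?_, ?_, ?_, ?_, hU⟩
    · rw [e1]; linarith
    · rw [e1]; linarith
    · rw [e2]; linarith
    · rw [e2]; linarith

end

end Pool.Agent.EQ.SP

end

/-! ## Lib_helper98.EQSF.PER -/

section

set_option autoImplicit false

namespace Pool.Agent.EQ.SP

open MeasureTheory Filter Topology Set Pool.Agent.EQ
open scoped ContDiff

noncomputable section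

variable {W : ℕ} [hW : Fact (8 ≤ W)]

omit hW in
theorem PER_infDist_add (z : ℂ) (p : ℤ × ℤ) :
    Metric.infDist (z + lat W p) (range (lat W)) ≤ Metric.infDist z (range (lat W)) := by
  rw [Metric.le_infDist (range_nonempty _)] 
  rintro _ ⟨q, rfl⟩
  have h : Metric.infDist (z + lat W p) (range (lat W)) ≤ dist (z + lat W p) (lat W (q + p)) :=
    Metric.infDist_le_dist_of_mem (mem_range_self _)
  refine h.trans (le_of_eq ?_)
  rw [dist_eq_norm, dist_eq_norm]
  congr 1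
  apply Complex.ext <;> simp [lat] <;> ring

theorem periodise {η : ℂ → ℝ} (hη : IsTest (UU W 1) η) :
    ∃ h : coreSub W, Van W h.1 ∧
      (∀ z, h.1 z = ∑' p : ℤ × ℤ, η (z + lat W p)) ∧
      (∀ z, lap h.1 z = ∑' p : ℤ × ℤ, lap η (z + lat W p)) := by
  obtain ⟨hs, hc, hsub⟩ := hη
  obtain ⟨h1, h2, h3, h4, h5⟩ := periodise_smooth (W := W) hs hc
  -- a margin
  have hmargin : ∃ δ > (0:ℝ), ∀ z ∈ tsupport η, 1 + δ < Metric.infDist z (range (lat W)) := by
    rcases (tsupport η).eq_empty_or_nonempty with he | hne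
    · exact ⟨1, one_pos, by simp [he]⟩
    · obtain ⟨z0, hz0, hmin⟩ := hc.exists_isMinOn hne
        (Metric.continuous_infDist_pt (range (lat W))).continuousOn
      have h0 : 1 < Metric.infDist z0 (range (lat W)) := hsub hz0
      refine ⟨(Metric.infDist z0 (range (lat W)) - 1) / 2, by linarith, fun z hz => ?_⟩
      have := hmin hz
      simp only [mem_setOf_eq] at this
      linarith
  obtain ⟨δ, hδ, hδ2⟩ := hmargin
  have hzero : ∀ z, Metric.infDist z (range (lat W)) ≤ 1 + δ →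
      ∑' p : ℤ × ℤ, η (z + lat W p) = 0 := by
    intro z hz
    have : ∀ p : ℤ × ℤ, η (z + lat W p) = 0 := by
      intro p
      by_contra hne
      have hmem : z + lat W p ∈ tsupport η := subset_tsupport _ hne
      have h6 := hδ2 _ hmem
      have h7 := PER_infDist_add (W := W) z p
      linarith
    simp [this]
  have h0mem : (0:ℂ) ∈ range (lat W) := ⟨(0, 0), by apply Complex.ext <;> simp [lat]⟩
  have hinf : ∀ z : ℂ, Metric.infDist z (range (lat W)) ≤ ‖z‖ := by
    intro z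
    have := Metric.infDist_le_dist_of_mem (x := z) h0mem
    rwa [dist_zero_right] at this
  refine ⟨⟨fun z => ∑' p : ℤ × ℤ, η (z + lat W p), ?_, (1 + δ)⁻¹, by positivity, ?_,
    h1.contDiffOn, ?_⟩, ⟨δ, hδ, hzero⟩, fun z => rfl, h3⟩
  · intro p z
    exact h2 p z
  · exact inv_lt_one_of_one_lt₀ (by linarith)
  · intro z hz1 hz2
    rw [inv_inv] at hz2
    have hz0 : 0 < ‖z‖ := lt_trans (by positivity) hz1
    have e1 : ‖inv1 z‖ ≤ 1 + δ := by
      unfold inv1
      rw [norm_inv, RCLike.norm_conj]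
      exact (inv_lt_of_inv_lt₀ (by positivity) hz1).le
    show ∑' p : ℤ × ℤ, η (inv1 z + lat W p) = ∑' p : ℤ × ℤ, η (z + lat W p)
    rw [hzero z ((hinf z).trans hz2.le), hzero _ ((hinf _).trans e1)]

end

end Pool.Agent.EQ.SP

end

/-! ## Lib_helper98.EQSF.UNF -/

section

/-! Project EQ, package S2, block UNF (helper29). -/

set_option autoImplicit false

namespace Pool.Agent.EQ.SP

open MeasureTheory Filter Topology Set Pool.Agent.EQ
open scoped ContDiff

noncomputable section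

variable {W : ℕ} [hW : Fact (8 ≤ W)]

/-- the half open box -/
def UNF_B (W : ℕ) : Set ℂ := {z | -4 ≤ z.re ∧ z.re < 4 ∧ -4 ≤ z.im ∧ z.im < W - 4}

omit hW in
theorem UNF_meas : MeasurableSet (UNF_B W) := by
  have h1 : MeasurableSet {z : ℂ | -4 ≤ z.re} :=
    measurableSet_le measurable_const Complex.measurable_re
  have h2 : MeasurableSet {z : ℂ | z.re < 4} :=
    measurableSet_lt Complex.measurable_re measurable_const
  have h3 : MeasurableSet {z : ℂ | -4 ≤ z.im} :=
    measurableSet_le measurable_const Complex.measurable_im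
  have h4 : MeasurableSet {z : ℂ | z.im < (W : ℝ) - 4} :=
    measurableSet_lt Complex.measurable_im measurable_const
  exact h1.inter (h2.inter (h3.inter h4))

theorem UNF_re_null (c : ℝ) : volume {z : ℂ | z.re = c} = 0 := by
  have h := Complex.volume_preserving_equiv_real_prod.measure_preimage_equiv ({c} ×ˢ univ)
  have h2 : (Complex.measurableEquivRealProd ⁻¹' ({c} ×ˢ univ)) = {z : ℂ | z.re = c} := by
    ext z
    simp [Complex.measurableEquivRealProd]
  rw [h2] at h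
  rw [h, Measure.volume_eq_prod, Measure.prod_prod]
  simp

theorem UNF_im_null (c : ℝ) : volume {z : ℂ | z.im = c} = 0 := by
  have h := Complex.volume_preserving_equiv_real_prod.measure_preimage_equiv (univ ×ˢ {c})
  have h2 : (Complex.measurableEquivRealProd ⁻¹' (univ ×ˢ {c})) = {z : ℂ | z.im = c} := by
    ext z
    simp [Complex.measurableEquivRealProd]
  rw [h2] at h
  rw [h, Measure.volume_eq_prod, Measure.prod_prod]
  simp

omit hW in
theorem UNF_ae : UNF_B W =ᵐ[volume] box W := by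
  have hsub : UNF_B W ⊆ box W := fun z hz => ⟨hz.1, hz.2.1.le, hz.2.2.1, hz.2.2.2.le⟩
  have hnull : volume ({z : ℂ | z.re = 4} ∪ {z : ℂ | z.im = (W : ℝ) - 4}) = 0 :=
    measure_union_null (UNF_re_null 4) (UNF_im_null _)
  have hae : ∀ᵐ z : ℂ, z ∉ ({z : ℂ | z.re = 4} ∪ {z : ℂ | z.im = (W : ℝ) - 4}) :=
    measure_eq_zero_iff_ae_notMem.1 hnull
  filter_upwards [hae] with z hz
  apply propext
  constructor
  · exact fun h => hsub h
  · intro h
    refine ⟨h.1, lt_of_le_of_ne h.2.1 fun h1 => hz (Or.inl h1), h.2.2.1,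
      lt_of_le_of_ne h.2.2.2 fun h1 => hz (Or.inr h1)⟩

theorem UNF_disj (p q : ℤ × ℤ) (z : ℂ) (hp : z - lat W p ∈ UNF_B W)
    (hq : z - lat W q ∈ UNF_B W) : p = q := by
  have hW' : (8 : ℝ) ≤ W := by exact_mod_cast hW.out
  obtain ⟨h1, h2, h3, h4⟩ := hp
  obtain ⟨k1, k2, k3, k4⟩ := hq
  have e1 : (z - lat W p).re = z.re - 8 * p.1 := by simp [lat]
  have e2 : (z - lat W p).im = z.im - W * p.2 := by simp [lat]
  have e3 : (z - lat W q).re = z.re - 8 * q.1 := by simp [lat]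
  have e4 : (z - lat W q).im = z.im - W * q.2 := by simp [lat]
  rw [e1] at h1 h2
  rw [e2] at h3 h4
  rw [e3] at k1 k2
  rw [e4] at k3 k4
  refine Prod.ext ?_ ?_
  · have a1 : ((p.1 - q.1 : ℤ) : ℝ) < 1 := by push_cast; linarith
    have a2 : ((q.1 - p.1 : ℤ) : ℝ) < 1 := by push_cast; linarith
    have b1 : p.1 - q.1 < 1 := by exact_mod_cast a1
    have b2 : q.1 - p.1 < 1 := by exact_mod_cast a2
    omega
  · have hWpos : (0 : ℝ) < W := by linarith
    have a1 : (W : ℝ) * ((p.2 - q.2 : ℤ) : ℝ) < W * 1 := by push_cast; linarith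
    have a2 : (W : ℝ) * ((q.2 - p.2 : ℤ) : ℝ) < W * 1 := by push_cast; linarith
    have a3 := lt_of_mul_lt_mul_left a1 hWpos.le
    have a4 := lt_of_mul_lt_mul_left a2 hWpos.le
    have b1 : p.2 - q.2 < 1 := by exact_mod_cast a3
    have b2 : q.2 - p.2 < 1 := by exact_mod_cast a4
    omega

theorem UNF_cover (z : ℂ) : ∃ p : ℤ × ℤ, z - lat W p ∈ UNF_B W := by
  have hW' : (8 : ℝ) ≤ W := by exact_mod_cast hW.out
  have hWpos : (0 : ℝ) < W := by linarith
  refine ⟨(⌊(z.re + 4) / 8⌋, ⌊(z.im + 4) / W⌋), ?_⟩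
  have h1 := Int.floor_le ((z.re + 4) / 8)
  have h2 := Int.lt_floor_add_one ((z.re + 4) / 8)
  have h3 := Int.floor_le ((z.im + 4) / W)
  have h4 := Int.lt_floor_add_one ((z.im + 4) / W)
  rw [le_div_iff₀ (by norm_num)] at h1
  rw [div_lt_iff₀ (by norm_num)] at h2
  rw [le_div_iff₀ hWpos] at h3
  rw [div_lt_iff₀ hWpos] at h4
  have e1 : (z - lat W (⌊(z.re + 4) / 8⌋, ⌊(z.im + 4) / W⌋)).re =
    z.re - 8 * ⌊(z.re + 4) / 8⌋ := by simp [lat]
  have e2 : (z - lat W (⌊(z.re + 4) / 8⌋, ⌊(z.im + 4) / W⌋)).im =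
    z.im - W * ⌊(z.im + 4) / W⌋ := by simp [lat]
  refine ⟨?_, ?_, ?_, ?_⟩
  · rw [e1]; linarith
  · rw [e1]; linarith
  · rw [e2]; linarith
  · rw [e2]; linarith

theorem UNF_hasSum {Θ : ℂ → ℝ} (hm : Integrable Θ) :
    HasSum (fun p : ℤ × ℤ => ∫ z in UNF_B W, Θ (z + lat W p)) (∫ z, Θ z) := by
  have hmeas : ∀ p : ℤ × ℤ, MeasurableSet {z : ℂ | z - lat W p ∈ UNF_B W} :=
    fun p => (measurable_id.sub_const _) UNF_meas
  have hunion : (⋃ p : ℤ × ℤ, {z : ℂ | z - lat W p ∈ UNF_B W}) = univ :=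
    eq_univ_of_forall fun z => mem_iUnion.2 (UNF_cover z)
  have h1 := hasSum_integral_iUnion (μ := volume) (f := Θ) hmeas (by
    intro p q hpq
    rw [Function.onFun, Set.disjoint_left]
    intro z hz1 hz2
    exact hpq (UNF_disj p q z hz1 hz2)) (hm.integrableOn)
  rw [hunion, setIntegral_univ] at h1
  have h2 : ∀ p : ℤ × ℤ, ∫ z in {z : ℂ | z - lat W p ∈ UNF_B W}, Θ z =
      ∫ z in UNF_B W, Θ (z + lat W p) := by
    intro p
    rw [← integral_indicator (hmeas p), ← integral_indicator UNF_meas,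
      ← integral_add_right_eq_self (μ := (volume : Measure ℂ)) _ (lat W p)]
    congr 1
    funext z
    have h3 : z + lat W p ∈ {z : ℂ | z - lat W p ∈ UNF_B W} ↔ z ∈ UNF_B W := by
      change z + lat W p - lat W p ∈ UNF_B W ↔ z ∈ UNF_B W
      rw [add_sub_cancel_right]
    by_cases hz : z ∈ UNF_B W
    · rw [indicator_of_mem (h3.2 hz), indicator_of_mem hz]
    · rw [indicator_of_notMem (fun h => hz (h3.1 h)), indicator_of_notMem hz]
  simpa only [h2] using h1

/-- B11 UNF: unfolding. -/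
theorem unfold_pr {Θ : ℂ → ℝ} (hm : Integrable Θ) :
    ∫ z, Θ z = ∫ z in box W, ∑' p : ℤ × ℤ, Θ (z + lat W p) := by
  have hs := UNF_hasSum (W := W) hm
  have hn := UNF_hasSum (W := W) hm.norm
  have hint : ∀ p : ℤ × ℤ, Integrable (fun z => Θ (z + lat W p))
      (volume.restrict (UNF_B W)) := fun p => (hm.comp_add_right (lat W p)).integrableOn
  have h3 := hasSum_integral_of_summable_integral_norm (μ := volume.restrict (UNF_B W))
    (F := fun (p : ℤ × ℤ) (z : ℂ) => Θ (z + lat W p)) hint hn.summable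
  have h4 := hs.unique h3
  rw [h4]
  exact setIntegral_congr_set UNF_ae

end

end Pool.Agent.EQ.SP

end

/-! ## Lib_helper98.EQSF.T1 -/

section

/-! Project EQ, package S2: block T1 (helper67).  Cites periodise, periodise_smooth, unfold,
fold_locL2, fold_symm, volume_FF_boundary of Wanted. -/

set_option autoImplicit false

namespace Pool.Agent.EQ.SP

open MeasureTheory Filter Topology Set Pool.Agent.EQ
open scoped ContDiff

noncomputable section

variable {W : ℕ} [hW : Fact (8 ≤ W)]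

omit hW in
theorem T1_lap_zero {f : ℂ → ℝ} {z : ℂ} (h0 : f =ᶠ[𝓝 z] fun _ => 0) : lap f z = 0 := by
  have h1 : dx f =ᶠ[𝓝 z] fun _ => 0 := by
    filter_upwards [h0.eventuallyEq_nhds] with y hy
    simp [EQ.dx, hy.fderiv_eq]
  have h2 : dy f =ᶠ[𝓝 z] fun _ => 0 := by
    filter_upwards [h0.eventuallyEq_nhds] with y hy
    simp [EQ.dy, hy.fderiv_eq]
  have h3 : fderiv ℝ (dx f) z = 0 := by
    rw [h1.fderiv_eq]
    simp
  have h4 : fderiv ℝ (dy f) z = 0 := by
    rw [h2.fderiv_eq]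
    simp
  show fderiv ℝ (dx f) z 1 + fderiv ℝ (dy f) z Complex.I = 0
  rw [h3, h4]
  simp

omit hW in
theorem T1_cont {f : ℂ → ℝ} (hf : ContDiff ℝ ∞ f) : Continuous (lap f) := by
  have h1 : ContDiff ℝ ∞ (dx f) := contDiff_iff_contDiffAt.2 fun z => ContDiffAt.dx hf.contDiffAt
  have h2 : ContDiff ℝ ∞ (dy f) := contDiff_iff_contDiffAt.2 fun z => ContDiffAt.dy hf.contDiffAt
  have h3 : ContDiff ℝ ∞ (dx (dx f)) :=
    contDiff_iff_contDiffAt.2 fun z => ContDiffAt.dx h1.contDiffAt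
  have h4 : ContDiff ℝ ∞ (dy (dy f)) :=
    contDiff_iff_contDiffAt.2 fun z => ContDiffAt.dy h2.contDiffAt
  exact h3.continuous.add h4.continuous

/-- B12 T1: the weak equation for test functions away from the closed unit discs. -/
theorem weak_one {g q : ℂ → ℝ} (hgm : Measurable g) (hg : MemLp g 2 (mu W))
    {r : ℝ} (hr : 0 < r) (hr1 : r < 1) (hqs : ContDiffOn ℝ ∞ q (UU W r))
    (hq : ∀ p z, q (z + lat W p) = q z)
    (hweak : ∀ h : coreSub W, Van W h.1 →
      ∫ z in FF W, g z * (lap h.1 z + q z * h.1 z) = 0)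
    {η : ℂ → ℝ} (hη : IsTest (UU W 1) η) :
    ∫ z, g (fold W z) * (lap η z + q z * η z) = 0 := by
  obtain ⟨hfm, hfp, -, -, hff⟩ := fold_symm (W := W)
  obtain ⟨hηs, hηc, hηU⟩ := hη
  obtain ⟨-, -, -, hfin1, hfin2⟩ := periodise_smooth (W := W) hηs hηc
  obtain ⟨h, hvan, hh, hlh⟩ := periodise (W := W) (η := η) ⟨hηs, hηc, hηU⟩
  set K := tsupport η with hK
  have hKc : IsCompact K := hηc
  have hKm : MeasurableSet K := hKc.isClosed.measurableSet
  -- integrability
  have hL2 : IntegrableOn (fun z => g (fold W z) ^ 2) K :=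
    fold_locL2 hgm hg (le_refl (1/2 : ℝ)) (by norm_num) hKc (hηU.trans (UU_anti (by norm_num)))
  have hgf : Measurable fun z => g (fold W z) := hgm.comp hfm
  have hfinK : IsFiniteMeasure (volume.restrict K) := ⟨by
    rw [Measure.restrict_apply_univ]
    exact hKc.measure_lt_top⟩
  have hL1 : IntegrableOn (fun z => g (fold W z)) K := by
    have : MemLp (fun z => g (fold W z)) 2 (volume.restrict K) :=
      (memLp_two_iff_integrable_sq hgf.aestronglyMeasurable).2 hL2
    exact this.integrable (by norm_num)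
  have hcK : ContinuousOn (fun z => lap η z + q z * η z) K :=
    (T1_cont hηs).continuousOn.add
      ((hqs.continuousOn.mono (hηU.trans (UU_anti hr1.le))).mul hηs.continuous.continuousOn)
  have hΘK : IntegrableOn (fun z => g (fold W z) * (lap η z + q z * η z)) K := by
    obtain ⟨C, hC⟩ := hKc.exists_bound_of_continuousOn hcK
    exact hL1.mul_bdd (c := C) (hcK.aestronglyMeasurable hKm)
      ((ae_restrict_iff' hKm).2 (Eventually.of_forall hC))
  have hΘ0 : ∀ z, z ∉ K → g (fold W z) * (lap η z + q z * η z) = 0 := by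
    intro z hz
    have h0 : η =ᶠ[𝓝 z] fun _ => 0 := notMem_tsupport_iff_eventuallyEq.1 hz
    rw [T1_lap_zero h0, h0.self_of_nhds]
    simp
  have hΘ : Integrable (fun z => g (fold W z) * (lap η z + q z * η z)) := by
    rw [← integrableOn_iff_integrable_of_support_subset (s := K)]
    · exact hΘK
    · intro z hz
      by_contra hcon
      exact hz (hΘ0 z hcon)
  rw [unfold_pr (W := W) hΘ]
  -- the sum
  have hsum : ∀ z, ∑' p : ℤ × ℤ, g (fold W (z + lat W p)) *
      (lap η (z + lat W p) + q (z + lat W p) * η (z + lat W p)) =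
      g (fold W z) * (lap h.1 z + q z * h.1 z) := by
    intro z
    have s1 : Summable fun p : ℤ × ℤ => lap η (z + lat W p) :=
      summable_of_hasFiniteSupport (hfin2 z)
    have s2 : Summable fun p : ℤ × ℤ => η (z + lat W p) :=
      summable_of_hasFiniteSupport (hfin1 z)
    rw [hh z, hlh z, ← tsum_mul_left, ← s1.tsum_add (s2.mul_left _), ← tsum_mul_left]
    refine tsum_congr fun p => ?_
    rw [hfp, hq]
  simp_rw [hsum]
  -- restrict to the region
  obtain ⟨δ, hδ, hv⟩ := hvan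
  have hbox : ∫ z in box W, g (fold W z) * (lap h.1 z + q z * h.1 z) =
      ∫ z in FF W, g (fold W z) * (lap h.1 z + q z * h.1 z) := by
    have hsub : FF W ⊆ box W := fun z hz => hz.1
    refine (setIntegral_eq_of_subset_of_forall_sdiff_eq_zero (isClosed_box W).measurableSet
      hsub ?_)
    rintro z ⟨hz1, hz2⟩
    have hz3 : ‖z‖ < 1 := by
      by_contra hcon
      exact hz2 ⟨hz1, not_lt.1 hcon⟩
    have h0 : h.1 =ᶠ[𝓝 z] fun _ => 0 := by
      have : ∀ᶠ y in 𝓝 z, Metric.infDist y (range (lat W)) < 1 + δ := by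
        refine (Metric.continuous_infDist_pt _).continuousAt.eventually_lt continuousAt_const ?_
        have h4 : Metric.infDist z (range (lat W)) ≤ dist z (lat W (0, 0)) :=
          Metric.infDist_le_dist_of_mem (mem_range_self _)
        have h5 : lat W (0, 0) = 0 := by
          apply Complex.ext <;> simp [lat]
        rw [h5, dist_zero_right] at h4
        linarith
      filter_upwards [this] with y hy using hv y hy.le
    rw [T1_lap_zero h0, h0.self_of_nhds]
    simp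
  rw [hbox, ← hweak h ⟨δ, hδ, hv⟩]
  apply setIntegral_congr_ae (measurableSet_FF W)
  have hnull := volume_FF_boundary W
  rw [measure_eq_zero_iff_ae_notMem] at hnull
  filter_upwards [hnull] with z hz hzF
  have hz' : (-4 < z.re ∧ z.re < 4) ∧ (-4 < z.im ∧ z.im < W - 4) ∧ 1 < ‖z‖ := by
    by_contra hcon
    exact hz ⟨hzF, hcon⟩
  rw [hff z hzF hz'.1.2 hz'.2.1.2]

end

end Pool.Agent.EQ.SP

end

/-! ## Lib_helper98.EQSF.REG -/

section

/-! block REG of package S2 (project EQ): eigenvectors are core functions. -/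
-- NEEDS: ibp_van ibp_near weak_one weak_two partition fold_locL2 fold_symm weak_regularity definite volume_FF_boundary contDiffAt_inv1

set_option autoImplicit false

namespace Pool.Agent.EQ.SP

open MeasureTheory Filter Topology Set Pool.Agent.EQ
open scoped ContDiff

noncomputable section

variable {W : ℕ} [hW : Fact (8 ≤ W)]

omit hW in
theorem REG_dx_congr {f g : ℂ → ℝ} {z : ℂ} (h : f =ᶠ[𝓝 z] g) : dx f =ᶠ[𝓝 z] dx g := by
  have h2 := h.eventuallyEq_nhds
  filter_upwards [h2] with w hw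
  show fderiv ℝ f w 1 = fderiv ℝ g w 1
  rw [hw.fderiv_eq]

omit hW in
theorem REG_dy_congr {f g : ℂ → ℝ} {z : ℂ} (h : f =ᶠ[𝓝 z] g) : dy f =ᶠ[𝓝 z] dy g := by
  have h2 := h.eventuallyEq_nhds
  filter_upwards [h2] with w hw
  show fderiv ℝ f w Complex.I = fderiv ℝ g w Complex.I
  rw [hw.fderiv_eq]

omit hW in
theorem REG_lap_congr {f g : ℂ → ℝ} {z : ℂ} (h : f =ᶠ[𝓝 z] g) : lap f z = lap g z := by
  show dx (dx f) z + dy (dy f) z = dx (dx g) z + dy (dy g) z
  rw [(REG_dx_congr (REG_dx_congr h)).eq_of_nhds, (REG_dy_congr (REG_dy_congr h)).eq_of_nhds]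

omit hW in
theorem REG_lap_cont {f : ℂ → ℝ} {z : ℂ} (hf : ContDiffAt ℝ ∞ f z) : ContinuousAt (lap f) z := by
  have h1 := (ContDiffAt.dx (ContDiffAt.dx hf)).continuousAt
  have h2 := (ContDiffAt.dy (ContDiffAt.dy hf)).continuousAt
  exact h1.add h2

omit hW in
theorem REG_dx_add {f g : ℂ → ℝ} (hf : ContDiff ℝ ∞ f) (hg : ContDiff ℝ ∞ g) :
    dx (fun z => f z + g z) = fun z => dx f z + dx g z := by
  ext z
  show fderiv ℝ (fun z => f z + g z) z 1 = fderiv ℝ f z 1 + fderiv ℝ g z 1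
  rw [fderiv_fun_add (hf.differentiable (by simp) z) (hg.differentiable (by simp) z)]
  rfl

omit hW in
theorem REG_dy_add {f g : ℂ → ℝ} (hf : ContDiff ℝ ∞ f) (hg : ContDiff ℝ ∞ g) :
    dy (fun z => f z + g z) = fun z => dy f z + dy g z := by
  ext z
  show fderiv ℝ (fun z => f z + g z) z Complex.I
    = fderiv ℝ f z Complex.I + fderiv ℝ g z Complex.I
  rw [fderiv_fun_add (hf.differentiable (by simp) z) (hg.differentiable (by simp) z)]
  rfl

omit hW in
theorem REG_dx_smooth {f : ℂ → ℝ} (hf : ContDiff ℝ ∞ f) : ContDiff ℝ ∞ (dx f) :=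
  contDiff_iff_contDiffAt.2 fun z => ContDiffAt.dx hf.contDiffAt

omit hW in
theorem REG_dy_smooth {f : ℂ → ℝ} (hf : ContDiff ℝ ∞ f) : ContDiff ℝ ∞ (dy f) :=
  contDiff_iff_contDiffAt.2 fun z => ContDiffAt.dy hf.contDiffAt

omit hW in
theorem REG_lap_add {f g : ℂ → ℝ} (hf : ContDiff ℝ ∞ f) (hg : ContDiff ℝ ∞ g) (z : ℂ) :
    lap (fun z => f z + g z) z = lap f z + lap g z := by
  show dx (dx (fun z => f z + g z)) z + dy (dy (fun z => f z + g z)) z = _
  rw [REG_dx_add hf hg, REG_dy_add hf hg, REG_dx_add (REG_dx_smooth hf) (REG_dx_smooth hg),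
    REG_dy_add (REG_dy_smooth hf) (REG_dy_smooth hg)]
  show _ = (dx (dx f) z + dy (dy f) z) + (dx (dx g) z + dy (dy g) z)
  ring

omit hW in
theorem REG_lap_sum {ι : Type*} (S : Finset ι) {f : ι → ℂ → ℝ} (hf : ∀ i, ContDiff ℝ ∞ (f i))
    (z : ℂ) : lap (fun z => ∑ i ∈ S, f i z) z = ∑ i ∈ S, lap (f i) z := by
  classical
  induction S using Finset.induction_on with
  | empty =>
    have h0 : (fun _ : ℂ => (0:ℝ)) = fun _ => 0 := rfl
    simp only [Finset.sum_empty]
    have h1 : dx (fun _ : ℂ => (0:ℝ)) = fun _ => 0 := by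
      ext w
      show fderiv ℝ (fun _ : ℂ => (0:ℝ)) w 1 = 0
      simp
    have h2 : dy (fun _ : ℂ => (0:ℝ)) = fun _ => 0 := by
      ext w
      show fderiv ℝ (fun _ : ℂ => (0:ℝ)) w Complex.I = 0
      simp
    show dx (dx (fun _ : ℂ => (0:ℝ))) z + dy (dy (fun _ : ℂ => (0:ℝ))) z = 0
    rw [h1, h2, h1, h2]; simp
  | insert a S ha ih =>
    have hs : (fun z => ∑ i ∈ insert a S, f i z) = fun z => f a z + ∑ i ∈ S, f i z := by
      ext w; rw [Finset.sum_insert ha]
    rw [hs, REG_lap_add (hf a) (ContDiff.sum fun i _ => hf i), ih, Finset.sum_insert ha]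

omit hW in
/-- `lap η` vanishes outside of the support -/
theorem REG_lap_zero {η : ℂ → ℝ} {z : ℂ} (hz : z ∉ tsupport η) : lap η z = 0 := by
  have h : η =ᶠ[𝓝 z] fun _ => 0 := notMem_tsupport_iff_eventuallyEq.1 hz
  rw [REG_lap_congr h]
  have h1 : dx (fun _ : ℂ => (0:ℝ)) = fun _ => 0 := by
    ext w
    show fderiv ℝ (fun _ : ℂ => (0:ℝ)) w 1 = 0
    simp
  have h2 : dy (fun _ : ℂ => (0:ℝ)) = fun _ => 0 := by
    ext w
    show fderiv ℝ (fun _ : ℂ => (0:ℝ)) w Complex.I = 0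
    simp
  show dx (dx (fun _ : ℂ => (0:ℝ))) z + dy (dy (fun _ : ℂ => (0:ℝ))) z = 0
  rw [h1, h2, h1, h2]; simp

omit hW in
theorem REG_memLp (u : Lp E3 2 (mu W)) : MemLp (fun z => u z 0) 2 (mu W) :=
  (Lp.memLp u).of_le ((EuclideanSpace.proj (𝕜 := ℝ) 0).continuous.comp_aestronglyMeasurable
    (Lp.memLp u).1) (Eventually.of_forall fun z => PiLp.norm_apply_le _ 0)

omit hW in
theorem REG_meas (u : Lp E3 2 (mu W)) : Measurable (fun z => u z 0) :=
  ((EuclideanSpace.proj (𝕜 := ℝ) (0 : Fin 3)).continuous.measurable).comp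
    (Lp.stronglyMeasurable u).measurable

omit hW in
theorem REG_mul_int {g c : ℂ → ℝ} (hg : MemLp g 2 (mu W)) (hc : ContinuousOn c (FF W)) :
    Integrable (fun z => g z * c z) (mu W) := by
  obtain ⟨C, hC⟩ := (isCompact_FF W).exists_bound_of_continuousOn hc
  have h1 : Integrable g (mu W) := hg.integrable one_le_two
  refine h1.mul_bdd (c := C) (hc.aestronglyMeasurable (measurableSet_FF W)) ?_
  exact (ae_restrict_iff' (measurableSet_FF W)).2 (Eventually.of_forall hC)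

/-- the weak equation on core functions -/
theorem REG_weak {ρ : ℂ → ℝ} (hρ : IsWt W ρ) (u : HV W) (lam : ℝ)
    (h : ∀ v, eform W u v = lam * bform W ρ hρ.continuousOn u v) (k : coreSub W)
    (hk : eform W u (J W k) = -∫ z in FF W, (u : Lp E3 2 (mu W)) z 0 * lap k.1 z) :
    ∫ z in FF W, (u : Lp E3 2 (mu W)) z 0 * (lap k.1 z + (lam * ρ z) * k.1 z) = 0 := by
  have hg := REG_memLp (u : Lp E3 2 (mu W))
  have hlapc : ContinuousOn (lap k.1) (FF W) := fun z hz =>
    (REG_lap_cont (IsCore.contDiffAt hW.out k.2 hz)).continuousWithinAt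
  have hkc : ContinuousOn k.1 (FF W) := fun z hz =>
    (IsCore.contDiffAt hW.out k.2 hz).continuousAt.continuousWithinAt
  have hρc := hρ.continuousOn
  have hi1 := REG_mul_int hg hlapc
  have hi2 : Integrable (fun z => (u : Lp E3 2 (mu W)) z 0 * ((lam • ρ) z * k.1 z)) (mu W) :=
    REG_mul_int hg ((hρc.const_smul lam).mul hkc)
  have hb : bform W ρ hρ.continuousOn u (J W k)
      = ∫ z in FF W, ρ z * ((u : Lp E3 2 (mu W)) z 0 * k.1 z) := by
    rw [bform_apply]
    apply integral_congr_ae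
    filter_upwards [J_ae k] with z h2
    rw [h2]
    simp [emb]
  have h1 := h (J W k)
  rw [hk, hb] at h1
  have hsplit : ∫ z in FF W, (u : Lp E3 2 (mu W)) z 0 * (lap k.1 z + (lam * ρ z) * k.1 z)
      = (∫ z in FF W, (u : Lp E3 2 (mu W)) z 0 * lap k.1 z)
        + ∫ z in FF W, (u : Lp E3 2 (mu W)) z 0 * ((lam • ρ) z * k.1 z) := by
    refine Eq.trans ?_ (integral_add hi1 hi2)
    apply integral_congr_ae
    refine Eventually.of_forall fun z => ?_
    simp only [Pi.smul_apply, smul_eq_mul]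
    ring
  have h3 : ∫ z in FF W, (u : Lp E3 2 (mu W)) z 0 * ((lam • ρ) z * k.1 z)
      = lam * ∫ z in FF W, ρ z * ((u : Lp E3 2 (mu W)) z 0 * k.1 z) := by
    rw [← integral_const_mul]
    apply integral_congr_ae
    refine Eventually.of_forall fun z => ?_
    simp only [Pi.smul_apply, smul_eq_mul]
    ring
  rw [hsplit, h3]
  linarith

theorem REG_dist {p p' : ℤ × ℤ} (hp : p' ≠ p) : 8 ≤ ‖lat W p' - lat W p‖ := by
  have hW' : (8:ℝ) ≤ W := by exact_mod_cast hW.out
  have hre := Complex.abs_re_le_norm (lat W p' - lat W p)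
  have him := Complex.abs_im_le_norm (lat W p' - lat W p)
  have e1 : (lat W p' - lat W p).re = 8 * ((p'.1 - p.1 : ℤ) : ℝ) := by
    simp [lat]; ring
  have e2 : (lat W p' - lat W p).im = W * ((p'.2 - p.2 : ℤ) : ℝ) := by
    simp [lat]; ring
  rw [e1, abs_mul] at hre
  rw [e2, abs_mul] at him
  by_cases h1 : p'.1 = p.1
  · have h2 : p'.2 - p.2 ≠ 0 := fun h => hp (Prod.ext h1 (by omega))
    have h3 : (1:ℝ) ≤ |((p'.2 - p.2 : ℤ) : ℝ)| := by
      rw [← Int.cast_abs]
      exact_mod_cast Int.one_le_abs h2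
    have h4 : |(W:ℝ)| = W := abs_of_nonneg (by positivity)
    rw [h4] at him
    nlinarith
  · have h2 : p'.1 - p.1 ≠ 0 := fun h => h1 (by omega)
    have h3 : (1:ℝ) ≤ |((p'.1 - p.1 : ℤ) : ℝ)| := by
      rw [← Int.cast_abs]
      exact_mod_cast Int.one_le_abs h2
    have h4 : |(8:ℝ)| = 8 := abs_of_nonneg (by norm_num)
    rw [h4] at hre
    nlinarith

theorem REG_AA_sub {r : ℝ} (hr : 1/2 ≤ r) (hr1 : r < 1) (p : ℤ × ℤ) {z : ℂ}
    (hz : z - lat W p ∈ AA r) : z ∈ UU W r := by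
  have hi : r⁻¹ ≤ 2 := by
    have := inv_anti₀ (by norm_num : (0:ℝ) < 1/2) hr
    simpa using this
  refine mem_UU_of_le (r' := min ‖z - lat W p‖ 6) (lt_min hz.1 (by linarith)) fun p' => ?_
  by_cases hp : p' = p
  · subst hp; exact min_le_left _ _
  · refine (min_le_right _ _).trans ?_
    have h1 := REG_dist (W := W) hp
    have h2 : ‖lat W p' - lat W p‖ ≤ ‖z - lat W p‖ + ‖z - lat W p'‖ := by
      have : lat W p' - lat W p = (z - lat W p) - (z - lat W p') := by ring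
      rw [this]
      exact norm_sub_le _ _
    have h3 := hz.2
    linarith

theorem REG_lat_zero : lat W (0, 0) = 0 := by
  apply Complex.ext <;> simp [lat]

theorem REG_AA_sub0 {r : ℝ} (hr : 1/2 ≤ r) (hr1 : r < 1) {z : ℂ}
    (hz : z ∈ AA r) : z ∈ UU W r := by
  refine REG_AA_sub hr hr1 (0, 0) ?_
  rw [REG_lat_zero, sub_zero]
  exact hz

/-- integrability of the weak integrand -/
theorem REG_int {g q : ℂ → ℝ} (hgm : Measurable g) (hg : MemLp g 2 (mu W))
    {r : ℝ} (hr : 1/2 ≤ r) (hr1 : r < 1) (hqs : ContDiffOn ℝ ∞ q (UU W r))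
    {η : ℂ → ℝ} (hη : IsTest (UU W r) η) :
    Integrable (fun z => g (fold W z) * (lap η z + q z * η z)) := by
  obtain ⟨h1, h2, h3⟩ := hη
  have hK : IsCompact (tsupport η) := h2
  have hfm : Measurable (fun z => g (fold W z)) := hgm.comp (fold_symm (W := W)).1
  have hL : IntegrableOn (fun z => g (fold W z) ^ 2) (tsupport η) :=
    fold_locL2 hgm hg hr hr1 hK h3
  haveI : IsFiniteMeasure (volume.restrict (tsupport η)) :=
    ⟨by rw [Measure.restrict_apply_univ]; exact hK.measure_lt_top⟩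
  have hL2 : MemLp (fun z => g (fold W z)) 2 (volume.restrict (tsupport η)) :=
    (memLp_two_iff_integrable_sq hfm.aestronglyMeasurable).2 hL
  have hL1 : Integrable (fun z => g (fold W z)) (volume.restrict (tsupport η)) :=
    hL2.integrable one_le_two
  have hc : ContinuousOn (fun z => lap η z + q z * η z) (tsupport η) := by
    intro z hz
    have a1 : ContinuousAt (lap η) z := REG_lap_cont h1.contDiffAt
    have a2 : ContinuousAt q z := (hqs.contDiffAt ((isOpen_UU W r).mem_nhds (h3 hz))).continuousAt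
    have a3 : ContinuousAt η z := h1.continuous.continuousAt
    exact (a1.add (a2.mul a3)).continuousWithinAt
  obtain ⟨C, hC⟩ := hK.exists_bound_of_continuousOn hc
  have hint : IntegrableOn (fun z => g (fold W z) * (lap η z + q z * η z)) (tsupport η) := by
    refine hL1.mul_bdd (c := C) (hc.aestronglyMeasurable hK.measurableSet) ?_
    exact (ae_restrict_iff' hK.measurableSet).2 (Eventually.of_forall hC)
  refine (integrableOn_iff_integrable_of_support_subset ?_).1 hint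
  intro z hz
  by_contra hn
  apply hz
  show g (fold W z) * (lap η z + q z * η z) = 0
  rw [REG_lap_zero hn, image_eq_zero_of_notMem_tsupport hn]
  ring

omit hW in
theorem REG_inv_inv (z : ℂ) : inv1 (inv1 z) = z := by
  simp [inv1]

omit hW in
theorem REG_norm_inv (z : ℂ) : ‖inv1 z‖ = ‖z‖⁻¹ := by
  simp [inv1]

omit hW in
theorem REG_inv_AA {r : ℝ} (hr : 0 < r) {z : ℂ} (hz : z ∈ AA r) : inv1 z ∈ AA r := by
  obtain ⟨h1, h2⟩ := hz
  have h0 : 0 < ‖z‖ := hr.trans h1
  constructor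
  · rw [REG_norm_inv]
    have := inv_strictAnti₀ h0 h2
    rwa [inv_inv] at this
  · rw [REG_norm_inv]
    exact inv_strictAnti₀ hr h1

omit hW in
theorem REG_isOpen_AA (r : ℝ) : IsOpen (AA r) :=
  (isOpen_lt continuous_const continuous_norm).inter (isOpen_lt continuous_norm continuous_const)

theorem regularity_bridge {ρ : ℂ → ℝ} (hρ : IsWt W ρ) (u : HV W) (lam : ℝ)
    (h : ∀ v, eform W u v = lam * bform W ρ hρ.continuousOn u v) :
    ∃ f : coreSub W, J W f = u ∧ ∃ r : ℝ, 0 < r ∧ r < 1 ∧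
      ∀ z ∈ UU W r, -lap f.1 z = lam * ρ z * f.1 z := by
  classical
  obtain ⟨s, hs0, hs1, hsm, hpos, hinv⟩ := hρ.ex
  obtain ⟨r, hrdef⟩ : ∃ r, r = max s (1/2) := ⟨_, rfl⟩
  have hsr : s ≤ r := hrdef ▸ le_max_left _ _
  have hr : 1/2 ≤ r := hrdef ▸ le_max_right _ _
  have hr1 : r < 1 := hrdef ▸ max_lt hs1 (by norm_num)
  have hr0 : 0 < r := by linarith
  have hri : r⁻¹ ≤ 2 := by
    have := inv_anti₀ (by norm_num : (0:ℝ) < 1/2) hr
    simpa using this
  have hrs : r⁻¹ ≤ s⁻¹ := inv_anti₀ hs0 hsr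
  obtain ⟨q, hqdef⟩ : ∃ q : ℂ → ℝ, q = fun z => lam * ρ z := ⟨_, rfl⟩
  have hqv : ∀ z, q z = lam * ρ z := fun z => by rw [hqdef]
  have hqs : ContDiffOn ℝ ∞ q (UU W r) := by
    rw [hqdef]
    exact contDiffOn_const.mul (hsm.mono (UU_anti hsr))
  have hqp : ∀ p z, q (z + lat W p) = q z := fun p z => by rw [hqv, hqv, hρ.per]
  have hqi : ∀ z, r < ‖z‖ → ‖z‖ < r⁻¹ → q (inv1 z) = ‖z‖ ^ 4 * q z := by
    intro z h1 h2
    rw [hqv, hqv, hinv z (lt_of_le_of_lt hsr h1) (lt_of_lt_of_le h2 hrs)]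
    ring
  obtain ⟨g, hgdef⟩ : ∃ g : ℂ → ℝ, g = fun z => (u : Lp E3 2 (mu W)) z 0 := ⟨_, rfl⟩
  have hgv : ∀ z, g z = (u : Lp E3 2 (mu W)) z 0 := fun z => by rw [hgdef]
  have hgm : Measurable g := by rw [hgdef]; exact REG_meas _
  have hg : MemLp g 2 (mu W) := by rw [hgdef]; exact REG_memLp _
  have hweak : ∀ k : coreSub W,
      (eform W u (J W k) = -∫ z in FF W, (u : Lp E3 2 (mu W)) z 0 * lap k.1 z) →
      ∫ z in FF W, g z * (lap k.1 z + q z * k.1 z) = 0 := by
    intro k hk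
    have := REG_weak hρ u lam h k hk
    rw [hgdef, hqdef]
    exact this
  have hw1 : ∀ η, IsTest (UU W 1) η →
      ∫ z, g (fold W z) * (lap η z + q z * η z) = 0 := fun η hη =>
    weak_one hgm hg hr0 hr1 hqs hqp (fun k hk => hweak k (ibp_van k hk u)) hη
  have hw2 : ∀ (p : ℤ × ℤ) (η), IsTest {z | z - lat W p ∈ AA r} η →
      ∫ z, g (fold W z) * (lap η z + q z * η z) = 0 := fun p η hη =>
    weak_two hgm hg hr hr1 hqs hqp hqi (fun k hk => hweak k (ibp_near k hk u)) p hη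
  have hw : ∀ η, IsTest (UU W r) η →
      ∫ z, g (fold W z) * (lap η z + q z * η z) = 0 := by
    intro η hη
    obtain ⟨S, η0, η1, h0, h1, hsum⟩ := partition hr hr1 hη
    have t0 : IsTest (UU W r) η0 := ⟨h0.1, h0.2.1, h0.2.2.trans (UU_anti hr1.le)⟩
    have t1 : ∀ p, IsTest (UU W r) (η1 p) := fun p =>
      ⟨(h1 p).1, (h1 p).2.1, (h1 p).2.2.trans fun z hz => REG_AA_sub hr hr1 p hz⟩
    have i0 := REG_int hgm hg hr hr1 hqs t0
    have i1 := fun p => REG_int hgm hg hr hr1 hqs (t1 p)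
    have hηe : η = fun z => η0 z + ∑ p ∈ S, η1 p z := funext hsum
    have hpt : (fun z => g (fold W z) * (lap η z + q z * η z)) = fun z =>
        g (fold W z) * (lap η0 z + q z * η0 z)
          + ∑ p ∈ S, g (fold W z) * (lap (η1 p) z + q z * η1 p z) := by
      ext z
      have hl : lap η z = lap η0 z + ∑ p ∈ S, lap (η1 p) z := by
        rw [hηe, REG_lap_add h0.1 (ContDiff.sum fun p _ => (h1 p).1),
          REG_lap_sum S (fun p => (h1 p).1)]
      rw [hl, hsum z, ← Finset.mul_sum, ← mul_add, Finset.sum_add_distrib, ← Finset.mul_sum]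
      ring
    rw [hpt, integral_add i0 (integrable_finsetSum _ fun p _ => i1 p),
      integral_finsetSum _ fun p _ => i1 p, hw1 η0 h0]
    simp [fun p => hw2 p (η1 p) (h1 p)]
  obtain ⟨hfmeas, hfper, hfinv, -, hfid⟩ := fold_symm (W := W)
  obtain ⟨G, hGs, hGae, hGeq⟩ := weak_regularity (isOpen_UU W r) hqs
    (hgm.comp hfmeas) (fun K hK hKc => fold_locL2 hgm hg hr hr1 hKc hK) hw
  have hGc : ContinuousOn G (UU W r) := hGs.continuousOn
  -- periodicity
  have hGper : ∀ p, ∀ z ∈ UU W r, G (z + lat W p) = G z := by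
    intro p
    have hq2 := (measurePreserving_add_right (volume : Measure ℂ)
      (lat W p)).quasiMeasurePreserving.ae hGae
    have hae : (fun z => G (z + lat W p)) =ᵐ[volume.restrict (UU W r)] G := by
      refine (ae_restrict_iff' (isOpen_UU W r).measurableSet).2 ?_
      filter_upwards [hGae, hq2] with z h1 h2 hz
      have e1 := h1 hz
      have e2 := h2 (add_lat_mem_UU hz p)
      simp only [Function.comp_apply] at e1 e2
      rw [← e1, ← e2, hfper]
    have hcc : ContinuousOn (fun z => G (z + lat W p)) (UU W r) :=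
      hGc.comp (by fun_prop) (fun z hz => add_lat_mem_UU hz p)
    exact Measure.eqOn_open_of_ae_eq hae (isOpen_UU W r) hcc hGc
  -- symmetry under inversion
  have hdiff : DifferentiableOn ℝ inv1 (AA r) := fun z hz =>
    ((contDiffAt_inv1 (norm_pos_iff.1 (hr0.trans hz.1))).differentiableAt
      (by simp)).differentiableWithinAt
  have hGinv : ∀ z ∈ AA r, G (inv1 z) = G z := by
    have hnull : volume {z | ¬ (z ∈ UU W r → g (fold W z) = G z)} = 0 := by
      have := ae_iff.1 hGae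
      simpa only [Function.comp_apply] using this
    have himg : volume (inv1 '' ({z | ¬ (z ∈ UU W r → g (fold W z) = G z)} ∩ AA r)) = 0 :=
      addHaar_image_eq_zero_of_differentiableOn_of_addHaar_eq_zero volume
        (hdiff.mono inter_subset_right) (measure_mono_null inter_subset_left hnull)
    have hae : (fun z => G (inv1 z)) =ᵐ[volume.restrict (AA r)] G := by
      refine (ae_restrict_iff' (REG_isOpen_AA r).measurableSet).2 ?_
      have hae2 : ∀ᵐ z, z ∉ inv1 '' ({z | ¬ (z ∈ UU W r → g (fold W z) = G z)} ∩ AA r) :=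
        measure_eq_zero_iff_ae_notMem.1 himg
      filter_upwards [hGae, hae2] with z h1 h2 hz
      have hz' := REG_inv_AA hr0 hz
      have e1 := h1 (REG_AA_sub0 hr hr1 hz)
      have e2 : g (fold W (inv1 z)) = G (inv1 z) := by
        by_contra hne
        apply h2
        refine ⟨inv1 z, ⟨?_, hz'⟩, REG_inv_inv z⟩
        intro himp
        exact hne (himp (REG_AA_sub0 hr hr1 hz'))
      simp only [Function.comp_apply] at e1
      rw [← e1, ← e2, hfinv z (lt_of_le_of_lt hr hz.1) (lt_of_lt_of_le hz.2 hri)]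
    have hcc : ContinuousOn (fun z => G (inv1 z)) (AA r) :=
      hGc.comp hdiff.continuousOn (fun z hz => REG_AA_sub0 hr hr1 (REG_inv_AA hr0 hz))
    exact Measure.eqOn_open_of_ae_eq hae (REG_isOpen_AA r) hcc
      (hGc.mono fun z hz => REG_AA_sub0 hr hr1 hz)
  -- the core function
  obtain ⟨F, hFdef⟩ : ∃ F : ℂ → ℝ, F = (UU W r).indicator G := ⟨_, rfl⟩
  have hFin : ∀ z ∈ UU W r, F z = G z := fun z hz => by rw [hFdef]; exact indicator_of_mem hz _
  have hFout : ∀ z, z ∉ UU W r → F z = 0 := fun z hz => by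
    rw [hFdef]; exact indicator_of_notMem hz _
  have hF : IsCore W F := by
    refine ⟨?_, r, hr0, hr1, hGs.congr hFin, ?_⟩
    · intro p z
      by_cases hz : z ∈ UU W r
      · rw [hFin _ (add_lat_mem_UU hz p), hFin _ hz, hGper p z hz]
      · have hz2 : z + lat W p ∉ UU W r := by
          intro hc
          apply hz
          have := add_lat_mem_UU hc (-p)
          have he : z + lat W p + lat W (-p) = z := by
            apply Complex.ext <;> simp [lat]
          rwa [he] at this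
        rw [hFout _ hz, hFout _ hz2]
    · intro z h1 h2
      have hz : z ∈ AA r := ⟨h1, h2⟩
      rw [hFin _ (REG_AA_sub0 hr hr1 (REG_inv_AA hr0 hz)), hFin _ (REG_AA_sub0 hr hr1 hz),
        hGinv z hz]
  refine ⟨⟨F, hF⟩, ?_, r, hr0, hr1, ?_⟩
  · -- the value of `u - J f` vanishes
    have hz0 : ∀ᵐ z ∂(mu W), ((u - J W ⟨F, hF⟩ : HV W) : Lp E3 2 (mu W)) z 0 = 0 := by
      have hb : ∀ᵐ z ∂(volume : Measure ℂ), z ∉ FF W \ {z : ℂ | (-4 < z.re ∧ z.re < 4) ∧
          (-4 < z.im ∧ z.im < W - 4) ∧ 1 < ‖z‖} :=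
        measure_eq_zero_iff_ae_notMem.1 (volume_FF_boundary W)
      have h1 : ∀ᵐ z ∂(mu W), z ∈ FF W := ae_restrict_mem (measurableSet_FF W)
      have h2 : ∀ᵐ z ∂(mu W), z ∉ FF W \ {z : ℂ | (-4 < z.re ∧ z.re < 4) ∧
          (-4 < z.im ∧ z.im < W - 4) ∧ 1 < ‖z‖} := ae_restrict_of_ae hb
      have h3 : ∀ᵐ z ∂(mu W), z ∈ UU W r → (g ∘ fold W) z = G z := ae_restrict_of_ae hGae
      filter_upwards [h1, h2, h3, J_ae (⟨F, hF⟩ : coreSub W),
        Lp.coeFn_sub (u : Lp E3 2 (mu W)) ((J W ⟨F, hF⟩ : HV W) : Lp E3 2 (mu W))]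
        with z k1 k2 k3 k4 k5
      have hin : z ∈ {z : ℂ | (-4 < z.re ∧ z.re < 4) ∧
          (-4 < z.im ∧ z.im < W - 4) ∧ 1 < ‖z‖} := by
        by_contra hc
        exact k2 ⟨k1, hc⟩
      have hU := FF_subset_UU hW.out hr1 k1
      have e1 := k3 hU
      simp only [Function.comp_apply] at e1
      rw [hfid z k1 hin.1.2 hin.2.1.2, hgv] at e1
      rw [Submodule.coe_sub, k5, Pi.sub_apply, PiLp.sub_apply, k4]
      show (u : Lp E3 2 (mu W)) z 0 - F z = 0
      rw [hFin z hU, e1, sub_self]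
    have := definite _ hz0
    exact (sub_eq_zero.1 this).symm
  · intro z hz
    have he : F =ᶠ[𝓝 z] G := by
      filter_upwards [(isOpen_UU W r).mem_nhds hz] with w hw
      exact hFin w hw
    show -lap F z = lam * ρ z * F z
    rw [REG_lap_congr he, hFin z hz]
    have := hGeq z hz
    rw [hqv] at this
    linarith

end

end Pool.Agent.EQ.SP

end

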