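import Mathlib
import Pool.Agent.Lib_helper71.EQ.Defs

/-! Project EQ (MP_ed6ab2_an): merged modules Lib_helper95.EQW.Defs. -/

set_option autoImplicit false

/-! ## Lib_helper95.EQW.Defs -/

section

/-!
# EQ project, package S2, Weyl law: definitions
-/

set_option autoImplicit false

namespace Pool.Agent.Lib_helper95.EQW

open MeasureTheory Set Filter Topology
open Pool.Agent.EQ (dx dy)

noncomputable section

/-- the region `F`: the closed rectangle minus the open unit disc -/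
def FR (W : ℕ) : Set ℂ :=
  {z | -4 ≤ z.re ∧ z.re ≤ 4 ∧ -4 ≤ z.im ∧ z.im ≤ (W : ℝ) - 4 ∧ 1 ≤ ‖z‖}

/-- closed rectangle `[x0, x0+a] x [y0, y0+b]` -/
def rct (x0 y0 a b : ℝ) : Set ℂ := {z | x0 ≤ z.re ∧ z.re ≤ x0 + a ∧ y0 ≤ z.im ∧ z.im ≤ y0 + b}

theorem rct_eq (x0 y0 a b : ℝ) : rct x0 y0 a b = Icc x0 (x0 + a) ×ℂ Icc y0 (y0 + b) := by
  ext z
  simp only [rct, Complex.mem_reProdIm, mem_Icc, mem_ofPred_eq, and_assoc]

theorem isCompact_rct (x0 y0 a b : ℝ) : IsCompact (rct x0 y0 a b) := by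
  rw [rct_eq]
  exact isCompact_Icc.reProdIm isCompact_Icc

theorem measurableSet_rct (x0 y0 a b : ℝ) : MeasurableSet (rct x0 y0 a b) :=
  (isCompact_rct x0 y0 a b).isClosed.measurableSet

theorem volume_rct (x0 y0 a b : ℝ) :
    volume (rct x0 y0 a b) = ENNReal.ofReal a * ENNReal.ofReal b := by
  have h : rct x0 y0 a b =
      Complex.measurableEquivRealProd ⁻¹' (Icc x0 (x0 + a) ×ˢ Icc y0 (y0 + b)) := by
    ext z
    simp only [rct, mem_preimage, mem_prod, Complex.measurableEquivRealProd_apply, mem_Icc,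
      mem_ofPred_eq, and_assoc]
  rw [h, Complex.volume_preserving_equiv_real_prod.measure_preimage
    (measurableSet_Icc.prod measurableSet_Icc).nullMeasurableSet, Measure.volume_eq_prod,
    Measure.prod_prod, Real.volume_Icc, Real.volume_Icc]
  congr 2 <;> ring

theorem isClosed_FR (W : ℕ) : IsClosed (FR W) := by
  refine (isClosed_le continuous_const Complex.continuous_re).inter ?_
  refine (isClosed_le Complex.continuous_re continuous_const).inter ?_
  refine (isClosed_le continuous_const Complex.continuous_im).inter ?_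
  exact (isClosed_le Complex.continuous_im continuous_const).inter
    (isClosed_le continuous_const continuous_norm)

theorem isCompact_FR (W : ℕ) : IsCompact (FR W) := by
  refine (isCompact_rct (-4) (-4) 8 W).of_isClosed_subset (isClosed_FR W) ?_
  rintro z ⟨h1, h2, h3, h4, -⟩
  exact ⟨h1, by linarith, h3, by linarith⟩

theorem measurableSet_FR (W : ℕ) : MeasurableSet (FR W) := (isClosed_FR W).measurableSet

/-- `v` is `C^1` on a neighbourhood of `F` -/
def C1N (F : Set ℂ) (v : ℂ → ℝ) : Prop := ∃ U : Set ℂ, IsOpen U ∧ F ⊆ U ∧ ContDiffOn ℝ 1 v U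

/-- `|grad v|^2` -/
def gr (v : ℂ → ℝ) (z : ℂ) : ℝ := dx v z ^ 2 + dy v z ^ 2

/-- Upper bracketing on `Q ⊆ F` with `N` functionals:
`L ∫_Q ρ v² ≤ κ ∫_Q |grad v|² + Σ_{j<N} (∫_F v g_j)²` for all `v` which are `C^1` near `F`. -/
def UPB (F Q : Set ℂ) (ρ : ℂ → ℝ) (L κ : ℝ) (N : ℕ) : Prop :=
  ∃ g : Fin N → ℂ → ℝ, (∀ j, Measurable (g j)) ∧ (∃ C : ℝ, ∀ j z, |g j z| ≤ C) ∧
    ∀ v : ℂ → ℝ, C1N F v →
      L * ∫ z in Q, ρ z * v z ^ 2 ≤ κ * (∫ z in Q, gr v z) + ∑ j, (∫ z in F, v z * g j z) ^ 2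

/-- the normalised Neumann functions of the interval `[x0, x0+a]` -/
def ec (x0 a : ℝ) (k : ℕ) (x : ℝ) : ℝ :=
  if k = 0 then 1 / √a else √(2 / a) * Real.cos (k * Real.pi * (x - x0) / a)

/-- the corner of the square number `p` of side `1/m` -/
def cx (m : ℕ) (p : ℕ × ℕ) : ℝ := -4 + (p.1 : ℝ) / m

/-- the corner of the square number `p` of side `1/m` -/
def cy (m : ℕ) (p : ℕ × ℕ) : ℝ := -4 + (p.2 : ℝ) / m

/-- the closed square number `p` of side `1/m` -/
def sqr (m : ℕ) (p : ℕ × ℕ) : Set ℂ := rct (cx m p) (cy m p) (1 / m) (1 / m)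

/-- the main squares: all squares of side `1/m` of the rectangle contained in `{1 ≤ |z|}` -/
def MS (W m : ℕ) : Finset (ℕ × ℕ) :=
  open Classical in
  (Finset.range (8 * m) ×ˢ Finset.range (W * m)).filter fun p => ∀ z ∈ sqr m p, 1 ≤ ‖z‖

theorem mem_MS {W m : ℕ} {p : ℕ × ℕ} : p ∈ MS W m ↔
    p.1 < 8 * m ∧ p.2 < W * m ∧ ∀ z ∈ sqr m p, 1 ≤ ‖z‖ := by
  classical
  rw [MS, Finset.mem_filter, Finset.mem_product, Finset.mem_range, Finset.mem_range, and_assoc]

/-- a sine product on the square with corner `(x0, y0)` and side `h`, zero outside -/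
def sn (x0 y0 h : ℝ) (k l : ℕ) : ℂ → ℝ :=
  (rct x0 y0 h h).indicator fun z =>
    Real.sin (k * Real.pi * (z.re - x0) / h) * Real.sin (l * Real.pi * (z.im - y0) / h)

/-- its `x`-derivative -/
def snx (x0 y0 h : ℝ) (k l : ℕ) : ℂ → ℝ :=
  (rct x0 y0 h h).indicator fun z => (k * Real.pi / h) *
    (Real.cos (k * Real.pi * (z.re - x0) / h) * Real.sin (l * Real.pi * (z.im - y0) / h))

/-- its `y`-derivative -/
def sny (x0 y0 h : ℝ) (k l : ℕ) : ℂ → ℝ :=
  (rct x0 y0 h h).indicator fun z => (l * Real.pi / h) *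
    (Real.sin (k * Real.pi * (z.re - x0) / h) * Real.cos (l * Real.pi * (z.im - y0) / h))

end

end Pool.Agent.Lib_helper95.EQW

end

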