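import Mathlib
import Pool.Agent.Lib_helper71.EQM.Weyl0

/-! Project EQ (MP_ed6ab2_an): merged modules Lib_helper95.EQW.B.BES, Lib_helper95.EQW.B.PARS, Lib_helper95.EQW.B.BESD, Lib_helper95.EQW.B.CNTU, Lib_helper95.EQW.B.CNTL, Lib_helper95.EQW.B.RCI. -/

set_option autoImplicit false

/-! ## Lib_helper95.EQW.B.BES -/

section

/-!
# EQ project, block BES
-/

set_option autoImplicit false

namespace Pool.Agent.Lib_helper95.EQW.BES

open MeasureTheory Set Filter Topology
open Pool.Agent.EQ (dx dy)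
open scoped ContDiff

noncomputable section

theorem bes_ext {x0 x1 : ℝ} (h : x0 ≤ x1) {w : ℝ → ℝ} (hw : ContinuousOn w (Icc x0 x1)) :
    ∃ v : ℝ → ℝ, Continuous v ∧ ∀ x ∈ Icc x0 x1, v x = w x := by
  refine ⟨Set.IccExtend h (Set.domRestrict (Icc x0 x1) w), ?_, fun x hx => ?_⟩
  · exact (continuousOn_iff_continuous_domRestrict.mp hw).Icc_extend'
  · rw [Set.IccExtend_of_mem h _ hx]
    rfl

theorem bes_bessel {x0 x1 : ℝ} (h : x0 ≤ x1) {w : ℝ → ℝ} (hw : Continuous w)
    {e : ℕ → ℝ → ℝ} (he : ∀ k, Continuous (e k))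
    (ho : ∀ k l, ∫ x in x0..x1, e k x * e l x = if k = l then 1 else 0) (K : ℕ) :
    ∑ k ∈ Finset.range K, (∫ x in x0..x1, w x * e k x) ^ 2 ≤ ∫ x in x0..x1, w x ^ 2 := by
  set c : ℕ → ℝ := fun k => ∫ x in x0..x1, w x * e k x with hc
  set s : ℝ → ℝ := fun x => ∑ k ∈ Finset.range K, c k * e k x with hs
  have hsc : Continuous s := continuous_finsetSum _ fun k _ => continuous_const.mul (he k)
  have h0 : 0 ≤ ∫ x in x0..x1, (w x - s x) ^ 2 :=
    intervalIntegral.integral_nonneg h fun x _ => sq_nonneg _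
  have h1 : ∫ x in x0..x1, w x * s x = ∑ k ∈ Finset.range K, c k ^ 2 := by
    have e1 : ∀ x, w x * s x = ∑ k ∈ Finset.range K, c k * (w x * e k x) := by
      intro x
      rw [hs]
      simp only [Finset.mul_sum]
      exact Finset.sum_congr rfl fun k _ => by ring
    simp only [e1]
    rw [intervalIntegral.integral_finsetSum (f := fun k x => c k * (w x * e k x)) fun k _ => by
      refine Continuous.intervalIntegrable ?_ _ _
      exact continuous_const.mul (hw.mul (he k))]
    refine Finset.sum_congr rfl fun k _ => ?_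
    rw [intervalIntegral.integral_const_mul, sq]
  have h2 : ∫ x in x0..x1, s x ^ 2 = ∑ k ∈ Finset.range K, c k ^ 2 := by
    have e1 : ∀ x, s x ^ 2 = ∑ k ∈ Finset.range K, ∑ l ∈ Finset.range K,
        (c k * c l) * (e k x * e l x) := by
      intro x
      rw [hs, sq]
      simp only [Finset.sum_mul_sum]
      exact Finset.sum_congr rfl fun k _ => Finset.sum_congr rfl fun l _ => by ring
    simp only [e1]
    rw [intervalIntegral.integral_finsetSum fun k _ => by
      refine Continuous.intervalIntegrable ?_ _ _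
      exact continuous_finsetSum _ fun l _ => continuous_const.mul ((he k).mul (he l))]
    refine Finset.sum_congr rfl fun k hk => ?_
    rw [intervalIntegral.integral_finsetSum fun l _ => by
      refine Continuous.intervalIntegrable ?_ _ _
      exact continuous_const.mul ((he k).mul (he l))]
    rw [Finset.sum_eq_single k]
    · rw [intervalIntegral.integral_const_mul, ho, if_pos rfl, mul_one, sq]
    · intro l _ hl
      rw [intervalIntegral.integral_const_mul, ho, if_neg (Ne.symm hl), mul_zero]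
    · intro hk'
      exact absurd hk hk'
  have h3 : ∫ x in x0..x1, (w x - s x) ^ 2 =
      (∫ x in x0..x1, w x ^ 2) - 2 * (∫ x in x0..x1, w x * s x) + ∫ x in x0..x1, s x ^ 2 := by
    rw [← intervalIntegral.integral_const_mul, ← intervalIntegral.integral_sub,
      ← intervalIntegral.integral_add]
    · refine intervalIntegral.integral_congr fun x _ => ?_
      ring
    · exact Continuous.intervalIntegrable (by fun_prop) _ _
    · exact Continuous.intervalIntegrable (by fun_prop) _ _
    · exact Continuous.intervalIntegrable (by fun_prop) _ _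
    · exact Continuous.intervalIntegrable (by fun_prop) _ _
  rw [h3, h1, h2] at h0
  linarith

theorem bes_cos {x0 a : ℝ} (ha : 0 < a) (j : ℤ) :
    ∫ x in x0..(x0 + a), Real.cos (j * Real.pi * (x - x0) / a) = if j = 0 then a else 0 := by
  split_ifs with hj
  · subst hj
    simp
  · have hj' : (j : ℝ) ≠ 0 := by exact_mod_cast hj
    have hpi := Real.pi_ne_zero
    have hd : ∀ x : ℝ, HasDerivAt
        (fun x => a / (j * Real.pi) * Real.sin (j * Real.pi * (x - x0) / a))
        (Real.cos (j * Real.pi * (x - x0) / a)) x := by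
      intro x
      have h1 : HasDerivAt (fun x : ℝ => j * Real.pi * (x - x0) / a) (j * Real.pi / a) x := by
        have := (((hasDerivAt_id x).sub_const x0).const_mul (j * Real.pi)).div_const a
        simpa using this
      refine ((h1.sin).const_mul (a / (j * Real.pi))).congr_deriv ?_
      field_simp
    rw [intervalIntegral.integral_eq_sub_of_hasDerivAt (fun x _ => hd x)
      (Continuous.intervalIntegrable (by fun_prop) _ _)]
    have e1 : j * Real.pi * (x0 + a - x0) / a = j * Real.pi := by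
      field_simp
      ring
    have e2 : j * Real.pi * (x0 - x0) / a = 0 := by
      rw [sub_self, mul_zero, zero_div]
    rw [e1, e2, Real.sin_int_mul_pi, Real.sin_zero]
    ring

theorem bes_ec_cont (x0 a : ℝ) (k : ℕ) : Continuous (ec x0 a k) := by
  unfold ec
  split_ifs
  · exact continuous_const
  · fun_prop

theorem bes_orth {x0 a : ℝ} (ha : 0 < a) (k l : ℕ) :
    ∫ x in x0..(x0 + a), ec x0 a k x * ec x0 a l x = if k = l then 1 else 0 := by
  have hc := bes_cos (x0 := x0) ha
  have hsq : √a * √a = a := Real.mul_self_sqrt ha.le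
  have hsa : √a ≠ 0 := (Real.sqrt_pos.mpr ha).ne'
  have hsq2 : √(2 / a) * √(2 / a) = 2 / a := Real.mul_self_sqrt (by positivity)
  rcases Nat.eq_zero_or_pos k with hk | hk <;> rcases Nat.eq_zero_or_pos l with hl | hl
  · subst hk; subst hl
    simp only [ec, if_true]
    rw [intervalIntegral.integral_const, smul_eq_mul, add_sub_cancel_left]
    field_simp
    nlinarith
  · subst hk
    rw [if_neg (by omega)]
    simp only [ec, if_true, if_neg (show l ≠ 0 by omega)]
    rw [intervalIntegral.integral_const_mul, intervalIntegral.integral_const_mul]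
    have := hc l
    rw [if_neg (by exact_mod_cast (show l ≠ 0 by omega))] at this
    push_cast at this
    rw [this]
    ring
  · subst hl
    rw [if_neg (by omega)]
    simp only [ec, if_true, if_neg (show k ≠ 0 by omega)]
    rw [intervalIntegral.integral_mul_const, intervalIntegral.integral_const_mul]
    have := hc k
    rw [if_neg (by exact_mod_cast (show k ≠ 0 by omega))] at this
    push_cast at this
    rw [this]
    ring
  · simp only [ec, if_neg (show k ≠ 0 by omega), if_neg (show l ≠ 0 by omega)]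
    have e1 : ∀ x, √(2 / a) * Real.cos (k * Real.pi * (x - x0) / a) *
        (√(2 / a) * Real.cos (l * Real.pi * (x - x0) / a)) =
        1 / a * (Real.cos (((k : ℤ) - (l : ℤ) : ℤ) * Real.pi * (x - x0) / a) +
          Real.cos (((k : ℤ) + (l : ℤ) : ℤ) * Real.pi * (x - x0) / a)) := by
      intro x
      have e2 : (((k : ℤ) - (l : ℤ) : ℤ) : ℝ) * Real.pi * (x - x0) / a =
          k * Real.pi * (x - x0) / a - l * Real.pi * (x - x0) / a := by
        push_cast; ring
      have e3 : (((k : ℤ) + (l : ℤ) : ℤ) : ℝ) * Real.pi * (x - x0) / a =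
          k * Real.pi * (x - x0) / a + l * Real.pi * (x - x0) / a := by
        push_cast; ring
      rw [e2, e3, Real.cos_sub, Real.cos_add]
      linear_combination (Real.cos (k * Real.pi * (x - x0) / a) *
        Real.cos (l * Real.pi * (x - x0) / a)) * hsq2
    simp only [e1]
    rw [intervalIntegral.integral_const_mul, intervalIntegral.integral_add
      (Continuous.intervalIntegrable (by fun_prop) _ _)
      (Continuous.intervalIntegrable (by fun_prop) _ _), hc, hc,
      if_neg (show ¬ ((k : ℤ) + (l : ℤ) = 0) by omega)]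
    by_cases hkl : k = l
    · rw [if_pos (show ((k : ℤ) - (l : ℤ) = 0) by omega), if_pos hkl]
      field_simp
      ring
    · rw [if_neg (show ¬ ((k : ℤ) - (l : ℤ) = 0) by omega), if_neg hkl]
      ring

/-- Bessel for the cosine system of `[x0, x0+a]` -/
theorem BES {x0 a : ℝ} (ha : 0 < a) {w : ℝ → ℝ} (hw : ContinuousOn w (Icc x0 (x0 + a))) (K : ℕ) :
    ∑ k ∈ Finset.range K, (∫ x in x0..(x0 + a), w x * ec x0 a k x) ^ 2 ≤
      ∫ x in x0..(x0 + a), w x ^ 2 := by
  have hle : x0 ≤ x0 + a := by linarith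
  obtain ⟨v, hv, hvw⟩ := bes_ext hle hw
  have h := bes_bessel hle hv (bes_ec_cont x0 a) (bes_orth ha) K
  have e1 : ∫ x in x0..(x0 + a), v x ^ 2 = ∫ x in x0..(x0 + a), w x ^ 2 := by
    refine intervalIntegral.integral_congr fun x hx => ?_
    rw [uIcc_of_le hle] at hx
    simp only [hvw x hx]
  have e2 : ∀ k, ∫ x in x0..(x0 + a), v x * ec x0 a k x =
      ∫ x in x0..(x0 + a), w x * ec x0 a k x := by
    intro k
    refine intervalIntegral.integral_congr fun x hx => ?_
    rw [uIcc_of_le hle] at hx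
    simp only [hvw x hx]
  simp only [e1, e2] at h
  exact h

end

end Pool.Agent.Lib_helper95.EQW.BES

end

/-! ## Lib_helper95.EQW.B.PARS -/

section

/-!
# EQ project, block PARS
-/

set_option autoImplicit false

namespace Pool.Agent.Lib_helper95.EQW.PARS

open MeasureTheory Set Filter Topology
open Pool.Agent.EQ (dx dy)
open scoped ContDiff

noncomputable section

theorem pars_ext {x0 x1 : ℝ} (h : x0 ≤ x1) {w : ℝ → ℝ} (hw : ContinuousOn w (Icc x0 x1)) :
    ∃ v : ℝ → ℝ, Continuous v ∧ ∀ x ∈ Icc x0 x1, v x = w x := by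
  refine ⟨Set.IccExtend h (Set.domRestrict (Icc x0 x1) w), ?_, fun x hx => ?_⟩
  · exact (continuousOn_iff_continuous_domRestrict.mp hw).Icc_extend'
  · rw [Set.IccExtend_of_mem h _ hx]
    rfl

theorem pars_fold {a : ℝ} {g : ℝ → ℂ} (hg : Continuous g) :
    ∫ x in (-a)..a, g x = ∫ x in (0 : ℝ)..a, (g (-x) + g x) := by
  have h1 : ∫ x in (0 : ℝ)..a, g (-x) = ∫ x in (-a)..(-0), g x :=
    intervalIntegral.integral_comp_neg g
  rw [neg_zero] at h1
  have hi : IntervalIntegrable (fun x => g (-x)) volume 0 a :=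
    (hg.comp continuous_neg).intervalIntegrable _ _
  rw [intervalIntegral.integral_add hi (hg.intervalIntegrable _ _), h1,
    intervalIntegral.integral_add_adjacent_intervals
    (hg.intervalIntegrable _ _) (hg.intervalIntegrable _ _)]

theorem pars_foldR {a : ℝ} {g : ℝ → ℝ} (hg : Continuous g) :
    ∫ x in (-a)..a, g x = ∫ x in (0 : ℝ)..a, (g (-x) + g x) := by
  have h1 : ∫ x in (0 : ℝ)..a, g (-x) = ∫ x in (-a)..(-0), g x :=
    intervalIntegral.integral_comp_neg g
  rw [neg_zero] at h1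
  have hi : IntervalIntegrable (fun x => g (-x)) volume 0 a :=
    (hg.comp continuous_neg).intervalIntegrable _ _
  rw [intervalIntegral.integral_add hi (hg.intervalIntegrable _ _), h1,
    intervalIntegral.integral_add_adjacent_intervals
    (hg.intervalIntegrable _ _) (hg.intervalIntegrable _ _)]

theorem pars_exp (t : ℝ) : Complex.exp (-(t * Complex.I)) + Complex.exp (t * Complex.I) =
    ((2 * Real.cos t : ℝ) : ℂ) := by
  rw [show (-(t * Complex.I) : ℂ) = (-(t : ℂ)) * Complex.I by ring, Complex.exp_mul_I,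
    Complex.exp_mul_I, Complex.cos_neg, Complex.sin_neg]
  push_cast
  ring

theorem pars_coef {a : ℝ} (ha : 0 < a) {W : ℝ → ℝ} (hW : Continuous W) (h : -a < a) (n : ℤ) :
    fourierCoeffOn h (fun t => (W |t| : ℂ)) n =
      ((1 / a * ∫ t in (0 : ℝ)..a, W t * Real.cos (n * Real.pi * t / a) : ℝ) : ℂ) := by
  have ha' : (a : ℂ) ≠ 0 := by exact_mod_cast ha.ne'
  rw [fourierCoeffOn_eq_integral]
  have e1 : ∀ x : ℝ, (fourier (-n) (x : AddCircle (a - -a)) : ℂ) • (W |x| : ℂ) =
      Complex.exp (-((n * Real.pi * x / a : ℝ) * Complex.I)) * (W |x| : ℂ) := by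
    intro x
    rw [fourier_coe_apply, smul_eq_mul]
    congr 2
    push_cast
    field_simp
    ring
  simp only [e1]
  have hc : Continuous fun x : ℝ =>
      Complex.exp (-((n * Real.pi * x / a : ℝ) * Complex.I)) * (W |x| : ℂ) := by
    refine Continuous.mul (by fun_prop) ?_
    exact Complex.continuous_ofReal.comp (hW.comp continuous_abs)
  rw [pars_fold hc]
  have e2 : ∫ x in (0 : ℝ)..a, (Complex.exp (-((n * Real.pi * (-x) / a : ℝ) * Complex.I)) *
      (W |-x| : ℂ) + Complex.exp (-((n * Real.pi * x / a : ℝ) * Complex.I)) * (W |x| : ℂ)) =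
      ∫ x in (0 : ℝ)..a, ((2 * (W x * Real.cos (n * Real.pi * x / a)) : ℝ) : ℂ) := by
    refine intervalIntegral.integral_congr fun x hx => ?_
    rw [uIcc_of_le ha.le] at hx
    simp only [abs_neg, abs_of_nonneg hx.1]
    have e3 : (-((n * Real.pi * (-x) / a : ℝ) * Complex.I) : ℂ) =
        ((n * Real.pi * x / a : ℝ) : ℂ) * Complex.I := by
      push_cast
      ring
    rw [e3, ← add_mul, add_comm, pars_exp]
    push_cast
    ring
  rw [e2, intervalIntegral.integral_ofReal, intervalIntegral.integral_const_mul,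
    Complex.real_smul]
  push_cast
  field_simp
  ring

/-- Parseval for the cosine system of `[x0, x0+a]` -/
theorem PARS {x0 a : ℝ} (ha : 0 < a) {w : ℝ → ℝ} (hw : ContinuousOn w (Icc x0 (x0 + a))) :
    HasSum (fun k : ℕ => (∫ x in x0..(x0 + a), w x * ec x0 a k x) ^ 2)
      (∫ x in x0..(x0 + a), w x ^ 2) := by
  have hle : x0 ≤ x0 + a := by linarith
  obtain ⟨v, hv, hvw⟩ := pars_ext hle hw
  have hab : -a < a := by linarith
  set W : ℝ → ℝ := fun t => v (x0 + t) with hWd
  have hW : Continuous W := hv.comp (by fun_prop)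
  have hFc : Continuous fun t : ℝ => (W |t| : ℂ) :=
    Complex.continuous_ofReal.comp (hW.comp continuous_abs)
  have hL2 : MemLp (fun t : ℝ => (W |t| : ℂ)) 2 (volume.restrict (Ioc (-a) a)) := by
    obtain ⟨C, hC⟩ := (isCompact_Icc (a := -a) (b := a)).exists_bound_of_continuousOn
      hFc.continuousOn
    refine MemLp.of_bound hFc.aestronglyMeasurable C ?_
    refine ae_restrict_of_forall_mem measurableSet_Ioc fun x hx => hC x ⟨hx.1.le, hx.2⟩
  have h1 := hasSum_sq_fourierCoeffOn hab hL2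
  set d : ℤ → ℝ := fun n => 1 / a * ∫ t in (0 : ℝ)..a, W t * Real.cos (n * Real.pi * t / a) with hd
  have h2 : ∀ n : ℤ, ‖fourierCoeffOn hab (fun t => (W |t| : ℂ)) n‖ ^ 2 = d n ^ 2 := by
    intro n
    rw [pars_coef ha hW hab n, Complex.norm_real, Real.norm_eq_abs, sq_abs]
  have h3 : ∫ x in (-a)..a, ‖(W |x| : ℂ)‖ ^ 2 = 2 * ∫ x in (0 : ℝ)..a, W x ^ 2 := by
    have e1 : ∀ x : ℝ, ‖(W |x| : ℂ)‖ ^ 2 = W |x| ^ 2 := fun x => by
      rw [Complex.norm_real, Real.norm_eq_abs, sq_abs]
    simp only [e1]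
    rw [pars_foldR (g := fun x => W |x| ^ 2) ((hW.comp continuous_abs).pow 2),
      ← intervalIntegral.integral_const_mul]
    refine intervalIntegral.integral_congr fun x hx => ?_
    rw [uIcc_of_le ha.le] at hx
    simp only [abs_neg, abs_of_nonneg hx.1]
    ring
  simp only [h2, h3] at h1
  have h4 := HasSum.nat_add_neg h1
  have hneg : ∀ n : ℕ, d (-(n : ℤ)) = d n := by
    intro n
    rw [hd]
    simp only
    congr 1
    refine intervalIntegral.integral_congr fun x _ => ?_
    congr 1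
    rw [show (((-(n : ℤ)) : ℤ) : ℝ) * Real.pi * x / a = -((((n : ℤ) : ℝ)) * Real.pi * x / a) by
      push_cast; ring, Real.cos_neg]
  simp only [hneg] at h4
  have h5 := (h4.mul_left a).sub (hasSum_ite_eq 0 (a * d 0 ^ 2))
  have hint : ∀ g : ℝ → ℝ, ∫ x in x0..(x0 + a), w x * g x =
      ∫ t in (0 : ℝ)..a, W t * g (x0 + t) := by
    intro g
    have e1 : ∫ x in x0..(x0 + a), w x * g x = ∫ x in x0..(x0 + a), v x * g x := by
      refine intervalIntegral.integral_congr fun x hx => ?_
      rw [uIcc_of_le hle] at hx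
      simp only [hvw x hx]
    have e2 := intervalIntegral.integral_comp_add_left (a := 0) (b := a)
      (fun x => v x * g x) x0
    rw [add_zero] at e2
    rw [e1, ← e2]
  have hsq : ∫ x in x0..(x0 + a), w x ^ 2 = ∫ t in (0 : ℝ)..a, W t ^ 2 := by
    have e1 : ∫ x in x0..(x0 + a), w x ^ 2 = ∫ x in x0..(x0 + a), v x ^ 2 := by
      refine intervalIntegral.integral_congr fun x hx => ?_
      rw [uIcc_of_le hle] at hx
      simp only [hvw x hx]
    have e2 := intervalIntegral.integral_comp_add_left (a := 0) (b := a)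
      (fun x => v x ^ 2) x0
    rw [add_zero] at e2
    rw [e1, ← e2]
  have hval : a * ((a - -a)⁻¹ • (2 * ∫ x in (0 : ℝ)..a, W x ^ 2) + d 0 ^ 2) - a * d 0 ^ 2 =
      ∫ x in x0..(x0 + a), w x ^ 2 := by
    rw [hsq, smul_eq_mul]
    field_simp
    ring
  rw [hval] at h5
  refine h5.congr_fun fun k => ?_
  rw [hint]
  rcases Nat.eq_zero_or_pos k with hk | hk
  · subst hk
    rw [if_pos rfl]
    simp only [ec, if_true]
    rw [intervalIntegral.integral_mul_const]
    have e0 : d ((0 : ℕ) : ℤ) = 1 / a * ∫ t in (0 : ℝ)..a, W t := by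
      rw [hd]
      simp
    have e0' : d 0 = 1 / a * ∫ t in (0 : ℝ)..a, W t := by
      rw [← e0]; rfl
    have hs : √a ^ 2 = a := Real.sq_sqrt ha.le
    rw [e0, e0', mul_pow, div_pow, hs]
    field_simp
    ring
  · rw [if_neg (by omega)]
    simp only [ec, if_neg (show k ≠ 0 by omega), add_sub_cancel_left]
    have e1 : ∫ t in (0 : ℝ)..a, W t * (√(2 / a) * Real.cos (k * Real.pi * t / a)) =
        √(2 / a) * (a * d k) := by
      rw [hd]
      simp only
      rw [← mul_assoc a, mul_one_div_cancel ha.ne', one_mul,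
        ← intervalIntegral.integral_const_mul]
      refine intervalIntegral.integral_congr fun x _ => ?_
      simp only [Int.cast_natCast]
      ring
    have hs : √(2 / a) ^ 2 = 2 / a := Real.sq_sqrt (by positivity)
    rw [e1, mul_pow, hs]
    field_simp
    ring

end

end Pool.Agent.Lib_helper95.EQW.PARS

end

/-! ## Lib_helper95.EQW.B.BESD -/

section

/-!
# EQ project, block BESD
-/

set_option autoImplicit false

namespace Pool.Agent.Lib_helper95.EQW.BESD

open MeasureTheory Set Filter Topology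
open Pool.Agent.EQ (dx dy)
open scoped ContDiff

noncomputable section

theorem besd_ext {x0 x1 : ℝ} (h : x0 ≤ x1) {w : ℝ → ℝ} (hw : ContinuousOn w (Icc x0 x1)) :
    ∃ v : ℝ → ℝ, Continuous v ∧ ∀ x ∈ Icc x0 x1, v x = w x := by
  refine ⟨Set.IccExtend h (Set.domRestrict (Icc x0 x1) w), ?_, fun x hx => ?_⟩
  · exact (continuousOn_iff_continuous_domRestrict.mp hw).Icc_extend'
  · rw [Set.IccExtend_of_mem h _ hx]
    rfl

theorem besd_bessel {x0 x1 : ℝ} (h : x0 ≤ x1) {w : ℝ → ℝ} (hw : Continuous w)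
    {e : ℕ → ℝ → ℝ} (he : ∀ k, Continuous (e k))
    (ho : ∀ k l, ∫ x in x0..x1, e k x * e l x = if k = l then 1 else 0) (K : ℕ) :
    ∑ k ∈ Finset.range K, (∫ x in x0..x1, w x * e k x) ^ 2 ≤ ∫ x in x0..x1, w x ^ 2 := by
  set c : ℕ → ℝ := fun k => ∫ x in x0..x1, w x * e k x with hc
  set s : ℝ → ℝ := fun x => ∑ k ∈ Finset.range K, c k * e k x with hs
  have hsc : Continuous s := continuous_finsetSum _ fun k _ => continuous_const.mul (he k)
  have h0 : 0 ≤ ∫ x in x0..x1, (w x - s x) ^ 2 :=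
    intervalIntegral.integral_nonneg h fun x _ => sq_nonneg _
  have h1 : ∫ x in x0..x1, w x * s x = ∑ k ∈ Finset.range K, c k ^ 2 := by
    have e1 : ∀ x, w x * s x = ∑ k ∈ Finset.range K, c k * (w x * e k x) := by
      intro x
      rw [hs]
      simp only [Finset.mul_sum]
      exact Finset.sum_congr rfl fun k _ => by ring
    simp only [e1]
    rw [intervalIntegral.integral_finsetSum (f := fun k x => c k * (w x * e k x)) fun k _ => by
      refine Continuous.intervalIntegrable ?_ _ _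
      exact continuous_const.mul (hw.mul (he k))]
    refine Finset.sum_congr rfl fun k _ => ?_
    rw [intervalIntegral.integral_const_mul, sq]
  have h2 : ∫ x in x0..x1, s x ^ 2 = ∑ k ∈ Finset.range K, c k ^ 2 := by
    have e1 : ∀ x, s x ^ 2 = ∑ k ∈ Finset.range K, ∑ l ∈ Finset.range K,
        (c k * c l) * (e k x * e l x) := by
      intro x
      rw [hs, sq]
      simp only [Finset.sum_mul_sum]
      exact Finset.sum_congr rfl fun k _ => Finset.sum_congr rfl fun l _ => by ring
    simp only [e1]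
    rw [intervalIntegral.integral_finsetSum fun k _ => by
      refine Continuous.intervalIntegrable ?_ _ _
      exact continuous_finsetSum _ fun l _ => continuous_const.mul ((he k).mul (he l))]
    refine Finset.sum_congr rfl fun k hk => ?_
    rw [intervalIntegral.integral_finsetSum fun l _ => by
      refine Continuous.intervalIntegrable ?_ _ _
      exact continuous_const.mul ((he k).mul (he l))]
    rw [Finset.sum_eq_single k]
    · rw [intervalIntegral.integral_const_mul, ho, if_pos rfl, mul_one, sq]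
    · intro l _ hl
      rw [intervalIntegral.integral_const_mul, ho, if_neg (Ne.symm hl), mul_zero]
    · intro hk'
      exact absurd hk hk'
  have h3 : ∫ x in x0..x1, (w x - s x) ^ 2 =
      (∫ x in x0..x1, w x ^ 2) - 2 * (∫ x in x0..x1, w x * s x) + ∫ x in x0..x1, s x ^ 2 := by
    rw [← intervalIntegral.integral_const_mul, ← intervalIntegral.integral_sub,
      ← intervalIntegral.integral_add]
    · refine intervalIntegral.integral_congr fun x _ => ?_
      ring
    · exact Continuous.intervalIntegrable (by fun_prop) _ _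
    · exact Continuous.intervalIntegrable (by fun_prop) _ _
    · exact Continuous.intervalIntegrable (by fun_prop) _ _
    · exact Continuous.intervalIntegrable (by fun_prop) _ _
  rw [h3, h1, h2] at h0
  linarith

theorem besd_cos {x0 a : ℝ} (ha : 0 < a) (j : ℤ) :
    ∫ x in x0..(x0 + a), Real.cos (j * Real.pi * (x - x0) / a) = if j = 0 then a else 0 := by
  split_ifs with hj
  · subst hj
    simp
  · have hj' : (j : ℝ) ≠ 0 := by exact_mod_cast hj
    have hpi := Real.pi_ne_zero
    have hd : ∀ x : ℝ, HasDerivAt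
        (fun x => a / (j * Real.pi) * Real.sin (j * Real.pi * (x - x0) / a))
        (Real.cos (j * Real.pi * (x - x0) / a)) x := by
      intro x
      have h1 : HasDerivAt (fun x : ℝ => j * Real.pi * (x - x0) / a) (j * Real.pi / a) x := by
        have := (((hasDerivAt_id x).sub_const x0).const_mul (j * Real.pi)).div_const a
        simpa using this
      refine ((h1.sin).const_mul (a / (j * Real.pi))).congr_deriv ?_
      field_simp
    rw [intervalIntegral.integral_eq_sub_of_hasDerivAt (fun x _ => hd x)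
      (Continuous.intervalIntegrable (by fun_prop) _ _)]
    have e1 : j * Real.pi * (x0 + a - x0) / a = j * Real.pi := by
      field_simp
      ring
    have e2 : j * Real.pi * (x0 - x0) / a = 0 := by
      rw [sub_self, mul_zero, zero_div]
    rw [e1, e2, Real.sin_int_mul_pi, Real.sin_zero]
    ring

def besd_s (x0 a : ℝ) (k : ℕ) (x : ℝ) : ℝ :=
  √(2 / a) * Real.sin ((k + 1 : ℕ) * Real.pi * (x - x0) / a)

theorem besd_s_cont (x0 a : ℝ) (k : ℕ) : Continuous (besd_s x0 a k) := by
  unfold besd_s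
  fun_prop

theorem besd_orth {x0 a : ℝ} (ha : 0 < a) (k l : ℕ) :
    ∫ x in x0..(x0 + a), besd_s x0 a k x * besd_s x0 a l x = if k = l then 1 else 0 := by
  have hc := besd_cos (x0 := x0) ha
  have hsq2 : √(2 / a) * √(2 / a) = 2 / a := Real.mul_self_sqrt (by positivity)
  simp only [besd_s]
  have e1 : ∀ x, √(2 / a) * Real.sin ((k + 1 : ℕ) * Real.pi * (x - x0) / a) *
      (√(2 / a) * Real.sin ((l + 1 : ℕ) * Real.pi * (x - x0) / a)) =
      1 / a * (Real.cos (((k : ℤ) - (l : ℤ) : ℤ) * Real.pi * (x - x0) / a) -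
        Real.cos (((k : ℤ) + (l : ℤ) + 2 : ℤ) * Real.pi * (x - x0) / a)) := by
    intro x
    have e2 : (((k : ℤ) - (l : ℤ) : ℤ) : ℝ) * Real.pi * (x - x0) / a =
        (k + 1 : ℕ) * Real.pi * (x - x0) / a - (l + 1 : ℕ) * Real.pi * (x - x0) / a := by
      push_cast; ring
    have e3 : (((k : ℤ) + (l : ℤ) + 2 : ℤ) : ℝ) * Real.pi * (x - x0) / a =
        (k + 1 : ℕ) * Real.pi * (x - x0) / a + (l + 1 : ℕ) * Real.pi * (x - x0) / a := by
      push_cast; ring
    rw [e2, e3, Real.cos_sub, Real.cos_add]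
    linear_combination (Real.sin ((k + 1 : ℕ) * Real.pi * (x - x0) / a) *
      Real.sin ((l + 1 : ℕ) * Real.pi * (x - x0) / a)) * hsq2
  simp only [e1]
  rw [intervalIntegral.integral_const_mul, intervalIntegral.integral_sub
    (Continuous.intervalIntegrable (by fun_prop) _ _)
    (Continuous.intervalIntegrable (by fun_prop) _ _), hc, hc,
    if_neg (show ¬ ((k : ℤ) + (l : ℤ) + 2 = 0) by omega)]
  by_cases hkl : k = l
  · rw [if_pos (show ((k : ℤ) - (l : ℤ) = 0) by omega), if_pos hkl]
    field_simp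
    ring
  · rw [if_neg (show ¬ ((k : ℤ) - (l : ℤ) = 0) by omega), if_neg hkl]
    ring

theorem besd_ibp {x0 a : ℝ} (ha : 0 < a) {v : ℝ → ℝ} (hv : Continuous v) (c : ℝ) (k : ℕ) :
    ∫ x in x0..(x0 + a), v x * besd_s x0 a k x =
      -(((k + 1 : ℕ) * Real.pi / a) *
        ∫ x in x0..(x0 + a), (c + ∫ t in x0..x, v t) * ec x0 a (k + 1) x) := by
  have hF : ∀ x, HasDerivAt (fun x => c + ∫ t in x0..x, v t) (v x) x := by
    intro x
    exact (intervalIntegral.integral_hasDerivAt_right (hv.intervalIntegrable _ _)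
      (hv.stronglyMeasurableAtFilter _ _) hv.continuousAt).const_add c
  have hs : ∀ x, HasDerivAt (besd_s x0 a k)
      (((k + 1 : ℕ) * Real.pi / a) * ec x0 a (k + 1) x) x := by
    intro x
    have h1 : HasDerivAt (fun x : ℝ => (k + 1 : ℕ) * Real.pi * (x - x0) / a)
        ((k + 1 : ℕ) * Real.pi / a) x := by
      have := (((hasDerivAt_id x).sub_const x0).const_mul ((k + 1 : ℕ) * Real.pi)).div_const a
      simpa using this
    have h2 := (h1.sin).const_mul (√(2 / a))
    unfold besd_s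
    refine h2.congr_deriv ?_
    unfold ec
    rw [if_neg (Nat.succ_ne_zero k)]
    ring
  have hec : Continuous (ec x0 a (k + 1)) := by
    have e0 : ec x0 a (k + 1) =
        fun x => √(2 / a) * Real.cos ((k + 1 : ℕ) * Real.pi * (x - x0) / a) := by
      funext x
      unfold ec
      rw [if_neg (Nat.succ_ne_zero k)]
    rw [e0]
    fun_prop
  have h := intervalIntegral.integral_mul_deriv_eq_deriv_mul (a := x0) (b := x0 + a)
    (fun x _ => hF x) (fun x _ => hs x) (hv.intervalIntegrable _ _)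
    (Continuous.intervalIntegrable (by fun_prop) _ _)
  have z1 : besd_s x0 a k (x0 + a) = 0 := by
    unfold besd_s
    have e1 : ((k + 1 : ℕ) : ℝ) * Real.pi * (x0 + a - x0) / a = (k + 1 : ℕ) * Real.pi := by
      field_simp
      ring
    rw [e1, Real.sin_nat_mul_pi, mul_zero]
  have z2 : besd_s x0 a k x0 = 0 := by
    unfold besd_s
    rw [sub_self, mul_zero, zero_div, Real.sin_zero, mul_zero]
  rw [z1, z2] at h
  have e3 : ∫ x in x0..(x0 + a), (c + ∫ t in x0..x, v t) *
      (((k + 1 : ℕ) * Real.pi / a) * ec x0 a (k + 1) x) =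
      ((k + 1 : ℕ) * Real.pi / a) *
        ∫ x in x0..(x0 + a), (c + ∫ t in x0..x, v t) * ec x0 a (k + 1) x := by
    rw [← intervalIntegral.integral_const_mul]
    refine intervalIntegral.integral_congr fun x _ => ?_
    ring
  rw [e3] at h
  linarith

/-- Bessel for the derivative -/
theorem BESD {x0 a : ℝ} (ha : 0 < a) {w w' : ℝ → ℝ} (hw' : ContinuousOn w' (Icc x0 (x0 + a)))
    (h : ∀ x ∈ Icc x0 (x0 + a), w x = w x0 + ∫ t in x0..x, w' t) (K : ℕ) :
    ∑ k ∈ Finset.range K, (k * Real.pi / a) ^ 2 * (∫ x in x0..(x0 + a), w x * ec x0 a k x) ^ 2 ≤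
      ∫ x in x0..(x0 + a), w' x ^ 2 := by
  have hle : x0 ≤ x0 + a := by linarith
  obtain ⟨v, hv, hvw⟩ := besd_ext hle hw'
  have hb := besd_bessel hle hv (besd_s_cont x0 a) (besd_orth ha)
  have e1 : ∫ x in x0..(x0 + a), v x ^ 2 = ∫ x in x0..(x0 + a), w' x ^ 2 := by
    refine intervalIntegral.integral_congr fun x hx => ?_
    rw [uIcc_of_le hle] at hx
    simp only [hvw x hx]
  have e2 : ∀ k, (∫ x in x0..(x0 + a), v x * besd_s x0 a k x) ^ 2 =
      (((k + 1 : ℕ) : ℝ) * Real.pi / a) ^ 2 *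
        (∫ x in x0..(x0 + a), w x * ec x0 a (k + 1) x) ^ 2 := by
    intro k
    rw [besd_ibp ha hv (w x0) k, neg_sq, mul_pow]
    congr 2
    refine intervalIntegral.integral_congr fun x hx => ?_
    rw [uIcc_of_le hle] at hx
    have e3 : ∫ t in x0..x, v t = ∫ t in x0..x, w' t := by
      refine intervalIntegral.integral_congr fun t ht => ?_
      rw [uIcc_of_le hx.1] at ht
      exact hvw t ⟨ht.1, ht.2.trans hx.2⟩
    simp only [e3]
    rw [← h x hx]
  simp only [e1, e2] at hb
  cases K with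
  | zero =>
    rw [Finset.sum_range_zero]
    exact intervalIntegral.integral_nonneg hle fun x _ => sq_nonneg _
  | succ K =>
    rw [Finset.sum_range_succ']
    have := hb K
    simp only [Nat.cast_zero, zero_mul, zero_div, ne_eq, OfNat.ofNat_ne_zero, not_false_eq_true,
      zero_pow, add_zero]
    exact this

end

end Pool.Agent.Lib_helper95.EQW.BESD

end

/-! ## Lib_helper95.EQW.B.CNTU -/

section

/-!
EQ project, package S2, Weyl law: block CNTU (helper67).
-/

set_option autoImplicit false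

namespace Pool.Agent.Lib_helper95.EQW.CNTU

open MeasureTheory Set Filter Topology

noncomputable section

/-- quarter disc integral -/
theorem CNTU_int {X : ℝ} (hX : 0 ≤ X) : ∫ x in (0 : ℝ)..X, √(X ^ 2 - x ^ 2) = Real.pi / 4 * X ^ 2 := by
  rcases hX.eq_or_lt with rfl | hX
  · simp
  have h1 := integral_sqrt_one_sub_sq
  have h2 : ∫ x in (-1 : ℝ)..1, √(1 - x ^ 2) = 2 * ∫ x in (0 : ℝ)..1, √(1 - x ^ 2) := by
    have hc : Continuous fun x : ℝ => √(1 - x ^ 2) := by fun_prop
    rw [← intervalIntegral.integral_add_adjacent_intervals (hc.intervalIntegrable (-1) 0)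
      (hc.intervalIntegrable 0 1)]
    have h3 : ∫ x in (-1 : ℝ)..0, √(1 - x ^ 2) = ∫ x in (0 : ℝ)..1, √(1 - x ^ 2) := by
      have := intervalIntegral.integral_comp_neg (a := 0) (b := 1) fun x : ℝ => √(1 - x ^ 2)
      simp only [neg_sq, neg_zero] at this
      exact this.symm
    rw [h3]
    ring
  have h3 : ∫ x in (0 : ℝ)..X, √(X ^ 2 - x ^ 2) = X ^ 2 * ∫ x in (0 : ℝ)..1, √(1 - x ^ 2) := by
    have := intervalIntegral.smul_integral_comp_mul_left (a := 0) (b := 1)
      (fun x : ℝ => √(X ^ 2 - x ^ 2)) X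
    rw [mul_zero, mul_one] at this
    rw [← this, smul_eq_mul, ← intervalIntegral.integral_const_mul,
      ← intervalIntegral.integral_const_mul]
    congr 1
    ext x
    have : X ^ 2 - (X * x) ^ 2 = X ^ 2 * (1 - x ^ 2) := by ring
    rw [this, Real.sqrt_mul (by positivity), Real.sqrt_sq hX.le]
    ring
  rw [h3]
  have h4 : ∫ x in (0 : ℝ)..1, √(1 - x ^ 2) = Real.pi / 4 := by linarith
  rw [h4]
  ring

theorem CNTU_anti (X : ℝ) : AntitoneOn (fun x : ℝ => √(X ^ 2 - x ^ 2)) (Ici 0) := by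
  intro x hx y hy hxy
  apply Real.sqrt_le_sqrt
  have : x ^ 2 ≤ y ^ 2 := pow_le_pow_left₀ hx hxy 2
  linarith

theorem CNTU {X : ℝ} (hX : 0 ≤ X) : ∃ S : Finset (ℕ × ℕ),
    (∀ k l : ℕ, (k : ℝ) ^ 2 + (l : ℝ) ^ 2 < X ^ 2 → (k, l) ∈ S) ∧
      (S.card : ℝ) ≤ Real.pi / 4 * X ^ 2 + 3 * X + 3 := by
  rcases hX.eq_or_lt with rfl | hX0
  · refine ⟨∅, ?_, ?_⟩
    · intro k l h
      have h1 : (0 : ℝ) ≤ (k : ℝ) ^ 2 + (l : ℝ) ^ 2 := by positivity
      norm_num at h
      linarith
    · simp
  set n := ⌈X⌉₊ with hn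
  set f : ℝ → ℝ := fun x => √(X ^ 2 - x ^ 2) with hf
  refine ⟨(Finset.range n).biUnion fun k => (Finset.range ⌈f k⌉₊).image (Prod.mk k), ?_, ?_⟩
  · intro k l h
    rw [Finset.mem_biUnion]
    refine ⟨k, ?_, ?_⟩
    · rw [Finset.mem_range, hn, Nat.lt_ceil]
      by_contra hc
      push Not at hc
      have : X ^ 2 ≤ (k : ℝ) ^ 2 := pow_le_pow_left₀ hX hc 2
      nlinarith [sq_nonneg (l : ℝ)]
    · refine Finset.mem_image.2 ⟨l, ?_, rfl⟩
      rw [Finset.mem_range, Nat.lt_ceil, hf]
      apply Real.lt_sqrt_of_sq_lt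
      linarith
  · have h1 : ((Finset.range n).biUnion fun k => (Finset.range ⌈f k⌉₊).image (Prod.mk k)).card
        ≤ ∑ k ∈ Finset.range n, ⌈f k⌉₊ := by
      refine Finset.card_biUnion_le.trans (Finset.sum_le_sum fun k _ => ?_)
      refine Finset.card_image_le.trans ?_
      rw [Finset.card_range]
    have h2 : ((∑ k ∈ Finset.range n, ⌈f k⌉₊ : ℕ) : ℝ) ≤ ∑ k ∈ Finset.range n, (f k + 1) := by
      push_cast
      refine Finset.sum_le_sum fun k _ => ?_
      exact (Nat.ceil_lt_add_one (Real.sqrt_nonneg _)).le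
    obtain ⟨m, hm⟩ : ∃ m, n = m + 1 := by
      have : 0 < n := Nat.ceil_pos.2 hX0
      exact ⟨n - 1, by omega⟩
    have hmX : (m : ℝ) ≤ X := by
      have : (n : ℝ) < X + 1 := Nat.ceil_lt_add_one hX
      rw [hm] at this
      push_cast at this
      linarith
    have h3 : ∑ k ∈ Finset.range m, f (0 + ((k + 1 : ℕ) : ℝ)) ≤ ∫ x in (0 : ℝ)..(0 + m), f x :=
      AntitoneOn.sum_le_integral ((CNTU_anti X).mono fun x hx => hx.1)
    have hfc : Continuous f := by
      rw [hf]
      fun_prop
    have h4 : ∫ x in (0 : ℝ)..(0 + m), f x ≤ ∫ x in (0 : ℝ)..X, f x := by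
      rw [zero_add, ← intervalIntegral.integral_add_adjacent_intervals
        (hfc.intervalIntegrable 0 m) (hfc.intervalIntegrable m X)]
      have : 0 ≤ ∫ x in (m : ℝ)..X, f x :=
        intervalIntegral.integral_nonneg hmX fun x _ => Real.sqrt_nonneg _
      linarith
    have h5 : ∑ k ∈ Finset.range n, (f k + 1) = f 0 +
        ∑ k ∈ Finset.range m, f (0 + ((k + 1 : ℕ) : ℝ)) + (m + 1) := by
      rw [Finset.sum_add_distrib, hm, Finset.sum_range_succ']
      simp
      ring
    have h6 : f 0 = X := by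
      rw [hf]
      simp [Real.sqrt_sq hX]
    have h7 := CNTU_int hX
    have h8 : (((Finset.range n).biUnion fun k => (Finset.range ⌈f k⌉₊).image (Prod.mk k)).card : ℝ)
        ≤ ((∑ k ∈ Finset.range n, ⌈f k⌉₊ : ℕ) : ℝ) := by exact_mod_cast h1
    have h9 : ∫ x in (0 : ℝ)..X, f x = Real.pi / 4 * X ^ 2 := h7
    linarith

end

end Pool.Agent.Lib_helper95.EQW.CNTU

end

/-! ## Lib_helper95.EQW.B.CNTL -/

section

/-!
EQ project, package S2, Weyl law: block CNTL (helper67).
-/

set_option autoImplicit false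

namespace Pool.Agent.Lib_helper95.EQW.CNTL

open MeasureTheory Set Filter Topology

noncomputable section

/-- quarter disc integral -/
theorem CNTL_int {X : ℝ} (hX : 0 ≤ X) : ∫ x in (0 : ℝ)..X, √(X ^ 2 - x ^ 2) = Real.pi / 4 * X ^ 2 := by
  rcases hX.eq_or_lt with rfl | hX
  · simp
  have h1 := integral_sqrt_one_sub_sq
  have h2 : ∫ x in (-1 : ℝ)..1, √(1 - x ^ 2) = 2 * ∫ x in (0 : ℝ)..1, √(1 - x ^ 2) := by
    have hc : Continuous fun x : ℝ => √(1 - x ^ 2) := by fun_prop
    rw [← intervalIntegral.integral_add_adjacent_intervals (hc.intervalIntegrable (-1) 0)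
      (hc.intervalIntegrable 0 1)]
    have h3 : ∫ x in (-1 : ℝ)..0, √(1 - x ^ 2) = ∫ x in (0 : ℝ)..1, √(1 - x ^ 2) := by
      have := intervalIntegral.integral_comp_neg (a := 0) (b := 1) fun x : ℝ => √(1 - x ^ 2)
      simp only [neg_sq, neg_zero] at this
      exact this.symm
    rw [h3]
    ring
  have h3 : ∫ x in (0 : ℝ)..X, √(X ^ 2 - x ^ 2) = X ^ 2 * ∫ x in (0 : ℝ)..1, √(1 - x ^ 2) := by
    have := intervalIntegral.smul_integral_comp_mul_left (a := 0) (b := 1)
      (fun x : ℝ => √(X ^ 2 - x ^ 2)) X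
    rw [mul_zero, mul_one] at this
    rw [← this, smul_eq_mul, ← intervalIntegral.integral_const_mul,
      ← intervalIntegral.integral_const_mul]
    congr 1
    ext x
    have : X ^ 2 - (X * x) ^ 2 = X ^ 2 * (1 - x ^ 2) := by ring
    rw [this, Real.sqrt_mul (by positivity), Real.sqrt_sq hX.le]
    ring
  rw [h3]
  have h4 : ∫ x in (0 : ℝ)..1, √(1 - x ^ 2) = Real.pi / 4 := by linarith
  rw [h4]
  ring

theorem CNTL_anti (X : ℝ) : AntitoneOn (fun x : ℝ => √(X ^ 2 - x ^ 2)) (Ici 0) := by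
  intro x hx y hy hxy
  apply Real.sqrt_le_sqrt
  have : x ^ 2 ≤ y ^ 2 := pow_le_pow_left₀ hx hxy 2
  linarith

theorem CNTL_shift (f : ℝ → ℝ) (n : ℕ) :
    ∑ k ∈ Finset.Icc 1 n, f (k : ℝ) = ∑ k ∈ Finset.range n, f (1 + (k : ℝ)) := by
  induction n with
  | zero => simp
  | succ n ih =>
    rw [Finset.sum_Icc_succ_top (by omega), Finset.sum_range_succ, ih]
    push_cast
    rw [add_comm (n : ℝ) 1]

theorem CNTL {X : ℝ} (hX : 0 ≤ X) : ∃ S : Finset (ℕ × ℕ),
    (∀ p ∈ S, 1 ≤ p.1 ∧ 1 ≤ p.2 ∧ (p.1 : ℝ) ^ 2 + (p.2 : ℝ) ^ 2 ≤ X ^ 2) ∧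
      Real.pi / 4 * X ^ 2 - 3 * X - 3 ≤ S.card := by
  set n := ⌊X⌋₊ with hn
  set f : ℝ → ℝ := fun x => √(X ^ 2 - x ^ 2) with hf
  have hnX : (n : ℝ) ≤ X := Nat.floor_le hX
  have hXn : X < n + 1 := Nat.lt_floor_add_one X
  refine ⟨(Finset.Icc 1 n).biUnion fun k => (Finset.Icc 1 ⌊f k⌋₊).image (Prod.mk k), ?_, ?_⟩
  · intro p hp
    rw [Finset.mem_biUnion] at hp
    obtain ⟨k, hk, hp⟩ := hp
    obtain ⟨l, hl, rfl⟩ := Finset.mem_image.1 hp
    rw [Finset.mem_Icc] at hk hl
    refine ⟨hk.1, hl.1, ?_⟩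
    have h1 : (k : ℝ) ≤ X := le_trans (by exact_mod_cast hk.2) hnX
    have h2 : (k : ℝ) ^ 2 ≤ X ^ 2 := pow_le_pow_left₀ (Nat.cast_nonneg k) h1 2
    have h3 : (l : ℝ) ≤ f k := le_trans (by exact_mod_cast hl.2) (Nat.floor_le (Real.sqrt_nonneg _))
    have h4 : (l : ℝ) ^ 2 ≤ f k ^ 2 := pow_le_pow_left₀ (Nat.cast_nonneg l) h3 2
    have h5 : f k ^ 2 = X ^ 2 - (k : ℝ) ^ 2 := Real.sq_sqrt (by linarith)
    change (k : ℝ) ^ 2 + (l : ℝ) ^ 2 ≤ X ^ 2
    linarith
  · have h1 : ((Finset.Icc 1 n).biUnion fun k => (Finset.Icc 1 ⌊f k⌋₊).image (Prod.mk k)).card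
        = ∑ k ∈ Finset.Icc 1 n, ⌊f k⌋₊ := by
      rw [Finset.card_biUnion]
      · refine Finset.sum_congr rfl fun k _ => ?_
        rw [Finset.card_image_of_injective _ (Prod.mk_right_injective k), Nat.card_Icc,
          Nat.add_sub_cancel]
      · intro k _ k' _ hkk
        rw [Function.onFun, Finset.disjoint_left]
        rintro ⟨u, v⟩ h1 h2
        obtain ⟨l, -, h1⟩ := Finset.mem_image.1 h1
        obtain ⟨l', -, h2⟩ := Finset.mem_image.1 h2
        apply hkk
        rw [Prod.mk.injEq] at h1 h2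
        exact h1.1.trans h2.1.symm
    have h2 : ∑ k ∈ Finset.Icc 1 n, (f k - 1) ≤ ((∑ k ∈ Finset.Icc 1 n, ⌊f k⌋₊ : ℕ) : ℝ) := by
      push_cast
      refine Finset.sum_le_sum fun k _ => ?_
      exact (Nat.sub_one_lt_floor _).le
    have h3 : ∫ x in (1 : ℝ)..(1 + n), f x ≤ ∑ k ∈ Finset.range n, f (1 + (k : ℝ)) :=
      AntitoneOn.integral_le_sum ((CNTL_anti X).mono fun x hx => le_trans zero_le_one hx.1)
    have h5 : ∑ k ∈ Finset.Icc 1 n, (f k - 1) = ∑ k ∈ Finset.range n, f (1 + (k : ℝ)) - n := by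
      rw [Finset.sum_sub_distrib]
      congr 1
      · exact CNTL_shift f n
      · simp
    have hfc : Continuous f := by
      rw [hf]
      fun_prop
    have h6 : ∫ x in (1 : ℝ)..(1 + n), f x =
        (∫ x in (0 : ℝ)..X, f x) + (∫ x in X..(1 + n), f x) - ∫ x in (0 : ℝ)..1, f x := by
      rw [intervalIntegral.integral_add_adjacent_intervals
        (hfc.intervalIntegrable _ _) (hfc.intervalIntegrable _ _),
        ← intervalIntegral.integral_add_adjacent_intervals
        (hfc.intervalIntegrable 0 1) (hfc.intervalIntegrable 1 (1 + n))]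
      ring
    have h7 : 0 ≤ ∫ x in X..(1 + n), f x :=
      intervalIntegral.integral_nonneg (by linarith) fun x _ => Real.sqrt_nonneg _
    have h8 : ∫ x in (0 : ℝ)..1, f x ≤ X := by
      have : ∫ x in (0 : ℝ)..1, f x ≤ ∫ x in (0 : ℝ)..1, X := by
        refine intervalIntegral.integral_mono_on zero_le_one (hfc.intervalIntegrable _ _)
          intervalIntegrable_const fun x _ => ?_
        rw [hf]
        change √(X ^ 2 - x ^ 2) ≤ X
        refine Real.sqrt_le_iff.2 ⟨hX, ?_⟩
        nlinarith [sq_nonneg x]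
      simpa using this
    have h9 : ∫ x in (0 : ℝ)..X, f x = Real.pi / 4 * X ^ 2 := CNTL_int hX
    rw [h1]
    linarith

end

end Pool.Agent.Lib_helper95.EQW.CNTL

end

/-! ## Lib_helper95.EQW.B.RCI -/

section

/-! EQW block RCI (helper16): Fubini on a rectangle of the complex plane. -/

set_option autoImplicit false

namespace Pool.Agent.Lib_helper95.EQW.RCI

open MeasureTheory Set Filter Topology
open Pool.Agent.EQ (dx dy)
open scoped ContDiff

theorem rci_pre (x0 y0 a b : ℝ) : rct x0 y0 a b =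
    Complex.measurableEquivRealProd ⁻¹' (Icc x0 (x0 + a) ×ˢ Icc y0 (y0 + b)) := by
  ext z
  simp only [rct, mem_preimage, mem_prod, Complex.measurableEquivRealProd_apply, mem_Icc,
    mem_ofPred_eq, and_assoc]

/-- Fubini on a rectangle of `ℂ` -/
theorem RCI {x0 y0 a b : ℝ} (ha : 0 < a) (hb : 0 < b) {f : ℂ → ℝ}
    (hf : ContinuousOn f (rct x0 y0 a b)) :
    ∫ z in rct x0 y0 a b, f z = ∫ y in y0..(y0 + b), ∫ x in x0..(x0 + a), f ⟨x, y⟩ := by
  have hcont : Continuous (fun p : ℝ × ℝ => (⟨p.1, p.2⟩ : ℂ)) :=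
    Complex.equivRealProdCLM.symm.continuous
  have hc : ContinuousOn (fun p : ℝ × ℝ => f ⟨p.1, p.2⟩) (Icc x0 (x0 + a) ×ˢ Icc y0 (y0 + b)) := by
    refine hf.comp hcont.continuousOn ?_
    rintro p ⟨h1, h2⟩
    exact ⟨h1.1, h1.2, h2.1, h2.2⟩
  have hi : IntegrableOn (fun p : ℝ × ℝ => f ⟨p.1, p.2⟩) (Icc x0 (x0 + a) ×ˢ Icc y0 (y0 + b))
      ((volume : Measure ℝ).prod volume) := by
    have := hc.integrableOn_compact (μ := (volume : Measure (ℝ × ℝ))) (isCompact_Icc.prod isCompact_Icc)
    rwa [Measure.volume_eq_prod] at this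
  have h1 : ∫ z in rct x0 y0 a b, f z
      = ∫ p in Icc x0 (x0 + a) ×ˢ Icc y0 (y0 + b), f ⟨p.1, p.2⟩ := by
    rw [rci_pre]
    have := Complex.volume_preserving_equiv_real_prod.setIntegral_preimage_emb
      Complex.measurableEquivRealProd.measurableEmbedding (fun p : ℝ × ℝ => f ⟨p.1, p.2⟩)
      (Icc x0 (x0 + a) ×ˢ Icc y0 (y0 + b))
    exact this
  rw [h1, Measure.volume_eq_prod, ← Measure.prod_restrict]
  rw [IntegrableOn, ← Measure.prod_restrict] at hi
  rw [integral_prod_symm _ hi]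
  rw [intervalIntegral.integral_of_le (by linarith), integral_Icc_eq_integral_Ioc]
  refine setIntegral_congr_fun measurableSet_Ioc fun y _ => ?_
  simp only
  rw [intervalIntegral.integral_of_le (by linarith), integral_Icc_eq_integral_Ioc]

end Pool.Agent.Lib_helper95.EQW.RCI

end

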