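import Mathlib
import Pool.Agent.Lib_helper71.EQM.Weyl0

/-! Project EQ (MP_ed6ab2_an): merged modules Lib_helper95.EQW.B.C1R, Lib_helper95.EQW.B.POL, Lib_helper95.EQW.B.C1P, Lib_helper95.EQW.B.SQF, Lib_helper95.EQW.B.COV, Lib_helper95.EQW.B.DIS, Lib_helper95.EQW.B.DIMC, Lib_helper95.EQW.B.RELL. -/

set_option autoImplicit false

/-! ## Lib_helper95.EQW.B.C1R -/

section

/-! EQW block C1R (helper81). -/

set_option autoImplicit false

namespace Pool.Agent.Lib_helper95.EQW.C1R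

open MeasureTheory Set Filter Topology
open Pool.Agent.EQ (dx dy)
open scoped ContDiff

noncomputable section

theorem C1R_mem {x0 y0 a b x y : ℝ} (hx : x ∈ Icc x0 (x0 + a)) (hy : y ∈ Icc y0 (y0 + b)) :
    (⟨x, y⟩ : ℂ) ∈ rct x0 y0 a b := ⟨hx.1, hx.2, hy.1, hy.2⟩

theorem C1R {F : Set ℂ} {v : ℂ → ℝ} (hv : C1N F v) {x0 y0 a b : ℝ} (ha : 0 < a) (hb : 0 < b)
    (hQ : rct x0 y0 a b ⊆ F) :
    ContinuousOn v (rct x0 y0 a b) ∧ ContinuousOn (dx v) (rct x0 y0 a b) ∧
    ContinuousOn (dy v) (rct x0 y0 a b) ∧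
    (∀ y ∈ Icc y0 (y0 + b), ∀ x ∈ Icc x0 (x0 + a),
      v ⟨x, y⟩ = v ⟨x0, y⟩ + ∫ t in x0..x, dx v ⟨t, y⟩) ∧
    (∀ x ∈ Icc x0 (x0 + a), ∀ y ∈ Icc y0 (y0 + b),
      v ⟨x, y⟩ = v ⟨x, y0⟩ + ∫ t in y0..y, dy v ⟨x, t⟩) := by
  obtain ⟨U, hU, hFU, hvU⟩ := hv
  have hQU : rct x0 y0 a b ⊆ U := hQ.trans hFU
  have hfd : ContinuousOn (fun z => fderiv ℝ v z) U :=
    hvU.continuousOn_fderiv_of_isOpen hU le_rfl
  have hdx : ContinuousOn (dx v) (rct x0 y0 a b) :=
    (hfd.clm_apply continuousOn_const).mono hQU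
  have hdy : ContinuousOn (dy v) (rct x0 y0 a b) :=
    (hfd.clm_apply continuousOn_const).mono hQU
  have hdiff : ∀ z ∈ rct x0 y0 a b, HasFDerivAt v (fderiv ℝ v z) z := fun z hz =>
    ((hvU.contDiffAt (hU.mem_nhds (hQU hz))).differentiableAt one_ne_zero).hasFDerivAt
  refine ⟨hvU.continuousOn.mono hQU, hdx, hdy, ?_, ?_⟩
  · intro y hy x hx
    have hseg : ∀ t ∈ uIcc x0 x, (⟨t, y⟩ : ℂ) ∈ rct x0 y0 a b := by
      intro t ht
      rw [uIcc_of_le hx.1] at ht
      exact C1R_mem ⟨ht.1, ht.2.trans hx.2⟩ hy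
    have hline : ∀ t : ℝ, HasDerivAt (fun t : ℝ => (⟨t, y⟩ : ℂ)) 1 t := by
      intro t
      have h1 : HasDerivAt (fun t : ℝ => ((t : ℂ) + (y : ℂ) * Complex.I)) 1 t := by
        simpa using (Complex.ofRealCLM.hasDerivAt (x := t)).add_const ((y : ℂ) * Complex.I)
      refine h1.congr_of_eventuallyEq (Eventually.of_forall fun s => ?_)
      exact Complex.mk_eq_add_mul_I s y
    have hder : ∀ t ∈ uIcc x0 x, HasDerivAt (fun t : ℝ => v ⟨t, y⟩) (dx v ⟨t, y⟩) t := by
      intro t ht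
      exact (hdiff _ (hseg t ht)).comp_hasDerivAt t (hline t)
    have hint : IntervalIntegrable (fun t => dx v ⟨t, y⟩) volume x0 x := by
      apply ContinuousOn.intervalIntegrable
      refine hdx.comp ?_ hseg
      exact (continuous_iff_continuousAt.2 fun t => (hline t).continuousAt).continuousOn
    rw [intervalIntegral.integral_eq_sub_of_hasDerivAt hder hint]
    ring
  · intro x hx y hy
    have hseg : ∀ t ∈ uIcc y0 y, (⟨x, t⟩ : ℂ) ∈ rct x0 y0 a b := by
      intro t ht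
      rw [uIcc_of_le hy.1] at ht
      exact C1R_mem hx ⟨ht.1, ht.2.trans hy.2⟩
    have hline : ∀ t : ℝ, HasDerivAt (fun t : ℝ => (⟨x, t⟩ : ℂ)) Complex.I t := by
      intro t
      have h1 : HasDerivAt (fun t : ℝ => ((x : ℂ) + (t : ℂ) * Complex.I)) Complex.I t := by
        simpa using ((Complex.ofRealCLM.hasDerivAt (x := t)).mul_const Complex.I).const_add (x : ℂ)
      refine h1.congr_of_eventuallyEq (Eventually.of_forall fun s => ?_)
      exact Complex.mk_eq_add_mul_I x s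
    have hder : ∀ t ∈ uIcc y0 y, HasDerivAt (fun t : ℝ => v ⟨x, t⟩) (dy v ⟨x, t⟩) t := by
      intro t ht
      exact (hdiff _ (hseg t ht)).comp_hasDerivAt t (hline t)
    have hint : IntervalIntegrable (fun t => dy v ⟨x, t⟩) volume y0 y := by
      apply ContinuousOn.intervalIntegrable
      refine hdy.comp ?_ hseg
      exact (continuous_iff_continuousAt.2 fun t => (hline t).continuousAt).continuousOn
    rw [intervalIntegral.integral_eq_sub_of_hasDerivAt hder hint]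
    ring

end

end Pool.Agent.Lib_helper95.EQW.C1R

end

/-! ## Lib_helper95.EQW.B.POL -/

section

set_option autoImplicit false

namespace Pool.Agent.Lib_helper95.EQW.POL

open MeasureTheory Set Filter Topology

theorem symm_eq (r t : ℝ) : Complex.polarCoord.symm (r, t) =
    (r : ℂ) * Complex.exp (t * Complex.I) := by
  rw [Complex.polarCoord_symm_apply, Complex.exp_mul_I, Complex.ofReal_cos, Complex.ofReal_sin]

theorem POL {R : ℝ} (hR : 1 < R) {f : ℂ → ℝ} (hf : IntegrableOn f {z | 1 ≤ ‖z‖ ∧ ‖z‖ ≤ R}) :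
    ∫ z in {z : ℂ | 1 ≤ ‖z‖ ∧ ‖z‖ ≤ R}, f z =
      ∫ t in (-Real.pi)..Real.pi, ∫ r in (1 : ℝ)..R,
        r * f ((r : ℂ) * Complex.exp (t * Complex.I)) := by
  obtain ⟨A, hA⟩ : ∃ A : Set ℂ, A = {z : ℂ | 1 ≤ ‖z‖ ∧ ‖z‖ ≤ R} := ⟨_, rfl⟩
  rw [← hA] at hf ⊢
  have hAm : MeasurableSet A := by
    rw [hA]
    exact ((isClosed_le continuous_const continuous_norm).inter
      (isClosed_le continuous_norm continuous_const)).measurableSet
  have hFi : Integrable (A.indicator f) := (integrable_indicator_iff hAm).2 hf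
  have hgi : Integrable (fun q : ℝ × ℝ => A.indicator f (Complex.measurableEquivRealProd.symm q)) :=
    ((Complex.volume_preserving_equiv_real_prod.symm).integrable_comp_emb
      Complex.measurableEquivRealProd.symm.measurableEmbedding).2 hFi
  have h1 : IntegrableOn (fun p : ℝ × ℝ => p.1 * A.indicator f (Complex.polarCoord.symm p))
      (Ioi (0 : ℝ) ×ˢ Ioo (-Real.pi) Real.pi) := by
    have h2 := (integrableOn_image_iff_integrableOn_abs_det_fderiv_smul volume
      (s := polarCoord.target) (f := polarCoord.symm) (f' := fderivPolarCoordSymm)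
      polarCoord.open_target.measurableSet
      (fun p _ => (hasFDerivAt_polarCoord_symm p).hasFDerivWithinAt) polarCoord.symm.injOn
      (fun q : ℝ × ℝ => A.indicator f (Complex.measurableEquivRealProd.symm q))).1
      hgi.integrableOn
    refine IntegrableOn.congr_fun h2 ?_ polarCoord.open_target.measurableSet
    intro p hp
    have hp1 : 0 < p.1 := hp.1
    simp only [det_fderivPolarCoordSymm, abs_of_pos hp1, smul_eq_mul,
      Complex.measurableEquivRealProd_symm_polarCoord_symm_apply]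
  calc ∫ z in A, f z = ∫ z, A.indicator f z := (integral_indicator hAm).symm
    _ = ∫ p in polarCoord.target, p.1 • A.indicator f (Complex.polarCoord.symm p) :=
      (Complex.integral_comp_polarCoord_symm _).symm
    _ = ∫ p in Ioi (0 : ℝ) ×ˢ Ioo (-Real.pi) Real.pi,
        p.1 * A.indicator f (Complex.polarCoord.symm p) := rfl
    _ = ∫ t in Ioo (-Real.pi) Real.pi, ∫ r in Ioi (0 : ℝ),
        r * A.indicator f (Complex.polarCoord.symm (r, t)) := by
      rw [IntegrableOn, Measure.volume_eq_prod, ← Measure.prod_restrict] at h1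
      rw [Measure.volume_eq_prod, ← Measure.prod_restrict, integral_prod_symm _ h1]
    _ = ∫ t in (-Real.pi)..Real.pi, ∫ r in (1 : ℝ)..R,
        r * f ((r : ℂ) * Complex.exp (t * Complex.I)) := by
      rw [intervalIntegral.integral_of_le (by linarith [Real.pi_pos]),
        integral_Ioc_eq_integral_Ioo]
      refine integral_congr_ae (Eventually.of_forall fun t => ?_)
      show ∫ r in Ioi (0 : ℝ), r * A.indicator f (Complex.polarCoord.symm (r, t)) =
        ∫ r in (1 : ℝ)..R, r * f ((r : ℂ) * Complex.exp (t * Complex.I))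
      rw [intervalIntegral.integral_of_le hR.le, ← integral_Icc_eq_integral_Ioc,
        ← integral_indicator measurableSet_Ioi, ← integral_indicator measurableSet_Icc]
      congr 1
      funext r
      by_cases hr : r ∈ Icc 1 R
      · have hr0 : r ∈ Ioi (0 : ℝ) := by
          show 0 < r
          linarith [hr.1]
        have hrA : Complex.polarCoord.symm (r, t) ∈ A := by
          rw [hA]
          show 1 ≤ ‖Complex.polarCoord.symm (r, t)‖ ∧ ‖Complex.polarCoord.symm (r, t)‖ ≤ R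
          rw [Complex.norm_polarCoord_symm]
          show 1 ≤ |r| ∧ |r| ≤ R
          rw [abs_of_pos hr0]
          exact hr
        rw [indicator_of_mem hr0, indicator_of_mem hr, indicator_of_mem hrA, symm_eq]
      · rw [indicator_of_notMem hr]
        by_cases hr0 : r ∈ Ioi (0 : ℝ)
        · rw [indicator_of_mem hr0, indicator_of_notMem, mul_zero]
          intro hrA
          apply hr
          rw [hA] at hrA
          have hrA' : 1 ≤ ‖Complex.polarCoord.symm (r, t)‖ ∧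
            ‖Complex.polarCoord.symm (r, t)‖ ≤ R := hrA
          rw [Complex.norm_polarCoord_symm] at hrA'
          have hrA'' : 1 ≤ |r| ∧ |r| ≤ R := hrA'
          rw [abs_of_pos hr0] at hrA''
          exact hrA''
        · rw [indicator_of_notMem hr0]

end Pool.Agent.Lib_helper95.EQW.POL

end

/-! ## Lib_helper95.EQW.B.C1P -/

section

set_option autoImplicit false

namespace Pool.Agent.Lib_helper95.EQW.C1P

open MeasureTheory Set Filter Topology
open Pool.Agent.EQ (dx dy)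

theorem norm_pt {r t : ℝ} (hr : 0 ≤ r) : ‖(r : ℂ) * Complex.exp (t * Complex.I)‖ = r := by
  rw [norm_mul, Complex.norm_exp_ofReal_mul_I, mul_one, Complex.norm_real, Real.norm_of_nonneg hr]

theorem fderiv_exp (v : ℂ → ℝ) (z : ℂ) (t : ℝ) :
    fderiv ℝ v z (Complex.exp (t * Complex.I)) =
      Real.cos t * dx v z + Real.sin t * dy v z := by
  have h : Complex.exp (t * Complex.I) = Real.cos t • (1 : ℂ) + Real.sin t • Complex.I := by
    rw [Complex.exp_mul_I, Complex.real_smul, Complex.real_smul, mul_one, Complex.ofReal_cos,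
      Complex.ofReal_sin]
  rw [h, map_add, map_smul, map_smul, smul_eq_mul, smul_eq_mul]
  rfl

theorem fderiv_iexp (v : ℂ → ℝ) (z : ℂ) (r t : ℝ) :
    fderiv ℝ v z ((r : ℂ) * (Complex.exp (t * Complex.I) * Complex.I)) =
      r * (-Real.sin t * dx v z + Real.cos t * dy v z) := by
  have h : (r : ℂ) * (Complex.exp (t * Complex.I) * Complex.I) =
      r • ((-Real.sin t) • (1 : ℂ) + Real.cos t • Complex.I) := by
    rw [Complex.exp_mul_I, Complex.real_smul, Complex.real_smul, Complex.real_smul, mul_one,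
      Complex.ofReal_neg, Complex.ofReal_cos, Complex.ofReal_sin, add_mul, mul_assoc,
      Complex.I_mul_I]
    ring
  rw [h, map_smul, map_add, map_smul, map_smul, smul_eq_mul, smul_eq_mul, smul_eq_mul]
  rfl

theorem C1P {F : Set ℂ} {v : ℂ → ℝ} (hv : C1N F v) {R : ℝ} (hR : 1 < R)
    (hQ : {z : ℂ | 1 ≤ ‖z‖ ∧ ‖z‖ ≤ R} ⊆ F) :
    ∃ V Vr Vt : ℝ → ℝ → ℝ, (∀ r t, V r t = v ((r : ℂ) * Complex.exp (t * Complex.I))) ∧
      ContinuousOn (Function.uncurry V) (Icc 1 R ×ˢ univ) ∧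
      ContinuousOn (Function.uncurry Vr) (Icc 1 R ×ˢ univ) ∧
      ContinuousOn (Function.uncurry Vt) (Icc 1 R ×ˢ univ) ∧
      (∀ r ∈ Icc 1 R, ∀ t, HasDerivAt (fun r => V r t) (Vr r t) r) ∧
      (∀ r ∈ Icc 1 R, ∀ t, HasDerivAt (fun t => V r t) (Vt r t) t) ∧
      (∀ r ∈ Icc 1 R, ∀ t, Vr r t ^ 2 + Vt r t ^ 2 ≤
        r ^ 2 * gr v ((r : ℂ) * Complex.exp (t * Complex.I))) := by
  obtain ⟨U, hU, hFU, hv⟩ := hv
  have hmem : ∀ r ∈ Icc 1 R, ∀ t : ℝ, (r : ℂ) * Complex.exp (t * Complex.I) ∈ U := by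
    intro r hr t
    apply hFU
    apply hQ
    show 1 ≤ ‖(r : ℂ) * Complex.exp (t * Complex.I)‖ ∧ ‖(r : ℂ) * Complex.exp (t * Complex.I)‖ ≤ R
    rw [norm_pt (by linarith [hr.1])]
    exact hr
  have hγ : Continuous fun p : ℝ × ℝ => (p.1 : ℂ) * Complex.exp (p.2 * Complex.I) := by
    fun_prop
  have hmaps : MapsTo (fun p : ℝ × ℝ => (p.1 : ℂ) * Complex.exp (p.2 * Complex.I))
      (Icc 1 R ×ˢ univ) U := fun p hp => hmem p.1 hp.1 p.2
  have hdc : ContinuousOn (fderiv ℝ v) U := hv.continuousOn_fderiv_of_isOpen hU le_rfl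
  have hdc' : ContinuousOn (fun p : ℝ × ℝ => fderiv ℝ v
      ((p.1 : ℂ) * Complex.exp (p.2 * Complex.I))) (Icc 1 R ×ˢ univ) :=
    hdc.comp hγ.continuousOn hmaps
  have hd : ∀ r ∈ Icc 1 R, ∀ t : ℝ, HasFDerivAt v
      (fderiv ℝ v ((r : ℂ) * Complex.exp (t * Complex.I)))
      ((r : ℂ) * Complex.exp (t * Complex.I)) := by
    intro r hr t
    exact ((hv.differentiableOn one_ne_zero).differentiableAt
      (hU.mem_nhds (hmem r hr t))).hasFDerivAt
  refine ⟨fun r t => v ((r : ℂ) * Complex.exp (t * Complex.I)),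
    fun r t => fderiv ℝ v ((r : ℂ) * Complex.exp (t * Complex.I)) (Complex.exp (t * Complex.I)),
    fun r t => fderiv ℝ v ((r : ℂ) * Complex.exp (t * Complex.I))
      ((r : ℂ) * (Complex.exp (t * Complex.I) * Complex.I)),
    fun r t => rfl, ?_, ?_, ?_, ?_, ?_, ?_⟩
  · exact hv.continuousOn.comp hγ.continuousOn hmaps
  · exact hdc'.clm_apply (by fun_prop)
  · exact hdc'.clm_apply (by fun_prop)
  · intro r hr t
    have h1 : HasDerivAt (fun r : ℝ => (r : ℂ) * Complex.exp (t * Complex.I))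
        (Complex.exp (t * Complex.I)) r := by
      simpa using (Complex.ofRealCLM.hasDerivAt (x := r)).mul_const (Complex.exp (t * Complex.I))
    exact (hd r hr t).comp_hasDerivAt r h1
  · intro r hr t
    have h1 : HasDerivAt (fun t : ℝ => (r : ℂ) * Complex.exp (t * Complex.I))
        ((r : ℂ) * (Complex.exp (t * Complex.I) * Complex.I)) t := by
      have h2 : HasDerivAt (fun t : ℝ => (t : ℂ) * Complex.I) Complex.I t := by
        simpa using (Complex.ofRealCLM.hasDerivAt (x := t)).mul_const Complex.I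
      exact h2.cexp.const_mul (r : ℂ)
    exact (hd r hr t).comp_hasDerivAt t h1
  · intro r hr t
    show fderiv ℝ v ((r : ℂ) * Complex.exp (t * Complex.I)) (Complex.exp (t * Complex.I)) ^ 2 +
      fderiv ℝ v ((r : ℂ) * Complex.exp (t * Complex.I))
        ((r : ℂ) * (Complex.exp (t * Complex.I) * Complex.I)) ^ 2 ≤
      r ^ 2 * (dx v ((r : ℂ) * Complex.exp (t * Complex.I)) ^ 2 +
        dy v ((r : ℂ) * Complex.exp (t * Complex.I)) ^ 2)
    rw [fderiv_exp, fderiv_iexp]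
    generalize dx v ((r : ℂ) * Complex.exp (t * Complex.I)) = p
    generalize dy v ((r : ℂ) * Complex.exp (t * Complex.I)) = q
    have h1 := Real.sin_sq_add_cos_sq t
    have h2 : 1 ≤ r ^ 2 := by nlinarith [hr.1]
    have h3 : (Real.cos t * p + Real.sin t * q) ^ 2 + (-Real.sin t * p + Real.cos t * q) ^ 2 =
        p ^ 2 + q ^ 2 := by
      have : (Real.cos t * p + Real.sin t * q) ^ 2 + (-Real.sin t * p + Real.cos t * q) ^ 2 =
        (Real.sin t ^ 2 + Real.cos t ^ 2) * (p ^ 2 + q ^ 2) := by ring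
      rw [this, h1, one_mul]
    have h4 : (Real.cos t * p + Real.sin t * q) ^ 2 ≤
        r ^ 2 * (Real.cos t * p + Real.sin t * q) ^ 2 := by
      nlinarith [sq_nonneg (Real.cos t * p + Real.sin t * q)]
    calc (Real.cos t * p + Real.sin t * q) ^ 2 + (r * (-Real.sin t * p + Real.cos t * q)) ^ 2
        ≤ r ^ 2 * (Real.cos t * p + Real.sin t * q) ^ 2 +
          (r * (-Real.sin t * p + Real.cos t * q)) ^ 2 := by linarith
      _ = r ^ 2 * ((Real.cos t * p + Real.sin t * q) ^ 2 +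
          (-Real.sin t * p + Real.cos t * q) ^ 2) := by ring
      _ = r ^ 2 * (p ^ 2 + q ^ 2) := by rw [h3]

end Pool.Agent.Lib_helper95.EQW.C1P

end

/-! ## Lib_helper95.EQW.B.SQF -/

section

set_option autoImplicit false

namespace Pool.Agent.Lib_helper95.EQW.SQF

open MeasureTheory Set Filter Topology
open Pool.Agent.EQ (dx dy)

theorem SQF {W m : ℕ} (hm : 0 < m) {p : ℕ × ℕ} (hp : p ∈ MS W m) : sqr m p ⊆ FR W := by
  intro z hz
  rw [mem_MS] at hp
  obtain ⟨h1, h2, h3⟩ := hp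
  have hn := h3 z hz
  obtain ⟨a1, a2, a3, a4⟩ := hz
  have hm' : (0:ℝ) < m := by exact_mod_cast hm
  have hx : ((p.1 : ℝ) + 1) / m ≤ 8 := by
    rw [div_le_iff₀ hm']
    exact_mod_cast h1
  have hy : ((p.2 : ℝ) + 1) / m ≤ W := by
    rw [div_le_iff₀ hm']
    exact_mod_cast h2
  have hx0 : (0:ℝ) ≤ (p.1 : ℝ) / m := by positivity
  have hy0 : (0:ℝ) ≤ (p.2 : ℝ) / m := by positivity
  rw [add_div] at hx hy
  unfold cx at a1 a2
  unfold cy at a3 a4
  exact ⟨by linarith, by linarith, by linarith, by linarith, hn⟩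

end Pool.Agent.Lib_helper95.EQW.SQF

end

/-! ## Lib_helper95.EQW.B.COV -/

section

set_option autoImplicit false

namespace Pool.Agent.Lib_helper95.EQW.COV

open MeasureTheory Set Filter Topology
open Pool.Agent.EQ (dx dy)

/-- a point of `[-4, -4+L]` lies in one of the `L*m` intervals of length `1/m` -/
theorem COV_ivl {m L : ℕ} (hm : 0 < m) (hL : 0 < L) {x : ℝ} (h1 : -4 ≤ x) (h2 : x ≤ L - 4) :
    ∃ i : ℕ, i < L * m ∧ -4 + (i : ℝ) / m ≤ x ∧ x ≤ -4 + (i : ℝ) / m + 1 / m := by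
  have hm' : (0:ℝ) < m := by exact_mod_cast hm
  have hLm : 0 < L * m := Nat.mul_pos hL hm
  rcases lt_or_ge x (L - 4) with hx | hx
  · refine ⟨⌊(x + 4) * m⌋₊, ?_, ?_, ?_⟩
    · rw [Nat.floor_lt (by nlinarith)]
      push_cast
      nlinarith
    · have := Nat.floor_le (by nlinarith : 0 ≤ (x + 4) * m)
      have h3 : (⌊(x + 4) * m⌋₊ : ℝ) / m ≤ x + 4 := by
        rw [div_le_iff₀ hm']; exact this
      linarith
    · have := Nat.lt_floor_add_one ((x + 4) * m)
      have h3 : x + 4 ≤ ((⌊(x + 4) * m⌋₊ : ℝ) + 1) / m := by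
        rw [le_div_iff₀ hm']; exact this.le
      rw [add_div] at h3
      linarith
  · refine ⟨L * m - 1, by omega, ?_, ?_⟩
    · have h3 : ((L * m - 1 : ℕ) : ℝ) / m ≤ L := by
        rw [div_le_iff₀ hm', Nat.cast_sub (by omega)]
        push_cast
        linarith
      linarith
    · have h3 : ((L * m - 1 : ℕ) : ℝ) / m + 1 / m = L := by
        rw [← add_div, Nat.cast_sub (by omega)]
        push_cast
        field_simp
        ring
      linarith

theorem COV {W m : ℕ} (hW : 8 ≤ W) (hm : 0 < m) {z : ℂ} (hz : z ∈ FR W) :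
    (∃ p ∈ MS W m, z ∈ sqr m p) ∨ ‖z‖ ≤ 1 + 2 / m := by
  have hm' : (0:ℝ) < m := by exact_mod_cast hm
  obtain ⟨h1, h2, h3, h4, h5⟩ := hz
  obtain ⟨i, hi, hi1, hi2⟩ := COV_ivl (L := 8) hm (by norm_num) h1 (by push_cast; linarith)
  obtain ⟨j, hj, hj1, hj2⟩ := COV_ivl (L := W) hm (by omega) h3 h4
  have hzs : z ∈ sqr m (i, j) := ⟨hi1, hi2, hj1, hj2⟩
  by_cases hall : ∀ w ∈ sqr m (i, j), 1 ≤ ‖w‖
  · exact Or.inl ⟨(i, j), mem_MS.2 ⟨hi, hj, hall⟩, hzs⟩
  · right
    push Not at hall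
    obtain ⟨w, hw, hw1⟩ := hall
    obtain ⟨b1, b2, b3, b4⟩ := hw
    have hr : |(z - w).re| ≤ 1 / m := by
      rw [Complex.sub_re, abs_le]
      simp only [cx] at b1 b2
      constructor <;> linarith
    have hi' : |(z - w).im| ≤ 1 / m := by
      rw [Complex.sub_im, abs_le]
      simp only [cy] at b3 b4
      constructor <;> linarith
    have hd : ‖z - w‖ ≤ 1 / m + 1 / m :=
      (Complex.norm_le_abs_re_add_abs_im _).trans (add_le_add hr hi')
    have ht : ‖z‖ ≤ ‖z - w‖ + ‖w‖ := by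
      have := norm_add_le (z - w) w
      rwa [sub_add_cancel] at this
    have h22 : (2:ℝ) / m = 1 / m + 1 / m := by ring
    rw [h22]
    linarith

end Pool.Agent.Lib_helper95.EQW.COV

end

/-! ## Lib_helper95.EQW.B.DIS -/

section

/-! Block DIS. -/

set_option autoImplicit false

namespace Pool.Agent.Lib_helper95.EQW.DIS

open MeasureTheory Set Filter Topology
open Pool.Agent.EQ (dx dy)
open scoped ContDiff

noncomputable section

/-- half open rectangle -/
def dis_ho (x0 y0 a b : ℝ) : Set ℂ :=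
  {z | x0 ≤ z.re ∧ z.re < x0 + a ∧ y0 ≤ z.im ∧ z.im < y0 + b}

theorem dis_pre (x0 y0 a b : ℝ) : dis_ho x0 y0 a b =
    Complex.measurableEquivRealProd ⁻¹' (Ico x0 (x0 + a) ×ˢ Ico y0 (y0 + b)) := by
  ext z
  simp only [dis_ho, mem_preimage, mem_prod, Complex.measurableEquivRealProd_apply, mem_Ico,
    mem_ofPred_eq, and_assoc]

theorem dis_meas (x0 y0 a b : ℝ) : MeasurableSet (dis_ho x0 y0 a b) := by
  rw [dis_pre]
  exact Complex.measurableEquivRealProd.measurable (measurableSet_Ico.prod measurableSet_Ico)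

theorem dis_vol (x0 y0 a b : ℝ) :
    volume (dis_ho x0 y0 a b) = ENNReal.ofReal a * ENNReal.ofReal b := by
  rw [dis_pre, Complex.volume_preserving_equiv_real_prod.measure_preimage
    (measurableSet_Ico.prod measurableSet_Ico).nullMeasurableSet, Measure.volume_eq_prod,
    Measure.prod_prod, Real.volume_Ico, Real.volume_Ico]
  congr 2 <;> ring

theorem dis_sub (x0 y0 a b : ℝ) : dis_ho x0 y0 a b ⊆ rct x0 y0 a b := fun _ hz =>
  ⟨hz.1, hz.2.1.le, hz.2.2.1, hz.2.2.2.le⟩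

theorem dis_ae (x0 y0 a b : ℝ) : dis_ho x0 y0 a b =ᵐ[volume] rct x0 y0 a b := by
  refine ae_eq_of_subset_of_measure_ge (dis_sub x0 y0 a b) ?_ (dis_meas x0 y0 a b).nullMeasurableSet
    (isCompact_rct x0 y0 a b).measure_lt_top.ne
  rw [dis_vol, volume_rct]

theorem dis_step {m : ℕ} (hm : 0 < m) {a b : ℕ} (h : a < b) :
    (-4 : ℝ) + (a : ℝ) / m + 1 / m ≤ -4 + (b : ℝ) / m := by
  have hm' : (0 : ℝ) < m := by exact_mod_cast hm
  have h1 : (a : ℝ) + 1 ≤ b := by exact_mod_cast h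
  have h2 := div_le_div_of_nonneg_right h1 hm'.le
  rw [add_div] at h2
  linarith

theorem dis_disj {m : ℕ} (hm : 0 < m) {p q : ℕ × ℕ} (hpq : p ≠ q) :
    Disjoint (dis_ho (cx m p) (cy m p) (1 / m) (1 / m))
      (dis_ho (cx m q) (cy m q) (1 / m) (1 / m)) := by
  rw [Set.disjoint_left]
  rintro z ⟨a1, a2, a3, a4⟩ ⟨b1, b2, b3, b4⟩
  apply hpq
  have h1 : p.1 = q.1 := by
    rcases lt_trichotomy p.1 q.1 with h | h | h
    · have := dis_step hm h
      simp only [cx] at a2 b1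
      linarith
    · exact h
    · have := dis_step hm h
      simp only [cx] at a1 b2
      linarith
  have h2 : p.2 = q.2 := by
    rcases lt_trichotomy p.2 q.2 with h | h | h
    · have := dis_step hm h
      simp only [cy] at a4 b3
      linarith
    · exact h
    · have := dis_step hm h
      simp only [cy] at a3 b4
      linarith
  exact Prod.ext h1 h2

theorem dis_sqf {W m : ℕ} (hm : 0 < m) {p : ℕ × ℕ} (hp : p ∈ MS W m) : sqr m p ⊆ FR W := by
  obtain ⟨h1, h2, h3⟩ := mem_MS.1 hp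
  intro z hz
  have hm' : (0 : ℝ) < m := by exact_mod_cast hm
  have hn := h3 z hz
  obtain ⟨a1, a2, a3, a4⟩ := hz
  simp only [cx] at a1 a2
  simp only [cy] at a3 a4
  have p1 : (0 : ℝ) ≤ (p.1 : ℝ) / m := by positivity
  have p2 : (0 : ℝ) ≤ (p.2 : ℝ) / m := by positivity
  have q1 : (p.1 : ℝ) / m + 1 / m ≤ 8 := by
    rw [← add_div, div_le_iff₀ hm']
    exact_mod_cast h1
  have q2 : (p.2 : ℝ) / m + 1 / m ≤ W := by
    rw [← add_div, div_le_iff₀ hm']
    exact_mod_cast h2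
  exact ⟨by linarith, by linarith, by linarith, by linarith, hn⟩

/-- the squares do not overlap -/
theorem DIS {W m : ℕ} (hm : 0 < m) {f : ℂ → ℝ} (hf : ∀ z ∈ FR W, 0 ≤ f z)
    (hi : IntegrableOn f (FR W)) :
    ∑ p ∈ MS W m, ∫ z in sqr m p, f z ≤ ∫ z in FR W, f z := by
  have hsub : ∀ p ∈ MS W m, dis_ho (cx m p) (cy m p) (1 / m) (1 / m) ⊆ FR W := fun p hp =>
    (dis_sub _ _ _ _).trans (dis_sqf hm hp)
  have e1 : ∀ p ∈ MS W m, ∫ z in sqr m p, f z =
      ∫ z in dis_ho (cx m p) (cy m p) (1 / m) (1 / m), f z := fun p _ =>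
    (setIntegral_congr_set (dis_ae (cx m p) (cy m p) (1 / m) (1 / m))).symm
  rw [Finset.sum_congr rfl e1, ← integral_biUnion_finset (MS W m) (fun p _ => dis_meas _ _ _ _)
    (fun p _ q _ hpq => dis_disj hm hpq) (fun p hp => hi.mono_set (hsub p hp))]
  refine setIntegral_mono_set hi ?_ ?_
  · exact (ae_restrict_iff' (measurableSet_FR W)).2 (Eventually.of_forall hf)
  · exact (iUnion₂_subset hsub).eventuallyLE

end

end Pool.Agent.Lib_helper95.EQW.DIS

end

/-! ## Lib_helper95.EQW.B.DIMC -/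

section

set_option autoImplicit false

namespace Pool.Agent.Lib_helper95.EQW.DIMC

theorem DIMC {V : Type*} [AddCommGroup V] [Module ℝ V] (W : Submodule ℝ V)
    [FiniteDimensional ℝ W] {N : ℕ} (l : Fin N → V →ₗ[ℝ] ℝ)
    (h : ∀ w ∈ W, (∀ j, l j w = 0) → w = 0) : Module.finrank ℝ W ≤ N := by
  have key : Function.Injective ((LinearMap.pi l).comp W.subtype) := by
    rw [← LinearMap.ker_eq_bot, LinearMap.ker_eq_bot']
    rintro ⟨w, hw⟩ hz
    have h0 : ∀ j, l j w = 0 := fun j => congrFun hz j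
    exact Subtype.ext (h w hw h0)
  have := LinearMap.finrank_le_finrank_of_injective key
  simpa using this

end Pool.Agent.Lib_helper95.EQW.DIMC

end

/-! ## Lib_helper95.EQW.B.RELL -/

section

set_option autoImplicit false

namespace Pool.Agent.Lib_helper95.EQW.RELL

open MeasureTheory Set Filter Topology
open Pool.Agent.EQ (dx dy)
open scoped ContDiff

noncomputable section

/-- Rellich from functional inequalities -/
theorem RELL {V : Type*} [AddCommGroup V] [Module ℝ V] (E b : V →ₗ[ℝ] V →ₗ[ℝ] ℝ)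
    (Es : ∀ u v, E u v = E v u) (bs : ∀ u v, b u v = b v u) (Ep : ∀ v, 0 ≤ E v v)
    (bp : ∀ v, 0 ≤ b v v) {κ : ℝ}
    (h : ∀ L : ℕ, ∃ (N : ℕ) (l : Fin N → V →ₗ[ℝ] ℝ) (C : ℝ), (∀ j v, l j v ^ 2 ≤ C * b v v) ∧
      ∀ v, L * b v v ≤ κ * E v v + ∑ j, l j v ^ 2) :
    ∀ u : ℕ → V, (∀ n, E (u n) (u n) + b (u n) (u n) ≤ 1) →
      ∃ φ : ℕ → ℕ, StrictMono φ ∧
        ∀ ε > 0, ∃ N, ∀ m ≥ N, ∀ n ≥ N, b (u (φ m) - u (φ n)) (u (φ m) - u (φ n)) < ε := by
  intro u hu
  choose N l C hC hL using h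
  have hbu : ∀ n, b (u n) (u n) ≤ 1 := fun n => by linarith [hu n, Ep (u n)]
  have hEu : ∀ n, E (u n) (u n) ≤ 1 := fun n => by linarith [hu n, bp (u n)]
  set x : ℕ → ((Σ L : ℕ, Fin (N L)) → ℝ) := fun n i => l i.1 i.2 (u n) with hx
  have hmem : ∀ n, x n ∈ Set.pi univ (fun i : (Σ L : ℕ, Fin (N L)) => Icc (-(|C i.1| + 1)) (|C i.1| + 1)) := by
    intro n i _
    have h1 := hC i.1 i.2 (u n)
    have h2 : (l i.1 i.2 (u n)) ^ 2 ≤ |C i.1| := by
      refine h1.trans ?_
      calc C i.1 * b (u n) (u n) ≤ |C i.1| * b (u n) (u n) :=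
            mul_le_mul_of_nonneg_right (le_abs_self _) (bp _)
        _ ≤ |C i.1| * 1 := mul_le_mul_of_nonneg_left (hbu n) (abs_nonneg _)
        _ = |C i.1| := mul_one _
    have h3 : |l i.1 i.2 (u n)| ≤ |C i.1| + 1 := by
      by_contra hcon
      push Not at hcon
      have h4 : (0 : ℝ) ≤ |C i.1| := abs_nonneg _
      have h5 : (l i.1 i.2 (u n)) ^ 2 = |l i.1 i.2 (u n)| ^ 2 := (sq_abs _).symm
      nlinarith
    exact abs_le.mp h3
  have hcomp : IsCompact (Set.pi univ (fun i : (Σ L : ℕ, Fin (N L)) => Icc (-(|C i.1| + 1)) (|C i.1| + 1))) :=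
    isCompact_univ_pi fun i => isCompact_Icc
  obtain ⟨a, -, φ, hφ, hlim⟩ := hcomp.tendsto_subseq hmem
  refine ⟨φ, hφ, fun ε hε => ?_⟩
  obtain ⟨L, hLε⟩ := exists_nat_gt ((4 * |κ| + 1) / ε)
  have hlim' : ∀ j : Fin (N L), Tendsto (fun n => l L j (u (φ n))) atTop (𝓝 (a ⟨L, j⟩)) := by
    intro j
    have := (tendsto_pi_nhds.mp hlim) ⟨L, j⟩
    exact this
  have hsum : Tendsto (fun p : ℕ × ℕ => ∑ j : Fin (N L), (l L j (u (φ p.1)) - l L j (u (φ p.2))) ^ 2)
      (atTop ×ˢ atTop) (𝓝 0) := by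
    have h1 : Tendsto (fun p : ℕ × ℕ => ∑ j : Fin (N L), (l L j (u (φ p.1)) - l L j (u (φ p.2))) ^ 2)
        (atTop ×ˢ atTop) (𝓝 (∑ j : Fin (N L), (a ⟨L, j⟩ - a ⟨L, j⟩) ^ 2)) := by
      refine tendsto_finsetSum _ fun j _ => ?_
      exact (((hlim' j).comp tendsto_fst).sub ((hlim' j).comp tendsto_snd)).pow 2
    simpa using h1
  have hev : ∀ᶠ p : ℕ × ℕ in atTop ×ˢ atTop,
      ∑ j : Fin (N L), (l L j (u (φ p.1)) - l L j (u (φ p.2))) ^ 2 < 1 :=
    hsum.eventually_lt_const one_pos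
  rw [prod_atTop_atTop_eq, eventually_atTop_prod_self'] at hev
  obtain ⟨M, hM⟩ := hev
  refine ⟨M, fun m hm n hn => ?_⟩
  have h1 := hM m hm n hn
  simp only at h1
  have h2 := hL L (u (φ m) - u (φ n))
  have h3 : ∑ j : Fin (N L), (l L j (u (φ m) - u (φ n))) ^ 2
      = ∑ j : Fin (N L), (l L j (u (φ m)) - l L j (u (φ n))) ^ 2 := by
    refine Finset.sum_congr rfl fun j _ => ?_
    rw [map_sub]
  rw [h3] at h2
  have h4 : E (u (φ m) - u (φ n)) (u (φ m) - u (φ n)) ≤ 4 := by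
    have h5 := Ep (u (φ m) + u (φ n))
    simp only [map_add, LinearMap.add_apply, map_sub, LinearMap.sub_apply] at h5 ⊢
    have h6 := hEu (φ m)
    have h7 := hEu (φ n)
    linarith
  have h8 : κ * E (u (φ m) - u (φ n)) (u (φ m) - u (φ n)) ≤ 4 * |κ| := by
    calc κ * E (u (φ m) - u (φ n)) (u (φ m) - u (φ n))
        ≤ |κ| * E (u (φ m) - u (φ n)) (u (φ m) - u (φ n)) :=
          mul_le_mul_of_nonneg_right (le_abs_self _) (Ep _)
      _ ≤ |κ| * 4 := mul_le_mul_of_nonneg_left h4 (abs_nonneg _)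
      _ = 4 * |κ| := mul_comm _ _
  have h9 : 4 * |κ| + 1 < L * ε := (div_lt_iff₀ hε).mp hLε
  have hLpos : (0 : ℝ) < L := by
    by_contra hcon
    push Not at hcon
    have h10 : (0 : ℝ) ≤ |κ| := abs_nonneg _
    have h11 : (L : ℝ) * ε ≤ 0 := mul_nonpos_of_nonpos_of_nonneg hcon hε.le
    linarith
  by_contra hcon
  push Not at hcon
  have h12 : (L : ℝ) * ε ≤ L * b (u (φ m) - u (φ n)) (u (φ m) - u (φ n)) :=
    mul_le_mul_of_nonneg_left hcon hLpos.le
  linarith

end

end Pool.Agent.Lib_helper95.EQW.RELL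

end

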