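import Mathlib
import Pool.Agent.Lib_helper71.EQM.Weyl0

/-! Project EQ (MP_ed6ab2_an): merged modules Lib_helper95.EQW.B.MEM. -/

set_option autoImplicit false

/-! ## Lib_helper95.EQW.B.MEM -/

section

set_option autoImplicit false

namespace Pool.Agent.Lib_helper95.EQW.MEM

open MeasureTheory Set Filter Topology
open Pool.Agent.EQ (dx dy)
open scoped ContDiff

noncomputable section

lemma mem_st_cont : Continuous (deriv Real.smoothTransition) :=
  (Real.smoothTransition.contDiff (n := 1)).continuous_deriv le_rfl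

lemma mem_st_has (t : ℝ) : HasDerivAt Real.smoothTransition (deriv Real.smoothTransition t) t :=
  ((Real.smoothTransition.contDiff (n := 1)).differentiable one_ne_zero t).hasDerivAt

lemma mem_st_neg {t : ℝ} (h : t < 0) : deriv Real.smoothTransition t = 0 := by
  have h1 : Real.smoothTransition =ᶠ[𝓝 t] fun _ => (0 : ℝ) := by
    filter_upwards [Iio_mem_nhds h] with s hs
    exact Real.smoothTransition.zero_of_nonpos (le_of_lt hs)
  rw [h1.deriv_eq, deriv_const]

lemma mem_st_one {t : ℝ} (h : 1 < t) : deriv Real.smoothTransition t = 0 := by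
  have h1 : Real.smoothTransition =ᶠ[𝓝 t] fun _ => (1 : ℝ) := by
    filter_upwards [Ioi_mem_nhds h] with s hs
    exact Real.smoothTransition.one_of_one_le (le_of_lt hs)
  rw [h1.deriv_eq, deriv_const]

lemma mem_st_bound : ∃ C : ℝ, 0 ≤ C ∧ ∀ t : ℝ, |(t + 1) * deriv Real.smoothTransition t| ≤ C := by
  have hc : ContinuousOn (fun t : ℝ => (t + 1) * deriv Real.smoothTransition t) (Icc 0 1) :=
    ((continuous_id.add continuous_const).mul mem_st_cont).continuousOn
  obtain ⟨C, hC⟩ := isCompact_Icc.exists_bound_of_continuousOn hc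
  refine ⟨|C|, abs_nonneg _, fun t => ?_⟩
  by_cases h0 : t < 0
  · rw [mem_st_neg h0, mul_zero, abs_zero]
    exact abs_nonneg _
  by_cases h1 : 1 < t
  · rw [mem_st_one h1, mul_zero, abs_zero]
    exact abs_nonneg _
  push Not at h0 h1
  have := hC t ⟨h0, h1⟩
  rw [Real.norm_eq_abs] at this
  exact this.trans (le_abs_self _)

/-- the one dimensional approximation -/
def mf (x0 h : ℝ) (k : ℕ) (c x : ℝ) : ℝ :=
  Real.smoothTransition (c * (x - x0) - 1) * Real.smoothTransition (c * (x0 + h - x) - 1) *
    Real.sin (k * Real.pi * (x - x0) / h)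

/-- its derivative -/
def mf' (x0 h : ℝ) (k : ℕ) (c x : ℝ) : ℝ :=
  ((deriv Real.smoothTransition (c * (x - x0) - 1) * c) * Real.smoothTransition (c * (x0 + h - x) - 1)
    + Real.smoothTransition (c * (x - x0) - 1) *
      (deriv Real.smoothTransition (c * (x0 + h - x) - 1) * (-c))) *
    Real.sin (k * Real.pi * (x - x0) / h)
  + Real.smoothTransition (c * (x - x0) - 1) * Real.smoothTransition (c * (x0 + h - x) - 1) *
    (Real.cos (k * Real.pi * (x - x0) / h) * (k * Real.pi / h))

lemma mf_has (x0 h : ℝ) (k : ℕ) (c x : ℝ) : HasDerivAt (mf x0 h k c) (mf' x0 h k c x) x := by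
  unfold mf mf'
  have h1 : HasDerivAt (fun x : ℝ => c * (x - x0) - 1) c x := by
    have := (((hasDerivAt_id x).sub_const x0).const_mul c).sub_const 1
    simpa using this
  have h2 : HasDerivAt (fun x : ℝ => c * (x0 + h - x) - 1) (-c) x := by
    have := (((hasDerivAt_id x).const_sub (x0 + h)).const_mul c).sub_const 1
    simpa using this
  have h3 : HasDerivAt (fun x : ℝ => k * Real.pi * (x - x0) / h) (k * Real.pi / h) x := by
    have := (((hasDerivAt_id x).sub_const x0).const_mul (k * Real.pi)).div_const h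
    simpa using this
  have h4 := (mem_st_has (c * (x - x0) - 1)).comp x h1
  have h5 := (mem_st_has (c * (x0 + h - x) - 1)).comp x h2
  have h6 := (Real.hasDerivAt_sin (k * Real.pi * (x - x0) / h)).comp x h3
  have h7 := (h4.mul h5).mul h6
  exact h7

lemma mf_smooth (x0 h : ℝ) (k : ℕ) (c : ℝ) : ContDiff ℝ ∞ (mf x0 h k c) := by
  unfold mf
  have h1 : ContDiff ℝ ∞ (fun x : ℝ => c * (x - x0) - 1) :=
    (contDiff_const.mul (contDiff_id.sub contDiff_const)).sub contDiff_const
  have h2 : ContDiff ℝ ∞ (fun x : ℝ => c * (x0 + h - x) - 1) :=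
    (contDiff_const.mul (contDiff_const.sub contDiff_id)).sub contDiff_const
  have h3 : ContDiff ℝ ∞ (fun x : ℝ => k * Real.pi * (x - x0) / h) :=
    (contDiff_const.mul (contDiff_id.sub contDiff_const)).div_const h
  exact ((Real.smoothTransition.contDiff.comp h1).mul (Real.smoothTransition.contDiff.comp h2)).mul
    (Real.contDiff_sin.comp h3)

lemma mf'_cont (x0 h : ℝ) (k : ℕ) (c : ℝ) : Continuous (mf' x0 h k c) := by
  have h1 : mf' x0 h k c = deriv (mf x0 h k c) := by
    funext x
    exact (mf_has x0 h k c x).deriv.symm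
  rw [h1]
  exact ((mf_smooth x0 h k c).of_le (by exact_mod_cast le_top : (1 : WithTop ℕ∞) ≤ ∞)).continuous_deriv le_rfl

lemma mf_supp (x0 h : ℝ) (k : ℕ) {c : ℝ} (hc : 0 < c) (x : ℝ) (hx : mf x0 h k c x ≠ 0) :
    x0 + 1 / c ≤ x ∧ x ≤ x0 + h - 1 / c := by
  unfold mf at hx
  constructor
  · by_contra hcon
    push Not at hcon
    apply hx
    have h1 : c * (x - x0) - 1 ≤ 0 := by
      have h2 : c * (x - x0) ≤ c * (1 / c) := mul_le_mul_of_nonneg_left (by linarith) hc.le
      have h3 : c * (1 / c) = 1 := by field_simp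
      linarith
    rw [Real.smoothTransition.zero_of_nonpos h1]
    ring
  · by_contra hcon
    push Not at hcon
    apply hx
    have h1 : c * (x0 + h - x) - 1 ≤ 0 := by
      have h2 : c * (x0 + h - x) ≤ c * (1 / c) := mul_le_mul_of_nonneg_left (by linarith) hc.le
      have h3 : c * (1 / c) = 1 := by field_simp
      linarith
    rw [Real.smoothTransition.zero_of_nonpos h1]
    ring

lemma mf_out (x0 h : ℝ) (k : ℕ) {c : ℝ} (hc : 0 < c) (x : ℝ) (hx : x ∉ Icc x0 (x0 + h)) :
    mf x0 h k c x = 0 ∧ mf' x0 h k c x = 0 := by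
  rw [mem_Icc, not_and_or, not_le, not_le] at hx
  rcases hx with hx | hx
  · have h1 : c * (x - x0) - 1 < 0 := by
      have : c * (x - x0) ≤ 0 := mul_nonpos_of_nonneg_of_nonpos hc.le (by linarith)
      linarith
    unfold mf mf'
    rw [Real.smoothTransition.zero_of_nonpos h1.le, mem_st_neg h1]
    constructor <;> ring
  · have h1 : c * (x0 + h - x) - 1 < 0 := by
      have : c * (x0 + h - x) ≤ 0 := mul_nonpos_of_nonneg_of_nonpos hc.le (by linarith)
      linarith
    unfold mf mf'
    rw [Real.smoothTransition.zero_of_nonpos h1.le, mem_st_neg h1]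
    constructor <;> ring

lemma mf_lim (x0 h : ℝ) (k : ℕ) (x : ℝ) (hx : x ∈ Ioo x0 (x0 + h)) : ∀ᶠ n : ℕ in atTop,
    mf x0 h k (n + 2) x = Real.sin (k * Real.pi * (x - x0) / h) ∧
    mf' x0 h k (n + 2) x = (k * Real.pi / h) * Real.cos (k * Real.pi * (x - x0) / h) := by
  have h1 : 0 < x - x0 := by linarith [hx.1]
  have h2 : 0 < x0 + h - x := by linarith [hx.2]
  have ht : Tendsto (fun n : ℕ => (n : ℝ) + 2) atTop atTop :=
    tendsto_atTop_add_const_right _ _ tendsto_natCast_atTop_atTop
  have h3 : ∀ᶠ n : ℕ in atTop, 2 / (x - x0) < (n : ℝ) + 2 := ht.eventually_gt_atTop _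
  have h4 : ∀ᶠ n : ℕ in atTop, 2 / (x0 + h - x) < (n : ℝ) + 2 := ht.eventually_gt_atTop _
  filter_upwards [h3, h4] with n hn1 hn2
  rw [div_lt_iff₀ h1] at hn1
  rw [div_lt_iff₀ h2] at hn2
  have h5 : 1 < ((n : ℝ) + 2) * (x - x0) - 1 := by linarith
  have h6 : 1 < ((n : ℝ) + 2) * (x0 + h - x) - 1 := by linarith
  unfold mf mf'
  rw [Real.smoothTransition.one_of_one_le h5.le, Real.smoothTransition.one_of_one_le h6.le,
    mem_st_one h5, mem_st_one h6]
  constructor <;> ring

lemma mf_abs (x0 h : ℝ) (k : ℕ) (c x : ℝ) : |mf x0 h k c x| ≤ 1 := by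
  unfold mf
  rw [abs_mul, abs_mul, abs_of_nonneg (Real.smoothTransition.nonneg _),
    abs_of_nonneg (Real.smoothTransition.nonneg _)]
  have h1 := Real.smoothTransition.le_one (c * (x - x0) - 1)
  have h2 := Real.smoothTransition.le_one (c * (x0 + h - x) - 1)
  have h3 := Real.smoothTransition.nonneg (c * (x - x0) - 1)
  have h4 := Real.smoothTransition.nonneg (c * (x0 + h - x) - 1)
  exact mul_le_one₀ (mul_le_one₀ h1 h4 h2) (abs_nonneg _) (Real.abs_sin_le_one _)

lemma mem_sin1 {x0 h : ℝ} (hh : 0 < h) (k : ℕ) (x : ℝ) :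
    |Real.sin (k * Real.pi * (x - x0) / h)| ≤ (k * Real.pi / h) * |x - x0| := by
  have hp := Real.pi_pos
  have h1 : |Real.sin (k * Real.pi * (x - x0) / h)| ≤ |k * Real.pi * (x - x0) / h| := Real.abs_sin_le_abs
  refine h1.trans (le_of_eq ?_)
  have h2 : k * Real.pi * (x - x0) / h = (k * Real.pi / h) * (x - x0) := by ring
  rw [h2, abs_mul, abs_of_nonneg (by positivity)]

lemma mem_sin2 {x0 h : ℝ} (hh : 0 < h) (k : ℕ) (x : ℝ) :
    |Real.sin (k * Real.pi * (x - x0) / h)| ≤ (k * Real.pi / h) * |x0 + h - x| := by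
  have hp := Real.pi_pos
  have h0 : k * Real.pi * (x - x0) / h = k * Real.pi - k * Real.pi * (x0 + h - x) / h := by
    field_simp
    ring
  rw [h0, Real.sin_nat_mul_pi_sub, abs_neg, abs_mul, abs_pow, abs_neg, abs_one, one_pow, one_mul]
  have h1 : |Real.sin (k * Real.pi * (x0 + h - x) / h)| ≤ |k * Real.pi * (x0 + h - x) / h| := Real.abs_sin_le_abs
  refine h1.trans (le_of_eq ?_)
  have h2 : k * Real.pi * (x0 + h - x) / h = (k * Real.pi / h) * (x0 + h - x) := by ring
  rw [h2, abs_mul, abs_of_nonneg (by positivity)]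

lemma mf'_abs {C : ℝ} (hC : ∀ t : ℝ, |(t + 1) * deriv Real.smoothTransition t| ≤ C)
    {x0 h : ℝ} (hh : 0 < h) (k : ℕ) {c : ℝ} (hc : 0 < c) (x : ℝ) :
    |mf' x0 h k c x| ≤ 2 * ((k * Real.pi / h) * C) + k * Real.pi / h := by
  have hp := Real.pi_pos
  have hw : 0 ≤ k * Real.pi / h := by positivity
  set S := Real.sin (k * Real.pi * (x - x0) / h) with hS
  set a := Real.smoothTransition (c * (x - x0) - 1) with ha
  set b := Real.smoothTransition (c * (x0 + h - x) - 1) with hb
  set a' := deriv Real.smoothTransition (c * (x - x0) - 1) with ha'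
  set b' := deriv Real.smoothTransition (c * (x0 + h - x) - 1) with hb'
  have e1 : |a'| * c * |S| ≤ (k * Real.pi / h) * C := by
    have h1 := hC (c * (x - x0) - 1)
    rw [abs_mul, sub_add_cancel, abs_mul, abs_of_pos hc, ← ha'] at h1
    have h2 := mem_sin1 hh k (x0 := x0) x
    rw [← hS] at h2
    calc |a'| * c * |S| ≤ |a'| * c * ((k * Real.pi / h) * |x - x0|) :=
          mul_le_mul_of_nonneg_left h2 (by positivity)
      _ = (k * Real.pi / h) * (c * |x - x0| * |a'|) := by ring
      _ ≤ _ := mul_le_mul_of_nonneg_left h1 hw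
  have e2 : |b'| * c * |S| ≤ (k * Real.pi / h) * C := by
    have h1 := hC (c * (x0 + h - x) - 1)
    rw [abs_mul, sub_add_cancel, abs_mul, abs_of_pos hc, ← hb'] at h1
    have h2 := mem_sin2 hh k (x0 := x0) x
    rw [← hS] at h2
    calc |b'| * c * |S| ≤ |b'| * c * ((k * Real.pi / h) * |x0 + h - x|) :=
          mul_le_mul_of_nonneg_left h2 (by positivity)
      _ = (k * Real.pi / h) * (c * |x0 + h - x| * |b'|) := by ring
      _ ≤ _ := mul_le_mul_of_nonneg_left h1 hw
  have a0 : 0 ≤ a := Real.smoothTransition.nonneg _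
  have b0 : 0 ≤ b := Real.smoothTransition.nonneg _
  have a1 : a ≤ 1 := Real.smoothTransition.le_one _
  have b1 : b ≤ 1 := Real.smoothTransition.le_one _
  have e3 : |a' * c * b * S| ≤ (k * Real.pi / h) * C := by
    rw [abs_mul, abs_mul, abs_mul, abs_of_pos hc, abs_of_nonneg b0]
    calc |a'| * c * b * |S| = (|a'| * c * |S|) * b := by ring
      _ ≤ (|a'| * c * |S|) * 1 := mul_le_mul_of_nonneg_left b1 (by positivity)
      _ = |a'| * c * |S| := mul_one _
      _ ≤ _ := e1
  have e4 : |a * (b' * (-c)) * S| ≤ (k * Real.pi / h) * C := by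
    rw [abs_mul, abs_mul, abs_mul, abs_neg, abs_of_pos hc, abs_of_nonneg a0]
    calc a * (|b'| * c) * |S| = (|b'| * c * |S|) * a := by ring
      _ ≤ (|b'| * c * |S|) * 1 := mul_le_mul_of_nonneg_left a1 (by positivity)
      _ = |b'| * c * |S| := mul_one _
      _ ≤ _ := e2
  have e5 : |a * b * (Real.cos (k * Real.pi * (x - x0) / h) * (k * Real.pi / h))| ≤ k * Real.pi / h := by
    rw [abs_mul, abs_mul, abs_mul, abs_of_nonneg a0, abs_of_nonneg b0, abs_of_nonneg hw]
    have h1 : a * b ≤ 1 := mul_le_one₀ a1 b0 b1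
    have h2 := Real.abs_cos_le_one (k * Real.pi * (x - x0) / h)
    calc a * b * (|Real.cos (k * Real.pi * (x - x0) / h)| * (k * Real.pi / h))
        ≤ 1 * (1 * (k * Real.pi / h)) := by
          refine mul_le_mul h1 (mul_le_mul_of_nonneg_right h2 hw) (by positivity) (by norm_num)
      _ = _ := by ring
  have e6 : mf' x0 h k c x = a' * c * b * S + a * (b' * (-c)) * S
      + a * b * (Real.cos (k * Real.pi * (x - x0) / h) * (k * Real.pi / h)) := by
    unfold mf'
    rw [← hS, ← ha, ← hb, ← ha', ← hb']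
    ring
  rw [e6]
  refine (abs_add_three _ _ _).trans ?_
  linarith

lemma mem_null (c : ℝ) : volume {z : ℂ | z.re = c} = 0 ∧ volume {z : ℂ | z.im = c} = 0 := by
  constructor
  · have h : {z : ℂ | z.re = c} = Complex.measurableEquivRealProd ⁻¹' ({c} ×ˢ univ) := by
      ext z
      simp [Complex.measurableEquivRealProd_apply]
    rw [h, Complex.volume_preserving_equiv_real_prod.measure_preimage
      ((measurableSet_singleton c).prod MeasurableSet.univ).nullMeasurableSet,
      Measure.volume_eq_prod, Measure.prod_prod, Real.volume_singleton, zero_mul]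
  · have h : {z : ℂ | z.im = c} = Complex.measurableEquivRealProd ⁻¹' (univ ×ˢ {c}) := by
      ext z
      simp [Complex.measurableEquivRealProd_apply]
    rw [h, Complex.volume_preserving_equiv_real_prod.measure_preimage
      (MeasurableSet.univ.prod (measurableSet_singleton c)).nullMeasurableSet,
      Measure.volume_eq_prod, Measure.prod_prod, Real.volume_singleton, mul_zero]

lemma mem_dxy {f f' g g' : ℝ → ℝ} (hf : ∀ x, HasDerivAt f (f' x) x) (hg : ∀ x, HasDerivAt g (g' x) x)
    (z : ℂ) : dx (fun z : ℂ => f z.re * g z.im) z = f' z.re * g z.im ∧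
      dy (fun z : ℂ => f z.re * g z.im) z = f z.re * g' z.im := by
  have h1 : HasFDerivAt (fun z : ℂ => f z.re) (f' z.re • Complex.reCLM) z :=
    (hf z.re).comp_hasFDerivAt z Complex.reCLM.hasFDerivAt
  have h2 : HasFDerivAt (fun z : ℂ => g z.im) (g' z.im • Complex.imCLM) z :=
    (hg z.im).comp_hasFDerivAt z Complex.imCLM.hasFDerivAt
  have h3 := (h1.mul h2).fderiv
  unfold Pool.Agent.EQ.dx Pool.Agent.EQ.dy
  constructor
  · rw [show (fun z : ℂ => f z.re * g z.im) = (fun z : ℂ => f z.re) * (fun z : ℂ => g z.im) from rfl, h3]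
    simp
    ring
  · rw [show (fun z : ℂ => f z.re * g z.im) = (fun z : ℂ => f z.re) * (fun z : ℂ => g z.im) from rfl, h3]
    simp

/-- smooth compactly supported approximations of the sine products -/
theorem MEM {x0 y0 h : ℝ} (hh : 0 < h) {k l : ℕ} (hk : 1 ≤ k) (hl : 1 ≤ l) :
    ∃ φ : ℕ → ℂ → ℝ, (∀ n, ContDiff ℝ ∞ (φ n)) ∧
      (∀ n, ∃ δ > 0, ∀ z, φ n z ≠ 0 →
        x0 + δ ≤ z.re ∧ z.re ≤ x0 + h - δ ∧ y0 + δ ≤ z.im ∧ z.im ≤ y0 + h - δ) ∧
      Tendsto (fun n => ∫ z, ((φ n z - sn x0 y0 h k l z) ^ 2 +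
        (dx (φ n) z - snx x0 y0 h k l z) ^ 2 + (dy (φ n) z - sny x0 y0 h k l z) ^ 2))
        atTop (𝓝 0) := by
  obtain ⟨C, hC0, hC⟩ := mem_st_bound
  have hp := Real.pi_pos
  have hcp : ∀ n : ℕ, (0 : ℝ) < (n : ℝ) + 2 := fun n => by positivity
  have hφ : ∀ n : ℕ, ∀ z : ℂ,
      dx (fun z : ℂ => mf x0 h k (n + 2) z.re * mf y0 h l (n + 2) z.im) z
        = mf' x0 h k (n + 2) z.re * mf y0 h l (n + 2) z.im ∧
      dy (fun z : ℂ => mf x0 h k (n + 2) z.re * mf y0 h l (n + 2) z.im) z
        = mf x0 h k (n + 2) z.re * mf' y0 h l (n + 2) z.im :=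
    fun n z => mem_dxy (mf_has x0 h k (n + 2)) (mf_has y0 h l (n + 2)) z
  refine ⟨fun n z => mf x0 h k (n + 2) z.re * mf y0 h l (n + 2) z.im, ?_, ?_, ?_⟩
  · intro n
    exact ((mf_smooth x0 h k (n + 2)).comp Complex.reCLM.contDiff).mul
      ((mf_smooth y0 h l (n + 2)).comp Complex.imCLM.contDiff)
  · intro n
    refine ⟨1 / ((n : ℝ) + 2), by have := hcp n; positivity, fun z hz => ?_⟩
    have h1 := mf_supp x0 h k (hcp n) z.re (left_ne_zero_of_mul hz)
    have h2 := mf_supp y0 h l (hcp n) z.im (right_ne_zero_of_mul hz)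
    exact ⟨h1.1, h1.2, h2.1, h2.2⟩
  · set ωk := k * Real.pi / h with hωk
    set ωl := l * Real.pi / h with hωl
    have hωk0 : 0 ≤ ωk := by positivity
    have hωl0 : 0 ≤ ωl := by positivity
    set Dk := 2 * (ωk * C) + ωk with hDk
    set Dl := 2 * (ωl * C) + ωl with hDl
    have hDk0 : 0 ≤ Dk := by positivity
    have hDl0 : 0 ≤ Dl := by positivity
    have hlim : Tendsto (fun n : ℕ => ∫ z : ℂ,
        ((mf x0 h k (n + 2) z.re * mf y0 h l (n + 2) z.im - sn x0 y0 h k l z) ^ 2 +
        (mf' x0 h k (n + 2) z.re * mf y0 h l (n + 2) z.im - snx x0 y0 h k l z) ^ 2 +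
        (mf x0 h k (n + 2) z.re * mf' y0 h l (n + 2) z.im - sny x0 y0 h k l z) ^ 2))
        atTop (𝓝 (∫ z : ℂ, (0 : ℝ))) := by
      refine tendsto_integral_of_dominated_convergence
        ((rct x0 y0 h h).indicator fun _ => (4 + (Dk + ωk) ^ 2 + (Dl + ωl) ^ 2)) ?_ ?_ ?_ ?_
      · intro n
        have c1 : Continuous (fun z : ℂ => mf x0 h k (n + 2) z.re) :=
          (mf_smooth x0 h k (n + 2)).continuous.comp Complex.continuous_re
        have c2 : Continuous (fun z : ℂ => mf y0 h l (n + 2) z.im) :=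
          (mf_smooth y0 h l (n + 2)).continuous.comp Complex.continuous_im
        have c3 : Continuous (fun z : ℂ => mf' x0 h k (n + 2) z.re) :=
          (mf'_cont x0 h k (n + 2)).comp Complex.continuous_re
        have c4 : Continuous (fun z : ℂ => mf' y0 h l (n + 2) z.im) :=
          (mf'_cont y0 h l (n + 2)).comp Complex.continuous_im
        have m1 : Measurable (sn x0 y0 h k l) := by
          unfold sn
          refine Measurable.indicator ?_ (measurableSet_rct _ _ _ _)
          exact Continuous.measurable (by fun_prop)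
        have m2 : Measurable (snx x0 y0 h k l) := by
          unfold snx
          refine Measurable.indicator ?_ (measurableSet_rct _ _ _ _)
          exact Continuous.measurable (by fun_prop)
        have m3 : Measurable (sny x0 y0 h k l) := by
          unfold sny
          refine Measurable.indicator ?_ (measurableSet_rct _ _ _ _)
          exact Continuous.measurable (by fun_prop)
        exact (((((c1.mul c2).measurable.sub m1).pow_const 2).add
          (((c3.mul c2).measurable.sub m2).pow_const 2)).add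
          (((c1.mul c4).measurable.sub m3).pow_const 2)).aestronglyMeasurable
      · refine (integrable_indicator_iff (measurableSet_rct _ _ _ _)).mpr ?_
        refine integrableOn_const ?_
        exact (isCompact_rct x0 y0 h h).measure_lt_top.ne
      · intro n
        refine ae_of_all _ fun z => ?_
        by_cases hz : z ∈ rct x0 y0 h h
        · rw [indicator_of_mem hz]
          have a1 := mf_abs x0 h k (n + 2) z.re
          have a2 := mf_abs y0 h l (n + 2) z.im
          have a3 := mf'_abs hC hh k (x0 := x0) (hcp n) z.re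
          have a4 := mf'_abs hC hh l (x0 := y0) (hcp n) z.im
          rw [← hωk, ← hDk] at a3
          rw [← hωl, ← hDl] at a4
          have s1 : |sn x0 y0 h k l z| ≤ 1 := by
            unfold sn
            rw [indicator_of_mem hz, abs_mul]
            exact mul_le_one₀ (Real.abs_sin_le_one _) (abs_nonneg _) (Real.abs_sin_le_one _)
          have s2 : |snx x0 y0 h k l z| ≤ ωk := by
            unfold snx
            rw [indicator_of_mem hz, abs_mul, abs_mul, abs_of_nonneg hωk0]
            exact mul_le_of_le_one_right hωk0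
              (mul_le_one₀ (Real.abs_cos_le_one _) (abs_nonneg _) (Real.abs_sin_le_one _))
          have s3 : |sny x0 y0 h k l z| ≤ ωl := by
            unfold sny
            rw [indicator_of_mem hz, abs_mul, abs_mul, abs_of_nonneg hωl0]
            exact mul_le_of_le_one_right hωl0
              (mul_le_one₀ (Real.abs_sin_le_one _) (abs_nonneg _) (Real.abs_cos_le_one _))
          have b1 : |mf x0 h k (n + 2) z.re * mf y0 h l (n + 2) z.im| ≤ 1 := by
            rw [abs_mul]
            exact mul_le_one₀ a1 (abs_nonneg _) a2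
          have b2 : |mf' x0 h k (n + 2) z.re * mf y0 h l (n + 2) z.im| ≤ Dk := by
            rw [abs_mul]
            calc _ ≤ Dk * 1 := mul_le_mul a3 a2 (abs_nonneg _) hDk0
              _ = Dk := mul_one _
          have b3 : |mf x0 h k (n + 2) z.re * mf' y0 h l (n + 2) z.im| ≤ Dl := by
            rw [abs_mul]
            calc _ ≤ 1 * Dl := mul_le_mul a1 a4 (abs_nonneg _) zero_le_one
              _ = Dl := one_mul _
          have q1 : (mf x0 h k (n + 2) z.re * mf y0 h l (n + 2) z.im - sn x0 y0 h k l z) ^ 2 ≤ 4 := by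
            have : |mf x0 h k (n + 2) z.re * mf y0 h l (n + 2) z.im - sn x0 y0 h k l z| ≤ 2 :=
              (abs_sub _ _).trans (by linarith)
            rw [← sq_abs]
            calc _ ≤ (2 : ℝ) ^ 2 := pow_le_pow_left₀ (abs_nonneg _) this 2
              _ = 4 := by norm_num
          have q2 : (mf' x0 h k (n + 2) z.re * mf y0 h l (n + 2) z.im - snx x0 y0 h k l z) ^ 2
              ≤ (Dk + ωk) ^ 2 := by
            have : |mf' x0 h k (n + 2) z.re * mf y0 h l (n + 2) z.im - snx x0 y0 h k l z| ≤ Dk + ωk :=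
              (abs_sub _ _).trans (by linarith)
            rw [← sq_abs]
            exact pow_le_pow_left₀ (abs_nonneg _) this 2
          have q3 : (mf x0 h k (n + 2) z.re * mf' y0 h l (n + 2) z.im - sny x0 y0 h k l z) ^ 2
              ≤ (Dl + ωl) ^ 2 := by
            have : |mf x0 h k (n + 2) z.re * mf' y0 h l (n + 2) z.im - sny x0 y0 h k l z| ≤ Dl + ωl :=
              (abs_sub _ _).trans (by linarith)
            rw [← sq_abs]
            exact pow_le_pow_left₀ (abs_nonneg _) this 2
          rw [Real.norm_of_nonneg (by positivity)]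
          linarith
        · rw [indicator_of_notMem hz]
          have hz' : z.re ∉ Icc x0 (x0 + h) ∨ z.im ∉ Icc y0 (y0 + h) := by
            by_contra hcon
            push Not at hcon
            exact hz ⟨hcon.1.1, hcon.1.2, hcon.2.1, hcon.2.2⟩
          have v1 : sn x0 y0 h k l z = 0 := by unfold sn; rw [indicator_of_notMem hz]
          have v2 : snx x0 y0 h k l z = 0 := by unfold snx; rw [indicator_of_notMem hz]
          have v3 : sny x0 y0 h k l z = 0 := by unfold sny; rw [indicator_of_notMem hz]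
          rw [v1, v2, v3]
          rcases hz' with hz' | hz'
          · have o := mf_out x0 h k (hcp n) z.re hz'
            rw [o.1, o.2]
            simp
          · have o := mf_out y0 h l (hcp n) z.im hz'
            rw [o.1, o.2]
            simp
      · have n1 : ∀ᵐ z : ℂ, z.re ≠ x0 := by
          rw [ae_iff]
          simpa using (mem_null x0).1
        have n2 : ∀ᵐ z : ℂ, z.re ≠ x0 + h := by
          rw [ae_iff]
          simpa using (mem_null (x0 + h)).1
        have n3 : ∀ᵐ z : ℂ, z.im ≠ y0 := by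
          rw [ae_iff]
          simpa using (mem_null y0).2
        have n4 : ∀ᵐ z : ℂ, z.im ≠ y0 + h := by
          rw [ae_iff]
          simpa using (mem_null (y0 + h)).2
        filter_upwards [n1, n2, n3, n4] with z z1 z2 z3 z4
        by_cases hz : z ∈ rct x0 y0 h h
        · have hre : z.re ∈ Ioo x0 (x0 + h) := ⟨lt_of_le_of_ne hz.1 (Ne.symm z1), lt_of_le_of_ne hz.2.1 z2⟩
          have him : z.im ∈ Ioo y0 (y0 + h) := ⟨lt_of_le_of_ne hz.2.2.1 (Ne.symm z3), lt_of_le_of_ne hz.2.2.2 z4⟩
          have hev : ∀ᶠ n : ℕ in atTop, (0 : ℝ) =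
              ((mf x0 h k (n + 2) z.re * mf y0 h l (n + 2) z.im - sn x0 y0 h k l z) ^ 2 +
              (mf' x0 h k (n + 2) z.re * mf y0 h l (n + 2) z.im - snx x0 y0 h k l z) ^ 2 +
              (mf x0 h k (n + 2) z.re * mf' y0 h l (n + 2) z.im - sny x0 y0 h k l z) ^ 2) := by
            filter_upwards [mf_lim x0 h k z.re hre, mf_lim y0 h l z.im him] with n hn1 hn2
            rw [hn1.1, hn1.2, hn2.1, hn2.2]
            unfold sn snx sny
            rw [indicator_of_mem hz, indicator_of_mem hz, indicator_of_mem hz]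
            ring
          exact tendsto_const_nhds.congr' hev
        · have hz' : z.re ∉ Icc x0 (x0 + h) ∨ z.im ∉ Icc y0 (y0 + h) := by
            by_contra hcon
            push Not at hcon
            exact hz ⟨hcon.1.1, hcon.1.2, hcon.2.1, hcon.2.2⟩
          have hev : ∀ n : ℕ, (0 : ℝ) =
              ((mf x0 h k (n + 2) z.re * mf y0 h l (n + 2) z.im - sn x0 y0 h k l z) ^ 2 +
              (mf' x0 h k (n + 2) z.re * mf y0 h l (n + 2) z.im - snx x0 y0 h k l z) ^ 2 +
              (mf x0 h k (n + 2) z.re * mf' y0 h l (n + 2) z.im - sny x0 y0 h k l z) ^ 2) := by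
            intro n
            have v1 : sn x0 y0 h k l z = 0 := by unfold sn; rw [indicator_of_notMem hz]
            have v2 : snx x0 y0 h k l z = 0 := by unfold snx; rw [indicator_of_notMem hz]
            have v3 : sny x0 y0 h k l z = 0 := by unfold sny; rw [indicator_of_notMem hz]
            rw [v1, v2, v3]
            rcases hz' with hz' | hz'
            · have o := mf_out x0 h k (hcp n) z.re hz'
              rw [o.1, o.2]
              simp
            · have o := mf_out y0 h l (hcp n) z.im hz'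
              rw [o.1, o.2]
              simp
          exact tendsto_const_nhds.congr hev
    rw [integral_zero] at hlim
    refine hlim.congr fun n => ?_
    refine integral_congr_ae (ae_of_all _ fun z => ?_)
    simp only
    rw [(hφ n z).1, (hφ n z).2]

end

end Pool.Agent.Lib_helper95.EQW.MEM

end

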