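import Mathlib
import Pool.Agent.Lib_helper71.EQM.WeylA
import Pool.Agent.Lib_helper71.EQM.WeylB
import Pool.Agent.Lib_helper71.EQM.WeylC

/-! Project EQ (MP_ed6ab2_an): merged modules Lib_helper95.EQW.P0, Lib_helper95.EQW.B.NEU1, Lib_helper95.EQW.B.SOR, Lib_helper95.EQW.B.RSU, Lib_helper95.EQW.B.RSL, Lib_helper95.EQW.P1, Lib_helper95.EQW.B.NEU2, Lib_helper95.EQW.B.SQL, Lib_helper95.EQW.P2. -/

set_option autoImplicit false

/-! ## Lib_helper95.EQW.P0 -/

section

/-!
# EQW: proved blocks, level 0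
-/

namespace Pool.Agent.Lib_helper95.EQW

alias BES := BES.BES

alias PARS := PARS.PARS

alias BESD := BESD.BESD

alias CNTU := CNTU.CNTU

alias CNTL := CNTL.CNTL

alias RCI := RCI.RCI

alias C1R := C1R.C1R

alias POL := POL.POL

alias C1P := C1P.C1P

alias SQF := SQF.SQF

alias COV := COV.COV

alias DIS := DIS.DIS

alias DIMC := DIMC.DIMC

alias RELL := RELL.RELL

alias MEM := MEM.MEM

end Pool.Agent.Lib_helper95.EQW

end

/-! ## Lib_helper95.EQW.B.NEU1 -/

section

/-!
EQ project, package S2, Weyl law: block NEU1 (helper67).  Cites PARS and BESD of Wanted.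
-/

set_option autoImplicit false

namespace Pool.Agent.Lib_helper95.EQW.NEU1

open MeasureTheory Set Filter Topology
open Pool.Agent.EQ (dx dy)
open scoped ContDiff

noncomputable section

theorem NEU1 {x0 a : ℝ} (ha : 0 < a) {w w' : ℝ → ℝ} (hw' : ContinuousOn w' (Icc x0 (x0 + a)))
    (h : ∀ x ∈ Icc x0 (x0 + a), w x = w x0 + ∫ t in x0..x, w' t) (K : ℕ) :
    (K * Real.pi / a) ^ 2 * ((∫ x in x0..(x0 + a), w x ^ 2) -
        ∑ k ∈ Finset.range K, (∫ x in x0..(x0 + a), w x * ec x0 a k x) ^ 2) +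
      ∑ k ∈ Finset.range K, (k * Real.pi / a) ^ 2 * (∫ x in x0..(x0 + a), w x * ec x0 a k x) ^ 2 ≤
      ∫ x in x0..(x0 + a), w' x ^ 2 := by
  have hle : x0 ≤ x0 + a := by linarith
  have hwc : ContinuousOn w (Icc x0 (x0 + a)) := by
    have hint : IntegrableOn w' (uIcc x0 (x0 + a)) := by
      rw [uIcc_of_le hle]
      exact hw'.integrableOn_Icc
    have h1 : ContinuousOn (fun x => w x0 + ∫ t in x0..x, w' t) (Icc x0 (x0 + a)) := by
      have := intervalIntegral.continuousOn_primitive_interval hint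
      rw [uIcc_of_le hle] at this
      exact continuousOn_const.add this
    exact h1.congr h
  have hP := Pool.Agent.Lib_helper95.EQW.PARS ha hwc
  set c : ℕ → ℝ := fun k => (∫ x in x0..(x0 + a), w x * ec x0 a k x) ^ 2 with hc
  have hc0 : ∀ k, 0 ≤ c k := fun k => sq_nonneg _
  have ht := hP.tendsto_sum_nat
  have hB := Pool.Agent.Lib_helper95.EQW.BESD ha hw' h
  change (K * Real.pi / a) ^ 2 * ((∫ x in x0..(x0 + a), w x ^ 2) -
        ∑ k ∈ Finset.range K, c k) +
      ∑ k ∈ Finset.range K, (k * Real.pi / a) ^ 2 * c k ≤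
      ∫ x in x0..(x0 + a), w' x ^ 2
  have hT : Tendsto (fun N => (K * Real.pi / a) ^ 2 * ((∑ k ∈ Finset.range N, c k) -
        ∑ k ∈ Finset.range K, c k) +
      ∑ k ∈ Finset.range K, (k * Real.pi / a) ^ 2 * c k) atTop
      (𝓝 ((K * Real.pi / a) ^ 2 * ((∫ x in x0..(x0 + a), w x ^ 2) -
        ∑ k ∈ Finset.range K, c k) +
      ∑ k ∈ Finset.range K, (k * Real.pi / a) ^ 2 * c k)) :=
    ((ht.sub_const _).const_mul _).add_const _
  refine le_of_tendsto hT ?_
  filter_upwards [eventually_ge_atTop K] with N hN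
  refine le_trans ?_ (hB N)
  change _ ≤ ∑ k ∈ Finset.range N, (k * Real.pi / a) ^ 2 * c k
  have h2 : (∑ k ∈ Finset.range N, c k) - ∑ k ∈ Finset.range K, c k
      = ∑ k ∈ Finset.Ico K N, c k := by
    rw [Finset.sum_Ico_eq_sub _ hN]
  have h3 : ∑ k ∈ Finset.range N, (k * Real.pi / a) ^ 2 * c k =
      ∑ k ∈ Finset.Ico K N, (k * Real.pi / a) ^ 2 * c k +
      ∑ k ∈ Finset.range K, (k * Real.pi / a) ^ 2 * c k := by
    rw [Finset.sum_Ico_eq_sub _ hN]
    ring
  rw [h2, h3, Finset.mul_sum]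
  gcongr with k hk
  exact (Finset.mem_Ico.1 hk).1

end

end Pool.Agent.Lib_helper95.EQW.NEU1

end

/-! ## Lib_helper95.EQW.B.SOR -/

section

/-! EQW block SOR (helper16): orthogonality of sine products; cites RCI. -/

set_option autoImplicit false

namespace Pool.Agent.Lib_helper95.EQW.SOR

open MeasureTheory Set Filter Topology
open Pool.Agent.EQ (dx dy)
open scoped ContDiff

theorem sor_cos (x0 h : ℝ) (hh : 0 < h) (n : ℤ) (hn : n ≠ 0) :
    ∫ x in x0..(x0 + h), Real.cos (n * Real.pi * (x - x0) / h) = 0 := by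
  have hn' : (n : ℝ) ≠ 0 := by exact_mod_cast hn
  have hpi := Real.pi_ne_zero
  have hd : ∀ x ∈ uIcc x0 (x0 + h), HasDerivAt
      (fun x => h / (n * Real.pi) * Real.sin (n * Real.pi * (x - x0) / h))
      (Real.cos (n * Real.pi * (x - x0) / h)) x := by
    intro x _
    have h1 : HasDerivAt (fun x => n * Real.pi * (x - x0) / h) (n * Real.pi / h) x := by
      have := (((hasDerivAt_id x).sub_const x0).const_mul (n * Real.pi)).div_const h
      simpa using this
    have h2 := (h1.sin).const_mul (h / (n * Real.pi))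
    refine h2.congr_deriv ?_
    field_simp
  rw [intervalIntegral.integral_eq_sub_of_hasDerivAt hd]
  · have e1 : (n : ℝ) * Real.pi * (x0 + h - x0) / h = n * Real.pi := by field_simp; ring
    have e2 : (n : ℝ) * Real.pi * (x0 - x0) / h = 0 := by simp
    rw [e1, e2, Real.sin_int_mul_pi]
    simp
  · apply Continuous.intervalIntegrable
    fun_prop

theorem sor_ss (x0 h : ℝ) (hh : 0 < h) (k l : ℕ) (hk : 1 ≤ k) (hl : 1 ≤ l) :
    ∫ x in x0..(x0 + h), Real.sin (k * Real.pi * (x - x0) / h) *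
      Real.sin (l * Real.pi * (x - x0) / h) = if k = l then h / 2 else 0 := by
  have h1 : ∀ x : ℝ, Real.sin (k * Real.pi * (x - x0) / h) * Real.sin (l * Real.pi * (x - x0) / h)
      = 1 / 2 * Real.cos (((k : ℤ) - l : ℤ) * Real.pi * (x - x0) / h)
        - 1 / 2 * Real.cos (((k : ℤ) + l : ℤ) * Real.pi * (x - x0) / h) := by
    intro x
    have e1 : (((k : ℤ) - l : ℤ) : ℝ) * Real.pi * (x - x0) / h
        = k * Real.pi * (x - x0) / h - l * Real.pi * (x - x0) / h := by push_cast; ring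
    have e2 : (((k : ℤ) + l : ℤ) : ℝ) * Real.pi * (x - x0) / h
        = k * Real.pi * (x - x0) / h + l * Real.pi * (x - x0) / h := by push_cast; ring
    rw [e1, e2, Real.cos_sub, Real.cos_add]
    ring
  simp only [h1]
  rw [intervalIntegral.integral_sub, intervalIntegral.integral_const_mul,
    intervalIntegral.integral_const_mul, sor_cos x0 h hh ((k : ℤ) + l) (by omega)]
  · split_ifs with hkl
    · subst hkl
      simp
      ring
    · rw [sor_cos x0 h hh ((k : ℤ) - l) (by omega)]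
      simp
  · apply Continuous.intervalIntegrable; fun_prop
  · apply Continuous.intervalIntegrable; fun_prop

theorem sor_cc (x0 h : ℝ) (hh : 0 < h) (k l : ℕ) (hk : 1 ≤ k) (hl : 1 ≤ l) :
    ∫ x in x0..(x0 + h), Real.cos (k * Real.pi * (x - x0) / h) *
      Real.cos (l * Real.pi * (x - x0) / h) = if k = l then h / 2 else 0 := by
  have h1 : ∀ x : ℝ, Real.cos (k * Real.pi * (x - x0) / h) * Real.cos (l * Real.pi * (x - x0) / h)
      = 1 / 2 * Real.cos (((k : ℤ) - l : ℤ) * Real.pi * (x - x0) / h)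
        + 1 / 2 * Real.cos (((k : ℤ) + l : ℤ) * Real.pi * (x - x0) / h) := by
    intro x
    have e1 : (((k : ℤ) - l : ℤ) : ℝ) * Real.pi * (x - x0) / h
        = k * Real.pi * (x - x0) / h - l * Real.pi * (x - x0) / h := by push_cast; ring
    have e2 : (((k : ℤ) + l : ℤ) : ℝ) * Real.pi * (x - x0) / h
        = k * Real.pi * (x - x0) / h + l * Real.pi * (x - x0) / h := by push_cast; ring
    rw [e1, e2, Real.cos_sub, Real.cos_add]
    ring
  simp only [h1]
  rw [intervalIntegral.integral_add, intervalIntegral.integral_const_mul,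
    intervalIntegral.integral_const_mul, sor_cos x0 h hh ((k : ℤ) + l) (by omega)]
  · split_ifs with hkl
    · subst hkl
      simp
      ring
    · rw [sor_cos x0 h hh ((k : ℤ) - l) (by omega)]
      simp
  · apply Continuous.intervalIntegrable; fun_prop
  · apply Continuous.intervalIntegrable; fun_prop

theorem sor_prod (x0 y0 h : ℝ) (hh : 0 < h) (f g : ℝ → ℝ) (hf : Continuous f) (hg : Continuous g)
    (F : ℂ → ℝ) (hF : ∀ z ∈ rct x0 y0 h h, F z = f z.re * g z.im) :
    ∫ z in rct x0 y0 h h, F z = (∫ x in x0..(x0 + h), f x) * ∫ y in y0..(y0 + h), g y := by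
  rw [setIntegral_congr_fun (measurableSet_rct x0 y0 h h) hF]
  rw [RCI hh hh (by
    apply Continuous.continuousOn
    exact (hf.comp Complex.continuous_re).mul (hg.comp Complex.continuous_im))]
  rw [mul_comm, ← intervalIntegral.integral_mul_const]
  refine intervalIntegral.integral_congr fun y _ => ?_
  simp only
  rw [intervalIntegral.integral_mul_const, mul_comm]

/-- orthogonality of sine products -/
theorem SOR {x0 y0 h : ℝ} (hh : 0 < h) {k l k' l' : ℕ} (hk : 1 ≤ k) (hl : 1 ≤ l) (hk' : 1 ≤ k')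
    (hl' : 1 ≤ l') :
    (∫ z in rct x0 y0 h h, sn x0 y0 h k l z * sn x0 y0 h k' l' z =
      if k = k' ∧ l = l' then h ^ 2 / 4 else 0) ∧
    (∫ z in rct x0 y0 h h, snx x0 y0 h k l z * snx x0 y0 h k' l' z =
      if k = k' ∧ l = l' then (k * Real.pi / h) ^ 2 * (h ^ 2 / 4) else 0) ∧
    (∫ z in rct x0 y0 h h, sny x0 y0 h k l z * sny x0 y0 h k' l' z =
      if k = k' ∧ l = l' then (l * Real.pi / h) ^ 2 * (h ^ 2 / 4) else 0) := by
  refine ⟨?_, ?_, ?_⟩
  · rw [sor_prod x0 y0 h hh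
      (fun x => Real.sin (k * Real.pi * (x - x0) / h) * Real.sin (k' * Real.pi * (x - x0) / h))
      (fun y => Real.sin (l * Real.pi * (y - y0) / h) * Real.sin (l' * Real.pi * (y - y0) / h))
      (by fun_prop) (by fun_prop) _ (fun z hz => by
        simp only [sn, indicator_of_mem hz]; ring),
      sor_ss x0 h hh k k' hk hk', sor_ss y0 h hh l l' hl hl']
    by_cases h1 : k = k' <;> by_cases h2 : l = l' <;> simp [h1, h2]
    ring
  · rw [sor_prod x0 y0 h hh
      (fun x => (k * Real.pi / h) * (k' * Real.pi / h) *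
        (Real.cos (k * Real.pi * (x - x0) / h) * Real.cos (k' * Real.pi * (x - x0) / h)))
      (fun y => Real.sin (l * Real.pi * (y - y0) / h) * Real.sin (l' * Real.pi * (y - y0) / h))
      (by fun_prop) (by fun_prop) _ (fun z hz => by
        simp only [snx, indicator_of_mem hz]; ring),
      intervalIntegral.integral_const_mul,
      sor_cc x0 h hh k k' hk hk', sor_ss y0 h hh l l' hl hl']
    by_cases h1 : k = k' <;> by_cases h2 : l = l' <;> simp [h1, h2]
    ring
  · rw [sor_prod x0 y0 h hh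
      (fun x => Real.sin (k * Real.pi * (x - x0) / h) * Real.sin (k' * Real.pi * (x - x0) / h))
      (fun y => (l * Real.pi / h) * (l' * Real.pi / h) *
        (Real.cos (l * Real.pi * (y - y0) / h) * Real.cos (l' * Real.pi * (y - y0) / h)))
      (by fun_prop) (by fun_prop) _ (fun z hz => by
        simp only [sny, indicator_of_mem hz]; ring),
      intervalIntegral.integral_const_mul,
      sor_ss x0 h hh k k' hk hk', sor_cc y0 h hh l l' hl hl']
    by_cases h1 : k = k' <;> by_cases h2 : l = l' <;> simp [h1, h2]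
    ring

end Pool.Agent.Lib_helper95.EQW.SOR

end

/-! ## Lib_helper95.EQW.B.RSU -/

section

/-!
EQ project, package S2, Weyl law: block RSU (helper67).  Cites SQF and DIS of Wanted.
-/

set_option autoImplicit false

namespace Pool.Agent.Lib_helper95.EQW.RSU

open MeasureTheory Set Filter Topology
open Pool.Agent.EQ (dx dy)
open scoped ContDiff

noncomputable section

theorem RSU {W : ℕ} (hW : 8 ≤ W) {ρ : ℂ → ℝ} (hρ : ContinuousOn ρ (FR W)) (hpos : ∀ z ∈ FR W, 0 < ρ z)
    {ε : ℝ} (hε : 0 < ε) : ∃ m0 : ℕ, ∀ m ≥ m0, 0 < m → ∃ B : ℕ × ℕ → ℝ,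
      (∀ p ∈ MS W m, 0 < B p ∧ ∀ z ∈ sqr m p, ρ z ≤ B p) ∧
      ∑ p ∈ MS W m, B p * (1 / (m : ℝ)) ^ 2 ≤ (∫ z in FR W, ρ z) + ε := by
  set V : ℝ := volume.real (FR W) with hV
  have hV0 : 0 ≤ V := measureReal_nonneg
  set e : ℝ := ε / (2 * (V + 1)) with he
  have he0 : 0 < e := by positivity
  have hVe : 2 * e * V ≤ ε := by
    rw [he]
    field_simp
    nlinarith
  obtain ⟨δ, hδ, hu⟩ := Metric.uniformContinuousOn_iff.1
    ((isCompact_FR W).uniformContinuousOn_of_continuous hρ) e he0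
  obtain ⟨m0, hm0⟩ := exists_nat_gt (2 / δ)
  refine ⟨m0, fun m hm hmpos => ?_⟩
  have hmR : (0 : ℝ) < m := by exact_mod_cast hmpos
  have hmδ : 2 / (m : ℝ) < δ := by
    have : (m0 : ℝ) ≤ m := by exact_mod_cast hm
    have h1 : 2 / δ < m := lt_of_lt_of_le hm0 this
    rw [div_lt_iff₀ hδ] at h1
    rw [div_lt_iff₀ hmR]
    linarith
  set c : ℕ × ℕ → ℂ := fun p => ⟨cx m p, cy m p⟩ with hc
  have hcm : ∀ p, c p ∈ sqr m p := by
    intro p
    have : (0 : ℝ) ≤ 1 / m := by positivity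
    exact ⟨le_refl _, by simpa [hc] using this, le_refl _, by simpa [hc] using this⟩
  have hdist : ∀ p, ∀ z ∈ sqr m p, dist z (c p) < δ := by
    intro p z hz
    obtain ⟨h1, h2, h3, h4⟩ := hz
    refine lt_of_le_of_lt ?_ hmδ
    rw [Complex.dist_eq]
    refine (Complex.norm_le_abs_re_add_abs_im _).trans ?_
    have e1 : |(z - c p).re| ≤ 1 / m := by
      rw [Complex.sub_re, abs_le]
      have : (c p).re = cx m p := rfl
      have : (0 : ℝ) ≤ 1 / m := by positivity
      constructor <;> linarith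
    have e2 : |(z - c p).im| ≤ 1 / m := by
      rw [Complex.sub_im, abs_le]
      have : (c p).im = cy m p := rfl
      have : (0 : ℝ) ≤ 1 / m := by positivity
      constructor <;> linarith
    have e3 : 2 / (m : ℝ) = 1 / m + 1 / m := by ring
    linarith
  have hclose : ∀ p ∈ MS W m, ∀ z ∈ sqr m p, |ρ z - ρ (c p)| < e := by
    intro p hp z hz
    have hs := Pool.Agent.Lib_helper95.EQW.SQF hmpos hp
    have := hu z (hs hz) (c p) (hs (hcm p)) (hdist p z hz)
    rwa [Real.dist_eq] at this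
  refine ⟨fun p => ρ (c p) + e, ?_, ?_⟩
  · intro p hp
    have hs := Pool.Agent.Lib_helper95.EQW.SQF hmpos hp
    refine ⟨add_pos (hpos _ (hs (hcm p))) he0, fun z hz => ?_⟩
    have := abs_lt.1 (hclose p hp z hz)
    linarith [this.2]
  · have hint : IntegrableOn ρ (FR W) := hρ.integrableOn_compact (isCompact_FR W)
    have hfin : volume (FR W) ≠ ⊤ := (isCompact_FR W).measure_lt_top.ne
    have hintc : IntegrableOn (fun _ : ℂ => 2 * e) (FR W) := integrableOn_const hfin
    have hintf : IntegrableOn (fun z => ρ z + 2 * e) (FR W) := hint.add hintc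
    have hD := Pool.Agent.Lib_helper95.EQW.DIS (W := W) hmpos (f := fun z => ρ z + 2 * e)
      (fun z hz => by have := hpos z hz; positivity) hintf
    have hI : ∫ z in FR W, (ρ z + 2 * e) = (∫ z in FR W, ρ z) + 2 * e * V := by
      rw [integral_add hint hintc, setIntegral_const, smul_eq_mul, mul_comm V]
    rw [hI] at hD
    refine le_trans (Finset.sum_le_sum fun p hp => ?_) (hD.trans (by linarith))
    have hs := Pool.Agent.Lib_helper95.EQW.SQF hmpos hp
    have hv : volume.real (sqr m p) = (1 / (m : ℝ)) ^ 2 := by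
      have h0 : (0 : ℝ) ≤ 1 / m := by positivity
      rw [Measure.real, sqr, volume_rct, ENNReal.toReal_mul, ENNReal.toReal_ofReal h0, sq]
    have hc1 : (ρ (c p) + e) * (1 / (m : ℝ)) ^ 2 = ∫ z in sqr m p, (ρ (c p) + e) := by
      rw [setIntegral_const, smul_eq_mul, hv, mul_comm]
    rw [hc1]
    have hms : MeasurableSet (sqr m p) := measurableSet_rct _ _ _ _
    have hfs : volume (sqr m p) ≠ ⊤ := (isCompact_rct _ _ _ _).measure_lt_top.ne
    refine setIntegral_mono_on (integrableOn_const hfs) (hintf.mono_set hs) hms fun z hz => ?_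
    have := abs_lt.1 (hclose p hp z hz)
    linarith [this.1]

end

end Pool.Agent.Lib_helper95.EQW.RSU

end

/-! ## Lib_helper95.EQW.B.RSL -/

section

/-!
# EQ project, package S2, Weyl law: block RSL (cites SQF and COV from Wanted)
-/

set_option autoImplicit false

namespace Pool.Agent.Lib_helper95.EQW.RSL

open MeasureTheory Set Filter Topology
open Pool.Agent.EQ (dx dy)
open scoped ContDiff

noncomputable section

theorem ann {R : ℝ} (hR : 1 ≤ R) :
    volume.real {z : ℂ | 1 ≤ ‖z‖ ∧ ‖z‖ ≤ R} = Real.pi * (R ^ 2 - 1) := by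
  have h : {z : ℂ | 1 ≤ ‖z‖ ∧ ‖z‖ ≤ R} = Metric.closedBall (0 : ℂ) R \ Metric.ball (0 : ℂ) 1 := by
    ext z
    simp only [mem_ofPred_eq, Set.mem_sdiff, Metric.mem_closedBall, Metric.mem_ball, dist_zero_right,
      not_lt]
    exact and_comm
  have hs : Metric.ball (0 : ℂ) 1 ⊆ Metric.closedBall (0 : ℂ) R :=
    (Metric.ball_subset_ball hR).trans Metric.ball_subset_closedBall
  rw [h, measureReal_sdiff hs measurableSet_ball (isCompact_closedBall _ _).measure_lt_top.ne]
  rw [Measure.real, Measure.real, Complex.volume_closedBall, Complex.volume_ball]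
  simp only [ENNReal.toReal_mul, ENNReal.toReal_pow, ENNReal.coe_toReal, NNReal.coe_real_pi,
    ENNReal.toReal_ofReal (zero_le_one.trans hR), ENNReal.toReal_ofReal zero_le_one]
  ring

theorem RSL {W : ℕ} (hW : 8 ≤ W) {ρ : ℂ → ℝ} (hρ : ContinuousOn ρ (FR W)) (hpos : ∀ z ∈ FR W, 0 < ρ z)
    {ε : ℝ} (hε : 0 < ε) : ∃ m0 : ℕ, ∀ m ≥ m0, 0 < m → ∃ B : ℕ × ℕ → ℝ,
      (∀ p ∈ MS W m, 0 < B p ∧ ∀ z ∈ sqr m p, B p ≤ ρ z) ∧
      (∫ z in FR W, ρ z) - ε ≤ ∑ p ∈ MS W m, B p * (1 / (m : ℝ)) ^ 2 := by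
  classical
  obtain ⟨C, hC⟩ := (isCompact_FR W).exists_bound_of_continuousOn hρ
  set C' : ℝ := max C 0 with hC'
  have hC'0 : 0 ≤ C' := le_max_right _ _
  have hCb : ∀ z ∈ FR W, ρ z ≤ C' := fun z hz =>
    (le_abs_self _).trans ((hC z hz).trans (le_max_left _ _))
  set e : ℝ := ε / (2 * (8 * W + 1)) with he
  have he0 : 0 < e := by positivity
  have heW : e * (8 * W) ≤ ε / 2 := by
    have hW0 : (0 : ℝ) ≤ W := Nat.cast_nonneg _
    rw [he, div_mul_eq_mul_div, div_le_div_iff₀ (by positivity) (by positivity)]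
    nlinarith
  obtain ⟨δ, hδ, hu⟩ := Metric.uniformContinuousOn_iff.1
    ((isCompact_FR W).uniformContinuousOn_of_continuous hρ) e he0
  obtain ⟨m1, hm1⟩ := exists_nat_gt (2 / δ)
  obtain ⟨m2, hm2⟩ := exists_nat_ge (16 * Real.pi * C' / ε)
  refine ⟨max m1 (max m2 1), fun m hm hmpos => ?_⟩
  have hmR : (0 : ℝ) < m := by exact_mod_cast hmpos
  have hmδ : 2 / (m : ℝ) < δ := by
    have : (m1 : ℝ) ≤ m := by exact_mod_cast (le_max_left _ _).trans hm
    have h1 : 2 / δ < m := lt_of_lt_of_le hm1 this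
    rw [div_lt_iff₀ hδ] at h1
    rw [div_lt_iff₀ hmR]
    linarith
  have hmC : C' * (8 * Real.pi / m) ≤ ε / 2 := by
    have : (m2 : ℝ) ≤ m := by
      exact_mod_cast (le_max_left m2 1).trans ((le_max_right m1 _).trans hm)
    have h1 : 16 * Real.pi * C' / ε ≤ m := hm2.trans this
    rw [div_le_iff₀ hε] at h1
    rw [mul_div_assoc', div_le_iff₀ hmR]
    linarith
  have hms : ∀ p, MeasurableSet (sqr m p) := fun p => measurableSet_rct _ _ _ _
  have hcs : ∀ p, IsCompact (sqr m p) := fun p => isCompact_rct _ _ _ _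
  have hfs : ∀ p, volume (sqr m p) ≠ ⊤ := fun p => (hcs p).measure_lt_top.ne
  have hne : ∀ p, (sqr m p).Nonempty := by
    intro p
    have : (0 : ℝ) ≤ 1 / m := by positivity
    exact ⟨⟨cx m p, cy m p⟩, le_refl _, by simpa using this, le_refl _, by simpa using this⟩
  have hmin : ∀ p, ∃ c, p ∈ MS W m → c ∈ sqr m p ∧ ∀ z ∈ sqr m p, ρ c ≤ ρ z := by
    intro p
    by_cases hp : p ∈ MS W m
    · have hs := Pool.Agent.Lib_helper95.EQW.SQF hmpos hp
      obtain ⟨c, hc1, hc2⟩ := (hcs p).exists_isMinOn (hne p) (hρ.mono hs)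
      exact ⟨c, fun _ => ⟨hc1, fun z hz => hc2 hz⟩⟩
    · exact ⟨0, fun h => absurd h hp⟩
  choose c hc using hmin
  have hdist : ∀ p, ∀ z ∈ sqr m p, ∀ w ∈ sqr m p, dist z w < δ := by
    intro p z hz w hw
    obtain ⟨h1, h2, h3, h4⟩ := hz
    obtain ⟨g1, g2, g3, g4⟩ := hw
    refine lt_of_le_of_lt ?_ hmδ
    rw [Complex.dist_eq]
    refine (Complex.norm_le_abs_re_add_abs_im _).trans ?_
    have e1 : |(z - w).re| ≤ 1 / m := by
      rw [Complex.sub_re, abs_le]
      constructor <;> linarith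
    have e2 : |(z - w).im| ≤ 1 / m := by
      rw [Complex.sub_im, abs_le]
      constructor <;> linarith
    have e3 : 2 / (m : ℝ) = 1 / m + 1 / m := by ring
    linarith
  refine ⟨fun p => ρ (c p), ?_, ?_⟩
  · intro p hp
    have hs := Pool.Agent.Lib_helper95.EQW.SQF hmpos hp
    exact ⟨hpos _ (hs (hc p hp).1), (hc p hp).2⟩
  have hint : IntegrableOn ρ (FR W) := hρ.integrableOn_compact (isCompact_FR W)
  -- the annulus
  have hR1 : (1 : ℝ) ≤ 1 + 2 / m := by
    have : (0 : ℝ) ≤ 2 / m := by positivity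
    linarith
  set A : Set ℂ := FR W ∩ {z | ‖z‖ ≤ 1 + 2 / m} with hA
  have hAc : IsClosed A := (isClosed_FR W).inter (isClosed_le continuous_norm continuous_const)
  have hAm : MeasurableSet A := hAc.measurableSet
  have hAF : A ⊆ FR W := inter_subset_left
  have hAR : A ⊆ {z : ℂ | 1 ≤ ‖z‖ ∧ ‖z‖ ≤ 1 + 2 / m} := fun z hz => ⟨hz.1.2.2.2.2, hz.2⟩
  have hAfin : volume A ≠ ⊤ :=
    ((isCompact_FR W).of_isClosed_subset hAc hAF).measure_lt_top.ne
  have hRfin : volume {z : ℂ | 1 ≤ ‖z‖ ∧ ‖z‖ ≤ 1 + 2 / m} ≠ ⊤ := by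
    refine (lt_of_le_of_lt (measure_mono (t := Metric.closedBall (0 : ℂ) (1 + 2 / m)) ?_)
      (isCompact_closedBall _ _).measure_lt_top).ne
    intro z hz
    rw [Metric.mem_closedBall, dist_zero_right]
    exact hz.2
  have hIA : ∫ z in A, ρ z ≤ ε / 2 := by
    have h1 : ∫ z in A, ρ z ≤ ∫ z in A, C' :=
      setIntegral_mono_on (hint.mono_set hAF) (integrableOn_const hAfin) hAm
        fun z hz => hCb z (hAF hz)
    rw [setIntegral_const, smul_eq_mul] at h1
    have h2 : volume.real A ≤ 8 * Real.pi / m := by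
      refine (measureReal_mono hAR hRfin).trans ?_
      rw [ann hR1]
      have hm1 : (1 : ℝ) ≤ m := by exact_mod_cast hmpos
      have h3 : (1 + 2 / (m : ℝ)) ^ 2 - 1 ≤ 8 / m := by
        have h4 : 4 / (m : ℝ) ^ 2 ≤ 4 / m := by
          rw [div_le_div_iff₀ (by positivity) (by positivity)]
          nlinarith
        have h5 : (1 + 2 / (m : ℝ)) ^ 2 - 1 = 4 / m + 4 / (m : ℝ) ^ 2 := by
          field_simp
          ring
        have h6 : 8 / (m : ℝ) = 4 / m + 4 / m := by ring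
        linarith
      calc Real.pi * ((1 + 2 / (m : ℝ)) ^ 2 - 1) ≤ Real.pi * (8 / m) :=
            mul_le_mul_of_nonneg_left h3 Real.pi_pos.le
        _ = 8 * Real.pi / m := by ring
    have h3 := mul_le_mul_of_nonneg_left h2 hC'0
    linarith
  -- the pointwise bound
  have hpt : ∀ z, (FR W).indicator ρ z ≤
      (∑ p ∈ MS W m, (sqr m p).indicator ρ z) + A.indicator ρ z := by
    intro z
    have hn1 : ∀ p ∈ MS W m, 0 ≤ (sqr m p).indicator ρ z := fun p hp =>
      indicator_nonneg (fun w hw => (hpos w (Pool.Agent.Lib_helper95.EQW.SQF hmpos hp hw)).le) z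
    have hn2 : 0 ≤ A.indicator ρ z := indicator_nonneg (fun w hw => (hpos w (hAF hw)).le) z
    by_cases hz : z ∈ FR W
    · rw [indicator_of_mem hz]
      rcases Pool.Agent.Lib_helper95.EQW.COV hW hmpos hz with ⟨p, hp, hzp⟩ | h
      · have h1 := Finset.single_le_sum hn1 hp
        rw [indicator_of_mem hzp] at h1
        linarith
      · rw [indicator_of_mem (show z ∈ A from ⟨hz, h⟩)]
        have h1 := Finset.sum_nonneg hn1
        linarith
    · rw [indicator_of_notMem hz]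
      exact add_nonneg (Finset.sum_nonneg hn1) hn2
  have hi1 : ∀ p ∈ MS W m, Integrable ((sqr m p).indicator ρ) := fun p hp =>
    (integrable_indicator_iff (hms p)).2
      (hint.mono_set (Pool.Agent.Lib_helper95.EQW.SQF hmpos hp))
  have hi2 : Integrable (A.indicator ρ) := (integrable_indicator_iff hAm).2 (hint.mono_set hAF)
  have hi3 : Integrable (fun z => ∑ p ∈ MS W m, (sqr m p).indicator ρ z) :=
    integrable_finsetSum _ hi1
  have h1 : ∫ z in FR W, ρ z ≤ (∑ p ∈ MS W m, ∫ z in sqr m p, ρ z) + ∫ z in A, ρ z := by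
    rw [← integral_indicator (measurableSet_FR W), ← integral_indicator hAm,
      Finset.sum_congr rfl fun p _ => (integral_indicator (f := ρ) (μ := volume) (hms p)).symm,
      ← integral_finsetSum _ hi1, ← integral_add hi3 hi2]
    exact integral_mono ((integrable_indicator_iff (measurableSet_FR W)).2 hint)
      (hi3.add hi2) hpt
  have h2 : ∀ p ∈ MS W m, ∫ z in sqr m p, ρ z ≤ ρ (c p) * (1 / (m : ℝ)) ^ 2 +
      e * (1 / (m : ℝ)) ^ 2 := by
    intro p hp
    have hs := Pool.Agent.Lib_helper95.EQW.SQF hmpos hp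
    have hv : volume.real (sqr m p) = (1 / (m : ℝ)) ^ 2 := by
      have h0 : (0 : ℝ) ≤ 1 / m := by positivity
      rw [Measure.real, sqr, volume_rct, ENNReal.toReal_mul, ENNReal.toReal_ofReal h0, sq]
    have h3 : ∫ z in sqr m p, ρ z ≤ ∫ z in sqr m p, (ρ (c p) + e) := by
      refine setIntegral_mono_on (hint.mono_set hs) (integrableOn_const (hfs p)) (hms p)
        fun z hz => ?_
      have h4 := hu z (hs hz) (c p) (hs (hc p hp).1) (hdist p z hz (c p) (hc p hp).1)
      rw [Real.dist_eq] at h4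
      linarith [(abs_lt.1 h4).2]
    rw [setIntegral_const, smul_eq_mul, hv] at h3
    linarith
  have h3 := Finset.sum_le_sum h2
  rw [Finset.sum_add_distrib, Finset.sum_const, nsmul_eq_mul] at h3
  have hcard : ((MS W m).card : ℝ) ≤ (8 * m) * (W * m) := by
    have : (MS W m).card ≤ (8 * m) * (W * m) := by
      rw [MS]
      refine (Finset.card_filter_le _ _).trans ?_
      rw [Finset.card_product, Finset.card_range, Finset.card_range]
    exact_mod_cast this
  have h4 : ((MS W m).card : ℝ) * (e * (1 / (m : ℝ)) ^ 2) ≤ ε / 2 := by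
    refine (mul_le_mul_of_nonneg_right hcard (by positivity)).trans ?_
    refine le_trans (le_of_eq ?_) heW
    field_simp
  linarith

end

end Pool.Agent.Lib_helper95.EQW.RSL

end

/-! ## Lib_helper95.EQW.P1 -/

section

/-!
# EQW: proved blocks, level 1
-/

namespace Pool.Agent.Lib_helper95.EQW

alias NEU1 := NEU1.NEU1

alias SOR := SOR.SOR

alias RSU := RSU.RSU

alias RSL := RSL.RSL

end Pool.Agent.Lib_helper95.EQW

end

/-! ## Lib_helper95.EQW.B.NEU2 -/

section

/-!
# EQ project, package S2, Weyl law: block NEU2 (cites NEU1 and BES from Wanted)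
-/

set_option autoImplicit false

namespace Pool.Agent.Lib_helper95.EQW.NEU2

open MeasureTheory Set Filter Topology
open Pool.Agent.EQ (dx dy)
open scoped ContDiff

noncomputable section

theorem ec_cont (x0 a : ℝ) (k : ℕ) : Continuous (ec x0 a k) := by
  by_cases hk : k = 0
  · have : ec x0 a k = fun _ => 1 / √a := by
      funext x
      rw [ec, if_pos hk]
    rw [this]
    exact continuous_const
  · have : ec x0 a k = fun x => √(2 / a) * Real.cos (k * Real.pi * (x - x0) / a) := by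
      funext x
      rw [ec, if_neg hk]
    rw [this]
    fun_prop

theorem par {f : ℝ → ℝ → ℝ} (hf : Continuous (Function.uncurry f)) (p q : ℝ) :
    Continuous fun y => ∫ x in p..q, f x y :=
  intervalIntegral.continuous_parametric_intervalIntegral_of_continuous'
    (f := fun y x => f x y) (hf.comp continuous_swap) p q

theorem psq {f : ℝ → ℝ → ℝ} (hf : Continuous (Function.uncurry f)) (p q : ℝ) :
    Continuous fun y => ∫ x in p..q, f x y ^ 2 :=
  par (f := fun x y => f x y ^ 2) (by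
    have h : (Function.uncurry fun x y => f x y ^ 2) = fun z => Function.uncurry f z ^ 2 := by
      funext z
      rfl
    rw [h]
    exact hf.pow 2) p q

theorem swp {f : ℝ → ℝ → ℝ} (hf : Continuous (Function.uncurry f)) (p q r s : ℝ) :
    ∫ x in p..q, ∫ y in r..s, f x y = ∫ y in r..s, ∫ x in p..q, f x y := by
  refine intervalIntegral_intervalIntegral_swap ?_
  refine IntegrableOn.mono_set (t := uIcc p q ×ˢ uIcc r s) ?_
    (prod_mono uIoc_subset_uIcc uIoc_subset_uIcc)
  exact hf.continuousOn.integrableOn_compact (isCompact_uIcc.prod isCompact_uIcc)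

/-- the coefficient and its derivative -/
theorem coef {x0 y0 a b : ℝ} (ha : 0 < a) {u uy : ℝ → ℝ → ℝ}
    (hu : Continuous (Function.uncurry u)) (huy : Continuous (Function.uncurry uy))
    (h2 : ∀ x ∈ Icc x0 (x0 + a), ∀ y ∈ Icc y0 (y0 + b), u x y = u x y0 + ∫ t in y0..y, uy x t)
    (k : ℕ) : ∀ y ∈ Icc y0 (y0 + b),
      (∫ x in x0..(x0 + a), u x y * ec x0 a k x) = (∫ x in x0..(x0 + a), u x y0 * ec x0 a k x) +
        ∫ t in y0..y, ∫ x in x0..(x0 + a), uy x t * ec x0 a k x := by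
  intro y hy
  have hec := ec_cont x0 a k
  have hf : Continuous (Function.uncurry fun x t => uy x t * ec x0 a k x) :=
    huy.mul (hec.comp continuous_fst)
  rw [← swp hf, ← intervalIntegral.integral_add]
  · refine intervalIntegral.integral_congr fun x hx => ?_
    rw [uIcc_of_le (by linarith)] at hx
    rw [intervalIntegral.integral_mul_const, h2 x hx y hy]
    ring
  · exact ((hu.uncurry_right y0).mul hec).intervalIntegrable _ _
  · exact Continuous.intervalIntegrable
      (intervalIntegral.continuous_parametric_intervalIntegral_of_continuous' hf _ _) _ _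

theorem core {x0 y0 a b : ℝ} (ha : 0 < a) (hb : 0 < b) {u ux uy : ℝ → ℝ → ℝ}
    (hu : Continuous (Function.uncurry u))
    (hux : Continuous (Function.uncurry ux))
    (huy : Continuous (Function.uncurry uy))
    (h1 : ∀ y ∈ Icc y0 (y0 + b), ∀ x ∈ Icc x0 (x0 + a), u x y = u x0 y + ∫ t in x0..x, ux t y)
    (h2 : ∀ x ∈ Icc x0 (x0 + a), ∀ y ∈ Icc y0 (y0 + b), u x y = u x y0 + ∫ t in y0..y, uy x t)
    {M : ℝ} (hM : 0 ≤ M) {S : Finset (ℕ × ℕ)}
    (hS : ∀ k l : ℕ, (k * Real.pi / a) ^ 2 + (l * Real.pi / b) ^ 2 < M → (k, l) ∈ S) :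
    M * (∫ y in y0..(y0 + b), ∫ x in x0..(x0 + a), u x y ^ 2) ≤
      (∫ y in y0..(y0 + b), ∫ x in x0..(x0 + a), (ux x y ^ 2 + uy x y ^ 2)) +
      M * ∑ p ∈ S, (∫ y in y0..(y0 + b), ∫ x in x0..(x0 + a),
        u x y * (ec x0 a p.1 x * ec y0 b p.2 y)) ^ 2 := by
  classical
  have hxa : x0 ≤ x0 + a := by linarith
  have hyb : y0 ≤ y0 + b := by linarith
  -- the coefficients
  set c : ℕ → ℝ → ℝ := fun k y => ∫ x in x0..(x0 + a), u x y * ec x0 a k x with hc
  set d : ℕ → ℝ → ℝ := fun k y => ∫ x in x0..(x0 + a), uy x y * ec x0 a k x with hd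
  have cc : ∀ k, Continuous (c k) := fun k =>
    par (f := fun x y => u x y * ec x0 a k x) (hu.mul ((ec_cont x0 a k).comp continuous_fst)) _ _
  have dc : ∀ k, Continuous (d k) := fun k =>
    par (f := fun x y => uy x y * ec x0 a k x) (huy.mul ((ec_cont x0 a k).comp continuous_fst)) _ _
  have U2 : Continuous fun y => ∫ x in x0..(x0 + a), u x y ^ 2 :=
    psq hu _ _
  have X2 : Continuous fun y => ∫ x in x0..(x0 + a), ux x y ^ 2 :=
    psq hux _ _
  have Y2 : Continuous fun y => ∫ x in x0..(x0 + a), uy x y ^ 2 :=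
    psq huy _ _
  -- choice of K
  obtain ⟨K, hK⟩ : ∃ K : ℕ, M ≤ (K * Real.pi / a) ^ 2 := by
    obtain ⟨K, hK⟩ := exists_nat_ge ((M + 1) * a / Real.pi)
    refine ⟨K, ?_⟩
    have h3 : M + 1 ≤ K * Real.pi / a := by
      rw [le_div_iff₀ ha]
      rwa [div_le_iff₀ Real.pi_pos] at hK
    nlinarith
  -- choice of L_k
  have hLex : ∀ k : ℕ, ∃ l : ℕ, M ≤ (k * Real.pi / a) ^ 2 + (l * Real.pi / b) ^ 2 := by
    intro k
    obtain ⟨l, hl⟩ := exists_nat_ge ((M + 1) * b / Real.pi)
    refine ⟨l, ?_⟩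
    have h3 : M + 1 ≤ l * Real.pi / b := by
      rw [le_div_iff₀ hb]
      rwa [div_le_iff₀ Real.pi_pos] at hl
    nlinarith [sq_nonneg (k * Real.pi / a)]
  set Lf : ℕ → ℕ := fun k => Nat.find (hLex k) with hLf
  have hL1 : ∀ k, M ≤ (k * Real.pi / a) ^ 2 + (Lf k * Real.pi / b) ^ 2 := fun k =>
    Nat.find_spec (hLex k)
  have hL2 : ∀ k, ∀ l < Lf k, (k, l) ∈ S := fun k l hl =>
    hS k l (not_le.1 (Nat.find_min (hLex k) hl))
  -- step 1
  have s1 : ∀ y ∈ Icc y0 (y0 + b), M * ((∫ x in x0..(x0 + a), u x y ^ 2) -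
      ∑ k ∈ Finset.range K, c k y ^ 2) +
      ∑ k ∈ Finset.range K, (k * Real.pi / a) ^ 2 * c k y ^ 2 ≤
      ∫ x in x0..(x0 + a), ux x y ^ 2 := by
    intro y hy
    have hn := NEU1 ha (w := fun x => u x y) (w' := fun x => ux x y)
      (hux.uncurry_right y).continuousOn (h1 y hy) K
    have hb := BES ha (w := fun x => u x y) (x0 := x0) (hu.uncurry_right y).continuousOn K
    have h3 := mul_le_mul_of_nonneg_right hK (sub_nonneg.2 hb)
    exact (add_le_add_left h3 _).trans hn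
  have i1 : M * ((∫ y in y0..(y0 + b), ∫ x in x0..(x0 + a), u x y ^ 2) -
      ∑ k ∈ Finset.range K, ∫ y in y0..(y0 + b), c k y ^ 2) +
      ∑ k ∈ Finset.range K, (k * Real.pi / a) ^ 2 * ∫ y in y0..(y0 + b), c k y ^ 2 ≤
      ∫ y in y0..(y0 + b), ∫ x in x0..(x0 + a), ux x y ^ 2 := by
    have hc1 : Continuous fun y => ∑ k ∈ Finset.range K, c k y ^ 2 :=
      continuous_finsetSum _ fun k _ => (cc k).pow 2
    have hc2 : Continuous fun y => ∑ k ∈ Finset.range K, (k * Real.pi / a) ^ 2 * c k y ^ 2 :=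
      continuous_finsetSum _ fun k _ => continuous_const.mul ((cc k).pow 2)
    have hd1 : IntervalIntegrable (fun y => M * ((∫ x in x0..(x0 + a), u x y ^ 2) -
        ∑ k ∈ Finset.range K, c k y ^ 2) +
        ∑ k ∈ Finset.range K, (k * Real.pi / a) ^ 2 * c k y ^ 2) volume y0 (y0 + b) :=
      ((continuous_const.mul (U2.sub hc1)).add hc2).intervalIntegrable _ _
    have h3 := intervalIntegral.integral_mono_on hyb hd1
      (X2.intervalIntegrable (μ := volume) _ _) s1
    refine le_of_eq_of_le ?_ h3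
    have hd2 : ∀ k ∈ Finset.range K,
        IntervalIntegrable (fun y => c k y ^ 2) volume y0 (y0 + b) := fun k _ =>
      ((cc k).pow 2).intervalIntegrable _ _
    have hd3 : ∀ k ∈ Finset.range K,
        IntervalIntegrable (fun y => (k * Real.pi / a) ^ 2 * c k y ^ 2) volume y0 (y0 + b) :=
      fun k _ => (continuous_const.mul ((cc k).pow 2)).intervalIntegrable _ _
    have hd4 : IntervalIntegrable (fun y => M * ((∫ x in x0..(x0 + a), u x y ^ 2) -
        ∑ k ∈ Finset.range K, c k y ^ 2)) volume y0 (y0 + b) :=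
      (continuous_const.mul (U2.sub hc1)).intervalIntegrable _ _
    rw [intervalIntegral.integral_add hd4
      (hc2.intervalIntegrable _ _), intervalIntegral.integral_const_mul,
      intervalIntegral.integral_sub (U2.intervalIntegrable _ _) (hc1.intervalIntegrable _ _),
      intervalIntegral.integral_finsetSum hd2, intervalIntegral.integral_finsetSum hd3]
    simp only [intervalIntegral.integral_const_mul]
  -- step 2
  have i2 : ∑ k ∈ Finset.range K, (∫ y in y0..(y0 + b), d k y ^ 2) ≤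
      ∫ y in y0..(y0 + b), ∫ x in x0..(x0 + a), uy x y ^ 2 := by
    have hc1 : Continuous fun y => ∑ k ∈ Finset.range K, d k y ^ 2 :=
      continuous_finsetSum _ fun k _ => (dc k).pow 2
    have hd2 : ∀ k ∈ Finset.range K,
        IntervalIntegrable (fun y => d k y ^ 2) volume y0 (y0 + b) := fun k _ =>
      ((dc k).pow 2).intervalIntegrable _ _
    rw [← intervalIntegral.integral_finsetSum hd2]
    refine intervalIntegral.integral_mono_on hyb (hc1.intervalIntegrable _ _)
      (Y2.intervalIntegrable _ _) fun y _ => ?_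
    exact BES ha (w := fun x => uy x y) (x0 := x0) (huy.uncurry_right y).continuousOn K
  -- step 3
  set e : ℕ → ℕ → ℝ := fun k l => ∫ y in y0..(y0 + b), c k y * ec y0 b l y with he
  have i3 : ∀ k, (M - (k * Real.pi / a) ^ 2) * (∫ y in y0..(y0 + b), c k y ^ 2) ≤
      (∫ y in y0..(y0 + b), d k y ^ 2) + M * ∑ l ∈ Finset.range (Lf k), e k l ^ 2 := by
    intro k
    have hn := NEU1 hb (w := c k) (w' := d k) (dc k).continuousOn
      (coef ha hu huy h2 k) (Lf k)
    have hb := BES hb (w := c k) (x0 := y0) (cc k).continuousOn (Lf k)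
    have h3 : M - (k * Real.pi / a) ^ 2 ≤ (Lf k * Real.pi / b) ^ 2 := by
      linarith [hL1 k]
    have h4 := mul_le_mul_of_nonneg_right h3 (sub_nonneg.2 hb)
    have h5 : 0 ≤ ∑ l ∈ Finset.range (Lf k), (l * Real.pi / b) ^ 2 *
        (∫ y in y0..(y0 + b), c k y * ec y0 b l y) ^ 2 :=
      Finset.sum_nonneg fun l _ => by positivity
    have h6 : 0 ≤ ∑ l ∈ Finset.range (Lf k), (∫ y in y0..(y0 + b), c k y * ec y0 b l y) ^ 2 :=
      Finset.sum_nonneg fun l _ => by positivity
    have h7 : 0 ≤ (k * Real.pi / a) ^ 2 := sq_nonneg _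
    have h8 := mul_nonneg h7 h6
    simp only [he]
    nlinarith
  -- the double sum
  have i4 : ∑ k ∈ Finset.range K, ∑ l ∈ Finset.range (Lf k), e k l ^ 2 ≤
      ∑ p ∈ S, e p.1 p.2 ^ 2 := by
    have h3 := Finset.sum_finset_product (S.filter fun p => p.1 < K ∧ p.2 < Lf p.1)
      (Finset.range K) (fun k => Finset.range (Lf k)) (fun p => by
        rw [Finset.mem_filter, Finset.mem_range, Finset.mem_range]
        exact ⟨fun h => h.2, fun h => ⟨hL2 p.1 p.2 h.2, h⟩⟩) (f := fun p => e p.1 p.2 ^ 2)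
    rw [← h3]
    exact Finset.sum_le_sum_of_subset_of_nonneg (Finset.filter_subset _ _)
      fun p _ _ => sq_nonneg _
  have he' : ∀ p : ℕ × ℕ, (∫ y in y0..(y0 + b), ∫ x in x0..(x0 + a),
        u x y * (ec x0 a p.1 x * ec y0 b p.2 y)) = e p.1 p.2 := by
    intro p
    simp only [he, hc]
    refine intervalIntegral.integral_congr fun y _ => ?_
    rw [← intervalIntegral.integral_mul_const]
    refine intervalIntegral.integral_congr fun x _ => ?_
    ring
  have hXY : (∫ y in y0..(y0 + b), ∫ x in x0..(x0 + a), (ux x y ^ 2 + uy x y ^ 2)) =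
      (∫ y in y0..(y0 + b), ∫ x in x0..(x0 + a), ux x y ^ 2) +
      ∫ y in y0..(y0 + b), ∫ x in x0..(x0 + a), uy x y ^ 2 := by
    rw [← intervalIntegral.integral_add (X2.intervalIntegrable _ _) (Y2.intervalIntegrable _ _)]
    refine intervalIntegral.integral_congr fun y _ => ?_
    have j1 : IntervalIntegrable (fun x => ux x y ^ 2) volume x0 (x0 + a) :=
      ((hux.uncurry_right y).pow 2).intervalIntegrable _ _
    have j2 : IntervalIntegrable (fun x => uy x y ^ 2) volume x0 (x0 + a) :=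
      ((huy.uncurry_right y).pow 2).intervalIntegrable _ _
    exact (intervalIntegral.integral_add j1 j2)
  simp only [he']
  rw [hXY]
  have i5 : ∑ k ∈ Finset.range K, (M - (k * Real.pi / a) ^ 2) * (∫ y in y0..(y0 + b), c k y ^ 2) ≤
      ∑ k ∈ Finset.range K, ((∫ y in y0..(y0 + b), d k y ^ 2) +
        M * ∑ l ∈ Finset.range (Lf k), e k l ^ 2) := Finset.sum_le_sum fun k _ => i3 k
  rw [Finset.sum_add_distrib, ← Finset.mul_sum] at i5
  have i6 : ∑ k ∈ Finset.range K, (M - (k * Real.pi / a) ^ 2) *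
      (∫ y in y0..(y0 + b), c k y ^ 2) = M * (∑ k ∈ Finset.range K, ∫ y in y0..(y0 + b), c k y ^ 2)
      - ∑ k ∈ Finset.range K, (k * Real.pi / a) ^ 2 * ∫ y in y0..(y0 + b), c k y ^ 2 := by
    rw [Finset.mul_sum, ← Finset.sum_sub_distrib]
    exact Finset.sum_congr rfl fun k _ => by ring
  have i7 := mul_le_mul_of_nonneg_left i4 hM
  rw [i6] at i5
  linarith

/-- extension by clamping -/
def clp (p q : ℝ) (t : ℝ) : ℝ := max p (min q t)

theorem clp_cont (p q : ℝ) : Continuous (clp p q) := by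
  unfold clp
  fun_prop

theorem clp_mem {p q : ℝ} (h : p ≤ q) (t : ℝ) : clp p q t ∈ Icc p q :=
  ⟨le_max_left _ _, max_le h (min_le_left _ _)⟩

theorem clp_eq {p q t : ℝ} (h : t ∈ Icc p q) : clp p q t = t := by
  rw [clp, min_eq_right h.2, max_eq_right h.1]

theorem NEU2 {x0 y0 a b : ℝ} (ha : 0 < a) (hb : 0 < b) {u ux uy : ℝ → ℝ → ℝ}
    (hu : ContinuousOn (Function.uncurry u) (Icc x0 (x0 + a) ×ˢ Icc y0 (y0 + b)))
    (hux : ContinuousOn (Function.uncurry ux) (Icc x0 (x0 + a) ×ˢ Icc y0 (y0 + b)))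
    (huy : ContinuousOn (Function.uncurry uy) (Icc x0 (x0 + a) ×ˢ Icc y0 (y0 + b)))
    (h1 : ∀ y ∈ Icc y0 (y0 + b), ∀ x ∈ Icc x0 (x0 + a), u x y = u x0 y + ∫ t in x0..x, ux t y)
    (h2 : ∀ x ∈ Icc x0 (x0 + a), ∀ y ∈ Icc y0 (y0 + b), u x y = u x y0 + ∫ t in y0..y, uy x t)
    {M : ℝ} (hM : 0 ≤ M) {S : Finset (ℕ × ℕ)}
    (hS : ∀ k l : ℕ, (k * Real.pi / a) ^ 2 + (l * Real.pi / b) ^ 2 < M → (k, l) ∈ S) :
    M * (∫ y in y0..(y0 + b), ∫ x in x0..(x0 + a), u x y ^ 2) ≤
      (∫ y in y0..(y0 + b), ∫ x in x0..(x0 + a), (ux x y ^ 2 + uy x y ^ 2)) +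
      M * ∑ p ∈ S, (∫ y in y0..(y0 + b), ∫ x in x0..(x0 + a),
        u x y * (ec x0 a p.1 x * ec y0 b p.2 y)) ^ 2 := by
  have hxa : x0 ≤ x0 + a := by linarith
  have hyb : y0 ≤ y0 + b := by linarith
  set X := clp x0 (x0 + a) with hX
  set Y := clp y0 (y0 + b) with hY
  have hXm : ∀ x, X x ∈ Icc x0 (x0 + a) := clp_mem hxa
  have hYm : ∀ y, Y y ∈ Icc y0 (y0 + b) := clp_mem hyb
  have hXe : ∀ x ∈ Icc x0 (x0 + a), X x = x := fun x hx => clp_eq hx
  have hYe : ∀ y ∈ Icc y0 (y0 + b), Y y = y := fun y hy => clp_eq hy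
  have ext : ∀ f : ℝ → ℝ → ℝ,
      ContinuousOn (Function.uncurry f) (Icc x0 (x0 + a) ×ˢ Icc y0 (y0 + b)) →
      Continuous (Function.uncurry fun x y => f (X x) (Y y)) := by
    intro f hf
    exact hf.comp_continuous (f := fun z : ℝ × ℝ => (X z.1, Y z.2))
      (((clp_cont _ _).comp continuous_fst).prodMk ((clp_cont _ _).comp continuous_snd))
      (fun z => ⟨hXm _, hYm _⟩)
  have hx0 : X x0 = x0 := hXe _ (left_mem_Icc.2 hxa)
  have hy0 : Y y0 = y0 := hYe _ (left_mem_Icc.2 hyb)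
  have key := core ha hb (u := fun x y => u (X x) (Y y)) (ux := fun x y => ux (X x) (Y y))
    (uy := fun x y => uy (X x) (Y y)) (ext u hu) (ext ux hux) (ext uy huy)
    (fun y hy x hx => by
      rw [hx0, hYe y hy, hXe x hx, h1 y hy x hx]
      congr 1
      refine intervalIntegral.integral_congr fun t ht => ?_
      rw [uIcc_of_le hx.1] at ht
      rw [hXe t ⟨ht.1, ht.2.trans hx.2⟩])
    (fun x hx y hy => by
      rw [hy0, hYe y hy, hXe x hx, h2 x hx y hy]
      congr 1
      refine intervalIntegral.integral_congr fun t ht => ?_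
      rw [uIcc_of_le hy.1] at ht
      rw [hYe t ⟨ht.1, ht.2.trans hy.2⟩]) hM hS
  have cg : ∀ f g : ℝ → ℝ → ℝ, (∀ x ∈ Icc x0 (x0 + a), ∀ y ∈ Icc y0 (y0 + b), f x y = g x y) →
      (∫ y in y0..(y0 + b), ∫ x in x0..(x0 + a), f x y) =
        ∫ y in y0..(y0 + b), ∫ x in x0..(x0 + a), g x y := by
    intro f g hfg
    refine intervalIntegral.integral_congr fun y hy => ?_
    rw [uIcc_of_le hyb] at hy
    refine intervalIntegral.integral_congr fun x hx => ?_
    rw [uIcc_of_le hxa] at hx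
    exact hfg x hx y hy
  have e1 := cg (fun x y => u (X x) (Y y) ^ 2) (fun x y => u x y ^ 2)
    (fun x hx y hy => by simp only [hXe x hx, hYe y hy])
  have e2 := cg (fun x y => ux (X x) (Y y) ^ 2 + uy (X x) (Y y) ^ 2)
    (fun x y => ux x y ^ 2 + uy x y ^ 2)
    (fun x hx y hy => by simp only [hXe x hx, hYe y hy])
  have e3 := fun p : ℕ × ℕ => cg (fun x y => u (X x) (Y y) * (ec x0 a p.1 x * ec y0 b p.2 y))
    (fun x y => u x y * (ec x0 a p.1 x * ec y0 b p.2 y))
    (fun x hx y hy => by simp only [hXe x hx, hYe y hy])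
  simp only [e1, e2, e3] at key
  exact key

end

end Pool.Agent.Lib_helper95.EQW.NEU2

end

/-! ## Lib_helper95.EQW.B.SQL -/

section

/-!
# EQ project, package S2, Weyl law: block SQL (cites SOR from Wanted)
-/

set_option autoImplicit false

namespace Pool.Agent.Lib_helper95.EQW.SQL

open MeasureTheory Set Filter Topology
open Pool.Agent.EQ (dx dy)
open scoped ContDiff

noncomputable section

theorem quad {Q : Set ℂ} (hQ : IsCompact Q) {g : ℕ × ℕ → ℂ → ℝ}
    (hg : ∀ p, ContinuousOn (g p) Q) {S : Finset (ℕ × ℕ)} {c : ℕ × ℕ → ℝ}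
    (h : ∀ p ∈ S, ∀ q ∈ S, ∫ z in Q, g p z * g q z = if p = q then c p else 0)
    (a : ℕ × ℕ → ℝ) :
    ∫ z in Q, (∑ p ∈ S, a p * g p z) ^ 2 = ∑ p ∈ S, a p ^ 2 * c p := by
  have hi : ∀ p q, IntegrableOn (fun z => (a p * a q) * (g p z * g q z)) Q := fun p q =>
    (continuousOn_const.mul ((hg p).mul (hg q))).integrableOn_compact hQ
  have h1 : ∀ z, (∑ p ∈ S, a p * g p z) ^ 2 =
      ∑ p ∈ S, ∑ q ∈ S, (a p * a q) * (g p z * g q z) := by
    intro z
    rw [sq, Finset.sum_mul_sum]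
    exact Finset.sum_congr rfl fun p _ => Finset.sum_congr rfl fun q _ => by ring
  simp_rw [h1]
  rw [integral_finsetSum _ fun p _ => integrable_finsetSum _ fun q _ => hi p q]
  refine Finset.sum_congr rfl fun p hp => ?_
  rw [integral_finsetSum _ fun q _ => hi p q]
  have h2 : ∀ q ∈ S, ∫ z in Q, (a p * a q) * (g p z * g q z) =
      if p = q then a p ^ 2 * c p else 0 := by
    intro q hq
    rw [integral_const_mul, h p hp q hq]
    split_ifs with hpq
    · rw [← hpq, sq]
    · simp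
  rw [Finset.sum_congr rfl h2, Finset.sum_ite_eq, if_pos hp]

theorem SQL {x0 y0 h : ℝ} (hh : 0 < h) {ρ : ℂ → ℝ} {B : ℝ} (hB : 0 < B)
    (hρc : ContinuousOn ρ (rct x0 y0 h h)) (hρ : ∀ z ∈ rct x0 y0 h h, B ≤ ρ z) {L : ℝ}
    (hL : 0 ≤ L) {S : Finset (ℕ × ℕ)} (hS : ∀ p ∈ S, 1 ≤ p.1 ∧ 1 ≤ p.2 ∧
      (p.1 : ℝ) ^ 2 + (p.2 : ℝ) ^ 2 ≤ (h * √(L * B) / Real.pi) ^ 2) (a : ℕ × ℕ → ℝ) :
    (∫ z in rct x0 y0 h h, ((∑ p ∈ S, a p * snx x0 y0 h p.1 p.2 z) ^ 2 +
      (∑ p ∈ S, a p * sny x0 y0 h p.1 p.2 z) ^ 2)) ≤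
      L * (∫ z in rct x0 y0 h h, ρ z * (∑ p ∈ S, a p * sn x0 y0 h p.1 p.2 z) ^ 2) ∧
    ((∫ z in rct x0 y0 h h, (∑ p ∈ S, a p * sn x0 y0 h p.1 p.2 z) ^ 2) = 0 →
      ∀ p ∈ S, a p = 0) := by
  have hQ := isCompact_rct x0 y0 h h
  have hm := measurableSet_rct x0 y0 h h
  have hc1 : ∀ p : ℕ × ℕ, ContinuousOn (sn x0 y0 h p.1 p.2) (rct x0 y0 h h) := by
    intro p
    refine ContinuousOn.congr (Continuous.continuousOn ?_) (Set.eqOn_indicator)
    fun_prop
  have hc2 : ∀ p : ℕ × ℕ, ContinuousOn (snx x0 y0 h p.1 p.2) (rct x0 y0 h h) := by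
    intro p
    refine ContinuousOn.congr (Continuous.continuousOn ?_) (Set.eqOn_indicator)
    fun_prop
  have hc3 : ∀ p : ℕ × ℕ, ContinuousOn (sny x0 y0 h p.1 p.2) (rct x0 y0 h h) := by
    intro p
    refine ContinuousOn.congr (Continuous.continuousOn ?_) (Set.eqOn_indicator)
    fun_prop
  have e1 := quad hQ (g := fun p => sn x0 y0 h p.1 p.2) hc1 (S := S) (c := fun _ => h ^ 2 / 4)
    (fun p hp q hq => by
      rw [(SOR hh (hS p hp).1 (hS p hp).2.1 (hS q hq).1 (hS q hq).2.1).1]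
      simp only [← Prod.ext_iff]) a
  have e2 := quad hQ (g := fun p => snx x0 y0 h p.1 p.2) hc2 (S := S)
    (c := fun p => (p.1 * Real.pi / h) ^ 2 * (h ^ 2 / 4))
    (fun p hp q hq => by
      rw [(SOR hh (hS p hp).1 (hS p hp).2.1 (hS q hq).1 (hS q hq).2.1).2.1]
      simp only [← Prod.ext_iff]) a
  have e3 := quad hQ (g := fun p => sny x0 y0 h p.1 p.2) hc3 (S := S)
    (c := fun p => (p.2 * Real.pi / h) ^ 2 * (h ^ 2 / 4))
    (fun p hp q hq => by
      rw [(SOR hh (hS p hp).1 (hS p hp).2.1 (hS q hq).1 (hS q hq).2.1).2.2]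
      simp only [← Prod.ext_iff]) a
  have hs1 : ContinuousOn (fun z => ∑ p ∈ S, a p * sn x0 y0 h p.1 p.2 z) (rct x0 y0 h h) :=
    continuousOn_finsetSum _ fun p _ => continuousOn_const.mul (hc1 p)
  have hs2 : ContinuousOn (fun z => ∑ p ∈ S, a p * snx x0 y0 h p.1 p.2 z) (rct x0 y0 h h) :=
    continuousOn_finsetSum _ fun p _ => continuousOn_const.mul (hc2 p)
  have hs3 : ContinuousOn (fun z => ∑ p ∈ S, a p * sny x0 y0 h p.1 p.2 z) (rct x0 y0 h h) :=
    continuousOn_finsetSum _ fun p _ => continuousOn_const.mul (hc3 p)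
  have i2 : IntegrableOn (fun z => (∑ p ∈ S, a p * snx x0 y0 h p.1 p.2 z) ^ 2)
      (rct x0 y0 h h) := (hs2.pow 2).integrableOn_compact hQ
  have i3 : IntegrableOn (fun z => (∑ p ∈ S, a p * sny x0 y0 h p.1 p.2 z) ^ 2)
      (rct x0 y0 h h) := (hs3.pow 2).integrableOn_compact hQ
  refine ⟨?_, ?_⟩
  · rw [integral_add i2 i3, e2, e3, ← Finset.sum_add_distrib]
    have h4 : ∑ p ∈ S, (a p ^ 2 * ((p.1 * Real.pi / h) ^ 2 * (h ^ 2 / 4)) +
        a p ^ 2 * ((p.2 * Real.pi / h) ^ 2 * (h ^ 2 / 4))) ≤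
        L * (B * ∑ p ∈ S, a p ^ 2 * (h ^ 2 / 4)) := by
      rw [Finset.mul_sum, Finset.mul_sum]
      refine Finset.sum_le_sum fun p hp => ?_
      have h5 : ((p.1 : ℝ) ^ 2 + (p.2 : ℝ) ^ 2) * (Real.pi / h) ^ 2 ≤ L * B := by
        have h6 := mul_le_mul_of_nonneg_right (hS p hp).2.2 (sq_nonneg (Real.pi / h))
        refine h6.trans (le_of_eq ?_)
        have hπ := Real.pi_ne_zero
        have hh' := hh.ne'
        have h7 : √(L * B) ^ 2 = L * B := Real.sq_sqrt (mul_nonneg hL hB.le)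
        field_simp
        rw [h7]
      have h8 : 0 ≤ a p ^ 2 * (h ^ 2 / 4) := by positivity
      have h9 := mul_le_mul_of_nonneg_right h5 h8
      calc _ = ((p.1 : ℝ) ^ 2 + (p.2 : ℝ) ^ 2) * (Real.pi / h) ^ 2 * (a p ^ 2 * (h ^ 2 / 4)) := by
            ring
        _ ≤ _ := h9
        _ = _ := by ring
    refine h4.trans (mul_le_mul_of_nonneg_left ?_ hL)
    rw [← e1, ← integral_const_mul]
    refine setIntegral_mono_on ((continuousOn_const.mul (hs1.pow 2)).integrableOn_compact hQ)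
      ((hρc.mul (hs1.pow 2)).integrableOn_compact hQ) hm fun z hz => ?_
    exact mul_le_mul_of_nonneg_right (hρ z hz) (sq_nonneg _)
  · intro h0 p hp
    rw [e1] at h0
    have h1 := (Finset.sum_eq_zero_iff_of_nonneg fun p _ => by positivity).1 h0 p hp
    have h2 : h ^ 2 / 4 ≠ 0 := by positivity
    have h3 := (mul_eq_zero.1 h1).resolve_right h2
    exact pow_eq_zero_iff (two_ne_zero) |>.1 h3

end

end Pool.Agent.Lib_helper95.EQW.SQL

end

/-! ## Lib_helper95.EQW.P2 -/

section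

/-!
# EQW: proved blocks, level 2
-/

namespace Pool.Agent.Lib_helper95.EQW

alias NEU2 := NEU2.NEU2

alias SQL := SQL.SQL

end Pool.Agent.Lib_helper95.EQW

end

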