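import Mathlib
import Pool.Agent.Lib_helper71.EQM.WeylD

/-! Project EQ (MP_ed6ab2_an): merged modules Lib_helper95.EQW.B.SQU, Lib_helper95.EQW.B.WL. -/

set_option autoImplicit false

/-! ## Lib_helper95.EQW.B.SQU -/

section

/-! Block SQU. -/

set_option autoImplicit false

namespace Pool.Agent.Lib_helper95.EQW.SQU

open MeasureTheory Set Filter Topology
open Pool.Agent.EQ (dx dy)
open scoped ContDiff

noncomputable section

theorem squ_ec_cont (x0 a : ℝ) (k : ℕ) : Continuous (ec x0 a k) := by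
  unfold ec
  split_ifs
  · exact continuous_const
  · exact continuous_const.mul (Real.continuous_cos.comp (by fun_prop))

theorem squ_ec_bd {x0 a : ℝ} (ha : 0 < a) (k : ℕ) (x : ℝ) : |ec x0 a k x| ≤ √(2 / a) := by
  unfold ec
  split_ifs
  · rw [abs_of_nonneg (by positivity), one_div, ← Real.sqrt_inv, ← one_div]
    refine Real.sqrt_le_sqrt ?_
    exact div_le_div_of_nonneg_right (by norm_num) ha.le
  · rw [abs_mul, abs_of_nonneg (Real.sqrt_nonneg _)]
    exact mul_le_of_le_one_right (Real.sqrt_nonneg _) (Real.abs_cos_le_one _)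

theorem squ_mk : Continuous (fun p : ℝ × ℝ => (⟨p.1, p.2⟩ : ℂ)) :=
  Complex.equivRealProdCLM.symm.continuous

theorem squ_maps (x0 y0 a b : ℝ) : MapsTo (fun p : ℝ × ℝ => (⟨p.1, p.2⟩ : ℂ))
    (Icc x0 (x0 + a) ×ˢ Icc y0 (y0 + b)) (rct x0 y0 a b) := by
  rintro ⟨x, y⟩ ⟨hx, hy⟩
  exact ⟨hx.1, hx.2, hy.1, hy.2⟩

/-- upper bracketing on a square -/
theorem SQU {F : Set ℂ} (hF : MeasurableSet F) {x0 y0 h : ℝ} (hh : 0 < h)
    (hQ : rct x0 y0 h h ⊆ F) {ρ : ℂ → ℝ} {B : ℝ} (hρc : ContinuousOn ρ (rct x0 y0 h h))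
    (hρ : ∀ z ∈ rct x0 y0 h h, 0 ≤ ρ z ∧ ρ z ≤ B) {L : ℝ} (hL : 0 ≤ L) :
    ∃ N : ℕ, (N : ℝ) ≤ h ^ 2 * (L * B) / (4 * Real.pi) + 3 * (h * √(L * B) / Real.pi) + 3 ∧
      UPB F (rct x0 y0 h h) ρ L 1 N := by
  have hpi := Real.pi_pos
  have hB : 0 ≤ B := by
    have h1 := hρ ⟨x0, y0⟩ ⟨le_rfl, by simp [hh.le], le_rfl, by simp [hh.le]⟩
    exact h1.1.trans h1.2
  have hM : 0 ≤ L * B := mul_nonneg hL hB
  obtain ⟨S, hS, hcard⟩ := CNTU (X := h * √(L * B) / Real.pi) (by positivity)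
  have hX2 : (h * √(L * B) / Real.pi) ^ 2 = h ^ 2 * (L * B) / Real.pi ^ 2 := by
    rw [div_pow, mul_pow, Real.sq_sqrt hM]
  refine ⟨S.card, ?_, ?_⟩
  · refine hcard.trans (le_of_eq ?_)
    rw [hX2]
    field_simp
  set G : ℕ × ℕ → ℂ → ℝ := fun p => (rct x0 y0 h h).indicator
    (fun z => √(L * B) * (ec x0 h p.1 z.re * ec y0 h p.2 z.im)) with hG
  have hGc : ∀ p : ℕ × ℕ, Continuous
      (fun z : ℂ => √(L * B) * (ec x0 h p.1 z.re * ec y0 h p.2 z.im)) := fun p =>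
    continuous_const.mul (((squ_ec_cont x0 h p.1).comp Complex.continuous_re).mul
      ((squ_ec_cont y0 h p.2).comp Complex.continuous_im))
  refine ⟨fun j => G (S.equivFin.symm j), fun j => ?_, ⟨√(L * B) * (√(2 / h) * √(2 / h)),
    fun j z => ?_⟩, ?_⟩
  · exact (hGc _).measurable.indicator (measurableSet_rct x0 y0 h h)
  · show |G _ z| ≤ _
    simp only [hG, indicator]
    split_ifs
    · rw [abs_mul, abs_of_nonneg (Real.sqrt_nonneg _), abs_mul]
      refine mul_le_mul_of_nonneg_left ?_ (Real.sqrt_nonneg _)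
      exact mul_le_mul (squ_ec_bd hh _ _) (squ_ec_bd hh _ _) (abs_nonneg _) (Real.sqrt_nonneg _)
    · rw [abs_zero]
      positivity
  · intro v hv
    obtain ⟨c1, c2, c3, c4, c5⟩ := C1R hv hh hh hQ
    have hcpt := isCompact_rct x0 y0 h h
    have hm := squ_maps x0 y0 h h
    -- reduction to the constant weight
    have e1 : L * ∫ z in rct x0 y0 h h, ρ z * v z ^ 2 ≤
        (L * B) * ∫ z in rct x0 y0 h h, v z ^ 2 := by
      rw [mul_assoc]
      refine mul_le_mul_of_nonneg_left ?_ hL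
      rw [← integral_const_mul]
      refine setIntegral_mono_on ((hρc.mul (c1.pow 2)).integrableOn_compact hcpt)
        ((continuousOn_const.mul (c1.pow 2)).integrableOn_compact hcpt)
        (measurableSet_rct x0 y0 h h) (fun z hz => ?_)
      exact mul_le_mul_of_nonneg_right (hρ z hz).2 (sq_nonneg _)
    have e2 : ∫ z in rct x0 y0 h h, v z ^ 2 =
        ∫ y in y0..(y0 + h), ∫ x in x0..(x0 + h), v ⟨x, y⟩ ^ 2 := RCI hh hh (c1.pow 2)
    have e3 : ∫ z in rct x0 y0 h h, gr v z =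
        ∫ y in y0..(y0 + h), ∫ x in x0..(x0 + h), (dx v ⟨x, y⟩ ^ 2 + dy v ⟨x, y⟩ ^ 2) :=
      RCI hh hh ((c2.pow 2).add (c3.pow 2))
    have e4 : ∀ p : ℕ × ℕ, ∫ z in F, v z * G p z = √(L * B) *
        ∫ y in y0..(y0 + h), ∫ x in x0..(x0 + h),
          v ⟨x, y⟩ * (ec x0 h p.1 x * ec y0 h p.2 y) := by
      intro p
      have f1 : (fun z => v z * G p z) = (rct x0 y0 h h).indicator
          (fun z => √(L * B) * (v z * (ec x0 h p.1 z.re * ec y0 h p.2 z.im))) := by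
        ext z
        simp only [hG, indicator]
        split_ifs
        · ring
        · ring
      rw [f1, setIntegral_indicator (measurableSet_rct x0 y0 h h), inter_eq_right.2 hQ,
        integral_const_mul]
      congr 1
      refine RCI (f := fun z => v z * (ec x0 h p.1 z.re * ec y0 h p.2 z.im)) hh hh (c1.mul ?_)
      exact (((squ_ec_cont x0 h p.1).comp Complex.continuous_re).mul
        ((squ_ec_cont y0 h p.2).comp Complex.continuous_im)).continuousOn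
    have hS' : ∀ k l : ℕ, (k * Real.pi / h) ^ 2 + (l * Real.pi / h) ^ 2 < L * B →
        (k, l) ∈ S := by
      intro k l hkl
      refine hS k l ?_
      rw [hX2, lt_div_iff₀ (by positivity)]
      have : (k * Real.pi / h) ^ 2 + (l * Real.pi / h) ^ 2 =
          ((k : ℝ) ^ 2 + (l : ℝ) ^ 2) * Real.pi ^ 2 / h ^ 2 := by ring
      rw [this, div_lt_iff₀ (by positivity)] at hkl
      linarith
    have key := NEU2 (u := fun x y => v ⟨x, y⟩) (ux := fun x y => dx v ⟨x, y⟩)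
      (uy := fun x y => dy v ⟨x, y⟩) hh hh (c1.comp squ_mk.continuousOn hm)
      (c2.comp squ_mk.continuousOn hm) (c3.comp squ_mk.continuousOn hm) c4 c5 hM hS'
    have e5 : ∑ j : Fin S.card, (∫ z in F, v z * G (S.equivFin.symm j) z) ^ 2 =
        (L * B) * ∑ p ∈ S, (∫ y in y0..(y0 + h), ∫ x in x0..(x0 + h),
          v ⟨x, y⟩ * (ec x0 h p.1 x * ec y0 h p.2 y)) ^ 2 := by
      rw [Finset.mul_sum, ← Finset.sum_coe_sort S]
      rw [← Equiv.sum_comp S.equivFin]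
      refine Finset.sum_congr rfl fun p _ => ?_
      rw [Equiv.symm_apply_apply, e4, mul_pow, Real.sq_sqrt hM]
    rw [e5, one_mul, e3]
    refine e1.trans ?_
    rw [e2]
    exact key

end

end Pool.Agent.Lib_helper95.EQW.SQU

end

/-! ## Lib_helper95.EQW.B.WL -/

section

set_option autoImplicit false

namespace Pool.Agent.Lib_helper95.EQW.WL

open MeasureTheory Set Filter Topology
open Pool.Agent.EQ (dx dy)
open scoped ContDiff

noncomputable section

lemma wl_null (c : ℝ) : volume {z : ℂ | z.re = c} = 0 ∧ volume {z : ℂ | z.im = c} = 0 := by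
  constructor
  · have h : {z : ℂ | z.re = c} = Complex.measurableEquivRealProd ⁻¹' ({c} ×ˢ univ) := by
      ext z
      simp [Complex.measurableEquivRealProd_apply]
    rw [h, Complex.volume_preserving_equiv_real_prod.measure_preimage
      ((measurableSet_singleton c).prod MeasurableSet.univ).nullMeasurableSet,
      Measure.volume_eq_prod, Measure.prod_prod, Real.volume_singleton, zero_mul]
  · have h : {z : ℂ | z.im = c} = Complex.measurableEquivRealProd ⁻¹' (univ ×ˢ {c}) := by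
      ext z
      simp [Complex.measurableEquivRealProd_apply]
    rw [h, Complex.volume_preserving_equiv_real_prod.measure_preimage
      (MeasurableSet.univ.prod (measurableSet_singleton c)).nullMeasurableSet,
      Measure.volume_eq_prod, Measure.prod_prod, Real.volume_singleton, mul_zero]

lemma wl_ae {m : ℕ} (hm : 0 < m) :
    ∀ᵐ z : ℂ, ∀ p p' : ℕ × ℕ, z ∈ sqr m p → z ∈ sqr m p' → p = p' := by
  have hm' : (0 : ℝ) < m := by exact_mod_cast hm
  have n1 : ∀ᵐ z : ℂ, ∀ i : ℕ, z.re ≠ -4 + (i : ℝ) / m := by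
    rw [ae_all_iff]
    intro i
    rw [ae_iff]
    simpa using (wl_null (-4 + (i : ℝ) / m)).1
  have n2 : ∀ᵐ z : ℂ, ∀ i : ℕ, z.im ≠ -4 + (i : ℝ) / m := by
    rw [ae_all_iff]
    intro i
    rw [ae_iff]
    simpa using (wl_null (-4 + (i : ℝ) / m)).2
  filter_upwards [n1, n2] with z h1 h2 p p' hp hp'
  have key : ∀ (x : ℝ) (i j : ℕ), (∀ i : ℕ, x ≠ -4 + (i : ℝ) / m) →
      -4 + (i : ℝ) / m ≤ x → x ≤ -4 + (i : ℝ) / m + 1 / m → -4 + (j : ℝ) / m ≤ x → j ≤ i := by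
    intro x i j hx _ h4 h5
    by_contra hcon
    push Not at hcon
    have h6 : ((i : ℝ) + 1) / m ≤ (j : ℝ) / m := by
      refine div_le_div_of_nonneg_right ?_ hm'.le
      exact_mod_cast hcon
    rw [add_div] at h6
    exact hx j (le_antisymm (by linarith) h5)
  simp only [sqr, rct, cx, cy, mem_ofPred_eq] at hp hp'
  ext
  · exact le_antisymm (key _ _ _ h1 hp'.1 hp'.2.1 hp.1) (key _ _ _ h1 hp.1 hp.2.1 hp'.1)
  · exact le_antisymm (key _ _ _ h2 hp'.2.2.1 hp'.2.2.2 hp.2.2.1) (key _ _ _ h2 hp.2.2.1 hp.2.2.2 hp'.2.2.1)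

/-- splitting of an integral over the squares -/
lemma wl_split {W m : ℕ} (hm : 0 < m) (T : ℂ → ℝ) (H : ℕ × ℕ → ℂ → ℝ)
    (hH : ∀ p, ∀ z, z ∉ sqr m p → H p z = 0)
    (hT0 : ∀ z, (∀ p ∈ MS W m, z ∉ sqr m p) → T z = 0)
    (hT1 : ∀ p ∈ MS W m, ∀ z ∈ sqr m p, (∀ p' ∈ MS W m, p' ≠ p → z ∉ sqr m p') → T z = H p z)
    (hi : ∀ p ∈ MS W m, IntegrableOn (H p) (sqr m p)) :
    ∫ z in FR W, T z = ∑ p ∈ MS W m, ∫ z in sqr m p, H p z := by
  have h1 : ∫ z in FR W, T z = ∫ z in FR W, ∑ p ∈ MS W m, H p z := by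
    refine integral_congr_ae (ae_restrict_of_ae ?_)
    filter_upwards [wl_ae hm] with z hz
    by_cases hex : ∃ p ∈ MS W m, z ∈ sqr m p
    · obtain ⟨p, hp, hzp⟩ := hex
      have hu : ∀ p' ∈ MS W m, p' ≠ p → z ∉ sqr m p' := fun p' _ hne hzp' => hne (hz p' p hzp' hzp)
      rw [hT1 p hp z hzp hu, Finset.sum_eq_single_of_mem p hp]
      intro p' hp' hne
      exact hH p' z (hu p' hp' hne)
    · push Not at hex
      rw [hT0 z hex, Finset.sum_eq_zero]
      intro p hp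
      exact hH p z (hex p hp)
  have hint : ∀ p ∈ MS W m, IntegrableOn (H p) (FR W) := fun p hp =>
    (hi p hp).of_forall_sdiff_eq_zero (measurableSet_FR W) fun z hz => hH p z hz.2
  rw [h1, integral_finsetSum _ hint]
  refine Finset.sum_congr rfl fun p hp => ?_
  exact setIntegral_eq_of_subset_of_forall_sdiff_eq_zero (measurableSet_FR W) (SQF hm hp)
    fun z hz => hH p z hz.2

lemma wl_c (x0 y0 h : ℝ) (k l : ℕ) : ContinuousOn (sn x0 y0 h k l) (rct x0 y0 h h) ∧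
    ContinuousOn (snx x0 y0 h k l) (rct x0 y0 h h) ∧ ContinuousOn (sny x0 y0 h k l) (rct x0 y0 h h) := by
  refine ⟨?_, ?_, ?_⟩
  · refine (ContinuousOn.congr (f := fun z : ℂ => Real.sin (k * Real.pi * (z.re - x0) / h) *
      Real.sin (l * Real.pi * (z.im - y0) / h)) (Continuous.continuousOn (by fun_prop)) ?_)
    intro z hz
    exact indicator_of_mem hz _
  · refine (ContinuousOn.congr (f := fun z : ℂ => (k * Real.pi / h) *
      (Real.cos (k * Real.pi * (z.re - x0) / h) * Real.sin (l * Real.pi * (z.im - y0) / h)))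
      (Continuous.continuousOn (by fun_prop)) ?_)
    intro z hz
    exact indicator_of_mem hz _
  · refine (ContinuousOn.congr (f := fun z : ℂ => (l * Real.pi / h) *
      (Real.sin (k * Real.pi * (z.re - x0) / h) * Real.cos (l * Real.pi * (z.im - y0) / h)))
      (Continuous.continuousOn (by fun_prop)) ?_)
    intro z hz
    exact indicator_of_mem hz _

lemma wl_z {x0 y0 h : ℝ} (k l : ℕ) {z : ℂ} (hz : z ∉ rct x0 y0 h h) : sn x0 y0 h k l z = 0 ∧
    snx x0 y0 h k l z = 0 ∧ sny x0 y0 h k l z = 0 :=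
  ⟨indicator_of_notMem hz _, indicator_of_notMem hz _, indicator_of_notMem hz _⟩

/-- WEYL LAW, LOWER BOUND.  An index is `(m, p, (k, l))`: the square `p` of side `1/m`. -/
theorem WL {W : ℕ} (hW : 8 ≤ W) {ρ : ℂ → ℝ} (hρ : ContinuousOn ρ (FR W))
    (hpos : ∀ z ∈ FR W, 0 < ρ z) {ε : ℝ} (hε : 0 < ε) :
    ∃ m : ℕ, 0 < m ∧ ∃ L0 : ℝ, ∀ L ≥ L0, ∃ S : Finset ((ℕ × ℕ) × (ℕ × ℕ)),
      (∀ q ∈ S, q.1 ∈ MS W m ∧ 1 ≤ q.2.1 ∧ 1 ≤ q.2.2) ∧
      ((∫ z in FR W, ρ z) / (4 * Real.pi) - ε) * L ≤ S.card ∧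
      ∀ a : (ℕ × ℕ) × (ℕ × ℕ) → ℝ,
        (∫ z in FR W, ((∑ q ∈ S, a q * snx (cx m q.1) (cy m q.1) (1 / m) q.2.1 q.2.2 z) ^ 2 +
          (∑ q ∈ S, a q * sny (cx m q.1) (cy m q.1) (1 / m) q.2.1 q.2.2 z) ^ 2)) ≤
          L * (∫ z in FR W, ρ z *
            (∑ q ∈ S, a q * sn (cx m q.1) (cy m q.1) (1 / m) q.2.1 q.2.2 z) ^ 2) ∧
        ((∫ z in FR W, (∑ q ∈ S, a q * sn (cx m q.1) (cy m q.1) (1 / m) q.2.1 q.2.2 z) ^ 2) = 0 →
          ∀ q ∈ S, a q = 0) := by
  classical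
  have hpi := Real.pi_pos
  obtain ⟨m0, hm0⟩ := RSL hW hρ hpos (ε := 2 * Real.pi * ε) (by positivity)
  set m := max m0 1 with hmdef
  have hm : 0 < m := lt_of_lt_of_le one_pos (le_max_right _ _)
  have hmr : (0 : ℝ) < m := by exact_mod_cast hm
  obtain ⟨B, hB, hBs⟩ := hm0 m (le_max_left _ _) hm
  refine ⟨m, hm, ?_⟩
  set K1 : ℝ := ∑ p ∈ MS W m, (1 / (m : ℝ)) * √(B p) / Real.pi with hK1
  set K : ℝ := 3 * K1 + 3 * (MS W m).card with hK
  have hK10 : 0 ≤ K1 := Finset.sum_nonneg fun p _ => by positivity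
  have hK0 : 0 ≤ K := by positivity
  refine ⟨max 1 ((2 * K / ε) ^ 2), fun L hL => ?_⟩
  have hL1 : 1 ≤ L := (le_max_left _ _).trans hL
  have hL2 : (2 * K / ε) ^ 2 ≤ L := (le_max_right _ _).trans hL
  have hL0 : 0 ≤ L := zero_le_one.trans hL1
  have hs1 : 1 ≤ √L := Real.one_le_sqrt.mpr hL1
  have hs2 : 2 * K / ε ≤ √L := Real.le_sqrt_of_sq_le hL2
  have hss : √L * √L = L := Real.mul_self_sqrt hL0
  -- the finite sets of frequencies
  have hX : ∀ p : ℕ × ℕ, 0 ≤ (1 / (m : ℝ)) * √(L * B p) / Real.pi := fun p => by positivity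
  choose Sp hSp1 hSp2 using fun p : ℕ × ℕ => CNTL (hX p)
  set S : Finset ((ℕ × ℕ) × (ℕ × ℕ)) :=
    ((MS W m) ×ˢ ((MS W m).biUnion Sp)).filter (fun q => q.2 ∈ Sp q.1) with hS
  have hmem : ∀ q : (ℕ × ℕ) × (ℕ × ℕ), q ∈ S ↔ q.1 ∈ MS W m ∧ q.2 ∈ Sp q.1 := by
    intro q
    rw [hS, Finset.mem_filter, Finset.mem_product, Finset.mem_biUnion]
    constructor
    · rintro ⟨⟨h1, -⟩, h2⟩
      exact ⟨h1, h2⟩
    · rintro ⟨h1, h2⟩
      exact ⟨⟨h1, ⟨q.1, h1, h2⟩⟩, h2⟩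
  refine ⟨S, ?_, ?_, ?_⟩
  · intro q hq
    rw [hmem] at hq
    have := hSp1 q.1 q.2 hq.2
    exact ⟨hq.1, this.1, this.2.1⟩
  · -- counting
    have hcard : (S.card : ℝ) = ∑ p ∈ MS W m, ((Sp p).card : ℝ) := by
      have h1 : S.card = ∑ p ∈ MS W m, (Sp p).card := by
        rw [Finset.card_eq_sum_ones, Finset.sum_finset_product S (MS W m) Sp hmem]
        refine Finset.sum_congr rfl fun p _ => ?_
        rw [Finset.card_eq_sum_ones]
      rw [h1]
      push_cast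
      rfl
    have h2 : ∑ p ∈ MS W m, (L / (4 * Real.pi) * (B p * (1 / (m : ℝ)) ^ 2)
        - 3 * √L * ((1 / (m : ℝ)) * √(B p) / Real.pi) - 3) ≤ ∑ p ∈ MS W m, ((Sp p).card : ℝ) := by
      refine Finset.sum_le_sum fun p hp => ?_
      refine le_trans (le_of_eq ?_) (hSp2 p)
      have hBp := (hB p hp).1
      have e1 : √(L * B p) = √L * √(B p) := Real.sqrt_mul hL0 _
      have e2 : √(B p) * √(B p) = B p := Real.mul_self_sqrt hBp.le
      rw [e1]
      have e3 : Real.pi / 4 * ((1 / (m : ℝ)) * (√L * √(B p)) / Real.pi) ^ 2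
          = (√L * √L) / (4 * Real.pi) * ((√(B p) * √(B p)) * (1 / (m : ℝ)) ^ 2) := by
        field_simp
      rw [e3, hss, e2]
      ring
    rw [Finset.sum_sub_distrib, Finset.sum_sub_distrib, ← Finset.mul_sum, ← Finset.mul_sum,
      Finset.sum_const, nsmul_eq_mul, ← hK1] at h2
    rw [hcard]
    refine le_trans ?_ h2
    have h3 : L / (4 * Real.pi) * ((∫ z in FR W, ρ z) - 2 * Real.pi * ε)
        ≤ L / (4 * Real.pi) * ∑ p ∈ MS W m, B p * (1 / (m : ℝ)) ^ 2 :=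
      mul_le_mul_of_nonneg_left hBs (by positivity)
    have h4 : L / (4 * Real.pi) * ((∫ z in FR W, ρ z) - 2 * Real.pi * ε)
        = ((∫ z in FR W, ρ z) / (4 * Real.pi) - ε) * L + (ε / 2) * L := by
      field_simp
      ring
    have h5 : 3 * √L * K1 + (MS W m).card * 3 ≤ (ε / 2) * L := by
      have h6 : 2 * K ≤ √L * ε := (div_le_iff₀ hε).mp hs2
      have h7 : 3 * √L * K1 + (MS W m).card * 3 ≤ √L * K := by
        rw [hK]
        have : ((MS W m).card : ℝ) * 3 ≤ √L * (3 * (MS W m).card) := by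
          have h8 : (0 : ℝ) ≤ 3 * (MS W m).card := by positivity
          nlinarith
        nlinarith
      have h9 : √L * K ≤ √L * (√L * ε / 2) := mul_le_mul_of_nonneg_left (by linarith) (by positivity)
      have h10 : √L * (√L * ε / 2) = (√L * √L) * (ε / 2) := by ring
      rw [h10, hss] at h9
      linarith
    linarith
  · intro a
    set f : ℕ × ℕ → ℂ → ℝ := fun p z => ∑ kl ∈ Sp p, a (p, kl) * sn (cx m p) (cy m p) (1 / m) kl.1 kl.2 z with hf
    set fx : ℕ × ℕ → ℂ → ℝ := fun p z => ∑ kl ∈ Sp p, a (p, kl) * snx (cx m p) (cy m p) (1 / m) kl.1 kl.2 z with hfx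
    set fy : ℕ × ℕ → ℂ → ℝ := fun p z => ∑ kl ∈ Sp p, a (p, kl) * sny (cx m p) (cy m p) (1 / m) kl.1 kl.2 z with hfy
    have s0 : ∀ z, ∑ q ∈ S, a q * sn (cx m q.1) (cy m q.1) (1 / m) q.2.1 q.2.2 z = ∑ p ∈ MS W m, f p z :=
      fun z => Finset.sum_finset_product S (MS W m) Sp hmem
    have sx : ∀ z, ∑ q ∈ S, a q * snx (cx m q.1) (cy m q.1) (1 / m) q.2.1 q.2.2 z = ∑ p ∈ MS W m, fx p z :=
      fun z => Finset.sum_finset_product S (MS W m) Sp hmem
    have sy : ∀ z, ∑ q ∈ S, a q * sny (cx m q.1) (cy m q.1) (1 / m) q.2.1 q.2.2 z = ∑ p ∈ MS W m, fy p z :=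
      fun z => Finset.sum_finset_product S (MS W m) Sp hmem
    simp only [s0, sx, sy]
    have z0 : ∀ p, ∀ z, z ∉ sqr m p → f p z = 0 := fun p z hz =>
      Finset.sum_eq_zero fun kl _ => by rw [(wl_z kl.1 kl.2 hz).1, mul_zero]
    have zx : ∀ p, ∀ z, z ∉ sqr m p → fx p z = 0 := fun p z hz =>
      Finset.sum_eq_zero fun kl _ => by rw [(wl_z kl.1 kl.2 hz).2.1, mul_zero]
    have zy : ∀ p, ∀ z, z ∉ sqr m p → fy p z = 0 := fun p z hz =>
      Finset.sum_eq_zero fun kl _ => by rw [(wl_z kl.1 kl.2 hz).2.2, mul_zero]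
    have c0 : ∀ p, ContinuousOn (f p) (sqr m p) := fun p =>
      continuousOn_finsetSum _ fun kl _ => continuousOn_const.mul (wl_c _ _ _ _ _).1
    have cx' : ∀ p, ContinuousOn (fx p) (sqr m p) := fun p =>
      continuousOn_finsetSum _ fun kl _ => continuousOn_const.mul (wl_c _ _ _ _ _).2.1
    have cy' : ∀ p, ContinuousOn (fy p) (sqr m p) := fun p =>
      continuousOn_finsetSum _ fun kl _ => continuousOn_const.mul (wl_c _ _ _ _ _).2.2
    have hcp : ∀ p, IsCompact (sqr m p) := fun p => isCompact_rct _ _ _ _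
    have hρp : ∀ p ∈ MS W m, ContinuousOn ρ (sqr m p) := fun p hp => hρ.mono (SQF hm hp)
    have sum0 : ∀ (g : ℕ × ℕ → ℂ → ℝ), (∀ p, ∀ z, z ∉ sqr m p → g p z = 0) → ∀ z,
        (∀ p ∈ MS W m, z ∉ sqr m p) → ∑ p ∈ MS W m, g p z = 0 :=
      fun g hg z hz => Finset.sum_eq_zero fun p hp => hg p z (hz p hp)
    have sum1 : ∀ (g : ℕ × ℕ → ℂ → ℝ), (∀ p, ∀ z, z ∉ sqr m p → g p z = 0) → ∀ p ∈ MS W m, ∀ z,
        (∀ p' ∈ MS W m, p' ≠ p → z ∉ sqr m p') → ∑ p ∈ MS W m, g p z = g p z :=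
      fun g hg p hp z hz => Finset.sum_eq_single_of_mem p hp fun p' hp' hne => hg p' z (hz p' hp' hne)
    have I1 : ∫ z in FR W, ((∑ p ∈ MS W m, fx p z) ^ 2 + (∑ p ∈ MS W m, fy p z) ^ 2)
        = ∑ p ∈ MS W m, ∫ z in sqr m p, (fx p z ^ 2 + fy p z ^ 2) := by
      refine wl_split hm _ (fun p z => fx p z ^ 2 + fy p z ^ 2) ?_ ?_ ?_ ?_
      · intro p z hz
        rw [zx p z hz, zy p z hz]
        norm_num
      · intro z hz
        rw [sum0 fx zx z hz, sum0 fy zy z hz]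
        norm_num
      · intro p hp z _ hz
        rw [sum1 fx zx p hp z hz, sum1 fy zy p hp z hz]
      · intro p _
        exact (((cx' p).pow 2).add ((cy' p).pow 2)).integrableOn_compact (hcp p)
    have I2 : ∫ z in FR W, ρ z * (∑ p ∈ MS W m, f p z) ^ 2
        = ∑ p ∈ MS W m, ∫ z in sqr m p, ρ z * f p z ^ 2 := by
      refine wl_split hm _ (fun p z => ρ z * f p z ^ 2) ?_ ?_ ?_ ?_
      · intro p z hz
        rw [z0 p z hz]
        norm_num
      · intro z hz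
        rw [sum0 f z0 z hz]
        norm_num
      · intro p hp z _ hz
        rw [sum1 f z0 p hp z hz]
      · intro p hp
        exact ((hρp p hp).mul ((c0 p).pow 2)).integrableOn_compact (hcp p)
    have I3 : ∫ z in FR W, (∑ p ∈ MS W m, f p z) ^ 2 = ∑ p ∈ MS W m, ∫ z in sqr m p, f p z ^ 2 := by
      refine wl_split hm _ (fun p z => f p z ^ 2) ?_ ?_ ?_ ?_
      · intro p z hz
        rw [z0 p z hz]
        norm_num
      · intro z hz
        rw [sum0 f z0 z hz]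
        norm_num
      · intro p hp z _ hz
        rw [sum1 f z0 p hp z hz]
      · intro p _
        exact ((c0 p).pow 2).integrableOn_compact (hcp p)
    have hsql : ∀ p ∈ MS W m,
        (∫ z in sqr m p, (fx p z ^ 2 + fy p z ^ 2)) ≤ L * (∫ z in sqr m p, ρ z * f p z ^ 2) ∧
        ((∫ z in sqr m p, f p z ^ 2) = 0 → ∀ kl ∈ Sp p, a (p, kl) = 0) := by
      intro p hp
      exact SQL (x0 := cx m p) (y0 := cy m p) (h := 1 / (m : ℝ)) (by positivity) (hB p hp).1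
        (hρp p hp) (hB p hp).2 hL0 (hSp1 p) (fun kl => a (p, kl))
    constructor
    · rw [I1, I2, Finset.mul_sum]
      exact Finset.sum_le_sum fun p hp => (hsql p hp).1
    · intro h0 q hq
      rw [I3] at h0
      rw [hmem] at hq
      have h1 := (Finset.sum_eq_zero_iff_of_nonneg (fun p _ =>
        integral_nonneg fun z => sq_nonneg (f p z))).mp h0 q.1 hq.1
      exact (hsql q.1 hq.1).2 h1 q.2 hq.2

end

end Pool.Agent.Lib_helper95.EQW.WL

end

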