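import Mathlib
import Pool.Agent.Lib_helper71.EQM.WeylD

/-! Project EQ (MP_ed6ab2_an): merged modules Lib_helper95.EQW.B.COL. -/

set_option autoImplicit false

/-! ## Lib_helper95.EQW.B.COL -/

section

set_option autoImplicit false

namespace Pool.Agent.Lib_helper95.EQW.COL

open MeasureTheory Set Filter Topology
open Pool.Agent.EQ (dx dy)

theorem cI {g : ℝ → ℝ → ℝ} (hg : Continuous (Function.uncurry g)) (x1 x2 : ℝ) :
    Continuous fun y => ∫ x in x1..x2, g x y := by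
  have h : Continuous (Function.uncurry fun y x => g x y) := hg.comp continuous_swap
  exact intervalIntegral.continuous_parametric_intervalIntegral_of_continuous' h x1 x2

theorem cx' {g : ℝ → ℝ → ℝ} (hg : Continuous (Function.uncurry g)) (y : ℝ) :
    Continuous fun x => g x y :=
  hg.comp (Continuous.prodMk_left y)

/-- grid sums -/
theorem grid {g : ℝ → ℝ → ℝ} (hg : Continuous (Function.uncurry g)) (x0 y0 a b : ℝ) (m n : ℕ) :
    ∑ p ∈ Finset.range m, ∑ q ∈ Finset.range n,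
      ∫ y in (y0 + q * b)..(y0 + q * b + b), ∫ x in (x0 + p * a)..(x0 + p * a + a), g x y =
    ∫ y in y0..(y0 + n * b), ∫ x in x0..(x0 + m * a), g x y := by
  rw [Finset.sum_comm]
  have h1 : ∀ q : ℕ, ∑ p ∈ Finset.range m, ∫ y in (y0 + q * b)..(y0 + q * b + b),
      ∫ x in (x0 + p * a)..(x0 + p * a + a), g x y =
      ∫ y in (y0 + q * b)..(y0 + q * b + b), ∫ x in x0..(x0 + m * a), g x y := by
    intro q
    rw [← intervalIntegral.integral_finsetSum (fun p _ => (cI hg _ _).intervalIntegrable _ _)]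
    congr 1
    funext y
    have h2 := intervalIntegral.sum_integral_adjacent_intervals (f := fun x => g x y)
      (μ := volume) (a := fun k : ℕ => x0 + k * a) (n := m)
      (fun k _ => (cx' hg y).intervalIntegrable _ _)
    simp only [Nat.cast_add, Nat.cast_one, Nat.cast_zero, zero_mul, add_zero] at h2
    rw [← h2]
    refine Finset.sum_congr rfl fun p _ => ?_
    congr 1
    ring
  rw [Finset.sum_congr rfl fun q _ => h1 q]
  have h2 := intervalIntegral.sum_integral_adjacent_intervals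
    (f := fun y => ∫ x in x0..(x0 + m * a), g x y)
    (μ := volume) (a := fun k : ℕ => y0 + k * b) (n := n)
    (fun k _ => (cI hg _ _).intervalIntegrable _ _)
  simp only [Nat.cast_add, Nat.cast_one, Nat.cast_zero, zero_mul, add_zero] at h2
  rw [← h2]
  refine Finset.sum_congr rfl fun p _ => ?_
  congr 1
  ring

/-- monotonicity of double integrals -/
theorem dmono {g h : ℝ → ℝ → ℝ} (hg : Continuous (Function.uncurry g))
    (hh : Continuous (Function.uncurry h)) {x1 x2 y1 y2 : ℝ} (hx : x1 ≤ x2) (hy : y1 ≤ y2)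
    (hle : ∀ x ∈ Icc x1 x2, ∀ y ∈ Icc y1 y2, g x y ≤ h x y) :
    ∫ y in y1..y2, ∫ x in x1..x2, g x y ≤ ∫ y in y1..y2, ∫ x in x1..x2, h x y := by
  refine intervalIntegral.integral_mono_on hy ((cI hg _ _).intervalIntegrable _ _)
    ((cI hh _ _).intervalIntegrable _ _) fun y hy' => ?_
  exact intervalIntegral.integral_mono_on hx ((cx' hg y).intervalIntegrable _ _)
    ((cx' hh y).intervalIntegrable _ _) fun x hx' => hle x hx' y hy'

theorem dconst (g : ℝ → ℝ → ℝ) (c x1 x2 y1 y2 : ℝ) :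
    ∫ y in y1..y2, ∫ x in x1..x2, c * g x y = c * ∫ y in y1..y2, ∫ x in x1..x2, g x y := by
  simp only [intervalIntegral.integral_const_mul]

/-- clamp -/
noncomputable def cl (R r : ℝ) : ℝ := max 1 (min r R)

theorem cl_mem {R : ℝ} (hR : 1 < R) (r : ℝ) : cl R r ∈ Icc 1 R :=
  ⟨le_max_left _ _, max_le hR.le (min_le_right _ _)⟩

theorem cl_eq {R r : ℝ} (hr : r ∈ Icc 1 R) : cl R r = r := by
  rw [cl, min_eq_left hr.2, max_eq_right hr.1]

theorem cl_cont (R : ℝ) : Continuous (cl R) :=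
  continuous_const.max (continuous_id.min continuous_const)

/-- the point with polar coordinates -/
noncomputable def gm (r t : ℝ) : ℂ := (r : ℂ) * Complex.exp (t * Complex.I)

theorem gm_cont : Continuous fun p : ℝ × ℝ => gm p.1 p.2 := by
  unfold gm
  fun_prop

theorem norm_gm {r : ℝ} (hr : 0 ≤ r) (t : ℝ) : ‖gm r t‖ = r := by
  rw [gm, norm_mul, Complex.norm_exp_ofReal_mul_I, mul_one, Complex.norm_real,
    Real.norm_of_nonneg hr]

theorem arg_gm {r t : ℝ} (hr : 0 < r) (ht : t ∈ Ioc (-Real.pi) Real.pi) :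
    Complex.arg (gm r t) = t := by
  rw [gm, Complex.exp_mul_I]
  exact Complex.arg_mul_cos_add_sin_mul_I hr ht

/-- the annulus -/
def ann (R : ℝ) : Set ℂ := {z : ℂ | 1 ≤ ‖z‖ ∧ ‖z‖ ≤ R}

theorem ann_closed (R : ℝ) : IsClosed (ann R) :=
  (isClosed_le continuous_const continuous_norm).inter
    (isClosed_le continuous_norm continuous_const)

theorem ann_compact (R : ℝ) : IsCompact (ann R) := by
  refine (isCompact_closedBall (0 : ℂ) R).of_isClosed_subset (ann_closed R) ?_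
  intro z hz
  rw [mem_closedBall_zero_iff]
  exact hz.2

theorem gm_mem {R r : ℝ} (hr : r ∈ Icc 1 R) (t : ℝ) : gm r t ∈ ann R := by
  show 1 ≤ ‖gm r t‖ ∧ ‖gm r t‖ ≤ R
  rw [norm_gm (by linarith [hr.1])]
  exact hr

theorem hat_cont {R : ℝ} (hR : 1 < R) {f : ℂ → ℝ} (hf : ContinuousOn f (ann R)) :
    Continuous (Function.uncurry fun r t => f (gm (cl R r) t)) := by
  have h1 : Continuous fun p : ℝ × ℝ => gm (cl R p.1) p.2 :=
    gm_cont.comp (((cl_cont R).comp continuous_fst).prodMk continuous_snd)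
  exact hf.comp_continuous h1 fun p => gm_mem (cl_mem hR p.1) p.2

theorem polc {R : ℝ} (hR : 1 < R) {f : ℂ → ℝ} (hf : ContinuousOn f (ann R)) :
    ∫ z in ann R, f z =
      ∫ t in (-Real.pi)..Real.pi, ∫ r in (1 : ℝ)..R, r * f (gm (cl R r) t) := by
  have h1 : IntegrableOn f (ann R) := hf.integrableOn_compact (ann_compact R)
  have h2 := POL hR h1
  have h3 : ∫ z in ann R, f z = ∫ t in (-Real.pi)..Real.pi, ∫ r in (1 : ℝ)..R,
        r * f ((r : ℂ) * Complex.exp (t * Complex.I)) := h2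
  rw [h3]
  congr 1
  funext t
  refine intervalIntegral.integral_congr fun r hr => ?_
  rw [uIcc_of_le hR.le] at hr
  show r * f (gm r t) = r * f (gm (cl R r) t)
  rw [cl_eq hr]

/-- the test functions -/
noncomputable def tf (K x0 y0 a b : ℝ) (z : ℂ) : ℝ :=
  if x0 < ‖z‖ ∧ ‖z‖ ≤ x0 + a ∧ y0 < Complex.arg z ∧ Complex.arg z ≤ y0 + b then K / ‖z‖ else 0

theorem tf_meas (K x0 y0 a b : ℝ) : Measurable (tf K x0 y0 a b) := by
  unfold tf
  refine Measurable.ite ?_ (measurable_const.div measurable_norm) measurable_const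
  exact (measurableSet_lt measurable_const measurable_norm).inter
    ((measurableSet_le measurable_norm measurable_const).inter
      ((measurableSet_lt measurable_const Complex.measurable_arg).inter
        (measurableSet_le Complex.measurable_arg measurable_const)))

theorem tf_bound {K x0 : ℝ} (hK : 0 ≤ K) (hx0 : 1 ≤ x0) (y0 a b : ℝ) (z : ℂ) :
    |tf K x0 y0 a b z| ≤ K := by
  unfold tf
  split_ifs with h
  · have h1 : 1 ≤ ‖z‖ := by linarith [h.1]
    rw [abs_of_nonneg (by positivity)]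
    exact div_le_self hK h1
  · simpa using hK

theorem tf_int {F : Set ℂ} (hF : MeasurableSet F) {R : ℝ} (hR : 1 < R) (hQ : ann R ⊆ F)
    {v : ℂ → ℝ} (hv : ContinuousOn v (ann R)) {K x0 y0 a b : ℝ} (hK : 0 ≤ K) (hx0 : 1 ≤ x0)
    (ha : 0 ≤ a) (hxa : x0 + a ≤ R) (hy0 : -Real.pi ≤ y0) (hb : 0 ≤ b)
    (hyb : y0 + b ≤ Real.pi) :
    ∫ z in F, v z * tf K x0 y0 a b z =
      K * ∫ t in y0..(y0 + b), ∫ r in x0..(x0 + a), v (gm (cl R r) t) := by
  have h1 : ∫ z in F, v z * tf K x0 y0 a b z = ∫ z in ann R, v z * tf K x0 y0 a b z := by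
    refine setIntegral_eq_of_subset_of_forall_sdiff_eq_zero hF hQ fun z hz => ?_
    rw [tf, if_neg, mul_zero]
    rintro ⟨h1, h2, -, -⟩
    exact hz.2 ⟨by linarith, by linarith⟩
  rw [h1]
  have h2 : IntegrableOn (fun z => v z * tf K x0 y0 a b z) (ann R) := by
    have h3 : IntegrableOn v (ann R) := hv.integrableOn_compact (ann_compact R)
    exact Integrable.mul_bdd (c := K) h3 (tf_meas K x0 y0 a b).aestronglyMeasurable
      (Eventually.of_forall fun z => tf_bound hK hx0 y0 a b z)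
  have h3 : ∫ z in ann R, v z * tf K x0 y0 a b z = ∫ t in (-Real.pi)..Real.pi,
      ∫ r in (1 : ℝ)..R, r * (v (gm r t) * tf K x0 y0 a b (gm r t)) := POL hR h2
  rw [h3, intervalIntegral.integral_of_le (by linarith [Real.pi_pos]),
    intervalIntegral.integral_of_le (by linarith : y0 ≤ y0 + b), ← integral_const_mul]
  have h4 : ∫ t in Ioc (-Real.pi) Real.pi, ∫ r in (1 : ℝ)..R,
      r * (v (gm r t) * tf K x0 y0 a b (gm r t)) =
      ∫ t in Ioc (-Real.pi) Real.pi, (Ioc y0 (y0 + b)).indicator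
        (fun t => K * ∫ r in x0..(x0 + a), v (gm (cl R r) t)) t := by
    refine setIntegral_congr_fun measurableSet_Ioc fun t ht => ?_
    show ∫ r in (1 : ℝ)..R, r * (v (gm r t) * tf K x0 y0 a b (gm r t)) =
      (Ioc y0 (y0 + b)).indicator (fun t => K * ∫ r in x0..(x0 + a), v (gm (cl R r) t)) t
    rw [intervalIntegral.integral_of_le hR.le]
    by_cases hty : t ∈ Ioc y0 (y0 + b)
    · rw [indicator_of_mem hty, intervalIntegral.integral_of_le (by linarith : x0 ≤ x0 + a),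
        ← integral_const_mul]
      have h5 : ∫ r in Ioc 1 R, r * (v (gm r t) * tf K x0 y0 a b (gm r t)) =
          ∫ r in Ioc 1 R, (Ioc x0 (x0 + a)).indicator (fun r => K * v (gm (cl R r) t)) r := by
        refine setIntegral_congr_fun measurableSet_Ioc fun r hr => ?_
        show r * (v (gm r t) * tf K x0 y0 a b (gm r t)) =
          (Ioc x0 (x0 + a)).indicator (fun r => K * v (gm (cl R r) t)) r
        have hr0 : 0 < r := by linarith [hr.1]
        rw [tf, norm_gm hr0.le, arg_gm hr0 ht]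
        by_cases hrx : r ∈ Ioc x0 (x0 + a)
        · rw [indicator_of_mem hrx, if_pos ⟨hrx.1, hrx.2, hty.1, hty.2⟩,
            cl_eq ⟨hr.1.le, hr.2⟩]
          field_simp
        · rw [indicator_of_notMem hrx, if_neg, mul_zero, mul_zero]
          rintro ⟨h6, h7, -, -⟩
          exact hrx ⟨h6, h7⟩
      rw [h5, setIntegral_indicator measurableSet_Ioc]
      congr 2
      apply inter_eq_right.2
      exact Ioc_subset_Ioc hx0 hxa
    · rw [indicator_of_notMem hty]
      have h5 : ∀ r ∈ Ioc 1 R, r * (v (gm r t) * tf K x0 y0 a b (gm r t)) = 0 := by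
        intro r hr
        have hr0 : 0 < r := by linarith [hr.1]
        rw [tf, norm_gm hr0.le, arg_gm hr0 ht, if_neg, mul_zero, mul_zero]
        rintro ⟨-, -, h6, h7⟩
        exact hty ⟨h6, h7⟩
      rw [setIntegral_congr_fun measurableSet_Ioc h5]
      simp
  rw [h4, setIntegral_indicator measurableSet_Ioc]
  congr 2
  apply inter_eq_right.2
  exact Ioc_subset_Ioc hy0 hyb

/-- the one cell inequality -/
theorem cell {U Ur Ut : ℝ → ℝ → ℝ} (hU : Continuous (Function.uncurry U))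
    (hUr : Continuous (Function.uncurry Ur)) (hUt : Continuous (Function.uncurry Ut))
    {x0 y0 a b δ : ℝ} (ha : 0 < a) (hb : 0 < b) (haδ : a ≤ δ) (hbδ : b ≤ δ)
    (h1 : ∀ y, ∀ x ∈ Icc x0 (x0 + a), U x y = U x0 y + ∫ t in x0..x, Ur t y)
    (h2 : ∀ x ∈ Icc x0 (x0 + a), ∀ y, U x y = U x y0 + ∫ t in y0..y, Ut x t) :
    (Real.pi / δ) ^ 2 * (∫ y in y0..(y0 + b), ∫ x in x0..(x0 + a), U x y ^ 2) ≤
      (∫ y in y0..(y0 + b), ∫ x in x0..(x0 + a), (Ur x y ^ 2 + Ut x y ^ 2)) +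
      (Real.pi / δ) ^ 2 * ((1 / √a * (1 / √b)) *
        ∫ y in y0..(y0 + b), ∫ x in x0..(x0 + a), U x y) ^ 2 := by
  have hδ : 0 < δ := by linarith
  have h3 := NEU2 (x0 := x0) (y0 := y0) ha hb hU.continuousOn hUr.continuousOn hUt.continuousOn
    (fun y _ x hx => h1 y x hx) (fun x hx y _ => h2 x hx y)
    (M := (Real.pi / δ) ^ 2) (by positivity) (S := {(0, 0)}) (by
      intro k l hkl
      have hpi := Real.pi_pos
      have hmono : ∀ c : ℝ, 0 < c → c ≤ δ → ∀ j : ℕ, (j * Real.pi / c) ^ 2 < (Real.pi / δ) ^ 2 →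
          j = 0 := by
        intro c hc hcδ j hj
        by_contra hj0
        have h4 : (1 : ℝ) ≤ j := by exact_mod_cast Nat.one_le_iff_ne_zero.2 hj0
        have h5 : Real.pi / δ ≤ j * Real.pi / c := by
          rw [div_le_div_iff₀ hδ hc]
          have h6 : Real.pi * c ≤ Real.pi * δ := mul_le_mul_of_nonneg_left hcδ hpi.le
          have h7 : Real.pi * δ ≤ j * (Real.pi * δ) := le_mul_of_one_le_left (by positivity) h4
          linarith
        have h8 : (Real.pi / δ) ^ 2 ≤ (j * Real.pi / c) ^ 2 :=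
          pow_le_pow_left₀ (by positivity) h5 2
        linarith
      have hk := hmono a ha haδ k (by
        have : 0 ≤ (l * Real.pi / b) ^ 2 := by positivity
        linarith)
      have hl := hmono b hb hbδ l (by
        have : 0 ≤ (k * Real.pi / a) ^ 2 := by positivity
        linarith)
      rw [hk, hl]
      exact Finset.mem_singleton_self _)
  refine h3.trans (le_of_eq ?_)
  rw [Finset.sum_singleton]
  have h4 : ∀ x y, U x y * (ec x0 a 0 x * ec y0 b 0 y) = (1 / √a * (1 / √b)) * U x y := by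
    intro x y
    rw [ec, ec, if_pos rfl, if_pos rfl]
    ring
  simp only [h4]
  rw [dconst]

theorem COL {F : Set ℂ} (hF : MeasurableSet F) {R : ℝ} (hR : 1 < R) (hR3 : R ≤ 3)
    (hQ : {z : ℂ | 1 ≤ ‖z‖ ∧ ‖z‖ ≤ R} ⊆ F) {ρ : ℂ → ℝ} {B : ℝ}
    (hρc : ContinuousOn ρ {z | 1 ≤ ‖z‖ ∧ ‖z‖ ≤ R})
    (hρ : ∀ z : ℂ, 1 ≤ ‖z‖ → ‖z‖ ≤ R → 0 ≤ ρ z ∧ ρ z ≤ B) {L κ δ : ℝ} (hL : 0 ≤ L) (hδ : 0 < δ)
    (hκ : 9 * B * L * δ ^ 2 ≤ κ * Real.pi ^ 2) :
    ∃ N : ℕ, (N : ℝ) ≤ ((R - 1) / δ + 1) * (2 * Real.pi / δ + 1) ∧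
      UPB F {z | 1 ≤ ‖z‖ ∧ ‖z‖ ≤ R} ρ L κ N := by
  have hpi := Real.pi_pos
  have hB : 0 ≤ B := by
    have h := hρ 1 (by simp) (by simpa using hR.le)
    linarith
  -- the grid
  obtain ⟨m, hm⟩ : ∃ m : ℕ, m = ⌈(R - 1) / δ⌉₊ := ⟨_, rfl⟩
  obtain ⟨n, hn⟩ : ∃ n : ℕ, n = ⌈2 * Real.pi / δ⌉₊ := ⟨_, rfl⟩
  have hm1 : (R - 1) / δ ≤ m := hm ▸ Nat.le_ceil _
  have hn1 : 2 * Real.pi / δ ≤ n := hn ▸ Nat.le_ceil _
  have hR1 : 0 < R - 1 := by linarith
  have hm0 : (0 : ℝ) < m := lt_of_lt_of_le (by positivity) hm1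
  have hn0 : (0 : ℝ) < n := lt_of_lt_of_le (by positivity) hn1
  have hm2 : (m : ℝ) ≤ (R - 1) / δ + 1 := by
    rw [hm]; exact (Nat.ceil_lt_add_one (by positivity)).le
  have hn2 : (n : ℝ) ≤ 2 * Real.pi / δ + 1 := by
    rw [hn]; exact (Nat.ceil_lt_add_one (by positivity)).le
  obtain ⟨a, ha⟩ : ∃ a : ℝ, a = (R - 1) / m := ⟨_, rfl⟩
  obtain ⟨b, hb⟩ : ∃ b : ℝ, b = 2 * Real.pi / n := ⟨_, rfl⟩
  have ha0 : 0 < a := by rw [ha]; positivity
  have hb0 : 0 < b := by rw [hb]; positivity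
  have haδ : a ≤ δ := by
    rw [ha, div_le_iff₀ hm0]
    rw [div_le_iff₀ hδ] at hm1
    linarith
  have hbδ : b ≤ δ := by
    rw [hb, div_le_iff₀ hn0]
    rw [div_le_iff₀ hδ] at hn1
    linarith
  have hma : (m : ℝ) * a = R - 1 := by rw [ha]; field_simp
  have hnb : (n : ℝ) * b = 2 * Real.pi := by rw [hb]; field_simp
  have hpa : ∀ p < m, (p : ℝ) * a + a ≤ R - 1 := by
    intro p hp
    have h1 : (p : ℝ) + 1 ≤ m := by exact_mod_cast hp
    have h2 := mul_le_mul_of_nonneg_right h1 ha0.le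
    linarith
  have hqb : ∀ q < n, (q : ℝ) * b + b ≤ 2 * Real.pi := by
    intro p hp
    have h1 : (p : ℝ) + 1 ≤ n := by exact_mod_cast hp
    have h2 := mul_le_mul_of_nonneg_right h1 hb0.le
    linarith
  obtain ⟨K, hK⟩ : ∃ K : ℝ, K = √(3 * L * B) * (1 / √a * (1 / √b)) := ⟨_, rfl⟩
  have hK0 : 0 ≤ K := by rw [hK]; positivity
  refine ⟨m * n, ?_, ?_⟩
  · push_cast
    exact mul_le_mul hm2 hn2 hn0.le (by positivity)
  refine ⟨fun j => tf K (1 + ((finProdFinEquiv.symm j).1 : ℕ) * a)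
    (-Real.pi + ((finProdFinEquiv.symm j).2 : ℕ) * b) a b, fun j => tf_meas _ _ _ _ _,
    ⟨K, fun j z => tf_bound hK0 (by
      have : 0 ≤ (((finProdFinEquiv.symm j).1 : ℕ) : ℝ) * a := by positivity
      linarith) _ _ _ z⟩, ?_⟩
  intro v hv
  obtain ⟨V, Vr, Vt, hV, cV, cVr, cVt, dV, dV', hgr⟩ := C1P hv hR hQ
  have hvc : ContinuousOn v (ann R) := by
    obtain ⟨O, hO, hFO, hvO⟩ := hv
    exact hvO.continuousOn.mono fun z hz => hFO (hQ hz)
  have hgc : ContinuousOn (gr v) (ann R) := by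
    obtain ⟨O, hO, hFO, hvO⟩ := hv
    have h1 : ContinuousOn (fderiv ℝ v) (ann R) :=
      (hvO.continuousOn_fderiv_of_isOpen hO le_rfl).mono fun z hz => hFO (hQ hz)
    have h2 : ContinuousOn (dx v) (ann R) := h1.clm_apply continuousOn_const
    have h3 : ContinuousOn (dy v) (ann R) := h1.clm_apply continuousOn_const
    exact (h2.pow 2).add (h3.pow 2)
  -- clamped functions
  have hclm : ∀ f : ℝ → ℝ → ℝ, ContinuousOn (Function.uncurry f) (Icc 1 R ×ˢ univ) →
      Continuous (Function.uncurry fun r t => f (cl R r) t) := by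
    intro f hf
    have h1 : Continuous fun p : ℝ × ℝ => (cl R p.1, p.2) :=
      ((cl_cont R).comp continuous_fst).prodMk continuous_snd
    exact hf.comp_continuous h1 fun p => ⟨cl_mem hR p.1, mem_univ _⟩
  have cU := hclm V cV
  have cUr := hclm Vr cVr
  have cUt := hclm Vt cVt
  have hUv : ∀ r t, V (cl R r) t = v (gm (cl R r) t) := fun r t => hV _ _
  have cU2 : Continuous (Function.uncurry fun x y => V (cl R x) y ^ 2) := by
    have h : Continuous fun p : ℝ × ℝ => V (cl R p.1) p.2 := cU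
    exact h.pow 2
  have cUrt : Continuous (Function.uncurry fun x y => Vr (cl R x) y ^ 2 + Vt (cl R x) y ^ 2) := by
    have h : Continuous fun p : ℝ × ℝ => Vr (cl R p.1) p.2 := cUr
    have h' : Continuous fun p : ℝ × ℝ => Vt (cl R p.1) p.2 := cUt
    exact (h.pow 2).add (h'.pow 2)
  -- the cells
  have hcell : ∀ p < m, ∀ q < n,
      (Real.pi / δ) ^ 2 * (∫ y in (-Real.pi + q * b)..(-Real.pi + q * b + b),
        ∫ x in (1 + p * a)..(1 + p * a + a), V (cl R x) y ^ 2) ≤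
      (∫ y in (-Real.pi + q * b)..(-Real.pi + q * b + b),
        ∫ x in (1 + p * a)..(1 + p * a + a), (Vr (cl R x) y ^ 2 + Vt (cl R x) y ^ 2)) +
      (Real.pi / δ) ^ 2 * ((1 / √a * (1 / √b)) *
        ∫ y in (-Real.pi + q * b)..(-Real.pi + q * b + b),
          ∫ x in (1 + p * a)..(1 + p * a + a), V (cl R x) y) ^ 2 := by
    intro p hp q hq
    have hp0 : 0 ≤ (p : ℝ) * a := by positivity
    have hpR := hpa p hp
    have hsub : ∀ x ∈ Icc (1 + (p : ℝ) * a) (1 + p * a + a), x ∈ Icc 1 R := fun x hx =>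
      ⟨by linarith [hx.1], by linarith [hx.2]⟩
    have hx0 : 1 + (p : ℝ) * a ∈ Icc (1 + (p : ℝ) * a) (1 + p * a + a) :=
      ⟨le_rfl, by linarith⟩
    refine cell cU cUr cUt ha0 hb0 haδ hbδ ?_ ?_
    · intro y x hx
      have hsub2 : ∀ t ∈ uIcc (1 + (p : ℝ) * a) x, t ∈ Icc 1 R := by
        intro t ht
        rw [uIcc_of_le hx.1] at ht
        exact hsub t ⟨ht.1, by linarith [ht.2, hx.2]⟩
      have h1 : ∫ t in (1 + (p : ℝ) * a)..x, Vr (cl R t) y = V x y - V (1 + (p : ℝ) * a) y := by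
        refine intervalIntegral.integral_eq_sub_of_hasDerivAt (f := fun r => V r y) ?_
          ((cx' cUr y).intervalIntegrable _ _)
        intro t ht
        rw [cl_eq (hsub2 t ht)]
        exact dV t (hsub2 t ht) y
      rw [h1, cl_eq (hsub x hx), cl_eq (hsub _ hx0)]
      ring
    · intro x hx y
      have h1 : ∫ t in (-Real.pi + q * b)..y, Vt (cl R x) t =
          V (cl R x) y - V (cl R x) (-Real.pi + q * b) := by
        refine intervalIntegral.integral_eq_sub_of_hasDerivAt (f := fun t => V (cl R x) t) ?_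
          ((cUt.comp (Continuous.prodMk_right x)).intervalIntegrable _ _)
        intro t _
        exact dV' (cl R x) (cl_mem hR x) t
      rw [h1]
      ring
  -- sum over the cells
  have hsum : (Real.pi / δ) ^ 2 * (∫ y in (-Real.pi)..Real.pi, ∫ x in (1 : ℝ)..R,
        V (cl R x) y ^ 2) ≤
      (∫ y in (-Real.pi)..Real.pi, ∫ x in (1 : ℝ)..R,
        (Vr (cl R x) y ^ 2 + Vt (cl R x) y ^ 2)) +
      (Real.pi / δ) ^ 2 * ∑ p ∈ Finset.range m, ∑ q ∈ Finset.range n,
        ((1 / √a * (1 / √b)) * ∫ y in (-Real.pi + q * b)..(-Real.pi + q * b + b),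
          ∫ x in (1 + p * a)..(1 + p * a + a), V (cl R x) y) ^ 2 := by
    have h1 := Finset.sum_le_sum fun p (hp : p ∈ Finset.range m) =>
      Finset.sum_le_sum fun q (hq : q ∈ Finset.range n) =>
        hcell p (Finset.mem_range.1 hp) q (Finset.mem_range.1 hq)
    simp only [Finset.sum_add_distrib, ← Finset.mul_sum] at h1
    have g1 := grid (g := fun x y => V (cl R x) y ^ 2) cU2 1 (-Real.pi) a b m n
    have g2 := grid (g := fun x y => Vr (cl R x) y ^ 2 + Vt (cl R x) y ^ 2)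
      cUrt 1 (-Real.pi) a b m n
    have e1 : -Real.pi + (n : ℝ) * b = Real.pi := by rw [hnb]; ring
    have e2 : 1 + (m : ℝ) * a = R := by rw [hma]; ring
    rw [e1, e2] at g1 g2
    rw [g1, g2] at h1
    exact h1
  -- the left hand side
  have hρv : ContinuousOn (fun z => ρ z * v z ^ 2) (ann R) := ContinuousOn.mul hρc (hvc.pow 2)
  have hlhs : ∫ z in ann R, ρ z * v z ^ 2 ≤
      3 * B * ∫ y in (-Real.pi)..Real.pi, ∫ x in (1 : ℝ)..R, V (cl R x) y ^ 2 := by
    rw [polc hR hρv, ← dconst]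
    refine dmono ?_ ?_ hR.le (by linarith) ?_
    · have h1 := hat_cont hR hρv
      exact continuous_fst.mul h1
    · exact continuous_const.mul cU2
    · intro x hx y _
      rw [hUv, cl_eq hx]
      have h1 := norm_gm (r := x) (by linarith [hx.1]) y
      have h2 := hρ (gm x y) (by rw [h1]; exact hx.1) (by rw [h1]; exact hx.2)
      have h3 : x * ρ (gm x y) ≤ 3 * B :=
        mul_le_mul (by linarith [hx.2]) h2.2 h2.1 (by norm_num)
      have h4 := mul_le_mul_of_nonneg_right h3 (sq_nonneg (v (gm x y)))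
      linarith
  have hrhs : (∫ y in (-Real.pi)..Real.pi, ∫ x in (1 : ℝ)..R,
        (Vr (cl R x) y ^ 2 + Vt (cl R x) y ^ 2)) ≤ 3 * ∫ z in ann R, gr v z := by
    rw [polc hR hgc, ← dconst]
    refine dmono ?_ ?_ hR.le (by linarith) ?_
    · exact cUrt
    · exact continuous_const.mul (continuous_fst.mul (hat_cont hR hgc))
    · intro x hx y _
      rw [cl_eq hx]
      have h1 := hgr x hx y
      have h2 : 0 ≤ gr v (gm x y) := by unfold gr; positivity
      have h3 : x ^ 2 * gr v (gm x y) ≤ 3 * (x * gr v (gm x y)) := by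
        have h4 : 0 ≤ x * gr v (gm x y) := mul_nonneg (by linarith [hx.1]) h2
        have h5 : x * (x * gr v (gm x y)) ≤ 3 * (x * gr v (gm x y)) :=
          mul_le_mul_of_nonneg_right (by linarith [hx.2]) h4
        linarith [h5, (by ring : x ^ 2 * gr v (gm x y) = x * (x * gr v (gm x y)))]
      exact h1.trans h3
  have hgr0 : 0 ≤ ∫ z in ann R, gr v z := by
    refine integral_nonneg fun z => ?_
    show 0 ≤ gr v z
    unfold gr
    positivity
  -- the functionals
  have hfun : ∑ j : Fin (m * n), (∫ z in F, v z * tf K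
      (1 + ((finProdFinEquiv.symm j).1 : ℕ) * a)
      (-Real.pi + ((finProdFinEquiv.symm j).2 : ℕ) * b) a b z) ^ 2 =
      3 * L * B * ∑ p ∈ Finset.range m, ∑ q ∈ Finset.range n,
        ((1 / √a * (1 / √b)) * ∫ y in (-Real.pi + q * b)..(-Real.pi + q * b + b),
          ∫ x in (1 + p * a)..(1 + p * a + a), V (cl R x) y) ^ 2 := by
    have h1 := Equiv.sum_comp (finProdFinEquiv (m := m) (n := n)).symm (fun pq : Fin m × Fin n =>
      (∫ z in F, v z * tf K (1 + (pq.1 : ℕ) * a) (-Real.pi + (pq.2 : ℕ) * b) a b z) ^ 2)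
    rw [h1, Fintype.sum_prod_type, Finset.mul_sum,
      ← Fin.sum_univ_eq_sum_range (fun p => 3 * L * B * ∑ q ∈ Finset.range n,
        ((1 / √a * (1 / √b)) * ∫ y in (-Real.pi + q * b)..(-Real.pi + q * b + b),
          ∫ x in (1 + p * a)..(1 + p * a + a), V (cl R x) y) ^ 2) m]
    refine Finset.sum_congr rfl fun p _ => ?_
    rw [Finset.mul_sum, ← Fin.sum_univ_eq_sum_range (fun q => 3 * L * B *
        ((1 / √a * (1 / √b)) * ∫ y in (-Real.pi + q * b)..(-Real.pi + q * b + b),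
          ∫ x in (1 + (p : ℕ) * a)..(1 + (p : ℕ) * a + a), V (cl R x) y) ^ 2) n]
    refine Finset.sum_congr rfl fun q _ => ?_
    have hp0 : 0 ≤ ((p : ℕ) : ℝ) * a := by positivity
    have hq0 : 0 ≤ ((q : ℕ) : ℝ) * b := by positivity
    have h2 := hpa p p.2
    have h3 := hqb q q.2
    rw [tf_int hF hR hQ hvc hK0 (by linarith) ha0.le (by linarith) (by linarith) hb0.le
      (by linarith)]
    simp only [hUv]
    rw [hK, mul_assoc (√(3 * L * B)), mul_pow (√(3 * L * B)), Real.sq_sqrt (by positivity)]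
  rw [hfun]
  show L * ∫ z in ann R, ρ z * v z ^ 2 ≤ κ * (∫ z in ann R, gr v z) + _
  generalize (∑ p ∈ Finset.range m, ∑ q ∈ Finset.range n,
        ((1 / √a * (1 / √b)) * ∫ y in (-Real.pi + q * b)..(-Real.pi + q * b + b),
          ∫ x in (1 + p * a)..(1 + p * a + a), V (cl R x) y) ^ 2) = SS at hsum ⊢
  generalize (∫ y in (-Real.pi)..Real.pi, ∫ x in (1 : ℝ)..R, V (cl R x) y ^ 2) = I1 at hsum hlhs
  generalize (∫ y in (-Real.pi)..Real.pi, ∫ x in (1 : ℝ)..R,
        (Vr (cl R x) y ^ 2 + Vt (cl R x) y ^ 2)) = I2 at hsum hrhs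
  generalize (∫ z in ann R, gr v z) = G at hrhs hgr0 ⊢
  generalize (∫ z in ann R, ρ z * v z ^ 2) = J at hlhs ⊢
  have hD : 0 < (Real.pi / δ) ^ 2 := by positivity
  have h1 : (Real.pi / δ) ^ 2 * (I1 - SS) ≤ 3 * G := by linarith
  have h2 : I1 - SS ≤ 3 * G * (δ ^ 2 / Real.pi ^ 2) := by
    rw [div_pow] at h1
    have h3 : δ ^ 2 / Real.pi ^ 2 * (Real.pi ^ 2 / δ ^ 2 * (I1 - SS)) ≤
        δ ^ 2 / Real.pi ^ 2 * (3 * G) := mul_le_mul_of_nonneg_left h1 (by positivity)
    have h4 : δ ^ 2 / Real.pi ^ 2 * (Real.pi ^ 2 / δ ^ 2 * (I1 - SS)) = I1 - SS := by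
      field_simp
    linarith
  have h3 : 3 * (B * L) * (I1 - SS) ≤ 3 * (B * L) * (3 * G * (δ ^ 2 / Real.pi ^ 2)) :=
    mul_le_mul_of_nonneg_left h2 (by positivity)
  have h4 : 3 * (B * L) * (3 * G * (δ ^ 2 / Real.pi ^ 2)) ≤ κ * G := by
    have h5 : 9 * B * L * δ ^ 2 * G ≤ κ * Real.pi ^ 2 * G := mul_le_mul_of_nonneg_right hκ hgr0
    have h6 : 3 * (B * L) * (3 * G * (δ ^ 2 / Real.pi ^ 2)) =
        9 * B * L * δ ^ 2 * G / Real.pi ^ 2 := by ring
    rw [h6, div_le_iff₀ (by positivity)]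
    linarith
  have h5 : L * J ≤ L * (3 * B * I1) := mul_le_mul_of_nonneg_left hlhs hL
  linarith

end Pool.Agent.Lib_helper95.EQW.COL

end

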