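import Mathlib
import Pool.Agent.Lib_helper71.EQM.WeylD
import Pool.Agent.Lib_helper71.EQM.WeylE
import Pool.Agent.Lib_helper71.EQM.WeylF

/-! Project EQ (MP_ed6ab2_an): merged modules Lib_helper95.EQW.P3, Lib_helper95.EQW.B.WU, Lib_helper95.EQW.P4. -/

set_option autoImplicit false

/-! ## Lib_helper95.EQW.P3 -/

section

/-!
# EQW: proved blocks, level 3
-/

namespace Pool.Agent.Lib_helper95.EQW

alias SQU := SQU.SQU

alias COL := COL.COL

alias WL := WL.WL

end Pool.Agent.Lib_helper95.EQW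

end

/-! ## Lib_helper95.EQW.B.WU -/

section

/-!
# EQW block WU: assembly of the upper Weyl bound
-/

set_option autoImplicit false

namespace Pool.Agent.Lib_helper95.EQW.WU

open MeasureTheory Set Filter Topology
open Pool.Agent.EQ (dx dy)

noncomputable section

theorem C1N.cont {F : Set ℂ} {v : ℂ → ℝ} (hv : C1N F v) :
    ContinuousOn v F ∧ ContinuousOn (gr v) F := by
  obtain ⟨U, hU, hFU, hc⟩ := hv
  have h1 : ContinuousOn v F := hc.continuousOn.mono hFU
  have h2 : ContinuousOn (fderiv ℝ v) F :=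
    (hc.continuousOn_fderiv_of_isOpen hU le_rfl).mono hFU
  refine ⟨h1, ?_⟩
  have h3 : ContinuousOn (dx v) F := h2.clm_apply continuousOn_const
  have h4 : ContinuousOn (dy v) F := h2.clm_apply continuousOn_const
  exact (h3.pow 2).add (h4.pow 2)

theorem UPB_of_fintype {ι : Type} [Fintype ι] {F Q : Set ℂ} {ρ : ℂ → ℝ} {L κ : ℝ}
    (g : ι → ℂ → ℝ) (hg : ∀ j, Measurable (g j)) (hb : ∃ C : ℝ, ∀ j z, |g j z| ≤ C)
    (h : ∀ v : ℂ → ℝ, C1N F v →
      L * ∫ z in Q, ρ z * v z ^ 2 ≤ κ * (∫ z in Q, gr v z) + ∑ j, (∫ z in F, v z * g j z) ^ 2) :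
    UPB F Q ρ L κ (Fintype.card ι) := by
  let e := Fintype.equivFin ι
  refine ⟨fun j => g (e.symm j), fun j => hg _, ?_, fun v hv => ?_⟩
  · obtain ⟨C, hC⟩ := hb
    exact ⟨C, fun j z => hC _ z⟩
  · refine (h v hv).trans_eq ?_
    congr 1
    exact (Equiv.sum_comp e.symm fun j => (∫ z in F, v z * g j z) ^ 2).symm

theorem WU {W : ℕ} (hW : 8 ≤ W) {ρ : ℂ → ℝ} (hρ : ContinuousOn ρ (FR W))
    (hpos : ∀ z ∈ FR W, 0 < ρ z) {ε η : ℝ} (hε : 0 < ε) (hη : 0 < η) :
    ∃ L0 : ℝ, ∀ L ≥ L0, ∃ N : ℕ,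
      (N : ℝ) ≤ ((∫ z in FR W, ρ z) / (4 * Real.pi) + ε) * L ∧
      UPB (FR W) (FR W) ρ L (1 + η) N := by
  have hpi := Real.pi_pos
  -- bound of the density
  obtain ⟨B0, hB0⟩ := (isCompact_FR W).exists_bound_of_continuousOn hρ
  set Bb : ℝ := max B0 1 with hBb
  have hBb1 : 0 < Bb := lt_of_lt_of_le one_pos (le_max_right _ _)
  have hBbρ : ∀ z ∈ FR W, ρ z ≤ Bb := fun z hz =>
    ((le_abs_self _).trans (hB0 z hz)).trans (le_max_left _ _)
  set c : ℝ := Real.pi * √(η / (9 * Bb)) with hc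
  have hc0 : 0 < c := by positivity
  have hc2 : 9 * Bb * c ^ 2 = η * Real.pi ^ 2 := by
    rw [hc, mul_pow, Real.sq_sqrt (by positivity)]
    field_simp
  set I : ℝ := ∫ z in FR W, ρ z with hI
  obtain ⟨m0, hm0⟩ := RSU hW hρ hpos (ε := Real.pi * ε) (by positivity)
  -- choice of `m`
  obtain ⟨m1, hm1⟩ := exists_nat_ge (16 * Real.pi / (c ^ 2 * ε))
  set m : ℕ := max (max m0 m1) 1 with hm
  have hmm0 : m0 ≤ m := (le_max_left _ _).trans (le_max_left _ _)
  have hmm1 : m1 ≤ m := (le_max_right _ _).trans (le_max_left _ _)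
  have hm1' : 1 ≤ m := le_max_right _ _
  have hmpos : 0 < m := hm1'
  have hmR : (0 : ℝ) < m := by exact_mod_cast hmpos
  have hmR1 : (1 : ℝ) ≤ m := by exact_mod_cast hm1'
  obtain ⟨B, hB, hBsum⟩ := hm0 m hmm0 hmpos
  have hmc : 4 * Real.pi / (m * c ^ 2) ≤ ε / 4 := by
    have h1 : 16 * Real.pi / (c ^ 2 * ε) ≤ m := hm1.trans (by exact_mod_cast hmm1)
    rw [div_le_iff₀ (by positivity)] at h1
    rw [div_le_iff₀ (by positivity)]
    nlinarith
  set R : ℝ := 1 + 2 / m with hR
  have hR1 : 1 < R := by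
    rw [hR]
    have : (0 : ℝ) < 2 / m := by positivity
    linarith
  have hR3 : R ≤ 3 := by
    rw [hR]
    have : (2 : ℝ) / m ≤ 2 := by
      rw [div_le_iff₀ hmR]
      linarith
    linarith
  set A : Set ℂ := {z | 1 ≤ ‖z‖ ∧ ‖z‖ ≤ R} with hA
  have hAF : A ⊆ FR W := by
    rintro z ⟨h1, h2⟩
    have h3 := abs_le.1 (Complex.abs_re_le_norm z)
    have h4 := abs_le.1 (Complex.abs_im_le_norm z)
    have h5 : (8 : ℝ) ≤ W := by exact_mod_cast hW
    exact ⟨by linarith, by linarith, by linarith, by linarith, h1⟩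
  have hAm : MeasurableSet A :=
    (isClosed_le continuous_const continuous_norm).measurableSet.inter
      (isClosed_le continuous_norm continuous_const).measurableSet
  -- constants
  set C1 : ℝ := ∑ p ∈ MS W m, 3 * ((1 / m) * √(B p) / Real.pi) with hC1
  set C2 : ℝ := 2 / m / c + 2 * Real.pi / c with hC2
  set C3 : ℝ := 3 * ((MS W m).card : ℝ) + 1 with hC3
  have hC1' : 0 ≤ C1 := Finset.sum_nonneg fun p _ => by positivity
  have hC2' : 0 ≤ C2 := by positivity
  have hC3' : 0 ≤ C3 := by positivity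
  refine ⟨max 1 ((2 * (C1 + C2 + C3) / ε) ^ 2), fun L hL => ?_⟩
  have hL1 : 1 ≤ L := (le_max_left _ _).trans hL
  have hL2 : (2 * (C1 + C2 + C3) / ε) ^ 2 ≤ L := (le_max_right _ _).trans hL
  have hL0 : 0 < L := lt_of_lt_of_le one_pos hL1
  have hsL : 1 ≤ √L := by
    rw [Real.one_le_sqrt]
    exact hL1
  have hsL0 : 0 < √L := by linarith
  have hLL : √L * √L = L := Real.mul_self_sqrt hL0.le
  have hrem : (C1 + C2) * √L + C3 ≤ ε / 2 * L := by
    have h1 : 2 * (C1 + C2 + C3) / ε ≤ √L := Real.le_sqrt_of_sq_le hL2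
    rw [div_le_iff₀ hε] at h1
    calc (C1 + C2) * √L + C3 ≤ (C1 + C2) * √L + C3 * √L := by nlinarith
      _ = (C1 + C2 + C3) * √L := by ring
      _ ≤ (√L * ε / 2) * √L := by
        apply mul_le_mul_of_nonneg_right _ hsL0.le
        linarith
      _ = ε / 2 * (√L * √L) := by ring
      _ = ε / 2 * L := by rw [hLL]
  -- squares
  have hsq : ∀ p : {p // p ∈ MS W m}, ∃ N : ℕ,
      (N : ℝ) ≤ (1 / (m : ℝ)) ^ 2 * (L * B p) / (4 * Real.pi) +
        3 * ((1 / m) * √(L * B p) / Real.pi) + 3 ∧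
      UPB (FR W) (sqr m p) ρ L 1 N := by
    rintro ⟨p, hp⟩
    have hsub := SQF hmpos hp
    exact SQU (measurableSet_FR W) (by positivity) hsub (hρ.mono hsub)
      (fun z hz => ⟨(hpos z (hsub hz)).le, (hB p hp).2 z hz⟩) hL0.le
  choose N hN hNU using hsq
  -- collar
  have hδ : 0 < c / √L := by positivity
  have hκ : 9 * Bb * L * (c / √L) ^ 2 ≤ η * Real.pi ^ 2 := by
    rw [div_pow, Real.sq_sqrt hL0.le, ← hc2]
    apply le_of_eq
    field_simp
  obtain ⟨Nc, hNc, hNcU⟩ := COL (measurableSet_FR W) hR1 hR3 hAF (hρ.mono hAF)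
    (fun z h1 h2 => ⟨(hpos z (hAF ⟨h1, h2⟩)).le, hBbρ z (hAF ⟨h1, h2⟩)⟩) hL0.le hδ hκ
  refine ⟨Fintype.card ((Σ p : {p // p ∈ MS W m}, Fin (N p)) ⊕ Fin Nc), ?_, ?_⟩
  · -- the count
    rw [Fintype.card_sum, Fintype.card_sigma, Fintype.card_fin]
    simp only [Fintype.card_fin]
    push_cast
    have h1 : (∑ p : {p // p ∈ MS W m}, (N p : ℝ)) ≤
        L * (I + Real.pi * ε) / (4 * Real.pi) + C1 * √L + 3 * ((MS W m).card : ℝ) := by
      calc (∑ p : {p // p ∈ MS W m}, (N p : ℝ)) ≤ ∑ p : {p // p ∈ MS W m},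
            ((1 / (m : ℝ)) ^ 2 * (L * B p) / (4 * Real.pi) +
              3 * ((1 / m) * √(L * B p) / Real.pi) + 3) := Finset.sum_le_sum fun p _ => hN p
        _ = ∑ p ∈ MS W m, ((1 / (m : ℝ)) ^ 2 * (L * B p) / (4 * Real.pi) +
              3 * ((1 / m) * √(L * B p) / Real.pi) + 3) :=
            Finset.sum_coe_sort (MS W m) (fun p => ((1 / (m : ℝ)) ^ 2 * (L * B p) /
              (4 * Real.pi) + 3 * ((1 / m) * √(L * B p) / Real.pi) + 3))
        _ = ∑ p ∈ MS W m, (L / (4 * Real.pi) * (B p * (1 / (m : ℝ)) ^ 2) +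
              (3 * ((1 / m) * √(B p) / Real.pi)) * √L + 3) := by
            refine Finset.sum_congr rfl fun p _ => ?_
            rw [Real.sqrt_mul hL0.le]
            ring
        _ = L / (4 * Real.pi) * (∑ p ∈ MS W m, B p * (1 / (m : ℝ)) ^ 2) + C1 * √L +
              3 * ((MS W m).card : ℝ) := by
            rw [Finset.sum_add_distrib, Finset.sum_add_distrib, ← Finset.mul_sum, hC1,
              Finset.sum_mul (MS W m) (fun p => 3 * ((1 / (m : ℝ)) * √(B p) / Real.pi)) (√L),
              Finset.sum_const, nsmul_eq_mul, mul_comm ((MS W m).card : ℝ) 3]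
        _ ≤ L / (4 * Real.pi) * (I + Real.pi * ε) + C1 * √L + 3 * ((MS W m).card : ℝ) := by
            gcongr
        _ = _ := by ring
    have h2 : (Nc : ℝ) ≤ ε / 4 * L + C2 * √L + 1 := by
      refine hNc.trans ?_
      have e1 : R - 1 = 2 / m := by rw [hR]; ring
      rw [e1]
      have e2 : (2 / (m : ℝ) / (c / √L) + 1) * (2 * Real.pi / (c / √L) + 1) =
          4 * Real.pi / (m * c ^ 2) * (√L * √L) + C2 * √L + 1 := by
        rw [hC2]
        field_simp
        ring
      rw [e2, hLL]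
      gcongr
    have h3 : L * (I + Real.pi * ε) / (4 * Real.pi) = I / (4 * Real.pi) * L + ε / 4 * L := by
      field_simp
    rw [h3] at h1
    have h4 : (I / (4 * Real.pi) + ε) * L = I / (4 * Real.pi) * L + ε * L := by ring
    rw [h4]
    rw [hC3] at hrem
    nlinarith
  · -- the inequality
    choose g hgm hgb hg using hNU
    obtain ⟨gc, hgcm, hgcb, hgc⟩ := hNcU
    refine UPB_of_fintype (Sum.elim (fun q => g q.1 q.2) gc) ?_ ?_ ?_
    · rintro (q | j)
      · exact hgm q.1 q.2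
      · exact hgcm j
    · choose C hC using hgb
      obtain ⟨Cc, hCc⟩ := hgcb
      refine ⟨(∑ p, |C p|) + |Cc|, ?_⟩
      rintro (q | j) z
      · calc |g q.1 q.2 z| ≤ C q.1 := hC q.1 q.2 z
          _ ≤ |C q.1| := le_abs_self _
          _ ≤ ∑ p, |C p| := Finset.single_le_sum (f := fun p => |C p|)
              (fun p _ => abs_nonneg _) (Finset.mem_univ _)
          _ ≤ _ := le_add_of_nonneg_right (abs_nonneg _)
      · calc |gc j z| ≤ Cc := hCc j z
          _ ≤ |Cc| := le_abs_self _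
          _ ≤ _ := le_add_of_nonneg_left (Finset.sum_nonneg fun p _ => abs_nonneg _)
    · intro v hv
      obtain ⟨hvc, hgrc⟩ := C1N.cont hv
      have hFm := measurableSet_FR W
      have hsm : ∀ p, MeasurableSet (sqr m p) := fun p => measurableSet_rct _ _ _ _
      have hf : ContinuousOn (fun z => ρ z * v z ^ 2) (FR W) := hρ.mul (hvc.pow 2)
      have hfi : IntegrableOn (fun z => ρ z * v z ^ 2) (FR W) :=
        hf.integrableOn_compact (isCompact_FR W)
      have hgi : IntegrableOn (gr v) (FR W) := hgrc.integrableOn_compact (isCompact_FR W)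
      have hf0 : ∀ z ∈ FR W, 0 ≤ ρ z * v z ^ 2 := fun z hz =>
        mul_nonneg (hpos z hz).le (sq_nonneg _)
      have hg0 : ∀ z, 0 ≤ gr v z := fun z => add_nonneg (sq_nonneg _) (sq_nonneg _)
      -- cover
      have hcov : ∫ z in FR W, ρ z * v z ^ 2 ≤
          ∑ p ∈ MS W m, (∫ z in sqr m p, ρ z * v z ^ 2) + ∫ z in A, ρ z * v z ^ 2 := by
        have e1 : ∀ p ∈ MS W m, ∫ z in sqr m p, ρ z * v z ^ 2 =
            ∫ z in FR W, (sqr m p).indicator (fun z => ρ z * v z ^ 2) z := by
          intro p hp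
          rw [setIntegral_indicator (hsm p),
            inter_eq_self_of_subset_right (SQF hmpos hp)]
        have e2 : ∫ z in A, ρ z * v z ^ 2 =
            ∫ z in FR W, A.indicator (fun z => ρ z * v z ^ 2) z := by
          rw [setIntegral_indicator hAm, inter_eq_self_of_subset_right hAF]
        rw [Finset.sum_congr rfl e1, e2, ← integral_finsetSum, ← integral_add]
        · apply setIntegral_mono_on hfi _ hFm
          · intro z hz
            have hnn : ∀ p ∈ MS W m,
                0 ≤ (sqr m p).indicator (fun z => ρ z * v z ^ 2) z := fun p hp =>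
              indicator_nonneg (fun z hz => hf0 z (SQF hmpos hp hz)) z
            rcases COV hW hmpos hz with ⟨p, hp, hzp⟩ | hzA
            · have h1 : (sqr m p).indicator (fun z => ρ z * v z ^ 2) z = ρ z * v z ^ 2 :=
                indicator_of_mem hzp _
              have h2 := Finset.single_le_sum (f := fun p =>
                (sqr m p).indicator (fun z => ρ z * v z ^ 2) z) hnn hp
              rw [h1] at h2
              have h3 : 0 ≤ A.indicator (fun z => ρ z * v z ^ 2) z :=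
                indicator_nonneg (fun z hz => hf0 z (hAF hz)) z
              linarith
            · have h1 : A.indicator (fun z => ρ z * v z ^ 2) z = ρ z * v z ^ 2 :=
                indicator_of_mem (show z ∈ A from ⟨hz.2.2.2.2, hzA⟩) _
              rw [h1]
              have h2 := Finset.sum_nonneg hnn
              linarith
          · refine Integrable.add ?_ ?_
            · refine integrable_finsetSum _ fun p hp => ?_
              exact hfi.indicator (hsm p)
            · exact hfi.indicator hAm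
        · refine integrable_finsetSum _ fun p hp => ?_
          exact hfi.indicator (hsm p)
        · exact hfi.indicator hAm
        · intro p hp
          exact hfi.indicator (hsm p)
      have hdis : ∑ p ∈ MS W m, ∫ z in sqr m p, gr v z ≤ ∫ z in FR W, gr v z :=
        DIS hmpos (fun z _ => hg0 z) hgi
      have hAle : ∫ z in A, gr v z ≤ ∫ z in FR W, gr v z :=
        setIntegral_mono_set hgi (Eventually.of_forall fun z => hg0 z) hAF.eventuallyLE
      have hsum : ∑ p ∈ MS W m, (L * ∫ z in sqr m p, ρ z * v z ^ 2) ≤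
          ∑ p ∈ MS W m, (∫ z in sqr m p, gr v z) +
            ∑ p : {p // p ∈ MS W m}, ∑ j, (∫ z in FR W, v z * g p j z) ^ 2 := by
        rw [← Finset.sum_coe_sort (MS W m) (fun p => L * ∫ z in sqr m p, ρ z * v z ^ 2),
          ← Finset.sum_coe_sort (MS W m) (fun p => ∫ z in sqr m p, gr v z),
          ← Finset.sum_add_distrib]
        refine Finset.sum_le_sum fun p _ => ?_
        have := hg p v hv
        rwa [one_mul] at this
      have hcol := hgc v hv
      rw [Fintype.sum_sum_type, Fintype.sum_sigma]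
      simp only [Sum.elim_inl, Sum.elim_inr]
      calc L * ∫ z in FR W, ρ z * v z ^ 2 ≤
          L * (∑ p ∈ MS W m, (∫ z in sqr m p, ρ z * v z ^ 2) + ∫ z in A, ρ z * v z ^ 2) :=
            mul_le_mul_of_nonneg_left hcov hL0.le
        _ = ∑ p ∈ MS W m, (L * ∫ z in sqr m p, ρ z * v z ^ 2) +
              L * ∫ z in A, ρ z * v z ^ 2 := by rw [mul_add, Finset.mul_sum]
        _ ≤ (∑ p ∈ MS W m, (∫ z in sqr m p, gr v z) +
            ∑ p : {p // p ∈ MS W m}, ∑ j, (∫ z in FR W, v z * g p j z) ^ 2) +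
            (η * (∫ z in A, gr v z) + ∑ j, (∫ z in FR W, v z * gc j z) ^ 2) :=
            add_le_add hsum hcol
        _ ≤ _ := by nlinarith

end

end Pool.Agent.Lib_helper95.EQW.WU

end

/-! ## Lib_helper95.EQW.P4 -/

section

/-!
# EQW: proved blocks, level 4
-/

namespace Pool.Agent.Lib_helper95.EQW

alias WU := WU.WU

end Pool.Agent.Lib_helper95.EQW

end

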