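import Mathlib
import Pool.Agent.Lib_helper71.EQM.SpA
import Pool.Agent.Lib_helper71.EQM.SpB
import Pool.Agent.Lib_helper71.EQM.SpC
import Pool.Agent.Lib_helper71.EQM.WeylG

/-! Project EQ (MP_ed6ab2_an): merged modules Lib_helper98.EQSF.WUP, Lib_helper98.EQSF.HUP, Lib_helper98.EQSF.RELL, Lib_helper98.EQSF.WLO. -/

set_option autoImplicit false

/-! ## Lib_helper98.EQSF.WUP -/

section

set_option autoImplicit false

namespace Pool.Agent.EQ.SP

open MeasureTheory Filter Topology Set Pool.Agent.EQ Pool.Agent.Lib_helper95.EQW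
open scoped ContDiff

noncomputable section

theorem WUP_FR_eq (W : ℕ) : FR W = FF W := by
  ext z
  constructor
  · rintro ⟨h1, h2, h3, h4, h5⟩; exact ⟨⟨h1, h2, h3, h4⟩, h5⟩
  · rintro ⟨⟨h1, h2, h3, h4⟩, h5⟩; exact ⟨h1, h2, h3, h4, h5⟩

variable {W : ℕ} [hW : Fact (8 ≤ W)]

theorem WUP_C1N {f : ℂ → ℝ} (hf : IsCore W f) : C1N (FR W) f := by
  obtain ⟨-, r, -, hr1, hs, -⟩ := hf
  refine ⟨UU W r, isOpen_UU W r, ?_, hs.of_le (by exact_mod_cast le_top)⟩
  rw [WUP_FR_eq]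
  exact FF_subset_UU hW.out hr1

theorem weyl_upper {ρ : ℂ → ℝ} (hρ : ContinuousOn ρ (FF W)) (hpos : ∀ z ∈ FF W, 0 < ρ z)
    {ε : ℝ} (hε : 0 < ε) : ∃ L0 : ℝ, ∀ L ≥ L0, ∃ (N : ℕ) (l : Fin N → (HV W →L[ℝ] ℝ)),
      (N : ℝ) ≤ ((∫ z in FF W, ρ z) / (4 * Real.pi) + ε) * L ∧
      ∀ u : HV W, L * bform W ρ hρ u u ≤ eform W u u + ∑ i, (l i u) ^ 2 := by
  have hρ' : ContinuousOn ρ (FR W) := by rw [WUP_FR_eq]; exact hρ
  have hpos' : ∀ z ∈ FR W, 0 < ρ z := by rw [WUP_FR_eq]; exact hpos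
  set A : ℝ := (∫ z in FF W, ρ z) / (4 * Real.pi) with hA
  have hA0 : 0 ≤ A := div_nonneg
    (setIntegral_nonneg (measurableSet_FF W) (fun z hz => (hpos z hz).le)) (by positivity)
  have hden : 0 < A + ε / 2 := by linarith
  set η : ℝ := (ε / 2) / (A + ε / 2) with hη
  have hη0 : 0 < η := div_pos (by linarith) hden
  obtain ⟨L1, hL1⟩ := WU hW.out hρ' hpos' (half_pos hε) hη0
  refine ⟨max L1 0, fun L hL => ?_⟩
  have hLL1 : L1 ≤ L := (le_max_left _ _).trans hL
  have hL0 : 0 ≤ L := (le_max_right _ _).trans hL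
  have h1η : 1 ≤ 1 + η := by linarith
  obtain ⟨N, hN, g, hgm, ⟨C, hgC⟩, hg⟩ := hL1 ((1 + η) * L) (by nlinarith)
  have hmem : ∀ j, MemLp (g j) 2 (mu W) := fun j => memLp_bdd (hgm j) (fun z _ => hgC j z)
  refine ⟨N, fun j => lin W (g j) (hmem j), ?_, ?_⟩
  · refine hN.trans ?_
    rw [WUP_FR_eq, ← hA]
    have e : (A + ε / 2) * (1 + η) = A + ε := by
      rw [hη]; field_simp; ring
    calc (A + ε / 2) * ((1 + η) * L) = ((A + ε / 2) * (1 + η)) * L := by ring
      _ = (A + ε) * L := by rw [e]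
      _ ≤ (A + ε) * L := le_refl _
  · refine HV.closure_induction ?_ ?_
    · have hb : Continuous fun u : HV W => bform W ρ hρ u u :=
        (continuous_bform ρ hρ).comp (continuous_id.prodMk continuous_id)
      have he : Continuous fun u : HV W => eform W u u :=
        continuous_eform.comp (continuous_id.prodMk continuous_id)
      exact isClosed_le (hb.const_mul _ ) (he.add (continuous_finsetSum _
        (fun i _ => ((lin W (g i) (hmem i)).continuous).pow 2)))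
    · intro f
      have h := hg f.1 (WUP_C1N f.2)
      rw [WUP_FR_eq] at h
      have e1 : ∫ z in FF W, ρ z * f.1 z ^ 2 = bform W ρ hρ (J W f) (J W f) := by
        rw [bform_J]; congr 1; ext z; ring
      have e2 : ∫ z in FF W, gr f.1 z = eform W (J W f) (J W f) := by
        rw [eform_J]; congr 1; ext z; simp only [gr]; ring
      have e3 : ∀ j, ∫ z in FF W, f.1 z * g j z = lin W (g j) (hmem j) (J W f) := by
        intro j
        rw [lin_J]; congr 1; ext z; ring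
      rw [e1, e2] at h
      simp only [e3] at h
      have hS : 0 ≤ ∑ j, (lin W (g j) (hmem j) (J W f)) ^ 2 :=
        Finset.sum_nonneg fun _ _ => sq_nonneg _
      have h2 : (1 + η) * (L * bform W ρ hρ (J W f) (J W f)) ≤
          (1 + η) * (eform W (J W f) (J W f) + ∑ j, (lin W (g j) (hmem j) (J W f)) ^ 2) := by
        nlinarith
      exact le_of_mul_le_mul_left h2 (by linarith)

end

end Pool.Agent.EQ.SP

end

/-! ## Lib_helper98.EQSF.HUP -/

section

/-! MP_ed6ab2_an, project EQ, package S2, block HUP. -/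

set_option autoImplicit false

namespace Pool.Agent.EQ.SP

open MeasureTheory Filter Topology Set Pool.Agent.EQ
open scoped ContDiff

noncomputable section

variable {W : ℕ} [hW : Fact (8 ≤ W)]

/-- B23 HUP. -/
theorem weyl_hup {ρ : ℂ → ℝ} (hρ : ContinuousOn ρ (FF W)) (hpos : ∀ z ∈ FF W, 0 < ρ z) :
    ∀ ε > (0:ℝ), ∃ L0 : ℝ, ∀ L ≥ L0, ∀ S : Submodule ℝ (HV W), FiniteDimensional ℝ S →
      (∀ w ∈ S, eform W w w ≤ L * bform W ρ hρ w w) →
      (Module.finrank ℝ S : ℝ) ≤ ((∫ z in FF W, ρ z) / (4 * Real.pi) + ε) * L := by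
  intro ε hε
  set c : ℝ := (∫ z in FF W, ρ z) / (4 * Real.pi) with hc
  have hc0 : 0 ≤ c := by
    apply div_nonneg
    · exact setIntegral_nonneg (measurableSet_FF W) fun z hz => (hpos z hz).le
    · positivity
  obtain ⟨L0, hL0⟩ := weyl_upper hρ hpos (half_pos hε)
  have hd : 0 < c + ε / 2 := by positivity
  set e : ℝ := (ε / 2) / (c + ε / 2) with he
  have he0 : 0 < e := by positivity
  have hmul : (c + ε / 2) * (1 + e) = c + ε := by
    rw [he]
    field_simp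
    ring
  refine ⟨max L0 1, fun L hL S hS hw => ?_⟩
  have hL1 : 1 ≤ L := (le_max_right _ _).trans hL
  have hLL : L0 ≤ (1 + e) * L := by
    have h1 : L0 ≤ L := (le_max_left _ _).trans hL
    nlinarith
  obtain ⟨N, l, hN, hl⟩ := hL0 _ hLL
  have hinj : Function.Injective
      ((LinearMap.pi fun i => (l i : HV W →ₗ[ℝ] ℝ)).comp S.subtype) := by
    rw [← LinearMap.ker_eq_bot, LinearMap.ker_eq_bot']
    rintro ⟨u, hu⟩ h
    have h0 : ∀ i, l i u = 0 := fun i => congrFun h i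
    have h1 := hl u
    have h2 := hw u hu
    have h3 : ∑ i, (l i u) ^ 2 = 0 := Finset.sum_eq_zero fun i _ => by rw [h0 i]; ring
    rw [h3, add_zero] at h1
    have h4 : u = 0 := by
      by_contra hne
      have h5 := bform_pos hρ hpos u hne
      have h6 : 0 < e * L * bform W ρ hρ u u := by positivity
      nlinarith
    exact Subtype.ext h4
  have hfr := LinearMap.finrank_le_finrank_of_injective hinj
  rw [Module.finrank_fin_fun] at hfr
  have hfr' : (Module.finrank ℝ S : ℝ) ≤ N := by exact_mod_cast hfr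
  calc (Module.finrank ℝ S : ℝ) ≤ N := hfr'
    _ ≤ (c + ε / 2) * ((1 + e) * L) := hN
    _ = (c + ε) * L := by rw [← mul_assoc, hmul]

end

end Pool.Agent.EQ.SP

end

/-! ## Lib_helper98.EQSF.RELL -/

section

/-! Block RELL of project EQ (MP_ed6ab2_an): Rellich's compactness from the upper Weyl bound. -/

set_option autoImplicit false

namespace Pool.Agent.EQ.SP

open MeasureTheory Filter Topology Set Pool.Agent.EQ
open scoped ContDiff

noncomputable section

variable {W : ℕ} [hW : Fact (8 ≤ W)]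

theorem RELL_four_mem : (4:ℂ) ∈ FF W := by
  have hW' : (8:ℝ) ≤ W := by exact_mod_cast hW.out
  refine ⟨⟨by norm_num, by norm_num, by norm_num, ?_⟩, by norm_num⟩
  show (4:ℂ).im ≤ (W:ℝ) - 4
  have : (4:ℂ).im = 0 := by norm_num
  linarith

theorem RELL_norm_bound {ρ : ℂ → ℝ} (hρ : ContinuousOn ρ (FF W)) (hpos : ∀ z ∈ FF W, 0 < ρ z) :
    ∃ C : ℝ, 0 ≤ C ∧ ∀ u : HV W, eform W u u + bform W ρ hρ u u ≤ 1 → ‖u‖ ≤ C := by
  obtain ⟨z0, hz0, hmin⟩ := (isCompact_FF W).exists_isMinOn ⟨4, RELL_four_mem⟩ hρ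
  have hc : 0 < ρ z0 := hpos z0 hz0
  refine ⟨√(1 + (ρ z0)⁻¹), Real.sqrt_nonneg _, fun u hu => ?_⟩
  have h1 : bform W (fun _ => ρ z0) continuousOn_const u u ≤ bform W ρ hρ u u :=
    bform_mono continuousOn_const hρ (fun z hz => hmin hz) u
  have h2 : bform W (fun _ => ρ z0) continuousOn_const u u =
      ρ z0 * bform W (fun _ => 1) continuousOn_one u u +
        0 * bform W (fun _ => 1) continuousOn_one u u :=
    bform_add_wt continuousOn_one continuousOn_one continuousOn_const (ρ z0) 0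
      (fun z _ => by simp) u u
  have h3 : 0 ≤ eform W u u := eform_nonneg u
  have h4 : 0 ≤ bform W ρ hρ u u := bform_nonneg hρ (fun z hz => (hpos z hz).le) u
  have h5 : bform W (fun _ => 1) continuousOn_one u u ≤ (ρ z0)⁻¹ := by
    rw [← one_div, le_div_iff₀ hc]
    nlinarith
  apply Real.le_sqrt_of_sq_le
  rw [norm_sq_HV]
  linarith

/-- B22 RELLICH. -/
theorem rellich {ρ : ℂ → ℝ} (hρ : ContinuousOn ρ (FF W)) (hpos : ∀ z ∈ FF W, 0 < ρ z)
    (u : ℕ → HV W) (hu : ∀ n, eform W (u n) (u n) + bform W ρ hρ (u n) (u n) ≤ 1) :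
    ∃ φ : ℕ → ℕ, StrictMono φ ∧ ∀ ε > 0, ∃ N, ∀ m ≥ N, ∀ n ≥ N,
      bform W ρ hρ (u (φ m) - u (φ n)) (u (φ m) - u (φ n)) < ε := by
  obtain ⟨L0, hL0⟩ := weyl_upper hρ hpos (ε := 1) one_pos
  have hk : ∀ k : ℕ, ∃ (N : ℕ) (l : Fin N → (HV W →L[ℝ] ℝ)),
      ∀ u : HV W, (max L0 (k + 1)) * bform W ρ hρ u u ≤ eform W u u + ∑ i, (l i u) ^ 2 := by
    intro k
    obtain ⟨N, l, -, h⟩ := hL0 (max L0 (k + 1)) (le_max_left _ _)
    exact ⟨N, l, h⟩
  choose N l hl using hk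
  obtain ⟨C, hC0, hC⟩ := RELL_norm_bound hρ hpos
  -- the common subsequence
  let x : ℕ → (Σ k : ℕ, Fin (N k)) → ℝ := fun n i => l i.1 i.2 (u n)
  have hcpt : IsCompact (Set.pi univ fun i : (Σ k : ℕ, Fin (N k)) =>
      Icc (-(‖l i.1 i.2‖ * C)) (‖l i.1 i.2‖ * C)) := isCompact_univ_pi fun _ => isCompact_Icc
  have hx : ∀ n, x n ∈ Set.pi univ fun i : (Σ k : ℕ, Fin (N k)) =>
      Icc (-(‖l i.1 i.2‖ * C)) (‖l i.1 i.2‖ * C) := by
    intro n i _
    have h1 : ‖l i.1 i.2 (u n)‖ ≤ ‖l i.1 i.2‖ * ‖u n‖ := (l i.1 i.2).le_opNorm _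
    have h2 : ‖l i.1 i.2‖ * ‖u n‖ ≤ ‖l i.1 i.2‖ * C :=
      mul_le_mul_of_nonneg_left (hC _ (hu n)) (l i.1 i.2).opNorm_nonneg
    exact abs_le.1 (h1.trans h2)
  obtain ⟨a, -, φ, hφ, hlim⟩ := hcpt.tendsto_subseq hx
  refine ⟨φ, hφ, fun ε hε => ?_⟩
  obtain ⟨k, hk⟩ := exists_nat_gt (5 / ε)
  -- the finite sum tends to zero
  have hconv : Tendsto (fun q : ℕ × ℕ => ∑ i, (l k i (u (φ q.1)) - l k i (u (φ q.2))) ^ 2)
      (atTop ×ˢ atTop) (𝓝 0) := by
    have h0 : (0:ℝ) = ∑ i : Fin (N k), (a ⟨k, i⟩ - a ⟨k, i⟩) ^ 2 := by simp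
    rw [h0]
    refine tendsto_finsetSum _ fun i _ => ?_
    have h1 : Tendsto (fun n => l k i (u (φ n))) atTop (𝓝 (a ⟨k, i⟩)) :=
      (tendsto_pi_nhds.1 hlim) ⟨k, i⟩
    exact ((h1.comp tendsto_fst).sub (h1.comp tendsto_snd)).pow 2
  have hev : ∀ᶠ q : ℕ × ℕ in atTop ×ˢ atTop,
      ∑ i, (l k i (u (φ q.1)) - l k i (u (φ q.2))) ^ 2 < 1 :=
    hconv.eventually (gt_mem_nhds one_pos)
  rw [prod_atTop_atTop_eq, eventually_atTop] at hev
  obtain ⟨⟨n1, n2⟩, hn⟩ := hev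
  refine ⟨max n1 n2, fun m hm n hn' => ?_⟩
  have hs := hn (m, n) ⟨(le_max_left _ _).trans hm, (le_max_right _ _).trans hn'⟩
  have hb := hl k (u (φ m) - u (φ n))
  have hs' : ∑ i, (l k i (u (φ m) - u (φ n))) ^ 2 < 1 := by
    refine lt_of_eq_of_lt (Finset.sum_congr rfl fun i _ => ?_) hs
    rw [map_sub]
  -- the energy of the difference
  have hE : eform W (u (φ m) - u (φ n)) (u (φ m) - u (φ n)) ≤ 4 := by
    have e1 : 0 ≤ eform W (u (φ m) + u (φ n)) (u (φ m) + u (φ n)) := eform_nonneg _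
    have e2 : eform W (u (φ m)) (u (φ m)) ≤ 1 := by
      have := bform_nonneg hρ (fun z hz => (hpos z hz).le) (u (φ m))
      linarith [hu (φ m)]
    have e3 : eform W (u (φ n)) (u (φ n)) ≤ 1 := by
      have := bform_nonneg hρ (fun z hz => (hpos z hz).le) (u (φ n))
      linarith [hu (φ n)]
    have e4 : eform W (u (φ m)) (u (φ n)) = eform W (u (φ n)) (u (φ m)) := eform_comm _ _
    simp only [map_add, map_sub, LinearMap.add_apply, LinearMap.sub_apply] at e1 ⊢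
    linarith
  have hb0 : 0 ≤ bform W ρ hρ (u (φ m) - u (φ n)) (u (φ m) - u (φ n)) :=
    bform_nonneg hρ (fun z hz => (hpos z hz).le) _
  have hk1 : (k:ℝ) + 1 ≤ max L0 (k + 1) := le_max_right _ _
  have h5 : ((k:ℝ) + 1) * bform W ρ hρ (u (φ m) - u (φ n)) (u (φ m) - u (φ n)) < 5 := by
    have := mul_le_mul_of_nonneg_right hk1 hb0
    linarith
  have hk2 : 5 < ε * ((k:ℝ) + 1) := by
    have := (div_lt_iff₀ hε).1 hk
    nlinarith
  have hkp : (0:ℝ) < (k:ℝ) + 1 := by positivity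
  by_contra hcon
  have hcon' := not_lt.1 hcon
  nlinarith [mul_le_mul_of_nonneg_left hcon' hkp.le]

end

end Pool.Agent.EQ.SP

end

/-! ## Lib_helper98.EQSF.WLO -/

section

set_option autoImplicit false

namespace Pool.Agent.EQ.SP

open MeasureTheory Filter Topology Set Pool.Agent.EQ Pool.Agent.Lib_helper95.EQW
open scoped ContDiff

noncomputable section

/-- the open box -/
def WLO_ob (W : ℕ) : Set ℂ := {z : ℂ | (-4 < z.re ∧ z.re < 4) ∧ (-4 < z.im ∧ z.im < W - 4)}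

theorem WLO_ob_open (W : ℕ) : IsOpen (WLO_ob W) := by
  have h1 : IsOpen {z : ℂ | -4 < z.re} := isOpen_lt continuous_const Complex.continuous_re
  have h2 : IsOpen {z : ℂ | z.re < 4} := isOpen_lt Complex.continuous_re continuous_const
  have h3 : IsOpen {z : ℂ | -4 < z.im} := isOpen_lt continuous_const Complex.continuous_im
  have h4 : IsOpen {z : ℂ | z.im < W - 4} := isOpen_lt Complex.continuous_im continuous_const
  exact (h1.inter h2).inter (h3.inter h4)

variable {W : ℕ} [hW : Fact (8 ≤ W)]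

theorem WLO_four_le {z : ℂ} (hz : z ∈ box W) {p : ℤ × ℤ} (hp : p ≠ (0, 0)) :
    4 ≤ ‖z - lat W p‖ := by
  obtain ⟨h1, h2, h3, h4⟩ := hz
  have hW' : (8:ℝ) ≤ W := by exact_mod_cast hW.out
  obtain ⟨m, n⟩ := p
  have hre := Complex.abs_re_le_norm (z - lat W (m, n))
  have him := Complex.abs_im_le_norm (z - lat W (m, n))
  have e1 : (z - lat W (m, n)).re = z.re - 8 * m := by simp [lat]
  have e2 : (z - lat W (m, n)).im = z.im - W * n := by simp [lat]
  rw [e1] at hre; rw [e2] at him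
  rcases lt_trichotomy m 0 with hm | hm | hm
  · have : (m:ℝ) ≤ -1 := by exact_mod_cast (by omega : m ≤ -1)
    have := le_abs_self (z.re - 8 * m)
    nlinarith
  · subst hm
    rcases lt_trichotomy n 0 with hn | hn | hn
    · have : (n:ℝ) ≤ -1 := by exact_mod_cast (by omega : n ≤ -1)
      have := le_abs_self (z.im - W * n)
      nlinarith
    · subst hn
      exact absurd rfl hp
    · have : (1:ℝ) ≤ n := by exact_mod_cast (by omega : 1 ≤ n)
      have := neg_abs_le (z.im - W * n)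
      nlinarith
  · have : (1:ℝ) ≤ m := by exact_mod_cast (by omega : 1 ≤ m)
    have := neg_abs_le (z.re - 8 * m)
    nlinarith

/-- translates of a point of the closed box are not in the open box -/
theorem WLO_not_mem {z : ℂ} (hz : z ∈ box W) {p : ℤ × ℤ} (hp : p ≠ (0, 0)) :
    z + lat W p ∉ WLO_ob W := by
  rintro ⟨⟨a1, a2⟩, a3, a4⟩
  obtain ⟨h1, h2, h3, h4⟩ := hz
  have hW' : (8:ℝ) ≤ W := by exact_mod_cast hW.out
  obtain ⟨m, n⟩ := p
  have e1 : (z + lat W (m, n)).re = z.re + 8 * m := by simp [lat]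
  have e2 : (z + lat W (m, n)).im = z.im + W * n := by simp [lat]
  rw [e1] at a1 a2; rw [e2] at a3 a4
  rcases lt_trichotomy m 0 with hm | hm | hm
  · have : (m:ℝ) ≤ -1 := by exact_mod_cast (by omega : m ≤ -1)
    nlinarith
  · subst hm
    rcases lt_trichotomy n 0 with hn | hn | hn
    · have : (n:ℝ) ≤ -1 := by exact_mod_cast (by omega : n ≤ -1)
      nlinarith
    · subst hn
      exact absurd rfl hp
    · have : (1:ℝ) ≤ n := by exact_mod_cast (by omega : 1 ≤ n)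
      nlinarith
  · have : (1:ℝ) ≤ m := by exact_mod_cast (by omega : 1 ≤ m)
    nlinarith

/-- a smooth function with compact support in the open box, away from the unit disc, is
(up to a null set) a core function -/
theorem WLO_core {φ : ℂ → ℝ} (hφ : ContDiff ℝ ∞ φ) {K : Set ℂ} (hK : IsCompact K)
    (hsub : ∀ z, φ z ≠ 0 → z ∈ K) (hKb : K ⊆ WLO_ob W) (hK1 : ∀ z ∈ K, 1 < ‖z‖) :
    ∃ h : coreSub W, ∀ z ∈ WLO_ob W, emb h.1 z = emb φ z := by
  have hts : tsupport φ ⊆ K := closure_minimal (fun z hz => hsub z hz) hK.isClosed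
  have htest : IsTest (UU W 1) φ := by
    refine ⟨hφ, hK.of_isClosed_subset (isClosed_tsupport _) hts, fun z hz => ?_⟩
    have hzK := hts hz
    have hzb : z ∈ box W := by
      obtain ⟨⟨b1, b2⟩, b3, b4⟩ := hKb hzK
      exact ⟨b1.le, b2.le, b3.le, b4.le⟩
    refine mem_UU_of_le (r' := min 4 ‖z‖) (lt_min (by norm_num) (hK1 z hzK)) ?_
    intro p
    by_cases hp : p = (0, 0)
    · subst hp
      have : z - lat W (0, 0) = z := by apply Complex.ext <;> simp [lat]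
      rw [this]; exact min_le_right _ _
    · exact (min_le_left _ _).trans (WLO_four_le hzb hp)
  obtain ⟨h, -, hh, -⟩ := periodise htest
  refine ⟨h, fun z hz => ?_⟩
  have heq : h.1 =ᶠ[𝓝 z] φ := by
    filter_upwards [(WLO_ob_open W).mem_nhds hz] with w hw
    have hwb : w ∈ box W := by
      obtain ⟨⟨b1, b2⟩, b3, b4⟩ := hw
      exact ⟨b1.le, b2.le, b3.le, b4.le⟩
    rw [hh w, tsum_eq_single (0, 0)]
    · congr 1
      apply Complex.ext <;> simp [lat]
    · intro p hp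
      by_contra hne
      exact WLO_not_mem hwb hp (hKb (hsub _ hne))
  have e0 : h.1 z = φ z := heq.eq_of_nhds
  have e1 : fderiv ℝ h.1 z = fderiv ℝ φ z := heq.fderiv_eq
  simp only [emb, EQ.dx, EQ.dy, e0, e1]

/-- the sine vector -/
def WLO_sv (x0 y0 h : ℝ) (k l : ℕ) (z : ℂ) : E3 :=
  !₂[sn x0 y0 h k l z, snx x0 y0 h k l z, sny x0 y0 h k l z]

theorem WLO_meas (x0 y0 h : ℝ) (k l : ℕ) : Measurable (sn x0 y0 h k l) ∧
    Measurable (snx x0 y0 h k l) ∧ Measurable (sny x0 y0 h k l) := by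
  refine ⟨?_, ?_, ?_⟩ <;>
  · refine Measurable.indicator (Continuous.measurable ?_) (measurableSet_rct _ _ _ _)
    fun_prop

theorem WLO_bdd (x0 y0 h : ℝ) (k l : ℕ) : ∃ C : ℝ, ∀ z, |sn x0 y0 h k l z| ≤ C ∧
    |snx x0 y0 h k l z| ≤ C ∧ |sny x0 y0 h k l z| ≤ C := by
  have hb : ∀ (A : Set ℂ) (c : ℝ) (f g : ℂ → ℝ), (∀ z, |f z| ≤ 1) → (∀ z, |g z| ≤ 1) →
      ∀ z, |A.indicator (fun z => c * (f z * g z)) z| ≤ |c| := by
    intro A c f g hf hg z
    by_cases hz : z ∈ A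
    · rw [indicator_of_mem hz, abs_mul, abs_mul]
      have := mul_le_mul (hf z) (hg z) (abs_nonneg _) zero_le_one
      nlinarith [abs_nonneg c]
    · rw [indicator_of_notMem hz]; simp
  refine ⟨max 1 (max |k * Real.pi / h| |l * Real.pi / h|), fun z => ⟨?_, ?_, ?_⟩⟩
  · have := hb (rct x0 y0 h h) 1 (fun z => Real.sin (k * Real.pi * (z.re - x0) / h))
      (fun z => Real.sin (l * Real.pi * (z.im - y0) / h)) (fun z => Real.abs_sin_le_one _)
      (fun z => Real.abs_sin_le_one _) z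
    simp only [one_mul, abs_one] at this
    exact this.trans (le_max_left _ _)
  · exact (hb (rct x0 y0 h h) (k * Real.pi / h) (fun z => Real.cos (k * Real.pi * (z.re - x0) / h))
      (fun z => Real.sin (l * Real.pi * (z.im - y0) / h)) (fun z => Real.abs_cos_le_one _)
      (fun z => Real.abs_sin_le_one _) z).trans ((le_max_left _ _).trans (le_max_right _ _))
  · exact (hb (rct x0 y0 h h) (l * Real.pi / h) (fun z => Real.sin (k * Real.pi * (z.re - x0) / h))
      (fun z => Real.cos (l * Real.pi * (z.im - y0) / h)) (fun z => Real.abs_sin_le_one _)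
      (fun z => Real.abs_cos_le_one _) z).trans ((le_max_right _ _).trans (le_max_right _ _))

omit hW in
theorem WLO_memLp (x0 y0 h : ℝ) (k l : ℕ) : MemLp (WLO_sv x0 y0 h k l) 2 (mu W) := by
  obtain ⟨m1, m2, m3⟩ := WLO_meas x0 y0 h k l
  obtain ⟨C, hC⟩ := WLO_bdd x0 y0 h k l
  have hm : Measurable (WLO_sv x0 y0 h k l) := by
    have : Measurable (fun z => ![sn x0 y0 h k l z, snx x0 y0 h k l z, sny x0 y0 h k l z]) := by
      rw [measurable_pi_iff]
      intro i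
      fin_cases i
      · exact m1
      · exact m2
      · exact m3
    exact (PiLp.continuous_toLp 2 _).measurable.comp this
  refine MemLp.of_bound hm.aestronglyMeasurable (√(3 * C ^ 2)) (Eventually.of_forall fun z => ?_)
  rw [EuclideanSpace.norm_eq]
  apply Real.sqrt_le_sqrt
  rw [Fin.sum_univ_three]
  obtain ⟨c1, c2, c3⟩ := hC z
  have s1 := sq_le_sq' (abs_le.1 c1).1 (abs_le.1 c1).2
  have s2 := sq_le_sq' (abs_le.1 c2).1 (abs_le.1 c2).2
  have s3 := sq_le_sq' (abs_le.1 c3).1 (abs_le.1 c3).2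
  simp only [WLO_sv, Real.norm_eq_abs, sq_abs]
  simp
  linarith

theorem WLO_sq_geo {m : ℕ} (hm : 0 < m) {p : ℕ × ℕ} (hp : p ∈ MS W m) {δ : ℝ} (hδ : 0 < δ)
    {z : ℂ} (h1 : cx m p + δ ≤ z.re) (h2 : z.re ≤ cx m p + 1 / m - δ)
    (h3 : cy m p + δ ≤ z.im) (h4 : z.im ≤ cy m p + 1 / m - δ) :
    z ∈ WLO_ob W ∧ 1 < ‖z‖ := by
  obtain ⟨hp1, hp2, hp3⟩ := mem_MS.1 hp
  have hm' : (0:ℝ) < m := by exact_mod_cast hm
  have a1 : -4 ≤ cx m p := by
    unfold cx; have : 0 ≤ (p.1:ℝ) / m := by positivity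
    linarith
  have a2 : -4 ≤ cy m p := by
    unfold cy; have : 0 ≤ (p.2:ℝ) / m := by positivity
    linarith
  have a3 : cx m p + 1 / m ≤ 4 := by
    unfold cx
    have : (p.1:ℝ) + 1 ≤ 8 * m := by exact_mod_cast hp1
    have h : ((p.1:ℝ) + 1) / m ≤ 8 := by
      rw [div_le_iff₀ hm']; linarith
    rw [add_div] at h
    linarith
  have a4 : cy m p + 1 / m ≤ W - 4 := by
    unfold cy
    have : (p.2:ℝ) + 1 ≤ W * m := by exact_mod_cast hp2
    have h : ((p.2:ℝ) + 1) / m ≤ W := by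
      rw [div_le_iff₀ hm']; linarith
    rw [add_div] at h
    linarith
  refine ⟨⟨⟨by linarith, by linarith⟩, by linarith, by linarith⟩, ?_⟩
  by_contra hle
  push Not at hle
  have hzs : ∀ w : ℂ, |w.re - z.re| ≤ δ → |w.im - z.im| ≤ δ → w ∈ sqr m p := by
    intro w hw1 hw2
    obtain ⟨b1, b2⟩ := abs_le.1 hw1
    obtain ⟨b3, b4⟩ := abs_le.1 hw2
    exact ⟨by linarith, by linarith, by linarith, by linarith⟩
  have hz0 : 1 ≤ ‖z‖ := hp3 z (hzs z (by simp [hδ.le]) (by simp [hδ.le]))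
  have hz1 : ‖z‖ = 1 := le_antisymm hle hz0
  set t : ℝ := min (1/2) δ with ht
  have ht0 : 0 < t := lt_min (by norm_num) hδ
  have ht1 : t ≤ 1/2 := min_le_left _ _
  have ht2 : t ≤ δ := min_le_right _ _
  have hw : ((1 - t : ℝ) : ℂ) * z ∈ sqr m p := by
    apply hzs
    · have e : (((1 - t : ℝ) : ℂ) * z).re - z.re = -t * z.re := by
        rw [Complex.re_ofReal_mul]; ring
      rw [e, abs_mul, abs_neg, abs_of_pos ht0]
      have := (Complex.abs_re_le_norm z)
      rw [hz1] at this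
      nlinarith [abs_nonneg z.re]
    · have e : (((1 - t : ℝ) : ℂ) * z).im - z.im = -t * z.im := by
        rw [Complex.im_ofReal_mul]; ring
      rw [e, abs_mul, abs_neg, abs_of_pos ht0]
      have := (Complex.abs_im_le_norm z)
      rw [hz1] at this
      nlinarith [abs_nonneg z.im]
  have := hp3 _ hw
  rw [norm_mul, hz1, mul_one, Complex.norm_real, Real.norm_eq_abs,
    abs_of_nonneg (by linarith)] at this
  linarith

theorem WLO_integrable {φ : ℂ → ℝ} (hφ : ContDiff ℝ ∞ φ) (hc : HasCompactSupport φ)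
    (x0 y0 h : ℝ) (k l : ℕ) :
    Integrable (fun z => (φ z - sn x0 y0 h k l z) ^ 2 + (dx φ z - snx x0 y0 h k l z) ^ 2 +
      (dy φ z - sny x0 y0 h k l z) ^ 2) := by
  obtain ⟨m1, m2, m3⟩ := WLO_meas x0 y0 h k l
  obtain ⟨C, hC⟩ := WLO_bdd x0 y0 h k l
  have key : ∀ (f g : ℂ → ℝ), Continuous f → HasCompactSupport f → Measurable g →
      (∀ z, |g z| ≤ C) → (∀ z, z ∉ rct x0 y0 h h → g z = 0) →
      Integrable (fun z => (f z - g z) ^ 2) := by
    intro f g hf hfc hg hgC hg0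
    have hf2 : MemLp f 2 := hf.memLp_of_hasCompactSupport hfc
    have hg2 : MemLp g 2 := by
      have h1 : MemLp (fun _ : ℂ => C) 2 (volume.restrict (rct x0 y0 h h)) := by
        have : IsFiniteMeasure (volume.restrict (rct x0 y0 h h)) :=
          ⟨by rw [Measure.restrict_apply_univ]; exact (isCompact_rct _ _ _ _).measure_lt_top⟩
        exact memLp_const C
      have h2 : MemLp ((rct x0 y0 h h).indicator (fun _ : ℂ => C)) 2 :=
        (memLp_indicator_iff_restrict (measurableSet_rct _ _ _ _)).2 h1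
      refine h2.of_le hg.aestronglyMeasurable (Eventually.of_forall fun z => ?_)
      by_cases hz : z ∈ rct x0 y0 h h
      · rw [indicator_of_mem hz, Real.norm_eq_abs, Real.norm_eq_abs]
        exact (hgC z).trans (le_abs_self C)
      · rw [hg0 z hz]; simp
    exact (hf2.sub hg2).integrable_sq
  have hdx : Continuous (dx φ) := by
    have := (hφ.continuous_fderiv (by simp)).clm_apply continuous_const (g := fun _ => (1:ℂ))
    exact this
  have hdy : Continuous (dy φ) := by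
    have := (hφ.continuous_fderiv (by simp)).clm_apply continuous_const (g := fun _ => Complex.I)
    exact this
  have hcx : HasCompactSupport (dx φ) :=
    (hc.fderiv (𝕜 := ℝ)).comp_left (g := fun L : ℂ →L[ℝ] ℝ => L 1) (by simp)
  have hcy : HasCompactSupport (dy φ) :=
    (hc.fderiv (𝕜 := ℝ)).comp_left (g := fun L : ℂ →L[ℝ] ℝ => L Complex.I) (by simp)
  refine ((key φ _ hφ.continuous hc m1 (fun z => (hC z).1) ?_).add
    (key _ _ hdx hcx m2 (fun z => (hC z).2.1) ?_)).add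
    (key _ _ hdy hcy m3 (fun z => (hC z).2.2) ?_)
  · intro z hz; exact indicator_of_notMem hz _
  · intro z hz; exact indicator_of_notMem hz _
  · intro z hz; exact indicator_of_notMem hz _

/-- the sine vectors are in `HV` -/
theorem WLO_mem {m : ℕ} (hm : 0 < m) {p : ℕ × ℕ} (hp : p ∈ MS W m) {k l : ℕ} (hk : 1 ≤ k)
    (hl : 1 ≤ l) : (WLO_memLp (W := W) (cx m p) (cy m p) (1 / m) k l).toLp _ ∈ HV W := by
  have hm' : (0:ℝ) < 1 / m := by positivity
  obtain ⟨φ, hφ, hφs, hφt⟩ := MEM (x0 := cx m p) (y0 := cy m p) hm' hk hl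
  have hcs : ∀ n, HasCompactSupport (φ n) := by
    intro n
    obtain ⟨δ, hδ, hs⟩ := hφs n
    refine HasCompactSupport.intro (isCompact_rct (cx m p) (cy m p) (1/m) (1/m)) ?_
    intro z hz
    by_contra hne
    obtain ⟨b1, b2, b3, b4⟩ := hs z hne
    exact hz ⟨by linarith, by linarith, by linarith, by linarith⟩
  have hcore : ∀ n, ∃ h : coreSub W, ∀ z ∈ WLO_ob W, emb h.1 z = emb (φ n) z := by
    intro n
    obtain ⟨δ, hδ, hs⟩ := hφs n
    set K : Set ℂ := rct (cx m p + δ) (cy m p + δ) (1 / m - 2 * δ) (1 / m - 2 * δ) with hKdef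
    have hg : ∀ z ∈ K, z ∈ WLO_ob W ∧ 1 < ‖z‖ := by
      rintro z ⟨b1, b2, b3, b4⟩
      exact WLO_sq_geo hm hp hδ b1 (by linarith) b3 (by linarith)
    refine WLO_core (hφ n) (isCompact_rct _ _ _ _) (fun z hz => ?_) (fun z hz => (hg z hz).1)
      (fun z hz => (hg z hz).2)
    obtain ⟨b1, b2, b3, b4⟩ := hs z hz
    exact ⟨b1, by linarith, b3, by linarith⟩
  choose h hh using hcore
  have hcl : IsClosed (HV W : Set (Lp E3 2 (mu W))) := Submodule.isClosed_topologicalClosure _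
  refine hcl.mem_of_tendsto (b := atTop) (f := fun n => ((J W (h n) : HV W) : Lp E3 2 (mu W)))
    ?_ (Eventually.of_forall fun n => (J W (h n)).2)
  rw [tendsto_iff_norm_sub_tendsto_zero]
  have hsq : Tendsto (fun n => ‖((J W (h n) : HV W) : Lp E3 2 (mu W)) -
      (WLO_memLp (W := W) (cx m p) (cy m p) (1 / m) k l).toLp _‖ ^ 2) atTop (𝓝 0) := by
    refine squeeze_zero (fun n => sq_nonneg _) (fun n => ?_) hφt
    rw [← real_inner_self_eq_norm_sq, L2.inner_def]
    have hae : ∀ᵐ z ∂(mu W), inner ℝ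
        ((((J W (h n) : HV W) : Lp E3 2 (mu W)) -
          (WLO_memLp (W := W) (cx m p) (cy m p) (1 / m) k l).toLp _ : Lp E3 2 (mu W)) z)
        ((((J W (h n) : HV W) : Lp E3 2 (mu W)) -
          (WLO_memLp (W := W) (cx m p) (cy m p) (1 / m) k l).toLp _ : Lp E3 2 (mu W)) z) =
        (φ n z - sn (cx m p) (cy m p) (1 / m) k l z) ^ 2 +
        (dx (φ n) z - snx (cx m p) (cy m p) (1 / m) k l z) ^ 2 +
        (dy (φ n) z - sny (cx m p) (cy m p) (1 / m) k l z) ^ 2 := by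
      have hbd : ∀ᵐ z ∂(mu W), z ∈ WLO_ob W := by
        rw [mu, ae_restrict_iff' (measurableSet_FF W), ae_iff]
        refine measure_mono_null ?_ (volume_FF_boundary W)
        intro z hz
        simp only [Classical.not_imp, mem_ofPred_eq] at hz
        exact ⟨hz.1, fun h' => hz.2 ⟨h'.1, h'.2.1⟩⟩
      filter_upwards [Lp.coeFn_sub ((J W (h n) : HV W) : Lp E3 2 (mu W))
        ((WLO_memLp (W := W) (cx m p) (cy m p) (1 / m) k l).toLp _), J_ae (h n),
        (WLO_memLp (W := W) (cx m p) (cy m p) (1 / m) k l).coeFn_toLp, hbd] with z e1 e2 e3 e4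
      rw [e1, Pi.sub_apply, e2, e3, hh n z e4, PiLp.inner_apply, Fin.sum_univ_three]
      simp [emb, WLO_sv]
    rw [integral_congr_ae hae, mu]
    exact setIntegral_le_integral (WLO_integrable (hφ n) (hcs n) _ _ _ _ _)
      (Eventually.of_forall fun z => by positivity)
  have := hsq.sqrt
  simpa [Real.sqrt_sq (norm_nonneg _)] using this

/-- the sine vectors as elements of `HV` -/
def WLO_el {m : ℕ} (hm : 0 < m) {S : Finset ((ℕ × ℕ) × (ℕ × ℕ))}
    (hS : ∀ q ∈ S, q.1 ∈ MS W m ∧ 1 ≤ q.2.1 ∧ 1 ≤ q.2.2) (q : S) : HV W :=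
  ⟨(WLO_memLp (W := W) (cx m q.1.1) (cy m q.1.1) (1 / m) q.1.2.1 q.1.2.2).toLp _,
    WLO_mem hm (hS q.1 q.2).1 (hS q.1 q.2).2.1 (hS q.1 q.2).2.2⟩

theorem WLO_sum_ae {m : ℕ} (hm : 0 < m) {S : Finset ((ℕ × ℕ) × (ℕ × ℕ))}
    (hS : ∀ q ∈ S, q.1 ∈ MS W m ∧ 1 ≤ q.2.1 ∧ 1 ≤ q.2.2) (a : (ℕ × ℕ) × (ℕ × ℕ) → ℝ) :
    ((∑ q : S, a q.1 • WLO_el hm hS q : HV W) : Lp E3 2 (mu W)) =ᵐ[mu W]
      fun z => ∑ q ∈ S, a q • WLO_sv (cx m q.1) (cy m q.1) (1 / m) q.2.1 q.2.2 z := by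
  have h1 : ((∑ q : S, a q.1 • WLO_el hm hS q : HV W) : Lp E3 2 (mu W)) =
      ∑ q : S, a q.1 • ((WLO_el hm hS q : HV W) : Lp E3 2 (mu W)) := by
    rw [Submodule.coe_sum]; rfl
  rw [h1]
  have h2 : ∀ (T : Finset S), ((∑ q ∈ T, a q.1 • ((WLO_el hm hS q : HV W) : Lp E3 2 (mu W)) :
      Lp E3 2 (mu W)) : ℂ → E3) =ᵐ[mu W]
      fun z => ∑ q ∈ T, a q.1 • WLO_sv (cx m q.1.1) (cy m q.1.1) (1 / m) q.1.2.1 q.1.2.2 z := by
    classical
    intro T
    induction T using Finset.induction_on with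
    | empty =>
      simp only [Finset.sum_empty]
      exact Lp.coeFn_zero _ _ _
    | insert q T hq ih =>
      rw [Finset.sum_insert hq]
      filter_upwards [Lp.coeFn_add (a q.1 • ((WLO_el hm hS q : HV W) : Lp E3 2 (mu W)))
        (∑ q ∈ T, a q.1 • ((WLO_el hm hS q : HV W) : Lp E3 2 (mu W))),
        Lp.coeFn_smul (a q.1) ((WLO_el hm hS q : HV W) : Lp E3 2 (mu W)), ih,
        (WLO_memLp (W := W) (cx m q.1.1) (cy m q.1.1) (1 / m) q.1.2.1 q.1.2.2).coeFn_toLp]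
        with z e1 e2 e3 e4
      rw [e1, Pi.add_apply, e2, Pi.smul_apply, e3, Finset.sum_insert hq]
      congr 2
  filter_upwards [h2 Finset.univ] with z hz
  rw [hz, ← Finset.sum_coe_sort S]

theorem weyl_lower {ρ : ℂ → ℝ} (hρ : ContinuousOn ρ (FF W)) (hpos : ∀ z ∈ FF W, 0 < ρ z)
    {ε : ℝ} (hε : 0 < ε) : ∃ L0 : ℝ, ∀ L ≥ L0, ∃ S : Submodule ℝ (HV W),
      FiniteDimensional ℝ S ∧
      ((∫ z in FF W, ρ z) / (4 * Real.pi) - ε) * L ≤ Module.finrank ℝ S ∧
      ∀ u ∈ S, eform W u u ≤ L * bform W ρ hρ u u := by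
  have hρ' : ContinuousOn ρ (FR W) := by rw [WUP_FR_eq]; exact hρ
  have hpos' : ∀ z ∈ FR W, 0 < ρ z := by rw [WUP_FR_eq]; exact hpos
  obtain ⟨m, hm, L0, hL0⟩ := WL hW.out hρ' hpos' hε
  refine ⟨L0, fun L hL => ?_⟩
  obtain ⟨S, hS1, hS2, hS3⟩ := hL0 L hL
  simp only [WUP_FR_eq] at hS2 hS3
  -- forms on combinations
  have hcomb : ∀ a : (ℕ × ℕ) × (ℕ × ℕ) → ℝ,
      eform W (∑ q : S, a q.1 • WLO_el hm hS1 q) (∑ q : S, a q.1 • WLO_el hm hS1 q) =
        (∫ z in FF W, ((∑ q ∈ S, a q * snx (cx m q.1) (cy m q.1) (1 / m) q.2.1 q.2.2 z) ^ 2 +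
          (∑ q ∈ S, a q * sny (cx m q.1) (cy m q.1) (1 / m) q.2.1 q.2.2 z) ^ 2)) ∧
      (∀ (σ : ℂ → ℝ) (hσ : ContinuousOn σ (FF W)),
        bform W σ hσ (∑ q : S, a q.1 • WLO_el hm hS1 q) (∑ q : S, a q.1 • WLO_el hm hS1 q) =
        ∫ z in FF W, σ z *
            (∑ q ∈ S, a q * sn (cx m q.1) (cy m q.1) (1 / m) q.2.1 q.2.2 z) ^ 2) := by
    intro a
    have hae := WLO_sum_ae hm hS1 a
    constructor
    · rw [eform_apply]
      apply integral_congr_ae
      filter_upwards [hae] with z hz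
      rw [hz]
      simp [WLO_sv, sq]
    · intro σ hσ
      rw [bform_apply]
      apply integral_congr_ae
      filter_upwards [hae] with z hz
      rw [hz]
      simp [WLO_sv, sq]
  have hext : ∀ c : S → ℝ, ∃ a : (ℕ × ℕ) × (ℕ × ℕ) → ℝ, ∀ q : S, a q.1 = c q := by
    classical
    intro c
    exact ⟨fun q => if h : q ∈ S then c ⟨q, h⟩ else 0, fun q => by simp⟩
  have hli : LinearIndependent ℝ (WLO_el hm hS1) := by
    rw [Fintype.linearIndependent_iff]
    intro c hc q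
    obtain ⟨a, ha⟩ := hext c
    have h0 : (∑ q : S, a q.1 • WLO_el hm hS1 q) = 0 := by
      rw [← hc]; exact Finset.sum_congr rfl fun q _ => by rw [ha]
    have h1 := (hcomb a).2 (fun _ => 1) continuousOn_one
    rw [h0] at h1
    simp only [map_zero, one_mul] at h1
    rw [← ha]
    exact (hS3 a).2 h1.symm q.1 q.2
  refine ⟨Submodule.span ℝ (range (WLO_el hm hS1)),
    FiniteDimensional.span_of_finite ℝ (Set.finite_range _), ?_, ?_⟩
  · rw [finrank_span_eq_card hli, Fintype.card_coe]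
    exact hS2
  · intro u hu
    obtain ⟨c, rfl⟩ := (Submodule.mem_span_range_iff_exists_fun ℝ).1 hu
    obtain ⟨a, ha⟩ := hext c
    have e : (∑ q : S, c q • WLO_el hm hS1 q) = ∑ q : S, a q.1 • WLO_el hm hS1 q :=
      Finset.sum_congr rfl fun q _ => by rw [ha]
    rw [e, (hcomb a).1, (hcomb a).2 ρ hρ]
    exact (hS3 a).1

end

end Pool.Agent.EQ.SP

end

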