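import Mathlib
import Pool.Agent.Lib_helper71.EQM.Abs
import Pool.Agent.Lib_helper71.EQM.Met
import Pool.Agent.Lib_helper71.EQM.SpA
import Pool.Agent.Lib_helper71.EQM.SpB
import Pool.Agent.Lib_helper71.EQM.SpC
import Pool.Agent.Lib_helper71.EQM.SpD

/-! Project EQ (MP_ed6ab2_an): merged modules Lib_helper98.EQSF.FINAL, Lib_helper71.EQ.FinalA, Lib_helper71.EQ.FinalB. -/

set_option autoImplicit false

/-! ## Lib_helper98.EQSF.FINAL -/

section

/-! Project EQ, package S2: the final theorem from the blocks and ABS. -/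

set_option autoImplicit false

namespace Pool.Agent.EQ.SP

open MeasureTheory Filter Topology Set Pool.Agent.EQ
open scoped ContDiff

noncomputable section

theorem spectral_main : ∃ K0 : ℝ, 0 < K0 ∧ ∀ (W : ℕ) [hW : Fact (8 ≤ W)], 16 ≤ W →
    ∀ (ρ0 φ : ℂ → ℝ), (∀ a ∈ Icc (0:ℝ) 2, IsWt W (fun z => ρ0 z * (1 + a * φ z))) →
      ContinuousOn φ (FF W) → (∀ z ∈ FF W, 0 ≤ φ z) →
      (∀ z ∈ FF W, 4 ≤ z.im → ρ0 z = 1 ∧ φ z = 0) →
      0 < ∫ z in FF W, ρ0 z * φ z →
      ∀ θ : ℝ, 2 * (K0 / W ^ 2) * (1 / (4 * Real.pi)) *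
          ((∫ z in FF W, ρ0 z) + 2 * ∫ z in FF W, ρ0 z * φ z) < θ →
      ∃ a ∈ Icc (1:ℝ) 2, ∃ (f : ℕ → ℂ → ℝ) (lam : ℕ → ℝ), Tendsto lam atTop atTop ∧
        ∀ j, IsCore W (f j) ∧
          (∃ r : ℝ, 0 < r ∧ r < 1 ∧
            ∀ z ∈ UU W r, -lap (f j) z = lam j * (ρ0 z * (1 + a * φ z)) * f j z) ∧
          ∫ z in FF W, (ρ0 z * (1 + a * φ z)) * f j z ^ 2 = 1 ∧
          ∫ z in FF W, (ρ0 z * φ z) * f j z ^ 2 ≤
            θ * (∫ z in FF W, ρ0 z * φ z) /
              ((∫ z in FF W, ρ0 z) + a * ∫ z in FF W, ρ0 z * φ z) := by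
  obtain ⟨K0, hK0, hQ⟩ := quasimodes
  refine ⟨K0, hK0, ?_⟩
  intro W hW hW16 ρ0 φ hwt hφc hφ0 hcyl hβ θ hθ
  have hwt0 : IsWt W ρ0 := by
    have h := hwt 0 ⟨le_refl _, by norm_num⟩
    have e : (fun z => ρ0 z * (1 + 0 * φ z)) = ρ0 := by ext z; ring
    rwa [e] at h
  have c0 : ContinuousOn ρ0 (FF W) := hwt0.continuousOn
  have c1 : ContinuousOn (fun z => ρ0 z * φ z) (FF W) := c0.mul hφc
  have ca : ∀ a ∈ Icc (0:ℝ) 2, ContinuousOn (fun z => ρ0 z * (1 + a * φ z)) (FF W) :=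
    fun a ha => (hwt a ha).continuousOn
  have pa : ∀ a ∈ Icc (0:ℝ) 2, ∀ z ∈ FF W, 0 < ρ0 z * (1 + a * φ z) := by
    intro a ha z hz
    obtain ⟨r, -, hr1, -, hp, -⟩ := (hwt a ha).ex
    exact hp z (FF_subset_UU hW.out hr1 hz)
  have p0 : ∀ z ∈ FF W, 0 < ρ0 z := by
    intro z hz
    have := pa 0 ⟨le_refl _, by norm_num⟩ z hz
    simpa using this
  have ba : ∀ a (ha : a ∈ Icc (0:ℝ) 2) (u v : HV W),
      bform W (fun z => ρ0 z * (1 + a * φ z)) (ca a ha) u v =
        bform W ρ0 c0 u v + a * bform W (fun z => ρ0 z * φ z) c1 u v := by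
    intro a ha u v
    have h := bform_add_wt c0 c1 (ca a ha) 1 a (fun z _ => by ring) u v
    rw [one_mul] at h
    exact h
  have i0 : IntegrableOn ρ0 (FF W) := c0.integrableOn_compact (isCompact_FF W)
  have i1 : IntegrableOn (fun z => ρ0 z * φ z) (FF W) := c1.integrableOn_compact (isCompact_FF W)
  have ia : ∀ a : ℝ, ∫ z in FF W, ρ0 z * (1 + a * φ z) =
      (∫ z in FF W, ρ0 z) + a * ∫ z in FF W, ρ0 z * φ z := by
    intro a
    rw [← integral_const_mul, ← integral_add i0 (i1.const_mul a)]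
    congr 1
    ext z
    ring
  obtain ⟨C, hC⟩ := (isCompact_FF W).exists_bound_of_continuousOn hφc
  obtain ⟨q, -, hq0, hq⟩ := hQ W hW16
  have hα : 0 ≤ ∫ z in FF W, ρ0 z :=
    setIntegral_nonneg (measurableSet_FF W) (fun z hz => (p0 z hz).le)
  have key := abs_main (eform W) (bform W ρ0 c0) (bform W (fun z => ρ0 z * φ z) c1)
    eform_comm (bform_comm ρ0 c0) (bform_comm _ c1) eform_nonneg (bform_pos c0 p0)
    (bform_nonneg c1 (fun z hz => mul_nonneg (p0 z hz).le (hφ0 z hz)))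
    C (by
      intro v
      have cC : ContinuousOn (fun z => C * ρ0 z) (FF W) := c0.const_smul C
      have h1 := bform_mono c1 cC (fun z hz => by
        have h := hC z hz
        rw [Real.norm_eq_abs, abs_of_nonneg (hφ0 z hz)] at h
        have := mul_le_mul_of_nonneg_left h (p0 z hz).le
        linarith) v
      have h2 := bform_add_wt c0 c0 cC C 0 (fun z _ => by ring) v v
      rw [h2] at h1
      simpa using h1)
    (form_complete c0 p0) (rellich c0 p0)
    (1 / (4 * Real.pi)) (∫ z in FF W, ρ0 z) (∫ z in FF W, ρ0 z * φ z) (K0 / W ^ 2) θ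
    (by positivity) hα hβ (by positivity) hθ
    (by
      intro ε hε
      have h1 : (1:ℝ) ∈ Icc (0:ℝ) 2 := ⟨by norm_num, by norm_num⟩
      obtain ⟨L0, hL0⟩ := weyl_lower (ca 1 h1) (pa 1 h1) hε
      refine ⟨L0, fun L hL => ?_⟩
      obtain ⟨S, hS1, hS2, hS3⟩ := hL0 L hL
      refine ⟨S, hS1, ?_, ?_⟩
      · rw [ia 1] at hS2
        refine le_trans (le_of_eq ?_) hS2
        ring
      · intro w hw
        have := hS3 w hw
        rwa [ba 1 h1] at this)
    (by
      intro ε hε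
      have h2 : (2:ℝ) ∈ Icc (0:ℝ) 2 := ⟨by norm_num, by norm_num⟩
      obtain ⟨L0, hL0⟩ := weyl_hup (ca 2 h2) (pa 2 h2) ε hε
      refine ⟨L0, fun L hL S hS hSw => ?_⟩
      have := hL0 L hL S hS (by
        intro w hw
        rw [ba 2 h2]
        exact hSw w hw)
      rw [ia 2] at this
      refine le_trans this (le_of_eq ?_)
      ring)
    (fun n => (Real.pi * (n + 1) / 4) ^ 2)
    (by
      have h1 : Tendsto (fun n : ℕ => Real.pi * ((n:ℝ) + 1) / 4) atTop atTop := by
        have h2 : Tendsto (fun n : ℕ => ((n:ℝ) + 1)) atTop atTop :=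
          tendsto_atTop_add_const_right _ _ tendsto_natCast_atTop_atTop
        exact (h2.const_mul_atTop Real.pi_pos).atTop_div_const (by norm_num)
      exact (tendsto_pow_atTop (by norm_num : (2:ℕ) ≠ 0)).comp h1)
    (fun n => J W (q n)) hq0
    (by
      intro n a ha f
      have ha' : a ∈ Icc (0:ℝ) 2 := ⟨by linarith [ha.1], ha.2⟩
      have h := hq _ (ca a ha') (pa a ha') (fun z hz h4 => by
        obtain ⟨e1, e2⟩ := hcyl z hz h4
        rw [e1, e2]; ring) n f
      rw [ba a ha', ba a ha', ba a ha'] at h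
      exact h)
  obtain ⟨a, ha, ψ, lam, hlam, hψ⟩ := key
  have ha' : a ∈ Icc (0:ℝ) 2 := ⟨by linarith [ha.1], ha.2⟩
  have hreg : ∀ j, ∃ f : coreSub W, J W f = ψ j ∧ ∃ r : ℝ, 0 < r ∧ r < 1 ∧
      ∀ z ∈ UU W r, -lap f.1 z = lam j * (ρ0 z * (1 + a * φ z)) * f.1 z := by
    intro j
    refine regularity_bridge (hwt a ha') (ψ j) (lam j) ?_
    intro v
    have h := (hψ j).1 v
    rw [h]
    congr 1
    exact (ba a ha' _ _).symm
  choose f hf1 hf2 using hreg
  refine ⟨a, ha, fun j => (f j).1, lam, hlam, fun j => ⟨(f j).2, hf2 j, ?_, ?_⟩⟩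
  · have h := (hψ j).2.1
    rw [← hf1 j, ← ba a ha', bform_J] at h
    refine Eq.trans ?_ h
    congr 1
    ext z
    ring
  · have h := (hψ j).2.2
    rw [← hf1 j, bform_J] at h
    refine le_trans (le_of_eq ?_) h
    congr 1
    ext z
    ring

end

end Pool.Agent.EQ.SP

end

/-! ## Lib_helper71.EQ.FinalA -/

section

/-! Project EQ: the spectral theorem applied to the family of profiles. -/

set_option autoImplicit false

namespace Pool.Agent.EQ
open MeasureTheory Filter Topology Set SP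
open scoped ContDiff

noncomputable section

/-- the neighbourhood of the circles -/
def DD (W : ℕ) : Set ℂ := {z | dl W z < Real.exp (1 / 4)}

/-- the weight `e^{2u}` is admissible -/
theorem isWt_exp {F : ℝ → ℝ} (hF : Prof F) (W : ℕ) (hW : 8 ≤ W) :
    IsWt W (fun z => Real.exp (2 * uE F W z)) := by
  refine ⟨fun p z => by rw [uE_add], 1 / 2, by norm_num, by norm_num, ?_,
    fun z _ => Real.exp_pos _, ?_⟩
  · intro z hz
    have h0 : 0 < dl W z := lt_trans (by norm_num) (show (1/2 : ℝ) < dl W z from hz)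
    exact ((contDiffAt_const.mul (uE_smooth hF hW h0)).exp).contDiffWithinAt
  · intro z h1 h2
    have e0 : lat W (0, 0) = 0 := by apply Complex.ext <;> simp [lat]
    have h3 := uE_inv hF hW (z := z) (p := (0, 0)) (by rw [e0, sub_zero]; linarith)
      (by rw [e0, sub_zero]; norm_num at h2; linarith)
    rw [e0, sub_zero] at h3
    have e1 : invl 0 z = inv1 z := by simp [invl, inv1]
    rw [e1] at h3
    have hz : 0 < ‖z‖ := by linarith
    rw [h3]
    have : 2 * (uE F W z + 2 * Real.log ‖z‖) = (4 : ℕ) * Real.log ‖z‖ + 2 * uE F W z := by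
      push_cast; ring
    rw [this, Real.exp_add, Real.exp_nat_mul, Real.exp_log hz]

theorem rho_a (F φ : ℝ → ℝ) (hφ : ∀ t, 0 ≤ φ t) (W : ℕ) (a : ℝ) (ha : 0 ≤ a) (z : ℂ) :
    Real.exp (2 * uE (fun t => F t + (1 / 2) * Real.log (1 + a * φ t)) W z) =
      Real.exp (2 * uE F W z) * (1 + a * φ (Real.log (dl W z))) := by
  have h1 : 0 < 1 + a * φ (Real.log (dl W z)) := by
    have := mul_nonneg ha (hφ (Real.log (dl W z))); linarith
  have : 2 * uE (fun t => F t + (1 / 2) * Real.log (1 + a * φ t)) W z =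
      2 * uE F W z + Real.log (1 + a * φ (Real.log (dl W z))) := by
    simp only [uE]; ring
  rw [this, Real.exp_add, Real.exp_log h1]

/-- points of the box are at distance at least `4` from the other lattice points -/
theorem box_far {W : ℕ} (hW : 8 ≤ W) {z : ℂ} (hz : z ∈ box W) {p : ℤ × ℤ} (hp : p ≠ (0, 0)) :
    4 ≤ ‖z - lat W p‖ := by
  obtain ⟨h1, h2, h3, h4⟩ := hz
  have hW' : (8:ℝ) ≤ W := by exact_mod_cast hW
  obtain ⟨m, n⟩ := p
  have e1 : (z - lat W (m, n)).re = z.re - 8 * m := by simp [lat]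
  have e2 : (z - lat W (m, n)).im = z.im - W * n := by simp [lat]
  have hre := Complex.abs_re_le_norm (z - lat W (m, n))
  have him := Complex.abs_im_le_norm (z - lat W (m, n))
  rw [e1] at hre; rw [e2] at him
  rcases lt_trichotomy m 0 with hm | hm | hm
  · have : (m:ℝ) ≤ -1 := by exact_mod_cast (by omega : m ≤ -1)
    have := le_abs_self (z.re - 8 * m)
    linarith
  · subst hm
    rcases lt_trichotomy n 0 with hn | hn | hn
    · have : (n:ℝ) ≤ -1 := by exact_mod_cast (by omega : n ≤ -1)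
      have := le_abs_self (z.im - W * n)
      nlinarith
    · exact absurd (by rw [hn]) hp
    · have : (1:ℝ) ≤ n := by exact_mod_cast (by omega : 1 ≤ n)
      have := neg_abs_le (z.im - W * n)
      nlinarith
  · have : (1:ℝ) ≤ m := by exact_mod_cast (by omega : 1 ≤ m)
    have := neg_abs_le (z.re - 8 * m)
    linarith

theorem dl_box {W : ℕ} (hW : 8 ≤ W) {z : ℂ} (hz : z ∈ box W) (h : dl W z < 4) :
    dl W z = ‖z‖ := by
  have e0 : lat W (0, 0) = 0 := by apply Complex.ext <;> simp [lat]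
  rcases dl_cases (W := W) z with ⟨p, hp⟩ | h4
  · by_cases h0 : p = (0, 0)
    · subst h0
      rw [dl_eq hW hp.le, e0, sub_zero]
    · exact absurd (box_far hW hz h0) (not_le.2 hp)
  · linarith

theorem dl_FF {W : ℕ} (hW : 8 ≤ W) {z : ℂ} (hz : z ∈ FF W) : 1 ≤ dl W z := by
  unfold dl
  rw [Metric.le_infDist (range_nonempty _)]
  rintro _ ⟨p, rfl⟩
  rw [dist_eq_norm]
  exact one_le_of_mem_FF hW hz p

theorem dl_top {W : ℕ} (hW : 8 ≤ W) {z : ℂ} (hz : z ∈ FF W) (h : 4 ≤ z.im) : 4 ≤ dl W z := by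
  unfold dl
  rw [Metric.le_infDist (range_nonempty _)]
  rintro _ ⟨p, rfl⟩
  rw [dist_eq_norm]
  by_cases h0 : p = (0, 0)
  · subst h0
    have e0 : lat W (0, 0) = 0 := by apply Complex.ext <;> simp [lat]
    rw [e0, sub_zero]
    exact h.trans ((le_abs_self _).trans (Complex.abs_im_le_norm z))
  · exact box_far hW hz.1 h0

/-- the annulus `1 ≤ |z| < e^{1/4}` -/
def ann : Set ℂ := {z | 1 ≤ ‖z‖ ∧ ‖z‖ < Real.exp (1 / 4)}

theorem exp_quarter : Real.exp (1 / 4) < 2 := by
  have h1 : Real.exp (1/4) ≤ Real.exp 1 := Real.exp_le_exp.2 (by norm_num)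
  have h2 : Real.exp (1/4) ^ 4 = Real.exp 1 := by
    rw [← Real.exp_nat_mul]; norm_num
  by_contra h
  rw [not_lt] at h
  have h3 : (2:ℝ) ^ 4 ≤ Real.exp (1/4) ^ 4 := pow_le_pow_left₀ (by norm_num) h 4
  have := exp_one_lt_four
  rw [h2] at h3; norm_num at h3; linarith

theorem FF_DD {W : ℕ} (hW : 8 ≤ W) : FF W ∩ DD W = ann := by
  have hW' : (8:ℝ) ≤ W := by exact_mod_cast hW
  ext z
  constructor
  · rintro ⟨h1, h2⟩
    have h3 : dl W z < 4 := lt_trans h2 (by linarith [exp_quarter])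
    have h4 := dl_box hW h1.1 h3
    exact ⟨h1.2, by rw [← h4]; exact h2⟩
  · rintro ⟨h1, h2⟩
    have h5 : ‖z‖ < 2 := h2.trans exp_quarter
    have hr := Complex.abs_re_le_norm z
    have hi := Complex.abs_im_le_norm z
    have hb : z ∈ box W := by
      refine ⟨?_, ?_, ?_, ?_⟩
      · linarith [neg_abs_le z.re]
      · linarith [le_abs_self z.re]
      · linarith [neg_abs_le z.im]
      · linarith [le_abs_self z.im]
    have e0 : lat W (0, 0) = 0 := by apply Complex.ext <;> simp [lat]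
    have h6 : dl W z = ‖z‖ := by
      have := dl_eq hW (z := z) (p := (0, 0)) (by rw [e0, sub_zero]; linarith)
      rw [this, e0, sub_zero]
    exact ⟨⟨hb, h1⟩, by show dl W z < _; rw [h6]; exact h2⟩

theorem measurableSet_ann : MeasurableSet ann := by
  have h1 : IsClosed {z : ℂ | 1 ≤ ‖z‖} := isClosed_le continuous_const continuous_norm
  have h2 : IsOpen {z : ℂ | ‖z‖ < Real.exp (1/4)} := isOpen_lt continuous_norm continuous_const
  exact h1.measurableSet.inter h2.measurableSet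

theorem volume_ann_pos : 0 < volume ann := by
  have h1 : IsOpen {z : ℂ | 1 < ‖z‖ ∧ ‖z‖ < Real.exp (1/4)} :=
    (isOpen_lt continuous_const continuous_norm).inter (isOpen_lt continuous_norm continuous_const)
  have h2 : ({z : ℂ | 1 < ‖z‖ ∧ ‖z‖ < Real.exp (1/4)}).Nonempty := by
    refine ⟨((Real.exp (1/8) : ℝ) : ℂ), ?_, ?_⟩
    · rw [Complex.norm_real, Real.norm_eq_abs, abs_of_pos (Real.exp_pos _)]
      exact Real.one_lt_exp_iff.2 (by norm_num)
    · rw [Complex.norm_real, Real.norm_eq_abs, abs_of_pos (Real.exp_pos _)]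
      exact Real.exp_lt_exp.2 (by norm_num)
  exact lt_of_lt_of_le (h1.measure_pos volume h2) (measure_mono fun z hz => ⟨hz.1.le, hz.2⟩)

theorem volume_ann_top : volume ann < ⊤ := by
  refine lt_of_le_of_lt (measure_mono (t := Metric.ball 0 2) fun z hz => ?_)
    Metric.isBounded_ball.measure_lt_top
  rw [mem_ball_zero_iff]; exact hz.2.trans exp_quarter

theorem volume_box (W : ℕ) : volume (box W) = ENNReal.ofReal (8 * W) := by
  have h : box W = Icc (-4 : ℝ) 4 ×ℂ Icc (-4 : ℝ) (W - 4) := by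
    ext z; simp only [box, mem_ofPred_eq, Complex.mem_reProdIm, mem_Icc]; tauto
  rw [h, ← Complex.volume_preserving_equiv_real_prod.symm.measure_preimage_equiv]
  have h2 : Complex.measurableEquivRealProd.symm ⁻¹' (Icc (-4 : ℝ) 4 ×ℂ Icc (-4 : ℝ) (W - 4)) =
      Icc (-4 : ℝ) 4 ×ˢ Icc (-4 : ℝ) (W - 4) := by
    ext ⟨x, y⟩; simp [Complex.mem_reProdIm]; tauto
  rw [h2, Measure.volume_eq_prod, Measure.prod_prod, Real.volume_Icc, Real.volume_Icc,
    ← ENNReal.ofReal_mul (by norm_num)]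
  congr 1; ring

/-- THE SPECTRAL THEOREM for the family of metrics -/
theorem core_spec (ε : ℝ) (hε : 0 < ε) : ∃ (W : ℕ) (_ : Fact (8 ≤ W)) (F : ℝ → ℝ), Prof F ∧
    ∃ (f : ℕ → ℂ → ℝ) (lam : ℕ → ℝ), Tendsto lam atTop atTop ∧ ∀ j, IsCore W (f j) ∧
      (∃ r : ℝ, 0 < r ∧ r < 1 ∧
        ∀ z ∈ UU W r, -lap (f j) z = lam j * Real.exp (2 * uE F W z) * f j z) ∧
      ∫ z in FF W, Real.exp (2 * uE F W z) * f j z ^ 2 = 1 ∧
      ∫ z in FF W ∩ DD W, Real.exp (2 * uE F W z) * f j z ^ 2 ≤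
        ε * ((∫ z in FF W ∩ DD W, Real.exp (2 * uE F W z)) /
          ∫ z in FF W, Real.exp (2 * uE F W z)) := by
  obtain ⟨F, φ, η, hη, hF, hφs, hφe, hφ0, hφη, hφ1, hφ2, hFa⟩ := exists_prof
  obtain ⟨K0, hK0, hmain⟩ := spectral_main
  -- bound for `u`
  obtain ⟨M, hM⟩ : ∃ M : ℝ, ∀ t, 0 ≤ t → |F t - t| ≤ M := by
    obtain ⟨M, hM⟩ := (isCompact_Icc (a := (0 : ℝ)) (b := 1)).exists_bound_of_continuousOn
      (f := fun t => F t - t) (hF.smooth.continuous.sub continuous_id).continuousOn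
    refine ⟨M, fun t ht => ?_⟩
    by_cases h1 : t ≤ 1
    · exact hM t ⟨ht, h1⟩
    · rw [not_le] at h1
      rw [hF.eq_self h1.le, sub_self, abs_zero]
      exact (norm_nonneg _).trans (hM 0 ⟨le_refl _, zero_le_one⟩)
  have huM : ∀ (W : ℕ), 8 ≤ W → ∀ z ∈ FF W, |uE F W z| ≤ M := fun W hW z hz =>
    hM _ (Real.log_nonneg (dl_FF hW hz))
  have hup : ∀ (W : ℕ), 8 ≤ W → ∀ z ∈ FF W, Real.exp (2 * uE F W z) ≤ Real.exp (2 * M) :=
    fun W hW z hz => Real.exp_le_exp.2 (by have := (abs_le.1 (huM W hW z hz)).2; linarith)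
  have hlo : ∀ (W : ℕ), 8 ≤ W → ∀ z ∈ FF W, Real.exp (-(2 * M)) ≤ Real.exp (2 * uE F W z) :=
    fun W hW z hz => Real.exp_le_exp.2 (by have := (abs_le.1 (huM W hW z hz)).1; linarith)
  set γ0 : ℝ := Real.exp (-(2 * M)) * volume.real ann with hγ0
  have hvann : 0 < volume.real ann := ENNReal.toReal_pos volume_ann_pos.ne' volume_ann_top.ne
  have hγ0pos : 0 < γ0 := by positivity
  set B1 : ℝ := Real.exp (2 * M) * η * volume.real (Metric.ball (0 : ℂ) 4) with hB1
  have hvball : 0 < volume.real (Metric.ball (0 : ℂ) 4) :=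
    ENNReal.toReal_pos (Metric.isOpen_ball.measure_pos volume ⟨0, by simp⟩).ne'
      Metric.isBounded_ball.measure_lt_top.ne
  have hB1pos : 0 < B1 := by positivity
  set θ : ℝ := ε * γ0 * η / ((1 + 2 * η) * B1) with hθ
  have hθpos : 0 < θ := by positivity
  -- the width
  obtain ⟨W, hWbig⟩ := exists_nat_gt (max 16 (2 * K0 * (1 / (4 * Real.pi)) *
    (8 * Real.exp (2 * M) + 2 * B1) / θ))
  have hW16 : (16 : ℝ) < W := lt_of_le_of_lt (le_max_left _ _) hWbig
  have hWn : 16 ≤ W := by exact_mod_cast hW16.le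
  have hW8 : 8 ≤ W := by omega
  have hW2 : 2 * K0 * (1 / (4 * Real.pi)) * (8 * Real.exp (2 * M) + 2 * B1) / θ < W :=
    lt_of_le_of_lt (le_max_right _ _) hWbig
  haveI hWf : Fact (8 ≤ W) := ⟨hW8⟩
  set ρ0 : ℂ → ℝ := fun z => Real.exp (2 * uE F W z) with hρ0
  set φ' : ℂ → ℝ := fun z => φ (Real.log (dl W z)) with hφ'
  have hwt : ∀ a ∈ Icc (0:ℝ) 2, IsWt W (fun z => ρ0 z * (1 + a * φ' z)) := by
    intro a ha
    have h1 := isWt_exp (hFa a ha) W hW8
    have h2 : (fun z => Real.exp (2 * uE (fun t => F t + (1 / 2) * Real.log (1 + a * φ t)) W z)) =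
        fun z => ρ0 z * (1 + a * φ' z) := funext fun z => rho_a F φ hφ0 W a ha.1 z
    rw [h2] at h1
    exact h1
  have hdlc : ContinuousOn (fun z => Real.log (dl W z)) (FF W) := by
    refine ContinuousOn.log (dl_cont W).continuousOn fun z hz => ?_
    have := dl_FF hW8 hz; linarith
  have hφc : ContinuousOn φ' (FF W) := hφs.continuous.comp_continuousOn hdlc
  have hρc : ContinuousOn ρ0 (FF W) := by
    intro z hz
    have h0 : 0 < dl W z := by have := dl_FF hW8 hz; linarith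
    exact ((contDiffAt_const.mul (uE_smooth hF hW8 h0)).exp).continuousAt.continuousWithinAt
  have hcpt := isCompact_FF W
  have hρi : IntegrableOn ρ0 (FF W) := hρc.integrableOn_compact hcpt
  have hρφc : ContinuousOn (fun z => ρ0 z * φ' z) (FF W) := hρc.mul hφc
  have hρφi : IntegrableOn (fun z => ρ0 z * φ' z) (FF W) := hρφc.integrableOn_compact hcpt
  have hFFm := measurableSet_FF W
  have hFFD : FF W ∩ DD W = ann := FF_DD hW8
  have hannsub : ann ⊆ FF W := by rw [← hFFD]; exact inter_subset_left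
  -- on the annulus `φ' = η`
  have hφann : ∀ z ∈ ann, φ' z = η := by
    intro z hz
    rw [← hFFD] at hz
    apply hφ1
    have h1 := Real.log_nonneg (dl_FF hW8 hz.1)
    rw [abs_of_nonneg h1]
    have h2 : dl W z < Real.exp (1 / 4) := hz.2
    have h3 : 0 < dl W z := by have := dl_FF hW8 hz.1; linarith
    exact ((Real.log_lt_iff_lt_exp h3).2 h2).le
  have hφball : ∀ z ∈ FF W, z ∉ Metric.ball (0 : ℂ) 4 → φ' z = 0 := by
    intro z hz hz4
    apply hφ2
    have h4 : 4 ≤ dl W z := by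
      by_contra h
      rw [not_le] at h
      have := dl_box hW8 hz.1 h
      rw [mem_ball_zero_iff] at hz4
      rw [this] at h; exact hz4 h
    refine le_trans ?_ (le_abs_self _)
    have h5 : Real.log 4 ≤ Real.log (dl W z) := Real.log_le_log (by norm_num) h4
    have h6 : (1:ℝ) ≤ Real.log 4 := by
      rw [Real.le_log_iff_exp_le (by norm_num)]; exact exp_one_lt_four.le
    linarith
  -- integrals
  set α : ℝ := ∫ z in FF W, ρ0 z with hα
  set β : ℝ := ∫ z in FF W, ρ0 z * φ' z with hβ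
  have hαle : α ≤ Real.exp (2 * M) * (8 * W) := by
    have h1 : ‖∫ z in FF W, ρ0 z‖ ≤ Real.exp (2 * M) * volume.real (FF W) :=
      norm_setIntegral_le_of_norm_le_const hcpt.measure_lt_top fun z hz => by
        rw [Real.norm_eq_abs, abs_of_pos (Real.exp_pos _)]
        exact hup W hW8 z hz
    have h2 : volume.real (FF W) ≤ 8 * W := by
      have h3 : volume (FF W) ≤ ENNReal.ofReal (8 * W) := by
        rw [← volume_box]; exact measure_mono fun z hz => hz.1
      exact ENNReal.toReal_le_of_le_ofReal (by positivity) h3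
    refine (le_abs_self _).trans (h1.trans ?_)
    exact mul_le_mul_of_nonneg_left h2 (Real.exp_pos _).le
  have hαpos : 0 ≤ α := setIntegral_nonneg hFFm fun z _ => (Real.exp_pos _).le
  have hβge : η * γ0 ≤ β := by
    have h1 : ∫ z in ann, ρ0 z * φ' z ≤ β :=
      setIntegral_mono_set hρφi (ae_restrict_of_forall_mem hFFm fun z hz =>
        mul_nonneg (Real.exp_pos _).le (hφ0 _)) hannsub.eventuallyLE
    have h2 : η * γ0 ≤ ∫ z in ann, ρ0 z * φ' z := by
      have h3 : η * γ0 = ∫ z in ann, η * Real.exp (-(2 * M)) := by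
        rw [setIntegral_const, smul_eq_mul, hγ0]; ring
      rw [h3]
      refine setIntegral_mono_on (integrableOn_const volume_ann_top.ne)
        (hρφi.mono_set hannsub) measurableSet_ann fun z hz => ?_
      rw [hφann z hz, mul_comm]
      exact mul_le_mul_of_nonneg_right (hlo W hW8 z (hannsub hz)) hη.le
    linarith
  have hβpos : 0 < β := lt_of_lt_of_le (by positivity) hβge
  have hβle : β ≤ B1 := by
    have h1 : β = ∫ z in FF W ∩ Metric.ball 0 4, ρ0 z * φ' z := by
      rw [hβ]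
      refine (setIntegral_eq_of_subset_of_forall_sdiff_eq_zero hFFm inter_subset_left
        fun z hz => ?_)
      rw [hφball z hz.1 fun h => hz.2 ⟨hz.1, h⟩, mul_zero]
    have h2 : ‖∫ z in FF W ∩ Metric.ball 0 4, ρ0 z * φ' z‖ ≤
        (Real.exp (2 * M) * η) * volume.real (FF W ∩ Metric.ball 0 4) := by
      refine norm_setIntegral_le_of_norm_le_const
        (lt_of_le_of_lt (measure_mono inter_subset_left) hcpt.measure_lt_top) fun z hz => ?_
      rw [Real.norm_eq_abs, abs_of_nonneg (mul_nonneg (Real.exp_pos _).le (hφ0 _))]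
      exact mul_le_mul (hup W hW8 z hz.1) (hφη _) (hφ0 _) (Real.exp_pos _).le
    have h3 : volume.real (FF W ∩ Metric.ball (0:ℂ) 4) ≤ volume.real (Metric.ball (0:ℂ) 4) :=
      measureReal_mono inter_subset_right Metric.isBounded_ball.measure_lt_top.ne
    rw [h1]
    refine (le_abs_self _).trans (h2.trans ?_)
    rw [hB1]
    exact mul_le_mul_of_nonneg_left h3 (by positivity)
  have hθW : 2 * (K0 / W ^ 2) * (1 / (4 * Real.pi)) * (α + 2 * β) < θ := by
    have hWpos : (0:ℝ) < W := by linarith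
    have h1 : α + 2 * β ≤ (8 * Real.exp (2 * M) + 2 * B1) * W := by nlinarith
    have h2 : 2 * (K0 / W ^ 2) * (1 / (4 * Real.pi)) * (α + 2 * β) ≤
        2 * (K0 / W ^ 2) * (1 / (4 * Real.pi)) * ((8 * Real.exp (2 * M) + 2 * B1) * W) :=
      mul_le_mul_of_nonneg_left h1 (by positivity)
    have h3 : 2 * (K0 / W ^ 2) * (1 / (4 * Real.pi)) * ((8 * Real.exp (2 * M) + 2 * B1) * W) =
        2 * K0 * (1 / (4 * Real.pi)) * (8 * Real.exp (2 * M) + 2 * B1) / W := by
      field_simp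
    refine lt_of_le_of_lt (h2.trans_eq h3) ?_
    rw [div_lt_iff₀ hWpos]
    rw [div_lt_iff₀ hθpos] at hW2
    linarith
  obtain ⟨a, ha, f, lam, hlam, hf⟩ := hmain W hWn ρ0 φ' hwt hφc (fun z _ => hφ0 _)
    (fun z hz h4 => by
      have h5 := dl_top hW8 hz h4
      constructor
      · simp only [hρ0]
        rw [uE_flat hF (exp_one_lt_four.le.trans h5), mul_zero, Real.exp_zero]
      · apply hφ2
        refine le_trans ?_ (le_abs_self _)
        have h6 : Real.log 4 ≤ Real.log (dl W z) := Real.log_le_log (by norm_num) h5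
        have h7 : (1:ℝ) ≤ Real.log 4 := by
          rw [Real.le_log_iff_exp_le (by norm_num)]; exact exp_one_lt_four.le
        linarith) hβpos θ hθW
  have ha0 : a ∈ Icc (0:ℝ) 2 := ⟨by linarith [ha.1], ha.2⟩
  have hρa : ∀ z, Real.exp (2 * uE (fun t => F t + (1 / 2) * Real.log (1 + a * φ t)) W z) =
      ρ0 z * (1 + a * φ' z) := fun z => rho_a F φ hφ0 W a ha0.1 z
  refine ⟨W, hWf, fun t => F t + (1 / 2) * Real.log (1 + a * φ t), hFa a ha0, f, lam, hlam,
    fun j => ?_⟩
  obtain ⟨hcore, heq, hnorm, hb1⟩ := hf j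
  simp only [hρa]
  refine ⟨hcore, heq, hnorm, ?_⟩
  rw [hFFD]
  have hfc : ContinuousOn (f j) (FF W) := fun z hz =>
    (hcore.contDiffAt hW8 hz).continuousAt.continuousWithinAt
  have hi1 : IntegrableOn (fun z => (ρ0 z * (1 + a * φ' z)) * f j z ^ 2) (FF W) :=
    ((hρc.mul (continuousOn_const.add (continuousOn_const.mul hφc))).mul
      (hfc.pow 2)).integrableOn_compact hcpt
  have hi2 : IntegrableOn (fun z => (ρ0 z * φ' z) * f j z ^ 2) (FF W) :=
    (hρφc.mul (hfc.pow 2)).integrableOn_compact hcpt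
  have hi3 : IntegrableOn (fun z => ρ0 z * (1 + a * φ' z)) (FF W) :=
    (hρc.mul (continuousOn_const.add (continuousOn_const.mul hφc))).integrableOn_compact hcpt
  have hnn : ∀ z, 0 ≤ φ' z := fun z => hφ0 _
  have hrp : ∀ z, 0 < ρ0 z := fun z => Real.exp_pos _
  -- mass of the annulus
  have hm1 : ∫ z in ann, (ρ0 z * (1 + a * φ' z)) * f j z ^ 2 ≤
      ((1 + 2 * η) / η) * ∫ z in FF W, (ρ0 z * φ' z) * f j z ^ 2 := by
    have h1 : ∫ z in ann, (ρ0 z * (1 + a * φ' z)) * f j z ^ 2 ≤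
        ∫ z in ann, ((1 + 2 * η) / η) * ((ρ0 z * φ' z) * f j z ^ 2) := by
      refine setIntegral_mono_on (hi1.mono_set hannsub) ((hi2.mono_set hannsub).const_mul _)
        measurableSet_ann fun z hz => ?_
      rw [hφann z hz]
      have h2 : (1 + 2 * η) / η * (ρ0 z * η * f j z ^ 2) = (1 + 2 * η) * (ρ0 z * f j z ^ 2) := by
        field_simp
      rw [h2]
      have h3 : 0 ≤ ρ0 z * f j z ^ 2 := mul_nonneg (hrp z).le (sq_nonneg _)
      have h4 : 1 + a * η ≤ 1 + 2 * η := by nlinarith [ha.2]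
      calc ρ0 z * (1 + a * η) * f j z ^ 2 = (1 + a * η) * (ρ0 z * f j z ^ 2) := by ring
        _ ≤ _ := mul_le_mul_of_nonneg_right h4 h3
    have h5 : ∫ z in ann, ((1 + 2 * η) / η) * ((ρ0 z * φ' z) * f j z ^ 2) =
        ((1 + 2 * η) / η) * ∫ z in ann, (ρ0 z * φ' z) * f j z ^ 2 := integral_const_mul _ _
    have h6 : ∫ z in ann, (ρ0 z * φ' z) * f j z ^ 2 ≤ ∫ z in FF W, (ρ0 z * φ' z) * f j z ^ 2 :=
      setIntegral_mono_set hi2 (ae_restrict_of_forall_mem hFFm fun z hz =>
        mul_nonneg (mul_nonneg (hrp z).le (hnn z)) (sq_nonneg _)) hannsub.eventuallyLE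
    rw [h5] at h1
    exact h1.trans (mul_le_mul_of_nonneg_left h6 (by positivity))
  have htot : ∫ z in FF W, ρ0 z * (1 + a * φ' z) = α + a * β := by
    have h1 : ∀ z, ρ0 z * (1 + a * φ' z) = ρ0 z + a * (ρ0 z * φ' z) := fun z => by ring
    simp only [h1]
    rw [integral_add hρi (hρφi.const_mul _), integral_const_mul]
  have hann_ge : γ0 ≤ ∫ z in ann, ρ0 z * (1 + a * φ' z) := by
    have h3 : γ0 = ∫ z in ann, Real.exp (-(2 * M)) := by
      rw [setIntegral_const, smul_eq_mul, hγ0]; ring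
    rw [h3]
    refine setIntegral_mono_on (integrableOn_const volume_ann_top.ne)
      (hi3.mono_set hannsub) measurableSet_ann fun z hz => ?_
    refine (hlo W hW8 z (hannsub hz)).trans ?_
    have h4 : 0 ≤ a * φ' z := mul_nonneg ha0.1 (hnn z)
    nlinarith [hrp z]
  have hden : 0 < α + a * β := by nlinarith [ha.1]
  rw [htot]
  calc ∫ z in ann, (ρ0 z * (1 + a * φ' z)) * f j z ^ 2
      ≤ ((1 + 2 * η) / η) * (θ * β / (α + a * β)) :=
        hm1.trans (mul_le_mul_of_nonneg_left hb1 (by positivity))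
    _ = (ε * γ0 * (β / B1)) / (α + a * β) := by
        rw [hθ]; field_simp
    _ ≤ (ε * γ0 * 1) / (α + a * β) := by
        apply div_le_div_of_nonneg_right _ hden.le
        apply mul_le_mul_of_nonneg_left _ (by positivity)
        rw [div_le_one hB1pos]; exact hβle
    _ ≤ ε * ((∫ z in ann, ρ0 z * (1 + a * φ' z)) / (α + a * β)) := by
        rw [mul_one, mul_div_assoc]
        apply mul_le_mul_of_nonneg_left _ hε.le
        exact div_le_div_of_nonneg_right hann_ge hden.le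

end

end Pool.Agent.EQ

end

/-! ## Lib_helper71.EQ.FinalB -/

section

/-! Project EQ: the core statement from the spectral theorem and package G. -/

set_option autoImplicit false

namespace Pool.Agent.EQ
open MeasureTheory Filter Topology Set SP
open scoped ContDiff ENNReal

noncomputable section

/-- what package G provides for the width `W` and the profile `F` -/
structure GData (W : ℕ) (F : ℝ → ℝ) where
  P : Pres
  Fd : Set ℂ
  D : Set ℂ
  fund : P.IsFund Fd
  jordan : P.IsJordan D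
  erg : P.Ergodic
  area1 : P.area Fd = 2 * ∫⁻ z in FF W, ENNReal.ofReal (Real.exp (2 * uE F W z))
  area2 : P.area (Fd ∩ D) = 2 * ∫⁻ z in FF W ∩ DD W, ENNReal.ofReal (Real.exp (2 * uE F W z))
  ext : ∀ (f : ℂ → ℝ) (lam : ℝ), IsCore W f →
    (∃ r : ℝ, 0 < r ∧ r < 1 ∧
      ∀ z ∈ UU W r, -lap f z = lam * Real.exp (2 * uE F W z) * f z) →
    ∃ f' : ℂ → ℝ, P.IsEigen f' lam ∧
      ∫⁻ z in Fd, ENNReal.ofReal (f' z ^ 2) ∂P.area =
        2 * ∫⁻ z in FF W, ENNReal.ofReal (Real.exp (2 * uE F W z) * f z ^ 2) ∧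
      ∫⁻ z in Fd ∩ D, ENNReal.ofReal (f' z ^ 2) ∂P.area =
        2 * ∫⁻ z in FF W ∩ DD W, ENNReal.ofReal (Real.exp (2 * uE F W z) * f z ^ 2)

theorem fb_dx_smul (c : ℝ) {f : ℂ → ℝ} {z : ℂ} (hf : DifferentiableAt ℝ f z) :
    dx (fun w => c * f w) z = c * dx f z ∧ dy (fun w => c * f w) z = c * dy f z := by
  unfold dx dy
  rw [fderiv_const_mul hf]
  exact ⟨rfl, rfl⟩

theorem fb_lap_smul (c : ℝ) {f : ℂ → ℝ} {Ω : Set ℂ} (hΩ : IsOpen Ω) (hf : ContDiffOn ℝ ∞ f Ω)
    {z : ℂ} (hz : z ∈ Ω) : lap (fun w => c * f w) z = c * lap f z := by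
  have hd : ∀ w ∈ Ω, ContDiffAt ℝ ∞ f w := fun w hw => hf.contDiffAt (hΩ.mem_nhds hw)
  have h1 : dx (fun w => c * f w) =ᶠ[𝓝 z] fun w => c * dx f w := by
    filter_upwards [hΩ.mem_nhds hz] with w hw
    exact (fb_dx_smul c ((hd w hw).differentiableAt (by simp))).1
  have h2 : dy (fun w => c * f w) =ᶠ[𝓝 z] fun w => c * dy f w := by
    filter_upwards [hΩ.mem_nhds hz] with w hw
    exact (fb_dx_smul c ((hd w hw).differentiableAt (by simp))).2
  have hfd : ContDiffAt ℝ ∞ (fderiv ℝ f) z := (hd z hz).fderiv_right (m := ∞) (by simp)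
  have h3 : DifferentiableAt ℝ (dx f) z :=
    (hfd.differentiableAt (by simp)).clm_apply (differentiableAt_const _)
  have h4 : DifferentiableAt ℝ (dy f) z :=
    (hfd.differentiableAt (by simp)).clm_apply (differentiableAt_const _)
  unfold lap
  have e1 : dx (dx (fun w => c * f w)) z = c * dx (dx f) z := by
    have : dx (dx (fun w => c * f w)) z = dx (fun w => c * dx f w) z := by
      unfold dx at h1 ⊢; rw [h1.fderiv_eq]
    rw [this]; exact (fb_dx_smul c h3).1
  have e2 : dy (dy (fun w => c * f w)) z = c * dy (dy f) z := by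
    have : dy (dy (fun w => c * f w)) z = dy (fun w => c * dy f w) z := by
      unfold dy at h2 ⊢; rw [h2.fderiv_eq]
    rw [this]; exact (fb_dx_smul c h4).2
  rw [e1, e2]; ring

/-- THE CORE THEOREM -/
theorem core_of_G (hG : ∀ (W : ℕ) [Fact (8 ≤ W)] (F : ℝ → ℝ), Prof F → Nonempty (GData W F)) :
    CoreStatement := by
  intro ε hε
  obtain ⟨W, hWf, F, hF, f, lam, hlam, hf⟩ := core_spec ε hε
  obtain ⟨G⟩ := hG W F hF
  have hW8 : 8 ≤ W := hWf.out
  have hρc : ContinuousOn (fun z => Real.exp (2 * uE F W z)) (FF W) := by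
    intro z hz
    have h0 : 0 < dl W z := by have := dl_FF hW8 hz; linarith
    exact ((contDiffAt_const.mul (uE_smooth hF hW8 h0)).exp).continuousAt.continuousWithinAt
  have hcpt := isCompact_FF W
  have hρi : IntegrableOn (fun z => Real.exp (2 * uE F W z)) (FF W) :=
    hρc.integrableOn_compact hcpt
  have hFFm := measurableSet_FF W
  have hDm : MeasurableSet (FF W ∩ DD W) :=
    hFFm.inter (isOpen_lt (dl_cont W) continuous_const).measurableSet
  have hconv : ∀ (s : Set ℂ) (h : ℂ → ℝ), MeasurableSet s → s ⊆ FF W → ContinuousOn h (FF W) →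
      (∀ z, 0 ≤ h z) → ∫⁻ z in s, ENNReal.ofReal (h z) = ENNReal.ofReal (∫ z in s, h z) := by
    intro s h hs hsF hc h0
    rw [ofReal_integral_eq_lintegral_ofReal ((hc.integrableOn_compact hcpt).mono_set hsF)
      (Eventually.of_forall h0)]
  have hexp0 : ∀ z, 0 ≤ Real.exp (2 * uE F W z) := fun z => (Real.exp_pos _).le
  set A1 : ℝ := ∫ z in FF W, Real.exp (2 * uE F W z) with hA1
  set A2 : ℝ := ∫ z in FF W ∩ DD W, Real.exp (2 * uE F W z) with hA2
  have ha1 : G.P.area G.Fd = 2 * ENNReal.ofReal A1 := by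
    rw [G.area1, hconv _ _ hFFm subset_rfl hρc hexp0]
  have ha2 : G.P.area (G.Fd ∩ G.D) = 2 * ENNReal.ofReal A2 := by
    rw [G.area2, hconv _ _ hDm inter_subset_left hρc hexp0]
  have hA20 : 0 < A2 := by
    rw [hA2, FF_DD hW8]
    have hsub : ann ⊆ FF W := by rw [← FF_DD hW8]; exact inter_subset_left
    rw [setIntegral_pos_iff_support_of_nonneg_ae (Eventually.of_forall hexp0)
      (hρi.mono_set hsub)]
    have : Function.support (fun z => Real.exp (2 * uE F W z)) ∩ ann = ann := by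
      apply inter_eq_right.2
      intro z _
      exact (Real.exp_pos _).ne'
    rw [this]; exact volume_ann_pos
  have hA12 : A2 ≤ A1 := setIntegral_mono_set hρi
    (Eventually.of_forall hexp0) inter_subset_left.eventuallyLE
  have hA10 : 0 < A1 := lt_of_lt_of_le hA20 hA12
  choose f' hE hI hID using fun j => G.ext (f j) (lam j) (hf j).1 (hf j).2.1
  have hc2 : ((√2)⁻¹ : ℝ) ^ 2 = 1 / 2 := by
    rw [inv_pow, Real.sq_sqrt (by norm_num)]; norm_num
  have hsm : ∀ j, AEStronglyMeasurable (fun z => f' j z ^ 2) G.P.area := by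
    intro j
    have h1 : AEStronglyMeasurable (fun z => f' j z ^ 2) (volume.restrict G.P.Ω) :=
      ((hE j).smooth.continuousOn.pow 2).aestronglyMeasurable G.P.isOpen.measurableSet
    exact h1.mono_ac (withDensity_absolutelyContinuous _ _)
  have hint : ∀ j (s : Set ℂ), ∫ z in s, ((√2)⁻¹ * f' j z) ^ 2 ∂G.P.area =
      (1 / 2) * (∫⁻ z in s, ENNReal.ofReal (f' j z ^ 2) ∂G.P.area).toReal := by
    intro j s
    rw [← integral_eq_lintegral_of_nonneg_ae (Eventually.of_forall fun z => sq_nonneg _)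
      (hsm j).restrict, ← integral_const_mul]
    congr 1
    funext z
    rw [mul_pow, hc2]
  have hfc : ∀ j, ContinuousOn (f j) (FF W) := fun j z hz =>
    ((hf j).1.contDiffAt hW8 hz).continuousAt.continuousWithinAt
  have hgc : ∀ j, ContinuousOn (fun z => Real.exp (2 * uE F W z) * f j z ^ 2) (FF W) :=
    fun j => hρc.mul ((hfc j).pow 2)
  have hg0 : ∀ j z, 0 ≤ Real.exp (2 * uE F W z) * f j z ^ 2 := fun j z =>
    mul_nonneg (hexp0 z) (sq_nonneg _)
  refine ⟨G.P, G.erg, G.D, G.Fd, fun j z => (√2)⁻¹ * f' j z, lam, G.jordan, G.fund, ?_, ?_, ?_,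
    hlam, ?_, ?_⟩
  · rw [ha2]
    exact ENNReal.mul_pos (by norm_num) (by rw [Ne, ENNReal.ofReal_eq_zero]; linarith)
  · rw [ha1]
    exact ENNReal.mul_lt_top (by norm_num) ENNReal.ofReal_lt_top
  · intro j
    refine { smooth := contDiffOn_const.mul (hE j).smooth, inv := ?_, eq := ?_ }
    · intro g z hz
      simp only [(hE j).inv g z hz]
    · intro z hz
      rw [fb_lap_smul _ G.P.isOpen (hE j).smooth hz]
      have := (hE j).eq z hz
      linear_combination (√2)⁻¹ * this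
  · intro j
    rw [hint j G.Fd, hI j, hconv _ _ hFFm subset_rfl (hgc j) (hg0 j), (hf j).2.2.1]
    simp
  · intro j
    have h1 : (G.P.area (G.Fd ∩ G.D)).toReal = 2 * A2 := by
      rw [ha2, ENNReal.toReal_mul, ENNReal.toReal_ofReal hA20.le]; norm_num
    have h2 : (G.P.area G.Fd).toReal = 2 * A1 := by
      rw [ha1, ENNReal.toReal_mul, ENNReal.toReal_ofReal hA10.le]; norm_num
    rw [hint j (G.Fd ∩ G.D), hID j, hconv _ _ hDm inter_subset_left (hgc j) (hg0 j), h1, h2]
    have h3 := (hf j).2.2.2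
    have h4 : 0 ≤ ∫ z in FF W ∩ DD W, Real.exp (2 * uE F W z) * f j z ^ 2 :=
      integral_nonneg (hg0 j)
    rw [ENNReal.toReal_mul, ENNReal.toReal_ofReal h4]
    have h5 : 2 * A2 / (2 * A1) = A2 / A1 := by
      rw [mul_div_mul_left _ _ (by norm_num : (2:ℝ) ≠ 0)]
    rw [h5]
    have h6 : (1 / 2 : ℝ) * ((2 : ℝ≥0∞).toReal *
        ∫ z in FF W ∩ DD W, Real.exp (2 * uE F W z) * f j z ^ 2) =
        ∫ z in FF W ∩ DD W, Real.exp (2 * uE F W z) * f j z ^ 2 := by
      rw [ENNReal.toReal_ofNat]; ring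
    rw [h6]
    exact h3

end

end Pool.Agent.EQ

end

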