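import Mathlib
import Pool.Agent.Lib_helper71.EQM.DynD
import Pool.Agent.Lib_helper71.EQM.GrC
import Pool.Agent.Lib_helper71.EQM.SpE

/-! Project EQ (MP_ed6ab2_an): merged modules Lib_helper71.EQ.FinalC. -/

set_option autoImplicit false

/-! ## Lib_helper71.EQ.FinalC -/

section

/-! Project EQ: the data of package G and the core theorem. -/

set_option autoImplicit false

namespace Pool.Agent.EQ

open MeasureTheory Filter Topology Set SP
open scoped ContDiff ENNReal

noncomputable section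

theorem fc_FF_EE {W : ℕ} (hW : 8 ≤ W) {z : ℂ} (hz : z ∈ FF W) : z ∈ EE W := dl_FF hW hz

/-- the neck domain inside the region -/
theorem fc_neck {W : ℕ} (hW : 8 ≤ W) : FF W ∩ Neck W (1/4) = FF W ∩ DD W := by
  ext z
  constructor
  · rintro ⟨h1, h2⟩
    exact ⟨h1, (EE_Neck hW (by norm_num) (by norm_num) (fc_FF_EE hW h1)).1 h2⟩
  · rintro ⟨h1, h2⟩
    exact ⟨h1, (EE_Neck hW (by norm_num) (by norm_num) (fc_FF_EE hW h1)).2 h2⟩

theorem fc_ivE_neck {W : ℕ} {δ : ℝ} {z : ℂ} : ivE 0 z ∈ Neck W δ ↔ z ∈ Neck W δ :=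
  Neck_inv ivE_zero_mem

/-- package G -/
theorem gdata (W : ℕ) [hWf : Fact (8 ≤ W)] (F : ℝ → ℝ) (hF : Prof F) :
    Nonempty (GData W F) := by
  have hW : 8 ≤ W := hWf.out
  obtain ⟨Φ⟩ := exists_gflow (PG hF hW)
  have hk : ∀ z ∈ (PG hF hW).Ω, 0 ≤ kk (PG hF hW).u z := fun z hz => kk_nonneg hF hW hz
  have herg : (PG hF hW).Ergodic := ergodic_PG hF hW Φ (fun t => m_phi _ Φ t)
    fun A hA hfl v₀ hv₀ h0 => loc_const _ hk A hA hfl v₀ hv₀ h0
  have hNm : MeasurableSet (Neck W (1/4)) := (isOpen_Neck hW (by norm_num)).measurableSet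
  have hFFm := measurableSet_FF W
  -- integral formulas
  have key : ∀ (q : ℂ → ℝ≥0∞), (∀ z ∈ Om W, q (ivE 0 z) = q z) →
      ∫⁻ z in Fd W, q z ∂(PG hF hW).area =
        2 * ∫⁻ z in FF W, q z * ENNReal.ofReal (Real.exp (2 * uE F W z)) :=
    fun q hq => lintegral_area hF hW q hq
  have keyN : ∀ (q : ℂ → ℝ≥0∞), (∀ z ∈ Om W, q (ivE 0 z) = q z) →
      ∫⁻ z in Fd W ∩ Neck W (1/4), q z ∂(PG hF hW).area =
        2 * ∫⁻ z in FF W ∩ DD W, q z * ENNReal.ofReal (Real.exp (2 * uE F W z)) := by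
    intro q hq
    have h1 : ∫⁻ z in Fd W ∩ Neck W (1/4), q z ∂(PG hF hW).area =
        ∫⁻ z in Fd W, (Neck W (1/4)).indicator q z ∂(PG hF hW).area := by
      rw [inter_comm, ← Measure.restrict_restrict hNm, ← lintegral_indicator hNm]
    rw [h1, key _ fun z hz => ?_]
    · congr 1
      rw [← fc_neck hW, inter_comm, ← Measure.restrict_restrict hNm, ← lintegral_indicator hNm]
      congr 1
      funext z
      by_cases hz : z ∈ Neck W (1/4)
      · rw [indicator_of_mem hz, indicator_of_mem hz]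
      · rw [indicator_of_notMem hz, indicator_of_notMem hz, zero_mul]
    · by_cases hz2 : z ∈ Neck W (1/4)
      · rw [indicator_of_mem hz2, indicator_of_mem (fc_ivE_neck.2 hz2), hq z hz]
      · rw [indicator_of_notMem hz2, indicator_of_notMem fun h => hz2 (fc_ivE_neck.1 h)]
  have hA : ∀ s : Set ℂ, (PG hF hW).area s = ∫⁻ _ in s, 1 ∂(PG hF hW).area := by
    intro s; rw [setLIntegral_one]
  refine ⟨{ P := PG hF hW, Fd := Fd W, D := Neck W (1/4), fund := isFund_Fd hF hW, jordan := isJordan_Neck hF hW (by norm_num) (by norm_num), erg := herg, area1 := ?_, area2 := ?_, ext := ?_ }⟩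
  · rw [hA, key _ fun _ _ => rfl]
    simp only [one_mul]
  · rw [hA, keyN _ fun _ _ => rfl]
    simp only [one_mul]
  · rintro f lam hf ⟨r, hr0, hr1, hlap⟩
    obtain ⟨g', hE, hinv, heq⟩ := core_lift hF hW f hf lam r hr1 hlap
    have hq : ∀ z ∈ Om W, ENNReal.ofReal (g' (ivE 0 z) ^ 2) = ENNReal.ofReal (g' z ^ 2) := by
      intro z hz
      rw [hinv _ ivE_zero_mem z hz]
    have hval : ∀ z ∈ FF W, ENNReal.ofReal (g' z ^ 2) *
        ENNReal.ofReal (Real.exp (2 * uE F W z)) =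
        ENNReal.ofReal (Real.exp (2 * uE F W z) * f z ^ 2) := by
      intro z hz
      rw [heq z (fc_FF_EE hW hz), mul_comm, ← ENNReal.ofReal_mul (Real.exp_pos _).le]
    have hDm : MeasurableSet (FF W ∩ DD W) := by
      rw [← fc_neck hW]; exact hFFm.inter hNm
    refine ⟨g', hE, ?_, ?_⟩
    · rw [key _ hq]
      congr 1
      exact setLIntegral_congr_fun hFFm fun z hz => hval z hz
    · rw [keyN _ hq]
      congr 1
      exact setLIntegral_congr_fun hDm fun z hz => hval z hz.1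

/-- THE CORE THEOREM -/
theorem core_statement : CoreStatement := core_of_G fun W _ F hF => gdata W F hF

end

end Pool.Agent.EQ

end

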