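import Mathlib
import Pool.Agent.Lib_helper71.EQM.FlowDefs
import Pool.Agent.Lib_helper99.EQF.Notions

/-! Project EQ (MP_ed6ab2_an): merged modules Lib_helper99.EQF.Quot, Lib_helper99.EQF.Metric, Lib_helper99.EQF.Area, Lib_helper99.EQF.Func, Lib_helper99.EQF.Tangent, Lib_helper99.EQF.Cont, Lib_helper99.EQF.Geod, Lib_helper99.EQF.Final. -/

set_option autoImplicit false

/-! ## Lib_helper99.EQF.Quot -/

section

/-! The quotient surface `Ω / G` of a presentation. -/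

set_option autoImplicit false

namespace Pool.Agent.EQ

open MeasureTheory Filter Topology Set
open scoped ContDiff Manifold

noncomputable section

variable (P : Pres)

/-- `Ω` as an open set -/
def Pres.O : TopologicalSpace.Opens ℂ := ⟨P.Ω, P.isOpen⟩

theorem Pres.act_inv_act (g : P.G) (z : ℂ) (hz : z ∈ P.Ω) : P.act g⁻¹ (P.act g z) = z := by
  rw [← P.act_mul g⁻¹ g z hz, inv_mul_cancel, P.act_one z hz]

theorem Pres.act_act_inv (g : P.G) (z : ℂ) (hz : z ∈ P.Ω) : P.act g (P.act g⁻¹ z) = z := by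
  rw [← P.act_mul g g⁻¹ z hz, mul_inv_cancel, P.act_one z hz]

instance Pres.mulAction : MulAction P.G P.O where
  smul g z := ⟨P.act g z.1, P.act_mem g z.1 z.2⟩
  one_smul z := Subtype.ext (P.act_one z.1 z.2)
  mul_smul g h z := Subtype.ext (P.act_mul g h z.1 z.2)

theorem Pres.smul_val (g : P.G) (z : P.O) : ((g • z : P.O) : ℂ) = P.act g z.1 := rfl

instance Pres.contSMul : ContinuousConstSMul P.G P.O where
  continuous_const_smul g := by
    refine Continuous.subtype_mk ?_ _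
    exact (P.holo g).continuousOn.comp_continuous continuous_subtype_val (fun z => z.2)

instance Pres.cancelSMul : IsCancelSMul P.G P.O := by
  rw [isCancelSMul_iff_eq_one_of_smul_eq]
  intro g z h
  exact P.free g z.1 z.2 (congrArg Subtype.val h)

instance Pres.locallyCompact : LocallyCompactSpace P.O := P.isOpen.locallyCompactSpace

instance Pres.properSMul : ProperlyDiscontinuousSMul P.G P.O where
  finite_disjoint_inter_image := by
    intro K L hK hL
    have hc : IsCompact ((Subtype.val '' K) ∪ (Subtype.val '' L) : Set ℂ) :=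
      (hK.image continuous_subtype_val).union (hL.image continuous_subtype_val)
    have hs : ((Subtype.val '' K) ∪ (Subtype.val '' L) : Set ℂ) ⊆ P.Ω := by
      rintro z (⟨w, _, rfl⟩ | ⟨w, _, rfl⟩)
      · exact w.2
      · exact w.2
    refine (P.proper _ hs hc).subset ?_
    intro g hg
    obtain ⟨y, ⟨x, hx, rfl⟩, hy⟩ := hg
    exact ⟨P.act g x.1, ⟨x.1, Or.inl ⟨x, hx, rfl⟩, rfl⟩, Or.inr ⟨_, hy, rfl⟩⟩

/-- The surface `M = Ω / G`, with the structure of a charted space given by Mathlib. -/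
def Pres.M : Type := MulAction.orbitRel.Quotient P.G P.O

instance Pres.topM : TopologicalSpace P.M :=
  inferInstanceAs (TopologicalSpace (MulAction.orbitRel.Quotient P.G P.O))

instance Pres.chartedM : ChartedSpace ℂ P.M :=
  inferInstanceAs (ChartedSpace ℂ (MulAction.orbitRel.Quotient P.G P.O))

instance Pres.measM : MeasurableSpace P.M := borel P.M

instance Pres.borelM : BorelSpace P.M := ⟨rfl⟩

/-- the quotient map -/
def Pres.qm (z : P.O) : P.M := Quotient.mk _ z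

theorem Pres.cov : IsQuotientCoveringMap P.qm P.G :=
  isQuotientCoveringMap_quotientMk_of_properlyDiscontinuousSMul

theorem Pres.isLocalHomeomorph : IsLocalHomeomorph P.qm := P.cov.isCoveringMap.isLocalHomeomorph

theorem Pres.qm_eq_iff (z w : P.O) : P.qm z = P.qm w ↔ ∃ g : P.G, g • w = z :=
  P.cov.apply_eq_iff_mem_orbit

theorem Pres.qm_surjective : Function.Surjective P.qm := Quotient.mk_surjective

theorem Pres.qm_continuous : Continuous P.qm := P.cov.continuous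

theorem Pres.qm_isOpenMap : IsOpenMap P.qm := P.isLocalHomeomorph.isOpenMap

instance Pres.t2 : T2Space P.M :=
  inferInstanceAs (T2Space (MulAction.orbitRel.Quotient P.G P.O))

instance Pres.connO : ConnectedSpace P.O := isConnected_iff_connectedSpace.mp P.conn

instance Pres.connM : ConnectedSpace P.M := P.qm_surjective.connectedSpace P.qm_continuous

instance Pres.compactM : CompactSpace P.M := by
  obtain ⟨K, hK, hc, hcov⟩ := P.cocompact
  have h1 : IsCompact (Subtype.val ⁻¹' K : Set P.O) := by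
    refine (Topology.IsInducing.subtypeVal).isCompact_preimage_iff ?_ |>.mpr hc
    intro z hz
    exact ⟨⟨z, hK hz⟩, rfl⟩
  have h2 : P.qm '' (Subtype.val ⁻¹' K : Set P.O) = univ := by
    refine Set.eq_univ_of_forall fun x => ?_
    obtain ⟨z, rfl⟩ := P.qm_surjective x
    obtain ⟨g, hg⟩ := hcov z.1 z.2
    exact ⟨g • z, hg, (P.qm_eq_iff _ _).mpr ⟨g, rfl⟩⟩
  exact ⟨h2 ▸ h1.image P.qm_continuous⟩

/-- the point of `M` below `z` -/
def Pres.pr (z : ℂ) : P.M := by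
  classical
  exact if h : z ∈ P.Ω then P.qm ⟨z, h⟩ else P.qm ⟨P.conn.nonempty.some, P.conn.nonempty.some_mem⟩

theorem Pres.pr_of_mem {z : ℂ} (h : z ∈ P.Ω) : P.pr z = P.qm ⟨z, h⟩ := dif_pos h

theorem Pres.pr_val (z : P.O) : P.pr z.1 = P.qm z := P.pr_of_mem z.2

theorem Pres.pr_eq_iff {z w : ℂ} (hz : z ∈ P.Ω) (hw : w ∈ P.Ω) :
    P.pr z = P.pr w ↔ ∃ g : P.G, P.act g w = z := by
  rw [P.pr_of_mem hz, P.pr_of_mem hw, P.qm_eq_iff]
  constructor
  · rintro ⟨g, hg⟩
    exact ⟨g, congrArg Subtype.val hg⟩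
  · rintro ⟨g, hg⟩
    exact ⟨g, Subtype.ext hg⟩

theorem Pres.pr_act {z : ℂ} (g : P.G) (hz : z ∈ P.Ω) : P.pr (P.act g z) = P.pr z :=
  (P.pr_eq_iff (P.act_mem g z hz) hz).mpr ⟨g, rfl⟩

theorem Pres.pr_surj (x : P.M) : ∃ z ∈ P.Ω, P.pr z = x := by
  obtain ⟨z, rfl⟩ := P.qm_surjective x
  exact ⟨z.1, z.2, P.pr_val z⟩

theorem Pres.pr_continuousOn : ContinuousOn P.pr P.Ω := by
  rw [continuousOn_iff_continuous_domRestrict]
  exact P.qm_continuous.congr fun z => (P.pr_val z).symm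

/-- all charts of the atlas are local inverses of the projection -/
theorem Pres.chart_target {e : OpenPartialHomeomorph P.M ℂ} (he : e ∈ atlas ℂ P.M) {u : ℂ}
    (hu : u ∈ e.target) : u ∈ P.Ω ∧ e.symm u = P.pr u := by
  obtain ⟨q, rfl⟩ := he
  generalize Quotient.mk_surjective.hasRightInverse.choose q = z at hu ⊢
  rw [OpenPartialHomeomorph.trans_target] at hu
  have h1 : (chartAt ℂ z).target ⊆ P.Ω := by
    intro w hw
    have h2 := (chartAt ℂ z).map_target hw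
    have h3 := (chartAt ℂ z).right_inv hw
    rw [← h3]
    exact ((chartAt ℂ z).symm w).2
  have hm : u ∈ P.Ω := h1 hu.1
  refine ⟨hm, ?_⟩
  rw [P.pr_of_mem hm]
  have h4 : (chartAt ℂ z).symm u = ⟨u, hm⟩ := Subtype.ext ((chartAt ℂ z).right_inv hu.1)
  refine Eq.trans (congrArg (IsLocalHomeomorph.localInverseAt _ z).symm h4) ?_
  exact congrFun (IsLocalHomeomorph.localInverseAt_symm _ _) _

theorem Pres.chart_source {e : OpenPartialHomeomorph P.M ℂ} (he : e ∈ atlas ℂ P.M) {x : P.M}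
    (hx : x ∈ e.source) : e x ∈ P.Ω ∧ P.pr (e x) = x := by
  obtain ⟨h1, h2⟩ := P.chart_target he (e.map_source hx)
  exact ⟨h1, by rw [← h2, e.left_inv hx]⟩

/-- in a chart, the projection is a deck transformation -/
theorem Pres.chart_pr {e : OpenPartialHomeomorph P.M ℂ} (he : e ∈ atlas ℂ P.M) {u : ℂ}
    (hu : u ∈ P.Ω) (hx : P.pr u ∈ e.source) :
    ∃ g : P.G, ∀ᶠ w in 𝓝 u, w ∈ P.Ω ∧ P.pr w ∈ e.source ∧ P.act g w ∈ e.target ∧
      e (P.pr w) = P.act g w := by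
  obtain ⟨h1, h2⟩ := P.chart_source he hx
  obtain ⟨g, hg⟩ := (P.pr_eq_iff h1 hu).mp h2
  refine ⟨g, ?_⟩
  have hc : ContinuousAt (P.act g) u := (P.holo g).continuousOn.continuousAt (P.isOpen.mem_nhds hu)
  have ht : P.act g u ∈ e.target := by
    rw [hg]
    exact e.map_source hx
  filter_upwards [P.isOpen.mem_nhds hu, hc.preimage_mem_nhds (e.open_target.mem_nhds ht)] with
    w hw hw2
  have h3 := (P.chart_target he hw2).2
  rw [P.pr_act g hw] at h3
  have h4 : P.pr w ∈ e.source := by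
    rw [← h3]
    exact e.map_target hw2
  refine ⟨hw, h4, hw2, ?_⟩
  rw [← h3]
  exact e.right_inv hw2

theorem Pres.act_contDiffOn (g : P.G) : ContDiffOn ℝ ∞ (P.act g) P.Ω :=
  ((P.holo g).contDiffOn P.isOpen).restrict_scalars ℝ

instance Pres.manifold : IsManifold 𝓘(ℝ, ℂ) ∞ P.M := by
  refine isManifold_of_contDiffOn _ _ _ ?_
  intro e e' he he'
  simp only [modelWithCornersSelf_coe, modelWithCornersSelf_coe_symm, Function.id_comp,
    Function.comp_id, preimage_id, range_id, inter_univ]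
  intro u hu
  rw [OpenPartialHomeomorph.trans_source] at hu
  obtain ⟨hu1, hu2⟩ := hu
  obtain ⟨h1, h2⟩ := P.chart_target he hu1
  have hu2' : P.pr u ∈ e'.source := by
    rw [← h2]
    exact hu2
  obtain ⟨g, hg⟩ := P.chart_pr he' h1 hu2'
  have h3 : ContDiffAt ℝ ∞ (P.act g) u := (P.act_contDiffOn g).contDiffAt (P.isOpen.mem_nhds h1)
  refine (h3.congr_of_eventuallyEq ?_).contDiffWithinAt
  filter_upwards [hg, e.open_target.mem_nhds hu1] with w hw hw1
  rw [OpenPartialHomeomorph.coe_trans, Function.comp_apply, (P.chart_target he hw1).2]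
  exact hw.2.2.2

/-- the projection is smooth -/
theorem Pres.pr_contMDiffAt {z : ℂ} (hz : z ∈ P.Ω) : ContMDiffAt 𝓘(ℝ, ℂ) 𝓘(ℝ, ℂ) ∞ P.pr z := by
  have hc : ContinuousAt P.pr z := P.pr_continuousOn.continuousAt (P.isOpen.mem_nhds hz)
  obtain ⟨g, hg⟩ := P.chart_pr (chart_mem_atlas ℂ (P.pr z)) hz (mem_chart_source ℂ (P.pr z))
  rw [contMDiffAt_iff]
  refine ⟨hc, ?_⟩
  have h3 : ContDiffAt ℝ ∞ (P.act g) z := (P.act_contDiffOn g).contDiffAt (P.isOpen.mem_nhds hz)
  refine (h3.congr_of_eventuallyEq ?_).contDiffWithinAt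
  filter_upwards [hg] with w hw
  simp only [extChartAt, OpenPartialHomeomorph.extend, mfld_simps]
  exact hw.2.2.2

end

end Pool.Agent.EQ

end

/-! ## Lib_helper99.EQF.Metric -/

section

/-! The Riemannian metric of `Ω / G`. -/

set_option autoImplicit false

namespace Pool.Agent.EQ

open MeasureTheory Filter Topology Set
open scoped ContDiff Manifold

noncomputable section

variable (P : Pres)

theorem Pres.act_deriv_mul (g : P.G) {z : ℂ} (hz : z ∈ P.Ω) :
    deriv (P.act g⁻¹) (P.act g z) * deriv (P.act g) z = 1 := by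
  have h1 : HasDerivAt (P.act g) (deriv (P.act g) z) z :=
    ((P.holo g).differentiableAt (P.isOpen.mem_nhds hz)).hasDerivAt
  have h2 : HasDerivAt (P.act g⁻¹) (deriv (P.act g⁻¹) (P.act g z)) (P.act g z) :=
    ((P.holo g⁻¹).differentiableAt (P.isOpen.mem_nhds (P.act_mem g z hz))).hasDerivAt
  have h3 := h2.comp z h1
  have h4 : HasDerivAt (P.act g⁻¹ ∘ P.act g) 1 z := by
    refine (hasDerivAt_id z).congr_of_eventuallyEq ?_
    filter_upwards [P.isOpen.mem_nhds hz] with w hw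
    exact P.act_inv_act g w hw
  exact h3.unique h4

theorem Pres.act_deriv_ne (g : P.G) {z : ℂ} (hz : z ∈ P.Ω) : deriv (P.act g) z ≠ 0 := by
  intro h
  have := P.act_deriv_mul g hz
  rw [h, mul_zero] at this
  exact zero_ne_one this

theorem Pres.isom_exp (g : P.G) {z : ℂ} (hz : z ∈ P.Ω) :
    Real.exp (2 * P.u (P.act g z)) * ‖deriv (P.act g) z‖ ^ 2 = Real.exp (2 * P.u z) := by
  have h1 : 0 < ‖deriv (P.act g) z‖ := norm_pos_iff.mpr (P.act_deriv_ne g hz)
  rw [← P.isom g z hz, mul_add, Real.exp_add]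
  congr 1
  rw [two_mul, Real.exp_add, Real.exp_log h1, sq]

/-- multiplication by a complex number as a real linear map -/
def mulL (a : ℂ) : ℂ →L[ℝ] ℂ := (ContinuousLinearMap.toSpanSingleton ℂ a).restrictScalars ℝ

theorem mulL_apply (a v : ℂ) : mulL a v = a * v := by
  change v • a = a * v
  rw [smul_eq_mul, mul_comm]

theorem Pres.act_hasFDerivAt (g : P.G) {z : ℂ} (hz : z ∈ P.Ω) :
    HasFDerivAt (P.act g) (mulL (deriv (P.act g) z)) z :=
  (((P.holo g).differentiableAt (P.isOpen.mem_nhds hz)).hasDerivAt.hasFDerivAt).restrictScalars ℝ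

/-- the derivative of the projection -/
theorem Pres.hasMFDerivAt_pr {z : ℂ} (hz : z ∈ P.Ω) :
    ∃ g : P.G, P.act g z = chartAt ℂ (P.pr z) (P.pr z) ∧
      HasMFDerivAt 𝓘(ℝ, ℂ) 𝓘(ℝ, ℂ) P.pr z (mulL (deriv (P.act g) z)) := by
  obtain ⟨g, hg⟩ := P.chart_pr (chart_mem_atlas ℂ (P.pr z)) hz (mem_chart_source ℂ (P.pr z))
  refine ⟨g, hg.self_of_nhds.2.2.2.symm, ?_⟩
  have h2 : HasFDerivAt (writtenInExtChartAt 𝓘(ℝ, ℂ) 𝓘(ℝ, ℂ) z P.pr)
      (mulL (deriv (P.act g) z)) z := by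
    refine (P.act_hasFDerivAt g hz).congr_of_eventuallyEq ?_
    filter_upwards [hg] with w hw
    simp only [writtenInExtChartAt, extChartAt, OpenPartialHomeomorph.extend, mfld_simps]
    exact hw.2.2.2
  exact ⟨(P.pr_contMDiffAt hz).continuousAt, h2.hasFDerivWithinAt⟩

theorem Pres.mfderiv_pr {z : ℂ} (hz : z ∈ P.Ω) :
    ∃ g : P.G, P.act g z = chartAt ℂ (P.pr z) (P.pr z) ∧ ∀ v : ℂ,
      (mfderiv 𝓘(ℝ, ℂ) 𝓘(ℝ, ℂ) P.pr z (v : TangentSpace 𝓘(ℝ, ℂ) z) : ℂ) =
        deriv (P.act g) z * v := by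
  obtain ⟨g, hg, h⟩ := P.hasMFDerivAt_pr hz
  refine ⟨g, hg, fun v => ?_⟩
  rw [h.mfderiv]
  exact mulL_apply _ _

/-- the conformal factor at `x` in the chart `chartAt ℂ x` -/
def Pres.conf (x : P.M) : ℝ := Real.exp (2 * P.u (chartAt ℂ x x))

/-- the inner product of `ℂ` -/
def innC : ℂ →L[ℝ] ℂ →L[ℝ] ℝ := innerSL ℝ

theorem innC_apply (v w : ℂ) : innC v w = inner ℝ v w := rfl

/-- the inner product -/
def Pres.inn (x : P.M) : ℂ →L[ℝ] ℂ →L[ℝ] ℝ := P.conf x • innC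

theorem Pres.inn_apply (x : P.M) (v w : ℂ) : P.inn x v w = P.conf x * inner ℝ v w := rfl

theorem Pres.inn_pr {z : ℂ} (hz : z ∈ P.Ω) (v w : ℂ) :
    P.inn (P.pr z) (mfderiv 𝓘(ℝ, ℂ) 𝓘(ℝ, ℂ) P.pr z (v : TangentSpace 𝓘(ℝ, ℂ) z))
      (mfderiv 𝓘(ℝ, ℂ) 𝓘(ℝ, ℂ) P.pr z (w : TangentSpace 𝓘(ℝ, ℂ) z)) =
      Real.exp (2 * P.u z) * inner ℝ v w := by
  obtain ⟨g, hg, h⟩ := P.mfderiv_pr hz
  rw [h v, h w, P.inn_apply, Pres.conf, ← hg, ← P.isom_exp g hz]
  have h1 : inner ℝ (deriv (P.act g) z * v) (deriv (P.act g) z * w) =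
      ‖deriv (P.act g) z‖ ^ 2 * inner ℝ v w := by
    rw [← Complex.normSq_eq_norm_sq]
    simp only [Complex.inner, map_mul, Complex.mul_re, Complex.mul_im, Complex.conj_re,
      Complex.conj_im, Complex.normSq_apply]
    ring
  rw [h1, mul_assoc]

theorem Pres.symm_eventuallyEq {e : OpenPartialHomeomorph P.M ℂ} (he : e ∈ atlas ℂ P.M) {u : ℂ}
    (hu : u ∈ e.target) : e.symm =ᶠ[𝓝 u] P.pr := by
  filter_upwards [e.open_target.mem_nhds hu] with w hw
  exact (P.chart_target he hw).2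

theorem Pres.mfderiv_symm {e : OpenPartialHomeomorph P.M ℂ} (he : e ∈ atlas ℂ P.M) {u : ℂ}
    (hu : u ∈ e.target) :
    (mfderiv 𝓘(ℝ, ℂ) 𝓘(ℝ, ℂ) e.symm u : ℂ →L[ℝ] ℂ) = mfderiv 𝓘(ℝ, ℂ) 𝓘(ℝ, ℂ) P.pr u :=
  (P.symm_eventuallyEq he hu).mfderiv_eq

set_option backward.isDefEq.respectTransparency false in
theorem Pres.symm_apply_eq {x₀ x : P.M} (hx : x ∈ (chartAt ℂ x₀).source) (v : ℂ) :
    ((trivializationAt ℂ (TangentSpace 𝓘(ℝ, ℂ)) x₀).symm x v : ℂ) =
      mfderiv 𝓘(ℝ, ℂ) 𝓘(ℝ, ℂ) P.pr (chartAt ℂ x₀ x)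
        (v : TangentSpace 𝓘(ℝ, ℂ) (chartAt ℂ x₀ x)) := by
  have hb : x ∈ (trivializationAt ℂ (TangentSpace 𝓘(ℝ, ℂ)) x₀).baseSet := by simpa using hx
  rw [← Bundle.Trivialization.symmL_apply (R := ℝ) _ hb, TangentBundle.symmL_trivializationAt hx]
  have h1 := P.mfderiv_symm (chart_mem_atlas ℂ x₀) ((chartAt ℂ x₀).map_source hx)
  rw [← h1]
  simp only [modelWithCornersSelf_coe, range_id, mfderivWithin_univ]
  rfl

theorem Pres.conf_pos (x : P.M) : 0 < P.conf x := Real.exp_pos _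

theorem contDiffAt_smul_const' (E F : Type) [NormedAddCommGroup E] [NormedSpace ℝ E]
    [NormedAddCommGroup F] [NormedSpace ℝ F] (c : F) (f : E → ℝ) (z : E)
    (h : ContDiffAt ℝ ∞ f z) : ContDiffAt ℝ ∞ (fun z => f z • c) z := h.smul contDiffAt_const

theorem Pres.inn_contMDiffAt (x₀ : P.M) :
    ContMDiffAt 𝓘(ℝ, ℂ) 𝓘(ℝ, ℂ →L[ℝ] ℂ →L[ℝ] ℝ) ∞
      (fun x : P.M => Real.exp (2 * P.u (chartAt ℂ x₀ x)) • innC) x₀ := by
  have h1 : ContMDiffAt 𝓘(ℝ, ℂ) 𝓘(ℝ, ℂ) ∞ (chartAt ℂ x₀) x₀ := contMDiffAt_extChartAt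
  have hz : chartAt ℂ x₀ x₀ ∈ P.Ω :=
    (P.chart_source (chart_mem_atlas ℂ x₀) (mem_chart_source ℂ x₀)).1
  have h2 : ContDiffAt ℝ ∞ (fun z => Real.exp (2 * P.u z) • innC)
      (chartAt ℂ x₀ x₀) := by
    have h3 : ContDiffAt ℝ ∞ P.u (chartAt ℂ x₀ x₀) := P.smooth.contDiffAt (P.isOpen.mem_nhds hz)
    have h4 : ContDiffAt ℝ ∞ (fun z => Real.exp (2 * P.u z)) (chartAt ℂ x₀ x₀) :=
      (contDiffAt_const.mul h3).exp
    exact contDiffAt_smul_const' ℂ (ℂ →L[ℝ] ℂ →L[ℝ] ℝ) innC _ _ h4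
  exact h2.contMDiffAt.comp x₀ h1

set_option backward.isDefEq.respectTransparency false in
/-- the Riemannian metric of `Ω / G` -/
def Pres.metric : Bundle.ContMDiffRiemannianMetric 𝓘(ℝ, ℂ) ∞ ℂ
    (fun x : P.M => TangentSpace 𝓘(ℝ, ℂ) x) where
  inner x := P.inn x
  symm x v w := by
    change P.conf x * @inner ℝ ℂ _ v w = P.conf x * @inner ℝ ℂ _ w v
    rw [real_inner_comm]
  pos x v hv := by
    change 0 < P.conf x * @inner ℝ ℂ _ v v
    exact mul_pos (P.conf_pos x) (real_inner_self_pos.2 hv)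
  isVonNBounded x := by
    change Bornology.IsVonNBounded ℝ {v : ℂ | P.conf x * @inner ℝ ℂ _ v v < 1}
    refine (NormedSpace.isVonNBounded_iff' ℝ).mpr ⟨Real.sqrt (1 / P.conf x), fun v hv => ?_⟩
    rw [Set.mem_ofPred_eq, real_inner_self_eq_norm_sq] at hv
    refine Real.le_sqrt_of_sq_le ?_
    rw [le_div_iff₀ (P.conf_pos x), mul_comm]
    exact hv.le
  contMDiff := by
    intro x₀
    rw [Bundle.contMDiffAt_section]
    refine (P.inn_contMDiffAt x₀).congr_of_eventuallyEq ?_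
    filter_upwards [(chartAt ℂ x₀).open_source.mem_nhds (mem_chart_source ℂ x₀)] with x hx
    have hb : x ∈ (trivializationAt ℂ (TangentSpace 𝓘(ℝ, ℂ)) x₀).baseSet := by simpa using hx
    have hz := P.chart_source (chart_mem_atlas ℂ x₀) hx
    refine ContinuousLinearMap.ext fun v => ContinuousLinearMap.ext fun w => ?_
    rw [hom_trivializationAt_apply]
    simp only
    rw [inCoordinates_apply_eq₂ hb hb (Set.mem_univ _)]
    rw [P.symm_apply_eq hx, P.symm_apply_eq hx]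
    have h5 := P.inn_pr hz.1 v w
    rw [hz.2] at h5
    simp only [Bundle.Trivial.fiberBundle_trivializationAt',
      Bundle.Trivial.linearMapAt_trivialization, LinearMap.id_apply]
    exact h5

end

end Pool.Agent.EQ

end

/-! ## Lib_helper99.EQF.Area -/

section

/-! The Riemannian area of `Ω / G`. -/

set_option autoImplicit false

namespace Pool.Agent.EQ

open MeasureTheory Filter Topology Set
open scoped ContDiff Manifold

noncomputable section

variable (P : Pres)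

theorem Pres.gram_eq {e : OpenPartialHomeomorph P.M ℂ} (he : e ∈ atlas ℂ P.M) {u : ℂ}
    (hu : u ∈ e.target) (v w : ℂ) :
    gram P.metric e u v w = Real.exp (2 * P.u u) * inner ℝ v w := by
  have h1 := P.chart_target he hu
  have h2 := P.inn_pr h1.1 v w
  rw [← h2]
  unfold gram
  have h3 := P.mfderiv_symm he hu
  change P.inn (e.symm u) _ _ = _
  rw [h1.2]
  have h4 : ∀ a : ℂ, (mfderiv 𝓘(ℝ, ℂ) 𝓘(ℝ, ℂ) e.symm u (a : TangentSpace 𝓘(ℝ, ℂ) u) : ℂ) =
    mfderiv 𝓘(ℝ, ℂ) 𝓘(ℝ, ℂ) P.pr u (a : TangentSpace 𝓘(ℝ, ℂ) u) := fun a =>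
    congrFun (congrArg DFunLike.coe h3) a
  exact congrArg₂ (fun a b => P.inn (P.pr u) a b) (h4 v) (h4 w)

theorem inner_one_one : inner ℝ (1 : ℂ) (1 : ℂ) = 1 := by simp

theorem inner_I_I : inner ℝ Complex.I Complex.I = 1 := by simp

theorem inner_one_I : inner ℝ (1 : ℂ) Complex.I = 0 := by simp [Complex.inner]

theorem Pres.dens_eq {e : OpenPartialHomeomorph P.M ℂ} (he : e ∈ atlas ℂ P.M) {u : ℂ}
    (hu : u ∈ e.target) : dens P.metric e u = Real.exp (2 * P.u u) := by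
  unfold dens
  rw [P.gram_eq he hu, P.gram_eq he hu, P.gram_eq he hu, inner_one_one, inner_I_I, inner_one_I]
  rw [mul_one, mul_zero, ← sq, sub_eq_self.mpr (by norm_num), Real.sqrt_sq (Real.exp_pos _).le]

theorem mulL_det (a : ℂ) : (mulL a).det = ‖a‖ ^ 2 := by
  have h1 : (mulL a : ℂ →ₗ[ℝ] ℂ) = Algebra.lmul ℝ ℂ a := by
    refine LinearMap.ext fun v => ?_
    exact mulL_apply a v
  rw [ContinuousLinearMap.det, h1, ← Algebra.norm_apply, Algebra.norm_complex_apply,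
    Complex.normSq_eq_norm_sq]

theorem Pres.act_injOn (g : P.G) : InjOn (P.act g) P.Ω := by
  intro z hz w hw h
  rw [← P.act_inv_act g z hz, ← P.act_inv_act g w hw, h]

theorem Pres.act_image_subset (g : P.G) {C : Set ℂ} (hC : C ⊆ P.Ω) : P.act g '' C ⊆ P.Ω := by
  rintro _ ⟨z, hz, rfl⟩
  exact P.act_mem g z (hC hz)

theorem Pres.act_image_eq (g : P.G) {C : Set ℂ} (hC : C ⊆ P.Ω) :
    P.act g '' C = P.Ω ∩ P.act g⁻¹ ⁻¹' C := by
  ext z
  constructor
  · rintro ⟨w, hw, rfl⟩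
    refine ⟨P.act_mem g w (hC hw), ?_⟩
    rw [mem_preimage, P.act_inv_act g w (hC hw)]
    exact hw
  · rintro ⟨hz, hw⟩
    exact ⟨_, hw, P.act_act_inv g z hz⟩

theorem Pres.act_preimage_meas (g : P.G) {C : Set ℂ} (hC : MeasurableSet C) :
    MeasurableSet (P.Ω ∩ P.act g ⁻¹' C) := by
  have h1 : Measurable (P.Ω.domRestrict (P.act g)) :=
    (continuousOn_iff_continuous_domRestrict.mp (P.holo g).continuousOn).measurable
  have h2 : P.Ω ∩ P.act g ⁻¹' C = Subtype.val '' ((P.Ω.domRestrict (P.act g)) ⁻¹' C) := by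
    ext z
    constructor
    · rintro ⟨hz, hw⟩
      exact ⟨⟨z, hz⟩, hw, rfl⟩
    · rintro ⟨w, hw, rfl⟩
      exact ⟨w.2, hw⟩
  rw [h2]
  exact P.isOpen.measurableSet.subtype_image (h1 hC)

theorem Pres.act_image_meas (g : P.G) {C : Set ℂ} (hC : C ⊆ P.Ω) (hm : MeasurableSet C) :
    MeasurableSet (P.act g '' C) := by
  rw [P.act_image_eq g hC]
  exact P.act_preimage_meas g⁻¹ hm

theorem Pres.area_apply {C : Set ℂ} (hC : C ⊆ P.Ω) (hm : MeasurableSet C) :
    P.area C = ∫⁻ z in C, ENNReal.ofReal (Real.exp (2 * P.u z)) := by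
  rw [Pres.area, withDensity_apply _ hm, Measure.restrict_restrict hm,
    inter_eq_self_of_subset_left hC]

theorem Pres.area_image (g : P.G) {C : Set ℂ} (hC : C ⊆ P.Ω) (hm : MeasurableSet C) :
    P.area (P.act g '' C) = P.area C := by
  rw [P.area_apply (P.act_image_subset g hC) (P.act_image_meas g hC hm), P.area_apply hC hm]
  rw [lintegral_image_eq_lintegral_abs_det_fderiv_mul volume hm
    (fun z hz => (P.act_hasFDerivAt g (hC hz)).hasFDerivWithinAt)
    ((P.act_injOn g).mono hC)]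
  refine setLIntegral_congr_fun hm fun z hz => ?_
  rw [mulL_det, abs_of_nonneg (by positivity), ← ENNReal.ofReal_mul (by positivity), mul_comm,
    P.isom_exp g (hC hz)]

theorem Pres.pr_measurable : Measurable P.pr := by
  classical
  have h1 : Measurable (P.Ω.domRestrict P.pr) :=
    (continuousOn_iff_continuous_domRestrict.mp P.pr_continuousOn).measurable
  have h2 : Measurable (P.Ωᶜ.domRestrict P.pr) := by
    have : P.Ωᶜ.domRestrict P.pr =
        fun _ => P.qm ⟨P.conn.nonempty.some, P.conn.nonempty.some_mem⟩ := by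
      funext z
      exact dif_neg z.2
    rw [this]
    exact measurable_const
  exact measurable_of_restrict_of_restrict_compl P.isOpen.measurableSet h1 h2

/-- The Riemannian area measure of `Ω / G` -/
def Pres.mu (F : Set ℂ) : Measure P.M := (P.area.restrict F).map P.pr

theorem Pres.mu_apply (F : Set ℂ) {A : Set P.M} (hA : MeasurableSet A) :
    P.mu F A = P.area (P.pr ⁻¹' A ∩ F) := by
  rw [Pres.mu, Measure.map_apply P.pr_measurable hA,
    Measure.restrict_apply (P.pr_measurable hA)]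

theorem Pres.area_ac : P.area ≪ volume :=
  (withDensity_absolutelyContinuous _ _).trans Measure.absolutelyContinuous_restrict

theorem Pres.area_fund {F : Set ℂ} (hF : P.IsFund F) {B : Set ℂ} (hB : B ⊆ P.Ω)
    (hm : MeasurableSet B) (hi : InjOn P.pr B) :
    P.area (P.pr ⁻¹' (P.pr '' B) ∩ F) = P.area B := by
  classical
  have e1 : P.pr ⁻¹' (P.pr '' B) ∩ F = ⋃ g : P.G, (P.act g '' B ∩ F) := by
    ext z
    simp only [mem_inter_iff, mem_preimage, mem_iUnion]
    constructor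
    · rintro ⟨⟨b, hb, h⟩, hz⟩
      obtain ⟨g, hg⟩ := (P.pr_eq_iff (hF.sub hz) (hB hb)).mp h.symm
      exact ⟨g, ⟨b, hb, hg⟩, hz⟩
    · rintro ⟨g, ⟨b, hb, rfl⟩, hz⟩
      exact ⟨⟨b, hb, (P.pr_act g (hB hb)).symm⟩, hz⟩
  have e2 : ∀ g : P.G, P.act g '' B ∩ F = P.act g '' (B ∩ (P.Ω ∩ P.act g ⁻¹' F)) := by
    intro g
    ext z
    constructor
    · rintro ⟨⟨b, hb, rfl⟩, hz⟩
      exact ⟨b, ⟨hb, hB hb, hz⟩, rfl⟩
    · rintro ⟨b, ⟨hb, _, hz⟩, rfl⟩
      exact ⟨⟨b, hb, rfl⟩, hz⟩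
  have hmg : ∀ g : P.G, MeasurableSet (P.Ω ∩ P.act g ⁻¹' F) := fun g =>
    P.act_preimage_meas g hF.meas
  have hdisj : Pairwise (Function.onFun Disjoint fun g : P.G => P.act g '' B ∩ F) := by
    intro g h hgh
    rw [Function.onFun, Set.disjoint_left]
    rintro z ⟨⟨b, hb, hz⟩, _⟩ ⟨⟨c, hc, hz'⟩, _⟩
    apply hgh
    have h1 : P.pr b = P.pr c := by
      rw [← P.pr_act g (hB hb), ← P.pr_act h (hB hc), hz, hz']
    have h2 : b = c := hi hb hc h1
    subst h2
    have h3 : P.act (h⁻¹ * g) b = b := by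
      rw [P.act_mul _ _ _ (hB hb), hz, ← hz', P.act_inv_act h b (hB hb)]
    have h4 := P.free _ b (hB hb) h3
    exact (inv_mul_eq_one.mp h4).symm
  rw [e1, measure_iUnion hdisj (fun g => (P.act_image_meas g hB hm).inter hF.meas)]
  have e3 : ∀ g : P.G, P.area (P.act g '' B ∩ F) =
      ∫⁻ z in B, (P.Ω ∩ P.act g ⁻¹' F).indicator (fun _ => (1 : ENNReal)) z ∂P.area := by
    intro g
    rw [e2 g, P.area_image g (inter_subset_left.trans hB) (hm.inter (hmg g)),
      lintegral_indicator (hmg g), lintegral_const, one_mul,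
      Measure.restrict_apply_univ, Measure.restrict_apply (hmg g), inter_comm]
  rw [tsum_congr e3, ← lintegral_tsum]
  · have e4 : ∀ᵐ z ∂(P.area.restrict B),
        (∑' g : P.G, (P.Ω ∩ P.act g ⁻¹' F).indicator (fun _ => (1 : ENNReal)) z) = 1 := by
      have h5 : ∀ᵐ z ∂P.area, z ∈ P.Ω → ∃! g : P.G, P.act g z ∈ F :=
        P.area_ac.ae_le hF.uniq
      rw [ae_restrict_iff' hm]
      filter_upwards [h5] with z hz hzB
      obtain ⟨g, hg, hu⟩ := hz (hB hzB)
      rw [tsum_eq_single g]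
      · have hq : z ∈ P.Ω ∩ P.act g ⁻¹' F := ⟨hB hzB, hg⟩
        exact indicator_of_mem hq _
      · intro h hne
        refine indicator_of_notMem ?_ _
        rintro ⟨_, hh⟩
        exact hne (hu h hh)
    rw [lintegral_congr_ae e4, lintegral_const, one_mul, Measure.restrict_apply_univ]
  · intro g
    exact (measurable_const.indicator (hmg g)).aemeasurable

theorem Pres.isRiemannianArea {F : Set ℂ} (hF : P.IsFund F) :
    IsRiemannianArea P.metric (P.mu F) := by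
  intro e he A hA hAe
  rw [P.mu_apply F hA]
  have h1 : e '' A = e.target ∩ P.pr ⁻¹' A := by
    ext u
    constructor
    · rintro ⟨x, hx, rfl⟩
      refine ⟨e.map_source (hAe hx), ?_⟩
      rw [mem_preimage, (P.chart_source he (hAe hx)).2]
      exact hx
    · rintro ⟨hu, hx⟩
      refine ⟨P.pr u, hx, ?_⟩
      rw [← (P.chart_target he hu).2]
      exact e.right_inv hu
  have hB : e '' A ⊆ P.Ω := by
    rintro _ ⟨x, hx, rfl⟩
    exact (P.chart_source he (hAe hx)).1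
  have hm : MeasurableSet (e '' A) := by
    rw [h1]
    exact e.open_target.measurableSet.inter (P.pr_measurable hA)
  have hi : InjOn P.pr (e '' A) := by
    rintro _ ⟨x, hx, rfl⟩ _ ⟨y, hy, rfl⟩ h
    rw [(P.chart_source he (hAe hx)).2, (P.chart_source he (hAe hy)).2] at h
    rw [h]
  have h2 : P.pr '' (e '' A) = A := by
    ext x
    constructor
    · rintro ⟨_, ⟨y, hy, rfl⟩, rfl⟩
      rw [(P.chart_source he (hAe hy)).2]
      exact hy
    · intro hx
      exact ⟨e x, mem_image_of_mem _ hx, (P.chart_source he (hAe hx)).2⟩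
  have h3 := P.area_fund hF hB hm hi
  rw [h2] at h3
  rw [h3, P.area_apply hB hm]
  refine setLIntegral_congr_fun hm fun u hu => ?_
  have hu' : u ∈ e.target := by
    rw [h1] at hu
    exact hu.1
  simp only [P.dens_eq he hu']

end

end Pool.Agent.EQ

end

/-! ## Lib_helper99.EQF.Func -/

section

/-! Eigenfunctions on `Ω / G`. -/

set_option autoImplicit false

namespace Pool.Agent.EQ

open MeasureTheory Filter Topology Set
open scoped ContDiff Manifold

noncomputable section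

variable (P : Pres)

/-- a chosen lift of a point -/
def Pres.lift (x : P.M) : ℂ := (P.pr_surj x).choose

theorem Pres.lift_mem (x : P.M) : P.lift x ∈ P.Ω := (P.pr_surj x).choose_spec.1

theorem Pres.pr_lift (x : P.M) : P.pr (P.lift x) = x := (P.pr_surj x).choose_spec.2

/-- the function on `M` induced by a `G`-invariant function -/
def Pres.desc (f : ℂ → ℝ) (x : P.M) : ℝ := f (P.lift x)

theorem Pres.desc_pr {f : ℂ → ℝ} (hf : ∀ g, ∀ z ∈ P.Ω, f (P.act g z) = f z) {z : ℂ}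
    (hz : z ∈ P.Ω) : P.desc f (P.pr z) = f z := by
  obtain ⟨g, hg⟩ := (P.pr_eq_iff (P.lift_mem (P.pr z)) hz).mp (P.pr_lift (P.pr z))
  rw [Pres.desc, ← hg, hf g z hz]

theorem Pres.desc_symm {f : ℂ → ℝ} (hf : ∀ g, ∀ z ∈ P.Ω, f (P.act g z) = f z)
    {e : OpenPartialHomeomorph P.M ℂ} (he : e ∈ atlas ℂ P.M) {u : ℂ} (hu : u ∈ e.target) :
    P.desc f (e.symm u) = f u := by
  obtain ⟨h1, h2⟩ := P.chart_target he hu
  rw [h2, P.desc_pr hf h1]

theorem Pres.desc_contMDiff {f : ℂ → ℝ} (hf : P.IsFun f) :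
    ContMDiff 𝓘(ℝ, ℂ) 𝓘(ℝ, ℝ) ∞ (P.desc f) := by
  intro x₀
  have h1 : ContMDiffAt 𝓘(ℝ, ℂ) 𝓘(ℝ, ℂ) ∞ (chartAt ℂ x₀) x₀ := contMDiffAt_extChartAt
  have hz : chartAt ℂ x₀ x₀ ∈ P.Ω :=
    (P.chart_source (chart_mem_atlas ℂ x₀) (mem_chart_source ℂ x₀)).1
  have h2 : ContDiffAt ℝ ∞ f (chartAt ℂ x₀ x₀) := hf.smooth.contDiffAt (P.isOpen.mem_nhds hz)
  refine (h2.contMDiffAt.comp x₀ h1).congr_of_eventuallyEq ?_
  filter_upwards [(chartAt ℂ x₀).open_source.mem_nhds (mem_chart_source ℂ x₀)] with x hx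
  have h3 := P.chart_source (chart_mem_atlas ℂ x₀) hx
  rw [Function.comp_apply, ← P.desc_pr hf.inv h3.1, h3.2]

theorem Pres.beltrami_desc {f : ℂ → ℝ} (hf : P.IsFun f) {e : OpenPartialHomeomorph P.M ℂ}
    (he : e ∈ atlas ℂ P.M) {u : ℂ} (hu : u ∈ e.target) :
    beltrami P.metric e (P.desc f) u = 1 / Real.exp (2 * P.u u) * lap f u := by
  have h0 : ∀ z ∈ e.target, (fun y => P.desc f (e.symm y)) =ᶠ[𝓝 z] f := by
    intro z hz
    filter_upwards [e.open_target.mem_nhds hz] with y hy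
    exact P.desc_symm hf.inv he hy
  have h1 : (fun z => (gram P.metric e z Complex.I Complex.I *
      fderiv ℝ (fun y => P.desc f (e.symm y)) z 1 - gram P.metric e z 1 Complex.I *
      fderiv ℝ (fun y => P.desc f (e.symm y)) z Complex.I) / dens P.metric e z)
      =ᶠ[𝓝 u] dx f := by
    filter_upwards [e.open_target.mem_nhds hu] with z hz
    rw [(h0 z hz).fderiv_eq, P.gram_eq he hz, P.gram_eq he hz, P.dens_eq he hz, inner_I_I,
      inner_one_I, mul_one, mul_zero, zero_mul, sub_zero,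
      mul_div_cancel_left₀ _ (Real.exp_pos _).ne']
    rfl
  have h2 : (fun z => (gram P.metric e z 1 1 *
      fderiv ℝ (fun y => P.desc f (e.symm y)) z Complex.I - gram P.metric e z 1 Complex.I *
      fderiv ℝ (fun y => P.desc f (e.symm y)) z 1) / dens P.metric e z)
      =ᶠ[𝓝 u] dy f := by
    filter_upwards [e.open_target.mem_nhds hu] with z hz
    rw [(h0 z hz).fderiv_eq, P.gram_eq he hz, P.gram_eq he hz, P.dens_eq he hz, inner_one_one,
      inner_one_I, mul_one, mul_zero, zero_mul, sub_zero,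
      mul_div_cancel_left₀ _ (Real.exp_pos _).ne']
    rfl
  unfold beltrami
  rw [h1.fderiv_eq, h2.fderiv_eq, P.dens_eq he hu]
  rfl

theorem Pres.isEigenfunction {f : ℂ → ℝ} {lam : ℝ} (hf : P.IsEigen f lam) :
    IsEigenfunction P.metric (P.desc f) lam := by
  refine ⟨P.desc_contMDiff hf.toIsFun, fun e he u hu => ?_⟩
  have h1 := P.chart_target he hu
  rw [P.beltrami_desc hf.toIsFun he hu, P.desc_symm hf.inv he hu]
  have h2 := hf.eq u h1.1
  have h3 : lap f u = -(lam * Real.exp (2 * P.u u) * f u) := by rw [← h2, neg_neg]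
  rw [h3]
  have h4 := (Real.exp_pos (2 * P.u u)).ne'
  field_simp

theorem Pres.integral_desc {f : ℂ → ℝ} (hf : P.IsFun f) {F : Set ℂ} (hF : P.IsFund F)
    {D : Set P.M} (hD : MeasurableSet D) :
    ∫ x in D, P.desc f x ^ 2 ∂(P.mu F) =
      ∫ z in P.pr ⁻¹' D ∩ F, f z ^ 2 ∂P.area := by
  rw [Pres.mu, Measure.restrict_map P.pr_measurable hD, integral_map P.pr_measurable.aemeasurable,
    Measure.restrict_restrict (P.pr_measurable hD)]
  · refine setIntegral_congr_fun ((P.pr_measurable hD).inter hF.meas) fun z hz => ?_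
    simp only [P.desc_pr hf.inv (hF.sub hz.2)]
  · exact ((P.desc_contMDiff hf).continuous.pow 2).aestronglyMeasurable

end

end Pool.Agent.EQ

end

/-! ## Lib_helper99.EQF.Tangent -/

section

/-! Unit tangent vectors of `Ω / G`. -/

set_option autoImplicit false

namespace Pool.Agent.EQ

open MeasureTheory Filter Topology Set
open scoped ContDiff Manifold

noncomputable section

variable (P : Pres)

theorem tb_ext {M : Type} [TopologicalSpace M] [ChartedSpace ℂ M] {x y : M} (h : x = y) (a b : ℂ)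
    (h2 : a = b) : (⟨x, a⟩ : TangentBundle 𝓘(ℝ, ℂ) M) = ⟨y, b⟩ := by
  subst h
  subst h2
  rfl

/-- the second component as a complex number -/
def sndC {M : Type} [TopologicalSpace M] [ChartedSpace ℂ M] (ξ : TangentBundle 𝓘(ℝ, ℂ) M) : ℂ :=
  ξ.snd

theorem tb_inj {M : Type} [TopologicalSpace M] [ChartedSpace ℂ M] {x y : M} {a b : ℂ}
    (h : (⟨x, a⟩ : TangentBundle 𝓘(ℝ, ℂ) M) = ⟨y, b⟩) : x = y ∧ a = b :=
  ⟨congrArg Bundle.TotalSpace.proj h, congrArg sndC h⟩

/-- the tangent vector of `M` below the vector `w` at `z` -/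
def Pres.tv (z w : ℂ) : TangentBundle 𝓘(ℝ, ℂ) P.M :=
  ⟨P.pr z, mfderiv 𝓘(ℝ, ℂ) 𝓘(ℝ, ℂ) P.pr z (w : TangentSpace 𝓘(ℝ, ℂ) z)⟩

theorem Pres.tv_proj (z w : ℂ) : (P.tv z w).proj = P.pr z := rfl

theorem Pres.tv_smul (z w : ℂ) (r : ℝ) : P.tv z (r • w) = ⟨P.pr z, r • (P.tv z w).snd⟩ := by
  unfold Pres.tv
  congr 1
  exact map_smul (mfderiv 𝓘(ℝ, ℂ) 𝓘(ℝ, ℂ) P.pr z : ℂ →L[ℝ] ℂ) r w

theorem Pres.deriv_act_mul (g h : P.G) {z : ℂ} (hz : z ∈ P.Ω) :
    deriv (P.act (g * h)) z = deriv (P.act g) (P.act h z) * deriv (P.act h) z := by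
  have h1 : HasDerivAt (P.act h) (deriv (P.act h) z) z :=
    ((P.holo h).differentiableAt (P.isOpen.mem_nhds hz)).hasDerivAt
  have h2 : HasDerivAt (P.act g) (deriv (P.act g) (P.act h z)) (P.act h z) :=
    ((P.holo g).differentiableAt (P.isOpen.mem_nhds (P.act_mem h z hz))).hasDerivAt
  refine (((h2.comp z h1).congr_of_eventuallyEq ?_)).deriv
  filter_upwards [P.isOpen.mem_nhds hz] with w hw
  exact P.act_mul g h w hw

theorem Pres.tv_act (g : P.G) {z : ℂ} (hz : z ∈ P.Ω) (w : ℂ) :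
    P.tv (P.act g z) (deriv (P.act g) z * w) = P.tv z w := by
  obtain ⟨h, hh, hd⟩ := P.mfderiv_pr hz
  obtain ⟨k, hk, hd'⟩ := P.mfderiv_pr (P.act_mem g z hz)
  refine tb_ext (P.pr_act g hz) _ _ ?_
  rw [hd, hd', ← mul_assoc, ← P.deriv_act_mul k g hz]
  have h1 : k * g = h := by
    have h2 : P.act (k * g) z = P.act h z := by
      rw [P.act_mul k g z hz, hk, hh, P.pr_act g hz]
    have h3 : P.act (h⁻¹ * (k * g)) z = z := by
      rw [P.act_mul _ _ z hz, h2, P.act_inv_act h z hz]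
    exact (inv_mul_eq_one.mp (P.free _ z hz h3)).symm
  rw [h1]

theorem Pres.tv_inj {z w w' : ℂ} (hz : z ∈ P.Ω) (h : P.tv z w = P.tv z w') : w = w' := by
  obtain ⟨g, hg, hd⟩ := P.mfderiv_pr hz
  have h1 := (tb_inj h).2
  rw [hd, hd] at h1
  exact mul_left_cancel₀ (P.act_deriv_ne g hz) h1

theorem Pres.tv_surj (ξ : TangentBundle 𝓘(ℝ, ℂ) P.M) : ∃ z ∈ P.Ω, ∃ w : ℂ, P.tv z w = ξ := by
  have key : ∀ (x : P.M) (a : ℂ), ∃ z ∈ P.Ω, ∃ w : ℂ,
      P.tv z w = (⟨x, a⟩ : TangentBundle 𝓘(ℝ, ℂ) P.M) := by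
    intro x a
    obtain ⟨z, hz, rfl⟩ := P.pr_surj x
    obtain ⟨g, hg, hd⟩ := P.mfderiv_pr hz
    refine ⟨z, hz, (deriv (P.act g) z)⁻¹ * a, ?_⟩
    refine tb_ext rfl _ _ ?_
    rw [hd, mul_inv_cancel_left₀ (P.act_deriv_ne g hz)]
  exact key ξ.proj ξ.snd

theorem Pres.metric_tv {z : ℂ} (hz : z ∈ P.Ω) (w : ℂ) :
    P.metric.inner (P.tv z w).proj (P.tv z w).snd (P.tv z w).snd =
      Real.exp (2 * P.u z) * ‖w‖ ^ 2 := by
  rw [← real_inner_self_eq_norm_sq]
  exact P.inn_pr hz w w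

/-- the vector of direction `θ` and Riemannian length `1` at `z` -/
def Pres.dir (v : ℂ × ℝ) : ℂ := (Real.exp (-P.u v.1) : ℂ) * Complex.exp (v.2 * Complex.I)

theorem Pres.norm_dir (v : ℂ × ℝ) : ‖P.dir v‖ = Real.exp (-P.u v.1) := by
  rw [Pres.dir, norm_mul, Complex.norm_exp_ofReal_mul_I, mul_one, Complex.norm_real,
    Real.norm_of_nonneg (Real.exp_pos _).le]

theorem Pres.unit_aux {v : ℂ × ℝ} (hv : v.1 ∈ P.Ω) :
    P.metric.inner (P.tv v.1 (P.dir v)).proj (P.tv v.1 (P.dir v)).snd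
      (P.tv v.1 (P.dir v)).snd = 1 := by
  rw [P.metric_tv hv, P.norm_dir, ← Real.exp_nat_mul, ← Real.exp_add]
  have : 2 * P.u v.1 + ((2 : ℕ) : ℝ) * -P.u v.1 = 0 := by push_cast; ring
  rw [this, Real.exp_zero]

/-- a unit tangent vector -/
def utMk (ξ : TangentBundle 𝓘(ℝ, ℂ) P.M) (h : P.metric.inner ξ.proj ξ.snd ξ.snd = 1) :
    UnitTangent P.metric := ⟨ξ, h⟩

/-- the unit tangent vector of `M` below the point `v` of the phase space -/
def Pres.unit (v : ℂ × ℝ) : UnitTangent P.metric := by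
  classical
  exact if h : v.1 ∈ P.Ω then utMk P (P.tv v.1 (P.dir v)) (P.unit_aux h) else
    utMk P (P.tv P.conn.nonempty.some (P.dir (P.conn.nonempty.some, 0)))
      (P.unit_aux (v := (P.conn.nonempty.some, 0)) P.conn.nonempty.some_mem)

theorem Pres.unit_val {v : ℂ × ℝ} (hv : v.1 ∈ P.Ω) : (P.unit v).1 = P.tv v.1 (P.dir v) :=
  congrArg Subtype.val (dif_pos hv)

theorem Pres.mem_S {v : ℂ × ℝ} : v ∈ P.S ↔ v.1 ∈ P.Ω := by
  simp [Pres.S]

/-- every unit tangent vector lifts -/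
theorem Pres.unit_surj (ξ : UnitTangent P.metric) : ∃ v ∈ P.S, P.unit v = ξ := by
  obtain ⟨z, hz, w, hw⟩ := P.tv_surj ξ.1
  have h1 : Real.exp (2 * P.u z) * ‖w‖ ^ 2 = 1 := by
    rw [← P.metric_tv hz w, hw]
    exact ξ.2
  have h2 : ‖w‖ = Real.exp (-P.u z) := by
    have h3 : ‖w‖ ^ 2 = Real.exp (-P.u z) ^ 2 := by
      rw [← Real.exp_nat_mul]
      have h4 : Real.exp (2 * P.u z) * Real.exp (((2 : ℕ) : ℝ) * -P.u z) = 1 := by
        rw [← Real.exp_add]
        have : 2 * P.u z + ((2 : ℕ) : ℝ) * -P.u z = 0 := by push_cast; ring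
        rw [this, Real.exp_zero]
      exact mul_left_cancel₀ (Real.exp_pos _).ne' (h1.trans h4.symm)
    exact (pow_left_inj₀ (norm_nonneg _) (Real.exp_pos _).le two_ne_zero).mp h3
  refine ⟨(z, w.arg), P.mem_S.mpr hz, Subtype.ext ?_⟩
  rw [P.unit_val (v := (z, w.arg)) hz, ← hw]
  congr 1
  rw [Pres.dir]
  simp only
  rw [← h2]
  exact Complex.norm_mul_exp_arg_mul_I w

theorem Pres.unit_eq_of {v w : ℂ × ℝ} (hv : v.1 ∈ P.Ω) (g : P.G) (n : ℤ)
    (h : w = ((P.actS g v).1, (P.actS g v).2 + n * (2 * Real.pi))) : P.unit w = P.unit v := by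
  subst h
  have hw : (P.actS g v).1 ∈ P.Ω := P.act_mem g v.1 hv
  refine Subtype.ext ?_
  rw [P.unit_val (v := ((P.actS g v).1, (P.actS g v).2 + n * (2 * Real.pi))) hw, P.unit_val hv,
    ← P.tv_act g hv]
  simp only [Pres.actS]
  congr 1
  rw [Pres.dir, Pres.dir]
  simp only
  have h1 : Real.exp (-P.u (P.act g v.1)) = ‖deriv (P.act g) v.1‖ * Real.exp (-P.u v.1) := by
    have h2 : 0 < ‖deriv (P.act g) v.1‖ := norm_pos_iff.mpr (P.act_deriv_ne g hv)
    rw [← P.isom g v.1 hv, neg_add, Real.exp_add]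
    rw [mul_comm, mul_assoc, ← Real.exp_log h2, Real.log_exp, ← Real.exp_add, neg_add_cancel,
      Real.exp_zero, mul_one]
  have h3 : Complex.exp (((v.2 + (deriv (P.act g) v.1).arg + n * (2 * Real.pi) : ℝ) : ℂ) *
      Complex.I) = Complex.exp (v.2 * Complex.I) *
      Complex.exp ((deriv (P.act g) v.1).arg * Complex.I) := by
    rw [← Complex.exp_add, Complex.exp_eq_exp_iff_exists_int]
    refine ⟨n, ?_⟩
    push_cast
    ring
  rw [h1, h3]
  push_cast
  have h4 := Complex.norm_mul_exp_arg_mul_I (deriv (P.act g) v.1)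
  calc (‖deriv (P.act g) v.1‖ : ℂ) * (Complex.exp (-P.u v.1)) *
        (Complex.exp (v.2 * Complex.I) *
        Complex.exp ((deriv (P.act g) v.1).arg * Complex.I))
      = ((‖deriv (P.act g) v.1‖ : ℂ) * Complex.exp ((deriv (P.act g) v.1).arg * Complex.I)) *
        (Complex.exp (-P.u v.1) * Complex.exp (v.2 * Complex.I)) := by ring
    _ = _ := by rw [h4]

theorem Pres.unit_eq_iff {v w : ℂ × ℝ} (hv : v.1 ∈ P.Ω) (hw : w.1 ∈ P.Ω)
    (h : P.unit w = P.unit v) :
    ∃ (g : P.G) (n : ℤ), w = ((P.actS g v).1, (P.actS g v).2 + n * (2 * Real.pi)) := by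
  have h0 : P.tv w.1 (P.dir w) = P.tv v.1 (P.dir v) := by
    rw [← P.unit_val hw, ← P.unit_val hv, h]
  obtain ⟨g, hg⟩ := (P.pr_eq_iff hw hv).mp (tb_inj h0).1
  refine ⟨g, ?_⟩
  have h1 : P.unit (P.actS g v) = P.unit v := P.unit_eq_of hv g 0 (by simp)
  have hgv : (P.actS g v).1 ∈ P.Ω := P.act_mem g v.1 hv
  have h2 : P.tv w.1 (P.dir w) = P.tv w.1 (P.dir (P.actS g v)) := by
    have h3 : (P.actS g v).1 = w.1 := hg
    rw [← P.unit_val hw, h, ← h1, P.unit_val hgv, h3]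
  have h4 := P.tv_inj hw h2
  have h5 : (P.actS g v).1 = w.1 := hg
  rw [Pres.dir, Pres.dir, h5] at h4
  have h6 := mul_left_cancel₀ (Complex.ofReal_ne_zero.mpr (Real.exp_pos (-P.u w.1)).ne') h4
  obtain ⟨n, hn⟩ := Complex.exp_eq_exp_iff_exists_int.mp h6
  refine ⟨n, Prod.ext hg.symm ?_⟩
  have h7 : (w.2 : ℂ) * Complex.I =
      (((P.actS g v).2 + n * (2 * Real.pi) : ℝ) : ℂ) * Complex.I := by
    rw [hn]
    push_cast
    ring
  have h8 := mul_right_cancel₀ Complex.I_ne_zero h7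
  exact_mod_cast h8

end

end Pool.Agent.EQ

end

/-! ## Lib_helper99.EQF.Cont -/

section

/-! Continuity of the projection of the phase space to the unit tangent bundle. -/

set_option autoImplicit false

namespace Pool.Agent.EQ

open MeasureTheory Filter Topology Set
open scoped ContDiff Manifold

noncomputable section

variable (P : Pres)

theorem Pres.pr_contMDiffOn : ContMDiffOn 𝓘(ℝ, ℂ) 𝓘(ℝ, ℂ) ∞ P.pr P.Ω :=
  fun _ hz => (P.pr_contMDiffAt hz).contMDiffWithinAt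

theorem Pres.tv_continuousOn :
    ContinuousOn (fun p : ℂ × ℂ => P.tv p.1 p.2) (P.Ω ×ˢ univ) := by
  have h1 := P.pr_contMDiffOn.continuousOn_tangentMapWithin (by simp)
    P.isOpen.uniqueMDiffOn
  have h2 : Continuous (fun p : ℂ × ℂ => (⟨p.1, p.2⟩ : TangentBundle 𝓘(ℝ, ℂ) ℂ)) :=
    (tangentBundleModelSpaceHomeomorph 𝓘(ℝ, ℂ)).symm.continuous
  have h3 := h1.comp h2.continuousOn (s := P.Ω ×ˢ univ) (fun p hp => hp.1)
  refine h3.congr ?_
  intro p hp
  simp only [Function.comp_apply, tangentMapWithin, Pres.tv]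
  rw [mfderivWithin_of_isOpen P.isOpen hp.1]

theorem Pres.dir_continuousOn : ContinuousOn P.dir P.S := by
  unfold Pres.dir
  have h1 : ContinuousOn (fun v : ℂ × ℝ => P.u v.1) P.S :=
    P.smooth.continuousOn.comp continuous_fst.continuousOn (fun v hv => P.mem_S.mp hv)
  have h2 : ContinuousOn (fun v : ℂ × ℝ => ((Real.exp (-P.u v.1) : ℝ) : ℂ)) P.S :=
    Complex.continuous_ofReal.comp_continuousOn (Real.continuous_exp.comp_continuousOn h1.neg)
  have h3 : Continuous (fun v : ℂ × ℝ => Complex.exp (v.2 * Complex.I)) := by fun_prop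
  exact h2.mul h3.continuousOn

theorem Pres.unit_continuousOn : ContinuousOn P.unit P.S := by
  have h1 : ContinuousOn (fun v : ℂ × ℝ => P.tv v.1 (P.dir v)) P.S :=
    P.tv_continuousOn.comp (continuous_fst.continuousOn.prodMk P.dir_continuousOn)
      (fun v hv => ⟨P.mem_S.mp hv, mem_univ _⟩)
  have hi : IsInducing (fun ξ : UnitTangent P.metric => ξ.1) := IsInducing.subtypeVal
  exact hi.continuousOn_iff.mpr (h1.congr fun v hv => P.unit_val (P.mem_S.mp hv))

theorem Pres.S_measurable : MeasurableSet P.S := P.isOpen.measurableSet.prod MeasurableSet.univ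

/-- the lift of a set of unit tangent vectors to the phase space -/
def Pres.liftSet (A : Set (UnitTangent P.metric)) : Set (ℂ × ℝ) := {v | v ∈ P.S ∧ P.unit v ∈ A}

theorem Pres.liftSet_measurable {A : Set (UnitTangent P.metric)} (hA : MeasurableSet A) :
    MeasurableSet (P.liftSet A) := by
  have h1 : Measurable (P.S.domRestrict P.unit) :=
    (continuousOn_iff_continuous_domRestrict.mp P.unit_continuousOn).measurable
  have h2 : P.liftSet A = Subtype.val '' ((P.S.domRestrict P.unit) ⁻¹' A) := by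
    ext v
    constructor
    · rintro ⟨hv, hw⟩
      exact ⟨⟨v, hv⟩, hw, rfl⟩
    · rintro ⟨w, hw, rfl⟩
      exact ⟨w.2, hw⟩
  rw [h2]
  exact P.S_measurable.subtype_image (h1 hA)

theorem Pres.liftSet_isSetUM {A : Set (UnitTangent P.metric)} (hA : MeasurableSet A) :
    P.IsSetUM (P.liftSet A) where
  meas := P.liftSet_measurable hA
  per := by
    intro v hv
    have h1 : P.unit (v.1, v.2 + 2 * Real.pi) = P.unit v := by
      refine P.unit_eq_of (P.mem_S.mp hv) 1 1 ?_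
      have h2 : P.actS 1 v = v := by
        have h3 : deriv (P.act 1) v.1 = 1 := by
          have h4 : HasDerivAt (P.act 1) 1 v.1 := by
            refine (hasDerivAt_id v.1).congr_of_eventuallyEq ?_
            filter_upwards [P.isOpen.mem_nhds (P.mem_S.mp hv)] with w hw
            exact P.act_one w hw
          exact h4.deriv
        rw [Pres.actS, P.act_one _ (P.mem_S.mp hv), h3, Complex.arg_one, add_zero]
      rw [h2]
      simp
    simp only [Pres.liftSet, mem_ofPred_eq, h1]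
    simp only [P.mem_S]
  inv := by
    intro g v hv
    have h1 : P.unit (P.actS g v) = P.unit v :=
      P.unit_eq_of (P.mem_S.mp hv) g 0 (by simp)
    have h2 : P.actS g v ∈ P.S := P.mem_S.mpr (P.act_mem g v.1 (P.mem_S.mp hv))
    simp only [Pres.liftSet, mem_ofPred_eq, h1, h2, hv]

end

end Pool.Agent.EQ

end

/-! ## Lib_helper99.EQF.Geod -/

section

/-! Geodesics of `Ω / G`. -/

set_option autoImplicit false

namespace Pool.Agent.EQ

open MeasureTheory Filter Topology Set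
open scoped ContDiff Manifold

noncomputable section

variable (P : Pres)

theorem Pres.fderiv_u_contDiffOn : ContDiffOn ℝ ∞ (fderiv ℝ P.u) P.Ω :=
  P.smooth.fderiv_of_isOpen P.isOpen (by simp)

theorem Pres.dx_contDiffOn : ContDiffOn ℝ ∞ (dx P.u) P.Ω :=
  P.fderiv_u_contDiffOn.clm_apply contDiffOn_const

theorem Pres.dy_contDiffOn : ContDiffOn ℝ ∞ (dy P.u) P.Ω :=
  P.fderiv_u_contDiffOn.clm_apply contDiffOn_const

theorem Pres.fst_contDiffOn {f : ℂ → ℝ} (hf : ContDiffOn ℝ ∞ f P.Ω) :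
    ContDiffOn ℝ ∞ (fun v : ℂ × ℝ => f v.1) P.S :=
  hf.comp contDiffOn_fst (fun _ hv => P.mem_S.mp hv)

theorem Pres.XX_contDiffOn : ContDiffOn ℝ ∞ (XX P.u) P.S := by
  have h1 : ContDiffOn ℝ ∞ (fun v : ℂ × ℝ => Real.exp (-P.u v.1)) P.S :=
    (P.fst_contDiffOn P.smooth).neg.exp
  have h2 : ContDiffOn ℝ ∞ (fun v : ℂ × ℝ => ((Real.exp (-P.u v.1) : ℝ) : ℂ)) P.S :=
    Complex.ofRealCLM.contDiff.comp_contDiffOn h1
  have h3 : ContDiff ℝ ∞ (fun v : ℂ × ℝ => Complex.exp (v.2 * Complex.I)) := by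
    have h4 : ContDiff ℝ ∞ (fun v : ℂ × ℝ => ((v.2 : ℝ) : ℂ) * Complex.I) :=
      (Complex.ofRealCLM.contDiff.comp contDiff_snd).mul contDiff_const
    exact h4.cexp
  have h5 : ContDiffOn ℝ ∞ (fun v : ℂ × ℝ => Real.sin v.2) P.S :=
    (Real.contDiff_sin.comp contDiff_snd).contDiffOn
  have h6 : ContDiffOn ℝ ∞ (fun v : ℂ × ℝ => Real.cos v.2) P.S :=
    (Real.contDiff_cos.comp contDiff_snd).contDiffOn
  exact (h2.mul h3.contDiffOn).prodMk (h1.mul
    (((P.fst_contDiffOn P.dx_contDiffOn).neg.mul h5).add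
      ((P.fst_contDiffOn P.dy_contDiffOn).mul h6)))

theorem Pres.isGeod_contDiff {c : ℝ → ℂ × ℝ} (hc : P.IsGeod c) : ContDiff ℝ ∞ c := by
  rw [contDiff_infty]
  intro n
  induction n with
  | zero =>
    rw [Nat.cast_zero, contDiff_zero]
    exact continuous_iff_continuousAt.mpr fun t => (hc t).2.continuousAt
  | succ n ih =>
    have h1 : deriv c = fun t => XX P.u (c t) := funext fun t => (hc t).2.deriv
    rw [Nat.cast_succ, contDiff_succ_iff_deriv]
    refine ⟨fun t => (hc t).2.differentiableAt, ?_, ?_⟩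
    · intro h
      exact absurd h (by simp)
    · rw [h1]
      exact (P.XX_contDiffOn.of_le (by exact_mod_cast le_top)).comp_contDiff ih
        (fun t => (hc t).1)

theorem Pres.isGeod_phi (Φ : GFlow P) {v : ℂ × ℝ} (hv : v ∈ P.S) :
    P.IsGeod (fun t => Φ.φ t v) :=
  fun t => ⟨Φ.mem t v hv, Φ.deriv_t t v hv⟩

theorem Pres.curve_contMDiff {c : ℝ → ℂ × ℝ} (hc : P.IsGeod c) :
    ContMDiff 𝓘(ℝ, ℝ) 𝓘(ℝ, ℂ) ∞ (fun t => P.pr (c t).1) := by
  intro t
  have h1 : ContMDiffAt 𝓘(ℝ, ℝ) 𝓘(ℝ, ℂ) ∞ (fun t => (c t).1) t :=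
    ((P.isGeod_contDiff hc).fst).contDiffAt.contMDiffAt
  exact (P.pr_contMDiffAt (P.mem_S.mp (hc t).1)).comp t h1

theorem Pres.curve_velocity {c : ℝ → ℂ × ℝ} (hc : P.IsGeod c) (t : ℝ) :
    velocity (fun t => P.pr (c t).1) t = P.tv (c t).1 (P.dir (c t)) := by
  have h1 : HasDerivAt (fun t => (c t).1) (P.dir (c t)) t := (hc t).2.fst
  have h2 : HasMFDerivAt 𝓘(ℝ, ℝ) 𝓘(ℝ, ℂ) (fun t => (c t).1) t
      (ContinuousLinearMap.toSpanSingleton ℝ (P.dir (c t))) :=
    h1.hasFDerivAt.hasMFDerivAt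
  have h3 : HasMFDerivAt 𝓘(ℝ, ℂ) 𝓘(ℝ, ℂ) P.pr (c t).1 (mfderiv 𝓘(ℝ, ℂ) 𝓘(ℝ, ℂ) P.pr (c t).1) :=
    ((P.pr_contMDiffAt (P.mem_S.mp (hc t).1)).mdifferentiableAt (by simp)).hasMFDerivAt
  have h4 := (h3.comp t h2).mfderiv
  refine tb_ext rfl _ _ ?_
  change (mfderiv 𝓘(ℝ, ℝ) 𝓘(ℝ, ℂ) (P.pr ∘ fun t => (c t).1) t (1 : ℝ) : ℂ) = _
  rw [h4]
  change (mfderiv 𝓘(ℝ, ℂ) 𝓘(ℝ, ℂ) P.pr (c t).1 : ℂ →L[ℝ] ℂ)
    ((ContinuousLinearMap.toSpanSingleton ℝ (P.dir (c t))) (1 : ℝ)) = _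
  rw [ContinuousLinearMap.toSpanSingleton_apply, one_smul]

theorem Pres.inner_dir (v : ℂ × ℝ) (w : ℂ) : inner ℝ (P.dir v) w =
    Real.exp (-P.u v.1) * (Real.cos v.2 * w.re + Real.sin v.2 * w.im) := by
  rw [Pres.dir, Complex.exp_ofReal_mul_I]
  simp only [Complex.inner, map_mul, Complex.conj_ofReal, map_add, Complex.conj_I,
    Complex.mul_re, Complex.ofReal_re, Complex.ofReal_im, Complex.add_re, Complex.add_im,
    Complex.mul_im, Complex.neg_re, Complex.neg_im, Complex.I_re, Complex.I_im]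
  ring

theorem fderiv_apply_eq (u : ℂ → ℝ) (z w : ℂ) :
    fderiv ℝ u z w = w.re * dx u z + w.im * dy u z := by
  have h1 : w = w.re • (1 : ℂ) + w.im • Complex.I := by
    apply Complex.ext <;> simp
  conv_lhs => rw [h1]
  rw [map_add, map_smul, map_smul]
  rfl

theorem Pres.EL_aux {c : ℝ → ℂ × ℝ} (hc : P.IsGeod c) (w : ℂ) (t : ℝ) :
    HasDerivAt (fun s => Real.exp (2 * P.u (c s).1) * inner ℝ (P.dir (c s)) w)
      (fderiv ℝ P.u (c t).1 w) t := by
  have hz : (c t).1 ∈ P.Ω := P.mem_S.mp (hc t).1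
  have hu : DifferentiableAt ℝ P.u (c t).1 :=
    (P.smooth.contDiffAt (P.isOpen.mem_nhds hz)).differentiableAt (by simp)
  have h1 : HasDerivAt (fun s => (c s).1) (P.dir (c t)) t := (hc t).2.fst
  have h2 : HasDerivAt (fun s => (c s).2) (Real.exp (-P.u (c t).1) *
      (-(dx P.u (c t).1) * Real.sin (c t).2 + dy P.u (c t).1 * Real.cos (c t).2)) t :=
    (hc t).2.snd
  have h3 : HasDerivAt (fun s => P.u (c s).1) (fderiv ℝ P.u (c t).1 (P.dir (c t))) t :=
    hu.hasFDerivAt.comp_hasDerivAt t h1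
  have h4 : (fun s => Real.exp (2 * P.u (c s).1) * inner ℝ (P.dir (c s)) w) =
      fun s => Real.exp (P.u (c s).1) * (Real.cos (c s).2 * w.re + Real.sin (c s).2 * w.im) := by
    funext s
    rw [P.inner_dir, ← mul_assoc, ← Real.exp_add]
    congr 2
    ring
  rw [h4]
  have h5 := h3.exp.mul ((h2.cos.mul_const w.re).add (h2.sin.mul_const w.im))
  refine h5.congr_deriv ?_
  have h6 : (P.dir (c t)).re = Real.exp (-P.u (c t).1) * Real.cos (c t).2 := by
    rw [Pres.dir, Complex.exp_ofReal_mul_I]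
    simp only [Complex.mul_re, Complex.ofReal_re, Complex.ofReal_im, Complex.add_re,
      Complex.add_im, Complex.mul_im, Complex.I_re, Complex.I_im]
    ring
  have h7 : (P.dir (c t)).im = Real.exp (-P.u (c t).1) * Real.sin (c t).2 := by
    rw [Pres.dir, Complex.exp_ofReal_mul_I]
    simp only [Complex.mul_re, Complex.ofReal_re, Complex.ofReal_im, Complex.add_re,
      Complex.add_im, Complex.mul_im, Complex.I_re, Complex.I_im]
    ring
  simp only [Pi.add_apply]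
  rw [fderiv_apply_eq P.u _ (P.dir (c t)), fderiv_apply_eq P.u _ w, h6, h7]
  have h8 : Real.exp (P.u (c t).1) * Real.exp (-P.u (c t).1) = 1 := by
    rw [← Real.exp_add, add_neg_cancel, Real.exp_zero]
  have h9 := Real.sin_sq_add_cos_sq (c t).2
  generalize Real.exp (P.u (c t).1) = a at h8 ⊢
  generalize Real.exp (-P.u (c t).1) = b at h8 ⊢
  generalize Real.sin (c t).2 = sn at h9 ⊢
  generalize Real.cos (c t).2 = cs at h9 ⊢
  generalize dx P.u (c t).1 = ux
  generalize dy P.u (c t).1 = uy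
  linear_combination (w.re * ux + w.im * uy) * (sn ^ 2 + cs ^ 2) * h8 +
    (w.re * ux + w.im * uy) * h9

/-- In a chart a geodesic is again the first component of an orbit. -/
theorem Pres.curve_chart (Φ : GFlow P) {v : ℂ × ℝ} (hv : v ∈ P.S)
    {e : OpenPartialHomeomorph P.M ℂ} (he : e ∈ atlas ℂ P.M) {t : ℝ}
    (ht : P.pr (Φ.φ t v).1 ∈ e.source) :
    ∃ v' ∈ P.S, ∀ᶠ s in 𝓝 t, (Φ.φ s v').1 ∈ e.target ∧
      e (P.pr (Φ.φ s v).1) = (Φ.φ s v').1 := by
  have hz : (Φ.φ t v).1 ∈ P.Ω := P.mem_S.mp (Φ.mem t v hv)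
  obtain ⟨g, hg⟩ := P.chart_pr he hz ht
  refine ⟨P.actS g v, P.mem_S.mpr (P.act_mem g v.1 (P.mem_S.mp hv)), ?_⟩
  have hc : Continuous (fun s => (Φ.φ s v).1) :=
    (P.isGeod_contDiff (P.isGeod_phi Φ hv)).continuous.fst
  have h1 : ∀ s, (Φ.φ s (P.actS g v)).1 = P.act g (Φ.φ s v).1 := by
    intro s
    obtain ⟨n, hn⟩ := Φ.equiv g s v hv
    rw [hn]
    rfl
  filter_upwards [hc.continuousAt.eventually hg] with s hs
  rw [h1 s]
  exact hs.2.2

theorem Pres.isGeodesic (Φ : GFlow P) {v : ℂ × ℝ} (hv : v ∈ P.S) :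
    IsGeodesic P.metric (fun t => P.pr (Φ.φ t v).1) := by
  refine ⟨P.curve_contMDiff (P.isGeod_phi Φ hv), ?_⟩
  intro e he t ht w
  obtain ⟨v', hv', hc⟩ := P.curve_chart Φ hv he ht
  have hG := P.isGeod_phi Φ hv'
  have h1 : ∀ᶠ s in 𝓝 t, (Φ.φ s v').1 ∈ e.target ∧ e (P.pr (Φ.φ s v).1) = (Φ.φ s v').1 ∧
      deriv (fun r => e (P.pr (Φ.φ r v).1)) s = P.dir (Φ.φ s v') := by
    filter_upwards [hc, hc.eventually_nhds] with s hs hs'
    refine ⟨hs.1, hs.2, ?_⟩
    have h2 : (fun r => e (P.pr (Φ.φ r v).1)) =ᶠ[𝓝 s] fun r => (Φ.φ r v').1 :=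
      hs'.mono fun r hr => hr.2
    have h9 : HasDerivAt (fun r => (Φ.φ r v').1) (P.dir (Φ.φ s v')) s := (hG s).2.fst
    rw [h2.deriv_eq, h9.deriv]
  have h3 : (fun s => gram P.metric e (e (P.pr (Φ.φ s v).1))
      (deriv (fun r => e (P.pr (Φ.φ r v).1)) s) w) =ᶠ[𝓝 t]
      fun s => Real.exp (2 * P.u (Φ.φ s v').1) * inner ℝ (P.dir (Φ.φ s v')) w := by
    filter_upwards [h1] with s hs
    rw [hs.2.1, hs.2.2, P.gram_eq he hs.1]
  rw [h3.deriv_eq, (P.EL_aux hG w t).deriv]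
  obtain ⟨h4, h5, h6⟩ := h1.self_of_nhds
  rw [h5, h6]
  have hz : (Φ.φ t v').1 ∈ P.Ω := P.mem_S.mp (hG t).1
  have hu : DifferentiableAt ℝ P.u (Φ.φ t v').1 :=
    (P.smooth.contDiffAt (P.isOpen.mem_nhds hz)).differentiableAt (by simp)
  have h7 : (fun z => gram P.metric e z (P.dir (Φ.φ t v')) (P.dir (Φ.φ t v')))
      =ᶠ[𝓝 (Φ.φ t v').1] fun z => Real.exp (2 * P.u z) * ‖P.dir (Φ.φ t v')‖ ^ 2 := by
    filter_upwards [e.open_target.mem_nhds h4] with z hz'
    rw [P.gram_eq he hz', real_inner_self_eq_norm_sq]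
  have h8 : HasFDerivAt (fun z => Real.exp (2 * P.u z) * ‖P.dir (Φ.φ t v')‖ ^ 2)
      (‖P.dir (Φ.φ t v')‖ ^ 2 • (Real.exp (2 * P.u (Φ.φ t v').1) •
        ((2 : ℝ) • fderiv ℝ P.u (Φ.φ t v').1))) (Φ.φ t v').1 :=
    ((hu.hasFDerivAt.const_mul 2).exp).mul_const _
  rw [h7.fderiv_eq, h8.fderiv]
  simp only [_root_.smul_apply, smul_eq_mul]
  rw [P.norm_dir]
  have h9 : Real.exp (-P.u (Φ.φ t v').1) ^ 2 * Real.exp (2 * P.u (Φ.φ t v').1) = 1 := by
    rw [← Real.exp_nat_mul, ← Real.exp_add]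
    have : ((2 : ℕ) : ℝ) * -P.u (Φ.φ t v').1 + 2 * P.u (Φ.φ t v').1 = 0 := by push_cast; ring
    rw [this, Real.exp_zero]
  linear_combination -(fderiv ℝ P.u (Φ.φ t v').1 w) * h9

/-- the geodesic flow on the unit tangent bundle of `Ω / G` -/
def Pres.flow (Φ : GFlow P) (t : ℝ) (ξ : UnitTangent P.metric) : UnitTangent P.metric :=
  P.unit (Φ.φ t (P.unit_surj ξ).choose)

theorem Pres.unit_phi_add (Φ : GFlow P) {v : ℂ × ℝ} (hv : v ∈ P.S) (t : ℝ) (n : ℤ) :
    P.unit (Φ.φ t (v.1, v.2 + n * (2 * Real.pi))) = P.unit (Φ.φ t v) := by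
  have h1 : ∀ w : ℂ × ℝ, w ∈ P.S → ∀ k : ℕ, Φ.φ t (w.1, w.2 + k * (2 * Real.pi)) =
      ((Φ.φ t w).1, (Φ.φ t w).2 + k * (2 * Real.pi)) := by
    intro w hw k
    induction k with
    | zero => simp
    | succ k ih =>
      have h2 : (w.1, w.2 + k * (2 * Real.pi)) ∈ P.S := P.mem_S.mpr (P.mem_S.mp hw)
      have h3 := Φ.per t _ h2
      simp only at h3
      rw [ih] at h3
      simp only at h3
      have h4 : w.2 + ((k + 1 : ℕ) : ℝ) * (2 * Real.pi) =
          w.2 + k * (2 * Real.pi) + 2 * Real.pi := by push_cast; ring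
      have h5 : (Φ.φ t w).2 + ((k + 1 : ℕ) : ℝ) * (2 * Real.pi) =
          (Φ.φ t w).2 + k * (2 * Real.pi) + 2 * Real.pi := by push_cast; ring
      rw [h4, h5, h3]
  have h6 : ∀ w : ℂ × ℝ, w ∈ P.S → ∀ k : ℕ,
      P.unit (Φ.φ t (w.1, w.2 + k * (2 * Real.pi))) = P.unit (Φ.φ t w) := by
    intro w hw k
    rw [h1 w hw k]
    refine P.unit_eq_of (P.mem_S.mp (Φ.mem t w hw)) 1 k ?_
    have hw' := P.mem_S.mp (Φ.mem t w hw)
    have h2 : P.actS 1 (Φ.φ t w) = Φ.φ t w := by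
      have h3 : deriv (P.act 1) (Φ.φ t w).1 = 1 := by
        have h4 : HasDerivAt (P.act 1) 1 (Φ.φ t w).1 := by
          refine (hasDerivAt_id _).congr_of_eventuallyEq ?_
          filter_upwards [P.isOpen.mem_nhds hw'] with z hz
          exact P.act_one z hz
        exact h4.deriv
      rw [Pres.actS, P.act_one _ hw', h3, Complex.arg_one, add_zero]
    rw [h2]
    simp
  obtain ⟨k, rfl | rfl⟩ := n.eq_nat_or_neg
  · have := h6 v hv k
    simpa using this
  · have h7 : (v.1, v.2 + ((-(k : ℤ) : ℤ) : ℝ) * (2 * Real.pi)) ∈ P.S :=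
      P.mem_S.mpr (P.mem_S.mp hv)
    have h8 := h6 _ h7 k
    rw [← h8]
    congr 2
    refine Prod.ext rfl ?_
    simp only
    push_cast
    ring

theorem Pres.flow_unit (Φ : GFlow P) (t : ℝ) {v : ℂ × ℝ} (hv : v ∈ P.S) :
    P.flow Φ t (P.unit v) = P.unit (Φ.φ t v) := by
  have h1 := (P.unit_surj (P.unit v)).choose_spec
  obtain ⟨g, n, h⟩ := P.unit_eq_iff (P.mem_S.mp hv) (P.mem_S.mp h1.1) h1.2
  have h2 : P.actS g v ∈ P.S := P.mem_S.mpr (P.act_mem g v.1 (P.mem_S.mp hv))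
  rw [Pres.flow, h, P.unit_phi_add Φ h2 t n]
  obtain ⟨m, hm⟩ := Φ.equiv g t v hv
  rw [hm]
  exact P.unit_eq_of (P.mem_S.mp (Φ.mem t v hv)) g m rfl

theorem Pres.isGeodesicFlow (Φ : GFlow P) : IsGeodesicFlow P.metric (P.flow Φ) where
  zero := by
    intro ξ
    obtain ⟨v, hv, rfl⟩ := P.unit_surj ξ
    rw [P.flow_unit Φ 0 hv, Φ.zero]
  geodesic := by
    intro ξ
    obtain ⟨v, hv, rfl⟩ := P.unit_surj ξ
    have h1 : (fun t => (P.flow Φ t (P.unit v)).1.proj) = fun t => P.pr (Φ.φ t v).1 := by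
      funext t
      rw [P.flow_unit Φ t hv, P.unit_val (P.mem_S.mp (Φ.mem t v hv)), P.tv_proj]
    rw [h1]
    exact P.isGeodesic Φ hv
  velocity := by
    intro ξ t
    obtain ⟨v, hv, rfl⟩ := P.unit_surj ξ
    have h1 : (fun t => (P.flow Φ t (P.unit v)).1.proj) = fun t => P.pr (Φ.φ t v).1 := by
      funext t
      rw [P.flow_unit Φ t hv, P.unit_val (P.mem_S.mp (Φ.mem t v hv)), P.tv_proj]
    rw [h1, P.curve_velocity (P.isGeod_phi Φ hv), P.flow_unit Φ t hv,
      P.unit_val (P.mem_S.mp (Φ.mem t v hv))]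

end

end Pool.Agent.EQ

end

/-! ## Lib_helper99.EQF.Final -/

section

/-! Transfer of the core theorem to closed Riemannian surfaces. -/

set_option autoImplicit false

namespace Pool.Agent.EQ

open MeasureTheory Filter Topology Set
open scoped ContDiff Manifold

noncomputable section

variable (P : Pres)

/-- the sector over a null set of directions is a null set -/
theorem sector_null {Θ : Set ℝ} (hΘ : volume Θ = 0) : (volume : Measure ℂ) {w | w.arg ∈ Θ} = 0 := by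
  let f : ℝ × ℝ → ℝ × ℝ := fun p => (p.1 * Real.cos p.2, p.1 * Real.sin p.2)
  have hf : Differentiable ℝ f := by
    unfold f
    fun_prop
  have h0 : (volume : Measure (ℝ × ℝ)) ((univ : Set ℝ) ×ˢ Θ) = 0 := by
    rw [Measure.volume_eq_prod, Measure.prod_prod, hΘ, mul_zero]
  have h1 : (volume : Measure (ℝ × ℝ)) (f '' ((univ : Set ℝ) ×ˢ Θ)) = 0 :=
    addHaar_image_eq_zero_of_differentiableOn_of_addHaar_eq_zero volume hf.differentiableOn h0
  have h2 := Complex.volume_preserving_equiv_real_prod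
  have h3 : (volume : Measure ℂ)
      (Complex.measurableEquivRealProd ⁻¹' (f '' ((univ : Set ℝ) ×ˢ Θ))) = 0 :=
    h2.quasiMeasurePreserving.preimage_null h1
  refine measure_mono_null ?_ h3
  intro w hw
  refine ⟨(‖w‖, w.arg), ⟨mem_univ _, hw⟩, ?_⟩
  change (‖w‖ * Real.cos w.arg, ‖w‖ * Real.sin w.arg) = (w.re, w.im)
  rw [Complex.norm_mul_cos_arg, Complex.norm_mul_sin_arg]

theorem mulL_image_null (a : ℂ) {s : Set ℂ} (hs : (volume : Measure ℂ) s = 0) :
    (volume : Measure ℂ) (mulL a '' s) = 0 :=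
  addHaar_image_eq_zero_of_differentiableOn_of_addHaar_eq_zero volume
    (mulL a).differentiable.differentiableOn hs

theorem Pres.dir_of_norm {z w : ℂ} (h1 : Real.exp (2 * P.u z) * ‖w‖ ^ 2 = 1) :
    w = P.dir (z, w.arg) := by
  have h2 : ‖w‖ = Real.exp (-P.u z) := by
    have h3 : ‖w‖ ^ 2 = Real.exp (-P.u z) ^ 2 := by
      rw [← Real.exp_nat_mul]
      have h4 : Real.exp (2 * P.u z) * Real.exp (((2 : ℕ) : ℝ) * -P.u z) = 1 := by
        rw [← Real.exp_add]
        have : 2 * P.u z + ((2 : ℕ) : ℝ) * -P.u z = 0 := by push_cast; ring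
        rw [this, Real.exp_zero]
      exact mul_left_cancel₀ (Real.exp_pos _).ne' (h1.trans h4.symm)
    exact (pow_left_inj₀ (norm_nonneg _) (Real.exp_pos _).le two_ne_zero).mp h3
  rw [Pres.dir]
  simp only
  rw [← h2]
  exact (Complex.norm_mul_exp_arg_mul_I w).symm

theorem Pres.cone_null {A : Set (UnitTangent P.metric)} {z : ℂ} (hz : z ∈ P.Ω)
    (h : volume {θ : ℝ | (z, θ) ∈ P.liftSet A} = 0) :
    (volume : Measure ℂ) (coneAt P.metric A (P.pr z)) = 0 := by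
  obtain ⟨g, hg, hd⟩ := P.mfderiv_pr hz
  have ha := P.act_deriv_ne g hz
  refine measure_mono_null ?_ (mulL_image_null (deriv (P.act g) z) (sector_null h))
  have key : ∀ v : ℂ, v ∈ coneAt P.metric A (P.pr z) →
      v ∈ mulL (deriv (P.act g) z) '' {w | w.arg ∈ {θ : ℝ | (z, θ) ∈ P.liftSet A}} := by
    intro v hv
    obtain ⟨r, hr, _, ξ, hξ, hv⟩ := hv
    refine ⟨(deriv (P.act g) z)⁻¹ * v, ?_, ?_⟩
    · have h1 : ξ.1 = P.tv z (r⁻¹ • ((deriv (P.act g) z)⁻¹ * v)) := by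
        rw [hv]
        refine tb_ext rfl _ _ ?_
        rw [hd, mul_smul_comm, mul_inv_cancel_left₀ ha]
        rfl
      have h2 : Real.exp (2 * P.u z) * ‖r⁻¹ • ((deriv (P.act g) z)⁻¹ * v)‖ ^ 2 = 1 := by
        rw [← P.metric_tv hz, ← h1]
        exact ξ.2
      have h3 := P.dir_of_norm h2
      have h4 : (r⁻¹ • ((deriv (P.act g) z)⁻¹ * v)).arg = ((deriv (P.act g) z)⁻¹ * v).arg := by
        rw [Complex.real_smul]
        exact Complex.arg_real_mul _ (inv_pos.mpr hr)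
      rw [h4] at h3
      change (z, ((deriv (P.act g) z)⁻¹ * v).arg) ∈ P.liftSet A
      refine ⟨P.mem_S.mpr hz, ?_⟩
      have h5 : P.unit (z, ((deriv (P.act g) z)⁻¹ * v).arg) = ξ := by
        refine Subtype.ext ?_
        rw [P.unit_val (v := (z, ((deriv (P.act g) z)⁻¹ * v).arg)) hz, h1, ← h3]
      rw [h5]
      exact hξ
    · rw [mulL_apply, mul_inv_cancel_left₀ ha]
  exact key

theorem Pres.liouville_null {F : Set ℂ} (hF : P.IsFund F) {A : Set (UnitTangent P.metric)}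
    (h : volume (P.liftSet A) = 0) : liouville P.metric (P.mu F) A = 0 := by
  unfold liouville
  refine le_antisymm ?_ zero_le
  refine (lintegral_map_le _ _).trans ?_
  rw [Measure.volume_eq_prod] at h
  have h1 : ∀ᵐ z ∂(volume : Measure ℂ), volume (Prod.mk z ⁻¹' (P.liftSet A)) = 0 :=
    Measure.measure_ae_null_of_prod_null h
  have h2 : ∀ᵐ z ∂(P.area.restrict F), 2 * tangentArea P.metric (P.pr z)
      (coneAt P.metric A (P.pr z)) = 0 := by
    rw [ae_restrict_iff' hF.meas]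
    filter_upwards [P.area_ac.ae_le h1] with z hz hzF
    have h3 := P.cone_null (hF.sub hzF) hz
    unfold tangentArea
    rw [h3, mul_zero, mul_zero]
  rw [lintegral_congr_ae h2, lintegral_zero]

theorem Pres.liftSet_compl (A : Set (UnitTangent P.metric)) :
    P.liftSet Aᶜ = P.S \ P.liftSet A := by
  ext v
  simp only [Pres.liftSet, mem_ofPred_eq, mem_compl_iff, Set.mem_sdiff, not_and]
  tauto

theorem Pres.liftSet_flowInv (Φ : GFlow P) {A : Set (UnitTangent P.metric)}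
    (hA : ∀ t, P.flow Φ t ⁻¹' A = A) : P.FlowInv (P.liftSet A) := by
  intro c hc s t
  have h1 : c t = Φ.φ (t - s) (c s) := by
    have := Φ.uniq c hc (t - s) s
    rwa [sub_add_cancel] at this
  have h2 : P.unit (c t) = P.flow Φ (t - s) (P.unit (c s)) := by
    rw [P.flow_unit Φ _ (hc s).1, h1]
  have h3 : P.unit (c s) ∈ A ↔ P.unit (c t) ∈ A := by
    rw [h2]
    conv_lhs => rw [← hA (t - s)]
    rfl
  constructor
  · rintro ⟨_, h⟩
    exact ⟨(hc t).1, h3.mp h⟩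
  · rintro ⟨_, h⟩
    exact ⟨(hc s).1, h3.mpr h⟩

/-- the closed Riemannian surface `Ω / G` -/
def Pres.surface {F : Set ℂ} (hF : P.IsFund F) : ClosedSurface where
  M := P.M
  g := P.metric
  area := P.mu F
  isArea := P.isRiemannianArea hF

theorem Pres.surface_ergodic (Φ : GFlow P) (hP : P.Ergodic) {F : Set ℂ} (hF : P.IsFund F) :
    (P.surface hF).IsErgodic := by
  refine ⟨P.flow Φ, P.isGeodesicFlow Φ, ?_⟩
  intro A hA hinv
  rcases hP (P.liftSet A) (P.liftSet_isSetUM hA) (P.liftSet_flowInv Φ hinv) with h | h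
  · left
    refine P.liouville_null hF ?_
    rwa [inter_eq_self_of_subset_right (fun v hv => hv.1)] at h
  · right
    refine P.liouville_null hF ?_
    exact (congrArg volume (P.liftSet_compl A)).trans h

theorem Pres.pr_isOpen_image {U : Set ℂ} (hU : IsOpen U) (hs : U ⊆ P.Ω) :
    IsOpen (P.pr '' U) := by
  have h1 : P.pr '' U = P.qm '' (Subtype.val ⁻¹' U) := by
    ext x
    constructor
    · rintro ⟨z, hz, rfl⟩
      exact ⟨⟨z, hs hz⟩, hz, (P.pr_of_mem (hs hz)).symm⟩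
    · rintro ⟨z, hz, rfl⟩
      exact ⟨z.1, hz, P.pr_val z⟩
  rw [h1]
  exact P.qm_isOpenMap _ (hU.preimage continuous_subtype_val)

theorem Pres.pr_mem_image {D : Set ℂ} (hD : P.IsJordan D) {z : ℂ} (hz : z ∈ P.Ω) :
    P.pr z ∈ P.pr '' D ↔ z ∈ D := by
  constructor
  · rintro ⟨w, hw, h⟩
    obtain ⟨g, hg⟩ := (P.pr_eq_iff hz (hD.sub hw)).mp h.symm
    rw [← hg]
    exact (hD.inv g w (hD.sub hw)).mpr hw
  · exact fun h => mem_image_of_mem _ h

theorem Pres.pr_frontier {D : Set ℂ} (hD : P.IsJordan D) {z : ℂ} (hz : z ∈ P.Ω)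
    (h : P.pr z ∈ frontier (P.pr '' D)) : z ∈ frontier D := by
  have h1 : P.pr z ∉ P.pr '' D := by
    have h2 := (P.pr_isOpen_image hD.isOpen hD.sub).frontier_eq
    rw [h2] at h
    exact h.2
  have h3 : z ∉ D := fun hh => h1 (mem_image_of_mem _ hh)
  rw [hD.isOpen.frontier_eq]
  refine ⟨?_, h3⟩
  rw [mem_closure_iff]
  intro U hU hzU
  have h4 : P.pr z ∈ closure (P.pr '' D) := frontier_subset_closure h
  rw [mem_closure_iff] at h4
  obtain ⟨x, ⟨w, hw, hwx⟩, y, hy, hyx⟩ := h4 (P.pr '' (U ∩ P.Ω))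
    (P.pr_isOpen_image (hU.inter P.isOpen) inter_subset_right)
    (mem_image_of_mem _ ⟨hzU, hz⟩)
  refine ⟨w, hw.1, ?_⟩
  rw [← P.pr_mem_image hD hw.2, hwx, ← hyx]
  exact mem_image_of_mem _ hy

/-- **Transfer.** The core theorem gives the final statement. -/
theorem final_of_core (hflow : ∀ P : Pres, Nonempty (GFlow P)) (h : CoreStatement) :
    FinalStatement := by
  intro ε hε
  obtain ⟨P, hP, D, F, ψ, lam, hD, hF, hpos, hfin, heig, hlam, hnorm, hmass⟩ := h ε hε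
  obtain ⟨Φ⟩ := hflow P
  have hopen := P.pr_isOpen_image hD.isOpen hD.sub
  have hpre : P.pr ⁻¹' (P.pr '' D) ∩ F = F ∩ D := by
    ext z
    constructor
    · rintro ⟨h1, h2⟩
      exact ⟨h2, (P.pr_mem_image hD (hF.sub h2)).mp h1⟩
    · rintro ⟨h1, h2⟩
      exact ⟨mem_image_of_mem _ h2, h1⟩
  have hmuD : P.mu F (P.pr '' D) = P.area (F ∩ D) := by
    rw [P.mu_apply F hopen.measurableSet, hpre]
  have hmuU : P.mu F univ = P.area F := by
    rw [P.mu_apply F MeasurableSet.univ, preimage_univ, univ_inter]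
  refine ⟨P.surface hF, P.surface_ergodic Φ hP hF, fun j => P.desc (ψ j), lam, ?_,
    P.pr '' D, hopen, ?_, ?_, ?_, ?_⟩
  · refine ⟨fun j => P.isEigenfunction (heig j), fun j => ?_, hlam⟩
    have h1 := P.integral_desc (heig j).toIsFun hF MeasurableSet.univ
    rw [setIntegral_univ, preimage_univ, univ_inter, hnorm j] at h1
    exact h1
  · have h1 : P.mu F (frontier (P.pr '' D)) = 0 := by
      rw [P.mu_apply F isClosed_frontier.measurableSet]
      refine measure_mono_null ?_ (P.area_ac hD.bdry)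
      rintro z ⟨h2, h3⟩
      exact ⟨P.pr_frontier hD (hF.sub h3) h2, hF.sub h3⟩
    exact h1
  · have h1 : 0 < P.mu F (P.pr '' D) := by
      rw [hmuD]
      exact hpos
    exact h1
  · have h1 : P.mu F univ < ⊤ := by
      rw [hmuU]
      exact hfin
    exact h1
  · intro j
    have h1 := P.integral_desc (heig j).toIsFun hF hopen.measurableSet
    rw [hpre] at h1
    have h2 := hmass j
    rw [← h1, ← hmuD, ← hmuU] at h2
    exact h2

/-- The final statement implies the negated form of the problem: a closed Riemannian surface with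
ergodic geodesic flow and a sequence of normalised eigenfunctions, with eigenvalues tending to
infinity, which is not equidistributed. -/
theorem negated_of_final (h : FinalStatement) :
    ∃ S : ClosedSurface, S.IsErgodic ∧ ∃ (ψ : ℕ → S.M → ℝ) (lam : ℕ → ℝ),
      S.EigenSequence ψ lam ∧ ¬ S.Equidistributed ψ := by
  obtain ⟨S, hS, ψ, lam, hE, D, hD, hf, hpos, hfin, hm⟩ := h (1 / 2) (by norm_num)
  refine ⟨S, hS, ψ, lam, hE, fun hq => ?_⟩
  have h1 := le_of_tendsto' (hq D hD hf) hm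
  have h2 : S.area.real D / S.area.real univ ≤ 0 := by linarith
  have h3 : 0 < S.area.real univ :=
    ENNReal.toReal_pos (lt_of_lt_of_le hpos (measure_mono (subset_univ D))).ne' hfin.ne
  have h4 : 0 < S.area.real D :=
    ENNReal.toReal_pos hpos.ne' (lt_of_le_of_lt (measure_mono (subset_univ D)) hfin).ne
  exact absurd h2 (not_le.mpr (div_pos h4 h3))

end

end Pool.Agent.EQ

end

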